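import Pool.Agent.IP49.URay

/-!
IP49, part C (helper49): continuity statements used in the assembly, from ContA and URay.
-/

set_option autoImplicit false
open MeasureTheory ProbabilityTheory Filter Topology

namespace Pool.Agent.IP49

theorem al_cont_psi : ContinuousOn (fun ψ => al 0 0 ψ) (Set.Ioi 0) := by
  intro ψ hψ
  exact (al_tendsto (k := fun _ => 0) (n := fun _ => 0) (p := fun x => x) tendsto_const_nhds
    tendsto_const_nhds (Eventually.of_forall fun _ => le_refl _) (le_refl _) tendsto_id).mono_left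
    nhdsWithin_le_nhds

theorem GG_cont_psi : ContinuousOn (fun ψ => GG 0 ψ) (Set.Ioi 0) := by
  intro ψ hψ
  exact (GG_tendsto (k := fun _ => 0) (p := fun x => x) tendsto_const_nhds tendsto_id).mono_left
    nhdsWithin_le_nhds

theorem al_tendsto_kappa {ψ : ℝ} (hψ : 0 < ψ) :
    Tendsto (fun κ => al κ 0 ψ) (𝓝 0) (𝓝 (al 0 0 ψ)) :=
  al_tendsto (k := fun x => x) (n := fun _ => 0) (p := fun _ => ψ) tendsto_id tendsto_const_nhds
    (Eventually.of_forall fun _ => le_refl _) (le_refl _) tendsto_const_nhds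

theorem AT_tendsto_kappa {ψ : ℝ} (hψ : 0 < ψ) :
    Tendsto (fun κ => AT κ 0 ψ) (𝓝 0) (𝓝 (AT 0 0 ψ)) :=
  AT_tendsto (k := fun x => x) (n := fun _ => 0) (p := fun _ => ψ) tendsto_id tendsto_const_nhds
    (Eventually.of_forall fun _ => le_refl _) (le_refl _) tendsto_const_nhds

theorem neg_ray : Tendsto (fun ν : ℝ => -ν) (𝓝[>] 0) (𝓝 0) := by
  have : Tendsto (fun ν : ℝ => -ν) (𝓝 0) (𝓝 (-0)) := tendsto_id.neg
  rw [neg_zero] at this
  exact this.mono_left nhdsWithin_le_nhds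

theorem id_ray : Tendsto (fun ν : ℝ => ν) (𝓝[>] 0) (𝓝 0) := tendsto_id.mono_left nhdsWithin_le_nhds

theorem nonneg_ray : ∀ᶠ ν : ℝ in 𝓝[>] 0, 0 ≤ ν := by
  filter_upwards [self_mem_nhdsWithin] with ν hν
  exact le_of_lt hν

/-- joint limits along the ray `κ = -ν`, `ν ↓ 0` -/
theorem al_tendsto_ray {ψ : ℝ} (hψ : 0 < ψ) :
    Tendsto (fun ν => al (-ν) ν ψ) (𝓝[>] 0) (𝓝 (al 0 0 ψ)) :=
  al_tendsto (p := fun _ => ψ) neg_ray id_ray nonneg_ray (le_refl _) tendsto_const_nhds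

theorem AT_tendsto_ray {ψ : ℝ} (hψ : 0 < ψ) :
    Tendsto (fun ν => AT (-ν) ν ψ) (𝓝[>] 0) (𝓝 (AT 0 0 ψ)) :=
  AT_tendsto (p := fun _ => ψ) neg_ray id_ray nonneg_ray (le_refl _) tendsto_const_nhds

theorem dd_tendsto_ray {ψ : ℝ} (hψ : 0 < ψ) :
    Tendsto (fun ν => dd (-ν) ν ψ) (𝓝[>] 0) (𝓝 (dd 0 0 ψ)) :=
  dd_tendsto (p := fun _ => ψ) neg_ray id_ray nonneg_ray (le_refl _) tendsto_const_nhds

end Pool.Agent.IP49
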