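import Pool.Agent.IP49.RSA

/-!
IP49 library, module ContA: the replica symmetric quantities depend continuously on `(κ, ν, ψ)`
(`ν ≥ 0`).

PROOFS. `GE_affine_tendsto` is dominated convergence (`tendsto_GE`): near the limit
`|a i| ≤ A`, `|b i| ≤ B`, so `1 + (a + b x)² ≤ (1 + 2A² + 2B²)(1 + x²)`. `qp`: `tanh(√p x)² ≤ 1`.
`FF κ ν q (√q x) = Mi (κ/τ' + (-√q/τ') x)/τ'`, `gf κ ν q (√q x) = Md (κ/τ' + (-√q/τ') x)/τ'²`,
`τ' = √(1 - q + ν) > 0` continuous; `|Mi u| ≤ 1 + |u|`, `0 < Md < 1`,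
`|log Ph u| ≤ 2 + u²`, `lc x ≤ |x| + log 2`.
-/

set_option autoImplicit false
open MeasureTheory ProbabilityTheory Filter Topology

namespace Pool.Agent.IP49

section
variable {ι : Type*} {l : Filter ι} [l.IsCountablyGenerated]

theorem GE_affine_tendsto {G : ℝ → ℝ} (hG : Continuous G) {C : ℝ} {m : ℕ}
    (hb : ∀ u, |G u| ≤ C * (1 + u ^ 2) ^ m) {a b : ι → ℝ} {a₀ b₀ : ℝ}
    (ha : Tendsto a l (𝓝 a₀)) (hb' : Tendsto b l (𝓝 b₀)) :
    Tendsto (fun i => GE fun x => G (a i + b i * x)) l (𝓝 (GE fun x => G (a₀ + b₀ * x))) := by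
  have hC : 0 ≤ C := by
    have := (abs_nonneg _).trans (hb 0)
    simpa using this
  have hA : ∀ᶠ i in l, |a i| ≤ |a₀| + 1 := by
    have := ha.abs.eventually (eventually_le_nhds (show |a₀| < |a₀| + 1 by linarith))
    exact this
  have hB : ∀ᶠ i in l, |b i| ≤ |b₀| + 1 := by
    have := hb'.abs.eventually (eventually_le_nhds (show |b₀| < |b₀| + 1 by linarith))
    exact this
  refine tendsto_GE (C := C * (1 + 2 * (|a₀| + 1) ^ 2 + 2 * (|b₀| + 1) ^ 2) ^ m) (k := m)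
    (Eventually.of_forall fun i => ?_) ?_ ?_
  · exact hG.measurable.comp (by fun_prop)
  · filter_upwards [hA, hB] with i h1 h2 x
    refine (hb _).trans ?_
    rw [mul_assoc, ← mul_pow]
    refine mul_le_mul_of_nonneg_left ?_ hC
    refine pow_le_pow_left₀ (by positivity) ?_ m
    have h3 : a i ^ 2 ≤ (|a₀| + 1) ^ 2 := by
      rw [← sq_abs (a i)]
      exact pow_le_pow_left₀ (abs_nonneg _) h1 2
    have h4 : b i ^ 2 ≤ (|b₀| + 1) ^ 2 := by
      rw [← sq_abs (b i)]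
      exact pow_le_pow_left₀ (abs_nonneg _) h2 2
    have h5 : b i ^ 2 * x ^ 2 ≤ (|b₀| + 1) ^ 2 * x ^ 2 :=
      mul_le_mul_of_nonneg_right h4 (sq_nonneg x)
    have h6 : (a i + b i * x) ^ 2 ≤ 2 * a i ^ 2 + 2 * (b i ^ 2 * x ^ 2) := by
      nlinarith [sq_nonneg (a i - b i * x)]
    have h7 : 0 ≤ (|a₀| + 1) ^ 2 * x ^ 2 := by positivity
    have h8 : 0 ≤ (|b₀| + 1) ^ 2 := by positivity
    nlinarith [sq_nonneg x]
  · intro x
    exact (hG.tendsto _).comp (ha.add (hb'.mul_const x))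

variable {k n p : ι → ℝ} {κ ν ψ : ℝ}

theorem qp_tendsto (hp : Tendsto p l (𝓝 ψ)) : Tendsto (fun i => qp (p i)) l (𝓝 (qp ψ)) := by
  have hG : Continuous (fun u : ℝ => Real.tanh u ^ 2) :=
    (continuous_iff_continuousAt.2 fun x => (hasDerivAt_tanh x).continuousAt).pow 2
  have hb : ∀ u : ℝ, |(fun u : ℝ => Real.tanh u ^ 2) u| ≤ 1 * (1 + u ^ 2) ^ 0 := by
    intro u
    simp only [pow_zero, mul_one]
    rw [abs_of_nonneg (sq_nonneg _)]
    exact (tanh_sq_lt u).le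
  have h := GE_affine_tendsto (l := l) hG hb (a := fun _ => 0) (b := fun i => Real.sqrt (p i))
    tendsto_const_nhds (hp.sqrt)
  simp only [zero_add] at h
  exact h

theorem ES2_tendsto (hp : Tendsto p l (𝓝 ψ)) : Tendsto (fun i => ES2 (p i)) l (𝓝 (ES2 ψ)) := by
  have hG : Continuous (fun u : ℝ => (1 - Real.tanh u ^ 2) ^ 2) :=
    (continuous_const.sub
      ((continuous_iff_continuousAt.2 fun x => (hasDerivAt_tanh x).continuousAt).pow 2)).pow 2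
  have hb : ∀ u : ℝ, |(fun u : ℝ => (1 - Real.tanh u ^ 2) ^ 2) u| ≤ 1 * (1 + u ^ 2) ^ 0 := by
    intro u
    simp only [pow_zero, mul_one]
    rw [abs_of_nonneg (sq_nonneg _)]
    have h1 := (tanh_sq_lt u).le
    have h2 := sq_nonneg (Real.tanh u)
    exact pow_le_one₀ (by linarith) (by linarith)
  have h := GE_affine_tendsto (l := l) hG hb (a := fun _ => 0) (b := fun i => Real.sqrt (p i))
    tendsto_const_nhds (hp.sqrt)
  simp only [zero_add] at h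
  exact h

theorem Elc_tendsto (hp : Tendsto p l (𝓝 ψ)) :
    Tendsto (fun i => GE fun x => lc (Real.sqrt (p i) * x)) l
      (𝓝 (GE fun x => lc (Real.sqrt ψ * x))) := by
  have hG : Continuous lc := continuous_iff_continuousAt.2 fun x => (hasDerivAt_lc x).continuousAt
  have hb : ∀ u : ℝ, |lc u| ≤ 2 * (1 + u ^ 2) ^ 1 := by
    intro u
    obtain ⟨h1, h2⟩ := lc_bounds u
    rw [abs_of_nonneg ((abs_nonneg u).trans h1), pow_one]
    have h3 := Real.log_two_lt_d9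
    have h4 : u ^ 2 = |u| ^ 2 := (sq_abs u).symm
    rw [h4]
    nlinarith [sq_nonneg (|u| - 1 / 4)]
  have h := GE_affine_tendsto (l := l) hG hb (a := fun _ => 0) (b := fun i => Real.sqrt (p i))
    tendsto_const_nhds (hp.sqrt)
  simpa only [zero_add] using h

private theorem tp_tendsto (hn : Tendsto n l (𝓝 ν)) (hp : Tendsto p l (𝓝 ψ)) :
    Tendsto (fun i => tp (n i) (qp (p i))) l (𝓝 (tp ν (qp ψ))) := by
  unfold tp
  exact ((tendsto_const_nhds.sub (qp_tendsto hp)).add hn).sqrt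

private theorem affine_eq (κ t s x : ℝ) : (κ - s * x) / t = κ / t + (-s / t) * x := by
  ring

theorem EF2_tendsto (hk : Tendsto k l (𝓝 κ)) (hn : Tendsto n l (𝓝 ν))
    (hn0 : ∀ᶠ i in l, 0 ≤ n i) (hν : 0 ≤ ν) (hp : Tendsto p l (𝓝 ψ)) :
    Tendsto (fun i => GE fun x => FF (k i) (n i) (qp (p i)) (Real.sqrt (qp (p i)) * x) ^ 2) l
      (𝓝 (GE fun x => FF κ ν (qp ψ) (Real.sqrt (qp ψ) * x) ^ 2)) := by
  have hG : Continuous (fun u : ℝ => Mi u ^ 2) := continuous_Mi.pow 2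
  have hb : ∀ u : ℝ, |(fun u : ℝ => Mi u ^ 2) u| ≤ 2 * (1 + u ^ 2) ^ 1 := by
    intro u
    simp only [pow_one]
    rw [abs_of_nonneg (sq_nonneg _)]
    have h1 := Mi_le_abs u
    have h2 := (Mi_pos u).le
    have h4 : u ^ 2 = |u| ^ 2 := (sq_abs u).symm
    rw [h4]
    nlinarith [sq_nonneg (|u| - 1), abs_nonneg u]
  have ht := tp_tendsto hn hp
  have ht0 : tp ν (qp ψ) ≠ 0 := (tp_pos hν qp_lt_one).ne'
  have h := GE_affine_tendsto (l := l) hG hb (a := fun i => k i / tp (n i) (qp (p i)))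
    (b := fun i => -Real.sqrt (qp (p i)) / tp (n i) (qp (p i)))
    (hk.div ht ht0) ((qp_tendsto hp).sqrt.neg.div ht ht0)
  have key : ∀ κ ν ψ : ℝ, (GE fun x => FF κ ν (qp ψ) (Real.sqrt (qp ψ) * x) ^ 2) =
      (tp ν (qp ψ) ^ 2)⁻¹ * GE fun x =>
        Mi (κ / tp ν (qp ψ) + (-Real.sqrt (qp ψ) / tp ν (qp ψ)) * x) ^ 2 := by
    intro κ ν ψ
    rw [← GE_mul]
    congr 1
    funext x
    rw [FF, affine_eq, div_pow, div_eq_inv_mul]
  simp only [key]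
  exact ((ht.pow 2).inv₀ (pow_ne_zero 2 ht0)).mul h

theorem Eg_tendsto (hk : Tendsto k l (𝓝 κ)) (hn : Tendsto n l (𝓝 ν))
    (hn0 : ∀ᶠ i in l, 0 ≤ n i) (hν : 0 ≤ ν) (hp : Tendsto p l (𝓝 ψ)) :
    Tendsto (fun i => GE fun x => gf (k i) (n i) (qp (p i)) (Real.sqrt (qp (p i)) * x)) l
      (𝓝 (GE fun x => gf κ ν (qp ψ) (Real.sqrt (qp ψ) * x))) := by
  have hb : ∀ u : ℝ, |Md u| ≤ 1 * (1 + u ^ 2) ^ 0 := by
    intro u
    simp only [pow_zero, mul_one]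
    rw [abs_of_pos (Md_pos u)]
    exact (Md_lt_one u).le
  have ht := tp_tendsto hn hp
  have ht0 : tp ν (qp ψ) ≠ 0 := (tp_pos hν qp_lt_one).ne'
  have h := GE_affine_tendsto (l := l) continuous_Md hb
    (a := fun i => k i / tp (n i) (qp (p i)))
    (b := fun i => -Real.sqrt (qp (p i)) / tp (n i) (qp (p i)))
    (hk.div ht ht0) ((qp_tendsto hp).sqrt.neg.div ht ht0)
  have key : ∀ κ ν ψ : ℝ, (GE fun x => gf κ ν (qp ψ) (Real.sqrt (qp ψ) * x)) =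
      (tp ν (qp ψ) ^ 2)⁻¹ * GE fun x =>
        Md (κ / tp ν (qp ψ) + (-Real.sqrt (qp ψ) / tp ν (qp ψ)) * x) := by
    intro κ ν ψ
    rw [← GE_mul]
    congr 1
    funext x
    rw [gf, affine_eq, div_eq_inv_mul]
  simp only [key]
  exact ((ht.pow 2).inv₀ (pow_ne_zero 2 ht0)).mul h

theorem Eg2_tendsto (hk : Tendsto k l (𝓝 κ)) (hn : Tendsto n l (𝓝 ν))
    (hn0 : ∀ᶠ i in l, 0 ≤ n i) (hν : 0 ≤ ν) (hp : Tendsto p l (𝓝 ψ)) :
    Tendsto (fun i => GE fun x => gf (k i) (n i) (qp (p i)) (Real.sqrt (qp (p i)) * x) ^ 2) l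
      (𝓝 (GE fun x => gf κ ν (qp ψ) (Real.sqrt (qp ψ) * x) ^ 2)) := by
  have hG : Continuous (fun u : ℝ => Md u ^ 2) := continuous_Md.pow 2
  have hb : ∀ u : ℝ, |(fun u : ℝ => Md u ^ 2) u| ≤ 1 * (1 + u ^ 2) ^ 0 := by
    intro u
    simp only [pow_zero, mul_one]
    rw [abs_of_nonneg (sq_nonneg _)]
    exact pow_le_one₀ (Md_pos u).le (Md_lt_one u).le
  have ht := tp_tendsto hn hp
  have ht0 : tp ν (qp ψ) ≠ 0 := (tp_pos hν qp_lt_one).ne'
  have h := GE_affine_tendsto (l := l) hG hb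
    (a := fun i => k i / tp (n i) (qp (p i)))
    (b := fun i => -Real.sqrt (qp (p i)) / tp (n i) (qp (p i)))
    (hk.div ht ht0) ((qp_tendsto hp).sqrt.neg.div ht ht0)
  have key : ∀ κ ν ψ : ℝ, (GE fun x => gf κ ν (qp ψ) (Real.sqrt (qp ψ) * x) ^ 2) =
      ((tp ν (qp ψ) ^ 2) ^ 2)⁻¹ * GE fun x =>
        Md (κ / tp ν (qp ψ) + (-Real.sqrt (qp ψ) / tp ν (qp ψ)) * x) ^ 2 := by
    intro κ ν ψ
    rw [← GE_mul]
    congr 1
    funext x
    rw [gf, affine_eq, div_pow, div_eq_inv_mul]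
  simp only [key]
  exact (((ht.pow 2).pow 2).inv₀ (pow_ne_zero 2 (pow_ne_zero 2 ht0))).mul h

theorem al_tendsto (hk : Tendsto k l (𝓝 κ)) (hn : Tendsto n l (𝓝 ν))
    (hn0 : ∀ᶠ i in l, 0 ≤ n i) (hν : 0 ≤ ν) (hp : Tendsto p l (𝓝 ψ)) :
    Tendsto (fun i => al (k i) (n i) (p i)) l (𝓝 (al κ ν ψ)) := by
  unfold al
  exact hp.div (EF2_tendsto hk hn hn0 hν hp) (EF2_pos hν).ne'

theorem dd_tendsto (hk : Tendsto k l (𝓝 κ)) (hn : Tendsto n l (𝓝 ν))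
    (hn0 : ∀ᶠ i in l, 0 ≤ n i) (hν : 0 ≤ ν) (hp : Tendsto p l (𝓝 ψ)) :
    Tendsto (fun i => dd (k i) (n i) (p i)) l (𝓝 (dd κ ν ψ)) := by
  unfold dd
  exact ((al_tendsto hk hn hn0 hν hp).mul (Eg_tendsto hk hn hn0 hν hp)).neg

theorem AT_tendsto (hk : Tendsto k l (𝓝 κ)) (hn : Tendsto n l (𝓝 ν))
    (hn0 : ∀ᶠ i in l, 0 ≤ n i) (hν : 0 ≤ ν) (hp : Tendsto p l (𝓝 ψ)) :
    Tendsto (fun i => AT (k i) (n i) (p i)) l (𝓝 (AT κ ν ψ)) := by
  unfold AT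
  exact ((al_tendsto hk hn hn0 hν hp).mul (Eg2_tendsto hk hn hn0 hν hp)).mul (ES2_tendsto hp)

theorem GG_tendsto (hk : Tendsto k l (𝓝 κ)) (hp : Tendsto p l (𝓝 ψ)) :
    Tendsto (fun i => GG (k i) (p i)) l (𝓝 (GG κ ψ)) := by
  have hq := qp_tendsto hp
  have hG : Continuous (fun u : ℝ => Real.log (Ph u)) :=
    continuous_iff_continuousAt.2 fun x => (hasDerivAt_logPh x).continuousAt
  have hb : ∀ u : ℝ, |(fun u : ℝ => Real.log (Ph u)) u| ≤ 2 * (1 + u ^ 2) ^ 1 := by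
    intro u
    simp only [pow_one]
    rw [abs_of_nonpos (logPh_nonpos u)]
    have h1 := logPh_ge u
    nlinarith [sq_nonneg u]
  have hs : Tendsto (fun i => Real.sqrt (1 - qp (p i))) l (𝓝 (Real.sqrt (1 - qp ψ))) :=
    (tendsto_const_nhds.sub hq).sqrt
  have hs0 : Real.sqrt (1 - qp ψ) ≠ 0 :=
    (Real.sqrt_pos.2 (by have := qp_lt_one (ψ := ψ); linarith)).ne'
  have h := GE_affine_tendsto (l := l) hG hb
    (a := fun i => k i / Real.sqrt (1 - qp (p i)))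
    (b := fun i => -Real.sqrt (qp (p i)) / Real.sqrt (1 - qp (p i)))
    (hk.div hs hs0) (hq.sqrt.neg.div hs hs0)
  have hal : Tendsto (fun i => al (k i) 0 (p i)) l (𝓝 (al κ 0 ψ)) :=
    al_tendsto (n := fun _ => 0) hk tendsto_const_nhds (Eventually.of_forall fun _ => le_rfl)
      le_rfl hp
  unfold GG
  simp only [affine_eq]
  exact (((hp.neg.mul (tendsto_const_nhds.sub hq)).div_const 2).add (Elc_tendsto hp)).add
    (hal.mul h)

end

end Pool.Agent.IP49
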