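import Mathlib

/-!
IP49 (MP_06b7e0_pr, frozen statement S19123): definitions shared by all parts.
The proof is in notes 1599 (A: overview, R), 1604 (B: S, L), 1605 (C: U) of helper49,
1598 (R, helper44), 1603 (S, helper2), 1602 (L, helper41).
-/

set_option autoImplicit false
open MeasureTheory ProbabilityTheory Filter Topology

namespace Pool.Agent.IP49

noncomputable section

/-- expectation of `f(Z)`, `Z` standard Gaussian -/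
def GE (f : ℝ → ℝ) : ℝ := ∫ x, f x ∂(gaussianReal 0 1)

/-- standard Gaussian density -/
def phi (x : ℝ) : ℝ := Real.exp (-x ^ 2 / 2) / Real.sqrt (2 * Real.pi)

/-- upper tail `P(Z ≥ z)` -/
def Ph (z : ℝ) : ℝ := (gaussianReal 0 1).real (Set.Ici z)

/-- inverse Mills ratio (`E` in the notes) -/
def Mi (z : ℝ) : ℝ := phi z / Ph z

/-- derivative of the inverse Mills ratio: `E' = E (E - z)` -/
def Md (z : ℝ) : ℝ := Mi z * (Mi z - z)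

/-- `log (2 cosh x)` -/
def lc (x : ℝ) : ℝ := Real.log (2 * Real.cosh x)

/-- `q(ψ) = E tanh²(√ψ Z)` -/
def qp (ψ : ℝ) : ℝ := GE fun x => Real.tanh (Real.sqrt ψ * x) ^ 2

/-- `E sech⁴(√ψ Z)` -/
def ES2 (ψ : ℝ) : ℝ := GE fun x => (1 - Real.tanh (Real.sqrt ψ * x) ^ 2) ^ 2

/-- `τ' = √(1 - q + ν)` -/
def tp (ν q : ℝ) : ℝ := Real.sqrt (1 - q + ν)

/-- `F(x) = E((κ - x)/τ')/τ'` -/
def FF (κ ν q x : ℝ) : ℝ := Mi ((κ - x) / tp ν q) / tp ν q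

/-- `g = -F'` -/
def gf (κ ν q x : ℝ) : ℝ := Md ((κ - x) / tp ν q) / tp ν q ^ 2

/-- `α = ψ / E F(√q Z)²` -/
def al (κ ν ψ : ℝ) : ℝ := ψ / GE fun x => FF κ ν (qp ψ) (Real.sqrt (qp ψ) * x) ^ 2

/-- `d = - α E g(√q Z)` -/
def dd (κ ν ψ : ℝ) : ℝ := -(al κ ν ψ * GE fun x => gf κ ν (qp ψ) (Real.sqrt (qp ψ) * x))

/-- the de Almeida - Thouless number `α E g² · E sech⁴` -/
def AT (κ ν ψ : ℝ) : ℝ :=
  al κ ν ψ * (GE fun x => gf κ ν (qp ψ) (Real.sqrt (qp ψ) * x) ^ 2) * ES2 ψ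

/-- the replica symmetric free entropy (`ν = 0`) -/
def GG (κ ψ : ℝ) : ℝ :=
  -ψ * (1 - qp ψ) / 2 + (GE fun x => lc (Real.sqrt ψ * x))
    + al κ 0 ψ * GE fun x => Real.log (Ph ((κ - Real.sqrt (qp ψ) * x) / Real.sqrt (1 - qp ψ)))

/-! ### Part L: the pair exponent -/

/-- `P(ξ ≥ x, ξ' ≥ x)`, correlation `lam` -/
def Pl (lam x : ℝ) : ℝ :=
  ((gaussianReal 0 1).prod (gaussianReal 0 1)).real
    {p : ℝ × ℝ | x ≤ p.1 ∧ x ≤ lam * p.1 + Real.sqrt (1 - lam ^ 2) * p.2}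

/-- the argument `z = (κ - √q Z)/√(1-q)` -/
def zz (κ ψ x : ℝ) : ℝ := (κ - Real.sqrt (qp ψ) * x) / Real.sqrt (1 - qp ψ)

/-- constraint exponent of a pair with correlation `lam`, tilt parameter `th` -/
def con (κ ψ th lam : ℝ) : ℝ :=
  (1 + th) ^ 2 * (1 - qp ψ) * ψ / (1 + lam)
    + al κ 0 ψ * GE fun x => Real.log (Pl lam (zz κ ψ x + th * Mi (zz κ ψ x)))

/-- constraint exponent for nonpositive correlation, `th = -1`, `P_lam ≤ Φ̄²` -/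
def conC (κ ψ : ℝ) : ℝ :=
  2 * al κ 0 ψ * GE fun x => Real.log (Ph (zz κ ψ x - Mi (zz κ ψ x)))

/-- spin exponent of a pair with overlap `q + lam (1-q)`, tilts `l s e` -/
def sp (ψ lam l s e : ℝ) : ℝ :=
  (GE fun x => Real.log (2 * Real.exp e
      * Real.cosh (2 * (l * Real.tanh (Real.sqrt ψ * x) + s * (Real.sqrt ψ * x)))
      + 2 * Real.exp (-e)))
    - 2 * l * qp ψ - 2 * s * ψ * (1 - qp ψ) - e * (qp ψ + lam * (1 - qp ψ))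

/-- condition (L*) of note B -/
def LStar (κ ψ : ℝ) : Prop :=
  ∀ lam ∈ Set.Icc (-1 : ℝ) 1,
    (lam ≤ 0 ∧ ∃ l s e : ℝ, sp ψ lam l s e + conC κ ψ ≤ 2 * GG κ ψ) ∨
    (-1 < lam ∧ ∃ l s e th : ℝ, sp ψ lam l s e + con κ ψ th lam ≤ 2 * GG κ ψ)

/-! ### Part U: the first moment exponent -/

/-- the test function `y(x) = A₁ x + A₂ F₀(x)` -/
def yt (ψ A₁ A₂ x : ℝ) : ℝ := A₁ * x + A₂ * FF 0 0 (qp ψ) x

def Ct (κ ν ψ A₁ A₂ : ℝ) : ℝ :=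
  al κ ν ψ * GE fun x => Real.log (Ph (-yt ψ A₁ A₂ (Real.sqrt (qp ψ) * x)))

def cF (κ ν ψ A₁ A₂ : ℝ) : ℝ :=
  al κ ν ψ * (GE fun x => FF κ ν (qp ψ) (Real.sqrt (qp ψ) * x)
    * Mi (-yt ψ A₁ A₂ (Real.sqrt (qp ψ) * x))) / ψ

def Ch (κ ν ψ A₁ A₂ : ℝ) : ℝ :=
  al κ ν ψ * GE fun x => Real.sqrt (qp ψ) * x * Mi (-yt ψ A₁ A₂ (Real.sqrt (qp ψ) * x))

def C1 (κ ν ψ A₁ A₂ : ℝ) : ℝ :=
  al κ ν ψ * GE fun x => Mi (-yt ψ A₁ A₂ (Real.sqrt (qp ψ) * x))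

def Cy (κ ν ψ A₁ A₂ : ℝ) : ℝ :=
  al κ ν ψ * GE fun x => yt ψ A₁ A₂ (Real.sqrt (qp ψ) * x)
    * Mi (-yt ψ A₁ A₂ (Real.sqrt (qp ψ) * x))

/-- the first moment exponent `J(ρ)` of note C with tests `l`, `y = A₁ x + A₂ F₀` -/
def JJ (κ ν ψ rho l A₁ A₂ : ℝ) : ℝ :=
  (GE fun x => lc (l * Real.tanh (Real.sqrt ψ * x)
      + cF κ ν ψ A₁ A₂ / Real.sqrt (1 - rho ^ 2 * qp ψ) * (Real.sqrt ψ * x)))
    - l * rho * qp ψ - cF κ ν ψ A₁ A₂ ^ 2 * ψ / 2 + Ct κ ν ψ A₁ A₂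
    + (rho * Ch κ ν ψ A₁ A₂ - κ * C1 κ ν ψ A₁ A₂) / Real.sqrt (1 - rho ^ 2 * qp ψ)
    - Cy κ ν ψ A₁ A₂

/-- the spin-only exponent -/
def J2 (ψ rho l : ℝ) : ℝ :=
  (GE fun x => lc (l * Real.tanh (Real.sqrt ψ * x))) - l * rho * qp ψ

/-- condition (U*) of note C with slack `η` -/
def UStar (κ ν ψ η : ℝ) : Prop :=
  ∀ rho : ℝ, rho ^ 2 * qp ψ ≤ 1 →
    (rho ^ 2 * qp ψ < 1 ∧ ∃ l A₁ A₂ : ℝ, JJ κ ν ψ rho l A₁ A₂ ≤ η) ∨
    (∃ l : ℝ, J2 ψ rho l ≤ η)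

/-! ### The Gaussian model and the two main Gaussian theorems -/

/-- the sign of a bit -/
def sgn (b : Bool) : ℝ := if b then 1 else -1

/-- the law of an `M × N` matrix with iid standard Gaussian entries -/
def GM (M N : ℕ) : Measure (Fin M → Fin N → ℝ) :=
  Measure.pi fun _ => Measure.pi fun _ => gaussianReal 0 1

/-- `y_k(w) = N^{-1/2} ∑ A_{ki} w_i` -/
def yv {M N : ℕ} (A : Fin M → Fin N → ℝ) (w : Fin N → Bool) (k : Fin M) : ℝ :=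
  (∑ i, A k i * sgn (w i)) / Real.sqrt N

/-- `w` is a near solution with margin `κ` and energy at most `δ` -/
def Near (κ δ : ℝ) {M N : ℕ} (A : Fin M → Fin N → ℝ) (w : Fin N → Bool) : Prop :=
  ∑ k, (max 0 (κ - yv A w k)) ^ 2 ≤ δ * N

open Classical in
/-- the number of near solutions -/
def cntNear (κ δ : ℝ) {M N : ℕ} (A : Fin M → Fin N → ℝ) : ℕ :=
  (Finset.univ.filter (fun w : Fin N → Bool => Near κ δ A w)).card

/-- (GL): below `tc`, near solutions with a positive margin and arbitrarily small energy have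
probability at least `exp(-cN)` -/
def GLow (tc : ℝ) : Prop :=
  ∀ a : ℝ, a < tc → ∃ κ : ℝ, 0 < κ ∧ ∀ δ : ℝ, 0 < δ → ∀ c : ℝ, 0 < c →
    ∀ᶠ N : ℕ in atTop, ∀ M : ℕ, (M : ℝ) ≤ a * N →
      Real.exp (-c * N) ≤ (GM M N).real {A | ∃ w, Near κ δ A w}

/-- (GU): above `tc`, near solutions with a negative margin are unlikely -/
def GUp (tc : ℝ) : Prop :=
  ∀ a : ℝ, tc < a → ∃ κ : ℝ, κ < 0 ∧ ∃ δ : ℝ, 0 < δ ∧ ∀ e : ℝ, 0 < e → ∀ᶠ N : ℕ in atTop,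
    ∀ M : ℕ, a * N ≤ M → (GM M N).real {A | ∃ w, Near κ δ A w} ≤ e

end

end Pool.Agent.IP49
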