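import Pool.Agent.IP49.MillsA

/-!
IP49 library, module GaussA: one-dimensional Gaussian integrals `GE`.

PROOFS. All moments of the Gaussian are finite; `|f x| ≤ C (1 + x²)^k` and measurability give
integrability (`(1+x²)^k` is integrable: e.g. `(1+x²)^k ≤ k! exp(1+x²)…` is not integrable, so use
`memLp_id_gaussianReal` (all `p`) or `integrable_pow_mul_exp`-type lemmas through `GE_eq`).
Stein: `∫ x f(x) phi(x) dx = ∫ f'(x) phi(x) dx` by integration by parts
(`MeasureTheory.integral_mul_deriv_eq_deriv_mul_of_integrable`), `phi' = -x phi`.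
Values: `GE 1 = 1`, `GE x = 0`, `GE x² = 1`, `GE x⁴ = 3`.
Dominated convergence: `continuousAt_GE`.
-/

set_option autoImplicit false
open MeasureTheory ProbabilityTheory Filter Topology

namespace Pool.Agent.IP49

private theorem integrable_growth27 (k : ℕ) :
    Integrable (fun x : ℝ => (1 + x ^ 2) ^ k) (gaussianReal 0 1) := by
  have h1 : Integrable (fun x : ℝ => ‖id x‖ ^ (2 * k)) (gaussianReal 0 1) :=
    (memLp_id_gaussianReal' ((2 * k : ℕ) : ENNReal) (ENNReal.natCast_ne_top _)).integrable_norm_pow'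
  have h2 : Integrable (fun x : ℝ => 2 ^ (k - 1) * (1 + ‖id x‖ ^ (2 * k))) (gaussianReal 0 1) :=
    ((integrable_const 1).add h1).const_mul _
  refine h2.mono' (by fun_prop) (ae_of_all _ fun x => ?_)
  have h3 : (1 + x ^ 2) ^ k ≤ 2 ^ (k - 1) * (1 ^ k + (x ^ 2) ^ k) :=
    add_pow_le zero_le_one (sq_nonneg x) k
  rw [Real.norm_of_nonneg (by positivity)]
  refine h3.trans (le_of_eq ?_)
  simp [pow_mul]

theorem integrable_of_growth {f : ℝ → ℝ} (hf : Measurable f) {C : ℝ} {k : ℕ}
    (h : ∀ x, |f x| ≤ C * (1 + x ^ 2) ^ k) : Integrable f (gaussianReal 0 1) :=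
  ((integrable_growth27 k).const_mul C).mono' hf.aestronglyMeasurable (ae_of_all _ h)

private theorem integrable_iff27 (f : ℝ → ℝ) :
    Integrable f (gaussianReal 0 1) ↔ Integrable (fun x => phi x * f x) := by
  rw [gaussianReal_of_var_ne_zero 0 (one_ne_zero),
    integrable_withDensity_iff_integrable_smul' (measurable_gaussianPDF 0 1)
      (ae_of_all _ fun x => gaussianPDF_lt_top)]
  simp only [smul_eq_mul, toReal_gaussianPDF, phi_eq_pdf]

theorem GE_const (c : ℝ) : GE (fun _ => c) = c := by simp [GE]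

theorem GE_add {f g : ℝ → ℝ} (hf : Integrable f (gaussianReal 0 1))
    (hg : Integrable g (gaussianReal 0 1)) : GE (fun x => f x + g x) = GE f + GE g :=
  integral_add hf hg

theorem GE_mul (c : ℝ) (f : ℝ → ℝ) : GE (fun x => c * f x) = c * GE f :=
  integral_const_mul c f

theorem GE_mono {f g : ℝ → ℝ} (hf : Integrable f (gaussianReal 0 1))
    (hg : Integrable g (gaussianReal 0 1)) (h : ∀ x, f x ≤ g x) : GE f ≤ GE g :=
  integral_mono hf hg h

theorem GE_nonneg {f : ℝ → ℝ} (h : ∀ x, 0 ≤ f x) : 0 ≤ GE f :=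
  integral_nonneg h

theorem GE_pos {f : ℝ → ℝ} (hf : Integrable f (gaussianReal 0 1)) (h : ∀ x, 0 < f x) :
    0 < GE f := by
  unfold GE
  rw [integral_pos_iff_support_of_nonneg (fun x => (h x).le) hf]
  have : Function.support f = Set.univ := by
    ext x; simp [(h x).ne']
  rw [this]
  simp

theorem GE_id : GE (fun x => x) = 0 := integral_id_gaussianReal

theorem GE_sq : GE (fun x => x ^ 2) = 1 := by
  have h := variance_fun_id_gaussianReal (μ := 0) (v := 1)
  rw [variance_eq_integral measurable_id'.aemeasurable] at h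
  simp only [integral_id_gaussianReal, sub_zero] at h
  simpa [GE] using h

private theorem C_nonneg27 {f : ℝ → ℝ} {C : ℝ} {k : ℕ}
    (h : ∀ x, |f x| ≤ C * (1 + x ^ 2) ^ k) : 0 ≤ C := by
  have := h 0
  simp at this
  exact (abs_nonneg _).trans this

private theorem abs_le27 (x : ℝ) : |x| ≤ 1 + x ^ 2 := by
  have h := sq_nonneg (|x| - 1)
  have h2 := sq_abs x
  have h3 := abs_nonneg x
  nlinarith

private theorem growth_mul27 {f : ℝ → ℝ} {C : ℝ} {k : ℕ}
    (h : ∀ x, |f x| ≤ C * (1 + x ^ 2) ^ k) (x : ℝ) :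
    |x * f x| ≤ C * (1 + x ^ 2) ^ (k + 1) := by
  rw [abs_mul, pow_succ, ← mul_assoc, mul_comm |x|]
  have hC := C_nonneg27 h
  exact mul_le_mul (h x) (abs_le27 x) (abs_nonneg x) (by positivity)

/-- Stein's identity -/
theorem GE_stein {f f' : ℝ → ℝ} (hd : ∀ x, HasDerivAt f (f' x) x) (hm : Measurable f')
    {C : ℝ} {k : ℕ} (h : ∀ x, |f x| ≤ C * (1 + x ^ 2) ^ k)
    (h' : ∀ x, |f' x| ≤ C * (1 + x ^ 2) ^ k) :
    GE (fun x => x * f x) = GE f' := by
  have hfc : Continuous f := continuous_iff_continuousAt.2 fun x => (hd x).continuousAt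
  have i1 : Integrable (fun x => phi x * f x) :=
    (integrable_iff27 f).1 (integrable_of_growth hfc.measurable h)
  have i2 : Integrable (fun x => phi x * f' x) :=
    (integrable_iff27 f').1 (integrable_of_growth hm h')
  have i3 : Integrable (fun x => phi x * (x * f x)) :=
    (integrable_iff27 _).1 (integrable_of_growth (measurable_id'.mul hfc.measurable)
      (growth_mul27 h))
  have key := integral_mul_deriv_eq_deriv_mul_of_integrable (u := f) (v := phi) (u' := f')
    (v' := fun x => -x * phi x) (fun x _ => hd x) (fun x _ => hasDerivAt_phi x)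
    (by
      refine i3.neg.congr (ae_of_all _ fun x => ?_)
      simp only [Pi.neg_apply, Pi.mul_apply]; ring)
    (by
      refine i2.congr (ae_of_all _ fun x => ?_)
      simp only [Pi.mul_apply]; ring)
    (by
      refine i1.congr (ae_of_all _ fun x => ?_)
      simp only [Pi.mul_apply]; ring)
  rw [GE_eq, GE_eq]
  have e1 : ∫ x, phi x * (x * f x) = -∫ x, f x * (-x * phi x) := by
    rw [← integral_neg]
    exact integral_congr_ae (ae_of_all _ fun x => by ring)
  rw [e1, key, neg_neg]
  exact integral_congr_ae (ae_of_all _ fun x => by ring)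

theorem GE_four : GE (fun x => x ^ 4) = 3 := by
  have key := GE_stein (f := fun x => x ^ 3) (f' := fun x => 3 * x ^ 2) (C := 3) (k := 2)
    (fun x => by simpa using hasDerivAt_pow 3 x) (by fun_prop)
    (fun x => by
      rw [abs_le]
      constructor <;> nlinarith [sq_nonneg (x + 1), sq_nonneg (x - 1), sq_nonneg (x ^ 2),
        sq_nonneg (x * (x + 1)), sq_nonneg (x * (x - 1))])
    (fun x => by
      rw [abs_of_nonneg (by positivity)]
      nlinarith [sq_nonneg (x ^ 2), sq_nonneg x])
  have e : (fun x : ℝ => x * x ^ 3) = fun x => x ^ 4 := by ext x; ring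
  rw [e, GE_mul, GE_sq, mul_one] at key
  exact key

/-- symmetry -/
theorem GE_neg (f : ℝ → ℝ) : GE (fun x => f (-x)) = GE f := by
  have h := integral_map_equiv (μ := gaussianReal 0 1) (MeasurableEquiv.neg ℝ) f
  have e : Measure.map (MeasurableEquiv.neg ℝ) (gaussianReal 0 1) = gaussianReal 0 1 := by
    have := gaussianReal_map_neg (μ := 0) (v := 1)
    rw [neg_zero] at this
    exact this
  rw [e] at h
  exact h.symm

/-- dominated convergence with polynomial domination -/
theorem tendsto_GE {ι : Type*} {l : Filter ι} [l.IsCountablyGenerated] {F : ι → ℝ → ℝ} {f : ℝ → ℝ}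
    (hm : ∀ᶠ i in l, Measurable (F i)) {C : ℝ} {k : ℕ}
    (h : ∀ᶠ i in l, ∀ x, |F i x| ≤ C * (1 + x ^ 2) ^ k)
    (hl : ∀ x, Tendsto (fun i => F i x) l (𝓝 (f x))) :
    Tendsto (fun i => GE (F i)) l (𝓝 (GE f)) :=
  tendsto_integral_filter_of_dominated_convergence (fun x => C * (1 + x ^ 2) ^ k)
    (hm.mono fun _ hi => hi.aestronglyMeasurable)
    (h.mono fun _ hi => ae_of_all _ fun x => hi x)
    ((integrable_growth27 k).const_mul C) (ae_of_all _ hl)

/-- Jensen for the logarithm -/
theorem GE_log_le {f : ℝ → ℝ} (hf : Integrable f (gaussianReal 0 1))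
    (hl : Integrable (fun x => Real.log (f x)) (gaussianReal 0 1)) (h : ∀ x, 0 < f x) :
    GE (fun x => Real.log (f x)) ≤ Real.log (GE f) := by
  have hm : 0 < GE f := GE_pos hf h
  have h1 : GE (fun x => Real.log (f x)) ≤ GE (fun x => (GE f)⁻¹ * f x + (Real.log (GE f) - 1)) := by
    refine GE_mono hl ((hf.const_mul _).add (integrable_const _)) fun x => ?_
    have h2 := Real.log_le_sub_one_of_pos (div_pos (h x) hm)
    rw [Real.log_div (h x).ne' hm.ne'] at h2
    rw [inv_mul_eq_div]
    linarith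
  rw [GE_add (hf.const_mul _) (integrable_const _), GE_mul, GE_const,
    inv_mul_cancel₀ hm.ne'] at h1
  linarith

/-- Cauchy-Schwarz -/
theorem GE_cauchy {f g : ℝ → ℝ} (hf : Integrable (fun x => f x ^ 2) (gaussianReal 0 1))
    (hg : Integrable (fun x => g x ^ 2) (gaussianReal 0 1)) (hmf : Measurable f)
    (hmg : Measurable g) :
    GE (fun x => f x * g x) ^ 2 ≤ GE (fun x => f x ^ 2) * GE (fun x => g x ^ 2) := by
  have hfg : Integrable (fun x => f x * g x) (gaussianReal 0 1) := by
    refine (hf.add hg).mono' (hmf.mul hmg).aestronglyMeasurable (ae_of_all _ fun x => ?_)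
    rw [Real.norm_eq_abs, abs_le]
    simp only [Pi.add_apply]
    constructor <;> nlinarith [sq_nonneg (f x + g x), sq_nonneg (f x - g x)]
  have key : ∀ t : ℝ, 0 ≤ GE (fun x => g x ^ 2) * (t * t) + 2 * GE (fun x => f x * g x) * t
      + GE (fun x => f x ^ 2) := by
    intro t
    have e : (fun x => (f x + t * g x) ^ 2)
        = fun x => (t * t * g x ^ 2 + 2 * t * (f x * g x)) + f x ^ 2 := by
      ext x; ring
    have h0 : 0 ≤ GE (fun x => (f x + t * g x) ^ 2) := GE_nonneg fun x => sq_nonneg _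
    have e1 : GE (fun x => (t * t * g x ^ 2 + 2 * t * (f x * g x)) + f x ^ 2)
        = GE (fun x => t * t * g x ^ 2 + 2 * t * (f x * g x)) + GE (fun x => f x ^ 2) :=
      GE_add ((hg.const_mul _).add (hfg.const_mul _)) hf
    rw [e, e1, GE_add (hg.const_mul _) (hfg.const_mul _), GE_mul, GE_mul] at h0
    linarith
  have hd := discrim_le_zero key
  unfold discrim at hd
  nlinarith

end Pool.Agent.IP49
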