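import Pool.Agent.ZR.E0

/-!
# IP49 / Gor1 : Gaussian integration by parts and interpolation on a finite index set

* `stdG S` : the standard Gaussian measure on `S → ℝ` (`S` finite).
* `stdG_ibp` : `∫ w_s F(w) = ∫ ∂_s F(w)` for bounded `F`, `∂_s F`.
* `interp_hasDerivAt` : derivative in `θ` of `∫ f(K_θ w)`, `K_θ` a matrix depending on `θ`.
-/

set_option autoImplicit false

open MeasureTheory ProbabilityTheory

namespace Pool.Agent.IP49

/-- Standard Gaussian measure on `S → ℝ`. -/
noncomputable abbrev stdG (S : Type*) [Fintype S] : Measure (S → ℝ) :=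
  Measure.pi fun _ : S => gaussianReal 0 1

section ibp

variable {S : Type*} [Fintype S]

theorem integrable_id_gauss : Integrable (fun x : ℝ => x) (gaussianReal 0 1) :=
  (memLp_id_gaussianReal (μ := 0) (v := 1) 1).integrable le_rfl

theorem stdG_integrable_coord (s : S) : Integrable (fun w : S → ℝ => w s) (stdG S) := by
  have h := measurePreserving_eval (fun _ : S => gaussianReal 0 1) s
  exact h.integrable_comp_of_integrable integrable_id_gauss

theorem stdG_integrable_bdd {F : (S → ℝ) → ℝ} (hc : Continuous F) {C : ℝ}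
    (hC : ∀ w, |F w| ≤ C) : Integrable F (stdG S) :=
  Integrable.of_bound hc.aestronglyMeasurable C (Filter.Eventually.of_forall hC)

theorem stdG_integrable_coord_mul (s : S) {F : (S → ℝ) → ℝ} (hc : Continuous F) {C : ℝ}
    (hC : ∀ w, |F w| ≤ C) : Integrable (fun w : S → ℝ => w s * F w) (stdG S) := by
  have := (stdG_integrable_coord s).mul_bdd (c := C) hc.aestronglyMeasurable
    (Filter.Eventually.of_forall hC)
  exact this

/-- Gaussian integration by parts in one coordinate. -/
theorem stdG_ibp [DecidableEq S] (s : S) {F F' : (S → ℝ) → ℝ}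
    (hF : ∀ w, HasDerivAt (fun t : ℝ => F (Function.update w s t)) (F' w) (w s))
    (hFc : Continuous F) (hFc' : Continuous F') {C : ℝ}
    (hC : ∀ w, |F w| ≤ C) (hC' : ∀ w, |F' w| ≤ C) :
    ∫ w, w s * F w ∂(stdG S) = ∫ w, F' w ∂(stdG S) := by
  have h1 : Integrable (fun w : S → ℝ => w s * F w) (stdG S) :=
    stdG_integrable_coord_mul s hFc hC
  have h2 : Integrable F' (stdG S) := stdG_integrable_bdd hFc' hC'
  have hmp := ZR.mp_update (ι := S) (gaussianReal 0 1) s
  have hI : ∀ G : (S → ℝ) → ℝ, Integrable G (stdG S) →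
      (Integrable (fun q : (S → ℝ) × ℝ => G (Function.update q.1 s q.2))
        ((stdG S).prod (gaussianReal 0 1)) ∧
      ∫ X, G X ∂(stdG S) = ∫ X, ∫ t, G (Function.update X s t) ∂(gaussianReal 0 1) ∂(stdG S)) := by
    intro G hG
    have hi : Integrable (fun q : (S → ℝ) × ℝ => G (Function.update q.1 s q.2))
        ((stdG S).prod (gaussianReal 0 1)) := by
      have := hmp.integrable_comp hG.aestronglyMeasurable
      exact this.2 hG
    refine ⟨hi, ?_⟩
    rw [← integral_prod _ hi]
    have hm : (stdG S) = Measure.map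
        (fun q : (S → ℝ) × ℝ => Function.update q.1 s q.2)
        ((stdG S).prod (gaussianReal 0 1)) := hmp.map_eq.symm
    conv_lhs => rw [hm]
    rw [integral_map hmp.measurable.aemeasurable]
    rw [← hm]
    exact hG.aestronglyMeasurable
  obtain ⟨i1, e1⟩ := hI _ h1
  obtain ⟨i2, e2⟩ := hI _ h2
  rw [e1, e2]
  refine integral_congr_ae ?_
  filter_upwards [i1.prod_right_ae, i2.prod_right_ae] with X hX1 hX2
  simp only [Function.update_self] at hX1 ⊢
  refine ZR.gauss_ibp (fun t => ?_) hX1 hX2
  have := hF (Function.update X s t)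
  simpa using this

end ibp

section interp

variable {S A : Type*} [Fintype S] [Fintype A]

/-- The linear image `a ↦ ∑ s, K a s * w s`. -/
def lin (K : A → S → ℝ) (w : S → ℝ) : A → ℝ := fun a => ∑ s, K a s * w s

omit [Fintype A] in
theorem continuous_lin (K : A → S → ℝ) : Continuous (lin K) := by
  unfold lin
  fun_prop

theorem interp_hasDerivAt {f : (A → ℝ) → ℝ} {D : A → (A → ℝ) → ℝ}
    {DD : A → A → (A → ℝ) → ℝ}
    (hf : ∀ x, HasFDerivAt f
      (∑ a, D a x • (ContinuousLinearMap.proj a : (A → ℝ) →L[ℝ] ℝ)) x)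
    (hD : ∀ a x, HasFDerivAt (D a)
      (∑ b, DD a b x • (ContinuousLinearMap.proj b : (A → ℝ) →L[ℝ] ℝ)) x)
    (hDDc : ∀ a b, Continuous (DD a b)) {C : ℝ}
    (hfb : ∀ x, |f x| ≤ C) (hDb : ∀ a x, |D a x| ≤ C) (hDDb : ∀ a b x, |DD a b x| ≤ C)
    {K K' : ℝ → A → S → ℝ} (hK : ∀ θ a s, HasDerivAt (fun θ => K θ a s) (K' θ a s) θ)
    {B : ℝ} (hKb : ∀ θ a s, |K θ a s| ≤ B) (hKb' : ∀ θ a s, |K' θ a s| ≤ B) (θ : ℝ) :
    HasDerivAt (fun θ => ∫ w, f (lin (K θ) w) ∂(stdG S))
      (∑ a, ∑ b, (∑ s, K' θ a s * K θ b s) * ∫ w, DD a b (lin (K θ) w) ∂(stdG S)) θ := by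
  classical
  have hC0 : 0 ≤ C := (abs_nonneg _).trans (hfb 0)
  have hfc : Continuous f := continuous_iff_continuousAt.2 fun x => (hf x).continuousAt
  have hDc : ∀ a, Continuous (D a) := fun a =>
    continuous_iff_continuousAt.2 fun x => (hD a x).continuousAt
  -- pointwise derivative
  have hpt : ∀ (w : S → ℝ) (τ : ℝ), HasDerivAt (fun θ => f (lin (K θ) w))
      (∑ a, D a (lin (K τ) w) * ∑ s, K' τ a s * w s) τ := by
    intro w τ
    have h1 : HasDerivAt (fun θ => lin (K θ) w) (fun a => ∑ s, K' τ a s * w s) τ := by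
      rw [hasDerivAt_pi]
      intro a
      unfold lin
      refine HasDerivAt.fun_sum fun s _ => ?_
      exact (hK τ a s).mul_const (w s)
    have h2 := (hf (lin (K τ) w)).comp_hasDerivAt τ h1
    refine h2.congr_deriv ?_
    simp
  have hmain := hasDerivAt_integral_of_dominated_loc_of_deriv_le
    (μ := stdG S) (F := fun θ w => f (lin (K θ) w))
    (F' := fun τ w => ∑ a, D a (lin (K τ) w) * ∑ s, K' τ a s * w s)
    (x₀ := θ) (s := Set.univ) (bound := fun w => ∑ _a : A, C * ∑ s, B * |w s|)
    Filter.univ_mem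
    (Filter.Eventually.of_forall fun τ => (hfc.comp (continuous_lin (K τ))).aestronglyMeasurable)
    (stdG_integrable_bdd (hfc.comp (continuous_lin (K θ))) fun w => hfb _)
    (by
      refine Continuous.aestronglyMeasurable ?_
      refine continuous_finsetSum _ fun a _ => ?_
      refine ((hDc a).comp (continuous_lin (K θ))).mul ?_
      fun_prop)
    (by
      refine Filter.Eventually.of_forall fun w τ _ => ?_
      rw [Real.norm_eq_abs]
      refine (Finset.abs_sum_le_sum_abs _ _).trans (Finset.sum_le_sum fun a _ => ?_)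
      rw [abs_mul]
      refine mul_le_mul (hDb a _) ?_ (abs_nonneg _) hC0
      refine (Finset.abs_sum_le_sum_abs _ _).trans (Finset.sum_le_sum fun s _ => ?_)
      rw [abs_mul]
      exact mul_le_mul_of_nonneg_right (hKb' τ a s) (abs_nonneg _))
    (by
      refine integrable_finsetSum _ fun a _ => ?_
      refine Integrable.const_mul ?_ C
      refine integrable_finsetSum _ fun s _ => ?_
      exact ((stdG_integrable_coord s).abs).const_mul B)
    (Filter.Eventually.of_forall fun w τ _ => hpt w τ)
  refine hmain.2.congr_deriv ?_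
  -- compute the integral of the derivative
  have hint : ∀ (a : A) (s : S), Integrable
      (fun w : S → ℝ => w s * D a (lin (K θ) w)) (stdG S) := fun a s =>
    stdG_integrable_coord_mul s ((hDc a).comp (continuous_lin (K θ))) fun w => hDb a _
  have hibp : ∀ (a : A) (s : S), ∫ w, w s * D a (lin (K θ) w) ∂(stdG S)
      = ∑ b, K θ b s * ∫ w, DD a b (lin (K θ) w) ∂(stdG S) := by
    intro a s
    have hder : ∀ w : S → ℝ, HasDerivAt
        (fun t : ℝ => D a (lin (K θ) (Function.update w s t)))
        (∑ b, DD a b (lin (K θ) w) * K θ b s) (w s) := by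
      intro w
      have h1 : HasDerivAt (fun t : ℝ => lin (K θ) (Function.update w s t))
          (fun b => K θ b s) (w s) := by
        rw [hasDerivAt_pi]
        intro b
        unfold lin
        have h3 : ∀ t : ℝ, ∑ s', K θ b s' * Function.update w s t s'
            = K θ b s * t + ∑ s' ∈ Finset.univ.erase s, K θ b s' * w s' := by
          intro t
          rw [← Finset.add_sum_erase _ _ (Finset.mem_univ s)]
          congr 1
          · simp
          · refine Finset.sum_congr rfl fun s' hs' => ?_
            rw [Function.update_of_ne (Finset.ne_of_mem_erase hs')]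
        simp only [h3]
        simpa using ((hasDerivAt_id (w s)).const_mul (K θ b s)).add_const
          (∑ s' ∈ Finset.univ.erase s, K θ b s' * w s')
      have h2 := (hD a (lin (K θ) (Function.update w s (w s)))).comp_hasDerivAt (w s) h1
      rw [Function.update_eq_self] at h2
      refine h2.congr_deriv ?_
      simp
    have hcc : Continuous (fun w : S → ℝ => ∑ b, DD a b (lin (K θ) w) * K θ b s) :=
      continuous_finsetSum _ fun b _ =>
        ((hDDc a b).comp (continuous_lin (K θ))).mul continuous_const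
    have hbb : ∀ w : S → ℝ, |∑ b, DD a b (lin (K θ) w) * K θ b s|
        ≤ max C (∑ _b : A, C * B) := by
      intro w
      refine le_max_of_le_right ?_
      refine (Finset.abs_sum_le_sum_abs _ _).trans (Finset.sum_le_sum fun b _ => ?_)
      rw [abs_mul]
      exact mul_le_mul (hDDb a b _) (hKb θ b s) (abs_nonneg _) hC0
    have hst := stdG_ibp (F := fun w => D a (lin (K θ) w)) s hder
      ((hDc a).comp (continuous_lin (K θ))) hcc
      (C := max C (∑ _b : A, C * B)) (fun w => (hDb a _).trans (le_max_left _ _)) hbb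
    rw [hst, integral_finsetSum _ fun b _ => ?_]
    · refine Finset.sum_congr rfl fun b _ => ?_
      rw [integral_mul_const, mul_comm]
    · exact (stdG_integrable_bdd ((hDDc a b).comp (continuous_lin (K θ)))
        fun w => hDDb a b _).mul_const _
  have hexp : ∀ w : S → ℝ, (∑ a, D a (lin (K θ) w) * ∑ s, K' θ a s * w s)
      = ∑ a, ∑ s, K' θ a s * (w s * D a (lin (K θ) w)) := by
    intro w
    refine Finset.sum_congr rfl fun a _ => ?_
    rw [Finset.mul_sum]
    refine Finset.sum_congr rfl fun s _ => ?_
    ring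
  simp only [hexp]
  rw [integral_finsetSum _ fun a _ => integrable_finsetSum _ fun s _ =>
    (hint a s).const_mul _]
  refine Finset.sum_congr rfl fun a _ => ?_
  rw [integral_finsetSum _ fun s _ => (hint a s).const_mul _]
  simp only [integral_const_mul, hibp]
  simp only [Finset.mul_sum, Finset.sum_mul]
  rw [Finset.sum_comm]
  refine Finset.sum_congr rfl fun b _ => Finset.sum_congr rfl fun s _ => ?_
  ring

end interp

end Pool.Agent.IP49
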