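import Pool.Agent.IP49.Gor1
import Mathlib.Analysis.SpecialFunctions.SmoothTransition

/-!
# IP49 / Gor2 : partial derivatives, smooth cut-offs, the multi-affine test function

* `pd P a y` : partial derivative.
* `cut n lam x` : smooth decreasing cut-off, `0` for `x ≥ lam`, `1` for `x ≤ lam - 1/n`.
* `hasFDerivAt_comp_cut` : partial derivatives of `x ↦ P (fun a => cut n (lam a) (x a))`.
* `Pg` : `y ↦ ∏ i, (1 - ∏ j, y (i, j))` and the signs of its mixed second derivatives.
-/

set_option autoImplicit false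

open MeasureTheory ProbabilityTheory

namespace Pool.Agent.IP49

section pd

variable {A : Type*} [Fintype A] [DecidableEq A]

/-- Partial derivative. -/
noncomputable def pd (P : (A → ℝ) → ℝ) (a : A) (y : A → ℝ) : ℝ :=
  fderiv ℝ P y (Pi.single a 1)

theorem hasFDerivAt_pd {P : (A → ℝ) → ℝ} {y : A → ℝ} (hP : DifferentiableAt ℝ P y) :
    HasFDerivAt P (∑ a, pd P a y • (ContinuousLinearMap.proj a : (A → ℝ) →L[ℝ] ℝ)) y := by
  have h := hP.hasFDerivAt
  have he : fderiv ℝ P y = ∑ a, pd P a y • (ContinuousLinearMap.proj a : (A → ℝ) →L[ℝ] ℝ) := by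
    ext v
    have hv : v = ∑ a, v a • (Pi.single a (1 : ℝ) : A → ℝ) := by
      ext b
      simp [Finset.sum_apply, Pi.single_apply]
    conv_lhs => rw [hv]
    rw [map_sum]
    simp only [map_smul, smul_eq_mul, pd]
    simp [mul_comm]
  rw [← he]
  exact h

theorem hasDerivAt_line {P : (A → ℝ) → ℝ} {y : A → ℝ} (hP : DifferentiableAt ℝ P y) (a : A) :
    HasDerivAt (fun t => P (Function.update y a t)) (pd P a y) (y a) := by
  have h1 : HasDerivAt (Function.update y a) (Pi.single a 1) (y a) := hasDerivAt_update y a (y a)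
  have h2 : HasFDerivAt P (fderiv ℝ P y) (Function.update y a (y a)) := by
    rw [Function.update_eq_self]
    exact hP.hasFDerivAt
  exact h2.comp_hasDerivAt (y a) h1

theorem pd_eq_of_line {P : (A → ℝ) → ℝ} {y : A → ℝ} (hP : DifferentiableAt ℝ P y) {a : A}
    {c : ℝ} (h : HasDerivAt (fun t => P (Function.update y a t)) c (y a)) : pd P a y = c :=
  (hasDerivAt_line hP a).unique h

theorem contDiff_pd {P : (A → ℝ) → ℝ} (hP : ContDiff ℝ (⊤ : ℕ∞) P) (a : A) :
    ContDiff ℝ (⊤ : ℕ∞) (pd P a) := by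
  unfold pd
  exact (hP.fderiv_right (m := (⊤ : ℕ∞)) (by norm_cast)).clm_apply contDiff_const

end pd

section cut

/-- Smooth decreasing cut-off. -/
noncomputable def cut (n lam x : ℝ) : ℝ := Real.smoothTransition (n * (lam - x))

theorem cut_contDiff (n lam : ℝ) : ContDiff ℝ (⊤ : ℕ∞) (cut n lam) := by
  unfold cut
  exact Real.smoothTransition.contDiff.comp (by fun_prop)

theorem cut_nonneg (n lam x : ℝ) : 0 ≤ cut n lam x := Real.smoothTransition.nonneg _

theorem cut_le_one (n lam x : ℝ) : cut n lam x ≤ 1 := Real.smoothTransition.le_one _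

theorem cut_zero {n lam x : ℝ} (hn : 0 ≤ n) (h : lam ≤ x) : cut n lam x = 0 :=
  Real.smoothTransition.zero_of_nonpos (mul_nonpos_of_nonneg_of_nonpos hn (by linarith))

theorem cut_one {n lam x : ℝ} (hn : 0 < n) (h : x ≤ lam - 1 / n) : cut n lam x = 1 := by
  refine Real.smoothTransition.one_of_one_le ?_
  have h1 : 1 / n ≤ lam - x := by linarith
  have h2 := mul_le_mul_of_nonneg_left h1 hn.le
  rwa [mul_one_div, div_self hn.ne'] at h2

theorem cut_antitone {n lam : ℝ} (hn : 0 ≤ n) : Antitone (cut n lam) := fun x y hxy =>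
  Real.smoothTransition.monotone (mul_le_mul_of_nonneg_left (by linarith) hn)

/-- A continuous function on `ℝ` which vanishes outside a bounded interval is bounded. -/
theorem bdd_of_zero_outside {g : ℝ → ℝ} (hg : Continuous g) {u v : ℝ}
    (h : ∀ x, x < u ∨ v < x → g x = 0) : ∃ C, ∀ x, |g x| ≤ C := by
  obtain ⟨C, hC⟩ := (isCompact_Icc (a := u) (b := v)).exists_bound_of_continuousOn hg.continuousOn
  refine ⟨max C 0, fun x => ?_⟩
  by_cases hx : x ∈ Set.Icc u v
  · exact (hC x hx).trans (le_max_left _ _)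
  · have : x < u ∨ v < x := by
      by_contra hcon
      push Not at hcon
      exact hx ⟨hcon.1, hcon.2⟩
    rw [h x this, abs_zero]
    exact le_max_right _ _

theorem cut_deriv_zero {n lam : ℝ} (hn : 0 < n) {x : ℝ} (h : x < lam - 1 / n ∨ lam < x) :
    deriv (cut n lam) x = 0 := by
  rcases h with h | h
  · have : cut n lam =ᶠ[nhds x] fun _ => (1 : ℝ) := by
      filter_upwards [Iio_mem_nhds h] with y hy
      exact cut_one hn (le_of_lt hy)
    rw [this.deriv_eq]
    simp
  · have : cut n lam =ᶠ[nhds x] fun _ => (0 : ℝ) := by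
      filter_upwards [Ioi_mem_nhds h] with y hy
      exact cut_zero hn.le (le_of_lt hy)
    rw [this.deriv_eq]
    simp

theorem cut_deriv_contDiff (n lam : ℝ) : ContDiff ℝ (⊤ : ℕ∞) (deriv (cut n lam)) := by
  have h := cut_contDiff n lam
  have := (contDiff_infty_iff_deriv (𝕜 := ℝ)).1 h
  exact this.2

theorem cut_deriv_bdd {n : ℝ} (hn : 0 < n) (lam : ℝ) : ∃ C, ∀ x, |deriv (cut n lam) x| ≤ C :=
  bdd_of_zero_outside (cut_deriv_contDiff n lam).continuous
    (u := lam - 1 / n) (v := lam) fun _ hx => cut_deriv_zero hn hx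

theorem cut_deriv2_bdd {n : ℝ} (hn : 0 < n) (lam : ℝ) :
    ∃ C, ∀ x, |deriv (deriv (cut n lam)) x| ≤ C := by
  refine bdd_of_zero_outside ?_ (u := lam - 1 / n) (v := lam) fun x hx => ?_
  · exact ((contDiff_infty_iff_deriv (𝕜 := ℝ)).1 (cut_deriv_contDiff n lam)).2.continuous
  · have : deriv (cut n lam) =ᶠ[nhds x] fun _ => (0 : ℝ) := by
      rcases hx with h | h
      · filter_upwards [Iio_mem_nhds h] with y hy
        exact cut_deriv_zero hn (Or.inl hy)
      · filter_upwards [Ioi_mem_nhds h] with y hy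
        exact cut_deriv_zero hn (Or.inr hy)
    rw [this.deriv_eq]
    simp

theorem cut_deriv_nonpos {n : ℝ} (hn : 0 ≤ n) (lam x : ℝ) : deriv (cut n lam) x ≤ 0 :=
  (cut_antitone hn).deriv_nonpos

end cut

section comp

variable {A : Type*} [Fintype A] [DecidableEq A]

/-- The vector of cut-offs. -/
noncomputable def cutv (n : ℝ) (lam : A → ℝ) (x : A → ℝ) : A → ℝ := fun a => cut n (lam a) (x a)

omit [DecidableEq A] in
theorem cutv_contDiff (n : ℝ) (lam : A → ℝ) : ContDiff ℝ (⊤ : ℕ∞) (cutv n lam) := by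
  rw [contDiff_pi]
  intro a
  exact (cut_contDiff n (lam a)).comp (contDiff_apply ℝ ℝ a)

theorem hasFDerivAt_comp_cut {P : (A → ℝ) → ℝ} (hP : Differentiable ℝ P) (n : ℝ)
    (lam : A → ℝ) (x : A → ℝ) :
    HasFDerivAt (fun x => P (cutv n lam x))
      (∑ a, (deriv (cut n (lam a)) (x a) * pd P a (cutv n lam x)) •
        (ContinuousLinearMap.proj a : (A → ℝ) →L[ℝ] ℝ)) x := by
  have h1 : HasFDerivAt (cutv n lam) (ContinuousLinearMap.pi fun a =>
      deriv (cut n (lam a)) (x a) • (ContinuousLinearMap.proj a : (A → ℝ) →L[ℝ] ℝ)) x := by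
    rw [hasFDerivAt_pi]
    intro a
    have h2 : HasDerivAt (cut n (lam a)) (deriv (cut n (lam a)) (x a)) (x a) :=
      ((cut_contDiff n (lam a)).differentiable (by simp) _).hasDerivAt
    exact h2.comp_hasFDerivAt x (ContinuousLinearMap.proj (R := ℝ) (φ := fun _ : A => ℝ) a).hasFDerivAt
  have h3 := (hasFDerivAt_pd (hP (cutv n lam x))).comp x h1
  refine h3.congr_fderiv ?_
  ext v
  simp only [ContinuousLinearMap.comp_apply, FunLike.coe_sum, Finset.sum_apply,
    smul_apply, ContinuousLinearMap.proj_apply, ContinuousLinearMap.coe_pi',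
    smul_eq_mul]
  refine Finset.sum_congr rfl fun a _ => ?_
  ring

end comp

end Pool.Agent.IP49
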