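import Pool.Agent.IP49.Gor2

/-!
# IP49 / Gor3 : smooth form of Gordon's comparison inequality
-/

set_option autoImplicit false
set_option linter.unusedSectionVars false

open MeasureTheory ProbabilityTheory

namespace Pool.Agent.IP49

section Pg

variable {I J : Type*} [Fintype I] [Fintype J] [DecidableEq I] [DecidableEq J]

/-- `∏ i, (1 - ∏ j, y (i, j))`. -/
def Pg (y : I × J → ℝ) : ℝ := ∏ i, (1 - ∏ j, y (i, j))

/-- Product of a row without one entry. -/
def Pc (i : I) (j : J) (y : I × J → ℝ) : ℝ := ∏ k ∈ Finset.univ.erase j, y (i, k)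

/-- Product over the other rows. -/
def PR (i : I) (y : I × J → ℝ) : ℝ := ∏ l ∈ Finset.univ.erase i, (1 - ∏ k, y (l, k))

theorem contDiff_Pg : ContDiff ℝ (⊤ : ℕ∞) (Pg : (I × J → ℝ) → ℝ) := by
  unfold Pg
  refine contDiff_prod fun i _ => contDiff_const.sub (contDiff_prod fun j _ => ?_)
  exact contDiff_apply ℝ ℝ (i, j)

theorem row_update (i : I) (j : J) (y : I × J → ℝ) (t : ℝ) :
    ∏ k, Function.update y (i, j) t (i, k) = t * Pc i j y := by
  rw [← Finset.mul_prod_erase _ _ (Finset.mem_univ j)]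
  congr 1
  · simp
  · refine Finset.prod_congr rfl fun k hk => ?_
    rw [Function.update_of_ne]
    intro h
    exact Finset.ne_of_mem_erase hk (Prod.ext_iff.1 h).2

theorem row_update_ne {i l : I} (h : l ≠ i) (j : J) (y : I × J → ℝ) (t : ℝ) (k : J) :
    Function.update y (i, j) t (l, k) = y (l, k) := by
  rw [Function.update_of_ne]
  intro h'
  exact h (Prod.ext_iff.1 h').1

theorem Pg_line (i : I) (j : J) (y : I × J → ℝ) (t : ℝ) :
    Pg (Function.update y (i, j) t) = (1 - t * Pc i j y) * PR i y := by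
  unfold Pg
  rw [← Finset.mul_prod_erase _ _ (Finset.mem_univ i), row_update]
  congr 1
  refine Finset.prod_congr rfl fun l hl => ?_
  congr 1
  refine Finset.prod_congr rfl fun k _ => ?_
  exact row_update_ne (Finset.ne_of_mem_erase hl) j y t k

theorem pd_Pg (i : I) (j : J) (y : I × J → ℝ) : pd Pg (i, j) y = -(Pc i j y * PR i y) := by
  refine pd_eq_of_line (contDiff_Pg.differentiable (by simp) y) ?_
  simp only [Pg_line]
  have h := ((((hasDerivAt_id (y (i, j))).mul_const (Pc i j y)).const_sub 1).mul_const (PR i y))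
  refine h.congr_deriv ?_
  ring

theorem Pc_line_same {i : I} {j k : J} (h : k ≠ j) (y : I × J → ℝ) (t : ℝ) :
    Pc i j (Function.update y (i, k) t)
      = t * ∏ k' ∈ (Finset.univ.erase j).erase k, y (i, k') := by
  unfold Pc
  rw [← Finset.mul_prod_erase _ _ (Finset.mem_erase.2 ⟨h, Finset.mem_univ k⟩)]
  congr 1
  · simp
  · refine Finset.prod_congr rfl fun k' hk' => ?_
    rw [Function.update_of_ne]
    intro h'
    exact Finset.ne_of_mem_erase hk' (Prod.ext_iff.1 h').2

theorem Pc_line_other {i l : I} (h : l ≠ i) (j k : J) (y : I × J → ℝ) (t : ℝ) :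
    Pc i j (Function.update y (l, k) t) = Pc i j y := by
  unfold Pc
  exact Finset.prod_congr rfl fun k' _ => row_update_ne h.symm k y t k'

theorem PR_line_same (i : I) (k : J) (y : I × J → ℝ) (t : ℝ) :
    PR i (Function.update y (i, k) t) = PR i y := by
  unfold PR
  refine Finset.prod_congr rfl fun l hl => ?_
  congr 1
  exact Finset.prod_congr rfl fun k' _ =>
    row_update_ne (Finset.ne_of_mem_erase hl) k y t k'

theorem PR_line_other {i l : I} (h : l ≠ i) (k : J) (y : I × J → ℝ) (t : ℝ) :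
    PR i (Function.update y (l, k) t)
      = (1 - t * Pc l k y) * ∏ m ∈ (Finset.univ.erase i).erase l, (1 - ∏ k', y (m, k')) := by
  unfold PR
  rw [← Finset.mul_prod_erase _ _ (Finset.mem_erase.2 ⟨h, Finset.mem_univ l⟩), row_update]
  congr 1
  refine Finset.prod_congr rfl fun m hm => ?_
  congr 1
  exact Finset.prod_congr rfl fun k' _ =>
    row_update_ne (Finset.ne_of_mem_erase hm) k y t k'

theorem diff_pd_Pg (a : I × J) : Differentiable ℝ (pd Pg a : (I × J → ℝ) → ℝ) :=
  (contDiff_pd contDiff_Pg a).differentiable (by simp)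

theorem row_prod_mem {y : I × J → ℝ} (h0 : ∀ a, 0 ≤ y a) (h1 : ∀ a, y a ≤ 1) (i : I) :
    0 ≤ 1 - ∏ k, y (i, k) := by
  have : ∏ k, y (i, k) ≤ 1 := Finset.prod_le_one (fun k _ => h0 _) fun k _ => h1 _
  linarith

theorem pd2_same {i : I} {j k : J} (h : k ≠ j) {y : I × J → ℝ} (h0 : ∀ a, 0 ≤ y a)
    (h1 : ∀ a, y a ≤ 1) : pd (pd Pg (i, j)) (i, k) y ≤ 0 := by
  have he : pd (pd Pg (i, j)) (i, k) y
      = -((∏ k' ∈ (Finset.univ.erase j).erase k, y (i, k')) * PR i y) := by
    refine pd_eq_of_line (diff_pd_Pg _ y) ?_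
    simp only [pd_Pg, Pc_line_same h, PR_line_same]
    have h2 := ((((hasDerivAt_id (y (i, k))).mul_const
      (∏ k' ∈ (Finset.univ.erase j).erase k, y (i, k'))).mul_const (PR i y)).neg)
    refine h2.congr_deriv ?_
    ring
  rw [he]
  have hA : 0 ≤ ∏ k' ∈ (Finset.univ.erase j).erase k, y (i, k') :=
    Finset.prod_nonneg fun k' _ => h0 _
  have hB : 0 ≤ PR i y := Finset.prod_nonneg fun l _ => row_prod_mem h0 h1 l
  have := mul_nonneg hA hB
  linarith

theorem pd2_other {i l : I} (h : l ≠ i) (j k : J) {y : I × J → ℝ} (h0 : ∀ a, 0 ≤ y a)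
    (h1 : ∀ a, y a ≤ 1) : 0 ≤ pd (pd Pg (i, j)) (l, k) y := by
  have he : pd (pd Pg (i, j)) (l, k) y
      = Pc i j y * (Pc l k y * ∏ m ∈ (Finset.univ.erase i).erase l, (1 - ∏ k', y (m, k'))) := by
    refine pd_eq_of_line (diff_pd_Pg _ y) ?_
    simp only [pd_Pg, Pc_line_other h, PR_line_other h]
    have h2 := (((((hasDerivAt_id (y (l, k))).mul_const (Pc l k y)).const_sub 1).mul_const
      (∏ m ∈ (Finset.univ.erase i).erase l, (1 - ∏ k', y (m, k')))).const_mul (Pc i j y)).neg
    refine h2.congr_deriv ?_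
    ring
  rw [he]
  have hA : 0 ≤ Pc i j y := Finset.prod_nonneg fun k' _ => h0 _
  have hB : 0 ≤ Pc l k y := Finset.prod_nonneg fun k' _ => h0 _
  have hC : 0 ≤ ∏ m ∈ (Finset.univ.erase i).erase l, (1 - ∏ k', y (m, k')) :=
    Finset.prod_nonneg fun m _ => row_prod_mem h0 h1 m
  exact mul_nonneg hA (mul_nonneg hB hC)

end Pg

section bdd

theorem exists_common_bound {ι X : Type*} [Fintype ι] {F : ι → X → ℝ}
    (h : ∀ i, ∃ C, ∀ x, |F i x| ≤ C) : ∃ C, 0 ≤ C ∧ ∀ i x, |F i x| ≤ C := by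
  choose c hc using h
  refine ⟨∑ i, |c i|, Finset.sum_nonneg fun i _ => abs_nonneg _, fun i x => ?_⟩
  exact ((hc i x).trans (le_abs_self _)).trans
    (Finset.single_le_sum (f := fun i => |c i|) (fun i _ => abs_nonneg _) (Finset.mem_univ i))

variable {A : Type*} [Fintype A]

theorem comp_cut_bdd {g : (A → ℝ) → ℝ} (hg : Continuous g) (n : ℝ) (lam : A → ℝ) :
    ∃ C, ∀ x : A → ℝ, |g (cutv n lam x)| ≤ C := by
  obtain ⟨C, hC⟩ := (isCompact_Icc (a := (0 : A → ℝ)) (b := 1)).exists_bound_of_continuousOn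
    hg.continuousOn
  refine ⟨C, fun x => hC _ ⟨fun a => cut_nonneg _ _ _, fun a => cut_le_one _ _ _⟩⟩

end bdd

section smooth

variable {I J S : Type*} [Fintype I] [Fintype J] [Fintype S] [DecidableEq I] [DecidableEq J]

/-- Smooth form of Gordon's inequality. -/
theorem gordon_smooth (L M : I × J → S → ℝ) (lam : I × J → ℝ) {n : ℝ} (hn : 0 < n)
    (hvar : ∀ a, ∑ s, L a s * L a s = ∑ s, M a s * M a s)
    (hrow : ∀ i j k, ∑ s, L (i, j) s * L (i, k) s ≤ ∑ s, M (i, j) s * M (i, k) s)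
    (hoff : ∀ i l, i ≠ l → ∀ j k, ∑ s, M (i, j) s * M (l, k) s ≤ ∑ s, L (i, j) s * L (l, k) s)
    (hcross : ∀ a b, ∑ s, L a s * M b s = 0) :
    ∫ w, Pg (cutv n lam (lin M w)) ∂(stdG S) ≤ ∫ w, Pg (cutv n lam (lin L w)) ∂(stdG S) := by
  classical
  set K : ℝ → I × J → S → ℝ := fun θ a s => Real.sin θ * L a s + Real.cos θ * M a s with hKdef
  set K' : ℝ → I × J → S → ℝ := fun θ a s => Real.cos θ * L a s - Real.sin θ * M a s with hKdef'
  set f : (I × J → ℝ) → ℝ := fun x => Pg (cutv n lam x) with hfdef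
  set D : I × J → (I × J → ℝ) → ℝ := fun a x =>
    deriv (cut n (lam a)) (x a) * pd Pg a (cutv n lam x) with hDdef
  set DD : I × J → I × J → (I × J → ℝ) → ℝ := fun a b x =>
    (if a = b then deriv (deriv (cut n (lam a))) (x a) * pd Pg a (cutv n lam x) else 0)
      + deriv (cut n (lam a)) (x a) *
        (deriv (cut n (lam b)) (x b) * pd (pd Pg a) b (cutv n lam x)) with hDDdef
  have hPdiff : Differentiable ℝ (Pg : (I × J → ℝ) → ℝ) := contDiff_Pg.differentiable (by simp)
  have hf : ∀ x, HasFDerivAt f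
      (∑ a, D a x • (ContinuousLinearMap.proj a : (I × J → ℝ) →L[ℝ] ℝ)) x := fun x =>
    hasFDerivAt_comp_cut hPdiff n lam x
  have hcd : ∀ a : I × J, ContDiff ℝ (⊤ : ℕ∞) (fun x : I × J → ℝ => deriv (cut n (lam a)) (x a)) :=
    fun a => (cut_deriv_contDiff n (lam a)).comp (contDiff_apply ℝ ℝ a)
  have hcv := cutv_contDiff n lam (A := I × J)
  have hD : ∀ a x, HasFDerivAt (D a)
      (∑ b, DD a b x • (ContinuousLinearMap.proj b : (I × J → ℝ) →L[ℝ] ℝ)) x := by
    intro a x
    have h1 : HasFDerivAt (fun x : I × J → ℝ => deriv (cut n (lam a)) (x a))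
        (deriv (deriv (cut n (lam a))) (x a) •
          (ContinuousLinearMap.proj a : (I × J → ℝ) →L[ℝ] ℝ)) x := by
      have h2 : HasDerivAt (deriv (cut n (lam a))) (deriv (deriv (cut n (lam a))) (x a)) (x a) :=
        ((cut_deriv_contDiff n (lam a)).differentiable (by simp) _).hasDerivAt
      exact h2.comp_hasFDerivAt x
        (ContinuousLinearMap.proj (R := ℝ) (φ := fun _ : I × J => ℝ) a).hasFDerivAt
    have h3 := hasFDerivAt_comp_cut (diff_pd_Pg a) n lam x
    have h4 := h1.mul h3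
    refine h4.congr_fderiv ?_
    ext v
    simp only [FunLike.coe_add, FunLike.coe_sum, Pi.add_apply, Finset.sum_apply,
      smul_apply, ContinuousLinearMap.proj_apply, smul_eq_mul, hDDdef]
    simp only [add_mul, Finset.sum_add_distrib, ite_mul, zero_mul, Finset.sum_ite_eq,
      Finset.mem_univ, if_true]
    rw [add_comm]
    congr 1
    · ring
    · rw [Finset.mul_sum]
      refine Finset.sum_congr rfl fun b _ => ?_
      ring
  have hDDc : ∀ a b, Continuous (DD a b) := by
    intro a b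
    have e1 : Continuous fun x : I × J → ℝ => pd Pg a (cutv n lam x) :=
      ((diff_pd_Pg a).continuous).comp hcv.continuous
    have e2 : Continuous fun x : I × J → ℝ => pd (pd Pg a) b (cutv n lam x) :=
      ((contDiff_pd (contDiff_pd contDiff_Pg a) b).continuous).comp hcv.continuous
    have e3 : Continuous fun x : I × J → ℝ => deriv (deriv (cut n (lam a))) (x a) :=
      ((contDiff_infty_iff_deriv (𝕜 := ℝ)).1 (cut_deriv_contDiff n (lam a))).2.continuous.comp
        (continuous_apply a)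
    by_cases hab : a = b
    · simp only [hDDdef, if_pos hab]
      exact (e3.mul e1).add (((hcd a).continuous).mul (((hcd b).continuous).mul e2))
    · simp only [hDDdef, if_neg hab]
      exact continuous_const.add (((hcd a).continuous).mul (((hcd b).continuous).mul e2))
  -- bounds
  obtain ⟨C1, hC1, hC1'⟩ := exists_common_bound (ι := I × J)
    (F := fun a x => deriv (cut n (lam a)) x) fun a => cut_deriv_bdd hn (lam a)
  obtain ⟨C2, hC2, hC2'⟩ := exists_common_bound (ι := I × J)
    (F := fun a x => deriv (deriv (cut n (lam a))) x) fun a => cut_deriv2_bdd hn (lam a)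
  obtain ⟨C3, hC3, hC3'⟩ := exists_common_bound (ι := I × J)
    (F := fun a x => pd Pg a (cutv n lam x)) fun a =>
      comp_cut_bdd (diff_pd_Pg a).continuous n lam
  obtain ⟨C4, hC4, hC4'⟩ := exists_common_bound (ι := (I × J) × (I × J))
    (F := fun p x => pd (pd Pg p.1) p.2 (cutv n lam x)) fun p =>
      comp_cut_bdd (contDiff_pd (contDiff_pd contDiff_Pg p.1) p.2).continuous n lam
  obtain ⟨C5, hC5'⟩ := comp_cut_bdd (contDiff_Pg (I := I) (J := J)).continuous n lam
  set C : ℝ := max C5 (C1 * C3 + (C2 * C3 + C1 * (C1 * C4))) with hCdef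
  have hfb : ∀ x, |f x| ≤ C := fun x => (hC5' x).trans (le_max_left _ _)
  have hp1 : 0 ≤ C1 * C3 := mul_nonneg hC1 hC3
  have hp2 : 0 ≤ C2 * C3 := mul_nonneg hC2 hC3
  have hp3 : 0 ≤ C1 * (C1 * C4) := mul_nonneg hC1 (mul_nonneg hC1 hC4)
  have hDb : ∀ a x, |D a x| ≤ C := by
    intro a x
    refine le_max_of_le_right ?_
    rw [abs_mul]
    have := mul_le_mul (hC1' a (x a)) (hC3' a x) (abs_nonneg _) hC1
    linarith
  have hDDb : ∀ a b x, |DD a b x| ≤ C := by
    intro a b x
    refine le_max_of_le_right ?_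
    have h1 : |deriv (cut n (lam a)) (x a) *
        (deriv (cut n (lam b)) (x b) * pd (pd Pg a) b (cutv n lam x))| ≤ C1 * (C1 * C4) := by
      rw [abs_mul, abs_mul]
      exact mul_le_mul (hC1' a (x a)) (mul_le_mul (hC1' b (x b)) (hC4' (a, b) x)
        (abs_nonneg _) hC1) (mul_nonneg (abs_nonneg _) (abs_nonneg _)) hC1
    have h2 : |if a = b then deriv (deriv (cut n (lam a))) (x a) * pd Pg a (cutv n lam x) else 0|
        ≤ C2 * C3 := by
      by_cases hab : a = b
      · rw [if_pos hab, abs_mul]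
        exact mul_le_mul (hC2' a (x a)) (hC3' a x) (abs_nonneg _) hC2
      · rw [if_neg hab, abs_zero]
        exact hp2
    have := (abs_add_le (if a = b then deriv (deriv (cut n (lam a))) (x a) *
      pd Pg a (cutv n lam x) else 0) (deriv (cut n (lam a)) (x a) *
        (deriv (cut n (lam b)) (x b) * pd (pd Pg a) b (cutv n lam x))))
    simp only [hDDdef]
    linarith
  have hKd : ∀ θ a s, HasDerivAt (fun θ => K θ a s) (K' θ a s) θ := by
    intro θ a s
    have := ((Real.hasDerivAt_sin θ).mul_const (L a s)).add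
      ((Real.hasDerivAt_cos θ).mul_const (M a s))
    refine this.congr_deriv ?_
    simp only [hKdef']
    ring
  obtain ⟨B1, hB1, hB1'⟩ := exists_common_bound (ι := (I × J) × S)
    (F := fun p (_ : Unit) => L p.1 p.2) fun p => ⟨_, fun _ => le_rfl⟩
  obtain ⟨B2, hB2, hB2'⟩ := exists_common_bound (ι := (I × J) × S)
    (F := fun p (_ : Unit) => M p.1 p.2) fun p => ⟨_, fun _ => le_rfl⟩
  have hKb : ∀ θ a s, |K θ a s| ≤ B1 + B2 := by
    intro θ a s
    have h1 := abs_add_le (Real.sin θ * L a s) (Real.cos θ * M a s)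
    rw [abs_mul, abs_mul] at h1
    have h2 : |Real.sin θ| * |L a s| ≤ 1 * B1 :=
      mul_le_mul (Real.abs_sin_le_one θ) (hB1' (a, s) ()) (abs_nonneg _) zero_le_one
    have h3 : |Real.cos θ| * |M a s| ≤ 1 * B2 :=
      mul_le_mul (Real.abs_cos_le_one θ) (hB2' (a, s) ()) (abs_nonneg _) zero_le_one
    simp only [hKdef]
    linarith
  have hKb' : ∀ θ a s, |K' θ a s| ≤ B1 + B2 := by
    intro θ a s
    have h1 := abs_sub (Real.cos θ * L a s) (Real.sin θ * M a s)
    rw [abs_mul, abs_mul] at h1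
    have h2 : |Real.cos θ| * |L a s| ≤ 1 * B1 :=
      mul_le_mul (Real.abs_cos_le_one θ) (hB1' (a, s) ()) (abs_nonneg _) zero_le_one
    have h3 : |Real.sin θ| * |M a s| ≤ 1 * B2 :=
      mul_le_mul (Real.abs_sin_le_one θ) (hB2' (a, s) ()) (abs_nonneg _) zero_le_one
    simp only [hKdef']
    linarith
  have hder := fun θ => interp_hasDerivAt hf hD hDDc hfb hDb hDDb hKd hKb hKb' θ
  set φ : ℝ → ℝ := fun θ => ∫ w, f (lin (K θ) w) ∂(stdG S) with hφ
  have hKK : ∀ θ a b, ∑ s, K' θ a s * K θ b s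
      = Real.sin θ * Real.cos θ * (∑ s, L a s * L b s - ∑ s, M a s * M b s) := by
    intro θ a b
    have h1 : ∀ s, K' θ a s * K θ b s = Real.sin θ * Real.cos θ * (L a s * L b s)
        - Real.sin θ * Real.cos θ * (M a s * M b s) + Real.cos θ ^ 2 * (L a s * M b s)
        - Real.sin θ ^ 2 * (L b s * M a s) := by
      intro s
      simp only [hKdef, hKdef']
      ring
    simp only [h1, Finset.sum_add_distrib, Finset.sum_sub_distrib, ← Finset.mul_sum]
    rw [hcross a b, hcross b a]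
    ring
  have hDDneg : ∀ i j k, k ≠ j → ∀ x, DD (i, j) (i, k) x ≤ 0 := by
    intro i j k hjk x
    have hne : ((i, j) : I × J) ≠ (i, k) := fun h => hjk (Prod.ext_iff.1 h).2.symm
    simp only [hDDdef, if_neg hne, zero_add]
    have h1 := cut_deriv_nonpos hn.le (lam (i, j)) (x (i, j))
    have h2 := cut_deriv_nonpos hn.le (lam (i, k)) (x (i, k))
    have h3 := pd2_same (i := i) hjk (y := cutv n lam x) (fun a => cut_nonneg _ _ _)
      fun a => cut_le_one _ _ _
    exact mul_nonpos_of_nonpos_of_nonneg h1 (mul_nonneg_of_nonpos_of_nonpos h2 h3)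
  have hDDpos : ∀ i l, l ≠ i → ∀ j k x, 0 ≤ DD (i, j) (l, k) x := by
    intro i l hil j k x
    have hne : ((i, j) : I × J) ≠ (l, k) := fun h => hil (Prod.ext_iff.1 h).1.symm
    simp only [hDDdef, if_neg hne, zero_add]
    have h1 := cut_deriv_nonpos hn.le (lam (i, j)) (x (i, j))
    have h2 := cut_deriv_nonpos hn.le (lam (l, k)) (x (l, k))
    have h3 := pd2_other hil j k (y := cutv n lam x) (fun a => cut_nonneg _ _ _)
      fun a => cut_le_one _ _ _
    exact mul_nonneg_of_nonpos_of_nonpos h1 (mul_nonpos_of_nonpos_of_nonneg h2 h3)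
  have hnonneg : ∀ θ ∈ Set.Ioo 0 (Real.pi / 2), 0 ≤ ∑ a, ∑ b, (∑ s, K' θ a s * K θ b s) *
      ∫ w, DD a b (lin (K θ) w) ∂(stdG S) := by
    intro θ hθ
    have hsc : 0 ≤ Real.sin θ * Real.cos θ :=
      mul_nonneg (Real.sin_nonneg_of_nonneg_of_le_pi hθ.1.le (by linarith [hθ.2, Real.pi_pos]))
        (Real.cos_nonneg_of_neg_pi_div_two_le_of_le (by linarith [hθ.1, Real.pi_pos]) hθ.2.le)
    refine Finset.sum_nonneg fun a _ => Finset.sum_nonneg fun b _ => ?_
    rw [hKK]
    obtain ⟨i, j⟩ := a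
    obtain ⟨l, k⟩ := b
    by_cases hil : l = i
    · subst hil
      by_cases hjk : k = j
      · subst hjk
        rw [hvar]
        simp
      · have h1 : ∫ w, DD (l, j) (l, k) (lin (K θ) w) ∂(stdG S) ≤ 0 :=
          integral_nonpos fun w => hDDneg l j k hjk _
        have h2 : ∑ s, L (l, j) s * L (l, k) s - ∑ s, M (l, j) s * M (l, k) s ≤ 0 := by
          linarith [hrow l j k]
        exact mul_nonneg_of_nonpos_of_nonpos (mul_nonpos_of_nonneg_of_nonpos hsc h2) h1
    · have h1 : 0 ≤ ∫ w, DD (i, j) (l, k) (lin (K θ) w) ∂(stdG S) :=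
        integral_nonneg fun w => hDDpos i l hil j k _
      have h2 : 0 ≤ ∑ s, L (i, j) s * L (l, k) s - ∑ s, M (i, j) s * M (l, k) s := by
        linarith [hoff i l (Ne.symm hil) j k]
      exact mul_nonneg (mul_nonneg hsc h2) h1
  have hmono : MonotoneOn φ (Set.Icc 0 (Real.pi / 2)) := by
    refine monotoneOn_of_deriv_nonneg (convex_Icc _ _) ?_ ?_ ?_
    · exact fun θ _ => (hder θ).continuousAt.continuousWithinAt
    · exact fun θ _ => (hder θ).differentiableAt.differentiableWithinAt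
    · intro θ hθ
      rw [interior_Icc] at hθ
      rw [(hder θ).deriv]
      exact hnonneg θ hθ
  have h0 : φ 0 = ∫ w, Pg (cutv n lam (lin M w)) ∂(stdG S) := by
    have : K 0 = M := by
      funext a s
      simp [hKdef]
    simp only [hφ, this, hfdef]
  have h1 : φ (Real.pi / 2) = ∫ w, Pg (cutv n lam (lin L w)) ∂(stdG S) := by
    have : K (Real.pi / 2) = L := by
      funext a s
      simp [hKdef]
    simp only [hφ, this, hfdef]
  rw [← h0, ← h1]
  have hpi := Real.pi_pos
  exact hmono ⟨le_rfl, by positivity⟩ ⟨by positivity, le_rfl⟩ (by positivity)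

end smooth

end Pool.Agent.IP49
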