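import Pool.Agent.IP49.Gor3

/-!
# IP49 / Gor4 : Gordon's comparison inequality for finite families (probabilities)

`gordon_finite` : `X_ij = ⟨L_ij, x⟩`, `Y_ij = ⟨M_ij, y⟩`, `x`, `y` standard Gaussian vectors;
`|L_ij| = |M_ij|`, `⟨L_ij, L_ik⟩ ≤ ⟨M_ij, M_ik⟩`, `⟨M_ij, M_lk⟩ ≤ ⟨L_ij, L_lk⟩` for `i ≠ l`. Then
`P(∀ i, ∃ j, lam_ij ≤ Y_ij) ≤ P(∀ i, ∃ j, lam_ij ≤ X_ij)`.
-/

set_option autoImplicit false
set_option linter.unusedSectionVars false

open MeasureTheory ProbabilityTheory Filter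

namespace Pool.Agent.IP49

section ev

variable {I J : Type*} [Fintype I] [Fintype J] [DecidableEq I] [DecidableEq J]

theorem cut_eventually (lam x : ℝ) :
    ∀ᶠ n : ℕ in atTop, cut ((n : ℝ) + 1) lam x = if x < lam then 1 else 0 := by
  by_cases h : x < lam
  · have h1 : 0 < lam - x := by linarith
    obtain ⟨N, hN⟩ := exists_nat_gt (1 / (lam - x))
    filter_upwards [eventually_ge_atTop N] with n hn
    rw [if_pos h]
    have hpos : (0 : ℝ) < (n : ℝ) + 1 := by positivity
    refine cut_one hpos ?_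
    have h2 : 1 / (lam - x) < (n : ℝ) + 1 := by
      have : (N : ℝ) ≤ n := by exact_mod_cast hn
      linarith
    have h3 : 1 / ((n : ℝ) + 1) ≤ lam - x := by
      rw [div_le_iff₀ hpos]
      rw [div_lt_iff₀ h1] at h2
      linarith
    linarith
  · filter_upwards with n
    rw [if_neg h]
    exact cut_zero (by positivity) (not_lt.1 h)

open Classical in
theorem Pg_tendsto (lam x : I × J → ℝ) :
    Tendsto (fun n : ℕ => Pg (cutv ((n : ℝ) + 1) lam x)) atTop
      (nhds (if (∀ i, ∃ j, lam (i, j) ≤ x (i, j)) then 1 else 0)) := by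
  have h1 : ∀ᶠ n : ℕ in atTop, ∀ a : I × J,
      cut ((n : ℝ) + 1) (lam a) (x a) = if x a < lam a then 1 else 0 :=
    eventually_all.2 fun a => cut_eventually (lam a) (x a)
  refine tendsto_const_nhds.congr' ?_
  filter_upwards [h1] with n hn
  unfold Pg cutv
  simp only [hn]
  split_ifs with h
  · symm
    refine Finset.prod_eq_one fun i _ => ?_
    obtain ⟨j, hj⟩ := h i
    rw [Finset.prod_eq_zero (Finset.mem_univ j) (if_neg (not_lt.2 hj)), sub_zero]
  · push Not at h
    obtain ⟨i, hi⟩ := h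
    symm
    refine Finset.prod_eq_zero (Finset.mem_univ i) ?_
    rw [Finset.prod_eq_one fun j _ => if_pos (hi j), sub_self]

theorem Pg_abs_le {y : I × J → ℝ} (h0 : ∀ a, 0 ≤ y a) (h1 : ∀ a, y a ≤ 1) : |Pg y| ≤ 1 := by
  have hA : ∀ i, 0 ≤ 1 - ∏ k, y (i, k) := row_prod_mem h0 h1
  have hB : ∀ i, 1 - ∏ k, y (i, k) ≤ 1 := fun i => by
    have : 0 ≤ ∏ k, y (i, k) := Finset.prod_nonneg fun k _ => h0 _
    linarith
  unfold Pg
  rw [abs_of_nonneg (Finset.prod_nonneg fun i _ => hA i)]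
  exact Finset.prod_le_one (fun i _ => hA i) fun i _ => hB i

end ev

section same

variable {I J S : Type*} [Fintype I] [Fintype J] [Fintype S] [DecidableEq I] [DecidableEq J]

theorem Pg_integral_tendsto (L : I × J → S → ℝ) (lam : I × J → ℝ) :
    Tendsto (fun n : ℕ => ∫ w, Pg (cutv ((n : ℝ) + 1) lam (lin L w)) ∂(stdG S)) atTop
      (nhds ((stdG S).real {w | ∀ i, ∃ j, lam (i, j) ≤ lin L w (i, j)})) := by
  classical
  have hms : MeasurableSet {w : S → ℝ | ∀ i, ∃ j, lam (i, j) ≤ lin L w (i, j)} := by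
    have : {w : S → ℝ | ∀ i, ∃ j, lam (i, j) ≤ lin L w (i, j)}
        = ⋂ i, ⋃ j, {w : S → ℝ | lam (i, j) ≤ lin L w (i, j)} := by
      ext w
      simp
    rw [this]
    refine MeasurableSet.iInter fun i => MeasurableSet.iUnion fun j => ?_
    exact measurableSet_le measurable_const
      ((continuous_apply (i, j)).comp (continuous_lin L)).measurable
  have he : (stdG S).real {w | ∀ i, ∃ j, lam (i, j) ≤ lin L w (i, j)}
      = ∫ w, (if (∀ i, ∃ j, lam (i, j) ≤ lin L w (i, j)) then (1 : ℝ) else 0) ∂(stdG S) := by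
    rw [← integral_indicator_one hms]
    refine integral_congr_ae (Eventually.of_forall fun w => ?_)
    simp [Set.indicator_apply]
  rw [he]
  refine tendsto_integral_of_dominated_convergence (fun _ => (1 : ℝ)) (fun n => ?_)
    (integrable_const 1) (fun n => ?_) ?_
  · exact ((contDiff_Pg.continuous.comp (cutv_contDiff _ lam).continuous).comp
      (continuous_lin L)).aestronglyMeasurable
  · refine Eventually.of_forall fun w => ?_
    exact Pg_abs_le (fun a => cut_nonneg _ _ _) fun a => cut_le_one _ _ _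
  · exact Eventually.of_forall fun w => Pg_tendsto lam (lin L w)

theorem gordon_same (L M : I × J → S → ℝ) (lam : I × J → ℝ)
    (hvar : ∀ a, ∑ s, L a s * L a s = ∑ s, M a s * M a s)
    (hrow : ∀ i j k, ∑ s, L (i, j) s * L (i, k) s ≤ ∑ s, M (i, j) s * M (i, k) s)
    (hoff : ∀ i l, i ≠ l → ∀ j k, ∑ s, M (i, j) s * M (l, k) s ≤ ∑ s, L (i, j) s * L (l, k) s)
    (hcross : ∀ a b, ∑ s, L a s * M b s = 0) :
    (stdG S).real {w | ∀ i, ∃ j, lam (i, j) ≤ lin M w (i, j)}
      ≤ (stdG S).real {w | ∀ i, ∃ j, lam (i, j) ≤ lin L w (i, j)} :=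
  le_of_tendsto_of_tendsto' (Pg_integral_tendsto M lam) (Pg_integral_tendsto L lam) fun n =>
    gordon_smooth L M lam (n := (n : ℝ) + 1) (by positivity) hvar hrow hoff hcross

end same

section sum

variable {P Q : Type*} [Fintype P] [Fintype Q]

theorem mp_inl : MeasurePreserving (fun (w : P ⊕ Q → ℝ) (p : P) => w (Sum.inl p))
    (stdG (P ⊕ Q)) (stdG P) := by
  have h := measurePreserving_sumPiEquivProdPi (ι := P) (ι' := Q)
    (X := fun _ => ℝ) (fun _ => gaussianReal 0 1)
  exact measurePreserving_fst.comp h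

theorem mp_inr : MeasurePreserving (fun (w : P ⊕ Q → ℝ) (q : Q) => w (Sum.inr q))
    (stdG (P ⊕ Q)) (stdG Q) := by
  have h := measurePreserving_sumPiEquivProdPi (ι := P) (ι' := Q)
    (X := fun _ => ℝ) (fun _ => gaussianReal 0 1)
  exact measurePreserving_snd.comp h

end sum

section finite

variable {I J P Q : Type*} [Fintype I] [Fintype J] [Fintype P] [Fintype Q]
  [DecidableEq I] [DecidableEq J]

theorem measurableSet_ev (L : I × J → P → ℝ) (lam : I × J → ℝ) :
    MeasurableSet {w : P → ℝ | ∀ i, ∃ j, lam (i, j) ≤ lin L w (i, j)} := by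
  have : {w : P → ℝ | ∀ i, ∃ j, lam (i, j) ≤ lin L w (i, j)}
      = ⋂ i, ⋃ j, {w : P → ℝ | lam (i, j) ≤ lin L w (i, j)} := by
    ext w
    simp
  rw [this]
  refine MeasurableSet.iInter fun i => MeasurableSet.iUnion fun j => ?_
  exact measurableSet_le measurable_const
    ((continuous_apply (i, j)).comp (continuous_lin L)).measurable

/-- Gordon's comparison inequality for finite families. -/
theorem gordon_finite (L : I × J → P → ℝ) (M : I × J → Q → ℝ) (lam : I × J → ℝ)
    (hvar : ∀ a, ∑ s, L a s * L a s = ∑ s, M a s * M a s)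
    (hrow : ∀ i j k, ∑ s, L (i, j) s * L (i, k) s ≤ ∑ s, M (i, j) s * M (i, k) s)
    (hoff : ∀ i l, i ≠ l → ∀ j k,
      ∑ s, M (i, j) s * M (l, k) s ≤ ∑ s, L (i, j) s * L (l, k) s) :
    (stdG Q).real {w | ∀ i, ∃ j, lam (i, j) ≤ lin M w (i, j)}
      ≤ (stdG P).real {w | ∀ i, ∃ j, lam (i, j) ≤ lin L w (i, j)} := by
  classical
  set L' : I × J → P ⊕ Q → ℝ := fun a => Sum.elim (L a) (fun _ => 0) with hL'
  set M' : I × J → P ⊕ Q → ℝ := fun a => Sum.elim (fun _ => 0) (M a) with hM'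
  have hLL : ∀ a b, ∑ s, L' a s * L' b s = ∑ s, L a s * L b s := by
    intro a b
    simp [hL', Fintype.sum_sum_type]
  have hMM : ∀ a b, ∑ s, M' a s * M' b s = ∑ s, M a s * M b s := by
    intro a b
    simp [hM', Fintype.sum_sum_type]
  have hLM : ∀ a b, ∑ s, L' a s * M' b s = 0 := by
    intro a b
    simp [hL', hM', Fintype.sum_sum_type]
  have h := gordon_same L' M' lam (fun a => by rw [hLL, hMM, hvar])
    (fun i j k => by rw [hLL, hMM]; exact hrow i j k)
    (fun i l hil j k => by rw [hLL, hMM]; exact hoff i l hil j k) hLM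
  have hlinL : ∀ w : P ⊕ Q → ℝ, lin L' w = lin L (fun p => w (Sum.inl p)) := by
    intro w
    funext a
    simp [lin, hL', Fintype.sum_sum_type]
  have hlinM : ∀ w : P ⊕ Q → ℝ, lin M' w = lin M (fun q => w (Sum.inr q)) := by
    intro w
    funext a
    simp [lin, hM', Fintype.sum_sum_type]
  have e1 : (stdG (P ⊕ Q)).real {w | ∀ i, ∃ j, lam (i, j) ≤ lin L' w (i, j)}
      = (stdG P).real {w | ∀ i, ∃ j, lam (i, j) ≤ lin L w (i, j)} := by
    have := (mp_inl (P := P) (Q := Q)).measureReal_preimage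
      (measurableSet_ev L lam).nullMeasurableSet
    rw [← this]
    simp only [hlinL]
    rfl
  have e2 : (stdG (P ⊕ Q)).real {w | ∀ i, ∃ j, lam (i, j) ≤ lin M' w (i, j)}
      = (stdG Q).real {w | ∀ i, ∃ j, lam (i, j) ≤ lin M w (i, j)} := by
    have := (mp_inr (P := P) (Q := Q)).measureReal_preimage
      (measurableSet_ev M lam).nullMeasurableSet
    rw [← this]
    simp only [hlinM]
    rfl
  rw [e1, e2] at h
  exact h

end finite

end Pool.Agent.IP49
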