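import Pool.Agent.IP49.Gor4

/-!
# IP49 / Gor5 : Gordon's comparison inequality for compact index spaces

`gordon_compact` : `α`, `β` compact separable, `L`, `M`, `lam` continuous, rows equal. Then
`P(∀ u, ∃ v, lam u v ≤ Y_uv) ≤ P(∀ u, ∃ v, lam u v ≤ X_uv)`.
-/

set_option autoImplicit false
set_option linter.unusedSectionVars false

open MeasureTheory ProbabilityTheory Filter TopologicalSpace

namespace Pool.Agent.IP49

/-- Inner product of coefficient vectors. -/
def dot {P : Type*} [Fintype P] (x y : P → ℝ) : ℝ := ∑ p, x p * y p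

theorem dot_comm {P : Type*} [Fintype P] (x y : P → ℝ) : dot x y = dot y x := by
  unfold dot
  exact Finset.sum_congr rfl fun p _ => mul_comm _ _

theorem continuous_dot {X P : Type*} [TopologicalSpace X] [Fintype P] {f g : X → P → ℝ}
    (hf : Continuous f) (hg : Continuous g) : Continuous fun x => dot (f x) (g x) := by
  unfold dot
  fun_prop

section compact

variable {α β P : Type*} [TopologicalSpace α] [CompactSpace α] [SeparableSpace α]
  [TopologicalSpace β] [CompactSpace β] [SeparableSpace β] [Fintype P]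

/-- The set where the existence over `β` holds is closed. -/
theorem isClosed_exists {X : Type*} [TopologicalSpace X] {F : X → β → ℝ}
    (hF : Continuous (Function.uncurry F)) (c : ℝ) : IsClosed {x | ∃ v, c ≤ F x v} := by
  have h1 : IsClosed {p : X × β | c ≤ F p.1 p.2} :=
    isClosed_le continuous_const hF
  have h2 := isClosedMap_fst_of_compactSpace (X := X) (Y := β) _ h1
  convert h2 using 1
  ext x
  simp

/-- Slack can be removed by compactness. -/
theorem exists_of_slack {F : β → ℝ} (hF : Continuous F)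
    (h : ∀ n : ℕ, ∃ v, -(1 / ((n : ℝ) + 1)) ≤ F v) : ∃ v, 0 ≤ F v := by
  obtain ⟨v0, _⟩ := h 0
  have : Nonempty β := ⟨v0⟩
  obtain ⟨v, -, hv⟩ := isCompact_univ.exists_isMaxOn (Set.univ_nonempty (α := β)) hF.continuousOn
  refine ⟨v, ?_⟩
  refine le_of_forall_pos_le_add fun ε hε => ?_
  obtain ⟨n, hn⟩ := exists_nat_gt (1 / ε)
  obtain ⟨v', hv'⟩ := h n
  have h1 : F v' ≤ F v := hv (Set.mem_univ v')
  have h2 : 1 / ((n : ℝ) + 1) ≤ ε := by
    rw [div_le_iff₀ (by positivity)]
    rw [div_lt_iff₀ hε] at hn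
    nlinarith
  linarith

variable {Q : Type*} [Fintype Q]

theorem gordon_compact (L : α → β → P → ℝ) (M : α → β → Q → ℝ) (lam : α → β → ℝ)
    (hL : Continuous (Function.uncurry L)) (hM : Continuous (Function.uncurry M))
    (hlam : Continuous (Function.uncurry lam))
    (hrow : ∀ u v v', dot (L u v) (L u v') ≤ dot (M u v) (M u v'))
    (hoff : ∀ u u' v v', dot (M u v) (M u' v') ≤ dot (L u v) (L u' v')) :
    (stdG Q).real {w | ∀ u, ∃ v, lam u v ≤ dot (M u v) w}
      ≤ (stdG P).real {w | ∀ u, ∃ v, lam u v ≤ dot (L u v) w} := by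
  classical
  rcases isEmpty_or_nonempty α with hα | hα
  · simp
  rcases isEmpty_or_nonempty β with hβ | hβ
  · have : {w : Q → ℝ | ∀ u, ∃ v, lam u v ≤ dot (M u v) w} = ∅ := by
      ext w
      simp only [Set.mem_ofPred_eq, IsEmpty.exists_iff, Set.mem_empty_iff_false, iff_false]
      intro h
      exact h hα.some
    rw [this]
    simp
  set a : ℕ → α := denseSeq α with ha
  set b : ℕ → β := denseSeq β with hb
  have hMw : ∀ (u : α) (w : Q → ℝ), Continuous fun v => dot (M u v) w - lam u v := by
    intro u w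
    refine (continuous_dot (hM.comp (by fun_prop : Continuous fun v : β => (u, v)))
      continuous_const).sub (hlam.comp (by fun_prop : Continuous fun v : β => (u, v)))
  have hLw : ∀ (u : α) (w : P → ℝ), Continuous fun v => dot (L u v) w - lam u v := by
    intro u w
    refine (continuous_dot (hL.comp (by fun_prop : Continuous fun v : β => (u, v)))
      continuous_const).sub (hlam.comp (by fun_prop : Continuous fun v : β => (u, v)))
  -- finite events
  set FY : ℕ → ℕ → Set (Q → ℝ) := fun n m =>
    {w | ∀ i : Fin (n + 1), ∃ j : Fin (m + 1),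
      lam (a i) (b j) - 1 / ((n : ℝ) + 1) ≤ dot (M (a i) (b j)) w} with hFY
  set FX : ℕ → ℕ → Set (P → ℝ) := fun n m =>
    {w | ∀ i : Fin (n + 1), ∃ j : Fin (m + 1),
      lam (a i) (b j) - 1 / ((n : ℝ) + 1) ≤ dot (L (a i) (b j)) w} with hFX
  set EX : ℕ → Set (P → ℝ) := fun n =>
    {w | ∀ i : Fin (n + 1), ∃ v : β,
      -(1 / ((n : ℝ) + 1)) ≤ dot (L (a i) v) w - lam (a i) v} with hEX
  have hfin : ∀ n m, (stdG Q).real (FY n m) ≤ (stdG P).real (FX n m) := by
    intro n m
    have h := gordon_finite (I := Fin (n + 1)) (J := Fin (m + 1))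
      (fun p => L (a p.1) (b p.2)) (fun p => M (a p.1) (b p.2))
      (fun p => lam (a p.1) (b p.2) - 1 / ((n : ℝ) + 1))
      (fun p => le_antisymm (hrow (a p.1) (b p.2) (b p.2))
        (hoff (a p.1) (a p.1) (b p.2) (b p.2)))
      (fun i j k => hrow (a i) (b j) (b k))
      (fun i l _ j k => hoff (a i) (a l) (b j) (b k))
    exact h
  -- step 1
  have hstep1 : ∀ n, (stdG Q).real {w | ∀ u, ∃ v, lam u v ≤ dot (M u v) w}
      ≤ (stdG P).real (EX n) := by
    intro n
    have hc : (0 : ℝ) < 1 / ((n : ℝ) + 1) := by positivity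
    have hsub : {w | ∀ u, ∃ v, lam u v ≤ dot (M u v) w} ⊆ ⋃ m, FY n m := by
      intro w hw
      have hj : ∀ i : Fin (n + 1), ∃ j : ℕ,
          lam (a i) (b j) - 1 / ((n : ℝ) + 1) ≤ dot (M (a i) (b j)) w := by
        intro i
        obtain ⟨v, hv⟩ := hw (a i)
        have hopen : IsOpen {v' : β | -(1 / ((n : ℝ) + 1)) < dot (M (a i) v') w - lam (a i) v'} :=
          isOpen_lt continuous_const (hMw (a i) w)
        obtain ⟨j, hj⟩ := (denseRange_denseSeq β).exists_mem_open hopen
          ⟨v, by simp only [Set.mem_ofPred_eq]; linarith⟩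
        refine ⟨j, ?_⟩
        simp only [Set.mem_ofPred_eq] at hj
        linarith
      choose j hj using hj
      refine Set.mem_iUnion.2 ⟨∑ i, j i, fun i => ⟨⟨j i, ?_⟩, hj i⟩⟩
      exact Nat.lt_succ_of_le (Finset.single_le_sum (f := j) (fun _ _ => Nat.zero_le _)
        (Finset.mem_univ i))
    have hmono : Monotone (FY n) := by
      intro m m' hmm w hw i
      obtain ⟨j, hj⟩ := hw i
      exact ⟨⟨j, by omega⟩, hj⟩
    have hlim : Tendsto (fun m => (stdG Q).real (FY n m)) atTop
        (nhds ((stdG Q).real (⋃ m, FY n m))) := by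
      have := tendsto_measure_iUnion_atTop (μ := stdG Q) hmono
      exact (ENNReal.tendsto_toReal (measure_ne_top _ _)).comp this
    have h1 : (stdG Q).real (⋃ m, FY n m) ≤ (stdG P).real (EX n) := by
      refine le_of_tendsto' hlim fun m => (hfin n m).trans ?_
      refine measureReal_mono ?_
      intro w hw i
      obtain ⟨j, hj⟩ := hw i
      exact ⟨b j, by linarith⟩
    exact (measureReal_mono hsub).trans h1
  -- step 2
  have hEXm : ∀ n, MeasurableSet (EX n) := by
    intro n
    have : EX n = ⋂ i : Fin (n + 1), {w | ∃ v : β,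
        -(1 / ((n : ℝ) + 1)) ≤ dot (L (a i) v) w - lam (a i) v} := by
      ext w
      simp [hEX]
    rw [this]
    refine MeasurableSet.iInter fun i => IsClosed.measurableSet ?_
    refine isClosed_exists (F := fun (w : P → ℝ) v => dot (L (a i) v) w - lam (a i) v) ?_ _
    have hp : Continuous fun p : (P → ℝ) × β => ((a i, p.2) : α × β) := by fun_prop
    exact (continuous_dot (hL.comp hp) continuous_fst).sub (hlam.comp hp)
  have hanti : Antitone EX := by
    intro n n' hnn w hw i
    obtain ⟨v, hv⟩ := hw ⟨i, by omega⟩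
    refine ⟨v, le_trans ?_ hv⟩
    have : 1 / ((n' : ℝ) + 1) ≤ 1 / ((n : ℝ) + 1) := by
      have : (n : ℝ) ≤ n' := by exact_mod_cast hnn
      exact one_div_le_one_div_of_le (by positivity) (by linarith)
    linarith
  have hlim2 : Tendsto (fun n => (stdG P).real (EX n)) atTop
      (nhds ((stdG P).real (⋂ n, EX n))) := by
    have := tendsto_measure_iInter_atTop (μ := stdG P)
      (fun n => (hEXm n).nullMeasurableSet) hanti ⟨0, measure_ne_top _ _⟩
    exact (ENNReal.tendsto_toReal (measure_ne_top _ _)).comp this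
  have h2 : (stdG Q).real {w | ∀ u, ∃ v, lam u v ≤ dot (M u v) w}
      ≤ (stdG P).real (⋂ n, EX n) := ge_of_tendsto' hlim2 hstep1
  refine h2.trans (measureReal_mono ?_)
  intro w hw
  simp only [Set.mem_iInter] at hw
  have hclosed : IsClosed {u : α | ∃ v, 0 ≤ dot (L u v) w - lam u v} := by
    refine isClosed_exists (F := fun (u : α) v => dot (L u v) w - lam u v) ?_ _
    exact (continuous_dot hL continuous_const).sub hlam
  have hmem : ∀ i : ℕ, a i ∈ {u : α | ∃ v, 0 ≤ dot (L u v) w - lam u v} := by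
    intro i
    refine exists_of_slack (hLw (a i) w) fun n => ?_
    obtain ⟨v, hv⟩ := hw (max n i) ⟨i, by
      exact Nat.lt_succ_of_le (le_max_right n i)⟩
    refine ⟨v, le_trans ?_ hv⟩
    have : 1 / (((max n i : ℕ) : ℝ) + 1) ≤ 1 / ((n : ℝ) + 1) := by
      have : (n : ℝ) ≤ ((max n i : ℕ) : ℝ) := by exact_mod_cast le_max_left n i
      exact one_div_le_one_div_of_le (by positivity) (by linarith)
    linarith
  have huniv : {u : α | ∃ v, 0 ≤ dot (L u v) w - lam u v} = Set.univ := by
    have hd : Dense {u : α | ∃ v, 0 ≤ dot (L u v) w - lam u v} := by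
      refine (denseRange_denseSeq α).mono ?_
      rintro _ ⟨i, rfl⟩
      exact hmem i
    rw [← hclosed.closure_eq]
    exact hd.closure_eq
  intro u
  have hu : u ∈ {u : α | ∃ v, 0 ≤ dot (L u v) w - lam u v} := by
    rw [huniv]
    trivial
  obtain ⟨v, hv⟩ := hu
  exact ⟨v, by linarith⟩

end compact

end Pool.Agent.IP49
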