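import Pool.Agent.IP49.Gor5

/-!
# IP49 / Gor6 : the convex Gaussian min-max comparison (CGMT form of Gordon)

`cgmt` : `a : α → ℝ^n`, `b : β → ℝ^m` continuous on compact separable spaces, `lam` continuous,
`G` an `m × n` matrix, `(g, h)` a vector, all entries i.i.d. `N(0,1)`. Then
`P(∃ u, ∀ v, ⟨b v, G (a u)⟩ < lam u v) ≤ 2 P(∃ u, ∀ v, |a u| ⟨g, b v⟩ + |b v| ⟨h, a u⟩ < lam u v)`.
-/

set_option autoImplicit false
set_option linter.unusedSectionVars false

open MeasureTheory ProbabilityTheory Filter TopologicalSpace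

namespace Pool.Agent.IP49

section nrm

variable {P : Type*} [Fintype P]

/-- Euclidean norm of a vector `P → ℝ`. -/
noncomputable def nrm (x : P → ℝ) : ℝ := Real.sqrt (dot x x)

theorem dot_self_nonneg (x : P → ℝ) : 0 ≤ dot x x :=
  Finset.sum_nonneg fun p _ => mul_self_nonneg (x p)

theorem nrm_nonneg (x : P → ℝ) : 0 ≤ nrm x := Real.sqrt_nonneg _

theorem nrm_sq (x : P → ℝ) : nrm x * nrm x = dot x x := Real.mul_self_sqrt (dot_self_nonneg x)

theorem dot_le_nrm (x y : P → ℝ) : dot x y ≤ nrm x * nrm y := by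
  have h := Finset.sum_mul_sq_le_sq_mul_sq Finset.univ x y
  have hx : ∑ p, x p ^ 2 = nrm x ^ 2 := by
    rw [sq, nrm_sq]
    exact Finset.sum_congr rfl fun p _ => sq (x p)
  have hy : ∑ p, y p ^ 2 = nrm y ^ 2 := by
    rw [sq, nrm_sq]
    exact Finset.sum_congr rfl fun p _ => sq (y p)
  rw [hx, hy, ← mul_pow] at h
  exact le_of_sq_le_sq h (mul_nonneg (nrm_nonneg x) (nrm_nonneg y))
where
  le_of_sq_le_sq {s t : ℝ} (h : s ^ 2 ≤ t ^ 2) (ht : 0 ≤ t) : s ≤ t := by
    nlinarith [abs_le_of_sq_le_sq h ht, le_abs_self s]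

theorem continuous_nrm {X : Type*} [TopologicalSpace X] {f : X → P → ℝ} (hf : Continuous f) :
    Continuous fun x => nrm (f x) := (continuous_dot hf hf).sqrt

end nrm

section coeff

variable {m n : Type*} [Fintype m] [Fintype n]

/-- Coefficients of `⟨y, G x⟩ + γ |x| |y|`. -/
noncomputable def cL (x : n → ℝ) (y : m → ℝ) : (m × n) ⊕ Unit → ℝ :=
  Sum.elim (fun p => y p.1 * x p.2) (fun _ => nrm x * nrm y)

/-- Coefficients of `|x| ⟨g, y⟩ + |y| ⟨h, x⟩`. -/
noncomputable def cM (x : n → ℝ) (y : m → ℝ) : m ⊕ n → ℝ :=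
  Sum.elim (fun k => nrm x * y k) (fun i => nrm y * x i)

theorem dot_cL (x x' : n → ℝ) (y y' : m → ℝ) :
    dot (cL x y) (cL x' y') = dot y y' * dot x x' + (nrm x * nrm x') * (nrm y * nrm y') := by
  unfold dot cL
  rw [Fintype.sum_sum_type]
  simp only [Sum.elim_inl, Sum.elim_inr, Finset.univ_unique, Finset.sum_singleton]
  rw [Fintype.sum_prod_type, Finset.sum_mul_sum]
  congr 1
  · refine Finset.sum_congr rfl fun k _ => Finset.sum_congr rfl fun i _ => ?_
    ring
  · ring

theorem dot_cM (x x' : n → ℝ) (y y' : m → ℝ) :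
    dot (cM x y) (cM x' y')
      = (nrm x * nrm x') * dot y y' + (nrm y * nrm y') * dot x x' := by
  unfold dot cM
  rw [Fintype.sum_sum_type]
  simp only [Sum.elim_inl, Sum.elim_inr, Finset.mul_sum]
  congr 1
  · exact Finset.sum_congr rfl fun k _ => by ring
  · exact Finset.sum_congr rfl fun i _ => by ring

theorem cM_le_cL (x x' : n → ℝ) (y y' : m → ℝ) :
    dot (cM x y) (cM x' y') ≤ dot (cL x y) (cL x' y') := by
  rw [dot_cL, dot_cM]
  have h1 := dot_le_nrm x x'
  have h2 := dot_le_nrm y y'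
  nlinarith [mul_nonneg (sub_nonneg.2 h1) (sub_nonneg.2 h2)]

theorem cL_row (x : n → ℝ) (y y' : m → ℝ) :
    dot (cL x y) (cL x y') = dot (cM x y) (cM x y') := by
  rw [dot_cL, dot_cM, nrm_sq]
  ring

theorem continuous_cL {X : Type*} [TopologicalSpace X] {f : X → n → ℝ} {g : X → m → ℝ}
    (hf : Continuous f) (hg : Continuous g) : Continuous fun x => cL (f x) (g x) := by
  rw [continuous_pi_iff]
  rintro (p | p)
  · simp only [cL, Sum.elim_inl]
    exact ((continuous_apply p.1).comp hg).mul ((continuous_apply p.2).comp hf)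
  · simp only [cL, Sum.elim_inr]
    exact (continuous_nrm hf).mul (continuous_nrm hg)

theorem continuous_cM {X : Type*} [TopologicalSpace X] {f : X → n → ℝ} {g : X → m → ℝ}
    (hf : Continuous f) (hg : Continuous g) : Continuous fun x => cM (f x) (g x) := by
  rw [continuous_pi_iff]
  rintro (p | p)
  · simp only [cM, Sum.elim_inl]
    exact (continuous_nrm hf).mul ((continuous_apply p).comp hg)
  · simp only [cM, Sum.elim_inr]
    exact (continuous_nrm hg).mul ((continuous_apply p).comp hf)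

end coeff

section cgmt

variable {α β m n : Type*} [TopologicalSpace α] [CompactSpace α] [SeparableSpace α]
  [TopologicalSpace β] [CompactSpace β] [SeparableSpace β] [Fintype m] [Fintype n]

/-- Comparison with the extra Gaussian `γ |a u| |b v|`. -/
theorem cgmt_gam (a : α → n → ℝ) (b : β → m → ℝ) (lam : α → β → ℝ) (ha : Continuous a)
    (hb : Continuous b) (hlam : Continuous (Function.uncurry lam)) :
    (stdG (m ⊕ n)).real {w | ∀ u, ∃ v, lam u v ≤ dot (cM (a u) (b v)) w}
      ≤ (stdG ((m × n) ⊕ Unit)).real {w | ∀ u, ∃ v, lam u v ≤ dot (cL (a u) (b v)) w} := by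
  refine gordon_compact (fun u v => cL (a u) (b v)) (fun u v => cM (a u) (b v)) lam ?_ ?_ hlam
    (fun u v v' => (cL_row _ _ _).le) (fun u u' v v' => cM_le_cL _ _ _ _)
  · exact continuous_cL (ha.comp continuous_fst) (hb.comp continuous_snd)
  · exact continuous_cM (ha.comp continuous_fst) (hb.comp continuous_snd)

theorem isClosed_ev {P : Type*} [Fintype P] (L : α → β → P → ℝ) (lam : α → β → ℝ)
    (hL : Continuous (Function.uncurry L)) (hlam : Continuous (Function.uncurry lam)) :
    IsClosed {w : P → ℝ | ∀ u, ∃ v, lam u v ≤ dot (L u v) w} := by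
  have : {w : P → ℝ | ∀ u, ∃ v, lam u v ≤ dot (L u v) w}
      = ⋂ u, {w : P → ℝ | ∃ v, 0 ≤ dot (L u v) w - lam u v} := by
    ext w
    simp [sub_nonneg]
  rw [this]
  refine isClosed_iInter fun u => ?_
  refine isClosed_exists (F := fun (w : P → ℝ) v => dot (L u v) w - lam u v) ?_ _
  have hp : Continuous fun p : (P → ℝ) × β => ((u, p.2) : α × β) := by fun_prop
  exact (continuous_dot (hL.comp hp) continuous_fst).sub (hlam.comp hp)

theorem half_le_gauss : (1 : ℝ) / 2 ≤ (gaussianReal 0 1).real (Set.Iic 0) := by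
  have hmap : (gaussianReal 0 1).map (fun x : ℝ => -x) = gaussianReal 0 1 := by
    have := gaussianReal_map_neg (μ := 0) (v := 1)
    rwa [neg_zero] at this
  have h1 : (gaussianReal 0 1).real (Set.Ici 0) = (gaussianReal 0 1).real (Set.Iic 0) := by
    have h2 : ((gaussianReal 0 1).map (fun x : ℝ => -x)).real (Set.Ici 0)
        = (gaussianReal 0 1).real ((fun x : ℝ => -x) ⁻¹' Set.Ici 0) :=
      map_measureReal_apply measurable_neg measurableSet_Ici
    rw [hmap] at h2
    rw [h2]
    congr 1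
    ext x
    simp
  have h3 : (gaussianReal 0 1).real (Set.Iic 0 ∪ Set.Ici 0) = 1 := by
    rw [Set.Iic_union_Ici]
    simp
  have h4 := measureReal_union_le (μ := gaussianReal 0 1) (Set.Iic (0 : ℝ)) (Set.Ici 0)
  linarith

theorem prod_unit_real {P : Type*} [Fintype P] {B : Set (P → ℝ)} (hB : MeasurableSet B) :
    (stdG (P ⊕ Unit)).real {w | (fun p => w (Sum.inl p)) ∈ B ∧ w (Sum.inr ()) ≤ 0}
      = (stdG P).real B * (gaussianReal 0 1).real (Set.Iic 0) := by
  have h := measurePreserving_sumPiEquivProdPi (ι := P) (ι' := Unit)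
    (X := fun _ => ℝ) (fun _ => gaussianReal 0 1)
  have hev := measurePreserving_eval (fun _ : Unit => gaussianReal 0 1) ()
  have hms : MeasurableSet ((fun g : Unit → ℝ => g ()) ⁻¹' Set.Iic 0) :=
    (measurable_pi_apply ()) measurableSet_Iic
  have e1 := h.measureReal_preimage (hB.prod hms).nullMeasurableSet
  have e2 := hev.measureReal_preimage (measurableSet_Iic (a := (0 : ℝ))).nullMeasurableSet
  rw [measureReal_prod_prod] at e1
  rw [← e2]
  exact e1

/-- Convex Gaussian min-max comparison. -/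
theorem cgmt (a : α → n → ℝ) (b : β → m → ℝ) (lam : α → β → ℝ) (ha : Continuous a)
    (hb : Continuous b) (hlam : Continuous (Function.uncurry lam)) :
    (stdG (m × n)).real
        {G | ∃ u, ∀ v, ∑ k, ∑ i, b v k * a u i * G (k, i) < lam u v}
      ≤ 2 * (stdG (m ⊕ n)).real
        {w | ∃ u, ∀ v, nrm (a u) * ∑ k, b v k * w (Sum.inl k)
          + nrm (b v) * ∑ i, a u i * w (Sum.inr i) < lam u v} := by
  classical
  set B : Set (m × n → ℝ) :=
    {G | ∃ u, ∀ v, ∑ k, ∑ i, b v k * a u i * G (k, i) < lam u v} with hB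
  have hBm : MeasurableSet B := by
    have h1 := isClosed_ev (α := α) (β := β) (P := m × n) (fun u v p => b v p.1 * a u p.2) lam
      (by
        rw [continuous_pi_iff]
        intro p
        exact (((continuous_apply p.1).comp hb).comp continuous_snd).mul
          (((continuous_apply p.2).comp ha).comp continuous_fst)) hlam
    have h2 : B = {w : m × n → ℝ | ∀ u, ∃ v, lam u v ≤
        dot (fun p : m × n => b v p.1 * a u p.2) w}ᶜ := by
      ext w
      simp only [hB, Set.mem_ofPred_eq, Set.mem_compl_iff, not_forall, not_exists, not_le, dot,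
        Fintype.sum_prod_type]
    rw [h2]
    exact h1.measurableSet.compl
  have hX := isClosed_ev (α := α) (β := β) (fun u v => cL (a u) (b v)) lam
    (continuous_cL (ha.comp continuous_fst) (hb.comp continuous_snd)) hlam
  have hY := isClosed_ev (α := α) (β := β) (fun u v => cM (a u) (b v)) lam
    (continuous_cM (ha.comp continuous_fst) (hb.comp continuous_snd)) hlam
  have hcomp := cgmt_gam a b lam ha hb hlam
  have eX := probReal_compl_eq_one_sub (μ := stdG ((m × n) ⊕ Unit)) hX.measurableSet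
  have eY := probReal_compl_eq_one_sub (μ := stdG (m ⊕ n)) hY.measurableSet
  have hsub : {w : (m × n) ⊕ Unit → ℝ | (fun p => w (Sum.inl p)) ∈ B ∧ w (Sum.inr ()) ≤ 0}
      ⊆ {w | ∀ u, ∃ v, lam u v ≤ dot (cL (a u) (b v)) w}ᶜ := by
    rintro w ⟨⟨u, hu⟩, hw⟩
    simp only [Set.mem_compl_iff, Set.mem_ofPred_eq, not_forall, not_exists, not_le]
    refine ⟨u, fun v => ?_⟩
    have h1 := hu v
    have h2 : nrm (a u) * nrm (b v) * w (Sum.inr ()) ≤ 0 :=
      mul_nonpos_of_nonneg_of_nonpos (mul_nonneg (nrm_nonneg _) (nrm_nonneg _)) hw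
    have h3 : dot (cL (a u) (b v)) w = (∑ k, ∑ i, b v k * a u i * w (Sum.inl (k, i)))
        + nrm (a u) * nrm (b v) * w (Sum.inr ()) := by
      unfold dot cL
      rw [Fintype.sum_sum_type, Fintype.sum_prod_type]
      simp
    rw [h3]
    linarith
  have h5 := measureReal_mono (μ := stdG ((m × n) ⊕ Unit)) hsub
  rw [prod_unit_real hBm] at h5
  have h6 := half_le_gauss
  have h7 : (stdG (m × n)).real B * (1 / 2)
      ≤ (stdG (m × n)).real B * (gaussianReal 0 1).real (Set.Iic 0) :=
    mul_le_mul_of_nonneg_left h6 measureReal_nonneg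
  have h8 : {w : m ⊕ n → ℝ | ∀ u, ∃ v, lam u v ≤ dot (cM (a u) (b v)) w}ᶜ
      = {w | ∃ u, ∀ v, nrm (a u) * ∑ k, b v k * w (Sum.inl k)
          + nrm (b v) * ∑ i, a u i * w (Sum.inr i) < lam u v} := by
    ext w
    have h9 : ∀ u v, dot (cM (a u) (b v)) w = nrm (a u) * ∑ k, b v k * w (Sum.inl k)
        + nrm (b v) * ∑ i, a u i * w (Sum.inr i) := by
      intro u v
      unfold dot cM
      rw [Fintype.sum_sum_type]
      simp only [Sum.elim_inl, Sum.elim_inr, Finset.mul_sum, mul_assoc]
    simp only [Set.mem_compl_iff, Set.mem_ofPred_eq, not_forall, not_exists, not_le, h9]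
  rw [h8] at eY
  linarith

end cgmt

end Pool.Agent.IP49
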