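import Pool.Agent.IP49.Defs

/-!
IP49, part U: definitions shared by U1 (helper1), U2 (helper85) and S (helper2, helper95).
Notes 1605, 1615. `A = G/√N`, `y = (h, hh) ∈ ℝ^N × ℝ^M`, `b = 1 - q`, `d = dd κ ν ψ < 0`.
-/

set_option autoImplicit false
open MeasureTheory ProbabilityTheory Filter Topology

namespace Pool.Agent.IP49

noncomputable section

/-- law of a standard Gaussian vector indexed by `ι` -/
def gs (ι : Type*) [Fintype ι] : Measure (ι → ℝ) := Measure.pi fun _ => gaussianReal 0 1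

/-- squared Euclidean norm -/
def nsq {ι : Type*} [Fintype ι] (x : ι → ℝ) : ℝ := ∑ i, x i ^ 2

/-- first block of the TAP map: `Aᵀ F(hh) - h - d tanh h` -/
def R1 (κ ν ψ : ℝ) {M N : ℕ} (G : Fin M → Fin N → ℝ) (y : (Fin N → ℝ) × (Fin M → ℝ))
    (i : Fin N) : ℝ :=
  (∑ a, G a i * FF κ ν (qp ψ) (y.2 a)) / Real.sqrt N - y.1 i - dd κ ν ψ * Real.tanh (y.1 i)

/-- second block of the TAP map: `A tanh h - hh - b F(hh)` -/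
def R2 (κ ν ψ : ℝ) {M N : ℕ} (G : Fin M → Fin N → ℝ) (y : (Fin N → ℝ) × (Fin M → ℝ))
    (a : Fin M) : ℝ :=
  (∑ i, G a i * Real.tanh (y.1 i)) / Real.sqrt N - y.2 a - (1 - qp ψ) * FF κ ν (qp ψ) (y.2 a)

/-- squared norm of the TAP residual `R_G(y)` -/
def Rsq (κ ν ψ : ℝ) {M N : ℕ} (G : Fin M → Fin N → ℝ) (y : (Fin N → ℝ) × (Fin M → ℝ)) : ℝ :=
  nsq (R1 κ ν ψ G y) + nsq (R2 κ ν ψ G y)

/-- density of `N(0, ε² I_n)` as a function of the squared norm `s` -/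
def rhoE (ε : ℝ) (n : ℕ) (s : ℝ) : ℝ :=
  (Real.sqrt (2 * Real.pi) * ε)⁻¹ ^ n * Real.exp (-s / (2 * ε ^ 2))

/-- pseudo-Lipschitz functions -/
def PL (f : ℝ → ℝ) : Prop := ∃ C : ℝ, ∀ x y, |f x - f y| ≤ C * (1 + |x| + |y|) * |x - y|

/-- typical pairs `(h, hh)`, for two finite lists of test functions -/
def Yset (κ ν ψ : ℝ) (T1 T2 : List (ℝ → ℝ)) (dl : ℝ) (M N : ℕ) :
    Set ((Fin N → ℝ) × (Fin M → ℝ)) :=
  {y | (∀ f ∈ T1, |(∑ i, f (y.1 i)) / N - GE (fun x => f (Real.sqrt ψ * x))| ≤ dl) ∧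
    ∀ f ∈ T2, |(∑ a, f (y.2 a)) / N - al κ ν ψ * GE (fun x => f (Real.sqrt (qp ψ) * x))| ≤ dl}

/-- `V(G) = ∫_Y ρ_ε(R_G(y)) dy` -/
def VV (κ ν ψ ε : ℝ) (T1 T2 : List (ℝ → ℝ)) (dl : ℝ) {M N : ℕ} (G : Fin M → Fin N → ℝ) :
    ENNReal :=
  ∫⁻ y in Yset κ ν ψ T1 T2 dl M N, ENNReal.ofReal (rhoE ε (N + M) (Rsq κ ν ψ G y))

/-- operator norm bound `|G| ≤ C √N` -/
def OpB (C : ℝ) {M N : ℕ} (G : Fin M → Fin N → ℝ) : Prop :=
  ∀ x : Fin N → ℝ, ∑ a, (∑ i, G a i * x i) ^ 2 ≤ C ^ 2 * N * nsq x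

/-- Output of part S wanted by U2 (number of rows `M = ⌊α N⌋`): a coupling of `(h, hh)`, iid
centred Gaussian with variances `ψ` and `q`, of a fresh matrix `G'` and of `G = GR(ω, G')` with
`R_G(h, hh)` small, `G - G'` of bounded Frobenius norm on the scale `√N`. -/
def SOut (κ ν ψ : ℝ) : Prop :=
  ∃ C : ℝ, ∀ e : ℝ, 0 < e → ∃ CK : ℝ, ∀ᶠ N : ℕ in atTop,
    ∃ (Ω : Type) (_ : MeasurableSpace Ω) (P : Measure Ω) (_ : IsProbabilityMeasure P)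
      (h : Ω → Fin N → ℝ) (hh : Ω → Fin ⌊al κ ν ψ * N⌋₊ → ℝ)
      (GR : Ω × (Fin ⌊al κ ν ψ * N⌋₊ → Fin N → ℝ) → Fin ⌊al κ ν ψ * N⌋₊ → Fin N → ℝ),
      Measurable h ∧ Measurable hh ∧ Measurable GR ∧
      P.map h = (Measure.pi fun _ => (gaussianReal 0 1).map fun x => Real.sqrt ψ * x) ∧
      P.map hh = (Measure.pi fun _ => (gaussianReal 0 1).map fun x => Real.sqrt (qp ψ) * x) ∧
      (P.prod (GM ⌊al κ ν ψ * N⌋₊ N)).map GR = GM ⌊al κ ν ψ * N⌋₊ N ∧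
      (P.prod (GM ⌊al κ ν ψ * N⌋₊ N)).real {p | ¬ (
        Rsq κ ν ψ (GR p) (h p.1, hh p.1) ≤ e * N ∧
        ∑ a, ∑ i, (GR p a i - p.2 a i) ^ 2 ≤ CK * N ∧ OpB C (GR p) ∧ OpB C p.2)} ≤ e

end

end Pool.Agent.IP49
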