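import Pool.Agent.IP49.Gor6
import Pool.Agent.IP49.VDefs

/-!
# IP49 / GorG : the glue between `GM M N` and `stdG (Fin M × Fin N)`, and Gordon for `GM`
-/

set_option autoImplicit false

open MeasureTheory ProbabilityTheory Filter TopologicalSpace

namespace Pool.Agent.IP49

/-- Uncurrying maps `GM M N` to the standard Gaussian measure on `Fin M × Fin N → ℝ`. -/
theorem mp_uncurry (M N : ℕ) :
    MeasurePreserving (fun (A : Fin M → Fin N → ℝ) (p : Fin M × Fin N) => A p.1 p.2)
      (GM M N) (stdG (Fin M × Fin N)) := by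
  have hm : Measurable (fun (A : Fin M → Fin N → ℝ) (p : Fin M × Fin N) => A p.1 p.2) := by
    rw [measurable_pi_iff]
    intro p
    exact (measurable_pi_apply p.2).comp (measurable_pi_apply p.1)
  refine ⟨hm, ?_⟩
  symm
  refine Measure.pi_eq fun s hs => ?_
  rw [Measure.map_apply hm (MeasurableSet.univ_pi hs)]
  have hset : (fun (A : Fin M → Fin N → ℝ) (p : Fin M × Fin N) => A p.1 p.2) ⁻¹' Set.univ.pi s
      = Set.univ.pi fun k => Set.univ.pi fun i => s (k, i) := by
    ext A
    simp only [Set.mem_preimage, Set.mem_pi, Set.mem_univ, true_implies]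
    exact ⟨fun h k i => h (k, i), fun h p => h p.1 p.2⟩
  rw [hset, GM, Measure.pi_pi]
  simp only [Measure.pi_pi]
  rw [Fintype.prod_prod_type]

/-- Currying maps the standard Gaussian measure on `Fin M × Fin N → ℝ` to `GM M N`. -/
theorem mp_curry (M N : ℕ) :
    MeasurePreserving (fun (B : Fin M × Fin N → ℝ) (k : Fin M) (i : Fin N) => B (k, i))
      (stdG (Fin M × Fin N)) (GM M N) := by
  have hm : Measurable (fun (B : Fin M × Fin N → ℝ) (k : Fin M) (i : Fin N) => B (k, i)) := by
    rw [measurable_pi_iff]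
    intro k
    rw [measurable_pi_iff]
    intro i
    exact measurable_pi_apply (k, i)
  refine ⟨hm, ?_⟩
  have h := (mp_uncurry M N).map_eq
  rw [← h, Measure.map_map hm (mp_uncurry M N).measurable]
  exact Measure.map_id

theorem real_GM_eq {M N : ℕ} {T : Set (Fin M × Fin N → ℝ)} (hT : MeasurableSet T) :
    (GM M N).real {A | (fun p : Fin M × Fin N => A p.1 p.2) ∈ T}
      = (stdG (Fin M × Fin N)).real T :=
  (mp_uncurry M N).measureReal_preimage hT.nullMeasurableSet

theorem real_stdG_eq {M N : ℕ} {T : Set (Fin M → Fin N → ℝ)} (hT : MeasurableSet T) :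
    (stdG (Fin M × Fin N)).real {B | (fun (k : Fin M) (i : Fin N) => B (k, i)) ∈ T}
      = (GM M N).real T :=
  (mp_curry M N).measureReal_preimage hT.nullMeasurableSet

/-- No measurability needed (the curry map is a measurable equivalence). -/
theorem real_GM_le {M N : ℕ} (T : Set (Fin M × Fin N → ℝ)) :
    (GM M N).real {A | (fun p : Fin M × Fin N => A p.1 p.2) ∈ T}
      ≤ (stdG (Fin M × Fin N)).real T := by
  have h1 : T ⊆ toMeasurable (stdG (Fin M × Fin N)) T := subset_toMeasurable _ _
  have h2 : (stdG (Fin M × Fin N)).real (toMeasurable (stdG (Fin M × Fin N)) T)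
      = (stdG (Fin M × Fin N)).real T := by
    simp [Measure.real, measure_toMeasurable]
  have hGM : IsProbabilityMeasure (GM M N) := by
    unfold GM
    infer_instance
  rw [← h2, ← real_GM_eq (measurableSet_toMeasurable _ _)]
  exact measureReal_mono fun A hA => h1 hA

/-- Gordon / CGMT for `GM M N`. -/
theorem cgmt_GM {M N : ℕ} {α β : Type*} [TopologicalSpace α] [CompactSpace α] [SeparableSpace α]
    [TopologicalSpace β] [CompactSpace β] [SeparableSpace β]
    (a : α → Fin N → ℝ) (b : β → Fin M → ℝ) (lam : α → β → ℝ) (ha : Continuous a)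
    (hb : Continuous b) (hlam : Continuous (Function.uncurry lam)) :
    (GM M N).real {G | ∃ u, ∀ v, ∑ k, ∑ i, b v k * a u i * G k i < lam u v}
      ≤ 2 * ((gs (Fin M)).prod (gs (Fin N))).real
        {w | ∃ u, ∀ v, nrm (a u) * ∑ k, b v k * w.1 k
          + nrm (b v) * ∑ i, a u i * w.2 i < lam u v} := by
  have h1 := cgmt a b lam ha hb hlam
  have h2 := real_GM_le {G : Fin M × Fin N → ℝ |
    ∃ u, ∀ v, ∑ k, ∑ i, b v k * a u i * G (k, i) < lam u v}
  have hY := isClosed_ev (α := α) (β := β) (fun u v => cM (a u) (b v)) lam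
    (continuous_cM (ha.comp continuous_fst) (hb.comp continuous_snd)) hlam
  have h8 : {w : Fin M ⊕ Fin N → ℝ | ∀ u, ∃ v, lam u v ≤ dot (cM (a u) (b v)) w}ᶜ
      = {w | ∃ u, ∀ v, nrm (a u) * ∑ k, b v k * w (Sum.inl k)
          + nrm (b v) * ∑ i, a u i * w (Sum.inr i) < lam u v} := by
    ext w
    have h9 : ∀ u v, dot (cM (a u) (b v)) w = nrm (a u) * ∑ k, b v k * w (Sum.inl k)
        + nrm (b v) * ∑ i, a u i * w (Sum.inr i) := by
      intro u v
      unfold dot cM
      rw [Fintype.sum_sum_type]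
      simp only [Sum.elim_inl, Sum.elim_inr, Finset.mul_sum, mul_assoc]
    simp only [Set.mem_compl_iff, Set.mem_ofPred_eq, not_forall, not_exists, not_le, h9]
  have hmeas : MeasurableSet {w : Fin M ⊕ Fin N → ℝ | ∃ u, ∀ v,
      nrm (a u) * ∑ k, b v k * w (Sum.inl k) + nrm (b v) * ∑ i, a u i * w (Sum.inr i)
        < lam u v} := by
    rw [← h8]
    exact hY.measurableSet.compl
  have hsymm := measurePreserving_sumPiEquivProdPi_symm (ι := Fin M) (ι' := Fin N)
    (X := fun _ => ℝ) (fun _ => gaussianReal 0 1)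
  have h3 := hsymm.measureReal_preimage hmeas.nullMeasurableSet
  refine (h2.trans h1).trans ?_
  rw [← h3]
  exact le_refl _

end Pool.Agent.IP49
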