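import Pool.Agent.IP49.MillsB
import Pool.Agent.IP49.GaussA

/-!
IP49 library, module RSA: elementary facts on the replica symmetric quantities.

PROOFS. `0 < q < 1` for `ψ > 0` because `0 < tanh² < 1` off the origin (`tanh² ≤ 1`, strict a.e.).
`lc' = tanh`, `0 ≤ lc x ≤ |x| + log 2`, `tanh` is 1-Lipschitz. `E[h tanh h] = ψ (1 - q)` is Stein
(`GE_stein` for `tanh(√ψ x)`). `F = FF κ ν q` is positive, decreasing, `F' = -gf`,
`0 < gf < 1/τ'²`, `0 < F(x) ≤ (1 + |κ - x|/τ')/τ'`. `α E F(√q Z)² = ψ` by definition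
(`GE F² > 0`). `α E[√q Z F(√q Z)] = q d` is Stein. All with `0 ≤ ν`, `q < 1`.
-/

set_option autoImplicit false
open MeasureTheory ProbabilityTheory Filter Topology

namespace Pool.Agent.IP49

theorem tanh_sq_lt (x : ℝ) : Real.tanh x ^ 2 < 1 := by
  rw [Real.tanh_eq_sinh_div_cosh, div_pow, div_lt_one (by positivity)]
  have := Real.cosh_sq x
  linarith

theorem hasDerivAt_tanh (x : ℝ) : HasDerivAt Real.tanh (1 - Real.tanh x ^ 2) x := by
  have h := (Real.hasDerivAt_sinh x).div (Real.hasDerivAt_cosh x) (Real.cosh_pos x).ne'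
  have e : Real.tanh = Real.sinh / Real.cosh := by
    ext y; exact Real.tanh_eq_sinh_div_cosh y
  rw [e]
  refine h.congr_deriv ?_
  have := (Real.cosh_pos x).ne'
  simp only [Pi.div_apply]
  field_simp

theorem continuous_tanh' : Continuous Real.tanh :=
  continuous_iff_continuousAt.2 fun x => (hasDerivAt_tanh x).continuousAt

private theorem cont_tanh (ψ : ℝ) : Continuous fun x => Real.tanh (Real.sqrt ψ * x) :=
  continuous_tanh'.comp (by fun_prop)

private theorem integrable_tanh2 (ψ : ℝ) :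
    Integrable (fun x => Real.tanh (Real.sqrt ψ * x) ^ 2) (gaussianReal 0 1) := by
  refine integrable_of_growth ((cont_tanh ψ).pow 2).measurable (C := 1) (k := 1) fun x => ?_
  rw [abs_of_nonneg (sq_nonneg _)]
  have := tanh_sq_lt (Real.sqrt ψ * x)
  have := sq_nonneg x
  simp only [pow_one, one_mul]
  linarith

private theorem sech2_eq (ψ : ℝ) :
    (GE fun x => 1 - Real.tanh (Real.sqrt ψ * x) ^ 2) = 1 - qp ψ := by
  unfold GE qp GE
  rw [integral_sub (integrable_const _) (integrable_tanh2 ψ)]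
  simp

private theorem integrable_sech2 (ψ : ℝ) :
    Integrable (fun x => 1 - Real.tanh (Real.sqrt ψ * x) ^ 2) (gaussianReal 0 1) :=
  (integrable_const _).sub (integrable_tanh2 ψ)

theorem qp_nonneg (ψ : ℝ) : 0 ≤ qp ψ := GE_nonneg fun _ => sq_nonneg _

theorem qp_pos {ψ : ℝ} (hψ : 0 < ψ) : 0 < qp ψ := by
  unfold qp GE
  rw [integral_pos_iff_support_of_nonneg (fun x => sq_nonneg _) (integrable_tanh2 ψ)]
  have hsup : Function.support (fun x => Real.tanh (Real.sqrt ψ * x) ^ 2) = {0}ᶜ := by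
    ext x
    simp only [Function.mem_support, Set.mem_compl_iff, Set.mem_singleton_iff, ne_eq]
    constructor
    · intro h h0
      apply h
      simp [h0]
    · intro h h0
      rw [sq_eq_zero_iff, Real.tanh_eq_sinh_div_cosh, div_eq_zero_iff] at h0
      rcases h0 with h0 | h0
      · rw [Real.sinh_eq_zero, mul_eq_zero] at h0
        rcases h0 with h0 | h0
        · exact (Real.sqrt_pos.2 hψ).ne' h0
        · exact h h0
      · exact (Real.cosh_pos _).ne' h0
  rw [hsup]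
  have h1 : (gaussianReal 0 1) ({0} : Set ℝ) = 0 := by
    have := noAtoms_gaussianReal (μ := 0) (v := 1) (by norm_num)
    exact measure_singleton 0
  have h2 := prob_compl_eq_one_iff (μ := gaussianReal 0 1) (s := ({0} : Set ℝ))
    (MeasurableSet.singleton 0)
  rw [h2.2 h1]
  norm_num

theorem qp_lt_one {ψ : ℝ} : qp ψ < 1 := by
  have h1 := GE_pos (integrable_sech2 ψ) fun x => by
    have := tanh_sq_lt (Real.sqrt ψ * x)
    linarith
  rw [sech2_eq] at h1
  linarith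

theorem hasDerivAt_lc (x : ℝ) : HasDerivAt lc (Real.tanh x) x := by
  have h := ((Real.hasDerivAt_cosh x).const_mul 2).log
    (mul_pos two_pos (Real.cosh_pos x)).ne'
  refine h.congr_deriv ?_
  rw [Real.tanh_eq_sinh_div_cosh]
  have := (Real.cosh_pos x).ne'
  field_simp

theorem lc_bounds (x : ℝ) : |x| ≤ lc x ∧ lc x ≤ |x| + Real.log 2 := by
  have e : lc x = Real.log (2 * Real.cosh |x|) := by unfold lc; rw [Real.cosh_abs]
  have hc : 2 * Real.cosh |x| = Real.exp |x| + Real.exp (-|x|) := by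
    rw [Real.cosh_eq]; ring
  rw [e, hc]
  constructor
  · rw [Real.le_log_iff_exp_le (by positivity)]
    have := Real.exp_pos (-|x|)
    linarith
  · rw [← Real.log_exp |x|, ← Real.log_mul (Real.exp_pos _).ne' (by norm_num), Real.log_exp]
    apply Real.log_le_log (by positivity)
    have : Real.exp (-|x|) ≤ Real.exp |x| := Real.exp_le_exp.2 (by
      have := abs_nonneg x
      linarith)
    linarith

theorem tp_pos {ν q : ℝ} (hν : 0 ≤ ν) (hq : q < 1) : 0 < tp ν q :=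
  Real.sqrt_pos.2 (by linarith)

theorem tp_sq {ν q : ℝ} (hν : 0 ≤ ν) (hq : q < 1) : tp ν q ^ 2 = 1 - q + ν :=
  Real.sq_sqrt (by linarith)

theorem FF_pos {κ ν q : ℝ} (hν : 0 ≤ ν) (hq : q < 1) (x : ℝ) : 0 < FF κ ν q x :=
  div_pos (Mi_pos _) (tp_pos hν hq)

theorem FF_le {κ ν q : ℝ} (hν : 0 ≤ ν) (hq : q < 1) (x : ℝ) :
    FF κ ν q x ≤ (1 + |κ - x| / tp ν q) / tp ν q := by
  have ht := tp_pos hν hq
  unfold FF
  apply div_le_div_of_nonneg_right _ ht.le
  refine (Mi_le_abs _).trans (le_of_eq ?_)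
  rw [abs_div, abs_of_pos ht]

theorem hasDerivAt_FF {κ ν q : ℝ} (hν : 0 ≤ ν) (hq : q < 1) (x : ℝ) :
    HasDerivAt (FF κ ν q) (-gf κ ν q x) x := by
  have ht := (tp_pos hν hq).ne'
  have h1 : HasDerivAt (fun y => (κ - y) / tp ν q) (-1 / tp ν q) x :=
    ((hasDerivAt_id x).const_sub κ).div_const _
  have h2 := ((hasDerivAt_Mi ((κ - x) / tp ν q)).comp x h1).div_const (tp ν q)
  refine h2.congr_deriv ?_
  unfold gf
  field_simp

theorem gf_pos {κ ν q : ℝ} (hν : 0 ≤ ν) (hq : q < 1) (x : ℝ) : 0 < gf κ ν q x :=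
  div_pos (Md_pos _) (pow_pos (tp_pos hν hq) 2)

theorem gf_lt {κ ν q : ℝ} (hν : 0 ≤ ν) (hq : q < 1) (x : ℝ) :
    gf κ ν q x < 1 / tp ν q ^ 2 :=
  div_lt_div_of_pos_right (Md_lt_one _) (pow_pos (tp_pos hν hq) 2)

theorem continuous_FF {κ ν q : ℝ} : Continuous (FF κ ν q) :=
  (continuous_Mi.comp ((continuous_const.sub continuous_id).div_const _)).div_const _

theorem continuous_gf {κ ν q : ℝ} : Continuous (gf κ ν q) :=
  (continuous_Md.comp ((continuous_const.sub continuous_id).div_const _)).div_const _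

private theorem FF_growth {κ ν q : ℝ} (hν : 0 ≤ ν) (hq : q < 1) (s : ℝ) :
    ∃ C : ℝ, 0 ≤ C ∧ ∀ x, |FF κ ν q (s * x)| ≤ C * (1 + x ^ 2) := by
  have ht := tp_pos hν hq
  refine ⟨(1 + (|κ| + |s|) / tp ν q) / tp ν q, by positivity, fun x => ?_⟩
  rw [abs_of_pos (FF_pos hν hq _)]
  refine (FF_le hν hq _).trans ?_
  have h1 : |κ - s * x| ≤ |κ| + |s| * |x| := by
    refine (abs_sub _ _).trans ?_
    rw [abs_mul]
  have h2 : |x| ≤ 1 + x ^ 2 := by
    have := sq_abs x
    nlinarith [sq_nonneg (|x| - 1/2)]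
  have h3 : |κ - s * x| ≤ (|κ| + |s|) * (1 + x ^ 2) := by
    have a1 := mul_le_mul_of_nonneg_left h2 (abs_nonneg s)
    have a2 : |κ| * 1 ≤ |κ| * (1 + x ^ 2) :=
      mul_le_mul_of_nonneg_left (by nlinarith [sq_nonneg x]) (abs_nonneg κ)
    nlinarith
  rw [div_mul_eq_mul_div]
  apply div_le_div_of_nonneg_right _ ht.le
  have h4 : |κ - s * x| / tp ν q ≤ (|κ| + |s|) / tp ν q * (1 + x ^ 2) := by
    rw [div_mul_eq_mul_div]
    exact div_le_div_of_nonneg_right h3 ht.le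
  nlinarith [sq_nonneg x]

private theorem cont_FF {κ ν q : ℝ} (s : ℝ) : Continuous fun x => FF κ ν q (s * x) :=
  continuous_FF.comp (by fun_prop)

private theorem cont_gf {κ ν q : ℝ} (s : ℝ) : Continuous fun x => gf κ ν q (s * x) :=
  continuous_gf.comp (by fun_prop)

private theorem integrable_FF2 {κ ν q : ℝ} (hν : 0 ≤ ν) (hq : q < 1) (s : ℝ) :
    Integrable (fun x => FF κ ν q (s * x) ^ 2) (gaussianReal 0 1) := by
  obtain ⟨C, hC0, hC⟩ := FF_growth (κ := κ) hν hq s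
  refine integrable_of_growth ((cont_FF s).pow 2).measurable (C := C ^ 2) (k := 2) fun x => ?_
  rw [abs_pow, ← mul_pow]
  exact pow_le_pow_left₀ (abs_nonneg _) (hC x) 2

private theorem integrable_gf {κ ν q : ℝ} (hν : 0 ≤ ν) (hq : q < 1) (s : ℝ) :
    Integrable (fun x => gf κ ν q (s * x)) (gaussianReal 0 1) := by
  have ht := tp_pos hν hq
  refine integrable_of_growth (cont_gf s).measurable (C := 1 / tp ν q ^ 2) (k := 1) fun x => ?_
  rw [abs_of_pos (gf_pos hν hq _), pow_one]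
  refine (gf_lt hν hq _).le.trans ?_
  have : 0 < 1 / tp ν q ^ 2 := by positivity
  nlinarith [sq_nonneg x]

theorem EF2_pos {κ ν ψ : ℝ} (hν : 0 ≤ ν) :
    0 < GE fun x => FF κ ν (qp ψ) (Real.sqrt (qp ψ) * x) ^ 2 :=
  GE_pos (integrable_FF2 hν qp_lt_one _) fun _ => pow_pos (FF_pos hν qp_lt_one _) 2

theorem al_pos {κ ν ψ : ℝ} (hν : 0 ≤ ν) (hψ : 0 < ψ) : 0 < al κ ν ψ :=
  div_pos hψ (EF2_pos hν)

/-- `α E F² = ψ` -/
theorem al_EF2 {κ ν ψ : ℝ} (hν : 0 ≤ ν) :
    al κ ν ψ * (GE fun x => FF κ ν (qp ψ) (Real.sqrt (qp ψ) * x) ^ 2) = ψ :=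
  div_mul_cancel₀ _ (EF2_pos hν).ne'

/-- `E[h tanh h] = ψ (1 - q)` -/
theorem E_h_tanh {ψ : ℝ} (hψ : 0 < ψ) :
    (GE fun x => Real.sqrt ψ * x * Real.tanh (Real.sqrt ψ * x)) = ψ * (1 - qp ψ) := by
  have hd : ∀ x, HasDerivAt (fun x => Real.tanh (Real.sqrt ψ * x))
      (Real.sqrt ψ * (1 - Real.tanh (Real.sqrt ψ * x) ^ 2)) x := by
    intro x
    have h1 : HasDerivAt (fun y => Real.sqrt ψ * y) (Real.sqrt ψ) x := by
      simpa using (hasDerivAt_id x).const_mul (Real.sqrt ψ)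
    refine ((hasDerivAt_tanh (Real.sqrt ψ * x)).comp x h1).congr_deriv (by ring)
  have hs := Real.sqrt_nonneg ψ
  have key := GE_stein (C := 1 + Real.sqrt ψ) (k := 1) hd
    ((continuous_const.mul (continuous_const.sub ((cont_tanh ψ).pow 2))).measurable)
    (fun x => by
      have h1 := tanh_sq_lt (Real.sqrt ψ * x)
      have h2 : |Real.tanh (Real.sqrt ψ * x)| ≤ 1 := by
        rw [← sq_abs] at h1
        nlinarith [abs_nonneg (Real.tanh (Real.sqrt ψ * x))]
      simp only [pow_one]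
      nlinarith [sq_nonneg x, mul_nonneg hs (sq_nonneg x)])
    (fun x => by
      have h1 := tanh_sq_lt (Real.sqrt ψ * x)
      have h3 := sq_nonneg (Real.tanh (Real.sqrt ψ * x))
      rw [abs_of_nonneg (mul_nonneg hs (by linarith))]
      simp only [pow_one]
      nlinarith [sq_nonneg x, mul_nonneg hs (sq_nonneg x), mul_nonneg hs h3])
  rw [GE_mul, sech2_eq] at key
  have e : (fun x => Real.sqrt ψ * x * Real.tanh (Real.sqrt ψ * x))
      = fun x => Real.sqrt ψ * (x * Real.tanh (Real.sqrt ψ * x)) := by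
    ext x; ring
  rw [e, GE_mul, key, ← mul_assoc, Real.mul_self_sqrt hψ.le]

/-- `E sech² = 1 - q` -/
theorem E_sech2 (ψ : ℝ) :
    (GE fun x => 1 - Real.tanh (Real.sqrt ψ * x) ^ 2) = 1 - qp ψ := sech2_eq ψ

/-- `α E[√q Z F(√q Z)] = q d` -/
theorem al_xF {κ ν ψ : ℝ} (hν : 0 ≤ ν) :
    al κ ν ψ * (GE fun x => Real.sqrt (qp ψ) * x * FF κ ν (qp ψ) (Real.sqrt (qp ψ) * x))
      = qp ψ * dd κ ν ψ := by
  have hq : qp ψ < 1 := qp_lt_one
  have ht := tp_pos hν hq
  set s := Real.sqrt (qp ψ) with hs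
  have hs0 : 0 ≤ s := Real.sqrt_nonneg _
  have hss : s * s = qp ψ := Real.mul_self_sqrt (qp_nonneg ψ)
  have hd : ∀ x, HasDerivAt (fun x => FF κ ν (qp ψ) (s * x)) (-s * gf κ ν (qp ψ) (s * x)) x := by
    intro x
    have h1 : HasDerivAt (fun y => s * y) s x := by
      simpa using (hasDerivAt_id x).const_mul s
    refine ((hasDerivAt_FF hν hq (s * x)).comp x h1).congr_deriv (by ring)
  obtain ⟨C, hC0, hC⟩ := FF_growth (κ := κ) hν hq s
  have ht2 : 0 < 1 / tp ν (qp ψ) ^ 2 := by positivity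
  have key := GE_stein (C := C + s * (1 / tp ν (qp ψ) ^ 2)) (k := 1) hd
    (((cont_gf s).const_mul (-s)).measurable)
    (fun x => by
      refine (hC x).trans ?_
      simp only [pow_one]
      have := mul_nonneg hs0 ht2.le
      nlinarith [sq_nonneg x, mul_nonneg this (sq_nonneg x)])
    (fun x => by
      have h1 := gf_lt (κ := κ) hν hq (s * x)
      have h2 := gf_pos (κ := κ) hν hq (s * x)
      rw [abs_mul, abs_neg, abs_of_nonneg hs0, abs_of_pos h2, pow_one]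
      have h3 := mul_le_mul_of_nonneg_left h1.le hs0
      have := mul_nonneg hs0 ht2.le
      nlinarith [sq_nonneg x, mul_nonneg this (sq_nonneg x), mul_nonneg hC0 (sq_nonneg x)])
  rw [GE_mul] at key
  have e : (fun x => s * x * FF κ ν (qp ψ) (s * x))
      = fun x => s * (x * FF κ ν (qp ψ) (s * x)) := by
    ext x; ring
  rw [e, GE_mul, key]
  unfold dd
  rw [← hs, ← hss]
  ring

theorem dd_neg {κ ν ψ : ℝ} (hν : 0 ≤ ν) (hψ : 0 < ψ) : dd κ ν ψ < 0 := by
  have h := mul_pos (al_pos (κ := κ) hν hψ)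
    (GE_pos (integrable_gf (κ := κ) hν (qp_lt_one (ψ := ψ)) (Real.sqrt (qp ψ)))
      fun x => gf_pos hν qp_lt_one _)
  unfold dd
  linarith

theorem AT_pos {κ ν ψ : ℝ} (hν : 0 ≤ ν) (hψ : 0 < ψ) : 0 < AT κ ν ψ := by
  have hq : qp ψ < 1 := qp_lt_one
  have ht := tp_pos hν hq
  refine mul_pos (mul_pos (al_pos hν hψ) (GE_pos ?_ fun x => pow_pos (gf_pos hν hq _) 2)) ?_
  · refine integrable_of_growth ((cont_gf _).pow 2).measurable (C := (1 / tp ν (qp ψ) ^ 2) ^ 2)
      (k := 1) fun x => ?_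
    rw [abs_of_nonneg (sq_nonneg _), pow_one]
    have h1 := gf_lt (κ := κ) hν hq (Real.sqrt (qp ψ) * x)
    have h2 := gf_pos (κ := κ) hν hq (Real.sqrt (qp ψ) * x)
    have h3 : gf κ ν (qp ψ) (Real.sqrt (qp ψ) * x) ^ 2 ≤ (1 / tp ν (qp ψ) ^ 2) ^ 2 :=
      pow_le_pow_left₀ h2.le h1.le 2
    nlinarith [sq_nonneg x, sq_nonneg (1 / tp ν (qp ψ) ^ 2),
      mul_nonneg (sq_nonneg (1 / tp ν (qp ψ) ^ 2)) (sq_nonneg x)]
  · refine GE_pos ?_ fun x => pow_pos ?_ 2
    · refine integrable_of_growth ((continuous_const.sub ((cont_tanh ψ).pow 2)).pow 2).measurable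
        (C := 1) (k := 1) fun x => ?_
      rw [abs_of_nonneg (sq_nonneg _), pow_one]
      have h1 := tanh_sq_lt (Real.sqrt ψ * x)
      have h3 := sq_nonneg (Real.tanh (Real.sqrt ψ * x))
      nlinarith [sq_nonneg x]
    · have h1 := tanh_sq_lt (Real.sqrt ψ * x)
      linarith

end Pool.Agent.IP49
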