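import Pool.Agent.IP49.LSup
import Pool.Agent.IP49.RSA

/-!
IP49, module LTyp: law of large numbers for the test functions (also useful for part U).

PROOF. Let `X_1..X_m` be independent with the law of `v Z`, `f` continuous with
`|f x| ≤ C(1+x²)`. Then `f(vZ)` has a finite second moment `V` (and mean `μ = GE (f (v ·))`), so by
independence `∫ ((∑_{a<m} f(x_a)) - m μ)² = m Var ≤ m V`, and Chebyshev gives
`P(|∑_{a<m} f(x_a) - m μ| > t) ≤ m V/t²` (`lln`; the measure on `Fin m → ℝ` is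
`Measure.pi fun _ => (gaussianReal 0 1).map (v * ·)`; variance of a sum of independent variables:
`IndepFun.variance_sum`, `iIndepFun_pi`, `variance_le_expectation_sq`, `meas_ge_le_variance_div_sq`).
`yset_typ`: for `f ∈ T1` apply it with `m = N`, `v = √ψ`, `t = dl N`: `≤ V/(dl² N)`. For `f ∈ T2`
with `m = M = ⌊αN⌋₊`, `α = al κ ν ψ > 0`: `|Mμ - αNμ| ≤ |μ| ≤ dl N/2` for `N` large, so the bad
event is contained in `{|∑ f(hh_a) - Mμ| > dl N/2}`, probability `≤ 4MV/(dl N)² ≤ 4αV/(dl²N)`.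
Finitely many functions: union bound; each term `≤ e/(|T1|+|T2|+1)` for `N` large.
`P.real {ω | h ω ∈ A} = (P.map h).real A` for measurable `A` (`map_measureReal_apply`).
The bad set is `{ω | ∃ f ∈ T1, …} ∪ {ω | ∃ f ∈ T2, …}`.
-/

set_option autoImplicit false
open MeasureTheory ProbabilityTheory Filter Topology

namespace Pool.Agent.IP49.LP

private theorem second_moment57 {f : ℝ → ℝ} (hf : QG f) (v : ℝ) :
    Integrable (fun x => f (v * x) ^ 2) (gaussianReal 0 1) := by
  obtain ⟨hc, C, hC⟩ := hf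
  refine integrable_of_growth (C := (C * (1 + v ^ 2)) ^ 2) (k := 2)
    ((hc.comp (continuous_const.mul continuous_id)).pow 2).measurable fun x => ?_
  rw [abs_pow]
  have h0 : 0 ≤ |f (v * x)| := abs_nonneg _
  have h1 : |f (v * x)| ≤ C * (1 + v ^ 2) * (1 + x ^ 2) := by
    refine (hC (v * x)).trans ?_
    have hC0 : 0 ≤ C := by
      have h := (abs_nonneg _).trans (hC 0)
      simpa using h
    rw [mul_assoc]
    apply mul_le_mul_of_nonneg_left _ hC0
    nlinarith [sq_nonneg v, sq_nonneg x, mul_nonneg (sq_nonneg v) (sq_nonneg x)]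
  calc |f (v * x)| ^ 2 ≤ (C * (1 + v ^ 2) * (1 + x ^ 2)) ^ 2 := pow_le_pow_left₀ h0 h1 2
    _ = (C * (1 + v ^ 2)) ^ 2 * (1 + x ^ 2) ^ 2 := by ring

theorem lln {f : ℝ → ℝ} (hf : QG f) (v : ℝ) : ∃ V : ℝ, 0 ≤ V ∧ ∀ (m : ℕ) (t : ℝ), 0 < t →
    (Measure.pi fun _ : Fin m => (gaussianReal 0 1).map fun x => v * x).real
      {x | t < |(∑ a, f (x a)) - m * GE (fun y => f (v * y))|} ≤ m * V / t ^ 2 := by
  have hmv : Measurable fun x : ℝ => v * x := measurable_const.mul measurable_id
  set ν : Measure ℝ := (gaussianReal 0 1).map fun x => v * x with hν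
  haveI : IsProbabilityMeasure ν := Measure.isProbabilityMeasure_map hmv.aemeasurable
  have hfm : Measurable f := hf.1.measurable
  have hsq : Integrable (fun x => f x ^ 2) ν := by
    rw [hν, integrable_map_measure (hfm.pow_const 2).aestronglyMeasurable hmv.aemeasurable]
    exact second_moment57 hf v
  have hL2 : MemLp f 2 ν := (memLp_two_iff_integrable_sq hfm.aestronglyMeasurable).2 hsq
  have hmean : ∫ x, f x ∂ν = GE (fun y => f (v * y)) := by
    rw [hν, integral_map hmv.aemeasurable hfm.aestronglyMeasurable]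
    rfl
  refine ⟨∫ x, f x ^ 2 ∂ν, integral_nonneg fun x => sq_nonneg _, fun m t ht => ?_⟩
  have hev : ∀ a : Fin m, MeasurePreserving (Function.eval a)
      (Measure.pi fun _ : Fin m => ν) ν := fun a => measurePreserving_eval (fun _ => ν) a
  have hmem : ∀ a : Fin m, MemLp (fun x : Fin m → ℝ => f (x a)) 2
      (Measure.pi fun _ : Fin m => ν) := fun a => hL2.comp_measurePreserving (hev a)
  have hint : ∀ (g : ℝ → ℝ), Measurable g → ∀ a : Fin m,
      ∫ x, g (x a) ∂(Measure.pi fun _ : Fin m => ν) = ∫ y, g y ∂ν := by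
    intro g hg a
    have h := integral_map (μ := Measure.pi fun _ : Fin m => ν) (f := g)
      (hev a).measurable.aemeasurable hg.aestronglyMeasurable
    rw [(hev a).map_eq] at h
    exact h.symm
  have hmemS : MemLp (∑ a, fun x : Fin m → ℝ => f (x a)) 2 (Measure.pi fun _ : Fin m => ν) :=
    memLp_finsetSum' _ fun a _ => hmem a
  have hindep : iIndepFun (fun (a : Fin m) (x : Fin m → ℝ) => f (x a))
      (Measure.pi fun _ : Fin m => ν) := iIndepFun_pi fun _ => hfm.aemeasurable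
  have hvar : Var[∑ a, fun x : Fin m → ℝ => f (x a); Measure.pi fun _ : Fin m => ν]
      ≤ m * ∫ x, f x ^ 2 ∂ν := by
    rw [IndepFun.variance_sum (fun a _ => hmem a) fun a _ b _ hab => hindep.indepFun hab]
    calc ∑ a : Fin m, Var[fun x : Fin m → ℝ => f (x a); Measure.pi fun _ : Fin m => ν]
        ≤ ∑ _a : Fin m, ∫ x, f x ^ 2 ∂ν := by
          refine Finset.sum_le_sum fun a _ => ?_
          refine (variance_le_expectation_sq (hmem a).aestronglyMeasurable).trans (le_of_eq ?_)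
          exact hint (fun y => f y ^ 2) (hfm.pow_const 2) a
      _ = m * ∫ x, f x ^ 2 ∂ν := by simp
  have hE : ∫ x, (∑ a, fun x : Fin m → ℝ => f (x a)) x ∂(Measure.pi fun _ : Fin m => ν)
      = m * GE (fun y => f (v * y)) := by
    simp only [Finset.sum_apply]
    rw [integral_finsetSum _ fun a _ => (hmem a).integrable (by norm_num)]
    rw [Finset.sum_congr rfl fun a _ => hint f hfm a, hmean]
    simp
  have hch := meas_ge_le_variance_div_sq hmemS ht
  rw [hE] at hch
  have hsub : {x : Fin m → ℝ | t < |(∑ a, f (x a)) - m * GE (fun y => f (v * y))|} ⊆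
      {x | t ≤ |(∑ a, fun x : Fin m → ℝ => f (x a)) x - m * GE (fun y => f (v * y))|} := by
    intro x hx
    simp only [Set.mem_setOf_eq, Finset.sum_apply] at hx ⊢
    exact hx.le
  have h1 := (measure_mono hsub).trans hch
  have h2 : (Measure.pi fun _ : Fin m => ν).real
      {x | t < |(∑ a, f (x a)) - m * GE (fun y => f (v * y))|} ≤
      Var[∑ a, fun x : Fin m → ℝ => f (x a); Measure.pi fun _ : Fin m => ν] / t ^ 2 := by
    rw [measureReal_def]
    refine ENNReal.toReal_le_of_le_ofReal ?_ h1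
    exact div_nonneg (variance_nonneg _ _) (sq_nonneg _)
  exact h2.trans (div_le_div_of_nonneg_right hvar (sq_nonneg _))

/-- one function -/
private theorem one57 {f : ℝ → ℝ} (hf : QG f) (v : ℝ) {α : ℝ} (hα : 0 ≤ α) (M : ℕ → ℕ)
    (hM : ∀ N, |(M N : ℝ) - α * N| ≤ 1) {dl e : ℝ} (hdl : 0 < dl) (he : 0 < e) :
    ∀ᶠ N : ℕ in atTop,
      (Measure.pi fun _ : Fin (M N) => (gaussianReal 0 1).map fun x => v * x).real
        {x | ¬ |(∑ a, f (x a)) / N - α * GE (fun y => f (v * y))| ≤ dl} ≤ e := by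
  obtain ⟨V, hV, hl⟩ := lln hf v
  set μ : ℝ := GE (fun y => f (v * y)) with hμ
  have h1 : ∀ᶠ N : ℕ in atTop, |μ| / (dl / 2) ≤ N :=
    tendsto_natCast_atTop_atTop.eventually_ge_atTop _
  have h2 : ∀ᶠ N : ℕ in atTop, 4 * (α + 1) * V / (dl ^ 2 * e) ≤ N :=
    tendsto_natCast_atTop_atTop.eventually_ge_atTop _
  filter_upwards [h1, h2, eventually_ge_atTop 1] with N h1 h2 h3
  have hN1 : (1 : ℝ) ≤ N := by exact_mod_cast h3
  have hN : (0 : ℝ) < N := by linarith
  rw [div_le_iff₀ (by linarith)] at h1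
  rw [div_le_iff₀ (by positivity)] at h2
  haveI : IsProbabilityMeasure ((gaussianReal 0 1).map fun x : ℝ => v * x) :=
    Measure.isProbabilityMeasure_map (measurable_const.mul measurable_id).aemeasurable
  have ht : 0 < dl * N / 2 := by positivity
  refine le_trans (measureReal_mono ?_) ((hl (M N) (dl * N / 2) ht).trans ?_)
  · intro x hx
    simp only [Set.mem_setOf_eq, not_le] at hx ⊢
    have e1 : (∑ a, f (x a)) / N - α * μ = ((∑ a, f (x a)) - α * N * μ) / N := by
      field_simp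
    rw [e1, abs_div, abs_of_pos hN, lt_div_iff₀ hN] at hx
    have e2 : |((M N : ℝ) - α * N) * μ| ≤ |μ| := by
      rw [abs_mul]
      exact mul_le_of_le_one_left (abs_nonneg _) (hM N)
    have e3 : |(∑ a, f (x a)) - α * N * μ| ≤
        |(∑ a, f (x a)) - (M N : ℝ) * μ| + |((M N : ℝ) - α * N) * μ| := by
      refine le_trans (le_of_eq ?_) (abs_add_le _ _)
      congr 1
      ring
    linarith
  · have hMN : (M N : ℝ) ≤ (α + 1) * N := by
      have := (abs_le.1 (hM N)).2
      nlinarith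
    rw [div_le_iff₀ (by positivity)]
    calc (M N : ℝ) * V ≤ ((α + 1) * N) * V := mul_le_mul_of_nonneg_right hMN hV
      _ = N / 4 * (4 * (α + 1) * V) := by ring
      _ ≤ N / 4 * (N * (dl ^ 2 * e)) := mul_le_mul_of_nonneg_left h2 (by positivity)
      _ = e * (dl * N / 2) ^ 2 := by ring

/-- a finite list of functions -/
private theorem list57 (v : ℝ) {α : ℝ} (hα : 0 ≤ α) (M : ℕ → ℕ)
    (hM : ∀ N, |(M N : ℝ) - α * N| ≤ 1) {dl : ℝ} (hdl : 0 < dl) (T : List (ℝ → ℝ)) :
    (∀ f ∈ T, QG f) → ∀ e : ℝ, 0 < e → ∀ᶠ N : ℕ in atTop,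
      (Measure.pi fun _ : Fin (M N) => (gaussianReal 0 1).map fun x => v * x).real
        {x | ¬ ∀ f ∈ T, |(∑ a, f (x a)) / N - α * GE (fun y => f (v * y))| ≤ dl} ≤ e := by
  haveI : IsProbabilityMeasure ((gaussianReal 0 1).map fun x : ℝ => v * x) :=
    Measure.isProbabilityMeasure_map (measurable_const.mul measurable_id).aemeasurable
  induction T with
  | nil =>
    intro _ e he
    refine Eventually.of_forall fun N => ?_
    have : {x : Fin (M N) → ℝ | ¬ ∀ f ∈ ([] : List (ℝ → ℝ)),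
        |(∑ a, f (x a)) / N - α * GE (fun y => f (v * y))| ≤ dl} = ∅ := by
      ext x; simp
    rw [this]
    simpa using he.le
  | cons f T ih =>
    intro hT e he
    have h1 := one57 (hT f List.mem_cons_self) v hα M hM hdl (half_pos he)
    have h2 := ih (fun g hg => hT g (List.mem_cons_of_mem _ hg)) (e / 2) (half_pos he)
    filter_upwards [h1, h2] with N h1 h2
    have hsub : {x : Fin (M N) → ℝ | ¬ ∀ g ∈ f :: T,
        |(∑ a, g (x a)) / N - α * GE (fun y => g (v * y))| ≤ dl} ⊆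
        {x | ¬ |(∑ a, f (x a)) / N - α * GE (fun y => f (v * y))| ≤ dl} ∪
        {x | ¬ ∀ g ∈ T, |(∑ a, g (x a)) / N - α * GE (fun y => g (v * y))| ≤ dl} := by
      intro x hx
      by_contra hc
      apply hx
      rw [Set.mem_union, not_or] at hc
      obtain ⟨hc1, hc2⟩ := hc
      rw [Set.mem_setOf_eq, not_not] at hc1 hc2
      intro g hg
      rcases List.mem_cons.1 hg with rfl | hg
      · exact hc1
      · exact hc2 g hg
    have h3 := (measureReal_mono (μ := Measure.pi fun _ : Fin (M N) =>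
      (gaussianReal 0 1).map fun x => v * x) hsub).trans (measureReal_union_le _ _)
    linarith

theorem yset_typ {κ ν ψ : ℝ} (hν : 0 ≤ ν) (hψ : 0 < ψ) (T1 T2 : List (ℝ → ℝ))
    (hT1 : ∀ f ∈ T1, QG f) (hT2 : ∀ f ∈ T2, QG f) {dl e : ℝ} (hdl : 0 < dl) (he : 0 < e) :
    ∀ᶠ N : ℕ in atTop, ∀ (Ω : Type) (_ : MeasurableSpace Ω) (P : Measure Ω)
      (_ : IsProbabilityMeasure P) (h : Ω → Fin N → ℝ) (hh : Ω → Fin ⌊al κ ν ψ * N⌋₊ → ℝ),
      Measurable h → Measurable hh →
      P.map h = (Measure.pi fun _ => (gaussianReal 0 1).map fun x => Real.sqrt ψ * x) →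
      P.map hh = (Measure.pi fun _ => (gaussianReal 0 1).map fun x => Real.sqrt (qp ψ) * x) →
      P.real {ω | (h ω, hh ω) ∉ Yset κ ν ψ T1 T2 dl ⌊al κ ν ψ * N⌋₊ N} ≤ e := by
  have hα : 0 < al κ ν ψ := al_pos hν hψ
  have h1 := list57 (Real.sqrt ψ) (α := 1) zero_le_one (fun N => N)
    (fun N => by simp) hdl T1 hT1 (e / 2) (half_pos he)
  have h2 := list57 (Real.sqrt (qp ψ)) hα.le (fun N => ⌊al κ ν ψ * N⌋₊) (fun N => by
    have a1 := Nat.floor_le (mul_nonneg hα.le (Nat.cast_nonneg (α := ℝ) N))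
    have a2 := Nat.lt_floor_add_one (al κ ν ψ * N)
    rw [abs_le]
    constructor <;> linarith) hdl T2 hT2 (e / 2) (half_pos he)
  filter_upwards [h1, h2] with N h1 h2
  intro Ω _ P _ h hh hm hhm hP1 hP2
  set B1 : Set (Fin N → ℝ) := {x | ¬ ∀ f ∈ T1, |(∑ a, f (x a)) / N
    - 1 * GE (fun y => f (Real.sqrt ψ * y))| ≤ dl} with hB1
  set B2 : Set (Fin ⌊al κ ν ψ * N⌋₊ → ℝ) := {x | ¬ ∀ f ∈ T2, |(∑ a, f (x a)) / N
    - al κ ν ψ * GE (fun y => f (Real.sqrt (qp ψ) * y))| ≤ dl} with hB2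
  have hsub : {ω | (h ω, hh ω) ∉ Yset κ ν ψ T1 T2 dl ⌊al κ ν ψ * N⌋₊ N} ⊆
      h ⁻¹' B1 ∪ hh ⁻¹' B2 := by
    intro ω hω
    by_contra hc
    rw [Set.mem_union, not_or] at hc
    obtain ⟨hc1, hc2⟩ := hc
    rw [Set.mem_preimage, hB1, Set.mem_setOf_eq, not_not] at hc1
    rw [Set.mem_preimage, hB2, Set.mem_setOf_eq, not_not] at hc2
    refine hω ⟨fun f hf => ?_, fun f hf => hc2 f hf⟩
    have := hc1 f hf
    rw [one_mul] at this
    exact this
  have b1 : P.real (h ⁻¹' B1) ≤ e / 2 := by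
    refine le_trans ?_ h1
    rw [← hP1, measureReal_def, measureReal_def]
    haveI : IsProbabilityMeasure (P.map h) := Measure.isProbabilityMeasure_map hm.aemeasurable
    exact ENNReal.toReal_mono (measure_ne_top _ _) (Measure.le_map_apply hm.aemeasurable _)
  have b2 : P.real (hh ⁻¹' B2) ≤ e / 2 := by
    refine le_trans ?_ h2
    rw [← hP2, measureReal_def, measureReal_def]
    haveI : IsProbabilityMeasure (P.map hh) := Measure.isProbabilityMeasure_map hhm.aemeasurable
    exact ENNReal.toReal_mono (measure_ne_top _ _) (Measure.le_map_apply hhm.aemeasurable _)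
  have h3 := (measureReal_mono (μ := P) hsub).trans (measureReal_union_le _ _)
  linarith

end Pool.Agent.IP49.LP
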