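import Pool.Agent.IP49.LProb
import Pool.Agent.IP49.LTyp

/-!
IP49, part L, module LAsm: lower bound by the second moment method given the representation
(part S, owners helper2, helper95). Notes 1603, 1604, 1602.

PROOF of `L_of_S`. Fix `c₁ := c/2`. `cond_prob` with `δ`, `c₁`: lists T1, T2, `dl ≤ 1/4`.
`SOutL κ ψ` with `ε := dl`: `K`, and for `N` large `Ω, P, h, hh, GR` (`M₁ = ⌊al N⌋₊` rows).
`yset_typ` (ν = 0) with `e = 1/4`: `P(untypical) ≤ 1/4`. So the set `B` of `ω` with `Cfg …` for some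
data and `(h ω, hh ω) ∈ Yset` has `P`-measure `≥ 1 - 1/4 - 1/4 = 1/2` (outer measure of the
complement of the union of the two bad sets). For `ω ∈ B`, `cond_prob` gives
`g(ω) := (GM M₁ N).real {G' | ∃ w, Near κ δ (GR (ω, G')) w} ≥ exp(-c₁ N)`.
`(GM M₁ N).real {A | ∃ w, Near κ δ A w} = (P.prod GM).real (GR⁻¹ …) = ∫ g dP ≥ exp(-c₁N) P(B) ≥
exp(-c₁N)/2 ≥ exp(-cN)` for `N` large (`near_meas`, `map_apply`, `Measure.prod_apply`; with
`lintegral`: `∫⁻ g ≥ a P{g ≥ a}` (`mul_meas_ge_le_lintegral`), `{g ≥ a} ⊇ B`).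
For general `M` with `(M : ℝ) ≤ al N`: `M ≤ M₁` (`Nat.le_floor`), `GM_mono`.
-/

set_option autoImplicit false
open MeasureTheory ProbabilityTheory Filter Topology

namespace Pool.Agent.IP49

theorem L_of_S {κ ψ : ℝ} (hψ : 0 < ψ) (hS : SOutL κ ψ) (hs : LStar κ ψ)
    {δ : ℝ} (hδ : 0 < δ) {c : ℝ} (hc : 0 < c) :
    ∀ᶠ N : ℕ in atTop, ∀ M : ℕ, (M : ℝ) ≤ al κ 0 ψ * N →
      Real.exp (-c * N) ≤ (GM M N).real {A | ∃ w, Near κ δ A w} := by
  obtain ⟨T1, T2, hT1, hT2, dl, hdl, hdl4, hcp⟩ :=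
    LP.cond_prob (κ := κ) hψ hs hδ (show 0 < c / 2 by linarith)
  obtain ⟨K, hK⟩ := hS dl hdl
  have hty := LP.yset_typ (κ := κ) (ν := 0) (ψ := ψ) le_rfl hψ T1 T2 hT1 hT2 hdl
    (show (0 : ℝ) < 1 / 4 by norm_num)
  have hlim : Tendsto (fun N : ℕ => Real.exp (-(c / 2) * N)) atTop (𝓝 0) := by
    refine Real.tendsto_exp_atBot.comp ?_
    exact tendsto_natCast_atTop_atTop.const_mul_atTop_of_neg (by linarith)
  have hev : ∀ᶠ N : ℕ in atTop, Real.exp (-(c / 2) * N) < 1 / 2 :=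
    hlim.eventually (gt_mem_nhds (by norm_num))
  filter_upwards [hcp K, hK, hty, hev] with N h1 h2 h3 h4 M hM
  obtain ⟨Ω, mΩ, P, hP, h, hh, GR, hm, hhm, hGR, hPh, hPhh, hPG, hbad⟩ := h2
  have hMle : M ≤ ⌊al κ 0 ψ * N⌋₊ := Nat.le_floor hM
  refine le_trans ?_ (LP.GM_mono hMle)
  have hYb := h3 Ω mΩ P hP h hh hm hhm hPh hPhh
  haveI : IsProbabilityMeasure (GM ⌊al κ 0 ψ * N⌋₊ N) := by unfold GM; infer_instance
  generalize hM₁ : ⌊al κ 0 ψ * (N : ℝ)⌋₊ = M₁ at *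
  set S : Set (Fin M₁ → Fin N → ℝ) := {A | ∃ w, Near κ δ A w} with hSdef
  have hSm : MeasurableSet S := LP.near_meas κ δ M₁ N
  have hEm : MeasurableSet (GR ⁻¹' S) := hGR hSm
  have hval : (GM M₁ N) S = ∫⁻ ω, (GM M₁ N) (Prod.mk ω ⁻¹' (GR ⁻¹' S)) ∂P := by
    conv_lhs => rw [← hPG]
    rw [Measure.map_apply hGR hSm, Measure.prod_apply hEm]
  have hgm : Measurable fun ω => (GM M₁ N) (Prod.mk ω ⁻¹' (GR ⁻¹' S)) :=
    measurable_measure_prodMk_left hEm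
  have hmk := mul_meas_ge_le_lintegral (μ := P) hgm (ENNReal.ofReal (Real.exp (-(c / 2) * N)))
  rw [← hval] at hmk
  set D : Set Ω := {ω | ENNReal.ofReal (Real.exp (-(c / 2) * N)) ≤
    (GM M₁ N) (Prod.mk ω ⁻¹' (GR ⁻¹' S))} with hD
  have hDm : MeasurableSet D := measurableSet_le measurable_const hgm
  have hsub : Dᶜ ⊆ {ω | ¬ ∃ (c : Fin K → Fin M₁ → ℝ) (n : Fin M₁ → ℝ)
        (u : (Fin N → Bool) → Fin N → ℝ) (e : (Fin N → Bool) → Fin M₁ → ℝ)
        (T : Finset (Fin N → Bool)),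
        Cfg κ ψ dl (h ω) (hh ω) (fun G => GR (ω, G)) c n u e T} ∪
      {ω | (h ω, hh ω) ∉ Yset κ 0 ψ T1 T2 dl M₁ N} := by
    intro ω hω
    by_contra hcon
    rw [Set.mem_union, not_or] at hcon
    obtain ⟨hc1, hc2⟩ := hcon
    simp only [Set.mem_ofPred_eq, not_not] at hc1 hc2
    obtain ⟨cc, n, u, e, T, hCfg⟩ := hc1
    have h5 := h1 M₁ (h ω) (hh ω) (fun G => GR (ω, G)) cc n u e T hCfg hc2
    apply hω
    rw [hD, Set.mem_ofPred_eq]
    have h6 : (Prod.mk ω ⁻¹' (GR ⁻¹' S)) = {G | ∃ w, Near κ δ (GR (ω, G)) w} := rfl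
    rw [h6]
    rw [measureReal_def] at h5
    exact (ENNReal.ofReal_le_iff_le_toReal (measure_ne_top _ _)).2 h5
  have hDc : P.real Dᶜ ≤ 1 / 2 := by
    have h7 := (measureReal_mono (μ := P) hsub).trans (measureReal_union_le _ _)
    have h8 : (1 : ℝ) / 2 = 1 / 4 + 1 / 4 := by norm_num
    rw [h8]
    exact h7.trans (add_le_add (hbad.trans hdl4) hYb)
  have hD1 : 1 / 2 ≤ P.real D := by
    have h9 := probReal_compl_eq_one_sub (μ := P) hDm
    rw [h9] at hDc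
    linarith
  have hfin : Real.exp (-(c / 2) * N) * P.real D ≤ (GM M₁ N).real S := by
    have h10 := ENNReal.toReal_mono (measure_ne_top _ _) hmk
    rw [ENNReal.toReal_mul, ENNReal.toReal_ofReal (Real.exp_pos _).le] at h10
    exact h10
  have hexp : Real.exp (-c * N) = Real.exp (-(c / 2) * N) * Real.exp (-(c / 2) * N) := by
    rw [← Real.exp_add]; congr 1; ring
  rw [hexp]
  refine le_trans (mul_le_mul_of_nonneg_left (h4.le.trans hD1) (Real.exp_pos _).le) hfin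

end Pool.Agent.IP49
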