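import Pool.Agent.IP49.LRowA

/-!
IP49, part L, module LAssoc: nonpositively correlated Gaussian pairs and monotone functions.

PROOFS. Put `r = √(1-lam²)`, `G x = ∫ g (lam x + r y) dγ(y)`; `G` is antitone because `lam ≤ 0`,
bounded in `[0,1]`, measurable (antitone). Fubini: the left side is `∫ f G dγ`. CHEBYSHEV:
`(f x - f x')(G x - G x') ≤ 0` for all `x, x'`; integrate over `γ × γ`:
`2 (∫ f G - ∫ f ∫ G) ≤ 0`. `∫ G dγ = ∫∫ g(lam x + r y) = ∫ g dγ` because `lam ξ + r ζ` has law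
`N(0,1)` (`lam² + r² = 1` since `|lam| ≤ 1`): law of the sum of independent
`N(0, lam²)` and `N(0, r²)` (`gaussianReal_conv_gaussianReal`, or
`gaussianReal_add_gaussianReal_of_indepFun`, with `gaussianReal_map_const_mul`).
`Qr_zero_le`: for `s = 0` the integrand factors: `exp(-L(…)_+²(ξ)) exp(-L(…)_+²(ξ'))`,
`f₁ x = exp(-L (max 0 (k - a x))²)` is monotone in `x` (`a ≥ 0`, `L ≥ 0`) with values in `[0,1]`,
`g₁ x = exp(-L (max 0 (k - b x))²)` too; `∫ f₁ = Rr L k a`, `∫ g₁ = Rr L k b`.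
-/

set_option autoImplicit false
open MeasureTheory ProbabilityTheory Filter Topology

namespace Pool.Agent.IP49.LP

private theorem sq_add_sqrt {lam : ℝ} (h0 : lam ≤ 0) (h1 : -1 ≤ lam) :
    Real.sqrt (1 - lam ^ 2) ^ 2 = 1 - lam ^ 2 := by
  apply Real.sq_sqrt
  have h2 : lam ^ 2 = (-lam) * (-lam) := by ring
  have h3 : (-lam) * (-lam) ≤ 1 * 1 :=
    mul_le_mul (by linarith) (by linarith) (by linarith) zero_le_one
  linarith

private theorem lin_law {a b : ℝ} (hab : a ^ 2 + b ^ 2 = 1) :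
    ((gaussianReal 0 1).prod (gaussianReal 0 1)).map (fun p : ℝ × ℝ => a * p.1 + b * p.2)
      = gaussianReal 0 1 := by
  have h1 : (gaussianReal 0 1).map (a * ·) = gaussianReal 0 (.mk (a ^ 2) (sq_nonneg _)) := by
    rw [gaussianReal_map_const_mul, mul_zero, mul_one]
  have h2 : (gaussianReal 0 1).map (b * ·) = gaussianReal 0 (.mk (b ^ 2) (sq_nonneg _)) := by
    rw [gaussianReal_map_const_mul, mul_zero, mul_one]
  have h3 : ((gaussianReal 0 1).prod (gaussianReal 0 1)).map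
      (fun p : ℝ × ℝ => a * p.1 + b * p.2)
      = (((gaussianReal 0 1).prod (gaussianReal 0 1)).map (Prod.map (a * ·) (b * ·))).map
        (fun p : ℝ × ℝ => p.1 + p.2) := by
    rw [Measure.map_map (by fun_prop) (by fun_prop)]
    rfl
  rw [h3, ← Measure.map_prod_map _ _ (by fun_prop) (by fun_prop), h1, h2]
  have h4 := gaussianReal_conv_gaussianReal (m₁ := 0) (m₂ := 0)
    (v₁ := .mk (a ^ 2) (sq_nonneg _)) (v₂ := .mk (b ^ 2) (sq_nonneg _))
  unfold Measure.conv at h4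
  rw [h4, add_zero]
  congr 1
  apply NNReal.eq
  exact hab

theorem assoc {f g : ℝ → ℝ} (hf : Monotone f) (hg : Monotone g)
    (hf1 : ∀ x, 0 ≤ f x ∧ f x ≤ 1) (hg1 : ∀ x, 0 ≤ g x ∧ g x ≤ 1) {lam : ℝ} (h0 : lam ≤ 0)
    (h1 : -1 ≤ lam) :
    ∫ p : ℝ × ℝ, f p.1 * g (lam * p.1 + Real.sqrt (1 - lam ^ 2) * p.2)
      ∂((gaussianReal 0 1).prod (gaussianReal 0 1)) ≤
      (∫ x, f x ∂(gaussianReal 0 1)) * ∫ x, g x ∂(gaussianReal 0 1) := by
  have hr2 := sq_add_sqrt h0 h1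
  set r := Real.sqrt (1 - lam ^ 2) with hr
  set γ := gaussianReal 0 1 with hγ
  have hlaw : (γ.prod γ).map (fun p : ℝ × ℝ => lam * p.1 + r * p.2) = γ :=
    lin_law (by rw [hr2]; ring)
  have hfm := hf.measurable
  have hgm := hg.measurable
  -- the inner integral
  set G : ℝ → ℝ := fun x => ∫ y, g (lam * x + r * y) ∂γ with hG
  have hgi : ∀ x, Integrable (fun y => g (lam * x + r * y)) γ := by
    intro x
    refine Integrable.of_bound (hgm.comp (by fun_prop)).aestronglyMeasurable 1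
      (ae_of_all _ fun y => ?_)
    rw [Real.norm_eq_abs, abs_of_nonneg (hg1 _).1]
    exact (hg1 _).2
  have hGanti : Antitone G := by
    intro x x' hxx
    refine integral_mono (hgi x') (hgi x) fun y => hg ?_
    have := mul_le_mul_of_nonpos_left hxx h0
    linarith
  have hG0 : ∀ x, 0 ≤ G x := fun x => integral_nonneg fun y => (hg1 _).1
  have hG1 : ∀ x, G x ≤ 1 := by
    intro x
    have := integral_mono (hgi x) (integrable_const (μ := γ) (1 : ℝ)) fun y => (hg1 _).2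
    simpa using this
  have hGm : Measurable G := hGanti.measurable
  -- bounded functions are integrable
  have bi : ∀ {F : ℝ × ℝ → ℝ}, Measurable F → (∀ p, |F p| ≤ 1) → Integrable F (γ.prod γ) := by
    intro F hF hF1
    exact Integrable.of_bound hF.aestronglyMeasurable 1 (ae_of_all _ fun p => hF1 p)
  have b1 : ∀ {u v : ℝ}, 0 ≤ u → u ≤ 1 → 0 ≤ v → v ≤ 1 → |u * v| ≤ 1 := by
    intro u v hu hu1 hv hv1
    rw [abs_of_nonneg (mul_nonneg hu hv)]
    calc u * v ≤ 1 * 1 := mul_le_mul hu1 hv1 hv zero_le_one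
      _ = 1 := one_mul 1
  have hlm : Measurable (fun p : ℝ × ℝ => lam * p.1 + r * p.2) := by fun_prop
  have hgl : Measurable (fun p : ℝ × ℝ => g (lam * p.1 + r * p.2)) := hgm.comp hlm
  have ifg : Integrable (fun p : ℝ × ℝ => f p.1 * g (lam * p.1 + r * p.2)) (γ.prod γ) :=
    bi ((hfm.comp measurable_fst).mul hgl) fun p => b1 (hf1 _).1 (hf1 _).2 (hg1 _).1 (hg1 _).2
  have igl : Integrable (fun p : ℝ × ℝ => g (lam * p.1 + r * p.2)) (γ.prod γ) :=
    bi hgl fun p => by rw [abs_of_nonneg (hg1 _).1]; exact (hg1 _).2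
  -- left side
  have e1 : ∫ p : ℝ × ℝ, f p.1 * g (lam * p.1 + r * p.2) ∂(γ.prod γ) = ∫ x, f x * G x ∂γ := by
    rw [integral_prod _ ifg]
    refine integral_congr_ae (ae_of_all _ fun x => ?_)
    simp only
    rw [integral_const_mul]
  have e2 : ∫ x, G x ∂γ = ∫ x, g x ∂γ := by
    have h2 : ∫ p : ℝ × ℝ, g (lam * p.1 + r * p.2) ∂(γ.prod γ) = ∫ x, G x ∂γ := by
      rw [integral_prod _ igl]
    have h3 : ∫ x, g x ∂((γ.prod γ).map (fun p : ℝ × ℝ => lam * p.1 + r * p.2))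
        = ∫ p : ℝ × ℝ, g (lam * p.1 + r * p.2) ∂(γ.prod γ) :=
      integral_map (by fun_prop) hgm.aestronglyMeasurable
    rw [← h2, ← h3, hlaw]
  -- Chebyshev
  have c1 : ∫ p : ℝ × ℝ, (f p.1 * G p.1) * 1 ∂(γ.prod γ) = ∫ x, f x * G x ∂γ := by
    rw [integral_prod_mul (fun x => f x * G x) (fun _ => (1 : ℝ))]
    simp
  have c2 : ∫ p : ℝ × ℝ, 1 * (f p.2 * G p.2) ∂(γ.prod γ) = ∫ x, f x * G x ∂γ := by
    rw [integral_prod_mul (fun _ => (1 : ℝ)) (fun x => f x * G x)]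
    simp
  have c3 : ∫ p : ℝ × ℝ, f p.1 * G p.2 ∂(γ.prod γ) = (∫ x, f x ∂γ) * ∫ x, G x ∂γ :=
    integral_prod_mul f G
  have c4 : ∫ p : ℝ × ℝ, G p.1 * f p.2 ∂(γ.prod γ) = (∫ x, G x ∂γ) * ∫ x, f x ∂γ :=
    integral_prod_mul G f
  have i1 : Integrable (fun p : ℝ × ℝ => (f p.1 * G p.1) * 1) (γ.prod γ) :=
    bi (((hfm.comp measurable_fst).mul (hGm.comp measurable_fst)).mul_const 1) fun p => by
      rw [mul_one]; exact b1 (hf1 _).1 (hf1 _).2 (hG0 _) (hG1 _)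
  have i2 : Integrable (fun p : ℝ × ℝ => 1 * (f p.2 * G p.2)) (γ.prod γ) :=
    bi (((hfm.comp measurable_snd).mul (hGm.comp measurable_snd)).const_mul 1) fun p => by
      rw [one_mul]; exact b1 (hf1 _).1 (hf1 _).2 (hG0 _) (hG1 _)
  have i3 : Integrable (fun p : ℝ × ℝ => f p.1 * G p.2) (γ.prod γ) :=
    bi ((hfm.comp measurable_fst).mul (hGm.comp measurable_snd)) fun p =>
      b1 (hf1 _).1 (hf1 _).2 (hG0 _) (hG1 _)
  have i4 : Integrable (fun p : ℝ × ℝ => G p.1 * f p.2) (γ.prod γ) :=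
    bi ((hGm.comp measurable_fst).mul (hfm.comp measurable_snd)) fun p =>
      b1 (hG0 _) (hG1 _) (hf1 _).1 (hf1 _).2
  have key : ∫ p : ℝ × ℝ, ((f p.1 * G p.1) * 1 + 1 * (f p.2 * G p.2)) ∂(γ.prod γ)
      ≤ ∫ p : ℝ × ℝ, (f p.1 * G p.2 + G p.1 * f p.2) ∂(γ.prod γ) := by
    refine integral_mono (i1.add i2) (i3.add i4) fun p => ?_
    simp only
    have hneg : (f p.1 - f p.2) * (G p.1 - G p.2) ≤ 0 := by
      rcases le_total p.1 p.2 with h | h
      · exact mul_nonpos_of_nonpos_of_nonneg (sub_nonpos.2 (hf h)) (sub_nonneg.2 (hGanti h))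
      · exact mul_nonpos_of_nonneg_of_nonpos (sub_nonneg.2 (hf h)) (sub_nonpos.2 (hGanti h))
    have hexp : (f p.1 - f p.2) * (G p.1 - G p.2)
        = f p.1 * G p.1 + f p.2 * G p.2 - f p.1 * G p.2 - G p.1 * f p.2 := by ring
    rw [hexp] at hneg
    linarith
  rw [integral_add i1 i2, integral_add i3 i4, c1, c2, c3, c4] at key
  rw [e1, ← e2]
  have : (∫ x, G x ∂γ) * ∫ x, f x ∂γ = (∫ x, f x ∂γ) * ∫ x, G x ∂γ := mul_comm _ _
  linarith

private theorem expo_mono {L k a : ℝ} (hL : 0 ≤ L) (ha : 0 ≤ a) :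
    Monotone fun x : ℝ => Real.exp (-(L * (max 0 (k - a * x)) ^ 2)) := by
  intro x y hxy
  simp only
  refine Real.exp_le_exp.2 (neg_le_neg (mul_le_mul_of_nonneg_left ?_ hL))
  refine pow_le_pow_left₀ (le_max_left _ _) (max_le_max le_rfl ?_) 2
  have := mul_le_mul_of_nonneg_left hxy ha
  linarith

private theorem expo_mem {L k a : ℝ} (hL : 0 ≤ L) (x : ℝ) :
    0 ≤ Real.exp (-(L * (max 0 (k - a * x)) ^ 2)) ∧
      Real.exp (-(L * (max 0 (k - a * x)) ^ 2)) ≤ 1 := by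
  refine ⟨(Real.exp_pos _).le, Real.exp_le_one_iff.2 ?_⟩
  have : 0 ≤ L * (max 0 (k - a * x)) ^ 2 := mul_nonneg hL (sq_nonneg _)
  linarith

theorem Qr_zero_le {L k f a b lam : ℝ} (hL : 0 ≤ L) (ha : 0 ≤ a) (hb : 0 ≤ b) (h0 : lam ≤ 0)
    (h1 : -1 ≤ lam) : Qr 0 L k f a b lam ≤ Rr L k a * Rr L k b := by
  have h := assoc (expo_mono (k := k) hL ha) (expo_mono (k := k) hL hb)
    (expo_mem (k := k) (a := a) hL) (expo_mem (k := k) (a := b) hL) h0 h1
  refine le_trans (le_of_eq ?_) h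
  unfold Qr
  refine integral_congr_ae (ae_of_all _ fun p => ?_)
  simp only
  rw [← Real.exp_add]
  congr 1
  ring

end Pool.Agent.IP49.LP
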