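import Pool.Agent.IP49.LVec

/-!
IP49, part L, module LCnt: total weight of the pairs of typical configurations with a given
overlap (exponential Chebyshev).

PROOF. `piw h w = exp(∑ h_i sgn w_i - ∑ lc(h_i))` (`lc x = log(2 cosh x)`). Put `m_i = tanh h_i`,
`H = ∑ h_i m_i`, `Q = ∑ m_i²`. For `w, w' ∈ T` with `|ov w w' - R₀| ≤ ρ` (`∑ sgn sgn' =
N ov w w'`, `N > 0`; for `N = 0` all sums are empty and the statement is `1 ≤ exp 0 * 1`, or less):
(`sl_h`) `<h,w> + <h,w'> ≤ 2H + 2εN`, so `piw h w piw h w' ≤ exp(2H + 2εN - 2∑ lc(h_i))`;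
`1 ≤ exp(l(<m,w+w'> - 2Q) + 2|l|εN)` (`sl_m`), `1 ≤ exp(s(<h,w+w'> - 2H) + 2|s|εN)` (`sl_h`),
`1 ≤ exp(e(<w,w'> - R₀N) + |e|ρN)`. Multiply, and sum over ALL `w, w'`:
`∑_{w,w'} ∏_i exp((l m_i + s h_i)(σ_i+σ'_i) + e σ_i σ'_i) = ∏_i ∑_{σ,σ'=±1} (…)`
(`Finset.prod_univ_sum`/`Fintype.piFinset_univ`, twice or for the type `Bool × Bool`), and
`∑_{σ,σ'} exp(x(σ+σ') + eσσ') = exp(2x+e) + exp(-2x+e) + 2exp(-e) = 2exp(e)cosh(2x) + 2exp(-e)`.
-/

set_option autoImplicit false
open MeasureTheory ProbabilityTheory Filter Topology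

namespace Pool.Agent.IP49.LP

private theorem sum_prod {N : ℕ} (f : Fin N → Bool → ℝ) :
    ∑ w : Fin N → Bool, ∏ i, f i (w i) = ∏ i, (f i true + f i false) := by
  have h := Finset.prod_univ_sum (fun _ : Fin N => (Finset.univ : Finset Bool)) f
  rw [Fintype.piFinset_univ] at h
  rw [← h]
  exact Finset.prod_congr rfl fun i _ => by simp

theorem piw_pos {N : ℕ} (h : Fin N → ℝ) (w : Fin N → Bool) : 0 < piw h w := by
  unfold piw
  refine Finset.prod_pos fun i _ => ?_
  have := Real.cosh_pos (h i)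
  positivity

theorem piw_sum {N : ℕ} (h : Fin N → ℝ) : ∑ w, piw h w = 1 := by
  unfold piw
  have h1 := sum_prod fun (i : Fin N) (b : Bool) => Real.exp (h i * sgn b) / (2 * Real.cosh (h i))
  rw [h1]
  refine Finset.prod_eq_one fun i _ => ?_
  have h2 : 2 * Real.cosh (h i) = Real.exp (h i) + Real.exp (-h i) := by
    rw [Real.cosh_eq]; ring
  have h3 := Real.exp_pos (h i)
  have h4 := Real.exp_pos (-h i)
  rw [← add_div, h2]
  simp only [sgn, if_true, Bool.false_eq_true, if_false, mul_one, mul_neg]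
  exact div_self (by positivity)

private theorem piw_eq {N : ℕ} (h : Fin N → ℝ) (w : Fin N → Bool) :
    piw h w = Real.exp ((∑ i, h i * sgn (w i)) - ∑ i, lc (h i)) := by
  unfold piw
  rw [← Finset.sum_sub_distrib, Real.exp_sum]
  refine Finset.prod_congr rfl fun i _ => ?_
  have := Real.cosh_pos (h i)
  rw [Real.exp_sub, lc, Real.exp_log (by positivity)]

private theorem pair_sum {N : ℕ} (x : Fin N → ℝ) (e : ℝ) :
    ∑ w : Fin N → Bool, ∑ w' : Fin N → Bool,
      Real.exp (∑ i, (x i * (sgn (w i) + sgn (w' i)) + e * (sgn (w i) * sgn (w' i))))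
      = ∏ i, (2 * Real.exp e * Real.cosh (2 * x i) + 2 * Real.exp (-e)) := by
  simp_rw [Real.exp_sum]
  have h1 : ∀ w : Fin N → Bool, ∑ w' : Fin N → Bool,
      ∏ i, Real.exp (x i * (sgn (w i) + sgn (w' i)) + e * (sgn (w i) * sgn (w' i)))
      = ∏ i, (Real.exp (x i * (sgn (w i) + sgn true) + e * (sgn (w i) * sgn true))
        + Real.exp (x i * (sgn (w i) + sgn false) + e * (sgn (w i) * sgn false))) := fun w =>
    sum_prod fun (i : Fin N) (b : Bool) =>
      Real.exp (x i * (sgn (w i) + sgn b) + e * (sgn (w i) * sgn b))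
  simp_rw [h1]
  have h2 := sum_prod fun (i : Fin N) (b : Bool) =>
    Real.exp (x i * (sgn b + sgn true) + e * (sgn b * sgn true))
        + Real.exp (x i * (sgn b + sgn false) + e * (sgn b * sgn false))
  rw [h2]
  refine Finset.prod_congr rfl fun i _ => ?_
  simp only [sgn, if_true, Bool.false_eq_true, if_false]
  have e1 : x i * (1 + 1) + e * (1 * 1) = e + 2 * x i := by ring
  have e2 : x i * (1 + -1) + e * (1 * -1) = -e := by ring
  have e3 : x i * (-1 + 1) + e * (-1 * 1) = -e := by ring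
  have e4 : x i * (-1 + -1) + e * (-1 * -1) = e + -(2 * x i) := by ring
  rw [e1, e2, e3, e4, Real.exp_add, Real.exp_add, Real.cosh_eq]
  ring

theorem cnt {κ ψ ε : ℝ} {K M N : ℕ} {h : Fin N → ℝ} {hh : Fin M → ℝ}
    {R : (Fin M → Fin N → ℝ) → Fin M → Fin N → ℝ} {c : Fin K → Fin M → ℝ} {n : Fin M → ℝ}
    {u : (Fin N → Bool) → Fin N → ℝ} {e' : (Fin N → Bool) → Fin M → ℝ}
    {T : Finset (Fin N → Bool)} (hC : Cfg κ ψ ε h hh R c n u e' T) (hε : 0 ≤ ε)
    (l s e R₀ ρ : ℝ) :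
    ∑ w ∈ T, ∑ w' ∈ T.filter (fun w' => |ov w w' - R₀| ≤ ρ), piw h w * piw h w' ≤
      Real.exp (2 * (∑ i, h i * Real.tanh (h i)) - 2 * (∑ i, lc (h i))
        - 2 * l * (∑ i, Real.tanh (h i) ^ 2) - 2 * s * (∑ i, h i * Real.tanh (h i))
        - e * R₀ * N + N * (2 * ε + 2 * |l| * ε + 2 * |s| * ε + |e| * ρ)) *
      ∏ i, (2 * Real.exp e * Real.cosh (2 * (l * Real.tanh (h i) + s * h i))
        + 2 * Real.exp (-e)) := by
  classical
  set x : Fin N → ℝ := fun i => l * Real.tanh (h i) + s * h i with hx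
  set c₀ : ℝ := 2 * (∑ i, h i * Real.tanh (h i)) - 2 * (∑ i, lc (h i))
        - 2 * l * (∑ i, Real.tanh (h i) ^ 2) - 2 * s * (∑ i, h i * Real.tanh (h i))
        - e * R₀ * N + N * (2 * ε + 2 * |l| * ε + 2 * |s| * ε + |e| * ρ) with hc₀
  set g : (Fin N → Bool) → (Fin N → Bool) → ℝ := fun w w' =>
    Real.exp (∑ i, (x i * (sgn (w i) + sgn (w' i)) + e * (sgn (w i) * sgn (w' i)))) with hg
  have key : ∀ w ∈ T, ∀ w' ∈ T.filter (fun w' => |ov w w' - R₀| ≤ ρ),
      piw h w * piw h w' ≤ Real.exp c₀ * g w w' := by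
    intro w hw w' hw'
    rw [Finset.mem_filter] at hw'
    obtain ⟨hw', hov⟩ := hw'
    rw [piw_eq, piw_eq, ← Real.exp_add, hg]
    simp only
    rw [← Real.exp_add, Real.exp_le_exp]
    have a1 := hC.sl_h w hw
    have a2 := hC.sl_h w' hw'
    have a3 := hC.sl_m w hw
    have a4 := hC.sl_m w' hw'
    have dh : ∀ v : Fin N → Bool, ∑ i, h i * (sgn (v i) - Real.tanh (h i))
        = (∑ i, h i * sgn (v i)) - ∑ i, h i * Real.tanh (h i) := fun v => by
      rw [← Finset.sum_sub_distrib]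
      exact Finset.sum_congr rfl fun i _ => by ring
    have dm : ∀ v : Fin N → Bool, ∑ i, Real.tanh (h i) * (sgn (v i) - Real.tanh (h i))
        = (∑ i, Real.tanh (h i) * sgn (v i)) - ∑ i, Real.tanh (h i) ^ 2 := fun v => by
      rw [← Finset.sum_sub_distrib]
      exact Finset.sum_congr rfl fun i _ => by ring
    have dov : (N : ℝ) * ov w w' = ∑ i, sgn (w i) * sgn (w' i) := by
      rcases Nat.eq_zero_or_pos N with hN | hN
      · subst hN; simp
      · have : (N : ℝ) ≠ 0 := by positivity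
        unfold ov
        field_simp
    have dx : ∑ i, (x i * (sgn (w i) + sgn (w' i)) + e * (sgn (w i) * sgn (w' i)))
        = l * ((∑ i, Real.tanh (h i) * sgn (w i)) + ∑ i, Real.tanh (h i) * sgn (w' i))
          + s * ((∑ i, h i * sgn (w i)) + ∑ i, h i * sgn (w' i))
          + e * ∑ i, sgn (w i) * sgn (w' i) := by
      rw [← Finset.sum_add_distrib, ← Finset.sum_add_distrib, Finset.mul_sum, Finset.mul_sum,
        Finset.mul_sum, ← Finset.sum_add_distrib, ← Finset.sum_add_distrib]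
      exact Finset.sum_congr rfl fun i _ => by rw [hx]; ring
    rw [dh] at a1 a2
    rw [dm] at a3 a4
    rw [dx, ← dov, hc₀]
    set H := ∑ i, h i * Real.tanh (h i)
    set Q := ∑ i, Real.tanh (h i) ^ 2
    set p1 := ∑ i, h i * sgn (w i)
    set p2 := ∑ i, h i * sgn (w' i)
    set q1 := ∑ i, Real.tanh (h i) * sgn (w i)
    set q2 := ∑ i, Real.tanh (h i) * sgn (w' i)
    have b1 : -(|l| * (2 * (ε * N))) ≤ l * ((q1 - Q) + (q2 - Q)) := by
      have : |l * ((q1 - Q) + (q2 - Q))| ≤ |l| * (2 * (ε * N)) := by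
        rw [abs_mul]
        refine mul_le_mul_of_nonneg_left ((abs_add_le _ _).trans ?_) (abs_nonneg l)
        linarith
      exact (abs_le.1 this).1
    have b2 : -(|s| * (2 * (ε * N))) ≤ s * ((p1 - H) + (p2 - H)) := by
      have : |s * ((p1 - H) + (p2 - H))| ≤ |s| * (2 * (ε * N)) := by
        rw [abs_mul]
        refine mul_le_mul_of_nonneg_left ((abs_add_le _ _).trans ?_) (abs_nonneg s)
        linarith
      exact (abs_le.1 this).1
    have b3 : -(|e| * ρ) ≤ e * (ov w w' - R₀) := by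
      have : |e * (ov w w' - R₀)| ≤ |e| * ρ := by
        rw [abs_mul]
        exact mul_le_mul_of_nonneg_left hov (abs_nonneg e)
      exact (abs_le.1 this).1
    have b3' := mul_le_mul_of_nonneg_left b3 (Nat.cast_nonneg (α := ℝ) N)
    have b4 := (abs_le.1 a1).2
    have b5 := (abs_le.1 a2).2
    linarith
  have hg0 : ∀ w w', 0 ≤ Real.exp c₀ * g w w' := fun w w' => by positivity
  calc ∑ w ∈ T, ∑ w' ∈ T.filter (fun w' => |ov w w' - R₀| ≤ ρ), piw h w * piw h w'
      ≤ ∑ w ∈ T, ∑ w' ∈ T.filter (fun w' => |ov w w' - R₀| ≤ ρ), Real.exp c₀ * g w w' :=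
        Finset.sum_le_sum fun w hw => Finset.sum_le_sum fun w' hw' => key w hw w' hw'
    _ ≤ ∑ w ∈ T, ∑ w', Real.exp c₀ * g w w' :=
        Finset.sum_le_sum fun w _ => Finset.sum_le_sum_of_subset_of_nonneg
          (Finset.subset_univ _) fun w' _ _ => hg0 w w'
    _ ≤ ∑ w, ∑ w', Real.exp c₀ * g w w' :=
        Finset.sum_le_sum_of_subset_of_nonneg (Finset.subset_univ _)
          fun w _ _ => Finset.sum_nonneg fun w' _ => hg0 w w'
    _ = Real.exp c₀ * ∑ w, ∑ w', g w w' := by simp only [Finset.mul_sum]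
    _ = _ := by rw [hg, pair_sum x e]

end Pool.Agent.IP49.LP
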