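import Pool.Agent.IP49.MillsB

/-!
IP49: Hermite polynomials `he`, truncated Gaussian expectation `TE`, Hermite moments
`ta n z = E[He_n(ξ - E(z)) | ξ ≥ z]`, and `T1` (owner helper37).
-/

set_option autoImplicit false
open MeasureTheory ProbabilityTheory Filter Topology Set

namespace Pool.Agent.IP49

/-- probabilists' Hermite polynomials -/
noncomputable def he : ℕ → ℝ → ℝ
  | 0, _ => 1
  | 1, x => x
  | (n + 2), x => x * he (n + 1) x - (n + 1) * he n x

theorem he_zero (x : ℝ) : he 0 x = 1 := by simp [he]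

theorem he_one (x : ℝ) : he 1 x = x := by simp [he]

theorem he_add_two (n : ℕ) (x : ℝ) : he (n + 2) x = x * he (n + 1) x - (n + 1) * he n x := by
  simp [he]

theorem he_succ (n : ℕ) (x : ℝ) : he (n + 1) x = x * he n x - n * he (n - 1) x := by
  cases n with
  | zero => simp [he]
  | succ n =>
    rw [he_add_two]
    push_cast
    simp

theorem hasDerivAt_he (n : ℕ) (x : ℝ) : HasDerivAt (he n) (n * he (n - 1) x) x := by
  induction n using Nat.strong_induction_on with
  | _ n ih =>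
    match n with
    | 0 =>
      have : he 0 = fun _ => (1 : ℝ) := funext he_zero
      rw [this]
      simpa using hasDerivAt_const x (1 : ℝ)
    | 1 =>
      have : he 1 = fun x => x := funext he_one
      rw [this]
      simpa [he_zero] using hasDerivAt_id' x
    | (n + 2) =>
      have h1 := ih (n + 1) (by omega)
      have h0 := ih n (by omega)
      have : he (n + 2) = fun x => x * he (n + 1) x - (n + 1) * he n x := funext (he_add_two n)
      rw [this]
      have h := ((hasDerivAt_id' x).mul h1).sub (h0.const_mul ((n : ℝ) + 1))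
      refine h.congr_deriv ?_
      have e := he_succ n x
      simp only [show n + 2 - 1 = n + 1 by omega, show n + 1 - 1 = n by omega]
      push_cast
      rw [e]
      ring

theorem continuous_he (n : ℕ) : Continuous (he n) :=
  continuous_iff_continuousAt.2 fun x => (hasDerivAt_he n x).continuousAt

theorem hasDerivAt_he_mul_phi (n : ℕ) (x : ℝ) :
    HasDerivAt (fun x => he n x * phi x) (-(he (n + 1) x * phi x)) x := by
  have h := (hasDerivAt_he n x).mul (hasDerivAt_phi x)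
  refine h.congr_deriv ?_
  rw [he_succ]
  ring

/-- polynomial growth -/
theorem he_growth (n : ℕ) : ∃ C : ℝ, 0 ≤ C ∧ ∀ x, |he n x| ≤ C * (1 + |x|) ^ n := by
  induction n using Nat.strong_induction_on with
  | _ n ih =>
    match n with
    | 0 => exact ⟨1, by norm_num, fun x => by simp [he_zero]⟩
    | 1 => exact ⟨1, by norm_num, fun x => by simp [he_one]⟩
    | (n + 2) =>
      obtain ⟨C1, hC1, h1⟩ := ih (n + 1) (by omega)
      obtain ⟨C0, hC0, h0⟩ := ih n (by omega)
      refine ⟨C1 + (n + 1) * C0, by positivity, fun x => ?_⟩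
      have hx := abs_nonneg x
      have a0 : (1 : ℝ) ≤ (1 + |x|) := by linarith
      rw [he_add_two]
      have e1 : |x * he (n + 1) x| ≤ C1 * (1 + |x|) ^ (n + 2) := by
        rw [abs_mul]
        calc |x| * |he (n + 1) x| ≤ (1 + |x|) * (C1 * (1 + |x|) ^ (n + 1)) :=
              mul_le_mul (by linarith) (h1 x) (abs_nonneg _) (by linarith)
          _ = C1 * (1 + |x|) ^ (n + 2) := by ring
      have e2 : |((n : ℝ) + 1) * he n x| ≤ (n + 1) * C0 * (1 + |x|) ^ (n + 2) := by
        rw [abs_mul, abs_of_nonneg (by positivity : (0:ℝ) ≤ (n:ℝ) + 1)]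
        have : (1 + |x|) ^ n ≤ (1 + |x|) ^ (n + 2) := pow_le_pow_right₀ a0 (by omega)
        calc ((n : ℝ) + 1) * |he n x| ≤ (n + 1) * (C0 * (1 + |x|) ^ n) :=
              mul_le_mul_of_nonneg_left (h0 x) (by positivity)
          _ ≤ (n + 1) * (C0 * (1 + |x|) ^ (n + 2)) := by
              refine mul_le_mul_of_nonneg_left (mul_le_mul_of_nonneg_left this hC0) (by positivity)
          _ = _ := by ring
      calc |x * he (n + 1) x - (n + 1) * he n x| ≤ |x * he (n + 1) x| + |((n : ℝ) + 1) * he n x| :=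
            abs_sub _ _
        _ ≤ _ := by linarith

/-- `(1+|x|)^n φ` is integrable -/
theorem integrable_growth_mul_phi {f : ℝ → ℝ} (hf : Continuous f) {C : ℝ} {n : ℕ}
    (h : ∀ x, |f x| ≤ C * (1 + |x|) ^ n) : Integrable (fun x => f x * phi x) := by
  have hC : 0 ≤ C := by
    have := (abs_nonneg _).trans (h 0)
    simpa using this
  have hb : Integrable (fun x : ℝ => C * 2 ^ n * (phi x + |x ^ n * phi x|)) :=
    (integrable_phi.add (MC.integrable_pow_mul_phi n).abs).const_mul _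
  refine Integrable.mono' hb (hf.mul continuous_phi).aestronglyMeasurable
    (Eventually.of_forall fun x => ?_)
  have hp := phi_pos x
  rw [Real.norm_eq_abs, abs_mul, abs_of_pos hp]
  have h2 : (1 + |x|) ^ n ≤ 2 ^ n * (1 + |x| ^ n) := by
    rcases le_total |x| 1 with hx | hx
    · calc (1 + |x|) ^ n ≤ 2 ^ n := pow_le_pow_left₀ (by positivity) (by linarith) n
        _ ≤ 2 ^ n * (1 + |x| ^ n) := by
          have : 0 ≤ |x| ^ n := by positivity
          nlinarith [pow_pos (two_pos : (0:ℝ) < 2) n]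
    · calc (1 + |x|) ^ n ≤ (2 * |x|) ^ n := pow_le_pow_left₀ (by positivity) (by linarith) n
        _ = 2 ^ n * |x| ^ n := mul_pow _ _ _
        _ ≤ 2 ^ n * (1 + |x| ^ n) := by
          have : (0:ℝ) < 2 ^ n := by positivity
          nlinarith
  have h3 : |x ^ n * phi x| = |x| ^ n * phi x := by rw [abs_mul, abs_pow, abs_of_pos hp]
  rw [h3]
  calc |f x| * phi x ≤ (C * (2 ^ n * (1 + |x| ^ n))) * phi x := by
        refine mul_le_mul_of_nonneg_right ((h x).trans ?_) hp.le
        exact mul_le_mul_of_nonneg_left h2 hC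
    _ = C * 2 ^ n * (phi x + |x| ^ n * phi x) := by ring

theorem integrable_he_mul_phi (n : ℕ) : Integrable (fun x => he n x * phi x) := by
  obtain ⟨C, _, h⟩ := he_growth n
  exact integrable_growth_mul_phi (continuous_he n) h

theorem tendsto_he_mul_phi (n : ℕ) : Tendsto (fun x => he n x * phi x) atTop (𝓝 0) := by
  obtain ⟨C, hC, h⟩ := he_growth n
  have h1 : Tendsto (fun x : ℝ => C * 2 ^ n * (x ^ n * phi x)) atTop (𝓝 0) := by
    simpa using (MC.tendsto_pow_mul_phi_atTop n).const_mul (C * 2 ^ n)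
  refine squeeze_zero_norm' ?_ h1
  filter_upwards [eventually_ge_atTop (1 : ℝ)] with x hx
  have hp := phi_pos x
  rw [Real.norm_eq_abs, abs_mul, abs_of_pos hp]
  have h2 : (1 + |x|) ^ n ≤ 2 ^ n * x ^ n := by
    rw [abs_of_nonneg (by linarith : (0:ℝ) ≤ x), ← mul_pow]
    exact pow_le_pow_left₀ (by linarith) (by linarith) n
  calc |he n x| * phi x ≤ (C * (2 ^ n * x ^ n)) * phi x := by
        refine mul_le_mul_of_nonneg_right ((h x).trans ?_) hp.le
        exact mul_le_mul_of_nonneg_left h2 hC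
    _ = _ := by ring

/-- `∫_z^∞ He_{n+1} φ = He_n(z) φ(z)` -/
theorem integral_Ioi_he (n : ℕ) (z : ℝ) :
    ∫ t in Ioi z, he (n + 1) t * phi t = he n z * phi z := by
  have h := integral_Ioi_of_hasDerivAt_of_tendsto' (a := z) (f := fun t => -(he n t * phi t))
    (f' := fun t => he (n + 1) t * phi t) (m := 0) (fun t _ => by
      have := (hasDerivAt_he_mul_phi n t).neg
      rw [neg_neg] at this
      exact this) (integrable_he_mul_phi (n + 1)).integrableOn
    (by simpa using (tendsto_he_mul_phi n).neg)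
  rw [h]; ring

/-! ### The Appell property -/

theorem he_add (n : ℕ) (x y : ℝ) :
    he n (x + y) = ∑ k ∈ Finset.range (n + 1), (n.choose k : ℝ) * he k x * y ^ (n - k) := by
  induction n generalizing y with
  | zero => simp [he_zero]
  | succ n ih =>
    set D : ℝ → ℝ := fun y => he (n + 1) (x + y)
      - ∑ k ∈ Finset.range (n + 2), ((n + 1).choose k : ℝ) * he k x * y ^ (n + 1 - k) with hD
    have hd : ∀ y, HasDerivAt D 0 y := by
      intro y
      have h1 : HasDerivAt (fun y => he (n + 1) (x + y)) (((n + 1 : ℕ) : ℝ) * he n (x + y)) y := by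
        have := (hasDerivAt_he (n + 1) (x + y)).comp y ((hasDerivAt_id' y).const_add x)
        refine this.congr_deriv ?_
        simp
      have h2 : HasDerivAt (fun y => ∑ k ∈ Finset.range (n + 2),
          ((n + 1).choose k : ℝ) * he k x * y ^ (n + 1 - k))
          (∑ k ∈ Finset.range (n + 2), ((n + 1).choose k : ℝ) * he k x
            * (((n + 1 - k : ℕ) : ℝ) * y ^ (n + 1 - k - 1))) y := by
        have := HasDerivAt.fun_sum (u := Finset.range (n + 2))
          (A := fun k (y : ℝ) => ((n + 1).choose k : ℝ) * he k x * y ^ (n + 1 - k))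
          (A' := fun k => ((n + 1).choose k : ℝ) * he k x
            * (((n + 1 - k : ℕ) : ℝ) * y ^ (n + 1 - k - 1))) (x := y)
          (fun k _ => (hasDerivAt_pow (n + 1 - k) y).const_mul _)
        exact this
      have h3 := h1.sub h2
      refine h3.congr_deriv ?_
      rw [ih, Finset.sum_range_succ _ (n + 1)]
      simp only [Nat.sub_self, Nat.cast_zero, zero_mul, mul_zero, add_zero]
      rw [Finset.mul_sum, sub_eq_zero]
      refine Finset.sum_congr rfl fun k hk => ?_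
      have hk' : k ≤ n := by have := Finset.mem_range.1 hk; omega
      have e1 : ((n + 1).choose k : ℝ) * ((n + 1 - k : ℕ) : ℝ) = ((n + 1 : ℕ) : ℝ) * (n.choose k : ℝ) := by
        have h4 := Nat.choose_mul_succ_eq n k
        have h5 : n.choose k * (n + 1) = (n + 1).choose k * (n + 1 - k) := h4
        have h6 : (n.choose k : ℝ) * ((n + 1 : ℕ) : ℝ) = ((n + 1).choose k : ℝ) * ((n + 1 - k : ℕ) : ℝ) := by
          exact_mod_cast h5
        linarith
      have e2 : n + 1 - k - 1 = n - k := by omega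
      rw [e2]
      calc ((n + 1 : ℕ) : ℝ) * ((n.choose k : ℝ) * he k x * y ^ (n - k))
          = (((n + 1 : ℕ) : ℝ) * (n.choose k : ℝ)) * he k x * y ^ (n - k) := by ring
        _ = (((n + 1).choose k : ℝ) * ((n + 1 - k : ℕ) : ℝ)) * he k x * y ^ (n - k) := by rw [e1]
        _ = _ := by ring
    have hconst : D y = D 0 := by
      have hdiff : Differentiable ℝ D := fun y => (hd y).differentiableAt
      exact is_const_of_deriv_eq_zero hdiff (fun y => (hd y).deriv) y 0
    have hD0 : D 0 = 0 := by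
      simp only [hD, add_zero]
      rw [Finset.sum_range_succ]
      have : ∑ k ∈ Finset.range (n + 1), ((n + 1).choose k : ℝ) * he k x * (0 : ℝ) ^ (n + 1 - k) = 0 := by
        refine Finset.sum_eq_zero fun k hk => ?_
        have hk' : k ≤ n := by have := Finset.mem_range.1 hk; omega
        rw [zero_pow (by omega), mul_zero]
      rw [this]
      simp
    rw [hD0] at hconst
    simp only [hD] at hconst
    linarith

/-! ### Truncated expectation -/

/-- `E[f(ξ) | ξ ≥ z]` -/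
noncomputable def TE (z : ℝ) (f : ℝ → ℝ) : ℝ := (∫ t in Ioi z, f t * phi t) / Ph z

theorem TE_one (z : ℝ) : TE z (fun _ => 1) = 1 := by
  unfold TE
  simp only [one_mul]
  rw [← Ph_eq]
  exact div_self (Ph_pos z).ne'

theorem TE_he_zero (z : ℝ) : TE z (he 0) = 1 := by
  have : he 0 = fun _ => (1 : ℝ) := funext he_zero
  rw [this, TE_one]

/-- `E[He_{n+1}(ξ) | ξ ≥ z] = He_n(z) E(z)` -/
theorem TE_he_succ (n : ℕ) (z : ℝ) : TE z (he (n + 1)) = he n z * Mi z := by
  unfold TE
  rw [integral_Ioi_he]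
  unfold Mi
  ring

/-- the Hermite moments of `X = ξ - E(z)` -/
noncomputable def ta (n : ℕ) (z : ℝ) : ℝ := TE z (fun t => he n (t - Mi z))

theorem ta_eq_sum (n : ℕ) (z : ℝ) :
    ta n z = ∑ k ∈ Finset.range (n + 1), (n.choose k : ℝ) * TE z (he k) * (-Mi z) ^ (n - k) := by
  unfold ta TE
  have h1 : ∀ t : ℝ, he n (t - Mi z) * phi t
      = ∑ k ∈ Finset.range (n + 1), (n.choose k : ℝ) * (-Mi z) ^ (n - k) * (he k t * phi t) := by
    intro t
    rw [sub_eq_add_neg, he_add, Finset.sum_mul]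
    exact Finset.sum_congr rfl fun k _ => by ring
  simp only [h1]
  rw [integral_finsetSum]
  · rw [Finset.sum_div]
    refine Finset.sum_congr rfl fun k _ => ?_
    rw [integral_const_mul]
    ring
  · intro k _
    exact ((integrable_he_mul_phi k).const_mul _).integrableOn

theorem ta_formula (n : ℕ) (z : ℝ) :
    ta n z = (-Mi z) ^ n + ∑ k ∈ Finset.range n,
      (n.choose (k + 1) : ℝ) * (he k z * Mi z) * (-Mi z) ^ (n - 1 - k) := by
  rw [ta_eq_sum, Finset.sum_range_succ']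
  simp only [TE_he_zero, TE_he_succ, Nat.choose_zero_right, Nat.cast_one, one_mul, Nat.sub_zero]
  rw [add_comm]
  congr 1
  refine Finset.sum_congr rfl fun k _ => ?_
  have : n - (k + 1) = n - 1 - k := by omega
  rw [this]

theorem ta_zero (z : ℝ) : ta 0 z = 1 := by rw [ta_formula]; simp

theorem ta_one (z : ℝ) : ta 1 z = 0 := by
  rw [ta_formula]; simp [he_zero]

theorem ta_two (z : ℝ) : ta 2 z = -Md z := by
  rw [ta_formula]
  simp [Finset.sum_range_succ, he_zero, he_one]
  unfold Md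
  ring

theorem ta_three (z : ℝ) : ta 3 z = M2 z := by
  rw [ta_formula]
  simp [Finset.sum_range_succ, he_zero, he_one, he_add_two, Nat.choose]
  unfold M2 Md
  ring

/-- explicit form, `E = Mi z`, `d = Mi z - z` -/
theorem ta_four (z : ℝ) : ta 4 z = -(Mi z ^ 3 * (Mi z - z)) - Mi z ^ 2 * (Mi z - z) ^ 2
    - Mi z * (Mi z - z) ^ 3 + Mi z ^ 2 + 3 * Mi z * (Mi z - z) := by
  rw [ta_formula]
  simp [Finset.sum_range_succ, he_zero, he_one, he_add_two, Nat.choose]
  ring

theorem ta_five (z : ℝ) : ta 5 z = Mi z ^ 4 * (Mi z - z) + Mi z ^ 3 * (Mi z - z) ^ 2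
    + Mi z ^ 2 * (Mi z - z) ^ 3 + Mi z * (Mi z - z) ^ 4
    - Mi z ^ 3 - 3 * Mi z ^ 2 * (Mi z - z) - 6 * Mi z * (Mi z - z) ^ 2 + 3 * Mi z := by
  rw [ta_formula]
  simp [Finset.sum_range_succ, he_zero, he_one, he_add_two, Nat.choose]
  ring

theorem ta_six (z : ℝ) : ta 6 z = -(Mi z ^ 5 * (Mi z - z)) - Mi z ^ 4 * (Mi z - z) ^ 2
    - Mi z ^ 3 * (Mi z - z) ^ 3 - Mi z ^ 2 * (Mi z - z) ^ 4 - Mi z * (Mi z - z) ^ 5
    + Mi z ^ 4 + 3 * Mi z ^ 3 * (Mi z - z) + 6 * Mi z ^ 2 * (Mi z - z) ^ 2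
    + 10 * Mi z * (Mi z - z) ^ 3 - 3 * Mi z ^ 2 - 15 * Mi z * (Mi z - z) := by
  rw [ta_formula]
  simp [Finset.sum_range_succ, he_zero, he_one, he_add_two, Nat.choose]
  ring

theorem ta_seven (z : ℝ) : ta 7 z = Mi z ^ 6 * (Mi z - z) + Mi z ^ 5 * (Mi z - z) ^ 2
    + Mi z ^ 4 * (Mi z - z) ^ 3 + Mi z ^ 3 * (Mi z - z) ^ 4 + Mi z ^ 2 * (Mi z - z) ^ 5
    + Mi z * (Mi z - z) ^ 6
    - Mi z ^ 5 - 3 * Mi z ^ 4 * (Mi z - z) - 6 * Mi z ^ 3 * (Mi z - z) ^ 2
    - 10 * Mi z ^ 2 * (Mi z - z) ^ 3 - 15 * Mi z * (Mi z - z) ^ 4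
    + 3 * Mi z ^ 3 + 15 * Mi z ^ 2 * (Mi z - z) + 45 * Mi z * (Mi z - z) ^ 2
    - 15 * Mi z := by
  rw [ta_formula]
  simp [Finset.sum_range_succ, he_zero, he_one, he_add_two, Nat.choose]
  ring

theorem ta_eight (z : ℝ) : ta 8 z = -(Mi z ^ 7 * (Mi z - z)) - Mi z ^ 6 * (Mi z - z) ^ 2
    - Mi z ^ 5 * (Mi z - z) ^ 3 - Mi z ^ 4 * (Mi z - z) ^ 4 - Mi z ^ 3 * (Mi z - z) ^ 5
    - Mi z ^ 2 * (Mi z - z) ^ 6 - Mi z * (Mi z - z) ^ 7
    + Mi z ^ 6 + 3 * Mi z ^ 5 * (Mi z - z) + 6 * Mi z ^ 4 * (Mi z - z) ^ 2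
    + 10 * Mi z ^ 3 * (Mi z - z) ^ 3 + 15 * Mi z ^ 2 * (Mi z - z) ^ 4
    + 21 * Mi z * (Mi z - z) ^ 5
    - 3 * Mi z ^ 4 - 15 * Mi z ^ 3 * (Mi z - z) - 45 * Mi z ^ 2 * (Mi z - z) ^ 2
    - 105 * Mi z * (Mi z - z) ^ 3 + 15 * Mi z ^ 2 + 105 * Mi z * (Mi z - z) := by
  rw [ta_formula]
  simp [Finset.sum_range_succ, he_zero, he_one, he_add_two, Nat.choose]
  ring

theorem continuous_ta (n : ℕ) : Continuous (ta n) := by
  have h : ta n = fun z => (-Mi z) ^ n + ∑ k ∈ Finset.range n,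
      (n.choose (k + 1) : ℝ) * (he k z * Mi z) * (-Mi z) ^ (n - 1 - k) :=
    funext (ta_formula n)
  rw [h]
  have hM := continuous_Mi
  refine (hM.neg.pow n).add (continuous_finsetSum _ fun k _ => ?_)
  exact (continuous_const.mul ((continuous_he k).mul hM)).mul (hM.neg.pow _)

/-- polynomial growth of the Hermite moments -/
theorem ta_growth (n : ℕ) : ∃ C : ℝ, 0 ≤ C ∧ ∀ z, |ta n z| ≤ C * (1 + |z|) ^ n := by
  choose D hD0 hD using he_growth
  refine ⟨1 + ∑ k ∈ Finset.range n, (n.choose (k + 1) : ℝ) * D k, by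
    have : 0 ≤ ∑ k ∈ Finset.range n, (n.choose (k + 1) : ℝ) * D k :=
      Finset.sum_nonneg fun k _ => mul_nonneg (Nat.cast_nonneg _) (hD0 k)
    linarith, fun z => ?_⟩
  have hE : |Mi z| ≤ 1 + |z| := by
    have := MC.abs_Mi_le z
    linarith
  have hz := abs_nonneg z
  have h1z : (1 : ℝ) ≤ 1 + |z| := by linarith
  rw [ta_formula, add_mul, one_mul, Finset.sum_mul]
  refine (abs_add_le _ _).trans (add_le_add ?_ ?_)
  · rw [abs_pow, abs_neg]
    exact pow_le_pow_left₀ (abs_nonneg _) hE n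
  · refine (Finset.abs_sum_le_sum_abs _ _).trans (Finset.sum_le_sum fun k hk => ?_)
    have hk' : k < n := Finset.mem_range.1 hk
    rw [abs_mul, abs_mul, abs_mul, abs_pow, abs_neg,
      abs_of_nonneg (Nat.cast_nonneg (n.choose (k + 1)) : (0:ℝ) ≤ _)]
    have e1 : |Mi z| ^ (n - 1 - k) ≤ (1 + |z|) ^ (n - 1 - k) :=
      pow_le_pow_left₀ (abs_nonneg _) hE _
    calc (n.choose (k + 1) : ℝ) * (|he k z| * |Mi z|) * |Mi z| ^ (n - 1 - k)
        ≤ (n.choose (k + 1) : ℝ) * ((D k * (1 + |z|) ^ k) * (1 + |z|)) * (1 + |z|) ^ (n - 1 - k) := by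
          refine mul_le_mul (mul_le_mul_of_nonneg_left ?_ (Nat.cast_nonneg _)) e1 (by positivity)
            (by have := hD0 k; positivity)
          exact mul_le_mul (hD k z) hE (abs_nonneg _) (by have := hD0 k; positivity)
      _ = (n.choose (k + 1) : ℝ) * D k * ((1 + |z|) ^ k * (1 + |z|) * (1 + |z|) ^ (n - 1 - k)) := by
          ring
      _ = (n.choose (k + 1) : ℝ) * D k * (1 + |z|) ^ n := by
          rw [← pow_succ, ← pow_add]
          congr 2
          omega

/-! ### The diagonal value `T1` -/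

/-- `T_1(z) = exp(E²) Φ̄(z + E)/Φ̄(z)²` -/
noncomputable def T1 (z : ℝ) : ℝ := Real.exp (Mi z ^ 2) * Ph (z + Mi z) / Ph z ^ 2

theorem T1_pos (z : ℝ) : 0 < T1 z := by
  unfold T1
  have := Ph_pos z
  have := Ph_pos (z + Mi z)
  positivity

/-- overflow free form -/
theorem T1_eq (z : ℝ) : T1 z = Real.sqrt (2 * Real.pi) * Mi z ^ 2
    * Real.exp ((Mi z - z) ^ 2 / 2) / Mi (z + Mi z) := by
  have hs := MC.sqrt_two_pi_pos
  have hP := Ph_pos z
  have hP2 := Ph_pos (z + Mi z)
  have hp := phi_pos z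
  have hp2 := phi_pos (z + Mi z)
  have h1 : Ph z = phi z / Mi z := by
    unfold Mi; field_simp
  have h2 : Mi (z + Mi z) = phi (z + Mi z) / Ph (z + Mi z) := rfl
  have hM := Mi_pos z
  have hM2 := Mi_pos (z + Mi z)
  unfold T1
  rw [h2]
  set E := Mi z with hE
  rw [h1]
  have e : Real.exp (E ^ 2) * phi (z + E) = Real.sqrt (2 * Real.pi)
      * Real.exp ((E - z) ^ 2 / 2) * phi z ^ 2 := by
    unfold phi
    rw [div_pow, Real.sq_sqrt (by positivity : (0:ℝ) ≤ 2 * Real.pi), ← Real.exp_nat_mul]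
    have e1 : Real.exp (E ^ 2) * (Real.exp (-(z + E) ^ 2 / 2) / Real.sqrt (2 * Real.pi))
        = Real.exp (E ^ 2 - (z + E) ^ 2 / 2) / Real.sqrt (2 * Real.pi) := by
      rw [← mul_div_assoc, ← Real.exp_add]; congr 2; ring
    have e2 : Real.sqrt (2 * Real.pi) * Real.exp ((E - z) ^ 2 / 2)
        * (Real.exp (((2:ℕ):ℝ) * (-z ^ 2 / 2)) / (2 * Real.pi))
        = Real.exp (E ^ 2 - (z + E) ^ 2 / 2) * (Real.sqrt (2 * Real.pi) / (2 * Real.pi)) := by
      have : Real.exp (E ^ 2 - (z + E) ^ 2 / 2) = Real.exp ((E - z) ^ 2 / 2)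
          * Real.exp (((2:ℕ):ℝ) * (-z ^ 2 / 2)) := by
        rw [← Real.exp_add]; congr 1; push_cast; ring
      rw [this]; ring
    rw [e1, e2, Real.sqrt_div_self', mul_one_div]
  field_simp
  rw [e]
  ring

theorem T1_le (z : ℝ) : T1 z ≤ 8 * (1 + |z|) := by
  have hM := Mi_pos z
  have hl := lt_Mi z
  rcases le_total 0 z with hz | hz
  · rw [abs_of_nonneg hz, T1_eq]
    have h1 := MC.Mi_le_of_nonneg hz
    have h2 : Mi z ≤ Mi (z + Mi z) := strictMono_Mi.monotone (by linarith)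
    have h3 : Real.exp ((Mi z - z) ^ 2 / 2) ≤ 3 / 2 := by
      have h4 : (Mi z - z) ^ 2 / 2 ≤ 8 / 25 := by nlinarith
      have h5 : Real.exp ((Mi z - z) ^ 2 / 2) ≤ Real.exp (8 / 25) := Real.exp_le_exp.2 h4
      have h6 := Real.exp_bound' (x := 8/25) (by norm_num) (by norm_num) (n := 3) (by norm_num)
      norm_num [Finset.sum_range_succ, Nat.factorial] at h6
      linarith
    have h7 : Real.sqrt (2 * Real.pi) ≤ 13 / 5 := by
      rw [Real.sqrt_le_left (by norm_num)]
      have := Real.pi_lt_d2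
      norm_num
      linarith
    rw [div_le_iff₀ (Mi_pos _)]
    have h8 : Real.sqrt (2 * Real.pi) * Mi z ^ 2 * Real.exp ((Mi z - z) ^ 2 / 2)
        ≤ 13 / 5 * Mi z ^ 2 * (3 / 2) := by
      refine mul_le_mul (mul_le_mul_of_nonneg_right h7 (by positivity)) h3
        (Real.exp_pos _).le (by positivity)
    have h9 : 13 / 5 * Mi z ^ 2 * (3 / 2) ≤ 8 * (1 + z) * Mi z := by nlinarith
    have h10 : 8 * (1 + z) * Mi z ≤ 8 * (1 + z) * Mi (z + Mi z) :=
      mul_le_mul_of_nonneg_left h2 (by linarith)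
    linarith
  · have h1 := MC.Mi_le_of_nonpos hz
    have hP := Ph_pos z
    have h2 : Ph (z + Mi z) ≤ Ph z := MC.Ph_antitone (by linarith)
    have h3 : (1:ℝ) / 2 ≤ Ph z := MC.half_le_Ph hz
    have h4 : Real.exp (Mi z ^ 2) ≤ 2 := by
      have h4 : Mi z ^ 2 ≤ 16 / 25 := by nlinarith
      have h5 : Real.exp (Mi z ^ 2) ≤ Real.exp (16 / 25) := Real.exp_le_exp.2 h4
      have h6 := Real.exp_bound' (x := 16/25) (by norm_num) (by norm_num) (n := 4) (by norm_num)
      norm_num [Finset.sum_range_succ, Nat.factorial] at h6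
      linarith
    have h5 : T1 z ≤ 4 := by
      unfold T1
      rw [div_le_iff₀ (by positivity)]
      calc Real.exp (Mi z ^ 2) * Ph (z + Mi z) ≤ 2 * Ph z :=
            mul_le_mul h4 h2 (Ph_pos _).le (by norm_num)
        _ ≤ 4 * Ph z ^ 2 := by nlinarith
    have := abs_nonneg z
    linarith

theorem continuous_T1 : Continuous T1 := by
  unfold T1
  have hM := continuous_Mi
  refine ((Real.continuous_exp.comp (hM.pow 2)).mul (continuous_Ph.comp
    (continuous_id.add hM))).div (continuous_Ph.pow 2) fun z => ?_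
  have := Ph_pos z
  positivity

end Pool.Agent.IP49
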