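import Pool.Agent.IP49.LIdB
import Pool.Agent.IP49.TMom
import Pool.Agent.ZR.E0

/-!
IP49, L5: the coefficients of the series are the squared Hermite moments, `cW z n = ta n z ^ 2 / n!`.
-/

set_option autoImplicit false
open MeasureTheory ProbabilityTheory Filter Topology

namespace Pool.Agent.IP49


theorem int_pow_lin (x : ℝ) (n : ℕ) :
    Integrable (fun y : ℝ => ((x : ℂ) + y * Complex.I) ^ n) (gaussianReal 0 1) := by
  have hb : Integrable (fun y : ℝ => (n.factorial * Real.exp 1 * Real.exp (x ^ 2 / 4))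
      * Real.exp ((1 / 2 : ℝ) * y ^ 2 / 2)) (gaussianReal 0 1) := (int_exp_sq_gauss (by norm_num)).const_mul _
  apply hb.mono' (by fun_prop)
  refine Eventually.of_forall fun y => ?_
  rw [norm_pow]
  set t := ‖(x : ℂ) + y * Complex.I‖ with ht
  have ht0 : 0 ≤ t := norm_nonneg _
  have ht2 : t ^ 2 = x ^ 2 + y ^ 2 := by
    rw [ht, ← Complex.normSq_eq_norm_sq, Complex.normSq_add_mul_I]
  have h1 := pow_div_fact_le_exp ht0 n
  have hf : (0 : ℝ) < n.factorial := by exact_mod_cast Nat.factorial_pos n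
  rw [div_le_iff₀ hf] at h1
  have h2 : Real.exp t ≤ Real.exp 1 * Real.exp (x ^ 2 / 4) * Real.exp ((1 / 2 : ℝ) * y ^ 2 / 2) := by
    rw [← Real.exp_add, ← Real.exp_add]
    apply Real.exp_le_exp.2
    nlinarith [sq_nonneg (t - 2)]
  calc t ^ n ≤ Real.exp t * n.factorial := h1
    _ ≤ (Real.exp 1 * Real.exp (x ^ 2 / 4) * Real.exp ((1 / 2 : ℝ) * y ^ 2 / 2)) * n.factorial :=
        mul_le_mul_of_nonneg_right h2 hf.le
    _ = _ := by ring

theorem int_pow_lin_mul (x : ℝ) (n : ℕ) :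
    Integrable (fun y : ℝ => y • ((x : ℂ) + y * Complex.I) ^ n) (gaussianReal 0 1) := by
  have h1 := int_pow_lin x (n + 1)
  have h2 := (int_pow_lin x n).const_mul (x : ℂ)
  have h3 := (h1.sub h2).const_mul (-Complex.I)
  refine h3.congr (Eventually.of_forall fun y => ?_)
  simp only [Pi.sub_apply, Complex.real_smul]
  rw [pow_succ]
  have hI : Complex.I * Complex.I = -1 := Complex.I_mul_I
  linear_combination (-(y : ℂ)) * ((x : ℂ) + y * Complex.I) ^ n * hI

/-- `E (x + i Z)^n` is the Hermite polynomial -/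
theorem gauss_he (x : ℝ) : ∀ n : ℕ,
    ∫ y : ℝ, ((x : ℂ) + y * Complex.I) ^ n ∂(gaussianReal 0 1) = ((he n x : ℝ) : ℂ) ∧
    ∫ y : ℝ, ((x : ℂ) + y * Complex.I) ^ (n + 1) ∂(gaussianReal 0 1) = ((he (n + 1) x : ℝ) : ℂ) := by
  have step : ∀ n : ℕ, ∫ y : ℝ, ((x : ℂ) + y * Complex.I) ^ (n + 1) ∂(gaussianReal 0 1)
      = (x : ℂ) * ∫ y : ℝ, ((x : ℂ) + y * Complex.I) ^ n ∂(gaussianReal 0 1)
        + Complex.I * ∫ y : ℝ, y • ((x : ℂ) + y * Complex.I) ^ n ∂(gaussianReal 0 1) := by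
    intro n
    rw [← integral_const_mul, ← integral_const_mul,
      ← integral_add ((int_pow_lin x n).const_mul _) ((int_pow_lin_mul x n).const_mul _)]
    congr 1
    funext y
    simp only [Complex.real_smul]
    ring
  intro n
  induction n with
  | zero =>
    refine ⟨by simp [he], ?_⟩
    rw [step 0]
    have h := Pool.Agent.ZR.gauss_ibp (E := ℂ) (f := fun _ : ℝ => (1 : ℂ)) (f' := fun _ => 0)
      (fun y => hasDerivAt_const y _) (by
        have := int_pow_lin_mul x 0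
        simpa using this) (integrable_const _)
    have h' : ∫ y : ℝ, y • ((x : ℂ) + y * Complex.I) ^ 0 ∂(gaussianReal 0 1) = 0 := by
      simpa using h
    rw [h']
    simp [he]
  | succ n ih =>
    refine ⟨ih.2, ?_⟩
    rw [step (n + 1)]
    have hd : ∀ y : ℝ, HasDerivAt (fun y : ℝ => ((x : ℂ) + y * Complex.I) ^ (n + 1))
        (((n + 1 : ℕ) : ℂ) * Complex.I * ((x : ℂ) + y * Complex.I) ^ n) y := by
      intro y
      have h1 : HasDerivAt (fun y : ℝ => (x : ℂ) + y * Complex.I) (Complex.I) y := by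
        have := ((Complex.ofRealCLM.hasDerivAt (x := y)).mul_const Complex.I).const_add (x : ℂ)
        simpa using this
      have h2 := h1.pow (n + 1)
      refine h2.congr_deriv ?_
      rw [Nat.add_sub_cancel]
      ring
    have h := Pool.Agent.ZR.gauss_ibp (E := ℂ) hd (int_pow_lin_mul x (n + 1))
      ((int_pow_lin x n).const_mul _)
    rw [h, integral_const_mul, ih.1, ih.2]
    rw [show he (n + 1 + 1) x = x * he (n + 1) x - (n + 1) * he n x from rfl]
    push_cast
    have hI : Complex.I * Complex.I = -1 := Complex.I_mul_I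
    linear_combination ((n : ℂ) + 1) * (he n x : ℂ) * hI

theorem set_int_phi (z : ℝ) (g : ℝ → ℝ) :
    ∫ x in Set.Ici z, g x ∂(gaussianReal 0 1) = ∫ t in Set.Ioi z, g t * phi t := by
  rw [← integral_indicator measurableSet_Ici]
  have h := GE_eq ((Set.Ici z).indicator g)
  unfold GE at h
  rw [h]
  have e : ∀ x, phi x * (Set.Ici z).indicator g x = (Set.Ici z).indicator (fun t => g t * phi t) x := by
    intro x
    by_cases hx : x ∈ Set.Ici z
    · rw [Set.indicator_of_mem hx, Set.indicator_of_mem hx, mul_comm]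
    · rw [Set.indicator_of_notMem hx, Set.indicator_of_notMem hx, mul_zero]
  simp only [e]
  rw [integral_indicator measurableSet_Ici, integral_Ici_eq_integral_Ioi]

theorem integrable_Wc (z : ℝ) (n : ℕ) :
    Integrable (fun p : ℝ × ℝ => Wc p ^ n) ((rz z).prod (gaussianReal 0 1)) := by
  have h := ((rz_exp_int z (c := 1 / 2) (by norm_num)).mul_prod
    (int_exp_sq_gauss (c := 1 / 2) (by norm_num))).const_mul (n.factorial * Real.exp 1)
  have hm : Measurable fun p : ℝ × ℝ => Wc p ^ n := by unfold Wc; fun_prop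
  apply h.mono' hm.aestronglyMeasurable
  refine Eventually.of_forall fun p => ?_
  rw [norm_pow]
  set t := ‖Wc p‖ with ht
  have ht0 : 0 ≤ t := norm_nonneg _
  have ht2 : t ^ 2 = p.1 ^ 2 + p.2 ^ 2 := by
    rw [ht]
    unfold Wc
    rw [← Complex.normSq_eq_norm_sq, Complex.normSq_add_mul_I]
  have h1 := pow_div_fact_le_exp ht0 n
  have hf : (0 : ℝ) < n.factorial := by exact_mod_cast Nat.factorial_pos n
  rw [div_le_iff₀ hf] at h1
  have h2 : Real.exp t ≤ Real.exp 1 * (Real.exp ((1 / 2 : ℝ) * p.1 ^ 2 / 2)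
      * Real.exp ((1 / 2 : ℝ) * p.2 ^ 2 / 2)) := by
    rw [← Real.exp_add, ← Real.exp_add]
    apply Real.exp_le_exp.2
    nlinarith [sq_nonneg (t - 2)]
  calc t ^ n ≤ Real.exp t * n.factorial := h1
    _ ≤ (Real.exp 1 * (Real.exp ((1 / 2 : ℝ) * p.1 ^ 2 / 2)
      * Real.exp ((1 / 2 : ℝ) * p.2 ^ 2 / 2))) * n.factorial :=
        mul_le_mul_of_nonneg_right h2 hf.le
    _ = _ := by ring

theorem mW_eq (z : ℝ) (n : ℕ) : mW z n = ((ta n z : ℝ) : ℂ) := by
  unfold mW
  rw [integral_prod _ (integrable_Wc z n)]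
  have e : ∀ x : ℝ, ∫ y : ℝ, Wc (x, y) ^ n ∂(gaussianReal 0 1) = ((he n x : ℝ) : ℂ) := fun x => (gauss_he x n).1
  simp only [e]
  rw [integral_complex_ofReal, rz_int, fz_int, set_int_phi]
  rfl

/-- **the coefficients** -/
theorem cW_eq (z : ℝ) (n : ℕ) : cW z n = ta n z ^ 2 / n.factorial := by
  unfold cW
  rw [mW_eq, Complex.ofReal_re]

/-- the bound used near `lam = 0` -/
theorem Tl_le_three {lam : ℝ} (hl : |lam| < 1) (z : ℝ) :
    Tl lam z ≤ 1 + lam ^ 2 * (Md z ^ 2 / 2) + |lam| ^ 3 * T1 z := by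
  have h := Tl_le hl z 3
  have hn := cW_sum_le z 3
  simp only [Finset.sum_range_succ, Finset.sum_range_zero, cW_eq, ta_zero, ta_one, ta_two,
    Nat.factorial] at h hn
  norm_num at h hn
  have h3 : 0 ≤ |lam| ^ 3 := pow_nonneg (abs_nonneg _) 3
  have h4 : |lam| ^ 3 * (T1 z - (1 + Md z ^ 2 / 2)) ≤ |lam| ^ 3 * T1 z :=
    mul_le_mul_of_nonneg_left (by nlinarith [sq_nonneg (Md z)]) h3
  linarith

end Pool.Agent.IP49
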