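import Pool.Agent.IP49.LRowC
import Pool.Agent.IP49.LAssoc

/-!
IP49, part L, module LRowD: the row bound for pairs of correlation near `lam₀ ∈ [-1, 0)`.

PROOF. Notation of LRowC. For `-1 ≤ lam ≤ 0`, `a, b ≥ 0`:
`Qr 0 L (k x) (F x) a b lam ≤ Rr L (k x) a * Rr L (k x) b` (`Qr_zero_le`), so the logarithm is at
most `f x a + f x b`, `f x a = log (Rr L (k x) a)`.
STEP 1: `g L x = 2 log (Rr L (k x) t₀)`: continuous in `x`, `≤ 0`, `≥ 2 log (Ph (k x/t₀)) ≥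
-C(1+x²)` (`le_Rr`, `logPh_ge`), tends to `2 log (Ph (k x / t₀)) = 2 log (Ph (z - Mi z))`;
`lim_GE` with tolerance `η/(2 al)`. `al GE (2 log Ph (zz - Mi zz)) = conC κ ψ`.
STEP 2: `sup_family` with `f x (a,b,lam) = log (Rr L (k x) a) + log (Rr L (k x) b)` (independent
of `lam`), `p₀ = (t₀,t₀,lam₀)`, bound from `Rr_le_one`, `logRr_ge` (`|a| ≤ 2` when
`|a - t₀| ≤ 1`). Final `ρ := min (ρ of sup_family) (min t₀ (-lam₀))`: then
`|a-t₀| ≤ ρ` gives `a ≥ 0` and `|lam - lam₀| ≤ ρ` gives `lam ≤ 0`.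
TESTS: by (L*), if `lam₀ ≤ 0` with `conC`: for `lam₀ < 0` use `rowB_conC`; for `lam₀ = 0` use
`rowB_con` with `th = -1`: `con κ ψ (-1) 0 = conC κ ψ` because `(1+th)² = 0` and
`log (Pl 0 x) = log (Ph x ^ 2) = 2 log (Ph x)` (`Pl_zero'`). In the second alternative use
`rowB_con`.
-/

set_option autoImplicit false
open MeasureTheory ProbabilityTheory Filter Topology

namespace Pool.Agent.IP49.LP

private theorem t0_pos (ψ : ℝ) : 0 < Real.sqrt (1 - qp ψ) :=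
  Real.sqrt_pos.2 (by have := qp_lt_one (ψ := ψ); linarith)

private theorem t0_le_one (ψ : ℝ) : Real.sqrt (1 - qp ψ) ≤ 1 := by
  rw [Real.sqrt_le_one]
  have := qp_nonneg ψ
  linarith

private theorem kf_div (κ ψ x : ℝ) :
    kf κ ψ x / Real.sqrt (1 - qp ψ) =
      (κ - x) / Real.sqrt (1 - qp ψ) - Mi ((κ - x) / Real.sqrt (1 - qp ψ)) := by
  have ht := t0_pos ψ
  have ht2 : Real.sqrt (1 - qp ψ) ^ 2 = 1 - qp ψ :=
    Real.sq_sqrt (by have := qp_lt_one (ψ := ψ); linarith)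
  have e : tp 0 (qp ψ) = Real.sqrt (1 - qp ψ) := by
    unfold tp
    rw [add_zero]
  unfold kf FF
  rw [e]
  set t := Real.sqrt (1 - qp ψ) with hdt
  rw [← ht2]
  field_simp

private theorem kf_sq_le {κ ψ C : ℝ} (_hC : 0 ≤ C) (x : ℝ) (h : |kf κ ψ x| ≤ C * (1 + |x|)) :
    kf κ ψ x ^ 2 ≤ 2 * C ^ 2 * (1 + x ^ 2) := by
  have h1 : kf κ ψ x ^ 2 = |kf κ ψ x| ^ 2 := (sq_abs _).symm
  have h2 : |kf κ ψ x| ^ 2 ≤ (C * (1 + |x|)) ^ 2 :=
    pow_le_pow_left₀ (abs_nonneg _) h 2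
  have h3 : (1 + |x|) ^ 2 ≤ 2 * (1 + x ^ 2) := by
    rw [← sq_abs x]
    nlinarith [sq_nonneg (1 - |x|)]
  have h4 : (C * (1 + |x|)) ^ 2 = C ^ 2 * (1 + |x|) ^ 2 := by ring
  rw [h1]
  have h5 := mul_le_mul_of_nonneg_left h3 (sq_nonneg C)
  nlinarith

theorem rowB_conC {κ ψ lam₀ : ℝ} (hψ : 0 < ψ) (h1 : -1 ≤ lam₀) (h2 : lam₀ < 0) :
    RowB κ ψ 0 lam₀ (conC κ ψ) := by
  intro η hη
  have hal : 0 < al κ 0 ψ := al_pos le_rfl hψ
  obtain ⟨Ck, hCk, hgr⟩ := FF_kf_growth κ ψ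
  have hk2 : ∀ x, kf κ ψ x ^ 2 ≤ 2 * Ck ^ 2 * (1 + x ^ 2) := fun x =>
    kf_sq_le hCk x (hgr x).2
  have hkc := continuous_kf κ ψ
  set t := Real.sqrt (1 - qp ψ) with hdt
  have ht : 0 < t := t0_pos ψ
  have ht1 : t ≤ 1 := t0_le_one ψ
  have hη2 : 0 < η / (2 * al κ 0 ψ) := by positivity
  -- step 1
  have hm : ∀ L, 0 ≤ L → Measurable fun x => 2 * Real.log (Rr L (kf κ ψ x) t) := by
    intro L hL
    refine Continuous.measurable (continuous_const.mul (Continuous.log ?_ fun x =>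
      (Rr_pos (kf κ ψ x) t hL).ne'))
    exact (Rr_cont hL).comp (hkc.prodMk continuous_const)
  have hbd : ∀ L, 0 ≤ L → ∀ x, |2 * Real.log (Rr L (kf κ ψ x) t)| ≤
      (4 + 4 * Ck ^ 2 / t ^ 2) * (1 + x ^ 2) := by
    intro L hL x
    have a1 : Real.log (Rr L (kf κ ψ x) t) ≤ 0 :=
      Real.log_nonpos (Rr_pos _ _ hL).le (Rr_le_one _ _ hL)
    have a2 : Real.log (Ph (kf κ ψ x / t)) ≤ Real.log (Rr L (kf κ ψ x) t) :=
      Real.log_le_log (Ph_pos _) (le_Rr _ hL ht)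
    have a3 := logPh_ge (kf κ ψ x / t)
    have a4 : (kf κ ψ x / t) ^ 2 ≤ 2 * Ck ^ 2 / t ^ 2 * (1 + x ^ 2) := by
      rw [div_pow, div_mul_eq_mul_div]
      exact div_le_div_of_nonneg_right (hk2 x) (by positivity)
    have a5 : 4 * Ck ^ 2 / t ^ 2 * (1 + x ^ 2) = 2 * (2 * Ck ^ 2 / t ^ 2 * (1 + x ^ 2)) := by ring
    have a6 : 0 ≤ 2 * Ck ^ 2 / t ^ 2 * (1 + x ^ 2) := by positivity
    rw [abs_le]
    constructor
    · nlinarith [sq_nonneg x]
    · nlinarith [sq_nonneg x]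
  have hlim : ∀ x, Tendsto (fun L => 2 * Real.log (Rr L (kf κ ψ x) t)) atTop
      (𝓝 (2 * Real.log (Ph (kf κ ψ x / t)))) := by
    intro x
    exact ((Rr_tendsto (kf κ ψ x) ht).log (Ph_pos _).ne').const_mul 2
  obtain ⟨L, hL, hLe⟩ := lim_GE (g := fun L x => 2 * Real.log (Rr L (kf κ ψ x) t)) hm hbd hlim
    (Real.sqrt (qp ψ)) hη2
  -- step 2
  obtain ⟨C2, hC2, hlow⟩ := logRr_ge hL.le
  have hfc : Continuous (Function.uncurry fun (x : ℝ) (p : ℝ × ℝ × ℝ) =>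
      Real.log (Rr L (kf κ ψ x) p.1) + Real.log (Rr L (kf κ ψ x) p.2.1)) := by
    refine Continuous.add (Continuous.log ?_ fun y => (Rr_pos _ _ hL.le).ne')
      (Continuous.log ?_ fun y => (Rr_pos _ _ hL.le).ne')
    · exact (Rr_cont hL.le).comp ((hkc.comp continuous_fst).prodMk
        (continuous_fst.comp continuous_snd))
    · exact (Rr_cont hL.le).comp ((hkc.comp continuous_fst).prodMk
        (continuous_fst.comp (continuous_snd.comp continuous_snd)))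
  have hone : ∀ x a : ℝ, |a - t| ≤ 1 → -(C2 * (1 + 2 * Ck ^ 2) * (1 + x ^ 2)) ≤
      Real.log (Rr L (kf κ ψ x) a) ∧ Real.log (Rr L (kf κ ψ x) a) ≤ 0 := by
    intro x a ha
    refine ⟨?_, Real.log_nonpos (Rr_pos _ _ hL.le).le (Rr_le_one _ _ hL.le)⟩
    have b1 : |a| ≤ 2 := by
      rw [abs_le] at ha ⊢
      constructor <;> linarith [ha.1, ha.2]
    have b2 := hlow (kf κ ψ x) a b1
    have b3 : C2 * (1 + kf κ ψ x ^ 2) ≤ C2 * ((1 + 2 * Ck ^ 2) * (1 + x ^ 2)) := by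
      apply mul_le_mul_of_nonneg_left _ hC2
      have := hk2 x
      nlinarith [sq_nonneg x]
    rw [mul_assoc]
    linarith
  have hfb : ∀ (x : ℝ) (p : ℝ × ℝ × ℝ), dist p (t, t, lam₀) ≤ 1 →
      |Real.log (Rr L (kf κ ψ x) p.1) + Real.log (Rr L (kf κ ψ x) p.2.1)| ≤
      2 * (C2 * (1 + 2 * Ck ^ 2)) * (1 + x ^ 2) := by
    intro x p hp
    rw [Prod.dist_eq, Prod.dist_eq] at hp
    have p1 : |p.1 - t| ≤ 1 := (le_max_left _ _).trans hp
    have p2 : |p.2.1 - t| ≤ 1 := (le_max_left _ _).trans ((le_max_right _ _).trans hp)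
    have c1 := hone x p.1 p1
    have c2 := hone x p.2.1 p2
    have c3 : 2 * (C2 * (1 + 2 * Ck ^ 2)) * (1 + x ^ 2) =
      C2 * (1 + 2 * Ck ^ 2) * (1 + x ^ 2) + C2 * (1 + 2 * Ck ^ 2) * (1 + x ^ 2) := by ring
    rw [abs_le, c3]
    have c4 : 0 ≤ C2 * (1 + 2 * Ck ^ 2) * (1 + x ^ 2) := by positivity
    constructor
    · linarith [c1.1, c2.1]
    · linarith [c1.2, c2.2]
  obtain ⟨ρ, hρ, hρ1, Φ, hΦ, hle, hGE⟩ := sup_family hfc (t, t, lam₀) hfb (Real.sqrt (qp ψ)) hη2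
  refine ⟨L, hL, min ρ (min t (-lam₀)), lt_min hρ (lt_min ht (by linarith)), Φ, hΦ, ?_, ?_⟩
  · intro x a b lam ha hb hl hl1
    have ha1 := ha.trans (min_le_left _ _)
    have ha2 := ha.trans ((min_le_right _ _).trans (min_le_left _ _))
    have hb1 := hb.trans (min_le_left _ _)
    have hb2 := hb.trans ((min_le_right _ _).trans (min_le_left _ _))
    have hl2 := hl.trans (min_le_left _ _)
    have hl3 := hl.trans ((min_le_right _ _).trans (min_le_right _ _))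
    rw [abs_le] at ha2 hb2 hl3 hl1
    have hq := Qr_zero_le (L := L) (k := kf κ ψ x) (f := FF κ 0 (qp ψ) x) (a := a) (b := b)
      (lam := lam) hL.le (by linarith [ha2.1]) (by linarith [hb2.1]) (by linarith [hl3.2]) hl1.1
    have hd := hle x (a, b, lam) (by
      rw [Prod.dist_eq, Prod.dist_eq]
      exact max_le ha1 (max_le hb1 hl2))
    have hlog := Real.log_le_log (Qr_pos 0 (kf κ ψ x) (FF κ 0 (qp ψ) x) a b lam hL.le) hq
    rw [Real.log_mul (Rr_pos _ _ hL.le).ne' (Rr_pos _ _ hL.le).ne'] at hlog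
    exact hlog.trans hd
  · have e1 : (GE fun x => (fun (x : ℝ) (p : ℝ × ℝ × ℝ) =>
        Real.log (Rr L (kf κ ψ x) p.1) + Real.log (Rr L (kf κ ψ x) p.2.1))
        (Real.sqrt (qp ψ) * x) (t, t, lam₀)) =
        GE fun x => 2 * Real.log (Rr L (kf κ ψ (Real.sqrt (qp ψ) * x)) t) := by
      congr 1
      funext x
      show Real.log _ + Real.log _ = _
      ring
    have e2 : al κ 0 ψ * (GE fun x => 2 * Real.log (Ph (kf κ ψ (Real.sqrt (qp ψ) * x) / t))) =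
        conC κ ψ := by
      rw [GE_mul]
      unfold conC
      have e3 : (fun x => Real.log (Ph (kf κ ψ (Real.sqrt (qp ψ) * x) / t))) =
          fun x => Real.log (Ph (zz κ ψ x - Mi (zz κ ψ x))) := by
        funext x
        rw [kf_div]
        rfl
      rw [e3]
      ring
    rw [e1] at hGE
    have e4 : GE (fun x => Φ (Real.sqrt (qp ψ) * x)) ≤
        (GE fun x => 2 * Real.log (Ph (kf κ ψ (Real.sqrt (qp ψ) * x) / t))) +
          η / al κ 0 ψ := by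
      have e5 : η / al κ 0 ψ = η / (2 * al κ 0 ψ) + η / (2 * al κ 0 ψ) := by
        field_simp
        ring
      rw [e5]
      have hLe' : (GE fun x => 2 * Real.log (Rr L (kf κ ψ (Real.sqrt (qp ψ) * x)) t)) ≤
        (GE fun x => 2 * Real.log (Ph (kf κ ψ (Real.sqrt (qp ψ) * x) / t))) +
          η / (2 * al κ 0 ψ) := hLe
      linarith
    have e6 := mul_le_mul_of_nonneg_left e4 hal.le
    rw [mul_add, e2, mul_div_cancel₀ _ hal.ne'] at e6
    exact e6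

private theorem con_zero (κ ψ : ℝ) : con κ ψ (-1) 0 = conC κ ψ := by
  unfold con conC
  have e : (fun x => Real.log (Pl 0 (zz κ ψ x + -1 * Mi (zz κ ψ x)))) =
      fun x => 2 * Real.log (Ph (zz κ ψ x - Mi (zz κ ψ x))) := by
    funext x
    rw [Pl_zero', Real.log_pow, neg_one_mul, ← sub_eq_add_neg]
    norm_num
  rw [e, GE_mul]
  ring

theorem tests {κ ψ : ℝ} (hψ : 0 < ψ) (hs : LStar κ ψ) {lam₀ : ℝ}
    (h : lam₀ ∈ Set.Icc (-1 : ℝ) 1) :
    ∃ l s e s' B : ℝ, RowB κ ψ s' lam₀ B ∧ sp ψ lam₀ l s e + B ≤ 2 * GG κ ψ := by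
  rcases hs lam₀ h with ⟨h0, l, s, e, hle⟩ | ⟨h1, l, s, e, th, hle⟩
  · rcases h0.lt_or_eq with h0 | h0
    · exact ⟨l, s, e, 0, conC κ ψ, rowB_conC hψ h.1 h0, hle⟩
    · refine ⟨l, s, e, -(1 + (-1)) / (1 + lam₀), con κ ψ (-1) lam₀,
        rowB_con hψ (by linarith) (by linarith), ?_⟩
      rw [h0] at hle ⊢
      rw [con_zero]
      exact hle
  · exact ⟨l, s, e, -(1 + th) / (1 + lam₀), con κ ψ th lam₀, rowB_con hψ h1 h.2, hle⟩

end Pool.Agent.IP49.LP
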