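import Pool.Agent.IP49.LLoc
import Pool.Agent.IP49.LRowD

/-!
IP49, part L, module LCov: the full second moment by compactness in the overlap.

PROOF. Monotonicity: `Cfg` is monotone in `ε` (`Cfg_mono`, `N ≥ 0`), `Yset` is antitone in the lists
and monotone in `dl` (`Yset_mono`).
For every `lam₀ ∈ [-1,1]`: `tests` and `loc` (with `η/2`) give `ρ(lam₀) > 0`, lists, `dl(lam₀)`.
`isCompact_Icc.elim_nhds_subcover` with the balls of radius `ρ(lam₀)/2`: finitely many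
`λ_1..λ_J ∈ [-1,1]`, `[-1,1] ⊆ ⋃ ball (λ_j, ρ_j/2)`. T1, T2 := concatenations of the lists,
`dl := min_j dl_j`, and also `2 dl/(1-q) ≤ min_j ρ_j/2`, `dl ≤ (1-q)/4`. For `w, w' ∈ T`,
`λ := (ov w w' - q)/(1-q)`: `λ ≤ 1` because `ov ≤ 1`; `λ ≥ -1 - 2dl/(1-q)` because
`ov - q ≥ ∑ u w u w' - dl ≥ -(1-q+dl) - dl` (`ovl`, Cauchy-Schwarz, `nsq (u w) ≤ 1-q+dl`). Let
`λ̂ := max λ (-1) ∈ [-1,1]`, `|λ - λ̂| ≤ 2dl/(1-q) ≤ ρ_j/2` for all `j`; `λ̂` lies in some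
`ball (λ_j, ρ_j/2)`, so `|λ - λ_j| ≤ ρ_j`. Hence the double sum over `T × T` is at most the sum over
`j` of the double sums of `loc` (all terms are nonnegative): `≤ J exp((2C0+η/2)N) ≤ exp((2C0+η)N)`
for `N` large (`N > 0` is used for `ov w w = 1`).
-/

set_option autoImplicit false
open MeasureTheory ProbabilityTheory Filter Topology

namespace Pool.Agent.IP49.LP

theorem Cfg_mono {κ ψ ε ε' : ℝ} (hle : ε ≤ ε') {K M N : ℕ} {h : Fin N → ℝ} {hh : Fin M → ℝ}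
    {R : (Fin M → Fin N → ℝ) → Fin M → Fin N → ℝ} {c : Fin K → Fin M → ℝ} {n : Fin M → ℝ}
    {u : (Fin N → Bool) → Fin N → ℝ} {e : (Fin N → Bool) → Fin M → ℝ}
    {T : Finset (Fin N → Bool)} (hC : Cfg κ ψ ε h hh R c n u e T) :
    Cfg κ ψ ε' h hh R c n u e T := by
  have hN : ε * N ≤ ε' * N := mul_le_mul_of_nonneg_right hle (Nat.cast_nonneg _)
  exact {
    orth := hC.orth
    span := hC.span
    near_n := hC.near_n.trans hN
    mass := by linarith [hC.mass]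
    sl_h := fun w hw => (hC.sl_h w hw).trans hN
    sl_m := fun w hw => (hC.sl_m w hw).trans hN
    form := hC.form
    err := fun w hw => (hC.err w hw).trans hN
    ovl := fun w hw w' hw' => (hC.ovl w hw w' hw').trans hle }

theorem Yset_mono {κ ν ψ dl dl' : ℝ} (hle : dl ≤ dl') {T1 T1' T2 T2' : List (ℝ → ℝ)}
    (h1 : T1' ⊆ T1) (h2 : T2' ⊆ T2) (M N : ℕ) :
    Yset κ ν ψ T1 T2 dl M N ⊆ Yset κ ν ψ T1' T2' dl' M N := by
  intro y hy
  exact ⟨fun f hf => (hy.1 f (h1 hf)).trans hle, fun f hf => (hy.2 f (h2 hf)).trans hle⟩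

theorem piw_nonneg' {N : ℕ} (h : Fin N → ℝ) (w : Fin N → Bool) : 0 ≤ piw h w := by
  unfold piw
  exact Finset.prod_nonneg fun i _ => div_nonneg (Real.exp_pos _).le
    (mul_nonneg zero_le_two (Real.cosh_pos _).le)

theorem sgn_mul_le (a b : Bool) : sgn a * sgn b ≤ 1 := by
  cases a <;> cases b <;> simp [sgn]

theorem sgn_mul_self' (a : Bool) : sgn a * sgn a = 1 := by
  cases a <;> simp [sgn]

/-- the normalized overlap of two configurations of a good history is almost in `[-1, 1]` -/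
theorem lam_range {κ ψ dl : ℝ} {K M N : ℕ} {h : Fin N → ℝ} {hh : Fin M → ℝ}
    {R : (Fin M → Fin N → ℝ) → Fin M → Fin N → ℝ} {c : Fin K → Fin M → ℝ} {n : Fin M → ℝ}
    {u : (Fin N → Bool) → Fin N → ℝ} {e : (Fin N → Bool) → Fin M → ℝ}
    {T : Finset (Fin N → Bool)} (hC : Cfg κ ψ dl h hh R c n u e T) (hN : 1 ≤ N)
    {w w' : Fin N → Bool} (hw : w ∈ T) (hw' : w' ∈ T) :
    (ov w w' - qp ψ) / (1 - qp ψ) ≤ 1 ∧
      -1 - 2 * dl / (1 - qp ψ) ≤ (ov w w' - qp ψ) / (1 - qp ψ) := by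
  have hq : 0 < 1 - qp ψ := by have := qp_lt_one (ψ := ψ); linarith
  have hN0 : (0 : ℝ) < N := by exact_mod_cast hN
  have hself : ∀ v : Fin N → Bool, ov v v = 1 := by
    intro v
    unfold ov
    simp only [sgn_mul_self']
    rw [Finset.sum_const, Finset.card_univ, Fintype.card_fin, nsmul_eq_mul, mul_one,
      div_self hN0.ne']
  have hle : ov w w' ≤ 1 := by
    unfold ov
    rw [div_le_one hN0]
    calc ∑ i, sgn (w i) * sgn (w' i) ≤ ∑ _i : Fin N, (1 : ℝ) :=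
          Finset.sum_le_sum fun i _ => sgn_mul_le _ _
      _ = N := by simp
  have a1 := (abs_le.1 (hC.ovl w hw w hw)).2
  have a2 := (abs_le.1 (hC.ovl w' hw' w' hw')).2
  have a3 := (abs_le.1 (hC.ovl w hw w' hw')).2
  rw [hself] at a1 a2
  have a4 : -(∑ i, u w i * u w' i) ≤ (∑ i, u w i * u w i + ∑ i, u w' i * u w' i) / 2 := by
    rw [← Finset.sum_add_distrib, Finset.sum_div, ← Finset.sum_neg_distrib]
    apply Finset.sum_le_sum
    intro i _
    nlinarith [sq_nonneg (u w i + u w' i)]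
  constructor
  · rw [div_le_one hq]; linarith
  · have e1 : -1 - 2 * dl / (1 - qp ψ) = (-(1 - qp ψ) - 2 * dl) / (1 - qp ψ) := by
      field_simp
    rw [e1]
    apply div_le_div_of_nonneg_right _ hq.le
    linarith

theorem second {κ ψ : ℝ} (hψ : 0 < ψ) (hs : LStar κ ψ) {C η : ℝ} (hC : 0 ≤ C) (hη : 0 < η) :
    ∃ T1 T2 : List (ℝ → ℝ), (∀ f ∈ T1, QG f) ∧ (∀ f ∈ T2, QG f) ∧
      ∃ dl : ℝ, 0 < dl ∧ ∀ K : ℕ, ∀ᶠ N : ℕ in atTop,
      ∀ (M : ℕ) (h : Fin N → ℝ) (hh : Fin M → ℝ) (R : (Fin M → Fin N → ℝ) → Fin M → Fin N → ℝ)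
        (c : Fin K → Fin M → ℝ) (n : Fin M → ℝ) (u : (Fin N → Bool) → Fin N → ℝ)
        (e' : (Fin N → Bool) → Fin M → ℝ) (T : Finset (Fin N → Bool)),
        Cfg κ ψ dl h hh R c n u e' T → (h, hh) ∈ Yset κ 0 ψ T1 T2 dl M N →
        ∀ δ : ℝ, 0 ≤ δ → δ ≤ dl →
        ∑ w ∈ T, ∑ w' ∈ T, piw h w * piw h w' *
          (GM M N).real (Ev κ δ C R c u w ∩ Ev κ δ C R c u w') ≤
          Real.exp ((2 * C0 κ ψ + η) * N) := by
  have hq : 0 < 1 - qp ψ := by have := qp_lt_one (ψ := ψ); linarith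
  have key : ∀ lam₀ ∈ Set.Icc (-1 : ℝ) 1, ∃ ρ : ℝ, 0 < ρ ∧ ∃ T1 T2 : List (ℝ → ℝ),
      (∀ f ∈ T1, QG f) ∧ (∀ f ∈ T2, QG f) ∧
      ∃ dl : ℝ, 0 < dl ∧ ∀ K : ℕ, ∀ᶠ N : ℕ in atTop,
      ∀ (M : ℕ) (h : Fin N → ℝ) (hh : Fin M → ℝ) (R : (Fin M → Fin N → ℝ) → Fin M → Fin N → ℝ)
        (c : Fin K → Fin M → ℝ) (n : Fin M → ℝ) (u : (Fin N → Bool) → Fin N → ℝ)
        (e' : (Fin N → Bool) → Fin M → ℝ) (T : Finset (Fin N → Bool)),
        Cfg κ ψ dl h hh R c n u e' T → (h, hh) ∈ Yset κ 0 ψ T1 T2 dl M N →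
        ∀ δ : ℝ, 0 ≤ δ → δ ≤ dl →
        ∑ w ∈ T, ∑ w' ∈ T.filter (fun w' => |(ov w w' - qp ψ) / (1 - qp ψ) - lam₀| ≤ ρ),
          piw h w * piw h w' * (GM M N).real (Ev κ δ C R c u w ∩ Ev κ δ C R c u w') ≤
          Real.exp ((2 * C0 κ ψ + η / 2) * N) := by
    intro lam₀ hl
    obtain ⟨l, s, e, s', B, hrow, hsp⟩ := tests hψ hs hl
    exact loc hψ hrow hsp hC (half_pos hη)
  choose! ρ hρ T1 T2 hT1 hT2 dl hdl H using key
  obtain ⟨t, ht1, ht2⟩ := isCompact_Icc.elim_nhds_subcover (fun x : ℝ => Metric.ball x (ρ x / 2))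
    (fun x hx => Metric.ball_mem_nhds x (half_pos (hρ x hx)))
  have hne : t.Nonempty := by
    rcases Finset.eq_empty_or_nonempty t with h0 | h0
    · rw [h0] at ht2
      have h1 := ht2 (show (0 : ℝ) ∈ Set.Icc (-1 : ℝ) 1 by constructor <;> norm_num)
      simp at h1
    · exact h0
  obtain ⟨x₀, hx₀, hmin⟩ := t.exists_min_image (fun x => min (dl x) ((1 - qp ψ) * ρ x / 4)) hne
  obtain ⟨d, hd⟩ : ∃ d, d = min (dl x₀) ((1 - qp ψ) * ρ x₀ / 4) := ⟨_, rfl⟩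
  have hd0 : 0 < d := by
    rw [hd]
    apply lt_min (hdl x₀ (ht1 x₀ hx₀))
    have := hρ x₀ (ht1 x₀ hx₀)
    positivity
  have hd1 : ∀ x ∈ t, d ≤ dl x := fun x hx => by
    rw [hd]; exact (hmin x hx).trans (min_le_left _ _)
  have hd2 : ∀ x ∈ t, 2 * d / (1 - qp ψ) ≤ ρ x / 2 := fun x hx => by
    have h1 : d ≤ (1 - qp ψ) * ρ x / 4 := by
      rw [hd]; exact (hmin x hx).trans (min_le_right _ _)
    rw [div_le_iff₀ hq]
    linarith
  refine ⟨t.toList.flatMap T1, t.toList.flatMap T2, ?_, ?_, d, hd0, fun K => ?_⟩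
  · intro f hf
    rw [List.mem_flatMap] at hf
    obtain ⟨x, hx, hfx⟩ := hf
    exact hT1 x (ht1 x (Finset.mem_toList.1 hx)) f hfx
  · intro f hf
    rw [List.mem_flatMap] at hf
    obtain ⟨x, hx, hfx⟩ := hf
    exact hT2 x (ht1 x (Finset.mem_toList.1 hx)) f hfx
  have hev : ∀ᶠ N : ℕ in atTop, ∀ x ∈ t,
      ∀ (M : ℕ) (h : Fin N → ℝ) (hh : Fin M → ℝ) (R : (Fin M → Fin N → ℝ) → Fin M → Fin N → ℝ)
        (c : Fin K → Fin M → ℝ) (n : Fin M → ℝ) (u : (Fin N → Bool) → Fin N → ℝ)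
        (e' : (Fin N → Bool) → Fin M → ℝ) (T : Finset (Fin N → Bool)),
        Cfg κ ψ (dl x) h hh R c n u e' T → (h, hh) ∈ Yset κ 0 ψ (T1 x) (T2 x) (dl x) M N →
        ∀ δ : ℝ, 0 ≤ δ → δ ≤ dl x →
        ∑ w ∈ T, ∑ w' ∈ T.filter (fun w' => |(ov w w' - qp ψ) / (1 - qp ψ) - x| ≤ ρ x),
          piw h w * piw h w' * (GM M N).real (Ev κ δ C R c u w ∩ Ev κ δ C R c u w') ≤
          Real.exp ((2 * C0 κ ψ + η / 2) * N) := by
    rw [Filter.eventually_all_finset]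
    intro x hx
    exact H x (ht1 x hx) K
  have hcard : ∀ᶠ N : ℕ in atTop, (t.card : ℝ) ≤ Real.exp (η / 2 * N) := by
    have htd : Tendsto (fun N : ℕ => Real.exp (η / 2 * N)) atTop atTop := by
      apply Real.tendsto_exp_atTop.comp
      exact Tendsto.const_mul_atTop (half_pos hη) tendsto_natCast_atTop_atTop
    exact htd.eventually_ge_atTop _
  filter_upwards [hev, hcard, eventually_ge_atTop 1] with N hN hcN hN1
  intro M h hh R c n u e' T hCfg hY δ hδ0 hδ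
  classical
  -- every pair is covered
  have hcov : ∀ w ∈ T, ∀ w' ∈ T, ∃ x ∈ t, |(ov w w' - qp ψ) / (1 - qp ψ) - x| ≤ ρ x := by
    intro w hw w' hw'
    obtain ⟨b1, b2⟩ := lam_range hCfg hN1 hw hw'
    obtain ⟨lm, hlm⟩ : ∃ lm, lm = (ov w w' - qp ψ) / (1 - qp ψ) := ⟨_, rfl⟩
    rw [← hlm] at b1 b2 ⊢
    have hmem : max lm (-1) ∈ Set.Icc (-1 : ℝ) 1 :=
      ⟨le_max_right _ _, max_le b1 (by norm_num)⟩
    have h3 := ht2 hmem
    simp only [Set.mem_iUnion] at h3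
    obtain ⟨x, hx, hx2⟩ := h3
    rw [Metric.mem_ball, Real.dist_eq] at hx2
    refine ⟨x, hx, ?_⟩
    have h4 : |lm - max lm (-1)| ≤ ρ x / 2 := by
      refine le_trans ?_ (hd2 x hx)
      rcases le_total (-1) lm with h5 | h5
      · rw [max_eq_left h5, sub_self, abs_zero]
        positivity
      · rw [max_eq_right h5, abs_le]
        constructor
        · linarith
        · have : 0 ≤ 2 * d / (1 - qp ψ) := by positivity
          linarith
    calc |lm - x| = |(lm - max lm (-1)) + (max lm (-1) - x)| := by ring_nf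
      _ ≤ |lm - max lm (-1)| + |max lm (-1) - x| := abs_add_le _ _
      _ ≤ ρ x := by linarith
  obtain ⟨F, hF⟩ : ∃ F : (Fin N → Bool) → (Fin N → Bool) → ℝ, F = fun w w' =>
    piw h w * piw h w' * (GM M N).real (Ev κ δ C R c u w ∩ Ev κ δ C R c u w') := ⟨_, rfl⟩
  have hF0 : ∀ w w', 0 ≤ F w w' := fun w w' => by
    rw [hF]
    exact mul_nonneg (mul_nonneg (piw_nonneg' h w) (piw_nonneg' h w')) measureReal_nonneg
  have hbd : ∀ x ∈ t, ∑ w ∈ T, ∑ w' ∈ T,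
      (if |(ov w w' - qp ψ) / (1 - qp ψ) - x| ≤ ρ x then F w w' else 0) ≤
      Real.exp ((2 * C0 κ ψ + η / 2) * N) := by
    intro x hx
    have h1 := hN x hx M h hh R c n u e' T (Cfg_mono (hd1 x hx) hCfg)
      (Yset_mono (hd1 x hx) (fun f hf => List.mem_flatMap.2 ⟨x, Finset.mem_toList.2 hx, hf⟩)
        (fun f hf => List.mem_flatMap.2 ⟨x, Finset.mem_toList.2 hx, hf⟩) M N hY) δ hδ0
      (hδ.trans (hd1 x hx))
    simp only [← Finset.sum_filter]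
    rw [hF]
    exact h1
  calc ∑ w ∈ T, ∑ w' ∈ T, piw h w * piw h w' *
          (GM M N).real (Ev κ δ C R c u w ∩ Ev κ δ C R c u w')
      = ∑ w ∈ T, ∑ w' ∈ T, F w w' := by rw [hF]
    _ ≤ ∑ w ∈ T, ∑ w' ∈ T, ∑ x ∈ t,
        (if |(ov w w' - qp ψ) / (1 - qp ψ) - x| ≤ ρ x then F w w' else 0) := by
        apply Finset.sum_le_sum
        intro w hw
        apply Finset.sum_le_sum
        intro w' hw'
        obtain ⟨x, hx, hx2⟩ := hcov w hw w' hw'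
        have h1 : (if |(ov w w' - qp ψ) / (1 - qp ψ) - x| ≤ ρ x then F w w' else 0) = F w w' :=
          if_pos hx2
        refine h1.symm.le.trans ?_
        apply Finset.single_le_sum (f := fun x =>
          (if |(ov w w' - qp ψ) / (1 - qp ψ) - x| ≤ ρ x then F w w' else 0)) _ hx
        intro y _
        show 0 ≤ (if |(ov w w' - qp ψ) / (1 - qp ψ) - y| ≤ ρ y then F w w' else 0)
        split_ifs
        · exact hF0 w w'
        · exact le_rfl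
    _ = ∑ x ∈ t, ∑ w ∈ T, ∑ w' ∈ T,
        (if |(ov w w' - qp ψ) / (1 - qp ψ) - x| ≤ ρ x then F w w' else 0) := by
        rw [Finset.sum_comm]
        refine (Finset.sum_congr rfl fun w _ => Finset.sum_comm).trans ?_
        rw [Finset.sum_comm]
        exact Finset.sum_congr rfl fun x _ => Finset.sum_comm
    _ ≤ ∑ _x ∈ t, Real.exp ((2 * C0 κ ψ + η / 2) * N) := Finset.sum_le_sum hbd
    _ = t.card * Real.exp ((2 * C0 κ ψ + η / 2) * N) := by
        rw [Finset.sum_const, nsmul_eq_mul]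
    _ ≤ Real.exp (η / 2 * N) * Real.exp ((2 * C0 κ ψ + η / 2) * N) :=
        mul_le_mul_of_nonneg_right hcN (Real.exp_pos _).le
    _ = Real.exp ((2 * C0 κ ψ + η) * N) := by
        rw [← Real.exp_add]
        congr 1
        ring

end Pool.Agent.IP49.LP
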