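import Pool.Agent.IP49.VDefs

/-!
IP49, part L (owner helper47): definitions. Notes 1603, 1604.

`q = qp ψ`, `t₀ = √(1-q)`, `F = FF κ 0 q`, `z(x) = (κ - x)/t₀`, `E(x) = Mi (z x) = t₀ F(x)`,
`k(x) = κ - x - (1-q) F(x) = t₀ (z(x) - E(x))`.
-/

set_option autoImplicit false
open MeasureTheory ProbabilityTheory Filter Topology

namespace Pool.Agent.IP49

noncomputable section

/-- weight of the product measure with means `tanh h_i` -/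
def piw {N : ℕ} (h : Fin N → ℝ) (w : Fin N → Bool) : ℝ :=
  ∏ i, Real.exp (h i * sgn (w i)) / (2 * Real.cosh (h i))

/-- overlap `⟨w, w'⟩ / N` -/
def ov {N : ℕ} (w w' : Fin N → Bool) : ℝ := (∑ i, sgn (w i) * sgn (w' i)) / N

/-- projection on the span of the orthonormal family `c` -/
def pC {K M : ℕ} (c : Fin K → Fin M → ℝ) (x : Fin M → ℝ) (a : Fin M) : ℝ :=
  ∑ j, (∑ b, c j b * x b) * c j a

/-- complementary projection -/
def qC {K M : ℕ} (c : Fin K → Fin M → ℝ) (x : Fin M → ℝ) (a : Fin M) : ℝ := x a - pC c x a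

/-- matrix times vector -/
def mulv {M N : ℕ} (G : Fin M → Fin N → ℝ) (u : Fin N → ℝ) (a : Fin M) : ℝ := ∑ i, G a i * u i

/-- A good history: `R G'` is the matrix as a function of the fresh matrix `G'`. -/
structure Cfg (κ ψ ε : ℝ) {K M N : ℕ} (h : Fin N → ℝ) (hh : Fin M → ℝ)
    (R : (Fin M → Fin N → ℝ) → Fin M → Fin N → ℝ) (c : Fin K → Fin M → ℝ) (n : Fin M → ℝ)
    (u : (Fin N → Bool) → Fin N → ℝ) (e : (Fin N → Bool) → Fin M → ℝ)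
    (T : Finset (Fin N → Bool)) : Prop where
  orth : ∀ i j, ∑ a, c i a * c j a = if i = j then 1 else 0
  span : ∃ t : Fin K → ℝ, ∀ a, n a = ∑ j, t j * c j a
  near_n : ∑ a, (n a - FF κ 0 (qp ψ) (hh a)) ^ 2 ≤ ε * N
  mass : 1 - ε ≤ ∑ w ∈ T, piw h w
  sl_h : ∀ w ∈ T, |∑ i, h i * (sgn (w i) - Real.tanh (h i))| ≤ ε * N
  sl_m : ∀ w ∈ T, |∑ i, Real.tanh (h i) * (sgn (w i) - Real.tanh (h i))| ≤ ε * N
  form : ∀ w ∈ T, ∀ G a, yv (R G) w a =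
    hh a + (1 - qp ψ) * FF κ 0 (qp ψ) (hh a) + e w a + qC c (mulv G (u w)) a
  err : ∀ w ∈ T, ∑ a, e w a ^ 2 ≤ ε * N
  ovl : ∀ w ∈ T, ∀ w' ∈ T, |∑ i, u w i * u w' i - (ov w w' - qp ψ)| ≤ ε

/-- Output of part S wanted by part L (number of rows `M = ⌊α N⌋`). -/
def SOutL (κ ψ : ℝ) : Prop :=
  ∀ ε : ℝ, 0 < ε → ∃ K : ℕ, ∀ᶠ N : ℕ in atTop,
    ∃ (Ω : Type) (_ : MeasurableSpace Ω) (P : Measure Ω) (_ : IsProbabilityMeasure P)
      (h : Ω → Fin N → ℝ) (hh : Ω → Fin ⌊al κ 0 ψ * N⌋₊ → ℝ)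
      (GR : Ω × (Fin ⌊al κ 0 ψ * N⌋₊ → Fin N → ℝ) → Fin ⌊al κ 0 ψ * N⌋₊ → Fin N → ℝ),
      Measurable h ∧ Measurable hh ∧ Measurable GR ∧
      P.map h = (Measure.pi fun _ => (gaussianReal 0 1).map fun x => Real.sqrt ψ * x) ∧
      P.map hh = (Measure.pi fun _ => (gaussianReal 0 1).map fun x => Real.sqrt (qp ψ) * x) ∧
      (P.prod (GM ⌊al κ 0 ψ * N⌋₊ N)).map GR = GM ⌊al κ 0 ψ * N⌋₊ N ∧
      P.real {ω | ¬ ∃ (c : Fin K → Fin ⌊al κ 0 ψ * N⌋₊ → ℝ) (n : Fin ⌊al κ 0 ψ * N⌋₊ → ℝ)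
        (u : (Fin N → Bool) → Fin N → ℝ) (e : (Fin N → Bool) → Fin ⌊al κ 0 ψ * N⌋₊ → ℝ)
        (T : Finset (Fin N → Bool)),
        Cfg κ ψ ε (h ω) (hh ω) (fun G => GR (ω, G)) c n u e T} ≤ ε

/-- continuous functions of quadratic growth (the test functions) -/
def QG (f : ℝ → ℝ) : Prop := Continuous f ∧ ∃ C : ℝ, ∀ x, |f x| ≤ C * (1 + x ^ 2)

/-- `z(x) = (κ - x)/√(1-q)` -/
def zf (κ ψ x : ℝ) : ℝ := (κ - x) / Real.sqrt (1 - qp ψ)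

/-- `k(x) = κ - x - (1-q) F(x)` -/
def kf (κ ψ x : ℝ) : ℝ := κ - x - (1 - qp ψ) * FF κ 0 (qp ψ) x

/-- the one row functional of a pair: `(g, g')` is centred Gaussian with standard deviations
`a`, `b` and correlation `lam` -/
def Qr (s L k f a b lam : ℝ) : ℝ :=
  ∫ p : ℝ × ℝ, Real.exp (s * f * (a * p.1 + b * (lam * p.1 + Real.sqrt (1 - lam ^ 2) * p.2))
    - L * ((max 0 (k - a * p.1)) ^ 2
      + (max 0 (k - b * (lam * p.1 + Real.sqrt (1 - lam ^ 2) * p.2))) ^ 2))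
    ∂((gaussianReal 0 1).prod (gaussianReal 0 1))

/-- the one row functional of one vector -/
def Rr (L k a : ℝ) : ℝ := ∫ x, Real.exp (-(L * (max 0 (k - a * x)) ^ 2)) ∂(gaussianReal 0 1)

/-- an upper bound `B` for the constraint exponent of pairs with correlation near `lam₀`, tilt `s` -/
def RowB (κ ψ s lam₀ B : ℝ) : Prop :=
  ∀ η : ℝ, 0 < η → ∃ L : ℝ, 0 < L ∧ ∃ ρ : ℝ, 0 < ρ ∧ ∃ Φ : ℝ → ℝ, QG Φ ∧
    (∀ x a b lam : ℝ, |a - Real.sqrt (1 - qp ψ)| ≤ ρ → |b - Real.sqrt (1 - qp ψ)| ≤ ρ →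
      |lam - lam₀| ≤ ρ → |lam| ≤ 1 →
      Real.log (Qr s L (kf κ ψ x) (FF κ 0 (qp ψ) x) a b lam) ≤ Φ x) ∧
    al κ 0 ψ * GE (fun x => Φ (Real.sqrt (qp ψ) * x)) ≤ B + η

/-- the constraint exponent of the first moment -/
def C0 (κ ψ : ℝ) : ℝ :=
  (1 - qp ψ) * ψ / 2 + al κ 0 ψ * GE fun x => Real.log (Ph (zz κ ψ x))

/-- minus the exponent of the weight of a typical configuration: `s₀ = E lc - ψ (1-q)` -/
def s0 (ψ : ℝ) : ℝ := (GE fun x => lc (Real.sqrt ψ * x)) - ψ * (1 - qp ψ)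

/-- the event attached to `w`: near solution and bounded fresh part -/
def Ev (κ δ C : ℝ) {K M N : ℕ} (R : (Fin M → Fin N → ℝ) → Fin M → Fin N → ℝ)
    (c : Fin K → Fin M → ℝ) (u : (Fin N → Bool) → Fin N → ℝ) (w : Fin N → Bool) :
    Set (Fin M → Fin N → ℝ) :=
  {G | Near κ δ (R G) w ∧ nsq (qC c (mulv G (u w))) ≤ C * N}

end

end Pool.Agent.IP49
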