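import Pool.Agent.IP49.SClk

/-!
IP49, part S2 (owner helper95): the good event has probability tending to one; laws of `hv`, `hhv`.
-/

set_option autoImplicit false
open MeasureTheory ProbabilityTheory Filter Topology
open scoped ENNReal

namespace Pool.Agent.IP49.SR

noncomputable section

/-! ### identification of the site and row functions -/

lemma siteH_castSucc {M N K : ℕ} (ω : Om M N K) (i : Fin N) (u : Fin K) :
    siteH ω i u.castSucc = ω.1.1 u i := by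
  unfold siteH; rw [Fin.snoc_castSucc]

lemma siteH_last {M N K : ℕ} (ω : Om M N K) (i : Fin N) :
    siteH ω i (Fin.last K) = ω.2.1 i := by
  unfold siteH; rw [Fin.snoc_last]

lemma rowH_castSucc {M N K : ℕ} (ω : Om M N K) (a : Fin M) (u : Fin K) :
    rowH ω a u.castSucc = ω.1.2 u a := by
  unfold rowH; rw [Fin.snoc_castSucc]

lemma rowH_last {M N K : ℕ} (ω : Om M N K) (a : Fin M) :
    rowH ω a (Fin.last K) = ω.2.2 a := by
  unfold rowH; rw [Fin.snoc_last]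

/-- `bm` in terms of `av` -/
lemma bm_eq {ι : Type*} {K : ℕ} (w : ℕ → ℝ) (f : Fin K → ι → ℝ) (z : ι → ℝ) {s : ℕ} (hs : s ≤ K)
    (i : ι) : bm w (ext f) s i
      = dot (av (wx w K) K s) (Fin.snoc (fun t => f t i) (z i) : Fin (K + 1) → ℝ) := by
  unfold bm dot
  rw [Fin.sum_univ_castSucc]
  have hlast : av (wx w K) K s (Fin.last K) = 0 := by
    unfold av; rw [if_neg]; simp; omega
  rw [hlast, zero_mul, add_zero]
  have h1 : ∀ u : Fin K, av (wx w K) K s u.castSucc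
      * (Fin.snoc (fun t => f t i) (z i) : Fin (K + 1) → ℝ) u.castSucc
      = (fun u : ℕ => if u < s then dq w u * ext f u i else 0) u := by
    intro u
    rw [Fin.snoc_castSucc]
    unfold av wx dq ext
    simp only [Fin.val_castSucc]
    by_cases h : (u : ℕ) < s
    · rw [if_pos h, if_pos h, if_pos (by omega), if_pos (by omega), dif_pos u.2]
    · rw [if_neg h, if_neg h, zero_mul]
  rw [Finset.sum_congr rfl fun u _ => h1 u,
    ← Finset.sum_range (fun u : ℕ => if u < s then dq w u * ext f u i else 0)]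
  rw [Finset.sum_congr rfl (g := fun u => if u < s then dq w u * ext f u i else 0)
      (fun u hu => by rw [if_pos (Finset.mem_range.1 hu)])]
  refine Finset.sum_subset (Finset.range_mono hs) fun u _ hu => ?_
  rw [if_neg (fun h => hu (Finset.mem_range.2 h))]

lemma bm_last_eq {ι : Type*} {K : ℕ} (w : ℕ → ℝ) (f : Fin K → ι → ℝ) (z : ι → ℝ) (i : ι) :
    bm w (ext f) K i + √(1 - w K) * z i
      = dot (av (wx w K) K (K + 1)) (Fin.snoc (fun t => f t i) (z i) : Fin (K + 1) → ℝ) := by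
  rw [bm_eq w f z le_rfl i]
  unfold dot
  rw [Fin.sum_univ_castSucc, Fin.sum_univ_castSucc]
  have h0 : av (wx w K) K K (Fin.last K) = 0 := by
    unfold av; rw [if_neg]; simp
  have h1 : av (wx w K) K (K + 1) (Fin.last K) = √(1 - w K) := by
    unfold av wx; simp
  rw [h0, h1, zero_mul, add_zero, Fin.snoc_last]
  congr 1
  refine Finset.sum_congr rfl fun u _ => ?_
  have : av (wx w K) K K u.castSucc = av (wx w K) K (K + 1) u.castSucc := by
    unfold av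
    simp only [Fin.val_castSucc]
    rw [if_pos u.2, if_pos (by omega)]
  rw [this]

variable {κ ν ψ : ℝ}

/-- clocks -/
abbrev cS (κ ν ψ : ℝ) (K : ℕ) : ℕ → ℝ := wx (mu κ ν ψ) K
abbrev cR (κ ν ψ : ℝ) (K : ℕ) : ℕ → ℝ := wx (rho κ ν ψ) K

lemma wx_mono {w : ℕ → ℝ} (hw : ∀ s, w s < w (s + 1)) (h1 : ∀ s, w s < 1) (K : ℕ) :
    Monotone (wx w K) := by
  apply monotone_nat_of_le_succ
  intro s
  unfold wx
  split_ifs with a b b
  · exact (hw s).le
  · exact (h1 s).le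
  · omega
  · exact le_rfl

lemma wx_zero {w : ℕ → ℝ} (h0 : w 0 = 0) (K : ℕ) : wx w K 0 = 0 := by
  unfold wx; rw [if_pos (Nat.zero_le _), h0]

lemma wx_last (w : ℕ → ℝ) (K : ℕ) : wx w K (K + 1) = 1 := by
  unfold wx; rw [if_neg (by omega)]

lemma wx_of_le {w : ℕ → ℝ} {K s : ℕ} (h : s ≤ K) : wx w K s = w s := by
  unfold wx; rw [if_pos h]

lemma cS_mono (hν : 0 ≤ ν) (hψ : 0 < ψ) (K : ℕ) : Monotone (cS κ ν ψ K) :=
  wx_mono (mu_lt_succ hν hψ) (mu_lt_one hν hψ) K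

lemma cR_mono (hν : 0 ≤ ν) (hψ : 0 < ψ) (K : ℕ) : Monotone (cR κ ν ψ K) :=
  wx_mono (rho_lt_succ hν hψ) (rho_lt_one hν hψ) K

lemma cS_zero (K : ℕ) : cS κ ν ψ K 0 = 0 := wx_zero (mu_zero κ ν ψ) K
lemma cR_zero (K : ℕ) : cR κ ν ψ K 0 = 0 := wx_zero (rho_zero κ ν ψ) K

/-- site martingale -/
abbrev US (κ ν ψ : ℝ) (K s : ℕ) : (Fin (K + 1) → ℝ) → ℝ := UU (fS ψ) (cS κ ν ψ K) K s
/-- row martingale -/
abbrev UR (κ ν ψ : ℝ) (K s : ℕ) : (Fin (K + 1) → ℝ) → ℝ := UU (fR κ ν ψ) (cR κ ν ψ K) K s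

lemma mv_eq {M N K : ℕ} (ω : Om M N K) {s : ℕ} (hs : s ≤ K) (i : Fin N) :
    mv κ ν ψ (ext ω.1.1) s i = US κ ν ψ K s (siteH ω i) := by
  unfold mv
  rw [ft_tanh, bm_eq (mu κ ν ψ) ω.1.1 ω.2.1 hs i]
  unfold US UU
  rw [cS, wx_of_le hs]
  rfl

lemma tanh_hv_eq {M N K : ℕ} (ω : Om M N K) (i : Fin N) :
    Real.tanh (hv κ ν ψ ω i) = US κ ν ψ K (K + 1) (siteH ω i) := by
  unfold hv
  rw [bm_last_eq (mu κ ν ψ) ω.1.1 ω.2.1 i]
  unfold US UU
  rw [cS, wx_last, sm_one]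
  rfl

lemma nv_eq {M N K : ℕ} (ω : Om M N K) {s : ℕ} (hs : s ≤ K) (a : Fin M) :
    nv κ ν ψ (ext ω.1.2) (s + 1) a = UR κ ν ψ K s (rowH ω a) := by
  change ft (FF κ ν (qp ψ)) (qp ψ) (rho κ ν ψ s) (bm (rho κ ν ψ) (ext ω.1.2) s a) = _
  rw [ft_FF, bm_eq (rho κ ν ψ) ω.1.2 ω.2.2 hs a]
  unfold UR UU
  rw [cR, wx_of_le hs]
  rfl

lemma FF_hhv_eq {M N K : ℕ} (ω : Om M N K) (a : Fin M) :
    FF κ ν (qp ψ) (hhv κ ν ψ ω a) = UR κ ν ψ K (K + 1) (rowH ω a) := by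
  unfold hhv
  rw [bm_last_eq (rho κ ν ψ) ω.1.2 ω.2.2 a]
  unfold UR UU
  rw [cR, wx_last, sm_one]
  rfl

/-- normalised site increment -/
def mhf (κ ν ψ : ℝ) (K s : ℕ) (x : Fin (K + 1) → ℝ) : ℝ :=
  (US κ ν ψ K (s + 1) x - US κ ν ψ K s x) / as κ ν ψ s

/-- normalised row increment -/
def nhf (κ ν ψ : ℝ) (K s : ℕ) (x : Fin (K + 1) → ℝ) : ℝ :=
  (if s = 0 then UR κ ν ψ K 0 x else UR κ ν ψ K s x - UR κ ν ψ K (s - 1) x)
    / (bs κ ν ψ s / √(al κ ν ψ))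

lemma mh_eq {M N K : ℕ} (ω : Om M N K) {s : ℕ} (hs : s < K) (i : Fin N) :
    mh κ ν ψ (ext ω.1.1) s i = mhf κ ν ψ K s (siteH ω i) := by
  unfold mh mhf
  rw [mv_eq ω (by omega), mv_eq ω (by omega)]

lemma nh_eq {M N K : ℕ} (ω : Om M N K) {s : ℕ} (hs : s < K) (a : Fin M) :
    nh κ ν ψ (ext ω.1.2) s a = nhf κ ν ψ K s (rowH ω a) := by
  unfold nh nhf
  rcases s with _ | s
  · rw [nv_eq ω (by omega)]
    simp [nv]
  · rw [nv_eq ω (by omega), nv_eq ω (by omega), if_neg (Nat.succ_ne_zero s)]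
    rfl

/-! ### laws -/

theorem measurable_hv (κ ν ψ : ℝ) (M N K : ℕ) : Measurable (hv κ ν ψ : Om M N K → Fin N → ℝ) := by
  have : (hv κ ν ψ : Om M N K → Fin N → ℝ)
      = fun ω i => √ψ * dot (av (wx (mu κ ν ψ) K) K (K + 1)) (siteH ω i) := by
    funext ω i
    unfold hv
    rw [bm_last_eq (mu κ ν ψ) ω.1.1 ω.2.1 i]
    rfl
  rw [this]
  refine measurable_pi_lambda _ fun i => ?_
  have h1 : Measurable fun ω : Om M N K => siteH ω i :=
    (measurable_pi_apply i).comp (site_law M N K).measurable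
  exact ((meas_dot _).comp h1).const_mul _

theorem measurable_hhv (κ ν ψ : ℝ) (M N K : ℕ) :
    Measurable (hhv κ ν ψ : Om M N K → Fin M → ℝ) := by
  have : (hhv κ ν ψ : Om M N K → Fin M → ℝ)
      = fun ω a => √(qp ψ) * dot (av (wx (rho κ ν ψ) K) K (K + 1)) (rowH ω a) := by
    funext ω i
    unfold hhv
    rw [bm_last_eq (rho κ ν ψ) ω.1.2 ω.2.2 i]
    rfl
  rw [this]
  refine measurable_pi_lambda _ fun i => ?_
  have h1 : Measurable fun ω : Om M N K => rowH ω i :=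
    (measurable_pi_apply i).comp (rowH_law M N K).measurable
  exact ((meas_dot _).comp h1).const_mul _

/-- image of `gv` under a multiple of a unit linear form -/
lemma map_smul_dot {K : ℕ} {a : Fin (K + 1) → ℝ} (ha : dot a a = 1) (v : ℝ) :
    (gv (Fin (K + 1))).map (fun x => v * dot a x) = (gaussianReal 0 1).map fun x => v * x := by
  have h1 : (fun x : Fin (K + 1) → ℝ => v * dot a x) = (fun y => v * y) ∘ fun x => dot a x := rfl
  rw [h1, ← Measure.map_map (by fun_prop) (meas_dot a), map_dot, nrm, ha, Real.sqrt_one]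
  simp only [one_mul, Measure.map_id']

theorem hv_law (hν : 0 ≤ ν) (hψ : 0 < ψ) (M N K : ℕ) :
    (omLaw M N K).map (hv κ ν ψ)
      = Measure.pi fun _ => (gaussianReal 0 1).map fun x => Real.sqrt ψ * x := by
  have e : (hv κ ν ψ : Om M N K → Fin N → ℝ)
      = (fun (X : Fin N → Fin (K + 1) → ℝ) i => √ψ * dot (av (cS κ ν ψ K) K (K + 1)) (X i))
        ∘ siteH := by
    funext ω i
    unfold hv
    rw [bm_last_eq (mu κ ν ψ) ω.1.1 ω.2.1 i]
    rfl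
  have hm : Measurable fun x : Fin (K + 1) → ℝ => √ψ * dot (av (cS κ ν ψ K) K (K + 1)) x :=
    (meas_dot _).const_mul _
  have hm2 : Measurable (fun (X : Fin N → Fin (K + 1) → ℝ) i =>
      √ψ * dot (av (cS κ ν ψ K) K (K + 1)) (X i)) :=
    measurable_pi_lambda _ fun i => hm.comp (measurable_pi_apply i)
  rw [e, ← Measure.map_map hm2 (site_law M N K).measurable, (site_law M N K).map_eq]
  rw [Measure.pi_map_pi (fun _ => hm.aemeasurable)]
  congr 1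
  funext i
  apply map_smul_dot
  rw [dot_av (cS_mono hν hψ K) (cS_zero K) le_rfl le_rfl, cS, wx_last]

theorem hhv_law (hν : 0 ≤ ν) (hψ : 0 < ψ) (M N K : ℕ) :
    (omLaw M N K).map (hhv κ ν ψ)
      = Measure.pi fun _ => (gaussianReal 0 1).map fun x => Real.sqrt (qp ψ) * x := by
  have e : (hhv κ ν ψ : Om M N K → Fin M → ℝ)
      = (fun (X : Fin M → Fin (K + 1) → ℝ) i => √(qp ψ) * dot (av (cR κ ν ψ K) K (K + 1)) (X i))
        ∘ rowH := by
    funext ω i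
    unfold hhv
    rw [bm_last_eq (rho κ ν ψ) ω.1.2 ω.2.2 i]
    rfl
  have hm : Measurable fun x : Fin (K + 1) → ℝ => √(qp ψ) * dot (av (cR κ ν ψ K) K (K + 1)) x :=
    (meas_dot _).const_mul _
  have hm2 : Measurable (fun (X : Fin M → Fin (K + 1) → ℝ) i =>
      √(qp ψ) * dot (av (cR κ ν ψ K) K (K + 1)) (X i)) :=
    measurable_pi_lambda _ fun i => hm.comp (measurable_pi_apply i)
  rw [e, ← Measure.map_map hm2 (rowH_law M N K).measurable, (rowH_law M N K).map_eq]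
  rw [Measure.pi_map_pi (fun _ => hm.aemeasurable)]
  congr 1
  funext i
  apply map_smul_dot
  rw [dot_av (cR_mono hν hψ K) (cR_zero K) le_rfl le_rfl, cR, wx_last]

/-! ### events with probability tending to one -/

/-- the event `E N` on the history space has probability tending to one -/
def Wp (κ ν ψ : ℝ) (K : ℕ) (E : (N : ℕ) → Om ⌊al κ ν ψ * N⌋₊ N K → Prop) : Prop :=
  Tendsto (fun N : ℕ => (omLaw ⌊al κ ν ψ * N⌋₊ N K).real {ω | ¬ E N ω}) atTop (𝓝 0)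

lemma Wp.mono {K : ℕ} {E F : (N : ℕ) → Om ⌊al κ ν ψ * N⌋₊ N K → Prop} (h : Wp κ ν ψ K E)
    (hEF : ∀ᶠ N in atTop, ∀ ω, E N ω → F N ω) : Wp κ ν ψ K F := by
  refine squeeze_zero' (Eventually.of_forall fun N => measureReal_nonneg) ?_ h
  filter_upwards [hEF] with N hN
  exact measureReal_mono (fun ω hω hE => hω (hN ω hE)) (measure_ne_top _ _)

lemma Wp.and {K : ℕ} {E F : (N : ℕ) → Om ⌊al κ ν ψ * N⌋₊ N K → Prop} (h : Wp κ ν ψ K E)
    (h' : Wp κ ν ψ K F) : Wp κ ν ψ K (fun N ω => E N ω ∧ F N ω) := by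
  have h2 := Tendsto.add h h'
  rw [add_zero] at h2
  refine squeeze_zero (fun N => measureReal_nonneg) (fun N => ?_) h2
  refine le_trans (measureReal_mono (s₂ := {ω | ¬ E N ω} ∪ {ω | ¬ F N ω}) ?_ (measure_ne_top _ _))
    (measureReal_union_le _ _)
  intro ω hω
  by_cases h : E N ω
  · exact Or.inr fun h' => hω ⟨h, h'⟩
  · exact Or.inl h

lemma Wp.true (K : ℕ) : Wp κ ν ψ K (fun _ _ => True) := by
  unfold Wp
  simp

lemma Wp.forall_lt {K : ℕ} {E : ℕ → (N : ℕ) → Om ⌊al κ ν ψ * N⌋₊ N K → Prop} (n : ℕ)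
    (h : ∀ s < n, Wp κ ν ψ K (E s)) : Wp κ ν ψ K (fun N ω => ∀ s < n, E s N ω) := by
  induction n with
  | zero => exact (Wp.true K).mono (Eventually.of_forall fun N ω _ s hs => absurd hs (by omega))
  | succ n ih =>
    have h1 := ih fun s hs => h s (by omega)
    refine (h1.and (h n (by omega))).mono (Eventually.of_forall fun N ω hω s hs => ?_)
    rcases Nat.lt_succ_iff_lt_or_eq.1 hs with hs' | rfl
    · exact hω.1 s hs'
    · exact hω.2

/-- law of large numbers over the sites -/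
lemma Wp.site {K : ℕ} {f g : (Fin (K + 1) → ℝ) → ℝ} (hf : LipV f) (hg : LipV g) {v : ℝ}
    (hv : ∫ x, f x * g x ∂(gv (Fin (K + 1))) = v) {δ : ℝ} (hδ : 0 < δ) :
    Wp κ ν ψ K (fun N ω => |(∑ i, f (siteH ω i) * g (siteH ω i)) / N - v| ≤ δ) := by
  have hm : Measurable fun x => f x * g x := hf.continuous.measurable.mul hg.continuous.measurable
  have h := lln_tendsto (gv (Fin (K + 1))) hm (hf.memLp_mul hg) hδ (n := fun N => N) tendsto_id
  rw [hv] at h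
  refine h.congr fun N => ?_
  have hms : MeasurableSet {x : Fin N → Fin (K + 1) → ℝ |
      ¬ |(∑ i, f (x i) * g (x i)) / N - v| ≤ δ} := by
    apply MeasurableSet.compl
    have h3 : Measurable fun x : Fin N → Fin (K + 1) → ℝ => ∑ i, f (x i) * g (x i) :=
      Finset.measurable_sum _ fun i _ => hm.comp (measurable_pi_apply i)
    exact measurableSet_le ((h3.div_const _).sub measurable_const).abs measurable_const
  have := (site_law ⌊al κ ν ψ * N⌋₊ N K).measure_preimage hms.nullMeasurableSet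
  unfold Measure.real
  rw [← this]
  rfl

lemma tendsto_rows (ha : 0 < al κ ν ψ) :
    Tendsto (fun N : ℕ => ⌊al κ ν ψ * N⌋₊) atTop atTop :=
  tendsto_nat_floor_atTop.comp (tendsto_natCast_atTop_atTop.const_mul_atTop ha)

/-- law of large numbers over the rows -/
lemma Wp.row (ha : 0 < al κ ν ψ) {K : ℕ} {f g : (Fin (K + 1) → ℝ) → ℝ} (hf : LipV f)
    (hg : LipV g) {v : ℝ} (hv : ∫ x, f x * g x ∂(gv (Fin (K + 1))) = v) {δ : ℝ} (hδ : 0 < δ) :
    Wp κ ν ψ K (fun N ω => |(∑ a, f (rowH ω a) * g (rowH ω a)) / ⌊al κ ν ψ * N⌋₊ - v| ≤ δ) := by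
  have hm : Measurable fun x => f x * g x := hf.continuous.measurable.mul hg.continuous.measurable
  have h := lln_tendsto (gv (Fin (K + 1))) hm (hf.memLp_mul hg) hδ (tendsto_rows ha)
  rw [hv] at h
  refine h.congr fun N => ?_
  have hms : MeasurableSet {x : Fin ⌊al κ ν ψ * N⌋₊ → Fin (K + 1) → ℝ |
      ¬ |(∑ i, f (x i) * g (x i)) / ⌊al κ ν ψ * N⌋₊ - v| ≤ δ} := by
    apply MeasurableSet.compl
    have h3 : Measurable fun x : Fin ⌊al κ ν ψ * N⌋₊ → Fin (K + 1) → ℝ =>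
        ∑ i, f (x i) * g (x i) :=
      Finset.measurable_sum _ fun i _ => hm.comp (measurable_pi_apply i)
    exact measurableSet_le ((h3.div_const _).sub measurable_const).abs measurable_const
  have := (rowH_law ⌊al κ ν ψ * N⌋₊ N K).measure_preimage hms.nullMeasurableSet
  unfold Measure.real
  rw [← this]
  rfl

/-! ### the expectations -/

lemma E_dotdot {ι : Type*} [Fintype ι] (a b : ι → ℝ) :
    ∫ x, dot a x * dot b x ∂(gv ι) = dot a b := by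
  have h2 := covariance_eq_sub (μ := gv ι) (memLp_dot a (p := 2) (by simp))
    (memLp_dot b (p := 2) (by simp))
  rw [cov_dot, mean_dot, zero_mul, sub_zero] at h2
  rw [h2]; rfl

lemma as_pos (hν : 0 ≤ ν) (hψ : 0 < ψ) (s : ℕ) : 0 < as κ ν ψ s :=
  mul_pos (Real.sqrt_pos.2 (qp_pos hψ)) (Real.sqrt_pos.2 (sub_pos.2 (rho_lt_succ hν hψ s)))

lemma bs_pos (hν : 0 ≤ ν) (hψ : 0 < ψ) (s : ℕ) : 0 < bs κ ν ψ s :=
  mul_pos (Real.sqrt_pos.2 hψ) (Real.sqrt_pos.2 (sub_pos.2 (mu_lt_succ hν hψ s)))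

lemma as_sq (hν : 0 ≤ ν) (hψ : 0 < ψ) (s : ℕ) :
    as κ ν ψ s ^ 2 = qp ψ * (rho κ ν ψ (s + 1) - rho κ ν ψ s) := by
  unfold as dq
  rw [mul_pow, Real.sq_sqrt (qp_pos hψ).le, Real.sq_sqrt (sub_pos.2 (rho_lt_succ hν hψ s)).le]

lemma bs_sq (hν : 0 ≤ ν) (hψ : 0 < ψ) (s : ℕ) :
    bs κ ν ψ s ^ 2 = ψ * (mu κ ν ψ (s + 1) - mu κ ν ψ s) := by
  unfold bs dq
  rw [mul_pow, Real.sq_sqrt hψ.le, Real.sq_sqrt (sub_pos.2 (mu_lt_succ hν hψ s)).le]

/-- `β_s = b_s / √α` -/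
lemma be_pos (hν : 0 ≤ ν) (hψ : 0 < ψ) (s : ℕ) : 0 < bs κ ν ψ s / √(al κ ν ψ) :=
  div_pos (bs_pos hν hψ s) (Real.sqrt_pos.2 (al_pos hν hψ))

lemma be_sq (hν : 0 ≤ ν) (hψ : 0 < ψ) (s : ℕ) :
    (bs κ ν ψ s / √(al κ ν ψ)) ^ 2
      = ψ / al κ ν ψ * mu κ ν ψ (s + 1) - ψ / al κ ν ψ * mu κ ν ψ s := by
  rw [div_pow, bs_sq hν hψ, Real.sq_sqrt (al_pos hν hψ).le]; ring

lemma CC_cS_diff (hν : 0 ≤ ν) (hψ : 0 < ψ) {K s : ℕ} (hs : s < K) :
    CC (fS ψ) (cS κ ν ψ K (s + 1)) - CC (fS ψ) (cS κ ν ψ K s) = as κ ν ψ s ^ 2 := by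
  rw [cS, wx_of_le (by omega), wx_of_le (by omega), CC_mu hψ, CC_mu hψ, as_sq hν hψ]; ring

lemma CC_cR_zero (hν : 0 ≤ ν) (hψ : 0 < ψ) (K : ℕ) :
    CC (fR κ ν ψ) (cR κ ν ψ K 0) = (bs κ ν ψ 0 / √(al κ ν ψ)) ^ 2 := by
  rw [cR, wx_of_le (Nat.zero_le _), CC_rho hν hψ, be_sq hν hψ, mu_zero]; ring

lemma CC_cR_diff (hν : 0 ≤ ν) (hψ : 0 < ψ) {K s : ℕ} (hs : s + 1 ≤ K) :
    CC (fR κ ν ψ) (cR κ ν ψ K (s + 1)) - CC (fR κ ν ψ) (cR κ ν ψ K s)
      = (bs κ ν ψ (s + 1) / √(al κ ν ψ)) ^ 2 := by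
  rw [cR, wx_of_le (by omega), wx_of_le (by omega), CC_rho hν hψ, CC_rho hν hψ, be_sq hν hψ]

lemma mhf_lip (K s : ℕ) : LipV (mhf κ ν ψ K s) :=
  ((LipV.UU (fS_lip ψ) _ _).sub (LipV.UU (fS_lip ψ) _ _)).div _

lemma nhf_lip (hν : 0 ≤ ν) (K s : ℕ) : LipV (nhf κ ν ψ K s) := by
  unfold nhf
  apply LipV.div
  by_cases h : s = 0
  · simp only [if_pos h]; exact LipV.UU (fR_lip hν) _ _
  · simp only [if_neg h]; exact (LipV.UU (fR_lip hν) _ _).sub (LipV.UU (fR_lip hν) _ _)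

lemma cS_last (K : ℕ) : cS κ ν ψ K (K + 1) = 1 := wx_last _ K
lemma cR_last (K : ℕ) : cR κ ν ψ K (K + 1) = 1 := wx_last _ K

lemma E_mm (hν : 0 ≤ ν) (hψ : 0 < ψ) {K s t : ℕ} (hs : s < K) (ht : t < K) :
    ∫ x, mhf κ ν ψ K s x * mhf κ ν ψ K t x ∂(gv (Fin (K + 1))) = if s = t then 1 else 0 := by
  have h1 : ∀ x, mhf κ ν ψ K s x * mhf κ ν ψ K t x
      = (US κ ν ψ K (s + 1) x - US κ ν ψ K s x) * (US κ ν ψ K (t + 1) x - US κ ν ψ K t x)
        / (as κ ν ψ s * as κ ν ψ t) := fun x => by unfold mhf; rw [div_mul_div_comm]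
  simp_rw [h1]
  rw [integral_div, E_DD (fS_lip ψ) (cS_mono hν hψ K) (cS_zero K) (cS_last K).le hs.le ht.le]
  split_ifs with e
  · subst e
    rw [CC_cS_diff hν hψ hs, sq, div_self]
    exact mul_ne_zero (as_pos hν hψ s).ne' (as_pos hν hψ s).ne'
  · rw [zero_div]

lemma E_em (hν : 0 ≤ ν) (hψ : 0 < ψ) {K t : ℕ} (s : Fin (K + 1)) (ht : t < K)
    (hst : t < (s : ℕ)) :
    ∫ x, x s * mhf κ ν ψ K t x ∂(gv (Fin (K + 1))) = 0 := by
  have h1 : ∀ x : Fin (K + 1) → ℝ, x s * mhf κ ν ψ K t x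
      = x s * (US κ ν ψ K (t + 1) x - US κ ν ψ K t x) / as κ ν ψ t :=
    fun x => by unfold mhf; rw [mul_div_assoc]
  simp_rw [h1]
  rw [integral_div, E_xD (fS_lip ψ) (cS_mono hν hψ K) (cS_zero K) (cS_last K).le ht.le,
    if_neg (by omega), zero_div]

lemma E_eh (hν : 0 ≤ ν) (hψ : 0 < ψ) {K : ℕ} {s : ℕ} (hs : s < K) :
    ∫ x, x (Fin.castSucc ⟨s, hs⟩) * US κ ν ψ K (K + 1) x ∂(gv (Fin (K + 1)))
      = bs κ ν ψ s * (1 - qp ψ) := by
  rw [E_xU (fS_lip ψ) (cS_mono hν hψ K) (cS_zero K) (cS_last K).le le_rfl, if_pos (by simp; omega),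
    DD_fS hψ]
  simp only [Fin.val_castSucc]
  rw [cS, wx_of_le (by omega), wx_of_le (by omega)]
  unfold bs dq; ring

lemma E_mht (hν : 0 ≤ ν) (hψ : 0 < ψ) {K s : ℕ} (hs : s < K) :
    ∫ x, mhf κ ν ψ K s x * US κ ν ψ K (K + 1) x ∂(gv (Fin (K + 1))) = as κ ν ψ s := by
  have h1 : ∀ x, mhf κ ν ψ K s x * US κ ν ψ K (K + 1) x
      = (US κ ν ψ K (s + 1) x - US κ ν ψ K s x) * US κ ν ψ K (K + 1) x
        / as κ ν ψ s := fun x => by unfold mhf; rw [div_mul_eq_mul_div]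
  simp_rw [h1]
  rw [integral_div, E_DU (fS_lip ψ) (cS_mono hν hψ K) (cS_zero K) (cS_last K).le (by omega) le_rfl,
    CC_cS_diff hν hψ hs, sq, mul_div_assoc, div_self (as_pos hν hψ s).ne', mul_one]

lemma E_nn (hν : 0 ≤ ν) (hψ : 0 < ψ) {K s t : ℕ} (hs : s < K) (ht : t < K) :
    ∫ x, nhf κ ν ψ K s x * nhf κ ν ψ K t x ∂(gv (Fin (K + 1))) = if s = t then 1 else 0 := by
  have hm := cR_mono (κ := κ) hν hψ K
  have h0 := cR_zero (κ := κ) (ν := ν) (ψ := ψ) K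
  have hl := (cR_last (κ := κ) (ν := ν) (ψ := ψ) K).le
  have hL := fR_lip (κ := κ) (ψ := ψ) hν
  have hU : ∀ s, LipV (UR κ ν ψ K s) := fun s => LipV.UU hL _ s
  have h1 : ∀ x, nhf κ ν ψ K s x * nhf κ ν ψ K t x
      = (if s = 0 then UR κ ν ψ K 0 x else UR κ ν ψ K s x - UR κ ν ψ K (s - 1) x)
        * (if t = 0 then UR κ ν ψ K 0 x else UR κ ν ψ K t x - UR κ ν ψ K (t - 1) x)
        / (bs κ ν ψ s / √(al κ ν ψ) * (bs κ ν ψ t / √(al κ ν ψ))) :=
    fun x => by unfold nhf; rw [div_mul_div_comm]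
  simp_rw [h1]
  rw [integral_div]
  have hdd : ∀ t, t + 1 ≤ K → ∫ x, UR κ ν ψ K 0 x * (UR κ ν ψ K (t + 1) x - UR κ ν ψ K t x)
      ∂(gv (Fin (K + 1))) = 0 := by
    intro t ht
    simp_rw [mul_sub]
    rw [integral_sub ((hU _).integrable_mul (hU _)) ((hU _).integrable_mul (hU _)),
      E_UU hL hm h0 hl (Nat.zero_le _) (by omega), E_UU hL hm h0 hl (Nat.zero_le _) (by omega),
      sub_self]
  rcases s with _ | s
  · rcases t with _ | t
    · simp only [if_true]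
      rw [E_UU hL hm h0 hl le_rfl (by omega), CC_cR_zero hν hψ, sq, div_self]
      exact mul_ne_zero (be_pos hν hψ 0).ne' (be_pos hν hψ 0).ne'
    · simp only [if_true, Nat.succ_ne_zero, if_false, Nat.add_sub_cancel]
      rw [hdd t (by omega), zero_div, if_neg (by omega)]
  · rcases t with _ | t
    · simp only [if_true, Nat.succ_ne_zero, if_false, Nat.add_sub_cancel]
      have h2 : ∀ x, (UR κ ν ψ K (s + 1) x - UR κ ν ψ K s x) * UR κ ν ψ K 0 x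
          = UR κ ν ψ K 0 x * (UR κ ν ψ K (s + 1) x - UR κ ν ψ K s x) := fun x => mul_comm _ _
      simp_rw [h2]
      rw [hdd s (by omega), zero_div]
    · simp only [Nat.succ_ne_zero, if_false, Nat.add_sub_cancel]
      rw [E_DD hL hm h0 hl (by omega) (by omega)]
      by_cases e : s = t
      · subst e
        rw [if_pos rfl, if_pos rfl, CC_cR_diff hν hψ (by omega), sq, div_self]
        exact mul_ne_zero (be_pos hν hψ _).ne' (be_pos hν hψ _).ne'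
      · rw [if_neg e, if_neg (by omega), zero_div]

lemma E_xn (hν : 0 ≤ ν) (hψ : 0 < ψ) {K t : ℕ} (s : Fin (K + 1)) (ht : t < K)
    (hst : t ≤ (s : ℕ)) :
    ∫ x, x s * nhf κ ν ψ K t x ∂(gv (Fin (K + 1))) = 0 := by
  have hm := cR_mono (κ := κ) hν hψ K
  have h0 := cR_zero (κ := κ) (ν := ν) (ψ := ψ) K
  have hl := (cR_last (κ := κ) (ν := ν) (ψ := ψ) K).le
  have hL := fR_lip (κ := κ) (ψ := ψ) hν
  have h1 : ∀ x : Fin (K + 1) → ℝ, x s * nhf κ ν ψ K t x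
      = x s * (if t = 0 then UR κ ν ψ K 0 x else UR κ ν ψ K t x - UR κ ν ψ K (t - 1) x)
        / (bs κ ν ψ t / √(al κ ν ψ)) :=
    fun x => by unfold nhf; rw [mul_div_assoc]
  simp_rw [h1]
  rw [integral_div]
  rcases t with _ | t
  · simp only [if_true]
    rw [E_xU hL hm h0 hl (Nat.zero_le _), if_neg (by omega), zero_mul, zero_div]
  · simp only [Nat.succ_ne_zero, if_false, Nat.add_sub_cancel]
    rw [E_xD hL hm h0 hl (by omega), if_neg (by omega), zero_div]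

lemma E_xF (hν : 0 ≤ ν) (hψ : 0 < ψ) {K : ℕ} {s : ℕ} (hs : s < K) :
    ∫ x, x (Fin.castSucc ⟨s, hs⟩) * UR κ ν ψ K (K + 1) x ∂(gv (Fin (K + 1)))
      = as κ ν ψ s * dd κ ν ψ / al κ ν ψ := by
  rw [E_xU (fR_lip hν) (cR_mono hν hψ K) (cR_zero K) (cR_last K).le le_rfl,
    if_pos (by simp; omega), DD_fR hν hψ]
  simp only [Fin.val_castSucc]
  rw [cR, wx_of_le (by omega), wx_of_le (by omega)]
  unfold as dq; ring

lemma E_nF (hν : 0 ≤ ν) (hψ : 0 < ψ) {K s : ℕ} (hs : s < K) :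
    ∫ x, nhf κ ν ψ K s x * UR κ ν ψ K (K + 1) x ∂(gv (Fin (K + 1)))
      = bs κ ν ψ s / √(al κ ν ψ) := by
  have hm := cR_mono (κ := κ) hν hψ K
  have h0 := cR_zero (κ := κ) (ν := ν) (ψ := ψ) K
  have hl := (cR_last (κ := κ) (ν := ν) (ψ := ψ) K).le
  have hL := fR_lip (κ := κ) (ψ := ψ) hν
  have h1 : ∀ x, nhf κ ν ψ K s x * UR κ ν ψ K (K + 1) x
      = (if s = 0 then UR κ ν ψ K 0 x else UR κ ν ψ K s x - UR κ ν ψ K (s - 1) x)
        * UR κ ν ψ K (K + 1) x / (bs κ ν ψ s / √(al κ ν ψ)) :=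
    fun x => by unfold nhf; rw [div_mul_eq_mul_div]
  simp_rw [h1]
  rw [integral_div]
  rcases s with _ | s
  · simp only [if_true]
    rw [E_UU hL hm h0 hl (Nat.zero_le _) le_rfl, CC_cR_zero hν hψ, sq, mul_div_assoc,
      div_self (be_pos hν hψ 0).ne', mul_one]
  · simp only [Nat.succ_ne_zero, if_false, Nat.add_sub_cancel]
    rw [E_DU hL hm h0 hl (by omega) le_rfl, CC_cR_diff hν hψ (by omega), sq, mul_div_assoc,
      div_self (be_pos hν hψ _).ne', mul_one]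

lemma E_tt (hν : 0 ≤ ν) (hψ : 0 < ψ) (K : ℕ) :
    ∫ x, US κ ν ψ K (K + 1) x * US κ ν ψ K (K + 1) x ∂(gv (Fin (K + 1))) = qp ψ := by
  rw [E_UU (fS_lip ψ) (cS_mono hν hψ K) (cS_zero K) (cS_last K).le le_rfl le_rfl, cS_last,
    CC_fS_one]

lemma E_FF (hν : 0 ≤ ν) (hψ : 0 < ψ) (K : ℕ) :
    ∫ x, UR κ ν ψ K (K + 1) x * UR κ ν ψ K (K + 1) x ∂(gv (Fin (K + 1))) = ψ / al κ ν ψ := by
  rw [E_UU (fR_lip hν) (cR_mono hν hψ K) (cR_zero K) (cR_last K).le le_rfl le_rfl, cR_last,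
    CC_fR_one hν hψ]

/-! ### the theorem -/

lemma rows_ratio (ha : 0 < al κ ν ψ) :
    Tendsto (fun N : ℕ => (⌊al κ ν ψ * N⌋₊ : ℝ) / N) atTop (𝓝 (al κ ν ψ)) :=
  (tendsto_nat_floor_mul_div_atTop (R := ℝ) ha.le).comp tendsto_natCast_atTop_atTop

lemma ext_apply {K : ℕ} {ι : Type*} (f : Fin K → ι → ℝ) {s : ℕ} (hs : s < K) :
    ext f s = f ⟨s, hs⟩ := by
  unfold ext; rw [dif_pos hs]

theorem good_tendsto (hν : 0 ≤ ν) (hψ : 0 < ψ) (K : ℕ) {δ : ℝ} (hδ : 0 < δ) :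
    Tendsto (fun N : ℕ => (omLaw ⌊al κ ν ψ * N⌋₊ N K).real {ω | ¬ Good κ ν ψ δ ω})
      atTop (𝓝 0) := by
  have ha := al_pos (κ := κ) hν hψ
  have hLS : LipV (US κ ν ψ K (K + 1)) := LipV.UU (fS_lip ψ) _ _
  have hLR : LipV (UR κ ν ψ K (K + 1)) := LipV.UU (fR_lip hν) _ _
  have w1 := Wp.forall_lt (κ := κ) (ν := ν) (ψ := ψ) (K := K) K fun s hs =>
    Wp.forall_lt (κ := κ) (ν := ν) (ψ := ψ) K fun t ht =>
      Wp.site (κ := κ) (ν := ν) (ψ := ψ) (mhf_lip K s) (mhf_lip K t)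
        (E_mm (κ := κ) hν hψ hs ht) hδ
  have w2 := Wp.forall_lt (κ := κ) (ν := ν) (ψ := ψ) (K := K) K fun s hs =>
    Wp.forall_lt (κ := κ) (ν := ν) (ψ := ψ) K fun t ht =>
      Wp.row ha (nhf_lip hν K s) (nhf_lip hν K t) (E_nn (κ := κ) hν hψ hs ht) hδ
  have w3 : Wp κ ν ψ K (fun N ω => ∀ s : Fin (K + 1), ∀ t : Fin (K + 1),
      |(∑ i, siteH ω i s * siteH ω i t) / N - (if s = t then 1 else 0)| ≤ δ) := by
    have := Wp.forall_lt (κ := κ) (ν := ν) (ψ := ψ) (K := K) (K + 1)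
      (E := fun s N ω => ∀ t : ℕ, t < K + 1 → ∀ (hs : s < K + 1) (ht : t < K + 1),
        |(∑ i, siteH ω i ⟨s, hs⟩ * siteH ω i ⟨t, ht⟩) / N - (if s = t then 1 else 0)| ≤ δ)
      fun s hs => Wp.forall_lt (κ := κ) (ν := ν) (ψ := ψ) (K + 1)
        (E := fun t N ω => ∀ (hs : s < K + 1) (ht : t < K + 1),
        |(∑ i, siteH ω i ⟨s, hs⟩ * siteH ω i ⟨t, ht⟩) / N - (if s = t then 1 else 0)| ≤ δ)
        fun t ht =>
        (Wp.site (κ := κ) (ν := ν) (ψ := ψ) (LipV.coord (⟨s, hs⟩ : Fin (K + 1)))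
          (LipV.coord (⟨t, ht⟩ : Fin (K + 1))) (E_xx _ _) hδ).mono
          (Eventually.of_forall fun N ω h hs ht => by simpa [Fin.ext_iff] using h)
    refine this.mono (Eventually.of_forall fun N ω h s t => ?_)
    have := h s s.2 t t.2 s.2 t.2
    simpa [Fin.ext_iff] using this
  have w4 : Wp κ ν ψ K (fun N ω => ∀ s : Fin (K + 1), ∀ t : Fin (K + 1),
      |(∑ i, rowH ω i s * rowH ω i t) / ⌊al κ ν ψ * N⌋₊ - (if s = t then 1 else 0)| ≤ δ) := by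
    have := Wp.forall_lt (κ := κ) (ν := ν) (ψ := ψ) (K := K) (K + 1)
      (E := fun s N ω => ∀ t : ℕ, t < K + 1 → ∀ (hs : s < K + 1) (ht : t < K + 1),
        |(∑ i, rowH ω i ⟨s, hs⟩ * rowH ω i ⟨t, ht⟩) / ⌊al κ ν ψ * N⌋₊
          - (if s = t then 1 else 0)| ≤ δ)
      fun s hs => Wp.forall_lt (κ := κ) (ν := ν) (ψ := ψ) (K + 1)
        (E := fun t N ω => ∀ (hs : s < K + 1) (ht : t < K + 1),
        |(∑ i, rowH ω i ⟨s, hs⟩ * rowH ω i ⟨t, ht⟩) / ⌊al κ ν ψ * N⌋₊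
          - (if s = t then 1 else 0)| ≤ δ)
        fun t ht =>
        (Wp.row ha (LipV.coord (⟨s, hs⟩ : Fin (K + 1)))
          (LipV.coord (⟨t, ht⟩ : Fin (K + 1))) (E_xx _ _) hδ).mono
          (Eventually.of_forall fun N ω h hs ht => by simpa [Fin.ext_iff] using h)
    refine this.mono (Eventually.of_forall fun N ω h s t => ?_)
    have := h s s.2 t t.2 s.2 t.2
    simpa [Fin.ext_iff] using this
  have w5 := Wp.forall_lt (κ := κ) (ν := ν) (ψ := ψ) (K := K) K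
    (E := fun s N ω => ∀ t < K, t < s → ∀ hs : s < K + 1,
      |(∑ i, siteH ω i ⟨s, hs⟩ * mhf κ ν ψ K t (siteH ω i)) / N - 0| ≤ δ) fun s hs =>
    Wp.forall_lt (κ := κ) (ν := ν) (ψ := ψ) K
    (E := fun t N ω => t < s → ∀ hs : s < K + 1,
      |(∑ i, siteH ω i ⟨s, hs⟩ * mhf κ ν ψ K t (siteH ω i)) / N - 0| ≤ δ) fun t ht => by
      by_cases hts : t < s
      · exact (Wp.site (κ := κ) (ν := ν) (ψ := ψ) (LipV.coord (⟨s, by omega⟩ : Fin (K + 1)))
          (mhf_lip K t) (E_em (κ := κ) hν hψ _ ht hts) hδ).mono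
          (Eventually.of_forall fun N ω h _ _ => h)
      · exact (Wp.true K).mono (Eventually.of_forall fun N ω _ h => absurd h hts)
  have w6 := Wp.forall_lt (κ := κ) (ν := ν) (ψ := ψ) (K := K) K
    (E := fun s N ω => ∀ t < K, t ≤ s → ∀ hs : s < K + 1,
      |(∑ i, rowH ω i ⟨s, hs⟩ * nhf κ ν ψ K t (rowH ω i)) / ⌊al κ ν ψ * N⌋₊ - 0| ≤ δ) fun s hs =>
    Wp.forall_lt (κ := κ) (ν := ν) (ψ := ψ) K
    (E := fun t N ω => t ≤ s → ∀ hs : s < K + 1,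
      |(∑ i, rowH ω i ⟨s, hs⟩ * nhf κ ν ψ K t (rowH ω i)) / ⌊al κ ν ψ * N⌋₊ - 0| ≤ δ)
      fun t ht => by
      by_cases hts : t ≤ s
      · exact (Wp.row ha (LipV.coord (⟨s, by omega⟩ : Fin (K + 1)))
          (nhf_lip hν K t) (E_xn (κ := κ) hν hψ _ ht hts) hδ).mono
          (Eventually.of_forall fun N ω h _ _ => h)
      · exact (Wp.true K).mono (Eventually.of_forall fun N ω _ h => absurd h hts)
  have w7 := Wp.forall_lt (κ := κ) (ν := ν) (ψ := ψ) (K := K) K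
    (E := fun s N ω => ∀ hs : s < K,
      |(∑ i, siteH ω i (Fin.castSucc ⟨s, hs⟩) * US κ ν ψ K (K + 1) (siteH ω i)) / N
        - bs κ ν ψ s * (1 - qp ψ)| ≤ δ) fun s hs =>
      (Wp.site (κ := κ) (ν := ν) (ψ := ψ) (LipV.coord (Fin.castSucc ⟨s, hs⟩)) hLS
        (E_eh (κ := κ) hν hψ hs) hδ).mono (Eventually.of_forall fun N ω h _ => h)
  have w8 := Wp.forall_lt (κ := κ) (ν := ν) (ψ := ψ) (K := K) K fun s hs =>
      Wp.site (κ := κ) (ν := ν) (ψ := ψ) (mhf_lip K s) hLS (E_mht (κ := κ) hν hψ hs) hδ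
  have w9 := Wp.forall_lt (κ := κ) (ν := ν) (ψ := ψ) (K := K) K
    (E := fun s N ω => ∀ hs : s < K,
      |(∑ i, rowH ω i (Fin.castSucc ⟨s, hs⟩) * UR κ ν ψ K (K + 1) (rowH ω i)) / N
        - as κ ν ψ s * dd κ ν ψ| ≤ δ) fun s hs => by
    have h1 := Wp.row ha (LipV.coord (Fin.castSucc ⟨s, hs⟩)) hLR (E_xF (κ := κ) hν hψ hs)
      (δ := δ / (2 * al κ ν ψ)) (by positivity)
    have h2 := (rows_ratio ha).sub_const (al κ ν ψ) |>.abs.const_mul
      (|as κ ν ψ s * dd κ ν ψ / al κ ν ψ|)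
    rw [sub_self, abs_zero, mul_zero] at h2
    have h3 : ∀ᶠ N : ℕ in atTop, |as κ ν ψ s * dd κ ν ψ / al κ ν ψ|
        * |(⌊al κ ν ψ * N⌋₊ : ℝ) / N - al κ ν ψ| ≤ δ / 2 :=
      (h2.eventually (ge_mem_nhds (by positivity : (0 : ℝ) < δ / 2)))
    refine h1.mono ?_
    filter_upwards [h3, eventually_gt_atTop 0, (tendsto_rows ha).eventually (eventually_gt_atTop 0)]
      with N hN hN0 hM0 ω h _
    set S := ∑ i, rowH ω i (Fin.castSucc ⟨s, hs⟩) * UR κ ν ψ K (K + 1) (rowH ω i) with hS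
    set M : ℝ := (⌊al κ ν ψ * N⌋₊ : ℝ) with hM
    have hNp : (0 : ℝ) < N := by exact_mod_cast hN0
    have hMp : (0 : ℝ) < M := by rw [hM]; exact_mod_cast hM0
    have hMle : M / N ≤ al κ ν ψ := by
      rw [div_le_iff₀ hNp]; exact Nat.floor_le (by positivity)
    have e : S / N - as κ ν ψ s * dd κ ν ψ
        = M / N * (S / M - as κ ν ψ s * dd κ ν ψ / al κ ν ψ)
          + as κ ν ψ s * dd κ ν ψ / al κ ν ψ * (M / N - al κ ν ψ) := by
      field_simp; ring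
    rw [e]
    refine (abs_add_le _ _).trans ?_
    rw [abs_mul, abs_mul, abs_of_pos (div_pos hMp hNp)]
    have e2 : M / N * |S / M - as κ ν ψ s * dd κ ν ψ / al κ ν ψ|
        ≤ al κ ν ψ * (δ / (2 * al κ ν ψ)) :=
      mul_le_mul hMle h (abs_nonneg _) ha.le
    have e3 : al κ ν ψ * (δ / (2 * al κ ν ψ)) = δ / 2 := by field_simp
    linarith
  have w10 := Wp.forall_lt (κ := κ) (ν := ν) (ψ := ψ) (K := K) K fun s hs =>
      Wp.row ha (nhf_lip (κ := κ) hν K s) hLR (E_nF (κ := κ) hν hψ hs) hδ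
  have w11 := Wp.site (κ := κ) (ν := ν) (ψ := ψ) hLS hLS (E_tt (κ := κ) hν hψ K) hδ
  have w12 := Wp.row ha hLR hLR (E_FF (κ := κ) hν hψ K) hδ
  have hLh : LipV (fun x => √ψ * dot (av (cS κ ν ψ K) K (K + 1)) x) :=
    (LipV.comp_dot (φ := fun x => x) LipR.id _).const_mul _
  have w13 := Wp.site (κ := κ) (ν := ν) (ψ := ψ) (v := ψ) hLh hLh (by
    have h1 : ∀ x, √ψ * dot (av (cS κ ν ψ K) K (K + 1)) x
        * (√ψ * dot (av (cS κ ν ψ K) K (K + 1)) x)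
        = ψ * (dot (av (cS κ ν ψ K) K (K + 1)) x * dot (av (cS κ ν ψ K) K (K + 1)) x) := by
      intro x
      have := Real.mul_self_sqrt hψ.le
      linear_combination (dot (av (cS κ ν ψ K) K (K + 1)) x) ^ 2 * this
    simp_rw [h1]
    rw [integral_const_mul, E_dotdot, dot_av (cS_mono hν hψ K) (cS_zero K) le_rfl le_rfl,
      cS_last, mul_one]) hδ
  have hall := w1.and <| w2.and <| w3.and <| w4.and <| w5.and <| w6.and <| w7.and <| w8.and <|
    w9.and <| w10.and <| w11.and <| w12.and w13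
  refine hall.mono (F := fun N ω => Good κ ν ψ δ ω) (Eventually.of_forall fun N ω h => ?_)
  obtain ⟨h1, h2, h3, h4, h5, h6, h7, h8, h9, h10, h11, h12, h13⟩ := h
  refine ⟨?_, ?_, ?_, ?_, ?_, ?_, ?_, ?_, ?_, ?_, ?_, ?_, ?_, ?_, ?_⟩
  · intro s hs t ht
    have e : dot (mh κ ν ψ (ext ω.1.1) s) (mh κ ν ψ (ext ω.1.1) t)
        = ∑ i, mhf κ ν ψ K s (siteH ω i) * mhf κ ν ψ K t (siteH ω i) :=
      Finset.sum_congr rfl fun i _ => by rw [mh_eq ω hs, mh_eq ω ht]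
    rw [e]; exact h1 s hs t ht
  · intro s hs t ht
    have e : dot (nh κ ν ψ (ext ω.1.2) s) (nh κ ν ψ (ext ω.1.2) t)
        = ∑ i, nhf κ ν ψ K s (rowH ω i) * nhf κ ν ψ K t (rowH ω i) :=
      Finset.sum_congr rfl fun i _ => by rw [nh_eq ω hs, nh_eq ω ht]
    rw [e]; exact h2 s hs t ht
  · intro s hs t ht
    have e : dot (ext ω.1.1 s) (ext ω.1.1 t)
        = ∑ i, siteH ω i (Fin.castSucc ⟨s, hs⟩) * siteH ω i (Fin.castSucc ⟨t, ht⟩) :=
      Finset.sum_congr rfl fun i _ => by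
        rw [siteH_castSucc, siteH_castSucc, ext_apply _ hs, ext_apply _ ht]
    rw [e]
    simpa [Fin.ext_iff] using h3 (Fin.castSucc ⟨s, hs⟩) (Fin.castSucc ⟨t, ht⟩)
  · intro s hs t ht
    have e : dot (ext ω.1.2 s) (ext ω.1.2 t)
        = ∑ i, rowH ω i (Fin.castSucc ⟨s, hs⟩) * rowH ω i (Fin.castSucc ⟨t, ht⟩) :=
      Finset.sum_congr rfl fun i _ => by
        rw [rowH_castSucc, rowH_castSucc, ext_apply _ hs, ext_apply _ ht]
    rw [e]
    simpa [Fin.ext_iff] using h4 (Fin.castSucc ⟨s, hs⟩) (Fin.castSucc ⟨t, ht⟩)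
  · intro s hs t hts
    have e : dot (ext ω.1.1 s) (mh κ ν ψ (ext ω.1.1) t)
        = ∑ i, siteH ω i ⟨s, by omega⟩ * mhf κ ν ψ K t (siteH ω i) :=
      Finset.sum_congr rfl fun i _ => by
        rw [mh_eq ω (by omega), ext_apply _ hs]
        exact congrArg (· * _) (siteH_castSucc ω i ⟨s, hs⟩).symm
    rw [e]
    have := h5 s hs t (by omega) hts (by omega)
    rwa [sub_zero] at this
  · intro s hs t hts
    have e : dot (ext ω.1.2 s) (nh κ ν ψ (ext ω.1.2) t)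
        = ∑ i, rowH ω i ⟨s, by omega⟩ * nhf κ ν ψ K t (rowH ω i) :=
      Finset.sum_congr rfl fun i _ => by
        rw [nh_eq ω (by omega), ext_apply _ hs]
        exact congrArg (· * _) (rowH_castSucc ω i ⟨s, hs⟩).symm
    rw [e]
    have := h6 s hs t (by omega) hts (by omega)
    rwa [sub_zero] at this
  · intro s hs
    have e : dot (ext ω.1.1 s) (fun i => Real.tanh (hv κ ν ψ ω i))
        = ∑ i, siteH ω i (Fin.castSucc ⟨s, hs⟩) * US κ ν ψ K (K + 1) (siteH ω i) :=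
      Finset.sum_congr rfl fun i _ => by
        beta_reduce
        rw [siteH_castSucc, tanh_hv_eq, ext_apply _ hs]
    rw [e]; exact h7 s hs hs
  · intro s hs
    have e : dot (mh κ ν ψ (ext ω.1.1) s) (fun i => Real.tanh (hv κ ν ψ ω i))
        = ∑ i, mhf κ ν ψ K s (siteH ω i) * US κ ν ψ K (K + 1) (siteH ω i) :=
      Finset.sum_congr rfl fun i _ => by
        beta_reduce
        rw [mh_eq ω hs, tanh_hv_eq]
    rw [e]; exact h8 s hs
  · intro s hs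
    have e : dot (ext ω.1.2 s) (fun a => FF κ ν (qp ψ) (hhv κ ν ψ ω a))
        = ∑ i, rowH ω i (Fin.castSucc ⟨s, hs⟩) * UR κ ν ψ K (K + 1) (rowH ω i) :=
      Finset.sum_congr rfl fun i _ => by
        beta_reduce
        rw [rowH_castSucc, FF_hhv_eq, ext_apply _ hs]
    rw [e]; exact h9 s hs hs
  · intro s hs
    have e : dot (nh κ ν ψ (ext ω.1.2) s) (fun a => FF κ ν (qp ψ) (hhv κ ν ψ ω a))
        = ∑ i, nhf κ ν ψ K s (rowH ω i) * UR κ ν ψ K (K + 1) (rowH ω i) :=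
      Finset.sum_congr rfl fun i _ => by
        beta_reduce
        rw [nh_eq ω hs, FF_hhv_eq]
    rw [e]; exact h10 s hs
  · have e : dot (fun i => Real.tanh (hv κ ν ψ ω i)) (fun i => Real.tanh (hv κ ν ψ ω i))
        = ∑ i, US κ ν ψ K (K + 1) (siteH ω i) * US κ ν ψ K (K + 1) (siteH ω i) :=
      Finset.sum_congr rfl fun i _ => by
        beta_reduce
        rw [tanh_hv_eq]
    rw [e]; exact h11
  · have e : dot (fun a => FF κ ν (qp ψ) (hhv κ ν ψ ω a)) (fun a => FF κ ν (qp ψ) (hhv κ ν ψ ω a))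
        = ∑ i, UR κ ν ψ K (K + 1) (rowH ω i) * UR κ ν ψ K (K + 1) (rowH ω i) :=
      Finset.sum_congr rfl fun i _ => by
        beta_reduce
        rw [FF_hhv_eq]
    rw [e]; exact h12
  · have e : dot (hv κ ν ψ ω) (hv κ ν ψ ω)
        = ∑ i, (√ψ * dot (av (cS κ ν ψ K) K (K + 1)) (siteH ω i))
          * (√ψ * dot (av (cS κ ν ψ K) K (K + 1)) (siteH ω i)) :=
      Finset.sum_congr rfl fun i _ => by
        unfold hv
        rw [bm_last_eq (mu κ ν ψ) ω.1.1 ω.2.1 i]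
        rfl
    rw [e]; exact h13
  · have e : dot ω.2.1 ω.2.1
        = ∑ i, siteH ω i (Fin.last K) * siteH ω i (Fin.last K) :=
      Finset.sum_congr rfl fun i _ => by rw [siteH_last]
    rw [e]
    simpa using h3 (Fin.last K) (Fin.last K)
  · have e : dot ω.2.2 ω.2.2
        = ∑ i, rowH ω i (Fin.last K) * rowH ω i (Fin.last K) :=
      Finset.sum_congr rfl fun i _ => by rw [rowH_last]
    rw [e]
    simpa using h4 (Fin.last K) (Fin.last K)

end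

end Pool.Agent.IP49.SR
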