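import Mathlib

/-!
IP49, part S2 (helper95): elementary Euclidean geometry for plain vectors `ι → ℝ`.
`dot v w = ∑ v_i w_i`, `nrm v = √(dot v v)`, `proj c x = x - ⟨c,x⟩ c`,
`projs S c x = x - ∑_{s ∈ S} ⟨c_s, x⟩ c_s`.
-/

set_option autoImplicit false
open MeasureTheory

namespace Pool.Agent.IP49.SR

noncomputable section

variable {ι : Type*} [Fintype ι]

/-- dot product -/
def dot (v w : ι → ℝ) : ℝ := ∑ i, v i * w i

/-- Euclidean norm -/
def nrm (v : ι → ℝ) : ℝ := √(dot v v)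

/-- projection orthogonal to the unit vector `c` -/
def proj (c x : ι → ℝ) : ι → ℝ := fun i => x i - dot c x * c i

/-- projection orthogonal to the orthonormal vectors `c s`, `s ∈ S` -/
def projs {σ : Type*} (S : Finset σ) (c : σ → ι → ℝ) (x : ι → ℝ) : ι → ℝ :=
  x - ∑ s ∈ S, dot (c s) x • c s

lemma dot_eq_inner (v w : ι → ℝ) :
    dot v w = inner ℝ (WithLp.toLp 2 v : EuclideanSpace ℝ ι) (WithLp.toLp 2 w) := by
  rw [PiLp.inner_apply]
  simp only [dot, RCLike.inner_apply, conj_trivial]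
  exact Finset.sum_congr rfl fun i _ => mul_comm _ _

lemma nrm_eq_norm (v : ι → ℝ) : nrm v = ‖(WithLp.toLp 2 v : EuclideanSpace ℝ ι)‖ := by
  rw [nrm, dot_eq_inner, ← norm_eq_sqrt_real_inner]

lemma dot_comm (v w : ι → ℝ) : dot v w = dot w v :=
  Finset.sum_congr rfl fun i _ => mul_comm _ _

lemma dot_add_left (u v w : ι → ℝ) : dot (u + v) w = dot u w + dot v w := by
  simp only [dot, Pi.add_apply, add_mul, Finset.sum_add_distrib]

lemma dot_add_right (u v w : ι → ℝ) : dot u (v + w) = dot u v + dot u w := by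
  simp only [dot, Pi.add_apply, mul_add, Finset.sum_add_distrib]

lemma dot_sub_left (u v w : ι → ℝ) : dot (u - v) w = dot u w - dot v w := by
  simp only [dot, Pi.sub_apply, sub_mul, Finset.sum_sub_distrib]

lemma dot_sub_right (u v w : ι → ℝ) : dot u (v - w) = dot u v - dot u w := by
  simp only [dot, Pi.sub_apply, mul_sub, Finset.sum_sub_distrib]

lemma dot_neg_left (u v : ι → ℝ) : dot (-u) v = -dot u v := by
  simp only [dot, Pi.neg_apply, neg_mul, Finset.sum_neg_distrib]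

lemma dot_neg_right (u v : ι → ℝ) : dot u (-v) = -dot u v := by
  simp only [dot, Pi.neg_apply, mul_neg, Finset.sum_neg_distrib]

lemma dot_smul_left (a : ℝ) (u v : ι → ℝ) : dot (a • u) v = a * dot u v := by
  simp only [dot, Pi.smul_apply, smul_eq_mul, Finset.mul_sum, mul_assoc]

lemma dot_smul_right (a : ℝ) (u v : ι → ℝ) : dot u (a • v) = a * dot u v := by
  rw [dot_comm, dot_smul_left, dot_comm]

@[simp] lemma dot_zero_left (v : ι → ℝ) : dot 0 v = 0 := by simp [dot]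

@[simp] lemma dot_zero_right (v : ι → ℝ) : dot v 0 = 0 := by simp [dot]

lemma dot_sum_left {σ : Type*} (S : Finset σ) (u : σ → ι → ℝ) (v : ι → ℝ) :
    dot (∑ s ∈ S, u s) v = ∑ s ∈ S, dot (u s) v := by
  classical
  induction S using Finset.induction_on with
  | empty => simp
  | insert a S ha ih => rw [Finset.sum_insert ha, Finset.sum_insert ha, dot_add_left, ih]

lemma dot_sum_right {σ : Type*} (S : Finset σ) (u : σ → ι → ℝ) (v : ι → ℝ) :
    dot v (∑ s ∈ S, u s) = ∑ s ∈ S, dot v (u s) := by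
  rw [dot_comm, dot_sum_left]; exact Finset.sum_congr rfl fun s _ => dot_comm _ _

lemma dot_self_nonneg (v : ι → ℝ) : 0 ≤ dot v v :=
  Finset.sum_nonneg fun i _ => mul_self_nonneg _

lemma dot_self_eq (v : ι → ℝ) : dot v v = ∑ i, v i ^ 2 :=
  Finset.sum_congr rfl fun i _ => (sq (v i)).symm

lemma nrm_nonneg (v : ι → ℝ) : 0 ≤ nrm v := Real.sqrt_nonneg _

lemma nrm_sq (v : ι → ℝ) : nrm v ^ 2 = dot v v := Real.sq_sqrt (dot_self_nonneg v)

lemma nrm_sq_eq (v : ι → ℝ) : nrm v ^ 2 = ∑ i, v i ^ 2 := by rw [nrm_sq, dot_self_eq]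

lemma abs_dot_le (v w : ι → ℝ) : |dot v w| ≤ nrm v * nrm w := by
  rw [dot_eq_inner, nrm_eq_norm, nrm_eq_norm]; exact abs_real_inner_le_norm _ _

lemma dot_le (v w : ι → ℝ) : dot v w ≤ nrm v * nrm w := (le_abs_self _).trans (abs_dot_le v w)

@[simp] lemma nrm_zero : nrm (0 : ι → ℝ) = 0 := by simp [nrm]

lemma nrm_eq_zero {v : ι → ℝ} : nrm v = 0 ↔ v = 0 := by
  rw [nrm_eq_norm, norm_eq_zero]
  constructor
  · intro h; exact (WithLp.toLp_injective 2) h
  · intro h; rw [h]; rfl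

lemma nrm_smul (a : ℝ) (v : ι → ℝ) : nrm (a • v) = |a| * nrm v := by
  rw [nrm, dot_smul_left, dot_smul_right, ← mul_assoc, Real.sqrt_mul (mul_self_nonneg a),
    Real.sqrt_mul_self_eq_abs, nrm]

lemma nrm_neg (v : ι → ℝ) : nrm (-v) = nrm v := by
  rw [nrm, dot_neg_left, dot_neg_right, neg_neg, nrm]

lemma nrm_add_le (v w : ι → ℝ) : nrm (v + w) ≤ nrm v + nrm w := by
  simp only [nrm_eq_norm]; exact norm_add_le _ _

lemma nrm_sub_le (v w : ι → ℝ) : nrm (v - w) ≤ nrm v + nrm w := by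
  simp only [nrm_eq_norm]; exact norm_sub_le _ _

lemma nrm_sub_comm (v w : ι → ℝ) : nrm (v - w) = nrm (w - v) := by
  rw [← nrm_neg, neg_sub]

lemma nrm_sub_le_nrm_sub_add (u v w : ι → ℝ) : nrm (u - w) ≤ nrm (u - v) + nrm (v - w) := by
  have : u - w = (u - v) + (v - w) := by abel
  rw [this]; exact nrm_add_le _ _

lemma abs_nrm_sub_le (v w : ι → ℝ) : |nrm v - nrm w| ≤ nrm (v - w) := by
  simp only [nrm_eq_norm]; exact abs_norm_sub_norm_le _ _

lemma nrm_sum_le {σ : Type*} (S : Finset σ) (u : σ → ι → ℝ) :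
    nrm (∑ s ∈ S, u s) ≤ ∑ s ∈ S, nrm (u s) := by
  classical
  induction S using Finset.induction_on with
  | empty => simp
  | insert a S ha ih =>
    rw [Finset.sum_insert ha, Finset.sum_insert ha]
    exact (nrm_add_le _ _).trans (by linarith)

lemma nrm_add_sq (v w : ι → ℝ) : nrm (v + w) ^ 2 = nrm v ^ 2 + 2 * dot v w + nrm w ^ 2 := by
  simp only [nrm_sq, dot_add_left, dot_add_right, dot_comm w v]; ring

lemma nrm_sub_sq (v w : ι → ℝ) : nrm (v - w) ^ 2 = nrm v ^ 2 - 2 * dot v w + nrm w ^ 2 := by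
  simp only [nrm_sq, dot_sub_left, dot_sub_right, dot_comm w v]; ring

lemma nrm_le_of_sq_le {v : ι → ℝ} {a : ℝ} (ha : 0 ≤ a) (h : nrm v ^ 2 ≤ a ^ 2) : nrm v ≤ a :=
  abs_le_of_sq_le_sq' h ha |>.2

lemma nrm_le_iff_sum {v : ι → ℝ} {a : ℝ} (ha : 0 ≤ a) : nrm v ≤ a ↔ ∑ i, v i ^ 2 ≤ a ^ 2 := by
  rw [← nrm_sq_eq]; exact (pow_le_pow_iff_left₀ (nrm_nonneg v) ha two_ne_zero).symm

lemma nrm_normalize {v : ι → ℝ} (h : v ≠ 0) : nrm ((nrm v)⁻¹ • v) = 1 := by
  have h0 : nrm v ≠ 0 := fun h' => h (nrm_eq_zero.1 h')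
  rw [nrm_smul, abs_of_nonneg (inv_nonneg.2 (nrm_nonneg v)), inv_mul_cancel₀ h0]

/-- the coordinates are bounded by the norm -/
lemma abs_apply_le (v : ι → ℝ) (i : ι) : |v i| ≤ nrm v := by
  rw [← Real.sqrt_sq_eq_abs, nrm]
  apply Real.sqrt_le_sqrt
  rw [dot_self_eq]
  exact Finset.single_le_sum (f := fun i => v i ^ 2) (fun i _ => sq_nonneg _) (Finset.mem_univ i)

/-! ### one projection -/

lemma proj_eq (c x : ι → ℝ) : proj c x = x - dot c x • c := rfl

lemma dot_proj {c : ι → ℝ} (hc : nrm c = 1) (x : ι → ℝ) : dot c (proj c x) = 0 := by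
  rw [proj_eq, dot_sub_right, dot_smul_right, ← nrm_sq, hc]; ring

lemma nrm_proj_sq {c : ι → ℝ} (hc : nrm c = 1) (x : ι → ℝ) :
    nrm (proj c x) ^ 2 = nrm x ^ 2 - dot c x ^ 2 := by
  rw [proj_eq, nrm_sub_sq, nrm_smul, mul_pow, sq_abs, hc, dot_smul_right, dot_comm x c]; ring

lemma nrm_proj_le {c : ι → ℝ} (hc : nrm c = 1) (x : ι → ℝ) : nrm (proj c x) ≤ nrm x := by
  apply nrm_le_of_sq_le (nrm_nonneg x)
  rw [nrm_proj_sq hc]; nlinarith [sq_nonneg (dot c x)]

lemma proj_add (c x y : ι → ℝ) : proj c (x + y) = proj c x + proj c y := by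
  rw [proj_eq, proj_eq, proj_eq, dot_add_right, add_smul]; abel

lemma proj_sub (c x y : ι → ℝ) : proj c (x - y) = proj c x - proj c y := by
  rw [proj_eq, proj_eq, proj_eq, dot_sub_right, sub_smul]; abel

lemma proj_smul (a : ℝ) (c x : ι → ℝ) : proj c (a • x) = a • proj c x := by
  rw [proj_eq, proj_eq, dot_smul_right, smul_sub, smul_smul]

lemma dot_proj_comm (c x y : ι → ℝ) : dot (proj c x) y = dot x (proj c y) := by
  rw [proj_eq, proj_eq, dot_sub_left, dot_sub_right, dot_smul_left, dot_smul_right,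
    dot_comm x c]; ring

lemma proj_of_dot_eq_zero {c x : ι → ℝ} (h : dot c x = 0) : proj c x = x := by
  rw [proj_eq, h, zero_smul, sub_zero]

lemma proj_self {c : ι → ℝ} (hc : nrm c = 1) : proj c c = 0 := by
  rw [proj_eq, ← nrm_sq, hc, one_pow, one_smul, sub_self]

/-! ### several orthonormal vectors -/

variable {σ : Type*}

/-- orthonormality on a finite set of indices -/
def ON (S : Finset σ) (c : σ → ι → ℝ) : Prop :=
  (∀ s ∈ S, nrm (c s) = 1) ∧ ∀ s ∈ S, ∀ t ∈ S, s ≠ t → dot (c s) (c t) = 0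

lemma ON.mono {S T : Finset σ} {c : σ → ι → ℝ} (h : ON T c) (hST : S ⊆ T) : ON S c :=
  ⟨fun s hs => h.1 s (hST hs), fun s hs t ht => h.2 s (hST hs) t (hST ht)⟩

lemma ON.dot_eq [DecidableEq σ] {S : Finset σ} {c : σ → ι → ℝ} (h : ON S c) {s t : σ} (hs : s ∈ S)
    (ht : t ∈ S) : dot (c s) (c t) = if s = t then 1 else 0 := by
  split_ifs with e
  · subst e; rw [← nrm_sq, h.1 s hs, one_pow]
  · exact h.2 s hs t ht e

lemma ON.dot_sum {S : Finset σ} {c : σ → ι → ℝ} (h : ON S c) (a : σ → ℝ) {t : σ} (ht : t ∈ S) :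
    dot (c t) (∑ s ∈ S, a s • c s) = a t := by
  classical
  rw [dot_sum_right]
  simp_rw [dot_smul_right]
  rw [Finset.sum_eq_single t]
  · rw [h.dot_eq ht ht, if_pos rfl, mul_one]
  · intro s hs hst
    rw [h.dot_eq ht hs, if_neg (Ne.symm hst), mul_zero]
  · intro h'; exact absurd ht h'

/-- Parseval on the span -/
lemma ON.nrm_sum_sq {S : Finset σ} {c : σ → ι → ℝ} (h : ON S c) (a : σ → ℝ) :
    nrm (∑ s ∈ S, a s • c s) ^ 2 = ∑ s ∈ S, a s ^ 2 := by
  rw [nrm_sq, dot_sum_left]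
  refine Finset.sum_congr rfl fun s hs => ?_
  rw [dot_smul_left, h.dot_sum a hs, sq]

lemma ON.dot_sum_sum {S : Finset σ} {c : σ → ι → ℝ} (h : ON S c) (a b : σ → ℝ) :
    dot (∑ s ∈ S, a s • c s) (∑ s ∈ S, b s • c s) = ∑ s ∈ S, a s * b s := by
  rw [dot_sum_left]
  refine Finset.sum_congr rfl fun s hs => ?_
  rw [dot_smul_left, h.dot_sum b hs]

lemma ON.dot_projs {S : Finset σ} {c : σ → ι → ℝ} (h : ON S c) (x : ι → ℝ) {t : σ} (ht : t ∈ S) :
    dot (c t) (projs S c x) = 0 := by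
  rw [projs, dot_sub_right, h.dot_sum (fun s => dot (c s) x) ht, sub_self]

/-- Pythagoras -/
lemma ON.nrm_projs_sq {S : Finset σ} {c : σ → ι → ℝ} (h : ON S c) (x : ι → ℝ) :
    nrm (projs S c x) ^ 2 = nrm x ^ 2 - ∑ s ∈ S, dot (c s) x ^ 2 := by
  rw [projs, nrm_sub_sq, h.nrm_sum_sq, dot_sum_right]
  simp_rw [dot_smul_right, dot_comm x]
  have : ∑ s ∈ S, dot (c s) x * dot (c s) x = ∑ s ∈ S, dot (c s) x ^ 2 :=
    Finset.sum_congr rfl fun s _ => (sq _).symm
  rw [this]; ring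

lemma ON.nrm_projs_le {S : Finset σ} {c : σ → ι → ℝ} (h : ON S c) (x : ι → ℝ) :
    nrm (projs S c x) ≤ nrm x := by
  apply nrm_le_of_sq_le (nrm_nonneg x)
  rw [h.nrm_projs_sq]
  have : 0 ≤ ∑ s ∈ S, dot (c s) x ^ 2 := Finset.sum_nonneg fun s _ => sq_nonneg _
  linarith

/-- Bessel -/
lemma ON.bessel {S : Finset σ} {c : σ → ι → ℝ} (h : ON S c) (x : ι → ℝ) :
    ∑ s ∈ S, dot (c s) x ^ 2 ≤ nrm x ^ 2 := by
  have := h.nrm_projs_sq x
  nlinarith [sq_nonneg (nrm (projs S c x))]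

lemma ON.nrm_span_le {S : Finset σ} {c : σ → ι → ℝ} (h : ON S c) (x : ι → ℝ) :
    nrm (∑ s ∈ S, dot (c s) x • c s) ≤ nrm x := by
  apply nrm_le_of_sq_le (nrm_nonneg x)
  rw [h.nrm_sum_sq]; exact h.bessel x

lemma projs_add (S : Finset σ) (c : σ → ι → ℝ) (x y : ι → ℝ) :
    projs S c (x + y) = projs S c x + projs S c y := by
  simp only [projs, dot_add_right, add_smul, Finset.sum_add_distrib]; abel

lemma projs_sub (S : Finset σ) (c : σ → ι → ℝ) (x y : ι → ℝ) :
    projs S c (x - y) = projs S c x - projs S c y := by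
  simp only [projs, dot_sub_right, sub_smul, Finset.sum_sub_distrib]; abel

lemma projs_smul (S : Finset σ) (c : σ → ι → ℝ) (a : ℝ) (x : ι → ℝ) :
    projs S c (a • x) = a • projs S c x := by
  simp only [projs, dot_smul_right, smul_sub, Finset.smul_sum, smul_smul]

lemma projs_empty (c : σ → ι → ℝ) (x : ι → ℝ) : projs ∅ c x = x := by simp [projs]

lemma dot_projs_comm (S : Finset σ) (c : σ → ι → ℝ) (x y : ι → ℝ) :
    dot (projs S c x) y = dot x (projs S c y) := by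
  simp only [projs, dot_sub_left, dot_sub_right, dot_sum_left, dot_sum_right, dot_smul_left,
    dot_smul_right]
  congr 1
  exact Finset.sum_congr rfl fun s _ => by rw [dot_comm x (c s)]; ring

lemma ON.dot_projs_projs {S : Finset σ} {c : σ → ι → ℝ} (h : ON S c) (x y : ι → ℝ) :
    dot (projs S c x) (projs S c y) = dot x y - ∑ s ∈ S, dot (c s) x * dot (c s) y := by
  rw [projs, projs, dot_sub_left, dot_sub_right, dot_sub_right, h.dot_sum_sum,
    dot_sum_left, dot_sum_right]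
  simp_rw [dot_smul_left, dot_smul_right, dot_comm x]
  have : ∑ s ∈ S, dot (c s) y * dot (c s) x = ∑ s ∈ S, dot (c s) x * dot (c s) y :=
    Finset.sum_congr rfl fun s _ => mul_comm _ _
  rw [this]; ring

/-- composing with one more unit vector -/
lemma ON.proj_projs [DecidableEq σ] {S : Finset σ} {c : σ → ι → ℝ} {t : σ} (ht : t ∉ S)
    (h : ON (insert t S) c) (x : ι → ℝ) : proj (c t) (projs S c x) = projs (insert t S) c x := by
  have h1 : dot (c t) (projs S c x) = dot (c t) x := by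
    rw [projs, dot_sub_right, dot_sum_right, Finset.sum_eq_zero, sub_zero]
    intro s hs
    rw [dot_smul_right, h.2 t (Finset.mem_insert_self _ _) s (Finset.mem_insert_of_mem hs)
      (fun e => ht (e ▸ hs)), mul_zero]
  rw [proj_eq, h1, projs, projs, Finset.sum_insert ht]; abel

/-! ### measurability -/

lemma measurable_dot {α : Type*} [MeasurableSpace α] {u v : α → ι → ℝ} (hu : Measurable u)
    (hv : Measurable v) : Measurable fun x => dot (u x) (v x) := by
  unfold dot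
  exact Finset.measurable_sum _ fun i _ =>
    ((measurable_pi_apply i).comp hu).mul ((measurable_pi_apply i).comp hv)

lemma measurable_nrm {α : Type*} [MeasurableSpace α] {u : α → ι → ℝ} (hu : Measurable u) :
    Measurable fun x => nrm (u x) := (measurable_dot hu hu).sqrt

end

end Pool.Agent.IP49.SR
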