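import Pool.Agent.IP49.LDefs
import Pool.Agent.IP49.SVec

/-!
# IP49, part S: the product measure `piw h` on sign vectors (means `tanh h_i`), Chebyshev

PROOFS.
* `piw_nonneg`: product of positive numbers (`Real.cosh_pos`).
* `piw_prod`: `Finset.prod_univ_sum` with `Fintype.piFinset_univ`:
  `∏ i, ∑ b, f i b = ∑ w, ∏ i, f i (w i)`; apply it with
  `f i b = exp (h i * sgn b)/(2 cosh (h i)) * g i b`, and `Finset.prod_mul_distrib`.
* `piw_sum`: `g = 1`; `∑ b, exp (h i * sgn b)/(2 cosh (h i)) = (exp h + exp (-h))/(2 cosh h) = 1`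
  (`Real.cosh_eq`, `Fintype.sum_bool`).
* `piw_cov`: in `piw_prod` take `g k b = (if k = i then (sgn b - tanh (h i)) else 1) *
  (if k = j then (sgn b - tanh (h j)) else 1)`; for `i ≠ j` the factor `k = i` is
  `∑ b, p_i b * (sgn b - tanh (h i)) = tanh (h i) - tanh (h i) = 0`; for `i = j` the factor is
  `E (σ - m)² = 1 - m² ≤ 1` and the others are `1`.
* `piw_var`: expand the square as a double sum and use `piw_cov`.
* `piw_cheb`: Chebyshev from `piw_var`.
* `piw_slices`: union bound (`piw_sum` minus the bad sets).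
-/

set_option autoImplicit false
open MeasureTheory ProbabilityTheory Filter Topology

namespace Pool.Agent.IP49.SR

theorem piw_nonneg {N : ℕ} (h : Fin N → ℝ) (w : Fin N → Bool) : 0 ≤ piw h w := by
  unfold piw
  exact Finset.prod_nonneg fun i _ => div_nonneg (Real.exp_pos _).le
    (mul_pos two_pos (Real.cosh_pos _)).le

theorem piw_prod {N : ℕ} (h : Fin N → ℝ) (g : Fin N → Bool → ℝ) :
    ∑ w, piw h w * ∏ i, g i (w i)
      = ∏ i, ∑ b, Real.exp (h i * sgn b) / (2 * Real.cosh (h i)) * g i b := by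
  rw [Finset.prod_univ_sum, Fintype.piFinset_univ]
  refine Finset.sum_congr rfl fun w _ => ?_
  unfold piw
  rw [← Finset.prod_mul_distrib]

private theorem sgn_t : sgn true = 1 := by simp [sgn]

private theorem sgn_f : sgn false = -1 := by simp [sgn]

private theorem p_add (x : ℝ) :
    Real.exp (x * sgn true) / (2 * Real.cosh x) + Real.exp (x * sgn false) / (2 * Real.cosh x) = 1 := by
  have hc := Real.cosh_pos x
  rw [sgn_t, sgn_f, ← add_div, div_eq_one_iff_eq (by positivity), Real.cosh_eq, mul_one, mul_neg, mul_one]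
  ring

private theorem p_sub (x : ℝ) :
    Real.exp (x * sgn true) / (2 * Real.cosh x) - Real.exp (x * sgn false) / (2 * Real.cosh x)
      = Real.tanh x := by
  have hc := Real.cosh_pos x
  rw [sgn_t, sgn_f, ← sub_div, Real.tanh_eq_sinh_div_cosh, Real.sinh_eq, mul_one, mul_neg, mul_one]
  field_simp

theorem piw_sum {N : ℕ} (h : Fin N → ℝ) : ∑ w, piw h w = 1 := by
  have key := piw_prod h (fun _ _ => 1)
  simp only [Finset.prod_const_one, mul_one] at key
  rw [key]
  refine Finset.prod_eq_one fun i _ => ?_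
  rw [Fintype.sum_bool]
  exact p_add (h i)

theorem piw_cov {N : ℕ} (h : Fin N → ℝ) (i j : Fin N) :
    ∑ w, piw h w * ((sgn (w i) - Real.tanh (h i)) * (sgn (w j) - Real.tanh (h j)))
      = if i = j then 1 - Real.tanh (h i) ^ 2 else 0 := by
  have key := piw_prod h (fun k b => (if k = i then (sgn b - Real.tanh (h i)) else 1) *
    (if k = j then (sgn b - Real.tanh (h j)) else 1))
  have hl : ∀ w : Fin N → Bool, (∏ k, (if k = i then (sgn (w k) - Real.tanh (h i)) else 1) *
      (if k = j then (sgn (w k) - Real.tanh (h j)) else 1)) =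
      (sgn (w i) - Real.tanh (h i)) * (sgn (w j) - Real.tanh (h j)) := by
    intro w
    rw [Finset.prod_mul_distrib,
      Finset.prod_ite_eq' Finset.univ i (fun k => sgn (w k) - Real.tanh (h i)),
      Finset.prod_ite_eq' Finset.univ j (fun k => sgn (w k) - Real.tanh (h j))]
    simp
  simp only [hl] at key
  rw [key]
  by_cases hij : i = j
  · subst hij
    rw [if_pos rfl, Finset.prod_eq_single i]
    · rw [Fintype.sum_bool, if_pos rfl, if_pos rfl]
      have h1 := p_add (h i)
      have h2 := p_sub (h i)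
      generalize Real.exp (h i * sgn true) / (2 * Real.cosh (h i)) = a at h1 h2 ⊢
      generalize Real.exp (h i * sgn false) / (2 * Real.cosh (h i)) = b at h1 h2 ⊢
      rw [sgn_t, sgn_f, ← h2]
      have h3 : b = 1 - a := by linarith
      rw [h3]
      ring
    · intro k _ hk
      rw [Fintype.sum_bool, if_neg hk, if_neg hk, mul_one, mul_one, mul_one]
      exact p_add (h k)
    · intro hi
      exact absurd (Finset.mem_univ i) hi
  · rw [if_neg hij]
    refine Finset.prod_eq_zero (Finset.mem_univ i) ?_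
    rw [Fintype.sum_bool, if_pos rfl, if_pos rfl, if_neg hij, if_neg hij]
    have h1 := p_add (h i)
    have h2 := p_sub (h i)
    generalize Real.exp (h i * sgn true) / (2 * Real.cosh (h i)) = a at h1 h2 ⊢
    generalize Real.exp (h i * sgn false) / (2 * Real.cosh (h i)) = b at h1 h2 ⊢
    rw [sgn_t, sgn_f, ← h2]
    have h3 : b = 1 - a := by linarith
    rw [h3]
    ring

theorem piw_var {N : ℕ} (h v : Fin N → ℝ) :
    ∑ w, piw h w * (∑ i, v i * (sgn (w i) - Real.tanh (h i))) ^ 2 ≤ ∑ i, v i ^ 2 := by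
  have e1 : ∀ w : Fin N → Bool, piw h w * (∑ i, v i * (sgn (w i) - Real.tanh (h i))) ^ 2 =
      ∑ i, ∑ j, v i * v j * (piw h w * ((sgn (w i) - Real.tanh (h i)) *
        (sgn (w j) - Real.tanh (h j)))) := by
    intro w
    rw [sq, Finset.sum_mul_sum, Finset.mul_sum]
    refine Finset.sum_congr rfl fun i _ => ?_
    rw [Finset.mul_sum]
    refine Finset.sum_congr rfl fun j _ => ?_
    ring
  have e2 : ∑ w, piw h w * (∑ i, v i * (sgn (w i) - Real.tanh (h i))) ^ 2 =
      ∑ i, v i ^ 2 * (1 - Real.tanh (h i) ^ 2) := by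
    rw [Finset.sum_congr rfl fun w _ => e1 w, Finset.sum_comm]
    refine Finset.sum_congr rfl fun i _ => ?_
    rw [Finset.sum_comm]
    have e3 : ∀ j, ∑ w, v i * v j * (piw h w * ((sgn (w i) - Real.tanh (h i)) *
        (sgn (w j) - Real.tanh (h j)))) = if i = j then v i * v j * (1 - Real.tanh (h i) ^ 2) else 0 := by
      intro j
      rw [← Finset.mul_sum, piw_cov]
      by_cases hij : i = j
      · rw [if_pos hij, if_pos hij]
      · rw [if_neg hij, if_neg hij, mul_zero]
    rw [Finset.sum_congr rfl fun j _ => e3 j, Finset.sum_ite_eq, if_pos (Finset.mem_univ i)]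
    ring
  rw [e2]
  refine Finset.sum_le_sum fun i _ => ?_
  have h1 := sq_nonneg (v i)
  have h2 := sq_nonneg (Real.tanh (h i))
  nlinarith [mul_nonneg h1 h2]

open Classical in
theorem piw_cheb {N : ℕ} (h v : Fin N → ℝ) {t : ℝ} (ht : 0 < t) :
    ∑ w ∈ Finset.univ.filter
      (fun w : Fin N → Bool => t < |∑ i, v i * (sgn (w i) - Real.tanh (h i))|), piw h w
      ≤ (∑ i, v i ^ 2) / t ^ 2 := by
  rw [le_div_iff₀ (by positivity), Finset.sum_mul]
  refine le_trans ?_ (piw_var h v)
  refine le_trans (b := ∑ w ∈ Finset.univ.filter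
      (fun w : Fin N → Bool => t < |∑ i, v i * (sgn (w i) - Real.tanh (h i))|),
      piw h w * (∑ i, v i * (sgn (w i) - Real.tanh (h i))) ^ 2) ?_ ?_
  · refine Finset.sum_le_sum fun w hw => ?_
    rw [Finset.mem_filter] at hw
    refine mul_le_mul_of_nonneg_left ?_ (piw_nonneg h w)
    rw [← sq_abs (∑ i, v i * (sgn (w i) - Real.tanh (h i)))]
    exact pow_le_pow_left₀ ht.le hw.2.le 2
  · exact Finset.sum_le_sum_of_subset_of_nonneg (Finset.filter_subset _ _)
      fun w _ _ => mul_nonneg (piw_nonneg h w) (sq_nonneg _)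

open Classical in
/-- finitely many slices together -/
theorem piw_slices {N J : ℕ} (h : Fin N → ℝ) (v : Fin J → Fin N → ℝ) (t : Fin J → ℝ)
    (ht : ∀ j, 0 < t j) :
    1 - ∑ j, (∑ i, v j i ^ 2) / t j ^ 2
      ≤ ∑ w ∈ Finset.univ.filter (fun w : Fin N → Bool =>
        ∀ j, |∑ i, v j i * (sgn (w i) - Real.tanh (h i))| ≤ t j), piw h w := by
  have h1 := Finset.sum_filter_add_sum_filter_not Finset.univ (fun w : Fin N → Bool =>
        ∀ j, |∑ i, v j i * (sgn (w i) - Real.tanh (h i))| ≤ t j) (piw h)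
  rw [piw_sum] at h1
  have h2 : ∑ w ∈ Finset.univ.filter (fun w : Fin N → Bool =>
        ¬ ∀ j, |∑ i, v j i * (sgn (w i) - Real.tanh (h i))| ≤ t j), piw h w ≤
      ∑ j, ∑ w ∈ Finset.univ.filter
        (fun w : Fin N → Bool => t j < |∑ i, v j i * (sgn (w i) - Real.tanh (h i))|), piw h w := by
    have h3 : ∀ w ∈ Finset.univ.filter (fun w : Fin N → Bool =>
        ¬ ∀ j, |∑ i, v j i * (sgn (w i) - Real.tanh (h i))| ≤ t j), piw h w ≤
        ∑ j, if t j < |∑ i, v j i * (sgn (w i) - Real.tanh (h i))| then piw h w else 0 := by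
      intro w hw
      rw [Finset.mem_filter] at hw
      obtain ⟨j, hj⟩ := not_forall.1 hw.2
      have h5 := Finset.single_le_sum (f := fun j =>
        if t j < |∑ i, v j i * (sgn (w i) - Real.tanh (h i))| then piw h w else 0)
        (s := Finset.univ) (fun k _ => by
          show 0 ≤ (if t k < |∑ i, v k i * (sgn (w i) - Real.tanh (h i))| then piw h w else 0)
          split_ifs
          · exact piw_nonneg h w
          · exact le_rfl) (Finset.mem_univ j)
      refine le_trans (le_of_eq ?_) h5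
      show piw h w = if t j < |∑ i, v j i * (sgn (w i) - Real.tanh (h i))| then piw h w else 0
      rw [if_pos (not_le.1 hj)]
    refine (Finset.sum_le_sum h3).trans ?_
    refine (Finset.sum_le_sum_of_subset_of_nonneg (Finset.filter_subset _ Finset.univ)
      fun w _ _ => Finset.sum_nonneg fun j _ => ?_).trans ?_
    · split_ifs
      · exact piw_nonneg h w
      · exact le_rfl
    · rw [Finset.sum_comm]
      refine le_of_eq (Finset.sum_congr rfl fun j _ => ?_)
      rw [Finset.sum_filter]
  have h4 : ∑ j, ∑ w ∈ Finset.univ.filter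
        (fun w : Fin N → Bool => t j < |∑ i, v j i * (sgn (w i) - Real.tanh (h i))|), piw h w ≤
      ∑ j, (∑ i, v j i ^ 2) / t j ^ 2 :=
    Finset.sum_le_sum fun j _ => piw_cheb h (v j) (ht j)
  linarith

end Pool.Agent.IP49.SR
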