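import Pool.Agent.IP49.SLim
import Pool.Agent.IP49.SMass
import Pool.Agent.IP49.SGood
import Pool.Agent.IP49.LDefs

/-!
# IP49, part S: the output for part L (`SOutL`)
-/

set_option autoImplicit false
open MeasureTheory ProbabilityTheory Filter Topology

namespace Pool.Agent.IP49.SR

noncomputable section

/-- the sign vector of a configuration -/
def sv {N : ℕ} (w : Fin N → Bool) : Fin N → ℝ := fun i => sgn (w i)

theorem sgn_sq (b : Bool) : sgn b * sgn b = 1 := by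
  unfold sgn; split_ifs <;> norm_num

theorem nrm_sv {N : ℕ} (w : Fin N → Bool) : nrm (sv w) = Real.sqrt N := by
  unfold nrm dot sv
  simp_rw [sgn_sq]
  simp

theorem dot_sv_sub {N : ℕ} (v h : Fin N → ℝ) (w : Fin N → Bool) :
    ∑ i, v i * (sgn (w i) - Real.tanh (h i)) = dot v (sv w) - dot v (fun i => Real.tanh (h i)) := by
  unfold dot sv
  rw [← Finset.sum_sub_distrib]
  exact Finset.sum_congr rfl fun i _ => by ring

/-- the four kinds of slices: `mh s`, `eta s` (`s < K`), `h`, `tanh h` -/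
def slv (κ ν ψ : ℝ) {M N K : ℕ} (ω : Om M N K) : (Fin K ⊕ Fin K) ⊕ Fin 2 → Fin N → ℝ
  | Sum.inl (Sum.inl s) => mh κ ν ψ (ext ω.1.1) s
  | Sum.inl (Sum.inr s) => ext ω.1.1 s
  | Sum.inr j => if j = 0 then hv κ ν ψ ω else tv κ ν ψ ω

open Classical in
/-- the slice -/
def Tset (κ ν ψ δ : ℝ) {M N K : ℕ} (ω : Om M N K) : Finset (Fin N → Bool) :=
  Finset.univ.filter fun w => ∀ j : Fin (Fintype.card ((Fin K ⊕ Fin K) ⊕ Fin 2)),
    |∑ i, slv κ ν ψ ω ((Fintype.equivFin _).symm j) i * (sgn (w i) - Real.tanh (hv κ ν ψ ω i))|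
      ≤ δ * N

theorem mem_Tset {κ ν ψ δ : ℝ} {M N K : ℕ} {ω : Om M N K} {w : Fin N → Bool}
    (hw : w ∈ Tset κ ν ψ δ ω) (j : (Fin K ⊕ Fin K) ⊕ Fin 2) :
    |dot (slv κ ν ψ ω j) (sv w) - dot (slv κ ν ψ ω j) (tv κ ν ψ ω)| ≤ δ * N := by
  have := (Finset.mem_filter.mp hw).2 (Fintype.equivFin _ j)
  rw [Equiv.symm_apply_apply, dot_sv_sub] at this
  exact this

theorem slv_sq {κ ν ψ θ : ℝ} {M N K : ℕ} {ω : Om M N K} (h : Pk κ ν ψ θ ω) (hψ : 0 < ψ)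
    (j : (Fin K ⊕ Fin K) ⊕ Fin 2) :
    ∑ i, slv κ ν ψ ω j i ^ 2 ≤ (ψ + 4) * N := by
  have hN := h.Npos
  rw [← nrm_sq_eq]
  have key : ∀ v : Fin N → ℝ, nrm v ≤ 2 * Real.sqrt N → nrm v ^ 2 ≤ (ψ + 4) * N := by
    intro v hv
    have h1 : nrm v ^ 2 ≤ (2 * Real.sqrt N) ^ 2 := by
      have := nrm_nonneg v
      nlinarith
    rw [mul_pow, Real.sq_sqrt hN.le] at h1
    nlinarith
  rcases j with (s | s) | j
  · exact key _ (h.nrm_mh s.2)
  · exact key _ (h.nrm_e s.2)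
  · simp only [slv]
    split_ifs
    · have h1 := (abs_le.mp h.good.hh1).2
      have h2 : dot (hv κ ν ψ ω) (hv κ ν ψ ω) / N ≤ ψ + 4 := by have := h.small; linarith
      rw [div_le_iff₀ hN] at h2
      rw [nrm_sq]; exact h2
    · refine key _ ((Pk.nrm_tanh_le _).trans ?_)
      have := h.sN
      linarith

theorem Tset_mass {κ ν ψ θ δ : ℝ} {M N K : ℕ} {ω : Om M N K} (h : Pk κ ν ψ θ ω) (hψ : 0 < ψ)
    (hδ : 0 < δ) :
    1 - (2 * K + 2) * ((ψ + 4) / (δ ^ 2 * N)) ≤ ∑ w ∈ Tset κ ν ψ δ ω, piw (hv κ ν ψ ω) w := by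
  have hN := h.Npos
  have h1 := piw_slices (hv κ ν ψ ω)
    (fun j : Fin (Fintype.card ((Fin K ⊕ Fin K) ⊕ Fin 2)) =>
      slv κ ν ψ ω ((Fintype.equivFin _).symm j)) (fun _ => δ * N) (fun _ => by positivity)
  have h2 : ∑ j : Fin (Fintype.card ((Fin K ⊕ Fin K) ⊕ Fin 2)),
      (∑ i, slv κ ν ψ ω ((Fintype.equivFin _).symm j) i ^ 2) / (δ * N) ^ 2
      ≤ (2 * K + 2) * ((ψ + 4) / (δ ^ 2 * N)) := by
    have h3 : ∀ j ∈ (Finset.univ : Finset (Fin (Fintype.card ((Fin K ⊕ Fin K) ⊕ Fin 2)))),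
        (∑ i, slv κ ν ψ ω ((Fintype.equivFin _).symm j) i ^ 2) / (δ * N) ^ 2
        ≤ (ψ + 4) / (δ ^ 2 * N) := by
      intro j _
      have h4 := slv_sq h hψ ((Fintype.equivFin _).symm j)
      rw [div_le_div_iff₀ (by positivity) (by positivity)]
      calc _ ≤ ((ψ + 4) * N) * (δ ^ 2 * N) :=
            mul_le_mul_of_nonneg_right h4 (by positivity)
        _ = _ := by ring
    refine (Finset.sum_le_sum h3).trans (le_of_eq ?_)
    rw [Finset.sum_const, Finset.card_univ, Fintype.card_fin, nsmul_eq_mul]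
    simp only [Fintype.card_sum, Fintype.card_fin]
    push_cast
    ring
  have h5 : (Finset.univ.filter (fun w : Fin N → Bool =>
        ∀ j : Fin (Fintype.card ((Fin K ⊕ Fin K) ⊕ Fin 2)),
          |∑ i, slv κ ν ψ ω ((Fintype.equivFin _).symm j) i
            * (sgn (w i) - Real.tanh (hv κ ν ψ ω i))| ≤ δ * N)) = Tset κ ν ψ δ ω := by
    rw [Tset]
  rw [← h5]
  refine le_trans (by linarith) h1

theorem cfg_of_Pk {κ ψ δ ε : ℝ} {M N K : ℕ} {ω : Om M N K} (hψ : 0 < ψ) (hδ : 0 < δ)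
    (hδε : δ ≤ ε) (hε1 : ε ≤ 1)
    (hK : 7 ^ K * δ ≤ 1 / 2) (hM : 0 < M) (hN : 0 < N) (hg : Good κ 0 ψ δ ω)
    (hr : |(M : ℝ) / N - al κ 0 ψ| ≤ δ) {β : ℝ} (hβ : 0 ≤ β) (hβε : (al κ 0 ψ + 1) * β ≤ ε)
    (b1 : EB κ 0 ψ K (7 ^ K * δ) ≤ β)
    (b2 : dF κ 0 ψ K (7 ^ K * δ)
      + 7 ^ K * δ * ∑ s ∈ Finset.range K, bs κ 0 ψ s / Real.sqrt (al κ 0 ψ) ≤ β)
    (b4 : 8 * K * (7 ^ K * δ) + (1 - rho κ 0 ψ K) ≤ β)
    (hmass : (2 * K + 2) * ((ψ + 4) / (δ ^ 2 * N)) ≤ ε) :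
    Cfg κ ψ ε (hv κ 0 ψ ω) (hhv κ 0 ψ ω) (fun G => GR κ 0 ψ (ω, G))
      (fun j : Fin K => cc κ 0 ψ ω j)
      (fun a => ∑ j : Fin K, dot (cc κ 0 ψ ω j) (Fv κ 0 ψ ω) * cc κ 0 ψ ω j a)
      (fun w i => projs (Finset.range K) (rr κ 0 ψ ω) (sv w) i / Real.sqrt N)
      (fun w => errw κ 0 ψ ω (sv w)) (Tset κ 0 ψ δ ω) := by
  have h : Pk κ 0 ψ (7 ^ K * δ) ω := Pk.of_good hM hN hδ.le hK hg hr
  have ht : Tm κ 0 ψ := Tm.of le_rfl hψ
  have hal := ht.hal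
  have hNp := h.Npos
  have hsN := h.sN
  have e2 : Real.sqrt N * Real.sqrt N = N := Real.mul_self_sqrt hNp.le
  have hβ1 : β ≤ ε := by nlinarith
  have hε0 : 0 < ε := lt_of_lt_of_le hδ hδε
  -- slices
  have sl : ∀ v : Fin N → ℝ, ∀ a : ℝ, 0 < K → |dot v (tv κ 0 ψ ω) / N - a| ≤ δ →
      ∀ w : Fin N → Bool, |dot v (sv w) - dot v (tv κ 0 ψ ω)| ≤ δ * N →
      |dot v (sv w) / N - a| ≤ 7 ^ K * δ := by
    intro v a hK0 h1 w h2
    have h3 : |dot v (sv w) / N - dot v (tv κ 0 ψ ω) / N| ≤ δ := by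
      rw [← sub_div, abs_div, abs_of_pos hNp, div_le_iff₀ hNp]; exact h2
    have h4 := abs_sub_le (dot v (sv w) / N) (dot v (tv κ 0 ψ ω) / N) a
    have h5 : (7 : ℝ) ≤ 7 ^ K := by
      calc (7 : ℝ) = 7 ^ 1 := by norm_num
        _ ≤ 7 ^ K := pow_le_pow_right₀ (by norm_num) hK0
    nlinarith
  have slm : ∀ w ∈ Tset κ 0 ψ δ ω, ∀ s < K,
      |dot (mh κ 0 ψ (ext ω.1.1) s) (sv w) / N - as κ 0 ψ s| ≤ 7 ^ K * δ := by
    intro w hw s hs
    exact sl _ _ (by omega) (hg.mht s hs) w (mem_Tset hw (Sum.inl (Sum.inl ⟨s, hs⟩)))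
  have sle : ∀ w ∈ Tset κ 0 ψ δ ω, ∀ s < K,
      |dot (ext ω.1.1 s) (sv w) / N - bs κ 0 ψ s * (1 - qp ψ)| ≤ 7 ^ K * δ := by
    intro w hw s hs
    exact sl _ _ (by omega) (hg.eh s hs) w (mem_Tset hw (Sum.inl (Sum.inr ⟨s, hs⟩)))
  have nw : ∀ w : Fin N → Bool, nrm (sv w) ≤ Real.sqrt N := fun w => (nrm_sv w).le
  refine ⟨?_, ?_, ?_, ?_, ?_, ?_, ?_, ?_, ?_⟩
  · -- orth
    intro i j
    have := h.onc.dot_eq (Finset.mem_range.mpr i.2) (Finset.mem_range.mpr j.2)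
    change dot (cc κ 0 ψ ω i) (cc κ 0 ψ ω j) = _
    rw [cc, this]
    simp only [Fin.ext_iff]
  · -- span
    exact ⟨fun j => dot (cc κ 0 ψ ω j) (Fv κ 0 ψ ω), fun a => rfl⟩
  · -- near_n
    have h1 := h.nrm_projs_Fv ht
    have e : ∑ a, ((∑ j : Fin K, dot (cc κ 0 ψ ω j) (Fv κ 0 ψ ω) * cc κ 0 ψ ω j a)
        - FF κ 0 (qp ψ) (hhv κ 0 ψ ω a)) ^ 2
        = nrm (projs (Finset.range K) (cc κ 0 ψ ω) (Fv κ 0 ψ ω)) ^ 2 := by
      rw [nrm_sq_eq]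
      refine Finset.sum_congr rfl fun a _ => ?_
      have : projs (Finset.range K) (cc κ 0 ψ ω) (Fv κ 0 ψ ω) a
          = Fv κ 0 ψ ω a - ∑ j : Fin K, dot (cc κ 0 ψ ω j) (Fv κ 0 ψ ω) * cc κ 0 ψ ω j a := by
        simp only [projs, Pi.sub_apply, Finset.sum_apply, Pi.smul_apply, smul_eq_mul]
        rw [Finset.sum_range (fun s => dot (cc κ 0 ψ ω s) (Fv κ 0 ψ ω) * cc κ 0 ψ ω s a)]
      rw [this, Fv]; ring
    rw [e]
    have h2 : nrm (projs (Finset.range K) (cc κ 0 ψ ω) (Fv κ 0 ψ ω)) ≤ ε * Real.sqrt N := by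
      calc _ ≤ β * Real.sqrt M := h1.trans (mul_le_mul_of_nonneg_right b2 (Real.sqrt_nonneg _))
        _ ≤ β * ((al κ 0 ψ + 1) * Real.sqrt N) := mul_le_mul_of_nonneg_left (h.sM_le ht) hβ
        _ = ((al κ 0 ψ + 1) * β) * Real.sqrt N := by ring
        _ ≤ ε * Real.sqrt N := mul_le_mul_of_nonneg_right hβε hsN.le
    have h3 := nrm_nonneg (projs (Finset.range K) (cc κ 0 ψ ω) (Fv κ 0 ψ ω))
    calc nrm (projs (Finset.range K) (cc κ 0 ψ ω) (Fv κ 0 ψ ω)) ^ 2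
        ≤ (ε * Real.sqrt N) ^ 2 := by nlinarith
      _ = ε ^ 2 * N := by rw [mul_pow, Real.sq_sqrt hNp.le]
      _ ≤ ε * N := mul_le_mul_of_nonneg_right (by nlinarith) hNp.le
  · -- mass
    have := Tset_mass h hψ hδ
    linarith
  · -- sl_h
    intro w hw
    have h1 := mem_Tset hw (Sum.inr 0)
    rw [dot_sv_sub]
    have h2 : slv κ 0 ψ ω (Sum.inr 0) = hv κ 0 ψ ω := by simp [slv]
    rw [h2] at h1
    refine h1.trans ?_
    exact mul_le_mul_of_nonneg_right hδε hNp.le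
  · -- sl_m
    intro w hw
    have h1 := mem_Tset hw (Sum.inr 1)
    have h2 : slv κ 0 ψ ω (Sum.inr 1) = tv κ 0 ψ ω := by simp [slv]
    rw [h2] at h1
    rw [dot_sv_sub (fun i => Real.tanh (hv κ 0 ψ ω i))]
    refine le_trans h1 ?_
    exact mul_le_mul_of_nonneg_right hδε hNp.le
  · -- form
    intro w hw G a
    have h1 := mvl_GR hN h.onc h.onr G (sv w)
    have h2 : yv (GR κ 0 ψ (ω, G)) w a = mvl (GR κ 0 ψ (ω, G)) (sv w) a / Real.sqrt N := rfl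
    have h3 : qC (fun j : Fin K => cc κ 0 ψ ω j)
        (mulv G fun i => projs (Finset.range K) (rr κ 0 ψ ω) (sv w) i / Real.sqrt N) a
        = projs (Finset.range K) (cc κ 0 ψ ω)
          (mvl G (projs (Finset.range K) (rr κ 0 ψ ω) (sv w))) a / Real.sqrt N := by
      have h4 : (mulv G fun i => projs (Finset.range K) (rr κ 0 ψ ω) (sv w) i / Real.sqrt N)
          = fun a => mvl G (projs (Finset.range K) (rr κ 0 ψ ω) (sv w)) a / Real.sqrt N := by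
        funext a
        simp only [mulv, mvl, dot]
        rw [Finset.sum_div]
        exact Finset.sum_congr rfl fun i _ => by ring
      rw [qC, pC, h4]
      simp only [projs, Pi.sub_apply, Finset.sum_apply, Pi.smul_apply, smul_eq_mul]
      rw [Finset.sum_range (fun s => dot (cc κ 0 ψ ω s)
        (mvl G (sv w - ∑ s ∈ Finset.range K, dot (rr κ 0 ψ ω s) (sv w) • rr κ 0 ψ ω s))
        * cc κ 0 ψ ω s a)]
      rw [sub_div, Finset.sum_div]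
      congr 1
      refine Finset.sum_congr rfl fun j _ => ?_
      rw [mul_div_right_comm]
      congr 1
      simp only [dot]
      rw [Finset.sum_div]
      exact Finset.sum_congr rfl fun b _ => by rw [mul_div_assoc]
    rw [h3, h2, h1]
    simp only [Pi.add_apply, Pi.smul_apply, smul_eq_mul, Fv]
    rw [add_div, mul_div_cancel_left₀ _ hsN.ne']
  · -- err
    intro w hw
    have h1 := h.nrm_errw ht (nw w) (slm w hw) (sle w hw)
    have h2 := nrm_nonneg (errw κ 0 ψ ω (sv w))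
    rw [← nrm_sq_eq]
    have h3 : nrm (errw κ 0 ψ ω (sv w)) ≤ ε * Real.sqrt N :=
      h1.trans (mul_le_mul_of_nonneg_right (b1.trans hβ1) hsN.le)
    calc nrm (errw κ 0 ψ ω (sv w)) ^ 2 ≤ (ε * Real.sqrt N) ^ 2 := by nlinarith
      _ = ε ^ 2 * N := by rw [mul_pow, Real.sq_sqrt hNp.le]
      _ ≤ ε * N := mul_le_mul_of_nonneg_right (by nlinarith) hNp.le
  · -- ovl
    intro w hw w' hw'
    have h1 := h.overlap ht (nw w) (nw w') (slm w hw) (slm w' hw')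
    have h2 : ∑ i, projs (Finset.range K) (rr κ 0 ψ ω) (sv w) i / Real.sqrt N
        * (projs (Finset.range K) (rr κ 0 ψ ω) (sv w') i / Real.sqrt N)
        = dot (projs (Finset.range K) (rr κ 0 ψ ω) (sv w))
          (projs (Finset.range K) (rr κ 0 ψ ω) (sv w')) / N := by
      unfold dot
      rw [Finset.sum_div]
      exact Finset.sum_congr rfl fun i _ => by rw [div_mul_div_comm, e2]
    have h3 : ov w w' = dot (sv w) (sv w') / N := rfl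
    rw [h2, h3]
    exact (h1.trans b4).trans hβ1

theorem floor_ratio {a δ : ℝ} (ha : 0 < a) (hδ : 0 < δ) :
    ∀ᶠ N : ℕ in atTop, 0 < ⌊a * N⌋₊ ∧ |((⌊a * N⌋₊ : ℕ) : ℝ) / N - a| ≤ δ := by
  obtain ⟨N0, hN0⟩ := exists_nat_ge (max (1 / δ) (2 / a) + 1)
  filter_upwards [eventually_ge_atTop N0] with N hN
  have h1 : (N0 : ℝ) ≤ N := by exact_mod_cast hN
  have h2 : 1 / δ ≤ N := by have := le_max_left (1 / δ) (2 / a); linarith
  have h3 : 2 / a ≤ N := by have := le_max_right (1 / δ) (2 / a); linarith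
  have h4 : (0 : ℝ) < N := lt_of_lt_of_le (by positivity) h2
  have h5 : 2 ≤ a * N := by rw [div_le_iff₀ ha] at h3; linarith
  have h6 : (1 : ℝ) ≤ δ * N := by rw [div_le_iff₀ hδ] at h2; linarith
  have h7 := Nat.floor_le (by positivity : 0 ≤ a * N)
  have h8 := Nat.lt_floor_add_one (a * N)
  constructor
  · have : (0 : ℝ) < (⌊a * N⌋₊ : ℝ) := by linarith
    exact_mod_cast this
  · have e : ((⌊a * N⌋₊ : ℕ) : ℝ) / N - a = (((⌊a * N⌋₊ : ℕ) : ℝ) - a * N) / N := by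
      field_simp
    rw [e, abs_div, abs_of_pos h4, div_le_iff₀ h4, abs_le]
    constructor <;> linarith

theorem cfg_mono {κ ψ ε ε' : ℝ} {K M N : ℕ} {h : Fin N → ℝ} {hh : Fin M → ℝ}
    {R : (Fin M → Fin N → ℝ) → Fin M → Fin N → ℝ} {c : Fin K → Fin M → ℝ} {n : Fin M → ℝ}
    {u : (Fin N → Bool) → Fin N → ℝ} {e : (Fin N → Bool) → Fin M → ℝ}
    {T : Finset (Fin N → Bool)} (hc : Cfg κ ψ ε' h hh R c n u e T) (hε : ε' ≤ ε) :
    Cfg κ ψ ε h hh R c n u e T where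
  orth := hc.orth
  span := hc.span
  near_n := hc.near_n.trans (mul_le_mul_of_nonneg_right hε (Nat.cast_nonneg _))
  mass := by have := hc.mass; linarith
  sl_h := fun w hw => (hc.sl_h w hw).trans (mul_le_mul_of_nonneg_right hε (Nat.cast_nonneg _))
  sl_m := fun w hw => (hc.sl_m w hw).trans (mul_le_mul_of_nonneg_right hε (Nat.cast_nonneg _))
  form := hc.form
  err := fun w hw => (hc.err w hw).trans (mul_le_mul_of_nonneg_right hε (Nat.cast_nonneg _))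
  ovl := fun w hw w' hw' => (hc.ovl w hw w' hw').trans hε

/-- THE OUTPUT OF PART S FOR PART L -/
theorem SOutL_holds {κ ψ : ℝ} (hψ : 0 < ψ) (hAT : AT κ 0 ψ < 1) : SOutL κ ψ := by
  intro ε hε
  have hal : 0 < al κ 0 ψ := al_pos le_rfl hψ
  set ε' : ℝ := min ε 1 with hε'
  have he0 : 0 < ε' := lt_min hε one_pos
  set β : ℝ := ε' / (al κ 0 ψ + 1) with hβ
  have hβ0 : 0 < β := by positivity
  have hβε : (al κ 0 ψ + 1) * β ≤ ε' := by
    rw [hβ, mul_div_cancel₀ _ (by positivity : al κ 0 ψ + 1 ≠ 0)]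
  obtain ⟨K, θ₀, hθ0, hθ1, hb⟩ := exists_K_theta (κ := κ) le_rfl hψ hAT hβ0
  have h7 : (0 : ℝ) < 7 ^ K := by positivity
  set δ : ℝ := min (θ₀ / 7 ^ K) ε' with hδ
  have hδ0 : 0 < δ := lt_min (by positivity) he0
  have hδ7 : 7 ^ K * δ ≤ θ₀ := by
    have := min_le_left (θ₀ / 7 ^ K) ε'
    calc 7 ^ K * δ ≤ 7 ^ K * (θ₀ / 7 ^ K) := mul_le_mul_of_nonneg_left this h7.le
      _ = θ₀ := mul_div_cancel₀ _ h7.ne'
  obtain ⟨b1, b2, _, b4⟩ := hb (7 ^ K * δ) (by positivity) hδ7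
  refine ⟨K, ?_⟩
  have ev1 := floor_ratio hal hδ0
  have ev2 : ∀ᶠ N : ℕ in atTop, (2 * K + 2) * ((ψ + 4) / (δ ^ 2 * N)) ≤ ε' := by
    obtain ⟨N0, hN0⟩ := exists_nat_ge ((2 * K + 2) * (ψ + 4) / (δ ^ 2 * ε') + 1)
    filter_upwards [eventually_ge_atTop N0] with N hN
    have h1 : (N0 : ℝ) ≤ N := by exact_mod_cast hN
    have h2 : (2 * K + 2) * (ψ + 4) / (δ ^ 2 * ε') ≤ N := by linarith
    have h3 : (0 : ℝ) < N := by
      have : 0 ≤ (2 * K + 2) * (ψ + 4) / (δ ^ 2 * ε') := by positivity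
      linarith
    rw [div_le_iff₀ (by positivity)] at h2
    rw [← mul_div_assoc, div_le_iff₀ (by positivity)]
    linarith
  have ev3 : ∀ᶠ N : ℕ in atTop,
      (omLaw ⌊al κ 0 ψ * N⌋₊ N K).real {ω | ¬ Good κ 0 ψ δ ω} < ε' :=
    (good_tendsto le_rfl hψ K hδ0).eventually (gt_mem_nhds he0)
  filter_upwards [ev1, ev2, ev3, eventually_gt_atTop 0] with N hN1 hN2 hN3 hN4
  refine ⟨Om ⌊al κ 0 ψ * N⌋₊ N K, inferInstance, omLaw _ _ _, inferInstance, hv κ 0 ψ,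
    hhv κ 0 ψ, GR κ 0 ψ, measurable_hv _ _ _ _ _ _, measurable_hhv _ _ _ _ _ _,
    GR_measurable _ _ _, hv_law le_rfl hψ _ _ _, hhv_law le_rfl hψ _ _ _,
    (GR_law κ 0 ψ hN1.1 hN4).map_eq, ?_⟩
  refine le_trans (measureReal_mono ?_ (measure_ne_top _ _)) (hN3.le.trans (min_le_left _ _))
  intro ω hω hg
  have hc := cfg_of_Pk (ε := ε') hψ hδ0 (min_le_right _ _) (min_le_right _ _)
    (hδ7.trans hθ1) hN1.1 hN4 hg hN1.2 hβ0.le hβε b1 b2 b4 hN2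
  exact hω ⟨_, _, _, _, _, cfg_mono hc (min_le_left _ _)⟩

end

end Pool.Agent.IP49.SR
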