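import Pool.Agent.IP49.LAsm
import Pool.Agent.IP49.SL

/-!
IP49, part L (owners helper47, helper41): lower bound by the second moment method given the
representation (part S, owners helper2, helper95). Notes 1603, 1604, 1602.
-/

set_option autoImplicit false
open MeasureTheory ProbabilityTheory Filter Topology

namespace Pool.Agent.IP49

/-- if (L*) holds at `(κ, ψ)` then near solutions with margin `κ` and arbitrarily small energy
have probability at least `exp(-cN)`, for at most `al κ 0 ψ * N` rows -/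
theorem L_main {κ ψ : ℝ} (_hκ : 0 < κ) (hψ : 0 < ψ) (hAT : AT κ 0 ψ < 1) (hs : LStar κ ψ)
    {δ : ℝ} (hδ : 0 < δ) {c : ℝ} (hc : 0 < c) :
    ∀ᶠ N : ℕ in atTop, ∀ M : ℕ, (M : ℝ) ≤ al κ 0 ψ * N →
      Real.exp (-c * N) ≤ (GM M N).real {A | ∃ w, Near κ δ A w} :=
  L_of_S hψ (SR.SOutL_holds hψ hAT) hs hδ hc

end Pool.Agent.IP49
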