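import Pool.Agent.IP49.LKer
import Pool.Agent.IP49.TMom

/-!
IP49, L5: the pair probability with tilt `th = lam` as a power series with nonnegative
coefficients, `Tl lam z = ∑ lam^n c_n(z)`, and the truncated bound.
-/

set_option autoImplicit false
open MeasureTheory ProbabilityTheory Filter Topology

namespace Pool.Agent.IP49


/-- density of `ξ - E(z)` given `ξ ≥ z`, with respect to the Gaussian measure -/
noncomputable def fz (z x : ℝ) : ℝ :=
  if z - Mi z ≤ x then Real.exp (-(Mi z * x) - Mi z ^ 2 / 2) / Ph z else 0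

/-- the normalised pair probability -/
noncomputable def Tl (lam z : ℝ) : ℝ :=
  Pl lam (z + lam * Mi z) * Real.exp (lam * Mi z ^ 2) / Ph z ^ 2

/-- one-dimensional Cameron - Martin -/
theorem cm1 (a : ℝ) (g : ℝ → ℝ) :
    ∫ x, g x * Real.exp (a * x) ∂(gaussianReal 0 1) = Real.exp (a ^ 2 / 2) * ∫ x, g (x + a) ∂(gaussianReal 0 1) := by
  rw [integral_gaussianReal_eq_integral_smul one_ne_zero,
    integral_gaussianReal_eq_integral_smul one_ne_zero, ← integral_const_mul]
  rw [← integral_add_right_eq_self (fun x => gaussianPDFReal 0 1 x • (g x * Real.exp (a * x))) a]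
  congr 1
  funext x
  simp only [gaussianPDFReal_def, smul_eq_mul, NNReal.coe_one, mul_one, sub_zero]
  have : Real.exp (-(x + a) ^ 2 / 2) * Real.exp (a * (x + a))
      = Real.exp (a ^ 2 / 2) * Real.exp (-x ^ 2 / 2) := by
    rw [← Real.exp_add, ← Real.exp_add]; congr 1; ring
  calc (Real.sqrt (2 * Real.pi))⁻¹ * Real.exp (-(x + a) ^ 2 / 2) * (g (x + a) * Real.exp (a * (x + a)))
      = (Real.sqrt (2 * Real.pi))⁻¹ * g (x + a)
        * (Real.exp (-(x + a) ^ 2 / 2) * Real.exp (a * (x + a))) := by ring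
    _ = _ := by rw [this]; ring

theorem measurable_fz (z : ℝ) : Measurable (fz z) := by
  unfold fz
  exact Measurable.ite measurableSet_Ici (by fun_prop) measurable_const

theorem fz_nonneg (z x : ℝ) : 0 ≤ fz z x := by
  unfold fz
  split_ifs
  · exact div_nonneg (Real.exp_pos _).le (Ph_pos z).le
  · exact le_rfl

/-- expectations under the centred truncated law -/
theorem fz_int (z : ℝ) (g : ℝ → ℝ) :
    ∫ x, g x * fz z x ∂(gaussianReal 0 1) = (∫ x in Set.Ici z, g (x - Mi z) ∂(gaussianReal 0 1)) / Ph z := by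
  have e : ∀ x, g x * fz z x = (Real.exp (-(Mi z ^ 2) / 2) / Ph z)
      * (((Set.Ici (z - Mi z)).indicator g x) * Real.exp (-Mi z * x)) := by
    intro x
    unfold fz
    by_cases h : z - Mi z ≤ x
    · rw [if_pos h, Set.indicator_of_mem (Set.mem_Ici.2 h)]
      have : Real.exp (-(Mi z * x) - Mi z ^ 2 / 2)
          = Real.exp (-(Mi z ^ 2) / 2) * Real.exp (-Mi z * x) := by
        rw [← Real.exp_add]; congr 1; ring
      rw [this]; ring
    · rw [if_neg h, Set.indicator_of_notMem (by simpa using h)]; ring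
  simp only [e]
  rw [integral_const_mul, cm1]
  have e2 : ∀ x, (Set.Ici (z - Mi z)).indicator g (x + -Mi z)
      = (Set.Ici z).indicator (fun x => g (x - Mi z)) x := by
    intro x
    by_cases h : z ≤ x
    · rw [Set.indicator_of_mem (Set.mem_Ici.2 h), Set.indicator_of_mem (by
        rw [Set.mem_Ici]; linarith)]
      rfl
    · rw [Set.indicator_of_notMem (by simpa using h), Set.indicator_of_notMem (by
        rw [Set.mem_Ici]; intro h2; exact h (by linarith))]
  simp only [e2]
  rw [integral_indicator measurableSet_Ici]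
  have : Real.exp (-(Mi z ^ 2) / 2) * Real.exp ((-Mi z) ^ 2 / 2) = 1 := by
    rw [← Real.exp_add, ← Real.exp_zero]; congr 1; ring
  calc Real.exp (-(Mi z ^ 2) / 2) / Ph z * (Real.exp ((-Mi z) ^ 2 / 2)
        * ∫ x in Set.Ici z, g (x - Mi z) ∂(gaussianReal 0 1))
      = (Real.exp (-(Mi z ^ 2) / 2) * Real.exp ((-Mi z) ^ 2 / 2))
        * (∫ x in Set.Ici z, g (x - Mi z) ∂(gaussianReal 0 1)) / Ph z := by ring
    _ = _ := by rw [this, one_mul]

theorem fz_le (z x : ℝ) : fz z x ≤ Real.exp (-(Mi z * x) - Mi z ^ 2 / 2) / Ph z := by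
  unfold fz
  split_ifs
  · exact le_rfl
  · exact div_nonneg (Real.exp_pos _).le (Ph_pos z).le

/-- square integrability and the value of the second moment of the density -/
theorem fz_sq (z : ℝ) : ∫ x, fz z x ^ 2 ∂(gaussianReal 0 1) = T1 z := by
  have e : ∀ x, fz z x ^ 2 = (Real.exp (-(Mi z ^ 2)) / Ph z ^ 2)
      * (((Set.Ici (z - Mi z)).indicator (fun _ => (1 : ℝ)) x) * Real.exp ((-2 * Mi z) * x)) := by
    intro x
    unfold fz
    by_cases h : z - Mi z ≤ x
    · rw [if_pos h, Set.indicator_of_mem (Set.mem_Ici.2 h)]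
      have : Real.exp (-(Mi z * x) - Mi z ^ 2 / 2) ^ 2
          = Real.exp (-(Mi z ^ 2)) * Real.exp ((-2 * Mi z) * x) := by
        rw [← Real.exp_nat_mul, ← Real.exp_add]; congr 1; push_cast; ring
      rw [div_pow, this]; ring
    · rw [if_neg h, Set.indicator_of_notMem (by simpa using h)]; ring
  simp only [e]
  rw [integral_const_mul, cm1]
  have e2 : ∀ x, (Set.Ici (z - Mi z)).indicator (fun _ => (1 : ℝ)) (x + -2 * Mi z)
      = (Set.Ici (z + Mi z)).indicator (fun _ => (1 : ℝ)) x := by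
    intro x
    by_cases h : z + Mi z ≤ x
    · rw [Set.indicator_of_mem (Set.mem_Ici.2 h), Set.indicator_of_mem (by
        rw [Set.mem_Ici]; linarith)]
    · rw [Set.indicator_of_notMem (by rw [Set.mem_Ici]; intro h2; exact h (by linarith)),
        Set.indicator_of_notMem (by rw [Set.mem_Ici]; intro h2; exact h (by linarith))]
  simp only [e2]
  rw [integral_indicator measurableSet_Ici]
  simp only [integral_const, smul_eq_mul, mul_one, Measure.real, Measure.restrict_apply,
    MeasurableSet.univ, Set.univ_inter]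
  have h1 : Real.exp (-(Mi z ^ 2)) * Real.exp ((-2 * Mi z) ^ 2 / 2) = Real.exp (Mi z ^ 2) := by
    rw [← Real.exp_add]; congr 1; ring
  unfold T1
  rw [show Ph (z + Mi z) = ((gaussianReal 0 1) (Set.Ici (z + Mi z))).toReal from rfl]
  calc Real.exp (-(Mi z ^ 2)) / Ph z ^ 2 * (Real.exp ((-2 * Mi z) ^ 2 / 2)
        * ((gaussianReal 0 1) (Set.Ici (z + Mi z))).toReal)
      = (Real.exp (-(Mi z ^ 2)) * Real.exp ((-2 * Mi z) ^ 2 / 2))
        * ((gaussianReal 0 1) (Set.Ici (z + Mi z))).toReal / Ph z ^ 2 := by ring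
    _ = _ := by rw [h1]

/-- the law of `ξ - E(z)` given `ξ ≥ z` -/
noncomputable def rz (z : ℝ) : Measure ℝ :=
  (gaussianReal 0 1).withDensity fun x => ENNReal.ofReal (fz z x)

theorem exp_int {c : ℝ} (hc : c < 1) (a : ℝ) :
    Integrable (fun x : ℝ => Real.exp (a * x + c * x ^ 2 / 2)) (gaussianReal 0 1) := by
  set d := (1 - c) / 2 with hd
  have hd0 : 0 < d := by rw [hd]; linarith
  have h1 : Integrable (fun x : ℝ => Real.exp (a ^ 2 / (2 * d)) * Real.exp ((c + d) * x ^ 2 / 2)) (gaussianReal 0 1) :=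
    (int_exp_sq_gauss (by rw [hd]; linarith)).const_mul _
  apply h1.mono' (by fun_prop)
  refine Eventually.of_forall fun x => ?_
  rw [Real.norm_eq_abs, abs_of_pos (Real.exp_pos _), ← Real.exp_add]
  apply Real.exp_le_exp.2
  have h2 : 0 ≤ (a / d - x) ^ 2 * (d / 2) := by positivity
  have h3 : (a / d - x) ^ 2 * (d / 2) = a ^ 2 / (2 * d) - a * x + d * x ^ 2 / 2 := by
    field_simp
    ring
  nlinarith

theorem fz_exp_int (z : ℝ) {c : ℝ} (hc : c < 1) :
    Integrable (fun x : ℝ => Real.exp (c * x ^ 2 / 2) * fz z x) (gaussianReal 0 1) := by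
  have h := (exp_int hc (-Mi z)).const_mul (Real.exp (-(Mi z ^ 2) / 2) / Ph z)
  apply h.mono' ((by fun_prop : Measurable fun x : ℝ => Real.exp (c * x ^ 2 / 2)).mul
    (measurable_fz z)).aestronglyMeasurable
  refine Eventually.of_forall fun x => ?_
  simp only [Pi.mul_apply]
  rw [Real.norm_eq_abs, abs_of_nonneg (mul_nonneg (Real.exp_pos _).le (fz_nonneg z x))]
  calc Real.exp (c * x ^ 2 / 2) * fz z x
      ≤ Real.exp (c * x ^ 2 / 2) * (Real.exp (-(Mi z * x) - Mi z ^ 2 / 2) / Ph z) :=
        mul_le_mul_of_nonneg_left (fz_le z x) (Real.exp_pos _).le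
    _ = (Real.exp (-(Mi z ^ 2) / 2) / Ph z) * Real.exp (-Mi z * x + c * x ^ 2 / 2) := by
        have : Real.exp (c * x ^ 2 / 2) * Real.exp (-(Mi z * x) - Mi z ^ 2 / 2)
            = Real.exp (-(Mi z ^ 2) / 2) * Real.exp (-Mi z * x + c * x ^ 2 / 2) := by
          rw [← Real.exp_add, ← Real.exp_add]; congr 1; ring
        rw [← mul_div_assoc, this]; ring

theorem fz_integrable (z : ℝ) : Integrable (fz z) (gaussianReal 0 1) := by
  have h := fz_exp_int z (c := 0) (by norm_num)
  simpa using h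

theorem rz_int (z : ℝ) (g : ℝ → ℝ) : ∫ x, g x ∂(rz z) = ∫ x, g x * fz z x ∂(gaussianReal 0 1) := by
  unfold rz
  rw [integral_withDensity_eq_integral_toReal_smul (measurable_fz z).ennreal_ofReal
    (Eventually.of_forall fun x => ENNReal.ofReal_lt_top)]
  congr 1
  funext x
  rw [ENNReal.toReal_ofReal (fz_nonneg z x), smul_eq_mul, mul_comm]

theorem rz_integrable (z : ℝ) (g : ℝ → ℝ) :
    Integrable g (rz z) ↔ Integrable (fun x => g x * fz z x) (gaussianReal 0 1) := by
  unfold rz
  rw [integrable_withDensity_iff_integrable_smul' (measurable_fz z).ennreal_ofReal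
    (Eventually.of_forall fun x => ENNReal.ofReal_lt_top)]
  have : (fun x => (ENNReal.ofReal (fz z x)).toReal • g x) = fun x => g x * fz z x := by
    funext x
    rw [ENNReal.toReal_ofReal (fz_nonneg z x), smul_eq_mul, mul_comm]
  rw [this]

theorem fz_one (z : ℝ) : ∫ x, fz z x ∂(gaussianReal 0 1) = 1 := by
  have h := fz_int z (fun _ => 1)
  simp only [one_mul] at h
  rw [h]
  simp only [integral_const, smul_eq_mul, mul_one, Measure.real, Measure.restrict_apply,
    MeasurableSet.univ, Set.univ_inter]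
  exact div_self (Ph_pos z).ne'

instance (z : ℝ) : IsProbabilityMeasure (rz z) := by
  constructor
  unfold rz
  rw [withDensity_apply _ MeasurableSet.univ, Measure.restrict_univ,
    ← ofReal_integral_eq_lintegral_ofReal (fz_integrable z) (Eventually.of_forall (fz_nonneg z)),
    fz_one, ENNReal.ofReal_one]

/-- the Mehler kernel is the conditional density of the second coordinate -/
theorem kl_int {lam : ℝ} (hl : |lam| < 1) (x : ℝ) (g : ℝ → ℝ) :
    ∫ y, Kl lam x y * g y ∂(gaussianReal 0 1) = ∫ y, g (lam * x + Real.sqrt (1 - lam ^ 2) * y) ∂(gaussianReal 0 1) := by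
  have hl2 : lam ^ 2 < 1 := by rw [← sq_abs]; nlinarith [abs_nonneg lam]
  have h1 : (0 : ℝ) < 1 - lam ^ 2 := by linarith
  set r := Real.sqrt (1 - lam ^ 2) with hr
  have hr0 : 0 < r := Real.sqrt_pos.2 h1
  have hr2 : r ^ 2 = 1 - lam ^ 2 := Real.sq_sqrt h1.le
  rw [integral_gaussianReal_eq_integral_smul one_ne_zero,
    integral_gaussianReal_eq_integral_smul one_ne_zero]
  have hsub := Measure.integral_comp_mul_left
    (fun y => gaussianPDFReal 0 1 ((y) / r) • g (lam * x + y)) r
  have e1 : ∀ y : ℝ, gaussianPDFReal 0 1 (r * y / r) • g (lam * x + r * y)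
      = gaussianPDFReal 0 1 y • g (lam * x + r * y) := by
    intro y; rw [mul_div_cancel_left₀ _ hr0.ne']
  simp only [e1] at hsub
  rw [hsub]
  rw [← integral_add_left_eq_self (fun y => gaussianPDFReal 0 1 y • (Kl lam x y * g y)) (lam * x)]
  rw [abs_of_pos (inv_pos.2 hr0), smul_eq_mul, ← integral_const_mul]
  congr 1
  funext y
  simp only [smul_eq_mul]
  have key : gaussianPDFReal 0 1 (lam * x + y) * Kl lam x (lam * x + y)
      = r⁻¹ * gaussianPDFReal 0 1 (y / r) := by
    simp only [gaussianPDFReal_def, NNReal.coe_one, mul_one, sub_zero]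
    unfold Kl
    rw [← hr, ← hr2]
    have : Real.exp (-(lam * x + y) ^ 2 / 2)
        * Real.exp ((2 * lam * x * (lam * x + y) - lam ^ 2 * (x ^ 2 + (lam * x + y) ^ 2))
            / (2 * r ^ 2)) = Real.exp (-(y / r) ^ 2 / 2) := by
      rw [← Real.exp_add]
      congr 1
      have hlam : lam ^ 2 = 1 - r ^ 2 := by rw [hr2]; ring
      field_simp
      ring_nf
      have : lam ^ 3 = lam * lam ^ 2 := by ring
      have h4 : lam ^ 4 = (lam ^ 2) ^ 2 := by ring
      rw [this, h4, hlam]
      ring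
    calc (Real.sqrt (2 * Real.pi))⁻¹ * Real.exp (-(lam * x + y) ^ 2 / 2)
          * (Real.exp ((2 * lam * x * (lam * x + y) - lam ^ 2 * (x ^ 2 + (lam * x + y) ^ 2))
            / (2 * r ^ 2)) / r)
        = (Real.sqrt (2 * Real.pi))⁻¹ * (Real.exp (-(lam * x + y) ^ 2 / 2)
        * Real.exp ((2 * lam * x * (lam * x + y) - lam ^ 2 * (x ^ 2 + (lam * x + y) ^ 2))
            / (2 * r ^ 2))) / r := by ring
      _ = _ := by rw [this]; ring
  rw [← mul_assoc, key]
  ring

end Pool.Agent.IP49
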