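import Pool.Agent.IP49.LId

/-!
IP49, L5, second file: `Tl` as a double integral of the Mehler kernel, `Tl ≤ T1`, the series.
-/

set_option autoImplicit false
open MeasureTheory ProbabilityTheory Filter Topology

namespace Pool.Agent.IP49


theorem sq_lt_one_of_abs {lam : ℝ} (hl : |lam| < 1) : lam ^ 2 < 1 := by
  rw [← sq_abs]; nlinarith [abs_nonneg lam]

/-- law of the correlated coordinate -/
theorem corr_law {lam : ℝ} (hl : |lam| < 1) :
    ((gaussianReal 0 1).prod (gaussianReal 0 1)).map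
      (fun p : ℝ × ℝ => lam * p.1 + Real.sqrt (1 - lam ^ 2) * p.2) = gaussianReal 0 1 := by
  set r := Real.sqrt (1 - lam ^ 2) with hr
  have hl2 := sq_lt_one_of_abs hl
  have hr2 : r ^ 2 = 1 - lam ^ 2 := Real.sq_sqrt (by linarith)
  have h1 := gaussianReal_map_const_mul (μ := 0) (v := 1) lam
  have h2 := gaussianReal_map_const_mul (μ := 0) (v := 1) r
  have h3 : (gaussianReal 0 1).map (lam * ·) ∗ (gaussianReal 0 1).map (r * ·) = gaussianReal 0 1 := by
    rw [h1, h2, gaussianReal_conv_gaussianReal]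
    congr 1
    · ring
    · ext
      simp only [NNReal.coe_add, NNReal.coe_mk, NNReal.coe_one, mul_one]
      linarith
  rw [Measure.conv, Measure.map_prod_map _ _ (by fun_prop) (by fun_prop),
    Measure.map_map (by fun_prop) (by fun_prop)] at h3
  exact h3

theorem Kl_nonneg (lam x y : ℝ) : 0 ≤ Kl lam x y :=
  div_nonneg (Real.exp_pos _).le (Real.sqrt_nonneg _)

theorem measurable_Kl (lam : ℝ) : Measurable fun p : ℝ × ℝ => Kl lam p.1 p.2 := by
  unfold Kl; fun_prop

/-- the double integral of the kernel as a Gaussian pair expectation -/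
theorem kk_eq {lam : ℝ} (hl : |lam| < 1) (z : ℝ) :
    ∫ x, ∫ y, Kl lam x y ∂(rz z) ∂(rz z)
      = ∫ x, fz z x * ∫ y, fz z (lam * x + Real.sqrt (1 - lam ^ 2) * y) ∂(gaussianReal 0 1) ∂(gaussianReal 0 1) := by
  rw [rz_int]
  congr 1
  funext x
  rw [rz_int, kl_int hl, mul_comm]

theorem pair_integrable {lam : ℝ} (hl : |lam| < 1) (z : ℝ) :
    Integrable (fun p : ℝ × ℝ => fz z p.1 * fz z (lam * p.1 + Real.sqrt (1 - lam ^ 2) * p.2))
      ((gaussianReal 0 1).prod (gaussianReal 0 1)) := by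
  have hm : Measurable (fun p : ℝ × ℝ => lam * p.1 + Real.sqrt (1 - lam ^ 2) * p.2) := by fun_prop
  have hsq : Integrable (fun x => fz z x ^ 2) (gaussianReal 0 1) := by
    have h := ((exp_int (c := 0) (by norm_num) (-2 * Mi z)).const_mul
      (Real.exp (-(Mi z ^ 2)) / Ph z ^ 2))
    apply h.mono' ((measurable_fz z).pow_const 2).aestronglyMeasurable
    refine Eventually.of_forall fun x => ?_
    rw [Real.norm_eq_abs, abs_of_nonneg (sq_nonneg _)]
    calc fz z x ^ 2 ≤ (Real.exp (-(Mi z * x) - Mi z ^ 2 / 2) / Ph z) ^ 2 :=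
          pow_le_pow_left₀ (fz_nonneg z x) (fz_le z x) 2
      _ = _ := by
          rw [div_pow, ← Real.exp_nat_mul]
          have : Real.exp (((2 : ℕ) : ℝ) * (-(Mi z * x) - Mi z ^ 2 / 2))
              = Real.exp (-(Mi z ^ 2)) * Real.exp (-2 * Mi z * x + 0 * x ^ 2 / 2) := by
            rw [← Real.exp_add]; congr 1; push_cast; ring
          rw [this]; ring
  have h1 : Integrable (fun p : ℝ × ℝ => fz z p.1 ^ 2) ((gaussianReal 0 1).prod (gaussianReal 0 1)) :=
    hsq.comp_fst _
  have h2 : Integrable (fun p : ℝ × ℝ => fz z (lam * p.1 + Real.sqrt (1 - lam ^ 2) * p.2) ^ 2)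
      ((gaussianReal 0 1).prod (gaussianReal 0 1)) := by
    have := (integrable_map_measure (μ := (gaussianReal 0 1).prod (gaussianReal 0 1))
      (f := fun p : ℝ × ℝ => lam * p.1 + Real.sqrt (1 - lam ^ 2) * p.2)
      (g := fun x => fz z x ^ 2) ((measurable_fz z).pow_const 2).aestronglyMeasurable
      hm.aemeasurable).1 (by rw [corr_law hl]; exact hsq)
    exact this
  apply (h1.add h2).mono'
  · exact (((measurable_fz z).comp measurable_fst).mul
      ((measurable_fz z).comp hm)).aestronglyMeasurable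
  · refine Eventually.of_forall fun p => ?_
    rw [Real.norm_eq_abs, abs_of_nonneg (mul_nonneg (fz_nonneg _ _) (fz_nonneg _ _))]
    simp only [Pi.add_apply]
    nlinarith [sq_nonneg (fz z p.1 - fz z (lam * p.1 + Real.sqrt (1 - lam ^ 2) * p.2)),
      sq_nonneg (fz z p.1), sq_nonneg (fz z (lam * p.1 + Real.sqrt (1 - lam ^ 2) * p.2))]

theorem fz_sq_integrable (z : ℝ) : Integrable (fun x => fz z x ^ 2) (gaussianReal 0 1) := by
  have h := ((exp_int (c := 0) (by norm_num) (-2 * Mi z)).const_mul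
    (Real.exp (-(Mi z ^ 2)) / Ph z ^ 2))
  apply h.mono' ((measurable_fz z).pow_const 2).aestronglyMeasurable
  refine Eventually.of_forall fun x => ?_
  rw [Real.norm_eq_abs, abs_of_nonneg (sq_nonneg _)]
  calc fz z x ^ 2 ≤ (Real.exp (-(Mi z * x) - Mi z ^ 2 / 2) / Ph z) ^ 2 :=
        pow_le_pow_left₀ (fz_nonneg z x) (fz_le z x) 2
    _ = _ := by
        rw [div_pow, ← Real.exp_nat_mul]
        have : Real.exp (((2 : ℕ) : ℝ) * (-(Mi z * x) - Mi z ^ 2 / 2))
            = Real.exp (-(Mi z ^ 2)) * Real.exp (-2 * Mi z * x + 0 * x ^ 2 / 2) := by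
          rw [← Real.exp_add]; congr 1; push_cast; ring
        rw [this]; ring

theorem kk_le {lam : ℝ} (hl : |lam| < 1) (z : ℝ) :
    ∫ x, ∫ y, Kl lam x y ∂(rz z) ∂(rz z) ≤ T1 z := by
  rw [kk_eq hl]
  have hm : Measurable (fun p : ℝ × ℝ => lam * p.1 + Real.sqrt (1 - lam ^ 2) * p.2) := by fun_prop
  have hi := pair_integrable hl z
  have e : ∫ x, fz z x * ∫ y, fz z (lam * x + Real.sqrt (1 - lam ^ 2) * y) ∂(gaussianReal 0 1) ∂(gaussianReal 0 1)
      = ∫ p : ℝ × ℝ, fz z p.1 * fz z (lam * p.1 + Real.sqrt (1 - lam ^ 2) * p.2)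
          ∂((gaussianReal 0 1).prod (gaussianReal 0 1)) := by
    rw [integral_prod _ hi]
    congr 1
    funext x
    exact (integral_const_mul _ _).symm
  rw [e]
  have h1 : Integrable (fun p : ℝ × ℝ => fz z p.1 ^ 2) ((gaussianReal 0 1).prod (gaussianReal 0 1)) :=
    (fz_sq_integrable z).comp_fst _
  have h2 : Integrable (fun p : ℝ × ℝ => fz z (lam * p.1 + Real.sqrt (1 - lam ^ 2) * p.2) ^ 2)
      ((gaussianReal 0 1).prod (gaussianReal 0 1)) :=
    (integrable_map_measure (μ := (gaussianReal 0 1).prod (gaussianReal 0 1))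
      (f := fun p : ℝ × ℝ => lam * p.1 + Real.sqrt (1 - lam ^ 2) * p.2)
      (g := fun x => fz z x ^ 2) ((measurable_fz z).pow_const 2).aestronglyMeasurable
      hm.aemeasurable).1 (by rw [corr_law hl]; exact fz_sq_integrable z)
  have e1 : ∫ p : ℝ × ℝ, fz z p.1 ^ 2 ∂((gaussianReal 0 1).prod (gaussianReal 0 1)) = T1 z := by
    rw [integral_fun_fst (f := fun x => fz z x ^ 2)]
    simp [fz_sq]
  have e2 : ∫ p : ℝ × ℝ, fz z (lam * p.1 + Real.sqrt (1 - lam ^ 2) * p.2) ^ 2
      ∂((gaussianReal 0 1).prod (gaussianReal 0 1)) = T1 z := by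
    rw [← fz_sq]
    conv_rhs => rw [← corr_law hl]
    rw [integral_map hm.aemeasurable ((measurable_fz z).pow_const 2).aestronglyMeasurable]
  calc ∫ p : ℝ × ℝ, fz z p.1 * fz z (lam * p.1 + Real.sqrt (1 - lam ^ 2) * p.2)
          ∂((gaussianReal 0 1).prod (gaussianReal 0 1))
      ≤ ∫ p : ℝ × ℝ, (1 / 2 * fz z p.1 ^ 2
          + 1 / 2 * fz z (lam * p.1 + Real.sqrt (1 - lam ^ 2) * p.2) ^ 2)
          ∂((gaussianReal 0 1).prod (gaussianReal 0 1)) := by
        apply integral_mono hi ((h1.const_mul _).add (h2.const_mul _))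
        intro p
        simp only [Pi.add_apply]
        nlinarith [sq_nonneg (fz z p.1 - fz z (lam * p.1 + Real.sqrt (1 - lam ^ 2) * p.2))]
    _ = T1 z := by
        rw [integral_add (h1.const_mul _) (h2.const_mul _), integral_const_mul, integral_const_mul,
          e1, e2]
        ring

/-- two-dimensional Cameron - Martin: the pair probability -/
theorem Tl_eq {lam : ℝ} (hl : |lam| < 1) (z : ℝ) :
    Tl lam z = ∫ x, ∫ y, Kl lam x y ∂(rz z) ∂(rz z) := by
  rw [kk_eq hl]
  set r := Real.sqrt (1 - lam ^ 2) with hr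
  have hl2 := sq_lt_one_of_abs hl
  have hr2 : r ^ 2 = 1 - lam ^ 2 := Real.sq_sqrt (by linarith)
  set E := Mi z with hE
  set u := z + lam * E with hu
  set ind : ℝ → ℝ := (Set.Ici u).indicator (fun _ => (1 : ℝ)) with hind
  -- `Pl` as an iterated integral
  have hS : MeasurableSet {p : ℝ × ℝ | u ≤ p.1 ∧ u ≤ lam * p.1 + r * p.2} := by
    apply MeasurableSet.inter
    · exact measurableSet_le measurable_const measurable_fst
    · exact measurableSet_le measurable_const
        (by fun_prop : Measurable fun p : ℝ × ℝ => lam * p.1 + r * p.2)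
  have hPl : Pl lam u = ∫ x, ind x * ∫ y, ind (lam * x + r * y) ∂(gaussianReal 0 1) ∂(gaussianReal 0 1) := by
    have h0 : Pl lam u = ∫ p : ℝ × ℝ, ind p.1 * ind (lam * p.1 + r * p.2)
        ∂((gaussianReal 0 1).prod (gaussianReal 0 1)) := by
      unfold Pl
      rw [← hr, ← integral_indicator_one hS]
      congr 1
      funext p
      simp only [hind]
      by_cases h1 : u ≤ p.1
      · by_cases h2 : u ≤ lam * p.1 + r * p.2
        · rw [Set.indicator_of_mem (show p ∈ {p : ℝ × ℝ | u ≤ p.1 ∧ u ≤ lam * p.1 + r * p.2} from ⟨h1, h2⟩),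
            Set.indicator_of_mem (Set.mem_Ici.2 h1), Set.indicator_of_mem (Set.mem_Ici.2 h2)]
          simp
        · rw [Set.indicator_of_notMem (fun h => h2 h.2),
            Set.indicator_of_notMem (s := Set.Ici u) (a := lam * p.1 + r * p.2) (fun h => h2 h)]
          simp
      · rw [Set.indicator_of_notMem (fun h => h1 h.1),
          Set.indicator_of_notMem (s := Set.Ici u) (a := p.1) (fun h => h1 h)]
        simp
    have hb : Integrable (fun p : ℝ × ℝ => ind p.1 * ind (lam * p.1 + r * p.2))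
        ((gaussianReal 0 1).prod (gaussianReal 0 1)) := by
      have hmi : Measurable ind := measurable_const.indicator measurableSet_Ici
      have hi01 : ∀ x, 0 ≤ ind x ∧ ind x ≤ 1 := by
        intro x
        simp only [hind]
        by_cases h : x ∈ Set.Ici u
        · rw [Set.indicator_of_mem h]; norm_num
        · rw [Set.indicator_of_notMem h]; norm_num
      apply (integrable_const (1 : ℝ)).mono'
      · exact ((hmi.comp measurable_fst).mul (hmi.comp (by fun_prop))).aestronglyMeasurable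
      · refine Eventually.of_forall fun p => ?_
        rw [Real.norm_eq_abs, abs_of_nonneg (mul_nonneg (hi01 _).1 (hi01 _).1)]
        exact mul_le_one₀ (hi01 _).2 (hi01 _).1 (hi01 _).2
    rw [h0, integral_prod _ hb]
    congr 1
    funext x
    exact integral_const_mul (ind x) (fun y => ind (lam * x + r * y))
  -- inner integral
  have hfz : ∀ x, fz z x = (Real.exp (-(E ^ 2) / 2) / Ph z) *
      ((Set.Ici (z - E)).indicator (fun _ => (1 : ℝ)) x * Real.exp (-E * x)) := by
    intro x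
    unfold fz
    rw [← hE]
    by_cases h : z - E ≤ x
    · rw [if_pos h, Set.indicator_of_mem (Set.mem_Ici.2 h)]
      have : Real.exp (-(E * x) - E ^ 2 / 2) = Real.exp (-(E ^ 2) / 2) * Real.exp (-E * x) := by
        rw [← Real.exp_add]; congr 1; ring
      rw [this]; ring
    · rw [if_neg h, Set.indicator_of_notMem (by simpa using h)]; ring
  set j : ℝ → ℝ := (Set.Ici (z - E)).indicator (fun _ => (1 : ℝ)) with hj
  set c0 := Real.exp (-(E ^ 2) / 2) / Ph z with hc0
  have hinner : ∀ x, ∫ y, fz z (lam * x + r * y) ∂(gaussianReal 0 1)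
      = c0 * Real.exp (-E * lam * x) * (Real.exp ((-E * r) ^ 2 / 2)
        * ∫ y, j (lam * x + r * (y + -E * r)) ∂(gaussianReal 0 1)) := by
    intro x
    have e1 : ∀ y, fz z (lam * x + r * y)
        = c0 * Real.exp (-E * lam * x) * (j (lam * x + r * y) * Real.exp ((-E * r) * y)) := by
      intro y
      rw [hfz]
      have : Real.exp (-E * (lam * x + r * y)) = Real.exp (-E * lam * x) * Real.exp ((-E * r) * y) := by
        rw [← Real.exp_add]; congr 1; ring
      rw [this]; ring
    simp only [e1]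
    rw [integral_const_mul, cm1 (-E * r) (fun y => j (lam * x + r * y))]
  have houter : ∀ x, fz z x * ∫ y, fz z (lam * x + r * y) ∂(gaussianReal 0 1)
      = (c0 ^ 2 * Real.exp ((-E * r) ^ 2 / 2))
        * ((j x * ∫ y, j (lam * x + r * (y + -E * r)) ∂(gaussianReal 0 1)) * Real.exp ((-E * (1 + lam)) * x)) := by
    intro x
    rw [hinner, hfz]
    have : Real.exp ((-E * (1 + lam)) * x) = Real.exp (-E * x) * Real.exp (-E * lam * x) := by
      rw [← Real.exp_add]; congr 1; ring
    rw [this]; ring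
  simp only [houter]
  rw [integral_const_mul, cm1 (-E * (1 + lam)) (fun x => j x * ∫ y, j (lam * x + r * (y + -E * r)) ∂(gaussianReal 0 1))]
  have hshift : ∀ x, j (x + -E * (1 + lam)) = ind x := by
    intro x
    simp only [hj, hind]
    by_cases h : u ≤ x
    · rw [Set.indicator_of_mem (Set.mem_Ici.2 h), Set.indicator_of_mem]
      rw [Set.mem_Ici]; rw [hu] at h; linarith
    · rw [Set.indicator_of_notMem (s := Set.Ici u) (a := x) (fun hh => h hh),
        Set.indicator_of_notMem]
      intro hh; rw [Set.mem_Ici] at hh; apply h; rw [hu]; linarith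
  have hshift2 : ∀ x y, j (lam * (x + -E * (1 + lam)) + r * (y + -E * r)) = ind (lam * x + r * y) := by
    intro x y
    rw [← hshift]
    congr 1
    have : r * (-E * r) = -E * (1 - lam ^ 2) := by rw [← hr2]; ring
    linear_combination this
  simp only [hshift, hshift2]
  rw [← hPl]
  unfold Tl
  rw [← hE, ← hu, hc0]
  have hexp : Real.exp (-(E ^ 2) / 2) ^ 2 * Real.exp ((-E * r) ^ 2 / 2)
      * Real.exp ((-E * (1 + lam)) ^ 2 / 2) = Real.exp (lam * E ^ 2) := by
    rw [← Real.exp_nat_mul, ← Real.exp_add, ← Real.exp_add]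
    congr 1
    have : (-E * r) ^ 2 = E ^ 2 * (1 - lam ^ 2) := by rw [← hr2]; ring
    rw [this]; push_cast; ring
  calc Pl lam u * Real.exp (lam * E ^ 2) / Ph z ^ 2
      = Pl lam u * (Real.exp (-(E ^ 2) / 2) ^ 2 * Real.exp ((-E * r) ^ 2 / 2)
      * Real.exp ((-E * (1 + lam)) ^ 2 / 2)) / Ph z ^ 2 := by rw [hexp]
    _ = _ := by ring

/-- the Gaussian square exponential is integrable under the truncated law -/
theorem rz_exp_int (z : ℝ) {c : ℝ} (hc : c < 1) :
    Integrable (fun x : ℝ => Real.exp (c * x ^ 2 / 2)) (rz z) :=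
  (rz_integrable z _).2 (fz_exp_int z hc)

/-- the complexified variable -/
noncomputable def Wc (p : ℝ × ℝ) : ℂ := (p.1 : ℂ) + p.2 * Complex.I

/-- its moments; real by symmetry -/
noncomputable def mW (z : ℝ) (n : ℕ) : ℂ := ∫ p, Wc p ^ n ∂((rz z).prod (gaussianReal 0 1))

theorem mW_real (z : ℝ) (n : ℕ) : mW z n = ((mW z n).re : ℂ) := by
  have hneg : (gaussianReal 0 1).map (fun x : ℝ => -x) = gaussianReal 0 1 := by
    have := gaussianReal_map_neg (μ := 0) (v := 1)
    simpa using this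
  have hmp : MeasurePreserving (fun p : ℝ × ℝ => (p.1, -p.2)) ((rz z).prod (gaussianReal 0 1))
      ((rz z).prod (gaussianReal 0 1)) := by
    refine ⟨by fun_prop, ?_⟩
    have h := Measure.map_prod_map (rz z) (gaussianReal 0 1) (f := id) (g := fun x : ℝ => -x)
      measurable_id (by fun_prop)
    rw [hneg, Measure.map_id] at h
    exact h.symm
  have hmeas : Measurable fun p : ℝ × ℝ => Wc p ^ n := by unfold Wc; fun_prop
  have h1 : mW z n = ∫ p : ℝ × ℝ, Wc (p.1, -p.2) ^ n ∂((rz z).prod (gaussianReal 0 1)) := by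
    unfold mW
    conv_lhs => rw [← hmp.map_eq]
    rw [integral_map hmp.measurable.aemeasurable hmeas.aestronglyMeasurable]
  have h2 : ∀ p : ℝ × ℝ, Wc (p.1, -p.2) ^ n = (starRingEnd ℂ) (Wc p ^ n) := by
    intro p
    rw [map_pow]
    congr 1
    unfold Wc
    simp
  have h3 : mW z n = (starRingEnd ℂ) (mW z n) := by
    conv_lhs => rw [h1]
    simp only [h2]
    rw [integral_conj]
    rfl
  exact ((Complex.conj_eq_iff_real.1 h3.symm).elim fun r hr => by rw [hr]; simp)

/-- the coefficients of the power series -/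
noncomputable def cW (z : ℝ) (n : ℕ) : ℝ := (mW z n).re ^ 2 / n.factorial

theorem cW_nonneg (z : ℝ) (n : ℕ) : 0 ≤ cW z n := div_nonneg (sq_nonneg _) (Nat.cast_nonneg _)

/-- **the series** -/
theorem Tl_hasSum {lam : ℝ} (hl : |lam| < 1) (z : ℝ) :
    HasSum (fun n : ℕ => lam ^ n * cW z n) (Tl lam z) := by
  set ρ := (rz z).prod (gaussianReal 0 1) with hρ
  have hWm : Measurable Wc := by unfold Wc; fun_prop
  have hI : Integrable (fun w => Real.exp (|lam| * ‖Wc w‖ ^ 2 / 2)) ρ := by
    have h := (rz_exp_int z hl).mul_prod (int_exp_sq_gauss hl)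
    refine h.congr (Eventually.of_forall fun p => ?_)
    simp only
    rw [← Real.exp_add]
    congr 1
    have : ‖Wc p‖ ^ 2 = p.1 ^ 2 + p.2 ^ 2 := by
      unfold Wc
      rw [← Complex.normSq_eq_norm_sq, Complex.normSq_add_mul_I]
    rw [this]; ring
  have h1 := series_abs ρ Wc hWm lam hI
  have h2 := kernel_eval (rz z) hl (rz_exp_int z hl)
  rw [show (∫ p, Complex.exp (lam * Wc p.1 * Wc p.2) ∂(ρ.prod ρ))
      = ((∫ x, ∫ y, Kl lam x y ∂(rz z) ∂(rz z) : ℝ) : ℂ) from h2, ← Tl_eq hl] at h1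
  rw [← Complex.hasSum_ofReal]
  have e : (fun n : ℕ => ((lam ^ n * cW z n : ℝ) : ℂ))
      = fun n : ℕ => (lam : ℂ) ^ n / n.factorial * (∫ w, Wc w ^ n ∂ρ) ^ 2 := by
    funext n
    have hm : (∫ w, Wc w ^ n ∂ρ) = ((mW z n).re : ℂ) := mW_real z n
    rw [hm]
    unfold cW
    push_cast
    ring
  rw [e]
  exact h1

/-- the coefficients sum to at most `T1` -/
theorem cW_sum_le (z : ℝ) (J : ℕ) : ∑ n ∈ Finset.range J, cW z n ≤ T1 z := by
  have h : ∀ lam : ℝ, 0 ≤ lam → lam < 1 → ∑ n ∈ Finset.range J, lam ^ n * cW z n ≤ T1 z := by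
    intro lam h0 h1
    have hl : |lam| < 1 := by rw [abs_of_nonneg h0]; exact h1
    have hs := Tl_hasSum hl z
    refine (hs.summable.sum_le_tsum _ fun n _ => mul_nonneg (pow_nonneg h0 n) (cW_nonneg z n)).trans ?_
    rw [hs.tsum_eq, Tl_eq hl]
    exact kk_le hl z
  have hc : Tendsto (fun lam : ℝ => ∑ n ∈ Finset.range J, lam ^ n * cW z n) (𝓝[<] 1)
      (𝓝 (∑ n ∈ Finset.range J, cW z n)) := by
    have : Continuous fun lam : ℝ => ∑ n ∈ Finset.range J, lam ^ n * cW z n := by fun_prop
    have h2 := this.tendsto 1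
    simp only [one_pow, one_mul] at h2
    exact h2.mono_left nhdsWithin_le_nhds
  apply le_of_tendsto hc
  have : ∀ᶠ lam : ℝ in 𝓝[<] 1, 0 ≤ lam ∧ lam < 1 := by
    have h1 : ∀ᶠ lam : ℝ in 𝓝[<] 1, (0 : ℝ) < lam :=
      (Ioi_mem_nhds (by norm_num : (0 : ℝ) < 1)) |> fun h => mem_nhdsWithin_of_mem_nhds h
    filter_upwards [h1, self_mem_nhdsWithin] with lam a b
    exact ⟨a.le, b⟩
  filter_upwards [this] with lam hh
  exact h lam hh.1 hh.2

/-- **the truncated bound** -/
theorem Tl_le {lam : ℝ} (hl : |lam| < 1) (z : ℝ) (J : ℕ) :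
    Tl lam z ≤ ∑ n ∈ Finset.range J, lam ^ n * cW z n
      + |lam| ^ J * (T1 z - ∑ n ∈ Finset.range J, cW z n) := by
  have hs := Tl_hasSum hl z
  have hsum : Summable (cW z) := by
    apply summable_of_sum_range_le (c := T1 z) (cW_nonneg z) (cW_sum_le z)
  have htot : ∑' n, cW z n ≤ T1 z := by
    apply hsum.tsum_le_of_sum_range_le
    exact cW_sum_le z
  rw [← hs.tsum_eq, ← hs.summable.sum_add_tsum_nat_add J]
  have h1 : ∑' i, lam ^ (i + J) * cW z (i + J) ≤ ∑' i, |lam| ^ J * cW z (i + J) := by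
    apply Summable.tsum_le_tsum
    · intro i
      apply mul_le_mul_of_nonneg_right _ (cW_nonneg z _)
      calc lam ^ (i + J) ≤ |lam ^ (i + J)| := le_abs_self _
        _ = |lam| ^ (i + J) := abs_pow _ _
        _ ≤ |lam| ^ J := pow_le_pow_of_le_one (abs_nonneg _) hl.le (Nat.le_add_left J i)
    · exact (summable_nat_add_iff J).2 hs.summable
    · exact ((summable_nat_add_iff J).2 hsum).mul_left _
  rw [tsum_mul_left] at h1
  have h2 : ∑' i, cW z (i + J) ≤ T1 z - ∑ n ∈ Finset.range J, cW z n := by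
    have := hsum.sum_add_tsum_nat_add J
    linarith
  have h3 := mul_le_mul_of_nonneg_left h2 (pow_nonneg (abs_nonneg lam) J)
  linarith

theorem cW_zero (z : ℝ) : cW z 0 = 1 := by
  have hmeas : mW z 0 = 1 := by
    unfold mW
    simp
  unfold cW
  rw [hmeas]
  simp

end Pool.Agent.IP49
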