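import Pool.Agent.IP49.LVec

/-!
IP49, part L, module LInt: products over the rows for pairs of Gaussian vectors.

PROOF. `measurePreserving_arrowProdEquivProdArrow ℝ ℝ (Fin M) (fun _ => γ) (fun _ => γ)` maps
`Measure.pi (fun _ => γ.prod γ)` to `(gs (Fin M)).prod (gs (Fin M))` (`gs` unfolds to `Measure.pi`),
under `ω ↦ (fun a => (ω a).1, fun a => (ω a).2)`. So the integral is
`∫ ω, ∏ a, g a (ω a)` over the product measure: `integral_fintype_prod_eq_prod`; integrability:
`Integrable.fintype_prod` (and `MeasurePreserving.integrable_comp_emb` or the like).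
-/

set_option autoImplicit false
open MeasureTheory ProbabilityTheory Filter Topology

namespace Pool.Agent.IP49.LP

theorem pair_prod {M : ℕ} (g : Fin M → ℝ × ℝ → ℝ) :
    ∫ p, ∏ a, g a (p.1 a, p.2 a) ∂((gs (Fin M)).prod (gs (Fin M))) =
      ∏ a, ∫ y, g a y ∂((gaussianReal 0 1).prod (gaussianReal 0 1)) := by
  have h := measurePreserving_arrowProdEquivProdArrow ℝ ℝ (Fin M)
    (fun _ => gaussianReal 0 1) (fun _ => gaussianReal 0 1)
  have h1 := h.integral_comp' (fun p : (Fin M → ℝ) × (Fin M → ℝ) => ∏ a, g a (p.1 a, p.2 a))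
  unfold gs
  rw [← h1, ← integral_fintype_prod_eq_prod]
  rfl

theorem pair_prod_integrable {M : ℕ} (g : Fin M → ℝ × ℝ → ℝ)
    (hg : ∀ a, Integrable (g a) ((gaussianReal 0 1).prod (gaussianReal 0 1))) :
    Integrable (fun p : (Fin M → ℝ) × (Fin M → ℝ) => ∏ a, g a (p.1 a, p.2 a))
      ((gs (Fin M)).prod (gs (Fin M))) := by
  have h := measurePreserving_arrowProdEquivProdArrow ℝ ℝ (Fin M)
    (fun _ => gaussianReal 0 1) (fun _ => gaussianReal 0 1)
  unfold gs
  rw [← h.integrable_comp_emb (MeasurableEquiv.measurableEmbedding _)]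
  exact Integrable.fintype_prod hg

end Pool.Agent.IP49.LP
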