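import Pool.Agent.IP49.LSer

/-!
IP49, L5 (kernel): `∬ exp (lam (x+iz)(y+iz'))` over `ρ ⊗ γ` (twice) is `∬ K_lam(x,y) dρ dρ`.
-/

set_option autoImplicit false
open MeasureTheory ProbabilityTheory Filter Topology Complex

namespace Pool.Agent.IP49

/-- Mehler kernel -/
noncomputable def Kl (lam x y : ℝ) : ℝ :=
  Real.exp ((2 * lam * x * y - lam ^ 2 * (x ^ 2 + y ^ 2)) / (2 * (1 - lam ^ 2)))
    / Real.sqrt (1 - lam ^ 2)

lemma gauss_int_eq (f : ℝ → ℂ) : ∫ z, f z ∂(gaussianReal 0 1)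
    = ((Real.sqrt (2 * Real.pi))⁻¹ : ℝ) * ∫ z : ℝ, cexp (-(z : ℂ) ^ 2 / 2) * f z := by
  rw [integral_gaussianReal_eq_integral_smul one_ne_zero, ← integral_const_mul]
  congr 1
  funext z
  rw [gaussianPDFReal_def, Complex.real_smul]
  push_cast
  simp only [sub_zero, mul_one]
  ring

lemma gauss_quad (b c : ℝ) (hc : c < 1) :
    ∫ z, cexp (I * b * z + c * (z : ℂ) ^ 2 / 2) ∂(gaussianReal 0 1)
      = ((Real.exp (-b ^ 2 / (2 * (1 - c))) / Real.sqrt (1 - c) : ℝ) : ℂ) := by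
  rw [gauss_int_eq]
  have hb : (-(((1 - c) / 2 : ℝ) : ℂ)).re < 0 := by
    rw [Complex.neg_re, Complex.ofReal_re]; linarith
  have e : ∀ z : ℝ, cexp (-(z : ℂ) ^ 2 / 2) * cexp (I * b * z + c * (z : ℂ) ^ 2 / 2)
      = cexp ((-(((1 - c) / 2 : ℝ) : ℂ)) * (z : ℂ) ^ 2 + (I * b) * z + 0) := by
    intro z
    rw [← Complex.exp_add]
    congr 1
    push_cast
    ring
  simp only [e]
  rw [integral_cexp_quadratic hb]
  have h1 : (0 : ℝ) < 1 - c := by linarith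
  have e2 : (Real.pi : ℂ) / -(-(((1 - c) / 2 : ℝ) : ℂ)) = ((2 * Real.pi / (1 - c) : ℝ) : ℂ) := by
    push_cast; field_simp
  rw [e2]
  have e3 : (((2 * Real.pi / (1 - c) : ℝ) : ℂ)) ^ (1 / 2 : ℂ)
      = ((Real.sqrt (2 * Real.pi / (1 - c)) : ℝ) : ℂ) := by
    rw [Real.sqrt_eq_rpow, Complex.ofReal_cpow (by positivity)]
    norm_num
  rw [e3]
  have e4 : (0 : ℂ) - (I * b) ^ 2 / (4 * -(((1 - c) / 2 : ℝ) : ℂ))
      = ((-b ^ 2 / (2 * (1 - c)) : ℝ) : ℂ) := by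
    have hne : (1 - (c : ℂ)) ≠ 0 := by
      have := h1.ne'
      exact_mod_cast this
    push_cast
    rw [mul_pow, I_sq]
    field_simp
    ring
  rw [e4, ← Complex.ofReal_exp, ← Complex.ofReal_mul, ← Complex.ofReal_mul]
  congr 1
  rw [Real.sqrt_div (by positivity)]
  field_simp

/-- the inner integral in `z` -/
lemma kernel_z {lam : ℝ} (hl : |lam| < 1) (x y : ℝ) :
    ∫ z : ℝ, cexp (lam * ((x : ℂ) + z * I) * y - (lam * ((x : ℂ) + z * I)) ^ 2 / 2)
        ∂(gaussianReal 0 1) = ((Kl lam x y : ℝ) : ℂ) := by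
  have hl2 : lam ^ 2 < 1 := by rw [← sq_abs]; nlinarith [abs_nonneg lam]
  have h1 : (0 : ℝ) < 1 - lam ^ 2 := by linarith
  have e : ∀ z : ℝ, cexp (lam * ((x : ℂ) + z * I) * y - (lam * ((x : ℂ) + z * I)) ^ 2 / 2)
      = cexp (((lam * x * y - lam ^ 2 * x ^ 2 / 2 : ℝ) : ℂ))
        * cexp (I * ((lam * y - lam ^ 2 * x : ℝ) : ℂ) * z + ((lam ^ 2 : ℝ) : ℂ) * (z : ℂ) ^ 2 / 2) := by
    intro z
    rw [← Complex.exp_add]
    congr 1
    push_cast
    have hI : (I : ℂ) ^ 2 = -1 := I_sq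
    ring_nf
    rw [hI]
    ring
  simp only [e]
  rw [integral_const_mul, gauss_quad _ _ hl2, ← Complex.ofReal_exp, ← Complex.ofReal_mul]
  congr 1
  unfold Kl
  rw [← mul_div_assoc, ← Real.exp_add]
  congr 2
  field_simp
  ring

/-- Gaussian integral of the imaginary part of the second variable -/
lemma kernel_z' (w : ℂ) (y : ℝ) :
    ∫ z : ℝ, cexp (w * ((y : ℂ) + z * I)) ∂(gaussianReal 0 1) = cexp (w * y - w ^ 2 / 2) := by
  have e : ∀ z : ℝ, cexp (w * ((y : ℂ) + z * I)) = cexp (w * y) * cexp ((w * I) * z) := by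
    intro z; rw [← Complex.exp_add]; congr 1; ring
  simp only [e]
  rw [integral_const_mul]
  have h := complexMGF_id_gaussianReal (μ := 0) (v := 1) (w * I)
  simp only [complexMGF, id_eq, Complex.ofReal_zero, mul_zero, NNReal.coe_one, Complex.ofReal_one,
    one_mul, zero_add] at h
  rw [h, ← Complex.exp_add]
  congr 1
  rw [mul_pow, I_sq]
  ring

lemma int_exp_sq_gauss {c : ℝ} (hc : c < 1) :
    Integrable (fun z : ℝ => Real.exp (c * z ^ 2 / 2)) (gaussianReal 0 1) := by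
  rw [gaussianReal_of_var_ne_zero 0 one_ne_zero,
    integrable_withDensity_iff_integrable_smul' (measurable_gaussianPDF 0 1)
      (Filter.Eventually.of_forall fun x => gaussianPDF_lt_top)]
  simp only [toReal_gaussianPDF, smul_eq_mul]
  have h := (integrable_exp_neg_mul_sq (b := (1 - c) / 2) (by linarith)).const_mul
    ((Real.sqrt (2 * Real.pi * ((1 : NNReal) : ℝ)))⁻¹)
  refine h.congr (Eventually.of_forall fun x => ?_)
  simp only [gaussianPDFReal_def, sub_zero, NNReal.coe_one, mul_one]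
  rw [mul_assoc, ← Real.exp_add]
  congr 2
  ring

theorem kernel_eval (ρ : Measure ℝ) [IsFiniteMeasure ρ] {lam : ℝ} (hl : |lam| < 1)
    (hI : Integrable (fun x : ℝ => Real.exp (|lam| * x ^ 2 / 2)) ρ) :
    ∫ p : (ℝ × ℝ) × (ℝ × ℝ), cexp (lam * ((p.1.1 : ℂ) + p.1.2 * I) * ((p.2.1 : ℂ) + p.2.2 * I))
        ∂((ρ.prod (gaussianReal 0 1)).prod (ρ.prod (gaussianReal 0 1)))
      = ((∫ x, ∫ y, Kl lam x y ∂ρ ∂ρ : ℝ) : ℂ) := by
  set γ := gaussianReal 0 1 with hγ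
  have hnsq : ∀ x z : ℝ, ‖(x : ℂ) + z * I‖ ^ 2 = x ^ 2 + z ^ 2 := by
    intro x z
    rw [← Complex.normSq_eq_norm_sq, Complex.normSq_add_mul_I]
  have hIg : Integrable (fun z : ℝ => Real.exp (|lam| * z ^ 2 / 2)) γ := int_exp_sq_gauss hl
  have hB : Integrable (fun p : ℝ × ℝ => Real.exp (|lam| * p.1 ^ 2 / 2) * Real.exp (|lam| * p.2 ^ 2 / 2))
      (ρ.prod γ) := hI.mul_prod hIg
  have hBB := hB.mul_prod hB
  have hmeas : Measurable (fun p : (ℝ × ℝ) × (ℝ × ℝ) =>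
      cexp (lam * ((p.1.1 : ℂ) + p.1.2 * I) * ((p.2.1 : ℂ) + p.2.2 * I))) := by fun_prop
  have hbd : ∀ x z y z' : ℝ, ‖cexp (lam * ((x : ℂ) + z * I) * ((y : ℂ) + z' * I))‖
      ≤ (Real.exp (|lam| * x ^ 2 / 2) * Real.exp (|lam| * z ^ 2 / 2))
        * (Real.exp (|lam| * y ^ 2 / 2) * Real.exp (|lam| * z' ^ 2 / 2)) := by
    intro x z y z'
    rw [Complex.norm_exp]
    have h1 : (lam * ((x : ℂ) + z * I) * ((y : ℂ) + z' * I)).re
        ≤ |lam| * (‖(x : ℂ) + z * I‖ * ‖(y : ℂ) + z' * I‖) := by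
      refine (Complex.re_le_norm _).trans ?_
      rw [norm_mul, norm_mul, Complex.norm_real, Real.norm_eq_abs, mul_assoc]
    have h2 := hnsq x z
    have h3 := hnsq y z'
    rw [← Real.exp_add, ← Real.exp_add, ← Real.exp_add]
    apply Real.exp_le_exp.2
    refine h1.trans ?_
    nlinarith [abs_nonneg lam, sq_nonneg (‖(x : ℂ) + z * I‖ - ‖(y : ℂ) + z' * I‖)]
  have hint : Integrable (fun p : (ℝ × ℝ) × (ℝ × ℝ) =>
      cexp (lam * ((p.1.1 : ℂ) + p.1.2 * I) * ((p.2.1 : ℂ) + p.2.2 * I)))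
      ((ρ.prod γ).prod (ρ.prod γ)) := by
    apply hBB.mono' hmeas.aestronglyMeasurable
    exact Eventually.of_forall fun p => hbd _ _ _ _
  rw [integral_prod _ hint]
  -- inner double integral
  have hinner : ∀ x z : ℝ, ∫ q : ℝ × ℝ, cexp (lam * ((x : ℂ) + z * I) * ((q.1 : ℂ) + q.2 * I))
      ∂(ρ.prod γ) = ∫ y : ℝ, cexp (lam * ((x : ℂ) + z * I) * y - (lam * ((x : ℂ) + z * I)) ^ 2 / 2) ∂ρ := by
    intro x z
    have hi : Integrable (fun q : ℝ × ℝ => cexp (lam * ((x : ℂ) + z * I) * ((q.1 : ℂ) + q.2 * I)))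
        (ρ.prod γ) := by
      apply (hB.const_mul (Real.exp (|lam| * x ^ 2 / 2) * Real.exp (|lam| * z ^ 2 / 2))).mono'
      · exact (by fun_prop : Measurable fun q : ℝ × ℝ =>
          cexp (lam * ((x : ℂ) + z * I) * ((q.1 : ℂ) + q.2 * I))).aestronglyMeasurable
      · exact Eventually.of_forall fun q => hbd _ _ _ _
    rw [integral_prod _ hi]
    congr 1
    funext y
    exact kernel_z' _ y
  have e1 : (fun p : ℝ × ℝ => ∫ q : ℝ × ℝ, cexp (lam * ((p.1 : ℂ) + p.2 * I) * ((q.1 : ℂ) + q.2 * I))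
      ∂(ρ.prod γ)) = fun p : ℝ × ℝ => ∫ y : ℝ, cexp (lam * ((p.1 : ℂ) + p.2 * I) * y
        - (lam * ((p.1 : ℂ) + p.2 * I)) ^ 2 / 2) ∂ρ := by
    funext p; exact hinner p.1 p.2
  have hint1 : Integrable (fun p : ℝ × ℝ => ∫ y : ℝ, cexp (lam * ((p.1 : ℂ) + p.2 * I) * y
        - (lam * ((p.1 : ℂ) + p.2 * I)) ^ 2 / 2) ∂ρ) (ρ.prod γ) := by
    rw [← e1]; exact hint.integral_prod_left
  rw [show (∫ p : ℝ × ℝ, ∫ q : ℝ × ℝ, cexp (lam * ((p.1 : ℂ) + p.2 * I) * ((q.1 : ℂ) + q.2 * I))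
      ∂(ρ.prod γ) ∂(ρ.prod γ)) = ∫ p : ℝ × ℝ, ∫ y : ℝ, cexp (lam * ((p.1 : ℂ) + p.2 * I) * y
        - (lam * ((p.1 : ℂ) + p.2 * I)) ^ 2 / 2) ∂ρ ∂(ρ.prod γ) from by rw [e1]]
  rw [integral_prod _ hint1, ← integral_complex_ofReal]
  apply integral_congr_ae
  refine Eventually.of_forall fun x => ?_
  simp only
  rw [← integral_complex_ofReal]
  have hl2 : lam ^ 2 < 1 := by rw [← sq_abs]; nlinarith [abs_nonneg lam]
  have hsw : Integrable (Function.uncurry fun (z : ℝ) (y : ℝ) =>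
      cexp (lam * ((x : ℂ) + z * I) * y - (lam * ((x : ℂ) + z * I)) ^ 2 / 2)) (γ.prod ρ) := by
    have hd : Integrable (fun p : ℝ × ℝ => Real.exp (lam ^ 2 * p.1 ^ 2 / 2)
        * (Real.exp (|lam| * x ^ 2 / 2) * Real.exp (|lam| * p.2 ^ 2 / 2))) (γ.prod ρ) :=
      (int_exp_sq_gauss hl2).mul_prod (hI.const_mul _)
    apply hd.mono'
    · exact (by fun_prop : Measurable (Function.uncurry fun (z : ℝ) (y : ℝ) =>
        cexp (lam * ((x : ℂ) + z * I) * y - (lam * ((x : ℂ) + z * I)) ^ 2 / 2))).aestronglyMeasurable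
    · refine Eventually.of_forall fun p => ?_
      obtain ⟨z, y⟩ := p
      simp only [Function.uncurry]
      rw [Complex.norm_exp]
      have hre : (lam * ((x : ℂ) + z * I) * y - (lam * ((x : ℂ) + z * I)) ^ 2 / 2).re
          = lam * x * y - lam ^ 2 * (x ^ 2 - z ^ 2) / 2 := by
        have : (lam * ((x : ℂ) + z * I) * y - (lam * ((x : ℂ) + z * I)) ^ 2 / 2)
            = ((lam * x * y - lam ^ 2 * (x ^ 2 - z ^ 2) / 2 : ℝ) : ℂ)
              + ((lam * z * y - lam ^ 2 * x * z : ℝ) : ℂ) * I := by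
          push_cast
          have hI2 : (I : ℂ) ^ 2 = -1 := I_sq
          ring_nf
          rw [hI2]
          ring
        rw [this, Complex.add_re, Complex.ofReal_re, Complex.re_ofReal_mul, Complex.I_re]
        ring
      rw [hre, ← Real.exp_add, ← Real.exp_add]
      apply Real.exp_le_exp.2
      have h1 : lam * x * y ≤ |lam| * (x ^ 2 + y ^ 2) / 2 := by
        have : lam * x * y ≤ |lam| * |x * y| := by
          rw [mul_assoc, ← abs_mul]; exact le_abs_self _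
        have h2 : |x * y| ≤ (x ^ 2 + y ^ 2) / 2 := by
          rw [abs_le]; constructor <;> nlinarith [sq_nonneg (x + y), sq_nonneg (x - y)]
        nlinarith [abs_nonneg lam]
      nlinarith [mul_nonneg (sq_nonneg lam) (sq_nonneg x)]
  rw [integral_integral_swap hsw]
  congr 1
  funext y
  exact kernel_z hl x y

end Pool.Agent.IP49
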