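import Pool.Agent.IP49.LVec

/-!
IP49, part L, module LLaw: law of `(G u, G v)` for a standard Gaussian matrix `G` and fixed
vectors `u`, `v` with `|u| = a`, `|v| = b`, `<u,v> = lam a b`.

PROOFS. ONE ROW (`row_two`): the images of `gs (Fin N)` under `x ↦ (<x,u>, <x,v>)` and of
`γ × γ` under `p ↦ (a p₁, b (lam p₁ + √(1-lam²) p₂))` have the same characteristic function
`exp(-(s² a² + 2 s t lam a b + t² b²)/2)` at `(s,t)`
(`Measure.ext_of_charFunDual`, or `Measure.ext_of_charFun` on `EuclideanSpace ℝ (Fin 2)`;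
`integral_fintype_prod_eq_prod`, `charFun_gaussianReal`; a continuous linear form on `ℝ × ℝ` is
`(x,y) ↦ s x + t y`).
MATRIX (`law_two`): `GM M N = Measure.pi (fun _ => gs (Fin N))` by `rfl`; the map
`G ↦ (k ↦ (<G_k,u>, <G_k,v>))` sends it to the product of the row laws (`measurePreserving_pi`
or `Measure.pi_map_pi`), the same for `(gs × gs)` after
`measurePreserving_arrowProdEquivProdArrow`. `law_one`: first component of `law_two` with
`v = u`, `lam = 1` (or directly in the same way).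
-/

set_option autoImplicit false
open MeasureTheory ProbabilityTheory Filter Topology

namespace Pool.Agent.IP49.LP

private theorem int_gauss27 (c : ℝ) :
    ∫ x, Complex.exp (((c * x : ℝ) : ℂ) * Complex.I) ∂(gaussianReal 0 1)
      = Complex.exp (-((c : ℂ) ^ 2 / 2)) := by
  have h := charFun_gaussianReal (μ := 0) (v := 1) c
  rw [charFun_apply_real] at h
  have e : (fun x : ℝ => Complex.exp (((c * x : ℝ) : ℂ) * Complex.I))
      = fun x : ℝ => Complex.exp ((c : ℂ) * x * Complex.I) := by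
    ext x; push_cast; rfl
  rw [e, h]
  congr 1
  push_cast
  ring

theorem row_two {N : ℕ} (u v : Fin N → ℝ) {a b lam : ℝ} (ha : nsq u = a ^ 2) (hb : nsq v = b ^ 2)
    (hl : |lam| ≤ 1) (h : ∑ i, u i * v i = lam * a * b) :
    (gs (Fin N)).map (fun x => (∑ i, x i * u i, ∑ i, x i * v i)) =
      ((gaussianReal 0 1).prod (gaussianReal 0 1)).map
        (fun p => (a * p.1, b * (lam * p.1 + Real.sqrt (1 - lam ^ 2) * p.2))) := by
  have : IsProbabilityMeasure (gs (Fin N)) := by unfold gs; infer_instance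
  have m1 : Measurable (fun x : Fin N → ℝ => (∑ i, x i * u i, ∑ i, x i * v i)) := by fun_prop
  have m2 : Measurable (fun p : ℝ × ℝ =>
      (a * p.1, b * (lam * p.1 + Real.sqrt (1 - lam ^ 2) * p.2))) := by fun_prop
  have := Measure.isProbabilityMeasure_map (μ := gs (Fin N)) m1.aemeasurable
  have := Measure.isProbabilityMeasure_map (μ := (gaussianReal 0 1).prod (gaussianReal 0 1))
    m2.aemeasurable
  apply Measure.ext_of_charFunDual
  ext L
  set s : ℝ := L (1, 0) with hs
  set t : ℝ := L (0, 1) with ht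
  have hL : ∀ x y : ℝ, L (x, y) = s * x + t * y := by
    intro x y
    have : ((x, y) : ℝ × ℝ) = x • ((1, 0) : ℝ × ℝ) + y • ((0, 1) : ℝ × ℝ) := by
      ext <;> simp
    rw [this, map_add, map_smul, map_smul, ← hs, ← ht, smul_eq_mul, smul_eq_mul]
    ring
  rw [charFunDual_apply, charFunDual_apply, integral_map m1.aemeasurable (by fun_prop),
    integral_map m2.aemeasurable (by fun_prop)]
  -- left side
  have e1 : ∀ x : Fin N → ℝ, Complex.exp (((L (∑ i, x i * u i, ∑ i, x i * v i) : ℝ) : ℂ)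
      * Complex.I) = ∏ i, Complex.exp ((((s * u i + t * v i) * x i : ℝ) : ℂ) * Complex.I) := by
    intro x
    rw [← Complex.exp_sum, hL, ← Finset.sum_mul, ← Complex.ofReal_sum]
    congr 3
    rw [Finset.mul_sum, Finset.mul_sum, ← Finset.sum_add_distrib]
    exact Finset.sum_congr rfl fun i _ => by ring
  simp_rw [e1]
  unfold gs
  rw [integral_fintype_prod_eq_prod (𝕜 := ℂ)
    (fun (i : Fin N) (y : ℝ) => Complex.exp ((((s * u i + t * v i) * y : ℝ) : ℂ) * Complex.I))]
  simp_rw [int_gauss27]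
  -- right side
  have e2 : ∀ p : ℝ × ℝ, Complex.exp (((L (a * p.1,
      b * (lam * p.1 + Real.sqrt (1 - lam ^ 2) * p.2)) : ℝ) : ℂ) * Complex.I)
      = Complex.exp ((((s * a + t * b * lam) * p.1 : ℝ) : ℂ) * Complex.I)
        * Complex.exp ((((t * b * Real.sqrt (1 - lam ^ 2)) * p.2 : ℝ) : ℂ) * Complex.I) := by
    intro p
    rw [← Complex.exp_add, hL, ← add_mul, ← Complex.ofReal_add]
    congr 3
    ring
  simp_rw [e2]
  rw [integral_prod_mul
    (fun y : ℝ => Complex.exp ((((s * a + t * b * lam) * y : ℝ) : ℂ) * Complex.I))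
    (fun y : ℝ => Complex.exp ((((t * b * Real.sqrt (1 - lam ^ 2)) * y : ℝ) : ℂ) * Complex.I)),
    int_gauss27, int_gauss27, ← Complex.exp_add, ← Complex.exp_sum]
  congr 1
  have hlam : 0 ≤ 1 - lam ^ 2 := by
    have := abs_le.1 hl
    nlinarith [sq_nonneg (lam - 1), sq_nonneg (lam + 1)]
  have hreal : ∑ i, (s * u i + t * v i) ^ 2 / 2 =
      (s * a + t * b * lam) ^ 2 / 2 + (t * b * Real.sqrt (1 - lam ^ 2)) ^ 2 / 2 := by
    have e3 : ∀ i, (s * u i + t * v i) ^ 2 / 2
        = s ^ 2 / 2 * u i ^ 2 + s * t * (u i * v i) + t ^ 2 / 2 * v i ^ 2 := fun i => by ring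
    simp_rw [e3]
    rw [Finset.sum_add_distrib, Finset.sum_add_distrib, ← Finset.mul_sum, ← Finset.mul_sum,
      ← Finset.mul_sum, h, show ∑ i, u i ^ 2 = a ^ 2 from ha, show ∑ i, v i ^ 2 = b ^ 2 from hb,
      mul_pow, Real.sq_sqrt hlam]
    ring
  rw [Finset.sum_neg_distrib, ← neg_add]
  congr 1
  have := congrArg (fun r : ℝ => (r : ℂ)) hreal
  push_cast at this
  push_cast
  exact this

theorem law_two {M N : ℕ} (u v : Fin N → ℝ) {a b lam : ℝ} (ha : nsq u = a ^ 2)
    (hb : nsq v = b ^ 2) (hl : |lam| ≤ 1) (h : ∑ i, u i * v i = lam * a * b) :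
    (GM M N).map (fun G => (mulv G u, mulv G v)) =
      ((gs (Fin M)).prod (gs (Fin M))).map (fun p => (fun k => a * p.1 k,
        fun k => b * (lam * p.1 k + Real.sqrt (1 - lam ^ 2) * p.2 k))) := by
  have : IsProbabilityMeasure (gs (Fin N)) := by unfold gs; infer_instance
  have m1 : Measurable (fun x : Fin N → ℝ => (∑ i, x i * u i, ∑ i, x i * v i)) := by fun_prop
  have m2 : Measurable (fun p : ℝ × ℝ =>
      (a * p.1, b * (lam * p.1 + Real.sqrt (1 - lam ^ 2) * p.2))) := by fun_prop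
  have i1 := Measure.isProbabilityMeasure_map (μ := gs (Fin N)) m1.aemeasurable
  have i2 := Measure.isProbabilityMeasure_map (μ := (gaussianReal 0 1).prod (gaussianReal 0 1))
    m2.aemeasurable
  have hG : GM M N = Measure.pi fun _ : Fin M => gs (Fin N) := rfl
  have hp := measurePreserving_arrowProdEquivProdArrow ℝ ℝ (Fin M)
    (fun _ => gaussianReal 0 1) (fun _ => gaussianReal 0 1)
  -- left side
  have e1 : (fun G : Fin M → Fin N → ℝ => (mulv G u, mulv G v)) =
      (MeasurableEquiv.arrowProdEquivProdArrow ℝ ℝ (Fin M)) ∘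
        (fun (G : Fin M → Fin N → ℝ) (k : Fin M) =>
          (fun x : Fin N → ℝ => (∑ i, x i * u i, ∑ i, x i * v i)) (G k)) := rfl
  have e2 : (fun p : (Fin M → ℝ) × (Fin M → ℝ) => ((fun k => a * p.1 k,
        fun k => b * (lam * p.1 k + Real.sqrt (1 - lam ^ 2) * p.2 k)) :
          (Fin M → ℝ) × (Fin M → ℝ))) ∘ (MeasurableEquiv.arrowProdEquivProdArrow ℝ ℝ (Fin M)) =
      (MeasurableEquiv.arrowProdEquivProdArrow ℝ ℝ (Fin M)) ∘
        (fun (q : Fin M → ℝ × ℝ) (k : Fin M) =>
          (fun p : ℝ × ℝ => (a * p.1, b * (lam * p.1 + Real.sqrt (1 - lam ^ 2) * p.2))) (q k)) :=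
    rfl
  have mm1 : Measurable (fun (G : Fin M → Fin N → ℝ) (k : Fin M) =>
          (fun x : Fin N → ℝ => (∑ i, x i * u i, ∑ i, x i * v i)) (G k)) :=
    measurable_pi_lambda _ fun k => m1.comp (measurable_pi_apply k)
  have mm2 : Measurable (fun (q : Fin M → ℝ × ℝ) (k : Fin M) =>
      (fun p : ℝ × ℝ => (a * p.1, b * (lam * p.1 + Real.sqrt (1 - lam ^ 2) * p.2))) (q k)) :=
    measurable_pi_lambda _ fun k => m2.comp (measurable_pi_apply k)
  have mm3 : Measurable (fun p : (Fin M → ℝ) × (Fin M → ℝ) => ((fun k => a * p.1 k,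
        fun k => b * (lam * p.1 k + Real.sqrt (1 - lam ^ 2) * p.2 k)) :
          (Fin M → ℝ) × (Fin M → ℝ))) := by fun_prop
  rw [e1, ← Measure.map_map (MeasurableEquiv.measurable _) mm1, hG]
  have h1 := Measure.pi_map_pi (μ := fun _ : Fin M => gs (Fin N))
    (f := fun _ x => (∑ i, x i * u i, ∑ i, x i * v i)) (hμ := fun _ => inferInstance)
    (fun _ => m1.aemeasurable)
  rw [h1]
  have h2 : (gs (Fin M)).prod (gs (Fin M)) =
      (Measure.pi fun _ : Fin M => (gaussianReal 0 1).prod (gaussianReal 0 1)).map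
        (MeasurableEquiv.arrowProdEquivProdArrow ℝ ℝ (Fin M)) := hp.map_eq.symm
  rw [h2, Measure.map_map mm3 (MeasurableEquiv.measurable _), e2,
    ← Measure.map_map (MeasurableEquiv.measurable _) mm2]
  have h3 := Measure.pi_map_pi (μ := fun _ : Fin M => (gaussianReal 0 1).prod (gaussianReal 0 1))
    (f := fun _ p => (a * p.1, b * (lam * p.1 + Real.sqrt (1 - lam ^ 2) * p.2)))
    (hμ := fun _ => inferInstance) (fun _ => m2.aemeasurable)
  rw [h3, row_two u v ha hb hl h]

theorem law_one {M N : ℕ} (u : Fin N → ℝ) {a : ℝ} (ha : nsq u = a ^ 2) :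
    (GM M N).map (fun G => mulv G u) = (gs (Fin M)).map (fun x k => a * x k) := by
  have : IsProbabilityMeasure (gs (Fin M)) := by unfold gs; infer_instance
  have h := law_two (M := M) u u (a := a) (b := a) (lam := 1) ha ha (by simp) (by
    rw [one_mul, ← sq, ← ha]
    exact Finset.sum_congr rfl fun i _ => (sq (u i)).symm)
  have h1 := congrArg (Measure.map Prod.fst) h
  have m1 : Measurable (fun G : Fin M → Fin N → ℝ => (mulv G u, mulv G u)) := by
    have : Measurable (fun G : Fin M → Fin N → ℝ => mulv G u) := (continuous_mulv u).measurable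
    exact this.prodMk this
  have m3 : Measurable (fun p : (Fin M → ℝ) × (Fin M → ℝ) => ((fun k => a * p.1 k,
        fun k => a * (1 * p.1 k + Real.sqrt (1 - 1 ^ 2) * p.2 k)) :
          (Fin M → ℝ) × (Fin M → ℝ))) := by fun_prop
  rw [Measure.map_map measurable_fst m1, Measure.map_map measurable_fst m3] at h1
  have e1 : (Prod.fst ∘ fun G : Fin M → Fin N → ℝ => (mulv G u, mulv G u)) =
      fun G => mulv G u := rfl
  have e2 : (Prod.fst ∘ fun p : (Fin M → ℝ) × (Fin M → ℝ) => ((fun k => a * p.1 k,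
        fun k => a * (1 * p.1 k + Real.sqrt (1 - 1 ^ 2) * p.2 k)) :
          (Fin M → ℝ) × (Fin M → ℝ))) = (fun (x : Fin M → ℝ) k => a * x k) ∘ Prod.fst := rfl
  rw [e1, e2, ← Measure.map_map (by fun_prop) measurable_fst] at h1
  rw [h1]
  congr 1
  exact Measure.map_fst_prod.trans (by simp)

end Pool.Agent.IP49.LP
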