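import Pool.Agent.IP49.LDefs
import Pool.Agent.IP49.GaussA

/-!
IP49, part L, module LSup: suprema over small boxes of parameters, and limits of expectations.

PROOFS. `sup_family`: for `0 < ρ ≤ 1` put `Φ_ρ x = sSup (f x '' closedBall p₀ ρ)`. The closed ball
of `ℝ × ℝ × ℝ` is compact and nonempty, so `Φ_ρ` is continuous (`IsCompact.continuous_sSup`),
`f x p ≤ Φ_ρ x` for `p` in the ball (`le_csSup`, the image is bounded above), and
`|Φ_ρ x| ≤ C (1 + x²)`. For fixed `x`, `Φ_ρ x → f x p₀` as `ρ → 0`: given `r > 0` there is a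
neighbourhood of `p₀` on which `f x p < f x p₀ + r`, so `f x p₀ ≤ Φ_ρ x ≤ f x p₀ + r` for small
`ρ`. Take `ρ_j = 1/(j+1)` and apply `tendsto_GE` (domination `C (1 + (v x)²) ≤
C (1 + v²)(1 + x²)`): `GE (Φ_ρj (v ·)) → GE (f (v ·) p₀)`. Choose `j`.
`lim_GE`: `tendsto_GE` along `atTop` on `ℝ` (restricted to `L ≥ 1`), then choose `L`.
`QG` closure properties: routine. `C` may be negative in `QG`: then `f` would satisfy
`0 ≤ C(1+x²) < 0`, impossible, so `0 ≤ C` automatically.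
-/

set_option autoImplicit false
open MeasureTheory ProbabilityTheory Filter Topology

namespace Pool.Agent.IP49.LP

private theorem dom17 {C : ℝ} (hC : 0 ≤ C) (v x : ℝ) :
    C * (1 + (v * x) ^ 2) ≤ (C * (1 + v ^ 2)) * (1 + x ^ 2) ^ 1 := by
  rw [pow_one, mul_assoc]
  apply mul_le_mul_of_nonneg_left _ hC
  nlinarith [sq_nonneg v, sq_nonneg x, mul_nonneg (sq_nonneg v) (sq_nonneg x)]

theorem sup_family {f : ℝ → ℝ × ℝ × ℝ → ℝ} (hf : Continuous (Function.uncurry f))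
    (p₀ : ℝ × ℝ × ℝ) {C : ℝ} (hC : ∀ x p, dist p p₀ ≤ 1 → |f x p| ≤ C * (1 + x ^ 2)) (v : ℝ)
    {η : ℝ} (hη : 0 < η) :
    ∃ ρ : ℝ, 0 < ρ ∧ ρ ≤ 1 ∧ ∃ Φ : ℝ → ℝ, QG Φ ∧ (∀ x p, dist p p₀ ≤ ρ → f x p ≤ Φ x) ∧
      GE (fun x => Φ (v * x)) ≤ GE (fun x => f (v * x) p₀) + η := by
  have hC0 : 0 ≤ C := by
    have h := hC 0 p₀ (by simp)
    have h2 := (abs_nonneg _).trans h
    simpa using h2
  set Φ : ℝ → ℝ → ℝ := fun ρ x => sSup (f x '' Metric.closedBall p₀ ρ) with hΦ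
  have hcf : ∀ x, Continuous (f x) := fun x => hf.comp (Continuous.prodMk_right x)
  have hcont : ∀ ρ, Continuous (Φ ρ) := fun ρ =>
    (isCompact_closedBall p₀ ρ).continuous_sSup hf
  have hle : ∀ ρ x p, dist p p₀ ≤ ρ → f x p ≤ Φ ρ x := by
    intro ρ x p hp
    exact le_csSup ((isCompact_closedBall p₀ ρ).bddAbove_image (hcf x).continuousOn)
      (Set.mem_image_of_mem _ (Metric.mem_closedBall.2 hp))
  have hbd : ∀ ρ, 0 < ρ → ρ ≤ 1 → ∀ x, |Φ ρ x| ≤ C * (1 + x ^ 2) := by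
    intro ρ h0 h1 x
    rw [abs_le]
    constructor
    · have h2 := hle ρ x p₀ (by simpa using h0.le)
      have h3 := (abs_le.1 (hC x p₀ (by simp))).1
      linarith
    · apply csSup_le
      · exact ⟨f x p₀, Set.mem_image_of_mem _ (by simpa using h0.le)⟩
      · rintro _ ⟨p, hp, rfl⟩
        exact (abs_le.1 (hC x p ((Metric.mem_closedBall.1 hp).trans h1))).2
  have hρpos : ∀ j : ℕ, (0 : ℝ) < 1 / ((j : ℝ) + 1) := fun j => by positivity
  have hρle : ∀ j : ℕ, 1 / ((j : ℝ) + 1) ≤ 1 := fun j => by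
    rw [div_le_one (by positivity)]
    have : (0 : ℝ) ≤ j := Nat.cast_nonneg j
    linarith
  have hlim : ∀ y, Tendsto (fun j : ℕ => Φ (1 / ((j : ℝ) + 1)) y) atTop (𝓝 (f y p₀)) := by
    intro y
    rw [Metric.tendsto_atTop]
    intro r hr
    have hct : ContinuousAt (f y) p₀ := (hcf y).continuousAt
    rw [Metric.continuousAt_iff] at hct
    obtain ⟨δ, hδ, hδ2⟩ := hct (r / 2) (by linarith)
    have h1 : Tendsto (fun j : ℕ => 1 / ((j : ℝ) + 1)) atTop (𝓝 0) :=
      tendsto_one_div_add_atTop_nhds_zero_nat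
    rw [Metric.tendsto_atTop] at h1
    obtain ⟨J, hJ⟩ := h1 δ hδ
    refine ⟨J, fun j hj => ?_⟩
    have h2 := hJ j hj
    rw [Real.dist_eq, sub_zero, abs_of_pos (hρpos j)] at h2
    rw [Real.dist_eq, abs_lt]
    constructor
    · have := hle (1 / ((j : ℝ) + 1)) y p₀ (by simpa using (hρpos j).le)
      linarith
    · have : Φ (1 / ((j : ℝ) + 1)) y ≤ f y p₀ + r / 2 := by
        apply csSup_le
        · exact ⟨f y p₀, Set.mem_image_of_mem _ (by simpa using (hρpos j).le)⟩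
        · rintro _ ⟨p, hp, rfl⟩
          have h3 := hδ2 (lt_of_le_of_lt (Metric.mem_closedBall.1 hp) h2)
          rw [Real.dist_eq, abs_lt] at h3
          linarith [h3.2]
      linarith
  have htend : Tendsto (fun j : ℕ => GE (fun x => Φ (1 / ((j : ℝ) + 1)) (v * x))) atTop
      (𝓝 (GE (fun x => f (v * x) p₀))) := by
    refine tendsto_GE (C := C * (1 + v ^ 2)) (k := 1) ?_ ?_ ?_
    · exact Eventually.of_forall fun j =>
        ((hcont _).comp (continuous_const.mul continuous_id)).measurable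
    · exact Eventually.of_forall fun j x =>
        (hbd _ (hρpos j) (hρle j) (v * x)).trans (dom17 hC0 v x)
    · intro x
      exact hlim (v * x)
  have hev : ∀ᶠ j : ℕ in atTop, GE (fun x => Φ (1 / ((j : ℝ) + 1)) (v * x)) <
      GE (fun x => f (v * x) p₀) + η := htend.eventually_lt_const (by linarith)
  obtain ⟨j, hj⟩ := hev.exists
  exact ⟨1 / ((j : ℝ) + 1), hρpos j, hρle j, Φ (1 / ((j : ℝ) + 1)),
    ⟨hcont _, C, hbd _ (hρpos j) (hρle j)⟩, hle _, hj.le⟩

theorem lim_GE {g : ℝ → ℝ → ℝ} {g₀ : ℝ → ℝ} (hm : ∀ L, 0 ≤ L → Measurable (g L)) {C : ℝ}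
    (hC : ∀ L, 0 ≤ L → ∀ x, |g L x| ≤ C * (1 + x ^ 2))
    (hl : ∀ x, Tendsto (fun L => g L x) atTop (𝓝 (g₀ x))) (v : ℝ) {η : ℝ} (hη : 0 < η) :
    ∃ L : ℝ, 0 < L ∧ GE (fun x => g L (v * x)) ≤ GE (fun x => g₀ (v * x)) + η := by
  have hC0 : 0 ≤ C := by
    have h := (abs_nonneg _).trans (hC 0 le_rfl 0)
    simpa using h
  have htend : Tendsto (fun L : ℝ => GE (fun x => g L (v * x))) atTop
      (𝓝 (GE (fun x => g₀ (v * x)))) := by
    refine tendsto_GE (C := C * (1 + v ^ 2)) (k := 1) ?_ ?_ ?_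
    · filter_upwards [eventually_ge_atTop 0] with L hL
      exact (hm L hL).comp (measurable_const.mul measurable_id)
    · filter_upwards [eventually_ge_atTop 0] with L hL
      intro x
      exact (hC L hL (v * x)).trans (dom17 hC0 v x)
    · intro x
      exact hl (v * x)
  have hev : ∀ᶠ L : ℝ in atTop, GE (fun x => g L (v * x)) < GE (fun x => g₀ (v * x)) + η :=
    htend.eventually_lt_const (by linarith)
  obtain ⟨L, hL, hL2⟩ := (hev.and (eventually_gt_atTop 0)).exists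
  exact ⟨L, hL2, hL.le⟩

theorem QG_integrable {f : ℝ → ℝ} (hf : QG f) (v : ℝ) :
    Integrable (fun x => f (v * x)) (gaussianReal 0 1) := by
  obtain ⟨hc, C, hC⟩ := hf
  have hC0 : 0 ≤ C := by
    have h := (abs_nonneg _).trans (hC 0)
    simpa using h
  exact integrable_of_growth (hc.comp (continuous_const.mul continuous_id)).measurable
    fun x => (hC (v * x)).trans (dom17 hC0 v x)

end Pool.Agent.IP49.LP
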