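import Pool.Agent.IP49.LRowB
import Pool.Agent.IP49.LSup
import Pool.Agent.IP49.RSA

/-!
IP49, part L, module LRowC: the row bound for pairs of correlation near `lam₀ ∈ (-1, 1]`.

PROOF. `q = qp ψ < 1`, `t₀ = √(1-q) ∈ (0,1]`, `F x = FF κ 0 q x = Mi (z x)/t₀`,
`z x = (κ-x)/t₀` (`tp 0 q = √(1-q+0)`), `k x = κ - x - (1-q) F x = t₀ (z x - t₀ F x)`,
`t₀² = 1-q`. `|F x| ≤ C(1+|x|)` (`FF_le`), `|k x| ≤ C(1+|x|)`, both continuous.
`s = -(1+th)/(1+lam₀)`.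
STEP 1 (`L → ∞`). `g L x = log (Qr s L (k x) (F x) t₀ t₀ lam₀)` is continuous in `x`
(`Qr_cont`, `Qr_pos`), `g L x ≤ 20 s² F² ≤ C(1+x²)` (`logQr_le`), and by `le_Qr`
`g L x ≥ s² F² t₀² (1+lam₀) + log (Pl lam₀ (k/t₀ - s F t₀ (1+lam₀))) ≥ -C(1+x²)` (`logPl_ge`), for
all `L ≥ 0`, `C` independent of `L`. Pointwise limit (`Qr_tendsto`, continuity of `log` at a
positive point):
`g₀ x = s² F² t₀² (1+lam₀) + log (Pl lam₀ (k/t₀ - s F t₀ (1+lam₀)))`. Here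
`k/t₀ - s F t₀ (1+lam₀) = z - Mi z + (1+th) Mi z = z + th Mi z`. `lim_GE` with `v = √q` and
tolerance `η/(2 al)` (`al > 0` by `al_pos`): some `L > 0`. Note
`al GE (s² F(√q ·)² t₀² (1+lam₀)) = s² (1-q)(1+lam₀) ψ = (1+th)² (1-q) ψ/(1+lam₀)` (`al_EF2`;
`zz κ ψ x = z(√q x)`), hence `al GE (g₀(√q ·)) = con κ ψ th lam₀` (integrability of both summands
from the quadratic bounds; `Pl lam₀` is measurable because it is antitone).
STEP 2 (small box). `f x (a,b,lam) = log (Qr s L (k x) (F x) a b lam)` is jointly continuous and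
`|f x p| ≤ C_L(1+x²)` for `dist p (t₀,t₀,lam₀) ≤ 1` (then `|a|, |b|, |lam| ≤ 2`), by `logQr_le`,
`logQr_ge`. `sup_family` with tolerance `η/(2 al)` gives `ρ`, `Φ`. `dist` on `ℝ × ℝ × ℝ` is the
maximum of the three distances.
-/

set_option autoImplicit false
open MeasureTheory ProbabilityTheory Filter Topology

namespace Pool.Agent.IP49.LP

private theorem tp_eq83 (ψ : ℝ) : tp 0 (qp ψ) = Real.sqrt (1 - qp ψ) := by
  unfold tp; rw [add_zero]

private theorem t_pos83 (ψ : ℝ) : 0 < Real.sqrt (1 - qp ψ) :=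
  Real.sqrt_pos.2 (by have := qp_lt_one (ψ := ψ); linarith)

private theorem t_sq83 (ψ : ℝ) : Real.sqrt (1 - qp ψ) ^ 2 = 1 - qp ψ :=
  Real.sq_sqrt (by have := qp_lt_one (ψ := ψ); linarith)

private theorem t_le_one83 (ψ : ℝ) : Real.sqrt (1 - qp ψ) ≤ 1 := by
  have := qp_nonneg ψ
  exact Real.sqrt_le_iff.2 ⟨zero_le_one, by linarith⟩

/-- linear growth of `F` and `k` -/
theorem FF_kf_growth (κ ψ : ℝ) : ∃ C : ℝ, 0 ≤ C ∧ ∀ x : ℝ,
    |FF κ 0 (qp ψ) x| ≤ C * (1 + |x|) ∧ |kf κ ψ x| ≤ C * (1 + |x|) := by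
  have hq : qp ψ < 1 := qp_lt_one
  have hq0 := qp_nonneg ψ
  have ht : 0 < tp 0 (qp ψ) := tp_pos le_rfl hq
  set t := tp 0 (qp ψ) with htdef
  set C₁ := (1 + (|κ| + 1) / t) / t with hC₁
  have hC₁0 : 0 ≤ C₁ := by positivity
  have hF : ∀ x, |FF κ 0 (qp ψ) x| ≤ C₁ * (1 + |x|) := by
    intro x
    rw [abs_of_pos (FF_pos le_rfl hq x)]
    refine (FF_le le_rfl hq x).trans ?_
    rw [← htdef, hC₁, div_mul_eq_mul_div]
    apply div_le_div_of_nonneg_right _ ht.le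
    have h1 : |κ - x| ≤ (|κ| + 1) * (1 + |x|) := by
      have := abs_sub κ x
      nlinarith [abs_nonneg κ, abs_nonneg x, mul_nonneg (abs_nonneg κ) (abs_nonneg x)]
    have h2 : |κ - x| / t ≤ (|κ| + 1) / t * (1 + |x|) := by
      rw [div_mul_eq_mul_div]
      exact div_le_div_of_nonneg_right h1 ht.le
    nlinarith [abs_nonneg x]
  refine ⟨C₁ + (|κ| + 1), by positivity, fun x => ⟨?_, ?_⟩⟩
  · refine (hF x).trans ?_
    apply mul_le_mul_of_nonneg_right _ (by positivity)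
    linarith [abs_nonneg κ]
  · unfold kf
    have h1 : |κ - x - (1 - qp ψ) * FF κ 0 (qp ψ) x| ≤ |κ - x| + |(1 - qp ψ) * FF κ 0 (qp ψ) x| :=
      abs_sub _ _
    have h2 : |(1 - qp ψ) * FF κ 0 (qp ψ) x| ≤ |FF κ 0 (qp ψ) x| := by
      rw [abs_mul, abs_of_nonneg (by linarith : (0:ℝ) ≤ 1 - qp ψ)]
      have := abs_nonneg (FF κ 0 (qp ψ) x)
      nlinarith
    have h3 : |κ - x| ≤ (|κ| + 1) * (1 + |x|) := by
      have := abs_sub κ x
      nlinarith [abs_nonneg κ, abs_nonneg x, mul_nonneg (abs_nonneg κ) (abs_nonneg x)]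
    have := hF x
    nlinarith

theorem continuous_kf (κ ψ : ℝ) : Continuous (kf κ ψ) :=
  (continuous_const.sub continuous_id).sub (continuous_const.mul continuous_FF)

private theorem kf_eq83 (κ ψ x : ℝ) :
    kf κ ψ x / Real.sqrt (1 - qp ψ) = zf κ ψ x - Mi (zf κ ψ x) := by
  have ht := t_pos83 ψ
  have h2 := t_sq83 ψ
  unfold kf FF zf
  rw [tp_eq83]
  set t := Real.sqrt (1 - qp ψ)
  rw [← h2]
  field_simp

private theorem F_eq83 (κ ψ x : ℝ) :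
    FF κ 0 (qp ψ) x * Real.sqrt (1 - qp ψ) = Mi (zf κ ψ x) := by
  have ht := t_pos83 ψ
  unfold FF zf
  rw [tp_eq83]
  field_simp

private theorem arg_eq83 {κ ψ th lam₀ : ℝ} (h1 : -1 < lam₀) (x : ℝ) :
    kf κ ψ x / Real.sqrt (1 - qp ψ) -
      -(1 + th) / (1 + lam₀) * FF κ 0 (qp ψ) x * Real.sqrt (1 - qp ψ) * (1 + lam₀) =
    zf κ ψ x + th * Mi (zf κ ψ x) := by
  have hl : (1 + lam₀) ≠ 0 := by linarith
  rw [kf_eq83]
  have e : -(1 + th) / (1 + lam₀) * FF κ 0 (qp ψ) x * Real.sqrt (1 - qp ψ) * (1 + lam₀)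
      = -(1 + th) * (FF κ 0 (qp ψ) x * Real.sqrt (1 - qp ψ)) := by
    field_simp
  rw [e, F_eq83]
  ring

private theorem quad_eq83 {κ ψ th lam₀ : ℝ} (h1 : -1 < lam₀) (x : ℝ) :
    (-(1 + th) / (1 + lam₀)) ^ 2 * FF κ 0 (qp ψ) x ^ 2 * Real.sqrt (1 - qp ψ) ^ 2 * (1 + lam₀) =
    ((1 + th) ^ 2 * (1 - qp ψ) / (1 + lam₀)) * FF κ 0 (qp ψ) x ^ 2 := by
  have hl : (1 + lam₀) ≠ 0 := by linarith
  rw [t_sq83]
  field_simp

private theorem Pl_anti83 (lam : ℝ) : Antitone (Pl lam) := by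
  intro x y hxy
  unfold Pl
  apply measureReal_mono
  · rintro p ⟨h1, h2⟩
    exact ⟨hxy.trans h1, hxy.trans h2⟩
  · exact measure_ne_top _ _

private theorem growth_sq83 {C x y : ℝ} (h : |y| ≤ C * (1 + |x|)) :
    y ^ 2 ≤ (2 * C ^ 2) * (1 + x ^ 2) := by
  have h1 : y ^ 2 ≤ (C * (1 + |x|)) ^ 2 := by
    rw [← sq_abs y]
    exact pow_le_pow_left₀ (abs_nonneg _) h 2
  have h2 : (1 + |x|) ^ 2 ≤ 2 * (1 + x ^ 2) := by
    have := sq_abs x
    nlinarith [sq_nonneg (1 - |x|)]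
  calc y ^ 2 ≤ (C * (1 + |x|)) ^ 2 := h1
    _ = C ^ 2 * (1 + |x|) ^ 2 := by ring
    _ ≤ C ^ 2 * (2 * (1 + x ^ 2)) := mul_le_mul_of_nonneg_left h2 (sq_nonneg C)
    _ = _ := by ring

theorem rowB_con {κ ψ th lam₀ : ℝ} (hψ : 0 < ψ) (h1 : -1 < lam₀) (h2 : lam₀ ≤ 1) :
    RowB κ ψ (-(1 + th) / (1 + lam₀)) lam₀ (con κ ψ th lam₀) := by
  intro η hη
  have hq : qp ψ < 1 := qp_lt_one
  have hq0 := qp_nonneg ψ
  have hal : 0 < al κ 0 ψ := al_pos le_rfl hψ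
  have ht := t_pos83 ψ
  have ht1 := t_le_one83 ψ
  have htsq := t_sq83 ψ
  have hl : |lam₀| ≤ 1 := abs_le.2 ⟨h1.le, h2⟩
  have hl0 : 0 < 1 + lam₀ := by linarith
  obtain ⟨C₀, hC₀, hgr⟩ := FF_kf_growth κ ψ
  obtain ⟨C₂, hC₂, hPl⟩ := logPl_ge h1 h2
  set s := -(1 + th) / (1 + lam₀) with hs
  set t := Real.sqrt (1 - qp ψ) with htd
  set F := FF κ 0 (qp ψ) with hF
  set k := kf κ ψ with hk
  have hFc : Continuous F := continuous_FF
  have hkc : Continuous k := continuous_kf κ ψ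
  have hF2 : ∀ x, F x ^ 2 ≤ (2 * C₀ ^ 2) * (1 + x ^ 2) := fun x => growth_sq83 (hgr x).1
  have hk2 : ∀ x, k x ^ 2 ≤ (2 * C₀ ^ 2) * (1 + x ^ 2) := fun x => growth_sq83 (hgr x).2
  -- argument of `Pl`
  set A : ℝ → ℝ := fun x => zf κ ψ x + th * Mi (zf κ ψ x) with hA
  have hArg : ∀ x, k x / t - s * F x * t * (1 + lam₀) = A x := fun x => arg_eq83 h1 x
  have hAc : Continuous A := by
    have hz : Continuous (zf κ ψ) := by
      unfold zf
      exact (continuous_const.sub continuous_id).div_const _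
    exact hz.add (continuous_const.mul (continuous_Mi.comp hz))
  -- growth of `A`
  obtain ⟨CA, hCA, hAg⟩ : ∃ CA : ℝ, 0 ≤ CA ∧ ∀ x, |A x| ≤ CA * (1 + |x|) := by
    refine ⟨(1 + |th|) * ((|κ| + 1) / t) + |th|, by positivity, fun x => ?_⟩
    have hz : |zf κ ψ x| ≤ (|κ| + 1) / t * (1 + |x|) := by
      unfold zf
      rw [abs_div, abs_of_pos ht, div_mul_eq_mul_div]
      apply div_le_div_of_nonneg_right _ ht.le
      have := abs_sub κ x
      nlinarith [abs_nonneg κ, abs_nonneg x, mul_nonneg (abs_nonneg κ) (abs_nonneg x)]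
    have hM : |Mi (zf κ ψ x)| ≤ 1 + |zf κ ψ x| := by
      rw [abs_of_pos (Mi_pos _)]
      exact Mi_le_abs _
    calc |A x| ≤ |zf κ ψ x| + |th * Mi (zf κ ψ x)| := abs_add_le _ _
      _ = |zf κ ψ x| + |th| * |Mi (zf κ ψ x)| := by rw [abs_mul]
      _ ≤ |zf κ ψ x| + |th| * (1 + |zf κ ψ x|) := by
          have := mul_le_mul_of_nonneg_left hM (abs_nonneg th)
          linarith
      _ = (1 + |th|) * |zf κ ψ x| + |th| * 1 := by ring
      _ ≤ (1 + |th|) * ((|κ| + 1) / t * (1 + |x|)) + |th| * (1 + |x|) := by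
          have e1 := mul_le_mul_of_nonneg_left hz (by positivity : (0:ℝ) ≤ 1 + |th|)
          have e2 : |th| * 1 ≤ |th| * (1 + |x|) :=
            mul_le_mul_of_nonneg_left (by have := abs_nonneg x; linarith) (abs_nonneg th)
          linarith
      _ = _ := by ring
  have hA2 : ∀ x, A x ^ 2 ≤ (2 * CA ^ 2) * (1 + x ^ 2) := fun x => growth_sq83 (hAg x)
  -- bounds for `log Pl (A x)`
  have hlP : ∀ x, -((C₂ * (1 + 2 * CA ^ 2)) * (1 + x ^ 2)) ≤ Real.log (Pl lam₀ (A x)) := by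
    intro x
    refine le_trans ?_ (hPl (A x)).2
    have := hA2 x
    have e : 1 + A x ^ 2 ≤ (1 + 2 * CA ^ 2) * (1 + x ^ 2) := by nlinarith [sq_nonneg x]
    have := mul_le_mul_of_nonneg_left e hC₂
    linarith
  have hlP0 : ∀ x, Real.log (Pl lam₀ (A x)) ≤ 0 := fun x =>
    Real.log_nonpos (hPl (A x)).1.le (Pl_le_one _ _)
  -- the limit function
  set g₀ : ℝ → ℝ := fun x => s ^ 2 * F x ^ 2 * t ^ 2 * (1 + lam₀) + Real.log (Pl lam₀ (A x))
    with hg₀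
  set g : ℝ → ℝ → ℝ := fun L x => Real.log (Qr s L (k x) (F x) t t lam₀) with hg
  have ht2 : |t| ≤ 2 := by rw [abs_of_pos ht]; linarith
  have hl2 : |lam₀| ≤ 2 := by linarith
  have hgc : ∀ L, 0 ≤ L → Continuous (g L) := by
    intro L hL
    refine Continuous.log ?_ (fun x => (Qr_pos _ _ _ _ _ _ hL).ne')
    exact (Qr_cont s hL).comp (hkc.prodMk (hFc.prodMk (continuous_const.prodMk
      (continuous_const.prodMk continuous_const))))
  set Cg : ℝ := 20 * s ^ 2 * (2 * C₀ ^ 2) + C₂ * (1 + 2 * CA ^ 2) with hCg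
  have hgb : ∀ L, 0 ≤ L → ∀ x, |g L x| ≤ Cg * (1 + x ^ 2) := by
    intro L hL x
    rw [abs_le]
    constructor
    · have e1 := le_Qr s (k x) (F x) hL ht hl
      rw [hArg x] at e1
      have e2 : 0 < Pl lam₀ (A x) := (hPl (A x)).1
      have e3 : s ^ 2 * F x ^ 2 * t ^ 2 * (1 + lam₀) + Real.log (Pl lam₀ (A x)) ≤ g L x := by
        have := Real.log_le_log (mul_pos (Real.exp_pos _) e2) e1
        rwa [Real.log_mul (Real.exp_pos _).ne' e2.ne', Real.log_exp] at this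
      have e4 : 0 ≤ s ^ 2 * F x ^ 2 * t ^ 2 * (1 + lam₀) := by positivity
      have e5 := hlP x
      have e6 : 0 ≤ 20 * s ^ 2 * (2 * C₀ ^ 2) * (1 + x ^ 2) := by positivity
      rw [hCg]
      linarith
    · have e1 := logQr_le s (k x) (F x) t t lam₀ hL ht2 ht2 hl2
      have e2 := hF2 x
      have e3 : 20 * s ^ 2 * F x ^ 2 ≤ 20 * s ^ 2 * ((2 * C₀ ^ 2) * (1 + x ^ 2)) :=
        mul_le_mul_of_nonneg_left e2 (by positivity)
      have e4 : 0 ≤ C₂ * (1 + 2 * CA ^ 2) * (1 + x ^ 2) := by positivity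
      rw [hCg]
      show Real.log (Qr s L (k x) (F x) t t lam₀) ≤ _
      linarith
  have hgl : ∀ x, Tendsto (fun L => g L x) atTop (𝓝 (g₀ x)) := by
    intro x
    have e1 := Qr_tendsto s (k x) (F x) ht hl
    rw [hArg x] at e1
    have e2 : 0 < Pl lam₀ (A x) := (hPl (A x)).1
    have e3 := e1.log (mul_pos (Real.exp_pos _) e2).ne'
    rwa [Real.log_mul (Real.exp_pos _).ne' e2.ne', Real.log_exp] at e3
  obtain ⟨L, hL, hLG⟩ := lim_GE (fun L hL => (hgc L hL).measurable) hgb hgl (Real.sqrt (qp ψ))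
    (η := η / (2 * al κ 0 ψ)) (by positivity)
  -- value of the limit
  have hval : al κ 0 ψ * GE (fun x => g₀ (Real.sqrt (qp ψ) * x)) = con κ ψ th lam₀ := by
    have hi1 : Integrable (fun x => s ^ 2 * F (Real.sqrt (qp ψ) * x) ^ 2 * t ^ 2 * (1 + lam₀))
        (gaussianReal 0 1) := by
      refine QG_integrable (f := fun x => s ^ 2 * F x ^ 2 * t ^ 2 * (1 + lam₀)) ⟨?_, ?_⟩ _
      · exact ((continuous_const.mul (hFc.pow 2)).mul continuous_const).mul continuous_const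
      · refine ⟨s ^ 2 * t ^ 2 * (1 + lam₀) * (2 * C₀ ^ 2), fun x => ?_⟩
        rw [abs_of_nonneg (by positivity)]
        have := mul_le_mul_of_nonneg_left (hF2 x) (by positivity : 0 ≤ s ^ 2 * t ^ 2 * (1 + lam₀))
        calc s ^ 2 * F x ^ 2 * t ^ 2 * (1 + lam₀) = s ^ 2 * t ^ 2 * (1 + lam₀) * F x ^ 2 := by ring
          _ ≤ _ := this
          _ = _ := by ring
    have hi2 : Integrable (fun x => Real.log (Pl lam₀ (A (Real.sqrt (qp ψ) * x))))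
        (gaussianReal 0 1) := by
      have hm : Measurable (fun x => Real.log (Pl lam₀ (A (Real.sqrt (qp ψ) * x)))) :=
        ((Pl_anti83 lam₀).measurable.comp
          (hAc.comp (continuous_const.mul continuous_id)).measurable).log
      refine integrable_of_growth hm (C := (C₂ * (1 + 2 * CA ^ 2)) * (1 + Real.sqrt (qp ψ) ^ 2))
        (k := 1) fun x => ?_
      rw [abs_of_nonpos (hlP0 _), pow_one]
      have e1 := hlP (Real.sqrt (qp ψ) * x)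
      have e2 : 1 + (Real.sqrt (qp ψ) * x) ^ 2 ≤ (1 + Real.sqrt (qp ψ) ^ 2) * (1 + x ^ 2) := by
        nlinarith [sq_nonneg x, sq_nonneg (Real.sqrt (qp ψ))]
      have e3 := mul_le_mul_of_nonneg_left e2 (by positivity : 0 ≤ C₂ * (1 + 2 * CA ^ 2))
      linarith
    have e1 : GE (fun x => g₀ (Real.sqrt (qp ψ) * x)) =
        GE (fun x => s ^ 2 * F (Real.sqrt (qp ψ) * x) ^ 2 * t ^ 2 * (1 + lam₀)) +
        GE (fun x => Real.log (Pl lam₀ (A (Real.sqrt (qp ψ) * x)))) := GE_add hi1 hi2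
    have e2 : (fun x => s ^ 2 * F (Real.sqrt (qp ψ) * x) ^ 2 * t ^ 2 * (1 + lam₀)) =
        fun x => ((1 + th) ^ 2 * (1 - qp ψ) / (1 + lam₀)) * F (Real.sqrt (qp ψ) * x) ^ 2 := by
      ext x
      exact quad_eq83 h1 _
    have e3 := al_EF2 (κ := κ) (ν := 0) (ψ := ψ) le_rfl
    rw [e1, e2, GE_mul, mul_add]
    unfold con
    congr 1
    rw [← mul_assoc, mul_comm (al κ 0 ψ), mul_assoc]
    rw [hF, e3]
    field_simp
  -- step 2
  set p₀ : ℝ × ℝ × ℝ := (t, t, lam₀) with hp₀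
  set f : ℝ → ℝ × ℝ × ℝ → ℝ := fun x p => Real.log (Qr s L (k x) (F x) p.1 p.2.1 p.2.2) with hf
  have hfc : Continuous (Function.uncurry f) := by
    refine Continuous.log ?_ (fun x => (Qr_pos _ _ _ _ _ _ hL.le).ne')
    have e : Continuous (fun y : ℝ × (ℝ × ℝ × ℝ) => (k y.1, F y.1, y.2.1, y.2.2.1, y.2.2.2)) :=
      (hkc.comp continuous_fst).prodMk ((hFc.comp continuous_fst).prodMk (by fun_prop))
    exact (Qr_cont s hL.le).comp e
  obtain ⟨C₃, hC₃, hlow⟩ := logQr_ge s hL.le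
  have hdist : ∀ {ρ : ℝ} {p : ℝ × ℝ × ℝ}, dist p p₀ ≤ ρ ↔
      |p.1 - t| ≤ ρ ∧ |p.2.1 - t| ≤ ρ ∧ |p.2.2 - lam₀| ≤ ρ := by
    intro ρ p
    rw [Prod.dist_eq, Prod.dist_eq]
    simp only [hp₀, Real.dist_eq, max_le_iff]
  set Cf : ℝ := 20 * s ^ 2 * (2 * C₀ ^ 2) + C₃ * (1 + 2 * C₀ ^ 2 + 2 * C₀ ^ 2) with hCf
  have hfb : ∀ x p, dist p p₀ ≤ 1 → |f x p| ≤ Cf * (1 + x ^ 2) := by
    intro x p hp
    obtain ⟨d1, d2, d3⟩ := hdist.1 hp
    have b1 : |p.1| ≤ 2 := by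
      have := abs_sub_abs_le_abs_sub p.1 t
      rw [abs_of_pos ht] at this
      linarith
    have b2 : |p.2.1| ≤ 2 := by
      have := abs_sub_abs_le_abs_sub p.2.1 t
      rw [abs_of_pos ht] at this
      linarith
    have b3 : |p.2.2| ≤ 2 := by
      have := abs_sub_abs_le_abs_sub p.2.2 lam₀
      linarith
    rw [abs_le]
    constructor
    · have e1 := hlow (k x) (F x) p.1 p.2.1 p.2.2 b1 b2 b3
      have e2 := hF2 x
      have e3 := hk2 x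
      have e4 : 1 + k x ^ 2 + F x ^ 2 ≤ (1 + 2 * C₀ ^ 2 + 2 * C₀ ^ 2) * (1 + x ^ 2) := by
        linarith [sq_nonneg x]
      have e5 := mul_le_mul_of_nonneg_left e4 hC₃
      have e6 : 0 ≤ 20 * s ^ 2 * (2 * C₀ ^ 2) * (1 + x ^ 2) := by positivity
      rw [hCf]
      show _ ≤ Real.log (Qr s L (k x) (F x) p.1 p.2.1 p.2.2)
      linarith
    · have e1 := logQr_le s (k x) (F x) p.1 p.2.1 p.2.2 hL.le b1 b2 b3
      have e2 := hF2 x
      have e3 : 20 * s ^ 2 * F x ^ 2 ≤ 20 * s ^ 2 * ((2 * C₀ ^ 2) * (1 + x ^ 2)) :=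
        mul_le_mul_of_nonneg_left e2 (by positivity)
      have e4 : 0 ≤ C₃ * (1 + 2 * C₀ ^ 2 + 2 * C₀ ^ 2) * (1 + x ^ 2) := by positivity
      rw [hCf]
      show Real.log (Qr s L (k x) (F x) p.1 p.2.1 p.2.2) ≤ _
      linarith
  obtain ⟨ρ, hρ, hρ1, Φ, hΦ, hΦ1, hΦ2⟩ := sup_family hfc p₀ hfb (Real.sqrt (qp ψ))
    (η := η / (2 * al κ 0 ψ)) (by positivity)
  refine ⟨L, hL, ρ, hρ, Φ, hΦ, ?_, ?_⟩
  · intro x a b lam ha hb hlam _
    exact hΦ1 x (a, b, lam) (hdist.2 ⟨ha, hb, hlam⟩)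
  · have e1 : GE (fun x => Φ (Real.sqrt (qp ψ) * x)) ≤
        GE (fun x => g₀ (Real.sqrt (qp ψ) * x)) + η / al κ 0 ψ := by
      have e2 : η / (2 * al κ 0 ψ) + η / (2 * al κ 0 ψ) = η / al κ 0 ψ := by
        field_simp
        ring
      have e3 : GE (fun x => f (Real.sqrt (qp ψ) * x) p₀) =
        GE (fun x => g L (Real.sqrt (qp ψ) * x)) := rfl
      linarith
    have e2 := mul_le_mul_of_nonneg_left e1 hal.le
    rw [mul_add, hval] at e2
    have e3 : al κ 0 ψ * (η / al κ 0 ψ) = η := by field_simp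
    linarith

end Pool.Agent.IP49.LP
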