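import Pool.Agent.IP49.LUp
import Pool.Agent.IP49.LCnt
import Pool.Agent.IP49.LRowC

/-!
IP49, part L, module LLoc: second moment of the pairs with `(ov - q)/(1-q)` near `lam₀`.

PROOF. `q = qp ψ`, `t₀ = √(1-q)`, `α = al κ 0 ψ`, `R₀ = q + lam₀ (1-q)`, `λ_{ww'} = (ov w w' - q)/(1-q)`,
so `|λ_{ww'} - lam₀| ≤ ρ` implies `|ov w w' - R₀| ≤ (1-q)ρ ≤ ρ`.
From `hrow` with `η/8`: `L > 0`, `ρ₁ > 0`, `Φ` (QG).
Test functions: T1 = [lc, x tanh x, tanh² x, log(2 exp(e) cosh(2(l tanh x + s x)) + 2 exp(-e))],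
T2 = [FF κ 0 q x ^ 2, Φ]; all QG (`|lc x| ≤ |x| + log 2`; the last one is between
`log (2 exp(-|e|))` and `log 4 + |e| + 2(|l| + |s||x|)`; `FF_le`).
Choose `ρ ≤ ρ₁/2` and `dl ∈ (0, (1-q)/4]` small (conditions below), `r := √dl`, `ε = dl`.
PARAMETERS OF A PAIR `w, w' ∈ T` with `|λ_{ww'} - lam₀| ≤ ρ`: `a := √(nsq (u w))`,
`b := √(nsq (u w'))`; `ovl` with `ov w w = 1` (N > 0): `a², b² ∈ [1-q-dl, 1-q+dl]`, so
`|a - t₀|, |b - t₀| ≤ dl/t₀ ≤ ρ₁`, `a b > 0`, `|ab - (1-q)| ≤ dl`. `lam := (∑ u w i u w' i)/(ab)`,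
`|lam| ≤ 1` (Cauchy-Schwarz), `|lam - λ_{ww'}| ≤ |Γ||1/(ab) - 1/(1-q)| + |Γ/(1-q) - λ_{ww'}| ≤
2dl/(1-q)` (`|Γ| ≤ ab`, `ovl`), so `|lam - lam₀| ≤ ρ + 2dl/(1-q) ≤ ρ₁`.
`pair_up` with `s'`, `L`, `CF := ψ + 1` (from `f = F²`, `α GE F² = ψ` (`al_EF2`), `dl ≤ 1`), `r`;
`hK`: `(a²+b²)K·2 ≤ 4K·... ≤ r²N = dl N` for `N ≥ 8K/dl` (`a²,b² ≤ 2`). With `log Qr ≤ Φ(hh_k)`
(`hrow`), `Qr > 0`: `∏ Qr ≤ exp(∑ Φ(hh_k)) ≤ exp(N(α GE Φ(√q ·) + dl)) ≤ exp(N(B + η/8 + dl))`. So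
`(GM).real(Ev ∩ Ev') ≤ 2 exp(N(B + η/8 + dl + 2|s'|(√(dl C) + √(ψ+1)√dl) + 2L(3√dl)²))`
(`δ ≤ dl`).
COUNT: `cnt` with `R₀`, `ρ`: the sum of `piw piw` over these pairs is at most
`exp(N(2ψ(1-q) - 2E lc - 2lq - 2sψ(1-q) - eR₀ + GE(log(…)) + O(dl) + |e|ρ))
= exp(N(-2 s0 ψ + sp ψ lam₀ l s e + O(dl) + |e|ρ))`, where each empirical average is replaced by its
expectation up to `dl` (Yset), `E[h tanh h] = ψ(1-q)` (`E_h_tanh`), `E tanh² = q` (definition of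
`qp`), `O(dl) ≤ dl (2+2+2|l|+2|s|+1+2+2|l|+2|s|)`.
TOTAL exponent/N `≤ -2 s0 + sp + B + η/8 + small(dl, ρ) ≤ -2 s0 + 2 GG + η/2 = 2 C0 + η/2`, because
`GG κ ψ = s0 ψ + C0 κ ψ` (definitions; `zz`), when `|e|ρ ≤ η/8` and `small(dl) ≤ η/4`; the factor
`2 ≤ exp(Nη/2)` for `N` large.
-/

set_option autoImplicit false
open MeasureTheory ProbabilityTheory Filter Topology

namespace Pool.Agent.IP49.LP

theorem GG_eq (κ ψ : ℝ) : GG κ ψ = s0 ψ + C0 κ ψ := by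
  unfold GG s0 C0 zz
  ring

private theorem qg_lc : QG lc := by
  refine ⟨continuous_iff_continuousAt.2 fun x => (hasDerivAt_lc x).continuousAt, 2, fun x => ?_⟩
  obtain ⟨h1, h2⟩ := lc_bounds x
  have h3 : Real.log 2 ≤ 1 := by
    have := Real.log_two_lt_d9
    linarith
  rw [abs_of_nonneg ((abs_nonneg x).trans h1)]
  nlinarith [sq_nonneg (|x| - 1), sq_abs x]

private theorem qg_xt : QG (fun x => x * Real.tanh x) := by
  refine ⟨continuous_id.mul continuous_tanh', 1, fun x => ?_⟩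
  have h1 := (Real.abs_tanh_lt_one x).le
  rw [abs_mul]
  have h2 : |x| * |Real.tanh x| ≤ |x| * 1 := mul_le_mul_of_nonneg_left h1 (abs_nonneg x)
  nlinarith [sq_nonneg (|x| - 1), sq_abs x]

private theorem qg_t2 : QG (fun x => Real.tanh x ^ 2) := by
  refine ⟨continuous_tanh'.pow 2, 1, fun x => ?_⟩
  have h1 := (tanh_sq_lt x).le
  rw [abs_of_nonneg (sq_nonneg _)]
  nlinarith [sq_nonneg x]

private theorem qg_sp (l s e : ℝ) : QG (fun x => Real.log (2 * Real.exp e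
    * Real.cosh (2 * (l * Real.tanh x + s * x)) + 2 * Real.exp (-e))) := by
  have hpos : ∀ x, 0 < 2 * Real.exp e * Real.cosh (2 * (l * Real.tanh x + s * x))
      + 2 * Real.exp (-e) := fun x => by
    have := Real.cosh_pos (2 * (l * Real.tanh x + s * x))
    positivity
  refine ⟨?_, Real.log 4 + |e| + 2 * |l| + 2 * |s|, fun x => ?_⟩
  · refine Continuous.log ?_ fun x => (hpos x).ne'
    have := continuous_tanh'
    fun_prop
  · beta_reduce
    obtain ⟨y, hy⟩ : ∃ y, y = 2 * (l * Real.tanh x + s * x) := ⟨_, rfl⟩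
    rw [← hy]
    have hyb : |y| ≤ 2 * |l| + 2 * |s| * |x| := by
      rw [hy, abs_mul, abs_two]
      have h1 : |l * Real.tanh x + s * x| ≤ |l| * |Real.tanh x| + |s| * |x| := by
        refine (abs_add_le _ _).trans ?_
        rw [abs_mul, abs_mul]
      have h2 := (Real.abs_tanh_lt_one x).le
      have h3 : |l| * |Real.tanh x| ≤ |l| * 1 := mul_le_mul_of_nonneg_left h2 (abs_nonneg l)
      linarith
    have hc1 : 1 ≤ Real.cosh y := Real.one_le_cosh y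
    have hc2 : Real.cosh y ≤ Real.exp |y| := by
      rw [← Real.cosh_abs, Real.cosh_eq]
      have : Real.exp (-|y|) ≤ Real.exp |y| :=
        Real.exp_le_exp.2 (by linarith [abs_nonneg y])
      linarith
    have he1 : Real.exp e ≤ Real.exp |e| := Real.exp_le_exp.2 (le_abs_self e)
    have he2 : Real.exp (-e) ≤ Real.exp |e| := Real.exp_le_exp.2 (neg_le_abs e)
    have hye : 1 ≤ Real.exp |y| := Real.one_le_exp (abs_nonneg y)
    have hlow : 1 ≤ 2 * Real.exp e * Real.cosh y + 2 * Real.exp (-e) := by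
      have h1 : 2 * Real.exp e * 1 ≤ 2 * Real.exp e * Real.cosh y :=
        mul_le_mul_of_nonneg_left hc1 (by positivity)
      have h2 := Real.add_one_le_exp e
      have h3 := Real.add_one_le_exp (-e)
      linarith
    have hupp : 2 * Real.exp e * Real.cosh y + 2 * Real.exp (-e) ≤
        4 * Real.exp (|e| + |y|) := by
      rw [Real.exp_add]
      have h1 : 2 * Real.exp e * Real.cosh y ≤ 2 * Real.exp |e| * Real.exp |y| := by
        gcongr
      have h2 : Real.exp |e| * 1 ≤ Real.exp |e| * Real.exp |y| := by gcongr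
      nlinarith
    rw [abs_of_nonneg (Real.log_nonneg hlow)]
    have h4 : Real.log (2 * Real.exp e * Real.cosh y + 2 * Real.exp (-e)) ≤
        Real.log 4 + (|e| + |y|) := by
      rw [← Real.log_exp (|e| + |y|), ← Real.log_mul (by norm_num) (Real.exp_pos _).ne']
      exact Real.log_le_log (by linarith) hupp
    have h5 : 0 ≤ Real.log 4 := Real.log_nonneg (by norm_num)
    have h6 : |x| ≤ 1 + x ^ 2 := by nlinarith [sq_nonneg (|x| - 1), sq_abs x]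
    have h7 : |s| * |x| ≤ |s| * (1 + x ^ 2) := mul_le_mul_of_nonneg_left h6 (abs_nonneg s)
    have h8 : 0 ≤ (Real.log 4 + |e| + 2 * |l|) * x ^ 2 := by positivity
    nlinarith

private theorem qg_FF2 (κ ψ : ℝ) : QG (fun x => FF κ 0 (qp ψ) x ^ 2) := by
  obtain ⟨C, hC, hb⟩ := FF_kf_growth κ ψ
  refine ⟨continuous_FF.pow 2, 2 * C ^ 2, fun x => ?_⟩
  have h1 := (hb x).1
  beta_reduce
  rw [abs_of_nonneg (sq_nonneg _), ← sq_abs (FF κ 0 (qp ψ) x)]
  have h2 : |FF κ 0 (qp ψ) x| ^ 2 ≤ (C * (1 + |x|)) ^ 2 :=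
    pow_le_pow_left₀ (abs_nonneg _) h1 2
  refine h2.trans ?_
  rw [mul_pow]
  have h3 : (1 + |x|) ^ 2 ≤ 2 * (1 + x ^ 2) := by nlinarith [sq_nonneg (|x| - 1), sq_abs x]
  nlinarith [mul_le_mul_of_nonneg_left h3 (sq_nonneg C)]

/-- the parameters of a pair of vectors with almost prescribed scalar products -/
private theorem pair_par {N : ℕ} {b dl g : ℝ} (hb : 0 < b) (hdl : 0 ≤ dl) (hdlb : dl ≤ b / 4)
    (u v : Fin N → ℝ) (h1 : |nsq u - b| ≤ dl) (h2 : |nsq v - b| ≤ dl)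
    (h3 : |∑ i, u i * v i - g| ≤ dl) :
    ∃ x y lam : ℝ, nsq u = x ^ 2 ∧ nsq v = y ^ 2 ∧ |x - Real.sqrt b| ≤ dl / Real.sqrt b ∧
      |y - Real.sqrt b| ≤ dl / Real.sqrt b ∧ ∑ i, u i * v i = lam * x * y ∧ |lam| ≤ 1 ∧
      |lam - g / b| ≤ 2 * dl / b ∧ x ^ 2 ≤ b + dl ∧ y ^ 2 ≤ b + dl := by
  have hsb : 0 < Real.sqrt b := Real.sqrt_pos.2 hb
  have hsb2 : Real.sqrt b ^ 2 = b := Real.sq_sqrt hb.le
  have aux : ∀ w : Fin N → ℝ, |nsq w - b| ≤ dl → 0 < Real.sqrt (nsq w) ∧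
      Real.sqrt (nsq w) ^ 2 = nsq w ∧ |Real.sqrt (nsq w) - Real.sqrt b| ≤ dl / Real.sqrt b := by
    intro w hw
    have hw' := abs_le.1 hw
    have hpos : 0 < nsq w := by linarith
    have hs := Real.sqrt_pos.2 hpos
    have hs2 : Real.sqrt (nsq w) ^ 2 = nsq w := Real.sq_sqrt hpos.le
    refine ⟨hs, hs2, ?_⟩
    rw [le_div_iff₀ hsb]
    calc |Real.sqrt (nsq w) - Real.sqrt b| * Real.sqrt b
        ≤ |Real.sqrt (nsq w) - Real.sqrt b| * (Real.sqrt (nsq w) + Real.sqrt b) := by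
          gcongr; linarith
      _ = |nsq w - b| := by
          rw [← abs_of_pos (add_pos hs hsb), ← abs_mul]
          congr 1
          nlinarith
      _ ≤ dl := hw
  obtain ⟨hu0, hu2, hu3⟩ := aux u h1
  obtain ⟨hv0, hv2, hv3⟩ := aux v h2
  have h1' := abs_le.1 h1
  have h2' := abs_le.1 h2
  obtain ⟨x, hx⟩ : ∃ x, x = Real.sqrt (nsq u) := ⟨_, rfl⟩
  obtain ⟨y, hy⟩ : ∃ y, y = Real.sqrt (nsq v) := ⟨_, rfl⟩
  rw [← hx] at hu0 hu2 hu3
  rw [← hy] at hv0 hv2 hv3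
  have hxy : 0 < x * y := mul_pos hu0 hv0
  have hdot : |∑ i, u i * v i| ≤ x * y := by
    rw [hx, hy]; exact abs_dot_le u v
  obtain ⟨Γ, hΓ⟩ : ∃ Γ, Γ = ∑ i, u i * v i := ⟨_, rfl⟩
  rw [← hΓ] at hdot h3 ⊢
  have hxyb : |x * y - b| ≤ dl := by
    rw [abs_le]
    constructor
    · have h4 : (b - dl) ^ 2 ≤ (x * y) ^ 2 := by
        rw [mul_pow, hu2, hv2, sq]
        exact mul_le_mul (by linarith) (by linarith) (by linarith) (by linarith)
      have h5 := abs_le_of_sq_le_sq h4 hxy.le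
      have := le_abs_self (b - dl)
      have h6 : b - dl ≤ x * y := by
        exact (abs_le_of_sq_le_sq' h4 hxy.le).2
      linarith
    · nlinarith [sq_nonneg (x - y)]
  refine ⟨x, y, Γ / (x * y), hu2.symm, hv2.symm, hu3, hv3, ?_, ?_, ?_, by linarith, by linarith⟩
  · field_simp
  · rw [abs_div, abs_of_pos hxy, div_le_one hxy]; exact hdot
  · have e1 : Γ / (x * y) - g / b = Γ / (x * y) * ((b - x * y) / b) + (Γ - g) / b := by
      field_simp
      ring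
    rw [e1]
    refine (abs_add_le _ _).trans ?_
    have h7 : |Γ / (x * y) * ((b - x * y) / b)| ≤ dl / b := by
      rw [abs_mul, abs_div (b - x * y), abs_of_pos hb, abs_div, abs_of_pos hxy]
      have h8 : |Γ| / (x * y) ≤ 1 := (div_le_one hxy).2 hdot
      have h9 : |b - x * y| / b ≤ dl / b := by
        rw [abs_sub_comm]; gcongr
      calc |Γ| / (x * y) * (|b - x * y| / b) ≤ 1 * (|b - x * y| / b) := by gcongr
        _ ≤ dl / b := by rw [one_mul]; exact h9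
    have h10 : |(Γ - g) / b| ≤ dl / b := by
      rw [abs_div, abs_of_pos hb]; gcongr
    have e2 : 2 * dl / b = dl / b + dl / b := by ring
    rw [e2]
    exact add_le_add h7 h10

theorem loc {κ ψ lam₀ l s e s' B : ℝ} (hψ : 0 < ψ) (hrow : RowB κ ψ s' lam₀ B)
    (hsp : sp ψ lam₀ l s e + B ≤ 2 * GG κ ψ) {C η : ℝ} (hC : 0 ≤ C) (hη : 0 < η) :
    ∃ ρ : ℝ, 0 < ρ ∧ ∃ T1 T2 : List (ℝ → ℝ), (∀ f ∈ T1, QG f) ∧ (∀ f ∈ T2, QG f) ∧
      ∃ dl : ℝ, 0 < dl ∧ ∀ K : ℕ, ∀ᶠ N : ℕ in atTop,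
      ∀ (M : ℕ) (h : Fin N → ℝ) (hh : Fin M → ℝ) (R : (Fin M → Fin N → ℝ) → Fin M → Fin N → ℝ)
        (c : Fin K → Fin M → ℝ) (n : Fin M → ℝ) (u : (Fin N → Bool) → Fin N → ℝ)
        (e' : (Fin N → Bool) → Fin M → ℝ) (T : Finset (Fin N → Bool)),
        Cfg κ ψ dl h hh R c n u e' T → (h, hh) ∈ Yset κ 0 ψ T1 T2 dl M N →
        ∀ δ : ℝ, 0 ≤ δ → δ ≤ dl →
        ∑ w ∈ T, ∑ w' ∈ T.filter (fun w' => |(ov w w' - qp ψ) / (1 - qp ψ) - lam₀| ≤ ρ),
          piw h w * piw h w' * (GM M N).real (Ev κ δ C R c u w ∩ Ev κ δ C R c u w') ≤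
          Real.exp ((2 * C0 κ ψ + η) * N) := by
  classical
  obtain ⟨L, hL, ρ₁, hρ₁, Φ, hΦ, hQ, hB⟩ := hrow (η / 8) (by positivity)
  have hq1 : qp ψ < 1 := qp_lt_one
  have hq0 : 0 < qp ψ := qp_pos hψ
  obtain ⟨q, hq⟩ : ∃ q, q = qp ψ := ⟨_, rfl⟩
  rw [← hq] at hq1 hq0
  have hb : 0 < 1 - q := by linarith
  have hsb : 0 < Real.sqrt (1 - q) := Real.sqrt_pos.2 hb
  -- the error function
  obtain ⟨sm, hsm⟩ : ∃ sm : ℝ → ℝ, sm = fun dl => (8 + 4 * |l| + 4 * |s|) * dl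
      + 2 * (|s'| * (Real.sqrt (dl * C) + Real.sqrt (ψ + 1) * Real.sqrt dl)) + 18 * L * dl :=
    ⟨_, rfl⟩
  have hsmt : Tendsto sm (𝓝[>] 0) (𝓝 0) := by
    have hc : Continuous sm := by rw [hsm]; fun_prop
    have h0 : sm 0 = 0 := by rw [hsm]; simp
    have h1 := hc.tendsto 0
    rw [h0] at h1
    exact h1.mono_left nhdsWithin_le_nhds
  have hev : ∀ᶠ dl : ℝ in 𝓝[>] 0, 0 < dl ∧ dl < 1 ∧ dl < (1 - q) / 4 ∧
      dl < ρ₁ * Real.sqrt (1 - q) ∧ dl < (1 - q) * ρ₁ / 4 ∧ sm dl < η / 4 := by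
    have hlt : ∀ x : ℝ, 0 < x → ∀ᶠ dl : ℝ in 𝓝[>] 0, dl < x := fun x hx =>
      (eventually_lt_nhds hx).filter_mono nhdsWithin_le_nhds
    filter_upwards [self_mem_nhdsWithin, hlt 1 one_pos, hlt ((1 - q) / 4) (by linarith),
      hlt (ρ₁ * Real.sqrt (1 - q)) (by positivity), hlt ((1 - q) * ρ₁ / 4) (by positivity),
      hsmt.eventually_lt_const (by positivity : (0 : ℝ) < η / 4)] with dl h1 h2 h3 h4 h5 h6
    exact ⟨h1, h2, h3, h4, h5, h6⟩
  obtain ⟨dl, hdl0, hdl1, hdl2, hdl3, hdl4, hdl5⟩ := hev.exists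
  obtain ⟨ρ, hρ⟩ : ∃ ρ, ρ = min (ρ₁ / 2) (η / (8 * (|e| + 1))) := ⟨_, rfl⟩
  have hρ0 : 0 < ρ := by rw [hρ]; positivity
  have hρe : |e| * ρ ≤ η / 8 := by
    have h1 : ρ ≤ η / (8 * (|e| + 1)) := by rw [hρ]; exact min_le_right _ _
    calc |e| * ρ ≤ (|e| + 1) * (η / (8 * (|e| + 1))) := by
          gcongr; linarith
      _ = η / 8 := by
          have : |e| + 1 ≠ 0 := by positivity
          field_simp
  refine ⟨ρ, hρ0, [lc, fun x => x * Real.tanh x, fun x => Real.tanh x ^ 2,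
    fun x => Real.log (2 * Real.exp e * Real.cosh (2 * (l * Real.tanh x + s * x))
      + 2 * Real.exp (-e))], [fun x => FF κ 0 (qp ψ) x ^ 2, Φ], ?_, ?_, dl, hdl0, ?_⟩
  · simp only [List.forall_mem_cons, List.not_mem_nil, false_implies, implies_true, and_true]
    exact ⟨qg_lc, qg_xt, qg_t2, qg_sp l s e⟩
  · simp only [List.forall_mem_cons, List.not_mem_nil, false_implies, implies_true, and_true]
    exact ⟨qg_FF2 κ ψ, hΦ⟩
  intro K
  filter_upwards [eventually_gt_atTop 0, eventually_ge_atTop ⌈8 * K / dl⌉₊,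
    eventually_ge_atTop ⌈Real.log 2 / (η / 2)⌉₊] with N hN0 hNK hN2
  intro M h hh R c n u e' T hCfg hY δ hδ0 hδ
  have hNpos : (0 : ℝ) < N := by exact_mod_cast hN0
  have hNK' : 8 * K ≤ dl * N := by
    have h1 : (8 * K / dl : ℝ) ≤ N := (Nat.le_ceil _).trans (by exact_mod_cast hNK)
    rw [div_le_iff₀ hdl0] at h1
    linarith
  have hN2' : Real.log 2 ≤ η / 2 * N := by
    have h1 : (Real.log 2 / (η / 2) : ℝ) ≤ N := (Nat.le_ceil _).trans (by exact_mod_cast hN2)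
    rw [div_le_iff₀ (by positivity)] at h1
    linarith
  obtain ⟨hY1, hY2⟩ := hY
  simp only [List.forall_mem_cons, List.not_mem_nil, false_implies, implies_true, and_true]
    at hY1 hY2
  obtain ⟨hlc, hht, htt, hsl⟩ := hY1
  obtain ⟨hFF, hPh⟩ := hY2
  -- bounds for sums
  have hsum : ∀ (X E : ℝ), |X / N - E| ≤ dl → N * (E - dl) ≤ X ∧ X ≤ N * (E + dl) := by
    intro X E hX
    have h1 := abs_le.1 hX
    constructor
    · have h2 : E - dl ≤ X / N := by linarith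
      rw [le_div_iff₀ hNpos] at h2
      linarith
    · have h2 : X / N ≤ E + dl := by linarith
      rw [div_le_iff₀ hNpos] at h2
      linarith
  have hlc' := hsum _ _ hlc
  have hht' := hsum _ _ hht
  have htt' := hsum _ _ htt
  have hsl' := hsum _ _ hsl
  have hFF' := hsum _ _ hFF
  have hPh' := hsum _ _ hPh
  rw [al_EF2 le_rfl] at hFF'
  rw [E_h_tanh hψ] at hht'
  have hqe : (GE fun x => Real.tanh (Real.sqrt ψ * x) ^ 2) = q := by rw [hq]; rfl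
  simp only [hqe] at htt'
  rw [← hq] at hht'
  -- the probability of a pair
  have hovs : ∀ w : Fin N → Bool, ov w w = 1 := by
    intro w
    unfold ov
    have h1 : ∀ i, sgn (w i) * sgn (w i) = 1 := by
      intro i; unfold sgn; split <;> norm_num
    simp only [h1, Finset.sum_const, Finset.card_univ, Fintype.card_fin, nsmul_eq_mul, mul_one]
    exact div_self hNpos.ne'
  obtain ⟨PP, hPP⟩ : ∃ PP, PP = 2 * Real.exp (N * (2 * (|s'| * (Real.sqrt (dl * C)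
      + Real.sqrt (ψ + 1) * Real.sqrt dl)) + 18 * L * dl + (B + η / 8 + dl))) := ⟨_, rfl⟩
  have hP : ∀ w ∈ T, ∀ w' ∈ T, |(ov w w' - qp ψ) / (1 - qp ψ) - lam₀| ≤ ρ →
      (GM M N).real (Ev κ δ C R c u w ∩ Ev κ δ C R c u w') ≤ PP := by
    intro w hw w' hw' hww
    have ho1 := hCfg.ovl w hw w hw
    have ho2 := hCfg.ovl w' hw' w' hw'
    have ho3 := hCfg.ovl w hw w' hw'
    have ho1' : |nsq (u w) - (1 - q)| ≤ dl := by
      have e1 : nsq (u w) = ∑ i, u w i * u w i := by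
        unfold nsq; exact Finset.sum_congr rfl fun i _ => by ring
      rw [e1, hq]; rwa [hovs] at ho1
    have ho2' : |nsq (u w') - (1 - q)| ≤ dl := by
      have e1 : nsq (u w') = ∑ i, u w' i * u w' i := by
        unfold nsq; exact Finset.sum_congr rfl fun i _ => by ring
      rw [e1, hq]; rwa [hovs] at ho2
    rw [← hq] at ho3 hww
    obtain ⟨x, y, lam, hx, hy, hx1, hy1, hxy, hl1, hl2, hx2, hy2⟩ :=
      pair_par hb hdl0.le hdl2.le (u w) (u w') ho1' ho2' ho3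
    have hdlr : dl / Real.sqrt (1 - q) ≤ ρ₁ := by
      rw [div_le_iff₀ hsb]; exact hdl3.le
    have hlam : |lam - lam₀| ≤ ρ₁ := by
      have e1 : lam - lam₀ = (lam - (ov w w' - q) / (1 - q))
        + ((ov w w' - q) / (1 - q) - lam₀) := by ring
      rw [e1]
      refine (abs_add_le _ _).trans ?_
      have h2 : 2 * dl / (1 - q) ≤ ρ₁ / 2 := by
        rw [div_le_iff₀ hb]; linarith
      have h3 : ρ ≤ ρ₁ / 2 := by rw [hρ]; exact min_le_left _ _
      linarith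
    have hr2 : Real.sqrt dl ^ 2 = dl := Real.sq_sqrt hdl0.le
    have hup := pair_up hCfg hN0 hdl0.le hw hw' (s := s') (L := L) (δ := δ) (C := C)
      (CF := ψ + 1) (r := Real.sqrt dl) hL.le hδ0 hC (by linarith) (Real.sqrt_pos.2 hdl0)
      hx hy hxy hl1 (by
        refine hFF'.2.trans ?_
        nlinarith) (by
        rw [hr2]
        refine le_trans ?_ hNK'
        have h4 : x ^ 2 + y ^ 2 ≤ 4 := by nlinarith
        have h5 : (x ^ 2 + y ^ 2) * K ≤ 4 * K :=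
          mul_le_mul_of_nonneg_right h4 (Nat.cast_nonneg K)
        linarith)
    refine hup.trans ?_
    have hprod : ∏ k, Qr s' L (kf κ ψ (hh k)) (FF κ 0 (qp ψ) (hh k)) x y lam ≤
        Real.exp (N * (B + η / 8 + dl)) := by
      calc ∏ k, Qr s' L (kf κ ψ (hh k)) (FF κ 0 (qp ψ) (hh k)) x y lam
          ≤ ∏ k, Real.exp (Φ (hh k)) := by
            refine Finset.prod_le_prod (fun k _ => (Qr_pos _ _ _ _ _ _ hL.le).le) fun k _ => ?_
            have h6 := hQ (hh k) x y lam (by rw [← hq]; exact hx1.trans hdlr)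
              (by rw [← hq]; exact hy1.trans hdlr) hlam hl1
            exact (Real.log_le_iff_le_exp (Qr_pos _ _ _ _ _ _ hL.le)).1 h6
        _ = Real.exp (∑ k, Φ (hh k)) := (Real.exp_sum _ _).symm
        _ ≤ Real.exp (N * (B + η / 8 + dl)) := by
            refine Real.exp_le_exp.2 (hPh'.2.trans ?_)
            gcongr
    have hsq : (Real.sqrt δ + Real.sqrt dl + Real.sqrt dl) ^ 2 ≤ 9 * dl := by
      have h7 : Real.sqrt δ ≤ Real.sqrt dl := Real.sqrt_le_sqrt hδ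
      have h8 : (Real.sqrt δ + Real.sqrt dl + Real.sqrt dl) ^ 2 ≤ (3 * Real.sqrt dl) ^ 2 :=
        pow_le_pow_left₀ (by positivity) (by linarith) 2
      rw [mul_pow, hr2] at h8
      linarith
    have hexp : Real.exp (2 * N * (|s'| * (Real.sqrt (dl * C) + Real.sqrt (ψ + 1) * Real.sqrt dl)
        + L * (Real.sqrt δ + Real.sqrt dl + Real.sqrt dl) ^ 2)) ≤
        Real.exp (N * (2 * (|s'| * (Real.sqrt (dl * C)
          + Real.sqrt (ψ + 1) * Real.sqrt dl)) + 18 * L * dl)) := by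
      refine Real.exp_le_exp.2 ?_
      have h9 : L * (Real.sqrt δ + Real.sqrt dl + Real.sqrt dl) ^ 2 ≤ L * (9 * dl) := by gcongr
      have h10 := mul_le_mul_of_nonneg_left h9 hNpos.le
      nlinarith
    have hQ0 : 0 ≤ ∏ k, Qr s' L (kf κ ψ (hh k)) (FF κ 0 (qp ψ) (hh k)) x y lam :=
      Finset.prod_nonneg fun k _ => (Qr_pos _ _ _ _ _ _ hL.le).le
    calc _ ≤ 2 * Real.exp (N * (2 * (|s'| * (Real.sqrt (dl * C)
          + Real.sqrt (ψ + 1) * Real.sqrt dl)) + 18 * L * dl)) *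
          Real.exp (N * (B + η / 8 + dl)) := by gcongr
      _ = PP := by rw [hPP, mul_assoc, ← Real.exp_add]; congr 2; ring
  have hPP0 : 0 < PP := by rw [hPP]; positivity
  -- the count
  have hcnt := cnt hCfg hdl0.le l s e (q + lam₀ * (1 - q)) ρ
  have hmain : ∑ w ∈ T, ∑ w' ∈ T.filter (fun w' => |(ov w w' - qp ψ) / (1 - qp ψ) - lam₀| ≤ ρ),
      piw h w * piw h w' * (GM M N).real (Ev κ δ C R c u w ∩ Ev κ δ C R c u w') ≤
      (∑ w ∈ T, ∑ w' ∈ T.filter (fun w' => |ov w w' - (q + lam₀ * (1 - q))| ≤ ρ),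
        piw h w * piw h w') * PP := by
    rw [Finset.sum_mul]
    refine Finset.sum_le_sum fun w hw => ?_
    rw [Finset.sum_mul]
    refine (Finset.sum_le_sum (g := fun w' => piw h w * piw h w' * PP) fun w' hw' => ?_).trans
      (Finset.sum_le_sum_of_subset_of_nonneg ?_ fun w' _ _ => ?_)
    · rw [Finset.mem_filter] at hw'
      exact mul_le_mul_of_nonneg_left (hP w hw w' hw'.1 hw'.2)
        (mul_pos (piw_pos h w) (piw_pos h w')).le
    · intro w' hw'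
      rw [Finset.mem_filter] at hw' ⊢
      refine ⟨hw'.1, ?_⟩
      have h1 := hw'.2
      rw [← hq] at h1
      have e1 : ov w w' - (q + lam₀ * (1 - q)) = (1 - q) * ((ov w w' - q) / (1 - q) - lam₀) := by
        field_simp
        ring
      rw [e1, abs_mul, abs_of_pos hb]
      calc (1 - q) * |(ov w w' - q) / (1 - q) - lam₀| ≤ 1 * ρ := by
            gcongr; linarith
        _ = ρ := one_mul _
    · exact (mul_pos (mul_pos (piw_pos h w) (piw_pos h w')) hPP0).le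
  refine hmain.trans ((mul_le_mul_of_nonneg_right hcnt hPP0.le).trans ?_)
  have hpos : ∀ i, 0 < 2 * Real.exp e * Real.cosh (2 * (l * Real.tanh (h i) + s * h i))
      + 2 * Real.exp (-e) := fun i => by
    have := Real.cosh_pos (2 * (l * Real.tanh (h i) + s * h i))
    positivity
  have hprod : ∏ i, (2 * Real.exp e * Real.cosh (2 * (l * Real.tanh (h i) + s * h i))
      + 2 * Real.exp (-e)) = Real.exp (∑ i, Real.log (2 * Real.exp e
        * Real.cosh (2 * (l * Real.tanh (h i) + s * h i)) + 2 * Real.exp (-e))) := by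
    rw [Real.exp_sum]
    exact Finset.prod_congr rfl fun i _ => (Real.exp_log (hpos i)).symm
  have hPP' : PP = Real.exp (Real.log 2 + N * (2 * (|s'| * (Real.sqrt (dl * C)
      + Real.sqrt (ψ + 1) * Real.sqrt dl)) + 18 * L * dl + (B + η / 8 + dl))) := by
    rw [hPP, Real.exp_add (Real.log 2), Real.exp_log (by norm_num)]
  rw [hprod, hPP', ← Real.exp_add, ← Real.exp_add]
  refine Real.exp_le_exp.2 ?_
  have hfin : -2 * s0 ψ + sp ψ lam₀ l s e + B ≤ 2 * C0 κ ψ := by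
    rw [GG_eq] at hsp; linarith
  unfold s0 sp at hfin
  rw [hsm] at hdl5
  beta_reduce at hdl5
  rw [← hq] at hfin
  obtain ⟨H, hH⟩ : ∃ H, H = ∑ i, h i * Real.tanh (h i) := ⟨_, rfl⟩
  obtain ⟨Lc, hLc⟩ : ∃ Lc, Lc = ∑ i, lc (h i) := ⟨_, rfl⟩
  obtain ⟨TT, hTT⟩ : ∃ TT, TT = ∑ i, Real.tanh (h i) ^ 2 := ⟨_, rfl⟩
  obtain ⟨SL, hSL⟩ : ∃ SL, SL = ∑ i, Real.log (2 * Real.exp e
    * Real.cosh (2 * (l * Real.tanh (h i) + s * h i)) + 2 * Real.exp (-e)) := ⟨_, rfl⟩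
  obtain ⟨E1, hE1⟩ : ∃ E1, E1 = GE fun x => lc (Real.sqrt ψ * x) := ⟨_, rfl⟩
  obtain ⟨E4, hE4⟩ : ∃ E4, E4 = GE fun x => Real.log (2 * Real.exp e
      * Real.cosh (2 * (l * Real.tanh (Real.sqrt ψ * x) + s * (Real.sqrt ψ * x)))
      + 2 * Real.exp (-e)) := ⟨_, rfl⟩
  obtain ⟨W, hW⟩ : ∃ W, W = |s'| * (Real.sqrt (dl * C) + Real.sqrt (ψ + 1) * Real.sqrt dl) :=
    ⟨_, rfl⟩
  rw [← hH] at hht'
  rw [← hLc, ← hE1] at hlc'
  rw [← hTT] at htt'
  rw [← hSL, ← hE4] at hsl'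
  rw [← hE1, ← hE4] at hfin
  rw [← hW] at hdl5
  rw [← hH, ← hLc, ← hTT, ← hSL, ← hW]
  have h1 : -(2 * l * TT) ≤ -(2 * l * (N * q)) + 2 * |l| * (N * dl) := by
    have h3 : |TT - N * q| ≤ N * dl := by
      rw [abs_le]; constructor <;> linarith [htt'.1, htt'.2]
    have h4 : |l * (TT - N * q)| ≤ |l| * (N * dl) := by
      rw [abs_mul]; gcongr
    have h5 := (abs_le.1 h4).1
    linarith
  have h2 : -(2 * s * H) ≤ -(2 * s * (N * (ψ * (1 - q)))) + 2 * |s| * (N * dl) := by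
    have h3 : |H - N * (ψ * (1 - q))| ≤ N * dl := by
      rw [abs_le]; constructor <;> linarith [hht'.1, hht'.2]
    have h4 : |s * (H - N * (ψ * (1 - q)))| ≤ |s| * (N * dl) := by
      rw [abs_mul]; gcongr
    have h5 := (abs_le.1 h4).1
    linarith
  have h3 := hht'.2
  have h4 := hlc'.1
  have h5 := hsl'.2
  have hkey : N * ((-2 * (E1 - ψ * (1 - q)) + (E4 - 2 * l * q - 2 * s * ψ * (1 - q)
      - e * (q + lam₀ * (1 - q))) + B) + ((8 + 4 * |l| + 4 * |s|) * dl + 2 * W + 18 * L * dl)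
      + |e| * ρ) ≤ N * (2 * C0 κ ψ + η / 4 + η / 8) := by
    refine mul_le_mul_of_nonneg_left ?_ hNpos.le
    linarith
  linarith

end Pool.Agent.IP49.LP
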