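import Pool.Agent.IP49.LVec

/-!
IP49, part L, module LWin: the window `|P_C g| ≤ r √N` has probability at least 1/2 (Markov), and
the exponential moment of a linear form.

PROOFS. `∫ nsq (pC c x) dgs = K`: `nsq (pC c x) = ∑_j (∑_b c_j(b) x_b)²` (`nsq_pC`) and
`∫ (∑_b c_j(b) x_b)² = ∑_b c_j(b)² = 1` (product measure: `∫ x_b x_b' = δ_bb'`; coordinates are
integrable with all moments). For `g' = b (lam x + √(1-lam²) y)`, `|lam| ≤ 1`, under `gs × gs`:
`∫ nsq (pC c g') = b² (lam² K + (1-lam²) K) = b² K` (cross term `∫∫ <c_j,x><c_j,y> = 0`).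
Markov: `P(nsq (pC c g) > R) ≤ E/R` (`mul_meas_ge_le_integral_of_nonneg`). `R > 0` in `win_two`.
`exp_lin`: `∫ exp(∑ v_a x_a) dgs = ∏ exp(v_a²/2)` (`integral_fintype_prod_eq_prod`,
`mgf_gaussianReal`), integrable.
-/

set_option autoImplicit false
open MeasureTheory ProbabilityTheory Filter Topology

namespace Pool.Agent.IP49.LP

private theorem memLp_coord {M : ℕ} (b : Fin M) :
    MemLp (fun x : Fin M → ℝ => x b) 2 (gs (Fin M)) := by
  have h := (memLp_id_gaussianReal (μ := 0) (v := 1) 2).comp_measurePreserving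
    (measurePreserving_eval (fun _ : Fin M => gaussianReal 0 1) b)
  exact h

private theorem memLp_lin {M : ℕ} (w : Fin M → ℝ) :
    MemLp (fun x : Fin M → ℝ => ∑ b, w b * x b) 2 (gs (Fin M)) :=
  memLp_finsetSum Finset.univ fun b _ => (memLp_coord b).const_mul (w b)

private instance gs_prob (M : ℕ) : IsProbabilityMeasure (gs (Fin M)) := by
  unfold gs
  infer_instance

private theorem int_coord {M : ℕ} (b : Fin M) : ∫ x, x b ∂(gs (Fin M)) = 0 := by
  unfold gs
  rw [integral_comp_eval (μ := fun _ : Fin M => gaussianReal 0 1) (i := b)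
    (f := fun t : ℝ => t) aestronglyMeasurable_id]
  exact integral_id_gaussianReal

private theorem int_sq_gauss : ∫ t, t ^ 2 ∂(gaussianReal 0 1) = 1 := by
  have h := variance_eq_integral (X := id) (μ := gaussianReal 0 1) aemeasurable_id
  rw [variance_id_gaussianReal] at h
  simp only [id_eq, integral_id_gaussianReal, sub_zero] at h
  rw [← h]
  simp

private theorem int_coord_mul {M : ℕ} (a b : Fin M) :
    ∫ x, x a * x b ∂(gs (Fin M)) = if a = b then 1 else 0 := by
  by_cases hab : a = b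
  · subst hab
    rw [if_pos rfl]
    have h : (∫ x, x a * x a ∂(gs (Fin M))) = ∫ x : Fin M → ℝ, (fun t : ℝ => t * t) (x a) ∂(gs (Fin M)) := rfl
    rw [h]
    unfold gs
    rw [integral_comp_eval (μ := fun _ : Fin M => gaussianReal 0 1) (i := a)
      (f := fun t : ℝ => t * t) (by fun_prop)]
    rw [← int_sq_gauss]
    refine integral_congr_ae (Eventually.of_forall fun t => ?_)
    show t * t = t ^ 2
    ring
  · rw [if_neg hab]
    have h2 := integral_fintype_prod_eq_prod (𝕜 := ℝ) (μ := fun _ : Fin M => gaussianReal 0 1)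
      (fun k t => (if k = a then t else 1) * (if k = b then t else 1))
    have h3 : ∀ x : Fin M → ℝ, (∏ k, (if k = a then x k else 1) * (if k = b then x k else 1)) =
        x a * x b := by
      intro x
      rw [Finset.prod_mul_distrib, Finset.prod_ite_eq', Finset.prod_ite_eq']
      simp
    simp only [h3] at h2
    have h4 : (∏ k, ∫ t, (if k = a then t else 1) * (if k = b then t else 1) ∂(gaussianReal 0 1)) = (0 : ℝ) := by
      refine Finset.prod_eq_zero (Finset.mem_univ a) ?_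
      simp only [if_neg hab, if_true, mul_one]
      exact integral_id_gaussianReal
    rw [h4] at h2
    exact h2

private theorem integrable_lin_mul {M : ℕ} (w w' : Fin M → ℝ) :
    Integrable (fun x : Fin M → ℝ => (∑ b, w b * x b) * ∑ b, w' b * x b) (gs (Fin M)) :=
  (memLp_lin w).integrable_mul (memLp_lin w')

private theorem integrable_lin_sq {M : ℕ} (w : Fin M → ℝ) :
    Integrable (fun x : Fin M → ℝ => (∑ b, w b * x b) ^ 2) (gs (Fin M)) :=
  (memLp_lin w).integrable_sq

private theorem integrable_lin {M : ℕ} (w : Fin M → ℝ) :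
    Integrable (fun x : Fin M → ℝ => ∑ b, w b * x b) (gs (Fin M)) :=
  (memLp_lin w).integrable one_le_two

private theorem int_lin {M : ℕ} (w : Fin M → ℝ) :
    ∫ x, (∑ b, w b * x b) ∂(gs (Fin M)) = 0 := by
  rw [integral_finsetSum _ fun b _ => ((memLp_coord b).const_mul (w b)).integrable one_le_two]
  refine Finset.sum_eq_zero fun b _ => ?_
  rw [integral_const_mul, int_coord, mul_zero]

private theorem int_lin_sq {M : ℕ} (w : Fin M → ℝ) :
    ∫ x, (∑ b, w b * x b) ^ 2 ∂(gs (Fin M)) = ∑ b, w b * w b := by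
  have h1 : ∀ x : Fin M → ℝ, (∑ b, w b * x b) ^ 2 = ∑ a, ∑ b, (w a * w b) * (x a * x b) := by
    intro x
    rw [sq, Finset.sum_mul_sum]
    refine Finset.sum_congr rfl fun a _ => Finset.sum_congr rfl fun b _ => ?_
    ring
  have hi : ∀ a b : Fin M, Integrable (fun x : Fin M → ℝ => (w a * w b) * (x a * x b)) (gs (Fin M)) :=
    fun a b => ((memLp_coord a).integrable_mul (memLp_coord b)).const_mul _
  simp only [h1]
  rw [integral_finsetSum _ fun a _ => integrable_finsetSum _ fun b _ => hi a b]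
  refine Finset.sum_congr rfl fun a _ => ?_
  rw [integral_finsetSum _ fun b _ => hi a b]
  have h2 : ∀ b, ∫ x, (w a * w b) * (x a * x b) ∂(gs (Fin M)) = if a = b then w a * w b else 0 := by
    intro b
    rw [integral_const_mul, int_coord_mul]
    split_ifs <;> simp
  rw [Finset.sum_congr rfl fun b _ => h2 b, Finset.sum_ite_eq, if_pos (Finset.mem_univ a)]

theorem integrable_nsq_pC {K M : ℕ} {c : Fin K → Fin M → ℝ} :
    Integrable (fun x => nsq (pC c x)) (gs (Fin M)) := by
  have h : (fun x : Fin M → ℝ => nsq (pC c x)) =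
      fun x => ∑ a, (∑ b, (∑ j, c j b * c j a) * x b) ^ 2 := by
    funext x
    unfold nsq pC
    refine Finset.sum_congr rfl fun a _ => ?_
    congr 1
    simp only [Finset.sum_mul]
    rw [Finset.sum_comm]
    refine Finset.sum_congr rfl fun b _ => Finset.sum_congr rfl fun j _ => ?_
    ring
  rw [h]
  exact integrable_finsetSum _ fun a _ => integrable_lin_sq _

theorem int_nsq_pC {K M : ℕ} {c : Fin K → Fin M → ℝ}
    (ho : ∀ i j, ∑ a, c i a * c j a = if i = j then (1 : ℝ) else 0) :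
    ∫ x, nsq (pC c x) ∂(gs (Fin M)) = K := by
  simp only [nsq_pC ho]
  rw [integral_finsetSum _ fun j _ => integrable_lin_sq (c j)]
  simp only [int_lin_sq, ho, if_true]
  simp

private theorem continuous_nsq_pC {K M : ℕ} (c : Fin K → Fin M → ℝ) :
    Continuous fun x => nsq (pC c x) := by
  have h := continuous_pC c
  unfold nsq
  exact continuous_finsetSum _ fun a _ => ((continuous_apply a).comp h).pow 2

theorem win_two {K M : ℕ} {c : Fin K → Fin M → ℝ}
    (ho : ∀ i j, ∑ a, c i a * c j a = if i = j then (1 : ℝ) else 0) {a b lam R : ℝ}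
    (hl : |lam| ≤ 1) (hR : 0 < R) (h : (a ^ 2 + b ^ 2) * K * 2 ≤ R) :
    1 / 2 ≤ ((gs (Fin M)).prod (gs (Fin M))).real {p | nsq (pC c fun k => a * p.1 k) ≤ R ∧
      nsq (pC c fun k => b * (lam * p.1 k + Real.sqrt (1 - lam ^ 2) * p.2 k)) ≤ R} := by
  set s := Real.sqrt (1 - lam ^ 2) with hs
  have hlam : lam ^ 2 ≤ 1 := by
    rw [← sq_abs]
    have := abs_nonneg lam
    nlinarith
  have hs2 : s ^ 2 = 1 - lam ^ 2 := Real.sq_sqrt (by linarith)
  let φ : (Fin M → ℝ) × (Fin M → ℝ) → ℝ := fun p => nsq (pC c fun k => a * p.1 k) +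
    nsq (pC c fun k => b * (lam * p.1 k + s * p.2 k))
  have hφc : Continuous φ := by
    refine ((continuous_nsq_pC c).comp ?_).add ((continuous_nsq_pC c).comp ?_)
    · fun_prop
    · fun_prop
  have hφ : φ = fun p => ∑ j, ((a ^ 2 + b ^ 2 * lam ^ 2) * (∑ k, c j k * p.1 k) ^ 2 +
      (b ^ 2 * s ^ 2) * (∑ k, c j k * p.2 k) ^ 2 +
      (2 * b ^ 2 * lam * s) * ((∑ k, c j k * p.1 k) * ∑ k, c j k * p.2 k)) := by
    funext p
    show nsq (pC c fun k => a * p.1 k) + nsq (pC c fun k => b * (lam * p.1 k + s * p.2 k)) = _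
    rw [nsq_pC ho, nsq_pC ho, ← Finset.sum_add_distrib]
    refine Finset.sum_congr rfl fun j _ => ?_
    have e1 : ∑ k, c j k * (a * p.1 k) = a * ∑ k, c j k * p.1 k := by
      rw [Finset.mul_sum]
      exact Finset.sum_congr rfl fun k _ => by ring
    have e2 : ∑ k, c j k * (b * (lam * p.1 k + s * p.2 k)) =
        b * (lam * (∑ k, c j k * p.1 k) + s * ∑ k, c j k * p.2 k) := by
      rw [Finset.mul_sum, Finset.mul_sum, ← Finset.sum_add_distrib, Finset.mul_sum]
      exact Finset.sum_congr rfl fun k _ => by ring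
    rw [e1, e2]
    ring
  have i1 : ∀ j, Integrable (fun p : (Fin M → ℝ) × (Fin M → ℝ) =>
      (a ^ 2 + b ^ 2 * lam ^ 2) * (∑ k, c j k * p.1 k) ^ 2)
      ((gs (Fin M)).prod (gs (Fin M))) := fun j =>
    ((integrable_lin_sq (c j)).comp_fst _).const_mul _
  have i2 : ∀ j, Integrable (fun p : (Fin M → ℝ) × (Fin M → ℝ) =>
      (b ^ 2 * s ^ 2) * (∑ k, c j k * p.2 k) ^ 2)
      ((gs (Fin M)).prod (gs (Fin M))) := fun j =>
    ((integrable_lin_sq (c j)).comp_snd _).const_mul _
  have i3 : ∀ j, Integrable (fun p : (Fin M → ℝ) × (Fin M → ℝ) =>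
      (2 * b ^ 2 * lam * s) * ((∑ k, c j k * p.1 k) * ∑ k, c j k * p.2 k))
      ((gs (Fin M)).prod (gs (Fin M))) := fun j =>
    ((integrable_lin (c j)).mul_prod (integrable_lin (c j))).const_mul _
  have i12 : ∀ j, Integrable (fun p : (Fin M → ℝ) × (Fin M → ℝ) =>
      (a ^ 2 + b ^ 2 * lam ^ 2) * (∑ k, c j k * p.1 k) ^ 2 +
      (b ^ 2 * s ^ 2) * (∑ k, c j k * p.2 k) ^ 2)
      ((gs (Fin M)).prod (gs (Fin M))) := fun j => (i1 j).add (i2 j)
  have i4 : ∀ j, Integrable (fun p : (Fin M → ℝ) × (Fin M → ℝ) =>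
      (a ^ 2 + b ^ 2 * lam ^ 2) * (∑ k, c j k * p.1 k) ^ 2 +
      (b ^ 2 * s ^ 2) * (∑ k, c j k * p.2 k) ^ 2 +
      (2 * b ^ 2 * lam * s) * ((∑ k, c j k * p.1 k) * ∑ k, c j k * p.2 k))
      ((gs (Fin M)).prod (gs (Fin M))) := fun j => (i12 j).add (i3 j)
  have hint : Integrable φ ((gs (Fin M)).prod (gs (Fin M))) := by
    rw [hφ]
    exact integrable_finsetSum _ fun j _ => i4 j
  have hval : ∫ p, φ p ∂((gs (Fin M)).prod (gs (Fin M))) = (a ^ 2 + b ^ 2) * K := by
    rw [hφ, integral_finsetSum _ fun j _ => i4 j]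
    have h1 : ∀ j, ∫ p : (Fin M → ℝ) × (Fin M → ℝ), ((a ^ 2 + b ^ 2 * lam ^ 2) * (∑ k, c j k * p.1 k) ^ 2 +
      (b ^ 2 * s ^ 2) * (∑ k, c j k * p.2 k) ^ 2 +
      (2 * b ^ 2 * lam * s) * ((∑ k, c j k * p.1 k) * ∑ k, c j k * p.2 k))
      ∂((gs (Fin M)).prod (gs (Fin M))) = a ^ 2 + b ^ 2 := by
      intro j
      rw [integral_add (i12 j) (i3 j), integral_add (i1 j) (i2 j),
        integral_const_mul, integral_const_mul, integral_const_mul]
      have e1 : ∫ p : (Fin M → ℝ) × (Fin M → ℝ), (∑ k, c j k * p.1 k) ^ 2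
          ∂((gs (Fin M)).prod (gs (Fin M))) = 1 := by
        rw [integral_fun_fst (fun x : Fin M → ℝ => (∑ k, c j k * x k) ^ 2), int_lin_sq, ho]
        simp
      have e2 : ∫ p : (Fin M → ℝ) × (Fin M → ℝ), (∑ k, c j k * p.2 k) ^ 2
          ∂((gs (Fin M)).prod (gs (Fin M))) = 1 := by
        rw [integral_fun_snd (fun x : Fin M → ℝ => (∑ k, c j k * x k) ^ 2), int_lin_sq, ho]
        simp
      have e3 : ∫ p : (Fin M → ℝ) × (Fin M → ℝ), (∑ k, c j k * p.1 k) * (∑ k, c j k * p.2 k)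
          ∂((gs (Fin M)).prod (gs (Fin M))) = 0 := by
        rw [integral_prod_mul (fun x : Fin M → ℝ => ∑ k, c j k * x k)
          (fun x : Fin M → ℝ => ∑ k, c j k * x k), int_lin, zero_mul]
      rw [e1, e2, e3, hs2]
      ring
    rw [Finset.sum_congr rfl fun j _ => h1 j]
    simp
    ring
  have hnn : ∀ p, 0 ≤ φ p := fun p => add_nonneg (nsq_nonneg _) (nsq_nonneg _)
  have hm := mul_meas_ge_le_integral_of_nonneg (Eventually.of_forall hnn) hint R
  rw [hval] at hm
  have hset : MeasurableSet {p | R ≤ φ p} := measurableSet_le measurable_const hφc.measurable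
  have hc := probReal_compl_eq_one_sub (μ := (gs (Fin M)).prod (gs (Fin M))) hset
  have hle : ((gs (Fin M)).prod (gs (Fin M))).real {p | R ≤ φ p} ≤ 1 / 2 := by
    have h5 : R * ((gs (Fin M)).prod (gs (Fin M))).real {p | R ≤ φ p} ≤ R * (1 / 2) := by linarith
    exact le_of_mul_le_mul_left h5 hR
  have hmono : ((gs (Fin M)).prod (gs (Fin M))).real {p | R ≤ φ p}ᶜ ≤
      ((gs (Fin M)).prod (gs (Fin M))).real {p | nsq (pC c fun k => a * p.1 k) ≤ R ∧
      nsq (pC c fun k => b * (lam * p.1 k + s * p.2 k)) ≤ R} := by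
    refine measureReal_mono ?_ (measure_ne_top _ _)
    intro p hp
    have h6 : φ p < R := not_le.1 hp
    have h7 : φ p = nsq (pC c fun k => a * p.1 k) +
      nsq (pC c fun k => b * (lam * p.1 k + s * p.2 k)) := rfl
    have h8 := nsq_nonneg (pC c fun k => a * p.1 k)
    have h9 := nsq_nonneg (pC c fun k => b * (lam * p.1 k + s * p.2 k))
    exact ⟨by linarith, by linarith⟩
  linarith

theorem integrable_exp_lin {M : ℕ} (v : Fin M → ℝ) :
    Integrable (fun x : Fin M → ℝ => Real.exp (∑ a, v a * x a)) (gs (Fin M)) := by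
  have h : (fun x : Fin M → ℝ => Real.exp (∑ a, v a * x a)) =
      fun x => ∏ a, Real.exp (v a * x a) := by
    funext x
    rw [Real.exp_sum]
  rw [h]
  exact Integrable.fintype_prod (μ := fun _ : Fin M => gaussianReal 0 1)
    (f := fun a t => Real.exp (v a * t)) fun a => integrable_exp_mul_gaussianReal (v a)

theorem int_exp_lin {M : ℕ} (v : Fin M → ℝ) :
    ∫ x, Real.exp (∑ a, v a * x a) ∂(gs (Fin M)) = Real.exp (nsq v / 2) := by
  simp only [Real.exp_sum]
  have h2 := integral_fintype_prod_eq_prod (𝕜 := ℝ) (μ := fun _ : Fin M => gaussianReal 0 1)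
      (fun k t => Real.exp (v k * t))
  have h3 : (∫ x, ∏ k, Real.exp (v k * x k) ∂(gs (Fin M))) =
      ∏ k, ∫ t, Real.exp (v k * t) ∂(gaussianReal 0 1) := h2
  rw [h3]
  have h4 : ∀ t : ℝ, ∫ x, Real.exp (t * x) ∂(gaussianReal 0 1) = Real.exp (t ^ 2 / 2) := by
    intro t
    have h5 := congrFun (mgf_id_gaussianReal (μ := 0) (v := 1)) t
    unfold mgf at h5
    simp only [id_eq] at h5
    rw [h5]
    simp
  simp only [h4]
  rw [← Real.exp_sum]
  unfold nsq
  rw [Finset.sum_div]

end Pool.Agent.IP49.LP
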