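import Pool.Agent.IP49.MillsB
import Pool.Agent.IP49.LWin

/-!
IP49, part L, module LTr: Gaussian vector conditioned on `ξ_a ≥ z_a` for all `a`.

PROOFS. ONE DIMENSION: with `phi' = -x phi`: `∫_{x≥z} x phi = phi z = Mi z Ph z`,
`∫_{x≥z} x² phi = Ph z + z phi z = (1 + z Mi z) Ph z` (`-x phi` has derivative `x² phi - phi`), so
`tr0`; `∫_{x≥z} (x - Mi z)² = Ph z (1 + z Mi z - (Mi z)²) = Ph z (1 - Md z) ≤ Ph z` (`Md_pos`).
`GE_eq`/`Ph_eq` in MillsA turn Gaussian integrals into Lebesgue integrals.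
`trunc_good`: `O = {∀ a, z a ≤ x a}`, `Pr = ∏ Ph (z a) > 0`, `gs.real O = Pr`. Put
`y_a = x_a - Mi (z_a)`. For `a ≠ b` the integral over `O` of `y_a y_b` is the product of
`∫_{≥z_a} y_a = 0`, `∫_{≥z_b} y_b = 0` and the other `Ph (z_i)`: it vanishes; for `a = b` it is
`≤ Pr` (`tr2`). By `nsq_pC`, `∫_O nsq (pC c y) = ∑_j ∑_{a,b} c_j(a) c_j(b) ∫_O y_a y_b ≤
∑_j ∑_a c_j(a)² Pr = K Pr`. `∫_O nsq x = ∑_a (1 + z_a Mi z_a) Pr ≤ S Pr`. Markov on `O`:
`gs(O, nsq (pC c y) > 4(K+1)) ≤ K Pr/(4(K+1)) ≤ Pr/4`, `gs(O, nsq x > 4S) ≤ Pr/4`. So the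
remaining part of `O` has measure `≥ Pr/2`.
(Product integrals: `∫_O ∏_i f_i(x_i) = ∏ ∫_{≥z_i} f_i`, e.g. `integral_fintype_prod_eq_prod` with
indicators, or work with the probability measure `pi (Ph z_a)⁻¹ • γ.restrict (Ici z_a)`.)
-/

set_option autoImplicit false
open MeasureTheory ProbabilityTheory Filter Topology

namespace Pool.Agent.IP49.LP

private theorem setg (f : ℝ → ℝ) (z : ℝ) :
    ∫ x in Set.Ici z, f x ∂(gaussianReal 0 1) = ∫ x in Set.Ioi z, f x * phi x := by
  rw [← integral_indicator measurableSet_Ici]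
  have h := GE_eq ((Set.Ici z).indicator f)
  unfold GE at h
  rw [h]
  have h2 : (fun x => phi x * (Set.Ici z).indicator f x) =
      (Set.Ici z).indicator (fun x => f x * phi x) := by
    funext x
    by_cases hx : x ∈ Set.Ici z
    · rw [Set.indicator_of_mem hx, Set.indicator_of_mem hx, mul_comm]
    · rw [Set.indicator_of_notMem hx, Set.indicator_of_notMem hx, mul_zero]
  rw [h2, integral_indicator measurableSet_Ici, integral_Ici_eq_integral_Ioi]

private theorem m0 (z : ℝ) : ∫ _x in Set.Ici z, (1 : ℝ) ∂(gaussianReal 0 1) = Ph z := by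
  rw [setIntegral_const, smul_eq_mul, mul_one]
  rfl

private theorem m1 (z : ℝ) : ∫ x in Set.Ici z, x ∂(gaussianReal 0 1) = Mi z * Ph z := by
  rw [setg (fun x => x), MC.integral_Ioi_mul_phi, MC.Mi_mul_Ph]

private theorem m2 (z : ℝ) :
    ∫ x in Set.Ici z, x ^ 2 ∂(gaussianReal 0 1) = (1 + z * Mi z) * Ph z := by
  rw [setg (fun x => x ^ 2), MC.integral_Ioi_sq_mul_phi, ← MC.Mi_mul_Ph]
  ring

private theorem i1 (z : ℝ) : Integrable (fun x : ℝ => x) ((gaussianReal 0 1).restrict (Set.Ici z)) :=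
  ((memLp_id_gaussianReal (μ := 0) (v := 1) 2).integrable one_le_two).restrict

private theorem i2 (z : ℝ) :
    Integrable (fun x : ℝ => x ^ 2) ((gaussianReal 0 1).restrict (Set.Ici z)) :=
  (memLp_id_gaussianReal (μ := 0) (v := 1) 2).integrable_sq.restrict

theorem tr0 (z : ℝ) : ∫ x in Set.Ici z, (x - Mi z) ∂(gaussianReal 0 1) = 0 := by
  rw [integral_sub (i1 z) (integrable_const _), m1]
  have h : ∫ _x in Set.Ici z, Mi z ∂(gaussianReal 0 1) = Mi z * Ph z := by
    rw [setIntegral_const, smul_eq_mul, mul_comm]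
    rfl
  rw [h, sub_self]

theorem tr2 (z : ℝ) : ∫ x in Set.Ici z, (x - Mi z) ^ 2 ∂(gaussianReal 0 1) ≤ Ph z := by
  have h0 : ∀ x : ℝ, (x - Mi z) ^ 2 = x ^ 2 - (2 * Mi z) * x + (Mi z) ^ 2 * 1 := fun x => by ring
  simp only [h0]
  have hl : Integrable (fun x : ℝ => (2 * Mi z) * x)
      ((gaussianReal 0 1).restrict (Set.Ici z)) := (i1 z).const_mul _
  have hsub : Integrable (fun x : ℝ => x ^ 2 - (2 * Mi z) * x)
      ((gaussianReal 0 1).restrict (Set.Ici z)) := (i2 z).sub hl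
  have e1 : ∫ x in Set.Ici z, (x ^ 2 - (2 * Mi z) * x + (Mi z) ^ 2 * 1) ∂(gaussianReal 0 1) =
      (∫ x in Set.Ici z, (x ^ 2 - (2 * Mi z) * x) ∂(gaussianReal 0 1)) +
      ∫ _x in Set.Ici z, ((Mi z) ^ 2 * 1) ∂(gaussianReal 0 1) :=
    integral_add hsub (integrable_const _)
  have e2 : ∫ x in Set.Ici z, (x ^ 2 - (2 * Mi z) * x) ∂(gaussianReal 0 1) =
      (∫ x in Set.Ici z, x ^ 2 ∂(gaussianReal 0 1)) -
      ∫ x in Set.Ici z, (2 * Mi z) * x ∂(gaussianReal 0 1) :=
    integral_sub (i2 z) hl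
  rw [e1, e2, integral_const_mul, integral_const_mul, m0, m1, m2]
  have h1 := Md_pos z
  have h2 := Ph_pos z
  have h3 : (1 + z * Mi z) * Ph z - 2 * Mi z * (Mi z * Ph z) + Mi z ^ 2 * Ph z =
      Ph z - Md z * Ph z := by
    unfold Md
    ring
  rw [h3]
  have := mul_pos h1 h2
  linarith

theorem trs (z : ℝ) : ∫ x in Set.Ici z, x ^ 2 ∂(gaussianReal 0 1) = (1 + z * Mi z) * Ph z :=
  m2 z

section

variable {M : ℕ} (z : Fin M → ℝ)

/-- the truncated measure -/
private noncomputable def nu : Measure (Fin M → ℝ) :=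
  Measure.pi fun a => (gaussianReal 0 1).restrict (Set.Ici (z a))

private theorem nu_eq : nu z = (gs (Fin M)).restrict {x | ∀ a, z a ≤ x a} := by
  have h : {x : Fin M → ℝ | ∀ a, z a ≤ x a} = Set.univ.pi fun a => Set.Ici (z a) := by
    ext x
    simp only [Set.mem_ofPred_eq, Set.mem_pi, Set.mem_univ, true_implies, Set.mem_Ici]
  unfold nu gs
  rw [h, Measure.restrict_pi_pi]

private instance nu_fin : IsFiniteMeasure (nu z) := by
  rw [nu_eq]
  have : IsProbabilityMeasure (gs (Fin M)) := by unfold gs; infer_instance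
  infer_instance

private theorem nu_univ : (nu z).real Set.univ = ∏ a, Ph (z a) := by
  unfold nu
  rw [measureReal_def, Measure.pi_univ, ENNReal.toReal_prod]
  refine Finset.prod_congr rfl fun a _ => ?_
  rw [Measure.restrict_apply_univ]
  rfl

private theorem memLp_nu (a : Fin M) : MemLp (fun x : Fin M → ℝ => x a) 2 (nu z) := by
  rw [nu_eq]
  have h := (memLp_id_gaussianReal (μ := 0) (v := 1) 2).comp_measurePreserving
    (measurePreserving_eval (fun _ : Fin M => gaussianReal 0 1) a)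
  exact MemLp.restrict _ h

private theorem memLp_y (a : Fin M) : MemLp (fun x : Fin M → ℝ => x a - Mi (z a)) 2 (nu z) :=
  (memLp_nu z a).sub (memLp_const _)

private theorem int_yy_ne {a b : Fin M} (hab : a ≠ b) :
    ∫ x, (x a - Mi (z a)) * (x b - Mi (z b)) ∂(nu z) = 0 := by
  have h2 := integral_fintype_prod_eq_prod (𝕜 := ℝ)
    (μ := fun a : Fin M => (gaussianReal 0 1).restrict (Set.Ici (z a)))
    (fun k t => (if k = a then t - Mi (z a) else 1) * (if k = b then t - Mi (z b) else 1))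
  have h3 : ∀ x : Fin M → ℝ, (∏ k, (if k = a then x k - Mi (z a) else 1) *
      (if k = b then x k - Mi (z b) else 1)) = (x a - Mi (z a)) * (x b - Mi (z b)) := by
    intro x
    rw [Finset.prod_mul_distrib, Finset.prod_ite_eq', Finset.prod_ite_eq']
    simp
  simp only [h3] at h2
  unfold nu
  rw [h2]
  refine Finset.prod_eq_zero (Finset.mem_univ a) ?_
  simp only [if_neg hab, if_true, mul_one]
  exact tr0 (z a)

private theorem int_yy_le (a : Fin M) :
    ∫ x, (x a - Mi (z a)) ^ 2 ∂(nu z) ≤ ∏ a, Ph (z a) := by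
  have h2 := integral_fintype_prod_eq_prod (𝕜 := ℝ)
    (μ := fun a : Fin M => (gaussianReal 0 1).restrict (Set.Ici (z a)))
    (fun k t => (if k = a then (t - Mi (z a)) ^ 2 else 1))
  have h3 : ∀ x : Fin M → ℝ, (∏ k, (if k = a then (x k - Mi (z a)) ^ 2 else 1)) =
      (x a - Mi (z a)) ^ 2 := by
    intro x
    rw [Finset.prod_ite_eq']
    simp
  simp only [h3] at h2
  unfold nu
  rw [h2]
  refine Finset.prod_le_prod (fun k _ => ?_) (fun k _ => ?_)
  · refine integral_nonneg fun t => ?_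
    beta_reduce
    split_ifs
    · exact sq_nonneg _
    · exact zero_le_one
  · by_cases hk : k = a
    · subst hk
      simp only [if_true]
      exact tr2 (z k)
    · simp only [if_neg hk]
      exact (m0 (z k)).le

private theorem int_sq_eq (a : Fin M) :
    ∫ x, (x a) ^ 2 ∂(nu z) = (1 + z a * Mi (z a)) * ∏ a, Ph (z a) := by
  have h2 := integral_fintype_prod_eq_prod (𝕜 := ℝ)
    (μ := fun a : Fin M => (gaussianReal 0 1).restrict (Set.Ici (z a)))
    (fun k t => (if k = a then t ^ 2 else 1))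
  have h3 : ∀ x : Fin M → ℝ, (∏ k, (if k = a then (x k) ^ 2 else 1)) = (x a) ^ 2 := by
    intro x
    rw [Finset.prod_ite_eq']
    simp
  simp only [h3] at h2
  unfold nu
  rw [h2]
  have h4 : ∀ k, ∫ t in Set.Ici (z k), (if k = a then t ^ 2 else 1) ∂(gaussianReal 0 1) =
      (if k = a then (1 + z a * Mi (z a)) else 1) * Ph (z k) := by
    intro k
    by_cases hk : k = a
    · subst hk
      simp only [if_true]
      exact m2 (z k)
    · simp only [if_neg hk, one_mul]
      exact m0 (z k)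
  rw [Finset.prod_congr rfl fun k _ => h4 k, Finset.prod_mul_distrib, Finset.prod_ite_eq']
  simp

private theorem int_lin_y (w : Fin M → ℝ) :
    Integrable (fun x : Fin M → ℝ => (∑ b, w b * (x b - Mi (z b))) ^ 2) (nu z) ∧
    ∫ x, (∑ b, w b * (x b - Mi (z b))) ^ 2 ∂(nu z) ≤ (∑ b, w b * w b) * ∏ a, Ph (z a) := by
  have h1 : ∀ x : Fin M → ℝ, (∑ b, w b * (x b - Mi (z b))) ^ 2 =
      ∑ a, ∑ b, (w a * w b) * ((x a - Mi (z a)) * (x b - Mi (z b))) := by
    intro x
    rw [sq, Finset.sum_mul_sum]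
    refine Finset.sum_congr rfl fun a _ => Finset.sum_congr rfl fun b _ => ?_
    ring
  have hi : ∀ a b : Fin M, Integrable (fun x : Fin M → ℝ =>
      (w a * w b) * ((x a - Mi (z a)) * (x b - Mi (z b)))) (nu z) :=
    fun a b => ((memLp_y z a).integrable_mul (memLp_y z b)).const_mul _
  simp only [h1]
  refine ⟨integrable_finsetSum _ fun a _ => integrable_finsetSum _ fun b _ => hi a b, ?_⟩
  rw [integral_finsetSum _ fun a _ => integrable_finsetSum _ fun b _ => hi a b]
  rw [Finset.sum_mul]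
  refine Finset.sum_le_sum fun a _ => ?_
  rw [integral_finsetSum _ fun b _ => hi a b]
  have h2 : ∀ b, ∫ x, (w a * w b) * ((x a - Mi (z a)) * (x b - Mi (z b))) ∂(nu z) =
      if a = b then w a * w b * ∫ x, (x a - Mi (z a)) ^ 2 ∂(nu z) else 0 := by
    intro b
    rw [integral_const_mul]
    split_ifs with hab
    · subst hab
      congr 1
      refine integral_congr_ae (Eventually.of_forall fun x => ?_)
      show (x a - Mi (z a)) * (x a - Mi (z a)) = (x a - Mi (z a)) ^ 2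
      ring
    · rw [int_yy_ne z hab, mul_zero]
  rw [Finset.sum_congr rfl fun b _ => h2 b, Finset.sum_ite_eq, if_pos (Finset.mem_univ a)]
  exact mul_le_mul_of_nonneg_left (int_yy_le z a) (mul_self_nonneg _)

end

theorem trunc_good {K M : ℕ} {c : Fin K → Fin M → ℝ}
    (ho : ∀ i j, ∑ a, c i a * c j a = if i = j then (1 : ℝ) else 0) (z : Fin M → ℝ) {S : ℝ}
    (hS : 0 < S) (h : ∑ a, (1 + z a * Mi (z a)) ≤ S) :
    1 / 2 * ∏ a, Ph (z a) ≤ (gs (Fin M)).real {x | (∀ a, z a ≤ x a) ∧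
      nsq (pC c fun a => x a - Mi (z a)) ≤ 4 * (K + 1) ∧ nsq x ≤ 4 * S} := by
  have hgs : IsProbabilityMeasure (gs (Fin M)) := by unfold gs; infer_instance
  set P : ℝ := ∏ a, Ph (z a) with hP
  have hP0 : 0 ≤ P := Finset.prod_nonneg fun a _ => (Ph_pos _).le
  let f : (Fin M → ℝ) → ℝ := fun x => nsq (pC c fun a => x a - Mi (z a))
  have hfc : Continuous f := by
    have h1 : Continuous fun x : Fin M → ℝ => pC c fun a => x a - Mi (z a) :=
      (continuous_pC c).comp (by fun_prop)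
    unfold f nsq
    exact continuous_finsetSum _ fun a _ => ((continuous_apply a).comp h1).pow 2
  have hgc : Continuous (fun x : Fin M → ℝ => nsq x) := by
    unfold nsq
    fun_prop
  have hf : f = fun x => ∑ j, (∑ b, c j b * (x b - Mi (z b))) ^ 2 := by
    funext x
    exact nsq_pC ho _
  have hfi : Integrable f (nu z) := by
    rw [hf]
    exact integrable_finsetSum _ fun j _ => (int_lin_y z (c j)).1
  have hfI : ∫ x, f x ∂(nu z) ≤ K * P := by
    rw [hf, integral_finsetSum _ fun j _ => (int_lin_y z (c j)).1]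
    calc ∑ j, ∫ x, (∑ b, c j b * (x b - Mi (z b))) ^ 2 ∂(nu z)
        ≤ ∑ j : Fin K, (∑ b, c j b * c j b) * P :=
          Finset.sum_le_sum fun j _ => (int_lin_y z (c j)).2
      _ = ∑ _j : Fin K, P := Finset.sum_congr rfl fun j _ => by
          rw [ho j j, if_pos rfl, one_mul]
      _ = K * P := by simp
  have hsqi : ∀ a, Integrable (fun x : Fin M → ℝ => (x a) ^ 2) (nu z) := fun a =>
    (memLp_nu z a).integrable_sq
  have hgi : Integrable (fun x : Fin M → ℝ => nsq x) (nu z) := by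
    unfold nsq
    exact integrable_finsetSum _ fun a _ => hsqi a
  have hgI : ∫ x, nsq x ∂(nu z) ≤ S * P := by
    unfold nsq
    rw [integral_finsetSum _ fun a _ => hsqi a]
    simp only [int_sq_eq]
    rw [← Finset.sum_mul]
    exact mul_le_mul_of_nonneg_right h hP0
  have hK0 : (0 : ℝ) ≤ K := Nat.cast_nonneg K
  have hA := mul_meas_ge_le_integral_of_nonneg (μ := nu z) (f := f)
    (Eventually.of_forall fun x => nsq_nonneg _) hfi (4 * (K + 1))
  have hB := mul_meas_ge_le_integral_of_nonneg (μ := nu z) (f := fun x : Fin M → ℝ => nsq x)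
    (Eventually.of_forall fun x => nsq_nonneg _) hgi (4 * S)
  have hA' : (nu z).real {x | 4 * ((K : ℝ) + 1) ≤ f x} ≤ P / 4 := by
    have h1 : 4 * ((K : ℝ) + 1) * (nu z).real {x | 4 * ((K : ℝ) + 1) ≤ f x} ≤
        4 * ((K : ℝ) + 1) * (P / 4) := by
      refine hA.trans (hfI.trans ?_)
      nlinarith
    exact le_of_mul_le_mul_left h1 (by positivity)
  have hB' : (nu z).real {x : Fin M → ℝ | 4 * S ≤ nsq x} ≤ P / 4 := by
    have h1 : 4 * S * (nu z).real {x : Fin M → ℝ | 4 * S ≤ nsq x} ≤ 4 * S * (P / 4) := by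
      refine hB.trans (hgI.trans ?_)
      nlinarith
    exact le_of_mul_le_mul_left h1 (by positivity)
  let T : Set (Fin M → ℝ) := {x | f x ≤ 4 * (K + 1) ∧ nsq x ≤ 4 * S}
  have hTm : MeasurableSet T :=
    (isClosed_le hfc continuous_const).measurableSet.inter
      (isClosed_le hgc continuous_const).measurableSet
  have hset : {x : Fin M → ℝ | (∀ a, z a ≤ x a) ∧
      nsq (pC c fun a => x a - Mi (z a)) ≤ 4 * (K + 1) ∧ nsq x ≤ 4 * S} =
      T ∩ {x | ∀ a, z a ≤ x a} := by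
    ext x
    constructor
    · rintro ⟨h1, h2, h3⟩
      exact ⟨⟨h2, h3⟩, h1⟩
    · rintro ⟨⟨h2, h3⟩, h1⟩
      exact ⟨h1, h2, h3⟩
  have hT : (gs (Fin M)).real (T ∩ {x | ∀ a, z a ≤ x a}) = (nu z).real T := by
    rw [nu_eq, measureReal_restrict_apply hTm]
  rw [hset, hT]
  have hcover : (Set.univ : Set (Fin M → ℝ)) ⊆ T ∪ ({x | 4 * ((K : ℝ) + 1) ≤ f x} ∪
      {x : Fin M → ℝ | 4 * S ≤ nsq x}) := by
    intro x _
    by_cases h1 : f x ≤ 4 * (K + 1)
    · by_cases h2 : nsq x ≤ 4 * S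
      · exact Or.inl ⟨h1, h2⟩
      · exact Or.inr (Or.inr (not_le.1 h2).le)
    · exact Or.inr (Or.inl (not_le.1 h1).le)
  have h1 : P ≤ (nu z).real T + ((nu z).real {x | 4 * ((K : ℝ) + 1) ≤ f x} +
      (nu z).real {x : Fin M → ℝ | 4 * S ≤ nsq x}) := by
    rw [hP, ← nu_univ z]
    refine (measureReal_mono hcover).trans ((measureReal_union_le _ _).trans ?_)
    exact add_le_add le_rfl (measureReal_union_le _ _)
  linarith

end Pool.Agent.IP49.LP
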