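import Pool.Agent.IP49.LDefs
import Pool.Agent.IP49.GaussA

/-!
IP49, part L, module LRowA: basic facts on the one row functionals `Qr`, `Rr` (LDefs).

PROOFS. Write the exponent of `Qr` as `Z(p) = s f (α p₁ + β p₂) - L (…)` with `α = a + b lam`,
`β = b √(1-lam²)` (`Real.sqrt` of a negative number is 0, so `0 ≤ √(1-lam²) ≤ 1` always). As
`L ≥ 0`, `exp Z ≤ exp(s f α p₁) exp(s f β p₂)`, integrable (product of two one-dimensional
exponential moments; `mgf_gaussianReal`, `integrable_exp_mul_gaussianReal`), and the integral of the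
right side is `exp(s² f² (α² + β²)/2)`. If `|a|, |b|, |lam| ≤ 2`: `|α| ≤ 6`, `|β| ≤ 2`, so
`Qr ≤ exp(20 s² f²)` (`logQr_le`). Positivity: integral of a positive integrable function over a
probability measure. CONTINUITY in `(k,f,a,b,lam)`: `continuousAt_of_dominated` (or
`tendsto_integral_filter_of_dominated_convergence`): the integrand is continuous in the parameters
and on a bounded set of parameters (all `≤ B` in absolute value) it is `≤ exp(D |p₁|) exp(D |p₂|)`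
with `D = |s| B (B + B²)`, integrable (`exp(D|x|) ≤ exp(Dx) + exp(-Dx)`).
LOWER BOUND (`logQr_ge`): on the box `|p₁| ≤ 1, |p₂| ≤ 1` (probability `c₁ > 0`) one has
`|a p₁| ≤ 2`, `|b (lam p₁ + √.. p₂)| ≤ 6`, hence `Z ≥ -8 |s f| - 2 L (|k|+6)²` and
`Qr ≥ c₁ exp(-8|s f| - 2L(|k|+6)²)`; `|s f| ≤ 1 + s² f²`, `(|k|+6)² ≤ 2k² + 72`.
`Rr`: the same with one variable: `0 < Rr ≤ 1`, jointly continuous, and for `|a| ≤ 2`
`Rr ≥ c₂ exp(-L (|k|+2)²)`. Antitone in `L`.
-/

set_option autoImplicit false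
open MeasureTheory ProbabilityTheory Filter Topology

namespace Pool.Agent.IP49.LP

private theorem sqrt_le_one' (lam : ℝ) : Real.sqrt (1 - lam ^ 2) ≤ 1 := by
  exact Real.sqrt_le_iff.2 ⟨zero_le_one, by nlinarith [sq_nonneg lam]⟩

private theorem integrable_exp_abs (D : ℝ) :
    Integrable (fun x : ℝ => Real.exp (D * |x|)) (gaussianReal 0 1) := by
  have h1 : Integrable (fun x : ℝ => Real.exp (D * x)) (gaussianReal 0 1) :=
    integrable_exp_mul_gaussianReal D
  have h2 : Integrable (fun x : ℝ => Real.exp (-D * x)) (gaussianReal 0 1) :=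
    integrable_exp_mul_gaussianReal (-D)
  refine (h1.add h2).mono' (by fun_prop) (ae_of_all _ fun x => ?_)
  rw [Real.norm_eq_abs, abs_of_pos (Real.exp_pos _)]
  have e1 := Real.exp_pos (D * x)
  have e2 := Real.exp_pos (-D * x)
  rcases le_total 0 x with hx | hx
  · rw [abs_of_nonneg hx]
    show _ ≤ Real.exp (D * x) + Real.exp (-D * x)
    linarith
  · rw [abs_of_nonpos hx]
    show _ ≤ Real.exp (D * x) + Real.exp (-D * x)
    rw [mul_neg, ← neg_mul]
    linarith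

private theorem integrable_exp_abs2 (D D' : ℝ) :
    Integrable (fun p : ℝ × ℝ => Real.exp (D * |p.1|) * Real.exp (D' * |p.2|))
      ((gaussianReal 0 1).prod (gaussianReal 0 1)) :=
  (integrable_exp_abs D).mul_prod (integrable_exp_abs D')

/-- pointwise bound of the exponent -/
private theorem expo_le {s k f a b lam L B : ℝ} (hL : 0 ≤ L) (hB : 0 ≤ B) (hf : |f| ≤ B)
    (ha : |a| ≤ B) (hb : |b| ≤ B) (hl : |lam| ≤ B) (p : ℝ × ℝ) :
    s * f * (a * p.1 + b * (lam * p.1 + Real.sqrt (1 - lam ^ 2) * p.2))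
        - L * ((max 0 (k - a * p.1)) ^ 2
          + (max 0 (k - b * (lam * p.1 + Real.sqrt (1 - lam ^ 2) * p.2))) ^ 2)
      ≤ |s| * B * (B + B * B) * |p.1| + |s| * B * B * |p.2| := by
  have h0 : 0 ≤ L * ((max 0 (k - a * p.1)) ^ 2
      + (max 0 (k - b * (lam * p.1 + Real.sqrt (1 - lam ^ 2) * p.2))) ^ 2) := by positivity
  have h1 : |a * p.1 + b * (lam * p.1 + Real.sqrt (1 - lam ^ 2) * p.2)|
      ≤ (B + B * B) * |p.1| + B * |p.2| := by
    have hr := sqrt_le_one' lam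
    have hr0 := Real.sqrt_nonneg (1 - lam ^ 2)
    have g1 : |a * p.1| ≤ B * |p.1| := by
      rw [abs_mul]; exact mul_le_mul_of_nonneg_right ha (abs_nonneg _)
    have g2 : |b * (lam * p.1 + Real.sqrt (1 - lam ^ 2) * p.2)| ≤ B * (B * |p.1| + |p.2|) := by
      rw [abs_mul]
      refine mul_le_mul hb ?_ (abs_nonneg _) hB
      refine (abs_add_le _ _).trans (add_le_add ?_ ?_)
      · rw [abs_mul]; exact mul_le_mul_of_nonneg_right hl (abs_nonneg _)
      · rw [abs_mul, abs_of_nonneg hr0]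
        exact mul_le_of_le_one_left (abs_nonneg _) hr
    have g3 := abs_add_le (a * p.1) (b * (lam * p.1 + Real.sqrt (1 - lam ^ 2) * p.2))
    linarith
  have h2 : s * f * (a * p.1 + b * (lam * p.1 + Real.sqrt (1 - lam ^ 2) * p.2))
      ≤ |s| * B * ((B + B * B) * |p.1| + B * |p.2|) := by
    refine (le_abs_self _).trans ?_
    rw [abs_mul, abs_mul]
    exact mul_le_mul (mul_le_mul_of_nonneg_left hf (abs_nonneg _)) h1 (abs_nonneg _)
      (mul_nonneg (abs_nonneg _) hB)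
  linarith

theorem Qr_integrable (s k f a b lam : ℝ) {L : ℝ} (hL : 0 ≤ L) :
    Integrable (fun p : ℝ × ℝ =>
      Real.exp (s * f * (a * p.1 + b * (lam * p.1 + Real.sqrt (1 - lam ^ 2) * p.2))
        - L * ((max 0 (k - a * p.1)) ^ 2
          + (max 0 (k - b * (lam * p.1 + Real.sqrt (1 - lam ^ 2) * p.2))) ^ 2)))
      ((gaussianReal 0 1).prod (gaussianReal 0 1)) := by
  set B := |f| + |a| + |b| + |lam| with hB
  have hf := abs_nonneg f
  have ha := abs_nonneg a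
  have hb := abs_nonneg b
  have hl := abs_nonneg lam
  refine (integrable_exp_abs2 (|s| * B * (B + B * B)) (|s| * B * B)).mono' ?_
    (ae_of_all _ fun p => ?_)
  · exact Continuous.aestronglyMeasurable (by fun_prop)
  · rw [Real.norm_eq_abs, abs_of_pos (Real.exp_pos _), ← Real.exp_add]
    exact Real.exp_le_exp.2 (expo_le hL (by linarith) (by linarith) (by linarith) (by linarith)
      (by linarith) p)

theorem Qr_pos (s k f a b lam : ℝ) {L : ℝ} (hL : 0 ≤ L) : 0 < Qr s L k f a b lam :=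
  integral_exp_pos (Qr_integrable s k f a b lam hL)

theorem Qr_cont (s : ℝ) {L : ℝ} (hL : 0 ≤ L) :
    Continuous (fun p : ℝ × ℝ × ℝ × ℝ × ℝ =>
      Qr s L p.1 p.2.1 p.2.2.1 p.2.2.2.1 p.2.2.2.2) := by
  rw [continuous_iff_continuousAt]
  intro p0
  set B := ‖p0‖ + 1 with hB
  have hev : ∀ᶠ p : ℝ × ℝ × ℝ × ℝ × ℝ in 𝓝 p0, ‖p‖ < B :=
    continuous_norm.continuousAt.eventually_lt continuousAt_const (by rw [hB]; linarith)
  refine continuousAt_of_dominated
    (bound := fun q : ℝ × ℝ => Real.exp (|s| * B * (B + B * B) * |q.1|)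
      * Real.exp (|s| * B * B * |q.2|)) ?_ ?_ (integrable_exp_abs2 _ _) ?_
  · exact Eventually.of_forall fun p => Continuous.aestronglyMeasurable (by fun_prop)
  · filter_upwards [hev] with p hp
    refine ae_of_all _ fun q => ?_
    have n1 : ‖p.2‖ ≤ ‖p‖ := norm_snd_le p
    have n2 : ‖p.2.2‖ ≤ ‖p.2‖ := norm_snd_le p.2
    have n3 : ‖p.2.2.2‖ ≤ ‖p.2.2‖ := norm_snd_le p.2.2
    have m1 : ‖p.2.1‖ ≤ ‖p.2‖ := norm_fst_le p.2
    have m2 : ‖p.2.2.1‖ ≤ ‖p.2.2‖ := norm_fst_le p.2.2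
    have m3 : ‖p.2.2.2.1‖ ≤ ‖p.2.2.2‖ := norm_fst_le p.2.2.2
    have m4 : ‖p.2.2.2.2‖ ≤ ‖p.2.2.2‖ := norm_snd_le p.2.2.2
    rw [Real.norm_eq_abs] at m1 m2 m3 m4
    rw [Real.norm_eq_abs, abs_of_pos (Real.exp_pos _), ← Real.exp_add]
    exact Real.exp_le_exp.2 (expo_le hL (by positivity) (by linarith) (by linarith)
      (by linarith) (by linarith) q)
  · refine ae_of_all _ fun q => Continuous.continuousAt ?_
    fun_prop

theorem Qr_anti (s k f a b lam : ℝ) {L L' : ℝ} (hL : 0 ≤ L) (h : L ≤ L') :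
    Qr s L' k f a b lam ≤ Qr s L k f a b lam := by
  refine integral_mono (Qr_integrable s k f a b lam (hL.trans h))
    (Qr_integrable s k f a b lam hL) fun p => ?_
  refine Real.exp_le_exp.2 ?_
  have := mul_le_mul_of_nonneg_right h (by positivity : 0 ≤ (max 0 (k - a * p.1)) ^ 2
    + (max 0 (k - b * (lam * p.1 + Real.sqrt (1 - lam ^ 2) * p.2))) ^ 2)
  linarith

private theorem mgf_std (t : ℝ) :
    ∫ x, Real.exp (t * x) ∂(gaussianReal 0 1) = Real.exp (t ^ 2 / 2) := by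
  have h := mgf_gaussianReal (p := gaussianReal 0 1) (X := id) (μ := 0) (v := 1)
    (by simp) t
  simpa [mgf] using h

theorem logQr_le (s k f a b lam : ℝ) {L : ℝ} (hL : 0 ≤ L) (ha : |a| ≤ 2) (hb : |b| ≤ 2)
    (hl : |lam| ≤ 2) : Real.log (Qr s L k f a b lam) ≤ 20 * s ^ 2 * f ^ 2 := by
  set al := a + b * lam with hal
  set be := b * Real.sqrt (1 - lam ^ 2) with hbe
  have h1 : Qr s L k f a b lam ≤ Real.exp ((s * f * al) ^ 2 / 2) * Real.exp ((s * f * be) ^ 2 / 2) := by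
    rw [← mgf_std, ← mgf_std, ← integral_prod_mul]
    refine integral_mono (Qr_integrable s k f a b lam hL)
      ((integrable_exp_mul_gaussianReal _).mul_prod (integrable_exp_mul_gaussianReal _))
      fun p => ?_
    show _ ≤ Real.exp (s * f * al * p.1) * Real.exp (s * f * be * p.2)
    rw [← Real.exp_add]
    refine Real.exp_le_exp.2 ?_
    have h0 : 0 ≤ L * ((max 0 (k - a * p.1)) ^ 2
      + (max 0 (k - b * (lam * p.1 + Real.sqrt (1 - lam ^ 2) * p.2))) ^ 2) := by positivity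
    have e : s * f * (a * p.1 + b * (lam * p.1 + Real.sqrt (1 - lam ^ 2) * p.2))
        = s * f * al * p.1 + s * f * be * p.2 := by rw [hal, hbe]; ring
    linarith
  have h2 := Real.log_le_log (Qr_pos s k f a b lam hL) h1
  rw [← Real.exp_add, Real.log_exp] at h2
  refine h2.trans ?_
  have h3 : al ^ 2 ≤ 36 := by
    have h4 : |al| ≤ 6 := by
      rw [hal]
      have := abs_add_le a (b * lam)
      rw [abs_mul] at this
      have h5 : |b| * |lam| ≤ 2 * 2 := mul_le_mul hb hl (abs_nonneg _) (by norm_num)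
      linarith
    calc al ^ 2 = |al| ^ 2 := (sq_abs _).symm
      _ ≤ 6 ^ 2 := pow_le_pow_left₀ (abs_nonneg _) h4 2
      _ = 36 := by norm_num
  have h6 : be ^ 2 ≤ 4 := by
    have h4 : |be| ≤ 2 := by
      rw [hbe, abs_mul, abs_of_nonneg (Real.sqrt_nonneg _)]
      calc |b| * Real.sqrt (1 - lam ^ 2) ≤ 2 * 1 :=
            mul_le_mul hb (sqrt_le_one' lam) (Real.sqrt_nonneg _) (by norm_num)
        _ = 2 := by norm_num
    calc be ^ 2 = |be| ^ 2 := (sq_abs _).symm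
      _ ≤ 2 ^ 2 := pow_le_pow_left₀ (abs_nonneg _) h4 2
      _ = 4 := by norm_num
  have h7 : 0 ≤ (s * f) ^ 2 := sq_nonneg _
  have h8 : (s * f) ^ 2 * (al ^ 2 + be ^ 2) ≤ (s * f) ^ 2 * 40 :=
    mul_le_mul_of_nonneg_left (by linarith) h7
  have e1 : (s * f * al) ^ 2 / 2 + (s * f * be) ^ 2 / 2 = (s * f) ^ 2 * (al ^ 2 + be ^ 2) / 2 := by
    ring
  have e2 : 20 * s ^ 2 * f ^ 2 = (s * f) ^ 2 * 40 / 2 := by ring
  rw [e1, e2]
  linarith

private theorem gauss_Icc_pos : 0 < (gaussianReal 0 1).real (Set.Icc (-1 : ℝ) 1) := by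
  rw [measureReal_def, ENNReal.toReal_pos_iff]
  refine ⟨pos_iff_ne_zero.2 fun h => ?_, measure_lt_top _ _⟩
  have h2 := gaussianReal_absolutelyContinuous' 0 (v := 1) one_ne_zero h
  rw [Real.volume_Icc] at h2
  norm_num at h2

theorem logQr_ge (s : ℝ) {L : ℝ} (hL : 0 ≤ L) : ∃ C : ℝ, 0 ≤ C ∧ ∀ k f a b lam : ℝ,
    |a| ≤ 2 → |b| ≤ 2 → |lam| ≤ 2 →
    -(C * (1 + k ^ 2 + f ^ 2)) ≤ Real.log (Qr s L k f a b lam) := by
  set c1 := ((gaussianReal 0 1).prod (gaussianReal 0 1)).real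
    (Set.Icc (-1 : ℝ) 1 ×ˢ Set.Icc (-1 : ℝ) 1) with hc1
  have hc : 0 < c1 := by
    rw [hc1, measureReal_prod_prod]
    exact mul_pos gauss_Icc_pos gauss_Icc_pos
  have hc' : c1 ≤ 1 := measureReal_le_one
  have hlog : Real.log c1 ≤ 0 := Real.log_nonpos hc.le hc'
  have hs2 := sq_nonneg s
  refine ⟨-Real.log c1 + 8 + 8 * s ^ 2 + 148 * L, by linarith, ?_⟩
  intro k f a b lam ha hb hl
  set ep := Real.exp (-(8 * |s * f|) - 2 * L * (|k| + 6) ^ 2) with hep
  have hsub : Set.Icc (-1 : ℝ) 1 ×ˢ Set.Icc (-1 : ℝ) 1 ⊆ {p : ℝ × ℝ | ep ≤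
      Real.exp (s * f * (a * p.1 + b * (lam * p.1 + Real.sqrt (1 - lam ^ 2) * p.2))
        - L * ((max 0 (k - a * p.1)) ^ 2
          + (max 0 (k - b * (lam * p.1 + Real.sqrt (1 - lam ^ 2) * p.2))) ^ 2))} := by
    intro p hp
    obtain ⟨hp1, hp2⟩ := hp
    have q1 : |p.1| ≤ 1 := abs_le.2 ⟨hp1.1, hp1.2⟩
    have q2 : |p.2| ≤ 1 := abs_le.2 ⟨hp2.1, hp2.2⟩
    have g1 : |a * p.1| ≤ 2 := by
      rw [abs_mul]
      calc |a| * |p.1| ≤ 2 * 1 := mul_le_mul ha q1 (abs_nonneg _) (by norm_num)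
        _ = 2 := by norm_num
    have g2 : |b * (lam * p.1 + Real.sqrt (1 - lam ^ 2) * p.2)| ≤ 6 := by
      rw [abs_mul]
      have g3 : |lam * p.1 + Real.sqrt (1 - lam ^ 2) * p.2| ≤ 3 := by
        have g4 := abs_add_le (lam * p.1) (Real.sqrt (1 - lam ^ 2) * p.2)
        have g5 : |lam * p.1| ≤ 2 * 1 := by
          rw [abs_mul]; exact mul_le_mul hl q1 (abs_nonneg _) (by norm_num)
        have g6 : |Real.sqrt (1 - lam ^ 2) * p.2| ≤ 1 * 1 := by
          rw [abs_mul, abs_of_nonneg (Real.sqrt_nonneg _)]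
          exact mul_le_mul (sqrt_le_one' lam) q2 (abs_nonneg _) (by norm_num)
        linarith
      calc |b| * _ ≤ 2 * 3 := mul_le_mul hb g3 (abs_nonneg _) (by norm_num)
        _ = 6 := by norm_num
    set u := a * p.1
    set v := b * (lam * p.1 + Real.sqrt (1 - lam ^ 2) * p.2)
    show ep ≤ Real.exp (s * f * (u + v) - L * ((max 0 (k - u)) ^ 2 + (max 0 (k - v)) ^ 2))
    rw [hep]
    refine Real.exp_le_exp.2 ?_
    have m1 : -(8 * |s * f|) ≤ s * f * (u + v) := by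
      have h1 : |s * f * (u + v)| ≤ |s * f| * 8 := by
        rw [abs_mul]
        refine mul_le_mul_of_nonneg_left ?_ (abs_nonneg _)
        have := abs_add_le u v
        linarith
      have h2 := neg_abs_le (s * f * (u + v))
      linarith
    have hk := abs_nonneg k
    have hk1 := le_abs_self k
    have m2 : (max 0 (k - u)) ^ 2 ≤ (|k| + 6) ^ 2 := by
      refine pow_le_pow_left₀ (le_max_left _ _) (max_le (by linarith) ?_) 2
      have := neg_abs_le u
      linarith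
    have m3 : (max 0 (k - v)) ^ 2 ≤ (|k| + 6) ^ 2 := by
      refine pow_le_pow_left₀ (le_max_left _ _) (max_le (by linarith) ?_) 2
      have := neg_abs_le v
      linarith
    have m4 : L * ((max 0 (k - u)) ^ 2 + (max 0 (k - v)) ^ 2) ≤ L * (2 * (|k| + 6) ^ 2) :=
      mul_le_mul_of_nonneg_left (by linarith) hL
    linarith
  have h1 := mul_meas_ge_le_integral_of_nonneg
    (μ := (gaussianReal 0 1).prod (gaussianReal 0 1))
    (ae_of_all _ fun p => (Real.exp_pos _).le) (Qr_integrable s k f a b lam hL) ep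
  have h2 : ep * c1 ≤ Qr s L k f a b lam := by
    refine le_trans ?_ h1
    exact mul_le_mul_of_nonneg_left (measureReal_mono hsub) (Real.exp_pos _).le
  have h3 := Real.log_le_log (mul_pos (Real.exp_pos _) hc) h2
  rw [Real.log_mul (Real.exp_pos _).ne' hc.ne', Real.log_exp] at h3
  refine le_trans ?_ h3
  have k1 : |s * f| ≤ 1 + s ^ 2 * f ^ 2 := by
    have h4 : s ^ 2 * f ^ 2 = |s * f| ^ 2 := by rw [sq_abs]; ring
    rw [h4]
    nlinarith [sq_nonneg (|s * f| - 1)]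
  have k2 : (|k| + 6) ^ 2 ≤ 2 * k ^ 2 + 72 := by
    have := sq_abs k
    nlinarith [sq_nonneg (|k| - 6)]
  have k3 : 2 * L * (|k| + 6) ^ 2 ≤ 2 * L * (2 * k ^ 2 + 72) :=
    mul_le_mul_of_nonneg_left k2 (by linarith)
  have k4 : 0 ≤ k ^ 2 := sq_nonneg k
  have k5 : 0 ≤ f ^ 2 := sq_nonneg f
  have p1 : 0 ≤ -Real.log c1 * (k ^ 2 + f ^ 2) := mul_nonneg (by linarith) (by linarith)
  have p2 : 0 ≤ s ^ 2 * (1 + k ^ 2) := mul_nonneg hs2 (by linarith)
  have p3 : 0 ≤ L * f ^ 2 := mul_nonneg hL k5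
  have p4 : 0 ≤ L * k ^ 2 := mul_nonneg hL k4
  nlinarith

private theorem Rr_integrable (k a : ℝ) {L : ℝ} (hL : 0 ≤ L) :
    Integrable (fun x => Real.exp (-(L * (max 0 (k - a * x)) ^ 2))) (gaussianReal 0 1) := by
  refine (integrable_const (1 : ℝ)).mono' (Continuous.aestronglyMeasurable (by fun_prop))
    (ae_of_all _ fun x => ?_)
  rw [Real.norm_eq_abs, abs_of_pos (Real.exp_pos _)]
  refine Real.exp_le_one_iff.2 ?_
  have : 0 ≤ L * (max 0 (k - a * x)) ^ 2 := by positivity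
  linarith

theorem Rr_pos (k a : ℝ) {L : ℝ} (hL : 0 ≤ L) : 0 < Rr L k a :=
  integral_exp_pos (Rr_integrable k a hL)

theorem Rr_le_one (k a : ℝ) {L : ℝ} (hL : 0 ≤ L) : Rr L k a ≤ 1 := by
  have h : Rr L k a ≤ ∫ _x : ℝ, (1 : ℝ) ∂(gaussianReal 0 1) := by
    refine integral_mono (Rr_integrable k a hL) (integrable_const _) fun x => ?_
    refine Real.exp_le_one_iff.2 ?_
    have : 0 ≤ L * (max 0 (k - a * x)) ^ 2 := by positivity
    linarith
  simpa using h

theorem Rr_cont {L : ℝ} (hL : 0 ≤ L) : Continuous (fun p : ℝ × ℝ => Rr L p.1 p.2) := by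
  refine continuous_of_dominated (bound := fun _ => (1 : ℝ)) ?_ ?_ (integrable_const _) ?_
  · exact fun p => Continuous.aestronglyMeasurable (by fun_prop)
  · intro p
    refine ae_of_all _ fun x => ?_
    rw [Real.norm_eq_abs, abs_of_pos (Real.exp_pos _)]
    refine Real.exp_le_one_iff.2 ?_
    have : 0 ≤ L * (max 0 (p.1 - p.2 * x)) ^ 2 := by positivity
    linarith
  · refine ae_of_all _ fun x => ?_
    fun_prop

theorem logRr_ge {L : ℝ} (hL : 0 ≤ L) : ∃ C : ℝ, 0 ≤ C ∧ ∀ k a : ℝ, |a| ≤ 2 →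
    -(C * (1 + k ^ 2)) ≤ Real.log (Rr L k a) := by
  set c1 := (gaussianReal 0 1).real (Set.Icc (-1 : ℝ) 1) with hc1
  have hc : 0 < c1 := gauss_Icc_pos
  have hc' : c1 ≤ 1 := measureReal_le_one
  have hlog : Real.log c1 ≤ 0 := Real.log_nonpos hc.le hc'
  refine ⟨-Real.log c1 + 10 * L, by linarith, ?_⟩
  intro k a ha
  set ep := Real.exp (-(L * (|k| + 2) ^ 2)) with hep
  have hsub : Set.Icc (-1 : ℝ) 1 ⊆ {x : ℝ | ep ≤
      Real.exp (-(L * (max 0 (k - a * x)) ^ 2))} := by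
    intro x hx
    have q1 : |x| ≤ 1 := abs_le.2 ⟨hx.1, hx.2⟩
    have g1 : |a * x| ≤ 2 := by
      rw [abs_mul]
      calc |a| * |x| ≤ 2 * 1 := mul_le_mul ha q1 (abs_nonneg _) (by norm_num)
        _ = 2 := by norm_num
    show ep ≤ Real.exp (-(L * (max 0 (k - a * x)) ^ 2))
    rw [hep]
    refine Real.exp_le_exp.2 (neg_le_neg (mul_le_mul_of_nonneg_left ?_ hL))
    have hk := abs_nonneg k
    have hk1 := le_abs_self k
    refine pow_le_pow_left₀ (le_max_left _ _) (max_le (by linarith) ?_) 2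
    have := neg_abs_le (a * x)
    linarith
  have h1 := mul_meas_ge_le_integral_of_nonneg (μ := gaussianReal 0 1)
    (ae_of_all _ fun p => (Real.exp_pos _).le) (Rr_integrable k a hL) ep
  have h2 : ep * c1 ≤ Rr L k a := by
    refine le_trans ?_ h1
    exact mul_le_mul_of_nonneg_left (measureReal_mono hsub) (Real.exp_pos _).le
  have h3 := Real.log_le_log (mul_pos (Real.exp_pos _) hc) h2
  rw [Real.log_mul (Real.exp_pos _).ne' hc.ne', Real.log_exp] at h3
  refine le_trans ?_ h3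
  have k2 : (|k| + 2) ^ 2 ≤ 2 * k ^ 2 + 8 := by
    have := sq_abs k
    nlinarith [sq_nonneg (|k| - 2)]
  have k3 : L * (|k| + 2) ^ 2 ≤ L * (2 * k ^ 2 + 8) := mul_le_mul_of_nonneg_left k2 hL
  have k4 : 0 ≤ k ^ 2 := sq_nonneg k
  have p1 : 0 ≤ -Real.log c1 * k ^ 2 := mul_nonneg (by linarith) k4
  have p4 : 0 ≤ L * k ^ 2 := mul_nonneg hL k4
  nlinarith

end Pool.Agent.IP49.LP
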