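import Pool.Agent.IP49.LMP
import Pool.Agent.IP49.LLaw
import Pool.Agent.IP49.LWin
import Pool.Agent.IP49.LInt
import Pool.Agent.IP49.LRowA

/-!
IP49, part L, module LUp: upper bound for the probability that both `w` and `w'` are near
solutions, given a good history.

PROOF of `pair_up`. `F_k = FF κ 0 q (hh_k)`, `μ = gs × gs` on pairs `p = (ξ, ζ)`,
`g = a ξ`, `g' = b (lam ξ + √(1-lam²) ζ)`. By `form` the event `Ev w ∩ Ev w'` is
`{G | (qC c (mulv G (u w)), qC c (mulv G (u w'))) ∈ A}`, `A` the closed (measurable) set of pairs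
`(x,x')` with `∑ (max 0 (κ - hh_k - (1-q)F_k - e_w k - x k))² ≤ δ N`, `nsq x ≤ C N`, and the same
for `x'` with `e_{w'}`. By `law_two` its probability is `μ{(qC g, qC g') ∈ A}`, and `qC g`,
`qC g'` are functions of `(qC ξ, qC ζ)` (linearity, `qC_lin`): the set is
`{p | (qC p.1, qC p.2) ∈ A'}`, `A'` measurable. In the same way
`W = {nsq (pC g) ≤ r²N, nsq (pC g') ≤ r²N} = {p | (pC p.1, pC p.2) ∈ W'}`. `win_two`: `μ W ≥ 1/2`.
`indep_two`: `μ(A') μ(W) = μ(A' ∩ W)`, so `μ(A') ≤ 2 μ(A' ∩ W)`.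
POINTWISE ESTIMATE on `A' ∩ W` (all norms Euclidean): `kf(hh) - g = (κ - hh - (1-q)F - e_w - qC g)
+ e_w - pC g` (because `g = qC g + pC g`), hence by `en_pos_add`, `en_add`
`|[kf(hh) - g]_+| ≤ √(δN) + √(εN) + r√N = (√δ+√ε+r)√N`, and
`<F,g> = <F - n, qC g> + <F, pC g>` (`dot_qC`: `<n, qC g> = 0`), so
`|<F,g>| ≤ √(εN)√(CN) + √(CF N) r√N = (√(εC) + √CF r) N`. The same for `g'`. So
`1 ≤ exp(s <F, g+g'> + 2|s|(√(εC)+√CF r)N) exp(-L(nsq[kf-g]_+ + nsq[kf-g']_+) + 2L(√δ+√ε+r)²N)`.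
Integrate the right side over `μ` (it is nonnegative): by `pair_prod` it equals
`exp(2N(…)) ∏_k Qr s L (kf(hh_k)) F_k a b lam` (integrable by `pair_prod_integrable`,
`Qr_integrable`).
-/

set_option autoImplicit false
open MeasureTheory ProbabilityTheory Filter Topology

namespace Pool.Agent.IP49.LP

/-- the set of fresh parts compatible with the event `Ev w` -/
private def SA (κ ψ δ C : ℝ) {M : ℕ} (N : ℕ) (hh e : Fin M → ℝ) : Set (Fin M → ℝ) :=
  {x | ∑ k, (max 0 (κ - (hh k + (1 - qp ψ) * FF κ 0 (qp ψ) (hh k) + e k + x k))) ^ 2 ≤ δ * N ∧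
    nsq x ≤ C * N}

private theorem SA_meas (κ ψ δ C : ℝ) {M : ℕ} (N : ℕ) (hh e : Fin M → ℝ) :
    MeasurableSet (SA κ ψ δ C N hh e) := by
  have c1 : MeasurableSet {x : Fin M → ℝ | ∑ k, (max 0 (κ - (hh k
      + (1 - qp ψ) * FF κ 0 (qp ψ) (hh k) + e k + x k))) ^ 2 ≤ δ * N} :=
    measurableSet_le (Continuous.measurable (by fun_prop)) measurable_const
  have c2 : MeasurableSet {x : Fin M → ℝ | nsq x ≤ C * N} :=
    measurableSet_le (Continuous.measurable (by unfold nsq; fun_prop)) measurable_const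
  exact c1.inter c2

private theorem Ev_eq {κ ψ ε δ C : ℝ} {K M N : ℕ} {h : Fin N → ℝ} {hh : Fin M → ℝ}
    {R : (Fin M → Fin N → ℝ) → Fin M → Fin N → ℝ} {c : Fin K → Fin M → ℝ} {n : Fin M → ℝ}
    {u : (Fin N → Bool) → Fin N → ℝ} {e : (Fin N → Bool) → Fin M → ℝ}
    {T : Finset (Fin N → Bool)} (hC : Cfg κ ψ ε h hh R c n u e T) {w : Fin N → Bool}
    (hw : w ∈ T) : Ev κ δ C R c u w = {G | qC c (mulv G (u w)) ∈ SA κ ψ δ C N hh (e w)} := by
  ext G
  simp only [Ev, Near, SA, Set.mem_ofPred_eq]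
  simp only [hC.form w hw G]

theorem Ev_meas {κ ψ ε δ C : ℝ} {K M N : ℕ} {h : Fin N → ℝ} {hh : Fin M → ℝ}
    {R : (Fin M → Fin N → ℝ) → Fin M → Fin N → ℝ} {c : Fin K → Fin M → ℝ} {n : Fin M → ℝ}
    {u : (Fin N → Bool) → Fin N → ℝ} {e : (Fin N → Bool) → Fin M → ℝ}
    {T : Finset (Fin N → Bool)} (hC : Cfg κ ψ ε h hh R c n u e T) {w : Fin N → Bool}
    (hw : w ∈ T) : MeasurableSet (Ev κ δ C R c u w) := by
  rw [Ev_eq hC hw]
  exact ((continuous_qC c).comp (continuous_mulv (u w))).measurable (SA_meas κ ψ δ C N hh (e w))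

private theorem sqrt_mul_N {x : ℝ} (hx : 0 ≤ x) (N : ℕ) :
    Real.sqrt (x * N) = Real.sqrt x * Real.sqrt N := Real.sqrt_mul hx _

private theorem ptw {κ ψ ε : ℝ} {K M N : ℕ} {h : Fin N → ℝ} {hh : Fin M → ℝ}
    {R : (Fin M → Fin N → ℝ) → Fin M → Fin N → ℝ} {c : Fin K → Fin M → ℝ} {n : Fin M → ℝ}
    {u : (Fin N → Bool) → Fin N → ℝ} {e : (Fin N → Bool) → Fin M → ℝ}
    {T : Finset (Fin N → Bool)} (hC : Cfg κ ψ ε h hh R c n u e T) (hε : 0 ≤ ε)
    {w : Fin N → Bool} (hw : w ∈ T) {δ C CF r : ℝ}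
    (hδ : 0 ≤ δ) (hCC : 0 ≤ C) (hCF : 0 ≤ CF) (hr : 0 < r)
    (hF : ∑ k, FF κ 0 (qp ψ) (hh k) ^ 2 ≤ CF * N) {g : Fin M → ℝ}
    (hq : qC c g ∈ SA κ ψ δ C N hh (e w)) (hp : nsq (pC c g) ≤ r ^ 2 * N) :
    nsq (fun k => max 0 (kf κ ψ (hh k) - g k)) ≤ (Real.sqrt δ + Real.sqrt ε + r) ^ 2 * N ∧
      |∑ k, FF κ 0 (qp ψ) (hh k) * g k| ≤ (Real.sqrt (ε * C) + Real.sqrt CF * r) * N := by
  obtain ⟨hq1, hq2⟩ := hq
  have hN0 : (0 : ℝ) ≤ N := Nat.cast_nonneg N
  have hNs : Real.sqrt N * Real.sqrt N = N := Real.mul_self_sqrt hN0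
  have hy : Real.sqrt (nsq (pC c g)) ≤ r * Real.sqrt N := by
    have := Real.sqrt_le_sqrt hp
    rwa [sqrt_mul_N (sq_nonneg r), Real.sqrt_sq hr.le] at this
  constructor
  · set X : Fin M → ℝ := fun k =>
      κ - (hh k + (1 - qp ψ) * FF κ 0 (qp ψ) (hh k) + e w k + qC c g k) with hX
    set Y : Fin M → ℝ := fun k => e w k + (-1) * pC c g k with hY
    have e1 : (fun k => max 0 (kf κ ψ (hh k) - g k)) = fun k => max 0 (X k + Y k) := by
      funext k
      congr 1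
      simp only [hX, hY, kf, qC]
      ring
    have h1 := en_pos_add X Y
    have h2 : Real.sqrt (nsq fun k => max 0 (X k)) ≤ Real.sqrt δ * Real.sqrt N := by
      have h3 : (nsq fun k => max 0 (X k)) ≤ δ * N := hq1
      have := Real.sqrt_le_sqrt h3
      rwa [sqrt_mul_N hδ] at this
    have h4 : Real.sqrt (nsq Y) ≤ Real.sqrt ε * Real.sqrt N + r * Real.sqrt N := by
      have h5 := en_add (e w) (fun k => (-1) * pC c g k)
      have h6 := en_smul (-1) (pC c g)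
      rw [abs_neg, abs_one, one_mul] at h6
      rw [h6] at h5
      have h7 : Real.sqrt (nsq (e w)) ≤ Real.sqrt ε * Real.sqrt N := by
        have h8 : nsq (e w) ≤ ε * N := hC.err w hw
        have := Real.sqrt_le_sqrt h8
        rwa [sqrt_mul_N hε] at this
      exact h5.trans (add_le_add h7 hy)
    have h9 : Real.sqrt (nsq fun k => max 0 (kf κ ψ (hh k) - g k))
        ≤ (Real.sqrt δ + Real.sqrt ε + r) * Real.sqrt N := by
      rw [e1]
      refine h1.trans ((add_le_add h2 h4).trans (le_of_eq ?_))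
      ring
    have h10 := pow_le_pow_left₀ (Real.sqrt_nonneg _) h9 2
    rw [Real.sq_sqrt (nsq_nonneg _), mul_pow, Real.sq_sqrt hN0] at h10
    exact h10
  · set F : Fin M → ℝ := fun k => FF κ 0 (qp ψ) (hh k) with hFd
    have h1 : ∑ k, F k * g k = -(∑ k, (n k - F k) * qC c g k) + ∑ k, F k * pC c g k := by
      have h2 := dot_qC hC.orth hC.span g
      have h3 : ∑ k, (n k - F k) * qC c g k = ∑ k, n k * qC c g k - ∑ k, F k * qC c g k := by
        rw [← Finset.sum_sub_distrib]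
        exact Finset.sum_congr rfl fun k _ => by ring
      rw [h3, h2, zero_sub, neg_neg, ← Finset.sum_add_distrib]
      refine Finset.sum_congr rfl fun k _ => ?_
      unfold qC
      ring
    have h4 : |∑ k, (n k - F k) * qC c g k| ≤ Real.sqrt (ε * C) * N := by
      refine (abs_dot_le (fun k => n k - F k) (qC c g)).trans ?_
      have h5 : Real.sqrt (nsq fun k => n k - F k) ≤ Real.sqrt ε * Real.sqrt N := by
        have h8 : (nsq fun k => n k - F k) ≤ ε * N := hC.near_n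
        have := Real.sqrt_le_sqrt h8
        rwa [sqrt_mul_N hε] at this
      have h6 : Real.sqrt (nsq (qC c g)) ≤ Real.sqrt C * Real.sqrt N := by
        have := Real.sqrt_le_sqrt hq2
        rwa [sqrt_mul_N hCC] at this
      calc Real.sqrt (nsq fun k => n k - F k) * Real.sqrt (nsq (qC c g))
          ≤ (Real.sqrt ε * Real.sqrt N) * (Real.sqrt C * Real.sqrt N) :=
            mul_le_mul h5 h6 (Real.sqrt_nonneg _) (by positivity)
        _ = Real.sqrt ε * Real.sqrt C * (Real.sqrt N * Real.sqrt N) := by ring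
        _ = Real.sqrt (ε * C) * N := by rw [hNs, Real.sqrt_mul hε]
    have h7 : |∑ k, F k * pC c g k| ≤ Real.sqrt CF * r * N := by
      refine (abs_dot_le F (pC c g)).trans ?_
      have h5 : Real.sqrt (nsq F) ≤ Real.sqrt CF * Real.sqrt N := by
        have h8 : nsq F ≤ CF * N := hF
        have := Real.sqrt_le_sqrt h8
        rwa [sqrt_mul_N hCF] at this
      calc Real.sqrt (nsq F) * Real.sqrt (nsq (pC c g))
          ≤ (Real.sqrt CF * Real.sqrt N) * (r * Real.sqrt N) :=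
            mul_le_mul h5 hy (Real.sqrt_nonneg _) (by positivity)
        _ = Real.sqrt CF * r * (Real.sqrt N * Real.sqrt N) := by ring
        _ = Real.sqrt CF * r * N := by rw [hNs]
    rw [h1]
    refine (abs_add_le _ _).trans ?_
    rw [abs_neg]
    linarith

theorem pair_up {κ ψ ε : ℝ} {K M N : ℕ} {h : Fin N → ℝ} {hh : Fin M → ℝ}
    {R : (Fin M → Fin N → ℝ) → Fin M → Fin N → ℝ} {c : Fin K → Fin M → ℝ} {n : Fin M → ℝ}
    {u : (Fin N → Bool) → Fin N → ℝ} {e : (Fin N → Bool) → Fin M → ℝ}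
    {T : Finset (Fin N → Bool)} (hC : Cfg κ ψ ε h hh R c n u e T) (hN : 0 < N) (hε : 0 ≤ ε)
    {w w' : Fin N → Bool} (hw : w ∈ T) (hw' : w' ∈ T) {a b lam s L δ C CF r : ℝ}
    (hL : 0 ≤ L) (hδ : 0 ≤ δ) (hCC : 0 ≤ C) (hCF : 0 ≤ CF) (hr : 0 < r)
    (h1 : nsq (u w) = a ^ 2) (h2 : nsq (u w') = b ^ 2)
    (h3 : ∑ i, u w i * u w' i = lam * a * b) (hlam : |lam| ≤ 1)
    (hF : ∑ k, FF κ 0 (qp ψ) (hh k) ^ 2 ≤ CF * N) (hK : (a ^ 2 + b ^ 2) * K * 2 ≤ r ^ 2 * N) :
    (GM M N).real (Ev κ δ C R c u w ∩ Ev κ δ C R c u w') ≤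
      2 * Real.exp (2 * N * (|s| * (Real.sqrt (ε * C) + Real.sqrt CF * r)
        + L * (Real.sqrt δ + Real.sqrt ε + r) ^ 2)) *
      ∏ k, Qr s L (kf κ ψ (hh k)) (FF κ 0 (qp ψ) (hh k)) a b lam := by
  have hprob : IsProbabilityMeasure (gs (Fin M)) := by unfold gs; infer_instance
  set μ := (gs (Fin M)).prod (gs (Fin M)) with hμ
  set sq := Real.sqrt (1 - lam ^ 2) with hsq
  set S1 := SA κ ψ δ C N hh (e w) with hS1
  set S2 := SA κ ψ δ C N hh (e w') with hS2
  have mS1 : MeasurableSet S1 := SA_meas _ _ _ _ _ _ _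
  have mS2 : MeasurableSet S2 := SA_meas _ _ _ _ _ _ _
  have mq := (continuous_qC c).measurable
  -- the pair event through the law of `(mulv G (u w), mulv G (u w'))`
  have hlaw := law_two (M := M) (u w) (u w') h1 h2 hlam h3
  rw [← hsq] at hlaw
  have mG : Measurable (fun G : Fin M → Fin N → ℝ => (mulv G (u w), mulv G (u w'))) :=
    (continuous_mulv (u w)).measurable.prodMk (continuous_mulv (u w')).measurable
  have mg : Measurable (fun p : (Fin M → ℝ) × (Fin M → ℝ) => ((fun k => a * p.1 k,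
      fun k => b * (lam * p.1 k + sq * p.2 k)) : (Fin M → ℝ) × (Fin M → ℝ))) := by fun_prop
  set B : Set ((Fin M → ℝ) × (Fin M → ℝ)) := {y | qC c y.1 ∈ S1 ∧ qC c y.2 ∈ S2} with hB
  have mB : MeasurableSet B :=
    ((mq.comp measurable_fst) mS1).inter ((mq.comp measurable_snd) mS2)
  have hstep1 : (GM M N).real (Ev κ δ C R c u w ∩ Ev κ δ C R c u w')
      = μ.real {p | qC c (fun k => a * p.1 k) ∈ S1 ∧
        qC c (fun k => b * (lam * p.1 k + sq * p.2 k)) ∈ S2} := by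
    have e1 : Ev κ δ C R c u w ∩ Ev κ δ C R c u w'
        = (fun G : Fin M → Fin N → ℝ => (mulv G (u w), mulv G (u w'))) ⁻¹' B := by
      rw [Ev_eq hC hw, Ev_eq hC hw']
      rfl
    have e2 : ((GM M N).map (fun G => (mulv G (u w), mulv G (u w')))).real B
        = (GM M N).real ((fun G : Fin M → Fin N → ℝ => (mulv G (u w), mulv G (u w'))) ⁻¹' B) :=
      map_measureReal_apply mG mB
    rw [e1, ← e2, hlaw, map_measureReal_apply mg mB]
    rfl
  -- independence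
  set A' : Set ((Fin M → ℝ) × (Fin M → ℝ)) := {p | (fun k => a * p.1 k) ∈ S1 ∧
      (fun k => b * (lam * p.1 k + sq * p.2 k)) ∈ S2} with hA'
  set W' : Set ((Fin M → ℝ) × (Fin M → ℝ)) := {p | nsq (fun k => a * p.1 k) ≤ r ^ 2 * N ∧
      nsq (fun k => b * (lam * p.1 k + sq * p.2 k)) ≤ r ^ 2 * N} with hW'
  have mg1 : Measurable (fun p : (Fin M → ℝ) × (Fin M → ℝ) => (fun k => a * p.1 k)) := by fun_prop
  have mg2 : Measurable (fun p : (Fin M → ℝ) × (Fin M → ℝ) =>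
      (fun k => b * (lam * p.1 k + sq * p.2 k))) := by fun_prop
  have mA' : MeasurableSet A' := (mg1 mS1).inter (mg2 mS2)
  have mW' : MeasurableSet W' := by
    have c1 : MeasurableSet {p : (Fin M → ℝ) × (Fin M → ℝ) |
        nsq (fun k => a * p.1 k) ≤ r ^ 2 * N} :=
      measurableSet_le (Continuous.measurable (by unfold nsq; fun_prop)) measurable_const
    have c2 : MeasurableSet {p : (Fin M → ℝ) × (Fin M → ℝ) |
        nsq (fun k => b * (lam * p.1 k + sq * p.2 k)) ≤ r ^ 2 * N} :=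
      measurableSet_le (Continuous.measurable (by unfold nsq; fun_prop)) measurable_const
    exact c1.inter c2
  have q1 : ∀ x : Fin M → ℝ, qC c (fun k => a * x k) = fun k => a * qC c x k := by
    intro x
    funext k
    have := qC_lin c a 0 x x k
    simpa using this
  have q2 : ∀ x y : Fin M → ℝ, qC c (fun k => b * (lam * x k + sq * y k))
      = fun k => b * (lam * qC c x k + sq * qC c y k) := by
    intro x y
    funext k
    have e1 : (fun k => b * (lam * x k + sq * y k)) = fun k => (b * lam) * x k + (b * sq) * y k := by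
      funext k; ring
    rw [e1, qC_lin c (b * lam) (b * sq) x y k]
    ring
  have p1 : ∀ x : Fin M → ℝ, pC c (fun k => a * x k) = fun k => a * pC c x k := by
    intro x
    funext k
    have := pC_lin c a 0 x x k
    simpa using this
  have p2 : ∀ x y : Fin M → ℝ, pC c (fun k => b * (lam * x k + sq * y k))
      = fun k => b * (lam * pC c x k + sq * pC c y k) := by
    intro x y
    funext k
    have e1 : (fun k => b * (lam * x k + sq * y k)) = fun k => (b * lam) * x k + (b * sq) * y k := by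
      funext k; ring
    rw [e1, pC_lin c (b * lam) (b * sq) x y k]
    ring
  have hA1 : {p : (Fin M → ℝ) × (Fin M → ℝ) | qC c (fun k => a * p.1 k) ∈ S1 ∧
      qC c (fun k => b * (lam * p.1 k + sq * p.2 k)) ∈ S2} = {p | (qC c p.1, qC c p.2) ∈ A'} := by
    ext p
    simp only [Set.mem_ofPred_eq, hA', q1, q2]
  have hW1 : {p : (Fin M → ℝ) × (Fin M → ℝ) | nsq (pC c fun k => a * p.1 k) ≤ r ^ 2 * N ∧
      nsq (pC c fun k => b * (lam * p.1 k + sq * p.2 k)) ≤ r ^ 2 * N}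
      = {p | (pC c p.1, pC c p.2) ∈ W'} := by
    ext p
    simp only [Set.mem_ofPred_eq, hW', p1, p2]
  have hNr : (0 : ℝ) < r ^ 2 * N := by
    have : (0 : ℝ) < N := by exact_mod_cast hN
    positivity
  have hwin := win_two (M := M) (c := c) hC.orth (a := a) (b := b) (lam := lam) hlam hNr hK
  rw [← hsq, hW1] at hwin
  have hind := indep_two (c := c) hC.orth mA' mW'
  rw [← hμ] at hind hwin
  have hstep2 : μ.real {p | (qC c p.1, qC c p.2) ∈ A'}
      ≤ 2 * μ.real {p | (qC c p.1, qC c p.2) ∈ A' ∧ (pC c p.1, pC c p.2) ∈ W'} := by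
    rw [← hind]
    have := mul_le_mul_of_nonneg_left hwin
      (measureReal_nonneg : 0 ≤ μ.real {p | (qC c p.1, qC c p.2) ∈ A'})
    linarith
  -- the pointwise estimate
  set E0 := 2 * N * (|s| * (Real.sqrt (ε * C) + Real.sqrt CF * r)
        + L * (Real.sqrt δ + Real.sqrt ε + r) ^ 2) with hE0
  set Gf : Fin M → ℝ × ℝ → ℝ := fun k p =>
    Real.exp (s * FF κ 0 (qp ψ) (hh k) * (a * p.1 + b * (lam * p.1 + sq * p.2))
    - L * ((max 0 (kf κ ψ (hh k) - a * p.1)) ^ 2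
      + (max 0 (kf κ ψ (hh k) - b * (lam * p.1 + sq * p.2))) ^ 2)) with hGf
  have hGi : ∀ k, Integrable (Gf k) ((gaussianReal 0 1).prod (gaussianReal 0 1)) := fun k =>
    Qr_integrable s (kf κ ψ (hh k)) (FF κ 0 (qp ψ) (hh k)) a b lam hL
  have hint := pair_prod_integrable Gf hGi
  have hval := pair_prod Gf
  have hint' := hint.const_mul (Real.exp E0)
  have hmark := mul_meas_ge_le_integral_of_nonneg
    (μ := (gs (Fin M)).prod (gs (Fin M)))
    (ae_of_all _ fun p : (Fin M → ℝ) × (Fin M → ℝ) =>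
      mul_nonneg (Real.exp_pos E0).le (Finset.prod_nonneg fun k _ => (Real.exp_pos _).le))
    hint' 1
  have hsub : {p : (Fin M → ℝ) × (Fin M → ℝ) | (qC c p.1, qC c p.2) ∈ A' ∧
      (pC c p.1, pC c p.2) ∈ W'} ⊆
      {p | 1 ≤ Real.exp E0 * ∏ k, Gf k (p.1 k, p.2 k)} := by
    intro p hp
    obtain ⟨hpA, hpW⟩ := hp
    have hpA' : p ∈ {p : (Fin M → ℝ) × (Fin M → ℝ) | qC c (fun k => a * p.1 k) ∈ S1 ∧
      qC c (fun k => b * (lam * p.1 k + sq * p.2 k)) ∈ S2} := by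
      rw [hA1]; exact hpA
    have hpW' : p ∈ {p : (Fin M → ℝ) × (Fin M → ℝ) | nsq (pC c fun k => a * p.1 k) ≤ r ^ 2 * N ∧
      nsq (pC c fun k => b * (lam * p.1 k + sq * p.2 k)) ≤ r ^ 2 * N} := by
      rw [hW1]; exact hpW
    obtain ⟨u1, u2⟩ := ptw hC hε hw hδ hCC hCF hr hF hpA'.1 hpW'.1
    obtain ⟨v1, v2⟩ := ptw hC hε hw' hδ hCC hCF hr hF hpA'.2 hpW'.2
    show 1 ≤ Real.exp E0 * ∏ k, Gf k (p.1 k, p.2 k)
    rw [hGf]
    simp only
    rw [← Real.exp_sum, ← Real.exp_add]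
    apply Real.one_le_exp
    have e1 : ∑ k, (s * FF κ 0 (qp ψ) (hh k) * (a * p.1 k + b * (lam * p.1 k + sq * p.2 k))
        - L * ((max 0 (kf κ ψ (hh k) - a * p.1 k)) ^ 2
        + (max 0 (kf κ ψ (hh k) - b * (lam * p.1 k + sq * p.2 k))) ^ 2))
        = s * (∑ k, FF κ 0 (qp ψ) (hh k) * (a * p.1 k))
          + s * (∑ k, FF κ 0 (qp ψ) (hh k) * (b * (lam * p.1 k + sq * p.2 k)))
          - L * (nsq (fun k => max 0 (kf κ ψ (hh k) - a * p.1 k)))
          - L * (nsq (fun k => max 0 (kf κ ψ (hh k) - b * (lam * p.1 k + sq * p.2 k)))) := by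
      unfold nsq
      rw [Finset.mul_sum, Finset.mul_sum, Finset.mul_sum, Finset.mul_sum,
        ← Finset.sum_add_distrib, ← Finset.sum_sub_distrib, ← Finset.sum_sub_distrib]
      exact Finset.sum_congr rfl fun k _ => by ring
    rw [e1, hE0]
    have t1 : -(|s| * ((Real.sqrt (ε * C) + Real.sqrt CF * r) * N))
        ≤ s * (∑ k, FF κ 0 (qp ψ) (hh k) * (a * p.1 k)) := by
      have h5 := neg_abs_le (s * (∑ k, FF κ 0 (qp ψ) (hh k) * (a * p.1 k)))
      rw [abs_mul] at h5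
      have h6 := mul_le_mul_of_nonneg_left u2 (abs_nonneg s)
      linarith
    have t2 : -(|s| * ((Real.sqrt (ε * C) + Real.sqrt CF * r) * N))
        ≤ s * (∑ k, FF κ 0 (qp ψ) (hh k) * (b * (lam * p.1 k + sq * p.2 k))) := by
      have h5 := neg_abs_le (s * (∑ k, FF κ 0 (qp ψ) (hh k) * (b * (lam * p.1 k + sq * p.2 k))))
      rw [abs_mul] at h5
      have h6 := mul_le_mul_of_nonneg_left v2 (abs_nonneg s)
      linarith
    have t3 := mul_le_mul_of_nonneg_left u1 hL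
    have t4 := mul_le_mul_of_nonneg_left v1 hL
    nlinarith [t1, t2, t3, t4]
  have hstep3 : μ.real {p | (qC c p.1, qC c p.2) ∈ A' ∧ (pC c p.1, pC c p.2) ∈ W'}
      ≤ Real.exp E0 * ∏ k, Qr s L (kf κ ψ (hh k)) (FF κ 0 (qp ψ) (hh k)) a b lam := by
    have h5 := measureReal_mono (μ := μ) hsub
    rw [one_mul, integral_const_mul, hval] at hmark
    exact h5.trans hmark
  rw [hstep1, hA1]
  calc μ.real {p | (qC c p.1, qC c p.2) ∈ A'}
      ≤ 2 * μ.real {p | (qC c p.1, qC c p.2) ∈ A' ∧ (pC c p.1, pC c p.2) ∈ W'} := hstep2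
    _ ≤ 2 * (Real.exp E0 * ∏ k, Qr s L (kf κ ψ (hh k)) (FF κ 0 (qp ψ) (hh k)) a b lam) :=
        mul_le_mul_of_nonneg_left hstep3 (by norm_num)
    _ = _ := by ring

end Pool.Agent.IP49.LP
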