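import Pool.Agent.IP49.LMP
import Pool.Agent.IP49.LLaw
import Pool.Agent.IP49.LTr
import Pool.Agent.IP49.LUp
import Pool.Agent.IP49.RSA

/-!
IP49, part L, module LLowA: lower bound for the probability of `Ev w` given a good history.

PROOF. `t₀ = √(1-q)`, `0 < t₀ ≤ 1`, `t₀² = 1-q`, `F_k = FF κ 0 q (hh_k)`, `z_k = zf κ ψ (hh_k)`,
`t₀ F_k = Mi (z_k)`, `n ∈ span c`, `|n - F| ≤ √(εN)`. `ξ` of law `gs (Fin M)`.
(1) `trunc_good` with `S N`: the set `O' = {∀ k, z_k ≤ ξ_k; |P(ξ - t₀F)| ≤ 2√(K+1);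
|ξ| ≤ 2√(SN)}` has measure `≥ (1/2) ∏ Ph z_k`. (For `M = 0` all is trivial but `S N > 0` anyway.)
On `O'`: `|Pξ - t₀ n| ≤ |P(ξ - t₀F)| + t₀|P(F-n)| ≤ 2√(K+1) + √(εN) ≤ r√N` (`P n = n`), and
`|Pξ - t₀F| ≤ |P(ξ-t₀F)| + t₀|PF - F| ≤ r√N` (`F - PF = (1-P)(F-n)`, norm `≤ |F-n|`).
(2) `W = {|Pξ - t₀n| ≤ r√N}`, `D = {x : |[κ - hh - (1-q)F - t₀x]_+| ≤ r√N, |x| ≤ 2√(SN)}`. On `O'`
`κ - hh - (1-q)F - t₀ (1-P)ξ = (κ - hh - t₀ξ) + t₀(Pξ - t₀F)`, first bracket `≤ 0`
(`ξ_k ≥ z_k = (κ-hh_k)/t₀`), so `|[…]_+| ≤ t₀|Pξ - t₀F| ≤ r√N`, and `|(1-P)ξ| ≤ |ξ|`: `(1-P)ξ ∈ D`.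
`indep_one`: `gs{(1-P)ξ ∈ D} · gs(W) = gs{(1-P)ξ ∈ D, W} ≥ gs(O') ≥ (1/2)∏ Ph z_k`
(`W` is a condition on `Pξ`).
(3) `gs(W) ≤ exp(-t₀²|n|²/2 + t₀|n| r√N)`: on `W`, `<n,ξ> = <n,Pξ> ≥ t₀|n|² - |n| r√N`
(`dot_pC`, Cauchy-Schwarz), so `1_W ≤ exp(t₀<n,ξ> - t₀²|n|² + t₀|n| r√N)`; `int_exp_lin` with
`v = t₀n`. As `t₀ ≤ 1`: `gs{(1-P)ξ ∈ D} ≥ (1/2) exp((1-q)|n|²/2 - |n| r√N) ∏ Ph z_k`.
(4) If `(1-P)ξ ∈ D` and `mulv G (u w) = a ξ` then `Ev w`: by `form`
`κ - yv = [κ - hh - (1-q)F - t₀(1-P)ξ] - e_w - (a-t₀)(1-P)ξ`, so `|[κ-yv]_+| ≤ r√N + √(εN) +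
|a-t₀| 2√(SN) ≤ √(δN)` by `hδ2`, and `nsq((1-P) aξ) = a²|(1-P)ξ|² ≤ 4a²S N ≤ C N`.
`law_one`: `(GM).real (Ev w) = gs{ξ : the corresponding condition on a ξ} ≥ gs{(1-P)ξ ∈ D}`
(`Ev_meas`; all sets are measurable because they are closed conditions on continuous functions).
-/

set_option autoImplicit false
open MeasureTheory ProbabilityTheory Filter Topology

namespace Pool.Agent.IP49.LP

private theorem lowA_pC_le {K M : ℕ} {c : Fin K → Fin M → ℝ}
    (ho : ∀ i j, ∑ a, c i a * c j a = if i = j then (1 : ℝ) else 0) (x : Fin M → ℝ) :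
    Real.sqrt (nsq (pC c x)) ≤ Real.sqrt (nsq x) := by
  apply Real.sqrt_le_sqrt
  have h1 := nsq_split ho x
  have h2 := nsq_nonneg (qC c x)
  linarith

private theorem lowA_qC_le {K M : ℕ} {c : Fin K → Fin M → ℝ}
    (ho : ∀ i j, ∑ a, c i a * c j a = if i = j then (1 : ℝ) else 0) (x : Fin M → ℝ) :
    Real.sqrt (nsq (qC c x)) ≤ Real.sqrt (nsq x) := by
  apply Real.sqrt_le_sqrt
  have h1 := nsq_split ho x
  have h2 := nsq_nonneg (pC c x)
  linarith

private theorem lowA_point {K M : ℕ} {c : Fin K → Fin M → ℝ}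
    (ho : ∀ i j, ∑ a, c i a * c j a = if i = j then (1 : ℝ) else 0) {n F z hh x : Fin M → ℝ}
    (hn : ∃ t : Fin K → ℝ, ∀ a, n a = ∑ j, t j * c j a) {κ t0 s1 s2 R : ℝ} (h0 : 0 < t0)
    (h1 : t0 ≤ 1) (hz : ∀ a, t0 * z a = κ - hh a) (hF : ∀ a, t0 * F a = Mi (z a))
    (hFn : Real.sqrt (nsq fun a => F a - n a) ≤ s1) (hx : ∀ a, z a ≤ x a)
    (hP : Real.sqrt (nsq (pC c fun a => x a - Mi (z a))) ≤ s2) (hR : s2 + s1 ≤ R) :
    Real.sqrt (nsq fun a => pC c x a - t0 * n a) ≤ R ∧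
    Real.sqrt (nsq fun a => max 0 (κ - hh a - t0 ^ 2 * F a - t0 * qC c x a)) ≤ R := by
  have hs1 : 0 ≤ s1 := le_trans (Real.sqrt_nonneg _) hFn
  have hs2 : 0 ≤ s2 := le_trans (Real.sqrt_nonneg _) hP
  have hlin : ∀ a, pC c (fun a => x a - Mi (z a)) a = pC c x a - t0 * pC c F a := by
    intro a
    have e : (fun a => x a - Mi (z a)) = fun a => 1 * x a + (-t0) * F a := by
      funext b
      have := hF b
      linarith
    rw [e, pC_lin]
    ring
  have hpn : ∀ a, pC c n a = n a := fun a => congrFun (pC_span ho hn) a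
  have hpF : ∀ a, pC c F a - n a = pC c (fun a => F a - n a) a := by
    intro a
    have e : (fun a => F a - n a) = fun a => 1 * F a + (-1) * n a := by
      funext b
      ring
    rw [e, pC_lin, hpn]
    ring
  have hqF : ∀ a, pC c F a - F a = (-1) * qC c (fun a => F a - n a) a := by
    intro a
    have := hpF a
    unfold qC
    rw [← this]
    ring
  -- first estimate
  have hA : Real.sqrt (nsq fun a => pC c x a - t0 * n a) ≤ R := by
    have e : (fun a => pC c x a - t0 * n a) =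
        fun a => pC c (fun a => x a - Mi (z a)) a + t0 * pC c (fun a => F a - n a) a := by
      funext a
      rw [hlin, ← hpF]
      ring
    rw [e]
    refine (en_add _ _).trans ?_
    rw [en_smul, abs_of_pos h0]
    have h2 := (lowA_pC_le ho (fun a => F a - n a)).trans hFn
    have h3 := Real.sqrt_nonneg (nsq (pC c fun a => F a - n a))
    nlinarith
  have hB : Real.sqrt (nsq fun a => pC c x a - t0 * F a) ≤ R := by
    have e : (fun a => pC c x a - t0 * F a) =
        fun a => pC c (fun a => x a - Mi (z a)) a + (-t0) * qC c (fun a => F a - n a) a := by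
      funext a
      have := hqF a
      rw [hlin]
      linear_combination t0 * this
    rw [e]
    refine (en_add _ _).trans ?_
    rw [en_smul, abs_neg, abs_of_pos h0]
    have h2 := (lowA_qC_le ho (fun a => F a - n a)).trans hFn
    have h3 := Real.sqrt_nonneg (nsq (qC c fun a => F a - n a))
    nlinarith
  refine ⟨hA, ?_⟩
  have e : (fun a => max 0 (κ - hh a - t0 ^ 2 * F a - t0 * qC c x a)) =
      fun a => max 0 ((κ - hh a - t0 * x a) + t0 * (pC c x a - t0 * F a)) := by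
    funext a
    congr 1
    unfold qC
    ring
  rw [e]
  refine (en_pos_add _ _).trans ?_
  have h0' : Real.sqrt (nsq fun a => max 0 (κ - hh a - t0 * x a)) = 0 := by
    have e2 : (fun a => max 0 (κ - hh a - t0 * x a)) = fun _ : Fin M => (0 : ℝ) := by
      funext a
      apply max_eq_left
      have h4 := hz a
      have h5 := mul_le_mul_of_nonneg_left (hx a) h0.le
      linarith
    rw [e2]
    unfold nsq
    simp
  rw [h0', en_smul, abs_of_pos h0, zero_add]
  have h3 := Real.sqrt_nonneg (nsq fun a => pC c x a - t0 * F a)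
  nlinarith

private theorem lowA_W {K M : ℕ} {c : Fin K → Fin M → ℝ}
    (ho : ∀ i j, ∑ a, c i a * c j a = if i = j then (1 : ℝ) else 0) {n : Fin M → ℝ}
    (hn : ∃ t : Fin K → ℝ, ∀ a, n a = ∑ j, t j * c j a) {t0 R : ℝ} (h0 : 0 < t0) :
    (gs (Fin M)).real {x | Real.sqrt (nsq fun a => pC c x a - t0 * n a) ≤ R} ≤
      Real.exp (-(t0 ^ 2 * nsq n / 2) + t0 * Real.sqrt (nsq n) * R) := by
  have : IsProbabilityMeasure (gs (Fin M)) := by unfold gs; infer_instance
  set W := {x : Fin M → ℝ | Real.sqrt (nsq fun a => pC c x a - t0 * n a) ≤ R} with hW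
  have hc : Continuous fun x : Fin M → ℝ => Real.sqrt (nsq fun a => pC c x a - t0 * n a) := by
    unfold nsq
    refine Real.continuous_sqrt.comp ?_
    refine continuous_finsetSum _ fun a _ => ?_
    exact ((((continuous_apply a).comp (continuous_pC c))).sub continuous_const).pow 2
  have hWm : MeasurableSet W := measurableSet_le hc.measurable measurable_const
  have hpt : ∀ x, W.indicator (fun _ => (1 : ℝ)) x ≤
      Real.exp (-(t0 ^ 2 * nsq n) + t0 * Real.sqrt (nsq n) * R) *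
        Real.exp (∑ a, (t0 * n a) * x a) := by
    intro x
    by_cases hx : x ∈ W
    · rw [Set.indicator_of_mem hx, ← Real.exp_add]
      apply Real.one_le_exp
      have h1 : ∑ a, n a * x a = ∑ a, n a * pC c x a := (dot_pC ho hn x).symm
      have h2 : ∑ a, n a * pC c x a = t0 * nsq n + ∑ a, n a * (pC c x a - t0 * n a) := by
        unfold nsq
        rw [Finset.mul_sum, ← Finset.sum_add_distrib]
        exact Finset.sum_congr rfl fun a _ => by ring
      have h3 := abs_dot_le n (fun a => pC c x a - t0 * n a)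
      have h4 := (abs_le.1 h3).1
      have h5 : Real.sqrt (nsq n) * Real.sqrt (nsq fun a => pC c x a - t0 * n a) ≤
          Real.sqrt (nsq n) * R := mul_le_mul_of_nonneg_left hx (Real.sqrt_nonneg _)
      have h6 : ∑ a, (t0 * n a) * x a = t0 * ∑ a, n a * x a := by
        rw [Finset.mul_sum]
        exact Finset.sum_congr rfl fun a _ => by ring
      rw [h6, h1, h2]
      have h7 : -(Real.sqrt (nsq n) * R) ≤ ∑ a, n a * (pC c x a - t0 * n a) := by linarith
      have h8 := mul_le_mul_of_nonneg_left h7 h0.le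
      nlinarith
    · rw [Set.indicator_of_notMem hx]
      positivity
  have hi := (integrable_exp_lin (M := M) fun a => t0 * n a).const_mul
    (Real.exp (-(t0 ^ 2 * nsq n) + t0 * Real.sqrt (nsq n) * R))
  have h1 : (gs (Fin M)).real W = ∫ x, W.indicator (fun _ => (1 : ℝ)) x ∂(gs (Fin M)) := by
    rw [integral_indicator hWm]
    simp
  rw [h1]
  refine (integral_mono ?_ hi hpt).trans ?_
  · exact (integrable_const (1 : ℝ)).indicator hWm
  · rw [integral_const_mul, int_exp_lin, ← Real.exp_add]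
    apply le_of_eq
    congr 1
    have h2 : (nsq fun a => t0 * n a) = t0 ^ 2 * nsq n := by
      unfold nsq
      rw [Finset.mul_sum]
      exact Finset.sum_congr rfl fun a _ => by ring
    rw [h2]
    ring

private theorem lowA_Ev {κ t0 ε a S r δ C : ℝ} {M : ℕ} {N : ℕ} {hh F e Q : Fin M → ℝ}
    (hD1 : Real.sqrt (nsq fun k => max 0 (κ - hh k - t0 ^ 2 * F k - t0 * Q k)) ≤
      r * Real.sqrt N) (hD2 : Real.sqrt (nsq Q) ≤ 2 * Real.sqrt (S * N))
    (hS : 0 < S) (hε : 0 ≤ ε) (hδ : 0 ≤ δ) (he : nsq e ≤ ε * N)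
    (hδ2 : r + Real.sqrt ε + |a - t0| * (2 * Real.sqrt S) ≤ Real.sqrt δ)
    (hCC : 4 * a ^ 2 * S ≤ C) :
    (nsq fun k => max 0 (κ - (hh k + t0 ^ 2 * F k + e k + a * Q k))) ≤ δ * N ∧
    (nsq fun k => a * Q k) ≤ C * N := by
  have hNN : (0 : ℝ) ≤ N := Nat.cast_nonneg N
  constructor
  · have e1 : (fun k => max 0 (κ - (hh k + t0 ^ 2 * F k + e k + a * Q k))) =
        fun k => max 0 ((κ - hh k - t0 ^ 2 * F k - t0 * Q k) +
          ((-1) * e k + (-(a - t0)) * Q k)) := by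
      funext k
      congr 1
      ring
    have h1 : Real.sqrt (nsq fun k => max 0 (κ - (hh k + t0 ^ 2 * F k + e k + a * Q k))) ≤
        Real.sqrt (δ * N) := by
      rw [e1]
      refine (en_pos_add _ _).trans ?_
      have h2 := en_add (fun k => (-1) * e k) (fun k => (-(a - t0)) * Q k)
      rw [en_smul, en_smul, abs_neg, abs_neg, abs_one, one_mul] at h2
      have h3 : Real.sqrt (nsq e) ≤ Real.sqrt ε * Real.sqrt N := by
        rw [← Real.sqrt_mul hε]
        exact Real.sqrt_le_sqrt he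
      have h4 : Real.sqrt (nsq Q) ≤ 2 * (Real.sqrt S * Real.sqrt N) := by
        rw [← Real.sqrt_mul hS.le]
        exact hD2
      have h5 := mul_le_mul_of_nonneg_left h4 (abs_nonneg (a - t0))
      have h6 := mul_le_mul_of_nonneg_right hδ2 (Real.sqrt_nonneg (N : ℝ))
      rw [Real.sqrt_mul hδ]
      nlinarith
    exact (Real.sqrt_le_sqrt_iff (mul_nonneg hδ hNN)).1 h1
  · have h2 : (nsq fun k => a * Q k) = a ^ 2 * nsq Q := by
      unfold nsq
      rw [Finset.mul_sum]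
      exact Finset.sum_congr rfl fun a _ => by ring
    rw [h2]
    have h3 : nsq Q ≤ 4 * (S * N) := by
      have h4 := pow_le_pow_left₀ (Real.sqrt_nonneg _) hD2 2
      rw [Real.sq_sqrt (nsq_nonneg Q), mul_pow, Real.sq_sqrt (mul_nonneg hS.le hNN)] at h4
      linarith
    have h5 := mul_le_mul_of_nonneg_left h3 (sq_nonneg a)
    have h6 := mul_le_mul_of_nonneg_right hCC hNN
    nlinarith

theorem low_w {κ ψ ε : ℝ} {K M N : ℕ} {h : Fin N → ℝ} {hh : Fin M → ℝ}
    {R : (Fin M → Fin N → ℝ) → Fin M → Fin N → ℝ} {c : Fin K → Fin M → ℝ} {n : Fin M → ℝ}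
    {u : (Fin N → Bool) → Fin N → ℝ} {e : (Fin N → Bool) → Fin M → ℝ}
    {T : Finset (Fin N → Bool)} (hψ : 0 < ψ) (hC : Cfg κ ψ ε h hh R c n u e T) (hN : 0 < N)
    (hε : 0 ≤ ε) {w : Fin N → Bool} (hw : w ∈ T) {a δ C S r : ℝ} (h1 : nsq (u w) = a ^ 2)
    (hδ : 0 ≤ δ) (hS : 0 < S)
    (hS2 : ∑ k, (1 + zf κ ψ (hh k) * Mi (zf κ ψ (hh k))) ≤ S * N) (hr : 0 < r)
    (hK : 2 * Real.sqrt (K + 1) + Real.sqrt (ε * N) ≤ r * Real.sqrt N)
    (hδ2 : r + Real.sqrt ε + |a - Real.sqrt (1 - qp ψ)| * (2 * Real.sqrt S) ≤ Real.sqrt δ)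
    (hCC : 4 * a ^ 2 * S ≤ C) :
    1 / 2 * Real.exp ((1 - qp ψ) * nsq n / 2 - Real.sqrt (nsq n) * r * Real.sqrt N) *
      ∏ k, Ph (zf κ ψ (hh k)) ≤ (GM M N).real (Ev κ δ C R c u w) := by
  have : IsProbabilityMeasure (gs (Fin M)) := by unfold gs; infer_instance
  have hNR : (0 : ℝ) < N := Nat.cast_pos.2 hN
  have hq0 : 0 < qp ψ := qp_pos hψ
  have hq1 : qp ψ < 1 := qp_lt_one
  set t0 := Real.sqrt (1 - qp ψ) with ht0
  have h0 : 0 < t0 := Real.sqrt_pos.2 (by linarith)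
  have h0sq : t0 ^ 2 = 1 - qp ψ := Real.sq_sqrt (by linarith)
  have h01 : t0 ≤ 1 := by
    rw [ht0]
    exact Real.sqrt_le_one.2 (by linarith)
  have hF : ∀ k, t0 * FF κ 0 (qp ψ) (hh k) = Mi (zf κ ψ (hh k)) := by
    intro k
    unfold FF zf tp
    rw [add_zero, ← ht0]
    field_simp
  have hz : ∀ k, t0 * zf κ ψ (hh k) = κ - hh k := by
    intro k
    unfold zf
    rw [← ht0]
    field_simp
  have hFn : Real.sqrt (nsq fun k => FF κ 0 (qp ψ) (hh k) - n k) ≤ Real.sqrt (ε * N) := by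
    apply Real.sqrt_le_sqrt
    refine le_trans (le_of_eq ?_) hC.near_n
    unfold nsq
    exact Finset.sum_congr rfl fun k _ => by ring
  have hSN : 0 < S * N := mul_pos hS hNR
  have htr := trunc_good hC.orth (fun k => zf κ ψ (hh k)) hSN hS2
  -- the sets
  set D : Set (Fin M → ℝ) := {Q | Real.sqrt (nsq fun k => max 0 (κ - hh k -
    t0 ^ 2 * FF κ 0 (qp ψ) (hh k) - t0 * Q k)) ≤ r * Real.sqrt N ∧
    Real.sqrt (nsq Q) ≤ 2 * Real.sqrt (S * N)} with hD
  set W : Set (Fin M → ℝ) := {P | Real.sqrt (nsq fun k => P k - t0 * n k) ≤ r * Real.sqrt N}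
    with hW
  have hDm : MeasurableSet D := by
    have c1 : Continuous fun Q : Fin M → ℝ => Real.sqrt (nsq fun k => max 0 (κ - hh k -
        t0 ^ 2 * FF κ 0 (qp ψ) (hh k) - t0 * Q k)) := by
      unfold nsq
      fun_prop
    have c2 : Continuous fun Q : Fin M → ℝ => Real.sqrt (nsq Q) := by
      unfold nsq
      fun_prop
    exact (measurableSet_le c1.measurable measurable_const).inter
      (measurableSet_le c2.measurable measurable_const)
  have hWm : MeasurableSet W := by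
    have c1 : Continuous fun P : Fin M → ℝ => Real.sqrt (nsq fun k => P k - t0 * n k) := by
      unfold nsq
      fun_prop
    exact measurableSet_le c1.measurable measurable_const
  have hsub : {x : Fin M → ℝ | (∀ a, zf κ ψ (hh a) ≤ x a) ∧
      nsq (pC c fun a => x a - Mi (zf κ ψ (hh a))) ≤ 4 * (K + 1) ∧ nsq x ≤ 4 * (S * N)} ⊆
      {x | qC c x ∈ D ∧ pC c x ∈ W} := by
    rintro x ⟨hx1, hx2, hx3⟩
    have hP : Real.sqrt (nsq (pC c fun a => x a - Mi (zf κ ψ (hh a)))) ≤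
        2 * Real.sqrt (K + 1) := by
      refine (Real.sqrt_le_sqrt hx2).trans (le_of_eq ?_)
      rw [Real.sqrt_mul (by norm_num : (0:ℝ) ≤ 4)]
      congr 1
      rw [show (4:ℝ) = 2 ^ 2 by norm_num]
      exact Real.sqrt_sq (by norm_num)
    have hp := lowA_point hC.orth hC.span (F := fun k => FF κ 0 (qp ψ) (hh k))
      (z := fun k => zf κ ψ (hh k)) (hh := hh) (x := x) h0 h01 hz hF hFn hx1 hP hK
    refine ⟨⟨hp.2, ?_⟩, hp.1⟩
    refine (lowA_qC_le hC.orth x).trans ((Real.sqrt_le_sqrt hx3).trans (le_of_eq ?_))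
    rw [Real.sqrt_mul (by norm_num : (0:ℝ) ≤ 4)]
    congr 1
    rw [show (4:ℝ) = 2 ^ 2 by norm_num]
    exact Real.sqrt_sq (by norm_num)
  have hind := indep_one hC.orth hDm hWm
  have hWle := lowA_W (c := c) hC.orth hC.span (R := r * Real.sqrt N) h0
  have hprod : 1 / 2 * ∏ k, Ph (zf κ ψ (hh k)) ≤
      (gs (Fin M)).real {x | qC c x ∈ D} * (gs (Fin M)).real {x | pC c x ∈ W} := by
    rw [hind]
    exact htr.trans (measureReal_mono hsub (measure_ne_top _ _))
  have hprod2 : 1 / 2 * ∏ k, Ph (zf κ ψ (hh k)) ≤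
      (gs (Fin M)).real {x | qC c x ∈ D} *
        Real.exp (-(t0 ^ 2 * nsq n / 2) + t0 * Real.sqrt (nsq n) * (r * Real.sqrt N)) :=
    hprod.trans (mul_le_mul_of_nonneg_left hWle measureReal_nonneg)
  -- lower bound for D
  have hprod3 : 1 / 2 * Real.exp ((1 - qp ψ) * nsq n / 2 - Real.sqrt (nsq n) * r * Real.sqrt N) *
      ∏ k, Ph (zf κ ψ (hh k)) ≤ (gs (Fin M)).real {x | qC c x ∈ D} := by
    have h2 := mul_le_mul_of_nonneg_right hprod2
      (Real.exp_pos ((1 - qp ψ) * nsq n / 2 - Real.sqrt (nsq n) * r * Real.sqrt N)).le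
    rw [mul_assoc ((gs (Fin M)).real {x | qC c x ∈ D}), ← Real.exp_add] at h2
    have h3 : Real.exp (-(t0 ^ 2 * nsq n / 2) + t0 * Real.sqrt (nsq n) * (r * Real.sqrt N) +
        ((1 - qp ψ) * nsq n / 2 - Real.sqrt (nsq n) * r * Real.sqrt N)) ≤ 1 := by
      rw [Real.exp_le_one_iff, h0sq]
      have h4 : 0 ≤ Real.sqrt (nsq n) * (r * Real.sqrt N) := by positivity
      have h7 := mul_le_mul_of_nonneg_right h01 h4
      linarith
    have h5 := mul_le_mul_of_nonneg_left h3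
      (measureReal_nonneg (μ := gs (Fin M)) (s := {x | qC c x ∈ D}))
    have h6 : 1 / 2 * Real.exp ((1 - qp ψ) * nsq n / 2 - Real.sqrt (nsq n) * r * Real.sqrt N) *
      ∏ k, Ph (zf κ ψ (hh k)) = 1 / 2 * (∏ k, Ph (zf κ ψ (hh k))) *
        Real.exp ((1 - qp ψ) * nsq n / 2 - Real.sqrt (nsq n) * r * Real.sqrt N) := by ring
    rw [h6]
    linarith
  refine hprod3.trans ?_
  -- transfer to the matrix
  set B : Set (Fin M → ℝ) := {y | (nsq fun k => max 0 (κ - (hh k +
    (1 - qp ψ) * FF κ 0 (qp ψ) (hh k) + e w k + qC c y k))) ≤ δ * N ∧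
    nsq (qC c y) ≤ C * N} with hB
  have hBm : MeasurableSet B := by
    have hq := continuous_qC c
    have c1 : Continuous fun y : Fin M → ℝ => nsq fun k => max 0 (κ - (hh k +
        (1 - qp ψ) * FF κ 0 (qp ψ) (hh k) + e w k + qC c y k)) := by
      unfold nsq
      fun_prop
    have c2 : Continuous fun y : Fin M → ℝ => nsq (qC c y) := by
      unfold nsq
      fun_prop
    exact (measurableSet_le c1.measurable measurable_const).inter
      (measurableSet_le c2.measurable measurable_const)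
  have hEv : Ev κ δ C R c u w = (fun G => mulv G (u w)) ⁻¹' B := by
    ext G
    simp only [Ev, Near, Set.mem_ofPred_eq, Set.mem_preimage, hB, nsq]
    simp only [hC.form w hw G]
  have hlaw := law_one (M := M) (u w) h1
  have hm1 : Measurable (fun G : Fin M → Fin N → ℝ => mulv G (u w)) :=
    (continuous_mulv (u w)).measurable
  have hm2 : Measurable (fun (x : Fin M → ℝ) k => a * x k) := by fun_prop
  have hEv2 : (GM M N).real (Ev κ δ C R c u w) =
      (gs (Fin M)).real ((fun (x : Fin M → ℝ) k => a * x k) ⁻¹' B) := by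
    rw [hEv, measureReal_def, measureReal_def, ← Measure.map_apply hm1 hBm, hlaw,
      Measure.map_apply hm2 hBm]
  rw [hEv2]
  refine measureReal_mono ?_ (measure_ne_top _ _)
  rintro x ⟨hx1, hx2⟩
  have herr : nsq (e w) ≤ ε * N := hC.err w hw
  have hev := lowA_Ev (a := a) (δ := δ) (C := C) (e := e w) hx1 hx2 hS hε hδ herr hδ2 hCC
  have hlin : ∀ k, qC c (fun k => a * x k) k = a * qC c x k := by
    intro k
    have := qC_lin c a 0 x x k
    simp only [zero_mul, add_zero] at this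
    exact this
  show (fun k => a * x k) ∈ B
  rw [hB, Set.mem_ofPred_eq]
  have hlin2 : qC c (fun k => a * x k) = fun k => a * qC c x k := funext hlin
  rw [hlin2]
  rw [h0sq] at hev
  exact hev

end Pool.Agent.IP49.LP
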