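import Pool.Agent.IP49.LLowA
import Pool.Agent.IP49.LSup

/-!
IP49, part L, module LLowB: the first moment lower bound on typical good histories.

PROOF. `t₀ = √(1-q)`, `α = al κ 0 ψ > 0`. Test functions for `hh` (all `QG`, by `logPh_ge`,
`logPh_nonpos`, `FF_le`, `Mi_le_abs`, continuity):
`f₁ x = log (Ph (zf κ ψ x))`, `f₂ x = FF κ 0 q x ^ 2`, `f₃ x = 1 + zf κ ψ x * Mi (zf κ ψ x)`.
`α GE f₂(√q ·) = ψ` (`al_EF2`), `α GE f₁(√q ·) = α GE log Ph (zz κ ψ ·)`.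
`S := max 0 (α GE f₃(√q ·)) + 1`, `C := 16 S`. Given `δ, η`. Let `dl ∈ (0,1]` be small (conditions
below). On `Yset κ 0 ψ [] [f₁,f₂,f₃] dl M N` (division by `N` in the definition; `N > 0`):
`∑ f₃(hh_k) ≤ S N`; `(ψ-dl)N ≤ nsq F ≤ (ψ+dl)N`; `∑ f₁(hh_k) ≥ N(α GE f₁ - dl)`, so
`∏ Ph(zf) = exp(∑ f₁) ≥ exp(N(α GE f₁ - dl))`.
`ε = dl`. `|n - F| ≤ √(dl N)` (`near_n`) gives
`(√(ψ-dl) - √dl)√N ≤ √(nsq n) ≤ (√(ψ+dl)+√dl)√N` (`en_add`), first factor `≥ 0` for small `dl`.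
`a := √(nsq (u w))`; `ovl` with `w = w'` and `ov w w = 1`: `|a² - (1-q)| ≤ dl`, so `a² ≤ 2`,
`4a²S ≤ 8S ≤ C`, `|a - t₀| ≤ dl/t₀`. `r := 2√dl`: `2√(K+1) + √(dl N) ≤ r√N` as soon as
`2√(K+1) ≤ √dl √N` (N large, K fixed). `hδ2`: `2√dl + √dl + (dl/t₀)·2√S ≤ √δ` for small `dl`.
`low_w`: probability `≥ (1/2) exp(N[(1-q)(√(ψ-dl)-√dl)²/2 - (√(ψ+1)+1)·2√dl + α GE f₁ - dl])`.
The bracket tends to `C0 κ ψ` as `dl → 0`: choose `dl` with bracket `≥ C0 - η/2`, then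
`1/2 ≥ exp(-Nη/2)` for `N` large.
-/

set_option autoImplicit false
open MeasureTheory ProbabilityTheory Filter Topology

namespace Pool.Agent.IP49.LP

theorem t0_pos (ψ : ℝ) : 0 < Real.sqrt (1 - qp ψ) :=
  Real.sqrt_pos.2 (by have := qp_lt_one (ψ := ψ); linarith)

/-- compositions with `zf` are of quadratic growth -/
theorem QG_zf {g : ℝ → ℝ} (hg : Continuous g) {A : ℝ} (hA : 0 ≤ A)
    (hb : ∀ u, |g u| ≤ A * (1 + u ^ 2)) (κ ψ : ℝ) : QG fun x => g (zf κ ψ x) := by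
  have ht := t0_pos ψ
  set t := Real.sqrt (1 - qp ψ) with htd
  refine ⟨hg.comp (by unfold zf; fun_prop), A * (1 + 2 * (1 + κ ^ 2) / t ^ 2), fun x => ?_⟩
  refine (hb _).trans ?_
  rw [mul_assoc]
  apply mul_le_mul_of_nonneg_left _ hA
  have h1 : zf κ ψ x ^ 2 = (κ - x) ^ 2 / t ^ 2 := by unfold zf; rw [div_pow]
  have h2 : (κ - x) ^ 2 ≤ 2 * (1 + κ ^ 2) * (1 + x ^ 2) := by
    nlinarith [sq_nonneg (κ + x), sq_nonneg (κ * x)]
  have h3 : (κ - x) ^ 2 / t ^ 2 ≤ 2 * (1 + κ ^ 2) * (1 + x ^ 2) / t ^ 2 :=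
    div_le_div_of_nonneg_right h2 (by positivity)
  have h4 : 2 * (1 + κ ^ 2) * (1 + x ^ 2) / t ^ 2 = 2 * (1 + κ ^ 2) / t ^ 2 * (1 + x ^ 2) := by ring
  rw [h1]
  nlinarith [sq_nonneg x]

theorem QG_f1 (κ ψ : ℝ) : QG fun x => Real.log (Ph (zf κ ψ x)) := by
  refine QG_zf (g := fun u => Real.log (Ph u)) (continuous_iff_continuousAt.2 fun x =>
    (hasDerivAt_logPh x).continuousAt) (A := 2) (by norm_num) (fun u => ?_) κ ψ
  rw [abs_of_nonpos (logPh_nonpos u)]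
  have := logPh_ge u
  nlinarith [sq_nonneg u]

theorem Mi_sq_le (u : ℝ) : Mi u ^ 2 ≤ 2 * (1 + u ^ 2) := by
  have h3 : Mi u ^ 2 ≤ (1 + |u|) ^ 2 := pow_le_pow_left₀ (Mi_pos u).le (Mi_le_abs u) 2
  have h4 := sq_abs u
  nlinarith [sq_nonneg (1 - |u|)]

theorem FF_zf (κ ψ x : ℝ) : FF κ 0 (qp ψ) x = Mi (zf κ ψ x) / Real.sqrt (1 - qp ψ) := by
  unfold FF tp zf; rw [add_zero]

theorem QG_f2 (κ ψ : ℝ) : QG fun x => FF κ 0 (qp ψ) x ^ 2 := by
  have ht := t0_pos ψ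
  have h := QG_zf (g := fun u => Mi u ^ 2 / Real.sqrt (1 - qp ψ) ^ 2)
    ((continuous_Mi.pow 2).div_const _) (A := 2 / Real.sqrt (1 - qp ψ) ^ 2) (by positivity)
    (fun u => by
      rw [abs_of_nonneg (by positivity), div_mul_eq_mul_div]
      exact div_le_div_of_nonneg_right (Mi_sq_le u) (by positivity)) κ ψ
  have e : (fun x => FF κ 0 (qp ψ) x ^ 2)
      = fun x => Mi (zf κ ψ x) ^ 2 / Real.sqrt (1 - qp ψ) ^ 2 := by
    funext x; rw [FF_zf, div_pow]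
  rw [e]
  exact h

theorem QG_f3 (κ ψ : ℝ) : QG fun x => 1 + zf κ ψ x * Mi (zf κ ψ x) := by
  refine QG_zf (g := fun u => 1 + u * Mi u)
    (continuous_const.add (continuous_id.mul continuous_Mi)) (A := 2) (by norm_num)
    (fun u => ?_) κ ψ
  have h1 := Mi_le_abs u
  have h2 := (Mi_pos u).le
  have h3 : |u * Mi u| ≤ |u| * (1 + |u|) := by
    rw [abs_mul, abs_of_nonneg h2]
    exact mul_le_mul_of_nonneg_left h1 (abs_nonneg u)
  have h4 := sq_abs u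
  calc |1 + u * Mi u| ≤ |(1 : ℝ)| + |u * Mi u| := abs_add_le _ _
    _ ≤ 1 + |u| * (1 + |u|) := by rw [abs_one]; linarith
    _ ≤ 2 * (1 + u ^ 2) := by nlinarith [sq_nonneg (1 - |u|)]

theorem low_typ {κ ψ : ℝ} (hψ : 0 < ψ) : ∃ C : ℝ, 0 ≤ C ∧ ∀ δ η : ℝ, 0 < δ → 0 < η →
    ∃ T2 : List (ℝ → ℝ), (∀ f ∈ T2, QG f) ∧ ∃ dl : ℝ, 0 < dl ∧ ∀ K : ℕ, ∀ᶠ N : ℕ in atTop,
      ∀ (M : ℕ) (h : Fin N → ℝ) (hh : Fin M → ℝ) (R : (Fin M → Fin N → ℝ) → Fin M → Fin N → ℝ)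
        (c : Fin K → Fin M → ℝ) (n : Fin M → ℝ) (u : (Fin N → Bool) → Fin N → ℝ)
        (e : (Fin N → Bool) → Fin M → ℝ) (T : Finset (Fin N → Bool)),
        Cfg κ ψ dl h hh R c n u e T → (h, hh) ∈ Yset κ 0 ψ [] T2 dl M N → ∀ w ∈ T,
          Real.exp ((C0 κ ψ - η) * N) ≤ (GM M N).real (Ev κ δ C R c u w) := by
  have hq1 := qp_lt_one (ψ := ψ)
  have hq0 := qp_pos hψ
  have hal : 0 < al κ 0 ψ := al_pos le_rfl hψ
  have ht0 := t0_pos ψ
  set t0 := Real.sqrt (1 - qp ψ) with ht0d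
  have ht02 : t0 ^ 2 = 1 - qp ψ := Real.sq_sqrt (by linarith)
  set A := al κ 0 ψ with hA
  set f1 : ℝ → ℝ := fun x => Real.log (Ph (zf κ ψ x)) with hf1
  set f2 : ℝ → ℝ := fun x => FF κ 0 (qp ψ) x ^ 2 with hf2
  set f3 : ℝ → ℝ := fun x => 1 + zf κ ψ x * Mi (zf κ ψ x) with hf3
  set g1 := A * GE (fun x => f1 (Real.sqrt (qp ψ) * x)) with hg1
  set g3 := A * GE (fun x => f3 (Real.sqrt (qp ψ) * x)) with hg3
  have hg2 : A * GE (fun x => f2 (Real.sqrt (qp ψ) * x)) = ψ := al_EF2 le_rfl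
  have hC0 : C0 κ ψ = (1 - qp ψ) * ψ / 2 + g1 := rfl
  set S := max 0 g3 + 1 with hS
  have hS1 : 1 ≤ S := by rw [hS]; linarith [le_max_left 0 g3]
  have hS3 : g3 + 1 ≤ S := by rw [hS]; linarith [le_max_right 0 g3]
  refine ⟨16 * S, by linarith, fun δ η hδ hη => ?_⟩
  -- the choice of `dl`
  have hb1 : Tendsto (fun x : ℝ => (1 - qp ψ) * (Real.sqrt (ψ - x) - Real.sqrt x) ^ 2 / 2
      - (Real.sqrt (ψ + 1) + 1) * (2 * Real.sqrt x) + g1 - x) (𝓝 0) (𝓝 (C0 κ ψ)) := by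
    have hc : Continuous (fun x : ℝ => (1 - qp ψ) * (Real.sqrt (ψ - x) - Real.sqrt x) ^ 2 / 2
      - (Real.sqrt (ψ + 1) + 1) * (2 * Real.sqrt x) + g1 - x) := by fun_prop
    have h := hc.tendsto 0
    simp only [sub_zero, Real.sqrt_zero, mul_zero, Real.sq_sqrt hψ.le] at h
    rw [hC0]
    exact h
  have hb2 : Tendsto (fun x : ℝ => 2 * Real.sqrt x + Real.sqrt x + x / t0 * (2 * Real.sqrt S))
      (𝓝 0) (𝓝 0) := by
    have hc : Continuous (fun x : ℝ => 2 * Real.sqrt x + Real.sqrt x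
      + x / t0 * (2 * Real.sqrt S)) := by fun_prop
    have h := hc.tendsto 0
    simpa using h
  have hsδ : 0 < Real.sqrt δ := Real.sqrt_pos.2 hδ
  have hev : ∀ᶠ x : ℝ in 𝓝 0, C0 κ ψ - η / 2 < (1 - qp ψ) * (Real.sqrt (ψ - x) - Real.sqrt x) ^ 2 / 2
      - (Real.sqrt (ψ + 1) + 1) * (2 * Real.sqrt x) + g1 - x ∧
      2 * Real.sqrt x + Real.sqrt x + x / t0 * (2 * Real.sqrt S) < Real.sqrt δ ∧
      x < min 1 (ψ / 2) :=
    (hb1.eventually (lt_mem_nhds (by linarith))).and ((hb2.eventually (gt_mem_nhds hsδ)).and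
      (gt_mem_nhds (by positivity)))
  obtain ⟨dl, ⟨hd1, hd2, hd3⟩, hd0⟩ :=
    ((hev.filter_mono (nhdsWithin_le_nhds (s := Set.Ioi 0))).and self_mem_nhdsWithin).exists
  have hdl0 : 0 < dl := hd0
  have hdl1 : dl ≤ 1 := (hd3.le.trans (min_le_left _ _))
  have hdlψ : dl ≤ ψ / 2 := (hd3.le.trans (min_le_right _ _))
  have hsdl : 0 < Real.sqrt dl := Real.sqrt_pos.2 hdl0
  refine ⟨[f1, f2, f3], ?_, dl, hdl0, fun K => ?_⟩
  · intro f hf
    simp only [List.mem_cons, List.not_mem_nil, or_false] at hf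
    rcases hf with rfl | rfl | rfl
    · exact QG_f1 κ ψ
    · exact QG_f2 κ ψ
    · exact QG_f3 κ ψ
  -- large `N`
  have hsqN : Tendsto (fun N : ℕ => Real.sqrt (N : ℝ)) atTop atTop :=
    Real.tendsto_sqrt_atTop.comp tendsto_natCast_atTop_atTop
  have e1 : ∀ᶠ N : ℕ in atTop, 2 * Real.sqrt (K + 1) / Real.sqrt dl ≤ Real.sqrt (N : ℝ) :=
    hsqN.eventually (eventually_ge_atTop _)
  have e2 : ∀ᶠ N : ℕ in atTop, 2 / η ≤ (N : ℝ) :=
    tendsto_natCast_atTop_atTop.eventually (eventually_ge_atTop _)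
  filter_upwards [e1, e2, eventually_gt_atTop 0] with N e1 e2 hN
  intro M h hh R c n u e T hC hY w hw
  have hN0 : (0 : ℝ) < N := by exact_mod_cast hN
  have hsN : 0 < Real.sqrt (N : ℝ) := Real.sqrt_pos.2 hN0
  have hsN2 : Real.sqrt (N : ℝ) * Real.sqrt (N : ℝ) = N := Real.mul_self_sqrt hN0.le
  -- the averages
  have hT := hY.2
  have ha1 := hT f1 (by simp)
  have ha2 := hT f2 (by simp)
  have ha3 := hT f3 (by simp)
  rw [abs_le] at ha1 ha2 ha3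
  have hS2 : ∑ k, (1 + zf κ ψ (hh k) * Mi (zf κ ψ (hh k))) ≤ S * N := by
    have h1 : (∑ a, f3 (hh a)) / N ≤ S := by
      have h2 := ha3.2
      have h3 : (∑ a, f3 ((h, hh).2 a)) / (N : ℝ) ≤ g3 + dl := by linarith
      exact h3.trans (by linarith)
    rwa [div_le_iff₀ hN0] at h1
  have hF1 : (ψ - dl) * N ≤ nsq fun a => FF κ 0 (qp ψ) (hh a) := by
    have h2 := ha2.1
    rw [hg2] at h2
    have h3 : ψ - dl ≤ (∑ a, f2 ((h, hh).2 a)) / (N : ℝ) := by linarith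
    rw [le_div_iff₀ hN0] at h3
    exact h3
  have hF2 : (nsq fun a => FF κ 0 (qp ψ) (hh a)) ≤ (ψ + dl) * N := by
    have h2 := ha2.2
    rw [hg2] at h2
    have h3 : (∑ a, f2 ((h, hh).2 a)) / (N : ℝ) ≤ ψ + dl := by linarith
    rw [div_le_iff₀ hN0] at h3
    exact h3
  have hL : N * (g1 - dl) ≤ ∑ a, f1 (hh a) := by
    have h2 := ha1.1
    have h3 : g1 - dl ≤ (∑ a, f1 ((h, hh).2 a)) / (N : ℝ) := by linarith
    rw [le_div_iff₀ hN0] at h3
    rw [mul_comm]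
    exact h3
  have hprod : Real.exp (N * (g1 - dl)) ≤ ∏ k, Ph (zf κ ψ (hh k)) := by
    have h2 : ∏ k, Ph (zf κ ψ (hh k)) = Real.exp (∑ a, f1 (hh a)) := by
      rw [Real.exp_sum]
      apply Finset.prod_congr rfl
      intro k _
      simp only [hf1]
      rw [Real.exp_log (Ph_pos _)]
    rw [h2]
    exact Real.exp_le_exp.2 hL
  -- the norm of `n`
  have hnF : Real.sqrt (nsq fun a => n a - FF κ 0 (qp ψ) (hh a)) ≤ Real.sqrt dl * Real.sqrt N := by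
    rw [← Real.sqrt_mul hdl0.le]
    exact Real.sqrt_le_sqrt hC.near_n
  have hn1 : (Real.sqrt (ψ - dl) - Real.sqrt dl) * Real.sqrt N ≤ Real.sqrt (nsq n) := by
    have h2 : Real.sqrt (nsq fun a => FF κ 0 (qp ψ) (hh a))
        ≤ Real.sqrt (nsq n) + Real.sqrt (nsq fun a => n a - FF κ 0 (qp ψ) (hh a)) := by
      have h3 := en_add n (fun a => (-1) * (n a - FF κ 0 (qp ψ) (hh a)))
      rw [en_smul] at h3
      simp only [abs_neg, abs_one, one_mul] at h3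
      refine le_trans (le_of_eq ?_) h3
      congr 2
      funext a
      ring
    have h4 : Real.sqrt (ψ - dl) * Real.sqrt N ≤ Real.sqrt (nsq fun a => FF κ 0 (qp ψ) (hh a)) := by
      rw [← Real.sqrt_mul (by linarith)]
      exact Real.sqrt_le_sqrt hF1
    rw [sub_mul]
    linarith
  have hn2 : Real.sqrt (nsq n) ≤ (Real.sqrt (ψ + 1) + 1) * Real.sqrt N := by
    have h2 : Real.sqrt (nsq n) ≤ Real.sqrt (nsq fun a => FF κ 0 (qp ψ) (hh a))
        + Real.sqrt (nsq fun a => n a - FF κ 0 (qp ψ) (hh a)) := by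
      have h3 := en_add (fun a => FF κ 0 (qp ψ) (hh a)) (fun a => n a - FF κ 0 (qp ψ) (hh a))
      refine le_trans (le_of_eq ?_) h3
      congr 2
      funext a
      ring
    have h4 : Real.sqrt (nsq fun a => FF κ 0 (qp ψ) (hh a)) ≤ Real.sqrt (ψ + 1) * Real.sqrt N := by
      rw [← Real.sqrt_mul (by linarith)]
      apply Real.sqrt_le_sqrt
      refine hF2.trans ?_
      exact mul_le_mul_of_nonneg_right (by linarith) hN0.le
    have h5 : Real.sqrt dl ≤ 1 := by rw [Real.sqrt_le_one]; exact hdl1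
    have h6 := mul_le_mul_of_nonneg_right h5 hsN.le
    rw [add_mul, one_mul]
    linarith
  have hfirst : 0 ≤ Real.sqrt (ψ - dl) - Real.sqrt dl :=
    sub_nonneg.2 (Real.sqrt_le_sqrt (by linarith))
  have hn3 : (Real.sqrt (ψ - dl) - Real.sqrt dl) ^ 2 * N ≤ nsq n := by
    have h2 := pow_le_pow_left₀ (mul_nonneg hfirst hsN.le) hn1 2
    rw [Real.sq_sqrt (nsq_nonneg n), mul_pow, Real.sq_sqrt hN0.le] at h2
    exact h2
  -- the norm of `u w`
  set a := Real.sqrt (nsq (u w)) with ha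
  have ha0 : 0 ≤ a := Real.sqrt_nonneg _
  have haa : nsq (u w) = a ^ 2 := (Real.sq_sqrt (nsq_nonneg _)).symm
  have hov : ov w w = 1 := by
    unfold ov
    have h2 : ∀ i, sgn (w i) * sgn (w i) = 1 := by
      intro i; unfold sgn; split_ifs <;> norm_num
    rw [Finset.sum_congr rfl fun i _ => h2 i]
    simp only [Finset.sum_const, Finset.card_univ, Fintype.card_fin, nsmul_eq_mul, mul_one]
    exact div_self hN0.ne'
  have hovl := hC.ovl w hw w hw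
  have hnu : ∑ i, u w i * u w i = a ^ 2 := by
    rw [← haa]; unfold nsq; exact Finset.sum_congr rfl fun i _ => (sq _).symm
  rw [hov, hnu, ← ht02, abs_le] at hovl
  have ha2' : a ^ 2 ≤ 2 := by
    have : t0 ^ 2 ≤ 1 := by rw [ht02]; linarith
    linarith [hovl.2]
  have hat : |a - t0| ≤ dl / t0 := by
    rw [le_div_iff₀ ht0]
    have h2 : |a - t0| * t0 ≤ |a - t0| * (a + t0) :=
      mul_le_mul_of_nonneg_left (by linarith) (abs_nonneg _)
    have h3 : |a - t0| * (a + t0) = |a ^ 2 - t0 ^ 2| := by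
      have h5 : a ^ 2 - t0 ^ 2 = (a - t0) * (a + t0) := by ring
      rw [h5, abs_mul, abs_of_nonneg (show 0 ≤ a + t0 by linarith)]
    have h4 : |a ^ 2 - t0 ^ 2| ≤ dl := by
      rw [abs_le]; constructor <;> linarith [hovl.1, hovl.2]
    linarith
  have key := low_w (r := 2 * Real.sqrt dl) (δ := δ) (C := 16 * S) (S := S) hψ hC hN hdl0.le hw
    haa hδ.le (by linarith) hS2 (by positivity)
    (by
      rw [Real.sqrt_mul hdl0.le]
      rw [div_le_iff₀ hsdl] at e1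
      linarith)
    (by
      have h2 := mul_le_mul_of_nonneg_right hat (show 0 ≤ 2 * Real.sqrt S by positivity)
      rw [← ht0d]
      linarith)
    (by nlinarith)
  refine le_trans ?_ key
  -- comparison of exponents
  have hhalf : Real.exp (-(N * (η / 2))) ≤ 1 / 2 := by
    rw [Real.exp_neg, inv_le_comm₀ (Real.exp_pos _) (by norm_num)]
    have h2 := Real.add_one_le_exp (N * (η / 2))
    rw [div_le_iff₀ hη] at e2
    norm_num
    linarith
  have hexp1 : (1 - qp ψ) * nsq n / 2 - Real.sqrt (nsq n) * (2 * Real.sqrt dl) * Real.sqrt N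
      ≥ N * ((1 - qp ψ) * (Real.sqrt (ψ - dl) - Real.sqrt dl) ^ 2 / 2
        - (Real.sqrt (ψ + 1) + 1) * (2 * Real.sqrt dl)) := by
    have h2 : Real.sqrt (nsq n) * (2 * Real.sqrt dl) * Real.sqrt N
        ≤ (Real.sqrt (ψ + 1) + 1) * (2 * Real.sqrt dl) * N := by
      have h3 := mul_le_mul_of_nonneg_right hn2 (show 0 ≤ 2 * Real.sqrt dl * Real.sqrt N by positivity)
      calc Real.sqrt (nsq n) * (2 * Real.sqrt dl) * Real.sqrt N
          = Real.sqrt (nsq n) * (2 * Real.sqrt dl * Real.sqrt N) := by ring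
        _ ≤ (Real.sqrt (ψ + 1) + 1) * Real.sqrt N * (2 * Real.sqrt dl * Real.sqrt N) := h3
        _ = (Real.sqrt (ψ + 1) + 1) * (2 * Real.sqrt dl) * (Real.sqrt N * Real.sqrt N) := by ring
        _ = _ := by rw [hsN2]
    have h4 := mul_le_mul_of_nonneg_left hn3 (show 0 ≤ (1 - qp ψ) by linarith)
    linarith
  calc Real.exp ((C0 κ ψ - η) * N)
      ≤ Real.exp (-(N * (η / 2)) + N * ((1 - qp ψ) * (Real.sqrt (ψ - dl) - Real.sqrt dl) ^ 2 / 2
        - (Real.sqrt (ψ + 1) + 1) * (2 * Real.sqrt dl)) + N * (g1 - dl)) := by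
        apply Real.exp_le_exp.2
        have h2 := mul_le_mul_of_nonneg_left hd1.le hN0.le
        linarith
    _ = Real.exp (-(N * (η / 2))) * Real.exp (N * ((1 - qp ψ)
          * (Real.sqrt (ψ - dl) - Real.sqrt dl) ^ 2 / 2
        - (Real.sqrt (ψ + 1) + 1) * (2 * Real.sqrt dl))) * Real.exp (N * (g1 - dl)) := by
        rw [Real.exp_add, Real.exp_add]
    _ ≤ 1 / 2 * Real.exp ((1 - qp ψ) * nsq n / 2
          - Real.sqrt (nsq n) * (2 * Real.sqrt dl) * Real.sqrt N) *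
        ∏ k, Ph (zf κ ψ (hh k)) := by
        apply mul_le_mul _ hprod (Real.exp_pos _).le (by positivity)
        exact mul_le_mul hhalf (Real.exp_le_exp.2 hexp1) (Real.exp_pos _).le (by norm_num)

end Pool.Agent.IP49.LP
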