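import Pool.Agent.IP49.Defs

/-!
# IP49, part S1: the standard Gaussian vector and its images under co-isometries

`gv ι` is the law of a standard Gaussian vector indexed by `ι`; `gm ι κ` is the law of a
standard Gaussian matrix (rows indexed by `ι`, columns by `κ`).
-/

set_option autoImplicit false
open MeasureTheory ProbabilityTheory

namespace Pool.Agent.IP49.SR

/-- law of a standard Gaussian vector indexed by a finite type -/
noncomputable def gv (ι : Type*) [Fintype ι] : Measure (ι → ℝ) :=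
  Measure.pi fun _ => gaussianReal 0 1

instance gv_prob (ι : Type*) [Fintype ι] : IsProbabilityMeasure (gv ι) := by
  unfold gv; infer_instance

/-- law of a standard Gaussian matrix with rows `ι` and columns `κ` -/
noncomputable def gm (ι κ : Type*) [Fintype ι] [Fintype κ] : Measure (ι → κ → ℝ) :=
  Measure.pi fun _ => gv κ

instance gm_prob (ι κ : Type*) [Fintype ι] [Fintype κ] : IsProbabilityMeasure (gm ι κ) := by
  unfold gm; infer_instance

theorem gm_eq_GM (M N : ℕ) : gm (Fin M) (Fin N) = GM M N := rfl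

/-- A linear map `A` with `A Aᵀ = 1` maps the standard Gaussian law to the standard Gaussian law. -/
theorem gv_map_coisom {ι κ : Type*} [Fintype ι] [Fintype κ] (A : κ → ι → ℝ)
    (hA : ∀ t : κ → ℝ, ∑ i, (∑ k, t k * A k i) ^ 2 = ∑ k, t k ^ 2) :
    (gv ι).map (fun x k => ∑ i, A k i * x i) = gv κ := by
  rw [← (MeasurableEquiv.toLp 2 (κ → ℝ)).map_measurableEquiv_injective.eq_iff]
  have h1 : (gv κ).map (MeasurableEquiv.toLp 2 (κ → ℝ)) = stdGaussian (EuclideanSpace ℝ κ) :=
    map_pi_eq_stdGaussian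
  have h2 : (gv ι).map (MeasurableEquiv.toLp 2 (ι → ℝ)) = stdGaussian (EuclideanSpace ℝ ι) :=
    map_pi_eq_stdGaussian
  rw [h1, Measure.map_map (MeasurableEquiv.measurable _) (by fun_prop)]
  apply Measure.ext_of_charFun (E := EuclideanSpace ℝ κ)
  ext t
  rw [charFun_stdGaussian]
  set s : EuclideanSpace ℝ ι := WithLp.toLp 2 (fun i => ∑ k, t k * A k i) with hs
  have h3 := charFun_stdGaussian s
  rw [← h2, charFun_apply, integral_map (by fun_prop) (by fun_prop)] at h3
  have hm : Measurable ((MeasurableEquiv.toLp 2 (κ → ℝ)) ∘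
      fun (x : ι → ℝ) (k : κ) => ∑ i, A k i * x i) :=
    (MeasurableEquiv.measurable _).comp (by fun_prop)
  rw [charFun_apply, integral_map hm.aemeasurable (by fun_prop)]
  have hn : ‖s‖ ^ 2 = ‖t‖ ^ 2 := by
    rw [EuclideanSpace.real_norm_sq_eq, EuclideanSpace.real_norm_sq_eq, hs]
    exact hA t.ofLp
  rw [← Complex.ofReal_pow, ← hn, Complex.ofReal_pow, ← h3]
  refine integral_congr_ae (Filter.Eventually.of_forall fun x => ?_)
  have : inner ℝ ((MeasurableEquiv.toLp 2 (κ → ℝ)) ((fun x k => ∑ i, A k i * x i) x)) t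
      = inner ℝ ((MeasurableEquiv.toLp 2 (ι → ℝ)) x) s := by
    rw [hs, PiLp.inner_apply, PiLp.inner_apply]
    simp only [MeasurableEquiv.coe_toLp, RCLike.inner_apply, conj_trivial]
    simp_rw [Finset.mul_sum, Finset.sum_mul]
    rw [Finset.sum_comm]
    refine Finset.sum_congr rfl fun i _ => Finset.sum_congr rfl fun k _ => by ring
  simp only [Function.comp_apply]
  rw [this]

/-- One row: a fresh Gaussian number in the direction `r` and an independent Gaussian vector
projected orthogonally to `r` make a standard Gaussian vector. -/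
theorem row_law {N : ℕ} (r : Fin N → ℝ) (hr : ∑ i, r i ^ 2 = 1) :
    ((gaussianReal 0 1).prod (gv (Fin N))).map
      (fun p : ℝ × (Fin N → ℝ) => fun i => p.1 * r i + (p.2 i - (∑ j, p.2 j * r j) * r i))
      = gv (Fin N) := by
  have h1 := measurePreserving_piFinSuccAbove (fun _ : Fin (N + 1) => gaussianReal 0 1) 0
  have h2 : (gaussianReal 0 1).prod (gv (Fin N)) = (gv (Fin (N + 1))).map
      (MeasurableEquiv.piFinSuccAbove (fun _ => ℝ) 0) := h1.map_eq.symm
  rw [h2, Measure.map_map (by fun_prop) (MeasurableEquiv.measurable _)]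
  set A : Fin N → Fin (N + 1) → ℝ := fun i =>
    Fin.cons (r i) (fun j => (if j = i then 1 else 0) - r j * r i) with hA
  have h3 : ((fun p : ℝ × (Fin N → ℝ) => fun i => p.1 * r i +
      (p.2 i - (∑ j, p.2 j * r j) * r i)) ∘
      (MeasurableEquiv.piFinSuccAbove (fun _ => ℝ) 0 : (Fin (N + 1) → ℝ) ≃ᵐ ℝ × (Fin N → ℝ)))
      = fun x i => ∑ k, A i k * x k := by
    funext x i
    simp only [Function.comp_apply, MeasurableEquiv.piFinSuccAbove, MeasurableEquiv.coe_mk,
      Fin.insertNthEquiv, Equiv.coe_fn_symm_mk, Fin.removeNth, Fin.zero_succAbove]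
    rw [Fin.sum_univ_succ]
    simp only [hA, Fin.cons_zero, Fin.cons_succ, sub_mul, ite_mul, one_mul, zero_mul]
    rw [Finset.sum_sub_distrib, Finset.sum_ite_eq' Finset.univ i]
    simp only [Finset.mem_univ, if_true]
    rw [Finset.sum_mul]
    congr 1
    · ring
    · congr 1
      exact Finset.sum_congr rfl fun j _ => by ring
  rw [h3]
  apply gv_map_coisom
  intro t
  rw [Fin.sum_univ_succ]
  simp only [hA, Fin.cons_zero, Fin.cons_succ, mul_sub, mul_ite, mul_one, mul_zero]
  have h4 : ∀ j : Fin N, (∑ k, ((if j = k then t k else 0) - t k * (r j * r k)))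
      = t j - r j * ∑ k, t k * r k := by
    intro j
    rw [Finset.sum_sub_distrib, Finset.sum_ite_eq Finset.univ j, if_pos (Finset.mem_univ _),
      Finset.mul_sum]
    congr 1
    exact Finset.sum_congr rfl fun k _ => by ring
  simp_rw [h4]
  obtain ⟨S, hS⟩ : ∃ S, S = ∑ k, t k * r k := ⟨_, rfl⟩
  rw [← hS]
  have h5 : ∑ j, (t j - r j * S) ^ 2
      = ∑ j, t j ^ 2 - 2 * S * (∑ k, t k * r k) + S ^ 2 * ∑ j, r j ^ 2 := by
    rw [Finset.mul_sum (s := Finset.univ) (a := 2 * S), Finset.mul_sum (a := S ^ 2),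
      ← Finset.sum_sub_distrib, ← Finset.sum_add_distrib]
    exact Finset.sum_congr rfl fun j _ => by ring
  rw [h5, hr, ← hS]; ring

/-- transposition preserves the law of a standard Gaussian matrix -/
theorem gm_transpose (ι κ : Type*) [Fintype ι] [Fintype κ] :
    MeasurePreserving (fun (H : ι → κ → ℝ) (j : κ) (a : ι) => H a j) (gm ι κ) (gm κ ι) := by
  have hT : Measurable (fun (H : ι → κ → ℝ) (j : κ) (a : ι) => H a j) := by fun_prop
  refine ⟨hT, ?_⟩
  have e1 : gm ι κ = (Measure.infinitePi fun _ : ι × κ => gaussianReal 0 1).map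
      (MeasurableEquiv.curry ι κ ℝ) := by
    rw [Measure.infinitePi_map_curry (fun (_ : ι) (_ : κ) => gaussianReal 0 1)]
    simp only [gm, gv, Measure.infinitePi_eq_pi]
  have e2 : gm κ ι = (Measure.infinitePi fun _ : κ × ι => gaussianReal 0 1).map
      (MeasurableEquiv.curry κ ι ℝ) := by
    rw [Measure.infinitePi_map_curry (fun (_ : κ) (_ : ι) => gaussianReal 0 1)]
    simp only [gm, gv, Measure.infinitePi_eq_pi]
  have e3 := Measure.infinitePi_map_piCongrLeft (μ := fun _ : κ × ι => gaussianReal 0 1)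
    (Equiv.prodComm ι κ)
  rw [e1, e2, ← e3, Measure.map_map hT (MeasurableEquiv.measurable _),
    Measure.map_map (MeasurableEquiv.measurable _) (MeasurableEquiv.measurable _)]
  congr 1

/-- reveal the column direction `r`: `x rᵀ + H (1 - r rᵀ)` -/
def colStep {ι κ : Type*} [Fintype κ] (r : κ → ℝ) (x : ι → ℝ) (H : ι → κ → ℝ) : ι → κ → ℝ :=
  fun a i => x a * r i + (H a i - (∑ j, H a j * r j) * r i)

/-- reveal the row direction `c`: `c yᵀ + (1 - c cᵀ) H` -/
def rowStep {ι κ : Type*} [Fintype ι] (c : ι → ℝ) (y : κ → ℝ) (H : ι → κ → ℝ) : ι → κ → ℝ :=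
  fun a i => y i * c a + (H a i - (∑ b, H b i * c b) * c a)

theorem colStep_law {ι : Type*} [Fintype ι] {N : ℕ} (r : Fin N → ℝ) (hr : ∑ i, r i ^ 2 = 1) :
    MeasurePreserving (fun p : (ι → ℝ) × (ι → Fin N → ℝ) => colStep r p.1 p.2)
      ((gv ι).prod (gm ι (Fin N))) (gm ι (Fin N)) := by
  have h0 : MeasurePreserving
      (fun p : ℝ × (Fin N → ℝ) => fun i => p.1 * r i + (p.2 i - (∑ j, p.2 j * r j) * r i))
      ((gaussianReal 0 1).prod (gv (Fin N))) (gv (Fin N)) := ⟨by fun_prop, row_law r hr⟩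
  have h1 := measurePreserving_arrowProdEquivProdArrow ℝ (Fin N → ℝ) ι
    (fun _ => gaussianReal 0 1) (fun _ => gv (Fin N))
  have h2 := measurePreserving_pi (fun _ : ι => (gaussianReal 0 1).prod (gv (Fin N)))
    (fun _ : ι => gv (Fin N)) (fun _ => h0)
  have h3 := h2.comp (h1.symm (MeasurableEquiv.arrowProdEquivProdArrow ℝ (Fin N → ℝ) ι))
  exact h3

theorem rowStep_law {κ : Type*} [Fintype κ] {M : ℕ} (c : Fin M → ℝ) (hc : ∑ i, c i ^ 2 = 1) :
    MeasurePreserving (fun p : (κ → ℝ) × (Fin M → κ → ℝ) => rowStep c p.1 p.2)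
      ((gv κ).prod (gm (Fin M) κ)) (gm (Fin M) κ) := by
  have h1 : MeasurePreserving (fun p : (κ → ℝ) × (κ → Fin M → ℝ) => colStep c p.1 p.2)
      ((gv κ).prod (gm κ (Fin M))) (gm κ (Fin M)) := colStep_law c hc
  have h2 := gm_transpose (Fin M) κ
  have h3 := gm_transpose κ (Fin M)
  have h4 : MeasurePreserving (Prod.map (id : (κ → ℝ) → (κ → ℝ))
      (fun (H : Fin M → κ → ℝ) (j : κ) (a : Fin M) => H a j))
      ((gv κ).prod (gm (Fin M) κ)) ((gv κ).prod (gm κ (Fin M))) :=
    (MeasurePreserving.id (gv κ)).prod h2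
  exact h3.comp (h1.comp h4)

end Pool.Agent.IP49.SR
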