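import Pool.Agent.IP49.LVec
import Pool.Agent.IP49.Law1

/-!
IP49, part L, module LMP: independence of `P_C ξ` and `(1 - P_C) ξ` for a standard Gaussian
vector, in the form of products of probabilities.

PROOFS. `split_indep`: `{x | Q x ∈ A ∧ P x ∈ W}` has the measure of its preimage under `S`, which is
`{x | Q x ∈ A} ×ˢ {y | P y ∈ W}` by `h1`, `h2`; `Measure.prod_prod` (or `measureReal_prod_prod`).
`proj_mp`: the map `(x, y) ↦ (1-P) x + P y` from `ℝ^(M+M)` to `ℝ^M` is a co-isometry: for
`t ∈ ℝ^M`, `|(1-P)t|² + |P t|² = |t|²` (`nsq_split`, `P` symmetric). Use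
`measurePreserving_sumPiEquivProdPi` (index type `Fin M ⊕ Fin M`) and `IP49.gv_map_coisom`
(or `Pool.Agent.IP49.gv_map_coisom` if Law1 has been moved to that namespace) with
`A k (inl i) = δ_ki - ∑_j c_j(k) c_j(i)`, `A k (inr i) = ∑_j c_j(k) c_j(i)`.
(`gs ι` and `gv ι` are the same measure, by `rfl`.)
`indep_one`: `split_indep` with `Q = qC c`, `P = pC c`, `S = ` the map of `proj_mp`; the
identities are `qC (qC x + pC y) = qC x`, `pC (qC x + pC y) = pC y` (LVec).
`indep_two`: the same with `X = (Fin M → ℝ) × (Fin M → ℝ)`, `S ((x,x'),(y,y')) =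
(qC x + pC y, qC x' + pC y')`: product of two copies of `proj_mp` after exchanging the middle
factors (`MeasurePreserving.prod`, cf. `prod_comm4` in Law2).
-/

set_option autoImplicit false
open MeasureTheory ProbabilityTheory Filter Topology

namespace Pool.Agent.IP49.LP

theorem split_indep {X : Type*} [MeasurableSpace X] {μ : Measure X} [IsProbabilityMeasure μ]
    (Q P : X → X) (S : X × X → X) (hQ : Measurable Q) (hP : Measurable P)
    (hS : MeasurePreserving S (μ.prod μ) μ) (h1 : ∀ x y, Q (S (x, y)) = Q x)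
    (h2 : ∀ x y, P (S (x, y)) = P y) {A W : Set X} (hA : MeasurableSet A)
    (hW : MeasurableSet W) :
    μ.real {x | Q x ∈ A} * μ.real {x | P x ∈ W} = μ.real {x | Q x ∈ A ∧ P x ∈ W} := by
  have hA' : MeasurableSet {x | Q x ∈ A} := hQ hA
  have hW' : MeasurableSet {x | P x ∈ W} := hP hW
  have hAW : MeasurableSet {x | Q x ∈ A ∧ P x ∈ W} := hA'.inter hW'
  have h3 : S ⁻¹' {x | Q x ∈ A ∧ P x ∈ W} = {x | Q x ∈ A} ×ˢ {x | P x ∈ W} := by
    ext p
    obtain ⟨x, y⟩ := p
    simp only [Set.mem_preimage, Set.mem_ofPred_eq, Set.mem_prod, h1, h2]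
  rw [measureReal_def (s := {x | Q x ∈ A ∧ P x ∈ W}), ← hS.measure_preimage hAW.nullMeasurableSet, h3,
    Measure.prod_prod, ENNReal.toReal_mul]
  rfl

theorem proj_mp {K M : ℕ} {c : Fin K → Fin M → ℝ}
    (ho : ∀ i j, ∑ a, c i a * c j a = if i = j then (1 : ℝ) else 0) :
    MeasurePreserving (fun p : (Fin M → ℝ) × (Fin M → ℝ) => fun a => qC c p.1 a + pC c p.2 a)
      ((gs (Fin M)).prod (gs (Fin M))) (gs (Fin M)) := by
  classical
  set A : Fin M → (Fin M ⊕ Fin M) → ℝ := fun k s =>
    Sum.elim (fun i => (if k = i then 1 else 0) - ∑ j, c j k * c j i) (fun i => ∑ j, c j k * c j i) s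
    with hA
  have hA' : ∀ t : Fin M → ℝ, ∑ s, (∑ k, t k * A k s) ^ 2 = ∑ k, t k ^ 2 := by
    intro t
    rw [Fintype.sum_sum_type]
    have e1 : ∀ i, ∑ k, t k * A k (Sum.inl i) = qC c t i := by
      intro i
      simp only [hA, Sum.elim_inl, qC, pC, mul_sub, Finset.sum_sub_distrib, mul_ite, mul_one,
        mul_zero, Finset.sum_ite_eq', Finset.mem_univ, if_true]
      congr 1
      simp only [Finset.mul_sum, Finset.sum_mul]
      rw [Finset.sum_comm]
      exact Finset.sum_congr rfl fun j _ => Finset.sum_congr rfl fun k _ => by ring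
    have e2 : ∀ i, ∑ k, t k * A k (Sum.inr i) = pC c t i := by
      intro i
      simp only [hA, Sum.elim_inr, pC]
      simp only [Finset.mul_sum, Finset.sum_mul]
      rw [Finset.sum_comm]
      exact Finset.sum_congr rfl fun j _ => Finset.sum_congr rfl fun k _ => by ring
    simp only [e1, e2]
    have h := nsq_split ho t
    unfold nsq at h
    linarith
  have h1 := SR.gv_map_coisom A hA'
  have hm : Measurable (fun (x : (Fin M ⊕ Fin M) → ℝ) k => ∑ i, A k i * x i) := by fun_prop
  have h2 : MeasurePreserving (fun (x : (Fin M ⊕ Fin M) → ℝ) k => ∑ i, A k i * x i)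
      (SR.gv (Fin M ⊕ Fin M)) (SR.gv (Fin M)) := ⟨hm, h1⟩
  have h3 := measurePreserving_sumPiEquivProdPi (fun _ : Fin M ⊕ Fin M => gaussianReal 0 1)
  have h4 := (h3.symm (MeasurableEquiv.sumPiEquivProdPi (fun _ : Fin M ⊕ Fin M => ℝ)))
  have h5 := h2.comp h4
  have e : (fun p : (Fin M → ℝ) × (Fin M → ℝ) => fun a => qC c p.1 a + pC c p.2 a)
      = (fun (x : (Fin M ⊕ Fin M) → ℝ) k => ∑ i, A k i * x i)
        ∘ (MeasurableEquiv.sumPiEquivProdPi (fun _ : Fin M ⊕ Fin M => ℝ)).symm := by
    funext p k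
    simp only [Function.comp_apply]
    rw [Fintype.sum_sum_type]
    have e3 : ∀ i, (MeasurableEquiv.sumPiEquivProdPi (fun _ : Fin M ⊕ Fin M => ℝ)).symm p (Sum.inl i)
        = p.1 i := fun i => rfl
    have e4 : ∀ i, (MeasurableEquiv.sumPiEquivProdPi (fun _ : Fin M ⊕ Fin M => ℝ)).symm p (Sum.inr i)
        = p.2 i := fun i => rfl
    simp only [e3, e4, hA, Sum.elim_inl, Sum.elim_inr]
    congr 1
    · simp only [qC, pC, sub_mul, Finset.sum_sub_distrib, ite_mul, one_mul, zero_mul,
        Finset.sum_ite_eq, Finset.mem_univ, if_true]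
      congr 1
      simp only [Finset.sum_mul]
      rw [Finset.sum_comm]
      exact Finset.sum_congr rfl fun j _ => Finset.sum_congr rfl fun k _ => by ring
    · simp only [pC]
      simp only [Finset.sum_mul]
      rw [Finset.sum_comm]
      exact Finset.sum_congr rfl fun j _ => Finset.sum_congr rfl fun k _ => by ring
  rw [e]
  exact h5

theorem indep_one {K M : ℕ} {c : Fin K → Fin M → ℝ}
    (ho : ∀ i j, ∑ a, c i a * c j a = if i = j then (1 : ℝ) else 0) {A W : Set (Fin M → ℝ)}
    (hA : MeasurableSet A) (hW : MeasurableSet W) :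
    (gs (Fin M)).real {x | qC c x ∈ A} * (gs (Fin M)).real {x | pC c x ∈ W} =
      (gs (Fin M)).real {x | qC c x ∈ A ∧ pC c x ∈ W} := by
  have : IsProbabilityMeasure (gs (Fin M)) := by unfold gs; infer_instance
  refine split_indep (qC c) (pC c) (fun p a => qC c p.1 a + pC c p.2 a)
    (continuous_qC c).measurable (continuous_pC c).measurable (proj_mp ho) ?_ ?_ hA hW
  · intro x y
    funext a
    have h := qC_lin c 1 1 (qC c x) (pC c y) a
    simp only [one_mul] at h
    rw [h, qC_qC ho, qC_pC ho]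
    simp
  · intro x y
    funext a
    have h := pC_lin c 1 1 (qC c x) (pC c y) a
    simp only [one_mul] at h
    rw [h, pC_qC ho, pC_idem ho]
    simp

theorem measurePreserving_swapMid {A B C D : Type*} [MeasurableSpace A] [MeasurableSpace B]
    [MeasurableSpace C] [MeasurableSpace D] (a : Measure A) (b : Measure B) (c : Measure C)
    (d : Measure D) [SFinite a] [SFinite b] [SFinite c] [SFinite d] :
    MeasurePreserving (fun q : (A × B) × (C × D) => ((q.1.1, q.2.1), (q.1.2, q.2.2)))
      ((a.prod b).prod (c.prod d)) ((a.prod c).prod (b.prod d)) := by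
  have h1 := measurePreserving_prodAssoc a b (c.prod d)
  have h2 := (measurePreserving_prodAssoc b c d).symm MeasurableEquiv.prodAssoc
  have h3 : MeasurePreserving (Prod.map Prod.swap id) ((b.prod c).prod d) ((c.prod b).prod d) :=
    Measure.measurePreserving_swap.prod (MeasurePreserving.id d)
  have h4 := measurePreserving_prodAssoc c b d
  have h5 := (MeasurePreserving.id a).prod ((h4.comp h3).comp h2)
  have h6 := (measurePreserving_prodAssoc a c (b.prod d)).symm MeasurableEquiv.prodAssoc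
  exact (h6.comp h5).comp h1

theorem indep_two {K M : ℕ} {c : Fin K → Fin M → ℝ}
    (ho : ∀ i j, ∑ a, c i a * c j a = if i = j then (1 : ℝ) else 0)
    {A W : Set ((Fin M → ℝ) × (Fin M → ℝ))} (hA : MeasurableSet A) (hW : MeasurableSet W) :
    ((gs (Fin M)).prod (gs (Fin M))).real {p | (qC c p.1, qC c p.2) ∈ A} *
      ((gs (Fin M)).prod (gs (Fin M))).real {p | (pC c p.1, pC c p.2) ∈ W} =
    ((gs (Fin M)).prod (gs (Fin M))).real
      {p | (qC c p.1, qC c p.2) ∈ A ∧ (pC c p.1, pC c p.2) ∈ W} := by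
  have : IsProbabilityMeasure (gs (Fin M)) := by unfold gs; infer_instance
  have hq := (continuous_qC c).measurable
  have hp := (continuous_pC c).measurable
  have hmp := (proj_mp ho).prod (proj_mp ho)
  have hcomm := measurePreserving_swapMid (gs (Fin M)) (gs (Fin M)) (gs (Fin M)) (gs (Fin M))
  refine split_indep (fun p : (Fin M → ℝ) × (Fin M → ℝ) => (qC c p.1, qC c p.2))
    (fun p => (pC c p.1, pC c p.2))
    ((Prod.map (fun p : (Fin M → ℝ) × (Fin M → ℝ) => fun a => qC c p.1 a + pC c p.2 a)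
      (fun p : (Fin M → ℝ) × (Fin M → ℝ) => fun a => qC c p.1 a + pC c p.2 a))
      ∘ fun q => ((q.1.1, q.2.1), (q.1.2, q.2.2)))
    ((hq.comp measurable_fst).prodMk (hq.comp measurable_snd))
    ((hp.comp measurable_fst).prodMk (hp.comp measurable_snd)) (hmp.comp hcomm) ?_ ?_ hA hW
  · rintro ⟨x, x'⟩ ⟨y, y'⟩
    have key : ∀ x y : Fin M → ℝ, qC c (fun a => qC c x a + pC c y a) = qC c x := by
      intro x y
      funext a
      have h := qC_lin c 1 1 (qC c x) (pC c y) a
      simp only [one_mul] at h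
      rw [h, qC_qC ho, qC_pC ho]
      simp
    simp only [Function.comp_apply, Prod.map, key]
  · rintro ⟨x, x'⟩ ⟨y, y'⟩
    have key : ∀ x y : Fin M → ℝ, pC c (fun a => qC c x a + pC c y a) = pC c y := by
      intro x y
      funext a
      have h := pC_lin c 1 1 (qC c x) (pC c y) a
      simp only [one_mul] at h
      rw [h, pC_qC ho, pC_idem ho]
      simp
    simp only [Function.comp_apply, Prod.map, key]

end Pool.Agent.IP49.LP
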