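import Pool.Agent.IP49.UTa

/-!
IP49, module UTb: splitting the rows of a Gaussian matrix.

`rowsL A` = the first `M₁` rows, `rowsR A` = the last `M₂` rows of an `(M₁ + M₂) × N` matrix.
PROOFS. `split_map`: `A ↦ (rowsL A, rowsR A)` maps `GM (M₁+M₂) N` to the product
(`finSumFinEquiv`, `MeasurableEquiv.sumPiEquivProdPi`, `measurePreserving_sumPiEquivProdPi`,
`measurePreserving_piCongrLeft`; or both sides are product measures: check on boxes with
`Measure.pi_eq`).
`near_split`: a near solution for `A` is a near solution for both parts (all terms are `≥ 0`;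
`N` is the same, so the right hand side `δ N` is the same).
`near_extra`: first moment: `{∃ w, Near κ δ A w} ⊆ {T ≤ cntNear κ δ (rowsL A)} ∪ {cntNear (rowsL A)
< T and ∃ w, Near (rowsL A) w ∧ Near (rowsR A) w}`; the probability of the second event is at most
`∫ 1{cnt(B) < T} ∑_{w near B} P(Near κ δ · w on the right rows) dB ≤ T · p` (Fubini, union bound).
`near_mono_rows`: the measure of the near event decreases when rows are added (restriction of rows).
-/

set_option autoImplicit false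
open MeasureTheory ProbabilityTheory Filter Topology

namespace Pool.Agent.IP49

def rowsL {M₁ M₂ N : ℕ} (A : Fin (M₁ + M₂) → Fin N → ℝ) : Fin M₁ → Fin N → ℝ :=
  fun k => A (Fin.castAdd M₂ k)

def rowsR {M₁ M₂ N : ℕ} (A : Fin (M₁ + M₂) → Fin N → ℝ) : Fin M₂ → Fin N → ℝ :=
  fun k => A (Fin.natAdd M₁ k)

private theorem gm_prob (M N : ℕ) : IsProbabilityMeasure (GM M N) := by
  unfold GM
  infer_instance

theorem split_map (M₁ M₂ N : ℕ) :
    MeasurePreserving (fun A : Fin (M₁ + M₂) → Fin N → ℝ => (rowsL A, rowsR A))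
      (GM (M₁ + M₂) N) ((GM M₁ N).prod (GM M₂ N)) := by
  have h1 := (measurePreserving_piCongrLeft (α := fun _ : Fin (M₁ + M₂) => Fin N → ℝ)
    (fun _ : Fin (M₁ + M₂) => (Measure.pi fun _ : Fin N => gaussianReal 0 1))
    (finSumFinEquiv (m := M₁) (n := M₂))).symm
  have h2 := measurePreserving_sumPiEquivProdPi (X := fun _ : Fin M₁ ⊕ Fin M₂ => Fin N → ℝ)
    (fun _ : Fin M₁ ⊕ Fin M₂ => (Measure.pi fun _ : Fin N => gaussianReal 0 1))
  have h3 := h2.comp h1
  exact h3

theorem near_split {M₁ M₂ N : ℕ} {κ δ : ℝ} {A : Fin (M₁ + M₂) → Fin N → ℝ} {w : Fin N → Bool}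
    (h : Near κ δ A w) : Near κ δ (rowsL A) w ∧ Near κ δ (rowsR A) w := by
  unfold Near at h ⊢
  rw [Fin.sum_univ_add] at h
  have h1 : 0 ≤ ∑ k : Fin M₁, (max 0 (κ - yv A w (Fin.castAdd M₂ k))) ^ 2 :=
    Finset.sum_nonneg fun k _ => sq_nonneg _
  have h2 : 0 ≤ ∑ k : Fin M₂, (max 0 (κ - yv A w (Fin.natAdd M₁ k))) ^ 2 :=
    Finset.sum_nonneg fun k _ => sq_nonneg _
  have e1 : ∑ k : Fin M₁, (max 0 (κ - yv (rowsL A) w k)) ^ 2
      = ∑ k : Fin M₁, (max 0 (κ - yv A w (Fin.castAdd M₂ k))) ^ 2 := rfl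
  have e2 : ∑ k : Fin M₂, (max 0 (κ - yv (rowsR A) w k)) ^ 2
      = ∑ k : Fin M₂, (max 0 (κ - yv A w (Fin.natAdd M₁ k))) ^ 2 := rfl
  rw [e1, e2]
  constructor <;> linarith

theorem measurable_cntNear {M N : ℕ} (κ δ : ℝ) :
    Measurable (fun A : Fin M → Fin N → ℝ => (cntNear κ δ A : ℝ)) := by
  classical
  have h : (fun A : Fin M → Fin N → ℝ => (cntNear κ δ A : ℝ))
      = fun A => ∑ w : Fin N → Bool, if Near κ δ A w then (1 : ℝ) else 0 := by
    funext A
    unfold cntNear
    rw [Finset.card_eq_sum_ones, Finset.sum_filter]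
    push_cast
    refine Finset.sum_congr rfl fun w _ => ?_
    by_cases hw : Near κ δ A w <;> simp [hw]
  rw [h]
  refine Finset.measurable_sum _ fun w _ => ?_
  exact Measurable.ite (measurableSet_near κ δ w) measurable_const measurable_const

theorem cntNear_mono {M N : ℕ} {κ δ δ' : ℝ} (h : δ' ≤ δ) (A : Fin M → Fin N → ℝ) :
    cntNear κ δ' A ≤ cntNear κ δ A := by
  classical
  unfold cntNear
  refine Finset.card_le_card fun w hw => ?_
  rw [Finset.mem_filter] at hw ⊢
  refine ⟨hw.1, ?_⟩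
  have h2 := hw.2
  unfold Near at h2 ⊢
  exact h2.trans (mul_le_mul_of_nonneg_right h (Nat.cast_nonneg N))

private theorem meas_exists_near {M N : ℕ} (κ δ : ℝ) :
    MeasurableSet {A : Fin M → Fin N → ℝ | ∃ w, Near κ δ A w} := by
  have : {A : Fin M → Fin N → ℝ | ∃ w, Near κ δ A w} = ⋃ w, {A | Near κ δ A w} := by
    ext A; simp
  rw [this]
  exact MeasurableSet.iUnion fun w => measurableSet_near κ δ w

private theorem meas_exists_near2 {M₁ M₂ N : ℕ} (κ δ : ℝ) :
    MeasurableSet {p : (Fin M₁ → Fin N → ℝ) × (Fin M₂ → Fin N → ℝ) |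
      ∃ w, Near κ δ p.1 w ∧ Near κ δ p.2 w} := by
  have : {p : (Fin M₁ → Fin N → ℝ) × (Fin M₂ → Fin N → ℝ) |
      ∃ w, Near κ δ p.1 w ∧ Near κ δ p.2 w}
      = ⋃ w, ({A | Near κ δ A w} ×ˢ {A | Near κ δ A w}) := by
    ext p; simp
  rw [this]
  exact MeasurableSet.iUnion fun w =>
    (measurableSet_near κ δ w).prod (measurableSet_near κ δ w)

theorem near_extra {M₁ M₂ N : ℕ} (κ δ T p : ℝ) (hT : 0 ≤ T)
    (hp : ∀ w : Fin N → Bool, (GM M₂ N).real {A | Near κ δ A w} ≤ p) :
    (GM (M₁ + M₂) N).real {A | ∃ w, Near κ δ A w}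
      ≤ (GM M₁ N).real {A | T ≤ (cntNear κ δ A : ℝ)} + T * p := by
  classical
  have := gm_prob (M₁ + M₂) N
  have := gm_prob M₁ N
  have := gm_prob M₂ N
  have hp0 : 0 ≤ p := le_trans measureReal_nonneg (hp fun _ => true)
  set Q : Set ((Fin M₁ → Fin N → ℝ) × (Fin M₂ → Fin N → ℝ)) :=
    {p | ∃ w, Near κ δ p.1 w ∧ Near κ δ p.2 w} with hQ
  have hQm : MeasurableSet Q := meas_exists_near2 κ δ
  set C : Set (Fin M₁ → Fin N → ℝ) := {A | T ≤ (cntNear κ δ A : ℝ)} with hC
  have hCm : MeasurableSet C := measurableSet_le measurable_const (measurable_cntNear κ δ)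
  set Q' : Set ((Fin M₁ → Fin N → ℝ) × (Fin M₂ → Fin N → ℝ)) := Q ∩ (Cᶜ ×ˢ Set.univ) with hQ'
  have hQ'm : MeasurableSet Q' := hQm.inter (hCm.compl.prod MeasurableSet.univ)
  -- first step: map
  have h1 : (GM (M₁ + M₂) N).real {A | ∃ w, Near κ δ A w}
      ≤ ((GM M₁ N).prod (GM M₂ N)).real Q := by
    have e := (split_map M₁ M₂ N).measureReal_preimage hQm.nullMeasurableSet
    rw [← e]
    refine measureReal_mono ?_ (measure_ne_top _ _)
    rintro A ⟨w, hw⟩
    exact ⟨w, near_split hw⟩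
  have h2 : ((GM M₁ N).prod (GM M₂ N)).real Q
      ≤ ((GM M₁ N).prod (GM M₂ N)).real (C ×ˢ Set.univ)
        + ((GM M₁ N).prod (GM M₂ N)).real Q' := by
    refine le_trans (measureReal_mono ?_ (measure_ne_top _ _)) (measureReal_union_le _ _)
    intro q hq
    by_cases hc : q.1 ∈ C
    · exact Or.inl ⟨hc, Set.mem_univ _⟩
    · exact Or.inr ⟨hq, hc, Set.mem_univ _⟩
  have h3 : ((GM M₁ N).prod (GM M₂ N)).real (C ×ˢ Set.univ) = (GM M₁ N).real C := by
    rw [measureReal_prod_prod, probReal_univ, mul_one]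
  have h4 : ((GM M₁ N).prod (GM M₂ N)) Q' ≤ ENNReal.ofReal (T * p) := by
    rw [Measure.prod_apply hQ'm]
    have hb : ∀ B, (GM M₂ N) (Prod.mk B ⁻¹' Q') ≤ ENNReal.ofReal (T * p) := by
      intro B
      by_cases hB : B ∈ C
      · have : Prod.mk B ⁻¹' Q' = ∅ := by
          ext D
          simp only [Set.mem_preimage, Set.mem_empty_iff_false, iff_false]
          rintro ⟨_, h, _⟩
          exact h hB
        rw [this, measure_empty]
        exact bot_le
      · have hBT : (cntNear κ δ B : ℝ) ≤ T := by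
          have : ¬ T ≤ (cntNear κ δ B : ℝ) := hB
          exact (not_le.mp this).le
        have hsub : Prod.mk B ⁻¹' Q'
            ⊆ ⋃ w ∈ (Finset.univ.filter (fun w : Fin N → Bool => Near κ δ B w)),
              {A : Fin M₂ → Fin N → ℝ | Near κ δ A w} := by
          rintro D ⟨⟨w, hw1, hw2⟩, _⟩
          simp only [Set.mem_iUnion]
          exact ⟨w, by simpa using hw1, hw2⟩
        have hr : (GM M₂ N).real (Prod.mk B ⁻¹' Q') ≤ T * p := by
          refine le_trans (measureReal_mono hsub (measure_ne_top _ _)) ?_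
          refine le_trans (measureReal_biUnion_finset_le _ _) ?_
          refine le_trans (Finset.sum_le_sum fun w _ => hp w) ?_
          rw [Finset.sum_const, nsmul_eq_mul]
          exact mul_le_mul_of_nonneg_right hBT hp0
        rw [← ENNReal.ofReal_toReal (measure_ne_top (GM M₂ N) (Prod.mk B ⁻¹' Q'))]
        exact ENNReal.ofReal_le_ofReal hr
    refine le_trans (lintegral_mono hb) ?_
    rw [lintegral_const, measure_univ, mul_one]
  have h5 : ((GM M₁ N).prod (GM M₂ N)).real Q' ≤ T * p := by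
    have := ENNReal.toReal_mono ENNReal.ofReal_ne_top h4
    rwa [ENNReal.toReal_ofReal (mul_nonneg hT hp0)] at this
  linarith

theorem near_mono_rows {M M' N : ℕ} (h : M' ≤ M) (κ δ : ℝ) :
    (GM M N).real {A | ∃ w, Near κ δ A w} ≤ (GM M' N).real {A | ∃ w, Near κ δ A w} := by
  obtain ⟨d, rfl⟩ := Nat.exists_eq_add_of_le h
  have := gm_prob (M' + d) N
  have := gm_prob M' N
  have := gm_prob d N
  have hS : MeasurableSet {A : Fin M' → Fin N → ℝ | ∃ w, Near κ δ A w} := meas_exists_near κ δ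
  have e := (split_map M' d N).measureReal_preimage
    (hS.prod (MeasurableSet.univ (α := Fin d → Fin N → ℝ))).nullMeasurableSet
  rw [measureReal_prod_prod, probReal_univ, mul_one] at e
  rw [← e]
  refine measureReal_mono ?_ (measure_ne_top _ _)
  rintro A ⟨w, hw⟩
  exact ⟨⟨w, (near_split hw).1⟩, Set.mem_univ _⟩

end Pool.Agent.IP49
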