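import Pool.Agent.IP49.LVec
import Pool.Agent.IP49.UTb

/-!
IP49, part L, module LSM: second moment inequality, and reduction to the maximal number of rows.

PROOFS. `pz`: `Y = ∑_{i∈T} p_i 1_{E_i} ≥ 0` is bounded and measurable, `Y = Y 1_U`,
`U = ⋃_{i∈T} E_i`; Cauchy-Schwarz `(∫ Y)² ≤ μ(U) ∫ Y²` (e.g. from
`0 ≤ ∫ (Y - t 1_U)² = ∫Y² - 2t∫Y + t²μ(U)` for all `t`), `∫ Y = ∑ p_i μ(E_i)`,
`∫ Y² = ∑∑ p_i p_j μ(E_i ∩ E_j)`.
`GM_mono`: for `M ≤ M₁` the first `M` rows of a matrix with law `GM M₁ N` have law `GM M N`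
(marginal of a product measure: `measurePreserving_piFinsetLE`-like lemmas, or the map
`A ↦ A ∘ Fin.castLE h`: check on rectangles with `Measure.pi_eq`/`Measure.pi_map_pi`…, or write
`M₁ = M + j` and use `MeasurePreserving` for `Fin.appendEquiv`/induction on `j` with
`measurePreserving_piFinSuccAbove … (Fin.last _)`); a near solution for `M₁` rows is a near
solution for the first `M` rows, because the summands are nonnegative. Only the inequality
between real measures of (possibly non measurable?) sets is needed; the sets `{A | ∃ w, Near κ δ A w}`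
are closed, hence measurable (finite union over `w` of closed conditions).
-/

set_option autoImplicit false
open MeasureTheory ProbabilityTheory Filter Topology

namespace Pool.Agent.IP49.LP

theorem pz {X : Type*} [MeasurableSpace X] {μ : Measure X} [IsProbabilityMeasure μ] {ι : Type*}
    (T : Finset ι) (p : ι → ℝ) (hp : ∀ i ∈ T, 0 ≤ p i) (E : ι → Set X)
    (hE : ∀ i ∈ T, MeasurableSet (E i)) :
    (∑ i ∈ T, p i * μ.real (E i)) ^ 2 ≤
      μ.real (⋃ i ∈ T, E i) * ∑ i ∈ T, ∑ j ∈ T, p i * p j * μ.real (E i ∩ E j) := by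
  classical
  set U : Set X := ⋃ i ∈ T, E i with hU
  have hUm : MeasurableSet U := T.measurableSet_biUnion hE
  set S1 := ∑ i ∈ T, p i * μ.real (E i) with hS1
  set S2 := ∑ i ∈ T, ∑ j ∈ T, p i * p j * μ.real (E i ∩ E j) with hS2
  have hind : ∀ A : Set X, MeasurableSet A → Integrable (A.indicator fun _ => (1 : ℝ)) μ :=
    fun A hA => (integrable_const (1 : ℝ)).indicator hA
  have hint : ∀ A : Set X, MeasurableSet A → ∫ x, A.indicator (fun _ => (1 : ℝ)) x ∂μ = μ.real A := by
    intro A hA
    rw [integral_indicator hA, setIntegral_const, smul_eq_mul, mul_one]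
  have key : ∀ t : ℝ, 0 ≤ S2 - 2 * t * S1 + t ^ 2 * μ.real U := by
    intro t
    have h0 : 0 ≤ ∫ x, (∑ i ∈ T, p i * (E i).indicator (fun _ => (1 : ℝ)) x
        - t * U.indicator (fun _ => (1 : ℝ)) x) ^ 2 ∂μ := integral_nonneg fun x => sq_nonneg _
    have h1 : ∀ x, (∑ i ∈ T, p i * (E i).indicator (fun _ => (1 : ℝ)) x
        - t * U.indicator (fun _ => (1 : ℝ)) x) ^ 2
        = ((∑ i ∈ T, ∑ j ∈ T, p i * p j * (E i ∩ E j).indicator (fun _ => (1 : ℝ)) x)
          - ∑ i ∈ T, 2 * t * p i * (E i).indicator (fun _ => (1 : ℝ)) x)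
          + t ^ 2 * U.indicator (fun _ => (1 : ℝ)) x := by
      intro x
      have e1 : ∀ i ∈ T, (E i).indicator (fun _ => (1 : ℝ)) x * U.indicator (fun _ => (1 : ℝ)) x
          = (E i).indicator (fun _ => (1 : ℝ)) x := by
        intro i hi
        by_cases hx : x ∈ E i
        · have hxU : x ∈ U := Set.mem_biUnion hi hx
          rw [Set.indicator_of_mem hx, Set.indicator_of_mem hxU, mul_one]
        · rw [Set.indicator_of_notMem hx, zero_mul]
      have e2 : U.indicator (fun _ => (1 : ℝ)) x * U.indicator (fun _ => (1 : ℝ)) x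
          = U.indicator (fun _ => (1 : ℝ)) x := by
        by_cases hx : x ∈ U
        · rw [Set.indicator_of_mem hx, mul_one]
        · rw [Set.indicator_of_notMem hx, zero_mul]
      have e3 : ∀ i j, (E i ∩ E j).indicator (fun _ => (1 : ℝ)) x
          = (E i).indicator (fun _ => (1 : ℝ)) x * (E j).indicator (fun _ => (1 : ℝ)) x := by
        intro i j
        by_cases hi : x ∈ E i <;> by_cases hj : x ∈ E j <;> simp [hi, hj]
      have e4 : (∑ i ∈ T, p i * (E i).indicator (fun _ => (1 : ℝ)) x) ^ 2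
          = ∑ i ∈ T, ∑ j ∈ T, p i * p j * (E i ∩ E j).indicator (fun _ => (1 : ℝ)) x := by
        rw [sq, Finset.sum_mul_sum]
        refine Finset.sum_congr rfl fun i _ => Finset.sum_congr rfl fun j _ => ?_
        rw [e3]; ring
      have e5 : (∑ i ∈ T, p i * (E i).indicator (fun _ => (1 : ℝ)) x)
          * U.indicator (fun _ => (1 : ℝ)) x = ∑ i ∈ T, p i * (E i).indicator (fun _ => (1 : ℝ)) x := by
        rw [Finset.sum_mul]
        refine Finset.sum_congr rfl fun i hi => ?_
        rw [mul_assoc, e1 i hi]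
      have e6 : ∑ i ∈ T, 2 * t * p i * (E i).indicator (fun _ => (1 : ℝ)) x
          = 2 * t * ∑ i ∈ T, p i * (E i).indicator (fun _ => (1 : ℝ)) x := by
        rw [Finset.mul_sum]
        exact Finset.sum_congr rfl fun i _ => by ring
      rw [← e4, e6]
      set Y := ∑ i ∈ T, p i * (E i).indicator (fun _ => (1 : ℝ)) x with hY
      set V := U.indicator (fun _ => (1 : ℝ)) x with hV
      have : (Y - t * V) ^ 2 = Y ^ 2 - 2 * t * (Y * V) + t ^ 2 * (V * V) := by ring
      rw [this, e5, e2]
    simp only [h1] at h0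
    have i1 : Integrable (fun x => ∑ i ∈ T, ∑ j ∈ T, p i * p j
        * (E i ∩ E j).indicator (fun _ => (1 : ℝ)) x) μ :=
      integrable_finsetSum _ fun i hi => integrable_finsetSum _ fun j hj =>
        (hind _ ((hE i hi).inter (hE j hj))).const_mul _
    have i2 : Integrable (fun x => ∑ i ∈ T, 2 * t * p i * (E i).indicator (fun _ => (1 : ℝ)) x) μ :=
      integrable_finsetSum _ fun i hi => (hind _ (hE i hi)).const_mul _
    have i3 : Integrable (fun x => t ^ 2 * U.indicator (fun _ => (1 : ℝ)) x) μ :=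
      (hind _ hUm).const_mul _
    have i4 : Integrable (fun x => (∑ i ∈ T, ∑ j ∈ T, p i * p j
        * (E i ∩ E j).indicator (fun _ => (1 : ℝ)) x)
        - ∑ i ∈ T, 2 * t * p i * (E i).indicator (fun _ => (1 : ℝ)) x) μ := i1.sub i2
    rw [integral_add i4 i3, integral_sub i1 i2, integral_const_mul, hint _ hUm,
      integral_finsetSum _ (fun i hi => integrable_finsetSum _ fun j hj =>
        (hind _ ((hE i hi).inter (hE j hj))).const_mul _),
      integral_finsetSum _ (fun i hi => (hind _ (hE i hi)).const_mul _)] at h0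
    have j1 : ∑ i ∈ T, ∫ x, ∑ j ∈ T, p i * p j * (E i ∩ E j).indicator (fun _ => (1 : ℝ)) x ∂μ
        = S2 := by
      rw [hS2]
      refine Finset.sum_congr rfl fun i hi => ?_
      rw [integral_finsetSum _ (fun j hj => (hind _ ((hE i hi).inter (hE j hj))).const_mul _)]
      refine Finset.sum_congr rfl fun j hj => ?_
      rw [integral_const_mul, hint _ ((hE i hi).inter (hE j hj))]
    have j2 : ∑ i ∈ T, ∫ x, 2 * t * p i * (E i).indicator (fun _ => (1 : ℝ)) x ∂μ
        = 2 * t * S1 := by
      rw [hS1, Finset.mul_sum]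
      refine Finset.sum_congr rfl fun i hi => ?_
      rw [integral_const_mul, hint _ (hE i hi)]
      ring
    rw [j1, j2] at h0
    exact h0
  have hUn : 0 ≤ μ.real U := measureReal_nonneg
  rcases eq_or_lt_of_le hUn with h | h
  · have : S1 = 0 := by
      rw [hS1]
      refine Finset.sum_eq_zero fun i hi => ?_
      have h2 : μ.real (E i) ≤ μ.real U := measureReal_mono (Set.subset_biUnion_of_mem hi) (measure_ne_top _ _)
      have h3 : μ.real (E i) = 0 := le_antisymm (by rw [← h] at h2; exact h2) measureReal_nonneg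
      rw [h3, mul_zero]
    rw [this, ← h]
    simp
  · have h2 := key (S1 / μ.real U)
    have h3 : S2 - 2 * (S1 / μ.real U) * S1 + (S1 / μ.real U) ^ 2 * μ.real U
        = (μ.real U * S2 - S1 ^ 2) / μ.real U := by
      field_simp
      ring
    rw [h3] at h2
    have h4 : 0 ≤ μ.real U * S2 - S1 ^ 2 := by
      by_contra hcon
      push Not at hcon
      exact absurd h2 (not_le.2 (div_neg_of_neg_of_pos hcon h))
    linarith

theorem near_meas (κ δ : ℝ) (M N : ℕ) :
    MeasurableSet {A : Fin M → Fin N → ℝ | ∃ w, Near κ δ A w} := by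
  have : {A : Fin M → Fin N → ℝ | ∃ w, Near κ δ A w} = ⋃ w : Fin N → Bool, {A | Near κ δ A w} := by
    ext A; simp
  rw [this]
  refine MeasurableSet.iUnion fun w => ?_
  unfold Near yv
  refine measurableSet_le ?_ measurable_const
  fun_prop

theorem GM_mono {κ δ : ℝ} {M M₁ N : ℕ} (h : M ≤ M₁) :
    (GM M₁ N).real {A | ∃ w, Near κ δ A w} ≤ (GM M N).real {A | ∃ w, Near κ δ A w} := by
  exact near_mono_rows h κ δ

end Pool.Agent.IP49.LP
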