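import Pool.Agent.IP49.LCov
import Pool.Agent.IP49.LLowB
import Pool.Agent.IP49.LSM

/-!
IP49, part L, module LProb: conditional probability of a near solution given a typical good history.

PROOF. `C` from `low_typ`. `second` with this `C` and `η := c/8`: lists T1, T2, `dl₁`.
`δ' := min δ dl₁ > 0`. `low_typ` with `δ'`, `η`: list T2', `dl₂`. Take T1, T2 ++ T2',
`dl := min (min dl₁ dl₂) (1/4)`. For a configuration with `Cfg κ ψ dl` and `(h,hh) ∈ Yset … dl`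
(`Cfg_mono`, `Yset_mono`): `p_w = piw h w > 0`, `∑_{w∈T} p_w ≥ 1 - dl ≥ 1/2` (`mass`),
`EY := ∑ p_w (GM).real (Ev δ' w) ≥ (1/2) exp((C0-η)N)`,
`EY2 := ∑∑ p p' (GM).real (Ev δ' w ∩ Ev δ' w') ≤ exp((2C0+η)N)`. `pz` (with `Ev_meas`):
`(GM).real (⋃_{w∈T} Ev δ' w) ≥ (EY)²/EY2 ≥ (1/4) exp(-3ηN) ≥ exp(-cN)` for `N` large
(`EY2 > 0`, or: if `EY2 = 0` then `EY = 0`, impossible; or argue
`(EY)² ≤ (GM).real(⋃) · exp((2C0+η)N)`). Finally `⋃_{w∈T} Ev δ' w ⊆ {G | ∃ w, Near κ δ (R G) w}`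
because `Near κ δ'` implies `Near κ δ` (`δ' ≤ δ`, `N ≥ 0`): `measureReal_mono` (finite measure,
no measurability needed).
-/

set_option autoImplicit false
open MeasureTheory ProbabilityTheory Filter Topology

namespace Pool.Agent.IP49.LP

theorem cond_prob {κ ψ δ c₀ : ℝ} (hψ : 0 < ψ) (hs : LStar κ ψ) (hδ : 0 < δ) (hc : 0 < c₀) :
    ∃ T1 T2 : List (ℝ → ℝ), (∀ f ∈ T1, QG f) ∧ (∀ f ∈ T2, QG f) ∧
      ∃ dl : ℝ, 0 < dl ∧ dl ≤ 1 / 4 ∧ ∀ K : ℕ, ∀ᶠ N : ℕ in atTop,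
      ∀ (M : ℕ) (h : Fin N → ℝ) (hh : Fin M → ℝ) (R : (Fin M → Fin N → ℝ) → Fin M → Fin N → ℝ)
        (c : Fin K → Fin M → ℝ) (n : Fin M → ℝ) (u : (Fin N → Bool) → Fin N → ℝ)
        (e : (Fin N → Bool) → Fin M → ℝ) (T : Finset (Fin N → Bool)),
        Cfg κ ψ dl h hh R c n u e T → (h, hh) ∈ Yset κ 0 ψ T1 T2 dl M N →
        Real.exp (-c₀ * N) ≤ (GM M N).real {G | ∃ w, Near κ δ (R G) w} := by
  obtain ⟨C, hC0, hlow⟩ := low_typ (κ := κ) hψ
  obtain ⟨T1, T2, hT1, hT2, dl₁, hdl₁, hsec⟩ := second hψ hs hC0 (show 0 < c₀ / 8 by linarith)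
  obtain ⟨T2', hT2', dl₂, hdl₂, hlo⟩ := hlow (min δ dl₁) (c₀ / 8) (lt_min hδ hdl₁) (by linarith)
  refine ⟨T1, T2 ++ T2', hT1, ?_, min (min dl₁ dl₂) (1 / 4), ?_, min_le_right _ _, ?_⟩
  · intro f hf
    rcases List.mem_append.1 hf with h | h
    · exact hT2 f h
    · exact hT2' f h
  · exact lt_min (lt_min hdl₁ hdl₂) (by norm_num)
  intro K
  have hlim : Tendsto (fun N : ℕ => Real.exp (-(5 * c₀ / 8) * N)) atTop (𝓝 0) := by
    refine Real.tendsto_exp_atBot.comp ?_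
    exact tendsto_natCast_atTop_atTop.const_mul_atTop_of_neg (by linarith)
  have hev : ∀ᶠ N : ℕ in atTop, Real.exp (-(5 * c₀ / 8) * N) < 1 / 4 :=
    hlim.eventually (gt_mem_nhds (by norm_num))
  filter_upwards [hsec K, hlo K, hev] with N h1 h2 h3 M h hh R c n u e T hCfg hY
  set dl := min (min dl₁ dl₂) (1 / 4) with hdl
  have hd1 : dl ≤ dl₁ := (min_le_left _ _).trans (min_le_left _ _)
  have hd2 : dl ≤ dl₂ := (min_le_left _ _).trans (min_le_right _ _)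
  have hd4 : dl ≤ 1 / 4 := min_le_right _ _
  have hY1 : (h, hh) ∈ Yset κ 0 ψ T1 T2 dl₁ M N :=
    Yset_mono hd1 (fun _ hf => hf) (fun _ hf => List.mem_append.2 (Or.inl hf)) M N hY
  have hY2 : (h, hh) ∈ Yset κ 0 ψ [] T2' dl₂ M N :=
    Yset_mono hd2 (List.nil_subset _) (fun _ hf => List.mem_append.2 (Or.inr hf)) M N hY
  set δ' := min δ dl₁ with hδ'
  have hδ0 : 0 ≤ δ' := (lt_min hδ hdl₁).le
  have hmom2 := h1 M h hh R c n u e T (Cfg_mono hd1 hCfg) hY1 δ' hδ0 (min_le_right _ _)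
  have hmom1 := h2 M h hh R c n u e T (Cfg_mono hd2 hCfg) hY2
  haveI : IsProbabilityMeasure (GM M N) := by unfold GM; infer_instance
  have hp : ∀ w ∈ T, 0 ≤ piw h w := by
    intro w _
    unfold piw
    exact Finset.prod_nonneg fun i _ => by
      have := Real.cosh_pos (h i)
      positivity
  have hpz := pz (μ := GM M N) T (fun w => piw h w) hp (fun w => Ev κ δ' C R c u w)
    (fun w hw => Ev_meas hCfg hw)
  set U := ⋃ w ∈ T, Ev κ δ' C R c u w with hU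
  -- first moment
  have hE1 : 1 / 2 * Real.exp ((C0 κ ψ - c₀ / 8) * N)
      ≤ ∑ w ∈ T, piw h w * (GM M N).real (Ev κ δ' C R c u w) := by
    have e1 : ∑ w ∈ T, piw h w * Real.exp ((C0 κ ψ - c₀ / 8) * N)
        ≤ ∑ w ∈ T, piw h w * (GM M N).real (Ev κ δ' C R c u w) :=
      Finset.sum_le_sum fun w hw => mul_le_mul_of_nonneg_left (hmom1 w hw) (hp w hw)
    rw [← Finset.sum_mul] at e1
    have e2 : 1 / 2 ≤ ∑ w ∈ T, piw h w := by
      have := hCfg.mass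
      linarith
    exact (mul_le_mul_of_nonneg_right e2 (Real.exp_pos _).le).trans e1
  have hE1sq := pow_le_pow_left₀ (by positivity) hE1 2
  have hUn : 0 ≤ (GM M N).real U := measureReal_nonneg
  have hfin : (1 / 2 * Real.exp ((C0 κ ψ - c₀ / 8) * N)) ^ 2
      ≤ (GM M N).real U * Real.exp ((2 * C0 κ ψ + c₀ / 8) * N) :=
    (hE1sq.trans hpz).trans (mul_le_mul_of_nonneg_left hmom2 hUn)
  have hexp1 : (1 / 2 * Real.exp ((C0 κ ψ - c₀ / 8) * N)) ^ 2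
      = 1 / 4 * Real.exp (-(3 * c₀ / 8) * N) * Real.exp ((2 * C0 κ ψ + c₀ / 8) * N) := by
    rw [mul_pow, ← Real.exp_nat_mul, mul_assoc, ← Real.exp_add]
    norm_num
    ring
  rw [hexp1] at hfin
  have hU1 : 1 / 4 * Real.exp (-(3 * c₀ / 8) * N) ≤ (GM M N).real U :=
    le_of_mul_le_mul_right hfin (Real.exp_pos _)
  have hU2 : Real.exp (-c₀ * N) ≤ 1 / 4 * Real.exp (-(3 * c₀ / 8) * N) := by
    have e1 : Real.exp (-c₀ * N)
        = Real.exp (-(5 * c₀ / 8) * N) * Real.exp (-(3 * c₀ / 8) * N) := by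
      rw [← Real.exp_add]; congr 1; ring
    rw [e1]
    exact mul_le_mul_of_nonneg_right h3.le (Real.exp_pos _).le
  refine (hU2.trans hU1).trans (measureReal_mono ?_)
  intro G hG
  simp only [hU, Set.mem_iUnion] at hG
  obtain ⟨w, _, hw⟩ := hG
  refine ⟨w, ?_⟩
  have hn := hw.1
  unfold Near at hn ⊢
  exact hn.trans (mul_le_mul_of_nonneg_right (min_le_left _ _) (Nat.cast_nonneg N))

end Pool.Agent.IP49.LP
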