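import Pool.Agent.IP49.MillsCore

/-!
IP49 library, module MillsA: the standard Gaussian density `phi`, its upper tail `Ph`, the
inverse Mills ratio `Mi z = phi z / Ph z` and its derivative `Md z = Mi z (Mi z - z)`.

PROOFS. `gaussianPDFReal 0 1 x = phi x` by unfolding; `Ph z = ∫_{z}^∞ phi` (the Gaussian measure
has density `gaussianPDF`, atomless, so `Ici` may be replaced by `Ioi`); derivative of
`z ↦ ∫_{Ioi z} phi` is `-phi z` (continuity of `phi`, e.g. `Ph z = Ph 0 - ∫_0^z phi` and the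
fundamental theorem of calculus). Symmetry `Ph z + Ph (-z) = 1`. `phi' = -x phi`.
`Mi' = (phi' Ph + phi phi)/Ph² = -z Mi + Mi² = Md`; `(log Ph)' = -phi/Ph = -Mi`.
`z < Mi z`: clear for `z ≤ 0`; in general `phi z = ∫_z^∞ x phi(x) dx > z Ph z` (strict because
the integrand `(x - z) phi x` is positive on `Ioi z`).
-/

set_option autoImplicit false
open MeasureTheory ProbabilityTheory Filter Topology

namespace Pool.Agent.IP49

theorem phi_eq_pdf (x : ℝ) : phi x = gaussianPDFReal 0 1 x := MC.phi_eq_pdf x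

theorem phi_pos (x : ℝ) : 0 < phi x := MC.phi_pos x

theorem phi_neg (x : ℝ) : phi (-x) = phi x := MC.phi_neg x

theorem hasDerivAt_phi (x : ℝ) : HasDerivAt phi (-x * phi x) x := by
  rw [neg_mul]; exact MC.hasDerivAt_phi x

theorem continuous_phi : Continuous phi := MC.continuous_phi

theorem integrable_phi : Integrable phi := MC.integrable_phi

theorem phi_le_one (x : ℝ) : phi x ≤ 2 / 5 := MC.phi_le x

/-- Gaussian expectations as Lebesgue integrals -/
theorem GE_eq (f : ℝ → ℝ) : GE f = ∫ x, phi x * f x := by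
  unfold GE
  rw [integral_gaussianReal_eq_integral_smul (by norm_num)]
  simp only [smul_eq_mul, ← MC.phi_eq_pdf]

theorem Ph_eq (z : ℝ) : Ph z = ∫ x in Set.Ioi z, phi x := MC.Ph_eq_integral z

theorem Ph_pos (z : ℝ) : 0 < Ph z := MC.Ph_pos z

theorem Ph_lt_one (z : ℝ) : Ph z < 1 := MC.Ph_lt_one z

theorem Ph_add_neg (z : ℝ) : Ph z + Ph (-z) = 1 := by
  rw [MC.Ph_neg]; ring

theorem Ph_zero : Ph 0 = 1 / 2 := MC.Ph_zero

theorem hasDerivAt_Ph (z : ℝ) : HasDerivAt Ph (-phi z) z := MC.hasDerivAt_Ph z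

theorem continuous_Ph : Continuous Ph := MC.continuous_Ph

theorem strictAnti_Ph : StrictAnti Ph := MC.Ph_strictAnti

theorem Mi_pos (z : ℝ) : 0 < Mi z := MC.Mi_pos z

theorem lt_Mi (z : ℝ) : z < Mi z := MC.lt_Mi z

theorem hasDerivAt_Mi (z : ℝ) : HasDerivAt Mi (Md z) z := MC.hasDerivAt_Mi z

theorem continuous_Mi : Continuous Mi := MC.continuous_Mi

theorem continuous_Md : Continuous Md := MC.continuous_Md

theorem hasDerivAt_logPh (z : ℝ) : HasDerivAt (fun z => Real.log (Ph z)) (-Mi z) z := MC.hasDerivAt_logPh z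

theorem Md_pos (z : ℝ) : 0 < Md z := MC.Md_pos z

theorem strictMono_Mi : StrictMono Mi := MC.Mi_strictMono

end Pool.Agent.IP49
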