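import Pool.Agent.IP49.LRowA
import Pool.Agent.IP49.MillsA

/-!
IP49, part L, module LRowB: the limit `L → ∞` of the one row functionals, and bounds of `Pl`.

PROOFS. Notation `γ = N(0,1)`, `ξ = p₁`, `ζ = p₂`, `ξ' = lam ξ + √(1-lam²) ζ`, `A = s f t`.
(1) LIMIT. As `L → ∞` the integrand of `Qr s L k f t t lam` tends pointwise to
`1{k ≤ tξ, k ≤ tξ'} exp(A (ξ+ξ'))` and is dominated by its value at `L = 0` (integrable,
`Qr_integrable`). Dominated convergence; for every `L ≥ 0` the integrand is `≥` the limit.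
(2) CAMERON - MARTIN. `φ(x) exp(αx) = exp(α²/2) φ(x-α)`, so for measurable sets `B ⊆ ℝ²`
`∫_B exp(αx+βy) dγ² = exp((α²+β²)/2) γ²{(x,y) : (x+α, y+β) ∈ B}` (densities, or
`gaussianReal_tilted…`). Here `A(ξ+ξ') = α ξ + β ζ` with `α = A(1+lam)`, `β = A√(1-lam²)`;
`(α²+β²)/2 = A²(1+lam)` because `(1+lam)² + (1-lam²) = 2(1+lam)`. The shift turns `tξ` into
`tξ + tA(1+lam)` and `ξ'` into `ξ' + lam α + √(1-lam²) β = ξ' + A(1+lam)`. So
`k ≤ t(ξ + A(1+lam))` means `k/t - A(1+lam) ≤ ξ`, same for `ξ'`: the probability is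
`Pl lam (k/t - A(1+lam))`. (`|lam| ≤ 1` gives `√(1-lam²)² = 1-lam²`.)
(3) `Rr L k t → Ph (k/t)`, `Ph (k/t) ≤ Rr L k t` (`t > 0`, `L ≥ 0`): same with one variable.
(4) `Pl lam x` for `-1 < lam ≤ 1`: positive and `≥ exp(-C(1+x²))`. Put `c = √((1+lam)/2) > 0`,
`d = √((1-lam)/2)` (`c²+d² = 1`, `lam = c²-d²`, `√(1-lam²) = 2cd`), `P = (|x|+2)/c`,
`A₁ = cP = |x|+2`, `B₁ = dP`. On the box `ξ ∈ [A₁, A₁+1]`, `ζ ∈ [B₁, B₁+1]`:
`ξ ≥ x` and `ξ' = lam ξ + 2cd ζ ≥ lam A₁ - 1 + 2cd B₁ = P(c(c²-d²) + 2cd²) - 1 = cP - 1 ≥ x`.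
The box has probability `≥ φ(A₁+1) φ(B₁+1)` (the density is antitone on `[0,∞)`), which is
`≥ exp(-C(1+x²))`.
(5) `Pl 0 x = Ph x ^ 2` (rectangle; `√1 = 1`); `Pl 1 x = Ph x` is not needed.
`Pl lam x ≤ 1` (probability).
-/

set_option autoImplicit false
open MeasureTheory ProbabilityTheory Filter Topology

namespace Pool.Agent.IP49.LP

private theorem phi_shift20 (x a : ℝ) :
    phi (x + a) * Real.exp (a * (x + a)) = Real.exp (a ^ 2 / 2) * phi x := by
  unfold phi
  rw [div_mul_eq_mul_div, ← Real.exp_add, ← mul_div_assoc, ← Real.exp_add]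
  congr 2
  ring

/-- Cameron - Martin in dimension one, no integrability needed -/
private theorem cm1_20 (g : ℝ → ℝ) (a : ℝ) :
    ∫ x, Real.exp (a * x) * g x ∂(gaussianReal 0 1)
      = Real.exp (a ^ 2 / 2) * ∫ x, g (x + a) ∂(gaussianReal 0 1) := by
  have h1 : ∫ x, Real.exp (a * x) * g x ∂(gaussianReal 0 1)
      = ∫ x, phi x * (Real.exp (a * x) * g x) := GE_eq _
  have h2 : ∫ x, g (x + a) ∂(gaussianReal 0 1) = ∫ x, phi x * g (x + a) := GE_eq _
  rw [h1, h2, ← integral_const_mul,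
    ← integral_add_right_eq_self (fun x => phi x * (Real.exp (a * x) * g x)) a]
  refine integral_congr_ae (ae_of_all _ fun x => ?_)
  show phi (x + a) * (Real.exp (a * (x + a)) * g (x + a)) = _
  rw [← mul_assoc, phi_shift20, mul_assoc]

private theorem int_exp2_20 (a b : ℝ) :
    Integrable (fun p : ℝ × ℝ => Real.exp (a * p.1) * Real.exp (b * p.2))
      ((gaussianReal 0 1).prod (gaussianReal 0 1)) :=
  (integrable_exp_mul_gaussianReal a).mul_prod (integrable_exp_mul_gaussianReal b)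

/-- Cameron - Martin in the plane for indicators -/
private theorem cm2_20 {B : Set (ℝ × ℝ)} (hB : MeasurableSet B) (a b : ℝ) :
    ∫ p : ℝ × ℝ, B.indicator (fun p => Real.exp (a * p.1) * Real.exp (b * p.2)) p
        ∂((gaussianReal 0 1).prod (gaussianReal 0 1))
      = Real.exp ((a ^ 2 + b ^ 2) / 2) * ((gaussianReal 0 1).prod (gaussianReal 0 1)).real
        {p : ℝ × ℝ | (p.1 + a, p.2 + b) ∈ B} := by
  have hi : Integrable (B.indicator (fun p : ℝ × ℝ => Real.exp (a * p.1) * Real.exp (b * p.2)))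
      ((gaussianReal 0 1).prod (gaussianReal 0 1)) := (int_exp2_20 a b).indicator hB
  rw [integral_prod _ hi]
  have hm : Measurable (fun p : ℝ × ℝ => (p.1 + a, p.2 + b)) := by fun_prop
  have hS : MeasurableSet {p : ℝ × ℝ | (p.1 + a, p.2 + b) ∈ B} := hm hB
  have e1 : ∀ x y : ℝ, B.indicator (fun p : ℝ × ℝ => Real.exp (a * p.1) * Real.exp (b * p.2)) (x, y)
      = Real.exp (b * y) * (Real.exp (a * x) * B.indicator (fun _ => (1 : ℝ)) (x, y)) := by
    intro x y
    by_cases h : (x, y) ∈ B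
    · simp [Set.indicator_of_mem h]; ring
    · simp [Set.indicator_of_notMem h]
  have e2 : ∀ x : ℝ, ∫ y, B.indicator (fun p : ℝ × ℝ => Real.exp (a * p.1) * Real.exp (b * p.2))
      (x, y) ∂(gaussianReal 0 1) = Real.exp (a * x) * (Real.exp (b ^ 2 / 2) *
        ∫ y, B.indicator (fun _ => (1 : ℝ)) (x, y + b) ∂(gaussianReal 0 1)) := by
    intro x
    simp_rw [e1]
    rw [cm1_20 (fun y => Real.exp (a * x) * B.indicator (fun _ => (1 : ℝ)) (x, y)) b,
      integral_const_mul]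
    ring
  simp_rw [e2]
  rw [cm1_20 (fun x => Real.exp (b ^ 2 / 2) *
        ∫ y, B.indicator (fun _ => (1 : ℝ)) (x, y + b) ∂(gaussianReal 0 1)) a, integral_const_mul]
  have e3 : ((gaussianReal 0 1).prod (gaussianReal 0 1)).real
        {p : ℝ × ℝ | (p.1 + a, p.2 + b) ∈ B}
      = ∫ x, ∫ y, B.indicator (fun _ => (1 : ℝ)) (x + a, y + b) ∂(gaussianReal 0 1)
        ∂(gaussianReal 0 1) := by
    rw [← integral_indicator_one hS]
    exact integral_prod _ ((integrable_const (1 : ℝ)).indicator hS)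
  rw [e3, ← mul_assoc, ← Real.exp_add]
  congr 2
  ring

/-- the limiting integrand -/
private noncomputable def lim20 (s k f t lam : ℝ) : ℝ × ℝ → ℝ :=
  {p : ℝ × ℝ | k ≤ t * p.1 ∧ k ≤ t * (lam * p.1 + Real.sqrt (1 - lam ^ 2) * p.2)}.indicator
    (fun p => Real.exp (s * f * t * (1 + lam) * p.1)
      * Real.exp (s * f * t * Real.sqrt (1 - lam ^ 2) * p.2))

private theorem meas20 (k t lam : ℝ) : MeasurableSet
    {p : ℝ × ℝ | k ≤ t * p.1 ∧ k ≤ t * (lam * p.1 + Real.sqrt (1 - lam ^ 2) * p.2)} := by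
  have e1 : Measurable (fun p : ℝ × ℝ => t * p.1) := by fun_prop
  have e2 : Measurable (fun p : ℝ × ℝ => t * (lam * p.1 + Real.sqrt (1 - lam ^ 2) * p.2)) := by
    fun_prop
  exact (measurableSet_le measurable_const e1).inter (measurableSet_le measurable_const e2)

private theorem lim20_integrable (s k f t lam : ℝ) : Integrable (lim20 s k f t lam)
    ((gaussianReal 0 1).prod (gaussianReal 0 1)) :=
  (int_exp2_20 _ _).indicator (meas20 k t lam)

private theorem lim20_integral (s k f : ℝ) {t lam : ℝ} (ht : 0 < t) (hl : |lam| ≤ 1) :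
    ∫ p, lim20 s k f t lam p ∂((gaussianReal 0 1).prod (gaussianReal 0 1))
      = Real.exp (s ^ 2 * f ^ 2 * t ^ 2 * (1 + lam)) *
        Pl lam (k / t - s * f * t * (1 + lam)) := by
  have hs : Real.sqrt (1 - lam ^ 2) ^ 2 = 1 - lam ^ 2 := by
    refine Real.sq_sqrt ?_
    have := (sq_le_one_iff_abs_le_one lam).2 hl
    linarith
  unfold lim20
  rw [cm2_20 (meas20 k t lam)]
  congr 1
  · congr 1
    have : (s * f * t * Real.sqrt (1 - lam ^ 2)) ^ 2 = (s * f * t) ^ 2 * (1 - lam ^ 2) := by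
      rw [mul_pow, hs]
    rw [this]; ring
  · unfold Pl
    congr 1
    ext p
    simp only [Set.mem_ofPred_eq]
    have e1 : t * (p.1 + s * f * t * (1 + lam)) = t * (p.1 + s * f * t * (1 + lam)) := rfl
    have e2 : lam * (p.1 + s * f * t * (1 + lam)) + Real.sqrt (1 - lam ^ 2) *
        (p.2 + s * f * t * Real.sqrt (1 - lam ^ 2))
        = (lam * p.1 + Real.sqrt (1 - lam ^ 2) * p.2) + s * f * t * (1 + lam) := by
      have : Real.sqrt (1 - lam ^ 2) * (s * f * t * Real.sqrt (1 - lam ^ 2))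
          = s * f * t * Real.sqrt (1 - lam ^ 2) ^ 2 := by ring
      rw [mul_add (Real.sqrt (1 - lam ^ 2)), this, hs]
      ring
    rw [e2]
    have key : ∀ y : ℝ, k ≤ t * (y + s * f * t * (1 + lam)) ↔ k / t - s * f * t * (1 + lam) ≤ y := by
      intro y
      rw [sub_le_iff_le_add, div_le_iff₀ ht, mul_comm t]
    rw [key, key]

private theorem lim20_le (s k f : ℝ) {L t lam : ℝ} (hL : 0 ≤ L) (p : ℝ × ℝ) :
    lim20 s k f t lam p ≤
      Real.exp (s * f * (t * p.1 + t * (lam * p.1 + Real.sqrt (1 - lam ^ 2) * p.2))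
        - L * ((max 0 (k - t * p.1)) ^ 2
          + (max 0 (k - t * (lam * p.1 + Real.sqrt (1 - lam ^ 2) * p.2))) ^ 2)) := by
  unfold lim20
  by_cases h : p ∈ {p : ℝ × ℝ | k ≤ t * p.1 ∧
      k ≤ t * (lam * p.1 + Real.sqrt (1 - lam ^ 2) * p.2)}
  · rw [Set.indicator_of_mem h]
    obtain ⟨h1, h2⟩ := h
    rw [max_eq_left (by linarith), max_eq_left (by linarith), ← Real.exp_add]
    refine Real.exp_le_exp.2 (le_of_eq ?_)
    ring
  · rw [Set.indicator_of_notMem h]
    exact (Real.exp_pos _).le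

theorem Qr_tendsto (s k f : ℝ) {t lam : ℝ} (ht : 0 < t) (hl : |lam| ≤ 1) :
    Tendsto (fun L => Qr s L k f t t lam) atTop
      (𝓝 (Real.exp (s ^ 2 * f ^ 2 * t ^ 2 * (1 + lam)) *
        Pl lam (k / t - s * f * t * (1 + lam)))) := by
  rw [← lim20_integral s k f ht hl]
  unfold Qr
  refine tendsto_integral_filter_of_dominated_convergence
    (fun p : ℝ × ℝ =>
      Real.exp (s * f * (t * p.1 + t * (lam * p.1 + Real.sqrt (1 - lam ^ 2) * p.2))
        - 0 * ((max 0 (k - t * p.1)) ^ 2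
          + (max 0 (k - t * (lam * p.1 + Real.sqrt (1 - lam ^ 2) * p.2))) ^ 2))) ?_ ?_
    (Qr_integrable s k f t t lam le_rfl) ?_
  · exact Eventually.of_forall fun L => Continuous.aestronglyMeasurable (by fun_prop)
  · filter_upwards [eventually_ge_atTop (0 : ℝ)] with L hL
    refine ae_of_all _ fun p => ?_
    rw [Real.norm_eq_abs, abs_of_pos (Real.exp_pos _)]
    refine Real.exp_le_exp.2 ?_
    have : 0 ≤ L * ((max 0 (k - t * p.1)) ^ 2
      + (max 0 (k - t * (lam * p.1 + Real.sqrt (1 - lam ^ 2) * p.2))) ^ 2) := by positivity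
    linarith
  · refine ae_of_all _ fun p => ?_
    unfold lim20
    by_cases h : p ∈ {p : ℝ × ℝ | k ≤ t * p.1 ∧
        k ≤ t * (lam * p.1 + Real.sqrt (1 - lam ^ 2) * p.2)}
    · rw [Set.indicator_of_mem h]
      obtain ⟨h1, h2⟩ := h
      rw [max_eq_left (by linarith), max_eq_left (by linarith), ← Real.exp_add]
      refine tendsto_const_nhds.congr fun L => ?_
      congr 1
      ring
    · rw [Set.indicator_of_notMem h]
      have hpos : 0 < (max 0 (k - t * p.1)) ^ 2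
          + (max 0 (k - t * (lam * p.1 + Real.sqrt (1 - lam ^ 2) * p.2))) ^ 2 := by
        rw [Set.mem_ofPred_eq, not_and_or, not_le, not_le] at h
        rcases h with h | h
        · have : 0 < max 0 (k - t * p.1) := lt_max_of_lt_right (by linarith)
          positivity
        · have : 0 < max 0 (k - t * (lam * p.1 + Real.sqrt (1 - lam ^ 2) * p.2)) :=
            lt_max_of_lt_right (by linarith)
          positivity
      refine Real.tendsto_exp_atBot.comp ?_
      have h3 := (tendsto_id (α := ℝ) (x := atTop)).atTop_mul_const hpos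
      exact tendsto_atBot_add_const_left atTop _ (tendsto_neg_atTop_atBot.comp h3)

theorem le_Qr (s k f : ℝ) {L t lam : ℝ} (hL : 0 ≤ L) (ht : 0 < t) (hl : |lam| ≤ 1) :
    Real.exp (s ^ 2 * f ^ 2 * t ^ 2 * (1 + lam)) * Pl lam (k / t - s * f * t * (1 + lam)) ≤
      Qr s L k f t t lam := by
  rw [← lim20_integral s k f ht hl]
  exact integral_mono (lim20_integrable s k f t lam) (Qr_integrable s k f t t lam hL)
    fun p => lim20_le s k f hL p

private theorem Ph_ind20 (k : ℝ) {t : ℝ} (ht : 0 < t) :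
    Ph (k / t) = ∫ x, (Set.Ici (k / t)).indicator (1 : ℝ → ℝ) x ∂(gaussianReal 0 1) := by
  rw [integral_indicator_one measurableSet_Ici]
  rfl

private theorem mem20 (k : ℝ) {t : ℝ} (ht : 0 < t) (x : ℝ) : x ∈ Set.Ici (k / t) ↔ k ≤ t * x := by
  rw [Set.mem_Ici, div_le_iff₀ ht, mul_comm]

private theorem Rr_int20 (k a : ℝ) {L : ℝ} (hL : 0 ≤ L) :
    Integrable (fun x => Real.exp (-(L * (max 0 (k - a * x)) ^ 2))) (gaussianReal 0 1) := by
  refine (integrable_const (1 : ℝ)).mono' (Continuous.aestronglyMeasurable (by fun_prop))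
    (ae_of_all _ fun x => ?_)
  rw [Real.norm_eq_abs, abs_of_pos (Real.exp_pos _)]
  refine Real.exp_le_one_iff.2 ?_
  have : 0 ≤ L * (max 0 (k - a * x)) ^ 2 := by positivity
  linarith

theorem Rr_tendsto (k : ℝ) {t : ℝ} (ht : 0 < t) :
    Tendsto (fun L => Rr L k t) atTop (𝓝 (Ph (k / t))) := by
  rw [Ph_ind20 k ht]
  unfold Rr
  refine tendsto_integral_filter_of_dominated_convergence (fun _ => (1 : ℝ)) ?_ ?_
    (integrable_const _) ?_
  · exact Eventually.of_forall fun L => Continuous.aestronglyMeasurable (by fun_prop)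
  · filter_upwards [eventually_ge_atTop (0 : ℝ)] with L hL
    refine ae_of_all _ fun x => ?_
    rw [Real.norm_eq_abs, abs_of_pos (Real.exp_pos _)]
    refine Real.exp_le_one_iff.2 ?_
    have : 0 ≤ L * (max 0 (k - t * x)) ^ 2 := by positivity
    linarith
  · refine ae_of_all _ fun x => ?_
    by_cases h : x ∈ Set.Ici (k / t)
    · rw [Set.indicator_of_mem h]
      rw [mem20 k ht] at h
      rw [max_eq_left (by linarith)]
      simp
    · rw [Set.indicator_of_notMem h]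
      rw [mem20 k ht, not_le] at h
      have h0 : 0 < max 0 (k - t * x) := lt_max_of_lt_right (by linarith)
      have hpos : 0 < (max 0 (k - t * x)) ^ 2 := by positivity
      refine Real.tendsto_exp_atBot.comp ?_
      exact tendsto_neg_atTop_atBot.comp
        ((tendsto_id (α := ℝ) (x := atTop)).atTop_mul_const hpos)

theorem le_Rr (k : ℝ) {L t : ℝ} (hL : 0 ≤ L) (ht : 0 < t) : Ph (k / t) ≤ Rr L k t := by
  rw [Ph_ind20 k ht]
  refine integral_mono ((integrable_const (1 : ℝ)).indicator measurableSet_Ici)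
    (Rr_int20 k t hL) fun x => ?_
  by_cases h : x ∈ Set.Ici (k / t)
  · show (Set.Ici (k / t)).indicator (1 : ℝ → ℝ) x ≤ _
    rw [Set.indicator_of_mem h]
    rw [mem20 k ht] at h
    rw [max_eq_left (by linarith)]
    simp
  · show (Set.Ici (k / t)).indicator (1 : ℝ → ℝ) x ≤ _
    rw [Set.indicator_of_notMem h]
    exact (Real.exp_pos _).le

theorem Pl_le_one (lam x : ℝ) : Pl lam x ≤ 1 := measureReal_le_one

private theorem gauss_box20 {A : ℝ} (hA : 0 ≤ A) :
    phi (A + 1) ≤ (gaussianReal 0 1).real (Set.Icc A (A + 1)) := by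
  have h1 : (gaussianReal 0 1).real (Set.Icc A (A + 1))
      = ∫ x, phi x * (Set.Icc A (A + 1)).indicator (1 : ℝ → ℝ) x := by
    rw [← integral_indicator_one (μ := gaussianReal 0 1) measurableSet_Icc]
    exact GE_eq _
  have h2 : ∫ x, phi x * (Set.Icc A (A + 1)).indicator (1 : ℝ → ℝ) x
      = ∫ x in Set.Icc A (A + 1), phi x := by
    rw [← integral_indicator measurableSet_Icc]
    refine integral_congr_ae (ae_of_all _ fun x => ?_)
    by_cases h : x ∈ Set.Icc A (A + 1)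
    · simp [Set.indicator_of_mem h]
    · simp [Set.indicator_of_notMem h]
  have h3 : ∫ _x in Set.Icc A (A + 1), phi (A + 1) = phi (A + 1) := by
    rw [setIntegral_const, measureReal_def, Real.volume_Icc]
    simp
  rw [h1, h2, ← h3]
  refine setIntegral_mono_on (integrableOn_const (by rw [Real.volume_Icc]; exact ENNReal.ofReal_ne_top))
    integrable_phi.integrableOn measurableSet_Icc fun x hx => ?_
  unfold phi
  refine div_le_div_of_nonneg_right (Real.exp_le_exp.2 ?_) (Real.sqrt_nonneg _)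
  have := hx.2
  have h0 : 0 ≤ x := hA.trans hx.1
  have : x ^ 2 ≤ (A + 1) ^ 2 := pow_le_pow_left₀ h0 hx.2 2
  linarith

private theorem log_phi20 (y : ℝ) : Real.log (phi y) = -(y ^ 2) / 2 - Real.log (Real.sqrt (2 * Real.pi)) := by
  unfold phi
  rw [Real.log_div (Real.exp_pos _).ne' (by positivity), Real.log_exp]

theorem logPl_ge {lam : ℝ} (h1 : -1 < lam) (h2 : lam ≤ 1) : ∃ C : ℝ, 0 ≤ C ∧ ∀ x : ℝ,
    0 < Pl lam x ∧ -(C * (1 + x ^ 2)) ≤ Real.log (Pl lam x) := by
  set c := Real.sqrt ((1 + lam) / 2) with hc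
  set d := Real.sqrt ((1 - lam) / 2) with hd
  have hc2 : c ^ 2 = (1 + lam) / 2 := Real.sq_sqrt (by linarith)
  have hd2 : d ^ 2 = (1 - lam) / 2 := Real.sq_sqrt (by linarith)
  have hc0 : 0 < c := Real.sqrt_pos.2 (by linarith)
  have hd0 : 0 ≤ d := Real.sqrt_nonneg _
  have hs : Real.sqrt (1 - lam ^ 2) = 2 * c * d := by
    have e : 1 - lam ^ 2 = (2 * c * d) ^ 2 := by
      have : (2 * c * d) ^ 2 = 4 * c ^ 2 * d ^ 2 := by ring
      rw [this, hc2, hd2]; ring
    rw [e, Real.sqrt_sq (by positivity)]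
  set D := Real.log (Real.sqrt (2 * Real.pi)) with hD
  have hD0 : 0 ≤ D := by
    refine Real.log_nonneg ?_
    rw [Real.one_le_sqrt]
    have := Real.pi_gt_three
    linarith
  set r := d / c with hr
  have hr0 : 0 ≤ r := div_nonneg hd0 hc0.le
  refine ⟨2 * D + 20 + 10 * r ^ 2, by positivity, fun x => ?_⟩
  set A := |x| + 2 with hA
  set B := r * A with hB
  have hx := abs_nonneg x
  have hA0 : 0 ≤ A := by linarith
  have hB0 : 0 ≤ B := mul_nonneg hr0 hA0
  have hrc : r * c = d := by rw [hr]; field_simp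
  have hsub : Set.Icc A (A + 1) ×ˢ Set.Icc B (B + 1) ⊆
      {p : ℝ × ℝ | x ≤ p.1 ∧ x ≤ lam * p.1 + Real.sqrt (1 - lam ^ 2) * p.2} := by
    rintro p ⟨hp1, hp2⟩
    obtain ⟨a1, a2⟩ := hp1
    obtain ⟨b1, b2⟩ := hp2
    have hxa := le_abs_self x
    refine ⟨by linarith, ?_⟩
    rw [hs]
    have g1 : lam * A - 1 ≤ lam * p.1 := by
      nlinarith
    have g2 : 2 * c * d * B ≤ 2 * c * d * p.2 :=
      mul_le_mul_of_nonneg_left b1 (by positivity)
    have g3 : 2 * c * d * B = 2 * d ^ 2 * A := by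
      rw [hB]
      calc 2 * c * d * (r * A) = 2 * d * (r * c) * A := by ring
        _ = 2 * d ^ 2 * A := by rw [hrc]; ring
    have g4 : lam * A + 2 * d ^ 2 * A = A := by rw [hd2]; ring
    linarith
  have hbox : phi (A + 1) * phi (B + 1) ≤ Pl lam x := by
    have h3 : ((gaussianReal 0 1).prod (gaussianReal 0 1)).real
        (Set.Icc A (A + 1) ×ˢ Set.Icc B (B + 1)) ≤ Pl lam x := measureReal_mono hsub
    rw [measureReal_prod_prod] at h3
    refine le_trans ?_ h3
    exact mul_le_mul (gauss_box20 hA0) (gauss_box20 hB0) (phi_pos _).le measureReal_nonneg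
  have hpos : 0 < phi (A + 1) * phi (B + 1) := mul_pos (phi_pos _) (phi_pos _)
  refine ⟨hpos.trans_le hbox, ?_⟩
  refine le_trans ?_ (Real.log_le_log hpos hbox)
  rw [Real.log_mul (phi_pos _).ne' (phi_pos _).ne', log_phi20, log_phi20, ← hD]
  have hx2 : |x| ^ 2 = x ^ 2 := sq_abs x
  have k1 : (A + 1) ^ 2 ≤ 2 * x ^ 2 + 18 := by
    rw [hA]; nlinarith [sq_nonneg (|x| - 3)]
  have k2 : A ^ 2 ≤ 2 * x ^ 2 + 8 := by
    rw [hA]; nlinarith [sq_nonneg (|x| - 2)]
  have k3 : (B + 1) ^ 2 ≤ 2 * (r ^ 2 * (2 * x ^ 2 + 8)) + 2 := by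
    have : B ^ 2 ≤ r ^ 2 * (2 * x ^ 2 + 8) := by
      rw [hB, mul_pow]
      exact mul_le_mul_of_nonneg_left k2 (sq_nonneg r)
    nlinarith [sq_nonneg (B - 1)]
  have k4 : 0 ≤ D * x ^ 2 := mul_nonneg hD0 (sq_nonneg x)
  have k5 : 0 ≤ r ^ 2 * x ^ 2 := by positivity
  have k6 : 0 ≤ x ^ 2 := sq_nonneg x
  have k7 : 0 ≤ r ^ 2 := sq_nonneg r
  nlinarith

theorem Pl_zero' (x : ℝ) : Pl 0 x = Ph x ^ 2 := by
  unfold Pl Ph
  have : {p : ℝ × ℝ | x ≤ p.1 ∧ x ≤ 0 * p.1 + Real.sqrt (1 - 0 ^ 2) * p.2}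
      = Set.Ici x ×ˢ Set.Ici x := by
    ext p
    rw [Set.mem_prod, Set.mem_Ici, Set.mem_Ici]
    show (x ≤ p.1 ∧ x ≤ 0 * p.1 + Real.sqrt (1 - 0 ^ 2) * p.2) ↔ _
    simp
  rw [this, measureReal_prod_prod, sq]

end Pool.Agent.IP49.LP
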