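import Mathlib

/-!
IP49, L5 (series): if `ρ` is a finite measure and `exp (|lam| ‖W‖²/2)` is `ρ`-integrable, then
`∬ exp (lam W W') dρ dρ = ∑ lam^n / n! (∫ W^n dρ)²`.
-/

set_option autoImplicit false
open MeasureTheory ProbabilityTheory Filter Topology Complex

namespace Pool.Agent.IP49

section
variable {Ω : Type*} [MeasurableSpace Ω]

lemma pow_div_fact_le_exp {t : ℝ} (ht : 0 ≤ t) (n : ℕ) : t ^ n / n.factorial ≤ Real.exp t := by
  have := Real.sum_le_exp_of_nonneg ht (n + 1)
  refine le_trans ?_ this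
  exact Finset.single_le_sum (f := fun i : ℕ => t ^ i / (i.factorial : ℝ))
    (fun i _ => by positivity) (Finset.mem_range.2 (Nat.lt_succ_self n))

theorem series_abs (ρ : Measure Ω) [IsFiniteMeasure ρ] (W : Ω → ℂ) (hW : Measurable W) (lam : ℝ)
    (hI : Integrable (fun w => Real.exp (|lam| * ‖W w‖ ^ 2 / 2)) ρ) :
    HasSum (fun n : ℕ => (lam : ℂ) ^ n / n.factorial * (∫ w, W w ^ n ∂ρ) ^ 2)
      (∫ p, cexp (lam * W p.1 * W p.2) ∂(ρ.prod ρ)) := by
  set F : ℕ → Ω × Ω → ℂ := fun n p => (lam : ℂ) ^ n / n.factorial * (W p.1 ^ n * W p.2 ^ n) with hF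
  have hFm : ∀ n, Measurable (F n) := fun n =>
    (((hW.comp measurable_fst).pow_const n).mul ((hW.comp measurable_snd).pow_const n)).const_mul _
  have hnorm : ∀ n p, ‖F n p‖ = (|lam| * (‖W p.1‖ * ‖W p.2‖)) ^ n / n.factorial := by
    intro n p
    simp only [hF, norm_mul, norm_div, norm_pow, Complex.norm_real, Real.norm_eq_abs,
      Complex.norm_natCast, mul_pow]
    ring
  set B : Ω × Ω → ℝ := fun p =>
    Real.exp (|lam| * ‖W p.1‖ ^ 2 / 2) * Real.exp (|lam| * ‖W p.2‖ ^ 2 / 2) with hB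
  have hBI : Integrable B (ρ.prod ρ) := hI.mul_prod hI
  have hle : ∀ p, Real.exp (|lam| * (‖W p.1‖ * ‖W p.2‖)) ≤ B p := by
    intro p
    rw [hB]; simp only
    rw [← Real.exp_add]
    apply Real.exp_le_exp.2
    nlinarith [abs_nonneg lam, sq_nonneg (‖W p.1‖ - ‖W p.2‖)]
  have hsum_le : ∀ (N : ℕ) p, ∑ n ∈ Finset.range N, ‖F n p‖ ≤ B p := by
    intro N p
    refine le_trans ?_ (hle p)
    simp only [hnorm]
    exact Real.sum_le_exp_of_nonneg (by positivity) N
  have hFI : ∀ n, Integrable (F n) (ρ.prod ρ) := by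
    intro n
    apply hBI.mono' (hFm n).aestronglyMeasurable
    refine Eventually.of_forall fun p => ?_
    rw [hnorm]
    exact (pow_div_fact_le_exp (by positivity) n).trans (hle p)
  have hS : Summable fun n => ∫ p, ‖F n p‖ ∂(ρ.prod ρ) := by
    apply summable_of_sum_range_le (c := ∫ p, B p ∂(ρ.prod ρ))
    · intro n; exact integral_nonneg fun p => norm_nonneg _
    · intro N
      rw [← integral_finsetSum _ fun n _ => (hFI n).norm]
      exact integral_mono (integrable_finsetSum _ fun n _ => (hFI n).norm) hBI (hsum_le N)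
  have h := hasSum_integral_of_summable_integral_norm hFI hS
  have e1 : ∀ n, ∫ p, F n p ∂(ρ.prod ρ)
      = (lam : ℂ) ^ n / n.factorial * (∫ w, W w ^ n ∂ρ) ^ 2 := by
    intro n
    simp only [hF]
    rw [integral_const_mul, integral_prod_mul (fun w => W w ^ n) (fun w => W w ^ n), sq]
  have e2 : ∀ p, ∑' n, F n p = cexp (lam * W p.1 * W p.2) := by
    intro p
    have h2 := NormedSpace.expSeries_div_hasSum_exp (lam * W p.1 * W p.2 : ℂ)
    rw [← Complex.exp_eq_exp_ℂ] at h2
    rw [← h2.tsum_eq]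
    apply tsum_congr
    intro n
    simp only [hF, mul_pow]
    ring
  simp only [e1, e2] at h
  exact h

end

end Pool.Agent.IP49
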