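import Pool.Agent.IP49.MillsB

/-!
IP49: analysis of `Pl lam x = P(ξ ≥ x, ξ' ≥ x)` (correlation `lam`), owner helper37.
-/

set_option autoImplicit false
open MeasureTheory ProbabilityTheory Filter Topology Set

namespace Pool.Agent.IP49

/-- the region defining `Pl` -/
def Rg (lam x : ℝ) : Set (ℝ × ℝ) :=
  {p : ℝ × ℝ | x ≤ p.1 ∧ x ≤ lam * p.1 + Real.sqrt (1 - lam ^ 2) * p.2}

theorem measurableSet_Rg (lam x : ℝ) : MeasurableSet (Rg lam x) := by
  unfold Rg
  exact (measurableSet_le measurable_const measurable_fst).inter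
    (measurableSet_le measurable_const
      ((measurable_fst.const_mul lam).add (measurable_snd.const_mul _)))

theorem Pl_eq_Rg (lam x : ℝ) :
    Pl lam x = ((gaussianReal 0 1).prod (gaussianReal 0 1)).real (Rg lam x) := rfl

theorem Pl_nonneg (lam x : ℝ) : 0 ≤ Pl lam x := measureReal_nonneg

theorem Pl_le_one (lam x : ℝ) : Pl lam x ≤ 1 := measureReal_le_one

theorem real_prod_eq_integral {s : Set (ℝ × ℝ)} (hs : MeasurableSet s) :
    ((gaussianReal 0 1).prod (gaussianReal 0 1)).real s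
      = ∫ a, (gaussianReal 0 1).real (Prod.mk a ⁻¹' s) ∂(gaussianReal 0 1) := by
  rw [measureReal_def, Measure.prod_apply hs]
  rw [integral_eq_lintegral_of_nonneg_ae (Eventually.of_forall fun a => measureReal_nonneg)]
  · congr 1
    refine lintegral_congr fun a => ?_
    rw [measureReal_def, ENNReal.ofReal_toReal (measure_ne_top _ _)]
  · exact (measurable_measure_prodMk_left hs).ennreal_toReal.aestronglyMeasurable

theorem real_prod_eq_integral' {s : Set (ℝ × ℝ)} (hs : MeasurableSet s) :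
    ((gaussianReal 0 1).prod (gaussianReal 0 1)).real s
      = ∫ b, (gaussianReal 0 1).real ((fun a => (a, b)) ⁻¹' s) ∂(gaussianReal 0 1) := by
  rw [measureReal_def, Measure.prod_apply_symm hs]
  rw [integral_eq_lintegral_of_nonneg_ae (Eventually.of_forall fun a => measureReal_nonneg)]
  · congr 1
    refine lintegral_congr fun a => ?_
    rw [measureReal_def, ENNReal.ofReal_toReal (measure_ne_top _ _)]
  · exact (measurable_measure_prodMk_right hs).ennreal_toReal.aestronglyMeasurable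

theorem one_sub_sq_pos {lam : ℝ} (h1 : -1 < lam) (h2 : lam < 1) : 0 < 1 - lam ^ 2 := by nlinarith

/-- one-dimensional integral for `Pl` -/
theorem Pl_eq_integral {lam : ℝ} (h1 : -1 < lam) (h2 : lam < 1) (x : ℝ) :
    Pl lam x = ∫ s in Ioi x, phi s * Ph ((x - lam * s) / Real.sqrt (1 - lam ^ 2)) := by
  have hc : 0 < Real.sqrt (1 - lam ^ 2) := Real.sqrt_pos.2 (one_sub_sq_pos h1 h2)
  rw [Pl_eq_Rg, real_prod_eq_integral (measurableSet_Rg lam x)]
  have e : ∀ a : ℝ, (gaussianReal 0 1).real (Prod.mk a ⁻¹' (Rg lam x))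
      = (Ici x).indicator (fun s => Ph ((x - lam * s) / Real.sqrt (1 - lam ^ 2))) a := by
    intro a
    by_cases ha : x ≤ a
    · rw [indicator_of_mem (mem_Ici.2 ha)]
      unfold Ph
      congr 1
      ext b
      simp only [Rg, mem_preimage, mem_ofPred_eq, mem_Ici]
      rw [div_le_iff₀ hc]
      constructor
      · rintro ⟨_, h⟩; linarith
      · intro h; exact ⟨ha, by linarith⟩
    · rw [indicator_of_notMem (by simpa using ha)]
      have : (Prod.mk a ⁻¹' (Rg lam x)) = ∅ := by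
        ext b
        simp only [Rg, mem_preimage, mem_ofPred_eq, mem_empty_iff_false, iff_false]
        rintro ⟨h, _⟩; exact ha h
      rw [this]; simp
  simp only [e]
  have h3 := GE_eq ((Ici x).indicator (fun s => Ph ((x - lam * s) / Real.sqrt (1 - lam ^ 2))))
  unfold GE at h3
  rw [h3, ← integral_Ici_eq_integral_Ioi, ← integral_indicator measurableSet_Ici]
  refine integral_congr_ae (Eventually.of_forall fun s => ?_)
  by_cases hs : s ∈ Ici x
  · simp only [indicator_of_mem hs]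
  · simp only [indicator_of_notMem hs, mul_zero]

/-- `P_0 = Φ̄²` -/
theorem Pl_zero (x : ℝ) : Pl 0 x = Ph x ^ 2 := by
  rw [Pl_eq_Rg]
  have : Rg 0 x = Ici x ×ˢ Ici x := by
    ext p
    simp only [Rg, mem_ofPred_eq, mem_prod, mem_Ici]
    norm_num
  rw [this, measureReal_prod_prod]
  unfold Ph
  ring

/-- `P_1 = Φ̄` -/
theorem Pl_one (x : ℝ) : Pl 1 x = Ph x := by
  rw [Pl_eq_Rg]
  have : Rg 1 x = Ici x ×ˢ univ := by
    ext p
    simp only [Rg, mem_ofPred_eq, mem_prod, mem_Ici, mem_univ, and_true]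
    norm_num
  rw [this, measureReal_prod_prod]
  simp [Ph]

/-- the bivariate Gaussian density at `(x, x)` -/
noncomputable def pdl (lam x : ℝ) : ℝ :=
  Real.exp (-x ^ 2 / (1 + lam)) / (2 * Real.pi * Real.sqrt (1 - lam ^ 2))

theorem pdl_pos {lam : ℝ} (h1 : -1 < lam) (h2 : lam < 1) (x : ℝ) : 0 < pdl lam x := by
  unfold pdl
  have hc : 0 < Real.sqrt (1 - lam ^ 2) := Real.sqrt_pos.2 (one_sub_sq_pos h1 h2)
  have := Real.pi_pos
  positivity

theorem phi_mul_phi_eq {lam : ℝ} (h1 : -1 < lam) (h2 : lam < 1) (x s : ℝ) :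
    phi s * phi ((x - lam * s) / Real.sqrt (1 - lam ^ 2))
      = Real.exp (-x ^ 2 / 2) / (2 * Real.pi)
        * Real.exp (-(s - lam * x) ^ 2 / (2 * (1 - lam ^ 2))) := by
  have hp := one_sub_sq_pos h1 h2
  have hs : Real.sqrt (2 * Real.pi) * Real.sqrt (2 * Real.pi) = 2 * Real.pi :=
    Real.mul_self_sqrt (by positivity)
  unfold phi
  rw [div_mul_div_comm, hs, ← Real.exp_add, div_mul_eq_mul_div, ← Real.exp_add]
  congr 2
  rw [div_pow, Real.sq_sqrt hp.le]
  field_simp
  ring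

theorem integral_density {lam : ℝ} (h1 : -1 < lam) (h2 : lam < 1) (x : ℝ) :
    ∫ s in Ioi x, phi s * phi ((x - lam * s) / Real.sqrt (1 - lam ^ 2))
      * ((s - lam * x) / Real.sqrt (1 - lam ^ 2) ^ 3) = pdl lam x := by
  have hp := one_sub_sq_pos h1 h2
  have hc : 0 < Real.sqrt (1 - lam ^ 2) := Real.sqrt_pos.2 hp
  have hpi := Real.pi_pos
  set c := Real.sqrt (1 - lam ^ 2) with hcdef
  have hcsq : c ^ 2 = 1 - lam ^ 2 := Real.sq_sqrt hp.le
  set A := Real.exp (-x ^ 2 / 2) / (2 * Real.pi) with hA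
  set G : ℝ → ℝ := fun s => -(A / c * Real.exp (-(s - lam * x) ^ 2 / (2 * (1 - lam ^ 2)))) with hG
  have hGd : ∀ s : ℝ, HasDerivAt G (phi s * phi ((x - lam * s) / c)
      * ((s - lam * x) / c ^ 3)) s := by
    intro s
    rw [hcdef, phi_mul_phi_eq h1 h2, ← hcdef]
    have e1 : HasDerivAt (fun s : ℝ => -(s - lam * x) ^ 2 / (2 * (1 - lam ^ 2)))
        (-(s - lam * x) / (1 - lam ^ 2)) s := by
      have := ((((hasDerivAt_id s).sub_const (lam * x)).pow 2).neg).div_const (2 * (1 - lam ^ 2))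
      refine this.congr_deriv ?_
      simp only [id]
      field_simp
      norm_num
      ring
    have e2 := ((e1.exp).const_mul (A / c)).neg
    refine e2.congr_deriv ?_
    rw [show c ^ 3 = c * c ^ 2 by ring, hcsq, ← hA]
    field_simp
  have hlim : Tendsto G atTop (𝓝 0) := by
    have h3 : Tendsto (fun s : ℝ => (s - lam * x) ^ 2 / (2 * (1 - lam ^ 2))) atTop atTop := by
      refine Tendsto.atTop_div_const (by positivity) ?_
      exact (tendsto_pow_atTop two_ne_zero).comp (tendsto_atTop_add_const_right _ _ tendsto_id)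
    have h4 := Real.tendsto_exp_neg_atTop_nhds_zero.comp h3
    have h5 := (h4.const_mul (A / c)).neg
    simp only [mul_zero, neg_zero] at h5
    refine h5.congr fun s => ?_
    simp only [hG, Function.comp, neg_div]
  have hint : IntegrableOn (fun s => phi s * phi ((x - lam * s) / c)
      * ((s - lam * x) / c ^ 3)) (Ioi x) := by
    have hb : Integrable (fun s : ℝ => 1 / c ^ 3 * (|s * phi s| + |lam * x| * phi s)) :=
      ((MC.integrable_mul_phi.abs).add (integrable_phi.const_mul _)).const_mul _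
    refine (Integrable.mono' hb ?_ (Eventually.of_forall fun s => ?_)).integrableOn
    · exact ((continuous_phi.mul (continuous_phi.comp (by fun_prop))).mul
        (by fun_prop)).aestronglyMeasurable
    · rw [Real.norm_eq_abs, abs_mul, abs_mul, abs_of_pos (phi_pos s), abs_of_pos (phi_pos _),
        abs_div, abs_of_pos (pow_pos hc 3)]
      have hφ : phi ((x - lam * s) / c) ≤ 1 := by have := phi_le_one ((x - lam * s) / c); linarith
      have h6 : |s - lam * x| ≤ |s| + |lam * x| := abs_sub _ _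
      have h7 : |s * phi s| = |s| * phi s := by rw [abs_mul, abs_of_pos (phi_pos s)]
      rw [h7]
      have hs0 := (phi_pos s).le
      calc phi s * phi ((x - lam * s) / c) * (|s - lam * x| / c ^ 3)
          ≤ phi s * 1 * ((|s| + |lam * x|) / c ^ 3) := by
            refine mul_le_mul (mul_le_mul_of_nonneg_left hφ hs0) ?_ (by positivity) (by positivity)
            exact div_le_div_of_nonneg_right h6 (by positivity)
        _ = 1 / c ^ 3 * (|s| * phi s + |lam * x| * phi s) := by ring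
  rw [integral_Ioi_of_hasDerivAt_of_tendsto' (fun s _ => hGd s) hint hlim]
  simp only [hG, pdl, zero_sub, neg_neg, ← hcdef]
  rw [hA]
  have e3 : Real.exp (-x ^ 2 / (1 + lam)) = Real.exp (-x ^ 2 / 2)
      * Real.exp (-(x - lam * x) ^ 2 / (2 * (1 - lam ^ 2))) := by
    rw [← Real.exp_add]
    congr 1
    have h7 : (1 : ℝ) + lam ≠ 0 := by linarith
    have h8 : (1 : ℝ) - lam ^ 2 ≠ 0 := hp.ne'
    have h9 : (1 : ℝ) - lam ^ 2 = (1 + lam) * (1 - lam) := by ring
    have h10 : (1 : ℝ) - lam ≠ 0 := by linarith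
    rw [h9]
    field_simp
    ring
  rw [e3]
  field_simp

/-- derivative of the integrand in `lam` -/
theorem hasDerivAt_integrand {lam : ℝ} (h1 : -1 < lam) (h2 : lam < 1) (x s : ℝ) :
    HasDerivAt (fun l : ℝ => phi s * Ph ((x - l * s) / Real.sqrt (1 - l ^ 2)))
      (phi s * phi ((x - lam * s) / Real.sqrt (1 - lam ^ 2))
        * ((s - lam * x) / Real.sqrt (1 - lam ^ 2) ^ 3)) lam := by
  have hp := one_sub_sq_pos h1 h2
  have hc : 0 < Real.sqrt (1 - lam ^ 2) := Real.sqrt_pos.2 hp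
  have e1 : HasDerivAt (fun l : ℝ => 1 - l ^ 2) (-(2 * lam)) lam := by
    have := (hasDerivAt_pow 2 lam).const_sub 1
    refine this.congr_deriv ?_
    norm_num
  have e2 := e1.sqrt hp.ne'
  have e3 : HasDerivAt (fun l : ℝ => x - l * s) (-s) lam := by
    have := ((hasDerivAt_id lam).mul_const s).const_sub x
    refine this.congr_deriv ?_
    ring
  have e4 := e3.div e2 hc.ne'
  have e5 := (((hasDerivAt_Ph ((x - lam * s) / Real.sqrt (1 - lam ^ 2))).comp lam e4)).const_mul
    (phi s)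
  refine e5.congr_deriv ?_
  set c := Real.sqrt (1 - lam ^ 2) with hcdef
  have hcsq : c ^ 2 = 1 - lam ^ 2 := Real.sq_sqrt hp.le
  have : -s * c - (x - lam * s) * (-(2 * lam) / (2 * c)) = (lam * x - s) / c := by
    field_simp
    rw [hcsq]; ring
  rw [this]
  field_simp
  ring

/-- `∂P_lam(x)/∂lam` is the bivariate density at `(x,x)` -/
theorem hasDerivAt_Pl {lam : ℝ} (h1 : -1 < lam) (h2 : lam < 1) (x : ℝ) :
    HasDerivAt (fun l => Pl l x) (pdl lam x) lam := by
  -- a neighbourhood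
  set r := (1 + |lam|) / 2 with hr
  have hlabs : |lam| < 1 := abs_lt.2 ⟨h1, h2⟩
  have hr1 : r < 1 := by rw [hr]; linarith
  have hlr : |lam| < r := by rw [hr]; linarith
  have hr0 : 0 < r := lt_of_le_of_lt (abs_nonneg lam) hlr
  set U := Ioo (-r) r with hU
  have hUn : U ∈ 𝓝 lam := Ioo_mem_nhds (abs_lt.1 hlr).1 (abs_lt.1 hlr).2
  set c0 := Real.sqrt (1 - r ^ 2) with hc0
  have hc0p : 0 < c0 := Real.sqrt_pos.2 (by nlinarith)
  have hder := (hasDerivAt_integral_of_dominated_loc_of_deriv_le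
    (μ := volume.restrict (Ioi x)) (s := U)
    (F := fun l s => phi s * Ph ((x - l * s) / Real.sqrt (1 - l ^ 2)))
    (F' := fun l s => phi s * phi ((x - l * s) / Real.sqrt (1 - l ^ 2))
        * ((s - l * x) / Real.sqrt (1 - l ^ 2) ^ 3))
    (x₀ := lam) (bound := fun s => 1 / c0 ^ 3 * (|s * phi s| + |x| * phi s)) hUn
    (Eventually.of_forall fun l => ?_) ?_ ?_ ?_ ?_ ?_).2
  · rw [integral_density h1 h2 x] at hder
    refine hder.congr_of_eventuallyEq ?_
    filter_upwards [Ioo_mem_nhds h1 h2] with l hl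
    exact Pl_eq_integral hl.1 hl.2 x
  · refine (continuous_phi.mul (continuous_Ph.comp ?_)).aestronglyMeasurable
    fun_prop
  · have hb : Integrable (fun s : ℝ => phi s) := integrable_phi
    refine (Integrable.mono' hb ?_ (Eventually.of_forall fun s => ?_)).integrableOn
    · refine (continuous_phi.mul (continuous_Ph.comp ?_)).aestronglyMeasurable
      fun_prop
    · rw [Real.norm_eq_abs, abs_mul, abs_of_pos (phi_pos s), abs_of_pos (Ph_pos _)]
      have := Ph_lt_one ((x - lam * s) / Real.sqrt (1 - lam ^ 2))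
      have := (phi_pos s)
      nlinarith
  · refine ((continuous_phi.mul (continuous_phi.comp ?_)).mul ?_).aestronglyMeasurable
    · fun_prop
    · fun_prop
  · refine Eventually.of_forall fun s l hl => ?_
    have hl1 : |l| < r := abs_lt.2 hl
    have hl2 : l ^ 2 ≤ r ^ 2 := by
      rw [← sq_abs l]; exact pow_le_pow_left₀ (abs_nonneg l) hl1.le 2
    have hcc : c0 ≤ Real.sqrt (1 - l ^ 2) := Real.sqrt_le_sqrt (by linarith)
    have hcp : 0 < Real.sqrt (1 - l ^ 2) := lt_of_lt_of_le hc0p hcc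
    rw [Real.norm_eq_abs, abs_mul, abs_mul, abs_of_pos (phi_pos s), abs_of_pos (phi_pos _),
        abs_div, abs_of_pos (pow_pos hcp 3)]
    have hφ : phi ((x - l * s) / Real.sqrt (1 - l ^ 2)) ≤ 1 := by
      have := phi_le_one ((x - l * s) / Real.sqrt (1 - l ^ 2)); linarith
    have h6 : |s - l * x| ≤ |s| + |x| := by
      have h61 : |s - l * x| ≤ |s| + |l * x| := abs_sub _ _
      rw [abs_mul] at h61
      have h62 : |l| * |x| ≤ 1 * |x| := mul_le_mul_of_nonneg_right (by linarith) (abs_nonneg x)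
      linarith
    have h7 : |s * phi s| = |s| * phi s := by rw [abs_mul, abs_of_pos (phi_pos s)]
    rw [h7]
    have hs0 := (phi_pos s).le
    have h8 : 1 / Real.sqrt (1 - l ^ 2) ^ 3 ≤ 1 / c0 ^ 3 :=
      one_div_le_one_div_of_le (pow_pos hc0p 3) (pow_le_pow_left₀ hc0p.le hcc 3)
    calc phi s * phi ((x - l * s) / Real.sqrt (1 - l ^ 2)) * (|s - l * x| / Real.sqrt (1 - l ^ 2) ^ 3)
        = phi s * phi ((x - l * s) / Real.sqrt (1 - l ^ 2)) * (|s - l * x|
            * (1 / Real.sqrt (1 - l ^ 2) ^ 3)) := by rw [mul_one_div]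
      _ ≤ phi s * 1 * ((|s| + |x|) * (1 / c0 ^ 3)) := by
          refine mul_le_mul (mul_le_mul_of_nonneg_left hφ hs0) ?_ (by positivity) (by positivity)
          exact mul_le_mul h6 h8 (by positivity) (by positivity)
      _ = 1 / c0 ^ 3 * (|s| * phi s + |x| * phi s) := by ring
  · have hb : Integrable (fun s : ℝ => 1 / c0 ^ 3 * (|s * phi s| + |x| * phi s)) :=
      ((MC.integrable_mul_phi.abs).add (integrable_phi.const_mul _)).const_mul _
    exact hb.integrableOn
  · refine Eventually.of_forall fun s l hl => ?_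
    have hl1 := abs_lt.1 (lt_trans (abs_lt.2 hl) hr1)
    exact hasDerivAt_integrand hl1.1 hl1.2 x s

/-! ### Continuity and monotonicity -/

theorem gauss_singleton (x : ℝ) : (gaussianReal 0 1) {x} = 0 := by
  have := nullSingletonClass_gaussianReal (μ := 0) (v := 1) (by norm_num)
  exact measure_singleton x

theorem null_fst (x : ℝ) :
    ((gaussianReal 0 1).prod (gaussianReal 0 1)) {p : ℝ × ℝ | p.1 = x} = 0 := by
  have : {p : ℝ × ℝ | p.1 = x} = ({x} : Set ℝ) ×ˢ univ := by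
    ext p; simp
  rw [this, Measure.prod_prod, gauss_singleton, zero_mul]

theorem null_lin (lam x : ℝ) (hl : lam ^ 2 ≤ 1) :
    ((gaussianReal 0 1).prod (gaussianReal 0 1))
      {p : ℝ × ℝ | lam * p.1 + Real.sqrt (1 - lam ^ 2) * p.2 = x} = 0 := by
  have hm : MeasurableSet {p : ℝ × ℝ | lam * p.1 + Real.sqrt (1 - lam ^ 2) * p.2 = x} :=
    measurableSet_eq_fun ((measurable_fst.const_mul lam).add (measurable_snd.const_mul _))
      measurable_const
  rcases eq_or_lt_of_le hl with h | h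
  · have hl0 : lam ≠ 0 := by
      intro h0; rw [h0] at h; norm_num at h
    have : {p : ℝ × ℝ | lam * p.1 + Real.sqrt (1 - lam ^ 2) * p.2 = x}
        = ({x / lam} : Set ℝ) ×ˢ univ := by
      ext p
      simp only [mem_ofPred_eq, mem_prod, mem_singleton_iff, mem_univ, and_true, h, sub_self,
        Real.sqrt_zero, zero_mul, add_zero]
      rw [eq_div_iff hl0, mul_comm]
    rw [this, Measure.prod_prod, gauss_singleton, zero_mul]
  · have hc : 0 < Real.sqrt (1 - lam ^ 2) := Real.sqrt_pos.2 (by linarith)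
    rw [Measure.prod_apply hm]
    have : ∀ a : ℝ, (gaussianReal 0 1) (Prod.mk a ⁻¹' {p : ℝ × ℝ | lam * p.1
        + Real.sqrt (1 - lam ^ 2) * p.2 = x}) = 0 := by
      intro a
      have e : (Prod.mk a ⁻¹' {p : ℝ × ℝ | lam * p.1 + Real.sqrt (1 - lam ^ 2) * p.2 = x})
          = {(x - lam * a) / Real.sqrt (1 - lam ^ 2)} := by
        ext b
        simp only [mem_preimage, mem_ofPred_eq, mem_singleton_iff]
        rw [eq_div_iff hc.ne']
        constructor <;> intro h <;> linarith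
      rw [e]
      exact gauss_singleton _
    rw [lintegral_congr this]
    exact lintegral_zero

/-- joint continuity of `Pl` on `[-1,1] × ℝ` -/
theorem continuousOn_Pl : ContinuousOn (fun p : ℝ × ℝ => Pl p.1 p.2) (Icc (-1) 1 ×ˢ univ) := by
  rintro ⟨l0, x0⟩ ⟨hl0, -⟩
  set γ2 := (gaussianReal 0 1).prod (gaussianReal 0 1) with hγ2
  have hrep : ∀ p : ℝ × ℝ, Pl p.1 p.2 = ∫ w, (Rg p.1 p.2).indicator (fun _ => (1 : ℝ)) w ∂γ2 := by
    intro p
    rw [integral_indicator (measurableSet_Rg _ _), setIntegral_const, Pl_eq_Rg]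
    simp [hγ2]
  have hl0sq : l0 ^ 2 ≤ 1 := by
    have h1 := hl0.1
    have h2 := hl0.2
    simp only at h1 h2
    nlinarith
  unfold ContinuousWithinAt
  simp only [hrep]
  rw [show Pl l0 x0 = ∫ w, (Rg l0 x0).indicator (fun _ => (1 : ℝ)) w ∂γ2 from hrep (l0, x0)]
  refine tendsto_integral_filter_of_dominated_convergence
    (l := 𝓝[Icc (-1 : ℝ) 1 ×ˢ univ] ((l0, x0) : ℝ × ℝ)) (μ := γ2)
    (F := fun (p : ℝ × ℝ) (w : ℝ × ℝ) => (Rg p.1 p.2).indicator (fun _ => (1 : ℝ)) w)
    (f := fun w : ℝ × ℝ => (Rg l0 x0).indicator (fun _ => (1 : ℝ)) w)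
    (fun _ => (1 : ℝ)) ?_ ?_ ?_ ?_
  · exact Eventually.of_forall fun p =>
      (stronglyMeasurable_const.indicator (measurableSet_Rg _ _)).aestronglyMeasurable
  · refine Eventually.of_forall fun p => Eventually.of_forall fun w => ?_
    rw [Real.norm_eq_abs]
    by_cases hw : w ∈ Rg p.1 p.2
    · rw [indicator_of_mem hw]; simp
    · rw [indicator_of_notMem hw]; simp
  · exact integrable_const _
  · have h1 : ∀ᵐ w ∂γ2, w.1 ≠ x0 := by
      rw [ae_iff]; simpa using null_fst x0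
    have h2 : ∀ᵐ w ∂γ2, l0 * w.1 + Real.sqrt (1 - l0 ^ 2) * w.2 ≠ x0 := by
      rw [ae_iff]; simpa using null_lin l0 x0 hl0sq
    filter_upwards [h1, h2] with w hw1 hw2
    have c1 : Tendsto (fun p : ℝ × ℝ => p.2) (𝓝[Icc (-1) 1 ×ˢ univ] (l0, x0)) (𝓝 x0) :=
      (continuous_snd.tendsto (l0, x0)).mono_left nhdsWithin_le_nhds
    have c2 : Tendsto (fun p : ℝ × ℝ => p.1 * w.1 + Real.sqrt (1 - p.1 ^ 2) * w.2)
        (𝓝[Icc (-1) 1 ×ˢ univ] (l0, x0)) (𝓝 (l0 * w.1 + Real.sqrt (1 - l0 ^ 2) * w.2)) := by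
      have hc : Continuous (fun p : ℝ × ℝ => p.1 * w.1 + Real.sqrt (1 - p.1 ^ 2) * w.2) := by
        fun_prop
      exact (hc.tendsto (l0, x0)).mono_left nhdsWithin_le_nhds
    have ev : ∀ᶠ p in 𝓝[Icc (-1) 1 ×ˢ univ] (l0, x0), (w ∈ Rg p.1 p.2 ↔ w ∈ Rg l0 x0) := by
      rcases lt_or_gt_of_ne hw1 with a1 | a1
      · filter_upwards [c1.eventually (lt_mem_nhds a1)] with p hp
        constructor
        · rintro ⟨h, _⟩; linarith
        · rintro ⟨h, _⟩; linarith
      · rcases lt_or_gt_of_ne hw2 with a2 | a2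
        · filter_upwards [c2.eventually_lt c1 a2] with p hp
          constructor
          · rintro ⟨_, h⟩; linarith
          · rintro ⟨_, h⟩; linarith
        · filter_upwards [c1.eventually_lt c2 a2, c1.eventually (gt_mem_nhds a1)] with p hp hp1
          exact ⟨fun _ => ⟨a1.le, a2.le⟩, fun _ => ⟨hp1.le, hp.le⟩⟩
    refine tendsto_const_nhds.congr' ?_
    filter_upwards [ev] with p hp
    by_cases hw : w ∈ Rg l0 x0
    · rw [indicator_of_mem hw, indicator_of_mem (hp.2 hw)]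
    · rw [indicator_of_notMem hw, indicator_of_notMem (fun h => hw (hp.1 h))]

theorem continuousOn_Pl_lam (x : ℝ) : ContinuousOn (fun l => Pl l x) (Icc (-1) 1) := by
  have h : ContinuousOn (fun l : ℝ => (l, x)) (Icc (-1) 1) := by fun_prop
  exact continuousOn_Pl.comp h fun l hl => ⟨hl, mem_univ _⟩

theorem continuous_Pl_x {lam : ℝ} (hl : lam ∈ Icc (-1 : ℝ) 1) : Continuous (fun x => Pl lam x) := by
  rw [← continuousOn_univ]
  have h : ContinuousOn (fun x : ℝ => (lam, x)) univ := by fun_prop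
  exact continuousOn_Pl.comp h fun x _ => ⟨hl, mem_univ _⟩

/-- `Pl` is strictly increasing in the correlation -/
theorem Pl_strictMonoOn (x : ℝ) : StrictMonoOn (fun l => Pl l x) (Icc (-1) 1) := by
  refine strictMonoOn_of_deriv_pos (convex_Icc _ _) (continuousOn_Pl_lam x) fun l hl => ?_
  rw [interior_Icc] at hl
  rw [(hasDerivAt_Pl hl.1 hl.2 x).deriv]
  exact pdl_pos hl.1 hl.2 x

theorem Pl_mono {l l' x : ℝ} (h1 : -1 ≤ l) (h : l ≤ l') (h2 : l' ≤ 1) : Pl l x ≤ Pl l' x :=
  (Pl_strictMonoOn x).monotoneOn ⟨h1, h.trans h2⟩ ⟨h1.trans h, h2⟩ h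

theorem Pl_pos {lam : ℝ} (h1 : -1 < lam) (h2 : lam ≤ 1) (x : ℝ) : 0 < Pl lam x :=
  lt_of_le_of_lt (Pl_nonneg (-1) x)
    (Pl_strictMonoOn x ⟨le_refl _, by norm_num⟩ ⟨h1.le, h2⟩ h1)

theorem Pl_le_sq {lam : ℝ} (h1 : -1 ≤ lam) (h2 : lam ≤ 0) (x : ℝ) : Pl lam x ≤ Ph x ^ 2 := by
  rw [← Pl_zero]; exact Pl_mono h1 h2 (by norm_num)

theorem sq_le_Pl {lam : ℝ} (h1 : 0 ≤ lam) (h2 : lam ≤ 1) (x : ℝ) : Ph x ^ 2 ≤ Pl lam x := by
  rw [← Pl_zero]; exact Pl_mono (by norm_num) h1 h2

theorem Pl_le_Ph {lam : ℝ} (h1 : -1 ≤ lam) (h2 : lam ≤ 1) (x : ℝ) : Pl lam x ≤ Ph x := by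
  rw [← Pl_one]; exact Pl_mono h1 h2 (le_refl _)

/-- `Pl` is antitone in the threshold -/
theorem Pl_antitone (lam : ℝ) {x y : ℝ} (h : x ≤ y) : Pl lam y ≤ Pl lam x := by
  rw [Pl_eq_Rg, Pl_eq_Rg]
  refine measureReal_mono ?_
  rintro p ⟨h1, h2⟩
  exact ⟨h.trans h1, h.trans h2⟩

/-- the upper bound near correlation one -/
theorem Pl_le_sub_arccos {lam : ℝ} (h1 : -1 < lam) (h2 : lam ≤ 1) (x : ℝ) :
    Pl lam x ≤ Ph x - Real.exp (-x ^ 2 / (1 + lam)) * Real.arccos lam / (2 * Real.pi) := by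
  set E := Real.exp (-x ^ 2 / (1 + lam)) with hE
  set u : ℝ → ℝ := fun r => Pl r x + E * Real.arccos r / (2 * Real.pi) with hu
  have hmono : MonotoneOn u (Icc lam 1) := by
    refine monotoneOn_of_deriv_nonneg (convex_Icc _ _) ?_ ?_ ?_
    · refine ((continuousOn_Pl_lam x).mono (Icc_subset_Icc_left h1.le)).add ?_
      exact ((continuous_const.mul Real.continuous_arccos).div_const _).continuousOn
    · intro r hr
      rw [interior_Icc] at hr
      have hr1 : -1 < r := lt_trans h1 hr.1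
      exact (((hasDerivAt_Pl hr1 hr.2 x).add
        (((Real.hasDerivAt_arccos hr1.ne' hr.2.ne).const_mul E).div_const
          (2 * Real.pi))).differentiableAt).differentiableWithinAt
    · intro r hr
      rw [interior_Icc] at hr
      have hr1 : -1 < r := lt_trans h1 hr.1
      have hd := (hasDerivAt_Pl hr1 hr.2 x).add
        (((Real.hasDerivAt_arccos hr1.ne' hr.2.ne).const_mul E).div_const (2 * Real.pi))
      have hd' : HasDerivAt u _ r := hd
      rw [hd'.deriv]
      unfold pdl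
      have hc : 0 < Real.sqrt (1 - r ^ 2) := Real.sqrt_pos.2 (one_sub_sq_pos hr1 hr.2)
      have hpi := Real.pi_pos
      have hEle : E ≤ Real.exp (-x ^ 2 / (1 + r)) := by
        rw [hE]
        refine Real.exp_le_exp.2 ?_
        rw [neg_div, neg_div, neg_le_neg_iff]
        exact div_le_div_of_nonneg_left (sq_nonneg x) (by linarith) (by linarith [hr.1])
      have : Real.exp (-x ^ 2 / (1 + r)) / (2 * Real.pi * Real.sqrt (1 - r ^ 2))
          + E * -(1 / Real.sqrt (1 - r ^ 2)) / (2 * Real.pi)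
          = (Real.exp (-x ^ 2 / (1 + r)) - E) / (2 * Real.pi * Real.sqrt (1 - r ^ 2)) := by
        field_simp
        ring
      rw [this]
      exact div_nonneg (by linarith) (by positivity)
  have h := hmono ⟨le_refl _, h2⟩ ⟨h2, le_refl _⟩ h2
  simp only [hu, Pl_one, Real.arccos_one, mul_zero, zero_div, add_zero] at h
  linarith

/-- lower bound: `exp(-C(1+x²)) ≤ Pl lam x`, uniformly for `lam ≥ -1 + e` -/
theorem Pl_ge_exp {e : ℝ} (he : 0 < e) : ∃ C : ℝ, 0 < C ∧ ∀ lam x : ℝ, -1 + e ≤ lam → lam ≤ 1 →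
    Real.exp (-C * (1 + x ^ 2)) ≤ Pl lam x := by
  -- reduce to `l = -1 + min e 1 ∈ (-1, 0]`
  set l := -1 + min e 1 with hl
  have hl1 : -1 < l := by have := lt_min he one_pos; linarith
  have hl2 : l ≤ 0 := by have := min_le_right e 1; linarith
  have hsq : 0 < 1 - l ^ 2 := one_sub_sq_pos hl1 (by linarith)
  set c := Real.sqrt (1 - l ^ 2) with hc
  have hcp : 0 < c := Real.sqrt_pos.2 hsq
  -- the rectangle
  have key : ∀ x : ℝ, (Ph (|x|) - Ph (|x| + 1)) * Ph ((2 * |x| + 1) / c) ≤ Pl l x := by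
    intro x
    have hsub : (Ici |x| \ Ici (|x| + 1)) ×ˢ Ici ((2 * |x| + 1) / c) ⊆ Rg l x := by
      rintro ⟨a, b⟩ ⟨⟨ha1, ha2⟩, hb⟩
      simp only [mem_Ici, not_le] at ha1 ha2 hb
      refine ⟨(le_abs_self x).trans ha1, ?_⟩
      simp only [← hc]
      have h3 : 2 * |x| + 1 ≤ c * b := by
        rw [div_le_iff₀ hcp] at hb; linarith
      have h4 : l * (|x| + 1) ≤ l * a := mul_le_mul_of_nonpos_left ha2.le hl2
      have h5 := le_abs_self x
      have h6 := abs_nonneg x
      nlinarith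
    have h1 := measureReal_mono (μ := (gaussianReal 0 1).prod (gaussianReal 0 1)) hsub
    rw [measureReal_prod_prod] at h1
    rw [Pl_eq_Rg]
    refine le_trans (le_of_eq ?_) h1
    congr 1
    rw [measureReal_sdiff (Ici_subset_Ici.2 (by linarith)) measurableSet_Ici]
    rfl
  have hdiff : ∀ y : ℝ, 0 ≤ y → phi (y + 1) ≤ Ph y - Ph (y + 1) := by
    intro y hy
    rw [MC.Ph_sub]
    have h1 : ∫ t in y..(y + 1), phi (y + 1) ≤ ∫ t in y..(y + 1), phi t := by
      refine intervalIntegral.integral_mono_on (by linarith) (by simp)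
        (continuous_phi.intervalIntegrable _ _) fun t ht => ?_
      exact MC.phi_antitone (hy.trans ht.1) ht.2
    simpa using h1
  have hphi : ∀ y : ℝ, Real.exp (-1 - y ^ 2 / 2) ≤ phi y := by
    intro y
    have hs : Real.sqrt (2 * Real.pi) ≤ Real.exp 1 := by
      rw [Real.sqrt_le_left (Real.exp_pos 1).le]
      have h1 := Real.exp_one_gt_d9
      have h2 := Real.pi_lt_d2
      nlinarith
    have h0 := MC.sqrt_two_pi_pos
    unfold phi
    rw [le_div_iff₀ h0]
    calc Real.exp (-1 - y ^ 2 / 2) * Real.sqrt (2 * Real.pi)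
        ≤ Real.exp (-1 - y ^ 2 / 2) * Real.exp 1 :=
          mul_le_mul_of_nonneg_left hs (Real.exp_pos _).le
      _ = Real.exp (-y ^ 2 / 2) := by rw [← Real.exp_add]; congr 1; ring
  have hPhlow : ∀ y : ℝ, 0 ≤ y → Real.exp (-(2 + y ^ 2)) ≤ Ph y := by
    intro y _
    have := logPh_ge y
    calc Real.exp (-(2 + y ^ 2)) ≤ Real.exp (Real.log (Ph y)) := Real.exp_le_exp.2 this
      _ = Ph y := Real.exp_log (Ph_pos y)
  refine ⟨4 + 8 / c ^ 2, by positivity, fun lam x hlam1 hlam2 => ?_⟩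
  have hmono : Pl l x ≤ Pl lam x := Pl_mono hl1.le (by have := min_le_left e 1; linarith) hlam2
  refine le_trans ?_ ((key x).trans hmono)
  have hx0 := abs_nonneg x
  have hxs := sq_abs x
  have b1 := (hphi (|x| + 1)).trans (hdiff |x| hx0)
  have b2 := hPhlow ((2 * |x| + 1) / c) (by positivity)
  refine le_trans ?_ (mul_le_mul b1 b2 (Real.exp_pos _).le ((Real.exp_pos _).le.trans b1))
  rw [← Real.exp_add]
  refine Real.exp_le_exp.2 ?_
  have h9 : ((2 * |x| + 1) / c) ^ 2 ≤ 8 / c ^ 2 * (1 + x ^ 2) := by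
    rw [div_pow, div_mul_eq_mul_div]
    refine div_le_div_of_nonneg_right ?_ (by positivity)
    nlinarith [sq_nonneg (|x| - 1)]
  have h10 : (|x| + 1) ^ 2 / 2 ≤ 1 + x ^ 2 := by nlinarith [sq_nonneg (|x| - 1)]
  nlinarith [sq_nonneg x]

/-- `|log Pl lam x| ≤ C (1 + x²)` uniformly for `lam ≥ -1 + e` -/
theorem abs_log_Pl_le {e : ℝ} (he : 0 < e) : ∃ C : ℝ, 0 < C ∧ ∀ lam x : ℝ, -1 + e ≤ lam → lam ≤ 1 →
    |Real.log (Pl lam x)| ≤ C * (1 + x ^ 2) := by
  obtain ⟨C, hC, h⟩ := Pl_ge_exp he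
  refine ⟨C, hC, fun lam x h1 h2 => ?_⟩
  have hp := Pl_pos (lt_of_lt_of_le (by linarith : (-1:ℝ) < -1 + e) h1) h2 x
  have hle : Real.log (Pl lam x) ≤ 0 := Real.log_nonpos hp.le (Pl_le_one _ _)
  have hge := Real.log_le_log (Real.exp_pos _) (h lam x h1 h2)
  rw [Real.log_exp] at hge
  rw [abs_of_nonpos hle]
  linarith

end Pool.Agent.IP49
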