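import Pool.Agent.IP49.ContA
import Pool.Agent.IP49.PlA
import Pool.Agent.IP49.LIdB

/-!
IP49, (L*): exact identities for the tests `th = lam` and `l = -e, s = 1`.
-/

set_option autoImplicit false
open MeasureTheory ProbabilityTheory Filter Topology

namespace Pool.Agent.IP49

/-- spin part of the free entropy -/
noncomputable def sZ (ψ : ℝ) : ℝ := (GE fun x => lc (Real.sqrt ψ * x)) - ψ * (1 - qp ψ)

/-- constraint part of the free entropy -/
noncomputable def cZ (κ ψ : ℝ) : ℝ :=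
  (1 - qp ψ) * ψ / 2 + al κ 0 ψ * GE fun x => Real.log (Ph (zz κ ψ x))

theorem GG_eq (κ ψ : ℝ) : GG κ ψ = sZ ψ + cZ κ ψ := by
  unfold GG sZ cZ zz; ring

theorem sqrt_one_sub_pos (ψ : ℝ) : 0 < Real.sqrt (1 - qp ψ) :=
  Real.sqrt_pos.2 (by have := qp_lt_one (ψ := ψ); linarith)

theorem continuous_zz (κ ψ : ℝ) : Continuous (zz κ ψ) := by unfold zz; fun_prop

theorem FF_zz (κ ψ x : ℝ) :
    FF κ 0 (qp ψ) (Real.sqrt (qp ψ) * x) = Mi (zz κ ψ x) / Real.sqrt (1 - qp ψ) := by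
  unfold FF tp zz; rw [add_zero]

theorem gf_zz (κ ψ x : ℝ) :
    gf κ 0 (qp ψ) (Real.sqrt (qp ψ) * x) = Md (zz κ ψ x) / (1 - qp ψ) := by
  unfold gf tp zz
  rw [add_zero, Real.sq_sqrt (by have := qp_lt_one (ψ := ψ); linarith)]

theorem al_Mi2 (κ ψ : ℝ) :
    al κ 0 ψ * (GE fun x => Mi (zz κ ψ x) ^ 2) = (1 - qp ψ) * ψ := by
  have h := al_EF2 (κ := κ) (ν := 0) (ψ := ψ) le_rfl
  have hq : 0 < 1 - qp ψ := by have := qp_lt_one (ψ := ψ); linarith
  have e : (fun x => FF κ 0 (qp ψ) (Real.sqrt (qp ψ) * x) ^ 2)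
      = fun x => (1 - qp ψ)⁻¹ * Mi (zz κ ψ x) ^ 2 := by
    funext x
    rw [FF_zz, div_pow, Real.sq_sqrt hq.le]; ring
  rw [e, GE_mul] at h
  field_simp at h
  linarith

theorem al_Md2 (κ ψ : ℝ) :
    al κ 0 ψ * (GE fun x => Md (zz κ ψ x) ^ 2) * ES2 ψ = (1 - qp ψ) ^ 2 * AT κ 0 ψ := by
  have hq : 0 < 1 - qp ψ := by have := qp_lt_one (ψ := ψ); linarith
  have e : (fun x => gf κ 0 (qp ψ) (Real.sqrt (qp ψ) * x) ^ 2)
      = fun x => ((1 - qp ψ) ^ 2)⁻¹ * Md (zz κ ψ x) ^ 2 := by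
    funext x
    rw [gf_zz, div_pow]; ring
  unfold AT
  rw [e, GE_mul]
  field_simp

theorem growth_zz (κ ψ : ℝ) : ∃ C : ℝ, 0 ≤ C ∧ ∀ x, 1 + zz κ ψ x ^ 2 ≤ C * (1 + x ^ 2) := by
  have ht := sqrt_one_sub_pos ψ
  set t := Real.sqrt (1 - qp ψ) with htd
  refine ⟨1 + 2 * (κ ^ 2 + Real.sqrt (qp ψ) ^ 2) / t ^ 2, by positivity, fun x => ?_⟩
  have h1 : zz κ ψ x ^ 2 = (κ - Real.sqrt (qp ψ) * x) ^ 2 / t ^ 2 := by
    unfold zz; rw [div_pow]
  have h2 : (κ - Real.sqrt (qp ψ) * x) ^ 2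
      ≤ 2 * (κ ^ 2 + Real.sqrt (qp ψ) ^ 2) * (1 + x ^ 2) := by
    nlinarith [sq_nonneg (κ + Real.sqrt (qp ψ) * x), sq_nonneg (κ * x), sq_nonneg (Real.sqrt (qp ψ))]
  rw [h1]
  have h3 : (κ - Real.sqrt (qp ψ) * x) ^ 2 / t ^ 2
      ≤ 2 * (κ ^ 2 + Real.sqrt (qp ψ) ^ 2) * (1 + x ^ 2) / t ^ 2 :=
    div_le_div_of_nonneg_right h2 (by positivity)
  have h4 : 2 * (κ ^ 2 + Real.sqrt (qp ψ) ^ 2) * (1 + x ^ 2) / t ^ 2
      = 2 * (κ ^ 2 + Real.sqrt (qp ψ) ^ 2) / t ^ 2 * (1 + x ^ 2) := by ring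
  nlinarith [sq_nonneg x]

/-- integrability of continuous functions of `zz` with quadratic growth -/
theorem integrable_zz {G : ℝ → ℝ} (hG : Continuous G) {C : ℝ}
    (hb : ∀ u, |G u| ≤ C * (1 + u ^ 2)) (κ ψ : ℝ) :
    Integrable (fun x => G (zz κ ψ x)) (gaussianReal 0 1) := by
  obtain ⟨D, hD, h⟩ := growth_zz κ ψ
  have hC : 0 ≤ C := by
    have := (abs_nonneg _).trans (hb 0)
    simpa using this
  refine integrable_of_growth (hG.comp (continuous_zz κ ψ)).measurable (C := C * D) (k := 1)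
    fun x => ?_
  rw [pow_one, mul_assoc]
  exact (hb _).trans (mul_le_mul_of_nonneg_left (h x) hC)

theorem continuous_logPh : Continuous fun u : ℝ => Real.log (Ph u) :=
  continuous_iff_continuousAt.2 fun x => (hasDerivAt_logPh x).continuousAt

theorem logPh_growth (u : ℝ) : |Real.log (Ph u)| ≤ 2 * (1 + u ^ 2) := by
  rw [abs_of_nonpos (logPh_nonpos u)]
  have := logPh_ge u
  nlinarith [sq_nonneg u]

theorem Mi_sq_growth (u : ℝ) : |Mi u ^ 2| ≤ 2 * (1 + u ^ 2) := by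
  rw [abs_of_nonneg (sq_nonneg _)]
  have h1 := Mi_le_abs u
  have h2 := Mi_pos u
  have h3 : Mi u ^ 2 ≤ (1 + |u|) ^ 2 := pow_le_pow_left₀ h2.le h1 2
  have h4 : (1 + |u|) ^ 2 ≤ 2 * (1 + u ^ 2) := by
    have := sq_abs u
    nlinarith [sq_nonneg (1 - |u|)]
  linarith

/-- the tilted log pair probability: continuity and growth -/
theorem continuous_logPl {lam : ℝ} (h1 : -1 < lam) (h2 : lam ≤ 1) (th : ℝ) :
    Continuous fun u : ℝ => Real.log (Pl lam (u + th * Mi u)) :=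
  ((continuous_Pl_x ⟨h1.le, h2⟩).comp (continuous_id.add (continuous_Mi.const_mul th))).log
    fun _ => (Pl_pos h1 h2 _).ne'

theorem tilt_growth (th u : ℝ) : 1 + (u + th * Mi u) ^ 2 ≤ (3 + 4 * th ^ 2) * (1 + u ^ 2) := by
  have h := Mi_sq_growth u
  rw [abs_of_nonneg (sq_nonneg _)] at h
  have h2 : (u + th * Mi u) ^ 2 ≤ 2 * u ^ 2 + 2 * (th ^ 2 * Mi u ^ 2) := by
    nlinarith [sq_nonneg (u - th * Mi u)]
  have h3 := mul_le_mul_of_nonneg_left h (sq_nonneg th)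
  nlinarith [sq_nonneg u]

theorem logPl_growth {lam : ℝ} (h1 : -1 < lam) (h2 : lam ≤ 1) (th : ℝ) :
    ∃ C : ℝ, 0 ≤ C ∧ ∀ u : ℝ, |Real.log (Pl lam (u + th * Mi u))| ≤ C * (1 + u ^ 2) := by
  obtain ⟨C, hC, h⟩ := abs_log_Pl_le (e := 1 + lam) (by linarith)
  refine ⟨C * (3 + 4 * th ^ 2), by positivity, fun u => ?_⟩
  refine (h lam _ (by linarith) h2).trans ?_
  rw [mul_assoc]
  exact mul_le_mul_of_nonneg_left (tilt_growth th u) hC.le

theorem Tl_pos {lam : ℝ} (h1 : -1 < lam) (h2 : lam ≤ 1) (z : ℝ) : 0 < Tl lam z :=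
  div_pos (mul_pos (Pl_pos h1 h2 _) (Real.exp_pos _)) (pow_pos (Ph_pos z) 2)

theorem log_Tl {lam : ℝ} (h1 : -1 < lam) (h2 : lam ≤ 1) (z : ℝ) :
    Real.log (Tl lam z) = Real.log (Pl lam (z + lam * Mi z)) + lam * Mi z ^ 2
      - 2 * Real.log (Ph z) := by
  unfold Tl
  rw [Real.log_div (mul_pos (Pl_pos h1 h2 _) (Real.exp_pos _)).ne' (pow_pos (Ph_pos z) 2).ne',
    Real.log_mul (Pl_pos h1 h2 _).ne' (Real.exp_pos _).ne', Real.log_exp, Real.log_pow]
  push_cast
  ring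

/-- **the constraint exponent with tilt `th = lam`** -/
theorem con_lam {κ ψ lam : ℝ} (h1 : -1 < lam) (h2 : lam ≤ 1) :
    con κ ψ lam lam = 2 * cZ κ ψ + al κ 0 ψ * GE fun x => Real.log (Tl lam (zz κ ψ x)) := by
  obtain ⟨C, hC, hg⟩ := logPl_growth h1 h2 lam
  have i1 : Integrable (fun x => Real.log (Pl lam (zz κ ψ x + lam * Mi (zz κ ψ x))))
      (gaussianReal 0 1) := integrable_zz (continuous_logPl h1 h2 lam) hg κ ψ
  have i2 : Integrable (fun x => lam * Mi (zz κ ψ x) ^ 2) (gaussianReal 0 1) :=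
    (integrable_zz (continuous_Mi.pow 2) Mi_sq_growth κ ψ).const_mul lam
  have i3 : Integrable (fun x => Real.log (Ph (zz κ ψ x))) (gaussianReal 0 1) :=
    integrable_zz continuous_logPh logPh_growth κ ψ
  have e : (GE fun x => Real.log (Tl lam (zz κ ψ x)))
      = (GE fun x => Real.log (Pl lam (zz κ ψ x + lam * Mi (zz κ ψ x))))
        + lam * (GE fun x => Mi (zz κ ψ x) ^ 2) - 2 * GE fun x => Real.log (Ph (zz κ ψ x)) := by
    have i12 : Integrable (fun x => Real.log (Pl lam (zz κ ψ x + lam * Mi (zz κ ψ x)))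
      + lam * Mi (zz κ ψ x) ^ 2) (gaussianReal 0 1) := i1.add i2
    unfold GE
    rw [← integral_const_mul, ← integral_const_mul, ← integral_add i1 i2,
      ← integral_sub i12 (i3.const_mul 2)]
    congr 1
    funext x
    exact log_Tl h1 h2 _
  unfold con cZ
  rw [e]
  have hM := al_Mi2 κ ψ
  have h3 : (1 + lam) ^ 2 * (1 - qp ψ) * ψ / (1 + lam) = (1 + lam) * ((1 - qp ψ) * ψ) := by
    have : (1 + lam) ≠ 0 := by linarith
    field_simp
  rw [h3]
  have h4 : al κ 0 ψ * (lam * GE fun x => Mi (zz κ ψ x) ^ 2) = lam * ((1 - qp ψ) * ψ) := by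
    rw [← hM]; ring
  linear_combination -h4

/-! ### spin side -/

/-- the normalised pair partition function of the spins with centred coupling -/
noncomputable def Me (e h : ℝ) : ℝ :=
  ((1 + Real.tanh h) / 2) ^ 2 * Real.exp (e * (1 - Real.tanh h) ^ 2)
    + ((1 - Real.tanh h) / 2) ^ 2 * Real.exp (e * (1 + Real.tanh h) ^ 2)
    + 2 * ((1 + Real.tanh h) / 2) * ((1 - Real.tanh h) / 2)
      * Real.exp (-(e * (1 - Real.tanh h ^ 2)))

theorem tanh_lt' (h : ℝ) : -1 < Real.tanh h ∧ Real.tanh h < 1 := by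
  have := tanh_sq_lt h
  constructor <;> nlinarith [sq_nonneg (Real.tanh h + 1), sq_nonneg (Real.tanh h - 1)]

theorem Me_pos (e h : ℝ) : 0 < Me e h := by
  obtain ⟨h1, h2⟩ := tanh_lt' h
  unfold Me
  have a : 0 < (1 + Real.tanh h) / 2 := by linarith
  have b : 0 < (1 - Real.tanh h) / 2 := by linarith
  positivity

theorem one_add_tanh (h : ℝ) : (1 + Real.tanh h) / 2 * (2 * Real.cosh h) = Real.exp h := by
  rw [Real.tanh_eq_sinh_div_cosh]
  have hc := (Real.cosh_pos h).ne'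
  field_simp
  rw [Real.cosh_add_sinh]

theorem one_sub_tanh (h : ℝ) : (1 - Real.tanh h) / 2 * (2 * Real.cosh h) = Real.exp (-h) := by
  rw [Real.tanh_eq_sinh_div_cosh]
  have hc := (Real.cosh_pos h).ne'
  field_simp
  rw [Real.cosh_sub_sinh]

theorem Me_identity (e h : ℝ) :
    2 * Real.exp e * Real.cosh (2 * (-e * Real.tanh h + 1 * h)) + 2 * Real.exp (-e)
      = (2 * Real.cosh h) ^ 2 * Real.exp (-e * Real.tanh h ^ 2) * Me e h := by
  have h1 := one_add_tanh h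
  have h2 := one_sub_tanh h
  set m := Real.tanh h with hm
  set c := 2 * Real.cosh h with hc
  have h3 : c ^ 2 * Real.exp (-e * m ^ 2) * Me e h
      = ((1 + m) / 2 * c) ^ 2 * (Real.exp (-e * m ^ 2) * Real.exp (e * (1 - m) ^ 2))
        + ((1 - m) / 2 * c) ^ 2 * (Real.exp (-e * m ^ 2) * Real.exp (e * (1 + m) ^ 2))
        + 2 * ((1 + m) / 2 * c) * ((1 - m) / 2 * c)
          * (Real.exp (-e * m ^ 2) * Real.exp (-(e * (1 - m ^ 2)))) := by
    unfold Me; rw [← hm]; ring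
  rw [h3, h1, h2, Real.cosh_eq, ← Real.exp_add, ← Real.exp_add, ← Real.exp_add]
  have e1 : Real.exp h ^ 2 * Real.exp (-e * m ^ 2 + e * (1 - m) ^ 2)
      = Real.exp e * Real.exp (2 * (-e * m + 1 * h)) := by
    rw [← Real.exp_nat_mul, ← Real.exp_add, ← Real.exp_add]; congr 1; push_cast; ring
  have e2 : Real.exp (-h) ^ 2 * Real.exp (-e * m ^ 2 + e * (1 + m) ^ 2)
      = Real.exp e * Real.exp (-(2 * (-e * m + 1 * h))) := by
    rw [← Real.exp_nat_mul, ← Real.exp_add, ← Real.exp_add]; congr 1; push_cast; ring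
  have e3 : 2 * Real.exp h * Real.exp (-h) * Real.exp (-e * m ^ 2 + -(e * (1 - m ^ 2)))
      = 2 * Real.exp (-e) := by
    rw [mul_assoc 2, ← Real.exp_add, mul_assoc, ← Real.exp_add]; congr 2; ring
  rw [e1, e2, e3]
  ring

theorem log_Me_eq (e h : ℝ) :
    Real.log (2 * Real.exp e * Real.cosh (2 * (-e * Real.tanh h + 1 * h)) + 2 * Real.exp (-e))
      = 2 * lc h - e * Real.tanh h ^ 2 + Real.log (Me e h) := by
  rw [Me_identity]
  have hc : 0 < 2 * Real.cosh h := by have := Real.cosh_pos h; linarith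
  rw [Real.log_mul (by positivity) (Me_pos e h).ne', Real.log_mul (by positivity)
    (Real.exp_pos _).ne', Real.log_pow, Real.log_exp]
  unfold lc
  push_cast
  ring

theorem Me_bounds (e h : ℝ) : Real.exp (-(4 * |e|)) ≤ Me e h ∧ Me e h ≤ Real.exp (4 * |e|) := by
  obtain ⟨h1, h2⟩ := tanh_lt' h
  unfold Me
  set m := Real.tanh h
  set a := (1 + m) / 2 with ha
  set b := (1 - m) / 2 with hb
  have ha0 : 0 < a := by rw [ha]; linarith
  have hb0 : 0 < b := by rw [hb]; linarith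
  have hab : a + b = 1 := by rw [ha, hb]; ring
  have k1 : (1 - m) ^ 2 ≤ 4 := by nlinarith
  have k2 : (1 + m) ^ 2 ≤ 4 := by nlinarith
  have k3 : (1 - m ^ 2) ≤ 4 := by nlinarith [sq_nonneg m]
  have k4 : 0 ≤ 1 - m ^ 2 := by nlinarith
  have habs : ∀ t : ℝ, 0 ≤ t → t ≤ 4 → |e * t| ≤ 4 * |e| := by
    intro t ht0 ht
    rw [abs_mul, abs_of_nonneg ht0]
    nlinarith [abs_nonneg e]
  have b1 := habs _ (sq_nonneg (1 - m)) k1
  have b2 := habs _ (sq_nonneg (1 + m)) k2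
  have b3 := habs _ k4 k3
  rw [abs_le] at b1 b2 b3
  have u1 := Real.exp_le_exp.2 b1.2
  have u2 := Real.exp_le_exp.2 b2.2
  have u3 : Real.exp (-(e * (1 - m ^ 2))) ≤ Real.exp (4 * |e|) :=
    Real.exp_le_exp.2 (by linarith [b3.1])
  have l1 := Real.exp_le_exp.2 b1.1
  have l2 := Real.exp_le_exp.2 b2.1
  have l3 : Real.exp (-(4 * |e|)) ≤ Real.exp (-(e * (1 - m ^ 2))) :=
    Real.exp_le_exp.2 (by linarith [b3.2])
  have hsum : a ^ 2 + b ^ 2 + 2 * a * b = 1 := by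
    calc a ^ 2 + b ^ 2 + 2 * a * b = (a + b) ^ 2 := by ring
      _ = 1 := by rw [hab]; ring
  have hab2 : 0 ≤ 2 * a * b := by positivity
  constructor
  · calc Real.exp (-(4 * |e|)) = (a ^ 2 + b ^ 2 + 2 * a * b) * Real.exp (-(4 * |e|)) := by
          rw [hsum, one_mul]
      _ ≤ _ := by
          have q1 := mul_le_mul_of_nonneg_left l1 (sq_nonneg a)
          have q2 := mul_le_mul_of_nonneg_left l2 (sq_nonneg b)
          have q3 := mul_le_mul_of_nonneg_left l3 hab2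
          linarith
  · calc _ ≤ (a ^ 2 + b ^ 2 + 2 * a * b) * Real.exp (4 * |e|) := by
          have q1 := mul_le_mul_of_nonneg_left u1 (sq_nonneg a)
          have q2 := mul_le_mul_of_nonneg_left u2 (sq_nonneg b)
          have q3 := mul_le_mul_of_nonneg_left u3 hab2
          linarith
      _ = Real.exp (4 * |e|) := by rw [hsum, one_mul]

theorem continuous_Me (e : ℝ) : Continuous (Me e) := by
  unfold Me
  have := continuous_tanh'
  fun_prop

theorem continuous_lc : Continuous lc :=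
  continuous_iff_continuousAt.2 fun x => (hasDerivAt_lc x).continuousAt

theorem integrable_logMe (e ψ : ℝ) :
    Integrable (fun x => Real.log (Me e (Real.sqrt ψ * x))) (gaussianReal 0 1) := by
  have hc : Continuous fun x => Real.log (Me e (Real.sqrt ψ * x)) :=
    ((continuous_Me e).comp (by fun_prop)).log fun x => (Me_pos e _).ne'
  refine integrable_of_growth hc.measurable (C := 4 * |e|) (k := 0) fun x => ?_
  rw [pow_zero, mul_one]
  obtain ⟨h1, h2⟩ := Me_bounds e (Real.sqrt ψ * x)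
  have g1 := Real.log_le_log (Real.exp_pos _) h1
  have g2 := Real.log_le_log (Me_pos e _) h2
  rw [Real.log_exp] at g1 g2
  rw [abs_le]
  exact ⟨g1, g2⟩

theorem integrable_lc (ψ : ℝ) : Integrable (fun x => lc (Real.sqrt ψ * x)) (gaussianReal 0 1) := by
  refine integrable_of_growth (continuous_lc.comp (by fun_prop)).measurable
    (C := 1 + Real.sqrt ψ) (k := 1) fun x => ?_
  obtain ⟨h1, h2⟩ := lc_bounds (Real.sqrt ψ * x)
  have h3 : Real.log 2 ≤ 1 := by have := Real.log_two_lt_d9; linarith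
  have h4 : |Real.sqrt ψ * x| ≤ Real.sqrt ψ * ((1 + x ^ 2)) := by
    rw [abs_mul, abs_of_nonneg (Real.sqrt_nonneg _)]
    apply mul_le_mul_of_nonneg_left _ (Real.sqrt_nonneg _)
    have := sq_abs x
    nlinarith [sq_nonneg (|x| - 1)]
  rw [abs_of_nonneg ((abs_nonneg _).trans h1), pow_one]
  nlinarith [sq_nonneg x, Real.sqrt_nonneg ψ]

theorem integrable_tanh_sq (ψ : ℝ) :
    Integrable (fun x => Real.tanh (Real.sqrt ψ * x) ^ 2) (gaussianReal 0 1) := by
  have hc : Continuous fun x => Real.tanh (Real.sqrt ψ * x) ^ 2 :=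
    (continuous_tanh'.comp (by fun_prop)).pow 2
  refine integrable_of_growth hc.measurable (C := 1) (k := 0) fun x => ?_
  rw [abs_of_nonneg (sq_nonneg _), pow_zero, mul_one]
  exact (tanh_sq_lt _).le

/-- **the spin exponent with centred coupling** -/
theorem sp_centred (ψ lam e : ℝ) :
    sp ψ lam (-e) 1 e = 2 * sZ ψ + (GE fun x => Real.log (Me e (Real.sqrt ψ * x)))
      - e * lam * (1 - qp ψ) := by
  have e1 : (GE fun x => Real.log (2 * Real.exp e
      * Real.cosh (2 * (-e * Real.tanh (Real.sqrt ψ * x) + 1 * (Real.sqrt ψ * x)))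
      + 2 * Real.exp (-e)))
      = 2 * (GE fun x => lc (Real.sqrt ψ * x)) - e * qp ψ
        + GE fun x => Real.log (Me e (Real.sqrt ψ * x)) := by
    have i12 : Integrable (fun x => 2 * lc (Real.sqrt ψ * x)
      - e * Real.tanh (Real.sqrt ψ * x) ^ 2) (gaussianReal 0 1) :=
      ((integrable_lc ψ).const_mul 2).sub ((integrable_tanh_sq ψ).const_mul e)
    unfold qp GE
    rw [← integral_const_mul, ← integral_const_mul,
      ← integral_sub ((integrable_lc ψ).const_mul 2) ((integrable_tanh_sq ψ).const_mul e),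
      ← integral_add i12 (integrable_logMe e ψ)]
    congr 1
    funext x
    exact log_Me_eq e _
  unfold sp sZ
  rw [e1]
  ring

end Pool.Agent.IP49
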