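import Pool.Agent.IP49.LSmA
import Pool.Agent.IP49.LCoef

/-!
IP49, (L*): the neighbourhood of `lam = 0`.
-/

set_option autoImplicit false
open MeasureTheory ProbabilityTheory Filter Topology

namespace Pool.Agent.IP49

theorem exp_le_quad {t e : ℝ} (h : |t| ≤ 4 * |e|) (he : |e| ≤ 1 / 4) :
    Real.exp t ≤ 1 + t + t ^ 2 / 2 + 15 * |e| ^ 3 := by
  have ht : |t| ≤ 1 := by linarith
  have h1 := Real.exp_bound ht (n := 3) (by norm_num)
  simp only [Finset.sum_range_succ, Finset.sum_range_zero, Nat.factorial] at h1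
  norm_num at h1
  rw [abs_le] at h1
  have h2 : |t| ^ 3 ≤ (4 * |e|) ^ 3 := pow_le_pow_left₀ (abs_nonneg _) h 3
  have h3 : 0 ≤ |e| ^ 3 := pow_nonneg (abs_nonneg _) 3
  nlinarith [h1.2]

theorem Me_le (e h : ℝ) (he : |e| ≤ 1 / 4) :
    Me e h ≤ 1 + e ^ 2 * (1 - Real.tanh h ^ 2) ^ 2 / 2 + 15 * |e| ^ 3 := by
  obtain ⟨h1, h2⟩ := tanh_lt' h
  unfold Me
  set m := Real.tanh h
  set a := (1 + m) / 2 with ha
  set b := (1 - m) / 2 with hb
  have ha0 : 0 < a := by rw [ha]; linarith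
  have hb0 : 0 < b := by rw [hb]; linarith
  have k1 : (1 - m) ^ 2 ≤ 4 := by nlinarith
  have k2 : (1 + m) ^ 2 ≤ 4 := by nlinarith
  have k3 : (1 - m ^ 2) ≤ 4 := by nlinarith [sq_nonneg m]
  have k4 : 0 ≤ 1 - m ^ 2 := by nlinarith
  have habs : ∀ t : ℝ, 0 ≤ t → t ≤ 4 → |e * t| ≤ 4 * |e| := by
    intro t ht0 ht
    rw [abs_mul, abs_of_nonneg ht0]
    nlinarith [abs_nonneg e]
  have b1 := exp_le_quad (habs _ (sq_nonneg (1 - m)) k1) he
  have b2 := exp_le_quad (habs _ (sq_nonneg (1 + m)) k2) he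
  have b3 := exp_le_quad (t := -(e * (1 - m ^ 2))) (e := e)
    (by rw [abs_neg]; exact habs _ k4 k3) he
  have q1 := mul_le_mul_of_nonneg_left b1 (sq_nonneg a)
  have q2 := mul_le_mul_of_nonneg_left b2 (sq_nonneg b)
  have q3 := mul_le_mul_of_nonneg_left b3 (by positivity : 0 ≤ 2 * a * b)
  have key : a ^ 2 * (1 + e * (1 - m) ^ 2 + (e * (1 - m) ^ 2) ^ 2 / 2 + 15 * |e| ^ 3)
      + b ^ 2 * (1 + e * (1 + m) ^ 2 + (e * (1 + m) ^ 2) ^ 2 / 2 + 15 * |e| ^ 3)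
      + 2 * a * b * (1 + -(e * (1 - m ^ 2)) + (-(e * (1 - m ^ 2))) ^ 2 / 2 + 15 * |e| ^ 3)
      = 1 + e ^ 2 * (1 - m ^ 2) ^ 2 / 2 + 15 * |e| ^ 3 := by
    rw [ha, hb]; ring
  linarith

theorem log_le_sub_one {x : ℝ} (hx : 0 < x) : Real.log x ≤ x - 1 := Real.log_le_sub_one_of_pos hx

theorem GE_logMe_le (e ψ : ℝ) (he : |e| ≤ 1 / 4) :
    (GE fun x => Real.log (Me e (Real.sqrt ψ * x))) ≤ e ^ 2 * ES2 ψ / 2 + 15 * |e| ^ 3 := by
  have hc : Continuous fun x => (1 - Real.tanh (Real.sqrt ψ * x) ^ 2) ^ 2 :=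
    (continuous_const.sub ((continuous_tanh'.comp (by fun_prop)).pow 2)).pow 2
  have hi : Integrable (fun x => (1 - Real.tanh (Real.sqrt ψ * x) ^ 2) ^ 2) (gaussianReal 0 1) := by
    refine integrable_of_growth hc.measurable (C := 1) (k := 0) fun x => ?_
    rw [abs_of_nonneg (sq_nonneg _), pow_zero, mul_one]
    have h1 := tanh_sq_lt (Real.sqrt ψ * x)
    have h3 := sq_nonneg (Real.tanh (Real.sqrt ψ * x))
    nlinarith
  have hi2 : Integrable (fun x => (e ^ 2 / 2) * (1 - Real.tanh (Real.sqrt ψ * x) ^ 2) ^ 2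
      + 15 * |e| ^ 3) (gaussianReal 0 1) := (hi.const_mul _).add (integrable_const _)
  have h1 : (GE fun x => Real.log (Me e (Real.sqrt ψ * x)))
      ≤ GE fun x => (e ^ 2 / 2) * (1 - Real.tanh (Real.sqrt ψ * x) ^ 2) ^ 2 + 15 * |e| ^ 3 := by
    apply GE_mono (integrable_logMe e ψ) hi2
    intro x
    have := log_le_sub_one (Me_pos e (Real.sqrt ψ * x))
    have := Me_le e (Real.sqrt ψ * x) he
    linarith
  refine h1.trans (le_of_eq ?_)
  rw [GE_add (hi.const_mul _) (integrable_const _), GE_mul, GE_const]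
  unfold ES2
  ring

theorem continuous_Tl_zz {lam : ℝ} (h1 : -1 < lam) (h2 : lam ≤ 1) :
    Continuous fun u : ℝ => Real.log (Tl lam u) := by
  have e : (fun u : ℝ => Real.log (Tl lam u)) = fun u => Real.log (Pl lam (u + lam * Mi u))
      + lam * Mi u ^ 2 - 2 * Real.log (Ph u) := by
    funext u; exact log_Tl h1 h2 u
  rw [e]
  exact ((continuous_logPl h1 h2 lam).add ((continuous_Mi.pow 2).const_mul lam)).sub
    (continuous_logPh.const_mul 2)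

theorem logTl_growth {lam : ℝ} (h1 : -1 < lam) (h2 : lam ≤ 1) :
    ∃ C : ℝ, ∀ u : ℝ, |Real.log (Tl lam u)| ≤ C * (1 + u ^ 2) := by
  obtain ⟨C, hC, h⟩ := logPl_growth h1 h2 lam
  refine ⟨C + |lam| * 2 + 4, fun u => ?_⟩
  rw [log_Tl h1 h2]
  have a1 := h u
  have a2 := Mi_sq_growth u
  have a3 := logPh_growth u
  have a4 : |lam * Mi u ^ 2| ≤ |lam| * (2 * (1 + u ^ 2)) := by
    rw [abs_mul]; exact mul_le_mul_of_nonneg_left a2 (abs_nonneg _)
  calc |Real.log (Pl lam (u + lam * Mi u)) + lam * Mi u ^ 2 - 2 * Real.log (Ph u)|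
      ≤ |Real.log (Pl lam (u + lam * Mi u)) + lam * Mi u ^ 2| + |2 * Real.log (Ph u)| := abs_sub _ _
    _ ≤ |Real.log (Pl lam (u + lam * Mi u))| + |lam * Mi u ^ 2| + |2 * Real.log (Ph u)| := by
        linarith [abs_add_le (Real.log (Pl lam (u + lam * Mi u))) (lam * Mi u ^ 2)]
    _ ≤ (C + |lam| * 2 + 4) * (1 + u ^ 2) := by
        have : |2 * Real.log (Ph u)| = 2 * |Real.log (Ph u)| := by
          rw [abs_mul]; norm_num
        rw [this]; nlinarith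

theorem GE_logTl_le {lam : ℝ} (hl : |lam| < 1) (κ ψ : ℝ) :
    (GE fun x => Real.log (Tl lam (zz κ ψ x)))
      ≤ lam ^ 2 * (GE fun x => Md (zz κ ψ x) ^ 2) / 2 + |lam| ^ 3 * GE fun x => T1 (zz κ ψ x) := by
  have h1 : -1 < lam := by rw [abs_lt] at hl; exact hl.1
  have h2 : lam ≤ 1 := by rw [abs_lt] at hl; exact hl.2.le
  obtain ⟨C, hC⟩ := logTl_growth h1 h2
  have i1 := integrable_zz (continuous_Tl_zz h1 h2) hC κ ψ
  have i2 : Integrable (fun x => Md (zz κ ψ x) ^ 2) (gaussianReal 0 1) := by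
    refine integrable_zz (continuous_Md.pow 2) (C := 1) (fun u => ?_) κ ψ
    have a := Md_pos u
    have b := Md_lt_one u
    show |Md u ^ 2| ≤ 1 * (1 + u ^ 2)
    rw [abs_of_nonneg (sq_nonneg _)]
    nlinarith [sq_nonneg u]
  have i3 : Integrable (fun x => T1 (zz κ ψ x)) (gaussianReal 0 1) := by
    refine integrable_zz continuous_T1 (C := 16) (fun u => ?_) κ ψ
    rw [abs_of_pos (T1_pos u)]
    have := T1_le u
    have h3 := sq_abs u
    nlinarith [sq_nonneg (|u| - 1)]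
  have i4 : Integrable (fun x => (lam ^ 2 / 2) * Md (zz κ ψ x) ^ 2
      + |lam| ^ 3 * T1 (zz κ ψ x)) (gaussianReal 0 1) := (i2.const_mul _).add (i3.const_mul _)
  have h3 : (GE fun x => Real.log (Tl lam (zz κ ψ x)))
      ≤ GE fun x => (lam ^ 2 / 2) * Md (zz κ ψ x) ^ 2 + |lam| ^ 3 * T1 (zz κ ψ x) := by
    apply GE_mono i1 i4
    intro x
    have := log_le_sub_one (Tl_pos h1 h2 (zz κ ψ x))
    have := Tl_le_three hl (zz κ ψ x)
    linarith
  refine h3.trans (le_of_eq ?_)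
  rw [GE_add (i2.const_mul _) (i3.const_mul _), GE_mul, GE_mul]
  ring

theorem ES2_pos (ψ : ℝ) : 0 < ES2 ψ := by
  have hc : Continuous fun x => (1 - Real.tanh (Real.sqrt ψ * x) ^ 2) ^ 2 :=
    (continuous_const.sub ((continuous_tanh'.comp (by fun_prop)).pow 2)).pow 2
  refine GE_pos ?_ fun x => ?_
  · refine integrable_of_growth hc.measurable (C := 1) (k := 0) fun x => ?_
    rw [abs_of_nonneg (sq_nonneg _), pow_zero, mul_one]
    have h1 := tanh_sq_lt (Real.sqrt ψ * x)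
    have h3 := sq_nonneg (Real.tanh (Real.sqrt ψ * x))
    nlinarith
  · have h1 := tanh_sq_lt (Real.sqrt ψ * x)
    exact pow_pos (by linarith) 2

/-- the quadratic bound near `lam = 0`, at every `κ` -/
theorem near_zero (κ ψ : ℝ) (hψ : 0 < ψ) {lam : ℝ} (hl : |lam| < 1)
    (hsmall : |(1 - qp ψ) / ES2 ψ * lam| ≤ 1 / 4) :
    sp ψ lam (-((1 - qp ψ) / ES2 ψ * lam)) 1 ((1 - qp ψ) / ES2 ψ * lam) + con κ ψ lam lam
      ≤ 2 * GG κ ψ + lam ^ 2 * ((1 - qp ψ) ^ 2 / (2 * ES2 ψ) * (AT κ 0 ψ - 1)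
        + |lam| * (15 * ((1 - qp ψ) / ES2 ψ) ^ 3 + al κ 0 ψ * GE fun x => T1 (zz κ ψ x))) := by
  have h1 : -1 < lam := by rw [abs_lt] at hl; exact hl.1
  have h2 : lam ≤ 1 := by rw [abs_lt] at hl; exact hl.2.le
  have hS := ES2_pos ψ
  have hq : 0 < 1 - qp ψ := by have := qp_lt_one (ψ := ψ); linarith
  rw [sp_centred, con_lam h1 h2, GG_eq]
  have hsp := GE_logMe_le ((1 - qp ψ) / ES2 ψ * lam) ψ hsmall
  have hcon := mul_le_mul_of_nonneg_left (GE_logTl_le hl κ ψ) (al_pos (κ := κ) le_rfl hψ).le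
  have hM := al_Md2 κ ψ
  have hM' : al κ 0 ψ * (GE fun x => Md (zz κ ψ x) ^ 2) = (1 - qp ψ) ^ 2 * AT κ 0 ψ / ES2 ψ := by
    rw [eq_div_iff hS.ne']; exact hM
  have habs : |(1 - qp ψ) / ES2 ψ * lam| ^ 3 = ((1 - qp ψ) / ES2 ψ) ^ 3 * |lam| ^ 3 := by
    rw [abs_mul, abs_of_pos (div_pos hq hS)]; ring
  rw [habs] at hsp
  have hl3 : |lam| ^ 3 = lam ^ 2 * |lam| := by
    rw [← sq_abs]; ring
  rw [hl3] at hsp hcon
  have e1 : al κ 0 ψ * (lam ^ 2 * (GE fun x => Md (zz κ ψ x) ^ 2) / 2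
      + lam ^ 2 * |lam| * GE fun x => T1 (zz κ ψ x))
      = lam ^ 2 / 2 * ((1 - qp ψ) ^ 2 * AT κ 0 ψ / ES2 ψ)
        + lam ^ 2 * |lam| * (al κ 0 ψ * GE fun x => T1 (zz κ ψ x)) := by
    rw [← hM']; ring
  rw [e1] at hcon
  have e2 : ((1 - qp ψ) / ES2 ψ * lam) ^ 2 * ES2 ψ / 2
      = lam ^ 2 * ((1 - qp ψ) ^ 2 / (2 * ES2 ψ)) := by
    field_simp
  rw [e2] at hsp
  have e3 : (1 - qp ψ) / ES2 ψ * lam * lam * (1 - qp ψ)
      = lam ^ 2 * (2 * ((1 - qp ψ) ^ 2 / (2 * ES2 ψ))) := by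
    field_simp
  rw [e3]
  have e4 : lam ^ 2 / 2 * ((1 - qp ψ) ^ 2 * AT κ 0 ψ / ES2 ψ)
      = lam ^ 2 * ((1 - qp ψ) ^ 2 / (2 * ES2 ψ) * AT κ 0 ψ) := by
    field_simp
  rw [e4] at hcon
  nlinarith [hsp, hcon]

end Pool.Agent.IP49
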