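import Pool.Agent.IP49.LSmB

/-!
IP49 (owner helper41): (L*) for small positive `κ` from the strict inequalities at `κ = 0`.
-/

set_option autoImplicit false
open MeasureTheory ProbabilityTheory Filter Topology

namespace Pool.Agent.IP49

theorem growth_zz' {κ : ℝ} (hκ : |κ| ≤ 1) (ψ x : ℝ) :
    1 + zz κ ψ x ^ 2
      ≤ (1 + 2 * (1 + Real.sqrt (qp ψ) ^ 2) / Real.sqrt (1 - qp ψ) ^ 2) * (1 + x ^ 2) := by
  have ht := sqrt_one_sub_pos ψ
  set t := Real.sqrt (1 - qp ψ) with htd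
  have hk2 : κ ^ 2 ≤ 1 := by rw [← sq_abs]; nlinarith [abs_nonneg κ]
  have h1 : zz κ ψ x ^ 2 = (κ - Real.sqrt (qp ψ) * x) ^ 2 / t ^ 2 := by
    unfold zz; rw [div_pow]
  have h2 : (κ - Real.sqrt (qp ψ) * x) ^ 2
      ≤ 2 * (1 + Real.sqrt (qp ψ) ^ 2) * (1 + x ^ 2) := by
    nlinarith [sq_nonneg (κ + Real.sqrt (qp ψ) * x), sq_nonneg x, sq_nonneg (Real.sqrt (qp ψ))]
  rw [h1]
  have h3 : (κ - Real.sqrt (qp ψ) * x) ^ 2 / t ^ 2
      ≤ 2 * (1 + Real.sqrt (qp ψ) ^ 2) * (1 + x ^ 2) / t ^ 2 :=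
    div_le_div_of_nonneg_right h2 (by positivity)
  have h4 : 2 * (1 + Real.sqrt (qp ψ) ^ 2) * (1 + x ^ 2) / t ^ 2
      = 2 * (1 + Real.sqrt (qp ψ) ^ 2) / t ^ 2 * (1 + x ^ 2) := by ring
  nlinarith [sq_nonneg x]

/-- the filter used for the pair `(κ, lam)` -/
def kfil (lam0 : ℝ) : Filter (ℝ × ℝ) := 𝓝[{p : ℝ × ℝ | p.2 ∈ Set.Icc (-1 : ℝ) 1}] (0, lam0)

instance (lam0 : ℝ) : (kfil lam0).IsCountablyGenerated := by unfold kfil; infer_instance

theorem kfil_fst (lam0 : ℝ) : Tendsto (fun p : ℝ × ℝ => p.1) (kfil lam0) (𝓝 0) :=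
  (continuous_fst.tendsto _).mono_left nhdsWithin_le_nhds

theorem kfil_snd (lam0 : ℝ) : Tendsto (fun p : ℝ × ℝ => p.2) (kfil lam0) (𝓝 lam0) :=
  (continuous_snd.tendsto _).mono_left nhdsWithin_le_nhds

theorem kfil_mem (lam0 : ℝ) : ∀ᶠ p in kfil lam0, p.2 ∈ Set.Icc (-1 : ℝ) 1 := self_mem_nhdsWithin

theorem zz_tendsto (lam0 ψ x : ℝ) :
    Tendsto (fun p : ℝ × ℝ => zz p.1 ψ x) (kfil lam0) (𝓝 (zz 0 ψ x)) := by
  unfold zz
  exact ((kfil_fst lam0).sub_const _).div_const _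

theorem con_tendsto {ψ th lam0 : ℝ} (h1 : -1 < lam0) (h2 : lam0 ≤ 1) :
    Tendsto (fun p : ℝ × ℝ => con p.1 ψ th p.2) (kfil lam0) (𝓝 (con 0 ψ th lam0)) := by
  have hal : Tendsto (fun p : ℝ × ℝ => al p.1 0 ψ) (kfil lam0) (𝓝 (al 0 0 ψ)) :=
    al_tendsto (kfil_fst lam0) tendsto_const_nhds (Eventually.of_forall fun _ => le_rfl) le_rfl
      tendsto_const_nhds
  have he : 0 < (1 + lam0) / 2 := by linarith
  obtain ⟨C, hC, hg⟩ := abs_log_Pl_le he
  have hlam : ∀ᶠ p in kfil lam0, -1 + (1 + lam0) / 2 ≤ p.2 := by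
    have := (kfil_snd lam0).eventually (eventually_ge_nhds (show -1 + (1 + lam0) / 2 < lam0 by linarith))
    exact this
  have hk : ∀ᶠ p in kfil lam0, |p.1| ≤ 1 := by
    have h := (kfil_fst lam0).abs
    rw [abs_zero] at h
    exact h.eventually (eventually_le_nhds (by norm_num))
  have hGE : Tendsto (fun p : ℝ × ℝ => GE fun x => Real.log (Pl p.2 (zz p.1 ψ x
      + th * Mi (zz p.1 ψ x)))) (kfil lam0)
      (𝓝 (GE fun x => Real.log (Pl lam0 (zz 0 ψ x + th * Mi (zz 0 ψ x))))) := by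
    refine tendsto_GE (C := C * ((3 + 4 * th ^ 2)
      * (1 + 2 * (1 + Real.sqrt (qp ψ) ^ 2) / Real.sqrt (1 - qp ψ) ^ 2))) (k := 1) ?_ ?_ ?_
    · filter_upwards [hlam, kfil_mem lam0] with p a b
      exact ((continuous_logPl (lam := p.2) (by linarith) b.2 th).comp
        (continuous_zz p.1 ψ)).measurable
    · filter_upwards [hlam, kfil_mem lam0, hk] with p a b c x
      rw [pow_one]
      refine (hg p.2 _ a b.2).trans ?_
      rw [mul_assoc, mul_assoc]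
      apply mul_le_mul_of_nonneg_left _ hC.le
      refine (tilt_growth th _).trans ?_
      exact mul_le_mul_of_nonneg_left (growth_zz' c ψ x) (by positivity)
    · intro x
      have hX : Tendsto (fun p : ℝ × ℝ => zz p.1 ψ x + th * Mi (zz p.1 ψ x)) (kfil lam0)
          (𝓝 (zz 0 ψ x + th * Mi (zz 0 ψ x))) :=
        (zz_tendsto lam0 ψ x).add (((continuous_Mi.tendsto _).comp (zz_tendsto lam0 ψ x)).const_mul th)
      have hcont := continuousOn_Pl (lam0, zz 0 ψ x + th * Mi (zz 0 ψ x))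
        ⟨⟨h1.le, h2⟩, Set.mem_univ _⟩
      have hpair : Tendsto (fun p : ℝ × ℝ => (p.2, zz p.1 ψ x + th * Mi (zz p.1 ψ x))) (kfil lam0)
          (𝓝[Set.Icc (-1 : ℝ) 1 ×ˢ Set.univ] (lam0, zz 0 ψ x + th * Mi (zz 0 ψ x))) := by
        apply tendsto_nhdsWithin_of_tendsto_nhds_of_eventually_within _
          ((kfil_snd lam0).prodMk_nhds hX)
        filter_upwards [kfil_mem lam0] with p hp
        exact ⟨hp, Set.mem_univ _⟩
      have h3 := hcont.tendsto.comp hpair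
      exact h3.log (Pl_pos h1 h2 _).ne'
  unfold con
  refine Tendsto.add ?_ (hal.mul hGE)
  have h4 : (1 + lam0) ≠ 0 := by linarith
  exact tendsto_const_nhds.div ((kfil_snd lam0).const_add 1) h4

theorem conC_tendsto (ψ lam0 : ℝ) :
    Tendsto (fun p : ℝ × ℝ => conC p.1 ψ) (kfil lam0) (𝓝 (conC 0 ψ)) := by
  have hal : Tendsto (fun p : ℝ × ℝ => al p.1 0 ψ) (kfil lam0) (𝓝 (al 0 0 ψ)) :=
    al_tendsto (kfil_fst lam0) tendsto_const_nhds (Eventually.of_forall fun _ => le_rfl) le_rfl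
      tendsto_const_nhds
  have hG : Continuous (fun u : ℝ => Real.log (Ph (u - Mi u))) :=
    continuous_logPh.comp (continuous_id.sub continuous_Mi)
  have hb : ∀ u : ℝ, |(fun u : ℝ => Real.log (Ph (u - Mi u))) u| ≤ 14 * (1 + u ^ 2) ^ 1 := by
    intro u
    simp only [pow_one]
    have h1 := logPh_growth (u - Mi u)
    have h2 := tilt_growth (-1) u
    have e : u + -1 * Mi u = u - Mi u := by ring
    rw [e] at h2
    nlinarith
  have h := GE_affine_tendsto (l := kfil lam0) hG hb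
    (a := fun p => p.1 / Real.sqrt (1 - qp ψ))
    (b := fun _ => -Real.sqrt (qp ψ) / Real.sqrt (1 - qp ψ))
    ((kfil_fst lam0).div_const _) tendsto_const_nhds
  have e : ∀ κ x : ℝ, κ / Real.sqrt (1 - qp ψ) + (-Real.sqrt (qp ψ) / Real.sqrt (1 - qp ψ)) * x
      = zz κ ψ x := by
    intro κ x; unfold zz; ring
  simp only [e] at h
  unfold conC
  exact (hal.const_mul 2).mul h

theorem sp_tendsto (ψ l s e lam0 : ℝ) :
    Tendsto (fun p : ℝ × ℝ => sp ψ p.2 l s e) (kfil lam0) (𝓝 (sp ψ lam0 l s e)) := by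
  unfold sp
  exact Tendsto.sub tendsto_const_nhds
    ((((kfil_snd lam0).mul_const _).const_add _).const_mul _)

theorem GG_tendsto_kf (ψ lam0 : ℝ) :
    Tendsto (fun p : ℝ × ℝ => GG p.1 ψ) (kfil lam0) (𝓝 (GG 0 ψ)) :=
  GG_tendsto (kfil_fst lam0) tendsto_const_nhds

theorem LStar_small {ψ : ℝ} (hψ : 0 < ψ) (hAT : AT 0 0 ψ < 1)
    (h : ∀ lam ∈ Set.Icc (-1 : ℝ) 1, lam ≠ 0 →
      (lam ≤ 0 ∧ ∃ l s e : ℝ, sp ψ lam l s e + conC 0 ψ < 2 * GG 0 ψ) ∨
      (-1 < lam ∧ ∃ l s e th : ℝ, sp ψ lam l s e + con 0 ψ th lam < 2 * GG 0 ψ)) :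
    ∀ᶠ κ in 𝓝[>] (0 : ℝ), LStar κ ψ := by
  -- the predicate
  set Q : ℝ → ℝ → Prop := fun κ lam =>
    (lam ≤ 0 ∧ ∃ l s e : ℝ, sp ψ lam l s e + conC κ ψ ≤ 2 * GG κ ψ) ∨
    (-1 < lam ∧ ∃ l s e th : ℝ, sp ψ lam l s e + con κ ψ th lam ≤ 2 * GG κ ψ) with hQ
  have hS := ES2_pos ψ
  have hq : 0 < 1 - qp ψ := by have := qp_lt_one (ψ := ψ); linarith
  set c1 := (1 - qp ψ) / ES2 ψ with hc1
  have hc1p : 0 < c1 := div_pos hq hS
  -- near zero: constants uniform in κ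
  have hATk : Tendsto (fun κ : ℝ => AT κ 0 ψ) (𝓝 0) (𝓝 (AT 0 0 ψ)) :=
    AT_tendsto tendsto_id tendsto_const_nhds (Eventually.of_forall fun _ => le_rfl) le_rfl
      tendsto_const_nhds
  have halk : Tendsto (fun κ : ℝ => al κ 0 ψ) (𝓝 0) (𝓝 (al 0 0 ψ)) :=
    al_tendsto tendsto_id tendsto_const_nhds (Eventually.of_forall fun _ => le_rfl) le_rfl
      tendsto_const_nhds
  have hT1k : Tendsto (fun κ : ℝ => GE fun x => T1 (zz κ ψ x)) (𝓝 0)
      (𝓝 (GE fun x => T1 (zz 0 ψ x))) := by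
    have hb : ∀ u : ℝ, |T1 u| ≤ 16 * (1 + u ^ 2) ^ 1 := by
      intro u
      rw [abs_of_pos (T1_pos u), pow_one]
      have := T1_le u
      have h3 := sq_abs u
      nlinarith [sq_nonneg (|u| - 1)]
    have h := GE_affine_tendsto (l := 𝓝 (0 : ℝ)) continuous_T1 hb
      (a := fun κ => κ / Real.sqrt (1 - qp ψ))
      (b := fun _ => -Real.sqrt (qp ψ) / Real.sqrt (1 - qp ψ))
      (tendsto_id.div_const _) tendsto_const_nhds
    have e : ∀ κ x : ℝ, κ / Real.sqrt (1 - qp ψ) + (-Real.sqrt (qp ψ) / Real.sqrt (1 - qp ψ)) * x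
        = zz κ ψ x := by
      intro κ x; unfold zz; ring
    simp only [e] at h
    exact h
  set A := (1 - qp ψ) ^ 2 / (2 * ES2 ψ) * (1 - AT 0 0 ψ) / 2 with hA
  have hAp : 0 < A := by
    rw [hA]; have : 0 < 1 - AT 0 0 ψ := by linarith
    positivity
  have ev1 : ∀ᶠ κ : ℝ in 𝓝 0, (1 - qp ψ) ^ 2 / (2 * ES2 ψ) * (AT κ 0 ψ - 1) < -A := by
    have ht : Tendsto (fun κ : ℝ => (1 - qp ψ) ^ 2 / (2 * ES2 ψ) * (AT κ 0 ψ - 1)) (𝓝 0)
        (𝓝 ((1 - qp ψ) ^ 2 / (2 * ES2 ψ) * (AT 0 0 ψ - 1))) := (hATk.sub_const 1).const_mul _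
    apply ht.eventually (gt_mem_nhds _)
    have h1 : 0 < 1 - AT 0 0 ψ := by linarith
    have h2 : 0 < (1 - qp ψ) ^ 2 / (2 * ES2 ψ) := by positivity
    have h3 := mul_pos h2 h1
    have : (1 - qp ψ) ^ 2 / (2 * ES2 ψ) * (AT 0 0 ψ - 1)
        = -((1 - qp ψ) ^ 2 / (2 * ES2 ψ) * (1 - AT 0 0 ψ)) := by ring
    rw [this, hA]
    linarith
  set B0 := 15 * c1 ^ 3 + al 0 0 ψ * GE fun x => T1 (zz 0 ψ x) with hB0
  have ev2 : ∀ᶠ κ : ℝ in 𝓝 0, 15 * c1 ^ 3 + al κ 0 ψ * (GE fun x => T1 (zz κ ψ x)) < B0 + 1 := by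
    have ht : Tendsto (fun κ : ℝ => 15 * c1 ^ 3 + al κ 0 ψ * (GE fun x => T1 (zz κ ψ x))) (𝓝 0)
        (𝓝 B0) := (halk.mul hT1k).const_add _
    exact ht.eventually (gt_mem_nhds (by linarith))
  have hB0p : 0 < B0 + 1 := by
    have h1 : 0 ≤ GE fun x => T1 (zz 0 ψ x) := GE_nonneg fun x => (T1_pos _).le
    have h2 := al_pos (κ := 0) (ν := 0) le_rfl hψ
    rw [hB0]; positivity
  set r := min (1 / 2) (min (1 / (4 * c1)) (A / (B0 + 1))) with hr
  have hrp : 0 < r := by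
    rw [hr]; apply lt_min (by norm_num) (lt_min (by positivity) (by positivity))
  have hnear : ∀ᶠ κ : ℝ in 𝓝 0, ∀ lam : ℝ, |lam| ≤ r → Q κ lam := by
    filter_upwards [ev1, ev2] with κ k1 k2 lam hl
    have hl1 : |lam| ≤ 1 / 2 := hl.trans (min_le_left _ _)
    have hl2 : |lam| ≤ 1 / (4 * c1) := hl.trans ((min_le_right _ _).trans (min_le_left _ _))
    have hl3 : |lam| ≤ A / (B0 + 1) := hl.trans ((min_le_right _ _).trans (min_le_right _ _))
    right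
    refine ⟨by rw [abs_le] at hl1; linarith [hl1.1], -(c1 * lam), 1, c1 * lam, lam, ?_⟩
    have hs : |c1 * lam| ≤ 1 / 4 := by
      rw [abs_mul, abs_of_pos hc1p]
      calc c1 * |lam| ≤ c1 * (1 / (4 * c1)) := mul_le_mul_of_nonneg_left hl2 hc1p.le
        _ = 1 / 4 := by field_simp
    have hnz := near_zero κ ψ hψ (lam := lam) (by linarith) hs
    rw [← hc1] at hnz
    refine hnz.trans ?_
    have h5 : |lam| * (15 * c1 ^ 3 + al κ 0 ψ * GE fun x => T1 (zz κ ψ x)) ≤ A := by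
      have h6 : |lam| * (15 * c1 ^ 3 + al κ 0 ψ * GE fun x => T1 (zz κ ψ x)) ≤ |lam| * (B0 + 1) :=
        mul_le_mul_of_nonneg_left k2.le (abs_nonneg _)
      rw [le_div_iff₀ hB0p] at hl3
      linarith
    have h7 : lam ^ 2 * ((1 - qp ψ) ^ 2 / (2 * ES2 ψ) * (AT κ 0 ψ - 1)
        + |lam| * (15 * c1 ^ 3 + al κ 0 ψ * GE fun x => T1 (zz κ ψ x))) ≤ 0 :=
      mul_nonpos_of_nonneg_of_nonpos (sq_nonneg _) (by linarith)
    linarith
  -- away from zero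
  set K : Set ℝ := {lam | lam ∈ Set.Icc (-1 : ℝ) 1 ∧ r ≤ |lam|} with hK
  have hKc : IsCompact K := by
    have : K = Set.Icc (-1 : ℝ) 1 ∩ {lam | r ≤ |lam|} := rfl
    rw [this]
    exact isCompact_Icc.inter_right (isClosed_le continuous_const continuous_abs)
  have hfar : ∀ᶠ κ : ℝ in 𝓝 0, ∀ lam ∈ K, (lam ∈ Set.Icc (-1 : ℝ) 1 → Q κ lam) := by
    apply hKc.eventually_forall_of_forall_eventually
    intro lam0 hlam0
    have hne : lam0 ≠ 0 := by
      intro h0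
      have := hlam0.2
      rw [h0, abs_zero] at this
      linarith
    have key : ∀ᶠ p in kfil lam0, Q p.1 p.2 := by
      rcases h lam0 hlam0.1 hne with ⟨ha, l, s, e, hb⟩ | ⟨ha, l, s, e, th, hb⟩
      · have hlt : lam0 < 0 := lt_of_le_of_ne ha hne
        have t1 := (sp_tendsto ψ l s e lam0).add (conC_tendsto ψ lam0)
        have t2 := (GG_tendsto_kf ψ lam0).const_mul 2
        have t3 := t1.eventually_lt t2 hb
        have t4 : ∀ᶠ p in kfil lam0, p.2 ≤ 0 := (kfil_snd lam0).eventually (eventually_le_nhds hlt)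
        filter_upwards [t3, t4] with p a b
        left
        exact ⟨b, l, s, e, a.le⟩
      · have t1 := (sp_tendsto ψ l s e lam0).add (con_tendsto (ψ := ψ) (th := th) ha hlam0.1.2)
        have t2 := (GG_tendsto_kf ψ lam0).const_mul 2
        have t3 := t1.eventually_lt t2 hb
        have t4 : ∀ᶠ p in kfil lam0, -1 < p.2 := (kfil_snd lam0).eventually (lt_mem_nhds ha)
        filter_upwards [t3, t4] with p a b
        right
        exact ⟨b, l, s, e, th, a.le⟩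
    unfold kfil at key
    rw [eventually_nhdsWithin_iff] at key
    exact key
  have hall : ∀ᶠ κ : ℝ in 𝓝 0, LStar κ ψ := by
    filter_upwards [hnear, hfar] with κ a b lam hlam
    by_cases hl : |lam| ≤ r
    · exact a lam hl
    · exact b lam ⟨hlam, (not_le.1 hl).le⟩ hlam
  exact hall.filter_mono nhdsWithin_le_nhds

end Pool.Agent.IP49
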