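import Pool.Agent.IP49.LDefs

/-!
IP49, part L, module LVec: deterministic Euclidean lemmas. `nsq x = ∑ x²`, `√(nsq x)` is the
Euclidean norm of `x : ι → ℝ`, `pC c`, `qC c` are the projections attached to the orthonormal
family `c : Fin K → Fin M → ℝ` (Defs in LDefs).

PROOFS. Norm facts: `nsq x = ‖WithLp.toLp 2 x‖²` (EuclideanSpace.norm_sq_eq) and the triangle
inequality, or expand and use Cauchy-Schwarz (`Finset.sum_mul_sq_le_sq_mul_sq`,
`Finset.inner_mul_le_norm_mul_norm`...). `en_pos_add`: `max 0 (x+y) ≤ max 0 x + |y|` pointwise,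
then monotonicity and `en_add`. `pC_idem`: `∑_b c_j(b) pC x(b) = ∑_l <c_l,x> <c_j,c_l> = <c_j,x>`.
`nsq_pC`: `∑_a (∑_j s_j c_j(a))² = ∑_{j,l} s_j s_l <c_j,c_l> = ∑ s_j²`. `nsq_split`: Pythagoras,
`<pC x, x - pC x> = ∑ s_j² - nsq (pC x) = 0`. `dot_qC`: `<n, x> = ∑ t_j <c_j,x>` and
`<n, pC x> = ∑_j t_j <c_j, pC x> = ∑_j t_j <c_j,x>`.
-/

set_option autoImplicit false
open MeasureTheory ProbabilityTheory Filter Topology

namespace Pool.Agent.IP49.LP

theorem nsq_nonneg {ι : Type*} [Fintype ι] (x : ι → ℝ) : 0 ≤ nsq x := by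
  unfold nsq
  exact Finset.sum_nonneg fun a _ => sq_nonneg _

private theorem sqrt_nsq {ι : Type*} [Fintype ι] (x : ι → ℝ) :
    Real.sqrt (nsq x) = ‖(WithLp.toLp 2 x : EuclideanSpace ℝ ι)‖ := by
  rw [EuclideanSpace.norm_eq]
  unfold nsq
  congr 1
  refine Finset.sum_congr rfl fun a _ => ?_
  rw [Real.norm_eq_abs, sq_abs]

theorem en_add {ι : Type*} [Fintype ι] (x y : ι → ℝ) :
    Real.sqrt (nsq fun a => x a + y a) ≤ Real.sqrt (nsq x) + Real.sqrt (nsq y) := by
  rw [sqrt_nsq, sqrt_nsq, sqrt_nsq]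
  exact norm_add_le (WithLp.toLp 2 x : EuclideanSpace ℝ ι) (WithLp.toLp 2 y)

theorem en_smul {ι : Type*} [Fintype ι] (t : ℝ) (x : ι → ℝ) :
    Real.sqrt (nsq fun a => t * x a) = |t| * Real.sqrt (nsq x) := by
  have h : (nsq fun a => t * x a) = t ^ 2 * nsq x := by
    unfold nsq
    rw [Finset.mul_sum]
    exact Finset.sum_congr rfl fun a _ => by ring
  rw [h, Real.sqrt_mul (sq_nonneg t), Real.sqrt_sq_eq_abs]

theorem en_pos_le {ι : Type*} [Fintype ι] (x : ι → ℝ) :
    Real.sqrt (nsq fun a => max 0 (x a)) ≤ Real.sqrt (nsq x) := by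
  apply Real.sqrt_le_sqrt
  unfold nsq
  refine Finset.sum_le_sum fun a _ => ?_
  beta_reduce
  rcases le_total 0 (x a) with h | h
  · rw [max_eq_right h]
  · rw [max_eq_left h]
    nlinarith [sq_nonneg (x a)]

theorem en_pos_add {ι : Type*} [Fintype ι] (x y : ι → ℝ) :
    Real.sqrt (nsq fun a => max 0 (x a + y a)) ≤
      Real.sqrt (nsq fun a => max 0 (x a)) + Real.sqrt (nsq y) := by
  have h1 : Real.sqrt (nsq y) = Real.sqrt (nsq fun a => |y a|) := by
    congr 1
    unfold nsq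
    exact Finset.sum_congr rfl fun a _ => (sq_abs _).symm
  rw [h1]
  refine le_trans ?_ (en_add _ _)
  apply Real.sqrt_le_sqrt
  unfold nsq
  refine Finset.sum_le_sum fun a _ => ?_
  refine pow_le_pow_left₀ (le_max_left _ _) ?_ 2
  refine max_le ?_ ?_
  · exact add_nonneg (le_max_left _ _) (abs_nonneg _)
  · exact add_le_add (le_max_right _ _) (le_abs_self _)

theorem abs_dot_le {ι : Type*} [Fintype ι] (x y : ι → ℝ) :
    |∑ a, x a * y a| ≤ Real.sqrt (nsq x) * Real.sqrt (nsq y) := by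
  rw [← Real.sqrt_mul (nsq_nonneg x)]
  apply Real.abs_le_sqrt
  unfold nsq
  exact Finset.sum_mul_sq_le_sq_mul_sq _ _ _

/-- linearity -/
theorem pC_lin {K M : ℕ} (c : Fin K → Fin M → ℝ) (s t : ℝ) (x y : Fin M → ℝ) (a : Fin M) :
    pC c (fun b => s * x b + t * y b) a = s * pC c x a + t * pC c y a := by
  unfold pC
  rw [Finset.mul_sum, Finset.mul_sum, ← Finset.sum_add_distrib]
  refine Finset.sum_congr rfl fun j _ => ?_
  have h : ∑ b, c j b * (s * x b + t * y b) = s * ∑ b, c j b * x b + t * ∑ b, c j b * y b := by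
    rw [Finset.mul_sum, Finset.mul_sum, ← Finset.sum_add_distrib]
    exact Finset.sum_congr rfl fun b _ => by ring
  rw [h]
  ring

theorem qC_lin {K M : ℕ} (c : Fin K → Fin M → ℝ) (s t : ℝ) (x y : Fin M → ℝ) (a : Fin M) :
    qC c (fun b => s * x b + t * y b) a = s * qC c x a + t * qC c y a := by
  unfold qC
  rw [pC_lin]
  ring

private theorem coef_sum {K M : ℕ} {c : Fin K → Fin M → ℝ}
    (ho : ∀ i j, ∑ a, c i a * c j a = if i = j then (1 : ℝ) else 0) (s : Fin K → ℝ)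
    (i : Fin K) : ∑ b, c i b * (∑ j, s j * c j b) = s i := by
  have h : ∑ b, c i b * (∑ j, s j * c j b) = ∑ j, s j * ∑ b, c i b * c j b := by
    simp only [Finset.mul_sum]
    rw [Finset.sum_comm]
    exact Finset.sum_congr rfl fun j _ => Finset.sum_congr rfl fun b _ => by ring
  rw [h]
  simp [ho]

theorem pC_idem {K M : ℕ} {c : Fin K → Fin M → ℝ}
    (ho : ∀ i j, ∑ a, c i a * c j a = if i = j then (1 : ℝ) else 0) (x : Fin M → ℝ) :
    pC c (pC c x) = pC c x := by
  funext a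
  have h : ∀ i, ∑ b, c i b * pC c x b = ∑ b, c i b * x b := fun i => by
    unfold pC
    exact coef_sum ho (fun j => ∑ b, c j b * x b) i
  change ∑ j, (∑ b, c j b * pC c x b) * c j a = ∑ j, (∑ b, c j b * x b) * c j a
  exact Finset.sum_congr rfl fun j _ => by rw [h j]

theorem pC_qC {K M : ℕ} {c : Fin K → Fin M → ℝ}
    (ho : ∀ i j, ∑ a, c i a * c j a = if i = j then (1 : ℝ) else 0) (x : Fin M → ℝ) :
    pC c (qC c x) = fun _ => 0 := by
  funext a
  have h : qC c x = fun b => 1 * x b + (-1) * pC c x b := by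
    funext b
    unfold qC
    ring
  rw [h, pC_lin, pC_idem ho]
  ring

theorem qC_pC {K M : ℕ} {c : Fin K → Fin M → ℝ}
    (ho : ∀ i j, ∑ a, c i a * c j a = if i = j then (1 : ℝ) else 0) (x : Fin M → ℝ) :
    qC c (pC c x) = fun _ => 0 := by
  funext a
  unfold qC
  rw [pC_idem ho, sub_self]

theorem qC_qC {K M : ℕ} {c : Fin K → Fin M → ℝ}
    (ho : ∀ i j, ∑ a, c i a * c j a = if i = j then (1 : ℝ) else 0) (x : Fin M → ℝ) :
    qC c (qC c x) = qC c x := by
  funext a
  have h := congrFun (pC_qC ho x) a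
  change qC c x a - pC c (qC c x) a = qC c x a
  rw [h, sub_zero]

private theorem dot_pC_self {K M : ℕ} {c : Fin K → Fin M → ℝ} (x y : Fin M → ℝ) :
    ∑ a, pC c x a * y a = ∑ j, (∑ b, c j b * x b) * (∑ b, c j b * y b) := by
  have h : ∀ a, pC c x a * y a = ∑ j, (∑ b, c j b * x b) * (c j a * y a) := by
    intro a
    unfold pC
    rw [Finset.sum_mul]
    exact Finset.sum_congr rfl fun j _ => by ring
  rw [Finset.sum_congr rfl fun a _ => h a, Finset.sum_comm]
  refine Finset.sum_congr rfl fun j _ => ?_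
  rw [Finset.mul_sum]

theorem nsq_pC {K M : ℕ} {c : Fin K → Fin M → ℝ}
    (ho : ∀ i j, ∑ a, c i a * c j a = if i = j then (1 : ℝ) else 0) (x : Fin M → ℝ) :
    nsq (pC c x) = ∑ j, (∑ b, c j b * x b) ^ 2 := by
  have h1 : nsq (pC c x) = ∑ a, pC c x a * pC c x a := by
    unfold nsq
    exact Finset.sum_congr rfl fun a _ => sq _
  rw [h1, dot_pC_self]
  refine Finset.sum_congr rfl fun j _ => ?_
  have h : ∑ b, c j b * pC c x b = ∑ b, c j b * x b := by
    unfold pC
    exact coef_sum ho (fun j => ∑ b, c j b * x b) j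
  rw [h, sq]

theorem nsq_split {K M : ℕ} {c : Fin K → Fin M → ℝ}
    (ho : ∀ i j, ∑ a, c i a * c j a = if i = j then (1 : ℝ) else 0) (x : Fin M → ℝ) :
    nsq x = nsq (pC c x) + nsq (qC c x) := by
  have h1 : ∑ a, pC c x a * qC c x a = 0 := by
    rw [dot_pC_self]
    refine Finset.sum_eq_zero fun j _ => ?_
    have h : ∑ b, c j b * pC c x b = ∑ b, c j b * x b := by
      unfold pC
      exact coef_sum ho (fun j => ∑ b, c j b * x b) j
    have h2 : ∑ b, c j b * qC c x b = 0 := by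
      unfold qC
      simp only [mul_sub]
      rw [Finset.sum_sub_distrib, h, sub_self]
    rw [h2, mul_zero]
  have h2 : nsq x = nsq (pC c x) + nsq (qC c x) + 2 * ∑ a, pC c x a * qC c x a := by
    unfold nsq
    rw [Finset.mul_sum, ← Finset.sum_add_distrib, ← Finset.sum_add_distrib]
    refine Finset.sum_congr rfl fun a _ => ?_
    unfold qC
    ring
  rw [h2, h1]
  ring

theorem pC_span {K M : ℕ} {c : Fin K → Fin M → ℝ}
    (ho : ∀ i j, ∑ a, c i a * c j a = if i = j then (1 : ℝ) else 0) {n : Fin M → ℝ}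
    (hn : ∃ t : Fin K → ℝ, ∀ a, n a = ∑ j, t j * c j a) : pC c n = n := by
  obtain ⟨t, ht⟩ := hn
  funext a
  unfold pC
  rw [ht a]
  refine Finset.sum_congr rfl fun j _ => ?_
  have h : ∑ b, c j b * n b = t j := by
    simp only [ht]
    exact coef_sum ho t j
  rw [h]

theorem dot_qC {K M : ℕ} {c : Fin K → Fin M → ℝ}
    (ho : ∀ i j, ∑ a, c i a * c j a = if i = j then (1 : ℝ) else 0) {n : Fin M → ℝ}
    (hn : ∃ t : Fin K → ℝ, ∀ a, n a = ∑ j, t j * c j a) (x : Fin M → ℝ) :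
    ∑ a, n a * qC c x a = 0 := by
  have h1 : ∑ a, n a * qC c x a = ∑ a, pC c n a * qC c x a := by
    rw [pC_span ho hn]
  rw [h1, dot_pC_self]
  refine Finset.sum_eq_zero fun j _ => ?_
  have h : ∑ b, c j b * pC c x b = ∑ b, c j b * x b := by
    unfold pC
    exact coef_sum ho (fun j => ∑ b, c j b * x b) j
  have h2 : ∑ b, c j b * qC c x b = 0 := by
    unfold qC
    simp only [mul_sub]
    rw [Finset.sum_sub_distrib, h, sub_self]
  rw [h2, mul_zero]

theorem dot_pC {K M : ℕ} {c : Fin K → Fin M → ℝ}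
    (ho : ∀ i j, ∑ a, c i a * c j a = if i = j then (1 : ℝ) else 0) {n : Fin M → ℝ}
    (hn : ∃ t : Fin K → ℝ, ∀ a, n a = ∑ j, t j * c j a) (x : Fin M → ℝ) :
    ∑ a, n a * pC c x a = ∑ a, n a * x a := by
  have h := dot_qC ho hn x
  unfold qC at h
  simp only [mul_sub] at h
  rw [Finset.sum_sub_distrib] at h
  linarith

theorem continuous_pC {K M : ℕ} (c : Fin K → Fin M → ℝ) : Continuous (pC c) := by
  unfold pC
  fun_prop

theorem continuous_qC {K M : ℕ} (c : Fin K → Fin M → ℝ) : Continuous (qC c) := by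
  have h : qC c = fun x a => x a - pC c x a := rfl
  rw [h]
  unfold pC
  fun_prop

theorem continuous_mulv {M N : ℕ} (u : Fin N → ℝ) :
    Continuous (fun G : Fin M → Fin N → ℝ => mulv G u) := by
  unfold mulv
  fun_prop

end Pool.Agent.IP49.LP
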