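import Pool.Agent.IP49.Law1

/-!
# IP49, part S1: the adapted representation of a Gaussian matrix along `K` steps

`asm K c r eta xi G'` is `G^(0)` where `G^(K) = G'` and
`G^(s) = c_s eta_sᵀ + (1 - c_s c_sᵀ) (xi_s r_sᵀ + G^(s+1) (1 - r_s r_sᵀ))`;
`c_s` may depend on `eta_t, xi_t` (`t < s`), `r_s` on `eta_t` (`t ≤ s`), `xi_t` (`t < s`).
The law of the result is exactly the standard Gaussian law, for arbitrary adapted unit vectors.
-/

set_option autoImplicit false
open MeasureTheory ProbabilityTheory

namespace Pool.Agent.IP49.SR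

/-- the first `K` entries of a sequence of length `K + 1` -/
def ini {K : ℕ} {X : Type*} (f : Fin (K + 1) → X) : Fin K → X := fun t => f t.castSucc

/-- the history of `K` steps: `eta` (vectors in `ℝ^N`) and `xi` (vectors in `ℝ^M`) -/
abbrev Hist (M N K : ℕ) := (Fin K → Fin N → ℝ) × (Fin K → Fin M → ℝ)

/-- law of the history -/
noncomputable def histLaw (M N K : ℕ) : Measure (Hist M N K) :=
  (Measure.pi fun _ : Fin K => gv (Fin N)).prod (Measure.pi fun _ : Fin K => gv (Fin M))

instance histLaw_prob (M N K : ℕ) : IsProbabilityMeasure (histLaw M N K) := by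
  unfold histLaw; infer_instance

/-- the assembled matrix -/
def asm {M N : ℕ} (c : (s : ℕ) → Hist M N s → Fin M → ℝ)
    (r : (s : ℕ) → Hist M N s → (Fin N → ℝ) → Fin N → ℝ) :
    (K : ℕ) → Hist M N K → (Fin M → Fin N → ℝ) → (Fin M → Fin N → ℝ)
  | 0, _, G => G
  | K + 1, p, G => asm c r K (ini p.1, ini p.2)
      (rowStep (c K (ini p.1, ini p.2)) (p.1 (Fin.last K))
        (colStep (r K (ini p.1, ini p.2) (p.1 (Fin.last K))) (p.2 (Fin.last K)) G))

theorem prod_comm4 {A B C D : Type*} [MeasurableSpace A] [MeasurableSpace B] [MeasurableSpace C]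
    [MeasurableSpace D] (a : Measure A) (b : Measure B) (c : Measure C) (d : Measure D)
    [SFinite a] [SFinite b] [SFinite c] [SFinite d] :
    MeasurePreserving (fun q : (A × B) × (C × D) => ((q.1.2, q.2.2), (q.1.1, q.2.1)))
      ((a.prod b).prod (c.prod d)) ((b.prod d).prod (a.prod c)) := by
  have h1 := measurePreserving_prodAssoc a b (c.prod d)
  have h2 := (measurePreserving_prodAssoc b c d).symm MeasurableEquiv.prodAssoc
  have h3 : MeasurePreserving (Prod.map Prod.swap id) ((b.prod c).prod d) ((c.prod b).prod d) :=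
    Measure.measurePreserving_swap.prod (MeasurePreserving.id d)
  have h4 := measurePreserving_prodAssoc c b d
  have h5 := (MeasurePreserving.id a).prod ((h4.comp h3).comp h2)
  have h6 := (measurePreserving_prodAssoc a c (b.prod d)).symm MeasurableEquiv.prodAssoc
  have h7 : MeasurePreserving Prod.swap ((a.prod c).prod (b.prod d))
      ((b.prod d).prod (a.prod c)) := Measure.measurePreserving_swap
  exact ((h7.comp h6).comp h5).comp h1

/-- splitting off the last step of the history -/
theorem hist_split (M N K : ℕ) :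
    MeasurePreserving (fun p : Hist M N (K + 1) =>
      ((ini p.1, ini p.2), (p.1 (Fin.last K), p.2 (Fin.last K))))
      (histLaw M N (K + 1)) ((histLaw M N K).prod ((gv (Fin N)).prod (gv (Fin M)))) := by
  have a1 := measurePreserving_piFinSuccAbove (fun _ : Fin (K + 1) => gv (Fin N)) (Fin.last K)
  have a2 := measurePreserving_piFinSuccAbove (fun _ : Fin (K + 1) => gv (Fin M)) (Fin.last K)
  have a3 := a1.prod a2
  have b1 : MeasurePreserving (fun q : ((Fin N → ℝ) × (Fin K → Fin N → ℝ)) ×
      ((Fin M → ℝ) × (Fin K → Fin M → ℝ)) => ((q.1.2, q.2.2), (q.1.1, q.2.1)))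
      (((gv (Fin N)).prod (Measure.pi fun _ : Fin K => gv (Fin N))).prod
        ((gv (Fin M)).prod (Measure.pi fun _ : Fin K => gv (Fin M))))
      ((histLaw M N K).prod ((gv (Fin N)).prod (gv (Fin M)))) := prod_comm4 _ _ _ _
  have h := b1.comp a3
  have e : (fun p : Hist M N (K + 1) =>
      ((ini p.1, ini p.2), (p.1 (Fin.last K), p.2 (Fin.last K)))) =
      (fun q : ((Fin N → ℝ) × (Fin K → Fin N → ℝ)) ×
      ((Fin M → ℝ) × (Fin K → Fin M → ℝ)) => ((q.1.2, q.2.2), (q.1.1, q.2.1))) ∘
      (Prod.map (MeasurableEquiv.piFinSuccAbove (fun _ => Fin N → ℝ) (Fin.last K))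
        (MeasurableEquiv.piFinSuccAbove (fun _ => Fin M → ℝ) (Fin.last K))) := by
    funext p
    simp only [Function.comp_apply, Prod.map, MeasurableEquiv.piFinSuccAbove,
      MeasurableEquiv.coe_mk, Fin.insertNthEquiv, Equiv.coe_fn_symm_mk, Fin.removeNth_last]
    rfl
  rw [e]
  exact h

/-- the one step map: given unit vectors `c` and (adapted) `r y`, the map
`(y, x, G) ↦ rowStep c y (colStep (r y) x G)` preserves the Gaussian law -/
theorem step_law {M N : ℕ} (c : Fin M → ℝ) (hc : ∑ a, c a ^ 2 = 1)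
    (r : (Fin N → ℝ) → Fin N → ℝ) (hr : ∀ y, ∑ i, r y i ^ 2 = 1) (hrm : Measurable r) :
    MeasurePreserving (fun q : ((Fin N → ℝ) × (Fin M → ℝ)) × (Fin M → Fin N → ℝ) =>
        rowStep c q.1.1 (colStep (r q.1.1) q.1.2 q.2))
      (((gv (Fin N)).prod (gv (Fin M))).prod (gm (Fin M) (Fin N))) (gm (Fin M) (Fin N)) := by
  have h1 := measurePreserving_prodAssoc (gv (Fin N)) (gv (Fin M)) (gm (Fin M) (Fin N))
  have h2 : MeasurePreserving (fun p : (Fin N → ℝ) × ((Fin M → ℝ) × (Fin M → Fin N → ℝ)) =>
      (id p.1, (fun y (q : (Fin M → ℝ) × (Fin M → Fin N → ℝ)) => colStep (r y) q.1 q.2) p.1 p.2))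
      ((gv (Fin N)).prod ((gv (Fin M)).prod (gm (Fin M) (Fin N))))
      ((gv (Fin N)).prod (gm (Fin M) (Fin N))) := by
    refine (MeasurePreserving.id (gv (Fin N))).skew_product ?_
      (Filter.Eventually.of_forall fun y => (colStep_law (r y) (hr y)).map_eq)
    unfold colStep
    fun_prop
  have h3 := rowStep_law (κ := Fin N) c hc
  exact h3.comp (h2.comp h1)

theorem asm_measurable {M N : ℕ} (c : (s : ℕ) → Hist M N s → Fin M → ℝ)
    (r : (s : ℕ) → Hist M N s → (Fin N → ℝ) → Fin N → ℝ)
    (hcm : ∀ s, Measurable (c s)) (hrm : ∀ s, Measurable (Function.uncurry (r s))) :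
    ∀ K : ℕ, Measurable (fun p : Hist M N K × (Fin M → Fin N → ℝ) => asm c r K p.1 p.2) := by
  intro K
  induction K with
  | zero => exact measurable_snd
  | succ K ih =>
    have hini1 : Measurable (fun p : Hist M N (K + 1) × (Fin M → Fin N → ℝ) =>
        ((ini p.1.1, ini p.1.2) : Hist M N K)) := by
      unfold ini; fun_prop
    have hr' : Measurable (fun p : Hist M N (K + 1) × (Fin M → Fin N → ℝ) =>
        r K (ini p.1.1, ini p.1.2) (p.1.1 (Fin.last K))) :=
      (hrm K).comp (hini1.prodMk (by fun_prop))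
    have hc' : Measurable (fun p : Hist M N (K + 1) × (Fin M → Fin N → ℝ) =>
        c K (ini p.1.1, ini p.1.2)) := (hcm K).comp hini1
    have : Measurable (fun p : Hist M N (K + 1) × (Fin M → Fin N → ℝ) =>
        (((ini p.1.1, ini p.1.2) : Hist M N K),
        (rowStep (c K (ini p.1.1, ini p.1.2)) (p.1.1 (Fin.last K))
        (colStep (r K (ini p.1.1, ini p.1.2) (p.1.1 (Fin.last K))) (p.1.2 (Fin.last K)) p.2)))) := by
      refine hini1.prodMk ?_
      unfold rowStep colStep
      fun_prop
    exact ih.comp this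

/-- THE REPRESENTATION: the assembled matrix is a standard Gaussian matrix. -/
theorem asm_law {M N : ℕ} (c : (s : ℕ) → Hist M N s → Fin M → ℝ)
    (r : (s : ℕ) → Hist M N s → (Fin N → ℝ) → Fin N → ℝ)
    (hc : ∀ s p, ∑ a, c s p a ^ 2 = 1) (hr : ∀ s p y, ∑ i, r s p y i ^ 2 = 1)
    (hcm : ∀ s, Measurable (c s)) (hrm : ∀ s, Measurable (Function.uncurry (r s))) :
    ∀ K : ℕ, MeasurePreserving (fun p : Hist M N K × (Fin M → Fin N → ℝ) => asm c r K p.1 p.2)
      ((histLaw M N K).prod (gm (Fin M) (Fin N))) (gm (Fin M) (Fin N)) := by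
  intro K
  induction K with
  | zero => exact measurePreserving_snd
  | succ K ih =>
    have h1 := (hist_split M N K).prod (MeasurePreserving.id (gm (Fin M) (Fin N)))
    have h2 := measurePreserving_prodAssoc (histLaw M N K) ((gv (Fin N)).prod (gv (Fin M)))
      (gm (Fin M) (Fin N))
    have h3 : MeasurePreserving
        (fun p : Hist M N K × (((Fin N → ℝ) × (Fin M → ℝ)) × (Fin M → Fin N → ℝ)) =>
          (id p.1, (fun h (q : ((Fin N → ℝ) × (Fin M → ℝ)) × (Fin M → Fin N → ℝ)) =>
            rowStep (c K h) q.1.1 (colStep (r K h q.1.1) q.1.2 q.2)) p.1 p.2))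
        ((histLaw M N K).prod (((gv (Fin N)).prod (gv (Fin M))).prod (gm (Fin M) (Fin N))))
        ((histLaw M N K).prod (gm (Fin M) (Fin N))) := by
      refine (MeasurePreserving.id (histLaw M N K)).skew_product ?_
        (Filter.Eventually.of_forall fun h =>
          (step_law (c K h) (hc K h) (r K h) (hr K h) ?_).map_eq)
      · have hr' : Measurable
          (fun p : Hist M N K × (((Fin N → ℝ) × (Fin M → ℝ)) × (Fin M → Fin N → ℝ)) =>
            r K p.1 p.2.1.1) := (hrm K).comp
          (measurable_fst.prodMk (measurable_fst.comp (measurable_fst.comp measurable_snd)))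
        have hc' : Measurable
          (fun p : Hist M N K × (((Fin N → ℝ) × (Fin M → ℝ)) × (Fin M → Fin N → ℝ)) =>
            c K p.1) := (hcm K).comp measurable_fst
        unfold rowStep colStep Function.uncurry
        fun_prop
      · exact (hrm K).comp measurable_prodMk_left
    exact ih.comp (h3.comp (h2.comp h1))

end Pool.Agent.IP49.SR
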