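import Mathlib

set_option autoImplicit false
open MeasureTheory Filter Topology

namespace Pool.Agent.IP49

section resample
variable {ι : Type*} [Fintype ι] [DecidableEq ι]

/-- Resampling one coordinate of a product measure. -/
theorem pi_update_map {X : Type*} [MeasurableSpace X] (P : ι → Measure X)
    [∀ i, IsProbabilityMeasure (P i)]
    (i : ι) (ν : Measure X) [IsProbabilityMeasure ν] :
    ((Measure.pi P).prod ν).map (fun p : (ι → X) × X => Function.update p.1 i p.2)
      = Measure.pi (Function.update P i ν) := by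
  have hsf : ∀ j, IsProbabilityMeasure (Function.update P i ν j) := by
    intro j
    by_cases h : j = i
    · subst h; simp; infer_instance
    · simp [Function.update_of_ne h]; infer_instance
  have hmeas : Measurable (fun p : (ι → X) × X => Function.update p.1 i p.2) := by
    rw [measurable_pi_iff]
    intro j
    by_cases h : j = i
    · subst h; simp; exact measurable_snd
    · simp only [Function.update_of_ne h]
      exact (measurable_pi_apply j).comp measurable_fst
  symm
  apply Measure.pi_eq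
  intro s hs
  rw [Measure.map_apply hmeas (MeasurableSet.univ_pi hs)]
  have hpre : (fun p : (ι → X) × X => Function.update p.1 i p.2) ⁻¹' (Set.pi Set.univ s)
      = (Set.pi Set.univ (Function.update s i Set.univ)) ×ˢ (s i) := by
    ext p
    simp only [Set.mem_preimage, Set.mem_pi, Set.mem_univ, true_imp_iff, Set.mem_prod]
    constructor
    · intro h
      refine ⟨fun j => ?_, by simpa using h i⟩
      by_cases hj : j = i
      · subst hj; simp
      · rw [Function.update_of_ne hj]; simpa [Function.update_of_ne hj] using h j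
    · rintro ⟨h1, h2⟩ j
      by_cases hj : j = i
      · subst hj; simpa using h2
      · rw [Function.update_of_ne hj]; simpa [Function.update_of_ne hj] using h1 j
  rw [hpre, Measure.prod_prod, Measure.pi_pi]
  rw [← Finset.mul_prod_erase Finset.univ _ (Finset.mem_univ i),
    ← Finset.mul_prod_erase Finset.univ (fun j => (Function.update P i ν j) (s j)) (Finset.mem_univ i)]
  simp only [Function.update_self, measure_univ, one_mul]
  rw [mul_comm]
  congr 1
  apply Finset.prod_congr rfl
  intro j hj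
  have hj' : j ≠ i := (Finset.mem_erase.mp hj).1
  rw [Function.update_of_ne hj', Function.update_of_ne hj']

theorem integral_update {X : Type*} [MeasurableSpace X] (P : ι → Measure X)
    [∀ i, IsProbabilityMeasure (P i)]
    (i : ι) (ν : Measure X) [IsProbabilityMeasure ν] (F : (ι → X) → ℝ)
    (hF : Integrable F (Measure.pi (Function.update P i ν))) :
    Integrable (fun p : (ι → X) × X => F (Function.update p.1 i p.2)) ((Measure.pi P).prod ν) ∧
    ∫ x, F x ∂(Measure.pi (Function.update P i ν))
      = ∫ x, ∫ a, F (Function.update x i a) ∂ν ∂(Measure.pi P) := by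
  have hmeas : Measurable (fun p : (ι → X) × X => Function.update p.1 i p.2) := by
    rw [measurable_pi_iff]
    intro j
    by_cases h : j = i
    · subst h; simp; exact measurable_snd
    · simp only [Function.update_of_ne h]
      exact (measurable_pi_apply j).comp measurable_fst
  rw [← pi_update_map] at hF
  have hI := (integrable_map_measure hF.aestronglyMeasurable hmeas.aemeasurable).1 hF
  refine ⟨hI, ?_⟩
  rw [← pi_update_map, integral_map hmeas.aemeasurable hF.aestronglyMeasurable]
  exact integral_prod (fun p : (ι → X) × X => F (Function.update p.1 i p.2)) hI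

end resample

section lindeberg
variable {ι : Type*} [Fintype ι] [DecidableEq ι]

/-- Hybrid product law: `ν` on `S`, `μ` outside. -/
noncomputable def hyb (μ ν : Measure ℝ) (S : Finset ι) : ι → Measure ℝ :=
  fun i => if i ∈ S then ν else μ

instance hyb_prob (μ ν : Measure ℝ) [IsProbabilityMeasure μ] [IsProbabilityMeasure ν]
    (S : Finset ι) (i : ι) : IsProbabilityMeasure (hyb μ ν S i) := by
  unfold hyb; split_ifs <;> infer_instance

/-- One replacement step, for a fixed environment `x`. -/
theorem lind_site (μ ν : Measure ℝ) [IsProbabilityMeasure μ] [IsProbabilityMeasure ν]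
    (w : ℝ → ℝ)
    (h1μ : Integrable (fun a : ℝ => a) μ) (h1ν : Integrable (fun a : ℝ => a) ν)
    (h2μ : Integrable (fun a : ℝ => a ^ 2) μ) (h2ν : Integrable (fun a : ℝ => a ^ 2) ν)
    (hwμ : Integrable w μ) (hwν : Integrable w ν)
    (hm1 : ∫ a, a ∂μ = ∫ a, a ∂ν) (hm2 : ∫ a, a ^ 2 ∂μ = ∫ a, a ^ 2 ∂ν)
    (g : ℝ → ℝ) (hgμ : Integrable g μ) (hgν : Integrable g ν)
    (L M B : ℝ) (hg : ∀ a, |g a - g 0 - a * L - a ^ 2 * M| ≤ B * w a) :
    |∫ a, g a ∂μ - ∫ a, g a ∂ν| ≤ B * (∫ a, w a ∂μ + ∫ a, w a ∂ν) := by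
  have key : ∀ (ρ : Measure ℝ) [IsProbabilityMeasure ρ], Integrable (fun a : ℝ => a) ρ →
      Integrable (fun a : ℝ => a ^ 2) ρ → Integrable w ρ → Integrable g ρ →
      |∫ a, g a ∂ρ - (g 0 + (∫ a, a ∂ρ) * L + (∫ a, a ^ 2 ∂ρ) * M)| ≤ B * ∫ a, w a ∂ρ := by
    intro ρ _ h1 h2 hw hgi
    have e : ∫ a, g a ∂ρ - (g 0 + (∫ a, a ∂ρ) * L + (∫ a, a ^ 2 ∂ρ) * M)
        = ∫ a, (g a - g 0 - a * L - a ^ 2 * M) ∂ρ := by
      have i1 : Integrable (fun a => g a - g 0) ρ := hgi.sub (integrable_const _)
      have i2 : Integrable (fun a => g a - g 0 - a * L) ρ := i1.sub (h1.mul_const L)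
      rw [integral_sub i2 (h2.mul_const M), integral_sub i1 (h1.mul_const L),
        integral_sub hgi (integrable_const _), integral_mul_const, integral_mul_const]
      simp
      ring
    rw [e]
    calc |∫ a, (g a - g 0 - a * L - a ^ 2 * M) ∂ρ|
        ≤ ∫ a, |g a - g 0 - a * L - a ^ 2 * M| ∂ρ := abs_integral_le_integral_abs
      _ ≤ ∫ a, B * w a ∂ρ := by
          apply integral_mono_of_nonneg
          · exact Eventually.of_forall fun a => abs_nonneg _
          · exact hw.const_mul B
          · exact Eventually.of_forall hg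
      _ = B * ∫ a, w a ∂ρ := integral_const_mul _ _
  have kμ := key μ h1μ h2μ hwμ hgμ
  have kν := key ν h1ν h2ν hwν hgν
  rw [hm1, hm2] at kμ
  rw [abs_le] at kμ kν ⊢
  constructor <;> linarith [kμ.1, kμ.2, kν.1, kν.2]

/-- Abstract Lindeberg replacement. -/
theorem lindeberg (μ ν : Measure ℝ) [IsProbabilityMeasure μ] [IsProbabilityMeasure ν]
    (w : ℝ → ℝ)
    (h1μ : Integrable (fun a : ℝ => a) μ) (h1ν : Integrable (fun a : ℝ => a) ν)
    (h2μ : Integrable (fun a : ℝ => a ^ 2) μ) (h2ν : Integrable (fun a : ℝ => a ^ 2) ν)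
    (hwμ : Integrable w μ) (hwν : Integrable w ν)
    (hm1 : ∫ a, a ∂μ = ∫ a, a ∂ν) (hm2 : ∫ a, a ^ 2 ∂μ = ∫ a, a ^ 2 ∂ν)
    (hw0 : ∀ a, 0 ≤ w a)
    (F : (ι → ℝ) → ℝ) (hF : ∀ S : Finset ι, Integrable F (Measure.pi (hyb μ ν S)))
    (L M B : ι → (ι → ℝ) → ℝ) (K : ℝ)
    (hB : ∀ S : Finset ι, ∀ i, Integrable (B i) (Measure.pi (hyb μ ν S)))
    (hBK : ∀ S : Finset ι, ∀ i, ∫ x, B i x ∂(Measure.pi (hyb μ ν S)) ≤ K)
    (hexp : ∀ i x a, |F (Function.update x i a) - F (Function.update x i 0)
        - a * L i x - a ^ 2 * M i x| ≤ B i x * w a) :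
    |∫ x, F x ∂(Measure.pi (fun _ : ι => μ)) - ∫ x, F x ∂(Measure.pi (fun _ : ι => ν))|
      ≤ (Fintype.card ι : ℝ) * K * (∫ a, w a ∂μ + ∫ a, w a ∂ν) := by
  set W := ∫ a, w a ∂μ + ∫ a, w a ∂ν with hW
  have hW0 : 0 ≤ W := add_nonneg (integral_nonneg hw0) (integral_nonneg hw0)
  have step : ∀ (S : Finset ι) (i : ι), i ∉ S →
      |∫ x, F x ∂(Measure.pi (hyb μ ν S)) - ∫ x, F x ∂(Measure.pi (hyb μ ν (insert i S)))|
        ≤ K * W := by
    intro S i hi
    have e1 : hyb μ ν S = Function.update (hyb μ ν S) i μ := by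
      rw [eq_comm, Function.update_eq_self_iff]; simp [hyb, hi]
    have e2 : hyb μ ν (insert i S) = Function.update (hyb μ ν S) i ν := by
      funext j
      by_cases hj : j = i
      · subst hj; simp [hyb]
      · simp [hyb, hj]
    have hFS : Integrable F (Measure.pi (Function.update (hyb μ ν S) i μ)) := by
      rw [← e1]; exact hF S
    have hFS' : Integrable F (Measure.pi (Function.update (hyb μ ν S) i ν)) := by
      rw [← e2]; exact hF _
    obtain ⟨i1, q1⟩ := integral_update (hyb μ ν S) i μ F hFS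
    obtain ⟨i2, q2⟩ := integral_update (hyb μ ν S) i ν F hFS'
    rw [← e1] at q1
    rw [← e2] at q2
    rw [q1, q2, ← integral_sub i1.integral_prod_left i2.integral_prod_left]
    calc |∫ x, (∫ a, F (Function.update x i a) ∂μ - ∫ a, F (Function.update x i a) ∂ν)
            ∂(Measure.pi (hyb μ ν S))|
        ≤ ∫ x, |∫ a, F (Function.update x i a) ∂μ - ∫ a, F (Function.update x i a) ∂ν|
            ∂(Measure.pi (hyb μ ν S)) := abs_integral_le_integral_abs
      _ ≤ ∫ x, B i x * W ∂(Measure.pi (hyb μ ν S)) := by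
          apply integral_mono_ae (i1.integral_prod_left.sub i2.integral_prod_left).abs
            ((hB S i).mul_const W)
          filter_upwards [i1.prod_right_ae, i2.prod_right_ae] with x hx1 hx2
          exact lind_site μ ν w h1μ h1ν h2μ h2ν hwμ hwν hm1 hm2
            (fun a => F (Function.update x i a)) hx1 hx2 (L i x) (M i x) (B i x)
            (fun a => hexp i x a)
      _ = (∫ x, B i x ∂(Measure.pi (hyb μ ν S))) * W := integral_mul_const _ _
      _ ≤ K * W := mul_le_mul_of_nonneg_right (hBK S i) hW0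
  have ind : ∀ S : Finset ι,
      |∫ x, F x ∂(Measure.pi (hyb μ ν ∅)) - ∫ x, F x ∂(Measure.pi (hyb μ ν S))|
        ≤ (S.card : ℝ) * (K * W) := by
    intro S
    induction S using Finset.induction_on with
    | empty => simp
    | insert i S hi ih =>
      have h := step S i hi
      rw [Finset.card_insert_of_notMem hi]
      push_cast
      calc |∫ x, F x ∂(Measure.pi (hyb μ ν ∅)) - ∫ x, F x ∂(Measure.pi (hyb μ ν (insert i S)))|
          ≤ |∫ x, F x ∂(Measure.pi (hyb μ ν ∅)) - ∫ x, F x ∂(Measure.pi (hyb μ ν S))|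
            + |∫ x, F x ∂(Measure.pi (hyb μ ν S)) - ∫ x, F x ∂(Measure.pi (hyb μ ν (insert i S)))| :=
            abs_sub_le _ _ _
        _ ≤ ((S.card : ℝ) + 1) * (K * W) := by linarith
  have e0 : hyb μ ν (∅ : Finset ι) = fun _ => μ := by funext j; simp [hyb]
  have e1 : hyb μ ν (Finset.univ : Finset ι) = fun _ => ν := by funext j; simp [hyb]
  have h := ind Finset.univ
  rw [e0, e1] at h
  rw [Finset.card_univ] at h
  calc _ ≤ _ := h
    _ = _ := by ring

end lindeberg

end Pool.Agent.IP49
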