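import Mathlib

set_option autoImplicit false
open MeasureTheory Filter Topology

namespace Pool.Agent.IP49

theorem exp_neg_le_quad {t : ℝ} (ht : 0 ≤ t) : Real.exp (-t) ≤ 1 - t + t ^ 2 / 2 := by
  have h1 : 1 + t + t ^ 2 / 2 ≤ Real.exp t := Real.quadratic_le_exp_of_nonneg ht
  have h2 : 0 < 1 - t + t ^ 2 / 2 := by nlinarith [sq_nonneg (t - 1)]
  have h3 : 1 ≤ (1 - t + t ^ 2 / 2) * Real.exp t := by
    calc (1 : ℝ) ≤ (1 - t + t ^ 2 / 2) * (1 + t + t ^ 2 / 2) := by nlinarith [sq_nonneg (t ^ 2)]
      _ ≤ _ := mul_le_mul_of_nonneg_left h1 h2.le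
  rw [Real.exp_neg, inv_le_iff_one_le_mul₀ (Real.exp_pos t)]
  exact h3

/-- the square of the mean is at most the mean square -/
theorem sq_integral_le {X : Type*} [MeasurableSpace X] (μ : Measure X) [IsProbabilityMeasure μ]
    (h : X → ℝ) (h1 : Integrable h μ) (h2 : Integrable (fun x => h x ^ 2) μ) :
    (∫ x, h x ∂μ) ^ 2 ≤ ∫ x, h x ^ 2 ∂μ := by
  set c := ∫ x, h x ∂μ with hc
  have h0 : 0 ≤ ∫ x, (h x - c) ^ 2 ∂μ := integral_nonneg fun x => sq_nonneg _
  have e : ∫ x, (h x - c) ^ 2 ∂μ = ∫ x, h x ^ 2 ∂μ - c ^ 2 := by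
    have e1 : (fun x => (h x - c) ^ 2) = fun x => (h x ^ 2 - (2 * c) * h x) + c ^ 2 := by
      funext x; ring
    have i1 : Integrable (fun x => h x ^ 2 - (2 * c) * h x) μ := h2.sub (h1.const_mul _)
    rw [e1, integral_add i1 (integrable_const _), integral_sub h2 (h1.const_mul _),
      integral_const_mul, ← hc]
    simp
    ring
  linarith [e ▸ h0]

/-- one-coordinate step -/
theorem lt_site {X : Type*} [MeasurableSpace X] (μ : Measure X) [IsProbabilityMeasure μ]
    (C l : ℝ) (hl : 0 ≤ l) (y : X → ℝ) (hy0 : ∀ a, 0 ≤ y a)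
    (hy1 : Integrable y μ) (hy2 : Integrable (fun a => y a ^ 2) μ) (hC : ∫ a, y a ^ 2 ∂μ ≤ C) :
    ∫ a, Real.exp (-l * (y a - ∫ b, y b ∂μ)) ∂μ ≤ Real.exp (C * l ^ 2 / 2) := by
  set e := ∫ b, y b ∂μ with he
  have hb : ∀ a, Real.exp (-l * (y a - e)) ≤ Real.exp (l * e) * (1 - l * y a + l ^ 2 * y a ^ 2 / 2) := by
    intro a
    have : -l * (y a - e) = l * e + -(l * y a) := by ring
    rw [this, Real.exp_add]
    apply mul_le_mul_of_nonneg_left _ (Real.exp_pos _).le
    have := exp_neg_le_quad (mul_nonneg hl (hy0 a))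
    calc Real.exp (-(l * y a)) ≤ _ := this
      _ = _ := by ring
  have i1 : Integrable (fun a => 1 - l * y a) μ := (integrable_const _).sub (hy1.const_mul l)
  have i2 : Integrable (fun a => l ^ 2 * y a ^ 2 / 2) μ := (hy2.const_mul (l ^ 2)).div_const 2
  have i3 : Integrable (fun a => Real.exp (l * e) * (1 - l * y a + l ^ 2 * y a ^ 2 / 2)) μ :=
    (i1.add i2).const_mul _
  calc ∫ a, Real.exp (-l * (y a - e)) ∂μ
      ≤ ∫ a, Real.exp (l * e) * (1 - l * y a + l ^ 2 * y a ^ 2 / 2) ∂μ :=
        integral_mono_of_nonneg (Eventually.of_forall fun a => (Real.exp_pos _).le) i3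
          (Eventually.of_forall hb)
    _ = Real.exp (l * e) * (1 - l * e + l ^ 2 * (∫ a, y a ^ 2 ∂μ) / 2) := by
        rw [integral_const_mul, integral_add i1 i2, integral_sub (integrable_const _) (hy1.const_mul l),
          integral_const_mul, integral_div, integral_const_mul]
        simp [he]
    _ ≤ Real.exp (l * e) * (Real.exp (-(l * e) + C * l ^ 2 / 2)) := by
        apply mul_le_mul_of_nonneg_left _ (Real.exp_pos _).le
        have h1 := Real.add_one_le_exp (-(l * e) + C * l ^ 2 / 2)
        have h2 : l ^ 2 * (∫ a, y a ^ 2 ∂μ) ≤ l ^ 2 * C := mul_le_mul_of_nonneg_left hC (sq_nonneg l)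
        linarith
    _ = Real.exp (C * l ^ 2 / 2) := by
        rw [← Real.exp_add]; congr 1; ring

/-- product integral over `Fin (m+1)` by the first coordinate -/
theorem integral_cons {X : Type*} [MeasurableSpace X] (μ : Measure X) [IsProbabilityMeasure μ]
    (m : ℕ) (F : (Fin (m + 1) → X) → ℝ) (hF : Integrable F (Measure.pi fun _ => μ)) :
    Integrable (fun p : X × (Fin m → X) => F (Fin.cons p.1 p.2)) (μ.prod (Measure.pi fun _ => μ)) ∧
    ∫ x, F x ∂(Measure.pi fun _ => μ)
      = ∫ a, ∫ x, F (Fin.cons a x) ∂(Measure.pi fun _ => μ) ∂μ := by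
  have mp := (measurePreserving_piFinSuccAbove (fun _ : Fin (m + 1) => μ) 0).symm
  have hfun : (fun p : X × (Fin m → X) => F (Fin.cons p.1 p.2))
      = F ∘ (MeasurableEquiv.piFinSuccAbove (fun _ : Fin (m + 1) => X) 0).symm := by
    funext p
    simp [MeasurableEquiv.piFinSuccAbove, Fin.insertNthEquiv, Function.comp]
  have hI : Integrable (fun p : X × (Fin m → X) => F (Fin.cons p.1 p.2))
      (μ.prod (Measure.pi fun _ => μ)) := by
    rw [hfun]
    exact mp.integrable_comp_of_integrable hF
  refine ⟨hI, ?_⟩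
  rw [← integral_prod (fun p : X × (Fin m → X) => F (Fin.cons p.1 p.2)) hI, hfun]
  exact (mp.integral_comp' F).symm

/-- Row hypothesis: removing row `k` lowers `f`, by an amount with bounded second moment. -/
def RowStab {X : Type*} [MeasurableSpace X] (μ : Measure X) (C : ℝ) {m : ℕ}
    (f : (Fin m → X) → ℝ) : Prop :=
  ∀ k, ∃ g : (Fin m → X) → ℝ, Measurable g ∧ (∀ x a, g (Function.update x k a) = g x) ∧
    (∀ x, 0 ≤ g x ∧ g x ≤ f x) ∧
    (∀ x, Integrable (fun a => (f (Function.update x k a) - g x) ^ 2) μ ∧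
      ∫ a, (f (Function.update x k a) - g x) ^ 2 ∂μ ≤ C)

theorem dom_integrable {X : Type*} [MeasurableSpace X] (μ : Measure X) [IsProbabilityMeasure μ]
    (ρ : X → ℝ) (hρ : Integrable ρ μ) {m : ℕ} (f : (Fin m → X) → ℝ) (hf : Measurable f)
    (h0 : ∀ x, 0 ≤ f x) (c : ℝ) (hdom : ∀ x, f x ≤ c + ∑ k, ρ (x k)) :
    Integrable f (Measure.pi fun _ => μ) := by
  have h1 : Integrable (fun x : Fin m → X => c + ∑ k, ρ (x k)) (Measure.pi fun _ => μ) := by
    apply (integrable_const _).add
    apply integrable_finsetSum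
    intro k _
    exact (measurePreserving_eval (fun _ : Fin m => μ) k).integrable_comp_of_integrable hρ
  apply h1.mono' hf.aestronglyMeasurable
  exact Eventually.of_forall fun x => by
    rw [Real.norm_eq_abs, abs_of_nonneg (h0 x)]; exact hdom x

theorem lowerTail_exp {X : Type*} [MeasurableSpace X] (μ : Measure X) [IsProbabilityMeasure μ]
    (C l : ℝ) (hl : 0 ≤ l) (ρ : X → ℝ) (hρ : Integrable ρ μ) :
    ∀ (m : ℕ) (f : (Fin m → X) → ℝ), Measurable f → (∀ x, 0 ≤ f x) →
      (∃ c : ℝ, ∀ x, f x ≤ c + ∑ k, ρ (x k)) → RowStab μ C f →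
      ∫ x, Real.exp (-l * (f x - ∫ y, f y ∂(Measure.pi fun _ => μ))) ∂(Measure.pi fun _ => μ)
        ≤ Real.exp (C * m * l ^ 2 / 2) := by
  intro m
  induction m with
  | zero =>
    intro f hf h0 hdom hst
    have : ∀ x : Fin 0 → X, f x = f (fun i => i.elim0) := fun x => congrArg f (by ext i; exact i.elim0)
    have e : ∫ y, f y ∂(Measure.pi fun _ : Fin 0 => μ) = f (fun i => i.elim0) := by
      rw [integral_congr_ae (Eventually.of_forall this)]; simp
    rw [e]
    have e2 : ∀ x : Fin 0 → X, Real.exp (-l * (f x - f (fun i => i.elim0))) = 1 := by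
      intro x; rw [this x]; simp
    rw [integral_congr_ae (Eventually.of_forall e2)]
    simp
  | succ m ih =>
    intro f hf h0 hdom hst
    obtain ⟨c, hc⟩ := hdom
    set π : Measure (Fin m → X) := Measure.pi fun _ => μ with hπ
    have : Nonempty X := by
      by_contra hne
      have : IsEmpty X := not_nonempty_iff.mp hne
      have h := measure_univ (μ := μ)
      rw [Set.univ_eq_empty_iff.mpr ‹IsEmpty X›] at h
      simp at h
    obtain ⟨a0⟩ := ‹Nonempty X›
    have hcons : Measurable (fun p : X × (Fin m → X) => (Fin.cons p.1 p.2 : Fin (m + 1) → X)) := by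
      rw [measurable_pi_iff]
      intro j
      refine Fin.cases ?_ (fun i => ?_) j
      · simpa using measurable_fst
      · simp only [Fin.cons_succ]
        exact (measurable_pi_apply i).comp measurable_snd
    have hcons' : ∀ a : X, Measurable (fun x : Fin m → X => (Fin.cons a x : Fin (m + 1) → X)) :=
      fun a => hcons.comp (measurable_const.prodMk measurable_id)
    have hfm2 : Measurable (fun p : X × (Fin m → X) => f (Fin.cons p.1 p.2)) := hf.comp hcons
    -- sections
    have hsec : ∀ a : X, ∫ x, Real.exp (-l * (f (Fin.cons a x) - ∫ y, f (Fin.cons a y) ∂π)) ∂π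
        ≤ Real.exp (C * m * l ^ 2 / 2) := by
      intro a
      apply ih (fun x => f (Fin.cons a x)) (hf.comp (hcons' a)) (fun x => h0 _)
      · refine ⟨c + ρ a, fun x => ?_⟩
        have := hc (Fin.cons a x)
        rw [Fin.sum_univ_succ] at this
        simp only [Fin.cons_zero, Fin.cons_succ] at this
        linarith
      · intro k
        obtain ⟨g, hg1, hg2, hg3, hg4⟩ := hst k.succ
        refine ⟨fun x => g (Fin.cons a x), hg1.comp (hcons' a), ?_, fun x => hg3 _, ?_⟩
        · intro x b
          show g (Fin.cons a (Function.update x k b)) = g (Fin.cons a x)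
          rw [Fin.cons_update, hg2]
        · intro x
          simp only [Fin.cons_update]
          exact hg4 (Fin.cons a x)
    have hfi : Integrable f (Measure.pi fun _ => μ) := dom_integrable μ ρ hρ f hf h0 c hc
    obtain ⟨hI, hE⟩ := integral_cons μ m f hfi
    set fb : X → ℝ := fun a => ∫ x, f (Fin.cons a x) ∂π with hfb
    have hseci : ∀ a : X, Integrable (fun x => f (Fin.cons a x)) π := by
      intro a
      apply dom_integrable μ ρ hρ (fun x => f (Fin.cons a x)) (hf.comp (hcons' a))
        (fun x => h0 _) (c + ρ a)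
      intro x
      have := hc (Fin.cons a x)
      rw [Fin.sum_univ_succ] at this
      simp only [Fin.cons_zero, Fin.cons_succ] at this
      linarith
    -- first row
    obtain ⟨g, hg1, hg2, hg3, hg4⟩ := hst 0
    have hg2' : ∀ (x : Fin m → X) (a : X), g (Fin.cons a x) = g (Fin.cons a0 x) := by
      intro x a
      have : (Fin.cons a x : Fin (m + 1) → X) = Function.update (Fin.cons a0 x) 0 a := by
        rw [Fin.update_cons_zero]
      rw [this, hg2]
    set G : (Fin m → X) → ℝ := fun x => g (Fin.cons a0 x) with hG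
    have hGm : Measurable G := hg1.comp (hcons' a0)
    have hG0 : ∀ x a, 0 ≤ G x ∧ G x ≤ f (Fin.cons a x) := by
      intro x a
      have := hg3 (Fin.cons a x)
      rw [hg2' x a] at this
      exact this
    have hGi : Integrable G π := by
      apply (hseci a0).mono' hGm.aestronglyMeasurable
      exact Eventually.of_forall fun x => by
        rw [Real.norm_eq_abs, abs_of_nonneg (hG0 x a0).1]; exact (hG0 x a0).2
    set gb := ∫ x, G x ∂π with hgb
    have hupd : ∀ (x : Fin m → X) (a : X),
        f (Function.update (Fin.cons a0 x) 0 a) - g (Fin.cons a0 x) = f (Fin.cons a x) - G x := by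
      intro x a; rw [Fin.update_cons_zero]
    have hC0 : 0 ≤ C := by
      obtain ⟨_, h⟩ := hg4 (fun _ => a0)
      exact le_trans (integral_nonneg fun a => sq_nonneg _) h
    -- square integrable on the product
    have hsq : Integrable (fun p : X × (Fin m → X) => (f (Fin.cons p.1 p.2) - G p.2) ^ 2)
        (μ.prod π) := by
      have hm : Measurable (fun p : X × (Fin m → X) => (f (Fin.cons p.1 p.2) - G p.2) ^ 2) :=
        (hfm2.sub (hGm.comp measurable_snd)).pow_const 2
      rw [integrable_prod_iff' hm.aestronglyMeasurable]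
      constructor
      · refine Eventually.of_forall fun x => ?_
        have := (hg4 (Fin.cons a0 x)).1
        simp only [hupd] at this
        exact this
      · apply Integrable.mono' (integrable_const C)
        · have hm2 : StronglyMeasurable (fun p : (Fin m → X) × X =>
              ‖(f (Fin.cons p.2 p.1) - G p.1) ^ 2‖) :=
            (hm.norm.comp measurable_swap).stronglyMeasurable
          exact hm2.integral_prod_right'.aestronglyMeasurable
        · refine Eventually.of_forall fun x => ?_
          have := (hg4 (Fin.cons a0 x)).2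
          simp only [hupd] at this
          rw [Real.norm_eq_abs, abs_of_nonneg (integral_nonneg fun a => norm_nonneg _)]
          calc ∫ a, ‖(f (Fin.cons a x) - G x) ^ 2‖ ∂μ = ∫ a, (f (Fin.cons a x) - G x) ^ 2 ∂μ := by
                congr 1; funext a; rw [Real.norm_eq_abs, abs_of_nonneg (sq_nonneg _)]
            _ ≤ C := this
    have hsqC : ∫ a, ∫ x, (f (Fin.cons a x) - G x) ^ 2 ∂π ∂μ ≤ C := by
      rw [integral_integral_swap hsq]
      calc ∫ x, ∫ a, (f (Fin.cons a x) - G x) ^ 2 ∂μ ∂π ≤ ∫ x, C ∂π := by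
            apply integral_mono_of_nonneg
            · exact Eventually.of_forall fun x => integral_nonneg fun a => sq_nonneg _
            · exact integrable_const C
            · refine Eventually.of_forall fun x => ?_
              have := (hg4 (Fin.cons a0 x)).2
              simp only [hupd] at this
              exact this
        _ = C := by simp
    set y : X → ℝ := fun a => fb a - gb with hy
    have hfbm : StronglyMeasurable fb := hfm2.stronglyMeasurable.integral_prod_right'
    have hfbi : Integrable fb μ := hI.integral_prod_left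
    have hy0 : ∀ a, 0 ≤ y a := fun a =>
      sub_nonneg.2 (integral_mono hGi (hseci a) fun x => (hG0 x a).2)
    have hyi : Integrable y μ := hfbi.sub (integrable_const _)
    have hysq : ∀ᵐ a ∂μ, y a ^ 2 ≤ ∫ x, (f (Fin.cons a x) - G x) ^ 2 ∂π := by
      filter_upwards [hsq.prod_right_ae] with a ha
      have e : y a = ∫ x, (f (Fin.cons a x) - G x) ∂π := by
        rw [integral_sub (hseci a) hGi]
      rw [e]
      exact sq_integral_le π _ ((hseci a).sub hGi) ha
    have hy2 : Integrable (fun a => y a ^ 2) μ := by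
      apply hsq.integral_prod_left.mono'
      · exact ((hfbm.sub stronglyMeasurable_const).pow 2).aestronglyMeasurable
      · filter_upwards [hysq] with a ha
        rw [Real.norm_eq_abs, abs_of_nonneg (sq_nonneg _)]; exact ha
    have hy2C : ∫ a, y a ^ 2 ∂μ ≤ C :=
      le_trans (integral_mono_ae hy2 hsq.integral_prod_left hysq) hsqC
    have hsite := lt_site μ C l hl y hy0 hyi hy2 hy2C
    have hyE : ∫ a, y a ∂μ = ∫ a, fb a ∂μ - gb := by
      rw [integral_sub hfbi (integrable_const _)]; simp
    -- combine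
    have hEf : ∫ y, f y ∂(Measure.pi fun _ => μ) = ∫ a, fb a ∂μ := hE
    rw [hEf]
    set e := ∫ a, fb a ∂μ with he
    have hexpm : Measurable (fun x : Fin (m + 1) → X => Real.exp (-l * (f x - e))) :=
      Real.measurable_exp.comp ((hf.sub_const e).const_mul (-l))
    have hexpi : Integrable (fun x : Fin (m + 1) → X => Real.exp (-l * (f x - e)))
        (Measure.pi fun _ => μ) := by
      apply Integrable.mono' (integrable_const (Real.exp (l * e))) hexpm.aestronglyMeasurable
      refine Eventually.of_forall fun x => ?_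
      rw [Real.norm_eq_abs, abs_of_pos (Real.exp_pos _)]
      apply Real.exp_le_exp.2
      nlinarith [mul_nonneg hl (h0 x)]
    obtain ⟨hI2, hE2⟩ := integral_cons μ m _ hexpi
    rw [hE2]
    have hinner : ∀ a, ∫ x, Real.exp (-l * (f (Fin.cons a x) - e)) ∂π
        ≤ Real.exp (C * m * l ^ 2 / 2) * Real.exp (-l * (y a - ∫ b, y b ∂μ)) := by
      intro a
      have e1 : ∀ x, Real.exp (-l * (f (Fin.cons a x) - e))
          = Real.exp (-l * (f (Fin.cons a x) - fb a)) * Real.exp (-l * (y a - ∫ b, y b ∂μ)) := by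
        intro x
        rw [← Real.exp_add]
        congr 1
        rw [hyE]; simp only [hy]; ring
      rw [integral_congr_ae (Eventually.of_forall e1), integral_mul_const]
      exact mul_le_mul_of_nonneg_right (hsec a) (Real.exp_pos _).le
    have hyexpi : Integrable (fun a => Real.exp (-l * (y a - ∫ b, y b ∂μ))) μ := by
      apply Integrable.mono' (integrable_const (Real.exp (l * ∫ b, y b ∂μ)))
      · exact (Real.continuous_exp.comp_stronglyMeasurable
          (((hfbm.sub stronglyMeasurable_const).sub stronglyMeasurable_const).const_mul (-l))).aestronglyMeasurable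
      · refine Eventually.of_forall fun a => ?_
        rw [Real.norm_eq_abs, abs_of_pos (Real.exp_pos _)]
        apply Real.exp_le_exp.2
        nlinarith [mul_nonneg hl (hy0 a)]
    calc ∫ a, ∫ x, Real.exp (-l * (f (Fin.cons a x) - e)) ∂π ∂μ
        ≤ ∫ a, Real.exp (C * m * l ^ 2 / 2) * Real.exp (-l * (y a - ∫ b, y b ∂μ)) ∂μ := by
          apply integral_mono_of_nonneg
          · exact Eventually.of_forall fun a => integral_nonneg fun x => (Real.exp_pos _).le
          · exact hyexpi.const_mul _
          · exact Eventually.of_forall hinner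
      _ = Real.exp (C * m * l ^ 2 / 2) * ∫ a, Real.exp (-l * (y a - ∫ b, y b ∂μ)) ∂μ :=
          integral_const_mul _ _
      _ ≤ Real.exp (C * m * l ^ 2 / 2) * Real.exp (C * l ^ 2 / 2) :=
          mul_le_mul_of_nonneg_left hsite (Real.exp_pos _).le
      _ = Real.exp (C * ((m + 1 : ℕ) : ℝ) * l ^ 2 / 2) := by
          rw [← Real.exp_add]; congr 1; push_cast; ring

/-- Sub-Gaussian lower tail. -/
theorem lowerTail {X : Type*} [MeasurableSpace X] (μ : Measure X) [IsProbabilityMeasure μ]
    (C : ℝ) (hC : 0 < C) (ρ : X → ℝ) (hρ : Integrable ρ μ)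
    (m : ℕ) (hm : 0 < m) (f : (Fin m → X) → ℝ) (hf : Measurable f) (h0 : ∀ x, 0 ≤ f x)
    (hdom : ∃ c : ℝ, ∀ x, f x ≤ c + ∑ k, ρ (x k)) (hst : RowStab μ C f) (s : ℝ) (hs : 0 ≤ s) :
    (Measure.pi fun _ : Fin m => μ).real {x | f x ≤ ∫ y, f y ∂(Measure.pi fun _ => μ) - s}
      ≤ Real.exp (-(s ^ 2 / (2 * C * m))) := by
  set π : Measure (Fin m → X) := Measure.pi fun _ => μ with hπ
  set e := ∫ y, f y ∂π with he
  have hm' : (0 : ℝ) < m := by exact_mod_cast hm
  set l := s / (C * m) with hl
  have hl0 : 0 ≤ l := div_nonneg hs (mul_pos hC hm').le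
  have h1 := lowerTail_exp μ C l hl0 ρ hρ m f hf h0 hdom hst
  have hexpm : Measurable (fun x : Fin m → X => Real.exp (-l * (f x - e))) :=
    Real.measurable_exp.comp ((hf.sub_const e).const_mul (-l))
  have hexpi : Integrable (fun x : Fin m → X => Real.exp (-l * (f x - e))) π := by
    apply Integrable.mono' (integrable_const (Real.exp (l * e))) hexpm.aestronglyMeasurable
    refine Eventually.of_forall fun x => ?_
    rw [Real.norm_eq_abs, abs_of_pos (Real.exp_pos _)]
    apply Real.exp_le_exp.2
    nlinarith [mul_nonneg hl0 (h0 x)]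
  have hsub : {x | f x ≤ e - s} ⊆ {x | Real.exp (l * s) ≤ Real.exp (-l * (f x - e))} := by
    intro x hx
    apply Real.exp_le_exp.2
    have : f x ≤ e - s := hx
    nlinarith
  have h2 := mul_meas_ge_le_integral_of_nonneg (μ := π)
    (Eventually.of_forall fun x => (Real.exp_pos (-l * (f x - e))).le) hexpi (Real.exp (l * s))
  have h3 : π.real {x | f x ≤ e - s} ≤ π.real {x | Real.exp (l * s) ≤ Real.exp (-l * (f x - e))} :=
    measureReal_mono hsub
  have h4 : Real.exp (l * s) * π.real {x | f x ≤ e - s} ≤ Real.exp (C * m * l ^ 2 / 2) := by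
    calc Real.exp (l * s) * π.real {x | f x ≤ e - s}
        ≤ Real.exp (l * s) * π.real {x | Real.exp (l * s) ≤ Real.exp (-l * (f x - e))} :=
          mul_le_mul_of_nonneg_left h3 (Real.exp_pos _).le
      _ ≤ _ := h2
      _ ≤ _ := h1
  have h5 : π.real {x | f x ≤ e - s} ≤ Real.exp (-(l * s)) * Real.exp (C * m * l ^ 2 / 2) := by
    rw [Real.exp_neg, inv_mul_eq_div, le_div_iff₀ (Real.exp_pos _), mul_comm]
    exact h4
  refine h5.trans (le_of_eq ?_)
  rw [← Real.exp_add]
  congr 1
  rw [hl]
  field_simp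
  ring

end Pool.Agent.IP49
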