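import Pool.Agent.IP49.MillsB

/-!
IP49: everything about `phi`, `Ph`, `Mi`, `Md` is in `MillsA`, `MillsB`; further facts (truncated
moments, `phi_mul_sq_le`, `Mi_le_add_inv`, `Mi_sub_antitone`, `logPh_le_of_nonneg`,
`Ph_le_exp_of_nonneg`, `abs_logPh_sub_le`, limits of `Ph`, ...) are in namespace
`Pool.Agent.IP49.MC` (file `MillsCore`).
-/
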