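import Pool.Agent.IP49.MillsA

/-!
IP49 library, module MillsB: `Md < 1`, convexity of `Mi`, growth bounds.

PROOFS.
(1) `Md z < 1`: truncated second moment. With `I_k = ∫_{Ioi z} x^k phi`, `I_0 = Ph z`,
`I_1 = phi z`, `I_2 = Ph z + z phi z` (integrate `(−x phi)' = x² phi − phi` or check that the
function `−x phi x` has derivative `x² phi − phi`). By strict Cauchy-Schwarz, or
`0 < ∫_{Ioi z} (x − Mi z)² phi = I_2 − 2 Mi I_1 + Mi² I_0 = Ph (1 + z Mi − Mi²)`.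
(2) `Mi z ≤ 1 + max z 0`: `Mi 0 = 2 phi 0 = √(2/π) < 1`, `Mi` is increasing (z ≤ 0) and
`Mi' = Md < 1` (z ≥ 0, mean value theorem).
(3) `-(2 + z²) ≤ log (Ph z) ≤ 0`: for `z ≤ 0` `Ph z ≥ 1/2`; for `z ≥ 0`
`log Ph z = log (1/2) − ∫_0^z Mi ≥ −0.7 − z − z²/2`.
(4) CONVEXITY (Sampford). `Mi'' = M2 z := Md z (2 Mi z − z) − Mi z = Mi ((Mi − z)(2 Mi − z) − 1)`.
Claim `1 < (Mi − z)(2 Mi − z)`. Put `L(z) = (3z + √(z²+8))/4`, `v = L − z = (√(z²+8) − z)/4 > 0`;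
then `v (2v + z) = 1`, `z = 1/v − 2v`, `L = 1/v − v`, `L (L − z) = 1 − v²`,
`L' = (3 + z/√(z²+8))/4 = (1+v²)/(1+2v²)`, and `(1−v²)(1+2v²) < 1+v²`, so `L(L−z) < L'`.
The claim is equivalent to `Mi > L` (for `u = Mi − z > 0`: `u(2u+z) > 1 ⇔ u > v`).
Let `D = Mi − L`. If `D(z₁) ≤ 0` at some `z₁`: whenever `D ≤ 0` one has `z < Mi ≤ L`, so
`Mi' = Mi (Mi − z)`; if `Mi ≤ L` then `Mi (Mi − z) ≤ L (L − z) < L'` when `L > 0`, (if `L ≤ 0`
then `Mi > 0 ≥ L`, so `D > 0` and this case cannot occur), hence `D' < 0` whenever `D ≤ 0`. So `D`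
stays negative and decreasing on `(z₁, ∞)`: for some `z₂ > z₁` `D(z₂) < 0` and `D ≤ D(z₂)`
afterwards. But `D ≥ z − L = −v(z) → 0` as `z → ∞` (`v ≤ 1/z`). Contradiction.
(5) `M2 ≤ 4`, `0 ≤ M2`: `0 ≤ M2` is (4). `M2 = Md (2Mi − z) − Mi < (2 Mi − z) − Mi = Mi − z` when
`2 Mi − z > 0` (always); for `z ≥ −3` `Mi − z ≤ 1 + max z 0 − z ≤ 4`; for `z ≤ −3`:
`M2 ≤ Md (2Mi − z) ≤ 2 phi(z)(…)`: `Mi ≤ 2 phi z ≤ 1/50`,
`Md = Mi(Mi − z) ≤ 2 phi(z)(1 + |z|)`, and `2 phi(z)(1+|z|)(2+|z|) ≤ 4` (`phi(z)|z|^2` is small;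
any argument, e.g. `exp(-z²/2) ≤ 1/(1+z²/2+z⁴/8)`).
-/

set_option autoImplicit false
open MeasureTheory ProbabilityTheory Filter Topology

namespace Pool.Agent.IP49

theorem Md_lt_one (z : ℝ) : Md z < 1 := MC.Md_lt_one z

theorem Mi_le (z : ℝ) : Mi z ≤ 1 + max z 0 := by
  rcases le_total 0 z with h | h
  · rw [max_eq_left h]; have := MC.Mi_le_of_nonneg h; linarith
  · rw [max_eq_right h]; have := MC.Mi_le_of_nonpos h; linarith

theorem Mi_le_abs (z : ℝ) : Mi z ≤ 1 + |z| := by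
  have := MC.Mi_le z
  linarith

theorem logPh_nonpos (z : ℝ) : Real.log (Ph z) ≤ 0 := (MC.logPh_neg z).le

theorem logPh_ge (z : ℝ) : -(2 + z ^ 2) ≤ Real.log (Ph z) := by
  have hl := MC.log_two_lt
  rcases le_total 0 z with hz | hz
  · have h := MC.logPh_ge_of_nonneg hz
    nlinarith [sq_nonneg (z - 4/5)]
  · have h : Real.log (Ph 0) ≤ Real.log (Ph z) := MC.logPh_antitone hz
    rw [MC.logPh_zero] at h
    have := sq_nonneg z
    linarith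

/-- the second derivative of the inverse Mills ratio -/
noncomputable def M2 (z : ℝ) : ℝ := Md z * (2 * Mi z - z) - Mi z

theorem hasDerivAt_Md (z : ℝ) : HasDerivAt Md (M2 z) z := by
  refine (MC.hasDerivAt_Md z).congr_deriv ?_
  unfold MC.Mdd M2 Md
  ring

/-- Sampford's inequality -/
theorem sampford (z : ℝ) : 1 < (Mi z - z) * (2 * Mi z - z) := MC.sampford z

theorem M2_pos (z : ℝ) : 0 < M2 z := by
  have h := MC.Mdd_pos z
  have e : M2 z = MC.Mdd z := by unfold MC.Mdd M2 Md; ring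
  rw [e]; exact h

theorem M2_le (z : ℝ) : M2 z ≤ 4 := by
  have h := MC.Mdd_le z
  have e : M2 z = MC.Mdd z := by unfold MC.Mdd M2 Md; ring
  rw [e]; exact h

theorem strictMono_Md : StrictMono Md := MC.Md_strictMono

theorem Mi_lipschitz (x y : ℝ) : |Mi x - Mi y| ≤ |x - y| := MC.abs_Mi_sub_le x y

theorem Md_lipschitz (x y : ℝ) : |Md x - Md y| ≤ 4 * |x - y| := MC.abs_Md_sub_le x y

theorem logPh_concave : ConcaveOn ℝ Set.univ (fun z => Real.log (Ph z)) := MC.logPh_concave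

theorem Mi_convex : ConvexOn ℝ Set.univ Mi := MC.Mi_convex

/-- tangent line bound -/
theorem logPh_le_tangent (x y : ℝ) : Real.log (Ph x) ≤ Real.log (Ph y) - Mi y * (x - y) := MC.logPh_tangent x y

end Pool.Agent.IP49
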