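import Pool.Agent.IP49.Defs

/-!
IP49: elementary analysis of `phi`, `Ph`, `Mi`, `Md`, core proofs (helper37); used by
`MillsA`, `MillsB`, `Mills`.
-/

set_option autoImplicit false
open MeasureTheory ProbabilityTheory Filter Topology Set

namespace Pool.Agent.IP49.MC

/-! ### The density -/

theorem sqrt_two_pi_pos : 0 < Real.sqrt (2 * Real.pi) := Real.sqrt_pos.2 (by positivity)

theorem phi_pos (x : ℝ) : 0 < phi x := by
  unfold phi
  exact div_pos (Real.exp_pos _) sqrt_two_pi_pos

theorem phi_neg (x : ℝ) : phi (-x) = phi x := by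
  unfold phi
  rw [neg_sq]

theorem phi_eq_pdf (x : ℝ) : phi x = gaussianPDFReal 0 1 x := by
  unfold phi
  rw [gaussianPDFReal]
  simp only [NNReal.coe_one, mul_one, sub_zero]
  rw [div_eq_inv_mul]

theorem phi_fun_eq : phi = gaussianPDFReal 0 1 := funext phi_eq_pdf

theorem hasDerivAt_phi (x : ℝ) : HasDerivAt phi (-(x * phi x)) x := by
  unfold phi
  have h1 : HasDerivAt (fun y : ℝ => -y ^ 2 / 2) (-x) x := by
    have := ((hasDerivAt_pow 2 x).neg).div_const 2
    refine this.congr_deriv ?_
    norm_num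
    ring
  have h2 := (h1.exp).div_const (Real.sqrt (2 * Real.pi))
  refine h2.congr_deriv ?_
  ring

theorem continuous_phi : Continuous phi :=
  continuous_iff_continuousAt.2 fun x => (hasDerivAt_phi x).continuousAt

theorem integrable_phi : Integrable phi := by
  rw [phi_fun_eq]; exact integrable_gaussianPDFReal 0 1

theorem integral_phi : ∫ x, phi x = 1 := by
  rw [phi_fun_eq]; exact integral_gaussianPDFReal_eq_one 0 (by norm_num)

theorem phi_zero : phi 0 = 1 / Real.sqrt (2 * Real.pi) := by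
  unfold phi; norm_num

theorem phi_le_phi_zero (x : ℝ) : phi x ≤ phi 0 := by
  unfold phi
  refine div_le_div_of_nonneg_right (Real.exp_le_exp.2 ?_) sqrt_two_pi_pos.le
  have := sq_nonneg x
  norm_num
  linarith

theorem phi_zero_le : phi 0 ≤ 2 / 5 := by
  rw [phi_zero, div_le_div_iff₀ sqrt_two_pi_pos (by norm_num)]
  have h : (5 / 2 : ℝ) ≤ Real.sqrt (2 * Real.pi) := by
    apply Real.le_sqrt_of_sq_le
    have := Real.pi_gt_d4
    norm_num
    linarith
  linarith

theorem phi_le (x : ℝ) : phi x ≤ 2 / 5 := (phi_le_phi_zero x).trans phi_zero_le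

theorem phi_antitone {x y : ℝ} (hx : 0 ≤ x) (hxy : x ≤ y) : phi y ≤ phi x := by
  unfold phi
  refine div_le_div_of_nonneg_right (Real.exp_le_exp.2 ?_) sqrt_two_pi_pos.le
  have : x ^ 2 ≤ y ^ 2 := pow_le_pow_left₀ hx hxy 2
  linarith

theorem integrable_rpow_phi_aux (k : ℕ) : Integrable (fun x : ℝ => x ^ k * phi x) := by
  have h := (integrable_rpow_mul_exp_neg_mul_sq (b := 1/2) (by norm_num) (s := k)
    (by have : (0:ℝ) ≤ k := Nat.cast_nonneg k
        linarith)).const_mul ((Real.sqrt (2 * Real.pi))⁻¹)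
  refine h.congr (Filter.Eventually.of_forall fun x => ?_)
  simp only [Real.rpow_natCast]
  unfold phi
  rw [div_eq_inv_mul]
  have : -x ^ 2 / 2 = -(1 / 2) * x ^ 2 := by ring
  rw [this]
  ring_nf

/-- `x^k φ(x)` is integrable -/
theorem integrable_pow_mul_phi (k : ℕ) : Integrable (fun x : ℝ => x ^ k * phi x) :=
  integrable_rpow_phi_aux k

theorem tendsto_phi_atTop : Tendsto phi atTop (𝓝 0) := by
  have h1 : Tendsto (fun x : ℝ => (1/2) * x ^ 2) atTop atTop :=
    (tendsto_pow_atTop (two_ne_zero)).const_mul_atTop (by norm_num)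
  have h2 : Tendsto (fun x : ℝ => Real.exp (-((1/2) * x ^ 2))) atTop (𝓝 0) :=
    Real.tendsto_exp_neg_atTop_nhds_zero.comp h1
  have h3 := h2.div_const (Real.sqrt (2 * Real.pi))
  simp only [zero_div] at h3
  refine h3.congr fun x => ?_
  unfold phi
  have : -(1 / 2 * x ^ 2) = -x ^ 2 / 2 := by ring
  rw [this]

theorem tendsto_pow_mul_phi_atTop (k : ℕ) : Tendsto (fun x : ℝ => x ^ k * phi x) atTop (𝓝 0) := by
  have h := Real.tendsto_pow_mul_exp_neg_atTop_nhds_zero k
  have h3 := h.div_const (Real.sqrt (2 * Real.pi))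
  simp only [zero_div] at h3
  refine squeeze_zero' ?_ ?_ h3
  · filter_upwards [eventually_ge_atTop (0:ℝ)] with x hx
    exact mul_nonneg (pow_nonneg hx k) (phi_pos x).le
  · filter_upwards [eventually_ge_atTop (2:ℝ)] with x hx
    unfold phi
    rw [← mul_div_assoc]
    refine div_le_div_of_nonneg_right (mul_le_mul_of_nonneg_left (Real.exp_le_exp.2 ?_)
      (pow_nonneg (by linarith) k)) sqrt_two_pi_pos.le
    nlinarith

/-! ### The tail -/

theorem Ph_eq_integral_Ici (z : ℝ) : Ph z = ∫ t in Ici z, phi t := by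
  unfold Ph
  rw [phi_fun_eq, measureReal_def, gaussianReal_apply_eq_integral 0 (by norm_num) (Ici z),
    ENNReal.toReal_ofReal]
  exact setIntegral_nonneg measurableSet_Ici fun t _ => gaussianPDFReal_nonneg 0 1 t

theorem Ph_eq_integral (z : ℝ) : Ph z = ∫ t in Ioi z, phi t := by
  rw [Ph_eq_integral_Ici, integral_Ici_eq_integral_Ioi]

theorem Ph_sub (x y : ℝ) : Ph x - Ph y = ∫ t in x..y, phi t := by
  have h1 := intervalIntegral.integral_Iic_sub_Iic (a := x) (b := y) (f := phi) (μ := volume)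
    integrable_phi.integrableOn integrable_phi.integrableOn
  have h2 := fun b : ℝ => intervalIntegral.integral_Iic_add_Ioi (b := b) (f := phi) (μ := volume)
    integrable_phi.integrableOn integrable_phi.integrableOn
  have h3 := h2 x
  have h4 := h2 y
  rw [Ph_eq_integral, Ph_eq_integral]
  linarith

theorem hasDerivAt_Ph (z : ℝ) : HasDerivAt Ph (-phi z) z := by
  have h : Ph = fun z => Ph 0 - ∫ t in (0:ℝ)..z, phi t := by
    funext z
    have := Ph_sub 0 z
    linarith
  rw [h]
  exact ((continuous_phi.integral_hasStrictDerivAt 0 z).hasDerivAt).const_sub _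

theorem continuous_Ph : Continuous Ph :=
  continuous_iff_continuousAt.2 fun x => (hasDerivAt_Ph x).continuousAt

theorem Ph_strictAnti : StrictAnti Ph :=
  strictAnti_of_deriv_neg fun z => by
    rw [(hasDerivAt_Ph z).deriv]
    have := phi_pos z
    linarith

theorem Ph_pos (z : ℝ) : 0 < Ph z := by
  have h1 : 0 ≤ Ph (z + 1) := measureReal_nonneg
  have h2 := Ph_strictAnti (show z < z + 1 by linarith)
  linarith

theorem Ph_lt_one (z : ℝ) : Ph z < 1 := by
  have h1 : Ph (z - 1) ≤ 1 := measureReal_le_one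
  have h2 := Ph_strictAnti (show z - 1 < z by linarith)
  linarith

theorem Ph_neg (z : ℝ) : Ph (-z) = 1 - Ph z := by
  have h1 : ∫ t in Ioi (-z), phi t = ∫ t in Iic z, phi t := by
    have := integral_comp_neg_Ioi (-z) phi
    simp only [phi_neg, neg_neg] at this
    exact this
  have h2 := intervalIntegral.integral_Iic_add_Ioi (b := z) (f := phi) (μ := volume)
    integrable_phi.integrableOn integrable_phi.integrableOn
  rw [integral_phi] at h2
  rw [Ph_eq_integral, Ph_eq_integral, h1]
  linarith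

theorem Ph_zero : Ph 0 = 1 / 2 := by
  have := Ph_neg 0
  rw [neg_zero] at this
  linarith

theorem Ph_antitone {x y : ℝ} (h : x ≤ y) : Ph y ≤ Ph x := Ph_strictAnti.antitone h

theorem half_le_Ph {z : ℝ} (hz : z ≤ 0) : 1 / 2 ≤ Ph z := by
  rw [← Ph_zero]; exact Ph_antitone hz

theorem Ph_le_half {z : ℝ} (hz : 0 ≤ z) : Ph z ≤ 1 / 2 := by
  rw [← Ph_zero]; exact Ph_antitone hz

theorem tendsto_Ph_atBot : Tendsto Ph atBot (𝓝 1) := by
  have h : Ph = fun z => 1 - ∫ t in Iic z, phi t := by
    funext z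
    have h2 := intervalIntegral.integral_Iic_add_Ioi (b := z) (f := phi) (μ := volume)
      integrable_phi.integrableOn integrable_phi.integrableOn
    rw [integral_phi] at h2
    rw [Ph_eq_integral]
    linarith
  have h0 : Tendsto (fun z => ∫ t in Iic z, phi t) atBot (𝓝 0) := by
    have := tendsto_setIntegral_of_antitone (μ := volume) (f := phi) (s := fun z : ℝᵒᵈ => Iic z.ofDual)
      (fun i => measurableSet_Iic) (fun a b hab => Iic_subset_Iic.2 hab)
      ⟨OrderDual.toDual 0, integrable_phi.integrableOn⟩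
    have h3 : ⋂ n : ℝᵒᵈ, Iic (OrderDual.ofDual n) = (∅ : Set ℝ) := by
      ext x
      simp only [mem_iInter, mem_Iic, mem_empty_iff_false, iff_false, not_forall, not_le]
      exact ⟨OrderDual.toDual (x - 1), by
        show x - 1 < x
        linarith⟩
    rw [h3, setIntegral_empty] at this
    exact this
  rw [h]
  simpa using h0.const_sub 1

theorem tendsto_Ph_atTop : Tendsto Ph atTop (𝓝 0) := by
  have h1 : Tendsto (fun z => Ph (-z)) atTop (𝓝 1) := tendsto_Ph_atBot.comp tendsto_neg_atTop_atBot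
  have h2 : Tendsto (fun z => 1 - Ph (-z)) atTop (𝓝 (1 - 1)) := h1.const_sub 1
  rw [sub_self] at h2
  refine h2.congr fun z => ?_
  rw [Ph_neg]; ring

/-! ### Truncated moments of order one and two -/

theorem integrable_mul_phi : Integrable (fun x : ℝ => x * phi x) := by
  simpa using integrable_pow_mul_phi 1

theorem integral_Ioi_mul_phi (z : ℝ) : ∫ t in Ioi z, t * phi t = phi z := by
  have h := integral_Ioi_of_hasDerivAt_of_tendsto' (a := z) (f := fun t => - phi t)
    (f' := fun t => t * phi t) (m := 0) (fun t _ => by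
      have := (hasDerivAt_phi t).neg
      rw [neg_neg] at this
      exact this) integrable_mul_phi.integrableOn (by simpa using tendsto_phi_atTop.neg)
  rw [h]; simp

theorem integral_Ioi_sq_mul_phi (z : ℝ) : ∫ t in Ioi z, t ^ 2 * phi t = z * phi z + Ph z := by
  have hd : ∀ t : ℝ, HasDerivAt (fun t => - (t * phi t)) (t ^ 2 * phi t - phi t) t := by
    intro t
    have := ((hasDerivAt_id t).mul (hasDerivAt_phi t)).neg
    refine this.congr_deriv ?_
    simp only [id]
    ring
  have h := integral_Ioi_of_hasDerivAt_of_tendsto' (a := z) (f := fun t => - (t * phi t))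
    (f' := fun t => t ^ 2 * phi t - phi t) (m := 0) (fun t _ => hd t)
    ((integrable_pow_mul_phi 2).sub integrable_phi).integrableOn
    (by simpa using (tendsto_pow_mul_phi_atTop 1).neg)
  rw [integral_sub (integrable_pow_mul_phi 2).integrableOn integrable_phi.integrableOn,
    ← Ph_eq_integral] at h
  linarith

theorem integral_Ioi_pos {f : ℝ → ℝ} {z : ℝ} (hf : Integrable f) (hc : Continuous f)
    (h0 : ∀ t, z < t → 0 ≤ f t) {t0 : ℝ} (ht0 : z < t0) (hp : 0 < f t0) :
    0 < ∫ t in Ioi z, f t := by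
  rw [setIntegral_pos_iff_support_of_nonneg_ae]
  · have hopen : IsOpen (f ⁻¹' (Ioi 0) ∩ Ioi z) := (isOpen_Ioi.preimage hc).inter isOpen_Ioi
    have hne : (f ⁻¹' (Ioi 0) ∩ Ioi z).Nonempty := ⟨t0, hp, ht0⟩
    refine lt_of_lt_of_le (hopen.measure_pos volume hne) (measure_mono ?_)
    rintro t ⟨h1, h2⟩
    exact ⟨by
      have h3 : 0 < f t := h1
      exact h3.ne', h2⟩
  · refine (ae_restrict_iff' measurableSet_Ioi).2 (Eventually.of_forall fun t ht => ?_)
    exact h0 t ht
  · exact hf.integrableOn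

/-! ### The inverse Mills ratio -/

theorem Mi_pos (z : ℝ) : 0 < Mi z := div_pos (phi_pos z) (Ph_pos z)

theorem Mi_mul_Ph (z : ℝ) : Mi z * Ph z = phi z := by
  unfold Mi
  exact div_mul_cancel₀ _ (Ph_pos z).ne'

/-- `z < Mi z` -/
theorem lt_Mi (z : ℝ) : z < Mi z := by
  unfold Mi
  rw [lt_div_iff₀ (Ph_pos z)]
  have h1 : 0 < ∫ t in Ioi z, (t - z) * phi t := by
    refine integral_Ioi_pos (t0 := z + 1) ?_ ?_ ?_ (by linarith) ?_
    · have : (fun t : ℝ => (t - z) * phi t) = fun t => t * phi t - z * phi t := by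
        funext t; ring
      rw [this]
      exact integrable_mul_phi.sub (integrable_phi.const_mul z)
    · exact (continuous_id.sub continuous_const).mul continuous_phi
    · intro t ht
      exact mul_nonneg (by linarith) (phi_pos t).le
    · exact mul_pos (by linarith) (phi_pos _)
  have h2 : ∫ t in Ioi z, (t - z) * phi t = phi z - z * Ph z := by
    have : ∀ t : ℝ, (t - z) * phi t = t * phi t - z * phi t := fun t => by ring
    simp only [this]
    rw [integral_sub integrable_mul_phi.integrableOn (integrable_phi.const_mul z).integrableOn,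
      integral_const_mul, integral_Ioi_mul_phi, ← Ph_eq_integral]
  linarith

theorem Md_pos (z : ℝ) : 0 < Md z := by
  unfold Md
  exact mul_pos (Mi_pos z) (by have := lt_Mi z; linarith)

/-- `E' < 1` (positivity of the variance of the truncated Gaussian) -/
theorem Md_lt_one (z : ℝ) : Md z < 1 := by
  have hP := Ph_pos z
  set c := Mi z with hc
  have h1 : 0 < ∫ t in Ioi z, (t - c) ^ 2 * phi t := by
    have hi : Integrable (fun t : ℝ => (t - c) ^ 2 * phi t) := by
      have : (fun t : ℝ => (t - c) ^ 2 * phi t)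
          = fun t => t ^ 2 * phi t - 2 * c * (t * phi t) + c ^ 2 * phi t := by
        funext t; ring
      rw [this]
      exact ((integrable_pow_mul_phi 2).sub (integrable_mul_phi.const_mul _)).add
        (integrable_phi.const_mul _)
    refine integral_Ioi_pos (t0 := c + 1) hi ?_ ?_ (by have := lt_Mi z; linarith) ?_
    · exact ((continuous_id.sub continuous_const).pow 2).mul continuous_phi
    · intro t ht
      exact mul_nonneg (sq_nonneg _) (phi_pos t).le
    · refine mul_pos ?_ (phi_pos _)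
      norm_num
  have h2 : ∫ t in Ioi z, (t - c) ^ 2 * phi t = (z * phi z + Ph z) - 2 * c * phi z + c ^ 2 * Ph z := by
    have : ∀ t : ℝ, (t - c) ^ 2 * phi t
        = t ^ 2 * phi t - 2 * c * (t * phi t) + c ^ 2 * phi t := fun t => by ring
    simp only [this]
    have i1 : Integrable (fun t : ℝ => t ^ 2 * phi t - 2 * c * (t * phi t)) :=
      (integrable_pow_mul_phi 2).sub (integrable_mul_phi.const_mul _)
    rw [integral_add i1.integrableOn (integrable_phi.const_mul _).integrableOn,
      integral_sub (integrable_pow_mul_phi 2).integrableOn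
        (integrable_mul_phi.const_mul _).integrableOn,
      integral_const_mul, integral_const_mul, integral_Ioi_mul_phi, ← Ph_eq_integral,
      integral_Ioi_sq_mul_phi]
  rw [h2] at h1
  have h3 : phi z = c * Ph z := by rw [hc, Mi_mul_Ph]
  rw [h3] at h1
  unfold Md
  rw [← hc]
  have h4 : 0 < Ph z * (1 - c * (c - z)) := by nlinarith
  have h5 : 0 < 1 - c * (c - z) := (mul_pos_iff_of_pos_left hP).1 h4
  linarith

theorem hasDerivAt_Mi (z : ℝ) : HasDerivAt Mi (Md z) z := by
  have h := (hasDerivAt_phi z).div (hasDerivAt_Ph z) (Ph_pos z).ne'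
  have h2 : HasDerivAt Mi _ z := h
  refine h2.congr_deriv ?_
  unfold Md Mi
  have := (Ph_pos z).ne'
  field_simp
  ring

theorem continuous_Mi : Continuous Mi :=
  continuous_iff_continuousAt.2 fun x => (hasDerivAt_Mi x).continuousAt

theorem continuous_Md : Continuous Md := by
  unfold Md
  exact continuous_Mi.mul (continuous_Mi.sub continuous_id)

theorem Mi_strictMono : StrictMono Mi :=
  strictMono_of_deriv_pos fun z => by
    rw [(hasDerivAt_Mi z).deriv]
    exact Md_pos z

theorem Mi_mono {x y : ℝ} (h : x ≤ y) : Mi x ≤ Mi y := Mi_strictMono.monotone h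

theorem Mi_zero : Mi 0 = 2 * phi 0 := by
  unfold Mi
  rw [Ph_zero]; ring

theorem Mi_zero_le : Mi 0 ≤ 4 / 5 := by
  rw [Mi_zero]
  have := phi_zero_le
  linarith

/-- `Mi` is 1-Lipschitz -/
theorem Mi_lipschitz : LipschitzWith 1 Mi := by
  refine lipschitzWith_of_nnnorm_deriv_le (fun z => (hasDerivAt_Mi z).differentiableAt) fun z => ?_
  rw [(hasDerivAt_Mi z).deriv, ← NNReal.coe_le_coe]
  simp only [coe_nnnorm, NNReal.coe_one, Real.norm_eq_abs]
  rw [abs_of_pos (Md_pos z)]
  exact (Md_lt_one z).le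

theorem abs_Mi_sub_le (x y : ℝ) : |Mi x - Mi y| ≤ |x - y| := by
  have := Mi_lipschitz.dist_le_mul x y
  simpa [Real.dist_eq] using this

/-- `Mi z - z` is antitone -/
theorem Mi_sub_antitone {x y : ℝ} (h : x ≤ y) : Mi y - y ≤ Mi x - x := by
  have h1 := abs_Mi_sub_le y x
  rw [abs_of_nonneg (by linarith : (0:ℝ) ≤ y - x)] at h1
  have := le_abs_self (Mi y - Mi x)
  linarith

theorem Mi_le_of_nonneg {z : ℝ} (hz : 0 ≤ z) : Mi z ≤ z + 4 / 5 := by
  have := Mi_sub_antitone hz
  have := Mi_zero_le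
  linarith

theorem Mi_le_of_nonpos {z : ℝ} (hz : z ≤ 0) : Mi z ≤ 4 / 5 :=
  (Mi_mono hz).trans Mi_zero_le

theorem Mi_le_two_phi {z : ℝ} (hz : z ≤ 0) : Mi z ≤ 2 * phi z := by
  unfold Mi
  rw [div_le_iff₀ (Ph_pos z)]
  have := half_le_Ph hz
  have := phi_pos z
  nlinarith

theorem Mi_le (z : ℝ) : Mi z ≤ |z| + 4 / 5 := by
  rcases le_total 0 z with h | h
  · rw [abs_of_nonneg h]; exact Mi_le_of_nonneg h
  · have := Mi_le_of_nonpos h
    have := abs_nonneg z
    linarith

theorem abs_Mi_le (z : ℝ) : |Mi z| ≤ |z| + 1 := by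
  rw [abs_of_pos (Mi_pos z)]
  have := Mi_le z
  linarith

theorem abs_Md_le (z : ℝ) : |Md z| ≤ 1 := by
  rw [abs_of_pos (Md_pos z)]
  exact (Md_lt_one z).le

/-- for `z > 0`, `Mi z ≤ z + 1/z` -/
theorem Mi_le_add_inv {z : ℝ} (hz : 0 < z) : Mi z ≤ z + 1 / z := by
  have h1 := Md_lt_one z
  unfold Md at h1
  have h2 := lt_Mi z
  have h3 : z * (Mi z - z) ≤ Mi z * (Mi z - z) :=
    mul_le_mul_of_nonneg_right h2.le (by linarith)
  have h4 : z * (Mi z - z) < 1 := lt_of_le_of_lt h3 h1
  have h5 : Mi z - z < 1 / z := by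
    rw [lt_div_iff₀ hz]; linarith
  linarith

/-! ### Second derivative of the inverse Mills ratio -/

/-- `E'' = E ((E - z)(2E - z) - 1)` -/
noncomputable def Mdd (z : ℝ) : ℝ := Mi z * ((Mi z - z) * (2 * Mi z - z) - 1)

theorem hasDerivAt_Md (z : ℝ) : HasDerivAt Md (Mdd z) z := by
  have h := (hasDerivAt_Mi z).mul ((hasDerivAt_Mi z).sub (hasDerivAt_id z))
  have h2 : HasDerivAt Md _ z := h
  refine h2.congr_deriv ?_
  simp only [id, Pi.sub_apply]
  unfold Mdd Md
  ring

theorem continuous_Mdd : Continuous Mdd := by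
  unfold Mdd
  exact continuous_Mi.mul (((continuous_Mi.sub continuous_id).mul
    ((continuous_const.mul continuous_Mi).sub continuous_id)).sub continuous_const)

/-- Sampford's inequality: `(E - z)(2E - z) > 1` -/
theorem sampford (z : ℝ) : 1 < (Mi z - z) * (2 * Mi z - z) := by
  set v : ℝ → ℝ := fun z => (Mi z - z) * (2 * Mi z - z) - 1 with hv
  have hvd : ∀ z, HasDerivAt v (v z * (3 * Mi z - 2 * z) - 2 * (Mi z - z) ^ 3) z := by
    intro z
    have h := (((hasDerivAt_Mi z).sub (hasDerivAt_id z)).mul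
      (((hasDerivAt_Mi z).const_mul 2).sub (hasDerivAt_id z))).sub_const 1
    have h2 : HasDerivAt v _ z := h
    refine h2.congr_deriv ?_
    simp only [id, Pi.sub_apply, hv]
    unfold Md
    ring
  have hvm1 : ∀ z, -1 < v z := by
    intro z
    have h1 := lt_Mi z
    have h2 := Mi_pos z
    have : 0 < (Mi z - z) * (2 * Mi z - z) := mul_pos (by linarith) (by linarith)
    simp only [hv]; linarith
  have hcv : Continuous v := continuous_iff_continuousAt.2 fun z => (hvd z).continuousAt
  -- the set where `v ≤ 0` is upward closed and `v` decreases there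
  by_contra hcon
  have hz : v z ≤ 0 := by simp only [hv]; linarith
  have hneg : ∀ x, v x ≤ 0 → v x * (3 * Mi x - 2 * x) - 2 * (Mi x - x) ^ 3 < 0 := by
    intro x hx
    have h1 := lt_Mi x
    have h2 := Mi_pos x
    have h3 : 0 < (Mi x - x) ^ 3 := pow_pos (by linarith) 3
    have h4 : v x * (3 * Mi x - 2 * x) ≤ 0 := mul_nonpos_of_nonpos_of_nonneg hx (by linarith)
    linarith
  -- `v x ≤ 0` for all `x ≥ z`
  have hup : ∀ x, z ≤ x → v x ≤ 0 := by
    intro x hx
    refine image_le_of_deriv_right_lt_deriv_boundary (f := v) (f' := fun x => v x * (3 * Mi x - 2 * x) - 2 * (Mi x - x) ^ 3)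
      (B := fun _ => (0:ℝ)) (B' := fun _ => 0) (a := z) (b := x) hcv.continuousOn
      (fun y _ => (hvd y).hasDerivWithinAt) hz (fun y => hasDerivAt_const y 0) ?_ ⟨hx, le_refl x⟩
    intro y _ hy
    exact hneg y hy.le
  have hanti : AntitoneOn v (Ici z) := by
    refine antitoneOn_of_deriv_nonpos (convex_Ici z) hcv.continuousOn
      (fun x _ => (hvd x).differentiableAt.differentiableWithinAt) fun x hx => ?_
    rw [interior_Ici] at hx
    rw [(hvd x).deriv]
    exact (hneg x (hup x (le_of_lt hx))).le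
  have hz1 : v (z + 1) < v z := by
    have hs : StrictAntiOn v (Icc z (z + 1)) := by
      refine strictAntiOn_of_deriv_neg (convex_Icc z (z + 1)) hcv.continuousOn fun x hx => ?_
      rw [interior_Icc] at hx
      rw [(hvd x).deriv]
      exact hneg x (hup x hx.1.le)
    exact hs ⟨le_refl _, by linarith⟩ ⟨by linarith, le_refl _⟩ (by linarith)
  set z1 := max (z + 1) 1 with hz1d
  have hz1le : v z1 ≤ v (z + 1) := hanti (by simp [mem_Ici]) (by
    rw [mem_Ici]; have := le_max_left (z + 1) 1; linarith) (le_max_left _ _)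
  set c := -v z1 with hcdef
  have hcpos : 0 < c := by rw [hcdef]; linarith
  have hz1' : z ≤ z1 := by have := le_max_left (z + 1) 1; linarith
  -- linear decay
  have hlin : ∀ x, z1 ≤ x → v x ≤ v z1 - c * (x - z1) := by
    intro x hx
    set w : ℝ → ℝ := fun x => v x + c * (x - z1) with hw
    have hwd : ∀ x, HasDerivAt w (v x * (3 * Mi x - 2 * x) - 2 * (Mi x - x) ^ 3 + c * 1) x := by
      intro x
      exact (hvd x).add (((hasDerivAt_id x).sub_const z1).const_mul c)
    have hwa : AntitoneOn w (Ici z1) := by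
      refine antitoneOn_of_deriv_nonpos (convex_Ici z1)
        (fun x _ => (hwd x).continuousAt.continuousWithinAt)
        (fun x _ => (hwd x).differentiableAt.differentiableWithinAt) fun x hx => ?_
      rw [interior_Ici] at hx
      rw [(hwd x).deriv]
      have h1 : v x ≤ -c := by
        have := hanti hz1' (hz1'.trans (le_of_lt hx) : z ≤ x) (le_of_lt hx)
        rw [hcdef]; linarith
      have h2 := lt_Mi x
      have h3 : 1 ≤ x := (le_max_right (z + 1) 1).trans (le_of_lt hx)
      have h4 : 0 < (Mi x - x) ^ 3 := pow_pos (by linarith) 3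
      have h5 : 1 ≤ 3 * Mi x - 2 * x := by linarith
      nlinarith
    have := hwa (mem_Ici.2 le_rfl) hx hx
    simp only [hw, sub_self, mul_zero, add_zero] at this
    linarith
  have h1 := hlin (z1 + 1 / c) (by have : 0 < 1 / c := by positivity
                                   linarith)
  have h2 := hvm1 (z1 + 1 / c)
  have h3 : c * (z1 + 1 / c - z1) = 1 := by field_simp; ring
  rw [h3] at h1
  have h4 : v z1 = -c := by rw [hcdef]; ring
  linarith

theorem Mdd_pos (z : ℝ) : 0 < Mdd z := by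
  unfold Mdd
  exact mul_pos (Mi_pos z) (by have := sampford z; linarith)

theorem Md_strictMono : StrictMono Md :=
  strictMono_of_deriv_pos fun z => by
    rw [(hasDerivAt_Md z).deriv]
    exact Mdd_pos z

theorem Mdd_lt (z : ℝ) : Mdd z < Mi z - z := by
  have h1 := Md_lt_one z
  have h2 := lt_Mi z
  have h3 := Mi_pos z
  unfold Mdd
  unfold Md at h1
  have h4 : (Mi z * (Mi z - z)) * (2 * Mi z - z) < 1 * (2 * Mi z - z) :=
    mul_lt_mul_of_pos_right h1 (by linarith)
  nlinarith

theorem Mi_convex : ConvexOn ℝ univ Mi := by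
  have h1 : Monotone (deriv Mi) := by
    have : deriv Mi = Md := funext fun z => (hasDerivAt_Mi z).deriv
    rw [this]
    exact Md_strictMono.monotone
  exact h1.convexOn_univ_of_deriv (fun z => (hasDerivAt_Mi z).differentiableAt)

theorem exp_neg_sq_half_le (x : ℝ) : Real.exp (-x ^ 2 / 2) ≤ 1 / (1 + x ^ 2 / 2) := by
  have h1 := Real.add_one_le_exp (x ^ 2 / 2)
  have h2 : 0 < 1 + x ^ 2 / 2 := by positivity
  rw [show -x ^ 2 / 2 = -(x ^ 2 / 2) by ring, Real.exp_neg, inv_eq_one_div]
  exact one_div_le_one_div_of_le h2 (by linarith)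

theorem phi_mul_sq_le (x : ℝ) : phi x * (8 / 5 + |x|) ^ 2 ≤ 2 := by
  have h1 : phi x ≤ 2 / 5 * (1 / (1 + x ^ 2 / 2)) := by
    have e : phi x = phi 0 * Real.exp (-x ^ 2 / 2) := by
      rw [phi_zero]; unfold phi; ring
    rw [e]
    exact mul_le_mul phi_zero_le (exp_neg_sq_half_le x) (Real.exp_pos _).le (by norm_num)
  have h2 : (8 / 5 + |x|) ^ 2 ≤ 5 * (1 + x ^ 2 / 2) := by
    have := sq_abs x
    nlinarith [sq_nonneg (|x| - 5/4), abs_nonneg x]
  have h3 : 0 < 1 + x ^ 2 / 2 := by positivity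
  calc phi x * (8 / 5 + |x|) ^ 2 ≤ (2 / 5 * (1 / (1 + x ^ 2 / 2))) * (5 * (1 + x ^ 2 / 2)) :=
        mul_le_mul h1 h2 (by positivity) (by positivity)
    _ = 2 := by field_simp

theorem Mdd_le (z : ℝ) : Mdd z ≤ 4 := by
  rcases le_total 0 z with hz | hz
  · have h1 := Mdd_lt z
    have h2 := Mi_le_of_nonneg hz
    linarith
  · have h1 := Mi_le_two_phi hz
    have h2 := Mi_le_of_nonpos hz
    have h3 := Mi_pos z
    have h4 := phi_mul_sq_le z
    rw [abs_of_nonpos hz] at h4
    have h5 : Mdd z ≤ Mi z * ((Mi z - z) * (2 * Mi z - z)) := by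
      unfold Mdd
      nlinarith
    have h6 : (Mi z - z) * (2 * Mi z - z) ≤ (8 / 5 + -z) ^ 2 := by
      rw [sq]
      exact mul_le_mul (by linarith) (by linarith) (by linarith) (by linarith)
    have h7 : Mi z * ((Mi z - z) * (2 * Mi z - z)) ≤ (2 * phi z) * (8 / 5 + -z) ^ 2 :=
      mul_le_mul h1 h6 (mul_nonneg (by linarith) (by linarith)) (by have := phi_pos z; linarith)
    linarith

theorem abs_Mdd_le (z : ℝ) : |Mdd z| ≤ 4 := by
  rw [abs_of_pos (Mdd_pos z)]; exact Mdd_le z

theorem Md_lipschitz : LipschitzWith 4 Md := by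
  refine lipschitzWith_of_nnnorm_deriv_le (fun z => (hasDerivAt_Md z).differentiableAt) fun z => ?_
  rw [(hasDerivAt_Md z).deriv, ← NNReal.coe_le_coe]
  simp only [coe_nnnorm, Real.norm_eq_abs]
  exact_mod_cast abs_Mdd_le z

theorem abs_Md_sub_le (x y : ℝ) : |Md x - Md y| ≤ 4 * |x - y| := by
  have := Md_lipschitz.dist_le_mul x y
  simpa [Real.dist_eq] using this

/-! ### The logarithm of the tail -/

theorem hasDerivAt_logPh (z : ℝ) : HasDerivAt (fun z => Real.log (Ph z)) (-Mi z) z := by
  have h := (hasDerivAt_Ph z).log (Ph_pos z).ne'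
  refine h.congr_deriv ?_
  unfold Mi
  ring

theorem continuous_logPh : Continuous fun z => Real.log (Ph z) :=
  continuous_iff_continuousAt.2 fun x => (hasDerivAt_logPh x).continuousAt

theorem logPh_concave : ConcaveOn ℝ univ (fun z => Real.log (Ph z)) := by
  have h1 : Antitone (deriv fun z => Real.log (Ph z)) := by
    have : (deriv fun z => Real.log (Ph z)) = fun z => -Mi z :=
      funext fun z => (hasDerivAt_logPh z).deriv
    rw [this]
    intro x y hxy
    exact neg_le_neg (Mi_mono hxy)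
  exact h1.concaveOn_univ_of_deriv (fun z => (hasDerivAt_logPh z).differentiableAt)

/-- tangent line inequality for the concave function `log Ph` -/
theorem logPh_tangent (u v : ℝ) :
    Real.log (Ph u) ≤ Real.log (Ph v) - Mi v * (u - v) := by
  rcases lt_trichotomy u v with h | h | h
  · obtain ⟨c, hc, he⟩ := exists_hasDerivAt_eq_slope (fun z => Real.log (Ph z)) (fun z => -Mi z) h
      continuous_logPh.continuousOn (fun x _ => hasDerivAt_logPh x)
    have h1 : Real.log (Ph v) - Real.log (Ph u) = -Mi c * (v - u) := by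
      rw [he]; field_simp [show v - u ≠ 0 by linarith]
    have h2 := Mi_mono hc.2.le
    nlinarith
  · rw [h]; simp
  · obtain ⟨c, hc, he⟩ := exists_hasDerivAt_eq_slope (fun z => Real.log (Ph z)) (fun z => -Mi z) h
      continuous_logPh.continuousOn (fun x _ => hasDerivAt_logPh x)
    have h1 : Real.log (Ph u) - Real.log (Ph v) = -Mi c * (u - v) := by
      rw [he]; field_simp [show u - v ≠ 0 by linarith]
    have h2 := Mi_mono hc.1.le
    nlinarith

theorem logPh_neg (z : ℝ) : Real.log (Ph z) < 0 := Real.log_neg (Ph_pos z) (Ph_lt_one z)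

theorem logPh_antitone {x y : ℝ} (h : x ≤ y) : Real.log (Ph y) ≤ Real.log (Ph x) :=
  Real.log_le_log (Ph_pos y) (Ph_antitone h)

theorem logPh_zero : Real.log (Ph 0) = -Real.log 2 := by
  rw [Ph_zero, one_div, Real.log_inv]

/-- `log Ph z ≥ -(z²/2 + 4z/5 + log 2)` for `z ≥ 0` -/
theorem logPh_ge_of_nonneg {z : ℝ} (hz : 0 ≤ z) :
    -(z ^ 2 / 2 + 4 / 5 * z + Real.log 2) ≤ Real.log (Ph z) := by
  have hd : ∀ x : ℝ, HasDerivAt (fun x => Real.log (Ph x) + (x ^ 2 / 2 + 4 / 5 * x))
      (-Mi x + (x + 4 / 5)) x := by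
    intro x
    have h1 : HasDerivAt (fun x : ℝ => x ^ 2 / 2 + 4 / 5 * x) (x + 4 / 5) x := by
      have := ((hasDerivAt_pow 2 x).div_const 2).add ((hasDerivAt_id x).const_mul (4/5 : ℝ))
      refine this.congr_deriv ?_
      norm_num
    exact (hasDerivAt_logPh x).add h1
  have hm : MonotoneOn (fun x => Real.log (Ph x) + (x ^ 2 / 2 + 4 / 5 * x)) (Ici 0) := by
    refine monotoneOn_of_deriv_nonneg (convex_Ici 0)
      (fun x _ => (hd x).continuousAt.continuousWithinAt)
      (fun x _ => (hd x).differentiableAt.differentiableWithinAt) fun x hx => ?_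
    rw [interior_Ici] at hx
    rw [(hd x).deriv]
    have := Mi_le_of_nonneg (le_of_lt hx : (0:ℝ) ≤ x)
    linarith
  have h := hm (mem_Ici.2 le_rfl) hz hz
  simp only [logPh_zero] at h
  norm_num at h
  linarith

theorem log_two_lt : Real.log 2 < 7 / 10 := by
  have := Real.log_two_lt_d9
  linarith

theorem logPh_ge (z : ℝ) : -(1 + |z|) ^ 2 ≤ Real.log (Ph z) := by
  have hl := log_two_lt
  rcases le_total 0 z with hz | hz
  · have h := logPh_ge_of_nonneg hz
    rw [abs_of_nonneg hz]
    nlinarith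
  · have h : Real.log (Ph 0) ≤ Real.log (Ph z) := logPh_antitone hz
    rw [logPh_zero] at h
    have := abs_nonneg z
    nlinarith

theorem abs_logPh_le (z : ℝ) : |Real.log (Ph z)| ≤ (1 + |z|) ^ 2 := by
  rw [abs_of_neg (logPh_neg z)]
  have := logPh_ge z
  linarith

/-- `Ph z ≤ exp(-z²/2)/2` for `z ≥ 0` -/
theorem logPh_le_of_nonneg {z : ℝ} (hz : 0 ≤ z) :
    Real.log (Ph z) ≤ -(z ^ 2 / 2) - Real.log 2 := by
  have hd : ∀ x : ℝ, HasDerivAt (fun x => Real.log (Ph x) + x ^ 2 / 2) (-Mi x + x) x := by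
    intro x
    have h1 : HasDerivAt (fun x : ℝ => x ^ 2 / 2) x x := by
      have := (hasDerivAt_pow 2 x).div_const 2
      refine this.congr_deriv ?_
      norm_num
    exact (hasDerivAt_logPh x).add h1
  have hm : AntitoneOn (fun x => Real.log (Ph x) + x ^ 2 / 2) (Ici 0) := by
    refine antitoneOn_of_deriv_nonpos (convex_Ici 0)
      (fun x _ => (hd x).continuousAt.continuousWithinAt)
      (fun x _ => (hd x).differentiableAt.differentiableWithinAt) fun x hx => ?_
    rw [(hd x).deriv]
    have := lt_Mi x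
    linarith
  have h := hm (mem_Ici.2 le_rfl) hz hz
  simp only [logPh_zero] at h
  norm_num at h
  linarith

theorem Ph_le_exp_of_nonneg {z : ℝ} (hz : 0 ≤ z) : Ph z ≤ Real.exp (-(z ^ 2 / 2)) / 2 := by
  have h := logPh_le_of_nonneg hz
  rw [← Real.log_le_log_iff (Ph_pos z) (by positivity),
    Real.log_div (Real.exp_pos _).ne' (by norm_num), Real.log_exp]
  exact h

/-- pseudo-Lipschitz bound for `log Ph` -/
theorem abs_logPh_sub_le (u v : ℝ) :
    |Real.log (Ph u) - Real.log (Ph v)| ≤ (1 + |u| + |v|) * |u - v| := by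
  have key : ∀ a b : ℝ, Real.log (Ph a) - Real.log (Ph b) ≤ (1 + |a| + |b|) * |a - b| := by
    intro a b
    have h1 := logPh_tangent a b
    have h2 : -(Mi b * (a - b)) ≤ |Mi b| * |a - b| := by
      rw [← abs_mul]; exact neg_le_abs _
    have h3 := abs_Mi_le b
    have h4 : |Mi b| * |a - b| ≤ (1 + |a| + |b|) * |a - b| :=
      mul_le_mul_of_nonneg_right (by have := abs_nonneg a; linarith) (abs_nonneg _)
    linarith
  rw [abs_le]
  constructor
  · have := key v u
    rw [abs_sub_comm v u] at this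
    have h5 : (1 + |v| + |u|) * |u - v| = (1 + |u| + |v|) * |u - v| := by ring
    linarith
  · exact key u v

end Pool.Agent.IP49.MC
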