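import Pool.Agent.IP49.LowerTail

set_option autoImplicit false
open MeasureTheory Filter Topology

namespace Pool.Agent.IP49

theorem pow_integrable_of_four {X : Type*} [MeasurableSpace X] (μ : Measure X)
    [IsProbabilityMeasure μ] (T : X → ℝ) (hT : AEStronglyMeasurable T μ)
    (h4 : Integrable (fun x => T x ^ 4) μ) (j : ℕ) (hj : j ≤ 4) :
    Integrable (fun x => T x ^ j) μ := by
  apply ((integrable_const (1 : ℝ)).add h4).mono' (hT.pow j)
  refine Eventually.of_forall fun x => ?_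
  simp only [Pi.add_apply, Pi.pow_apply, Real.norm_eq_abs, abs_pow]
  have h0 := abs_nonneg (T x)
  have e4 : T x ^ 4 = |T x| ^ 4 := by
    rw [← abs_pow, abs_of_nonneg (by positivity : (0 : ℝ) ≤ T x ^ 4)]
  rw [e4]
  rcases le_total (|T x|) 1 with h | h
  · have := pow_le_one₀ (n := j) h0 h
    have : 0 ≤ |T x| ^ 4 := by positivity
    linarith
  · have := pow_le_pow_right₀ h hj
    linarith

/-- first, second and fourth moments of a signed sum -/
theorem mom4 (ν : Measure ℝ) [IsProbabilityMeasure ν]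
    (h4 : Integrable (fun a : ℝ => a ^ 4) ν) (m1 : ∫ a, a ∂ν = 0) (m2 : ∫ a, a ^ 2 ∂ν = 1)
    (m4 : ∫ a, a ^ 4 ∂ν ≤ 3) :
    ∀ (n : ℕ) (s : Fin n → ℝ), (∀ i, s i ^ 2 = 1) →
      Integrable (fun a : Fin n → ℝ => (∑ i, a i * s i) ^ 4) (Measure.pi fun _ => ν) ∧
      ∫ a : Fin n → ℝ, (∑ i, a i * s i) ∂(Measure.pi fun _ => ν) = 0 ∧
      ∫ a : Fin n → ℝ, (∑ i, a i * s i) ^ 2 ∂(Measure.pi fun _ => ν) = n ∧
      ∫ a : Fin n → ℝ, (∑ i, a i * s i) ^ 4 ∂(Measure.pi fun _ => ν) ≤ 3 * (n : ℝ) ^ 2 := by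
  intro n
  induction n with
  | zero => intro s hs; simp
  | succ n ih =>
    intro s hs
    obtain ⟨I4, E1, E2, E4⟩ := ih (fun i => s i.succ) (fun i => hs _)
    set π : Measure (Fin n → ℝ) := Measure.pi fun _ => ν with hπ
    set T : (Fin n → ℝ) → ℝ := fun a => ∑ i, a i * s i.succ with hT
    have hTm : Measurable T := by simp only [hT]; fun_prop
    have IT : ∀ j ≤ 4, Integrable (fun x => T x ^ j) π := fun j hj =>
      pow_integrable_of_four π T hTm.aestronglyMeasurable I4 j hj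
    have Ia : ∀ j ≤ 4, Integrable (fun a : ℝ => a ^ j) ν := fun j hj =>
      pow_integrable_of_four ν (fun a => a) aestronglyMeasurable_id h4 j hj
    have IP : ∀ j ≤ 4, ∀ k ≤ 4, Integrable (fun p : ℝ × (Fin n → ℝ) => p.1 ^ j * T p.2 ^ k)
        (ν.prod π) := fun j hj k hk => (Ia j hj).mul_prod (IT k hk)
    have EP : ∀ j k, ∫ p : ℝ × (Fin n → ℝ), p.1 ^ j * T p.2 ^ k ∂(ν.prod π)
        = (∫ a, a ^ j ∂ν) * ∫ x, T x ^ k ∂π := fun j k =>
      integral_prod_mul (fun a : ℝ => a ^ j) (fun x => T x ^ k)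
    set c := s 0 with hc
    have hc2 : c ^ 2 = 1 := hs 0
    -- measure preserving
    have mp := (measurePreserving_piFinSuccAbove (fun _ : Fin (n + 1) => ν) 0).symm
    have hcoe : ∀ p : ℝ × (Fin n → ℝ),
        ((MeasurableEquiv.piFinSuccAbove (fun _ : Fin (n + 1) => ℝ) 0).symm p) = Fin.cons p.1 p.2 := by
      intro p; simp [MeasurableEquiv.piFinSuccAbove, Fin.insertNthEquiv]
    have hsum : ∀ p : ℝ × (Fin n → ℝ),
        (∑ i, (Fin.cons p.1 p.2 : Fin (n + 1) → ℝ) i * s i) = p.1 * c + T p.2 := by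
      intro p; rw [Fin.sum_univ_succ]; simp [hT, hc]
    have tr : ∀ j, ∫ a : Fin (n + 1) → ℝ, (∑ i, a i * s i) ^ j ∂(Measure.pi fun _ => ν)
        = ∫ p : ℝ × (Fin n → ℝ), (p.1 * c + T p.2) ^ j ∂(ν.prod π) := by
      intro j
      rw [← mp.integral_comp' (fun a : Fin (n + 1) → ℝ => (∑ i, a i * s i) ^ j)]
      apply integral_congr_ae
      refine Eventually.of_forall fun p => ?_
      show (∑ i, ((MeasurableEquiv.piFinSuccAbove (fun _ : Fin (n + 1) => ℝ) 0).symm p) i * s i) ^ j = _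
      rw [hcoe, hsum]
    have e4 : (fun p : ℝ × (Fin n → ℝ) => (p.1 * c + T p.2) ^ 4)
        = fun p => (p.1 ^ 4 * T p.2 ^ 0 + 6 * (p.1 ^ 2 * T p.2 ^ 2) + p.1 ^ 0 * T p.2 ^ 4
            + 4 * c * (p.1 ^ 3 * T p.2 ^ 1) + 4 * c * (p.1 ^ 1 * T p.2 ^ 3)) := by
      funext p
      have c3 : c ^ 3 = c := by
        calc c ^ 3 = c ^ 2 * c := by ring
          _ = c := by rw [hc2]; ring
      have c4 : c ^ 4 = 1 := by
        calc c ^ 4 = (c ^ 2) ^ 2 := by ring
          _ = 1 := by rw [hc2]; ring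
      calc (p.1 * c + T p.2) ^ 4 = p.1 ^ 4 * c ^ 4 + 4 * p.1 ^ 3 * c ^ 3 * T p.2
            + 6 * p.1 ^ 2 * c ^ 2 * T p.2 ^ 2 + 4 * p.1 * c * T p.2 ^ 3 + T p.2 ^ 4 := by ring
        _ = _ := by rw [c4, c3, hc2]; ring
    have I4' : Integrable (fun p : ℝ × (Fin n → ℝ) => (p.1 * c + T p.2) ^ 4) (ν.prod π) := by
      rw [e4]
      exact ((((IP 4 le_rfl 0 (by omega)).add ((IP 2 (by omega) 2 (by omega)).const_mul 6)).add
        (IP 0 (by omega) 4 le_rfl)).add ((IP 3 (by omega) 1 (by omega)).const_mul _)).add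
        ((IP 1 (by omega) 3 (by omega)).const_mul _)
    have E1' : ∫ x, T x ^ 1 ∂π = 0 := by simpa using E1
    have A1' : ∫ a, a ^ 1 ∂ν = 0 := by simpa using m1
    have A0' : ∫ a, a ^ 0 ∂ν = 1 := by simp
    have T0' : ∫ x, T x ^ 0 ∂π = 1 := by simp
    refine ⟨?_, ?_, ?_, ?_⟩
    · have := mp.integrable_comp_emb (MeasurableEquiv.measurableEmbedding _)
        (g := fun a : Fin (n + 1) → ℝ => (∑ i, a i * s i) ^ 4)
      rw [← this]
      have e : ((fun a : Fin (n + 1) → ℝ => (∑ i, a i * s i) ^ 4) ∘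
          (MeasurableEquiv.piFinSuccAbove (fun _ : Fin (n + 1) => ℝ) 0).symm)
          = fun p : ℝ × (Fin n → ℝ) => (p.1 * c + T p.2) ^ 4 := by
        funext p
        show (∑ i, ((MeasurableEquiv.piFinSuccAbove (fun _ : Fin (n + 1) => ℝ) 0).symm p) i * s i) ^ 4 = _
        rw [hcoe, hsum]
      rw [e]; exact I4'
    · have h := tr 1
      simp only [pow_one] at h
      rw [h]
      have e1 : (fun p : ℝ × (Fin n → ℝ) => p.1 * c + T p.2)
          = fun p => c * (p.1 ^ 1 * T p.2 ^ 0) + p.1 ^ 0 * T p.2 ^ 1 := by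
        funext p; ring
      rw [e1, integral_add ((IP 1 (by omega) 0 (by omega)).const_mul _) (IP 0 (by omega) 1 (by omega)),
        integral_const_mul, EP, EP, E1', A1']
      ring
    · rw [tr 2]
      have e2 : (fun p : ℝ × (Fin n → ℝ) => (p.1 * c + T p.2) ^ 2)
          = fun p => p.1 ^ 2 * T p.2 ^ 0 + 2 * c * (p.1 ^ 1 * T p.2 ^ 1) + p.1 ^ 0 * T p.2 ^ 2 := by
        funext p
        calc (p.1 * c + T p.2) ^ 2 = p.1 ^ 2 * c ^ 2 + 2 * p.1 * c * T p.2 + T p.2 ^ 2 := by ring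
          _ = _ := by rw [hc2]; ring
      have j1 : Integrable (fun p : ℝ × (Fin n → ℝ) => p.1 ^ 2 * T p.2 ^ 0
          + 2 * c * (p.1 ^ 1 * T p.2 ^ 1)) (ν.prod π) :=
        (IP 2 (by omega) 0 (by omega)).add ((IP 1 (by omega) 1 (by omega)).const_mul _)
      rw [e2, integral_add j1 (IP 0 (by omega) 2 (by omega)),
        integral_add (IP 2 (by omega) 0 (by omega)) ((IP 1 (by omega) 1 (by omega)).const_mul _),
        integral_const_mul, EP, EP, EP, E1', A1', A0', T0', m2, E2]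
      push_cast; ring
    · rw [tr 4, e4]
      have j1 : Integrable (fun p : ℝ × (Fin n → ℝ) => p.1 ^ 4 * T p.2 ^ 0
          + 6 * (p.1 ^ 2 * T p.2 ^ 2)) (ν.prod π) :=
        (IP 4 le_rfl 0 (by omega)).add ((IP 2 (by omega) 2 (by omega)).const_mul _)
      have j2 : Integrable (fun p : ℝ × (Fin n → ℝ) => p.1 ^ 4 * T p.2 ^ 0
          + 6 * (p.1 ^ 2 * T p.2 ^ 2) + p.1 ^ 0 * T p.2 ^ 4) (ν.prod π) :=
        j1.add (IP 0 (by omega) 4 le_rfl)
      have j3 : Integrable (fun p : ℝ × (Fin n → ℝ) => p.1 ^ 4 * T p.2 ^ 0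
          + 6 * (p.1 ^ 2 * T p.2 ^ 2) + p.1 ^ 0 * T p.2 ^ 4 + 4 * c * (p.1 ^ 3 * T p.2 ^ 1))
          (ν.prod π) := j2.add ((IP 3 (by omega) 1 (by omega)).const_mul _)
      rw [integral_add j3 ((IP 1 (by omega) 3 (by omega)).const_mul _),
        integral_add j2 ((IP 3 (by omega) 1 (by omega)).const_mul _),
        integral_add j1 (IP 0 (by omega) 4 le_rfl),
        integral_add (IP 4 le_rfl 0 (by omega)) ((IP 2 (by omega) 2 (by omega)).const_mul _),
        integral_const_mul, integral_const_mul, integral_const_mul, EP, EP, EP, EP, EP,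
        E1', A1', A0', T0', m2, E2]
      push_cast
      nlinarith [E4, m4]

end Pool.Agent.IP49
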