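import Pool.Agent.IP49N.SMilV
import Pool.Agent.IP49.MillsB

/-!
IP49, part N (helper85): `M2 z ≤ 0.35` for all `z` (true supremum `.29572` at `z = -1.002`).

`Mi`, `Md` are increasing, so for `z ∈ [a, b]`, `Mi a ≥ A`, `Mi b ≤ B`:
`M2 z = Md z (2 Mi z - z) - Mi z ≤ B (B - b)(2 B - a) - A`. Dyadic grid with 39 points from `-4` to
`291/128`, values of `Mi` from the engine. `z ≥ 291/128`: `M2 z < Mi z - z`, decreasing.
`z ≤ -4`: `Mi z ≤ 2 phi z ≤ (4/5)/(1 + z²/2 + z⁴/8)`.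
-/

set_option autoImplicit false

namespace Pool.Agent.IP49

open IP49N

theorem M2_eq (z : ℝ) : M2 z = Md z * (2 * Mi z - z) - Mi z := rfl

theorem M2_cell {a b z A B : ℝ} (h1 : a ≤ z) (h2 : z ≤ b) (hA : A ≤ Mi a) (hB : Mi b ≤ B) :
    M2 z ≤ B * (B - b) * (2 * B - a) - A := by
  have e1 : Mi a ≤ Mi z := strictMono_Mi.monotone h1
  have e2 : Mi z ≤ Mi b := strictMono_Mi.monotone h2
  have e3 : Md z ≤ Md b := strictMono_Md.monotone h2
  have e4 : Md b = Mi b * (Mi b - b) := rfl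
  have e5 := Mi_pos b
  have e6 := lt_Mi b
  have e7 := lt_Mi z
  have e8 := Mi_pos z
  have e9 : Md b ≤ B * (B - b) := by
    rw [e4]
    exact mul_le_mul hB (by linarith) (by linarith) (by linarith)
  have e10 : Md z * (2 * Mi z - z) ≤ B * (B - b) * (2 * B - a) :=
    mul_le_mul (e3.trans e9) (by linarith) (by linarith) ((Md_pos z).le.trans (e3.trans e9))
  rw [M2_eq]
  linarith

/-- lower bound, upper bound, success -/
def mv (x : ℤ) : ℕ × ℕ × Bool := milV x fun el eh _ _ ok => (el, eh, ok)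

theorem mv_spec (x : ℤ) (h : (mv x).2.2 = true) :
    ((mv x).1 : ℝ) ≤ S * Mi (x / S) ∧ S * Mi (x / S) ≤ ((mv x).2.1 : ℝ) := by
  obtain ⟨el, eh, ll, lh, ok, h1, h2⟩ := milV_spec x (fun el eh _ _ ok => (el, eh, ok))
  have e : mv x = (el, eh, ok) := h1
  rw [e] at h ⊢
  exact ⟨(h2 h).1, (h2 h).2.1⟩

/-- test of a cell -/
def cellOK (a b : ℤ) : Bool :=
  Bool.and (mv a).2.2 (Bool.and (mv b).2.2
    (decide (100 * (((mv b).2.1 : ℤ) * (((mv b).2.1 : ℤ) - b) * (2 * ((mv b).2.1 : ℤ) - a))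
      ≤ (35 * (S : ℤ) + 100 * ((mv a).1 : ℤ)) * ((S : ℤ) * S))))

theorem cellOK_spec {a b : ℤ} (h : cellOK a b = true) {z : ℝ} (h1 : (a : ℝ) / S ≤ z)
    (h2 : z ≤ (b : ℝ) / S) : M2 z ≤ 35 / 100 := by
  unfold cellOK at h
  rw [Bool.and_eq_true, Bool.and_eq_true, decide_eq_true_eq] at h
  obtain ⟨ha, hb, hi⟩ := h
  have hS := S_pos
  obtain ⟨p1, -⟩ := mv_spec a ha
  obtain ⟨-, p2⟩ := mv_spec b hb
  set el := (mv a).1
  set eh := (mv b).2.1
  have hA : (el : ℝ) / S ≤ Mi ((a : ℝ) / S) := by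
    rw [div_le_iff₀ hS]
    linarith
  have hB : Mi ((b : ℝ) / S) ≤ (eh : ℝ) / S := by
    rw [le_div_iff₀ hS]
    linarith
  have h3 := M2_cell h1 h2 hA hB
  have hi' : (100 * ((eh : ℝ) * ((eh : ℝ) - b) * (2 * (eh : ℝ) - a)) : ℝ)
      ≤ (35 * (S : ℝ) + 100 * (el : ℝ)) * ((S : ℝ) * S) := by exact_mod_cast hi
  refine h3.trans ?_
  have e : (eh : ℝ) / S * ((eh : ℝ) / S - (b : ℝ) / S) * (2 * ((eh : ℝ) / S) - (a : ℝ) / S)
      - (el : ℝ) / S = ((eh : ℝ) * ((eh : ℝ) - b) * (2 * (eh : ℝ) - a)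
        - el * ((S : ℝ) * S)) / ((S : ℝ) * S * S) := by
    field_simp
  rw [e, div_le_iff₀ (by positivity)]
  linarith

/-- test of a chain of cells -/
def chainOK : ℤ → List ℤ → Bool
  | _, [] => true
  | a, b :: l => Bool.and (cellOK a b) (chainOK b l)

theorem chainOK_spec (l : List ℤ) : ∀ (a : ℤ), chainOK a l = true → ∀ z : ℝ, (a : ℝ) / S ≤ z →
    z ≤ (((a :: l).getLast (by simp) : ℤ) : ℝ) / S → l ≠ [] → M2 z ≤ 35 / 100 := by
  induction l with
  | nil => intro a _ z _ _ h; exact absurd rfl h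
  | cons b l ih =>
    intro a h z h1 h2 _
    unfold chainOK at h
    rw [Bool.and_eq_true] at h
    obtain ⟨hc, hl⟩ := h
    rcases le_or_gt z ((b : ℝ) / S) with h3 | h3
    · exact cellOK_spec hc h1 h3
    · rw [List.getLast_cons (by simp)] at h2
      rcases eq_or_ne l [] with rfl | hne
      · simp only [List.getLast_singleton] at h2
        exact absurd h3 (not_lt.2 h2)
      · exact ih b hl z h3.le h2 hne

/-- the grid, in units `1/128` -/
def gridL : List ℤ := [-278, -225, -198, -179, -165, -153, -143, -134, -125, -117, -109, -101, -93,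
  -84, -75, -66, -56, -46, -35, -23, -11, 2, 16, 30, 45, 61, 78, 95, 113, 131, 150, 169, 189, 209,
  229, 249, 270, 291]

theorem grid_run : chainOK (-512 * 9007199254740992)
    (gridL.map fun p => p * 9007199254740992) = true := by decide +kernel

theorem last_run : Bool.and (mv (291 * 9007199254740992)).2.2
    (decide (100 * (((mv (291 * 9007199254740992)).2.1 : ℤ) - 291 * 9007199254740992)
      ≤ 35 * (S : ℤ))) = true := by decide +kernel

theorem M2_mid {z : ℝ} (h1 : -4 ≤ z) (h2 : z ≤ 291 / 128) : M2 z ≤ 35 / 100 := by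
  refine chainOK_spec _ _ grid_run z ?_ ?_ (by simp [gridL])
  · rw [S_eq]
    push_cast
    norm_num
    exact h1
  · have e : (((-512 * 9007199254740992 :: gridL.map fun p => p * 9007199254740992).getLast
        (by simp) : ℤ) : ℝ) = 291 * 9007199254740992 := by
      norm_num [gridL]
    rw [e, S_eq]
    refine h2.trans (le_of_eq ?_)
    norm_num

theorem M2_right {z : ℝ} (h : 291 / 128 ≤ z) : M2 z ≤ 35 / 100 := by
  have e : M2 z = MC.Mdd z := by unfold MC.Mdd M2 Md; ring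
  have h1 := MC.Mdd_lt z
  have h2 := MC.Mi_sub_antitone h
  have h3 := last_run
  rw [Bool.and_eq_true, decide_eq_true_eq] at h3
  obtain ⟨h4, h5⟩ := h3
  obtain ⟨-, p⟩ := mv_spec _ h4
  have hS := S_pos
  have hx : ((291 * 9007199254740992 : ℤ) : ℝ) / S = 291 / 128 := by
    rw [S_eq]
    push_cast
    norm_num
  rw [hx] at p
  set eh := (mv (291 * 9007199254740992)).2.1
  have h6 : (100 * ((eh : ℝ) - 291 * 9007199254740992) : ℝ) ≤ 35 * (S : ℝ) := by
    exact_mod_cast h5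
  have h7 : (291 * 9007199254740992 : ℝ) = 291 / 128 * S := by
    rw [S_eq]
    norm_num
  have h8 : Mi (291 / 128) - 291 / 128 ≤ 35 / 100 := by
    have h9 : S * (Mi (291 / 128) - 291 / 128) ≤ S * (35 / 100) := by
      rw [h7] at h6
      linarith
    exact le_of_mul_le_mul_left h9 hS
  rw [e]
  linarith

theorem M2_left {z : ℝ} (h : z ≤ -4) : M2 z ≤ 35 / 100 := by
  obtain ⟨t, rfl⟩ : ∃ t, z = -t := ⟨-z, by ring⟩
  have ht : 4 ≤ t := by linarith
  have h1 : Mi (-t) ≤ 2 * phi (-t) := MC.Mi_le_two_phi (by linarith)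
  have h2 : phi (-t) ≤ 2 / 5 * (1 / (1 + t ^ 2 / 2 + t ^ 4 / 8)) := by
    have e1 : phi (-t) = phi 0 * Real.exp (-t ^ 2 / 2) := by
      unfold phi
      rw [neg_sq]
      simp
      ring
    have e2 : phi 0 ≤ 2 / 5 := MC.phi_zero_le
    have e3 : Real.exp (-t ^ 2 / 2) ≤ 1 / (1 + t ^ 2 / 2 + t ^ 4 / 8) := by
      have e4 : 1 + t ^ 2 / 2 + t ^ 4 / 8 ≤ Real.exp (t ^ 2 / 2) := by
        have := Real.quadratic_le_exp_of_nonneg (x := t ^ 2 / 2) (by positivity)
        linarith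
      have e5 : Real.exp (-t ^ 2 / 2) = 1 / Real.exp (t ^ 2 / 2) := by
        rw [one_div, ← Real.exp_neg]
        congr 1
        ring
      rw [e5]
      exact one_div_le_one_div_of_le (by positivity) e4
    rw [e1]
    exact mul_le_mul e2 e3 (Real.exp_pos _).le (by norm_num)
  have hu : 16 ≤ t ^ 2 := by nlinarith
  set Q : ℝ := 1 + t ^ 2 / 2 + t ^ 4 / 8 with hQ
  have hQ0 : 41 ≤ Q := by rw [hQ]; nlinarith
  have hm : Mi (-t) ≤ 4 / 5 / Q := by
    have : 2 * (2 / 5 * (1 / Q)) = 4 / 5 / Q := by ring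
    linarith
  have hm2 : 4 / 5 / Q ≤ 1 / 50 := by
    rw [div_le_iff₀ (by linarith)]
    linarith
  have hM0 := Mi_pos (-t)
  have e : M2 (-t) = Mi (-t) * ((Mi (-t) + t) * (2 * Mi (-t) + t)) - Mi (-t) := by
    unfold M2 Md
    ring
  have h3 : (Mi (-t) + t) * (2 * Mi (-t) + t) ≤ (t * (1 + 1 / 200)) * (t * (1 + 1 / 100)) := by
    refine mul_le_mul ?_ ?_ (by linarith) (by positivity)
    · nlinarith
    · nlinarith
  have h4 : Mi (-t) * ((Mi (-t) + t) * (2 * Mi (-t) + t)) ≤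
      4 / 5 / Q * ((t * (1 + 1 / 200)) * (t * (1 + 1 / 100))) := by
    refine mul_le_mul hm h3 ?_ (by positivity)
    exact mul_nonneg (by linarith) (by linarith)
  have h5 : 4 / 5 / Q * ((t * (1 + 1 / 200)) * (t * (1 + 1 / 100))) ≤ 35 / 100 := by
    rw [div_mul_eq_mul_div, div_le_iff₀ (by linarith)]
    rw [hQ]
    nlinarith
  rw [e]
  linarith

theorem M2_le_035 (z : ℝ) : M2 z ≤ 0.35 := by
  have h : M2 z ≤ 35 / 100 := by
    rcases le_total z (-4) with h1 | h1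
    · exact M2_left h1
    · rcases le_total z (291 / 128) with h2 | h2
      · exact M2_mid h1 h2
      · exact M2_right h2
  norm_num at h ⊢
  linarith

end Pool.Agent.IP49
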