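import Pool.Agent.IP49.Defs

/-! IP49, part N (helper52): the box `[psi1, psi2]` for `ψ`. True values: `GG 0 psi1 = 9.9e-7`,
`GG 0 psi2 = -8.1e-7`. -/

set_option autoImplicit false

namespace Pool.Agent.IP49

noncomputable def psi1 : ℝ := 257634 / 100000
noncomputable def psi2 : ℝ := 257636 / 100000

end Pool.Agent.IP49
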