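import Pool.Agent.IP49.NUE
import Pool.Agent.IP49N.Box
import Pool.Agent.IP49N.UVa

/-!
IP49, part N, (U*) side (helper60): general part of the cells.
-/

set_option autoImplicit false
set_option maxRecDepth 20000
open MeasureTheory ProbabilityTheory Filter Topology

namespace Pool.Agent.IP49
open IP49N

theorem InB_ctr (m : ℤ) (r : ℕ) : InB ((m : ℝ) / S) ⟨m, r⟩ := by
  unfold InB
  rw [div_mul_cancel₀ _ S_ne]
  simp

theorem InB_of {lo hi s : ℝ} {m : ℤ} {r : ℕ} (h1 : lo ≤ s) (h2 : s ≤ hi)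
    (h3 : (m : ℝ) - r ≤ lo * S) (h4 : hi * S ≤ m + r) : InB s ⟨m, r⟩ := by
  refine InB.of_bounds ?_ ?_
  · exact le_trans h3 (mul_le_mul_of_nonneg_right h1 S_pos.le)
  · exact le_trans (mul_le_mul_of_nonneg_right h2 S_pos.le) h4

theorem mk_testB {ψ th A k1 k2 n1a n1b n2a n2b n3b N3 : ℝ} (h1 : psi1 ≤ ψ) (h2 : ψ ≤ psi2)
    (e1 : n1a ≤ n1 (vv ψ) th A ∧ n1 (vv ψ) th A ≤ n1b)
    (e2 : n2a ≤ n2 (vv ψ) th A ∧ n2 (vv ψ) th A ≤ n2b) (e3 : n3 (vv ψ) th A ≤ n3b)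
    (c1 : k1 * (6742599 / 5000000) ≤ n1a) (c2 : n1b ≤ k2 * (13485129 / 10000000)) (hk0 : 0 ≤ k1) (hk20 : 0 ≤ k2)
    (hn20 : n2b ≤ 0) (c3 : (4165359 / 5000000) * n3b ≤ N3) (c4 : (8330853 / 10000000) * n3b ≤ N3) :
    TestB ψ th A (128817 / 50000) (281974143043 / 500000000000) (56394970003 / 100000000000) k1 k2 (4165359 / 5000000) (8330853 / 10000000) n2a n2b N3 := by
  have hψ : 0 < ψ := box_pos h1
  have hv := box_v h1 h2
  obtain ⟨hq1, hq2⟩ := box_q h1 h2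
  have hN := (UVa_all hv).1
  have hNa : ((13485129 / 10000000) : ℝ) ≤ n0 (vv ψ) := by unfold n0; linarith [hN.1]
  have hNb : n0 (vv ψ) ≤ ((6742599 / 5000000) : ℝ) := by unfold n0; linarith [hN.2]
  have hn0 : 0 < n0 (vv ψ) := n0_pos _
  have hp1 : ((128817 / 50000) : ℝ) ≤ ψ := by unfold psi1 at h1; linarith
  have hp2 : ψ ≤ ((64409 / 25000) : ℝ) := by unfold psi2 at h2; linarith
  have hal : al 0 0 ψ * n0 (vv ψ) = ψ * (1 - qp ψ) := al_n0 hψ
  have hal0 : 0 < al 0 0 ψ := al_pos le_rfl hψ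
  have ha1 : ((4165359 / 5000000) : ℝ) ≤ al 0 0 ψ := by
    by_contra hcon
    push Not at hcon
    have g1 : al 0 0 ψ * n0 (vv ψ) ≤ (4165359 / 5000000) * (6742599 / 5000000) :=
      mul_le_mul hcon.le hNb hn0.le (by norm_num)
    have g2 : ((128817 / 50000) : ℝ) * (1 - (56394970003 / 100000000000)) ≤ ψ * (1 - qp ψ) :=
      mul_le_mul hp1 (by linarith) (by norm_num) hψ.le
    rw [hal] at g1
    norm_num at g1 g2
    linarith
  have ha2 : al 0 0 ψ ≤ ((8330853 / 10000000) : ℝ) := by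
    by_contra hcon
    push Not at hcon
    have g1 : ((8330853 / 10000000) : ℝ) * (13485129 / 10000000) ≤ al 0 0 ψ * n0 (vv ψ) :=
      mul_le_mul hcon.le hNa (by norm_num) hal0.le
    have g2 : ψ * (1 - qp ψ) ≤ ((64409 / 25000) : ℝ) * (1 - (281974143043 / 500000000000)) :=
      mul_le_mul hp2 (by linarith) (by linarith [qp_lt_one (ψ := ψ)]) (by norm_num)
    rw [hal] at g1
    norm_num at g1 g2
    linarith
  refine ⟨hψ, hp1, by norm_num, by linarith, by linarith, by norm_num, by norm_num, ?_, ?_,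
    hk0, ha1, ha2, by norm_num, e2.1, e2.2, hn20, ?_⟩
  · rw [le_div_iff₀ hn0]
    have := mul_le_mul_of_nonneg_left hNb hk0
    linarith [e1.1]
  · rw [div_le_iff₀ hn0]
    have := mul_le_mul_of_nonneg_left hNa hk20
    linarith [e1.2]
  · have g1 : al 0 0 ψ * n3 (vv ψ) th A ≤ al 0 0 ψ * n3b := mul_le_mul_of_nonneg_left e3 hal0.le
    rcases le_total 0 n3b with h | h
    · have := mul_le_mul_of_nonneg_right ha2 h
      linarith
    · have := mul_le_mul_of_nonpos_right ha1 h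
      linarith

end Pool.Agent.IP49
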