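import Pool.Agent.IP49.NUE
import Pool.Agent.IP49N.Box
import Pool.Agent.IP49.NUG
import Pool.Agent.IP49N.UVa
import Pool.Agent.IP49N.UVb
import Pool.Agent.IP49N.UVc
import Pool.Agent.IP49N.UVd
import Pool.Agent.IP49N.UVe
import Pool.Agent.IP49N.UVf
import Pool.Agent.IP49N.USa
import Pool.Agent.IP49N.USb
import Pool.Agent.IP49N.USc
import Pool.Agent.IP49N.USd
import Pool.Agent.IP49N.USe
import Pool.Agent.IP49N.USf

/-!
IP49, part N, (U*) side (helper60): the cells L1, L2, L3, L4, L5, L6, L7.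
-/

set_option autoImplicit false
set_option maxRecDepth 20000
open MeasureTheory ProbabilityTheory Filter Topology

namespace Pool.Agent.IP49
open IP49N

theorem tb_L1 {ψ : ℝ} (h1 : psi1 ≤ ψ) (h2 : ψ ≤ psi2) :
    TestB ψ (19 / 20) (-(23 / 250)) (128817 / 50000)
      (281974143043 / 500000000000) (56394970003 / 100000000000) (2622381 / 2500000)
      (327801 / 312500) (4165359 / 5000000) (8330853 / 10000000)
      (-(7897389 / 10000000)) (-(789731 / 1000000)) (-(2455251 / 10000000)) := by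
  have h := UVa_all (box_v h1 h2)
  have e1 := h.2.2.2.2.1
  have e2 := h.2.2.2.2.2.1
  have e3 := h.2.2.2.2.2.2.2
  refine mk_testB (n1a := (14145331 / 10000000)) (n1b := (14145403 / 10000000)) (n3b := (-(2947227 / 10000000))) h1 h2 ?_ ?_ ?_
    (by norm_num) (by norm_num) (by norm_num) (by norm_num) (by norm_num) (by norm_num) (by norm_num)
  · simp only [n1, yn, neg_mul, ← sub_eq_add_neg]
    exact ⟨by linarith [e1.1], by linarith [e1.2]⟩
  · simp only [n2, yn, neg_mul, ← sub_eq_add_neg]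
    exact ⟨by linarith [e2.1], by linarith [e2.2]⟩
  · simp only [n3, yn, neg_mul, ← sub_eq_add_neg]
    linarith [e3]

theorem sp_L1a {ψ : ℝ} (h1 : psi1 ≤ ψ) (h2 : ψ ≤ psi2) (s : ℝ)
    (g1 : (2622381 / 2500000) * (4819213 / 5000000) ≤ s) (g2 : s ≤ (327801 / 312500) * (9638429 / 10000000)) :
    Sp1 (Real.sqrt ψ) (-(63 / 500)) s ≤ (704607 / 500000) := by
  have hb : InB s ⟨(Int.ofNat (nat_lit 1165638656060105425)), nat_lit 6182074081845⟩ :=
    InB_of g1 g2 (by rw [S_eq]; norm_num) (by rw [S_eq]; norm_num)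
  have h := (USa_all (box_r h1 h2) (InB_ctr _ _) (InB_ctr _ _) hb (InB_ctr _ _)).2.2.2.1.2
  simp only [Sp1, neg_mul]
  linarith [h]

theorem sp_L1b {ψ : ℝ} (h1 : psi1 ≤ ψ) (h2 : ψ ≤ psi2) (s : ℝ)
    (g1 : (2622381 / 2500000) * (9776987 / 10000000) ≤ s) (g2 : s ≤ (327801 / 312500) * (9776989 / 10000000)) :
    Sp1 (Real.sqrt ψ) (-(63 / 500)) s ≤ (1425283 / 1000000) := by
  have hb : InB s ⟨(Int.ofNat (nat_lit 1182395691893999128)), nat_lit 6207870446868⟩ :=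
    InB_of g1 g2 (by rw [S_eq]; norm_num) (by rw [S_eq]; norm_num)
  have h := (USa_all (box_r h1 h2) (InB_ctr _ _) (InB_ctr _ _) (InB_ctr _ _) hb).2.2.2.2.2.2
  simp only [Sp1, neg_mul]
  linarith [h]

theorem sl_L1 {ψ : ℝ} (h1 : psi1 ≤ ψ) (h2 : ψ ≤ psi2) :
    (1103487 / 1000000) ≤ Sp1p (Real.sqrt ψ) (-(63 / 500)) ((2622381 / 2500000) * (4819213 / 5000000)) := by
  have hb : InB ((2622381 / 2500000) * (4819213 / 5000000) : ℝ) ⟨(Int.ofNat (nat_lit 1165638656060105425)), nat_lit 6182074081845⟩ :=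
    InB_of le_rfl le_rfl (by rw [S_eq]; norm_num) (by rw [S_eq]; norm_num)
  have h := (USa_all (box_r h1 h2) (InB_ctr _ _) (InB_ctr _ _) hb (InB_ctr _ _)).2.2.2.2.1.1
  simp only [Sp1p, neg_mul]
  linarith [h]

theorem cell_L1 {ψ : ℝ} (h1 : psi1 ≤ ψ) (h2 : ψ ≤ psi2) {rho : ℝ} (g1 : (97 / 100) ≤ rho)
    (g2 : rho ≤ (491 / 500)) : JN ψ rho (-(63 / 500)) (19 / 20) (-(23 / 250)) ≤ 0 := by
  have B := tb_L1 h1 h2
  have hq0 : 0 ≤ qp ψ := le_trans B.hq0 B.hq1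
  have hqq : (491 / 500) ^ 2 * qp ψ < 1 := by
    have := mul_le_mul_of_nonneg_left B.hq2 (show (0 : ℝ) ≤ (491 / 500) ^ 2 by norm_num)
    norm_num at this ⊢
    linarith
  have hx2 : ∀ x ∈ Set.Icc ((97 / 100) : ℝ) (491 / 500), x ^ 2 * qp ψ < 1 := by
    intro x hx
    have e : x ^ 2 ≤ (491 / 500) ^ 2 := by
      apply sq_le_sq' <;> linarith [hx.1, hx.2]
    exact lt_of_le_of_lt (mul_le_mul_of_nonneg_right e hq0) hqq
  have ha2 := hx2 (97 / 100) ⟨le_rfl, by norm_num⟩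
  have hb2 := hx2 (491 / 500) ⟨by norm_num, le_rfl⟩
  obtain ⟨ta1, ta2⟩ := Tr_bounds (T1 := (4819213 / 5000000)) (T2 := (9638429 / 10000000)) B.hψ ha2 B.hq1 B.hq2
    (by norm_num) (by norm_num) (by norm_num) (by norm_num) (by norm_num) (by norm_num)
  obtain ⟨tb1, tb2⟩ := Tr_bounds (T1 := (9776987 / 10000000)) (T2 := (9776989 / 10000000)) B.hψ hb2 B.hq1 B.hq2
    (by norm_num) (by norm_num) (by norm_num) (by norm_num) (by norm_num) (by norm_num)
  have hJa : JN ψ (97 / 100) (-(63 / 500)) (19 / 20) (-(23 / 250)) ≤ 0 :=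
    B.JN_pos (L := (344629661688333 / 5000000000000000)) (by norm_num) ha2 (by norm_num) ta1 ta2 (sp_L1a h1 h2)
      (by norm_num) (by norm_num) (by norm_num)
  have hJb : JN ψ (491 / 500) (-(63 / 500)) (19 / 20) (-(23 / 250)) ≤ 0 :=
    B.JN_pos (L := (1744465607102799 / 25000000000000000)) (by norm_num) hb2 (by norm_num) tb1 tb2 (sp_L1b h1 h2)
      (by norm_num) (by norm_num) (by norm_num)
  have hc := B.conv (a := (97 / 100)) (b := (491 / 500)) (a' := (97 / 100)) (pm := (1103487 / 1000000)) (x0 := (24 / 25))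
    (by norm_num) (by norm_num) (fun x hx => Or.inr hx) (by norm_num) (by norm_num)
    (by norm_num) (by norm_num)
  have hs : ∀ x ∈ Set.Icc ((97 / 100) : ℝ) (491 / 500), (2622381 / 2500000) * (4819213 / 5000000) ≤
      n1 (vv ψ) (19 / 20) (-(23 / 250)) / n0 (vv ψ) * Tr ψ x := fun x hx =>
    B.smin_le (a := (97 / 100)) (by apply pow_le_pow_left₀ (by norm_num) hx.1) (hx2 x hx) (by norm_num)
      (by norm_num) (by norm_num)
  exact B.cell ha2 hb2 hs (sl_L1 h1 h2) hc hJa hJb rho g1 g2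

theorem tb_L2 {ψ : ℝ} (h1 : psi1 ≤ ψ) (h2 : ψ ≤ psi2) :
    TestB ψ (23 / 25) (-(3 / 20)) (128817 / 50000)
      (281974143043 / 500000000000) (56394970003 / 100000000000) (540477 / 500000)
      (2702451 / 2500000) (4165359 / 5000000) (8330853 / 10000000)
      (-(809043 / 1000000)) (-(809017 / 1000000)) (-(2261381 / 10000000)) := by
  have h := UVb_all (box_v h1 h2)
  have e1 := h.2.2.2.1
  have e2 := h.2.2.2.2.1
  have e3 := h.2.2.2.2.2.2
  refine mk_testB (n1a := (182211 / 125000)) (n1b := (364429 / 250000)) (n3b := (-(271451 / 1000000))) h1 h2 ?_ ?_ ?_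
    (by norm_num) (by norm_num) (by norm_num) (by norm_num) (by norm_num) (by norm_num) (by norm_num)
  · simp only [n1, yn, neg_mul, ← sub_eq_add_neg]
    exact ⟨by linarith [e1.1], by linarith [e1.2]⟩
  · simp only [n2, yn, neg_mul, ← sub_eq_add_neg]
    exact ⟨by linarith [e2.1], by linarith [e2.2]⟩
  · simp only [n3, yn, neg_mul, ← sub_eq_add_neg]
    linarith [e3]

theorem sp_L2a {ψ : ℝ} (h1 : psi1 ≤ ψ) (h2 : ψ ≤ psi2) (s : ℝ)
    (g1 : (540477 / 500000) * (2355873 / 2500000) ≤ s) (g2 : s ≤ (2702451 / 2500000) * (1177937 / 1250000)) :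
    Sp1 (Real.sqrt ψ) (-(41 / 200)) s ≤ (1374563 / 1000000) := by
  have hb : InB s ⟨(Int.ofNat (nat_lit 1174422098333255196)), nat_lit 14590458589230⟩ :=
    InB_of g1 g2 (by rw [S_eq]; norm_num) (by rw [S_eq]; norm_num)
  have h := (USb_all (box_r h1 h2) (InB_ctr _ _) (InB_ctr _ _) hb (InB_ctr _ _)).2.2.2.1.2
  simp only [Sp1, neg_mul]
  linarith [h]

theorem sp_L2b {ψ : ℝ} (h1 : psi1 ≤ ψ) (h2 : ψ ≤ psi2) (s : ℝ)
    (g1 : (540477 / 500000) * (4819213 / 5000000) ≤ s) (g2 : s ≤ (2702451 / 2500000) * (9638429 / 10000000)) :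
    Sp1 (Real.sqrt ψ) (-(41 / 200)) s ≤ (43749 / 31250) := by
  have hb : InB s ⟨(Int.ofNat (nat_lit 1201208622743870400)), nat_lit 14855242992255⟩ :=
    InB_of g1 g2 (by rw [S_eq]; norm_num) (by rw [S_eq]; norm_num)
  have h := (USb_all (box_r h1 h2) (InB_ctr _ _) (InB_ctr _ _) (InB_ctr _ _) hb).2.2.2.2.2.2
  simp only [Sp1, neg_mul]
  linarith [h]

theorem sl_L2 {ψ : ℝ} (h1 : psi1 ≤ ψ) (h2 : ψ ≤ psi2) :
    (136233 / 125000) ≤ Sp1p (Real.sqrt ψ) (-(41 / 200)) ((540477 / 500000) * (2355873 / 2500000)) := by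
  have hb : InB ((540477 / 500000) * (2355873 / 2500000) : ℝ) ⟨(Int.ofNat (nat_lit 1174422098333255196)), nat_lit 14590458589230⟩ :=
    InB_of le_rfl le_rfl (by rw [S_eq]; norm_num) (by rw [S_eq]; norm_num)
  have h := (USb_all (box_r h1 h2) (InB_ctr _ _) (InB_ctr _ _) hb (InB_ctr _ _)).2.2.2.2.1.1
  simp only [Sp1p, neg_mul]
  linarith [h]

theorem cell_L2 {ψ : ℝ} (h1 : psi1 ≤ ψ) (h2 : ψ ≤ psi2) {rho : ℝ} (g1 : (19 / 20) ≤ rho)
    (g2 : rho ≤ (97 / 100)) : JN ψ rho (-(41 / 200)) (23 / 25) (-(3 / 20)) ≤ 0 := by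
  have B := tb_L2 h1 h2
  have hq0 : 0 ≤ qp ψ := le_trans B.hq0 B.hq1
  have hqq : (97 / 100) ^ 2 * qp ψ < 1 := by
    have := mul_le_mul_of_nonneg_left B.hq2 (show (0 : ℝ) ≤ (97 / 100) ^ 2 by norm_num)
    norm_num at this ⊢
    linarith
  have hx2 : ∀ x ∈ Set.Icc ((19 / 20) : ℝ) (97 / 100), x ^ 2 * qp ψ < 1 := by
    intro x hx
    have e : x ^ 2 ≤ (97 / 100) ^ 2 := by
      apply sq_le_sq' <;> linarith [hx.1, hx.2]
    exact lt_of_le_of_lt (mul_le_mul_of_nonneg_right e hq0) hqq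
  have ha2 := hx2 (19 / 20) ⟨le_rfl, by norm_num⟩
  have hb2 := hx2 (97 / 100) ⟨by norm_num, le_rfl⟩
  obtain ⟨ta1, ta2⟩ := Tr_bounds (T1 := (2355873 / 2500000)) (T2 := (1177937 / 1250000)) B.hψ ha2 B.hq1 B.hq2
    (by norm_num) (by norm_num) (by norm_num) (by norm_num) (by norm_num) (by norm_num)
  obtain ⟨tb1, tb2⟩ := Tr_bounds (T1 := (4819213 / 5000000)) (T2 := (9638429 / 10000000)) B.hψ hb2 B.hq1 B.hq2
    (by norm_num) (by norm_num) (by norm_num) (by norm_num) (by norm_num) (by norm_num)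
  have hJa : JN ψ (19 / 20) (-(41 / 200)) (23 / 25) (-(3 / 20)) ≤ 0 :=
    B.JN_pos (L := (43931681632337 / 400000000000000)) (by norm_num) ha2 (by norm_num) ta1 ta2 (sp_L2a h1 h2)
      (by norm_num) (by norm_num) (by norm_num)
  have hJb : JN ψ (97 / 100) (-(41 / 200)) (23 / 25) (-(3 / 20)) ≤ 0 :=
    B.JN_pos (L := (224282795701931 / 2000000000000000)) (by norm_num) hb2 (by norm_num) tb1 tb2 (sp_L2b h1 h2)
      (by norm_num) (by norm_num) (by norm_num)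
  have hc := B.conv (a := (19 / 20)) (b := (97 / 100)) (a' := (19 / 20)) (pm := (136233 / 125000)) (x0 := (47 / 50))
    (by norm_num) (by norm_num) (fun x hx => Or.inr hx) (by norm_num) (by norm_num)
    (by norm_num) (by norm_num)
  have hs : ∀ x ∈ Set.Icc ((19 / 20) : ℝ) (97 / 100), (540477 / 500000) * (2355873 / 2500000) ≤
      n1 (vv ψ) (23 / 25) (-(3 / 20)) / n0 (vv ψ) * Tr ψ x := fun x hx =>
    B.smin_le (a := (19 / 20)) (by apply pow_le_pow_left₀ (by norm_num) hx.1) (hx2 x hx) (by norm_num)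
      (by norm_num) (by norm_num)
  exact B.cell ha2 hb2 hs (sl_L2 h1 h2) hc hJa hJb rho g1 g2

theorem tb_L3 {ψ : ℝ} (h1 : psi1 ≤ ψ) (h2 : ψ ≤ psi2) :
    TestB ψ (173 / 200) (-(51 / 200)) (128817 / 50000)
      (281974143043 / 500000000000) (56394970003 / 100000000000) (11392283 / 10000000)
      (2848143 / 2500000) (4165359 / 5000000) (8330853 / 10000000)
      (-(843069 / 1000000)) (-(421521 / 500000)) (-(937851 / 5000000)) := by
  have h := UVc_all (box_v h1 h2)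
  have e1 := h.2.2.2.1
  have e2 := h.2.2.2.2.1
  have e3 := h.2.2.2.2.2.2
  refine mk_testB (n1a := (96017 / 62500)) (n1b := (1536303 / 1000000)) (n3b := (-(45031 / 200000))) h1 h2 ?_ ?_ ?_
    (by norm_num) (by norm_num) (by norm_num) (by norm_num) (by norm_num) (by norm_num) (by norm_num)
  · simp only [n1, yn, neg_mul, ← sub_eq_add_neg]
    exact ⟨by linarith [e1.1], by linarith [e1.2]⟩
  · simp only [n2, yn, neg_mul, ← sub_eq_add_neg]
    exact ⟨by linarith [e2.1], by linarith [e2.2]⟩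
  · simp only [n3, yn, neg_mul, ← sub_eq_add_neg]
    linarith [e3]

theorem sp_L3a {ψ : ℝ} (h1 : psi1 ≤ ψ) (h2 : ψ ≤ psi2) (s : ℝ)
    (g1 : (11392283 / 10000000) * (565311 / 625000) ≤ s) (g2 : s ≤ (2848143 / 2500000) * (4522491 / 5000000)) :
    Sp1 (Real.sqrt ψ) (-(17 / 50)) s ≤ (657827 / 500000) := by
  have hb : InB s ⟨(Int.ofNat (nat_lit 1188019519237009291)), nat_lit 15462715142481⟩ :=
    InB_of g1 g2 (by rw [S_eq]; norm_num) (by rw [S_eq]; norm_num)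
  have h := (USc_all (box_r h1 h2) (InB_ctr _ _) (InB_ctr _ _) hb (InB_ctr _ _)).2.2.2.1.2
  simp only [Sp1, neg_mul]
  linarith [h]

theorem sp_L3b {ψ : ℝ} (h1 : psi1 ≤ ψ) (h2 : ψ ≤ psi2) (s : ℝ)
    (g1 : (11392283 / 10000000) * (2355873 / 2500000) ≤ s) (g2 : s ≤ (2848143 / 2500000) * (1177937 / 1250000)) :
    Sp1 (Real.sqrt ψ) (-(17 / 50)) s ≤ (170231 / 125000) := by
  have hb : InB s ⟨(Int.ofNat (nat_lit 1237735854488537913)), nat_lit 15961964626329⟩ :=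
    InB_of g1 g2 (by rw [S_eq]; norm_num) (by rw [S_eq]; norm_num)
  have h := (USc_all (box_r h1 h2) (InB_ctr _ _) (InB_ctr _ _) (InB_ctr _ _) hb).2.2.2.2.2.2
  simp only [Sp1, neg_mul]
  linarith [h]

theorem sl_L3 {ψ : ℝ} (h1 : psi1 ≤ ψ) (h2 : ψ ≤ psi2) :
    (1063699 / 1000000) ≤ Sp1p (Real.sqrt ψ) (-(17 / 50)) ((11392283 / 10000000) * (565311 / 625000)) := by
  have hb : InB ((11392283 / 10000000) * (565311 / 625000) : ℝ) ⟨(Int.ofNat (nat_lit 1188019519237009291)), nat_lit 15462715142481⟩ :=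
    InB_of le_rfl le_rfl (by rw [S_eq]; norm_num) (by rw [S_eq]; norm_num)
  have h := (USc_all (box_r h1 h2) (InB_ctr _ _) (InB_ctr _ _) hb (InB_ctr _ _)).2.2.2.2.1.1
  simp only [Sp1p, neg_mul]
  linarith [h]

theorem cell_L3 {ψ : ℝ} (h1 : psi1 ≤ ψ) (h2 : ψ ≤ psi2) {rho : ℝ} (g1 : (91 / 100) ≤ rho)
    (g2 : rho ≤ (19 / 20)) : JN ψ rho (-(17 / 50)) (173 / 200) (-(51 / 200)) ≤ 0 := by
  have B := tb_L3 h1 h2
  have hq0 : 0 ≤ qp ψ := le_trans B.hq0 B.hq1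
  have hqq : (19 / 20) ^ 2 * qp ψ < 1 := by
    have := mul_le_mul_of_nonneg_left B.hq2 (show (0 : ℝ) ≤ (19 / 20) ^ 2 by norm_num)
    norm_num at this ⊢
    linarith
  have hx2 : ∀ x ∈ Set.Icc ((91 / 100) : ℝ) (19 / 20), x ^ 2 * qp ψ < 1 := by
    intro x hx
    have e : x ^ 2 ≤ (19 / 20) ^ 2 := by
      apply sq_le_sq' <;> linarith [hx.1, hx.2]
    exact lt_of_le_of_lt (mul_le_mul_of_nonneg_right e hq0) hqq
  have ha2 := hx2 (91 / 100) ⟨le_rfl, by norm_num⟩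
  have hb2 := hx2 (19 / 20) ⟨by norm_num, le_rfl⟩
  obtain ⟨ta1, ta2⟩ := Tr_bounds (T1 := (565311 / 625000)) (T2 := (4522491 / 5000000)) B.hψ ha2 B.hq1 B.hq2
    (by norm_num) (by norm_num) (by norm_num) (by norm_num) (by norm_num) (by norm_num)
  obtain ⟨tb1, tb2⟩ := Tr_bounds (T1 := (2355873 / 2500000)) (T2 := (1177937 / 1250000)) B.hψ hb2 B.hq1 B.hq2
    (by norm_num) (by norm_num) (by norm_num) (by norm_num) (by norm_num) (by norm_num)
  have hJa : JN ψ (91 / 100) (-(17 / 50)) (173 / 200) (-(51 / 200)) ≤ 0 :=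
    B.JN_pos (L := (87243018594641 / 500000000000000)) (by norm_num) ha2 (by norm_num) ta1 ta2 (sp_L3a h1 h2)
      (by norm_num) (by norm_num) (by norm_num)
  have hJb : JN ψ (19 / 20) (-(17 / 50)) (173 / 200) (-(51 / 200)) ≤ 0 :=
    B.JN_pos (L := (18215575310969 / 100000000000000)) (by norm_num) hb2 (by norm_num) tb1 tb2 (sp_L3b h1 h2)
      (by norm_num) (by norm_num) (by norm_num)
  have hc := B.conv (a := (91 / 100)) (b := (19 / 20)) (a' := (91 / 100)) (pm := (1063699 / 1000000)) (x0 := (9 / 10))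
    (by norm_num) (by norm_num) (fun x hx => Or.inr hx) (by norm_num) (by norm_num)
    (by norm_num) (by norm_num)
  have hs : ∀ x ∈ Set.Icc ((91 / 100) : ℝ) (19 / 20), (11392283 / 10000000) * (565311 / 625000) ≤
      n1 (vv ψ) (173 / 200) (-(51 / 200)) / n0 (vv ψ) * Tr ψ x := fun x hx =>
    B.smin_le (a := (91 / 100)) (by apply pow_le_pow_left₀ (by norm_num) hx.1) (hx2 x hx) (by norm_num)
      (by norm_num) (by norm_num)
  exact B.cell ha2 hb2 hs (sl_L3 h1 h2) hc hJa hJb rho g1 g2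

theorem tb_L4 {ψ : ℝ} (h1 : psi1 ≤ ψ) (h2 : ψ ≤ psi2) :
    TestB ψ (39 / 50) (-(43 / 100)) (128817 / 50000)
      (281974143043 / 500000000000) (56394970003 / 100000000000) (3104259 / 2500000)
      (155217 / 125000) (4165359 / 5000000) (8330853 / 10000000)
      (-(903441 / 1000000)) (-(90341 / 100000)) (-(133407 / 1250000)) := by
  have h := UVd_all (box_v h1 h2)
  have e1 := h.2.2.2.1
  have e2 := h.2.2.2.2.1
  have e3 := h.2.2.2.2.2.2
  refine mk_testB (n1a := (837231 / 500000)) (n1b := (1674497 / 1000000)) (n3b := (-(128111 / 1000000))) h1 h2 ?_ ?_ ?_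
    (by norm_num) (by norm_num) (by norm_num) (by norm_num) (by norm_num) (by norm_num) (by norm_num)
  · simp only [n1, yn, neg_mul, ← sub_eq_add_neg]
    exact ⟨by linarith [e1.1], by linarith [e1.2]⟩
  · simp only [n2, yn, neg_mul, ← sub_eq_add_neg]
    exact ⟨by linarith [e2.1], by linarith [e2.2]⟩
  · simp only [n3, yn, neg_mul, ← sub_eq_add_neg]
    linarith [e3]

theorem sp_L4a {ψ : ℝ} (h1 : psi1 ≤ ψ) (h2 : ψ ≤ psi2) (s : ℝ)
    (g1 : (3104259 / 2500000) * (1063781 / 1250000) ≤ s) (g2 : s ≤ (155217 / 125000) * (531891 / 625000)) :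
    Sp1 (Real.sqrt ψ) (-(14 / 25)) s ≤ (153999 / 125000) := by
  have hb : InB s ⟨(Int.ofNat (nat_lit 1218332323023878110)), nat_lit 16467519299535⟩ :=
    InB_of g1 g2 (by rw [S_eq]; norm_num) (by rw [S_eq]; norm_num)
  have h := (USd_all (box_r h1 h2) (InB_ctr _ _) (InB_ctr _ _) hb (InB_ctr _ _)).2.2.2.1.2
  simp only [Sp1, neg_mul]
  linarith [h]

theorem sp_L4b {ψ : ℝ} (h1 : psi1 ≤ ψ) (h2 : ψ ≤ psi2) (s : ℝ)
    (g1 : (3104259 / 2500000) * (565311 / 625000) ≤ s) (g2 : s ≤ (155217 / 125000) * (4522491 / 5000000)) :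
    Sp1 (Real.sqrt ψ) (-(14 / 25)) s ≤ (1300413 / 1000000) := by
  have hb : InB s ⟨(Int.ofNat (nat_lit 1294884132309161259)), nat_lit 17323085930501⟩ :=
    InB_of g1 g2 (by rw [S_eq]; norm_num) (by rw [S_eq]; norm_num)
  have h := (USd_all (box_r h1 h2) (InB_ctr _ _) (InB_ctr _ _) (InB_ctr _ _) hb).2.2.2.2.2.2
  simp only [Sp1, neg_mul]
  linarith [h]

theorem sl_L4 {ψ : ℝ} (h1 : psi1 ≤ ψ) (h2 : ψ ≤ psi2) :
    (1016393 / 1000000) ≤ Sp1p (Real.sqrt ψ) (-(14 / 25)) ((3104259 / 2500000) * (1063781 / 1250000)) := by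
  have hb : InB ((3104259 / 2500000) * (1063781 / 1250000) : ℝ) ⟨(Int.ofNat (nat_lit 1218332323023878110)), nat_lit 16467519299535⟩ :=
    InB_of le_rfl le_rfl (by rw [S_eq]; norm_num) (by rw [S_eq]; norm_num)
  have h := (USd_all (box_r h1 h2) (InB_ctr _ _) (InB_ctr _ _) hb (InB_ctr _ _)).2.2.2.2.1.1
  simp only [Sp1p, neg_mul]
  linarith [h]

theorem cell_L4 {ψ : ℝ} (h1 : psi1 ≤ ψ) (h2 : ψ ≤ psi2) {rho : ℝ} (g1 : (21 / 25) ≤ rho)
    (g2 : rho ≤ (91 / 100)) : JN ψ rho (-(14 / 25)) (39 / 50) (-(43 / 100)) ≤ 0 := by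
  have B := tb_L4 h1 h2
  have hq0 : 0 ≤ qp ψ := le_trans B.hq0 B.hq1
  have hqq : (91 / 100) ^ 2 * qp ψ < 1 := by
    have := mul_le_mul_of_nonneg_left B.hq2 (show (0 : ℝ) ≤ (91 / 100) ^ 2 by norm_num)
    norm_num at this ⊢
    linarith
  have hx2 : ∀ x ∈ Set.Icc ((21 / 25) : ℝ) (91 / 100), x ^ 2 * qp ψ < 1 := by
    intro x hx
    have e : x ^ 2 ≤ (91 / 100) ^ 2 := by
      apply sq_le_sq' <;> linarith [hx.1, hx.2]
    exact lt_of_le_of_lt (mul_le_mul_of_nonneg_right e hq0) hqq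
  have ha2 := hx2 (21 / 25) ⟨le_rfl, by norm_num⟩
  have hb2 := hx2 (91 / 100) ⟨by norm_num, le_rfl⟩
  obtain ⟨ta1, ta2⟩ := Tr_bounds (T1 := (1063781 / 1250000)) (T2 := (531891 / 625000)) B.hψ ha2 B.hq1 B.hq2
    (by norm_num) (by norm_num) (by norm_num) (by norm_num) (by norm_num) (by norm_num)
  obtain ⟨tb1, tb2⟩ := Tr_bounds (T1 := (565311 / 625000)) (T2 := (4522491 / 5000000)) B.hψ hb2 B.hq1 B.hq2
    (by norm_num) (by norm_num) (by norm_num) (by norm_num) (by norm_num) (by norm_num)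
  have hJa : JN ψ (21 / 25) (-(14 / 25)) (39 / 50) (-(43 / 100)) ≤ 0 :=
    B.JN_pos (L := (8290060590441 / 31250000000000)) (by norm_num) ha2 (by norm_num) ta1 ta2 (sp_L4a h1 h2)
      (by norm_num) (by norm_num) (by norm_num)
  have hJb : JN ψ (91 / 100) (-(14 / 25)) (39 / 50) (-(43 / 100)) ≤ 0 :=
    B.JN_pos (L := (35923595891911 / 125000000000000)) (by norm_num) hb2 (by norm_num) tb1 tb2 (sp_L4b h1 h2)
      (by norm_num) (by norm_num) (by norm_num)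
  have hc := B.conv (a := (21 / 25)) (b := (91 / 100)) (a' := (21 / 25)) (pm := (1016393 / 1000000)) (x0 := (21 / 25))
    (by norm_num) (by norm_num) (fun x hx => Or.inr hx) (by norm_num) (by norm_num)
    (by norm_num) (by norm_num)
  have hs : ∀ x ∈ Set.Icc ((21 / 25) : ℝ) (91 / 100), (3104259 / 2500000) * (1063781 / 1250000) ≤
      n1 (vv ψ) (39 / 50) (-(43 / 100)) / n0 (vv ψ) * Tr ψ x := fun x hx =>
    B.smin_le (a := (21 / 25)) (by apply pow_le_pow_left₀ (by norm_num) hx.1) (hx2 x hx) (by norm_num)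
      (by norm_num) (by norm_num)
  exact B.cell ha2 hb2 hs (sl_L4 h1 h2) hc hJa hJb rho g1 g2

theorem tb_L5 {ψ : ℝ} (h1 : psi1 ≤ ψ) (h2 : ψ ≤ psi2) :
    TestB ψ (16 / 25) (-(3 / 4)) (128817 / 50000)
      (281974143043 / 500000000000) (56394970003 / 100000000000) (14428153 / 10000000)
      (450893 / 312500) (4165359 / 5000000) (8330853 / 10000000)
      (-(1022099 / 1000000)) (-(1022059 / 1000000)) (97017 / 1000000) := by
  have h := UVe_all (box_v h1 h2)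
  have e1 := h.2.2.2.1
  have e2 := h.2.2.2.2.1
  have e3 := h.2.2.2.2.2.2
  refine mk_testB (n1a := (389133 / 200000)) (n1b := (121607 / 62500)) (n3b := (23291 / 200000)) h1 h2 ?_ ?_ ?_
    (by norm_num) (by norm_num) (by norm_num) (by norm_num) (by norm_num) (by norm_num) (by norm_num)
  · simp only [n1, yn, neg_mul, ← sub_eq_add_neg]
    exact ⟨by linarith [e1.1], by linarith [e1.2]⟩
  · simp only [n2, yn, neg_mul, ← sub_eq_add_neg]
    exact ⟨by linarith [e2.1], by linarith [e2.2]⟩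
  · simp only [n3, yn, neg_mul, ← sub_eq_add_neg]
    linarith [e3]

theorem sp_L5a {ψ : ℝ} (h1 : psi1 ≤ ψ) (h2 : ψ ≤ psi2) (s : ℝ)
    (g1 : (14428153 / 10000000) * (242577 / 312500) ≤ s) (g2 : s ≤ (450893 / 312500) * (3881237 / 5000000)) :
    Sp1 (Real.sqrt ψ) (-(47 / 50)) s ≤ (1120157 / 1000000) := by
  have hb : InB s ⟨(Int.ofNat (nat_lit 1291268997094098403)), nat_lit 19759967968787⟩ :=
    InB_of g1 g2 (by rw [S_eq]; norm_num) (by rw [S_eq]; norm_num)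
  have h := (USe_all (box_r h1 h2) (InB_ctr _ _) (InB_ctr _ _) hb (InB_ctr _ _)).2.2.2.1.2
  simp only [Sp1, neg_mul]
  linarith [h]

theorem sp_L5b {ψ : ℝ} (h1 : psi1 ≤ ψ) (h2 : ψ ≤ psi2) (s : ℝ)
    (g1 : (14428153 / 10000000) * (1063781 / 1250000) ≤ s) (g2 : s ≤ (450893 / 312500) * (531891 / 625000)) :
    Sp1 (Real.sqrt ψ) (-(47 / 50)) s ≤ (305733 / 250000) := by
  have hb : InB s ⟨(Int.ofNat (nat_lit 1415660992015555851)), nat_lit 21417035991332⟩ :=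
    InB_of g1 g2 (by rw [S_eq]; norm_num) (by rw [S_eq]; norm_num)
  have h := (USe_all (box_r h1 h2) (InB_ctr _ _) (InB_ctr _ _) (InB_ctr _ _) hb).2.2.2.2.2.2
  simp only [Sp1, neg_mul]
  linarith [h]

theorem sl_L5 {ψ : ℝ} (h1 : psi1 ≤ ψ) (h2 : ψ ≤ psi2) :
    (922563 / 1000000) ≤ Sp1p (Real.sqrt ψ) (-(47 / 50)) ((14428153 / 10000000) * (242577 / 312500)) := by
  have hb : InB ((14428153 / 10000000) * (242577 / 312500) : ℝ) ⟨(Int.ofNat (nat_lit 1291268997094098403)), nat_lit 19759967968787⟩ :=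
    InB_of le_rfl le_rfl (by rw [S_eq]; norm_num) (by rw [S_eq]; norm_num)
  have h := (USe_all (box_r h1 h2) (InB_ctr _ _) (InB_ctr _ _) hb (InB_ctr _ _)).2.2.2.2.1.1
  simp only [Sp1p, neg_mul]
  linarith [h]

theorem cell_L5 {ψ : ℝ} (h1 : psi1 ≤ ψ) (h2 : ψ ≤ psi2) {rho : ℝ} (g1 : (7 / 10) ≤ rho)
    (g2 : rho ≤ (21 / 25)) : JN ψ rho (-(47 / 50)) (16 / 25) (-(3 / 4)) ≤ 0 := by
  have B := tb_L5 h1 h2
  have hq0 : 0 ≤ qp ψ := le_trans B.hq0 B.hq1
  have hqq : (21 / 25) ^ 2 * qp ψ < 1 := by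
    have := mul_le_mul_of_nonneg_left B.hq2 (show (0 : ℝ) ≤ (21 / 25) ^ 2 by norm_num)
    norm_num at this ⊢
    linarith
  have hx2 : ∀ x ∈ Set.Icc ((7 / 10) : ℝ) (21 / 25), x ^ 2 * qp ψ < 1 := by
    intro x hx
    have e : x ^ 2 ≤ (21 / 25) ^ 2 := by
      apply sq_le_sq' <;> linarith [hx.1, hx.2]
    exact lt_of_le_of_lt (mul_le_mul_of_nonneg_right e hq0) hqq
  have ha2 := hx2 (7 / 10) ⟨le_rfl, by norm_num⟩
  have hb2 := hx2 (21 / 25) ⟨by norm_num, le_rfl⟩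
  obtain ⟨ta1, ta2⟩ := Tr_bounds (T1 := (242577 / 312500)) (T2 := (3881237 / 5000000)) B.hψ ha2 B.hq1 B.hq2
    (by norm_num) (by norm_num) (by norm_num) (by norm_num) (by norm_num) (by norm_num)
  obtain ⟨tb1, tb2⟩ := Tr_bounds (T1 := (1063781 / 1250000)) (T2 := (531891 / 625000)) B.hψ hb2 B.hq1 B.hq2
    (by norm_num) (by norm_num) (by norm_num) (by norm_num) (by norm_num) (by norm_num)
  have hJa : JN ψ (7 / 10) (-(47 / 50)) (16 / 25) (-(3 / 4)) ≤ 0 :=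
    B.JN_pos (L := (18553945130987 / 50000000000000)) (by norm_num) ha2 (by norm_num) ta1 ta2 (sp_L5a h1 h2)
      (by norm_num) (by norm_num) (by norm_num)
  have hJb : JN ψ (21 / 25) (-(47 / 50)) (16 / 25) (-(3 / 4)) ≤ 0 :=
    B.JN_pos (L := (55661835392961 / 125000000000000)) (by norm_num) hb2 (by norm_num) tb1 tb2 (sp_L5b h1 h2)
      (by norm_num) (by norm_num) (by norm_num)
  have hc := B.conv (a := (7 / 10)) (b := (21 / 25)) (a' := (7 / 10)) (pm := (922563 / 1000000)) (x0 := (21 / 25))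
    (by norm_num) (by norm_num) (fun x hx => Or.inr hx) (by norm_num) (by norm_num)
    (by norm_num) (by norm_num)
  have hs : ∀ x ∈ Set.Icc ((7 / 10) : ℝ) (21 / 25), (14428153 / 10000000) * (242577 / 312500) ≤
      n1 (vv ψ) (16 / 25) (-(3 / 4)) / n0 (vv ψ) * Tr ψ x := fun x hx =>
    B.smin_le (a := (7 / 10)) (by apply pow_le_pow_left₀ (by norm_num) hx.1) (hx2 x hx) (by norm_num)
      (by norm_num) (by norm_num)
  exact B.cell ha2 hb2 hs (sl_L5 h1 h2) hc hJa hJb rho g1 g2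

theorem tb_L6 {ψ : ℝ} (h1 : psi1 ≤ ψ) (h2 : ψ ≤ psi2) :
    TestB ψ (1 / 2) (-(4 / 5)) (128817 / 50000)
      (281974143043 / 500000000000) (56394970003 / 100000000000) (14117723 / 10000000)
      (14118093 / 10000000) (4165359 / 5000000) (8330853 / 10000000)
      (-(470083 / 500000)) (-(94013 / 100000)) (19463 / 625000) := by
  have h := UVf_all (box_v h1 h2)
  have e1 := h.1
  have e2 := h.2.1
  have e3 := h.2.2.1.2
  refine mk_testB (n1a := (1903803 / 1000000)) (n1b := (1903843 / 1000000)) (n3b := (1869 / 50000)) h1 h2 ?_ ?_ ?_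
    (by norm_num) (by norm_num) (by norm_num) (by norm_num) (by norm_num) (by norm_num) (by norm_num)
  · simp only [n1, yn, neg_mul, ← sub_eq_add_neg]
    exact ⟨by linarith [e1.1], by linarith [e1.2]⟩
  · simp only [n2, yn, neg_mul, ← sub_eq_add_neg]
    exact ⟨by linarith [e2.1], by linarith [e2.2]⟩
  · simp only [n3, yn, neg_mul, ← sub_eq_add_neg]
    linarith [e3]

theorem sp_L6a {ψ : ℝ} (h1 : psi1 ≤ ψ) (h2 : ψ ≤ psi2) (s : ℝ)
    (g1 : (14117723 / 10000000) * (6622109 / 10000000) ≤ s) (g2 : s ≤ (14118093 / 10000000) * (6622121 / 10000000)) :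
    Sp1 (Real.sqrt ψ) (-(9 / 10)) s ≤ (487429 / 500000) := by
  have hb : InB s ⟨(Int.ofNat (nat_lit 1077871045515036865)), nat_lit 15100951144535⟩ :=
    InB_of g1 g2 (by rw [S_eq]; norm_num) (by rw [S_eq]; norm_num)
  have h := (USf_all (box_r h1 h2) hb (InB_ctr _ _) (InB_ctr _ _) (InB_ctr _ _) (InB_ctr _ _)).1.2
  simp only [Sp1, neg_mul]
  linarith [h]

theorem sp_L6b {ψ : ℝ} (h1 : psi1 ≤ ψ) (h2 : ψ ≤ psi2) (s : ℝ)
    (g1 : (14117723 / 10000000) * (242577 / 312500) ≤ s) (g2 : s ≤ (14118093 / 10000000) * (3881237 / 5000000)) :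
    Sp1 (Real.sqrt ψ) (-(9 / 10)) s ≤ (222963 / 200000) := by
  have hb : InB s ⟨(Int.ofNat (nat_lit 1263484638484735581)), nat_lit 17370449248712⟩ :=
    InB_of g1 g2 (by rw [S_eq]; norm_num) (by rw [S_eq]; norm_num)
  have h := (USf_all (box_r h1 h2) (InB_ctr _ _) hb (InB_ctr _ _) (InB_ctr _ _) (InB_ctr _ _)).2.2.1.2
  simp only [Sp1, neg_mul]
  linarith [h]

theorem sl_L6 {ψ : ℝ} (h1 : psi1 ≤ ψ) (h2 : ψ ≤ psi2) :
    (808643 / 1000000) ≤ Sp1p (Real.sqrt ψ) (-(9 / 10)) ((14117723 / 10000000) * (6622109 / 10000000)) := by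
  have hb : InB ((14117723 / 10000000) * (6622109 / 10000000) : ℝ) ⟨(Int.ofNat (nat_lit 1077871045515036865)), nat_lit 15100951144535⟩ :=
    InB_of le_rfl le_rfl (by rw [S_eq]; norm_num) (by rw [S_eq]; norm_num)
  have h := (USf_all (box_r h1 h2) hb (InB_ctr _ _) (InB_ctr _ _) (InB_ctr _ _) (InB_ctr _ _)).2.1.1
  simp only [Sp1p, neg_mul]
  linarith [h]

theorem cell_L6 {ψ : ℝ} (h1 : psi1 ≤ ψ) (h2 : ψ ≤ psi2) {rho : ℝ} (g1 : (1 / 10) ≤ rho)
    (g2 : rho ≤ (7 / 10)) : JN ψ rho (-(9 / 10)) (1 / 2) (-(4 / 5)) ≤ 0 := by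
  have B := tb_L6 h1 h2
  have hq0 : 0 ≤ qp ψ := le_trans B.hq0 B.hq1
  have hqq : (7 / 10) ^ 2 * qp ψ < 1 := by
    have := mul_le_mul_of_nonneg_left B.hq2 (show (0 : ℝ) ≤ (7 / 10) ^ 2 by norm_num)
    norm_num at this ⊢
    linarith
  have hx2 : ∀ x ∈ Set.Icc ((1 / 10) : ℝ) (7 / 10), x ^ 2 * qp ψ < 1 := by
    intro x hx
    have e : x ^ 2 ≤ (7 / 10) ^ 2 := by
      apply sq_le_sq' <;> linarith [hx.1, hx.2]
    exact lt_of_le_of_lt (mul_le_mul_of_nonneg_right e hq0) hqq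
  have ha2 := hx2 (1 / 10) ⟨le_rfl, by norm_num⟩
  have hb2 := hx2 (7 / 10) ⟨by norm_num, le_rfl⟩
  obtain ⟨ta1, ta2⟩ := Tr_bounds (T1 := (6622109 / 10000000)) (T2 := (6622121 / 10000000)) B.hψ ha2 B.hq1 B.hq2
    (by norm_num) (by norm_num) (by norm_num) (by norm_num) (by norm_num) (by norm_num)
  obtain ⟨tb1, tb2⟩ := Tr_bounds (T1 := (242577 / 312500)) (T2 := (3881237 / 5000000)) B.hψ hb2 B.hq1 B.hq2
    (by norm_num) (by norm_num) (by norm_num) (by norm_num) (by norm_num) (by norm_num)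
  have hJa : JN ψ (1 / 10) (-(9 / 10)) (1 / 2) (-(4 / 5)) ≤ 0 :=
    B.JN_pos (L := (507554730027 / 10000000000000)) (by norm_num) ha2 (by norm_num) ta1 ta2 (sp_L6a h1 h2)
      (by norm_num) (by norm_num) (by norm_num)
  have hJb : JN ψ (7 / 10) (-(9 / 10)) (1 / 2) (-(4 / 5)) ≤ 0 :=
    B.JN_pos (L := (3552883110189 / 10000000000000)) (by norm_num) hb2 (by norm_num) tb1 tb2 (sp_L6b h1 h2)
      (by norm_num) (by norm_num) (by norm_num)
  have hc := B.conv (a := (1 / 10)) (b := (7 / 10)) (a' := (1 / 10)) (pm := (808643 / 1000000)) (x0 := (7 / 10))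
    (by norm_num) (by norm_num) (fun x hx => Or.inr hx) (by norm_num) (by norm_num)
    (by norm_num) (by norm_num)
  have hs : ∀ x ∈ Set.Icc ((1 / 10) : ℝ) (7 / 10), (14117723 / 10000000) * (6622109 / 10000000) ≤
      n1 (vv ψ) (1 / 2) (-(4 / 5)) / n0 (vv ψ) * Tr ψ x := fun x hx =>
    B.smin_le (a := (1 / 10)) (by apply pow_le_pow_left₀ (by norm_num) hx.1) (hx2 x hx) (by norm_num)
      (by norm_num) (by norm_num)
  exact B.cell ha2 hb2 hs (sl_L6 h1 h2) hc hJa hJb rho g1 g2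

theorem tb_L7 {ψ : ℝ} (h1 : psi1 ≤ ψ) (h2 : ψ ≤ psi2) :
    TestB ψ (-(1 / 4)) (-(1 / 2)) (128817 / 50000)
      (281974143043 / 500000000000) (56394970003 / 100000000000) (7994659 / 10000000)
      (1598963 / 2000000) (4165359 / 5000000) (8330853 / 10000000)
      (-(420631 / 10000000)) (-(210227 / 5000000)) (-(2553193 / 5000000)) := by
  have h := UVf_all (box_v h1 h2)
  have e1 := h.2.2.2.1
  have e2 := h.2.2.2.2.1
  have e3 := h.2.2.2.2.2.2
  refine mk_testB (n1a := (10780957 / 10000000)) (n1b := (1078111 / 1000000)) (n3b := (-(1532397 / 2500000))) h1 h2 ?_ ?_ ?_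
    (by norm_num) (by norm_num) (by norm_num) (by norm_num) (by norm_num) (by norm_num) (by norm_num)
  · simp only [n1, yn, neg_mul, ← sub_eq_add_neg]
    exact ⟨by linarith [e1.1], by linarith [e1.2]⟩
  · simp only [n2, yn, neg_mul, ← sub_eq_add_neg]
    exact ⟨by linarith [e2.1], by linarith [e2.2]⟩
  · simp only [n3, yn, neg_mul, ← sub_eq_add_neg]
    linarith [e3]

theorem sp_L7a {ψ : ℝ} (h1 : psi1 ≤ ψ) (h2 : ψ ≤ psi2) (s : ℝ)
    (g1 : (7994659 / 10000000) * (8617317 / 5000000) ≤ s) (g2 : s ≤ (1598963 / 2000000) * (4308683 / 2500000)) :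
    Sp1 (Real.sqrt ψ) (-1) s ≤ (672547 / 500000) := by
  have hb : InB s ⟨(Int.ofNat (nat_lit 1588573161951434632)), nat_lit 20015263654891⟩ :=
    InB_of g1 g2 (by rw [S_eq]; norm_num) (by rw [S_eq]; norm_num)
  have h := (USf_all (box_r h1 h2) (InB_ctr _ _) (InB_ctr _ _) hb (InB_ctr _ _) (InB_ctr _ _)).2.2.2.1.2
  simp only [Sp1, neg_mul]
  linarith [h]

theorem sp_L7b {ψ : ℝ} (h1 : psi1 ≤ ψ) (h2 : ψ ≤ psi2) (s : ℝ)
    (g1 : (7994659 / 10000000) * (6622109 / 10000000) ≤ s) (g2 : s ≤ (1598963 / 2000000) * (6622121 / 10000000)) :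
    Sp1 (Real.sqrt ψ) (-1) s ≤ (736453 / 1000000) := by
  have hb : InB s ⟨(Int.ofNat (nat_lit 610380484756071000)), nat_lit 6508165708455⟩ :=
    InB_of g1 g2 (by rw [S_eq]; norm_num) (by rw [S_eq]; norm_num)
  have h := (USf_all (box_r h1 h2) (InB_ctr _ _) (InB_ctr _ _) (InB_ctr _ _) hb (InB_ctr _ _)).2.2.2.2.1.2
  simp only [Sp1, neg_mul]
  linarith [h]

theorem sl_L7 {ψ : ℝ} (h1 : psi1 ≤ ψ) (h2 : ψ ≤ psi2) :
    (177357 / 1000000) ≤ Sp1p (Real.sqrt ψ) (-1) ((7994659 / 10000000) * (660341 / 1000000)) := by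
  have hb : InB ((7994659 / 10000000) * (660341 / 1000000) : ℝ) ⟨(Int.ofNat (nat_lit 608650449691565927)), nat_lit 2⟩ :=
    InB_of le_rfl le_rfl (by rw [S_eq]; norm_num) (by rw [S_eq]; norm_num)
  have h := (USf_all (box_r h1 h2) (InB_ctr _ _) (InB_ctr _ _) (InB_ctr _ _) (InB_ctr _ _) hb).2.2.2.2.2.1
  simp only [Sp1p, neg_mul]
  linarith [h]

theorem cell_L7 {ψ : ℝ} (h1 : psi1 ≤ ψ) (h2 : ψ ≤ psi2) {rho : ℝ} (g1 : (-(123 / 100)) ≤ rho)
    (g2 : rho ≤ (1 / 10)) : JN ψ rho (-1) (-(1 / 4)) (-(1 / 2)) ≤ 0 := by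
  have B := tb_L7 h1 h2
  have hq0 : 0 ≤ qp ψ := le_trans B.hq0 B.hq1
  have hqq : (123 / 100) ^ 2 * qp ψ < 1 := by
    have := mul_le_mul_of_nonneg_left B.hq2 (show (0 : ℝ) ≤ (123 / 100) ^ 2 by norm_num)
    norm_num at this ⊢
    linarith
  have hx2 : ∀ x ∈ Set.Icc ((-(123 / 100)) : ℝ) (1 / 10), x ^ 2 * qp ψ < 1 := by
    intro x hx
    have e : x ^ 2 ≤ (123 / 100) ^ 2 := by
      apply sq_le_sq' <;> linarith [hx.1, hx.2]
    exact lt_of_le_of_lt (mul_le_mul_of_nonneg_right e hq0) hqq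
  have ha2 := hx2 (-(123 / 100)) ⟨le_rfl, by norm_num⟩
  have hb2 := hx2 (1 / 10) ⟨by norm_num, le_rfl⟩
  obtain ⟨ta1, ta2⟩ := Tr_bounds (T1 := (8617317 / 5000000)) (T2 := (4308683 / 2500000)) B.hψ ha2 B.hq1 B.hq2
    (by norm_num) (by norm_num) (by norm_num) (by norm_num) (by norm_num) (by norm_num)
  obtain ⟨tb1, tb2⟩ := Tr_bounds (T1 := (6622109 / 10000000)) (T2 := (6622121 / 10000000)) B.hψ hb2 B.hq1 B.hq2
    (by norm_num) (by norm_num) (by norm_num) (by norm_num) (by norm_num) (by norm_num)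
  have hJa : JN ψ (-(123 / 100)) (-1) (-(1 / 4)) (-(1 / 2)) ≤ 0 :=
    B.JN_neg (L := (-(34682819594289 / 50000000000000))) (by norm_num) ha2 (by norm_num) ta1 ta2 (by norm_num) (sp_L7a h1 h2)
      (by norm_num) (by norm_num) (by norm_num)
  have hJb : JN ψ (1 / 10) (-1) (-(1 / 4)) (-(1 / 2)) ≤ 0 :=
    B.JN_pos (L := (56394970003 / 1000000000000)) (by norm_num) hb2 (by norm_num) tb1 tb2 (sp_L7b h1 h2)
      (by norm_num) (by norm_num) (by norm_num)
  have hc := B.conv (a := (-(123 / 100))) (b := (1 / 10)) (a' := 0) (pm := (177357 / 1000000)) (x0 := (1 / 10))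
    (by norm_num) (by norm_num) (fun x _ => lt_or_ge x 0) (by norm_num) (by norm_num)
    (by norm_num) (by norm_num)
  have hs : ∀ x ∈ Set.Icc ((-(123 / 100)) : ℝ) (1 / 10), (7994659 / 10000000) * (660341 / 1000000) ≤
      n1 (vv ψ) (-(1 / 4)) (-(1 / 2)) / n0 (vv ψ) * Tr ψ x := fun x hx =>
    B.smin_le (a := 0) (by rw [zero_pow two_ne_zero]; exact sq_nonneg x) (hx2 x hx) (by norm_num)
      (by norm_num) (by norm_num)
  exact B.cell ha2 hb2 hs (sl_L7 h1 h2) hc hJa hJb rho g1 g2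

end Pool.Agent.IP49
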