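import Pool.Agent.IP49.RSA

/-!
IP49, part N, (U*) side (owner helper60): pointwise Taylor inequalities.

PROOFS. `lc' = tanh`, `tanh' = 1 - tanh²`, `|(1 - tanh²)'| = 2 |tanh| (1 - tanh²) ≤ 1`
(`2 t (1-t²) ≤ 4/(3√3) < 1`), so `1 - tanh²` is 1-Lipschitz.
`lc_taylor`: `D(e) = RHS - LHS` has `D(0) = 0` and
`D'(e) = tanh h + e (1 - tanh² h) ± e²/2 - tanh (h+e)`, which is `≥ 0` for `e ≥ 0` and `≤ 0` for
`e ≤ 0` (`tanh (h+e) = tanh h + e (1 - tanh² h) + O(e²/2)` by the Lipschitz bound).
`LL_taylor`: for the left side `phi(η) = log Ph(-(u+η)) + (w-η) Mi(-(u+η))` one has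
`phi'(η) = -(w - η) Md(-(u+η))` (the two `Mi` terms cancel; `Mi' = Md`, `(log Ph)' = -Mi`), and
`|Md(-(u+η)) - Md(-u)| ≤ G |η|` because `Md' = M2 ∈ (0, G]`. Compare derivatives for `η ≥ 0` and for
`η ≤ 0` (replace `|η|` by `±η`, `|η|³` by `±η³`; the bound on the difference of the derivatives is
`G (|w| |η| + η²)`). `Mi_taylor`: the same, `d/dη Mi(-(u+η)) = -Md(-(u+η))`.
-/

set_option autoImplicit false
open MeasureTheory ProbabilityTheory Filter Topology

namespace Pool.Agent.IP49

/-- integration of a bound on the derivative, positive side -/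
private theorem nut_aux {F F' : ℝ → ℝ} {a b : ℝ} (hd : ∀ x, HasDerivAt F (F' x) x)
    (h0 : F 0 = 0) (hb : ∀ x, |F' x| ≤ a * |x| + b * x ^ 2) {s : ℝ} (hs : 0 ≤ s) :
    |F s| ≤ a * s ^ 2 / 2 + b * s ^ 3 / 3 := by
  have key : ∀ c : ℝ, |c| = 1 → c * F s ≤ a * s ^ 2 / 2 + b * s ^ 3 / 3 := by
    intro c hc
    have hder : ∀ x, HasDerivAt (fun x => a * x ^ 2 / 2 + b * x ^ 3 / 3 - c * F x)
        (a * x + b * x ^ 2 - c * F' x) x := by
      intro x
      have h1 := ((hasDerivAt_pow 2 x).const_mul a).div_const 2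
      have h2 := ((hasDerivAt_pow 3 x).const_mul b).div_const 3
      refine ((h1.add h2).sub ((hd x).const_mul c)).congr_deriv ?_
      simp only [Nat.cast_ofNat, Nat.reduceSub, pow_one]
      ring
    have hmono : MonotoneOn (fun x => a * x ^ 2 / 2 + b * x ^ 3 / 3 - c * F x) (Set.Ici 0) := by
      refine monotoneOn_of_deriv_nonneg (convex_Ici 0)
        (fun x _ => (hder x).continuousAt.continuousWithinAt)
        (fun x _ => (hder x).differentiableAt.differentiableWithinAt) fun x hx => ?_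
      rw [interior_Ici, Set.mem_Ioi] at hx
      rw [(hder x).deriv]
      have h3 := hb x
      rw [abs_of_pos hx] at h3
      have h4 : c * F' x ≤ |F' x| := by
        refine (le_abs_self _).trans ?_
        rw [abs_mul, hc, one_mul]
      linarith
    have := hmono (Set.mem_Ici.2 le_rfl) (Set.mem_Ici.2 hs) hs
    simp only [h0] at this
    linarith
  rw [abs_le]
  have h1 := key 1 (by norm_num)
  have h2 := key (-1) (by norm_num)
  constructor <;> linarith

/-- integration of a bound on the derivative -/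
private theorem nut_int {F F' : ℝ → ℝ} {a b : ℝ} (hd : ∀ x, HasDerivAt F (F' x) x)
    (h0 : F 0 = 0) (hb : ∀ x, |F' x| ≤ a * |x| + b * x ^ 2) (s : ℝ) :
    |F s| ≤ a * s ^ 2 / 2 + b * |s| ^ 3 / 3 := by
  rcases le_total 0 s with hs | hs
  · rw [abs_of_nonneg hs]
    exact nut_aux hd h0 hb hs
  · have hd' : ∀ x, HasDerivAt (fun x => F (-x)) (-F' (-x)) x := by
      intro x
      have h1 : HasDerivAt (fun y : ℝ => -y) (-1) x := (hasDerivAt_id x).neg
      exact ((hd (-x)).comp x h1).congr_deriv (by ring)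
    have := nut_aux (F := fun x => F (-x)) (a := a) (b := b) hd' (by simpa using h0)
      (fun x => by simpa using hb (-x)) (s := -s) (by linarith)
    simp only [neg_neg] at this
    rw [abs_of_nonpos hs]
    refine this.trans (le_of_eq ?_)
    ring

theorem sech2_lipschitz (x y : ℝ) :
    |(1 - Real.tanh x ^ 2) - (1 - Real.tanh y ^ 2)| ≤ |x - y| := by
  have hd : ∀ z ∈ (Set.univ : Set ℝ), HasDerivWithinAt (fun z => 1 - Real.tanh z ^ 2)
      (-(2 * Real.tanh z * (1 - Real.tanh z ^ 2))) Set.univ z := by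
    intro z _
    refine (((hasDerivAt_tanh z).pow 2).const_sub 1).hasDerivWithinAt.congr_deriv ?_
    simp only [Nat.cast_ofNat, Nat.reduceSub, pow_one]
  have hb : ∀ z ∈ (Set.univ : Set ℝ), ‖-(2 * Real.tanh z * (1 - Real.tanh z ^ 2))‖ ≤ 1 := by
    intro z _
    have h1 := tanh_sq_lt z
    rw [norm_neg, Real.norm_eq_abs, abs_mul, abs_mul, abs_of_pos (by linarith : 0 < 1 -
      Real.tanh z ^ 2), abs_of_pos (two_pos : (0 : ℝ) < 2)]
    rw [← sq_abs] at h1 ⊢
    have h2 := abs_nonneg (Real.tanh z)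
    have h3 : |Real.tanh z| < 1 := by nlinarith
    generalize |Real.tanh z| = t at *
    nlinarith [sq_nonneg (t - 1 / 2), sq_nonneg (t - 3 / 5), mul_nonneg h2 (sq_nonneg (t - 3 / 5)),
      mul_nonneg h2 (sq_nonneg (t - 1 / 2))]
  have := Convex.norm_image_sub_le_of_norm_hasDerivWithin_le hd hb convex_univ
    (Set.mem_univ y) (Set.mem_univ x)
  simpa [Real.norm_eq_abs] using this

private theorem hasDerivAt_shift {f : ℝ → ℝ} {f' : ℝ} (h x : ℝ) (hf : HasDerivAt f f' (h + x)) :
    HasDerivAt (fun y => f (h + y)) f' x := by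
  have h1 : HasDerivAt (fun y : ℝ => h + y) 1 x := (hasDerivAt_id x).const_add h
  exact (hf.comp x h1).congr_deriv (by ring)

private theorem tanh_taylor (h e : ℝ) :
    |Real.tanh (h + e) - Real.tanh h - e * (1 - Real.tanh h ^ 2)| ≤ e ^ 2 / 2 := by
  have hd : ∀ x, HasDerivAt (fun x => Real.tanh (h + x) - Real.tanh h - x * (1 - Real.tanh h ^ 2))
      ((1 - Real.tanh (h + x) ^ 2) - (1 - Real.tanh h ^ 2)) x := by
    intro x
    exact (((hasDerivAt_shift h x (hasDerivAt_tanh (h + x))).sub_const (Real.tanh h)).sub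
      ((hasDerivAt_id x).mul_const (1 - Real.tanh h ^ 2))).congr_deriv (by ring)
  have := nut_int (a := 1) (b := 0) hd (by simp) (fun x => by
    have := sech2_lipschitz (h + x) h
    rw [add_sub_cancel_left] at this
    linarith) e
  linarith

theorem lc_taylor (h e : ℝ) :
    lc (h + e) ≤ lc h + e * Real.tanh h + e ^ 2 / 2 * (1 - Real.tanh h ^ 2) + |e| ^ 3 / 6 := by
  have hd : ∀ x, HasDerivAt (fun x => lc (h + x) - lc h - x * Real.tanh h
      - x ^ 2 / 2 * (1 - Real.tanh h ^ 2))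
      (Real.tanh (h + x) - Real.tanh h - x * (1 - Real.tanh h ^ 2)) x := by
    intro x
    have h1 := ((hasDerivAt_pow 2 x).div_const 2).mul_const (1 - Real.tanh h ^ 2)
    refine ((((hasDerivAt_shift h x (hasDerivAt_lc (h + x))).sub_const (lc h)).sub
      ((hasDerivAt_id x).mul_const (Real.tanh h))).sub h1).congr_deriv ?_
    simp only [Nat.cast_ofNat, Nat.reduceSub, pow_one]
    ring
  have := nut_int (a := 0) (b := 1 / 2) hd (by simp) (fun x => by
    have := tanh_taylor h x
    linarith) e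
  have h2 := (le_abs_self _).trans this
  linarith

private theorem Md_lip {G : ℝ} (hG : ∀ z, M2 z ≤ G) (x y : ℝ) : |Md x - Md y| ≤ G * |x - y| := by
  have := Convex.norm_image_sub_le_of_norm_hasDerivWithin_le (C := G)
    (fun z (_ : z ∈ (Set.univ : Set ℝ)) => (hasDerivAt_Md z).hasDerivWithinAt)
    (fun z _ => by
      rw [Real.norm_eq_abs, abs_of_pos (M2_pos z)]
      exact hG z) convex_univ (Set.mem_univ y) (Set.mem_univ x)
  simpa [Real.norm_eq_abs] using this

private theorem hasDerivAt_nshift {f : ℝ → ℝ} {f' : ℝ} (u x : ℝ) (hf : HasDerivAt f f' (-(u + x))) :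
    HasDerivAt (fun y => f (-(u + y))) (-f') x := by
  have h1 : HasDerivAt (fun y : ℝ => -(u + y)) (-1) x := ((hasDerivAt_id x).const_add u).neg
  exact (hf.comp x h1).congr_deriv (by ring)

theorem LL_taylor {G : ℝ} (hG : ∀ z, M2 z ≤ G) (u w eta : ℝ) :
    Real.log (Ph (-(u + eta))) + (w - eta) * Mi (-(u + eta))
      ≤ Real.log (Ph (-u)) + w * Mi (-u) - Md (-u) * (w * eta - eta ^ 2 / 2)
        + G * (|w| * eta ^ 2 / 2 + |eta| ^ 3 / 3) := by
  have hd : ∀ x, HasDerivAt (fun x => Real.log (Ph (-(u + x))) + (w - x) * Mi (-(u + x))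
      - (Real.log (Ph (-u)) + w * Mi (-u)) + Md (-u) * (w * x - x ^ 2 / 2))
      (-(w - x) * (Md (-(u + x)) - Md (-u))) x := by
    intro x
    have h1 := hasDerivAt_nshift u x (hasDerivAt_logPh (-(u + x)))
    have h2 := hasDerivAt_nshift u x (hasDerivAt_Mi (-(u + x)))
    have h3 : HasDerivAt (fun y => w - y) (-1) x := (hasDerivAt_id x).const_sub w
    have h4 : HasDerivAt (fun y : ℝ => w * y - y ^ 2 / 2) (w - x) x := by
      refine (((hasDerivAt_id x).const_mul w).sub ((hasDerivAt_pow 2 x).div_const 2)).congr_deriv ?_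
      simp only [Nat.cast_ofNat, Nat.reduceSub, pow_one]
      ring
    refine (((h1.add (h3.mul h2)).sub_const (Real.log (Ph (-u)) + w * Mi (-u))).add
      (h4.const_mul (Md (-u)))).congr_deriv ?_
    ring
  have hG0 : 0 ≤ G := (M2_pos 0).le.trans (hG 0)
  have := nut_int (a := G * |w|) (b := G) hd (by simp) (fun x => by
    have h5 := Md_lip hG (-(u + x)) (-u)
    have h6 : |-(u + x) - -u| = |x| := by
      rw [← abs_neg x]
      congr 1
      ring
    rw [h6] at h5
    rw [abs_mul, abs_neg]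
    have h7 : |w - x| ≤ |w| + |x| := abs_sub _ _
    calc |w - x| * |Md (-(u + x)) - Md (-u)| ≤ (|w| + |x|) * (G * |x|) :=
          mul_le_mul h7 h5 (abs_nonneg _) (by positivity)
      _ = G * |w| * |x| + G * (|x| * |x|) := by ring
      _ = G * |w| * |x| + G * x ^ 2 := by rw [abs_mul_abs_self, sq]) eta
  have h2 := (le_abs_self _).trans this
  linarith

theorem Mi_taylor {G : ℝ} (hG : ∀ z, M2 z ≤ G) (u eta : ℝ) :
    |Mi (-(u + eta)) - Mi (-u) + Md (-u) * eta| ≤ G * eta ^ 2 / 2 := by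
  have hd : ∀ x, HasDerivAt (fun x => Mi (-(u + x)) - Mi (-u) + Md (-u) * x)
      (-(Md (-(u + x)) - Md (-u))) x := by
    intro x
    exact (((hasDerivAt_nshift u x (hasDerivAt_Mi (-(u + x)))).sub_const (Mi (-u))).add
      ((hasDerivAt_id x).const_mul (Md (-u)))).congr_deriv (by ring)
  have := nut_int (a := G) (b := 0) hd (by simp) (fun x => by
    have h5 := Md_lip hG (-(u + x)) (-u)
    have h6 : |-(u + x) - -u| = |x| := by
      rw [← abs_neg x]
      congr 1
      ring
    rw [h6] at h5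
    rw [abs_neg]
    linarith) eta
  linarith

end Pool.Agent.IP49
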