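import Pool.Agent.IP49.NU0
import Pool.Agent.IP49.NUT

/-!
IP49, part N, (U*) side (owner helper60): the window around `ρ = 1`, integrated form.

Notation: `q = qp ψ`, `v = vv ψ`, `r = √ψ`, `u = v x`, `e = Mi(-u)`, `g = Md(-u)`, `m = tanh(r x)`,
`S = 1 - m²`, `h = r x`, `T = Tr ψ ρ`, `th = ρ T`, `vt = th - 1`, `T² = 1 - q + q th²`
(from `T² (1 - ρ² q) = 1 - q`), `A = A' vt`, `y = th u + A e`, `w = vt u`, `eta = y - u = w + A e
= vt (u + A' e)`, `k = n1/n0 - 1`, `σ = (1+k) T - 1`.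

PROOF of `JN_window`. (1) `α (n3 + th n2) = α GE[log Ph(-y) + (w - eta) Mi(-y)]` because
`th u - y = w - eta = -A e` and `w = th u - u`; by `LL_taylor` and
`w eta - eta²/2 = (w² - A² e²)/2` this is `≤ α GE[log Ph(-u)] + vt α GE[u e] - α vt² w1/2
+ α A² w3/2 + α G |vt|³ (X2/2 + X3/3)`, and `α GE[u e] = - q ψ (1-q)` (from `al_xF`: with
`u = √q x/√(1-q)`, `e = √(1-q) FF` it is `q d` with `d = dd 0 0 ψ`, and `d = -ψ(1-q)`:
`α GE g = α GE[e (e + u)] = ψ (1-q) + q d` and `d = -α GE g/(1-q)`; hence `d = -ψ (1-q)`, lemma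
`dd_eq`).
(2) `Sp1(l, σ+1) = GE lc(h + (l m + σ h)) ≤ GE lc(h) + l q + σ ψ (1-q)
+ (l² m1 + 2 l σ m2 + σ² m3)/2 + e3/6` by `lc_taylor`, `GE m² = q`, `GE[h m] = ψ (1-q)`.
(3) `GG 0 ψ = 0` reads `GE lc(h) + α GE[log Ph(-u)] = ψ (1-q)/2`.
(4) `(1+k)² (1-q) ψ/2` and `ρ th …`: with `k1 = 1+k` the remaining terms are
`ψ(1-q)/2 + l q + σ ψ (1-q) - l ρ q - k1² (1-q) ψ/2 - vt q ψ (1-q)
= ψ (1-q) (k1 T - 1 + 1/2 - k1²/2 - q vt) - l q (ρ - 1)
= ψ (1-q) ((T - 1 - q vt) + k (T - 1) - k²/2) - l q (ρ - 1)`.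
PROOF of `k_window`: `n1 = GE[e Mi(-y)]`, `n0 = GE e²`, `Mi_taylor` with the weight `e > 0`:
`|n1 - n0 + GE[g e eta]| ≤ G GE[e eta²]/2`, `GE[g e eta] = vt (w2 + A' w3)`.
-/

set_option autoImplicit false
open MeasureTheory ProbabilityTheory Filter Topology

namespace Pool.Agent.IP49

noncomputable section

def m1 (r : ℝ) : ℝ := GE fun x => (1 - Real.tanh (r * x) ^ 2) * Real.tanh (r * x) ^ 2

def m2 (r : ℝ) : ℝ := GE fun x => (1 - Real.tanh (r * x) ^ 2) * Real.tanh (r * x) * (r * x)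

def m3 (r : ℝ) : ℝ := GE fun x => (1 - Real.tanh (r * x) ^ 2) * (r * x) ^ 2

def w1 (v : ℝ) : ℝ := GE fun x => Md (-(v * x)) * (v * x) ^ 2

def w2 (v : ℝ) : ℝ := GE fun x => Md (-(v * x)) * (v * x) * Mi (-(v * x))

def w3 (v : ℝ) : ℝ := GE fun x => Md (-(v * x)) * Mi (-(v * x)) ^ 2

def e3 (r l s : ℝ) : ℝ := GE fun x => |l * Real.tanh (r * x) + s * (r * x)| ^ 3

def X1 (v A : ℝ) : ℝ := GE fun x => Mi (-(v * x)) * (v * x + A * Mi (-(v * x))) ^ 2

def X2 (v A : ℝ) : ℝ := GE fun x => |v * x| * (v * x + A * Mi (-(v * x))) ^ 2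

def X3 (v A : ℝ) : ℝ := GE fun x => |v * x + A * Mi (-(v * x))| ^ 3

/-! ### growth -/

private def Gr (f : ℝ → ℝ) : Prop :=
  Measurable f ∧ ∃ C : ℝ, ∃ k : ℕ, 0 ≤ C ∧ ∀ x, |f x| ≤ C * (1 + x ^ 2) ^ k

private theorem one_le_p (x : ℝ) (k : ℕ) : 1 ≤ (1 + x ^ 2) ^ k :=
  one_le_pow₀ (by nlinarith [sq_nonneg x])

private theorem gr_int {f : ℝ → ℝ} (h : Gr f) : Integrable f (gaussianReal 0 1) := by
  obtain ⟨hm, C, k, -, hb⟩ := h
  exact integrable_of_growth hm hb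

private theorem gr_const (c : ℝ) : Gr (fun _ => c) :=
  ⟨measurable_const, |c|, 0, abs_nonneg c, fun x => by simp⟩

private theorem gr_id : Gr (fun x => x) := by
  refine ⟨measurable_id, 1, 1, zero_le_one, fun x => ?_⟩
  rw [abs_le]
  constructor <;> nlinarith [sq_nonneg (x - 1), sq_nonneg (x + 1)]

private theorem gr_dom {f g : ℝ → ℝ} (hf : Gr f) (hm : Measurable g)
    (h : ∀ x, |g x| ≤ |f x|) : Gr g := by
  obtain ⟨-, C, k, hC, hb⟩ := hf
  exact ⟨hm, C, k, hC, fun x => (h x).trans (hb x)⟩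

private theorem gr_add {f g : ℝ → ℝ} (hf : Gr f) (hg : Gr g) : Gr (fun x => f x + g x) := by
  obtain ⟨hm, C, k, hC, hb⟩ := hf
  obtain ⟨hm', C', k', hC', hb'⟩ := hg
  refine ⟨hm.add hm', C + C', k + k', add_nonneg hC hC', fun x => ?_⟩
  have h1 : (1 + x ^ 2) ^ k ≤ (1 + x ^ 2) ^ (k + k') :=
    pow_le_pow_right₀ (by nlinarith [sq_nonneg x]) (Nat.le_add_right _ _)
  have h2 : (1 + x ^ 2) ^ k' ≤ (1 + x ^ 2) ^ (k + k') :=
    pow_le_pow_right₀ (by nlinarith [sq_nonneg x]) (Nat.le_add_left _ _)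
  have h3 := mul_le_mul_of_nonneg_left h1 hC
  have h4 := mul_le_mul_of_nonneg_left h2 hC'
  have h5 := abs_add_le (f x) (g x)
  have h6 := hb x
  have h7 := hb' x
  rw [add_mul]
  linarith

private theorem gr_mul {f g : ℝ → ℝ} (hf : Gr f) (hg : Gr g) : Gr (fun x => f x * g x) := by
  obtain ⟨hm, C, k, hC, hb⟩ := hf
  obtain ⟨hm', C', k', hC', hb'⟩ := hg
  refine ⟨hm.mul hm', C * C', k + k', mul_nonneg hC hC', fun x => ?_⟩
  rw [abs_mul]
  have h1 : 0 ≤ (1 + x ^ 2) ^ k := by positivity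
  calc |f x| * |g x| ≤ (C * (1 + x ^ 2) ^ k) * (C' * (1 + x ^ 2) ^ k') :=
        mul_le_mul (hb x) (hb' x) (abs_nonneg _) (mul_nonneg hC h1)
    _ = C * C' * (1 + x ^ 2) ^ (k + k') := by ring

private theorem gr_neg {f : ℝ → ℝ} (hf : Gr f) : Gr (fun x => -f x) :=
  gr_dom hf hf.1.neg fun x => by rw [abs_neg]

private theorem gr_sub {f g : ℝ → ℝ} (hf : Gr f) (hg : Gr g) : Gr (fun x => f x - g x) := by
  have h := gr_add hf (gr_neg hg)
  exact gr_dom h (hf.1.sub hg.1) fun x => by rw [sub_eq_add_neg]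

private theorem gr_abs {f : ℝ → ℝ} (hf : Gr f) : Gr (fun x => |f x|) :=
  gr_dom hf (continuous_abs.measurable.comp hf.1) fun x => by rw [abs_abs]

private theorem gr_pow {f : ℝ → ℝ} (hf : Gr f) (n : ℕ) : Gr (fun x => f x ^ n) := by
  induction n with
  | zero => simpa using gr_const 1
  | succ n ih =>
    have h := gr_mul ih hf
    exact gr_dom h (hf.1.pow_const _) fun x => by rw [pow_succ]

private theorem gr_Mi {f : ℝ → ℝ} (hf : Gr f) : Gr (fun x => Mi (f x)) := by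
  refine gr_dom (gr_add (gr_const 1) (gr_abs hf)) (continuous_Mi.measurable.comp hf.1) fun x => ?_
  rw [abs_of_pos (Mi_pos _), abs_of_nonneg (add_nonneg zero_le_one (abs_nonneg _))]
  exact Mi_le_abs _

private theorem gr_Md {f : ℝ → ℝ} (hf : Gr f) : Gr (fun x => Md (f x)) := by
  refine gr_dom (gr_const 1) (continuous_Md.measurable.comp hf.1) fun x => ?_
  rw [abs_of_pos (Md_pos _), abs_one]
  exact (Md_lt_one _).le

private theorem gr_logPh {f : ℝ → ℝ} (hf : Gr f) : Gr (fun x => Real.log (Ph (f x))) := by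
  have hc : Continuous fun z => Real.log (Ph z) :=
    continuous_iff_continuousAt.2 fun z => (hasDerivAt_logPh z).continuousAt
  refine gr_dom (gr_add (gr_const 2) (gr_pow hf 2)) (hc.measurable.comp hf.1) fun x => ?_
  rw [abs_of_nonpos (logPh_nonpos _), abs_of_nonneg (add_nonneg zero_le_two (sq_nonneg _))]
  have := logPh_ge (f x)
  linarith

private theorem abs_tanh_le (x : ℝ) : |Real.tanh x| ≤ 1 := by
  have h := tanh_sq_lt x
  rw [← sq_abs] at h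
  nlinarith [abs_nonneg (Real.tanh x)]

private theorem gr_tanh {f : ℝ → ℝ} (hf : Gr f) : Gr (fun x => Real.tanh (f x)) := by
  refine gr_dom (gr_const 1) (continuous_tanh'.measurable.comp hf.1) fun x => ?_
  rw [abs_one]
  exact abs_tanh_le _

private theorem gr_lc {f : ℝ → ℝ} (hf : Gr f) : Gr (fun x => lc (f x)) := by
  have hc : Continuous lc :=
    continuous_iff_continuousAt.2 fun z => (hasDerivAt_lc z).continuousAt
  refine gr_dom (gr_add (gr_abs hf) (gr_const (Real.log 2))) (hc.measurable.comp hf.1) fun x => ?_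
  obtain ⟨h1, h2⟩ := lc_bounds (f x)
  have h3 : 0 ≤ Real.log 2 := Real.log_nonneg (by norm_num)
  rw [abs_of_nonneg ((abs_nonneg _).trans h1), abs_of_nonneg (add_nonneg (abs_nonneg _) h3)]
  exact h2

private theorem GE_am {f g : ℝ → ℝ} (a : ℝ) (hf : Gr f) (hg : Gr g) :
    GE (fun x => a * f x + g x) = a * GE f + GE g := by
  have h := GE_add (gr_int (gr_mul (gr_const a) hf)) (gr_int hg)
  rw [h, GE_mul]

private theorem gr_am {f g : ℝ → ℝ} (a : ℝ) (hf : Gr f) (hg : Gr g) :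
    Gr (fun x => a * f x + g x) := gr_add (gr_mul (gr_const a) hf) hg

private theorem GE_abs_le {f g : ℝ → ℝ} (hf : Gr f) (hg : Gr g) (h : ∀ x, |f x| ≤ g x) :
    |GE f| ≤ GE g := by
  rw [abs_le]
  constructor
  · have h1 := GE_mono (gr_int (gr_mul (gr_const (-1)) hg)) (gr_int hf) fun x => by
      have := (abs_le.1 (h x)).1
      linarith
    rw [GE_mul] at h1
    linarith
  · exact GE_mono (gr_int hf) (gr_int hg) fun x => (abs_le.1 (h x)).2

private theorem gr_u (v : ℝ) : Gr (fun x => v * x) := gr_mul (gr_const v) gr_id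

private theorem gr_e (v : ℝ) : Gr (fun x => Mi (-(v * x))) := gr_Mi (gr_neg (gr_u v))

private theorem gr_g (v : ℝ) : Gr (fun x => Md (-(v * x))) := gr_Md (gr_neg (gr_u v))

private theorem tp_zero (q : ℝ) : tp 0 q = Real.sqrt (1 - q) := by
  unfold tp
  rw [add_zero]

private theorem arg_eq (ψ x : ℝ) :
    (0 - Real.sqrt (qp ψ) * x) / Real.sqrt (1 - qp ψ) = -(vv ψ * x) := by
  unfold vv
  ring

private theorem one_sub_pos (ψ : ℝ) : 0 < 1 - qp ψ := by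
  have : qp ψ < 1 := qp_lt_one
  linarith

private theorem xF_eq {ψ : ℝ} (hψ : 0 < ψ) :
    al 0 0 ψ * (GE fun x => vv ψ * x * Mi (-(vv ψ * x))) = qp ψ * dd 0 0 ψ := by
  rw [← al_xF (κ := 0) (ν := 0) (ψ := ψ) le_rfl]
  congr 2
  funext x
  unfold FF
  rw [tp_zero, arg_eq]
  unfold vv
  ring

/-- at `κ = ν = 0`: `d = -ψ (1-q)` -/
theorem dd_eq {ψ : ℝ} (hψ : 0 < ψ) : dd 0 0 ψ = -(ψ * (1 - qp ψ)) := by
  have h1q := one_sub_pos ψ
  have hg : (GE fun x => gf 0 0 (qp ψ) (Real.sqrt (qp ψ) * x)) =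
      (1 - qp ψ)⁻¹ * (GE fun x => Md (-(vv ψ * x))) := by
    rw [← GE_mul]
    congr 1
    funext x
    unfold gf
    rw [tp_zero, arg_eq, Real.sq_sqrt h1q.le]
    field_simp
  have hM : (GE fun x => Md (-(vv ψ * x))) =
      n0 (vv ψ) + GE fun x => vv ψ * x * Mi (-(vv ψ * x)) := by
    unfold n0
    rw [← GE_add (gr_int (gr_pow (gr_e _) 2)) (gr_int (gr_mul (gr_u _) (gr_e _)))]
    congr 1
    funext x
    unfold Md
    ring
  have h0 := al_n0 hψ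
  have h2 := xF_eq hψ
  have h3 : dd 0 0 ψ = -(al 0 0 ψ * ((1 - qp ψ)⁻¹ * (n0 (vv ψ)
      + GE fun x => vv ψ * x * Mi (-(vv ψ * x))))) := by
    rw [← hM, ← hg]
    rfl
  have h4 : (1 - qp ψ) * dd 0 0 ψ = -(al 0 0 ψ * n0 (vv ψ)
      + al 0 0 ψ * GE fun x => vv ψ * x * Mi (-(vv ψ * x))) := by
    rw [h3]
    field_simp
  rw [h0, h2] at h4
  linarith

theorem al_ue {ψ : ℝ} (hψ : 0 < ψ) :
    al 0 0 ψ * (GE fun x => vv ψ * x * Mi (-(vv ψ * x))) = -(qp ψ * ψ * (1 - qp ψ)) := by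
  rw [xF_eq hψ, dd_eq hψ]
  ring

private theorem gr_yn (v th A : ℝ) : Gr (fun x => yn v th A x) :=
  gr_add (gr_mul (gr_const th) (gr_u v)) (gr_mul (gr_const A) (gr_e v))

theorem k_window {ψ rho A' G : ℝ} (hψ : 0 < ψ) (hr : rho ^ 2 * qp ψ < 1)
    (hG : ∀ z, M2 z ≤ G) :
    |(n1 (vv ψ) (rho * Tr ψ rho) (A' * (rho * Tr ψ rho - 1)) / n0 (vv ψ) - 1) * n0 (vv ψ)
        + (rho * Tr ψ rho - 1) * (w2 (vv ψ) + A' * w3 (vv ψ))|
      ≤ G * (rho * Tr ψ rho - 1) ^ 2 * X1 (vv ψ) A' / 2 := by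
  generalize rho * Tr ψ rho = th
  generalize vv ψ = v
  have hn0 := n0_pos v
  obtain ⟨vt, hvt⟩ : ∃ vt, vt = th - 1 := ⟨_, rfl⟩
  rw [← hvt]
  have e1 : (n1 v th (A' * vt) / n0 v - 1) * n0 v = n1 v th (A' * vt) - n0 v := by
    field_simp
  rw [e1]
  have gy := gr_yn v th (A' * vt)
  have gMy := gr_Mi (gr_neg gy)
  have f1 : Gr (fun x => Mi (-(v * x)) * Mi (-yn v th (A' * vt) x)) := gr_mul (gr_e v) gMy
  have f2 : Gr (fun x => Mi (-(v * x)) ^ 2) := gr_pow (gr_e v) 2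
  have f3 : Gr (fun x => Md (-(v * x)) * (v * x) * Mi (-(v * x))) :=
    gr_mul (gr_mul (gr_g v) (gr_u v)) (gr_e v)
  have f4 : Gr (fun x => Md (-(v * x)) * Mi (-(v * x)) ^ 2) := gr_mul (gr_g v) f2
  have f5 : Gr (fun x => Mi (-(v * x)) * (v * x + A' * Mi (-(v * x))) ^ 2) :=
    gr_mul (gr_e v) (gr_pow (gr_add (gr_u v) (gr_mul (gr_const A') (gr_e v))) 2)
  have z0 : Gr (fun _ => (0 : ℝ)) := gr_const 0
  have key : n1 v th (A' * vt) - n0 v + vt * (w2 v + A' * w3 v) =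
      GE (fun x => 1 * (Mi (-(v * x)) * Mi (-yn v th (A' * vt) x)) +
        ((-1) * Mi (-(v * x)) ^ 2 + (vt * (Md (-(v * x)) * (v * x) * Mi (-(v * x))) +
          ((A' * vt) * (Md (-(v * x)) * Mi (-(v * x)) ^ 2) + 0)))) := by
    rw [GE_am 1 f1 (gr_am (-1) f2 (gr_am vt f3 (gr_am (A' * vt) f4 z0))),
      GE_am (-1) f2 (gr_am vt f3 (gr_am (A' * vt) f4 z0)),
      GE_am vt f3 (gr_am (A' * vt) f4 z0), GE_am (A' * vt) f4 z0, GE_const]
    unfold n1 n0 w2 w3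
    ring
  rw [key]
  have hX : G * vt ^ 2 * X1 v A' / 2 =
      GE (fun x => (G * vt ^ 2 / 2) * (Mi (-(v * x)) * (v * x + A' * Mi (-(v * x))) ^ 2)) := by
    rw [GE_mul]
    unfold X1
    ring
  rw [hX]
  refine GE_abs_le (gr_am 1 f1 (gr_am (-1) f2 (gr_am vt f3 (gr_am (A' * vt) f4 z0))))
    (gr_mul (gr_const _) f5) fun x => ?_
  have hy : yn v th (A' * vt) x = v * x + vt * (v * x + A' * Mi (-(v * x))) := by
    unfold yn
    rw [show th = vt + 1 by linarith]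
    ring
  have ht := Mi_taylor hG (v * x) (vt * (v * x + A' * Mi (-(v * x))))
  have he := Mi_pos (-(v * x))
  rw [hy]
  generalize Mi (-(v * x + vt * (v * x + A' * Mi (-(v * x))))) = my at ht ⊢
  generalize Md (-(v * x)) = g at ht ⊢
  generalize Mi (-(v * x)) = e at ht he ⊢
  have h1 : 1 * (e * my) + (-1 * e ^ 2 + (vt * (g * (v * x) * e) + (A' * vt * (g * e ^ 2) + 0))) =
      e * (my - e + g * (vt * (v * x + A' * e))) := by ring
  rw [h1, abs_mul, abs_of_pos he]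
  have h2 := mul_le_mul_of_nonneg_left ht he.le
  refine h2.trans (le_of_eq ?_)
  ring

private theorem JN_spin {ψ l sg : ℝ} (hψ : 0 < ψ) :
    Sp1 (Real.sqrt ψ) l (sg + 1) ≤ (GE fun x => lc (Real.sqrt ψ * x)) + l * qp ψ
      + sg * (ψ * (1 - qp ψ))
      + (l ^ 2 * m1 (Real.sqrt ψ) + 2 * l * sg * m2 (Real.sqrt ψ)
            + sg ^ 2 * m3 (Real.sqrt ψ)) / 2
        + e3 (Real.sqrt ψ) l sg / 6 := by
  have hh := E_h_tanh hψ
  have hq : (GE fun x => Real.tanh (Real.sqrt ψ * x) ^ 2) = qp ψ := rfl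
  generalize Real.sqrt ψ = r at hh hq ⊢
  have gh : Gr (fun x => r * x) := gr_u r
  have gm : Gr (fun x => Real.tanh (r * x)) := gr_tanh gh
  have gs : Gr (fun x => 1 - Real.tanh (r * x) ^ 2) := gr_sub (gr_const 1) (gr_pow gm 2)
  have f1 : Gr (fun x => lc (r * x)) := gr_lc gh
  have f2 : Gr (fun x => Real.tanh (r * x) ^ 2) := gr_pow gm 2
  have f3 : Gr (fun x => r * x * Real.tanh (r * x)) := gr_mul gh gm
  have f4 : Gr (fun x => (1 - Real.tanh (r * x) ^ 2) * Real.tanh (r * x) ^ 2) := gr_mul gs f2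
  have f5 : Gr (fun x => (1 - Real.tanh (r * x) ^ 2) * Real.tanh (r * x) * (r * x)) :=
    gr_mul (gr_mul gs gm) gh
  have f6 : Gr (fun x => (1 - Real.tanh (r * x) ^ 2) * (r * x) ^ 2) := gr_mul gs (gr_pow gh 2)
  have f7 : Gr (fun x => |l * Real.tanh (r * x) + sg * (r * x)| ^ 3) :=
    gr_pow (gr_abs (gr_add (gr_mul (gr_const l) gm) (gr_mul (gr_const sg) gh))) 3
  have f8 : Gr (fun x => lc (l * Real.tanh (r * x) + (sg + 1) * (r * x))) :=
    gr_lc (gr_add (gr_mul (gr_const l) gm) (gr_mul (gr_const (sg + 1)) gh))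
  have z0 : Gr (fun _ => (0 : ℝ)) := gr_const 0
  have r7 := gr_am (1 / 6) f7 z0
  have r6 := gr_am (sg ^ 2 / 2) f6 r7
  have r5 := gr_am (l * sg) f5 r6
  have r4 := gr_am (l ^ 2 / 2) f4 r5
  have r3 := gr_am sg f3 r4
  have r2 := gr_am l f2 r3
  have r1 := gr_am 1 f1 r2
  have key := GE_mono (gr_int f8) (gr_int r1) fun x => by
    have h := lc_taylor (r * x) (l * Real.tanh (r * x) + sg * (r * x))
    have h1 : r * x + (l * Real.tanh (r * x) + sg * (r * x)) =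
        l * Real.tanh (r * x) + (sg + 1) * (r * x) := by ring
    rw [h1] at h
    refine h.trans (le_of_eq ?_)
    ring
  rw [GE_am 1 f1 r2, GE_am l f2 r3, GE_am sg f3 r4, GE_am (l ^ 2 / 2) f4 r5, GE_am (l * sg) f5 r6,
    GE_am (sg ^ 2 / 2) f6 r7, GE_am (1 / 6) f7 z0, GE_const, hh, hq] at key
  have hT : Sp1 r l (sg + 1) = GE fun x => lc (l * Real.tanh (r * x) + (sg + 1) * (r * x)) := rfl
  rw [hT]
  unfold m1 m2 m3 e3
  refine key.trans (le_of_eq ?_)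
  ring

private theorem JN_con {v th vt A' G : ℝ} (hG : ∀ z, M2 z ≤ G) (hvt : vt = th - 1) :
    n3 v th (A' * vt) + th * n2 v th (A' * vt) ≤
      (GE fun x => Real.log (Ph (-(v * x)))) + vt * (GE fun x => v * x * Mi (-(v * x)))
        - vt ^ 2 * w1 v / 2 + (A' * vt) ^ 2 * w3 v / 2
        + G * |vt| ^ 3 * (X2 v A' / 2 + X3 v A' / 3) := by
  have gy := gr_yn v th (A' * vt)
  have gMy := gr_Mi (gr_neg gy)
  have gLy := gr_logPh (gr_neg gy)
  have d1 : Gr (fun x => Real.log (Ph (-yn v th (A' * vt) x))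
      - yn v th (A' * vt) x * Mi (-yn v th (A' * vt) x)) := gr_sub gLy (gr_mul gy gMy)
  have d2 : Gr (fun x => v * x * Mi (-yn v th (A' * vt) x)) := gr_mul (gr_u v) gMy
  have hl : n3 v th (A' * vt) + th * n2 v th (A' * vt) =
      GE (fun x => th * (v * x * Mi (-yn v th (A' * vt) x)) +
        (Real.log (Ph (-yn v th (A' * vt) x))
          - yn v th (A' * vt) x * Mi (-yn v th (A' * vt) x))) := by
    rw [GE_am th d2 d1]
    unfold n3 n2
    ring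
  have ge := gr_e v
  have gu := gr_u v
  have gg := gr_g v
  have ga : Gr (fun x => v * x + A' * Mi (-(v * x))) := gr_add gu (gr_mul (gr_const A') ge)
  have f1 : Gr (fun x => Real.log (Ph (-(v * x)))) := gr_logPh (gr_neg gu)
  have f2 : Gr (fun x => v * x * Mi (-(v * x))) := gr_mul gu ge
  have f3 : Gr (fun x => Md (-(v * x)) * (v * x) ^ 2) := gr_mul gg (gr_pow gu 2)
  have f4 : Gr (fun x => Md (-(v * x)) * Mi (-(v * x)) ^ 2) := gr_mul gg (gr_pow ge 2)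
  have f5 : Gr (fun x => |v * x| * (v * x + A' * Mi (-(v * x))) ^ 2) :=
    gr_mul (gr_abs gu) (gr_pow ga 2)
  have f6 : Gr (fun x => |v * x + A' * Mi (-(v * x))| ^ 3) := gr_pow (gr_abs ga) 3
  have z0 : Gr (fun _ => (0 : ℝ)) := gr_const 0
  have r6 := gr_am (G * |vt| ^ 3 / 3) f6 z0
  have r5 := gr_am (G * |vt| ^ 3 / 2) f5 r6
  have r4 := gr_am ((A' * vt) ^ 2 / 2) f4 r5
  have r3 := gr_am (-(vt ^ 2 / 2)) f3 r4
  have r2 := gr_am vt f2 r3
  have r1 := gr_am 1 f1 r2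
  rw [hl]
  have key := GE_mono (gr_int (gr_am th d2 d1)) (gr_int r1) fun x => by
    have hy : yn v th (A' * vt) x = v * x + vt * (v * x + A' * Mi (-(v * x))) := by
      unfold yn
      rw [show th = vt + 1 by linarith]
      ring
    have h := LL_taylor hG (v * x) (vt * (v * x)) (vt * (v * x + A' * Mi (-(v * x))))
    rw [← hy] at h
    have h1 : th * (v * x * Mi (-yn v th (A' * vt) x)) +
        (Real.log (Ph (-yn v th (A' * vt) x))
          - yn v th (A' * vt) x * Mi (-yn v th (A' * vt) x)) =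
        Real.log (Ph (-yn v th (A' * vt) x)) +
          (vt * (v * x) - vt * (v * x + A' * Mi (-(v * x)))) * Mi (-yn v th (A' * vt) x) := by
      have h2 : th * (v * x) - yn v th (A' * vt) x =
          vt * (v * x) - vt * (v * x + A' * Mi (-(v * x))) := by
        rw [hy, show th = vt + 1 by linarith]
        ring
      rw [← h2]
      ring
    rw [h1]
    refine h.trans (le_of_eq ?_)
    have a1 : |vt * (v * x)| = |vt| * |v * x| := abs_mul _ _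
    have a2 : |vt * (v * x + A' * Mi (-(v * x)))| = |vt| * |v * x + A' * Mi (-(v * x))| := abs_mul _ _
    have a3 : vt ^ 2 = |vt| ^ 2 := (sq_abs vt).symm
    have a4 : |vt| ^ 3 * ((v * x + A' * Mi (-(v * x))) ^ 2 * |v * x|) =
        |vt| * |v * x| * (vt * (v * x + A' * Mi (-(v * x)))) ^ 2 := by
      rw [mul_pow vt, a3]
      ring
    have a5 : G * (|vt * (v * x)| * (vt * (v * x + A' * Mi (-(v * x)))) ^ 2 / 2
        + |vt * (v * x + A' * Mi (-(v * x)))| ^ 3 / 3) =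
        G * |vt| ^ 3 / 2 * (|v * x| * (v * x + A' * Mi (-(v * x))) ^ 2) +
          G * |vt| ^ 3 / 3 * |v * x + A' * Mi (-(v * x))| ^ 3 := by
      rw [a1, a2, ← a4]
      ring
    rw [a5]
    ring
  refine key.trans (le_of_eq ?_)
  rw [GE_am 1 f1 r2, GE_am vt f2 r3, GE_am _ f3 r4, GE_am _ f4 r5, GE_am _ f5 r6,
    GE_am _ f6 z0, GE_const]
  unfold w1 w3 X2 X3
  ring

theorem JN_window {ψ rho l A' G T vt k sg : ℝ} (hψ : 0 < ψ) (hr : rho ^ 2 * qp ψ < 1)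
    (hGG : GG 0 ψ = 0) (hG : ∀ z, M2 z ≤ G)
    (hT : T = Tr ψ rho) (hvt : vt = rho * T - 1)
    (hk : k = n1 (vv ψ) (rho * T) (A' * vt) / n0 (vv ψ) - 1) (hsg : sg = (1 + k) * T - 1) :
    JN ψ rho l (rho * T) (A' * vt)
      ≤ ψ * (1 - qp ψ) * ((T - 1 - qp ψ * vt) + k * (T - 1) - k ^ 2 / 2)
        - l * qp ψ * (rho - 1)
        + (l ^ 2 * m1 (Real.sqrt ψ) + 2 * l * sg * m2 (Real.sqrt ψ)
            + sg ^ 2 * m3 (Real.sqrt ψ)) / 2
        + e3 (Real.sqrt ψ) l sg / 6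
        - al 0 0 ψ * vt ^ 2 * w1 (vv ψ) / 2 + al 0 0 ψ * (A' * vt) ^ 2 * w3 (vv ψ) / 2
        + al 0 0 ψ * G * |vt| ^ 3 * (X2 (vv ψ) A' / 2 + X3 (vv ψ) A' / 3) := by
  have hal : 0 < al 0 0 ψ := al_pos le_rfl hψ
  have hk1 : n1 (vv ψ) (rho * T) (A' * vt) / n0 (vv ψ) = 1 + k := by
    rw [hk]
    ring
  have hs : (1 + k) * T = sg + 1 := by
    rw [hsg]
    ring
  have hJ : JN ψ rho l (rho * T) (A' * vt) = Sp1 (Real.sqrt ψ) l (sg + 1) - l * rho * qp ψ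
      - (1 + k) ^ 2 * (1 - qp ψ) * ψ / 2
      + al 0 0 ψ * (n3 (vv ψ) (rho * T) (A' * vt) + rho * T * n2 (vv ψ) (rho * T) (A' * vt)) := by
    unfold JN
    rw [← hT, hk1, hs]
    ring
  have h1 := JN_spin (l := l) (sg := sg) hψ
  have h2 := mul_le_mul_of_nonneg_left (JN_con (v := vv ψ) (th := rho * T) (vt := vt) (A' := A')
    hG hvt) hal.le
  have h3 := al_ue hψ
  have h4 : (GE fun x => lc (Real.sqrt ψ * x))
      + al 0 0 ψ * (GE fun x => Real.log (Ph (-(vv ψ * x)))) = ψ * (1 - qp ψ) / 2 := by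
    have h5 : GG 0 ψ = -ψ * (1 - qp ψ) / 2 + (GE fun x => lc (Real.sqrt ψ * x))
        + al 0 0 ψ * (GE fun x => Real.log (Ph (-(vv ψ * x)))) := by
      unfold GG
      congr 3
      funext x
      rw [arg_eq]
    rw [hGG] at h5
    linarith
  rw [hJ]
  have h6 : al 0 0 ψ * ((GE fun x => Real.log (Ph (-(vv ψ * x))))
        + vt * (GE fun x => vv ψ * x * Mi (-(vv ψ * x)))
        - vt ^ 2 * w1 (vv ψ) / 2 + (A' * vt) ^ 2 * w3 (vv ψ) / 2
        + G * |vt| ^ 3 * (X2 (vv ψ) A' / 2 + X3 (vv ψ) A' / 3)) =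
      al 0 0 ψ * (GE fun x => Real.log (Ph (-(vv ψ * x))))
        + vt * (al 0 0 ψ * (GE fun x => vv ψ * x * Mi (-(vv ψ * x))))
        - al 0 0 ψ * vt ^ 2 * w1 (vv ψ) / 2 + al 0 0 ψ * (A' * vt) ^ 2 * w3 (vv ψ) / 2
        + al 0 0 ψ * G * |vt| ^ 3 * (X2 (vv ψ) A' / 2 + X3 (vv ψ) A' / 3) := by ring
  rw [h6, h3] at h2
  have h7 : ψ * (1 - qp ψ) * ((T - 1 - qp ψ * vt) + k * (T - 1) - k ^ 2 / 2)
        - l * qp ψ * (rho - 1) =
      ψ * (1 - qp ψ) / 2 + l * qp ψ + sg * (ψ * (1 - qp ψ)) - l * rho * qp ψ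
        - (1 + k) ^ 2 * (1 - qp ψ) * ψ / 2 + vt * -(qp ψ * ψ * (1 - qp ψ)) := by
    rw [hsg]
    ring
  rw [h7]
  linarith

theorem e3_homog (r l s c : ℝ) : e3 r (l * c) (s * c) = |c| ^ 3 * e3 r l s := by
  unfold e3
  rw [← GE_mul]
  congr 1
  funext x
  rw [← mul_pow, ← abs_mul]
  congr 2
  ring

/-- `T² = 1 - q + q (ρT)²` -/
theorem Tr_rel {ψ rho : ℝ} (hψ : 0 < ψ) (hr : rho ^ 2 * qp ψ < 1) :
    Tr ψ rho ^ 2 = 1 - qp ψ + qp ψ * (rho * Tr ψ rho) ^ 2 := by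
  have h := Tr_sq hψ hr
  linear_combination h

end

end Pool.Agent.IP49
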