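import Pool.Agent.IP49.NUX
import Pool.Agent.IP49N.NATd
import Pool.Agent.IP49N.NWv
import Pool.Agent.IP49N.NWr
import Pool.Agent.IP49N.NWs

/-! IP49, part N, (U*) side (helper72): the data `WData ψ` of the window. -/

set_option autoImplicit false
open MeasureTheory ProbabilityTheory

namespace Pool.Agent.IP49

theorem integrable_Gr {f : ℝ → ℝ} (hf : Continuous f) {C : ℝ} {k : ℕ} (h : IP49N.Gr f C k) :
    Integrable f (gaussianReal 0 1) := by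
  refine integrable_of_growth hf.measurable (C := C * 2 ^ k) (k := k) fun x => ?_
  refine (h x).trans ?_
  rw [mul_assoc, ← mul_pow]
  apply mul_le_mul_of_nonneg_left _ h.nn
  apply pow_le_pow_left₀ (by positivity)
  nlinarith [sq_nonneg (|x| - 1), sq_abs x]

/-- the majorant `|y|³ ≤ (3/2 y² + y⁴/(3/2))/2` -/
theorem abs3_le4 (y : ℝ) : |y| ^ 3 ≤ 3 / 4 * y ^ 2 + 1 / 3 * y ^ 4 := by
  have h : 3 / 4 * y ^ 2 + 1 / 3 * y ^ 4 - |y| ^ 3 = |y| ^ 2 * (|y| - 3 / 2) ^ 2 / 3 := by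
    have h2 := sq_abs y
    have h4 : y ^ 4 = |y| ^ 4 := by
      rw [show |y| ^ 4 = (|y| ^ 2) ^ 2 by ring, h2]; ring
    rw [← h2, h4]; ring
  have : 0 ≤ |y| ^ 2 * (|y| - 3 / 2) ^ 2 / 3 := by positivity
  linarith

/-- Taylor majorant of degree 8 (`√` expanded to order 3 at `9/4`) -/
theorem abs3_le8 (y : ℝ) :
    |y| ^ 3 ≤ 2 / 243 * y ^ 8 - 5 / 54 * y ^ 6 + 5 / 8 * y ^ 4 + 15 / 32 * y ^ 2 := by
  have h2 := sq_abs y
  have h : 2 / 243 * y ^ 8 - 5 / 54 * y ^ 6 + 5 / 8 * y ^ 4 + 15 / 32 * y ^ 2 - |y| ^ 3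
      = |y| ^ 2 * (|y| - 3 / 2) ^ 4 * (|y| ^ 2 + 6 * |y| + 45 / 4) * (2 / 243) := by
    have h4 : y ^ 4 = |y| ^ 4 := by
      rw [show |y| ^ 4 = (|y| ^ 2) ^ 2 by ring, h2]; ring
    have h6 : y ^ 6 = |y| ^ 6 := by
      rw [show |y| ^ 6 = (|y| ^ 2) ^ 3 by ring, h2]; ring
    have h8 : y ^ 8 = |y| ^ 8 := by
      rw [show |y| ^ 8 = (|y| ^ 2) ^ 4 by ring, h2]; ring
    rw [h8, h6, h4, ← h2]; ring
  have h3 := abs_nonneg y
  have : 0 ≤ |y| ^ 2 * (|y| - 3 / 2) ^ 4 * (|y| ^ 2 + 6 * |y| + 45 / 4) * (2 / 243) := by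
    positivity
  linarith

theorem gr_y {r l s : ℝ} (hr : |r| ≤ 2) (hl : |l| ≤ 5 / 2) (hs : |s| ≤ 1) :
    IP49N.Gr (fun x => l * Real.tanh (r * x) + s * (r * x)) (5 / 2 * 1 + 1 * (2 * 1)) 1 :=
  (IP49N.Gr.add (IP49N.Gr.mul (IP49N.Gr.par hl) (IP49N.Gr.tanh _))
    (IP49N.Gr.mul (IP49N.Gr.par hs) (IP49N.Gr.mul (IP49N.Gr.par hr) IP49N.Gr.id))).mono le_rfl
    (by norm_num)

theorem e3_le_of_convex {r M : ℝ} (hr : |r| ≤ 2)
    (ha : e3 r (5 / 2) (-43 / 100) ≤ M) (hb : e3 r (5 / 2) (-8 / 25) ≤ M) {s : ℝ}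
    (h1 : -43 / 100 ≤ s) (h2 : s ≤ -8 / 25) : e3 r (5 / 2) s ≤ M := by
  have hl : |(5 / 2 : ℝ)| ≤ 5 / 2 := by rw [abs_of_pos (by norm_num)]
  have hc : ∀ s : ℝ, Continuous fun x : ℝ => |5 / 2 * Real.tanh (r * x) + s * (r * x)| ^ 3 := by
    intro s
    fun_prop
  have hi : ∀ s : ℝ, |s| ≤ 1 → Integrable
      (fun x : ℝ => |5 / 2 * Real.tanh (r * x) + s * (r * x)| ^ 3) (gaussianReal 0 1) :=
    fun s hs => integrable_Gr (hc s) ((gr_y hr hl hs).abs.pow 3)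
  set t : ℝ := (s + 43 / 100) / (11 / 100) with ht
  have ht0 : 0 ≤ t := by rw [ht]; apply div_nonneg <;> linarith
  have ht1 : t ≤ 1 := by rw [ht, div_le_one (by norm_num)]; linarith
  have hst : s = (1 - t) * (-43 / 100) + t * (-8 / 25) := by rw [ht]; ring
  have ia := hi (-43 / 100) (by rw [abs_le]; constructor <;> norm_num)
  have ib := hi (-8 / 25) (by rw [abs_le]; constructor <;> norm_num)
  have is := hi s (by rw [abs_le]; constructor <;> linarith)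
  have hconv := (convexOn_pow (𝕜 := ℝ) 3)
  have hpt : ∀ x : ℝ, |5 / 2 * Real.tanh (r * x) + s * (r * x)| ^ 3
      ≤ (1 - t) * |5 / 2 * Real.tanh (r * x) + (-43 / 100) * (r * x)| ^ 3
        + t * |5 / 2 * Real.tanh (r * x) + (-8 / 25) * (r * x)| ^ 3 := by
    intro x
    set A := 5 / 2 * Real.tanh (r * x) + (-43 / 100) * (r * x)
    set B := 5 / 2 * Real.tanh (r * x) + (-8 / 25) * (r * x)
    have e : 5 / 2 * Real.tanh (r * x) + s * (r * x) = (1 - t) * A + t * B := by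
      rw [hst]; ring
    have h3 : |5 / 2 * Real.tanh (r * x) + s * (r * x)| ≤ (1 - t) * |A| + t * |B| := by
      rw [e]
      refine (abs_add_le _ _).trans ?_
      rw [abs_mul, abs_mul, abs_of_nonneg ht0, abs_of_nonneg (by linarith : 0 ≤ 1 - t)]
    have h4 := hconv.2 (abs_nonneg A) (abs_nonneg B) (by linarith : 0 ≤ 1 - t) ht0 (by ring)
    simp only [smul_eq_mul] at h4
    exact (pow_le_pow_left₀ (abs_nonneg _) h3 3).trans h4
  have hm : e3 r (5 / 2) s ≤ (1 - t) * e3 r (5 / 2) (-43 / 100) + t * e3 r (5 / 2) (-8 / 25) := by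
    unfold e3
    rw [← GE_mul, ← GE_mul, ← GE_add (ia.const_mul _) (ib.const_mul _)]
    exact GE_mono is ((ia.const_mul _).add (ib.const_mul _)) hpt
  nlinarith

theorem wdata {ψ : ℝ} (h1 : psi1 ≤ ψ) (h2 : ψ ≤ psi2) (hG : GG 0 ψ = 0)
    (hM : ∀ z, M2 z ≤ 0.35) : WData ψ := by
  have hv := IP49N.box_v h1 h2
  have hr := IP49N.box_r h1 h2
  obtain ⟨q1, q2⟩ := IP49N.box_q h1 h2
  obtain ⟨⟨n0a, n0b⟩, -, -⟩ := IP49N.box_EX1 h1 h2
  obtain ⟨⟨w1a, w1b⟩, ⟨w2a, w2b⟩, ⟨w3a, w3b⟩, ⟨x1a, x1b⟩, ⟨x2a, x2b⟩, ⟨x3a, x3b⟩⟩ := IP49N.NWv_all hv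
  obtain ⟨⟨m1a, m1b⟩, ⟨m2a, m2b⟩, ⟨m3a, m3b⟩, ⟨ea, eb⟩⟩ := IP49N.NWr_all hr
  obtain ⟨fa, fb⟩ := IP49N.NWs_all hr
  have bv : |vv ψ| ≤ 2 := by simpa using hv.abs_le (K := 2) (by decide +kernel)
  have br : |Real.sqrt ψ| ≤ 2 := by simpa using hr.abs_le (K := 2) (by decide +kernel)
  have e18 : (1.8 : ℝ) = 9 / 5 := by norm_num
  have e25 : (2.5 : ℝ) = 5 / 2 := by norm_num
  have gM : IP49N.Gr (fun x => Mi (-(vv ψ * x))) (2 * 1 + 1) 1 :=
    (IP49N.Gr.Mi (IP49N.Gr.neg (IP49N.Gr.mul (IP49N.Gr.par bv) IP49N.Gr.id))).mono le_rfl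
      (by norm_num)
  have gu : IP49N.Gr (fun x => vv ψ * x) (2 * 1) 1 :=
    (IP49N.Gr.mul (IP49N.Gr.par bv) IP49N.Gr.id).mono le_rfl (by norm_num)
  have gy : IP49N.Gr (fun x => vv ψ * x + 9 / 5 * Mi (-(vv ψ * x))) (2 * 1 + 9 / 5 * (2 * 1 + 1)) 1 :=
    (IP49N.Gr.add gu (IP49N.Gr.mul (IP49N.Gr.num (by norm_num)) gM)).mono le_rfl (by norm_num)
  have cy : Continuous fun x : ℝ => vv ψ * x + 9 / 5 * Mi (-(vv ψ * x)) := by fun_prop
  have cu : Continuous fun x : ℝ => vv ψ * x := by fun_prop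
  have hX1 : X1 (vv ψ) 1.8 ≤ (3.12 : ℝ) := by
    rw [e18]
    unfold X1
    refine x1b.trans ?_
    norm_num
  have hX2 : X2 (vv ψ) 1.8 ≤ (4.265 : ℝ) := by
    rw [e18]
    unfold X2
    refine le_trans (GE_mono ?_ ?_ fun x => ?_) (x2b.trans (by norm_num))
    · exact integrable_Gr (cu.abs.mul (cy.pow 2)) (gu.abs.mul (gy.pow 2))
    · exact integrable_Gr (((continuous_const).add (continuous_const.mul (cu.pow 2))).mul
        (cy.pow 2)) (IP49N.Gr.mul (IP49N.Gr.add (IP49N.Gr.num (by norm_num))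
          (IP49N.Gr.mul (IP49N.Gr.num (by norm_num)) (gu.pow 2))) (gy.pow 2))
    · apply mul_le_mul_of_nonneg_right _ (sq_nonneg _)
      have := sq_abs (vv ψ * x)
      nlinarith [sq_nonneg (|vv ψ * x| - 3 / 2)]
  have hX3 : X3 (vv ψ) 1.8 ≤ (5.355 : ℝ) := by
    rw [e18]
    have e : X3 (vv ψ) (9 / 5) = GE fun x => (vv ψ * x + 9 / 5 * Mi (-(vv ψ * x))) ^ 3 := by
      unfold X3
      congr 1
      funext x
      have p1 := lt_Mi (-(vv ψ * x))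
      have p2 := Mi_pos (-(vv ψ * x))
      rw [abs_of_pos (by linarith)]
    rw [e]
    refine x3b.trans ?_
    norm_num
  have hea : e3 (Real.sqrt ψ) (5 / 2) (-43 / 100) ≤ 3.18 := by
    unfold e3
    have g0 : IP49N.Gr (fun x => 5 / 2 * Real.tanh (Real.sqrt ψ * x) - 43 / 100 * (Real.sqrt ψ * x))
        (5 / 2 * 1 + 43 / 100 * (2 * 1)) 1 :=
      (IP49N.Gr.sub (IP49N.Gr.mul (IP49N.Gr.num (by norm_num)) (IP49N.Gr.tanh _))
          (IP49N.Gr.mul (IP49N.Gr.num (by norm_num)) (IP49N.Gr.mul (IP49N.Gr.par br)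
            IP49N.Gr.id))).mono le_rfl (by norm_num)
    refine le_trans (GE_mono ?_ ?_ fun x => ?_) (eb.trans (by norm_num))
    · exact integrable_Gr (by fun_prop) ((gr_y br (by rw [abs_of_pos (by norm_num)])
        (by rw [abs_le]; constructor <;> norm_num)).abs.pow 3)
    · exact integrable_Gr (by fun_prop) (IP49N.Gr.add
        (IP49N.Gr.mul (IP49N.Gr.num (by norm_num)) (g0.pow 2))
        (IP49N.Gr.mul (IP49N.Gr.num (by norm_num)) (g0.pow 4)))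
    · have h := abs3_le4 (5 / 2 * Real.tanh (Real.sqrt ψ * x) + -43 / 100 * (Real.sqrt ψ * x))
      have e : 5 / 2 * Real.tanh (Real.sqrt ψ * x) + -43 / 100 * (Real.sqrt ψ * x)
          = 5 / 2 * Real.tanh (Real.sqrt ψ * x) - 43 / 100 * (Real.sqrt ψ * x) := by ring
      rw [e] at h ⊢
      exact h
  have heb : e3 (Real.sqrt ψ) (5 / 2) (-8 / 25) ≤ 3.18 := by
    unfold e3
    have g0 : IP49N.Gr (fun x => 5 / 2 * Real.tanh (Real.sqrt ψ * x) - 8 / 25 * (Real.sqrt ψ * x))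
        (5 / 2 * 1 + 8 / 25 * (2 * 1)) 1 :=
      (IP49N.Gr.sub (IP49N.Gr.mul (IP49N.Gr.num (by norm_num)) (IP49N.Gr.tanh _))
          (IP49N.Gr.mul (IP49N.Gr.num (by norm_num)) (IP49N.Gr.mul (IP49N.Gr.par br)
            IP49N.Gr.id))).mono le_rfl (by norm_num)
    refine le_trans (GE_mono ?_ ?_ fun x => ?_) (fb.trans (by norm_num))
    · exact integrable_Gr (by fun_prop) ((gr_y br (by rw [abs_of_pos (by norm_num)])
        (by rw [abs_le]; constructor <;> norm_num)).abs.pow 3)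
    · refine integrable_Gr (by fun_prop) (IP49N.Gr.add (IP49N.Gr.add (IP49N.Gr.sub
        (IP49N.Gr.mul (IP49N.Gr.num (by norm_num)) (g0.pow 8))
        (IP49N.Gr.mul (IP49N.Gr.num (by norm_num)) (g0.pow 6)))
        (IP49N.Gr.mul (IP49N.Gr.num (by norm_num)) (g0.pow 4)))
        (IP49N.Gr.mul (IP49N.Gr.num (by norm_num)) (g0.pow 2)))
    · have h := abs3_le8 (5 / 2 * Real.tanh (Real.sqrt ψ * x) + -8 / 25 * (Real.sqrt ψ * x))
      have e : 5 / 2 * Real.tanh (Real.sqrt ψ * x) + -8 / 25 * (Real.sqrt ψ * x)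
          = 5 / 2 * Real.tanh (Real.sqrt ψ * x) - 8 / 25 * (Real.sqrt ψ * x) := by ring
      rw [e] at h ⊢
      exact h
  refine ⟨?_, ?_, ?_, ?_, ?_, ?_, ?_, ?_, ?_, ?_, ?_, ?_, ?_, ?_, hX1, hX2, hX3, ?_, hM, hG⟩
  · unfold psi1 at h1; norm_num at h1 ⊢; linarith
  · unfold psi2 at h2; norm_num at h2 ⊢; linarith
  · refine le_trans ?_ q1; norm_num
  · refine q2.trans ?_; norm_num
  · refine le_trans ?_ n0a; norm_num
  · refine n0b.trans ?_; norm_num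
  · refine le_trans ?_ w1a; norm_num
  · refine le_trans ?_ w2a; norm_num
  · refine w2b.trans ?_; norm_num
  · refine le_trans ?_ w3a; norm_num
  · refine w3b.trans ?_; norm_num
  · refine m1b.trans ?_; norm_num
  · refine le_trans ?_ m2a; norm_num
  · refine m3b.trans ?_; norm_num
  · intro s hs1 hs2
    rw [e25]
    exact e3_le_of_convex br hea heb (by norm_num at hs1 ⊢; linarith) (by norm_num at hs2 ⊢; linarith)

end Pool.Agent.IP49
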