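import Pool.Agent.IP49.NUW

/-!
IP49, part N, (U*) side (helper60): the window `ρ ∈ [0.982, 1.018]` from numerical bounds on the
second order constants.
-/

set_option autoImplicit false
open MeasureTheory ProbabilityTheory Filter Topology

namespace Pool.Agent.IP49

/-- numerical data for the window -/
structure WData (ψ : ℝ) : Prop where
  hp1 : (2.57632 : ℝ) ≤ ψ
  hp2 : ψ ≤ (2.57638 : ℝ)
  hq1 : (0.563945 : ℝ) ≤ qp ψ
  hq2 : qp ψ ≤ (0.563953 : ℝ)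
  hn0a : (1.34847 : ℝ) ≤ n0 (vv ψ)
  hn0b : n0 (vv ψ) ≤ (1.34856 : ℝ)
  hw1 : (0.6810 : ℝ) ≤ w1 (vv ψ)
  hw2a : (-0.6902 : ℝ) ≤ w2 (vv ψ)
  hw2b : w2 (vv ψ) ≤ (-0.6900 : ℝ)
  hw3a : (1.0873 : ℝ) ≤ w3 (vv ψ)
  hw3b : w3 (vv ψ) ≤ (1.0876 : ℝ)
  hm1 : m1 (Real.sqrt ψ) ≤ (0.12342 : ℝ)
  hm2 : (0.1699 : ℝ) ≤ m2 (Real.sqrt ψ)
  hm3 : m3 (Real.sqrt ψ) ≤ (0.24768 : ℝ)
  hX1 : X1 (vv ψ) 1.8 ≤ (3.12 : ℝ)
  hX2 : X2 (vv ψ) 1.8 ≤ (4.265 : ℝ)
  hX3 : X3 (vv ψ) 1.8 ≤ (5.355 : ℝ)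
  he3 : ∀ s : ℝ, -0.43 ≤ s → s ≤ -0.32 → e3 (Real.sqrt ψ) 2.5 s ≤ (3.18 : ℝ)
  hM2 : ∀ z : ℝ, M2 z ≤ 0.35
  hGG : GG 0 ψ = 0

/-- the normalised quadratic form -/
noncomputable def Gam (ψ q T vt t k s M₁ M₂ M₃ W₁ W₃ a E₃ Y₂ Y₃ : ℝ) : ℝ :=
  ψ * (1 - q) * (q * (1 - q) / (T + 1 + q * vt) + k * t - k ^ 2 / 2)
    - 2.5 * q * (1 - t) / T
    + (2.5 ^ 2 * M₁ + 2 * 2.5 * s * M₂ + s ^ 2 * M₃) / 2
    - a * W₁ / 2 + a * 1.8 ^ 2 * W₃ / 2
    + |vt| * (E₃ / 6 + a * 0.35 * (Y₂ / 2 + Y₃ / 3))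

theorem nux_psiq {ψ q : ℝ} (hp1 : (2.57632 : ℝ) ≤ ψ) (hp2 : ψ ≤ (2.57638 : ℝ))
    (hq1 : (0.563945 : ℝ) ≤ q) (hq2 : q ≤ (0.563953 : ℝ)) :
    2.57632 * 0.436047 ≤ ψ * (1 - q) ∧ ψ * (1 - q) ≤ 2.57638 * 0.436055 := by
  constructor
  · exact mul_le_mul hp1 (by linarith) (by norm_num) (by linarith)
  · exact mul_le_mul hp2 (by linarith) (by linarith) (by norm_num)

theorem nux_den {q T vt va Ta : ℝ} (hq1 : (0.563945 : ℝ) ≤ q) (hq2 : q ≤ (0.563953 : ℝ))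
    (hva : va ≤ vt) (hvam : -0.05 ≤ va) (hTa : Ta ≤ T) :
    Ta + 1 + 0.563945 * va - 0.0000005 ≤ T + 1 + q * vt := by
  have h1 : q * va ≤ q * vt := mul_le_mul_of_nonneg_left hva (by linarith)
  have h2 : (q - 0.563945) * (-0.05) ≤ (q - 0.563945) * va :=
    mul_le_mul_of_nonneg_left hvam (by linarith)
  linarith

theorem nux_h1 {P q D D0 : ℝ} (hP : P ≤ 2.57638 * 0.436055) (_hP0 : 0 ≤ P)
    (hq1 : (0.563945 : ℝ) ≤ q) (hq2 : q ≤ (0.563953 : ℝ)) (hD0 : 0 < D0) (hD : D0 ≤ D) :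
    P * (q * (1 - q) / D) ≤ (2.57638 * 0.436055) * (0.563953 * 0.436055 / D0) := by
  have hq : 0 ≤ q * (1 - q) := mul_nonneg (by linarith) (by linarith)
  have hq' : q * (1 - q) ≤ 0.563953 * 0.436055 :=
    mul_le_mul hq2 (by linarith) (by linarith) (by norm_num)
  apply mul_le_mul hP _ (div_nonneg hq (by linarith)) (by norm_num)
  exact div_le_div₀ (by norm_num) hq' hD0 hD

theorem nux_h2 {P k t kb ta : ℝ} (hP : 2.57632 * 0.436047 ≤ P)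
    (hkb : k ≤ kb) (hkb0 : kb ≤ 0) (hta : ta ≤ t) (hta0 : 0 ≤ ta) :
    P * (k * t - k ^ 2 / 2) ≤ (2.57632 * 0.436047) * (kb * ta - kb ^ 2 / 2) := by
  have h1 : k * t ≤ kb * ta := by
    have h1a : k * t ≤ kb * t := mul_le_mul_of_nonneg_right hkb (le_trans hta0 hta)
    have h1b : kb * t ≤ kb * ta := mul_le_mul_of_nonpos_left hta hkb0
    linarith
  have h2 : kb ^ 2 ≤ k ^ 2 := by
    have := mul_nonneg (show (0 : ℝ) ≤ kb - k by linarith) (show (0 : ℝ) ≤ -kb - k by linarith)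
    linarith [this, show (kb - k) * (-kb - k) = k ^ 2 - kb ^ 2 by ring]
  have h3 : kb * ta - kb ^ 2 / 2 ≤ 0 := by
    have := mul_nonneg (show (0 : ℝ) ≤ -kb by linarith) hta0
    have := sq_nonneg kb
    linarith
  have hP0 : 0 ≤ P := by linarith
  calc P * (k * t - k ^ 2 / 2) ≤ P * (kb * ta - kb ^ 2 / 2) :=
        mul_le_mul_of_nonneg_left (by linarith) hP0
    _ ≤ _ := mul_le_mul_of_nonpos_right hP h3

theorem nux_h3 {q t T tb Tb : ℝ} (hq1 : (0.563945 : ℝ) ≤ q) (htb : t ≤ tb) (htb1 : tb ≤ 1)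
    (hT0 : 0 < T) (hTb : T ≤ Tb) :
    2.5 * 0.563945 * (1 - tb) / Tb ≤ 2.5 * q * (1 - t) / T := by
  apply div_le_div₀ _ _ hT0 hTb
  · exact mul_nonneg (by linarith) (by linarith)
  · exact mul_le_mul (by linarith) (by linarith) (by linarith) (by linarith)

theorem nux_h4 {s M sb : ℝ} (hsb : s ≤ sb) (hsb0 : sb ≤ 0) (hM : (0.1699 : ℝ) ≤ M) :
    2 * 2.5 * s * M ≤ 2 * 2.5 * sb * 0.1699 := by
  have h1 : s * M ≤ s * 0.1699 := mul_le_mul_of_nonpos_left hM (by linarith)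
  have h2 : s * 0.1699 ≤ sb * 0.1699 := mul_le_mul_of_nonneg_right hsb (by norm_num)
  linarith

theorem nux_h5 {s M sa : ℝ} (hsa : sa ≤ s) (hs : s ≤ 0) (hM0 : 0 ≤ M)
    (hM : M ≤ (0.24768 : ℝ)) : s ^ 2 * M ≤ sa ^ 2 * 0.24768 := by
  have h2 : s ^ 2 ≤ sa ^ 2 := by
    have := mul_nonneg (show (0 : ℝ) ≤ s - sa by linarith) (show (0 : ℝ) ≤ -s - sa by linarith)
    linarith [this, show (s - sa) * (-s - sa) = sa ^ 2 - s ^ 2 by ring]
  exact mul_le_mul h2 hM hM0 (sq_nonneg _)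

/-- numerical bound of `Gam` on a cell -/
theorem Gam_cell {ψ q T vt t k s M₁ M₂ M₃ W₁ W₃ a E₃ Y₂ Y₃ : ℝ}
    {va av Ta Tb ta tb kb sa sb aa ab : ℝ}
    (hp1 : (2.57632 : ℝ) ≤ ψ) (hp2 : ψ ≤ (2.57638 : ℝ))
    (hq1 : (0.563945 : ℝ) ≤ q) (hq2 : q ≤ (0.563953 : ℝ))
    (hva : va ≤ vt) (hav : |vt| ≤ av) (hvam : -0.05 ≤ va)
    (hTa : Ta ≤ T) (hTb : T ≤ Tb) (hTa0 : (0.9 : ℝ) ≤ Ta)
    (hta : ta ≤ t) (htb : t ≤ tb) (hta0 : 0 ≤ ta) (htb1 : tb ≤ 1)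
    (hkb : k ≤ kb) (hkb0 : kb ≤ 0)
    (hsa : sa ≤ s) (hsb : s ≤ sb) (hsb0 : sb ≤ 0)
    (hM1 : M₁ ≤ (0.12342 : ℝ)) (hM2 : (0.1699 : ℝ) ≤ M₂) (hM3 : M₃ ≤ (0.24768 : ℝ))
    (hM30 : 0 ≤ M₃)
    (hW1 : (0.6810 : ℝ) ≤ W₁) (hW3 : W₃ ≤ (1.0876 : ℝ)) (hW30 : 0 ≤ W₃)
    (haa : aa ≤ a) (hab : a ≤ ab) (haa0 : 0 ≤ aa)
    (hE3 : E₃ ≤ (3.18 : ℝ)) (hY2 : Y₂ ≤ (4.265 : ℝ)) (hY3 : Y₃ ≤ (5.355 : ℝ))
    (hE30 : 0 ≤ E₃) (hY20 : 0 ≤ Y₂) (hY30 : 0 ≤ Y₃) :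
    Gam ψ q T vt t k s M₁ M₂ M₃ W₁ W₃ a E₃ Y₂ Y₃ ≤
      (2.57638 * 0.436055) * (0.563953 * 0.436055 / (Ta + 1 + 0.563945 * va - 0.0000005))
        + (2.57632 * 0.436047) * (kb * ta - kb ^ 2 / 2)
        - 2.5 * 0.563945 * (1 - tb) / Tb
        + (2.5 ^ 2 * 0.12342 + 2 * 2.5 * sb * 0.1699 + sa ^ 2 * 0.24768) / 2
        - aa * 0.6810 / 2 + ab * 1.8 ^ 2 * 1.0876 / 2
        + av * (3.18 / 6 + ab * 0.35 * (4.265 / 2 + 5.355 / 3)) := by
  obtain ⟨hψq1, hψq2⟩ := nux_psiq hp1 hp2 hq1 hq2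
  have hψq0 : 0 ≤ ψ * (1 - q) := le_trans (by norm_num) hψq1
  have hT0 : 0 < T := by linarith
  have hden := nux_den hq1 hq2 hva hvam hTa
  have hden0 : 0 < Ta + 1 + 0.563945 * va - 0.0000005 := by linarith
  have h1 := nux_h1 hψq2 hψq0 hq1 hq2 hden0 hden
  have h2 := nux_h2 hψq1 hkb hkb0 hta hta0
  have h3 := nux_h3 hq1 htb htb1 hT0 hTb
  have h4 := nux_h4 hsb hsb0 hM2
  have h5 := nux_h5 hsa (le_trans hsb hsb0) hM30 hM3
  have ha0 : 0 ≤ a := le_trans haa0 haa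
  have h6 : aa * 0.6810 ≤ a * W₁ := mul_le_mul haa hW1 (by norm_num) ha0
  have h7 : a * W₃ ≤ ab * 1.0876 := mul_le_mul hab hW3 hW30 (le_trans ha0 hab)
  have hav0 : 0 ≤ av := le_trans (abs_nonneg _) hav
  have h8b : a * (Y₂ / 2 + Y₃ / 3) ≤ ab * (4.265 / 2 + 5.355 / 3) :=
    mul_le_mul hab (by linarith) (by positivity) (le_trans ha0 hab)
  have h8a : E₃ / 6 + a * 0.35 * (Y₂ / 2 + Y₃ / 3)
      ≤ 3.18 / 6 + ab * 0.35 * (4.265 / 2 + 5.355 / 3) := by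
    linarith
  have h8 : |vt| * (E₃ / 6 + a * 0.35 * (Y₂ / 2 + Y₃ / 3))
      ≤ av * (3.18 / 6 + ab * 0.35 * (4.265 / 2 + 5.355 / 3)) :=
    mul_le_mul hav h8a (by positivity) hav0
  unfold Gam
  have h9 : ψ * (1 - q) * (q * (1 - q) / (T + 1 + q * vt) + k * t - k ^ 2 / 2)
      = ψ * (1 - q) * (q * (1 - q) / (T + 1 + q * vt)) + ψ * (1 - q) * (k * t - k ^ 2 / 2) := by
    ring
  rw [h9]
  have h7' : a * 1.8 ^ 2 * W₃ ≤ ab * 1.8 ^ 2 * 1.0876 := by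
    have e1 : a * 1.8 ^ 2 * W₃ = 1.8 ^ 2 * (a * W₃) := by ring
    have e2 : ab * 1.8 ^ 2 * 1.0876 = 1.8 ^ 2 * (ab * 1.0876) := by ring
    rw [e1, e2]
    exact mul_le_mul_of_nonneg_left h7 (by positivity)
  linarith

theorem lin_two {L x q qa qb : ℝ} (h1 : L ≤ 1 + qa * x) (h2 : L ≤ 1 + qb * x)
    (hq1 : qa ≤ q) (hq2 : q ≤ qb) : L ≤ 1 + q * x := by
  rcases le_total 0 x with hx | hx
  · have := mul_le_mul_of_nonneg_right hq1 hx
    linarith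
  · have := mul_le_mul_of_nonpos_right hq2 hx
    linarith

theorem lin_two' {L x q qa qb : ℝ} (h1 : 1 + qa * x ≤ L) (h2 : 1 + qb * x ≤ L)
    (hq1 : qa ≤ q) (hq2 : q ≤ qb) : 1 + q * x ≤ L := by
  rcases le_total 0 x with hx | hx
  · have := mul_le_mul_of_nonneg_right hq2 hx
    linarith
  · have := mul_le_mul_of_nonpos_right hq1 hx
    linarith

/-- bounds for `T` on a cell -/
theorem cell_bounds {q T vt : ℝ}
    {va vb Ta Tb : ℝ}
    (hq1 : (0.563945 : ℝ) ≤ q) (hq2 : q ≤ (0.563953 : ℝ))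
    (hva : va ≤ vt) (hvb : vt ≤ vb) (hvam : -0.05 ≤ va)
    (hT0 : 0 < T) (hT : T ^ 2 = 1 + q * (2 * vt + vt ^ 2))
    (hTa0 : 0 ≤ Ta) (hTb0 : 0 ≤ Tb)
    (hTa1 : Ta ^ 2 ≤ 1 + 0.563945 * (2 * va + va ^ 2))
    (hTa2 : Ta ^ 2 ≤ 1 + 0.563953 * (2 * va + va ^ 2))
    (hTb1 : 1 + 0.563945 * (2 * vb + vb ^ 2) ≤ Tb ^ 2)
    (hTb2 : 1 + 0.563953 * (2 * vb + vb ^ 2) ≤ Tb ^ 2) : Ta ≤ T ∧ T ≤ Tb := by
  have hx1 : 2 * va + va ^ 2 ≤ 2 * vt + vt ^ 2 := by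
    have := mul_nonneg (show (0 : ℝ) ≤ vt - va by linarith) (show (0 : ℝ) ≤ 2 + vt + va by linarith)
    linarith [this, show (vt - va) * (2 + vt + va) = 2 * vt + vt ^ 2 - (2 * va + va ^ 2) by ring]
  have hx2 : 2 * vt + vt ^ 2 ≤ 2 * vb + vb ^ 2 := by
    have := mul_nonneg (show (0 : ℝ) ≤ vb - vt by linarith) (show (0 : ℝ) ≤ 2 + vb + vt by linarith)
    linarith [this, show (vb - vt) * (2 + vb + vt) = 2 * vb + vb ^ 2 - (2 * vt + vt ^ 2) by ring]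
  constructor
  · have : Ta ^ 2 ≤ T ^ 2 := by
      rw [hT]
      have h1 : q * (2 * va + va ^ 2) ≤ q * (2 * vt + vt ^ 2) :=
        mul_le_mul_of_nonneg_left hx1 (by linarith)
      have h2 : Ta ^ 2 ≤ 1 + q * (2 * va + va ^ 2) :=
        lin_two hTa1 hTa2 hq1 hq2
      linarith
    exact (sq_le_sq₀ hTa0 hT0.le).1 this
  · have : T ^ 2 ≤ Tb ^ 2 := by
      rw [hT]
      have h1 : q * (2 * vt + vt ^ 2) ≤ q * (2 * vb + vb ^ 2) :=
        mul_le_mul_of_nonneg_left hx2 (by linarith)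
      have h2 : 1 + q * (2 * vb + vb ^ 2) ≤ Tb ^ 2 :=
        lin_two' hTb1 hTb2 hq1 hq2
      linarith
    exact (sq_le_sq₀ hT0.le hTb0).1 this

theorem w3_nonneg (v : ℝ) : 0 ≤ w3 v :=
  GE_nonneg fun _ => mul_nonneg (Md_pos _).le (sq_nonneg _)

theorem m3_nonneg (r : ℝ) : 0 ≤ m3 r :=
  GE_nonneg fun x => mul_nonneg (by linarith [tanh_sq_lt (r * x)]) (sq_nonneg _)

theorem e3_nonneg (r l s : ℝ) : 0 ≤ e3 r l s := GE_nonneg fun x => by positivity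

theorem X2_nonneg (v A : ℝ) : 0 ≤ X2 v A := GE_nonneg fun x => by positivity

theorem X3_nonneg (v A : ℝ) : 0 ≤ X3 v A := GE_nonneg fun x => by positivity

theorem win_core {ψ rho T vt : ℝ} (D : WData ψ) (hr : rho ^ 2 * qp ψ < 1)
    (hT : T = Tr ψ rho) (hvt : vt = rho * T - 1) (hvt0 : vt ≠ 0)
    {va vb av Ta Tb ta tb ka kb sa sb : ℝ}
    (hva : va ≤ vt) (hvb : vt ≤ vb) (hav : |vt| ≤ av) (hvam : -0.05 ≤ va)
    (hTa0 : (0.9 : ℝ) ≤ Ta) (hTab : Ta ≤ Tb)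
    (hTa1 : Ta ^ 2 ≤ 1 + 0.563945 * (2 * va + va ^ 2))
    (hTa2 : Ta ^ 2 ≤ 1 + 0.563953 * (2 * va + va ^ 2))
    (hTb1 : 1 + 0.563945 * (2 * vb + vb ^ 2) ≤ Tb ^ 2)
    (hTb2 : 1 + 0.563953 * (2 * vb + vb ^ 2) ≤ Tb ^ 2)
    (hta : ta * (Tb + 1) ≤ 0.563945 * (2 + va)) (hta0 : 0 ≤ ta)
    (htb : 0.563953 * (2 + vb) ≤ tb * (Ta + 1)) (htb1 : tb ≤ 1)
    (hka : ka * 1.34847 ≤ -1.26768 - 0.546 * av) (hka0 : ka ≤ 0)
    (hkb : -1.26694 + 0.546 * av ≤ kb * 1.34856) (hkb0 : kb ≤ 0)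
    (hsa : sa ≤ ka * Tb + ta) (hsa1 : -0.43 ≤ sa)
    (hsb : kb * Ta + tb ≤ sb) (hsb1 : sb ≤ -0.32)
    (hfin : (2.57638 * 0.436055) * (0.563953 * 0.436055 / (Ta + 1 + 0.563945 * va - 0.0000005))
        + (2.57632 * 0.436047) * (kb * ta - kb ^ 2 / 2)
        - 2.5 * 0.563945 * (1 - tb) / Tb
        + (2.5 ^ 2 * 0.12342 + 2 * 2.5 * sb * 0.1699 + sa ^ 2 * 0.24768) / 2
        - 0.83303 * 0.6810 / 2 + 0.83313 * 1.8 ^ 2 * 1.0876 / 2
        + av * (3.18 / 6 + 0.83313 * 0.35 * (4.265 / 2 + 5.355 / 3)) ≤ 0) :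
    JN ψ rho (2.5 * vt) (rho * T) (1.8 * vt) ≤ 0 := by
  have hψ : 0 < ψ := by linarith [D.hp1]
  obtain ⟨hP1, hP2⟩ := nux_psiq D.hp1 D.hp2 D.hq1 D.hq2
  set q := qp ψ with hq
  have hT0 : 0 < T := hT ▸ Tr_pos hψ hr
  have hrel : T ^ 2 = 1 - q + q * (rho * T) ^ 2 := by rw [hT]; exact Tr_rel hψ hr
  have hT2 : T ^ 2 = 1 + q * (2 * vt + vt ^ 2) := by
    rw [hrel, hvt]; ring
  obtain ⟨hTa, hTb⟩ := cell_bounds D.hq1 D.hq2 hva hvb hvam hT0 hT2 (by linarith only [hTa0])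
    (by linarith only [hTa0, hTab]) hTa1 hTa2 hTb1 hTb2
  have hn0 : 0 < n0 (vv ψ) := n0_pos _
  -- the constant alpha
  have hal : al 0 0 ψ * n0 (vv ψ) = ψ * (1 - q) := al_n0 hψ
  have hala : (0.83303 : ℝ) ≤ al 0 0 ψ := by
    by_contra hcon
    push Not at hcon
    have h1 : al 0 0 ψ * n0 (vv ψ) ≤ 0.83303 * n0 (vv ψ) :=
      mul_le_mul_of_nonneg_right hcon.le hn0.le
    have h2 := D.hn0b
    rw [hal] at h1
    linarith only [h1, h2, hP1]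
  have halb : al 0 0 ψ ≤ (0.83313 : ℝ) := by
    by_contra hcon
    push Not at hcon
    have h1 : 0.83313 * n0 (vv ψ) ≤ al 0 0 ψ * n0 (vv ψ) :=
      mul_le_mul_of_nonneg_right hcon.le hn0.le
    have h2 := D.hn0a
    rw [hal] at h1
    linarith only [h1, h2, hP2]
  -- k
  set k := n1 (vv ψ) (rho * T) (1.8 * vt) / n0 (vv ψ) - 1 with hk
  have hkw := k_window (A' := 1.8) hψ hr D.hM2
  rw [← hT, ← hvt, ← hk] at hkw
  have hX1 : 0.35 * vt ^ 2 * X1 (vv ψ) 1.8 / 2 ≤ 0.546 * vt ^ 2 := by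
    have := mul_le_mul_of_nonneg_left D.hX1 (sq_nonneg vt)
    linarith only [this]
  -- normalised quantities
  set kh := k / vt with hkh
  have hkk : k = kh * vt := by rw [hkh]; field_simp
  have hvt2 : 0 < vt ^ 2 := by positivity
  have habs : |vt| ^ 2 = vt ^ 2 := sq_abs vt
  have hkw' : |kh * n0 (vv ψ) + (w2 (vv ψ) + 1.8 * w3 (vv ψ))| ≤ 0.546 * |vt| := by
    have e1 : k * n0 (vv ψ) + vt * (w2 (vv ψ) + 1.8 * w3 (vv ψ))
        = vt * (kh * n0 (vv ψ) + (w2 (vv ψ) + 1.8 * w3 (vv ψ))) := by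
      rw [hkk]; ring
    rw [e1, abs_mul] at hkw
    have h1 : |vt| * |kh * n0 (vv ψ) + (w2 (vv ψ) + 1.8 * w3 (vv ψ))|
        ≤ |vt| * (0.546 * |vt|) := by
      calc _ ≤ _ := hkw
        _ ≤ 0.546 * vt ^ 2 := hX1
        _ = |vt| * (0.546 * |vt|) := by rw [← habs]; ring
    exact le_of_mul_le_mul_left h1 (abs_pos.2 hvt0)
  obtain ⟨hk1, hk2⟩ := abs_le.1 hkw'
  have hw2a := D.hw2a
  have hw2b := D.hw2b
  have hw3a := D.hw3a
  have hw3b := D.hw3b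
  have hkaa : ka ≤ kh := by
    by_contra hcon
    push Not at hcon
    have h1 : kh * n0 (vv ψ) ≤ ka * n0 (vv ψ) := mul_le_mul_of_nonneg_right hcon.le hn0.le
    have h2 : ka * n0 (vv ψ) ≤ ka * 1.34847 := mul_le_mul_of_nonpos_left D.hn0a hka0
    have h3 : kh * n0 (vv ψ) < ka * n0 (vv ψ) := mul_lt_mul_of_pos_right hcon hn0
    linarith only [h2, h3, hka, hk1, hw2a, hw2b, hw3a, hw3b, hav]
  have hkbb : kh ≤ kb := by
    by_contra hcon
    push Not at hcon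
    have h3 : kb * n0 (vv ψ) < kh * n0 (vv ψ) := mul_lt_mul_of_pos_right hcon hn0
    have h2 : kb * 1.34856 ≤ kb * n0 (vv ψ) := mul_le_mul_of_nonpos_left D.hn0b hkb0
    linarith only [h2, h3, hkb, hk2, hw2a, hw2b, hw3a, hw3b, hav]
  -- t
  set t := q * (2 + vt) / (T + 1) with ht
  have hT1 : 0 < T + 1 := by linarith only [hT0]
  have htt : T - 1 = vt * t := by
    have : (T - 1) * (T + 1) = vt * (q * (2 + vt)) := by
      linear_combination hT2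
    rw [ht]
    field_simp
    linarith only [this]
  have hta' : ta ≤ t := by
    rw [ht, le_div_iff₀ hT1]
    have h1 : ta * (T + 1) ≤ ta * (Tb + 1) :=
      mul_le_mul_of_nonneg_left (by linarith only [hTb]) hta0
    have h2 : 0.563945 * (2 + va) ≤ q * (2 + vt) :=
      mul_le_mul D.hq1 (by linarith only [hva]) (by linarith only [hvam])
        (by linarith only [D.hq1])
    linarith only [h1, h2, hta]
  have htb' : t ≤ tb := by
    have htb0 : 0 ≤ tb := by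
      by_contra hcon
      push Not at hcon
      have : tb * (Ta + 1) < 0 := mul_neg_of_neg_of_pos hcon (by linarith only [hTa0])
      linarith only [this, htb, hva, hvb, hvam]
    rw [ht, div_le_iff₀ hT1]
    have h1 : tb * (Ta + 1) ≤ tb * (T + 1) :=
      mul_le_mul_of_nonneg_left (by linarith only [hTa]) htb0
    have h2 : q * (2 + vt) ≤ 0.563953 * (2 + vb) :=
      mul_le_mul D.hq2 (by linarith only [hvb]) (by linarith only [hva, hvam]) (by norm_num)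
    linarith only [h1, h2, htb]
  -- sigma
  set sg := kh * T + t with hsg
  have hka0' : kh ≤ 0 := le_trans hkbb hkb0
  have hsga : sa ≤ sg := by
    have h1 : kh * Tb ≤ kh * T := mul_le_mul_of_nonpos_left hTb hka0'
    have h2 : ka * Tb ≤ kh * Tb :=
      mul_le_mul_of_nonneg_right hkaa (by linarith only [hTb, hT0])
    linarith only [h1, h2, hsa, hta']
  have hsgb : sg ≤ sb := by
    have h1 : kh * T ≤ kh * Ta := mul_le_mul_of_nonpos_left hTa hka0'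
    have h2 : kh * Ta ≤ kb * Ta :=
      mul_le_mul_of_nonneg_right hkbb (by linarith only [hTa0])
    linarith only [h1, h2, hsb, htb']
  have hsigma : (1 + k) * T - 1 = sg * vt := by
    rw [hsg, hkk]; linear_combination htt
  have hJ := JN_window (l := 2.5 * vt) (A' := 1.8) (G := 0.35) (sg := sg * vt) hψ hr D.hGG D.hM2
    hT hvt hk hsigma.symm
  rw [← hq, e3_homog] at hJ
  have hG := Gam_cell (ψ := ψ) (q := q) (T := T) (vt := vt) (t := t) (k := kh) (s := sg)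
    (M₁ := m1 (Real.sqrt ψ)) (M₂ := m2 (Real.sqrt ψ)) (M₃ := m3 (Real.sqrt ψ))
    (W₁ := w1 (vv ψ)) (W₃ := w3 (vv ψ)) (a := al 0 0 ψ) (E₃ := e3 (Real.sqrt ψ) 2.5 sg)
    (Y₂ := X2 (vv ψ) 1.8) (Y₃ := X3 (vv ψ) 1.8)
    D.hp1 D.hp2 D.hq1 D.hq2 hva hav hvam hTa hTb hTa0 hta' htb' hta0 htb1 hkbb hkb0 hsga hsgb
    (by linarith only [hsb1]) D.hm1 D.hm2 D.hm3 (m3_nonneg _) D.hw1 D.hw3b (w3_nonneg _) hala halb
    (by norm_num) (D.he3 sg (by linarith only [hsga, hsa1])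
      (by linarith only [hsgb, hsb1])) D.hX2 D.hX3 (e3_nonneg _ _ _)
    (X2_nonneg _ _) (X3_nonneg _ _)
  have hGam := le_trans hG hfin
  have hTq : T - 1 - q * vt = vt ^ 2 * (q * (1 - q) / (T + 1 + q * vt)) := by
    have hd : 0 < T + 1 + q * vt := by
      have h1 : q * (-0.05) ≤ q * vt :=
        mul_le_mul_of_nonneg_left (by linarith only [hva, hvam]) (by linarith only [D.hq1])
      linarith only [D.hq2, h1, hT0]
    have : (T - 1 - q * vt) * (T + 1 + q * vt) = vt ^ 2 * (q * (1 - q)) := by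
      linear_combination hT2
    field_simp
    linarith only [this]
  have hrho : rho - 1 = vt * ((1 - t) / T) := by
    have h1 : rho * T - T = vt * (1 - t) := by linear_combination (-1 : ℝ) * hvt - htt
    field_simp
    linarith only [h1]
  have hcube : |vt| ^ 3 = vt ^ 2 * |vt| := by rw [← habs]; ring
  have hfinal : JN ψ rho (2.5 * vt) (rho * T) (1.8 * vt) ≤ vt ^ 2 *
      Gam ψ q T vt t kh sg (m1 (Real.sqrt ψ)) (m2 (Real.sqrt ψ)) (m3 (Real.sqrt ψ))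
        (w1 (vv ψ)) (w3 (vv ψ)) (al 0 0 ψ) (e3 (Real.sqrt ψ) 2.5 sg)
        (X2 (vv ψ) 1.8) (X3 (vv ψ) 1.8) := by
    refine le_trans hJ (le_of_eq ?_)
    rw [hTq, htt, hrho, hkk, hcube]
    unfold Gam
    ring
  refine le_trans hfinal ?_
  exact mul_nonpos_of_nonneg_of_nonpos hvt2.le hGam

theorem JN_one {ψ : ℝ} (D : WData ψ) {rho : ℝ} (hr : rho ^ 2 * qp ψ < 1)
    (h0 : rho * Tr ψ rho - 1 = 0) : JN ψ rho 0 (rho * Tr ψ rho) (1.8 * (rho * Tr ψ rho - 1)) ≤ 0 := by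
  have hψ : 0 < ψ := by linarith [D.hp1]
  have hT0 : 0 < Tr ψ rho := Tr_pos hψ hr
  have hrel : Tr ψ rho ^ 2 = 1 - qp ψ + qp ψ * (rho * Tr ψ rho) ^ 2 := Tr_rel hψ hr
  have h1 : rho * Tr ψ rho = 1 := by linarith
  have hT1 : Tr ψ rho = 1 := by
    have : Tr ψ rho ^ 2 = 1 := by rw [hrel, h1]; ring
    have h3 : (Tr ψ rho - 1) * (Tr ψ rho + 1) = 0 := by linear_combination this
    rcases mul_eq_zero.1 h3 with h | h
    · linarith
    · linarith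
  have hn0 : 0 < n0 (vv ψ) := n0_pos _
  have hkw := k_window (A' := 1.8) hψ hr D.hM2
  have hk0 : n1 (vv ψ) (rho * Tr ψ rho) (1.8 * (rho * Tr ψ rho - 1)) / n0 (vv ψ) - 1 = 0 := by
    rw [h0] at hkw ⊢
    simp only [zero_mul, add_zero, ne_eq, OfNat.ofNat_ne_zero, not_false_eq_true, zero_pow,
      mul_zero, zero_div, abs_nonpos_iff, mul_eq_zero] at hkw
    rcases hkw with h | h
    · simpa using h
    · exact absurd h hn0.ne'
  have hJ := JN_window (l := 0) (A' := 1.8) (G := 0.35) (sg := 0) (T := Tr ψ rho)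
    (vt := rho * Tr ψ rho - 1) (k := 0) hψ hr D.hGG D.hM2
    rfl rfl hk0.symm (by rw [hT1]; ring)
  have he : e3 (Real.sqrt ψ) 0 0 = 0 := by
    have := e3_homog (Real.sqrt ψ) 0 0 0
    simpa using this
  rw [h0] at hJ
  rw [he, hT1] at hJ
  rw [h0, hT1]
  refine le_trans hJ (le_of_eq ?_)
  simp

/-- the rational inequalities of one cell of the window -/
def wcell (va vb av Ta Tb ta tb ka kb sa sb : ℚ) : Bool :=
  decide (-(5 / 100) ≤ va) && decide (9 / 10 ≤ Ta) && decide (Ta ≤ Tb) &&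
  decide (Ta ^ 2 ≤ 1 + 563945 / 1000000 * (2 * va + va ^ 2)) &&
  decide (Ta ^ 2 ≤ 1 + 563953 / 1000000 * (2 * va + va ^ 2)) &&
  decide (1 + 563945 / 1000000 * (2 * vb + vb ^ 2) ≤ Tb ^ 2) &&
  decide (1 + 563953 / 1000000 * (2 * vb + vb ^ 2) ≤ Tb ^ 2) &&
  decide (ta * (Tb + 1) ≤ 563945 / 1000000 * (2 + va)) && decide (0 ≤ ta) &&
  decide (563953 / 1000000 * (2 + vb) ≤ tb * (Ta + 1)) && decide (tb ≤ 1) &&
  decide (ka * (134847 / 100000) ≤ -(126768 / 100000) - 546 / 1000 * av) && decide (ka ≤ 0) &&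
  decide (-(126694 / 100000) + 546 / 1000 * av ≤ kb * (134856 / 100000)) && decide (kb ≤ 0) &&
  decide (sa ≤ ka * Tb + ta) && decide (-(43 / 100) ≤ sa) &&
  decide (kb * Ta + tb ≤ sb) && decide (sb ≤ -(32 / 100)) &&
  decide ((257638 / 100000 * (436055 / 1000000)) *
      (563953 / 1000000 * (436055 / 1000000) / (Ta + 1 + 563945 / 1000000 * va - 5 / 10000000))
        + (257632 / 100000 * (436047 / 1000000)) * (kb * ta - kb ^ 2 / 2)
        - 25 / 10 * (563945 / 1000000) * (1 - tb) / Tb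
        + ((25 / 10) ^ 2 * (12342 / 100000) + 2 * (25 / 10) * sb * (1699 / 10000)
            + sa ^ 2 * (24768 / 100000)) / 2
        - 83303 / 100000 * (6810 / 10000) / 2
        + 83313 / 100000 * (18 / 10) ^ 2 * (10876 / 10000) / 2
        + av * (318 / 100 / 6 + 83313 / 100000 * (35 / 100) * (4265 / 1000 / 2 + 5355 / 1000 / 3))
      ≤ 0)

theorem win_cell {ψ rho : ℝ} (D : WData ψ) (hr : rho ^ 2 * qp ψ < 1)
    (hvt0 : rho * Tr ψ rho - 1 ≠ 0)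
    (va vb av Ta Tb ta tb ka kb sa sb : ℚ)
    (hc : wcell va vb av Ta Tb ta tb ka kb sa sb = true)
    (hva : (va : ℝ) ≤ rho * Tr ψ rho - 1) (hvb : rho * Tr ψ rho - 1 ≤ (vb : ℝ))
    (hav1 : -(av : ℝ) ≤ va) (hav2 : (vb : ℝ) ≤ av) :
    JN ψ rho (2.5 * (rho * Tr ψ rho - 1)) (rho * Tr ψ rho) (1.8 * (rho * Tr ψ rho - 1)) ≤ 0 := by
  simp only [wcell, Bool.and_eq_true, decide_eq_true_eq] at hc
  obtain ⟨⟨⟨⟨⟨⟨⟨⟨⟨⟨⟨⟨⟨⟨⟨⟨⟨⟨⟨c1, c2⟩, c3⟩, c4⟩, c5⟩, c6⟩, c7⟩, c8⟩, c9⟩, c10⟩, c11⟩, c12⟩, c13⟩,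
    c14⟩, c15⟩, c16⟩, c17⟩, c18⟩, c19⟩, c20⟩ := hc
  have k1 := (Rat.cast_le (K := ℝ)).2 c1
  have k2 := (Rat.cast_le (K := ℝ)).2 c2
  have k3 := (Rat.cast_le (K := ℝ)).2 c3
  have k4 := (Rat.cast_le (K := ℝ)).2 c4
  have k5 := (Rat.cast_le (K := ℝ)).2 c5
  have k6 := (Rat.cast_le (K := ℝ)).2 c6
  have k7 := (Rat.cast_le (K := ℝ)).2 c7
  have k8 := (Rat.cast_le (K := ℝ)).2 c8
  have k9 := (Rat.cast_le (K := ℝ)).2 c9
  have k10 := (Rat.cast_le (K := ℝ)).2 c10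
  have k11 := (Rat.cast_le (K := ℝ)).2 c11
  have k12 := (Rat.cast_le (K := ℝ)).2 c12
  have k13 := (Rat.cast_le (K := ℝ)).2 c13
  have k14 := (Rat.cast_le (K := ℝ)).2 c14
  have k15 := (Rat.cast_le (K := ℝ)).2 c15
  have k16 := (Rat.cast_le (K := ℝ)).2 c16
  have k17 := (Rat.cast_le (K := ℝ)).2 c17
  have k18 := (Rat.cast_le (K := ℝ)).2 c18
  have k19 := (Rat.cast_le (K := ℝ)).2 c19
  have k20 := (Rat.cast_le (K := ℝ)).2 c20
  push_cast at k1 k2 k3 k4 k5 k6 k7 k8 k9 k10 k11 k12 k13 k14 k15 k16 k17 k18 k19 k20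
  have e1 : (0.563945 : ℝ) = 563945 / 1000000 := by norm_num
  have e2 : (0.563953 : ℝ) = 563953 / 1000000 := by norm_num
  have e3 : (1.34847 : ℝ) = 134847 / 100000 := by norm_num
  have e4 : (1.26768 : ℝ) = 126768 / 100000 := by norm_num
  have e5 : (0.546 : ℝ) = 546 / 1000 := by norm_num
  have e6 : (1.26694 : ℝ) = 126694 / 100000 := by norm_num
  have e7 : (1.34856 : ℝ) = 134856 / 100000 := by norm_num
  have e8 : (0.43 : ℝ) = 43 / 100 := by norm_num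
  have e9 : (0.32 : ℝ) = 32 / 100 := by norm_num
  have e10 : (0.05 : ℝ) = 5 / 100 := by norm_num
  have e11 : (0.9 : ℝ) = 9 / 10 := by norm_num
  have e12 : (2.57638 : ℝ) = 257638 / 100000 := by norm_num
  have e13 : (0.436055 : ℝ) = 436055 / 1000000 := by norm_num
  have e14 : (0.0000005 : ℝ) = 5 / 10000000 := by norm_num
  have e15 : (2.57632 : ℝ) = 257632 / 100000 := by norm_num
  have e16 : (0.436047 : ℝ) = 436047 / 1000000 := by norm_num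
  have e17 : (2.5 : ℝ) = 25 / 10 := by norm_num
  have e18 : (0.12342 : ℝ) = 12342 / 100000 := by norm_num
  have e19 : (0.1699 : ℝ) = 1699 / 10000 := by norm_num
  have e20 : (0.24768 : ℝ) = 24768 / 100000 := by norm_num
  have e21 : (0.83303 : ℝ) = 83303 / 100000 := by norm_num
  have e22 : (0.6810 : ℝ) = 6810 / 10000 := by norm_num
  have e23 : (0.83313 : ℝ) = 83313 / 100000 := by norm_num
  have e24 : (1.8 : ℝ) = 18 / 10 := by norm_num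
  have e25 : (1.0876 : ℝ) = 10876 / 10000 := by norm_num
  have e26 : (3.18 : ℝ) = 318 / 100 := by norm_num
  have e27 : (0.35 : ℝ) = 35 / 100 := by norm_num
  have e28 : (4.265 : ℝ) = 4265 / 1000 := by norm_num
  have e29 : (5.355 : ℝ) = 5355 / 1000 := by norm_num
  refine win_core D hr rfl rfl hvt0 (va := va) (vb := vb) (av := av) (Ta := Ta) (Tb := Tb)
    (ta := ta) (tb := tb) (ka := ka) (kb := kb) (sa := sa) (sb := sb) hva hvb
    (abs_le.2 ⟨le_trans hav1 hva, le_trans hvb hav2⟩) ?_ ?_ k3 ?_ ?_ ?_ ?_ ?_ k9 ?_ ?_ ?_ ?_ ?_ ?_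
    k16 ?_ k18 ?_ ?_
  · rw [e10]; exact k1
  · rw [e11]; exact k2
  · rw [e1]; exact k4
  · rw [e2]; exact k5
  · rw [e1]; exact k6
  · rw [e2]; exact k7
  · rw [e1]; exact k8
  · rw [e2]; exact k10
  · exact k11
  · rw [e3, e4, e5]; exact k12
  · exact k13
  · rw [e6, e5, e7]; exact k14
  · exact k15
  · rw [e8]; exact k17
  · rw [e9]; exact k19
  · rw [e12, e13, e2, e1, e14, e15, e16, e17, e18, e19, e20, e21, e22, e23, e24, e25, e26, e27,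
      e28, e29]
    exact k20

theorem window_final {ψ : ℝ} (D : WData ψ) {rho : ℝ} (hr1 : (0.982 : ℝ) ≤ rho)
    (hr2 : rho ≤ (1.018 : ℝ)) : rho ^ 2 * qp ψ < 1 ∧ ∃ l th A : ℝ, JN ψ rho l th A ≤ 0 := by
  have hψ : 0 < ψ := by linarith [D.hp1]
  have hsq1 : (0.964324 : ℝ) ≤ rho ^ 2 := by nlinarith only [hr1]
  have hsq2 : rho ^ 2 ≤ (1.036324 : ℝ) := by nlinarith only [hr1, hr2]
  have hqa := D.hq1
  have hqb := D.hq2
  have hr : rho ^ 2 * qp ψ < 1 := by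
    have := mul_le_mul hsq2 hqb (by linarith) (by norm_num)
    linarith
  refine ⟨hr, ?_⟩
  by_cases h0 : rho * Tr ψ rho - 1 = 0
  · exact ⟨_, _, _, JN_one D hr h0⟩
  have hT0 : 0 < Tr ψ rho := Tr_pos hψ hr
  have hTs := Tr_sq hψ hr
  have hden : 0 < 1 - rho ^ 2 * qp ψ := by linarith
  have hth0 : 0 < rho * Tr ψ rho := mul_pos (by linarith) hT0
  have hths : (rho * Tr ψ rho) ^ 2 * (1 - rho ^ 2 * qp ψ) = rho ^ 2 * (1 - qp ψ) := by
    rw [← hTs]; ring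
  have hb : rho * Tr ψ rho ≤ 1.0432 := by
    by_contra hcon
    push Not at hcon
    have h1 : (1.0432 : ℝ) ^ 2 < (rho * Tr ψ rho) ^ 2 := by
      apply pow_lt_pow_left₀ hcon (by norm_num) (by norm_num)
    have h2 : (1.0432 : ℝ) ^ 2 * (1 - rho ^ 2 * qp ψ)
        < (rho * Tr ψ rho) ^ 2 * (1 - rho ^ 2 * qp ψ) := mul_lt_mul_of_pos_right h1 hden
    rw [hths] at h2
    have h3 : rho ^ 2 * (1 + 0.08826624 * qp ψ) ≤ 1.036324 * (1 + 0.08826624 * 0.563953) :=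
      mul_le_mul hsq2 (by linarith) (by linarith) (by norm_num)
    nlinarith only [h2, h3]
  have ha : 0.9597 ≤ rho * Tr ψ rho := by
    by_contra hcon
    push Not at hcon
    have h1 : (rho * Tr ψ rho) ^ 2 < (0.9597 : ℝ) ^ 2 := by
      apply pow_lt_pow_left₀ hcon hth0.le (by norm_num)
    have h2 : (rho * Tr ψ rho) ^ 2 * (1 - rho ^ 2 * qp ψ)
        < (0.9597 : ℝ) ^ 2 * (1 - rho ^ 2 * qp ψ) := mul_lt_mul_of_pos_right h1 hden
    rw [hths] at h2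
    have h3 : 0.964324 * (1 - 0.07897591 * 0.563953) ≤ rho ^ 2 * (1 - 0.07897591 * qp ψ) :=
      mul_le_mul hsq1 (by linarith) (by norm_num) (by positivity)
    nlinarith only [h2, h3]
  refine ⟨2.5 * (rho * Tr ψ rho - 1), rho * Tr ψ rho, 1.8 * (rho * Tr ψ rho - 1), ?_⟩
  have hne : rho * Tr ψ rho - 1 ≠ 0 := h0
  have hbl : (-(403 / 10000) : ℝ) ≤ rho * Tr ψ rho - 1 := by linarith
  have hbu : rho * Tr ψ rho - 1 ≤ (432 / 10000 : ℝ) := by linarith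
  have w0 := win_cell D hr hne (-(403 / 10000)) (-(3 / 100)) (403 / 10000) (97747 / 100000) (1229 / 1250) (27863 / 50000) (56183 / 100000) (-(95641 / 100000)) (-(18463 / 20000)) (-(38309 / 100000)) (-(8513 / 25000)) (by decide +kernel)
  have w1 := win_cell D hr hne (-(3 / 100)) (-(3 / 200)) (3 / 100) (98319 / 100000) (99157 / 100000) (55783 / 100000) (56447 / 100000) (-(11903 / 12500)) (-(23183 / 25000)) (-(38639 / 100000)) (-(17363 / 50000)) (by decide +kernel)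
  have w2 := win_cell D hr hne (-(3 / 200)) 0 (3 / 200) (24789 / 25000) (100001 / 100000) (55971 / 100000) (11327 / 20000) (-(94617 / 100000)) (-(4667 / 5000)) (-(4831 / 12500)) (-(35917 / 100000)) (by decide +kernel)
  have w3 := win_cell D hr hne 0 (3 / 200) (3 / 200) (99999 / 100000) (100849 / 100000) (14039 / 25000) (56819 / 100000) (-(94617 / 100000)) (-(4667 / 5000)) (-(7853 / 20000)) (-(36519 / 100000)) (by decide +kernel)
  have w4 := win_cell D hr hne (3 / 200) (3 / 100) (3 / 100) (6303 / 6250) (101703 / 100000) (56337 / 100000) (57 / 100) (-(11903 / 12500)) (-(23183 / 25000)) (-(40509 / 100000)) (-(18259 / 50000)) (by decide +kernel)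
  have w5 := win_cell D hr hne (3 / 100) (37 / 1000) (37 / 1000) (50851 / 50000) (12763 / 12500) (14161 / 25000) (11391 / 20000) (-(23877 / 25000)) (-(92449 / 100000)) (-(20437 / 50000)) (-(37067 / 100000)) (by decide +kernel)
  have w6 := win_cell D hr hne (37 / 1000) (27 / 625) (27 / 625) (51051 / 50000) (102459 / 100000) (2837 / 5000) (11403 / 20000) (-(95759 / 100000)) (-(46099 / 50000)) (-(20687 / 50000)) (-(232 / 625)) (by decide +kernel)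
  push_cast at w0 w1 w2 w3 w4 w5 w6
  rcases le_total (rho * Tr ψ rho - 1) (-(3 / 100)) with h0 | h0
  · exact w0 (by linarith) (by linarith) (by norm_num) (by norm_num)
  rcases le_total (rho * Tr ψ rho - 1) (-(15 / 1000)) with h1 | h1
  · exact w1 (by linarith) (by linarith) (by norm_num) (by norm_num)
  rcases le_total (rho * Tr ψ rho - 1) (0) with h2 | h2
  · exact w2 (by linarith) (by linarith) (by norm_num) (by norm_num)
  rcases le_total (rho * Tr ψ rho - 1) (15 / 1000) with h3 | h3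
  · exact w3 (by linarith) (by linarith) (by norm_num) (by norm_num)
  rcases le_total (rho * Tr ψ rho - 1) (3 / 100) with h4 | h4
  · exact w4 (by linarith) (by linarith) (by norm_num) (by norm_num)
  rcases le_total (rho * Tr ψ rho - 1) (37 / 1000) with h5 | h5
  · exact w5 (by linarith) (by linarith) (by norm_num) (by norm_num)
  exact w6 (by linarith) (by linarith) (by norm_num) (by norm_num)

end Pool.Agent.IP49
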