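import Pool.Agent.IP49.NUR
import Pool.Agent.IP49.NUQ
import Pool.Agent.IP49.NUX
import Pool.Agent.IP49.NUM
import Pool.Agent.IP49.NUWD
import Pool.Agent.IP49N.USg

/-!
IP49, part N (helper60): the condition (U*) at `κ = ν = 0` on the box.
-/

set_option autoImplicit false
open MeasureTheory ProbabilityTheory Filter Topology

namespace Pool.Agent.IP49
open IP49N

theorem lc_even (x : ℝ) : lc (-x) = lc x := by unfold lc; rw [Real.cosh_neg]

theorem J2_pos {ψ : ℝ} (h1 : psi1 ≤ ψ) (h2 : ψ ≤ psi2) {rho : ℝ} (g : (123 / 100 : ℝ) ≤ rho) :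
    J2 ψ rho 10 ≤ 0 := by
  have h := (USg_all (box_r h1 h2)).2
  obtain ⟨hq1, _⟩ := box_q h1 h2
  have e : (123 / 100 : ℝ) * (563948286086 / 1000000000000) ≤ rho * qp ψ :=
    mul_le_mul g hq1 (by norm_num) (by linarith)
  unfold J2
  norm_num at e
  linarith

theorem J2_neg {ψ : ℝ} (h1 : psi1 ≤ ψ) (h2 : ψ ≤ psi2) {rho : ℝ} (g : rho ≤ -(123 / 100 : ℝ)) :
    J2 ψ rho (-10) ≤ 0 := by
  have h := J2_pos h1 h2 (rho := -rho) (by linarith)
  have e : J2 ψ rho (-10) = J2 ψ (-rho) 10 := by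
    unfold J2
    have e1 : (fun x => lc (-10 * Real.tanh (Real.sqrt ψ * x)))
        = fun x => lc (10 * Real.tanh (Real.sqrt ψ * x)) := by
      funext x
      rw [neg_mul, lc_even]
    rw [e1]
    ring
  rw [e]
  exact h

theorem N_U_box {ψ : ℝ} (h1 : psi1 ≤ ψ) (h2 : ψ ≤ psi2) (hG : GG 0 ψ = 0) :
    UStar 0 0 ψ 0 := by
  refine UStar_of_JN (box_pos h1) fun rho _ => ?_
  obtain ⟨hq1, hq2⟩ := box_q h1 h2
  rcases le_total (123 / 100 : ℝ) rho with g | g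
  · exact Or.inr ⟨10, J2_pos h1 h2 g⟩
  rcases le_total rho (-(123 / 100 : ℝ)) with g' | g'
  · exact Or.inr ⟨-10, J2_neg h1 h2 g'⟩
  have hr : rho ^ 2 * qp ψ < 1 := by
    have e : rho ^ 2 ≤ (123 / 100 : ℝ) ^ 2 := by apply sq_le_sq' <;> linarith
    have := mul_le_mul e hq2 (by linarith) (by norm_num)
    norm_num at this
    linarith
  left
  refine ⟨hr, ?_⟩
  rcases le_total rho (1 / 10) with c | c
  · exact ⟨_, _, _, cell_L7 h1 h2 g' c⟩
  rcases le_total rho (7 / 10) with c2 | c2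
  · exact ⟨_, _, _, cell_L6 h1 h2 c c2⟩
  rcases le_total rho (21 / 25) with c3 | c3
  · exact ⟨_, _, _, cell_L5 h1 h2 c2 c3⟩
  rcases le_total rho (91 / 100) with c4 | c4
  · exact ⟨_, _, _, cell_L4 h1 h2 c3 c4⟩
  rcases le_total rho (19 / 20) with c5 | c5
  · exact ⟨_, _, _, cell_L3 h1 h2 c4 c5⟩
  rcases le_total rho (97 / 100) with c6 | c6
  · exact ⟨_, _, _, cell_L2 h1 h2 c5 c6⟩
  rcases le_total rho (491 / 500) with c7 | c7
  · exact ⟨_, _, _, cell_L1 h1 h2 c6 c7⟩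
  rcases le_total rho (509 / 500) with c8 | c8
  · exact (window_final (wdata h1 h2 hG M2_le_035) (by norm_num at c7 ⊢; linarith)
      (by norm_num at c8 ⊢; linarith)).2
  rcases le_total rho (103 / 100) with c9 | c9
  · exact ⟨_, _, _, cell_R1 h1 h2 c8 c9⟩
  rcases le_total rho (21 / 20) with c10 | c10
  · exact ⟨_, _, _, cell_R2 h1 h2 c9 c10⟩
  rcases le_total rho (109 / 100) with c11 | c11
  · exact ⟨_, _, _, cell_R3 h1 h2 c10 c11⟩
  rcases le_total rho (23 / 20) with c12 | c12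
  · exact ⟨_, _, _, cell_R4 h1 h2 c11 c12⟩
  · exact ⟨_, _, _, cell_R5 h1 h2 c12 g⟩

end Pool.Agent.IP49
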