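import Pool.Agent.IP49.NLB

/-!
IP49, part N, (L*) side (helper49), module NLC: the regions `[-1, -.7]` and `[.96, 1]`.

PROOFS.
`conC_region`: `sp_affine` with `e = -73/20 < 0`: the spin part is nondecreasing in `lam`, so it is
at most its value at `lam = -7/10`.
`sp_half`: `sp ψ lam 0 (1/2) e`: pointwise
`log (2 e^e cosh h + 2 e^(-e)) = lc h + e + log (1 + e^(-2e)/cosh h)`, `log (1+u) ≤ u`; so
`sp ψ lam 0 (1/2) e ≤ sZ ψ + e (1 - qp ψ)(1 - lam) + exp(-2e) · GE sech`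
(`GE` of the three terms: integrable).
`con_zero_le`: `Pl lam z ≤ Ph z - c exp(-z²/(1+24/25))`, `c = √(2(1-lam))/(62832/10000)`
(`Pl_last` at `r = lam`, and `exp(-z²/(1+lam)) ≥ exp(-z²/(1+24/25))`), then
`log (Ph - w) ≤ log Ph - w/Ph`; integrability of `exp(-z²/(1+24/25))/Ph z`: for every `c' > 0` with
`c' exp(..) ≤ Ph` (from `Pl_last` at `r = 24/25`, `Pl ≥ 0`) it is bounded by `1/c'`.
`end_region`: with `t = 1 - lam ∈ (0, 1/25]`, `y = (1-q) t`, `e = (1/2) log (2 S/y)`,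
`S = GE sech`: `exp(-2e) S = y/2`, so the sum of the bounds is
`GG + (y/2)(1 + log (2S/y)) + (1-q) ψ (1/(1+lam) - 1/2) - al G √(2t)/6.2832` and the bracket is `≤ 0`:
with `s = √t ≤ 1/5`: `log (2S/y) = log (2S/(1-q)) + 2 log (1/s)`,
`s log (1/s) ≤ s log 5 + 1/5 - s` (`log u ≤ u - 1` with `u = (1/5)/s`), `1/(1+lam) - 1/2 = t/(2(2-t))
≤ t/(98/25)`; divide by `s`:
`((1-q)/2) (s (1 + l) + 2/5 + 2 s (l5 - 1)) + (1-q) ψ s/(98/25) ≤ al G √2/6.2832`, where
`l ≥ log (2S/(1-q))`, `l5 ≥ log 5`; the left side is affine in `s`, so `s = 0` and `s = 1/5` suffice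
(hypotheses `h0`, `h5`).
`end_one`: `lam = 1`: `Pl_one`, `th = 0`, so `con 0 ψ 0 1 = cZ 0 ψ` and the total is at most
`GG + exp(-2e) S < 2 GG` for `e` large.
-/

set_option autoImplicit false
open MeasureTheory ProbabilityTheory Filter Topology

namespace Pool.Agent.IP49

noncomputable section

/-- `GE sech(√ψ x)` -/
def Esech (ψ : ℝ) : ℝ := GE fun x => 1 / Real.cosh (Real.sqrt ψ * x)

/-- `GE exp(-z²/1.96)/Ph z` -/
def Gend (ψ : ℝ) : ℝ := GE fun x => Real.exp (-(zz 0 ψ x) ^ 2 / (1 + 24 / 25)) / Ph (zz 0 ψ x)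

theorem conC_region {ψ lam : ℝ} (hψ : 0 < ψ) (hG : 0 ≤ GG 0 ψ) (h2 : lam ≤ -7 / 10)
    (hc : sp ψ 0 (184 / 25) (-527 / 1000) (-73 / 20) - 511 / 200 * (1 - qp ψ) + conC 0 ψ < 0) :
    sp ψ lam (184 / 25) (-527 / 1000) (-73 / 20) + conC 0 ψ < 2 * GG 0 ψ := by
  have hq : 0 < 1 - qp ψ := by have := qp_lt_one (ψ := ψ); linarith
  rw [sp_affine]
  nlinarith [mul_le_mul_of_nonneg_right h2 hq.le]

/-- positivity of `Esech` -/
theorem Esech_integrable (ψ : ℝ) :
    Integrable (fun x => 1 / Real.cosh (Real.sqrt ψ * x)) (gaussianReal 0 1) := by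
  have hc : Continuous fun x => 1 / Real.cosh (Real.sqrt ψ * x) :=
    continuous_const.div (Real.continuous_cosh.comp (by fun_prop))
      fun x => (Real.cosh_pos _).ne'
  refine integrable_of_growth hc.measurable (C := 1) (k := 0) fun x => ?_
  have h1 := Real.one_le_cosh (Real.sqrt ψ * x)
  rw [pow_zero, mul_one, abs_of_nonneg (by positivity)]
  rw [div_le_one (by linarith)]
  exact h1

theorem Esech_pos (ψ : ℝ) : 0 < Esech ψ :=
  GE_pos (Esech_integrable ψ) fun x => by have := Real.cosh_pos (Real.sqrt ψ * x); positivity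

theorem sp_half (ψ lam e : ℝ) :
    sp ψ lam 0 (1 / 2) e ≤ sZ ψ + e * (1 - qp ψ) * (1 - lam) + Real.exp (-2 * e) * Esech ψ := by
  have hpt : ∀ x : ℝ, Real.log (2 * Real.exp e
      * Real.cosh (2 * (0 * Real.tanh (Real.sqrt ψ * x) + 1 / 2 * (Real.sqrt ψ * x)))
      + 2 * Real.exp (-e))
      = (lc (Real.sqrt ψ * x) + e)
        + Real.log (1 + Real.exp (-2 * e) * (1 / Real.cosh (Real.sqrt ψ * x))) := by
    intro x
    set h := Real.sqrt ψ * x with hh
    have hc := Real.cosh_pos h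
    have e0 : 2 * (0 * Real.tanh h + 1 / 2 * h) = h := by ring
    rw [e0]
    have e1 : 2 * Real.exp e * Real.cosh h + 2 * Real.exp (-e)
        = (2 * Real.cosh h) * Real.exp e * (1 + Real.exp (-2 * e) * (1 / Real.cosh h)) := by
      have e2 : Real.exp (-e) = Real.exp e * Real.exp (-2 * e) := by
        rw [← Real.exp_add]; congr 1; ring
      rw [e2]
      field_simp
    rw [e1, Real.log_mul (by positivity) (by positivity), Real.log_mul (by positivity)
      (by positivity), Real.log_exp]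
    rfl
  have hb : ∀ x : ℝ, 0 ≤ Real.log (1 + Real.exp (-2 * e) * (1 / Real.cosh (Real.sqrt ψ * x))) ∧
      Real.log (1 + Real.exp (-2 * e) * (1 / Real.cosh (Real.sqrt ψ * x)))
        ≤ Real.exp (-2 * e) * (1 / Real.cosh (Real.sqrt ψ * x)) := by
    intro x
    have hc := Real.cosh_pos (Real.sqrt ψ * x)
    have hp : 0 < Real.exp (-2 * e) * (1 / Real.cosh (Real.sqrt ψ * x)) := by positivity
    refine ⟨Real.log_nonneg (by linarith), ?_⟩
    have := Real.log_le_sub_one_of_pos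
      (show 0 < 1 + Real.exp (-2 * e) * (1 / Real.cosh (Real.sqrt ψ * x)) by linarith)
    linarith
  have iS := (Esech_integrable ψ).const_mul (Real.exp (-2 * e))
  have hcont : Continuous fun x : ℝ =>
      Real.log (1 + Real.exp (-2 * e) * (1 / Real.cosh (Real.sqrt ψ * x))) := by
    refine Continuous.log ?_ fun x => ?_
    · exact continuous_const.add (continuous_const.mul (continuous_const.div
        (Real.continuous_cosh.comp (by fun_prop)) fun x => (Real.cosh_pos _).ne'))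
    · have hc := Real.cosh_pos (Real.sqrt ψ * x)
      positivity
  have iL : Integrable (fun x : ℝ =>
      Real.log (1 + Real.exp (-2 * e) * (1 / Real.cosh (Real.sqrt ψ * x))))
      (gaussianReal 0 1) := by
    refine iS.mono' hcont.aestronglyMeasurable (Eventually.of_forall fun x => ?_)
    rw [Real.norm_eq_abs, abs_of_nonneg (hb x).1]
    exact (hb x).2
  have iC : Integrable (fun x => lc (Real.sqrt ψ * x) + e) (gaussianReal 0 1) :=
    (integrable_lc ψ).add (integrable_const e)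
  have h1 : (GE fun x => Real.log (2 * Real.exp e
      * Real.cosh (2 * (0 * Real.tanh (Real.sqrt ψ * x) + 1 / 2 * (Real.sqrt ψ * x)))
      + 2 * Real.exp (-e)))
      ≤ (GE fun x => lc (Real.sqrt ψ * x)) + e + Real.exp (-2 * e) * Esech ψ := by
    have e1 : (GE fun x => Real.log (2 * Real.exp e
      * Real.cosh (2 * (0 * Real.tanh (Real.sqrt ψ * x) + 1 / 2 * (Real.sqrt ψ * x)))
      + 2 * Real.exp (-e)))
        = (GE fun x => lc (Real.sqrt ψ * x) + e) + GE fun x =>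
          Real.log (1 + Real.exp (-2 * e) * (1 / Real.cosh (Real.sqrt ψ * x))) := by
      rw [← GE_add iC iL]
      congr 1
      funext x
      exact hpt x
    rw [e1, GE_add (integrable_lc ψ) (integrable_const e), GE_const]
    have h2 := GE_mono iL iS fun x => (hb x).2
    rw [GE_mul] at h2
    unfold Esech
    linarith
  unfold sp sZ
  linarith

theorem exp_div_Ph_bound (X : ℝ) :
    0 ≤ Real.exp (-X ^ 2 / (1 + 24 / 25)) / Ph X ∧
      Real.exp (-X ^ 2 / (1 + 24 / 25)) / Ph X ≤ 100 := by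
  have hP := Ph_pos X
  refine ⟨by positivity, ?_⟩
  have h := Pl_last (r := 24 / 25) (c := 1 / 100) (X := X) (by norm_num) (by norm_num)
    (by norm_num) (by norm_num)
  have h0 := Pl_nonneg (24 / 25) X
  rw [div_le_iff₀ hP]
  linarith

theorem continuous_exp_div_Ph :
    Continuous fun X : ℝ => Real.exp (-X ^ 2 / (1 + 24 / 25)) / Ph X :=
  (by fun_prop : Continuous fun X : ℝ => Real.exp (-X ^ 2 / (1 + 24 / 25))).div continuous_Ph
    fun X => (Ph_pos X).ne'

theorem Gend_integrable (ψ : ℝ) :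
    Integrable (fun x => Real.exp (-(zz 0 ψ x) ^ 2 / (1 + 24 / 25)) / Ph (zz 0 ψ x))
      (gaussianReal 0 1) := by
  refine integrable_zz continuous_exp_div_Ph (C := 100) (fun u => ?_) 0 ψ
  obtain ⟨h1, h2⟩ := exp_div_Ph_bound u
  rw [abs_of_nonneg h1]
  nlinarith [sq_nonneg u]

theorem Gend_nonneg (ψ : ℝ) : 0 ≤ Gend ψ := GE_nonneg fun x => (exp_div_Ph_bound _).1

theorem con_zero_le {ψ lam : ℝ} (hψ : 0 < ψ) (h1 : 24 / 25 ≤ lam) (h2 : lam ≤ 1) :
    con 0 ψ 0 lam ≤ (1 - qp ψ) * ψ / (1 + lam) + (cZ 0 ψ - (1 - qp ψ) * ψ / 2)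
      - Real.sqrt (2 * (1 - lam)) / (62832 / 10000) * (al 0 0 ψ * Gend ψ) := by
  have hal := al_pos (κ := 0) (ν := 0) le_rfl hψ
  have hl1 : -1 < lam := by linarith
  set c := Real.sqrt (2 * (1 - lam)) / (62832 / 10000) with hc
  have hc0 : 0 ≤ c := by rw [hc]; positivity
  have hcsq : (62832 / 10000 * c) ^ 2 ≤ 2 * (1 - lam) := by
    have : 62832 / 10000 * c = Real.sqrt (2 * (1 - lam)) := by rw [hc]; ring
    rw [this, Real.sq_sqrt (by linarith)]
  have hpt : ∀ X : ℝ, Real.log (Pl lam X)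
      ≤ Real.log (Ph X) - c * (Real.exp (-X ^ 2 / (1 + 24 / 25)) / Ph X) := by
    intro X
    have hP := Ph_pos X
    have hL := Pl_pos hl1 h2 X
    have e1 := Pl_last (r := lam) (c := c) (X := X) (by linarith) h2 hc0 hcsq
    have e2 := exp_neg_div_mono (x := X) (r := 24 / 25) (r' := lam) (by norm_num) h1
    have e3 : Pl lam X ≤ Ph X - c * Real.exp (-X ^ 2 / (1 + 24 / 25)) := by
      have := mul_le_mul_of_nonneg_left e2 hc0
      linarith
    have e4 : 0 < Pl lam X / Ph X := by positivity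
    have e5 := Real.log_le_sub_one_of_pos e4
    rw [Real.log_div hL.ne' hP.ne'] at e5
    have e6 : Pl lam X / Ph X ≤ 1 - c * (Real.exp (-X ^ 2 / (1 + 24 / 25)) / Ph X) := by
      rw [div_le_iff₀ hP]
      have : (1 - c * (Real.exp (-X ^ 2 / (1 + 24 / 25)) / Ph X)) * Ph X
          = Ph X - c * Real.exp (-X ^ 2 / (1 + 24 / 25)) := by
        field_simp
      rw [this]
      exact e3
    linarith
  obtain ⟨C, hC, hg⟩ := logPl_growth hl1 h2 0
  have i1 : Integrable (fun x => Real.log (Pl lam (zz 0 ψ x + 0 * Mi (zz 0 ψ x))))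
      (gaussianReal 0 1) := integrable_zz (continuous_logPl hl1 h2 0) hg 0 ψ
  have i3 : Integrable (fun x => Real.log (Ph (zz 0 ψ x))) (gaussianReal 0 1) :=
    integrable_zz continuous_logPh logPh_growth 0 ψ
  have i4 := (Gend_integrable ψ).const_mul (-c)
  have h3 : (GE fun x => Real.log (Pl lam (zz 0 ψ x + 0 * Mi (zz 0 ψ x))))
      ≤ (GE fun x => Real.log (Ph (zz 0 ψ x))) + -c * Gend ψ := by
    unfold Gend
    rw [← GE_mul, ← GE_add i3 i4]
    refine GE_mono i1 (i3.add i4) fun x => ?_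
    have := hpt (zz 0 ψ x)
    rw [zero_mul, add_zero]
    linarith
  have h4 := mul_le_mul_of_nonneg_left h3 hal.le
  unfold con cZ
  have h5 : (1 + (0 : ℝ)) ^ 2 * (1 - qp ψ) * ψ / (1 + lam) = (1 - qp ψ) * ψ / (1 + lam) := by
    ring
  rw [h5]
  have h6 : al 0 0 ψ * ((GE fun x => Real.log (Ph (zz 0 ψ x))) + -c * Gend ψ)
      = al 0 0 ψ * (GE fun x => Real.log (Ph (zz 0 ψ x))) - c * (al 0 0 ψ * Gend ψ) := by ring
  rw [h6] at h4
  linarith

theorem end_region {ψ lam l l5 : ℝ} (hψ : 0 < ψ) (hG : 0 < GG 0 ψ) (h1 : 24 / 25 ≤ lam)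
    (h2 : lam < 1) (hl : 2 * Esech ψ / (1 - qp ψ) ≤ Real.exp l) (hl5 : 5 ≤ Real.exp l5)
    (h0 : (1 - qp ψ) / 2 * (2 / 5)
      ≤ al 0 0 ψ * Gend ψ * (1414 / 1000) / (62832 / 10000))
    (h5 : (1 - qp ψ) / 2 * ((1 + l) / 5 + 2 / 5 + 2 / 5 * (l5 - 1))
        + (1 - qp ψ) * ψ / 5 / (98 / 25)
      ≤ al 0 0 ψ * Gend ψ * (1414 / 1000) / (62832 / 10000)) :
    ∃ e : ℝ, sp ψ lam 0 (1 / 2) e + con 0 ψ 0 lam < 2 * GG 0 ψ := by
  have hq : 0 < 1 - qp ψ := by have := qp_lt_one (ψ := ψ); linarith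
  have hal := al_pos (κ := 0) (ν := 0) le_rfl hψ
  have hS := Esech_pos ψ
  have hGe := Gend_nonneg ψ
  set S := Esech ψ with hSd
  set t := 1 - lam with ht
  have ht0 : 0 < t := by rw [ht]; linarith
  have ht1 : t ≤ 1 / 25 := by rw [ht]; linarith
  set s := Real.sqrt t with hs
  have hs0 : 0 < s := Real.sqrt_pos.2 ht0
  have hss : s ^ 2 = t := Real.sq_sqrt ht0.le
  have hs1 : s ≤ 1 / 5 := by
    rw [hs]
    refine Real.sqrt_le_iff.2 ⟨by norm_num, by linarith⟩
  set y := (1 - qp ψ) * t with hy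
  have hy0 : 0 < y := mul_pos hq ht0
  set e := 1 / 2 * Real.log (2 * S / y) with he
  refine ⟨e, ?_⟩
  have hexp : Real.exp (-2 * e) * S = y / 2 := by
    have : -2 * e = -Real.log (2 * S / y) := by rw [he]; ring
    rw [this, Real.exp_neg, Real.exp_log (by positivity)]
    field_simp
  have hsp := sp_half ψ lam e
  rw [← hSd, hexp] at hsp
  have hcon := con_zero_le hψ h1 h2.le
  rw [← ht] at hcon hsp
  -- the logarithm
  have hL : Real.log (2 * S / (1 - qp ψ)) ≤ l := by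
    rw [Real.log_le_iff_le_exp (by positivity)]
    exact hl
  have hlog5 : Real.log 5 ≤ l5 := by
    rw [Real.log_le_iff_le_exp (by norm_num)]
    exact hl5
  have hlogs : Real.log (1 / s) ≤ l5 + 1 / (5 * s) - 1 := by
    have e1 : 1 / s = 5 * (1 / (5 * s)) := by field_simp
    have e2 : 0 < 1 / (5 * s) := by positivity
    have e3 := Real.log_le_sub_one_of_pos e2
    rw [e1, Real.log_mul (by norm_num) e2.ne']
    linarith
  have hlogy : Real.log (2 * S / y) = Real.log (2 * S / (1 - qp ψ)) + 2 * Real.log (1 / s) := by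
    have e1 : 2 * S / y = (2 * S / (1 - qp ψ)) * (1 / s) ^ 2 := by
      rw [hy, ← hss]
      field_simp
    rw [e1, Real.log_mul (by positivity) (by positivity), Real.log_pow]
    push_cast
    ring
  -- `2 e ≤ l + 2 (l5 + 1/(5 s) - 1)`
  have h2e : 2 * e ≤ l + 2 * (l5 + 1 / (5 * s) - 1) := by
    have : 2 * e = Real.log (2 * S / y) := by rw [he]; ring
    rw [this, hlogy]
    linarith
  have hye : e * (1 - qp ψ) * t + y / 2
      ≤ s * ((1 - qp ψ) / 2 * (s * (1 + l) + 2 / 5 + 2 * s * (l5 - 1))) := by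
    have e1 : e * (1 - qp ψ) * t + y / 2 = (1 - qp ψ) / 2 * s ^ 2 * (1 + 2 * e) := by
      rw [hy, hss]; ring
    have e2 : s * ((1 - qp ψ) / 2 * (s * (1 + l) + 2 / 5 + 2 * s * (l5 - 1)))
        = (1 - qp ψ) / 2 * s ^ 2 * (1 + (l + 2 * (l5 + 1 / (5 * s) - 1))) := by
      field_simp
      ring
    rw [e1, e2]
    exact mul_le_mul_of_nonneg_left (by linarith) (by positivity)
  have hfrac : (1 - qp ψ) * ψ / (1 + lam) - (1 - qp ψ) * ψ / 2
      ≤ s * ((1 - qp ψ) * ψ * s / (98 / 25)) := by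
    have e1 : (1 - qp ψ) * ψ / (1 + lam) - (1 - qp ψ) * ψ / 2
        = (1 - qp ψ) * ψ * (t / (2 * (1 + lam))) := by
      have : 1 + lam ≠ 0 := by linarith
      rw [ht]
      field_simp
      ring
    have e2 : s * ((1 - qp ψ) * ψ * s / (98 / 25)) = (1 - qp ψ) * ψ * (t / (98 / 25)) := by
      rw [← hss]; ring
    rw [e1, e2]
    refine mul_le_mul_of_nonneg_left ?_ (mul_pos hq hψ).le
    exact div_le_div_of_nonneg_left ht0.le (by norm_num) (by linarith)
  have hsqrt : Real.sqrt (2 * t) = Real.sqrt 2 * s := by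
    rw [hs, Real.sqrt_mul (by norm_num)]
  have h1414 : 1414 / 1000 ≤ Real.sqrt 2 := by
    refine Real.le_sqrt_of_sq_le (by norm_num)
  rw [hsqrt] at hcon
  -- the affine function of `s`
  have hR : (1 - qp ψ) / 2 * (s * (1 + l) + 2 / 5 + 2 * s * (l5 - 1))
      + (1 - qp ψ) * ψ * s / (98 / 25) ≤ al 0 0 ψ * Gend ψ * (1414 / 1000) / (62832 / 10000) := by
    have e1 : (1 - qp ψ) / 2 * (s * (1 + l) + 2 / 5 + 2 * s * (l5 - 1))
        + (1 - qp ψ) * ψ * s / (98 / 25)
        = (1 - 5 * s) * ((1 - qp ψ) / 2 * (2 / 5))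
          + 5 * s * ((1 - qp ψ) / 2 * ((1 + l) / 5 + 2 / 5 + 2 / 5 * (l5 - 1))
            + (1 - qp ψ) * ψ / 5 / (98 / 25)) := by ring
    rw [e1]
    have e2 := mul_le_mul_of_nonneg_left h0 (show 0 ≤ 1 - 5 * s by linarith)
    have e3 := mul_le_mul_of_nonneg_left h5 (show 0 ≤ 5 * s by linarith)
    have e4 : (1 - 5 * s) * (al 0 0 ψ * Gend ψ * (1414 / 1000) / (62832 / 10000))
        + 5 * s * (al 0 0 ψ * Gend ψ * (1414 / 1000) / (62832 / 10000))
        = al 0 0 ψ * Gend ψ * (1414 / 1000) / (62832 / 10000) := by ring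
    linarith
  have hR2 : s * ((1 - qp ψ) / 2 * (s * (1 + l) + 2 / 5 + 2 * s * (l5 - 1)))
      + s * ((1 - qp ψ) * ψ * s / (98 / 25))
      ≤ Real.sqrt 2 * s / (62832 / 10000) * (al 0 0 ψ * Gend ψ) := by
    have e1 := mul_le_mul_of_nonneg_left hR hs0.le
    have e2 : 0 ≤ s * (al 0 0 ψ * Gend ψ) / (62832 / 10000) := by positivity
    have e3 := mul_le_mul_of_nonneg_left h1414 e2
    have e4 : s * (al 0 0 ψ * Gend ψ * (1414 / 1000) / (62832 / 10000))
        = s * (al 0 0 ψ * Gend ψ) / (62832 / 10000) * (1414 / 1000) := by ring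
    have e5 : Real.sqrt 2 * s / (62832 / 10000) * (al 0 0 ψ * Gend ψ)
        = s * (al 0 0 ψ * Gend ψ) / (62832 / 10000) * Real.sqrt 2 := by ring
    rw [e4] at e1
    rw [e5]
    linarith
  have hGG := GG_eq 0 ψ
  linarith

theorem end_one {ψ : ℝ} (hψ : 0 < ψ) (hG : 0 < GG 0 ψ) :
    ∃ e : ℝ, sp ψ 1 0 (1 / 2) e + con 0 ψ 0 1 < 2 * GG 0 ψ := by
  have hS := Esech_pos ψ
  set G := GG 0 ψ with hGd
  refine ⟨1 / 2 * Real.log (2 * Esech ψ / G), ?_⟩
  set e := 1 / 2 * Real.log (2 * Esech ψ / G) with he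
  have hexp : Real.exp (-2 * e) * Esech ψ = G / 2 := by
    have : -2 * e = -Real.log (2 * Esech ψ / G) := by rw [he]; ring
    rw [this, Real.exp_neg, Real.exp_log (by positivity)]
    field_simp
  have hsp := sp_half ψ 1 e
  rw [hexp] at hsp
  have hcon := con_zero_le hψ (lam := 1) (by norm_num) le_rfl
  have h0 : Real.sqrt (2 * (1 - 1)) = 0 := by norm_num
  rw [h0] at hcon
  have hGG := GG_eq 0 ψ
  rw [← hGd] at hGG
  norm_num at hcon
  nlinarith

end

end Pool.Agent.IP49
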