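import Pool.Agent.IP49.NLZ
import Pool.Agent.IP49.NLC
import Pool.Agent.IP49.NPsi

/-!
IP49, part N, (L*) side (helper49), module NLF: `N_L` from the numerical data `LData`.
-/

set_option autoImplicit false
open MeasureTheory ProbabilityTheory Filter Topology

namespace Pool.Agent.IP49

/-- the numerical data for (L*) -/
structure LData (ψ : ℝ) : Prop where
  c2 : Ecj ψ 2 ≤ 1987 / 10000
  c3 : Ecj ψ 3 ≤ 73 / 10000
  c4 : Ecj ψ 4 ≤ 887 / 10000
  c5 : Ecj ψ 5 ≤ 1096 / 100000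
  c6 : Ecj ψ 6 ≤ 495 / 10000
  cT : ET ψ ≤ 1790 / 1000
  qlo : 43605 / 100000 ≤ 1 - qp ψ
  qhi : 1 - qp ψ ≤ 436052 / 1000000
  alo : 83307 / 100000 ≤ al 0 0 ψ
  ahi : al 0 0 ψ ≤ 83309 / 100000
  sz : 34365 / 100000 ≤ sZ ψ
  cC : conC 0 ψ ≤ -388 / 1000
  e2 : ES2 ψ ≤ 3128 / 10000
  es : Esech ψ ≤ 5845 / 10000
  ge : 2297 / 1000 ≤ Gend ψ
  sA : sp ψ 0 (184 / 25) (-527 / 1000) (-73 / 20) ≤ 1425 / 1000
  sB : sp ψ 0 (167 / 50) (167 / 1000) (-159 / 100) ≤ 9183 / 10000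
  sC : sp ψ 0 (27 / 50) (91 / 100) (-73 / 200) ≤ 7061 / 10000
  sE : sp ψ 0 (-9 / 50) (119 / 125) (143 / 500) ≤ 7009 / 10000
  sG : sp ψ 0 (-19 / 100) (399 / 500) (17 / 25) ≤ 7651 / 10000
  sH : sp ψ 0 (-27 / 200) (687 / 1000) (991 / 1000) ≤ 8484 / 10000
  sI : sp ψ 0 (-13 / 125) (639 / 1000) (1163 / 1000) ≤ 904 / 1000
  sJ : sp ψ 0 (-7 / 100) (74 / 125) (174 / 125) ≤ 9855 / 10000
  sK : sp ψ 0 (-3 / 125) (53 / 100) (79 / 40) ≤ 12165 / 10000
  pI1 : C1w ψ (1 / 5) WI (37 / 50) (4 / 5) (249 / 1000) (77 / 100) ≤ -1740 / 1000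
  pI2 : 408 / 100 ≤ C2w ψ (1 / 5) WI (37 / 50) (4 / 5) (249 / 1000) (77 / 100)
  pI3 : C2w ψ (1 / 5) WI (37 / 50) (4 / 5) (249 / 1000) (77 / 100) ≤ 4085 / 1000
  pJ1 : C1w ψ (1 / 5) WJ (4 / 5) (9 / 10) (151 / 500) (17 / 20) ≤ -1648 / 1000
  pJ2 : 3635 / 1000 ≤ C2w ψ (1 / 5) WJ (4 / 5) (9 / 10) (151 / 500) (17 / 20)
  pJ3 : C2w ψ (1 / 5) WJ (4 / 5) (9 / 10) (151 / 500) (17 / 20) ≤ 3645 / 1000
  pK1 : C1w ψ (1 / 5) WK (9 / 10) (97 / 100) (56 / 125) (187 / 200) ≤ -1539 / 1000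
  pK2 : 3268 / 1000 ≤ C2w ψ (1 / 5) WK (9 / 10) (97 / 100) (56 / 125) (187 / 200)
  pK3 : C2w ψ (1 / 5) WK (9 / 10) (97 / 100) (56 / 125) (187 / 200) ≤ 3270 / 1000

theorem mul_chk {A X c A' : ℝ} (hA0 : 0 ≤ A) (hA : A ≤ A') (hX : X ≤ c) (hc : 0 ≤ c) :
    A * X ≤ A' * c :=
  (mul_le_mul_of_nonneg_left hX hA0).trans (mul_le_mul_of_nonneg_right hA hc)

theorem mul_chk' {A X c A' : ℝ} (hA0 : 0 ≤ A) (hA : A' ≤ A) (hX : X ≤ c) (hc : c ≤ 0) :
    A * X ≤ A' * c :=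
  (mul_le_mul_of_nonneg_left hX hA0).trans (mul_le_mul_of_nonpos_right hA hc)

/-- quadratic lower bound for `exp` -/
theorem quad_le_exp {x m : ℝ} (hx : 0 ≤ x) (h : m ≤ 1 + x + x ^ 2 / 2) : m ≤ Real.exp x :=
  h.trans (Real.quadratic_le_exp_of_nonneg hx)

section
variable {ψ : ℝ}

theorem LData.al0 (D : LData ψ) : 0 ≤ al 0 0 ψ := by have := D.alo; linarith

theorem LData.Fd_le' (D : LData ψ) {a : ℝ} (h0 : 0 ≤ a) (h1 : a ≤ 1) :
    Fd ψ a ≤ 1 - a ^ 7 + (a ^ 2 - a ^ 7) * (1987 / 10000) + (a ^ 3 - a ^ 7) * (73 / 10000)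
      + (a ^ 4 - a ^ 7) * (887 / 10000) + (a ^ 5 - a ^ 7) * (1096 / 100000)
      + (a ^ 6 - a ^ 7) * (495 / 10000) + a ^ 7 * (1790 / 1000) :=
  Fd_le h0 h1 D.c2 D.c3 D.c4 D.c5 D.c6 D.cT

theorem LData.Fm_le' (D : LData ψ) {a : ℝ} (h0 : 0 ≤ a) (h1 : a ≤ 1) :
    Fm ψ a ≤ 1 - a ^ 7 + (a ^ 2 - a ^ 7) * (1987 / 10000) + (a ^ 4 - a ^ 7) * (887 / 10000)
      + (a ^ 6 - a ^ 7) * (495 / 10000) + a ^ 7 * (1790 / 1000) :=
  Fm_le h0 h1 D.c2 D.c4 D.c6 D.cT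

theorem LData.cellB (D : LData ψ) (hψ : 0 < ψ) {lam : ℝ} (h1 : -(7 / 10) ≤ lam)
    (h2 : lam ≤ -(2 / 5)) :
    sp ψ lam (167 / 50) (167 / 1000) (-159 / 100) + con 0 ψ lam lam < 2 * GG 0 ψ := by
  have q1 := D.qlo
  have s1 := D.sz
  have s2 := D.sB
  refine diag_cell_neg (m0 := 1059 / 1000) (L0 := 574 / 10000) hψ (a := 2 / 5) (b := 7 / 10)
    (by norm_num) (by norm_num) (by norm_num) h1 h2 (by norm_num)
    (quad_le_exp (by norm_num) (by norm_num)) ?_ ?_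
  · have hF := D.Fm_le' (a := 2 / 5) (by norm_num) (by norm_num)
    have k := mul_chk (A' := 83309 / 100000) (c := 348 / 10000) D.al0 D.ahi
      (X := 574 / 10000 + Fm ψ (2 / 5) / (1059 / 1000) - 1) (by norm_num at hF ⊢; linarith)
      (by norm_num)
    linarith
  · have hF := D.Fm_le' (a := 7 / 10) (by norm_num) (by norm_num)
    have k := mul_chk (A' := 83309 / 100000) (c := 1546 / 10000) D.al0 D.ahi
      (X := 574 / 10000 + Fm ψ (7 / 10) / (1059 / 1000) - 1) (by norm_num at hF ⊢; linarith)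
      (by norm_num)
    linarith

theorem LData.cellC (D : LData ψ) (hψ : 0 < ψ) {lam : ℝ} (h1 : -(2 / 5) ≤ lam)
    (h2 : lam ≤ -(3 / 20)) :
    sp ψ lam (27 / 50) (91 / 100) (-73 / 200) + con 0 ψ lam lam < 2 * GG 0 ψ := by
  have q1 := D.qlo
  have s1 := D.sz
  have s2 := D.sC
  refine diag_cell_neg (m0 := 101 / 100) (L0 := 996 / 100000) hψ (a := 3 / 20) (b := 2 / 5)
    (by norm_num) (by norm_num) (by norm_num) h1 h2 (by norm_num)
    (quad_le_exp (by norm_num) (by norm_num)) ?_ ?_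
  · have hF := D.Fm_le' (a := 3 / 20) (by norm_num) (by norm_num)
    have k := mul_chk (A' := 83309 / 100000) (c := 454 / 100000) D.al0 D.ahi
      (X := 996 / 100000 + Fm ψ (3 / 20) / (101 / 100) - 1) (by norm_num at hF ⊢; linarith)
      (by norm_num)
    linarith
  · have hF := D.Fm_le' (a := 2 / 5) (by norm_num) (by norm_num)
    have k := mul_chk (A' := 83309 / 100000) (c := 348 / 10000) D.al0 D.ahi
      (X := 996 / 100000 + Fm ψ (2 / 5) / (101 / 100) - 1) (by norm_num at hF ⊢; linarith)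
      (by norm_num)
    linarith

theorem LData.cellE (D : LData ψ) (hψ : 0 < ψ) {lam : ℝ} (h1 : 3 / 20 ≤ lam)
    (h2 : lam ≤ 21 / 50) :
    sp ψ lam (-9 / 50) (119 / 125) (143 / 500) + con 0 ψ lam lam < 2 * GG 0 ψ := by
  have q1 := D.qlo
  have s1 := D.sz
  have s2 := D.sE
  refine diag_cell_pos (m0 := 101 / 100) (L0 := 996 / 100000) hψ (a := 3 / 20) (b := 21 / 50)
    (by norm_num) (by norm_num) (by norm_num) h1 h2 (by norm_num)
    (quad_le_exp (by norm_num) (by norm_num)) ?_ ?_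
  · have hF := D.Fd_le' (a := 3 / 20) (by norm_num) (by norm_num)
    have k := mul_chk (A' := 83309 / 100000) (c := 456 / 100000) D.al0 D.ahi
      (X := 996 / 100000 + Fd ψ (3 / 20) / (101 / 100) - 1) (by norm_num at hF ⊢; linarith)
      (by norm_num)
    linarith
  · have hF := D.Fd_le' (a := 21 / 50) (by norm_num) (by norm_num)
    have k := mul_chk (A' := 83309 / 100000) (c := 395 / 10000) D.al0 D.ahi
      (X := 996 / 100000 + Fd ψ (21 / 50) / (101 / 100) - 1) (by norm_num at hF ⊢; linarith)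
      (by norm_num)
    linarith

theorem LData.cellG (D : LData ψ) (hψ : 0 < ψ) {lam : ℝ} (h1 : 21 / 50 ≤ lam)
    (h2 : lam ≤ 13 / 20) :
    sp ψ lam (-19 / 100) (399 / 500) (17 / 25) + con 0 ψ lam lam < 2 * GG 0 ψ := by
  have q1 := D.qlo
  have s1 := D.sz
  have s2 := D.sG
  refine diag_cell_pos (m0 := 1067 / 1000) (L0 := 65 / 1000) hψ (a := 21 / 50) (b := 13 / 20)
    (by norm_num) (by norm_num) (by norm_num) h1 h2 (by norm_num)
    (quad_le_exp (by norm_num) (by norm_num)) ?_ ?_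
  · have hF := D.Fd_le' (a := 21 / 50) (by norm_num) (by norm_num)
    have k := mul_chk (A' := 83309 / 100000) (c := 396 / 10000) D.al0 D.ahi
      (X := 65 / 1000 + Fd ψ (21 / 50) / (1067 / 1000) - 1) (by norm_num at hF ⊢; linarith)
      (by norm_num)
    linarith
  · have hF := D.Fd_le' (a := 13 / 20) (by norm_num) (by norm_num)
    have k := mul_chk (A' := 83309 / 100000) (c := 1224 / 10000) D.al0 D.ahi
      (X := 65 / 1000 + Fd ψ (13 / 20) / (1067 / 1000) - 1) (by norm_num at hF ⊢; linarith)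
      (by norm_num)
    linarith

theorem LData.cellH (D : LData ψ) (hψ : 0 < ψ) {lam : ℝ} (h1 : 13 / 20 ≤ lam)
    (h2 : lam ≤ 37 / 50) :
    sp ψ lam (-27 / 200) (687 / 1000) (991 / 1000) + con 0 ψ lam lam < 2 * GG 0 ψ := by
  have q1 := D.qlo
  have s1 := D.sz
  have s2 := D.sH
  refine diag_cell_pos (m0 := 1165 / 1000) (L0 := 1535 / 10000) hψ (a := 13 / 20) (b := 37 / 50)
    (by norm_num) (by norm_num) (by norm_num) h1 h2 (by norm_num)
    (quad_le_exp (by norm_num) (by norm_num)) ?_ ?_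
  · have hF := D.Fd_le' (a := 13 / 20) (by norm_num) (by norm_num)
    have k := mul_chk (A' := 83309 / 100000) (c := 122 / 1000) D.al0 D.ahi
      (X := 1535 / 10000 + Fd ψ (13 / 20) / (1165 / 1000) - 1) (by norm_num at hF ⊢; linarith)
      (by norm_num)
    linarith
  · have hF := D.Fd_le' (a := 37 / 50) (by norm_num) (by norm_num)
    have k := mul_chk (A' := 83309 / 100000) (c := 1852 / 10000) D.al0 D.ahi
      (X := 1535 / 10000 + Fd ψ (37 / 50) / (1165 / 1000) - 1) (by norm_num at hF ⊢; linarith)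
      (by norm_num)
    linarith

theorem part_num {P t v : ℝ} (hP : P ≤ 112343 / 100000) (ht : 0 < 1 + t)
    (hv : (1 + 1 / 5) ^ 2 * (112343 / 100000) ≤ v * (1 + t)) :
    (1 + 1 / 5) ^ 2 * P / (1 + t) ≤ v := by
  rw [div_le_iff₀ ht]
  refine le_trans ?_ hv
  exact mul_le_mul_of_nonneg_left hP (by norm_num)

theorem LData.qpsi (D : LData ψ) (hψ : 0 < ψ) (h2 : ψ ≤ psi2) :
    (1 - qp ψ) * ψ ≤ 112343 / 100000 := by
  have q2 := D.qhi
  have hp : ψ ≤ 257636 / 100000 := h2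
  calc (1 - qp ψ) * ψ ≤ 436052 / 1000000 * ψ := mul_le_mul_of_nonneg_right q2 hψ.le
    _ ≤ 436052 / 1000000 * (257636 / 100000) := by gcongr
    _ ≤ 112343 / 100000 := by norm_num

theorem LData.cellI (D : LData ψ) (hψ : 0 < ψ) (hp : ψ ≤ psi2) (hG : 0 ≤ GG 0 ψ) {lam : ℝ}
    (h1 : 37 / 50 ≤ lam) (h2 : lam ≤ 4 / 5) :
    sp ψ lam (-13 / 125) (639 / 1000) (1163 / 1000) + con 0 ψ (1 / 5) lam < 2 * GG 0 ψ := by
  have q1 := D.qlo
  have s2 := D.sI
  have c1 := D.pI1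
  have c2 := D.pI2
  have c3 := D.pI3
  have hP := D.qpsi hψ hp
  refine part_cell (a := 37 / 50) (b := 4 / 5) (ka := 249 / 1000) (lam0 := 77 / 100) hψ hG
    (by norm_num) (by norm_num) (by norm_num) (by norm_num) h1 h2 (by norm_num) (by norm_num)
    WI_ok.1 WI_ok.2 ?_ ?_
  · have k1 := part_num (t := 37 / 50) (v := 9298 / 10000) hP (by norm_num) (by norm_num)
    have k := mul_chk' (A' := 83307 / 100000) (c := -17704 / 10000) D.al0 D.alo
      (X := C1w ψ (1 / 5) WI (37 / 50) (4 / 5) (249 / 1000) (77 / 100)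
        - 249 / 1000 * (77 / 100 - 37 / 50)
          * C2w ψ (1 / 5) WI (37 / 50) (4 / 5) (249 / 1000) (77 / 100))
      (by linarith) (by norm_num)
    linarith
  · have k1 := part_num (t := 4 / 5) (v := 8988 / 10000) hP (by norm_num) (by norm_num)
    have k := mul_chk' (A' := 83307 / 100000) (c := -1709 / 1000) D.al0 D.alo
      (X := C1w ψ (1 / 5) WI (37 / 50) (4 / 5) (249 / 1000) (77 / 100)
        + 249 / 1000 * (4 / 5 - 77 / 100)
          * C2w ψ (1 / 5) WI (37 / 50) (4 / 5) (249 / 1000) (77 / 100))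
      (by linarith) (by norm_num)
    linarith

theorem LData.cellJ (D : LData ψ) (hψ : 0 < ψ) (hp : ψ ≤ psi2) (hG : 0 ≤ GG 0 ψ) {lam : ℝ}
    (h1 : 4 / 5 ≤ lam) (h2 : lam ≤ 9 / 10) :
    sp ψ lam (-7 / 100) (74 / 125) (174 / 125) + con 0 ψ (1 / 5) lam < 2 * GG 0 ψ := by
  have q1 := D.qlo
  have s2 := D.sJ
  have c1 := D.pJ1
  have c2 := D.pJ2
  have c3 := D.pJ3
  have hP := D.qpsi hψ hp
  refine part_cell (a := 4 / 5) (b := 9 / 10) (ka := 151 / 500) (lam0 := 17 / 20) hψ hG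
    (by norm_num) (by norm_num) (by norm_num) (by norm_num) h1 h2 (by norm_num) (by norm_num)
    WJ_ok.1 WJ_ok.2 ?_ ?_
  · have k1 := part_num (t := 4 / 5) (v := 8988 / 10000) hP (by norm_num) (by norm_num)
    have k := mul_chk' (A' := 83307 / 100000) (c := -17028 / 10000) D.al0 D.alo
      (X := C1w ψ (1 / 5) WJ (4 / 5) (9 / 10) (151 / 500) (17 / 20)
        - 151 / 500 * (17 / 20 - 4 / 5)
          * C2w ψ (1 / 5) WJ (4 / 5) (9 / 10) (151 / 500) (17 / 20))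
      (by linarith) (by norm_num)
    linarith
  · have k1 := part_num (t := 9 / 10) (v := 8515 / 10000) hP (by norm_num) (by norm_num)
    have k := mul_chk' (A' := 83307 / 100000) (c := -1592 / 1000) D.al0 D.alo
      (X := C1w ψ (1 / 5) WJ (4 / 5) (9 / 10) (151 / 500) (17 / 20)
        + 151 / 500 * (9 / 10 - 17 / 20)
          * C2w ψ (1 / 5) WJ (4 / 5) (9 / 10) (151 / 500) (17 / 20))
      (by linarith) (by norm_num)
    linarith

theorem LData.cellK (D : LData ψ) (hψ : 0 < ψ) (hp : ψ ≤ psi2) (hG : 0 ≤ GG 0 ψ) {lam : ℝ}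
    (h1 : 9 / 10 ≤ lam) (h2 : lam ≤ 97 / 100) :
    sp ψ lam (-3 / 125) (53 / 100) (79 / 40) + con 0 ψ (1 / 5) lam < 2 * GG 0 ψ := by
  have q1 := D.qlo
  have s2 := D.sK
  have c1 := D.pK1
  have c2 := D.pK2
  have c3 := D.pK3
  have hP := D.qpsi hψ hp
  refine part_cell (a := 9 / 10) (b := 97 / 100) (ka := 56 / 125) (lam0 := 187 / 200) hψ hG
    (by norm_num) (by norm_num) (by norm_num) (by norm_num) h1 h2 (by norm_num) (by norm_num)
    WK_ok.1 WK_ok.2 ?_ ?_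
  · have k1 := part_num (t := 9 / 10) (v := 8515 / 10000) hP (by norm_num) (by norm_num)
    have k := mul_chk' (A' := 83307 / 100000) (c := -15902 / 10000) D.al0 D.alo
      (X := C1w ψ (1 / 5) WK (9 / 10) (97 / 100) (56 / 125) (187 / 200)
        - 56 / 125 * (187 / 200 - 9 / 10)
          * C2w ψ (1 / 5) WK (9 / 10) (97 / 100) (56 / 125) (187 / 200))
      (by linarith) (by norm_num)
    linarith
  · have k1 := part_num (t := 97 / 100) (v := 8212 / 10000) hP (by norm_num) (by norm_num)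
    have k := mul_chk' (A' := 83307 / 100000) (c := -14877 / 10000) D.al0 D.alo
      (X := C1w ψ (1 / 5) WK (9 / 10) (97 / 100) (56 / 125) (187 / 200)
        + 56 / 125 * (97 / 100 - 187 / 200)
          * C2w ψ (1 / 5) WK (9 / 10) (97 / 100) (56 / 125) (187 / 200))
      (by linarith) (by norm_num)
    linarith

theorem LData.cellEnd (D : LData ψ) (hψ : 0 < ψ) (hp : ψ ≤ psi2) (hG : 0 < GG 0 ψ) {lam : ℝ}
    (h1 : 24 / 25 ≤ lam) (h2 : lam < 1) :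
    ∃ e : ℝ, sp ψ lam 0 (1 / 2) e + con 0 ψ 0 lam < 2 * GG 0 ψ := by
  have q1 := D.qlo
  have q2 := D.qhi
  have hP := D.qpsi hψ hp
  have hq0 : 0 < 1 - qp ψ := by linarith
  have hes := D.es
  have hge : (83307 / 100000 : ℝ) * (2297 / 1000) ≤ al 0 0 ψ * Gend ψ :=
    mul_le_mul D.alo D.ge (by norm_num) D.al0
  have he1 := Real.exp_one_gt_d9
  refine end_region (l := 99 / 100) (l5 := 33 / 20) hψ hG h1 h2 ?_ ?_ ?_ ?_
  · have e1 : Real.exp (99 / 100) = Real.exp 1 * Real.exp (-(1 / 100)) := by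
      rw [← Real.exp_add]; norm_num
    have e2 : (99 / 100 : ℝ) ≤ Real.exp (-(1 / 100)) := by
      have := Real.add_one_le_exp (-(1 / 100) : ℝ); linarith
    rw [div_le_iff₀ hq0, e1]
    have e3 : (269 / 100 : ℝ) ≤ Real.exp 1 * Real.exp (-(1 / 100)) := by
      nlinarith [Real.exp_pos (-(1 / 100) : ℝ)]
    nlinarith
  · have e1 : Real.exp (33 / 20) = Real.exp 1 * Real.exp (13 / 20) := by
      rw [← Real.exp_add]; norm_num
    have e2 : (1861 / 1000 : ℝ) ≤ Real.exp (13 / 20) := quad_le_exp (by norm_num) (by norm_num)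
    rw [e1]
    nlinarith [Real.exp_pos (13 / 20 : ℝ)]
  · have : (1 - qp ψ) / 2 * (2 / 5) ≤ 83307 / 100000 * (2297 / 1000) * (1414 / 1000)
        / (62832 / 10000) := by norm_num; linarith
    refine this.trans ?_
    gcongr
  · have : (1 - qp ψ) / 2 * ((1 + 99 / 100) / 5 + 2 / 5 + 2 / 5 * (33 / 20 - 1))
        + (1 - qp ψ) * ψ / 5 / (98 / 25)
        ≤ 83307 / 100000 * (2297 / 1000) * (1414 / 1000) / (62832 / 10000) := by
      norm_num; linarith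
    refine this.trans ?_
    gcongr

theorem LData.window (D : LData ψ) (hψ : 0 < ψ) {lam : ℝ} (h0 : lam ≠ 0)
    (hl : |lam| ≤ 3 / 20) :
    sp ψ lam (-(697 / 500 * lam)) 1 (697 / 500 * lam) + con 0 ψ lam lam < 2 * GG 0 ψ :=
  near_zero_N hψ h0 hl D.c2 D.c3 D.c4 D.c5 D.c6 D.cT D.e2 D.ahi D.qlo (by norm_num)

theorem N_L_of_data (D : LData ψ) (hψ : 0 < ψ) (hp : ψ ≤ psi2) (hG : 0 < GG 0 ψ) {lam : ℝ}
    (hl : lam ∈ Set.Icc (-1 : ℝ) 1) (hl0 : lam ≠ 0) :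
    (lam ≤ 0 ∧ ∃ l s e : ℝ, sp ψ lam l s e + conC 0 ψ < 2 * GG 0 ψ) ∨
    (-1 < lam ∧ ∃ l s e th : ℝ, sp ψ lam l s e + con 0 ψ th lam < 2 * GG 0 ψ) := by
  obtain ⟨hl1, hl2⟩ := hl
  by_cases r1 : lam ≤ -7 / 10
  · left
    refine ⟨by linarith, _, _, _, conC_region hψ hG.le r1 ?_⟩
    have := D.sA
    have := D.cC
    have := D.qlo
    linarith
  have r1' : -(7 / 10) ≤ lam := by linarith
  right
  refine ⟨by linarith, ?_⟩
  by_cases r2 : lam ≤ -(2 / 5)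
  · exact ⟨_, _, _, _, D.cellB hψ r1' r2⟩
  by_cases r3 : lam ≤ -(3 / 20)
  · exact ⟨_, _, _, _, D.cellC hψ (by linarith) r3⟩
  by_cases r4 : lam ≤ 3 / 20
  · exact ⟨_, _, _, _, D.window hψ hl0 (abs_le.2 ⟨by linarith, r4⟩)⟩
  by_cases r5 : lam ≤ 21 / 50
  · exact ⟨_, _, _, _, D.cellE hψ (by linarith) r5⟩
  by_cases r6 : lam ≤ 13 / 20
  · exact ⟨_, _, _, _, D.cellG hψ (by linarith) r6⟩
  by_cases r7 : lam ≤ 37 / 50
  · exact ⟨_, _, _, _, D.cellH hψ (by linarith) r7⟩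
  by_cases r8 : lam ≤ 4 / 5
  · exact ⟨_, _, _, _, D.cellI hψ hp hG.le (by linarith) r8⟩
  by_cases r9 : lam ≤ 9 / 10
  · exact ⟨_, _, _, _, D.cellJ hψ hp hG.le (by linarith) r9⟩
  by_cases r10 : lam ≤ 97 / 100
  · exact ⟨_, _, _, _, D.cellK hψ hp hG.le (by linarith) r10⟩
  rcases lt_or_eq_of_le hl2 with r11 | r11
  · obtain ⟨e, he⟩ := D.cellEnd hψ hp hG (lam := lam) (by linarith) r11
    exact ⟨_, _, _, _, he⟩
  · obtain ⟨e, he⟩ := end_one hψ hG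
    rw [r11]
    exact ⟨_, _, _, _, he⟩

end

end Pool.Agent.IP49
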