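import Pool.Agent.IP49.RSA

/-!
IP49, part N, (U*) side (owner helper60). Normalised form of the first moment exponent at
`κ = ν = 0`. Put `q = qp ψ`, `v = √q/√(1-q)`, `u = v Z`, `r = √ψ`, `h = r Z`,
`T(ρ) = √(1-q)/√(1-ρ²q)`. With the test `A₁ = th/√(1-q)`, `A₂ = A √(1-q)` one has
`yt ψ A₁ A₂ (√q x) = th (v x) + A Mi(-(v x)) =: yn v th A x`, because
`FF 0 0 q (√q x) = Mi(-(v x))/√(1-q)`. With `k = n1/n0` (and `α n0 = ψ (1-q)`, i.e. `al_EF2`):
`cF = √(1-q) k`, `cF/√(1-ρ²q) = k T`, `cF² ψ/2 = k² (1-q) ψ/2`, `Ct - Cy = α n3`,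
`ρ Ch/√(1-ρ²q) = ρ T α n2`.

PROOFS. Everything is algebra under the integral sign plus integrability
(`integrable_of_growth`; `|Mi z| ≤ 1+|z|`, `|log Ph z| ≤ 2+z²`, `|lc x| ≤ |x| + log 2`).
`Sp1` is convex in `s` with subgradient `Sp1p`: integrate the pointwise tangent inequality
`lc y ≥ lc x + tanh x (y - x)` (`lc` convex). `Sp1p` is nondecreasing in `s`: pointwise
`s ↦ h tanh(l m + s h)` is nondecreasing.
-/

set_option autoImplicit false
open MeasureTheory ProbabilityTheory Filter Topology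

namespace Pool.Agent.IP49

noncomputable section

/-- `v = √(q/(1-q))` -/
def vv (ψ : ℝ) : ℝ := Real.sqrt (qp ψ) / Real.sqrt (1 - qp ψ)

/-- the normalised test function -/
def yn (v th A x : ℝ) : ℝ := th * (v * x) + A * Mi (-(v * x))

def n0 (v : ℝ) : ℝ := GE fun x => Mi (-(v * x)) ^ 2

def n1 (v th A : ℝ) : ℝ := GE fun x => Mi (-(v * x)) * Mi (-yn v th A x)

def n2 (v th A : ℝ) : ℝ := GE fun x => v * x * Mi (-yn v th A x)

def n3 (v th A : ℝ) : ℝ :=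
  GE fun x => Real.log (Ph (-yn v th A x)) - yn v th A x * Mi (-yn v th A x)

/-- spin part -/
def Sp1 (r l s : ℝ) : ℝ := GE fun x => lc (l * Real.tanh (r * x) + s * (r * x))

/-- its derivative in `s` -/
def Sp1p (r l s : ℝ) : ℝ :=
  GE fun x => r * x * Real.tanh (l * Real.tanh (r * x) + s * (r * x))

/-- `T(ρ) = √(1-q)/√(1-ρ²q)` -/
def Tr (ψ rho : ℝ) : ℝ := Real.sqrt (1 - qp ψ) / Real.sqrt (1 - rho ^ 2 * qp ψ)

/-- normalised `J` -/
def JN (ψ rho l th A : ℝ) : ℝ :=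
  Sp1 (Real.sqrt ψ) l (n1 (vv ψ) th A / n0 (vv ψ) * Tr ψ rho) - l * rho * qp ψ
    - (n1 (vv ψ) th A / n0 (vv ψ)) ^ 2 * (1 - qp ψ) * ψ / 2
    + al 0 0 ψ * n3 (vv ψ) th A + rho * Tr ψ rho * (al 0 0 ψ * n2 (vv ψ) th A)

/-! ### functions of polynomial growth -/

/-- polynomial growth -/
private def PG57 (f : ℝ → ℝ) : Prop :=
  Measurable f ∧ ∃ (C : ℝ) (k : ℕ), 0 ≤ C ∧ ∀ x, |f x| ≤ C * (1 + x ^ 2) ^ k

private theorem one_le57 (x : ℝ) : 1 ≤ 1 + x ^ 2 := by nlinarith [sq_nonneg x]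

private theorem pg_int {f : ℝ → ℝ} (hf : PG57 f) : Integrable f (gaussianReal 0 1) := by
  obtain ⟨hm, C, k, hC, h⟩ := hf
  exact integrable_of_growth hm h

private theorem pg_const (c : ℝ) : PG57 (fun _ => c) :=
  ⟨measurable_const, |c|, 0, abs_nonneg c, fun x => by simp⟩

private theorem pg_id : PG57 (fun x => x) := by
  refine ⟨measurable_id, 1, 1, zero_le_one, fun x => ?_⟩
  rw [one_mul, pow_one, abs_le]
  constructor <;> nlinarith [sq_nonneg (x - 1), sq_nonneg (x + 1)]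

private theorem pg_add {f g : ℝ → ℝ} (hf : PG57 f) (hg : PG57 g) : PG57 (fun x => f x + g x) := by
  obtain ⟨hm, C, k, hC, h⟩ := hf
  obtain ⟨hm', C', k', hC', h'⟩ := hg
  refine ⟨hm.add hm', C + C', k + k', add_nonneg hC hC', fun x => ?_⟩
  have h1 : (1 + x ^ 2) ^ k ≤ (1 + x ^ 2) ^ (k + k') :=
    pow_le_pow_right₀ (one_le57 x) (Nat.le_add_right _ _)
  have h2 : (1 + x ^ 2) ^ k' ≤ (1 + x ^ 2) ^ (k + k') :=
    pow_le_pow_right₀ (one_le57 x) (Nat.le_add_left _ _)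
  calc |f x + g x| ≤ |f x| + |g x| := abs_add_le _ _
    _ ≤ C * (1 + x ^ 2) ^ k + C' * (1 + x ^ 2) ^ k' := add_le_add (h x) (h' x)
    _ ≤ C * (1 + x ^ 2) ^ (k + k') + C' * (1 + x ^ 2) ^ (k + k') :=
        add_le_add (mul_le_mul_of_nonneg_left h1 hC) (mul_le_mul_of_nonneg_left h2 hC')
    _ = (C + C') * (1 + x ^ 2) ^ (k + k') := by ring

private theorem pg_mul {f g : ℝ → ℝ} (hf : PG57 f) (hg : PG57 g) : PG57 (fun x => f x * g x) := by
  obtain ⟨hm, C, k, hC, h⟩ := hf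
  obtain ⟨hm', C', k', hC', h'⟩ := hg
  refine ⟨hm.mul hm', C * C', k + k', mul_nonneg hC hC', fun x => ?_⟩
  have h0 : 0 ≤ 1 + x ^ 2 := le_trans zero_le_one (one_le57 x)
  calc |f x * g x| = |f x| * |g x| := abs_mul _ _
    _ ≤ (C * (1 + x ^ 2) ^ k) * (C' * (1 + x ^ 2) ^ k') :=
        mul_le_mul (h x) (h' x) (abs_nonneg _) (mul_nonneg hC (pow_nonneg h0 _))
    _ = (C * C') * (1 + x ^ 2) ^ (k + k') := by rw [pow_add]; ring

private theorem pg_neg {f : ℝ → ℝ} (hf : PG57 f) : PG57 (fun x => -f x) := by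
  obtain ⟨hm, C, k, hC, h⟩ := hf
  exact ⟨hm.neg, C, k, hC, fun x => by rw [abs_neg]; exact h x⟩

private theorem pg_sub {f g : ℝ → ℝ} (hf : PG57 f) (hg : PG57 g) : PG57 (fun x => f x - g x) := by
  have := pg_add hf (pg_neg hg)
  simpa only [sub_eq_add_neg] using this

/-- domination -/
private theorem pg_dom {f g : ℝ → ℝ} (hg : Measurable g) (hf : PG57 f) {a b : ℝ} (ha : 0 ≤ a)
    (hb : 0 ≤ b) (h : ∀ x, |g x| ≤ a + b * |f x|) : PG57 g := by
  obtain ⟨hm, C, k, hC, h'⟩ := hf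
  refine ⟨hg, a + b * C, k, add_nonneg ha (mul_nonneg hb hC), fun x => ?_⟩
  have h1 : 1 ≤ (1 + x ^ 2) ^ k := one_le_pow₀ (one_le57 x)
  calc |g x| ≤ a + b * |f x| := h x
    _ ≤ a * (1 + x ^ 2) ^ k + b * (C * (1 + x ^ 2) ^ k) :=
        add_le_add (le_mul_of_one_le_right ha h1) (mul_le_mul_of_nonneg_left (h' x) hb)
    _ = (a + b * C) * (1 + x ^ 2) ^ k := by ring

private theorem pg_Mi {f : ℝ → ℝ} (hf : PG57 f) : PG57 (fun x => Mi (f x)) := by
  refine pg_dom (continuous_Mi.measurable.comp hf.1) hf zero_le_one zero_le_one fun x => ?_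
  rw [abs_of_pos (Mi_pos _), one_mul]
  exact Mi_le_abs _

private theorem pg_tanh {f : ℝ → ℝ} (hf : PG57 f) : PG57 (fun x => Real.tanh (f x)) := by
  refine pg_dom (continuous_tanh'.measurable.comp hf.1) hf zero_le_one zero_le_one fun x => ?_
  have h1 := tanh_sq_lt (f x)
  have h2 : |Real.tanh (f x)| ≤ 1 := by
    rw [abs_le]
    constructor <;> nlinarith
  have := abs_nonneg (f x)
  linarith

private theorem continuous_lc57 : Continuous lc :=
  continuous_iff_continuousAt.2 fun x => (hasDerivAt_lc x).continuousAt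

private theorem pg_lc {f : ℝ → ℝ} (hf : PG57 f) : PG57 (fun x => lc (f x)) := by
  refine pg_dom (continuous_lc57.measurable.comp hf.1) hf (Real.log_nonneg one_le_two)
    zero_le_one fun x => ?_
  obtain ⟨h1, h2⟩ := lc_bounds (f x)
  rw [abs_of_nonneg (le_trans (abs_nonneg _) h1)]
  linarith

private theorem pg_logPh {f : ℝ → ℝ} (hf : PG57 f) : PG57 (fun x => Real.log (Ph (f x))) := by
  have hm : Measurable (fun z => Real.log (Ph z)) :=
    Real.measurable_log.comp continuous_Ph.measurable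
  refine pg_dom (f := fun x => f x * f x) (hm.comp hf.1) (pg_mul hf hf) zero_le_two zero_le_one
    fun x => ?_
  have h1 := logPh_nonpos (f x)
  have h2 := logPh_ge (f x)
  rw [abs_of_nonpos h1, one_mul, abs_of_nonneg (mul_self_nonneg _)]
  nlinarith

private theorem pg_lin (v : ℝ) : PG57 (fun x => v * x) := pg_mul (pg_const v) pg_id

private theorem pg_yn (v th A : ℝ) : PG57 (fun x => yn v th A x) :=
  pg_add (pg_mul (pg_const th) (pg_lin v)) (pg_mul (pg_const A) (pg_Mi (pg_neg (pg_lin v))))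

private theorem pg_arg (r l s : ℝ) : PG57 (fun x => l * Real.tanh (r * x) + s * (r * x)) :=
  pg_add (pg_mul (pg_const l) (pg_tanh (pg_lin r))) (pg_mul (pg_const s) (pg_lin r))

private theorem GE_sub57 {f g : ℝ → ℝ} (hf : PG57 f) (hg : PG57 g) :
    GE (fun x => f x - g x) = GE f - GE g := by
  unfold GE
  exact integral_sub (pg_int hf) (pg_int hg)

private theorem q1_pos57 (ψ : ℝ) : 0 < 1 - qp ψ := by
  have := qp_lt_one (ψ := ψ)
  linarith

private theorem s1_pos57 (ψ : ℝ) : 0 < Real.sqrt (1 - qp ψ) := Real.sqrt_pos.2 (q1_pos57 ψ)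

private theorem s1_sq57 (ψ : ℝ) : Real.sqrt (1 - qp ψ) * Real.sqrt (1 - qp ψ) = 1 - qp ψ :=
  Real.mul_self_sqrt (q1_pos57 ψ).le

private theorem FF_norm57 (ψ x : ℝ) :
    FF 0 0 (qp ψ) (Real.sqrt (qp ψ) * x) = Mi (-(vv ψ * x)) / Real.sqrt (1 - qp ψ) := by
  have h1 : tp 0 (qp ψ) = Real.sqrt (1 - qp ψ) := by unfold tp; rw [add_zero]
  unfold FF
  rw [h1]
  congr 2
  unfold vv
  have := (s1_pos57 ψ).ne'
  field_simp
  ring

private theorem sq_vv57 (ψ x : ℝ) :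
    Real.sqrt (qp ψ) * x = Real.sqrt (1 - qp ψ) * (vv ψ * x) := by
  unfold vv
  have := (s1_pos57 ψ).ne'
  field_simp

theorem n0_pos (v : ℝ) : 0 < n0 v := by
  unfold n0
  refine GE_pos ?_ fun x => pow_pos (Mi_pos _) 2
  have h := pg_mul (pg_Mi (pg_neg (pg_lin v))) (pg_Mi (pg_neg (pg_lin v)))
  have h2 := pg_int h
  simpa only [pow_two] using h2

theorem al_n0 {ψ : ℝ} (hψ : 0 < ψ) : al 0 0 ψ * n0 (vv ψ) = ψ * (1 - qp ψ) := by
  have h1 := al_EF2 (κ := 0) (ν := 0) (ψ := ψ) le_rfl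
  have h2 : (GE fun x => FF 0 0 (qp ψ) (Real.sqrt (qp ψ) * x) ^ 2) =
      (1 - qp ψ)⁻¹ * n0 (vv ψ) := by
    unfold n0
    rw [← GE_mul]
    congr 1
    funext x
    rw [FF_norm57, div_pow, pow_two (Real.sqrt (1 - qp ψ)), s1_sq57]
    rw [div_eq_inv_mul]
  rw [h2] at h1
  have h3 := (q1_pos57 ψ).ne'
  have h4 : al 0 0 ψ * n0 (vv ψ) =
      (al 0 0 ψ * ((1 - qp ψ)⁻¹ * n0 (vv ψ))) * (1 - qp ψ) := by
    field_simp
  rw [h4, h1]

private theorem yt_eq57 (ψ th A x : ℝ) :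
    yt ψ (th / Real.sqrt (1 - qp ψ)) (A * Real.sqrt (1 - qp ψ)) (Real.sqrt (qp ψ) * x) =
      yn (vv ψ) th A x := by
  unfold yt yn
  rw [FF_norm57, sq_vv57]
  have := (s1_pos57 ψ).ne'
  field_simp

theorem JJ_eq_JN {ψ rho l th A : ℝ} (hψ : 0 < ψ) (hr : rho ^ 2 * qp ψ < 1) :
    JJ 0 0 ψ rho l (th / Real.sqrt (1 - qp ψ)) (A * Real.sqrt (1 - qp ψ))
      = JN ψ rho l th A := by
  have hs := (s1_pos57 ψ).ne'
  have hs2 := s1_sq57 ψ
  have hrs : Real.sqrt (1 - rho ^ 2 * qp ψ) ≠ 0 := (Real.sqrt_pos.2 (by linarith)).ne'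
  have hn0 := (n0_pos (vv ψ)).ne'
  have hal := al_n0 hψ
  -- `Ct - Cy`
  have hCt : Ct 0 0 ψ (th / Real.sqrt (1 - qp ψ)) (A * Real.sqrt (1 - qp ψ)) -
      Cy 0 0 ψ (th / Real.sqrt (1 - qp ψ)) (A * Real.sqrt (1 - qp ψ)) =
      al 0 0 ψ * n3 (vv ψ) th A := by
    unfold Ct Cy n3
    simp only [yt_eq57]
    rw [GE_sub57 (pg_logPh (pg_neg (pg_yn (vv ψ) th A)))
      (pg_mul (pg_yn (vv ψ) th A) (pg_Mi (pg_neg (pg_yn (vv ψ) th A))))]
    ring
  have hcF : cF 0 0 ψ (th / Real.sqrt (1 - qp ψ)) (A * Real.sqrt (1 - qp ψ)) =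
      Real.sqrt (1 - qp ψ) * (n1 (vv ψ) th A / n0 (vv ψ)) := by
    unfold cF
    simp only [yt_eq57, FF_norm57]
    have h1 : (GE fun x => Mi (-(vv ψ * x)) / Real.sqrt (1 - qp ψ) * Mi (-yn (vv ψ) th A x)) =
        (Real.sqrt (1 - qp ψ))⁻¹ * n1 (vv ψ) th A := by
      unfold n1
      rw [← GE_mul]
      congr 1
      funext x
      ring
    rw [h1]
    have h2 : al 0 0 ψ = ψ * (1 - qp ψ) / n0 (vv ψ) := by
      rw [eq_div_iff hn0]; exact hal
    have h5 : (1 - qp ψ) * (Real.sqrt (1 - qp ψ))⁻¹ = Real.sqrt (1 - qp ψ) := by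
      rw [mul_inv_eq_iff_eq_mul₀ hs]
      exact hs2.symm
    rw [h2, show ψ * (1 - qp ψ) / n0 (vv ψ) * ((Real.sqrt (1 - qp ψ))⁻¹ * n1 (vv ψ) th A) / ψ =
      ((1 - qp ψ) * (Real.sqrt (1 - qp ψ))⁻¹) * (n1 (vv ψ) th A / n0 (vv ψ)) * (ψ / ψ) by ring,
      h5, div_self hψ.ne', mul_one]
  have hCh : Ch 0 0 ψ (th / Real.sqrt (1 - qp ψ)) (A * Real.sqrt (1 - qp ψ)) =
      Real.sqrt (1 - qp ψ) * (al 0 0 ψ * n2 (vv ψ) th A) := by
    unfold Ch
    simp only [yt_eq57]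
    have h1 : (GE fun x => Real.sqrt (qp ψ) * x * Mi (-yn (vv ψ) th A x)) =
        Real.sqrt (1 - qp ψ) * n2 (vv ψ) th A := by
      unfold n2
      rw [← GE_mul]
      congr 1
      funext x
      rw [sq_vv57]
      ring
    rw [h1]
    ring
  have hsq : (Real.sqrt (1 - qp ψ) * (n1 (vv ψ) th A / n0 (vv ψ))) ^ 2 * ψ / 2 =
      (n1 (vv ψ) th A / n0 (vv ψ)) ^ 2 * (1 - qp ψ) * ψ / 2 := by
    rw [mul_pow, pow_two (Real.sqrt (1 - qp ψ)), hs2]
    ring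
  have hk : Real.sqrt (1 - qp ψ) * (n1 (vv ψ) th A / n0 (vv ψ)) /
      Real.sqrt (1 - rho ^ 2 * qp ψ) = n1 (vv ψ) th A / n0 (vv ψ) * Tr ψ rho := by
    unfold Tr
    ring
  have hr2 : (rho * (Real.sqrt (1 - qp ψ) * (al 0 0 ψ * n2 (vv ψ) th A)) - 0 *
      C1 0 0 ψ (th / Real.sqrt (1 - qp ψ)) (A * Real.sqrt (1 - qp ψ))) /
      Real.sqrt (1 - rho ^ 2 * qp ψ) = rho * Tr ψ rho * (al 0 0 ψ * n2 (vv ψ) th A) := by
    unfold Tr
    ring
  unfold JJ
  rw [hCh, hcF, hsq, hk, hr2]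
  have h3 : Cy 0 0 ψ (th / Real.sqrt (1 - qp ψ)) (A * Real.sqrt (1 - qp ψ)) =
      Ct 0 0 ψ (th / Real.sqrt (1 - qp ψ)) (A * Real.sqrt (1 - qp ψ)) -
      al 0 0 ψ * n3 (vv ψ) th A := by
    rw [← hCt]; ring
  rw [h3]
  unfold JN Sp1
  ring

theorem Tr_sq {ψ rho : ℝ} (hψ : 0 < ψ) (hr : rho ^ 2 * qp ψ < 1) :
    Tr ψ rho ^ 2 * (1 - rho ^ 2 * qp ψ) = 1 - qp ψ := by
  unfold Tr
  have h1 : (0 : ℝ) < 1 - rho ^ 2 * qp ψ := by linarith
  rw [div_pow, Real.sq_sqrt h1.le, Real.sq_sqrt (q1_pos57 ψ).le]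
  exact div_mul_cancel₀ _ h1.ne'

theorem Tr_pos {ψ rho : ℝ} (hψ : 0 < ψ) (hr : rho ^ 2 * qp ψ < 1) : 0 < Tr ψ rho :=
  div_pos (s1_pos57 ψ) (Real.sqrt_pos.2 (by linarith))

/-- tangent line of `lc` -/
private theorem lc_tangent57 (x y : ℝ) : lc x + Real.tanh x * (y - x) ≤ lc y := by
  have hcx := Real.cosh_pos x
  have hcy := Real.cosh_pos y
  have h1 : Real.cosh y = Real.cosh x * (Real.cosh (y - x) + Real.tanh x * Real.sinh (y - x)) := by
    have h2 : Real.cosh y = Real.cosh (x + (y - x)) := by congr 1; ring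
    rw [h2, Real.cosh_add, Real.tanh_eq_sinh_div_cosh]
    field_simp
  have ht : |Real.tanh x| ≤ 1 := by
    have h3 := tanh_sq_lt x
    rw [abs_le]
    constructor <;> nlinarith
  obtain ⟨ht1, ht2⟩ := abs_le.1 ht
  have h4 : Real.exp (Real.tanh x * (y - x)) ≤
      Real.cosh (y - x) + Real.tanh x * Real.sinh (y - x) := by
    have hc := convexOn_exp.2 (Set.mem_univ (y - x)) (Set.mem_univ (-(y - x)))
      (show 0 ≤ (1 + Real.tanh x) / 2 by linarith) (show 0 ≤ (1 - Real.tanh x) / 2 by linarith)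
      (by ring)
    simp only [smul_eq_mul] at hc
    have e1 : (1 + Real.tanh x) / 2 * (y - x) + (1 - Real.tanh x) / 2 * -(y - x) =
        Real.tanh x * (y - x) := by ring
    rw [e1] at hc
    refine hc.trans (le_of_eq ?_)
    rw [Real.cosh_eq, Real.sinh_eq]
    ring
  have h5 : 0 < Real.cosh (y - x) + Real.tanh x * Real.sinh (y - x) :=
    lt_of_lt_of_le (Real.exp_pos _) h4
  unfold lc
  rw [h1, ← mul_assoc, Real.log_mul (by positivity) h5.ne']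
  have h6 : Real.tanh x * (y - x) ≤
      Real.log (Real.cosh (y - x) + Real.tanh x * Real.sinh (y - x)) := by
    rw [Real.le_log_iff_exp_le h5]
    exact h4
  linarith

theorem Sp1_subgrad (r l s s' : ℝ) : Sp1 r l s + Sp1p r l s * (s' - s) ≤ Sp1 r l s' := by
  have h1 : Sp1 r l s + Sp1p r l s * (s' - s) =
      GE (fun x => lc (l * Real.tanh (r * x) + s * (r * x)) +
        (s' - s) * (r * x * Real.tanh (l * Real.tanh (r * x) + s * (r * x)))) := by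
    rw [GE_add (pg_int (pg_lc (pg_arg r l s))) (pg_int (pg_mul (pg_const (s' - s))
      (pg_mul (pg_lin r) (pg_tanh (pg_arg r l s)))))]
    rw [GE_mul]
    unfold Sp1 Sp1p
    ring
  rw [h1]
  unfold Sp1
  refine GE_mono (pg_int (pg_add (pg_lc (pg_arg r l s)) (pg_mul (pg_const (s' - s))
      (pg_mul (pg_lin r) (pg_tanh (pg_arg r l s)))))) (pg_int (pg_lc (pg_arg r l s')))
    fun x => ?_
  have h2 := lc_tangent57 (l * Real.tanh (r * x) + s * (r * x))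
    (l * Real.tanh (r * x) + s' * (r * x))
  have h3 : (l * Real.tanh (r * x) + s' * (r * x)) - (l * Real.tanh (r * x) + s * (r * x)) =
      (s' - s) * (r * x) := by ring
  rw [h3] at h2
  refine le_trans (le_of_eq ?_) h2
  ring

private theorem tanh_mono57 : Monotone Real.tanh := by
  apply monotone_of_deriv_nonneg
  · exact fun x => (hasDerivAt_tanh x).differentiableAt
  · intro x
    rw [(hasDerivAt_tanh x).deriv]
    have := tanh_sq_lt x
    linarith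

theorem Sp1p_mono (r l : ℝ) {s s' : ℝ} (h : s ≤ s') : Sp1p r l s ≤ Sp1p r l s' := by
  unfold Sp1p
  refine GE_mono (pg_int (pg_mul (pg_lin r) (pg_tanh (pg_arg r l s))))
    (pg_int (pg_mul (pg_lin r) (pg_tanh (pg_arg r l s')))) fun x => ?_
  rcases le_total 0 (r * x) with h0 | h0
  · exact mul_le_mul_of_nonneg_left (tanh_mono57 (by nlinarith)) h0
  · exact mul_le_mul_of_nonpos_left (tanh_mono57 (by nlinarith)) h0

theorem Sp1_nonneg (r l s : ℝ) : 0 ≤ Sp1 r l s := by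
  unfold Sp1
  exact GE_nonneg fun x => le_trans (abs_nonneg _) (lc_bounds _).1

/-- consequence for `UStar` -/
theorem UStar_of_JN {ψ : ℝ} (hψ : 0 < ψ)
    (h : ∀ rho : ℝ, rho ^ 2 * qp ψ ≤ 1 →
      (rho ^ 2 * qp ψ < 1 ∧ ∃ l th A : ℝ, JN ψ rho l th A ≤ 0) ∨ (∃ l : ℝ, J2 ψ rho l ≤ 0)) :
    UStar 0 0 ψ 0 := by
  intro rho hr
  rcases h rho hr with ⟨h1, l, th, A, h2⟩ | h1
  · left
    refine ⟨h1, l, th / Real.sqrt (1 - qp ψ), A * Real.sqrt (1 - qp ψ), ?_⟩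
    rw [JJ_eq_JN hψ h1]
    exact h2
  · right
    exact h1

end

end Pool.Agent.IP49
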