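import Pool.Agent.IP49.LSmA
import Pool.Agent.IP49.LCoef

/-!
IP49, part N, (L*) side (helper49), module NLA: the diagonal test `th = lam`, upper bound of the
exponent of a pair which is a polynomial in `lam`, and its convexity on cells.

Notation: `z = zz 0 ψ x`, `Ecj ψ j = GE ta_j(z)²/j!`, `ET ψ = GE T1(z)`.
`Fd ψ lam = ∑_{j<7} lam^j Ecj + |lam|^7 (ET - ∑_{j<7} Ecj)` bounds `GE Tl lam z` (`Tl_le` with
`J = 7`, `cW_eq`).

PROOFS. `GE_Tl_le`: integrate `Tl_le` (`Tl` is continuous in `z` for fixed `lam` because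
`Pl lam` is (`continuous_Pl_x`), `0 ≤ Tl lam z ≤ T1 z` by `Tl_le` with `J = 0`,
`T1 z ≤ 8 (1 + |z|)`; `ta_growth` gives integrability of `ta j (z) ^ 2`; use `integrable_zz`-type
lemmas / `integrable_of_growth`; `zz` has linear growth `growth_zz`).
`con_diag_le`: `con_lam`, and pointwise `log T ≤ L0 + T/m0 - 1` for `T > 0`, `0 < m0 ≤ exp L0`
(`log T = log m0 + log (T/m0)`, `Real.log_le_sub_one_of_pos`); `al > 0` (`al_pos`).
`sp_affine`: by definition. `pow_chord`: convexity of `x ↦ x^k` on `[0,∞)` (`convexOn_pow`).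
`Fd_chord`: for `0 ≤ lam` `Fd` is a polynomial with nonnegative coefficients
(`ET - ∑ Ecj ≥ 0` from `cW_sum_le`, `Ecj ≥ 0`). `Fd_neg_le`: odd terms are `≤ 0`.
`Fm_chord`: `Fm ψ t` is a polynomial in `t` with nonnegative coefficients.
-/

set_option autoImplicit false
open MeasureTheory ProbabilityTheory Filter Topology

namespace Pool.Agent.IP49

noncomputable section

def Ecj (ψ : ℝ) (j : ℕ) : ℝ := GE fun x => ta j (zz 0 ψ x) ^ 2 / j.factorial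

def ET (ψ : ℝ) : ℝ := GE fun x => T1 (zz 0 ψ x)

/-- the remainder coefficient -/
def ER (ψ : ℝ) : ℝ := ET ψ - (1 + Ecj ψ 2 + Ecj ψ 3 + Ecj ψ 4 + Ecj ψ 5 + Ecj ψ 6)

/-- bound for `lam ≥ 0` -/
def Fd (ψ lam : ℝ) : ℝ :=
  1 + Ecj ψ 2 * lam ^ 2 + Ecj ψ 3 * lam ^ 3 + Ecj ψ 4 * lam ^ 4 + Ecj ψ 5 * lam ^ 5
    + Ecj ψ 6 * lam ^ 6 + ER ψ * lam ^ 7

/-- bound for `lam = -t ≤ 0` -/
def Fm (ψ t : ℝ) : ℝ :=
  1 + Ecj ψ 2 * t ^ 2 + Ecj ψ 4 * t ^ 4 + Ecj ψ 6 * t ^ 6 + ER ψ * t ^ 7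

theorem Ecj_nonneg (ψ : ℝ) (j : ℕ) : 0 ≤ Ecj ψ j :=
  GE_nonneg fun _ => div_nonneg (sq_nonneg _) (Nat.cast_nonneg _)

/-- integrability of continuous functions of `zz` of polynomial growth -/
theorem integrable_zz_pow {G : ℝ → ℝ} (hG : Continuous G) {C : ℝ} {n : ℕ} (hC : 0 ≤ C)
    (hb : ∀ u, |G u| ≤ C * (1 + |u|) ^ n) (κ ψ : ℝ) :
    Integrable (fun x => G (zz κ ψ x)) (gaussianReal 0 1) := by
  obtain ⟨D, hD, h⟩ := growth_zz κ ψ
  refine integrable_of_growth (hG.comp (continuous_zz κ ψ)).measurable (C := C * (2 ^ n * D ^ n))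
    (k := n) fun x => ?_
  refine (hb _).trans ?_
  rw [mul_assoc]
  apply mul_le_mul_of_nonneg_left _ hC
  have h1 : 1 + |zz κ ψ x| ≤ 2 * (D * (1 + x ^ 2)) := by
    have h2 := h x
    have h3 := sq_abs (zz κ ψ x)
    nlinarith [sq_nonneg (|zz κ ψ x| - 1)]
  calc (1 + |zz κ ψ x|) ^ n ≤ (2 * (D * (1 + x ^ 2))) ^ n :=
        pow_le_pow_left₀ (by positivity) h1 n
    _ = 2 ^ n * D ^ n * (1 + x ^ 2) ^ n := by rw [mul_pow, mul_pow]; ring

theorem integrable_ta (ψ : ℝ) (j : ℕ) :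
    Integrable (fun x => ta j (zz 0 ψ x) ^ 2 / j.factorial) (gaussianReal 0 1) := by
  obtain ⟨C, hC, h⟩ := ta_growth j
  have hf : (0 : ℝ) < j.factorial := by exact_mod_cast Nat.factorial_pos j
  refine integrable_zz_pow (G := fun u => ta j u ^ 2 / j.factorial)
    (((continuous_ta j).pow 2).div_const _) (C := C ^ 2 / j.factorial) (n := j * 2)
    (by positivity) (fun u => ?_) 0 ψ
  rw [abs_div, abs_of_pos hf, abs_of_nonneg (sq_nonneg _), div_mul_eq_mul_div]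
  apply div_le_div_of_nonneg_right _ hf.le
  rw [← sq_abs (ta j u), pow_mul, ← mul_pow]
  exact pow_le_pow_left₀ (abs_nonneg _) (h u) 2

theorem integrable_T1 (ψ : ℝ) : Integrable (fun x => T1 (zz 0 ψ x)) (gaussianReal 0 1) := by
  refine integrable_zz_pow continuous_T1 (C := 8) (n := 1) (by norm_num) (fun u => ?_) 0 ψ
  rw [abs_of_pos (T1_pos u), pow_one]
  exact T1_le u

theorem continuous_Tl {lam : ℝ} (h1 : -1 ≤ lam) (h2 : lam ≤ 1) : Continuous (Tl lam) := by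
  unfold Tl
  refine ((((continuous_Pl_x ⟨h1, h2⟩).comp (continuous_id.add (continuous_Mi.const_mul lam))).mul
    (Real.continuous_exp.comp ((continuous_Mi.pow 2).const_mul lam))).div
    (continuous_Ph.pow 2) fun z => ?_)
  have := Ph_pos z
  positivity

theorem integrable_Tl {ψ lam : ℝ} (hl : |lam| < 1) :
    Integrable (fun x => Tl lam (zz 0 ψ x)) (gaussianReal 0 1) := by
  obtain ⟨h1, h2⟩ := abs_lt.1 hl
  refine integrable_zz_pow (continuous_Tl h1.le h2.le) (C := 8) (n := 1) (by norm_num)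
    (fun u => ?_) 0 ψ
  rw [abs_of_pos (Tl_pos h1 h2.le u), pow_one]
  have h := Tl_le hl u 0
  simp only [Finset.range_zero, Finset.sum_empty, pow_zero, sub_zero, one_mul, zero_add] at h
  exact h.trans (T1_le u)

/-- expectation of a combination, general functions -/
theorem GE_comb_gen {f2 f3 f4 f5 f6 fT : ℝ → ℝ} (k2 : Integrable f2 (gaussianReal 0 1))
    (k3 : Integrable f3 (gaussianReal 0 1)) (k4 : Integrable f4 (gaussianReal 0 1))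
    (k5 : Integrable f5 (gaussianReal 0 1)) (k6 : Integrable f6 (gaussianReal 0 1))
    (kT : Integrable fT (gaussianReal 0 1)) (c0 c2 c3 c4 c5 c6 cT : ℝ) :
    Integrable (fun x => c0 + c2 * f2 x + c3 * f3 x + c4 * f4 x + c5 * f5 x + c6 * f6 x
      + cT * fT x) (gaussianReal 0 1) ∧
    (GE fun x => c0 + c2 * f2 x + c3 * f3 x + c4 * f4 x + c5 * f5 x + c6 * f6 x + cT * fT x)
      = c0 + c2 * GE f2 + c3 * GE f3 + c4 * GE f4 + c5 * GE f5 + c6 * GE f6 + cT * GE fT := by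
  have i0 : Integrable (fun _ : ℝ => c0) (gaussianReal 0 1) := integrable_const _
  have i2 := k2.const_mul c2
  have i3 := k3.const_mul c3
  have i4 := k4.const_mul c4
  have i5 := k5.const_mul c5
  have i6 := k6.const_mul c6
  have iT := kT.const_mul cT
  have j2 : Integrable (fun x => c0 + c2 * f2 x) (gaussianReal 0 1) := i0.add i2
  have j3 : Integrable (fun x => c0 + c2 * f2 x + c3 * f3 x) (gaussianReal 0 1) := j2.add i3
  have j4 : Integrable (fun x => c0 + c2 * f2 x + c3 * f3 x + c4 * f4 x) (gaussianReal 0 1) :=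
    j3.add i4
  have j5 : Integrable (fun x => c0 + c2 * f2 x + c3 * f3 x + c4 * f4 x + c5 * f5 x)
    (gaussianReal 0 1) := j4.add i5
  have j6 : Integrable (fun x => c0 + c2 * f2 x + c3 * f3 x + c4 * f4 x + c5 * f5 x + c6 * f6 x)
    (gaussianReal 0 1) := j5.add i6
  refine ⟨j6.add iT, ?_⟩
  rw [GE_add j6 iT, GE_add j5 i6, GE_add j4 i5, GE_add j3 i4, GE_add j2 i3, GE_add i0 i2,
    GE_const, GE_mul, GE_mul, GE_mul, GE_mul, GE_mul, GE_mul]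

/-- expectation of a combination -/
theorem GE_comb (ψ c0 c2 c3 c4 c5 c6 cT : ℝ) :
    Integrable (fun x => c0 + c2 * (ta 2 (zz 0 ψ x) ^ 2 / (2 : ℕ).factorial)
      + c3 * (ta 3 (zz 0 ψ x) ^ 2 / (3 : ℕ).factorial)
      + c4 * (ta 4 (zz 0 ψ x) ^ 2 / (4 : ℕ).factorial)
      + c5 * (ta 5 (zz 0 ψ x) ^ 2 / (5 : ℕ).factorial)
      + c6 * (ta 6 (zz 0 ψ x) ^ 2 / (6 : ℕ).factorial) + cT * T1 (zz 0 ψ x)) (gaussianReal 0 1) ∧
    (GE fun x => c0 + c2 * (ta 2 (zz 0 ψ x) ^ 2 / (2 : ℕ).factorial)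
      + c3 * (ta 3 (zz 0 ψ x) ^ 2 / (3 : ℕ).factorial)
      + c4 * (ta 4 (zz 0 ψ x) ^ 2 / (4 : ℕ).factorial)
      + c5 * (ta 5 (zz 0 ψ x) ^ 2 / (5 : ℕ).factorial)
      + c6 * (ta 6 (zz 0 ψ x) ^ 2 / (6 : ℕ).factorial) + cT * T1 (zz 0 ψ x))
      = c0 + c2 * Ecj ψ 2 + c3 * Ecj ψ 3 + c4 * Ecj ψ 4 + c5 * Ecj ψ 5 + c6 * Ecj ψ 6
        + cT * ET ψ :=
  GE_comb_gen (integrable_ta ψ 2) (integrable_ta ψ 3) (integrable_ta ψ 4) (integrable_ta ψ 5)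
    (integrable_ta ψ 6) (integrable_T1 ψ) c0 c2 c3 c4 c5 c6 cT

theorem ER_nonneg (ψ : ℝ) : 0 ≤ ER ψ := by
  have h := GE_comb ψ (-1) (-1) (-1) (-1) (-1) (-1) 1
  have h2 : ER ψ = GE fun x => -1 + -1 * (ta 2 (zz 0 ψ x) ^ 2 / (2 : ℕ).factorial)
      + -1 * (ta 3 (zz 0 ψ x) ^ 2 / (3 : ℕ).factorial)
      + -1 * (ta 4 (zz 0 ψ x) ^ 2 / (4 : ℕ).factorial)
      + -1 * (ta 5 (zz 0 ψ x) ^ 2 / (5 : ℕ).factorial)
      + -1 * (ta 6 (zz 0 ψ x) ^ 2 / (6 : ℕ).factorial) + 1 * T1 (zz 0 ψ x) := by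
    rw [h.2]; unfold ER; ring
  rw [h2]
  apply GE_nonneg
  intro x
  have h3 := cW_sum_le (zz 0 ψ x) 7
  simp only [Finset.sum_range_succ, Finset.sum_range_zero, cW_eq, ta_zero, ta_one] at h3
  norm_num at h3 ⊢
  linarith

/-- the pointwise bound -/
theorem Tl_le_seven {lam : ℝ} (hl : |lam| < 1) (z : ℝ) :
    Tl lam z ≤ (1 - |lam| ^ 7) + (lam ^ 2 - |lam| ^ 7) * (ta 2 z ^ 2 / (2 : ℕ).factorial)
      + (lam ^ 3 - |lam| ^ 7) * (ta 3 z ^ 2 / (3 : ℕ).factorial)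
      + (lam ^ 4 - |lam| ^ 7) * (ta 4 z ^ 2 / (4 : ℕ).factorial)
      + (lam ^ 5 - |lam| ^ 7) * (ta 5 z ^ 2 / (5 : ℕ).factorial)
      + (lam ^ 6 - |lam| ^ 7) * (ta 6 z ^ 2 / (6 : ℕ).factorial) + |lam| ^ 7 * T1 z := by
  have h := Tl_le hl z 7
  simp only [Finset.sum_range_succ, Finset.sum_range_zero, cW_eq, ta_zero, ta_one] at h
  have e1 : ((0 : ℕ).factorial : ℝ) = 1 := by norm_num
  have e2 : ((1 : ℕ).factorial : ℝ) = 1 := by norm_num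
  rw [e1, e2] at h
  nlinarith [h]

theorem GE_Tl_le_pos {ψ lam : ℝ} (h0 : 0 ≤ lam) (hl : lam < 1) :
    (GE fun x => Tl lam (zz 0 ψ x)) ≤ Fd ψ lam := by
  have hl' : |lam| < 1 := by rw [abs_of_nonneg h0]; exact hl
  have h := GE_comb ψ (1 - |lam| ^ 7) (lam ^ 2 - |lam| ^ 7) (lam ^ 3 - |lam| ^ 7)
    (lam ^ 4 - |lam| ^ 7) (lam ^ 5 - |lam| ^ 7) (lam ^ 6 - |lam| ^ 7) (|lam| ^ 7)
  refine (GE_mono (integrable_Tl hl') h.1 fun x => Tl_le_seven hl' _).trans ?_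
  rw [h.2, abs_of_nonneg h0]
  unfold Fd ER
  apply le_of_eq
  ring

theorem GE_Tl_le_neg {ψ t : ℝ} (h0 : 0 ≤ t) (hl : t < 1) :
    (GE fun x => Tl (-t) (zz 0 ψ x)) ≤ Fm ψ t := by
  have hl' : |(-t)| < 1 := by rw [abs_neg, abs_of_nonneg h0]; exact hl
  have h := GE_comb ψ (1 - t ^ 7) (t ^ 2 - t ^ 7) (-t ^ 7)
    (t ^ 4 - t ^ 7) (-t ^ 7) (t ^ 6 - t ^ 7) (t ^ 7)
  refine (GE_mono (integrable_Tl hl') h.1 fun x => ?_).trans ?_
  · refine (Tl_le_seven hl' _).trans ?_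
    rw [abs_neg, abs_of_nonneg h0]
    have h3 : 0 ≤ t ^ 3 * (ta 3 (zz 0 ψ x) ^ 2 / (3 : ℕ).factorial) := by positivity
    have h5 : 0 ≤ t ^ 5 * (ta 5 (zz 0 ψ x) ^ 2 / (5 : ℕ).factorial) := by positivity
    have e2 : (-t) ^ 2 = t ^ 2 := by ring
    have e3 : (-t) ^ 3 = -t ^ 3 := by ring
    have e4 : (-t) ^ 4 = t ^ 4 := by ring
    have e5 : (-t) ^ 5 = -t ^ 5 := by ring
    have e6 : (-t) ^ 6 = t ^ 6 := by ring
    rw [e2, e3, e4, e5, e6]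
    linarith
  · rw [h.2]
    unfold Fm ER
    apply le_of_eq
    ring

theorem integrable_log_Tl {ψ lam : ℝ} (h1 : -1 < lam) (h2 : lam ≤ 1) :
    Integrable (fun x => Real.log (Tl lam (zz 0 ψ x))) (gaussianReal 0 1) := by
  obtain ⟨C, hC, hg⟩ := logPl_growth h1 h2 lam
  have i1 : Integrable (fun x => Real.log (Pl lam (zz 0 ψ x + lam * Mi (zz 0 ψ x))))
      (gaussianReal 0 1) := integrable_zz (continuous_logPl h1 h2 lam) hg 0 ψ
  have i2 : Integrable (fun x => lam * Mi (zz 0 ψ x) ^ 2) (gaussianReal 0 1) :=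
    (integrable_zz (continuous_Mi.pow 2) Mi_sq_growth 0 ψ).const_mul lam
  have i3 : Integrable (fun x => 2 * Real.log (Ph (zz 0 ψ x))) (gaussianReal 0 1) :=
    (integrable_zz continuous_logPh logPh_growth 0 ψ).const_mul 2
  refine ((i1.add i2).sub i3).congr (ae_of_all _ fun x => ?_)
  simp only [Pi.add_apply, Pi.sub_apply]
  exact (log_Tl h1 h2 _).symm

theorem con_diag_le {ψ lam m0 L0 : ℝ} (hψ : 0 < ψ) (hl : |lam| < 1) (hm : 0 < m0)
    (hL : m0 ≤ Real.exp L0) :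
    con 0 ψ lam lam ≤ 2 * cZ 0 ψ
      + al 0 0 ψ * (L0 + (GE fun x => Tl lam (zz 0 ψ x)) / m0 - 1) := by
  obtain ⟨h1, h2⟩ := abs_lt.1 hl
  rw [con_lam h1 h2.le]
  have hal := al_pos (κ := 0) (ν := 0) le_rfl hψ
  have hT := integrable_Tl (ψ := ψ) hl
  have hlog : Real.log m0 ≤ L0 := by
    rw [Real.log_le_iff_le_exp hm]; exact hL
  have h3 : (GE fun x => Real.log (Tl lam (zz 0 ψ x)))
      ≤ GE fun x => (L0 - 1) + m0⁻¹ * Tl lam (zz 0 ψ x) := by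
    apply GE_mono (integrable_log_Tl h1 h2.le) ((integrable_const _).add (hT.const_mul m0⁻¹))
    intro x
    have hp := Tl_pos h1 h2.le (zz 0 ψ x)
    have h4 := Real.log_le_sub_one_of_pos (show 0 < m0⁻¹ * Tl lam (zz 0 ψ x) by positivity)
    rw [Real.log_mul (by positivity) hp.ne', Real.log_inv] at h4
    show Real.log (Tl lam (zz 0 ψ x)) ≤ (L0 - 1) + m0⁻¹ * Tl lam (zz 0 ψ x)
    linarith
  have h4 : (GE fun x => (L0 - 1) + m0⁻¹ * Tl lam (zz 0 ψ x))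
      = L0 + (GE fun x => Tl lam (zz 0 ψ x)) / m0 - 1 := by
    have h5 := GE_add (integrable_const (μ := gaussianReal 0 1) (L0 - 1)) (hT.const_mul m0⁻¹)
    rw [h5, GE_const, GE_mul]
    ring
  rw [h4] at h3
  have := mul_le_mul_of_nonneg_left h3 hal.le
  linarith

theorem sp_affine (ψ lam l s e : ℝ) :
    sp ψ lam l s e = sp ψ 0 l s e - e * lam * (1 - qp ψ) := by
  unfold sp; ring

theorem pow_chord {a b x : ℝ} (ha : 0 ≤ a) (hab : a < b) (h1 : a ≤ x) (h2 : x ≤ b) (k : ℕ) :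
    x ^ k ≤ ((b - x) * a ^ k + (x - a) * b ^ k) / (b - a) := by
  have hba : 0 < b - a := by linarith
  have hs1 : (b - x) / (b - a) + (x - a) / (b - a) = 1 := by
    rw [← add_div, div_eq_one_iff_eq hba.ne']; ring
  have hc := (convexOn_pow (𝕜 := ℝ) k).2 (Set.mem_Ici.2 ha) (Set.mem_Ici.2 (ha.trans hab.le))
    (div_nonneg (show 0 ≤ b - x by linarith) hba.le)
    (div_nonneg (show 0 ≤ x - a by linarith) hba.le) hs1
  simp only [smul_eq_mul] at hc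
  have e1 : (b - x) / (b - a) * a + (x - a) / (b - a) * b = x := by
    field_simp; ring
  rw [e1] at hc
  refine hc.trans (le_of_eq ?_)
  field_simp

theorem Fd_chord {ψ a b x : ℝ} (ha : 0 ≤ a) (hab : a < b) (h1 : a ≤ x) (h2 : x ≤ b) :
    Fd ψ x ≤ ((b - x) * Fd ψ a + (x - a) * Fd ψ b) / (b - a) := by
  have hba : 0 < b - a := by linarith
  have p := fun k => pow_chord ha hab h1 h2 k
  have q2 := mul_le_mul_of_nonneg_left (p 2) (Ecj_nonneg ψ 2)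
  have q3 := mul_le_mul_of_nonneg_left (p 3) (Ecj_nonneg ψ 3)
  have q4 := mul_le_mul_of_nonneg_left (p 4) (Ecj_nonneg ψ 4)
  have q5 := mul_le_mul_of_nonneg_left (p 5) (Ecj_nonneg ψ 5)
  have q6 := mul_le_mul_of_nonneg_left (p 6) (Ecj_nonneg ψ 6)
  have q7 := mul_le_mul_of_nonneg_left (p 7) (ER_nonneg ψ)
  have e : ((b - x) * Fd ψ a + (x - a) * Fd ψ b) / (b - a)
      = 1 + Ecj ψ 2 * (((b - x) * a ^ 2 + (x - a) * b ^ 2) / (b - a))
        + Ecj ψ 3 * (((b - x) * a ^ 3 + (x - a) * b ^ 3) / (b - a))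
        + Ecj ψ 4 * (((b - x) * a ^ 4 + (x - a) * b ^ 4) / (b - a))
        + Ecj ψ 5 * (((b - x) * a ^ 5 + (x - a) * b ^ 5) / (b - a))
        + Ecj ψ 6 * (((b - x) * a ^ 6 + (x - a) * b ^ 6) / (b - a))
        + ER ψ * (((b - x) * a ^ 7 + (x - a) * b ^ 7) / (b - a)) := by
    unfold Fd
    field_simp
    ring
  rw [e]
  unfold Fd
  linarith

theorem Fm_chord {ψ a b x : ℝ} (ha : 0 ≤ a) (hab : a < b) (h1 : a ≤ x) (h2 : x ≤ b) :
    Fm ψ x ≤ ((b - x) * Fm ψ a + (x - a) * Fm ψ b) / (b - a) := by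
  have hba : 0 < b - a := by linarith
  have p := fun k => pow_chord ha hab h1 h2 k
  have q2 := mul_le_mul_of_nonneg_left (p 2) (Ecj_nonneg ψ 2)
  have q4 := mul_le_mul_of_nonneg_left (p 4) (Ecj_nonneg ψ 4)
  have q6 := mul_le_mul_of_nonneg_left (p 6) (Ecj_nonneg ψ 6)
  have q7 := mul_le_mul_of_nonneg_left (p 7) (ER_nonneg ψ)
  have e : ((b - x) * Fm ψ a + (x - a) * Fm ψ b) / (b - a)
      = 1 + Ecj ψ 2 * (((b - x) * a ^ 2 + (x - a) * b ^ 2) / (b - a))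
        + Ecj ψ 4 * (((b - x) * a ^ 4 + (x - a) * b ^ 4) / (b - a))
        + Ecj ψ 6 * (((b - x) * a ^ 6 + (x - a) * b ^ 6) / (b - a))
        + ER ψ * (((b - x) * a ^ 7 + (x - a) * b ^ 7) / (b - a)) := by
    unfold Fm
    field_simp
    ring
  rw [e]
  unfold Fm
  linarith

/-- upper bound of `Fd` from upper bounds of the constants -/
theorem Fd_le {ψ a C2 C3 C4 C5 C6 CT : ℝ} (h0 : 0 ≤ a) (h1 : a ≤ 1) (e2 : Ecj ψ 2 ≤ C2)
    (e3 : Ecj ψ 3 ≤ C3) (e4 : Ecj ψ 4 ≤ C4) (e5 : Ecj ψ 5 ≤ C5) (e6 : Ecj ψ 6 ≤ C6)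
    (eT : ET ψ ≤ CT) :
    Fd ψ a ≤ 1 - a ^ 7 + (a ^ 2 - a ^ 7) * C2 + (a ^ 3 - a ^ 7) * C3 + (a ^ 4 - a ^ 7) * C4
      + (a ^ 5 - a ^ 7) * C5 + (a ^ 6 - a ^ 7) * C6 + a ^ 7 * CT := by
  have p : ∀ k : ℕ, k ≤ 7 → 0 ≤ a ^ k - a ^ 7 := fun k hk =>
    sub_nonneg.2 (pow_le_pow_of_le_one h0 h1 hk)
  have q2 := mul_le_mul_of_nonneg_left e2 (p 2 (by norm_num))
  have q3 := mul_le_mul_of_nonneg_left e3 (p 3 (by norm_num))
  have q4 := mul_le_mul_of_nonneg_left e4 (p 4 (by norm_num))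
  have q5 := mul_le_mul_of_nonneg_left e5 (p 5 (by norm_num))
  have q6 := mul_le_mul_of_nonneg_left e6 (p 6 (by norm_num))
  have qT := mul_le_mul_of_nonneg_left eT (pow_nonneg h0 7)
  have e : Fd ψ a = 1 - a ^ 7 + (a ^ 2 - a ^ 7) * Ecj ψ 2 + (a ^ 3 - a ^ 7) * Ecj ψ 3
      + (a ^ 4 - a ^ 7) * Ecj ψ 4 + (a ^ 5 - a ^ 7) * Ecj ψ 5 + (a ^ 6 - a ^ 7) * Ecj ψ 6
      + a ^ 7 * ET ψ := by
    unfold Fd ER; ring
  rw [e]
  linarith

theorem Fm_le {ψ a C2 C4 C6 CT : ℝ} (h0 : 0 ≤ a) (h1 : a ≤ 1) (e2 : Ecj ψ 2 ≤ C2)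
    (e4 : Ecj ψ 4 ≤ C4) (e6 : Ecj ψ 6 ≤ C6) (eT : ET ψ ≤ CT) :
    Fm ψ a ≤ 1 - a ^ 7 + (a ^ 2 - a ^ 7) * C2 + (a ^ 4 - a ^ 7) * C4
      + (a ^ 6 - a ^ 7) * C6 + a ^ 7 * CT := by
  have p : ∀ k : ℕ, k ≤ 7 → 0 ≤ a ^ k - a ^ 7 := fun k hk =>
    sub_nonneg.2 (pow_le_pow_of_le_one h0 h1 hk)
  have q2 := mul_le_mul_of_nonneg_left e2 (p 2 (by norm_num))
  have q4 := mul_le_mul_of_nonneg_left e4 (p 4 (by norm_num))
  have q6 := mul_le_mul_of_nonneg_left e6 (p 6 (by norm_num))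
  have qT := mul_le_mul_of_nonneg_left eT (pow_nonneg h0 7)
  have r3 := mul_nonneg (pow_nonneg h0 7) (Ecj_nonneg ψ 3)
  have r5 := mul_nonneg (pow_nonneg h0 7) (Ecj_nonneg ψ 5)
  have e : Fm ψ a = 1 - a ^ 7 + (a ^ 2 - a ^ 7) * Ecj ψ 2 - a ^ 7 * Ecj ψ 3
      + (a ^ 4 - a ^ 7) * Ecj ψ 4 - a ^ 7 * Ecj ψ 5 + (a ^ 6 - a ^ 7) * Ecj ψ 6
      + a ^ 7 * ET ψ := by
    unfold Fm ER; ring
  rw [e]
  linarith

/-- a function below its chord is negative if the endpoints are -/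
theorem cell_neg {a b x F Fa Fb A B K m0 : ℝ} (hab : a < b) (h1 : a ≤ x) (h2 : x ≤ b)
    (hK : 0 < K) (hm : 0 < m0)
    (hF : F ≤ ((b - x) * Fa + (x - a) * Fb) / (b - a))
    (ca : A + K * (Fa / m0) + B * a < 0) (cb : A + K * (Fb / m0) + B * b < 0) :
    A + K * (F / m0) + B * x < 0 := by
  have hba : 0 < b - a := by linarith
  have h3 : K * (F / m0) ≤ K * ((((b - x) * Fa + (x - a) * Fb) / (b - a)) / m0) :=
    mul_le_mul_of_nonneg_left (div_le_div_of_nonneg_right hF hm.le) hK.le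
  have h4 : A + K * ((((b - x) * Fa + (x - a) * Fb) / (b - a)) / m0) + B * x
      = ((b - x) * (A + K * (Fa / m0) + B * a) + (x - a) * (A + K * (Fb / m0) + B * b))
        / (b - a) := by
    field_simp; ring
  have h5 : ((b - x) * (A + K * (Fa / m0) + B * a) + (x - a) * (A + K * (Fb / m0) + B * b))
        / (b - a) < 0 := by
    apply div_neg_of_neg_of_pos _ hba
    rcases h1.eq_or_lt with he | hlt
    · have : 0 < b - x := by linarith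
      have := mul_neg_of_pos_of_neg this ca
      have h6 : x - a = 0 := by linarith
      rw [h6, zero_mul, add_zero]
      exact this
    · have h6 := mul_neg_of_pos_of_neg (show 0 < x - a by linarith) cb
      have h7 : (b - x) * (A + K * (Fa / m0) + B * a) ≤ 0 :=
        mul_nonpos_of_nonneg_of_nonpos (by linarith) ca.le
      linarith
  linarith

/-- a cell `[a,b]`, `0 ≤ a < b < 1`, with a fixed spin test -/
theorem diag_cell_pos {ψ a b lam l s e m0 L0 : ℝ} (hψ : 0 < ψ) (ha : 0 ≤ a) (hab : a < b)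
    (hb : b < 1) (h1 : a ≤ lam) (h2 : lam ≤ b) (hm : 0 < m0) (hL : m0 ≤ Real.exp L0)
    (ca : -2 * sZ ψ + al 0 0 ψ * (L0 + Fd ψ a / m0 - 1) + sp ψ 0 l s e
      - e * a * (1 - qp ψ) < 0)
    (cb : -2 * sZ ψ + al 0 0 ψ * (L0 + Fd ψ b / m0 - 1) + sp ψ 0 l s e
      - e * b * (1 - qp ψ) < 0) :
    sp ψ lam l s e + con 0 ψ lam lam < 2 * GG 0 ψ := by
  have h0 : 0 ≤ lam := ha.trans h1
  have hl : lam < 1 := lt_of_le_of_lt h2 hb
  have hl' : |lam| < 1 := by rw [abs_of_nonneg h0]; exact hl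
  have hal := al_pos (κ := 0) (ν := 0) le_rfl hψ
  have hcon := con_diag_le hψ hl' hm hL
  have hT := div_le_div_of_nonneg_right (GE_Tl_le_pos (ψ := ψ) h0 hl) hm.le
  have hT' := mul_le_mul_of_nonneg_left hT hal.le
  have hcell := cell_neg (A := -2 * sZ ψ + al 0 0 ψ * (L0 - 1) + sp ψ 0 l s e)
    (B := -(e * (1 - qp ψ))) hab h1 h2 hal hm (Fd_chord (ψ := ψ) ha hab h1 h2)
    (by linarith) (by linarith)
  rw [sp_affine, GG_eq]
  linarith

/-- a cell `lam ∈ [-b,-a]`, `0 ≤ a < b < 1`, with a fixed spin test -/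
theorem diag_cell_neg {ψ a b lam l s e m0 L0 : ℝ} (hψ : 0 < ψ) (ha : 0 ≤ a) (hab : a < b)
    (hb : b < 1) (h1 : -b ≤ lam) (h2 : lam ≤ -a) (hm : 0 < m0) (hL : m0 ≤ Real.exp L0)
    (ca : -2 * sZ ψ + al 0 0 ψ * (L0 + Fm ψ a / m0 - 1) + sp ψ 0 l s e
      + e * a * (1 - qp ψ) < 0)
    (cb : -2 * sZ ψ + al 0 0 ψ * (L0 + Fm ψ b / m0 - 1) + sp ψ 0 l s e
      + e * b * (1 - qp ψ) < 0) :
    sp ψ lam l s e + con 0 ψ lam lam < 2 * GG 0 ψ := by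
  obtain ⟨t, rfl⟩ : ∃ t, lam = -t := ⟨-lam, by ring⟩
  have h1' : a ≤ t := by linarith
  have h2' : t ≤ b := by linarith
  have h0 : 0 ≤ t := ha.trans h1'
  have hl : t < 1 := lt_of_le_of_lt h2' hb
  have hl' : |(-t)| < 1 := by rw [abs_neg, abs_of_nonneg h0]; exact hl
  have hal := al_pos (κ := 0) (ν := 0) le_rfl hψ
  have hcon := con_diag_le hψ hl' hm hL
  have hT := div_le_div_of_nonneg_right (GE_Tl_le_neg (ψ := ψ) h0 hl) hm.le
  have hT' := mul_le_mul_of_nonneg_left hT hal.le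
  have hcell := cell_neg (A := -2 * sZ ψ + al 0 0 ψ * (L0 - 1) + sp ψ 0 l s e)
    (B := e * (1 - qp ψ)) hab h1' h2' hal hm (Fm_chord (ψ := ψ) ha hab h1' h2')
    (by linarith) (by linarith)
  rw [sp_affine, GG_eq]
  linarith

end

end Pool.Agent.IP49
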