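import Pool.Agent.IP49.NPsi
import Pool.Agent.IP49N.NGG
import Pool.Agent.IP49N.NATd
import Pool.Agent.IP49.NUF
import Pool.Agent.IP49N.NLD

/-!
IP49, part N (owners helper52, helper99): the certified numerics, all at `κ = ν = 0`.
True values: GG 0 ψ = 0 at ψ = 2.57635 (q = .56395, α = .833078, AT = .5444, -d = 1.12342,
ES2 = .31269). The box `[psi1, psi2] = [2.57634, 2.57636]` is in `NPsi`.
-/

set_option autoImplicit false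
open MeasureTheory ProbabilityTheory Filter Topology

namespace Pool.Agent.IP49

theorem N_GG1 : 0 < GG 0 psi1 := IP49N.GG_psi1

theorem N_GG2 : GG 0 psi2 < 0 := IP49N.GG_psi2

theorem N_AT {ψ : ℝ} (h1 : psi1 ≤ ψ) (h2 : ψ ≤ psi2) : AT 0 0 ψ < 1 := IP49N.AT_box h1 h2

theorem N_dS {ψ : ℝ} (h1 : psi1 ≤ ψ) (h2 : ψ ≤ psi2) : -dd 0 0 ψ * ES2 ψ < 1 - qp ψ :=
  IP49N.dS_box h1 h2

/-- (U*) at `κ = ν = 0` -/
theorem N_U {ψ : ℝ} (h1 : psi1 ≤ ψ) (h2 : ψ ≤ psi2) (hG : GG 0 ψ = 0) : UStar 0 0 ψ 0 :=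
  N_U_box h1 h2 hG

/-- (L*) at `κ = 0`, strict away from `lam = 0` -/
theorem N_L {ψ : ℝ} (h1 : psi1 ≤ ψ) (h2 : ψ ≤ psi2) (hG : 0 < GG 0 ψ) {lam : ℝ}
    (hl : lam ∈ Set.Icc (-1 : ℝ) 1) (hl0 : lam ≠ 0) :
    (lam ≤ 0 ∧ ∃ l s e : ℝ, sp ψ lam l s e + conC 0 ψ < 2 * GG 0 ψ) ∨
    (-1 < lam ∧ ∃ l s e th : ℝ, sp ψ lam l s e + con 0 ψ th lam < 2 * GG 0 ψ) :=
  N_L_of_data (IP49N.ldata h1 h2) (IP49N.box_pos h1) h2 hG hl hl0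

end Pool.Agent.IP49
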