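import Pool.Agent.IP49.PlA

/-!
IP49: two-sided bounds for the increments of `Pl` in the correlation (owner helper37).
-/

set_option autoImplicit false
open MeasureTheory ProbabilityTheory Filter Topology Set

namespace Pool.Agent.IP49

/-- general comparison principle -/
theorem Pl_incr_aux {a b x c : ℝ} (ha : -1 ≤ a) (hab : a ≤ b) (hb : b ≤ 1) :
    ((∀ r, a < r → r < b → c ≤ Real.exp (-x ^ 2 / (1 + r))) →
      c * (Real.arcsin b - Real.arcsin a) / (2 * Real.pi) ≤ Pl b x - Pl a x) ∧
    ((∀ r, a < r → r < b → Real.exp (-x ^ 2 / (1 + r)) ≤ c) →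
      Pl b x - Pl a x ≤ c * (Real.arcsin b - Real.arcsin a) / (2 * Real.pi)) := by
  set u : ℝ → ℝ := fun r => Pl r x - c * Real.arcsin r / (2 * Real.pi) with hu
  have hcont : ContinuousOn u (Icc a b) := by
    refine ((continuousOn_Pl_lam x).mono (Icc_subset_Icc ha hb)).sub ?_
    exact ((continuous_const.mul Real.continuous_arcsin).div_const _).continuousOn
  have hd : ∀ r, a < r → r < b → HasDerivAt u
      ((Real.exp (-x ^ 2 / (1 + r)) - c) / (2 * Real.pi * Real.sqrt (1 - r ^ 2))) r := by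
    intro r hr1 hr2
    have h1 : -1 < r := lt_of_le_of_lt ha hr1
    have h2 : r < 1 := lt_of_lt_of_le hr2 hb
    have hd := (hasDerivAt_Pl h1 h2 x).sub
      (((Real.hasDerivAt_arcsin h1.ne' h2.ne).const_mul c).div_const (2 * Real.pi))
    have hd' : HasDerivAt u _ r := hd
    refine hd'.congr_deriv ?_
    unfold pdl
    have hc : 0 < Real.sqrt (1 - r ^ 2) := Real.sqrt_pos.2 (one_sub_sq_pos h1 h2)
    have hpi := Real.pi_pos
    field_simp
  have hpos : ∀ r, a < r → r < b → 0 < 2 * Real.pi * Real.sqrt (1 - r ^ 2) := by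
    intro r hr1 hr2
    have h1 : -1 < r := lt_of_le_of_lt ha hr1
    have h2 : r < 1 := lt_of_lt_of_le hr2 hb
    have hc : 0 < Real.sqrt (1 - r ^ 2) := Real.sqrt_pos.2 (one_sub_sq_pos h1 h2)
    have hpi := Real.pi_pos
    positivity
  constructor
  · intro h
    have hm : MonotoneOn u (Icc a b) := by
      refine monotoneOn_of_deriv_nonneg (convex_Icc _ _) hcont ?_ ?_
      · intro r hr
        rw [interior_Icc] at hr
        exact (hd r hr.1 hr.2).differentiableAt.differentiableWithinAt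
      · intro r hr
        rw [interior_Icc] at hr
        rw [(hd r hr.1 hr.2).deriv]
        exact div_nonneg (by have := h r hr.1 hr.2; linarith) (hpos r hr.1 hr.2).le
    have := hm ⟨le_refl _, hab⟩ ⟨hab, le_refl _⟩ hab
    simp only [hu] at this
    have e : c * (Real.arcsin b - Real.arcsin a) / (2 * Real.pi)
        = c * Real.arcsin b / (2 * Real.pi) - c * Real.arcsin a / (2 * Real.pi) := by ring
    rw [e]; linarith
  · intro h
    have hm : AntitoneOn u (Icc a b) := by
      refine antitoneOn_of_deriv_nonpos (convex_Icc _ _) hcont ?_ ?_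
      · intro r hr
        rw [interior_Icc] at hr
        exact (hd r hr.1 hr.2).differentiableAt.differentiableWithinAt
      · intro r hr
        rw [interior_Icc] at hr
        rw [(hd r hr.1 hr.2).deriv]
        exact div_nonpos_of_nonpos_of_nonneg (by have := h r hr.1 hr.2; linarith)
          (hpos r hr.1 hr.2).le
    have := hm ⟨le_refl _, hab⟩ ⟨hab, le_refl _⟩ hab
    simp only [hu] at this
    have e : c * (Real.arcsin b - Real.arcsin a) / (2 * Real.pi)
        = c * Real.arcsin b / (2 * Real.pi) - c * Real.arcsin a / (2 * Real.pi) := by ring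
    rw [e]; linarith

theorem exp_neg_div_mono {x r r' : ℝ} (h : -1 < r) (h' : r ≤ r') :
    Real.exp (-x ^ 2 / (1 + r)) ≤ Real.exp (-x ^ 2 / (1 + r')) := by
  refine Real.exp_le_exp.2 ?_
  rw [neg_div, neg_div, neg_le_neg_iff]
  exact div_le_div_of_nonneg_left (sq_nonneg x) (by linarith) (by linarith)

/-- lower bound of an increment, density at the left end -/
theorem Pl_incr_ge {a b : ℝ} (ha : -1 < a) (hab : a ≤ b) (hb : b ≤ 1) (x : ℝ) :
    Real.exp (-x ^ 2 / (1 + a)) * (Real.arcsin b - Real.arcsin a) / (2 * Real.pi)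
      ≤ Pl b x - Pl a x :=
  (Pl_incr_aux ha.le hab hb).1 fun _ h1 _ => exp_neg_div_mono ha h1.le

/-- upper bound of an increment, density at the right end -/
theorem Pl_incr_le {a b : ℝ} (ha : -1 ≤ a) (hab : a ≤ b) (hb : b ≤ 1) (x : ℝ) :
    Pl b x - Pl a x
      ≤ Real.exp (-x ^ 2 / (1 + b)) * (Real.arcsin b - Real.arcsin a) / (2 * Real.pi) :=
  (Pl_incr_aux ha hab hb).2 fun _ h1 h2 => exp_neg_div_mono (lt_of_le_of_lt ha h1) h2.le

/-- partition form, lower bound -/
theorem Pl_sum_ge (r : ℕ → ℝ) (hr : Monotone r) (h0 : -1 < r 0) (k : ℕ) (hk : r k ≤ 1) (x : ℝ) :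
    ∑ i ∈ Finset.range k, Real.exp (-x ^ 2 / (1 + r i))
        * (Real.arcsin (r (i + 1)) - Real.arcsin (r i)) / (2 * Real.pi)
      ≤ Pl (r k) x - Pl (r 0) x := by
  rw [← Finset.sum_range_sub (fun i => Pl (r i) x)]
  refine Finset.sum_le_sum fun i hi => ?_
  have hi' : i + 1 ≤ k := Finset.mem_range.1 hi
  exact Pl_incr_ge (lt_of_lt_of_le h0 (hr (Nat.zero_le i))) (hr (Nat.le_succ i))
    ((hr hi').trans hk) x

/-- partition form, upper bound -/
theorem Pl_sum_le (r : ℕ → ℝ) (hr : Monotone r) (h0 : -1 ≤ r 0) (k : ℕ) (hk : r k ≤ 1) (x : ℝ) :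
    Pl (r k) x - Pl (r 0) x ≤ ∑ i ∈ Finset.range k, Real.exp (-x ^ 2 / (1 + r (i + 1)))
        * (Real.arcsin (r (i + 1)) - Real.arcsin (r i)) / (2 * Real.pi) := by
  rw [← Finset.sum_range_sub (fun i => Pl (r i) x)]
  refine Finset.sum_le_sum fun i hi => ?_
  have hi' : i + 1 ≤ k := Finset.mem_range.1 hi
  exact Pl_incr_le (h0.trans (hr (Nat.zero_le i))) (hr (Nat.le_succ i))
    ((hr hi').trans hk) x

/-- partition form near correlation one -/
theorem Pl_le_partition (r : ℕ → ℝ) (hr : Monotone r) (h0 : -1 < r 0) (k : ℕ) (hk : r k = 1)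
    (x : ℝ) :
    Pl (r 0) x ≤ Ph x - ∑ i ∈ Finset.range k, Real.exp (-x ^ 2 / (1 + r i))
        * (Real.arccos (r i) - Real.arccos (r (i + 1))) / (2 * Real.pi) := by
  have h := Pl_sum_ge r hr h0 k hk.le x
  rw [hk, Pl_one] at h
  have e : ∀ i, Real.arccos (r i) - Real.arccos (r (i + 1))
      = Real.arcsin (r (i + 1)) - Real.arcsin (r i) := fun i => by
    simp only [Real.arccos]; ring
  simp only [e]
  linarith

end Pool.Agent.IP49
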