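import Pool.Agent.IP49.NLA
import Pool.Agent.IP49.PlB

/-!
IP49, part N, (L*) side (helper49), module NLB: cells near correlation one, by the partition
bound for `Pl`.

PROOFS. `arcsin_mid`: `u ↦ 1/√(1-u²)` is convex on `[0,1)`, so
`arcsin b - arcsin a = ∫_a^b ≥ (b-a)/√(1-m²)`, `m = (a+b)/2`; e.g. the function
`D(t) = arcsin (m+t) - arcsin (m-t) - 2 t/√(1-m²)` has `D(0) = 0`, `D' ≥ 0` (`1/√(1-u²)` is a
convex function: `f(m+t) + f(m-t) ≥ 2 f(m)`), continuity up to `b = 1`.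
`arcsin_chord`: `arcsin` is convex on `[0,1]` (derivative increasing), so
`arcsin b - arcsin x ≥ (b-x)/(b-a) (arcsin b - arcsin a)`.
`arccos_ge`: `r ≤ 1 - c²/2 ≤ cos c` (`Real.one_sub_sq_div_two_le_cos`), `c ≤ π`.
`Pl_piece`, `Pl_last`: `Pl_incr_ge`, `Pl_one`, `2π < 62832/10000` (`Real.pi_lt_d4`); the
density at `lam ≥ a` is at least `exp(-X²/(1+a))` (`exp_neg_div_mono`).
`con_part_le`: `Pl lam X ≤ D(lam, X) := Ph X - W X - ka (b - lam) exp(-X²/(1+a))`,
`log D(lam, X) ≤ log D0 X + (D(lam,X) - D0 X)/D0 X`, `D0 X = D(lam0, X) ≥ Pl lam0 X > 0`,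
`D(lam,X) - D0 X = ka (lam - lam0) exp(-X²/(1+a))`. Integrability: `log D0` lies between
`log Pl lam0 X ≥ -C(1+X²)` (`abs_log_Pl_le`) and `log Ph X ≤ 0`;
`D(a,X) = D0 X - ka (lam0 - a) exp(..) ≥ Pl a X > 0` gives
`exp(-X²/(1+a))/D0 X ≤ 1/(ka (lam0 - a))`.
`part_cell`: `1/(1+lam) ≤` chord, all other terms are affine in `lam`.
-/

set_option autoImplicit false
open MeasureTheory ProbabilityTheory Filter Topology

namespace Pool.Agent.IP49

noncomputable section

theorem arcsin_mid {a b k : ℝ} (ha : 0 ≤ a) (hab : a < b) (hb : b ≤ 1) (hk : 0 ≤ k)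
    (hk2 : k ^ 2 * (1 - ((a + b) / 2) ^ 2) ≤ 1) :
    k * (b - a) ≤ Real.arcsin b - Real.arcsin a := by
  set m := (a + b) / 2 with hm
  set h := (b - a) / 2 with hh
  have h0 : 0 ≤ h := by rw [hh]; linarith
  set D : ℝ → ℝ := fun t => Real.arcsin (m + t) - Real.arcsin (m - t) - 2 * k * t with hD
  have hcont : ContinuousOn D (Set.Icc 0 h) := by
    apply Continuous.continuousOn
    exact ((Real.continuous_arcsin.comp (by fun_prop)).sub
      (Real.continuous_arcsin.comp (by fun_prop))).sub (by fun_prop)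
  have hder : ∀ t ∈ Set.Ioo (0 : ℝ) h, HasDerivAt D
      (1 / Real.sqrt (1 - (m + t) ^ 2) + 1 / Real.sqrt (1 - (m - t) ^ 2) - 2 * k) t := by
    intro t ht
    have p1 : m + t < 1 := by have := ht.2; rw [hm]; rw [hh] at this; linarith
    have p2 : -1 < m + t := by have := ht.1; rw [hm]; linarith
    have q1 : m - t < 1 := by have := ht.1; rw [hm]; linarith
    have q2 : -1 < m - t := by have := ht.2; rw [hm]; rw [hh] at this; linarith
    have e1 : HasDerivAt (fun t : ℝ => m + t) 1 t := (hasDerivAt_id t).const_add m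
    have e2 : HasDerivAt (fun t : ℝ => m - t) (-1) t := by
      simpa using (hasDerivAt_id t).const_sub m
    have e3 := (Real.hasDerivAt_arcsin p2.ne' p1.ne).comp t e1
    have e4 := (Real.hasDerivAt_arcsin q2.ne' q1.ne).comp t e2
    have e5 : HasDerivAt (fun t : ℝ => 2 * k * t) (2 * k) t := by
      simpa using (hasDerivAt_id t).const_mul (2 * k)
    have e6 := (e3.sub e4).sub e5
    refine e6.congr_deriv ?_
    ring
  have hmono : MonotoneOn D (Set.Icc 0 h) := by
    refine monotoneOn_of_deriv_nonneg (convex_Icc _ _) hcont ?_ ?_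
    · intro t ht
      rw [interior_Icc] at ht
      exact (hder t ht).differentiableAt.differentiableWithinAt
    · intro t ht
      rw [interior_Icc] at ht
      rw [(hder t ht).deriv]
      have p1 : m + t < 1 := by have := ht.2; rw [hm]; rw [hh] at this; linarith
      have p2 : -1 < m + t := by have := ht.1; rw [hm]; linarith
      have q1 : m - t < 1 := by have := ht.1; rw [hm]; linarith
      have q2 : -1 < m - t := by have := ht.2; rw [hm]; rw [hh] at this; linarith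
      have hP2 : 0 < 1 - (m + t) ^ 2 := by nlinarith
      have hQ2 : 0 < 1 - (m - t) ^ 2 := by nlinarith
      have hP := Real.sqrt_pos.2 hP2
      have hQ := Real.sqrt_pos.2 hQ2
      have sP := Real.sq_sqrt hP2.le
      have sQ := Real.sq_sqrt hQ2.le
      set P := Real.sqrt (1 - (m + t) ^ 2) with hPd
      set Q := Real.sqrt (1 - (m - t) ^ 2) with hQd
      have h1 : (P + Q) ^ 2 * k ^ 2 ≤ 4 := by
        have h2 : (P + Q) ^ 2 ≤ 4 * (1 - m ^ 2) := by nlinarith [sq_nonneg (P - Q), sq_nonneg t]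
        have h3 : (P + Q) ^ 2 * k ^ 2 ≤ 4 * (1 - m ^ 2) * k ^ 2 :=
          mul_le_mul_of_nonneg_right h2 (sq_nonneg k)
        nlinarith
      have h4 : (P + Q) * k ≤ 2 := by
        have : ((P + Q) * k) ^ 2 ≤ 2 ^ 2 := by rw [mul_pow]; linarith
        exact le_of_sq_le_sq this (by norm_num)
      have h5 : 4 / (P + Q) ≤ 1 / P + 1 / Q := by
        rw [div_add_div _ _ hP.ne' hQ.ne', div_le_div_iff₀ (by positivity) (by positivity)]
        nlinarith [sq_nonneg (P - Q)]
      have h6 : 2 * k ≤ 4 / (P + Q) := by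
        rw [le_div_iff₀ (by positivity)]
        linarith
      linarith
  have hfin := hmono ⟨le_rfl, h0⟩ ⟨h0, le_rfl⟩ h0
  simp only [hD, add_zero, sub_zero, sub_self, mul_zero] at hfin
  have g1 : m + h = b := by rw [hm, hh]; ring
  have g2 : m - h = a := by rw [hm, hh]; ring
  rw [g1, g2] at hfin
  have g3 : 2 * k * h = k * (b - a) := by rw [hh]; ring
  linarith

theorem arcsin_chord {a b x k : ℝ} (ha : 0 ≤ a) (hab : a < b) (hb : b ≤ 1) (hk : 0 ≤ k)
    (hk2 : k ^ 2 * (1 - ((a + b) / 2) ^ 2) ≤ 1) (h1 : a ≤ x) (h2 : x ≤ b) :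
    k * (b - x) ≤ Real.arcsin b - Real.arcsin x := by
  rcases eq_or_lt_of_le h2 with rfl | h3
  · simp
  · refine arcsin_mid (ha.trans h1) h3 hb hk (le_trans ?_ hk2)
    refine mul_le_mul_of_nonneg_left ?_ (sq_nonneg k)
    have : ((a + b) / 2) ^ 2 ≤ ((x + b) / 2) ^ 2 :=
      pow_le_pow_left₀ (by linarith) (by linarith) 2
    linarith

theorem arccos_ge {r c : ℝ} (h0 : -1 ≤ r) (hc : 0 ≤ c) (h : c ^ 2 ≤ 2 * (1 - r)) :
    c ≤ Real.arccos r := by
  have h1 : c ≤ 2 := by nlinarith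
  have h2 : c ≤ Real.pi := by have := Real.pi_gt_three; linarith
  have h3 := Real.one_sub_sq_div_two_le_cos (x := c)
  have h4 : r ≤ Real.cos c := by linarith
  have h5 := Real.arccos_le_arccos h4
  rwa [Real.arccos_cos hc h2] at h5

theorem Pl_piece {a b lam ka X : ℝ} (ha : 0 ≤ a) (hab : a < b) (hb : b ≤ 1) (hk : 0 ≤ ka)
    (hk2 : (62832 / 10000 * ka) ^ 2 * (1 - ((a + b) / 2) ^ 2) ≤ 1) (h1 : a ≤ lam) (h2 : lam ≤ b) :
    ka * (b - lam) * Real.exp (-X ^ 2 / (1 + a)) ≤ Pl b X - Pl lam X := by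
  have hpi := Real.pi_pos
  have hpi2 : 2 * Real.pi ≤ 62832 / 10000 := by have := Real.pi_lt_d4; linarith
  have g1 := arcsin_chord (k := 62832 / 10000 * ka) ha hab hb (by positivity) hk2 h1 h2
  have g2 : 2 * Real.pi * (ka * (b - lam)) ≤ Real.arcsin b - Real.arcsin lam := by
    have : 0 ≤ ka * (b - lam) := mul_nonneg hk (by linarith)
    nlinarith
  have g3 := Pl_incr_ge (a := lam) (b := b) (by linarith) h2 hb X
  have g4 := exp_neg_div_mono (x := X) (r := a) (r' := lam) (by linarith) h1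
  refine le_trans ?_ g3
  rw [le_div_iff₀ (by positivity)]
  have g5 := Real.exp_pos (-X ^ 2 / (1 + a))
  have g6 : 0 ≤ Real.arcsin b - Real.arcsin lam := by
    have : 0 ≤ 2 * Real.pi * (ka * (b - lam)) := by
      have : 0 ≤ ka * (b - lam) := mul_nonneg hk (by linarith)
      positivity
    linarith
  calc ka * (b - lam) * Real.exp (-X ^ 2 / (1 + a)) * (2 * Real.pi)
      = Real.exp (-X ^ 2 / (1 + a)) * (2 * Real.pi * (ka * (b - lam))) := by ring
    _ ≤ Real.exp (-X ^ 2 / (1 + a)) * (Real.arcsin b - Real.arcsin lam) :=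
        mul_le_mul_of_nonneg_left g2 g5.le
    _ ≤ Real.exp (-X ^ 2 / (1 + lam)) * (Real.arcsin b - Real.arcsin lam) :=
        mul_le_mul_of_nonneg_right g4 g6

theorem Pl_last {r c X : ℝ} (h0 : 0 ≤ r) (h1 : r ≤ 1) (hc : 0 ≤ c)
    (h : (62832 / 10000 * c) ^ 2 ≤ 2 * (1 - r)) :
    c * Real.exp (-X ^ 2 / (1 + r)) ≤ Ph X - Pl r X := by
  have hpi := Real.pi_pos
  have hpi2 : 2 * Real.pi ≤ 62832 / 10000 := by have := Real.pi_lt_d4; linarith
  have g1 := arccos_ge (r := r) (c := 62832 / 10000 * c) (by linarith) (by positivity) h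
  have g2 : 2 * Real.pi * c ≤ Real.arccos r := by nlinarith
  have g3 := Pl_incr_ge (a := r) (b := 1) (by linarith) h1 le_rfl X
  rw [Pl_one] at g3
  refine le_trans ?_ g3
  rw [le_div_iff₀ (by positivity), Real.arcsin_one]
  have g4 : Real.arccos r = Real.pi / 2 - Real.arcsin r := rfl
  have g5 := Real.exp_pos (-X ^ 2 / (1 + r))
  calc c * Real.exp (-X ^ 2 / (1 + r)) * (2 * Real.pi)
      = Real.exp (-X ^ 2 / (1 + r)) * (2 * Real.pi * c) := by ring
    _ ≤ Real.exp (-X ^ 2 / (1 + r)) * Real.arccos r := mul_le_mul_of_nonneg_left g2 g5.le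
    _ = _ := by rw [g4]

/-- the denominator at the tangent point -/
def Dw (W : ℝ → ℝ) (a b ka lam0 X : ℝ) : ℝ :=
  Ph X - W X - ka * (b - lam0) * Real.exp (-X ^ 2 / (1 + a))

def C1w (ψ th : ℝ) (W : ℝ → ℝ) (a b ka lam0 : ℝ) : ℝ :=
  GE fun x => Real.log (Dw W a b ka lam0 (zz 0 ψ x + th * Mi (zz 0 ψ x)))

def C2w (ψ th : ℝ) (W : ℝ → ℝ) (a b ka lam0 : ℝ) : ℝ :=
  GE fun x => Real.exp (-(zz 0 ψ x + th * Mi (zz 0 ψ x)) ^ 2 / (1 + a))
    / Dw W a b ka lam0 (zz 0 ψ x + th * Mi (zz 0 ψ x))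

theorem con_part_le {ψ a b th ka lam0 lam : ℝ} {W : ℝ → ℝ} (hψ : 0 < ψ) (ha : 0 ≤ a)
    (h0 : a < lam0) (h0b : lam0 ≤ b) (hb : b ≤ 1) (h1 : a ≤ lam) (h2 : lam ≤ b) (hk : 0 < ka)
    (hk2 : (62832 / 10000 * ka) ^ 2 * (1 - ((a + b) / 2) ^ 2) ≤ 1) (hWc : Continuous W)
    (hW : ∀ X, 0 ≤ W X ∧ Pl b X ≤ Ph X - W X) :
    con 0 ψ th lam ≤ (1 + th) ^ 2 * ((1 - qp ψ) * ψ) / (1 + lam)
      + al 0 0 ψ * (C1w ψ th W a b ka lam0 + ka * (lam - lam0) * C2w ψ th W a b ka lam0) := by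
  have hab : a < b := lt_of_lt_of_le h0 h0b
  have hal := al_pos (κ := 0) (ν := 0) le_rfl hψ
  -- the pointwise facts
  have hE : ∀ X : ℝ, 0 < Real.exp (-X ^ 2 / (1 + a)) := fun X => Real.exp_pos _
  have hD0 : ∀ X : ℝ, Pl lam0 X ≤ Dw W a b ka lam0 X := by
    intro X
    have := Pl_piece ha hab hb hk.le hk2 h0.le h0b (X := X)
    have := (hW X).2
    unfold Dw
    linarith
  have hD0p : ∀ X : ℝ, 0 < Dw W a b ka lam0 X := fun X =>
    lt_of_lt_of_le (Pl_pos (by linarith) (by linarith) X) (hD0 X)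
  have hDa : ∀ X : ℝ, ka * (lam0 - a) * Real.exp (-X ^ 2 / (1 + a)) ≤ Dw W a b ka lam0 X := by
    intro X
    have q1 := Pl_piece ha hab hb hk.le hk2 le_rfl hab.le (X := X)
    have q2 := (hW X).2
    have q3 := Pl_nonneg a X
    unfold Dw
    nlinarith
  have hD0u : ∀ X : ℝ, Dw W a b ka lam0 X ≤ 1 := by
    intro X
    have q1 := (hW X).1
    have q2 := Ph_lt_one X
    have q3 : 0 ≤ ka * (b - lam0) * Real.exp (-X ^ 2 / (1 + a)) :=
      mul_nonneg (mul_nonneg hk.le (by linarith)) (hE X).le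
    unfold Dw
    linarith
  have hpt : ∀ X : ℝ, Real.log (Pl lam X) ≤ Real.log (Dw W a b ka lam0 X)
      + ka * (lam - lam0) * (Real.exp (-X ^ 2 / (1 + a)) / Dw W a b ka lam0 X) := by
    intro X
    have q1 := Pl_piece ha hab hb hk.le hk2 h1 h2 (X := X)
    have q2 := (hW X).2
    have q3 := Pl_pos (by linarith : -1 < lam) (by linarith) X
    have q4 := hD0p X
    have q5 : Pl lam X ≤ Dw W a b ka lam0 X
        * (1 + ka * (lam - lam0) * (Real.exp (-X ^ 2 / (1 + a)) / Dw W a b ka lam0 X)) := by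
      have : Dw W a b ka lam0 X
          * (1 + ka * (lam - lam0) * (Real.exp (-X ^ 2 / (1 + a)) / Dw W a b ka lam0 X))
          = Dw W a b ka lam0 X + ka * (lam - lam0) * Real.exp (-X ^ 2 / (1 + a)) := by
        field_simp
      rw [this]
      unfold Dw
      linarith
    have q6 : 0 < 1 + ka * (lam - lam0) * (Real.exp (-X ^ 2 / (1 + a)) / Dw W a b ka lam0 X) := by
      by_contra hcon
      push Not at hcon
      have := mul_nonpos_of_nonneg_of_nonpos q4.le hcon
      linarith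
    have q7 := Real.log_le_log q3 q5
    rw [Real.log_mul q4.ne' q6.ne'] at q7
    have q8 := Real.log_le_sub_one_of_pos q6
    linarith
  -- continuity
  have hXc : Continuous fun z : ℝ => z + th * Mi z := continuous_id.add (continuous_Mi.const_mul th)
  have hDc : Continuous (Dw W a b ka lam0) := by
    unfold Dw
    exact (continuous_Ph.sub hWc).sub (by fun_prop)
  have hDzc : Continuous fun z : ℝ => Dw W a b ka lam0 (z + th * Mi z) := hDc.comp hXc
  have i1 : Integrable (fun x => Real.log (Dw W a b ka lam0 (zz 0 ψ x + th * Mi (zz 0 ψ x))))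
      (gaussianReal 0 1) := by
    obtain ⟨C, hC, hg⟩ := logPl_growth (by linarith : -1 < lam0) (by linarith) th
    have hc : Continuous fun z : ℝ => Real.log (Dw W a b ka lam0 (z + th * Mi z)) :=
      hDzc.log fun z => (hD0p _).ne'
    refine integrable_zz (G := fun z : ℝ => Real.log (Dw W a b ka lam0 (z + th * Mi z))) hc
      (C := C) (fun u => ?_) 0 ψ
    have q1 := Real.log_nonpos (hD0p (u + th * Mi u)).le (hD0u _)
    have q2 := Real.log_le_log (Pl_pos (by linarith : -1 < lam0) (by linarith) (u + th * Mi u))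
      (hD0 _)
    have q3 := hg u
    have q4 := (abs_le.1 q3).1
    rw [abs_of_nonpos q1]
    linarith
  have i2 : Integrable (fun x => Real.exp (-(zz 0 ψ x + th * Mi (zz 0 ψ x)) ^ 2 / (1 + a))
      / Dw W a b ka lam0 (zz 0 ψ x + th * Mi (zz 0 ψ x))) (gaussianReal 0 1) := by
    have hc : Continuous fun z : ℝ => Real.exp (-(z + th * Mi z) ^ 2 / (1 + a))
        / Dw W a b ka lam0 (z + th * Mi z) := by
      refine Continuous.div ?_ hDzc fun z => (hD0p _).ne'
      exact Real.continuous_exp.comp (((hXc.pow 2).neg).div_const _)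
    have hla : 0 < ka * (lam0 - a) := mul_pos hk (by linarith)
    refine integrable_zz (G := fun z : ℝ => Real.exp (-(z + th * Mi z) ^ 2 / (1 + a))
        / Dw W a b ka lam0 (z + th * Mi z)) hc
      (C := 1 / (ka * (lam0 - a))) (fun u => ?_) 0 ψ
    have q1 := hDa (u + th * Mi u)
    have q2 := hD0p (u + th * Mi u)
    rw [abs_of_nonneg (div_nonneg (hE _).le q2.le)]
    have q3 : Real.exp (-(u + th * Mi u) ^ 2 / (1 + a)) / Dw W a b ka lam0 (u + th * Mi u)
        ≤ 1 / (ka * (lam0 - a)) := by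
      rw [div_le_div_iff₀ q2 hla]
      linarith
    have q4 : 0 ≤ 1 / (ka * (lam0 - a)) := by positivity
    nlinarith [sq_nonneg u]
  have i3 : Integrable (fun x => Real.log (Pl lam (zz 0 ψ x + th * Mi (zz 0 ψ x))))
      (gaussianReal 0 1) := by
    obtain ⟨C, hC, hg⟩ := logPl_growth (by linarith : -1 < lam) (by linarith) th
    exact integrable_zz (continuous_logPl (by linarith) (by linarith) th) hg 0 ψ
  have i4 := i2.const_mul (ka * (lam - lam0))
  have hmain : (GE fun x => Real.log (Pl lam (zz 0 ψ x + th * Mi (zz 0 ψ x))))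
      ≤ C1w ψ th W a b ka lam0 + ka * (lam - lam0) * C2w ψ th W a b ka lam0 := by
    unfold C1w C2w
    rw [← GE_mul, ← GE_add i1 i4]
    exact GE_mono i3 (i1.add i4) fun x => hpt _
  unfold con
  have := mul_le_mul_of_nonneg_left hmain hal.le
  have e1 : (1 + th) ^ 2 * (1 - qp ψ) * ψ / (1 + lam)
      = (1 + th) ^ 2 * ((1 - qp ψ) * ψ) / (1 + lam) := by rw [mul_assoc]
  rw [e1]
  linarith

theorem part_cell {ψ a b th ka lam0 lam l s e : ℝ} {W : ℝ → ℝ} (hψ : 0 < ψ) (hG : 0 ≤ GG 0 ψ)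
    (ha : 0 ≤ a)
    (h0 : a < lam0) (h0b : lam0 ≤ b) (hb : b ≤ 1) (h1 : a ≤ lam) (h2 : lam ≤ b) (hk : 0 < ka)
    (hk2 : (62832 / 10000 * ka) ^ 2 * (1 - ((a + b) / 2) ^ 2) ≤ 1) (hWc : Continuous W)
    (hW : ∀ X, 0 ≤ W X ∧ Pl b X ≤ Ph X - W X)
    (ca : (1 + th) ^ 2 * ((1 - qp ψ) * ψ) / (1 + a)
      + al 0 0 ψ * (C1w ψ th W a b ka lam0 - ka * (lam0 - a) * C2w ψ th W a b ka lam0)
      + sp ψ 0 l s e - e * a * (1 - qp ψ) < 0)
    (cb : (1 + th) ^ 2 * ((1 - qp ψ) * ψ) / (1 + b)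
      + al 0 0 ψ * (C1w ψ th W a b ka lam0 + ka * (b - lam0) * C2w ψ th W a b ka lam0)
      + sp ψ 0 l s e - e * b * (1 - qp ψ) < 0) :
    sp ψ lam l s e + con 0 ψ th lam < 2 * GG 0 ψ := by
  have hab : a < b := lt_of_lt_of_le h0 h0b
  have hc := con_part_le hψ ha h0 h0b hb h1 h2 hk hk2 hWc hW (th := th)
  have hq : 0 < 1 - qp ψ := by have := qp_lt_one (ψ := ψ); linarith
  have hK : 0 ≤ (1 + th) ^ 2 * ((1 - qp ψ) * ψ) := by positivity
  set K := (1 + th) ^ 2 * ((1 - qp ψ) * ψ) with hKd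
  rw [sp_affine]
  have hconv : K / (1 + lam) * (b - a) ≤ (b - lam) * (K / (1 + a)) + (lam - a) * (K / (1 + b)) := by
    have e : (b - lam) * (K / (1 + a)) + (lam - a) * (K / (1 + b)) - K / (1 + lam) * (b - a)
        = K * ((b - lam) * (lam - a) * (b - a)) / ((1 + a) * (1 + b) * (1 + lam)) := by
      have x1 : (1 : ℝ) + a ≠ 0 := by linarith
      have x2 : (1 : ℝ) + b ≠ 0 := by linarith
      have x3 : (1 : ℝ) + lam ≠ 0 := by linarith
      field_simp
      ring
    have : 0 ≤ K * ((b - lam) * (lam - a) * (b - a)) / ((1 + a) * (1 + b) * (1 + lam)) := by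
      refine div_nonneg (mul_nonneg hK ?_) ?_
      · exact mul_nonneg (mul_nonneg (by linarith) (by linarith)) (by linarith)
      · exact mul_nonneg (mul_nonneg (by linarith) (by linarith)) (by linarith)
    linarith
  set A := K / (1 + a) with hA
  set B := K / (1 + b) with hB
  set L := K / (1 + lam) with hL
  set c1 := C1w ψ th W a b ka lam0
  set c2 := C2w ψ th W a b ka lam0
  set α := al 0 0 ψ
  set s0 := sp ψ 0 l s e
  set Q := 1 - qp ψ
  -- the chord bound
  have hH : (L + α * (c1 + ka * (lam - lam0) * c2) + s0 - e * lam * Q) * (b - a) < 0 := by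
    have k1 : (b - lam) * (A + α * (c1 - ka * (lam0 - a) * c2) + s0 - e * a * Q)
        + (lam - a) * (B + α * (c1 + ka * (b - lam0) * c2) + s0 - e * b * Q) < 0 := by
      rcases eq_or_lt_of_le h1 with h3 | h3
      · have y1 : 0 < b - lam := by linarith
        have y2 : (b - lam) * (A + α * (c1 - ka * (lam0 - a) * c2) + s0 - e * a * Q) < 0 :=
          mul_neg_of_pos_of_neg y1 ca
        have y3 : (lam - a) * (B + α * (c1 + ka * (b - lam0) * c2) + s0 - e * b * Q) = 0 := by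
          rw [← h3, sub_self, zero_mul]
        linarith
      · have y1 : 0 ≤ b - lam := by linarith
        have y2 : (b - lam) * (A + α * (c1 - ka * (lam0 - a) * c2) + s0 - e * a * Q) ≤ 0 :=
          mul_nonpos_of_nonneg_of_nonpos y1 ca.le
        have y3 : (lam - a) * (B + α * (c1 + ka * (b - lam0) * c2) + s0 - e * b * Q) < 0 :=
          mul_neg_of_pos_of_neg (by linarith) cb
        linarith
    have k2 : (L + α * (c1 + ka * (lam - lam0) * c2) + s0 - e * lam * Q) * (b - a)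
        = L * (b - a) - ((b - lam) * A + (lam - a) * B)
          + ((b - lam) * (A + α * (c1 - ka * (lam0 - a) * c2) + s0 - e * a * Q)
        + (lam - a) * (B + α * (c1 + ka * (b - lam0) * c2) + s0 - e * b * Q)) := by ring
    rw [k2]
    linarith
  have hH' : L + α * (c1 + ka * (lam - lam0) * c2) + s0 - e * lam * Q < 0 := by
    by_contra hcon
    push Not at hcon
    have := mul_nonneg hcon (by linarith : (0 : ℝ) ≤ b - a)
    linarith
  linarith

/-- cell `[.74,.80]`: partition `.80, .86, .91, .96, 1` -/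
def WI (X : ℝ) : ℝ :=
  171 / 10000 * Real.exp (-X ^ 2 / (1 + 4 / 5)) + 170 / 10000 * Real.exp (-X ^ 2 / (1 + 43 / 50))
    + 224 / 10000 * Real.exp (-X ^ 2 / (1 + 91 / 100))
    + 450 / 10000 * Real.exp (-X ^ 2 / (1 + 24 / 25))

/-- cell `[.80,.90]`: partition `.90, .95, 1` -/
def WJ (X : ℝ) : ℝ :=
  209 / 10000 * Real.exp (-X ^ 2 / (1 + 9 / 10)) + 503 / 10000 * Real.exp (-X ^ 2 / (1 + 19 / 20))

/-- cell `[.90,.97]`: partition `.97, 1` -/
def WK (X : ℝ) : ℝ := 389 / 10000 * Real.exp (-X ^ 2 / (1 + 97 / 100))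

theorem WI_ok : Continuous WI ∧ ∀ X, 0 ≤ WI X ∧ Pl (4 / 5) X ≤ Ph X - WI X := by
  refine ⟨by unfold WI; fun_prop, fun X => ⟨by unfold WI; positivity, ?_⟩⟩
  have h1 := Pl_piece (a := 4 / 5) (b := 43 / 50) (lam := 4 / 5) (ka := 285 / 1000) (X := X)
    (by norm_num) (by norm_num) (by norm_num) (by norm_num) (by norm_num) (by norm_num)
    (by norm_num)
  have h2 := Pl_piece (a := 43 / 50) (b := 91 / 100) (lam := 43 / 50) (ka := 34 / 100) (X := X)
    (by norm_num) (by norm_num) (by norm_num) (by norm_num) (by norm_num) (by norm_num)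
    (by norm_num)
  have h3 := Pl_piece (a := 91 / 100) (b := 24 / 25) (lam := 91 / 100) (ka := 448 / 1000) (X := X)
    (by norm_num) (by norm_num) (by norm_num) (by norm_num) (by norm_num) (by norm_num)
    (by norm_num)
  have h4 := Pl_last (r := 24 / 25) (c := 450 / 10000) (X := X)
    (by norm_num) (by norm_num) (by norm_num) (by norm_num)
  unfold WI
  set E1 := Real.exp (-X ^ 2 / (1 + 4 / 5))
  set E2 := Real.exp (-X ^ 2 / (1 + 43 / 50))
  set E3 := Real.exp (-X ^ 2 / (1 + 91 / 100))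
  set E4 := Real.exp (-X ^ 2 / (1 + 24 / 25))
  linarith

theorem WJ_ok : Continuous WJ ∧ ∀ X, 0 ≤ WJ X ∧ Pl (9 / 10) X ≤ Ph X - WJ X := by
  refine ⟨by unfold WJ; fun_prop, fun X => ⟨by unfold WJ; positivity, ?_⟩⟩
  have h1 := Pl_piece (a := 9 / 10) (b := 19 / 20) (lam := 9 / 10) (ka := 418 / 1000) (X := X)
    (by norm_num) (by norm_num) (by norm_num) (by norm_num) (by norm_num) (by norm_num)
    (by norm_num)
  have h4 := Pl_last (r := 19 / 20) (c := 503 / 10000) (X := X)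
    (by norm_num) (by norm_num) (by norm_num) (by norm_num)
  unfold WJ
  set E1 := Real.exp (-X ^ 2 / (1 + 9 / 10))
  set E2 := Real.exp (-X ^ 2 / (1 + 19 / 20))
  linarith

theorem WK_ok : Continuous WK ∧ ∀ X, 0 ≤ WK X ∧ Pl (97 / 100) X ≤ Ph X - WK X := by
  refine ⟨by unfold WK; fun_prop, fun X => ⟨by unfold WK; positivity, ?_⟩⟩
  have h4 := Pl_last (r := 97 / 100) (c := 389 / 10000) (X := X)
    (by norm_num) (by norm_num) (by norm_num) (by norm_num)
  unfold WK
  linarith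

end

end Pool.Agent.IP49
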