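import Pool.Agent.IP49.NLA

/-!
IP49, part N, (L*) side (helper49), module NLZ: the window `0 < |lam| ≤ 3/20`.

Test `th = lam`, `l = -e`, `s = 1`, `e = c lam`, `c = 697/500`.

PROOFS. `exp_window`: for `|x| ≤ t`, `0 < t`: `exp x - 1 - x - x²/2 = ∑_{k≥3} x^k/k!
≤ (x²/t²) ∑_{k≥3} t^k/k!`; for `t ≤ 21/25`: `∑_{k≥3} t^k/k! ≤ (t³/6)/(1 - t/4) ≤ 0.211 t³`; so
`exp x ≤ 1 + x + x²/2 + 0.211 t x²`. (Direct proof: e.g. Mathlib `Real.exp_bound'`-type series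
bounds, or monotonicity: with `a = 0.5 + 0.211 t` the function `1 + x + a x² - exp x`; any proof.)
`Me_le_window`: `Me e h = E exp(e X)`, `X = (σ-m)(σ'-m) ∈ {(1-m)², (1+m)², -(1-m²)}` with
probabilities `a², b², 2ab`, `a = (1+m)/2`, `b = (1-m)/2`; `|e X| ≤ 4|e| =: t ≤ 21/25`; `E X = 0`,
`E X² = (1-m²)²` (polynomial identities in `m`), so
`Me ≤ 1 + (e²/2 + 0.211 · 4|e| · e²)(1-m²)²`.
(Renamed from `Me_le`, which is declared in `LSmB`.)
`GE_log_Me_le`: `log ≤ · - 1`, integrate.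
`near_zero_N`: `sp_centred`, `con_diag_le` with `m0 = 1, L0 = 0`, `GE_Tl_le_pos/neg`,
`2 GG = 2 sZ + 2 cZ`.
-/

set_option autoImplicit false
open MeasureTheory ProbabilityTheory Filter Topology

namespace Pool.Agent.IP49

theorem exp_window {x t : ℝ} (ht : 0 < t) (ht' : t ≤ 21 / 25) (hx : |x| ≤ t) :
    Real.exp x ≤ 1 + x + x ^ 2 / 2 + 211 / 1000 * t * x ^ 2 := by
  have h1 := Real.exp_bound (x := x) (by linarith) (n := 5) (by norm_num)
  simp only [Finset.sum_range_succ, Finset.sum_range_zero, Nat.factorial] at h1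
  norm_num at h1
  rw [abs_le] at h1
  have h0 := abs_nonneg x
  have e2 : x ^ 2 = |x| ^ 2 := (sq_abs x).symm
  have e4 : x ^ 4 = |x| ^ 4 := by rw [show x ^ 4 = (x ^ 2) ^ 2 by ring, e2]; ring
  have e3 : x ^ 3 ≤ |x| ^ 3 := by
    calc x ^ 3 ≤ |x ^ 3| := le_abs_self _
      _ = |x| ^ 3 := abs_pow x 3
  have h2 : Real.exp x ≤ 1 + x + x ^ 2 / 2 + (|x| ^ 3 / 6 + |x| ^ 4 / 24 + |x| ^ 5 / 100) := by
    have := h1.2
    linarith
  refine h2.trans ?_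
  have h3 : |x| ^ 3 / 6 + |x| ^ 4 / 24 + |x| ^ 5 / 100 ≤ 211 / 1000 * t * x ^ 2 := by
    rw [e2]
    have g1 : |x| / 6 + |x| ^ 2 / 24 + |x| ^ 3 / 100 ≤ 211 / 1000 * t := by
      have k1 : |x| ^ 2 ≤ t * (21 / 25) := by nlinarith
      have k2 : |x| ^ 3 ≤ t * (21 / 25) ^ 2 := by
        have : |x| ^ 3 = |x| * |x| ^ 2 := by ring
        rw [this]
        have k3 : |x| ^ 2 ≤ (21 / 25) ^ 2 := pow_le_pow_left₀ h0 (hx.trans ht') 2
        exact mul_le_mul hx k3 (by positivity) ht.le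
      linarith
    calc |x| ^ 3 / 6 + |x| ^ 4 / 24 + |x| ^ 5 / 100
        = (|x| / 6 + |x| ^ 2 / 24 + |x| ^ 3 / 100) * |x| ^ 2 := by ring
      _ ≤ 211 / 1000 * t * |x| ^ 2 := mul_le_mul_of_nonneg_right g1 (by positivity)
  linarith

theorem Me_le_window {e h : ℝ} (he : |e| ≤ 21 / 100) :
    Me e h ≤ 1 + (e ^ 2 / 2 + 211 / 250 * |e| ^ 3) * (1 - Real.tanh h ^ 2) ^ 2 := by
  obtain ⟨h1, h2⟩ := tanh_lt' h
  unfold Me
  set m := Real.tanh h
  set a := (1 + m) / 2 with ha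
  set b := (1 - m) / 2 with hb
  have ha0 : 0 < a := by rw [ha]; linarith
  have hb0 : 0 < b := by rw [hb]; linarith
  have k1 : (1 - m) ^ 2 ≤ 4 := by nlinarith
  have k2 : (1 + m) ^ 2 ≤ 4 := by nlinarith
  have k3 : (1 - m ^ 2) ≤ 4 := by nlinarith [sq_nonneg m]
  have k4 : 0 ≤ 1 - m ^ 2 := by nlinarith
  rcases eq_or_ne e 0 with rfl | he0
  · simp only [zero_mul, neg_zero, Real.exp_zero, mul_one, abs_zero]
    have : a ^ 2 + b ^ 2 + 2 * a * b = 1 := by rw [ha, hb]; ring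
    linarith
  have hpos : 0 < |e| := abs_pos.2 he0
  have habs : ∀ t : ℝ, 0 ≤ t → t ≤ 4 → |e * t| ≤ 4 * |e| := by
    intro t ht0 ht
    rw [abs_mul, abs_of_nonneg ht0]
    nlinarith [abs_nonneg e]
  have ht : 0 < 4 * |e| := by linarith
  have ht' : 4 * |e| ≤ 21 / 25 := by linarith
  have b1 := exp_window ht ht' (habs _ (sq_nonneg (1 - m)) k1)
  have b2 := exp_window ht ht' (habs _ (sq_nonneg (1 + m)) k2)
  have b3 := exp_window (x := -(e * (1 - m ^ 2))) ht ht'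
    (by rw [abs_neg]; exact habs _ k4 k3)
  have q1 := mul_le_mul_of_nonneg_left b1 (sq_nonneg a)
  have q2 := mul_le_mul_of_nonneg_left b2 (sq_nonneg b)
  have q3 := mul_le_mul_of_nonneg_left b3 (by positivity : 0 ≤ 2 * a * b)
  have e3 : |e| ^ 3 = |e| * e ^ 2 := by rw [← sq_abs e]; ring
  have key : a ^ 2 * (1 + e * (1 - m) ^ 2 + (e * (1 - m) ^ 2) ^ 2 / 2
        + 211 / 1000 * (4 * |e|) * (e * (1 - m) ^ 2) ^ 2)
      + b ^ 2 * (1 + e * (1 + m) ^ 2 + (e * (1 + m) ^ 2) ^ 2 / 2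
        + 211 / 1000 * (4 * |e|) * (e * (1 + m) ^ 2) ^ 2)
      + 2 * a * b * (1 + -(e * (1 - m ^ 2)) + (-(e * (1 - m ^ 2))) ^ 2 / 2
        + 211 / 1000 * (4 * |e|) * (-(e * (1 - m ^ 2))) ^ 2)
      = 1 + (e ^ 2 / 2 + 211 / 250 * |e| ^ 3) * (1 - m ^ 2) ^ 2 := by
    rw [e3, ha, hb]; ring
  linarith

private theorem integrable_sech4 (ψ : ℝ) :
    Integrable (fun x => (1 - Real.tanh (Real.sqrt ψ * x) ^ 2) ^ 2) (gaussianReal 0 1) := by
  have hc : Continuous fun x => (1 - Real.tanh (Real.sqrt ψ * x) ^ 2) ^ 2 :=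
    (continuous_const.sub ((continuous_tanh'.comp (by fun_prop)).pow 2)).pow 2
  refine integrable_of_growth hc.measurable (C := 1) (k := 0) fun x => ?_
  rw [abs_of_nonneg (sq_nonneg _), pow_zero, mul_one]
  have h1 := tanh_sq_lt (Real.sqrt ψ * x)
  have h3 := sq_nonneg (Real.tanh (Real.sqrt ψ * x))
  nlinarith

theorem GE_log_Me_le {e ψ : ℝ} (he : |e| ≤ 21 / 100) :
    (GE fun x => Real.log (Me e (Real.sqrt ψ * x)))
      ≤ (e ^ 2 / 2 + 211 / 250 * |e| ^ 3) * ES2 ψ := by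
  have hi := integrable_sech4 ψ
  have hi2 : Integrable (fun x => (e ^ 2 / 2 + 211 / 250 * |e| ^ 3)
      * (1 - Real.tanh (Real.sqrt ψ * x) ^ 2) ^ 2) (gaussianReal 0 1) := hi.const_mul _
  have h1 : (GE fun x => Real.log (Me e (Real.sqrt ψ * x)))
      ≤ GE fun x => (e ^ 2 / 2 + 211 / 250 * |e| ^ 3)
        * (1 - Real.tanh (Real.sqrt ψ * x) ^ 2) ^ 2 := by
    apply GE_mono (integrable_logMe e ψ) hi2
    intro x
    have := Real.log_le_sub_one_of_pos (Me_pos e (Real.sqrt ψ * x))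
    have := Me_le_window (h := Real.sqrt ψ * x) he
    linarith
  refine h1.trans (le_of_eq ?_)
  rw [GE_mul]
  rfl

/-- the window, from numerical bounds -/
theorem near_zero_N {ψ lam C2 C3 C4 C5 C6 CT S a q' : ℝ} (hψ : 0 < ψ) (h0 : lam ≠ 0)
    (hl : |lam| ≤ 3 / 20) (e2 : Ecj ψ 2 ≤ C2) (e3 : Ecj ψ 3 ≤ C3) (e4 : Ecj ψ 4 ≤ C4)
    (e5 : Ecj ψ 5 ≤ C5) (e6 : Ecj ψ 6 ≤ C6) (eT : ET ψ ≤ CT) (eS : ES2 ψ ≤ S)
    (ea : al 0 0 ψ ≤ a) (eq : q' ≤ 1 - qp ψ)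
    (hc : a * C2 + (697 / 500) ^ 2 * S / 2 - 697 / 500 * q'
      + 3 / 20 * (a * C3 + 211 / 250 * (697 / 500) ^ 3 * S)
      + a * ((3 / 20) ^ 2 * C4 + (3 / 20) ^ 3 * C5 + (3 / 20) ^ 4 * C6
        + (3 / 20) ^ 5 * CT) < 0) :
    sp ψ lam (-(697 / 500 * lam)) 1 (697 / 500 * lam) + con 0 ψ lam lam < 2 * GG 0 ψ := by
  have ht0 : 0 < |lam| := abs_pos.2 h0
  have hlt : |lam| < 1 := by linarith
  have n2 := Ecj_nonneg ψ 2
  have n3 := Ecj_nonneg ψ 3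
  have n4 := Ecj_nonneg ψ 4
  have n5 := Ecj_nonneg ψ 5
  have n6 := Ecj_nonneg ψ 6
  have nR := ER_nonneg ψ
  have hER : ER ψ ≤ CT := by unfold ER; linarith
  have hal := al_pos (κ := 0) (ν := 0) le_rfl hψ
  have hS0 : 0 ≤ ES2 ψ := GE_nonneg fun x => sq_nonneg _
  -- the constraint side
  have hcon := con_diag_le (m0 := 1) (L0 := 0) hψ hlt one_pos (by rw [Real.exp_zero])
  have hB : (GE fun x => Tl lam (zz 0 ψ x)) - 1 ≤ C2 * |lam| ^ 2 + C3 * |lam| ^ 3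
      + C4 * |lam| ^ 4 + C5 * |lam| ^ 5 + C6 * |lam| ^ 6 + CT * |lam| ^ 7 := by
    have m2 := mul_le_mul_of_nonneg_right e2 (pow_pos ht0 2).le
    have m3 := mul_le_mul_of_nonneg_right e3 (pow_pos ht0 3).le
    have m4 := mul_le_mul_of_nonneg_right e4 (pow_pos ht0 4).le
    have m5 := mul_le_mul_of_nonneg_right e5 (pow_pos ht0 5).le
    have m6 := mul_le_mul_of_nonneg_right e6 (pow_pos ht0 6).le
    have m7 := mul_le_mul_of_nonneg_right hER (pow_pos ht0 7).le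
    rcases le_total 0 lam with hs | hs
    · have h1 := GE_Tl_le_pos (ψ := ψ) hs (by rwa [abs_of_nonneg hs] at hlt)
      unfold Fd at h1
      rw [abs_of_nonneg hs] at *
      linarith
    · have h1 := GE_Tl_le_neg (ψ := ψ) (t := -lam) (by linarith)
        (by rwa [abs_of_nonpos hs] at hlt)
      rw [neg_neg] at h1
      unfold Fm at h1
      have p3 := mul_nonneg n3 (pow_pos ht0 3).le
      have p5 := mul_nonneg n5 (pow_pos ht0 5).le
      rw [abs_of_nonpos hs] at *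
      linarith
  have hB0 : 0 ≤ C2 * |lam| ^ 2 + C3 * |lam| ^ 3
      + C4 * |lam| ^ 4 + C5 * |lam| ^ 5 + C6 * |lam| ^ 6 + CT * |lam| ^ 7 := by
    have c2 := n2.trans e2
    have c3 := n3.trans e3
    have c4 := n4.trans e4
    have c5 := n5.trans e5
    have c6 := n6.trans e6
    have c7 := nR.trans hER
    positivity
  have hA : al 0 0 ψ * ((GE fun x => Tl lam (zz 0 ψ x)) - 1)
      ≤ a * (C2 * |lam| ^ 2 + C3 * |lam| ^ 3
      + C4 * |lam| ^ 4 + C5 * |lam| ^ 5 + C6 * |lam| ^ 6 + CT * |lam| ^ 7) :=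
    (mul_le_mul_of_nonneg_left hB hal.le).trans (mul_le_mul_of_nonneg_right ea hB0)
  -- the spin side
  have habs : |697 / 500 * lam| = 697 / 500 * |lam| := by
    rw [abs_mul, abs_of_pos (by norm_num : (0 : ℝ) < 697 / 500)]
  have hM := GE_log_Me_le (e := 697 / 500 * lam) (ψ := ψ) (by rw [habs]; linarith)
  rw [habs] at hM
  have hsq : lam ^ 2 = |lam| ^ 2 := (sq_abs lam).symm
  have hM2 : (GE fun x => Real.log (Me (697 / 500 * lam) (Real.sqrt ψ * x)))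
      ≤ ((697 / 500) ^ 2 * |lam| ^ 2 / 2 + 211 / 250 * (697 / 500) ^ 3 * |lam| ^ 3) * S := by
    refine hM.trans ?_
    have : (697 / 500 * lam) ^ 2 / 2 + 211 / 250 * (697 / 500 * |lam|) ^ 3
        = (697 / 500) ^ 2 * |lam| ^ 2 / 2 + 211 / 250 * (697 / 500) ^ 3 * |lam| ^ 3 := by
      rw [mul_pow, hsq]; ring
    rw [this]
    exact mul_le_mul_of_nonneg_left eS (by positivity)
  have hq : 697 / 500 * |lam| ^ 2 * q' ≤ 697 / 500 * lam * lam * (1 - qp ψ) := by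
    have : 697 / 500 * lam * lam * (1 - qp ψ) = 697 / 500 * |lam| ^ 2 * (1 - qp ψ) := by
      rw [← hsq]; ring
    rw [this]
    exact mul_le_mul_of_nonneg_left eq (by positivity)
  rw [sp_centred, GG_eq]
  -- the polynomial in `t = |lam|`
  have hS1 : 0 ≤ S := hS0.trans eS
  have c3 := n3.trans e3
  have c4 := n4.trans e4
  have c5 := n5.trans e5
  have c6 := n6.trans e6
  have c7 := nR.trans hER
  have a0 : 0 ≤ a := hal.le.trans ea
  set t := |lam| with htd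
  have hpoly : a * (C2 + C3 * t + C4 * t ^ 2 + C5 * t ^ 3 + C6 * t ^ 4 + CT * t ^ 5)
      + ((697 / 500) ^ 2 / 2 + 211 / 250 * (697 / 500) ^ 3 * t) * S - 697 / 500 * q' < 0 := by
    have g1 : C3 * t ≤ C3 * (3 / 20) := mul_le_mul_of_nonneg_left hl c3
    have g2 : C4 * t ^ 2 ≤ C4 * (3 / 20) ^ 2 :=
      mul_le_mul_of_nonneg_left (pow_le_pow_left₀ ht0.le hl 2) c4
    have g3 : C5 * t ^ 3 ≤ C5 * (3 / 20) ^ 3 :=
      mul_le_mul_of_nonneg_left (pow_le_pow_left₀ ht0.le hl 3) c5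
    have g4 : C6 * t ^ 4 ≤ C6 * (3 / 20) ^ 4 :=
      mul_le_mul_of_nonneg_left (pow_le_pow_left₀ ht0.le hl 4) c6
    have g5 : CT * t ^ 5 ≤ CT * (3 / 20) ^ 5 :=
      mul_le_mul_of_nonneg_left (pow_le_pow_left₀ ht0.le hl 5) c7
    have g6 : (211 / 250 * (697 / 500) ^ 3 * t) * S ≤ (211 / 250 * (697 / 500) ^ 3 * (3 / 20)) * S :=
      mul_le_mul_of_nonneg_right (mul_le_mul_of_nonneg_left hl (by norm_num)) hS1
    have g7 : a * (C2 + C3 * t + C4 * t ^ 2 + C5 * t ^ 3 + C6 * t ^ 4 + CT * t ^ 5)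
        ≤ a * (C2 + C3 * (3 / 20) + C4 * (3 / 20) ^ 2 + C5 * (3 / 20) ^ 3 + C6 * (3 / 20) ^ 4
          + CT * (3 / 20) ^ 5) := mul_le_mul_of_nonneg_left (by linarith) a0
    nlinarith [g6, g7, hc]
  have hfin := mul_neg_of_pos_of_neg (pow_pos ht0 2) hpoly
  have hexp : t ^ 2 * (a * (C2 + C3 * t + C4 * t ^ 2 + C5 * t ^ 3 + C6 * t ^ 4 + CT * t ^ 5)
      + ((697 / 500) ^ 2 / 2 + 211 / 250 * (697 / 500) ^ 3 * t) * S - 697 / 500 * q')
      = a * (C2 * t ^ 2 + C3 * t ^ 3 + C4 * t ^ 4 + C5 * t ^ 5 + C6 * t ^ 6 + CT * t ^ 7)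
        + ((697 / 500) ^ 2 * t ^ 2 / 2 + 211 / 250 * (697 / 500) ^ 3 * t ^ 3) * S
        - 697 / 500 * t ^ 2 * q' := by ring
  rw [hexp] at hfin
  have hcon' : con 0 ψ lam lam ≤ 2 * cZ 0 ψ
      + al 0 0 ψ * ((GE fun x => Tl lam (zz 0 ψ x)) - 1) := by
    refine hcon.trans (le_of_eq ?_)
    rw [div_one, zero_add]
  linarith

end Pool.Agent.IP49
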