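import Pool.Agent.IP49.NU0

/-!
IP49, part N, (U*) side (owner helper60): for a fixed test, `ρ ↦ JN ψ ρ l th A` is bounded by
its values at the end points of a cell `[a,b]`.

PROOF. (1) `f(x) = (P + C x)/√(1 - x² q)` has, with `w = (1 - x² q)^(-1/2)`, `w' = q x w³`,
`f'' = q w⁵ (P (1 + 2 q x²) + 3 C x)`; so it is convex on `[a,b]` (`q > 0`, `a² q, b² q < 1`) when
`0 ≤ P (1 + 2 q x²) + 3 C x` there (`convexOn_of_deriv2_nonneg`).
(2) Chord: let `s* = k T(ρ)`, `p = Sp1p r l s* ≥ Sp1p r l smin ≥ pm`. By `Sp1_subgrad`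
`Sp1(s*) + p (k T(x) - s*) ≤ Sp1(k T(x))` for `x = a, b`. The function
`G_p(x) = T(x) (p k + (α n2) x) - l q x = √(1-q) f(x) - l q x` with `P = p k`, `C = α n2` is convex
on `[a,b]` (`p k (1+2qx²) + 3 C x ≥ pm k (1+2qx²) + 3 C x ≥ 0`, `k ≥ 0`). Hence, with
`ρ = (1-t) a + t b` and `c` the `ρ`-independent part,
`JN(ρ) = Sp1(s*) - p s* + G_p(ρ) + c ≤ (1-t)(Sp1(s*) - p s* + G_p(a) + c) + t (… b …)
≤ (1-t) JN(a) + t JN(b) ≤ max`.
`k = n1/n0 ≥ 0` because `Mi > 0`.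
-/

set_option autoImplicit false
open MeasureTheory ProbabilityTheory Filter Topology

namespace Pool.Agent.IP49

private theorem cell_pos {q a b x : ℝ} (hq : 0 ≤ q) (ha : a ^ 2 * q < 1) (hb : b ^ 2 * q < 1)
    (hx : x ∈ Set.Icc a b) : 0 < 1 - x ^ 2 * q := by
  obtain ⟨h1, h2⟩ := hx
  have h3 : x ^ 2 ≤ a ^ 2 ∨ x ^ 2 ≤ b ^ 2 := by
    rcases le_total 0 x with h | h
    · right; nlinarith
    · left; nlinarith
  rcases h3 with h | h
  · have := mul_le_mul_of_nonneg_right h hq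
    linarith
  · have := mul_le_mul_of_nonneg_right h hq
    linarith

private theorem hasDerivAt_w {q x : ℝ} (h : 0 < 1 - x ^ 2 * q) :
    HasDerivAt (fun x => (Real.sqrt (1 - x ^ 2 * q))⁻¹)
      (q * x * ((Real.sqrt (1 - x ^ 2 * q))⁻¹) ^ 3) x := by
  have h1 : HasDerivAt (fun x : ℝ => 1 - x ^ 2 * q) (-(2 * x * q)) x := by
    have h2 := ((hasDerivAt_pow 2 x).mul_const q).const_sub 1
    refine h2.congr_deriv ?_
    norm_num
  have h2 := (h1.sqrt h.ne').inv (Real.sqrt_pos.2 h).ne'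
  refine h2.congr_deriv ?_
  have := (Real.sqrt_pos.2 h).ne'
  field_simp

theorem convexOn_cell {q P C a b : ℝ} (hq : 0 ≤ q) (ha : a ^ 2 * q < 1) (hb : b ^ 2 * q < 1)
    (h : ∀ x ∈ Set.Icc a b, 0 ≤ P * (1 + 2 * q * x ^ 2) + 3 * C * x) :
    ConvexOn ℝ (Set.Icc a b) (fun x => (P + C * x) / Real.sqrt (1 - x ^ 2 * q)) := by
  set w : ℝ → ℝ := fun x => (Real.sqrt (1 - x ^ 2 * q))⁻¹ with hw
  have hfun : (fun x => (P + C * x) / Real.sqrt (1 - x ^ 2 * q)) = fun x => (P + C * x) * w x := by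
    funext x
    rw [div_eq_mul_inv]
  rw [hfun]
  have hlin : ∀ x, HasDerivAt (fun x : ℝ => P + C * x) C x := by
    intro x
    simpa using ((hasDerivAt_id x).const_mul C).const_add P
  have hf : ∀ x ∈ Set.Icc a b, HasDerivAt (fun x => (P + C * x) * w x)
      (C * w x + (P + C * x) * (q * x * w x ^ 3)) x := by
    intro x hx
    exact (hlin x).mul (hasDerivAt_w (cell_pos hq ha hb hx))
  have hf2 : ∀ x ∈ Set.Icc a b,
      HasDerivAt (fun x => C * w x + (P + C * x) * (q * x * w x ^ 3))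
      (q * w x ^ 5 * (P * (1 + 2 * q * x ^ 2) + 3 * C * x)) x := by
    intro x hx
    have hD := cell_pos hq ha hb hx
    have hwx := hasDerivAt_w hD
    have hqx : HasDerivAt (fun x : ℝ => q * x) q x := by
      simpa using (hasDerivAt_id x).const_mul q
    have h1 := (hwx.const_mul C).add ((hlin x).mul (hqx.mul (hwx.pow 3)))
    refine h1.congr_deriv ?_
    have hs := Real.sqrt_pos.2 hD
    have hss : Real.sqrt (1 - x ^ 2 * q) ^ 2 = 1 - x ^ 2 * q := Real.sq_sqrt hD.le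
    have hws : w x ^ 2 * (1 - x ^ 2 * q) = 1 := by
      rw [← hss]
      simp only [hw]
      field_simp
    have hwx0 : (Real.sqrt (1 - x ^ 2 * q))⁻¹ = w x := rfl
    simp only [hwx0]
    norm_num
    linear_combination (- 3 * C * q * x * w x ^ 3 - P * q * w x ^ 3) * hws
  refine convexOn_of_hasDerivWithinAt2_nonneg (convex_Icc a b)
    (f' := fun x => C * w x + (P + C * x) * (q * x * w x ^ 3))
    (f'' := fun x => q * w x ^ 5 * (P * (1 + 2 * q * x ^ 2) + 3 * C * x)) ?_ ?_ ?_ ?_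
  · exact fun x hx => (hf x hx).continuousAt.continuousWithinAt
  · exact fun x hx => (hf x (interior_subset hx)).hasDerivWithinAt
  · exact fun x hx => (hf2 x (interior_subset hx)).hasDerivWithinAt
  · intro x hx
    have hD := cell_pos hq ha hb (interior_subset hx)
    have hw0 : 0 < w x := inv_pos.2 (Real.sqrt_pos.2 hD)
    exact mul_nonneg (mul_nonneg hq (pow_pos hw0 5).le) (h x (interior_subset hx))

theorem n1_nonneg (v th A : ℝ) : 0 ≤ n1 v th A :=
  GE_nonneg fun _ => mul_nonneg (Mi_pos _).le (Mi_pos _).le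

theorem JN_chord {ψ a b rho l th A pm smin : ℝ} (hψ : 0 < ψ)
    (ha : a ≤ rho) (hb : rho ≤ b) (ha2 : a ^ 2 * qp ψ < 1) (hb2 : b ^ 2 * qp ψ < 1)
    (hs : ∀ x ∈ Set.Icc a b, smin ≤ n1 (vv ψ) th A / n0 (vv ψ) * Tr ψ x)
    (hp : pm ≤ Sp1p (Real.sqrt ψ) l smin)
    (hc : ∀ x ∈ Set.Icc a b, 0 ≤ pm * (n1 (vv ψ) th A / n0 (vv ψ)) * (1 + 2 * qp ψ * x ^ 2)
      + 3 * (al 0 0 ψ * n2 (vv ψ) th A) * x) :
    JN ψ rho l th A ≤ max (JN ψ a l th A) (JN ψ b l th A) := by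
  have hq := qp_nonneg ψ
  set q := qp ψ with hqd
  set r := Real.sqrt ψ with hr
  set k := n1 (vv ψ) th A / n0 (vv ψ) with hk
  set C := al 0 0 ψ * n2 (vv ψ) th A with hC
  have hk0 : 0 ≤ k := div_nonneg (n1_nonneg _ _ _) (n0_pos _).le
  have hrho : rho ∈ Set.Icc a b := ⟨ha, hb⟩
  set p := Sp1p r l (k * Tr ψ rho) with hpd
  have hpm : pm ≤ p := hp.trans (Sp1p_mono r l (hs rho hrho))
  have hconv : ConvexOn ℝ (Set.Icc a b) (fun x => (p * k + C * x) / Real.sqrt (1 - x ^ 2 * q)) := by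
    refine convexOn_cell hq ha2 hb2 fun x hx => ?_
    refine (hc x hx).trans ?_
    have h1 : 0 ≤ (p - pm) * (k * (1 + 2 * q * x ^ 2)) := by
      refine mul_nonneg (by linarith) (mul_nonneg hk0 ?_)
      have := mul_nonneg hq (sq_nonneg x)
      linarith
    linarith
  -- the coordinate of rho
  have hseg : rho ∈ segment ℝ a b := by rw [segment_eq_Icc (ha.trans hb)]; exact hrho
  obtain ⟨u, t, hu, ht, hut, hrt⟩ := hseg
  simp only [smul_eq_mul] at hrt
  have hab : a ≤ b := ha.trans hb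
  have h2 := hconv.2 (Set.left_mem_Icc.2 hab) (Set.right_mem_Icc.2 hab) hu ht hut
  simp only [smul_eq_mul] at h2
  rw [hrt] at h2
  have hTr : ∀ x, Tr ψ x = Real.sqrt (1 - q) / Real.sqrt (1 - x ^ 2 * q) := fun x => rfl
  -- G_p
  have hG : Tr ψ rho * (p * k + C * rho) ≤ u * (Tr ψ a * (p * k + C * a))
      + t * (Tr ψ b * (p * k + C * b)) := by
    have h3 := mul_le_mul_of_nonneg_left h2 (Real.sqrt_nonneg (1 - q))
    rw [hTr, hTr, hTr]
    calc _ = Real.sqrt (1 - q) * ((p * k + C * rho) / Real.sqrt (1 - rho ^ 2 * q)) := by ring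
      _ ≤ _ := h3
      _ = _ := by ring
  have hsa := Sp1_subgrad r l (k * Tr ψ rho) (k * Tr ψ a)
  have hsb := Sp1_subgrad r l (k * Tr ψ rho) (k * Tr ψ b)
  rw [← hpd] at hsa hsb
  have hJ : ∀ x, JN ψ x l th A = Sp1 r l (k * Tr ψ x) - l * x * q - k ^ 2 * (1 - q) * ψ / 2
      + al 0 0 ψ * n3 (vv ψ) th A + x * Tr ψ x * C := fun x => rfl
  have key : JN ψ rho l th A ≤ u * JN ψ a l th A + t * JN ψ b l th A := by
    rw [hJ, hJ, hJ]
    set c := - k ^ 2 * (1 - q) * ψ / 2 + al 0 0 ψ * n3 (vv ψ) th A with hcd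
    have e1 := mul_le_mul_of_nonneg_left hsa hu
    have e2 := mul_le_mul_of_nonneg_left hsb ht
    have e3 : u * Sp1 r l (k * Tr ψ rho) + t * Sp1 r l (k * Tr ψ rho) = Sp1 r l (k * Tr ψ rho) := by
      rw [← add_mul, hut, one_mul]
    have e4 : u * c + t * c = c := by rw [← add_mul, hut, one_mul]
    have e5 : u * (p * (k * Tr ψ rho)) + t * (p * (k * Tr ψ rho)) = p * (k * Tr ψ rho) := by
      rw [← add_mul, hut, one_mul]
    have e6 : l * rho * q = u * (l * a * q) + t * (l * b * q) := by rw [← hrt]; ring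
    nlinarith [e1, e2, e3, e4, e5, e6, hG]
  calc JN ψ rho l th A ≤ u * JN ψ a l th A + t * JN ψ b l th A := key
    _ ≤ u * max (JN ψ a l th A) (JN ψ b l th A) + t * max (JN ψ a l th A) (JN ψ b l th A) :=
      add_le_add (mul_le_mul_of_nonneg_left (le_max_left _ _) hu)
        (mul_le_mul_of_nonneg_left (le_max_right _ _) ht)
    _ = max (JN ψ a l th A) (JN ψ b l th A) := by rw [← add_mul, hut, one_mul]

end Pool.Agent.IP49
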