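import Pool.Agent.IP49.NUC

/-!
IP49, part N, (U*) side (helper60): evaluation of `JN` at the end points of a cell from interval
bounds, and the cell theorem.
-/

set_option autoImplicit false
open MeasureTheory ProbabilityTheory Filter Topology

namespace Pool.Agent.IP49

/-- interval bounds for one test `(th, A)` -/
structure TestB (ψ th A p1 q1 q2 k1 k2 a1 a2 n2a n2b N3 : ℝ) : Prop where
  hψ : 0 < ψ
  hp1 : p1 ≤ ψ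
  hp0 : 0 ≤ p1
  hq1 : q1 ≤ qp ψ
  hq2 : qp ψ ≤ q2
  hq0 : 0 ≤ q1
  hq21 : q2 < 1
  hk1 : k1 ≤ n1 (vv ψ) th A / n0 (vv ψ)
  hk2 : n1 (vv ψ) th A / n0 (vv ψ) ≤ k2
  hk0 : 0 ≤ k1
  ha1 : a1 ≤ al 0 0 ψ
  ha2 : al 0 0 ψ ≤ a2
  ha0 : 0 ≤ a1
  hn2a : n2a ≤ n2 (vv ψ) th A
  hn2b : n2 (vv ψ) th A ≤ n2b
  hn20 : n2b ≤ 0
  hN3 : al 0 0 ψ * n3 (vv ψ) th A ≤ N3

theorem Tr_bounds {ψ rho q1 q2 T1 T2 : ℝ} (hψ : 0 < ψ) (hr : rho ^ 2 * qp ψ < 1)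
    (hq1 : q1 ≤ qp ψ) (hq2 : qp ψ ≤ q2) (hT1 : 0 ≤ T1) (hT2 : 0 ≤ T2)
    (h1a : T1 ^ 2 * (1 - rho ^ 2 * q1) ≤ 1 - q1) (h1b : T1 ^ 2 * (1 - rho ^ 2 * q2) ≤ 1 - q2)
    (h2a : 1 - q1 ≤ T2 ^ 2 * (1 - rho ^ 2 * q1)) (h2b : 1 - q2 ≤ T2 ^ 2 * (1 - rho ^ 2 * q2)) :
    T1 ≤ Tr ψ rho ∧ Tr ψ rho ≤ T2 := by
  have hs := Tr_sq hψ hr
  have hT := Tr_pos hψ hr
  have hden : 0 < 1 - rho ^ 2 * qp ψ := by linarith
  have lin : ∀ {c : ℝ}, c * q1 ≤ c * qp ψ ∨ c * q2 ≤ c * qp ψ := by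
    intro c
    rcases le_total 0 c with hc | hc
    · exact Or.inl (mul_le_mul_of_nonneg_left hq1 hc)
    · exact Or.inr (mul_le_mul_of_nonpos_left hq2 hc)
  constructor
  · have h : T1 ^ 2 * (1 - rho ^ 2 * qp ψ) ≤ 1 - qp ψ := by
      rcases lin (c := T1 ^ 2 * rho ^ 2 - 1) with h | h
      · linarith [h, h1a, h1b]
      · linarith [h, h1a, h1b]
    have h' : T1 ^ 2 ≤ Tr ψ rho ^ 2 := by
      rw [← hs] at h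
      exact le_of_mul_le_mul_right h hden
    exact (sq_le_sq₀ hT1 hT.le).1 h'
  · have h : 1 - qp ψ ≤ T2 ^ 2 * (1 - rho ^ 2 * qp ψ) := by
      rcases lin (c := 1 - T2 ^ 2 * rho ^ 2) with h | h
      · linarith [h, h2a, h2b]
      · linarith [h, h2a, h2b]
    have h' : Tr ψ rho ^ 2 ≤ T2 ^ 2 := by
      rw [← hs] at h
      exact le_of_mul_le_mul_right h hden
    exact (sq_le_sq₀ hT.le hT2).1 h'

section
variable {ψ th A p1 q1 q2 k1 k2 a1 a2 n2a n2b N3 : ℝ}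

theorem TestB.s_bounds (B : TestB ψ th A p1 q1 q2 k1 k2 a1 a2 n2a n2b N3) {rho T1 T2 : ℝ}
    (hT1 : 0 ≤ T1) (h1 : T1 ≤ Tr ψ rho) (h2 : Tr ψ rho ≤ T2) :
    k1 * T1 ≤ n1 (vv ψ) th A / n0 (vv ψ) * Tr ψ rho ∧
      n1 (vv ψ) th A / n0 (vv ψ) * Tr ψ rho ≤ k2 * T2 := by
  have hk := le_trans B.hk0 B.hk1
  exact ⟨mul_le_mul B.hk1 h1 hT1 hk,
    mul_le_mul B.hk2 h2 (le_trans hT1 h1) (le_trans hk B.hk2)⟩

theorem TestB.k_sq (B : TestB ψ th A p1 q1 q2 k1 k2 a1 a2 n2a n2b N3) :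
    k1 ^ 2 * (1 - q2) * p1 / 2 ≤ (n1 (vv ψ) th A / n0 (vv ψ)) ^ 2 * (1 - qp ψ) * ψ / 2 := by
  have h1 : k1 ^ 2 ≤ (n1 (vv ψ) th A / n0 (vv ψ)) ^ 2 := pow_le_pow_left₀ B.hk0 B.hk1 2
  have h2 : 1 - q2 ≤ 1 - qp ψ := by linarith [B.hq2]
  have h3 : 0 ≤ 1 - q2 := by linarith [B.hq21]
  have h4 : k1 ^ 2 * (1 - q2) ≤ (n1 (vv ψ) th A / n0 (vv ψ)) ^ 2 * (1 - qp ψ) :=
    mul_le_mul h1 h2 h3 (sq_nonneg _)
  have h5 : k1 ^ 2 * (1 - q2) * p1 ≤ (n1 (vv ψ) th A / n0 (vv ψ)) ^ 2 * (1 - qp ψ) * ψ :=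
    mul_le_mul h4 B.hp1 B.hp0 (mul_nonneg (sq_nonneg _) (by linarith))
  linarith

theorem TestB.lq (B : TestB ψ th A p1 q1 q2 k1 k2 a1 a2 n2a n2b N3) {c L : ℝ}
    (h1 : -(c * q1) ≤ L) (h2 : -(c * q2) ≤ L) : -(c * qp ψ) ≤ L := by
  rcases le_total 0 c with hc | hc
  · have := mul_le_mul_of_nonneg_left B.hq1 hc
    linarith
  · have := mul_le_mul_of_nonpos_left B.hq2 hc
    linarith

/-- value at an end point `rho ≥ 0` -/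
theorem TestB.JN_pos (B : TestB ψ th A p1 q1 q2 k1 k2 a1 a2 n2a n2b N3) {rho l T1 T2 t L : ℝ}
    (hrho : 0 ≤ rho) (hr : rho ^ 2 * qp ψ < 1) (hT0 : 0 ≤ T1) (hT1 : T1 ≤ Tr ψ rho)
    (hT2 : Tr ψ rho ≤ T2)
    (hS : ∀ s, k1 * T1 ≤ s → s ≤ k2 * T2 → Sp1 (Real.sqrt ψ) l s ≤ t)
    (hL1 : -(l * rho * q1) ≤ L) (hL2 : -(l * rho * q2) ≤ L)
    (hfin : t + L - k1 ^ 2 * (1 - q2) * p1 / 2 + N3 + rho * T1 * (a1 * n2b) ≤ 0) :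
    JN ψ rho l th A ≤ 0 := by
  obtain ⟨hs1, hs2⟩ := B.s_bounds hT0 hT1 hT2
  have h1 := hS _ hs1 hs2
  have h2 := B.lq hL1 hL2
  have h3 := B.k_sq
  have h4 := B.hN3
  have h5 : al 0 0 ψ * n2 (vv ψ) th A ≤ a1 * n2b := by
    have e1 : al 0 0 ψ * n2 (vv ψ) th A ≤ al 0 0 ψ * n2b :=
      mul_le_mul_of_nonneg_left B.hn2b (le_trans B.ha0 B.ha1)
    have e2 : al 0 0 ψ * n2b ≤ a1 * n2b := mul_le_mul_of_nonpos_right B.ha1 B.hn20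
    linarith
  have h6 : a1 * n2b ≤ 0 := mul_nonpos_of_nonneg_of_nonpos B.ha0 B.hn20
  have h7 : rho * Tr ψ rho * (al 0 0 ψ * n2 (vv ψ) th A) ≤ rho * T1 * (a1 * n2b) := by
    have e1 : rho * T1 ≤ rho * Tr ψ rho := mul_le_mul_of_nonneg_left hT1 hrho
    have e0 : 0 ≤ rho * Tr ψ rho := le_trans (mul_nonneg hrho hT0) e1
    have e2 : rho * Tr ψ rho * (al 0 0 ψ * n2 (vv ψ) th A) ≤ rho * Tr ψ rho * (a1 * n2b) :=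
      mul_le_mul_of_nonneg_left h5 e0
    have e3 : rho * Tr ψ rho * (a1 * n2b) ≤ rho * T1 * (a1 * n2b) :=
      mul_le_mul_of_nonpos_right e1 h6
    linarith
  unfold JN
  linarith

/-- value at an end point `rho ≤ 0` -/
theorem TestB.JN_neg (B : TestB ψ th A p1 q1 q2 k1 k2 a1 a2 n2a n2b N3) {rho l T1 T2 t L : ℝ}
    (hrho : rho ≤ 0) (hr : rho ^ 2 * qp ψ < 1) (hT0 : 0 ≤ T1) (hT1 : T1 ≤ Tr ψ rho)
    (hT2 : Tr ψ rho ≤ T2) (hn2a0 : n2a ≤ 0)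
    (hS : ∀ s, k1 * T1 ≤ s → s ≤ k2 * T2 → Sp1 (Real.sqrt ψ) l s ≤ t)
    (hL1 : -(l * rho * q1) ≤ L) (hL2 : -(l * rho * q2) ≤ L)
    (hfin : t + L - k1 ^ 2 * (1 - q2) * p1 / 2 + N3 + rho * T2 * (a2 * n2a) ≤ 0) :
    JN ψ rho l th A ≤ 0 := by
  obtain ⟨hs1, hs2⟩ := B.s_bounds hT0 hT1 hT2
  have h1 := hS _ hs1 hs2
  have h2 := B.lq hL1 hL2
  have h3 := B.k_sq
  have h4 := B.hN3
  have h5 : a2 * n2a ≤ al 0 0 ψ * n2 (vv ψ) th A := by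
    have e1 : al 0 0 ψ * n2a ≤ al 0 0 ψ * n2 (vv ψ) th A :=
      mul_le_mul_of_nonneg_left B.hn2a (le_trans B.ha0 B.ha1)
    have e2 : a2 * n2a ≤ al 0 0 ψ * n2a := mul_le_mul_of_nonpos_right B.ha2 hn2a0
    linarith
  have h6 : a2 * n2a ≤ 0 :=
    mul_nonpos_of_nonneg_of_nonpos (le_trans B.ha0 (le_trans B.ha1 B.ha2)) hn2a0
  have h7 : rho * Tr ψ rho * (al 0 0 ψ * n2 (vv ψ) th A) ≤ rho * T2 * (a2 * n2a) := by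
    have e1 : rho * T2 ≤ rho * Tr ψ rho := mul_le_mul_of_nonpos_left hT2 hrho
    have e0 : rho * Tr ψ rho ≤ 0 :=
      mul_nonpos_of_nonpos_of_nonneg hrho (le_trans hT0 hT1)
    have e2 : rho * Tr ψ rho * (al 0 0 ψ * n2 (vv ψ) th A) ≤ rho * Tr ψ rho * (a2 * n2a) :=
      mul_le_mul_of_nonpos_left h5 e0
    have e3 : rho * Tr ψ rho * (a2 * n2a) ≤ rho * T2 * (a2 * n2a) :=
      mul_le_mul_of_nonpos_right e1 h6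
    linarith
  unfold JN
  linarith

/-- the convexity condition on a cell from two numerical checks -/
theorem TestB.conv (B : TestB ψ th A p1 q1 q2 k1 k2 a1 a2 n2a n2b N3) {a b a' pm x0 : ℝ}
    (hn2a0 : n2a ≤ 0) (ha' : 0 ≤ a') (hab : ∀ x, a ≤ x → x < 0 ∨ a' ≤ x) (hb0 : a' ≤ b)
    (hpm : 0 ≤ pm)
    (hA : 0 ≤ pm * k1 * (1 + 2 * q1 * (2 * x0 * a' - x0 ^ 2)) + 3 * (a2 * n2a) * a')
    (hB : 0 ≤ pm * k1 * (1 + 2 * q1 * (2 * x0 * b - x0 ^ 2)) + 3 * (a2 * n2a) * b) :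
    ∀ x ∈ Set.Icc a b, 0 ≤ pm * (n1 (vv ψ) th A / n0 (vv ψ)) * (1 + 2 * qp ψ * x ^ 2)
      + 3 * (al 0 0 ψ * n2 (vv ψ) th A) * x := by
  intro x hx
  have hk := le_trans B.hk0 B.hk1
  have hq := le_trans B.hq0 B.hq1
  have ha := le_trans B.ha0 B.ha1
  have hC0 : al 0 0 ψ * n2 (vv ψ) th A ≤ 0 :=
    mul_nonpos_of_nonneg_of_nonpos ha (le_trans B.hn2b B.hn20)
  have hP : pm * k1 ≤ pm * (n1 (vv ψ) th A / n0 (vv ψ)) := mul_le_mul_of_nonneg_left B.hk1 hpm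
  have hP0 : 0 ≤ pm * k1 := mul_nonneg hpm B.hk0
  have hQ : 0 ≤ 1 + 2 * qp ψ * x ^ 2 := by positivity
  rcases hab x hx.1 with h | h
  · have e1 : 0 ≤ pm * (n1 (vv ψ) th A / n0 (vv ψ)) * (1 + 2 * qp ψ * x ^ 2) :=
      mul_nonneg (le_trans hP0 hP) hQ
    have e2 : 0 ≤ (al 0 0 ψ * n2 (vv ψ) th A) * x := mul_nonneg_of_nonpos_of_nonpos hC0 h.le
    linarith
  · have hx0 : 0 ≤ x := le_trans ha' h
    have h5 : a2 * n2a ≤ al 0 0 ψ * n2 (vv ψ) th A := by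
      have e1 : al 0 0 ψ * n2a ≤ al 0 0 ψ * n2 (vv ψ) th A :=
        mul_le_mul_of_nonneg_left B.hn2a ha
      have e2 : a2 * n2a ≤ al 0 0 ψ * n2a := mul_le_mul_of_nonpos_right B.ha2 hn2a0
      linarith
    have e1 : (a2 * n2a) * x ≤ (al 0 0 ψ * n2 (vv ψ) th A) * x :=
      mul_le_mul_of_nonneg_right h5 hx0
    have e2 : pm * k1 * (1 + 2 * qp ψ * x ^ 2)
        ≤ pm * (n1 (vv ψ) th A / n0 (vv ψ)) * (1 + 2 * qp ψ * x ^ 2) :=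
      mul_le_mul_of_nonneg_right hP hQ
    have e3 : q1 * (2 * x0 * x - x0 ^ 2) ≤ qp ψ * x ^ 2 := by
      have f1 : q1 * (2 * x0 * x - x0 ^ 2) ≤ q1 * x ^ 2 :=
        mul_le_mul_of_nonneg_left (by nlinarith only [sq_nonneg (x - x0)]) B.hq0
      have f2 : q1 * x ^ 2 ≤ qp ψ * x ^ 2 := mul_le_mul_of_nonneg_right B.hq1 (sq_nonneg _)
      linarith
    have e4 : pm * k1 * (1 + 2 * q1 * (2 * x0 * x - x0 ^ 2))
        ≤ pm * k1 * (1 + 2 * qp ψ * x ^ 2) :=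
      mul_le_mul_of_nonneg_left (by linarith) hP0
    -- linear function on [a', b]
    have e5 : 0 ≤ pm * k1 * (1 + 2 * q1 * (2 * x0 * x - x0 ^ 2)) + 3 * (a2 * n2a) * x := by
      set c : ℝ := pm * k1 * (4 * q1 * x0) + 3 * (a2 * n2a) with hc
      set d : ℝ := pm * k1 * (1 - 2 * q1 * x0 ^ 2) with hd
      have f0 : ∀ y : ℝ, pm * k1 * (1 + 2 * q1 * (2 * x0 * y - x0 ^ 2)) + 3 * (a2 * n2a) * y
          = d + c * y := fun y => by rw [hc, hd]; ring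
      rw [f0] at hA hB ⊢
      rcases le_total 0 c with h0 | h0
      · have := mul_le_mul_of_nonneg_left h h0
        linarith
      · have := mul_le_mul_of_nonpos_left hx.2 h0
        linarith
    linarith

/-- the cell theorem -/
theorem TestB.cell (B : TestB ψ th A p1 q1 q2 k1 k2 a1 a2 n2a n2b N3) {a b l pm smin : ℝ}
    (ha2 : a ^ 2 * qp ψ < 1) (hb2 : b ^ 2 * qp ψ < 1)
    (hs : ∀ x ∈ Set.Icc a b, smin ≤ n1 (vv ψ) th A / n0 (vv ψ) * Tr ψ x)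
    (hp : pm ≤ Sp1p (Real.sqrt ψ) l smin)
    (hc : ∀ x ∈ Set.Icc a b, 0 ≤ pm * (n1 (vv ψ) th A / n0 (vv ψ)) * (1 + 2 * qp ψ * x ^ 2)
      + 3 * (al 0 0 ψ * n2 (vv ψ) th A) * x)
    (hJa : JN ψ a l th A ≤ 0) (hJb : JN ψ b l th A ≤ 0) :
    ∀ rho : ℝ, a ≤ rho → rho ≤ b → JN ψ rho l th A ≤ 0 := by
  intro rho h1 h2
  exact le_trans (JN_chord B.hψ h1 h2 ha2 hb2 hs hp hc) (max_le hJa hJb)

/-- lower bound of `k T(x)` on a cell: `T` is increasing in `|x|` -/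
theorem TestB.smin_le (B : TestB ψ th A p1 q1 q2 k1 k2 a1 a2 n2a n2b N3) {a x T1 : ℝ}
    (hax : a ^ 2 ≤ x ^ 2) (hx : x ^ 2 * qp ψ < 1) (hT0 : 0 ≤ T1)
    (h1a : T1 ^ 2 * (1 - a ^ 2 * q1) ≤ 1 - q1) (h1b : T1 ^ 2 * (1 - a ^ 2 * q2) ≤ 1 - q2) :
    k1 * T1 ≤ n1 (vv ψ) th A / n0 (vv ψ) * Tr ψ x := by
  have hq := le_trans B.hq0 B.hq1
  have h3 : a ^ 2 * qp ψ ≤ x ^ 2 * qp ψ := mul_le_mul_of_nonneg_right hax hq
  have h2 : T1 ≤ Tr ψ x := by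
    have hs := Tr_sq B.hψ hx
    have hT := Tr_pos B.hψ hx
    have hden : 0 < 1 - x ^ 2 * qp ψ := by linarith
    have h : T1 ^ 2 * (1 - a ^ 2 * qp ψ) ≤ 1 - qp ψ := by
      rcases le_total 0 (T1 ^ 2 * a ^ 2 - 1) with hc | hc
      · have := mul_le_mul_of_nonneg_left B.hq1 hc
        linarith
      · have := mul_le_mul_of_nonpos_left B.hq2 hc
        linarith
    have h4 : T1 ^ 2 * (1 - x ^ 2 * qp ψ) ≤ T1 ^ 2 * (1 - a ^ 2 * qp ψ) :=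
      mul_le_mul_of_nonneg_left (by linarith) (sq_nonneg _)
    have h5 : T1 ^ 2 * (1 - x ^ 2 * qp ψ) ≤ Tr ψ x ^ 2 * (1 - x ^ 2 * qp ψ) := by
      rw [hs]; exact le_trans h4 h
    exact (sq_le_sq₀ hT0 hT.le).1 (le_of_mul_le_mul_right h5 hden)
  exact mul_le_mul B.hk1 h2 hT0 (le_trans B.hk0 B.hk1)

end

end Pool.Agent.IP49
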