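import Pool.Agent.IP49.NUE
import Pool.Agent.IP49N.Box
import Pool.Agent.IP49.NUG
import Pool.Agent.IP49N.UVa
import Pool.Agent.IP49N.UVb
import Pool.Agent.IP49N.UVc
import Pool.Agent.IP49N.UVd
import Pool.Agent.IP49N.UVe
import Pool.Agent.IP49N.USa
import Pool.Agent.IP49N.USb
import Pool.Agent.IP49N.USc
import Pool.Agent.IP49N.USd
import Pool.Agent.IP49N.USe

/-!
IP49, part N, (U*) side (helper60): the cells R1, R2, R3, R4, R5.
-/

set_option autoImplicit false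
set_option maxRecDepth 20000
open MeasureTheory ProbabilityTheory Filter Topology

namespace Pool.Agent.IP49
open IP49N

theorem tb_R1 {ψ : ℝ} (h1 : psi1 ≤ ψ) (h2 : ψ ≤ psi2) :
    TestB ψ (21 / 20) (9 / 100) (128817 / 50000)
      (281974143043 / 500000000000) (56394970003 / 100000000000) (2383387 / 2500000)
      (190673 / 200000) (4165359 / 5000000) (8330853 / 10000000)
      (-(7322619 / 10000000)) (-(7322539 / 10000000)) (-(1467867 / 5000000)) := by
  have h := UVa_all (box_v h1 h2)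
  have e1 := h.2.1
  have e2 := h.2.2.1
  have e3 := h.2.2.2.1.2
  refine mk_testB (n1a := (12856179 / 10000000)) (n1b := (2057 / 1600)) (n3b := (-(3523987 / 10000000))) h1 h2 ?_ ?_ ?_
    (by norm_num) (by norm_num) (by norm_num) (by norm_num) (by norm_num) (by norm_num) (by norm_num)
  · simp only [n1, yn, neg_mul, ← sub_eq_add_neg]
    exact ⟨by linarith [e1.1], by linarith [e1.2]⟩
  · simp only [n2, yn, neg_mul, ← sub_eq_add_neg]
    exact ⟨by linarith [e2.1], by linarith [e2.2]⟩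
  · simp only [n3, yn, neg_mul, ← sub_eq_add_neg]
    linarith [e3]

theorem sp_R1a {ψ : ℝ} (h1 : psi1 ≤ ψ) (h2 : ψ ≤ psi2) (s : ℝ)
    (g1 : (2383387 / 2500000) * (640219 / 625000) ≤ s) (g2 : s ≤ (190673 / 200000) * (5121753 / 5000000)) :
    Sp1 (Real.sqrt ψ) (13 / 100) s ≤ (1514663 / 1000000) := by
  have hb : InB s ⟨(Int.ofNat (nat_lit 1125913961238761270)), nat_lit 6132993083531⟩ :=
    InB_of g1 g2 (by rw [S_eq]; norm_num) (by rw [S_eq]; norm_num)
  have h := (USa_all (box_r h1 h2) hb (InB_ctr _ _) (InB_ctr _ _) (InB_ctr _ _)).1.2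
  simp only [Sp1, neg_mul]
  linarith [h]

theorem sp_R1b {ψ : ℝ} (h1 : psi1 ≤ ψ) (h2 : ψ ≤ psi2) (s : ℝ)
    (g1 : (2383387 / 2500000) * (5209357 / 5000000) ≤ s) (g2 : s ≤ (190673 / 200000) * (5209359 / 5000000)) :
    Sp1 (Real.sqrt ψ) (13 / 100) s ≤ (1533717 / 1000000) := by
  have hb : InB s ⟨(Int.ofNat (nat_lit 1145172263066946511)), nat_lit 6345930306734⟩ :=
    InB_of g1 g2 (by rw [S_eq]; norm_num) (by rw [S_eq]; norm_num)
  have h := (USa_all (box_r h1 h2) (InB_ctr _ _) hb (InB_ctr _ _) (InB_ctr _ _)).2.2.1.2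
  simp only [Sp1, neg_mul]
  linarith [h]

theorem sl_R1 {ψ : ℝ} (h1 : psi1 ≤ ψ) (h2 : ψ ≤ psi2) :
    (1138851 / 1000000) ≤ Sp1p (Real.sqrt ψ) (13 / 100) ((2383387 / 2500000) * (640219 / 625000)) := by
  have hb : InB ((2383387 / 2500000) * (640219 / 625000) : ℝ) ⟨(Int.ofNat (nat_lit 1125913961238761270)), nat_lit 6132993083531⟩ :=
    InB_of le_rfl le_rfl (by rw [S_eq]; norm_num) (by rw [S_eq]; norm_num)
  have h := (USa_all (box_r h1 h2) hb (InB_ctr _ _) (InB_ctr _ _) (InB_ctr _ _)).2.1.1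
  simp only [Sp1p, neg_mul]
  linarith [h]

theorem cell_R1 {ψ : ℝ} (h1 : psi1 ≤ ψ) (h2 : ψ ≤ psi2) {rho : ℝ} (g1 : (509 / 500) ≤ rho)
    (g2 : rho ≤ (103 / 100)) : JN ψ rho (13 / 100) (21 / 20) (9 / 100) ≤ 0 := by
  have B := tb_R1 h1 h2
  have hq0 : 0 ≤ qp ψ := le_trans B.hq0 B.hq1
  have hqq : (103 / 100) ^ 2 * qp ψ < 1 := by
    have := mul_le_mul_of_nonneg_left B.hq2 (show (0 : ℝ) ≤ (103 / 100) ^ 2 by norm_num)
    norm_num at this ⊢
    linarith
  have hx2 : ∀ x ∈ Set.Icc ((509 / 500) : ℝ) (103 / 100), x ^ 2 * qp ψ < 1 := by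
    intro x hx
    have e : x ^ 2 ≤ (103 / 100) ^ 2 := by
      apply sq_le_sq' <;> linarith [hx.1, hx.2]
    exact lt_of_le_of_lt (mul_le_mul_of_nonneg_right e hq0) hqq
  have ha2 := hx2 (509 / 500) ⟨le_rfl, by norm_num⟩
  have hb2 := hx2 (103 / 100) ⟨by norm_num, le_rfl⟩
  obtain ⟨ta1, ta2⟩ := Tr_bounds (T1 := (640219 / 625000)) (T2 := (5121753 / 5000000)) B.hψ ha2 B.hq1 B.hq2
    (by norm_num) (by norm_num) (by norm_num) (by norm_num) (by norm_num) (by norm_num)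
  obtain ⟨tb1, tb2⟩ := Tr_bounds (T1 := (5209357 / 5000000)) (T2 := (5209359 / 5000000)) B.hψ hb2 B.hq1 B.hq2
    (by norm_num) (by norm_num) (by norm_num) (by norm_num) (by norm_num) (by norm_num)
  have hJa : JN ψ (509 / 500) (13 / 100) (21 / 20) (9 / 100) ≤ 0 :=
    B.JN_pos (L := (-(1865822904515531 / 25000000000000000))) (by norm_num) ha2 (by norm_num) ta1 ta2 (sp_R1a h1 h2)
      (by norm_num) (by norm_num) (by norm_num)
  have hJb : JN ψ (103 / 100) (13 / 100) (21 / 20) (9 / 100) ≤ 0 :=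
    B.JN_pos (L := (-(377563377534577 / 5000000000000000))) (by norm_num) hb2 (by norm_num) tb1 tb2 (sp_R1b h1 h2)
      (by norm_num) (by norm_num) (by norm_num)
  have hc := B.conv (a := (509 / 500)) (b := (103 / 100)) (a' := (509 / 500)) (pm := (1138851 / 1000000)) (x0 := (51 / 50))
    (by norm_num) (by norm_num) (fun x hx => Or.inr hx) (by norm_num) (by norm_num)
    (by norm_num) (by norm_num)
  have hs : ∀ x ∈ Set.Icc ((509 / 500) : ℝ) (103 / 100), (2383387 / 2500000) * (640219 / 625000) ≤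
      n1 (vv ψ) (21 / 20) (9 / 100) / n0 (vv ψ) * Tr ψ x := fun x hx =>
    B.smin_le (a := (509 / 500)) (by apply pow_le_pow_left₀ (by norm_num) hx.1) (hx2 x hx) (by norm_num)
      (by norm_num) (by norm_num)
  exact B.cell ha2 hb2 hs (sl_R1 h1 h2) hc hJa hJb rho g1 g2

theorem tb_R2 {ψ : ℝ} (h1 : psi1 ≤ ψ) (h2 : ψ ≤ psi2) :
    TestB ψ (109 / 100) (31 / 200) (128817 / 50000)
      (281974143043 / 500000000000) (56394970003 / 100000000000) (2305181 / 2500000)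
      (4610479 / 5000000) (4165359 / 5000000) (8330853 / 10000000)
      (-(714213 / 1000000)) (-(714189 / 1000000)) (-(3053643 / 10000000)) := by
  have h := UVb_all (box_v h1 h2)
  have e1 := h.1
  have e2 := h.2.1
  have e3 := h.2.2.1.2
  refine mk_testB (n1a := (1243433 / 1000000)) (n1b := (621729 / 500000)) (n3b := (-(3665523 / 10000000))) h1 h2 ?_ ?_ ?_
    (by norm_num) (by norm_num) (by norm_num) (by norm_num) (by norm_num) (by norm_num) (by norm_num)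
  · simp only [n1, yn, neg_mul, ← sub_eq_add_neg]
    exact ⟨by linarith [e1.1], by linarith [e1.2]⟩
  · simp only [n2, yn, neg_mul, ← sub_eq_add_neg]
    exact ⟨by linarith [e2.1], by linarith [e2.2]⟩
  · simp only [n3, yn, neg_mul, ← sub_eq_add_neg]
    linarith [e3]

theorem sp_R2a {ψ : ℝ} (h1 : psi1 ≤ ψ) (h2 : ψ ≤ psi2) (s : ℝ)
    (g1 : (2305181 / 2500000) * (5209357 / 5000000) ≤ s) (g2 : s ≤ (4610479 / 5000000) * (5209359 / 5000000)) :
    Sp1 (Real.sqrt ψ) (9 / 40) s ≤ (1551553 / 1000000) := by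
  have hb : InB s ⟨(Int.ofNat (nat_lit 1107603891810990026)), nat_lit 14266613337938⟩ :=
    InB_of g1 g2 (by rw [S_eq]; norm_num) (by rw [S_eq]; norm_num)
  have h := (USb_all (box_r h1 h2) hb (InB_ctr _ _) (InB_ctr _ _) (InB_ctr _ _)).1.2
  simp only [Sp1, neg_mul]
  linarith [h]

theorem sp_R2b {ψ : ℝ} (h1 : psi1 ≤ ψ) (h2 : ψ ≤ psi2) (s : ℝ)
    (g1 : (2305181 / 2500000) * (10736957 / 10000000) ≤ s) (g2 : s ≤ (4610479 / 5000000) * (10736963 / 10000000)) :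
    Sp1 (Real.sqrt ψ) (9 / 40) s ≤ (198171 / 125000) := by
  have hb : InB s ⟨(Int.ofNat (nat_lit 1141436111919369229)), nat_lit 14802207507767⟩ :=
    InB_of g1 g2 (by rw [S_eq]; norm_num) (by rw [S_eq]; norm_num)
  have h := (USb_all (box_r h1 h2) (InB_ctr _ _) hb (InB_ctr _ _) (InB_ctr _ _)).2.2.1.2
  simp only [Sp1, neg_mul]
  linarith [h]

theorem sl_R2 {ψ : ℝ} (h1 : psi1 ≤ ψ) (h2 : ψ ≤ psi2) :
    (1149349 / 1000000) ≤ Sp1p (Real.sqrt ψ) (9 / 40) ((2305181 / 2500000) * (5209357 / 5000000)) := by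
  have hb : InB ((2305181 / 2500000) * (5209357 / 5000000) : ℝ) ⟨(Int.ofNat (nat_lit 1107603891810990026)), nat_lit 14266613337938⟩ :=
    InB_of le_rfl le_rfl (by rw [S_eq]; norm_num) (by rw [S_eq]; norm_num)
  have h := (USb_all (box_r h1 h2) hb (InB_ctr _ _) (InB_ctr _ _) (InB_ctr _ _)).2.1.1
  simp only [Sp1p, neg_mul]
  linarith [h]

theorem cell_R2 {ψ : ℝ} (h1 : psi1 ≤ ψ) (h2 : ψ ≤ psi2) {rho : ℝ} (g1 : (103 / 100) ≤ rho)
    (g2 : rho ≤ (21 / 20)) : JN ψ rho (9 / 40) (109 / 100) (31 / 200) ≤ 0 := by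
  have B := tb_R2 h1 h2
  have hq0 : 0 ≤ qp ψ := le_trans B.hq0 B.hq1
  have hqq : (21 / 20) ^ 2 * qp ψ < 1 := by
    have := mul_le_mul_of_nonneg_left B.hq2 (show (0 : ℝ) ≤ (21 / 20) ^ 2 by norm_num)
    norm_num at this ⊢
    linarith
  have hx2 : ∀ x ∈ Set.Icc ((103 / 100) : ℝ) (21 / 20), x ^ 2 * qp ψ < 1 := by
    intro x hx
    have e : x ^ 2 ≤ (21 / 20) ^ 2 := by
      apply sq_le_sq' <;> linarith [hx.1, hx.2]
    exact lt_of_le_of_lt (mul_le_mul_of_nonneg_right e hq0) hqq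
  have ha2 := hx2 (103 / 100) ⟨le_rfl, by norm_num⟩
  have hb2 := hx2 (21 / 20) ⟨by norm_num, le_rfl⟩
  obtain ⟨ta1, ta2⟩ := Tr_bounds (T1 := (5209357 / 5000000)) (T2 := (5209359 / 5000000)) B.hψ ha2 B.hq1 B.hq2
    (by norm_num) (by norm_num) (by norm_num) (by norm_num) (by norm_num) (by norm_num)
  obtain ⟨tb1, tb2⟩ := Tr_bounds (T1 := (10736957 / 10000000)) (T2 := (10736963 / 10000000)) B.hψ hb2 B.hq1 B.hq2
    (by norm_num) (by norm_num) (by norm_num) (by norm_num) (by norm_num) (by norm_num)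
  have hJa : JN ψ (103 / 100) (9 / 40) (109 / 100) (31 / 200) ≤ 0 :=
    B.JN_pos (L := (-(261390030600861 / 2000000000000000))) (by norm_num) ha2 (by norm_num) ta1 ta2 (sp_R2a h1 h2)
      (by norm_num) (by norm_num) (by norm_num)
  have hJb : JN ψ (21 / 20) (9 / 40) (109 / 100) (31 / 200) ≤ 0 :=
    B.JN_pos (L := (-(53293113035127 / 400000000000000))) (by norm_num) hb2 (by norm_num) tb1 tb2 (sp_R2b h1 h2)
      (by norm_num) (by norm_num) (by norm_num)
  have hc := B.conv (a := (103 / 100)) (b := (21 / 20)) (a' := (103 / 100)) (pm := (1149349 / 1000000)) (x0 := (51 / 50))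
    (by norm_num) (by norm_num) (fun x hx => Or.inr hx) (by norm_num) (by norm_num)
    (by norm_num) (by norm_num)
  have hs : ∀ x ∈ Set.Icc ((103 / 100) : ℝ) (21 / 20), (2305181 / 2500000) * (5209357 / 5000000) ≤
      n1 (vv ψ) (109 / 100) (31 / 200) / n0 (vv ψ) * Tr ψ x := fun x hx =>
    B.smin_le (a := (103 / 100)) (by apply pow_le_pow_left₀ (by norm_num) hx.1) (hx2 x hx) (by norm_num)
      (by norm_num) (by norm_num)
  exact B.cell ha2 hb2 hs (sl_R2 h1 h2) hc hJa hJb rho g1 g2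

theorem tb_R3 {ψ : ℝ} (h1 : psi1 ≤ ψ) (h2 : ψ ≤ psi2) :
    TestB ψ (29 / 25) (7 / 25) (128817 / 50000)
      (281974143043 / 500000000000) (56394970003 / 100000000000) (1074377 / 1250000)
      (8595239 / 10000000) (4165359 / 5000000) (8330853 / 10000000)
      (-(674493 / 1000000)) (-(674469 / 1000000)) (-(3273197 / 10000000)) := by
  have h := UVc_all (box_v h1 h2)
  have e1 := h.1
  have e2 := h.2.1
  have e3 := h.2.2.1.2
  refine mk_testB (n1a := (231811 / 200000)) (n1b := (1159079 / 1000000)) (n3b := (-(392907 / 1000000))) h1 h2 ?_ ?_ ?_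
    (by norm_num) (by norm_num) (by norm_num) (by norm_num) (by norm_num) (by norm_num) (by norm_num)
  · simp only [n1, yn, neg_mul, ← sub_eq_add_neg]
    exact ⟨by linarith [e1.1], by linarith [e1.2]⟩
  · simp only [n2, yn, neg_mul, ← sub_eq_add_neg]
    exact ⟨by linarith [e2.1], by linarith [e2.2]⟩
  · simp only [n3, yn, neg_mul, ← sub_eq_add_neg]
    linarith [e3]

theorem sp_R3a {ψ : ℝ} (h1 : psi1 ≤ ψ) (h2 : ψ ≤ psi2) (s : ℝ)
    (g1 : (1074377 / 1250000) * (10736957 / 10000000) ≤ s) (g2 : s ≤ (8595239 / 10000000) * (10736963 / 10000000)) :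
    Sp1 (Real.sqrt ψ) (41 / 100) s ≤ (808429 / 500000) := by
  have hb : InB s ⟨(Int.ofNat (nat_lit 1063979838178754655)), nat_lit 14099727586976⟩ :=
    InB_of g1 g2 (by rw [S_eq]; norm_num) (by rw [S_eq]; norm_num)
  have h := (USc_all (box_r h1 h2) hb (InB_ctr _ _) (InB_ctr _ _) (InB_ctr _ _)).1.2
  simp only [Sp1, neg_mul]
  linarith [h]

theorem sp_R3b {ψ : ℝ} (h1 : psi1 ≤ ψ) (h2 : ψ ≤ psi2) (s : ℝ)
    (g1 : (1074377 / 1250000) * (229911 / 200000) ≤ s) (g2 : s ≤ (8595239 / 10000000) * (5747781 / 5000000)) :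
    Sp1 (Real.sqrt ψ) (41 / 100) s ≤ (1693261 / 1000000) := by
  have hb : InB s ⟨(Int.ofNat (nat_lit 1139152964404570188)), nat_lit 15372193637368⟩ :=
    InB_of g1 g2 (by rw [S_eq]; norm_num) (by rw [S_eq]; norm_num)
  have h := (USc_all (box_r h1 h2) (InB_ctr _ _) hb (InB_ctr _ _) (InB_ctr _ _)).2.2.1.2
  simp only [Sp1, neg_mul]
  linarith [h]

theorem sl_R3 {ψ : ℝ} (h1 : psi1 ≤ ψ) (h2 : ψ ≤ psi2) :
    (1166353 / 1000000) ≤ Sp1p (Real.sqrt ψ) (41 / 100) ((1074377 / 1250000) * (10736957 / 10000000)) := by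
  have hb : InB ((1074377 / 1250000) * (10736957 / 10000000) : ℝ) ⟨(Int.ofNat (nat_lit 1063979838178754655)), nat_lit 14099727586976⟩ :=
    InB_of le_rfl le_rfl (by rw [S_eq]; norm_num) (by rw [S_eq]; norm_num)
  have h := (USc_all (box_r h1 h2) hb (InB_ctr _ _) (InB_ctr _ _) (InB_ctr _ _)).2.1.1
  simp only [Sp1p, neg_mul]
  linarith [h]

theorem cell_R3 {ψ : ℝ} (h1 : psi1 ≤ ψ) (h2 : ψ ≤ psi2) {rho : ℝ} (g1 : (21 / 20) ≤ rho)
    (g2 : rho ≤ (109 / 100)) : JN ψ rho (41 / 100) (29 / 25) (7 / 25) ≤ 0 := by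
  have B := tb_R3 h1 h2
  have hq0 : 0 ≤ qp ψ := le_trans B.hq0 B.hq1
  have hqq : (109 / 100) ^ 2 * qp ψ < 1 := by
    have := mul_le_mul_of_nonneg_left B.hq2 (show (0 : ℝ) ≤ (109 / 100) ^ 2 by norm_num)
    norm_num at this ⊢
    linarith
  have hx2 : ∀ x ∈ Set.Icc ((21 / 20) : ℝ) (109 / 100), x ^ 2 * qp ψ < 1 := by
    intro x hx
    have e : x ^ 2 ≤ (109 / 100) ^ 2 := by
      apply sq_le_sq' <;> linarith [hx.1, hx.2]
    exact lt_of_le_of_lt (mul_le_mul_of_nonneg_right e hq0) hqq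
  have ha2 := hx2 (21 / 20) ⟨le_rfl, by norm_num⟩
  have hb2 := hx2 (109 / 100) ⟨by norm_num, le_rfl⟩
  obtain ⟨ta1, ta2⟩ := Tr_bounds (T1 := (10736957 / 10000000)) (T2 := (10736963 / 10000000)) B.hψ ha2 B.hq1 B.hq2
    (by norm_num) (by norm_num) (by norm_num) (by norm_num) (by norm_num) (by norm_num)
  obtain ⟨tb1, tb2⟩ := Tr_bounds (T1 := (229911 / 200000)) (T2 := (5747781 / 5000000)) B.hψ hb2 B.hq1 B.hq2
    (by norm_num) (by norm_num) (by norm_num) (by norm_num) (by norm_num) (by norm_num)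
  have hJa : JN ψ (21 / 20) (41 / 100) (29 / 25) (7 / 25) ≤ 0 :=
    B.JN_pos (L := (-(242779737160023 / 1000000000000000))) (by norm_num) ha2 (by norm_num) ta1 ta2 (sp_R3a h1 h2)
      (by norm_num) (by norm_num) (by norm_num)
  have hJb : JN ψ (109 / 100) (41 / 100) (29 / 25) (7 / 25) ≤ 0 :=
    B.JN_pos (L := (-(1260142445259167 / 5000000000000000))) (by norm_num) hb2 (by norm_num) tb1 tb2 (sp_R3b h1 h2)
      (by norm_num) (by norm_num) (by norm_num)
  have hc := B.conv (a := (21 / 20)) (b := (109 / 100)) (a' := (21 / 20)) (pm := (1166353 / 1000000)) (x0 := (26 / 25))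
    (by norm_num) (by norm_num) (fun x hx => Or.inr hx) (by norm_num) (by norm_num)
    (by norm_num) (by norm_num)
  have hs : ∀ x ∈ Set.Icc ((21 / 20) : ℝ) (109 / 100), (1074377 / 1250000) * (10736957 / 10000000) ≤
      n1 (vv ψ) (29 / 25) (7 / 25) / n0 (vv ψ) * Tr ψ x := fun x hx =>
    B.smin_le (a := (21 / 20)) (by apply pow_le_pow_left₀ (by norm_num) hx.1) (hx2 x hx) (by norm_num)
      (by norm_num) (by norm_num)
  exact B.cell ha2 hb2 hs (sl_R3 h1 h2) hc hJa hJb rho g1 g2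

theorem tb_R4 {ψ : ℝ} (h1 : psi1 ≤ ψ) (h2 : ψ ≤ psi2) :
    TestB ψ (33 / 25) (13 / 25) (128817 / 50000)
      (281974143043 / 500000000000) (56394970003 / 100000000000) (756129 / 1000000)
      (1890377 / 2500000) (4165359 / 5000000) (8330853 / 10000000)
      (-(612499 / 1000000)) (-(306237 / 500000)) (-(3450541 / 10000000)) := by
  have h := UVd_all (box_v h1 h2)
  have e1 := h.1
  have e2 := h.2.1
  have e3 := h.2.2.1.2
  refine mk_testB (n1a := (203931 / 200000)) (n1b := (1019679 / 1000000)) (n3b := (-(82839 / 200000))) h1 h2 ?_ ?_ ?_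
    (by norm_num) (by norm_num) (by norm_num) (by norm_num) (by norm_num) (by norm_num) (by norm_num)
  · simp only [n1, yn, neg_mul, ← sub_eq_add_neg]
    exact ⟨by linarith [e1.1], by linarith [e1.2]⟩
  · simp only [n2, yn, neg_mul, ← sub_eq_add_neg]
    exact ⟨by linarith [e2.1], by linarith [e2.2]⟩
  · simp only [n3, yn, neg_mul, ← sub_eq_add_neg]
    linarith [e3]

theorem sp_R4a {ψ : ℝ} (h1 : psi1 ≤ ψ) (h2 : ψ ≤ psi2) (s : ℝ)
    (g1 : (756129 / 1000000) * (229911 / 200000) ≤ s) (g2 : s ≤ (1890377 / 2500000) * (5747781 / 5000000)) :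
    Sp1 (Real.sqrt ψ) (21 / 25) s ≤ (907861 / 500000) := by
  have hb : InB s ⟨(Int.ofNat (nat_lit 1002148029322687695)), nat_lit 14969348325319⟩ :=
    InB_of g1 g2 (by rw [S_eq]; norm_num) (by rw [S_eq]; norm_num)
  have h := (USd_all (box_r h1 h2) hb (InB_ctr _ _) (InB_ctr _ _) (InB_ctr _ _)).1.2
  simp only [Sp1, neg_mul]
  linarith [h]

theorem sp_R4b {ψ : ℝ} (h1 : psi1 ≤ ψ) (h2 : ψ ≤ psi2) (s : ℝ)
    (g1 : (756129 / 1000000) * (163723 / 125000) ≤ s) (g2 : s ≤ (1890377 / 2500000) * (3274467 / 2500000)) :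
    Sp1 (Real.sqrt ψ) (21 / 25) s ≤ (392401 / 200000) := by
  have hb : InB s ⟨(Int.ofNat (nat_lit 1141831554259730553)), nat_lit 17680347251157⟩ :=
    InB_of g1 g2 (by rw [S_eq]; norm_num) (by rw [S_eq]; norm_num)
  have h := (USd_all (box_r h1 h2) (InB_ctr _ _) hb (InB_ctr _ _) (InB_ctr _ _)).2.2.1.2
  simp only [Sp1, neg_mul]
  linarith [h]

theorem sl_R4 {ψ : ℝ} (h1 : psi1 ≤ ψ) (h2 : ψ ≤ psi2) :
    (1201187 / 1000000) ≤ Sp1p (Real.sqrt ψ) (21 / 25) ((756129 / 1000000) * (229911 / 200000)) := by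
  have hb : InB ((756129 / 1000000) * (229911 / 200000) : ℝ) ⟨(Int.ofNat (nat_lit 1002148029322687695)), nat_lit 14969348325319⟩ :=
    InB_of le_rfl le_rfl (by rw [S_eq]; norm_num) (by rw [S_eq]; norm_num)
  have h := (USd_all (box_r h1 h2) hb (InB_ctr _ _) (InB_ctr _ _) (InB_ctr _ _)).2.1.1
  simp only [Sp1p, neg_mul]
  linarith [h]

theorem cell_R4 {ψ : ℝ} (h1 : psi1 ≤ ψ) (h2 : ψ ≤ psi2) {rho : ℝ} (g1 : (109 / 100) ≤ rho)
    (g2 : rho ≤ (23 / 20)) : JN ψ rho (21 / 25) (33 / 25) (13 / 25) ≤ 0 := by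
  have B := tb_R4 h1 h2
  have hq0 : 0 ≤ qp ψ := le_trans B.hq0 B.hq1
  have hqq : (23 / 20) ^ 2 * qp ψ < 1 := by
    have := mul_le_mul_of_nonneg_left B.hq2 (show (0 : ℝ) ≤ (23 / 20) ^ 2 by norm_num)
    norm_num at this ⊢
    linarith
  have hx2 : ∀ x ∈ Set.Icc ((109 / 100) : ℝ) (23 / 20), x ^ 2 * qp ψ < 1 := by
    intro x hx
    have e : x ^ 2 ≤ (23 / 20) ^ 2 := by
      apply sq_le_sq' <;> linarith [hx.1, hx.2]
    exact lt_of_le_of_lt (mul_le_mul_of_nonneg_right e hq0) hqq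
  have ha2 := hx2 (109 / 100) ⟨le_rfl, by norm_num⟩
  have hb2 := hx2 (23 / 20) ⟨by norm_num, le_rfl⟩
  obtain ⟨ta1, ta2⟩ := Tr_bounds (T1 := (229911 / 200000)) (T2 := (5747781 / 5000000)) B.hψ ha2 B.hq1 B.hq2
    (by norm_num) (by norm_num) (by norm_num) (by norm_num) (by norm_num) (by norm_num)
  obtain ⟨tb1, tb2⟩ := Tr_bounds (T1 := (163723 / 125000)) (T2 := (3274467 / 2500000)) B.hψ hb2 B.hq1 B.hq2
    (by norm_num) (by norm_num) (by norm_num) (by norm_num) (by norm_num) (by norm_num)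
  have hJa : JN ψ (109 / 100) (21 / 25) (33 / 25) (13 / 25) ≤ 0 :=
    B.JN_pos (L := (-(645438813425427 / 1250000000000000))) (by norm_num) ha2 (by norm_num) ta1 ta2 (sp_R4a h1 h2)
      (by norm_num) (by norm_num) (by norm_num)
  have hJb : JN ψ (23 / 20) (21 / 25) (33 / 25) (13 / 25) ≤ 0 :=
    B.JN_pos (L := (-(136193511089769 / 250000000000000))) (by norm_num) hb2 (by norm_num) tb1 tb2 (sp_R4b h1 h2)
      (by norm_num) (by norm_num) (by norm_num)
  have hc := B.conv (a := (109 / 100)) (b := (23 / 20)) (a' := (109 / 100)) (pm := (1201187 / 1000000)) (x0 := (27 / 25))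
    (by norm_num) (by norm_num) (fun x hx => Or.inr hx) (by norm_num) (by norm_num)
    (by norm_num) (by norm_num)
  have hs : ∀ x ∈ Set.Icc ((109 / 100) : ℝ) (23 / 20), (756129 / 1000000) * (229911 / 200000) ≤
      n1 (vv ψ) (33 / 25) (13 / 25) / n0 (vv ψ) * Tr ψ x := fun x hx =>
    B.smin_le (a := (109 / 100)) (by apply pow_le_pow_left₀ (by norm_num) hx.1) (hx2 x hx) (by norm_num)
      (by norm_num) (by norm_num)
  exact B.cell ha2 hb2 hs (sl_R4 h1 h2) hc hJa hJb rho g1 g2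

theorem tb_R5 {ψ : ℝ} (h1 : psi1 ≤ ψ) (h2 : ψ ≤ psi2) :
    TestB ψ (8 / 5) (9 / 10) (128817 / 50000)
      (281974143043 / 500000000000) (56394970003 / 100000000000) (3080789 / 5000000)
      (1540447 / 2500000) (4165359 / 5000000) (8330853 / 10000000)
      (-(131293 / 250000)) (-(525137 / 1000000)) (-(1700941 / 5000000)) := by
  have h := UVe_all (box_v h1 h2)
  have e1 := h.1
  have e2 := h.2.1
  have e3 := h.2.2.1.2
  refine mk_testB (n1a := (830901 / 1000000)) (n1b := (33237 / 40000)) (n3b := (-(204177 / 500000))) h1 h2 ?_ ?_ ?_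
    (by norm_num) (by norm_num) (by norm_num) (by norm_num) (by norm_num) (by norm_num) (by norm_num)
  · simp only [n1, yn, neg_mul, ← sub_eq_add_neg]
    exact ⟨by linarith [e1.1], by linarith [e1.2]⟩
  · simp only [n2, yn, neg_mul, ← sub_eq_add_neg]
    exact ⟨by linarith [e2.1], by linarith [e2.2]⟩
  · simp only [n3, yn, neg_mul, ← sub_eq_add_neg]
    linarith [e3]

theorem sp_R5a {ψ : ℝ} (h1 : psi1 ≤ ψ) (h2 : ψ ≤ psi2) (s : ℝ)
    (g1 : (3080789 / 5000000) * (163723 / 125000) ≤ s) (g2 : s ≤ (1540447 / 2500000) * (3274467 / 2500000)) :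
    Sp1 (Real.sqrt ψ) (9 / 5) s ≤ (1178169 / 500000) := by
  have hb : InB s ⟨(Int.ofNat (nat_lit 930463274952889464)), nat_lit 16850388574781⟩ :=
    InB_of g1 g2 (by rw [S_eq]; norm_num) (by rw [S_eq]; norm_num)
  have h := (USe_all (box_r h1 h2) hb (InB_ctr _ _) (InB_ctr _ _) (InB_ctr _ _)).1.2
  simp only [Sp1, neg_mul]
  linarith [h]

theorem sp_R5b {ψ : ℝ} (h1 : psi1 ≤ ψ) (h2 : ψ ≤ psi2) (s : ℝ)
    (g1 : (3080789 / 5000000) * (8617317 / 5000000) ≤ s) (g2 : s ≤ (1540447 / 2500000) * (4308683 / 2500000)) :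
    Sp1 (Real.sqrt ψ) (9 / 5) s ≤ (267467 / 100000) := by
  have hb : InB s ⟨(Int.ofNat (nat_lit 1224340994138408735)), nat_lit 24344677537856⟩ :=
    InB_of g1 g2 (by rw [S_eq]; norm_num) (by rw [S_eq]; norm_num)
  have h := (USe_all (box_r h1 h2) (InB_ctr _ _) hb (InB_ctr _ _) (InB_ctr _ _)).2.2.1.2
  simp only [Sp1, neg_mul]
  linarith [h]

theorem sl_R5 {ψ : ℝ} (h1 : psi1 ≤ ψ) (h2 : ψ ≤ psi2) :
    (62227 / 50000) ≤ Sp1p (Real.sqrt ψ) (9 / 5) ((3080789 / 5000000) * (163723 / 125000)) := by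
  have hb : InB ((3080789 / 5000000) * (163723 / 125000) : ℝ) ⟨(Int.ofNat (nat_lit 930463274952889464)), nat_lit 16850388574781⟩ :=
    InB_of le_rfl le_rfl (by rw [S_eq]; norm_num) (by rw [S_eq]; norm_num)
  have h := (USe_all (box_r h1 h2) hb (InB_ctr _ _) (InB_ctr _ _) (InB_ctr _ _)).2.1.1
  simp only [Sp1p, neg_mul]
  linarith [h]

theorem cell_R5 {ψ : ℝ} (h1 : psi1 ≤ ψ) (h2 : ψ ≤ psi2) {rho : ℝ} (g1 : (23 / 20) ≤ rho)
    (g2 : rho ≤ (123 / 100)) : JN ψ rho (9 / 5) (8 / 5) (9 / 10) ≤ 0 := by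
  have B := tb_R5 h1 h2
  have hq0 : 0 ≤ qp ψ := le_trans B.hq0 B.hq1
  have hqq : (123 / 100) ^ 2 * qp ψ < 1 := by
    have := mul_le_mul_of_nonneg_left B.hq2 (show (0 : ℝ) ≤ (123 / 100) ^ 2 by norm_num)
    norm_num at this ⊢
    linarith
  have hx2 : ∀ x ∈ Set.Icc ((23 / 20) : ℝ) (123 / 100), x ^ 2 * qp ψ < 1 := by
    intro x hx
    have e : x ^ 2 ≤ (123 / 100) ^ 2 := by
      apply sq_le_sq' <;> linarith [hx.1, hx.2]
    exact lt_of_le_of_lt (mul_le_mul_of_nonneg_right e hq0) hqq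
  have ha2 := hx2 (23 / 20) ⟨le_rfl, by norm_num⟩
  have hb2 := hx2 (123 / 100) ⟨by norm_num, le_rfl⟩
  obtain ⟨ta1, ta2⟩ := Tr_bounds (T1 := (163723 / 125000)) (T2 := (3274467 / 2500000)) B.hψ ha2 B.hq1 B.hq2
    (by norm_num) (by norm_num) (by norm_num) (by norm_num) (by norm_num) (by norm_num)
  obtain ⟨tb1, tb2⟩ := Tr_bounds (T1 := (8617317 / 5000000)) (T2 := (4308683 / 2500000)) B.hψ hb2 B.hq1 B.hq2
    (by norm_num) (by norm_num) (by norm_num) (by norm_num) (by norm_num) (by norm_num)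
  have hJa : JN ψ (23 / 20) (9 / 5) (8 / 5) (9 / 10) ≤ 0 :=
    B.JN_pos (L := (-(58368647609901 / 50000000000000))) (by norm_num) ha2 (by norm_num) ta1 ta2 (sp_R5a h1 h2)
      (by norm_num) (by norm_num) (by norm_num)
  have hJb : JN ψ (123 / 100) (9 / 5) (8 / 5) (9 / 10) ≤ 0 :=
    B.JN_pos (L := (-(312145376348601 / 250000000000000))) (by norm_num) hb2 (by norm_num) tb1 tb2 (sp_R5b h1 h2)
      (by norm_num) (by norm_num) (by norm_num)
  have hc := B.conv (a := (23 / 20)) (b := (123 / 100)) (a' := (23 / 20)) (pm := (62227 / 50000)) (x0 := (57 / 50))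
    (by norm_num) (by norm_num) (fun x hx => Or.inr hx) (by norm_num) (by norm_num)
    (by norm_num) (by norm_num)
  have hs : ∀ x ∈ Set.Icc ((23 / 20) : ℝ) (123 / 100), (3080789 / 5000000) * (163723 / 125000) ≤
      n1 (vv ψ) (8 / 5) (9 / 10) / n0 (vv ψ) * Tr ψ x := fun x hx =>
    B.smin_le (a := (23 / 20)) (by apply pow_le_pow_left₀ (by norm_num) hx.1) (hx2 x hx) (by norm_num)
      (by norm_num) (by norm_num)
  exact B.cell ha2 hb2 hs (sl_R5 h1 h2) hc hJa hJb rho g1 g2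

end Pool.Agent.IP49
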