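import Pool.Agent.IP49.GorG

/-!
# IP49 / OpN : operator norm of a Gaussian matrix

* `chisq_tail` : Chebyshev for the squared norm of a standard Gaussian vector.
* `slepian_GM` : comparison `P(∃ u, ⟨b u, G (a u)⟩ < lam u) ≤ 2 P(∃ u, |a u|⟨g, b u⟩ + |b u|⟨h, a u⟩ < lam u)`.
* `op_norm` : `P(¬ OpB C G) ≤ e` for `N` large and `M ≤ C0 N`.
-/

set_option autoImplicit false
set_option linter.unusedSectionVars false

open MeasureTheory ProbabilityTheory Filter TopologicalSpace

namespace Pool.Agent.IP49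

section chisq

/-- `Var Z²`. -/
noncomputable def KZ : ℝ := Var[fun x : ℝ => x ^ 2; gaussianReal 0 1]

theorem KZ_nonneg : 0 ≤ KZ := variance_nonneg _ _

theorem memLp_sq_gauss : MemLp (fun x : ℝ => x ^ 2) 2 (gaussianReal 0 1) := by
  have h4 : MemLp (fun x : ℝ => x) 4 (gaussianReal 0 1) :=
    memLp_id_gaussianReal' (μ := 0) (v := 1) 4 (by simp)
  have h := h4.norm_rpow_div (2 : ENNReal)
  have he : (4 : ENNReal) / 2 = 2 := by
    rw [show (4 : ENNReal) = 2 * 2 by norm_num, mul_div_assoc,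
      ENNReal.div_self (by norm_num) (by norm_num), mul_one]
  rw [he] at h
  refine h.congr_norm (by fun_prop) (Eventually.of_forall fun x => ?_)
  simp

theorem integral_sq_gauss : ∫ x, x ^ 2 ∂(gaussianReal 0 1) = 1 := by
  have h1 : Var[fun x : ℝ => x; gaussianReal 0 1] = ((1 : NNReal) : ℝ) :=
    variance_fun_id_gaussianReal (μ := 0) (v := 1)
  have h2 : MemLp (fun x : ℝ => x) 2 (gaussianReal 0 1) :=
    memLp_id_gaussianReal' (μ := 0) (v := 1) 2 (by simp)
  rw [variance_eq_sub h2] at h1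
  have h3 : ∫ x : ℝ, x ∂(gaussianReal 0 1) = 0 := integral_id_gaussianReal
  rw [h3] at h1
  simpa using h1

variable {ι : Type*} [Fintype ι]

theorem chisq_tail {c : ℝ} (hc : 0 < c) :
    (gs ι).real {g | (Fintype.card ι : ℝ) + c ≤ nsq g} ≤ Fintype.card ι * KZ / c ^ 2 := by
  classical
  have hp : IsProbabilityMeasure (gs ι) := by
    unfold gs
    infer_instance
  set X : ι → (ι → ℝ) → ℝ := fun i g => (g i) ^ 2 with hX
  have hmp : ∀ i, MeasurePreserving (fun g : ι → ℝ => g i) (gs ι) (gaussianReal 0 1) := fun i =>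
    measurePreserving_eval (fun _ : ι => gaussianReal 0 1) i
  have hL2 : ∀ i, MemLp (X i) 2 (gs ι) := fun i =>
    memLp_sq_gauss.comp_measurePreserving (hmp i)
  have hind : iIndepFun X (gs ι) := by
    have := iIndepFun_pi (μ := fun _ : ι => gaussianReal 0 1) (X := fun _ : ι => fun x : ℝ => x ^ 2)
      (fun i => (measurable_id.pow_const 2).aemeasurable)
    exact this
  have hvar : Var[∑ i, X i; gs ι] = Fintype.card ι * KZ := by
    rw [IndepFun.variance_sum (fun i _ => hL2 i) fun i _ j _ hij => hind.indepFun hij]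
    have : ∀ i, Var[X i; gs ι] = KZ := by
      intro i
      have := (hmp i).variance_fun_comp (f := fun x : ℝ => x ^ 2)
        (measurable_id.pow_const 2).aemeasurable
      exact this
    simp [this]
  have hsumL2 : MemLp (∑ i, X i) 2 (gs ι) := memLp_finsetSum' _ fun i _ => hL2 i
  have hmean : ∫ g, (∑ i, X i) g ∂(gs ι) = Fintype.card ι := by
    simp only [Finset.sum_apply]
    rw [integral_finsetSum _ fun i _ => (hL2 i).integrable (by norm_num)]
    have : ∀ i, ∫ g, X i g ∂(gs ι) = 1 := by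
      intro i
      rw [← integral_sq_gauss, ← (hmp i).map_eq, integral_map (hmp i).measurable.aemeasurable]
      exact (by fun_prop : Continuous fun x : ℝ => x ^ 2).aestronglyMeasurable
    simp [this]
  have hch := meas_ge_le_variance_div_sq hsumL2 hc
  rw [hvar, hmean] at hch
  have hsub : {g : ι → ℝ | (Fintype.card ι : ℝ) + c ≤ nsq g}
      ⊆ {g | c ≤ |(∑ i, X i) g - Fintype.card ι|} := by
    intro g hg
    have h1 : (Fintype.card ι : ℝ) + c ≤ nsq g := hg
    show c ≤ |(∑ i, X i) g - Fintype.card ι|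
    have h2 : (∑ i, X i) g = nsq g := by
      simp [Finset.sum_apply, hX, nsq]
    rw [h2]
    exact (by linarith : c ≤ nsq g - Fintype.card ι).trans (le_abs_self _)
  refine (measureReal_mono hsub).trans ?_
  have h0 : 0 ≤ (Fintype.card ι : ℝ) * KZ / c ^ 2 :=
    div_nonneg (mul_nonneg (Nat.cast_nonneg _) KZ_nonneg) (sq_nonneg _)
  exact ENNReal.toReal_le_of_le_ofReal h0 hch

end chisq

section slepian

variable {α : Type*} [TopologicalSpace α] [CompactSpace α] [SeparableSpace α]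

theorem slepian_GM {M N : ℕ} (a : α → Fin N → ℝ) (b : α → Fin M → ℝ) (lam : α → ℝ)
    (ha : Continuous a) (hb : Continuous b) (hlam : Continuous lam) :
    (GM M N).real {G | ∃ u, ∑ k, ∑ i, b u k * a u i * G k i < lam u}
      ≤ 2 * ((gs (Fin M)).prod (gs (Fin N))).real
        {w | ∃ u, nrm (a u) * ∑ k, b u k * w.1 k + nrm (b u) * ∑ i, a u i * w.2 i < lam u} := by
  classical
  have hcomp := gordon_compact (α := α) (β := Unit) (fun u _ => cL (a u) (b u))
    (fun u _ => cM (a u) (b u)) (fun u _ => lam u)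
    (continuous_cL (ha.comp continuous_fst) (hb.comp continuous_fst))
    (continuous_cM (ha.comp continuous_fst) (hb.comp continuous_fst))
    (hlam.comp continuous_fst) (fun u _ _ => (cL_row _ _ _).le) fun u u' _ _ => cM_le_cL _ _ _ _
  have hX := isClosed_ev (α := α) (β := Unit) (fun u _ => cL (a u) (b u)) (fun u _ => lam u)
    (continuous_cL (ha.comp continuous_fst) (hb.comp continuous_fst)) (hlam.comp continuous_fst)
  have hY := isClosed_ev (α := α) (β := Unit) (fun u _ => cM (a u) (b u)) (fun u _ => lam u)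
    (continuous_cM (ha.comp continuous_fst) (hb.comp continuous_fst)) (hlam.comp continuous_fst)
  have eX := probReal_compl_eq_one_sub (μ := stdG ((Fin M × Fin N) ⊕ Unit)) hX.measurableSet
  have eY := probReal_compl_eq_one_sub (μ := stdG (Fin M ⊕ Fin N)) hY.measurableSet
  set B : Set (Fin M × Fin N → ℝ) :=
    {G | ∃ u, ∑ k, ∑ i, b u k * a u i * G (k, i) < lam u} with hB
  have hBm : MeasurableSet B := by
    have : B = ⋃ u, {G : Fin M × Fin N → ℝ | ∑ k, ∑ i, b u k * a u i * G (k, i) < lam u} := by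
      ext G
      simp [hB]
    rw [this]
    refine IsOpen.measurableSet (isOpen_iUnion fun u => ?_)
    exact isOpen_lt (by fun_prop) continuous_const
  have hsub : {w : (Fin M × Fin N) ⊕ Unit → ℝ | (fun p => w (Sum.inl p)) ∈ B ∧ w (Sum.inr ()) ≤ 0}
      ⊆ {w | ∀ u : α, ∃ _v : Unit, lam u ≤ dot (cL (a u) (b u)) w}ᶜ := by
    rintro w ⟨⟨u, hu⟩, hw⟩
    simp only [Set.mem_compl_iff, Set.mem_ofPred_eq, not_forall, not_exists, not_le]
    refine ⟨u, fun _ => ?_⟩
    have h2 : nrm (a u) * nrm (b u) * w (Sum.inr ()) ≤ 0 :=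
      mul_nonpos_of_nonneg_of_nonpos (mul_nonneg (nrm_nonneg _) (nrm_nonneg _)) hw
    have h3 : dot (cL (a u) (b u)) w = (∑ k, ∑ i, b u k * a u i * w (Sum.inl (k, i)))
        + nrm (a u) * nrm (b u) * w (Sum.inr ()) := by
      unfold dot cL
      rw [Fintype.sum_sum_type, Fintype.sum_prod_type]
      simp
    rw [h3]
    linarith
  have h5 := measureReal_mono (μ := stdG ((Fin M × Fin N) ⊕ Unit)) hsub
  rw [prod_unit_real hBm] at h5
  have h7 : (stdG (Fin M × Fin N)).real B * (1 / 2)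
      ≤ (stdG (Fin M × Fin N)).real B * (gaussianReal 0 1).real (Set.Iic 0) :=
    mul_le_mul_of_nonneg_left half_le_gauss measureReal_nonneg
  have h9 : ∀ u, ∀ w : Fin M ⊕ Fin N → ℝ, dot (cM (a u) (b u)) w
      = nrm (a u) * ∑ k, b u k * w (Sum.inl k) + nrm (b u) * ∑ i, a u i * w (Sum.inr i) := by
    intro u w
    unfold dot cM
    rw [Fintype.sum_sum_type]
    simp only [Sum.elim_inl, Sum.elim_inr, Finset.mul_sum, mul_assoc]
  have h8 : {w : Fin M ⊕ Fin N → ℝ | ∀ u : α, ∃ _v : Unit, lam u ≤ dot (cM (a u) (b u)) w}ᶜ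
      = {w | ∃ u, nrm (a u) * ∑ k, b u k * w (Sum.inl k)
          + nrm (b u) * ∑ i, a u i * w (Sum.inr i) < lam u} := by
    ext w
    simp only [Set.mem_compl_iff, Set.mem_ofPred_eq, not_forall, not_exists, not_le, h9,
      forall_const]
  have hmeas : MeasurableSet {w : Fin M ⊕ Fin N → ℝ | ∃ u,
      nrm (a u) * ∑ k, b u k * w (Sum.inl k) + nrm (b u) * ∑ i, a u i * w (Sum.inr i)
        < lam u} := by
    rw [← h8]
    exact hY.measurableSet.compl
  have hsymm := measurePreserving_sumPiEquivProdPi_symm (ι := Fin M) (ι' := Fin N)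
    (X := fun _ => ℝ) (fun _ => gaussianReal 0 1)
  have h3 := hsymm.measureReal_preimage hmeas.nullMeasurableSet
  have h2 := real_GM_le B
  rw [h8] at eY
  have hfin : (GM M N).real {A | (fun p : Fin M × Fin N => A p.1 p.2) ∈ B}
      ≤ 2 * (stdG (Fin M ⊕ Fin N)).real {w | ∃ u, nrm (a u) * ∑ k, b u k * w (Sum.inl k)
          + nrm (b u) * ∑ i, a u i * w (Sum.inr i) < lam u} := by
    linarith
  refine le_trans (le_of_eq rfl) (hfin.trans ?_)
  rw [← h3]
  exact le_refl _

end slepian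

section op

theorem nsq_eq_dot {ι : Type*} [Fintype ι] (x : ι → ℝ) : nsq x = dot x x :=
  Finset.sum_congr rfl fun i _ => sq (x i)

theorem isCompact_nball (n : ℕ) : IsCompact {x : Fin n → ℝ | nsq x ≤ 1} := by
  refine (isCompact_Icc (a := fun _ : Fin n => (-1 : ℝ)) (b := fun _ => 1)).of_isClosed_subset
    ?_ ?_
  · exact isClosed_le (by unfold nsq; fun_prop) continuous_const
  · intro x hx
    have h1 : ∀ i, x i ^ 2 ≤ 1 := fun i =>
      (Finset.single_le_sum (f := fun i => x i ^ 2) (fun i _ => sq_nonneg _)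
        (Finset.mem_univ i)).trans hx
    exact ⟨fun i => (abs_le.1 ((sq_le_one_iff_abs_le_one _).1 (h1 i))).1,
      fun i => (abs_le.1 ((sq_le_one_iff_abs_le_one _).1 (h1 i))).2⟩

theorem nrm_le_one {n : ℕ} {x : Fin n → ℝ} (h : nsq x ≤ 1) : nrm x ≤ 1 := by
  unfold nrm
  rw [← nsq_eq_dot]
  exact Real.sqrt_le_one.2 h

/-- Operator norm of a Gaussian matrix. -/
theorem op_norm {C0 : ℝ} (hC0 : 0 ≤ C0) :
    ∃ C : ℝ, 0 < C ∧ ∀ e : ℝ, 0 < e → ∃ N0 : ℕ, ∀ N : ℕ, N0 ≤ N → ∀ M : ℕ, (M : ℝ) ≤ C0 * N →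
      (GM M N).real {G | ¬ OpB C G} ≤ e := by
  refine ⟨2 * Real.sqrt (2 * (C0 + 1)), by positivity, fun e he => ?_⟩
  obtain ⟨N0, hN0⟩ := exists_nat_gt ((4 * (C0 + 1) * KZ + 1) / e)
  refine ⟨max N0 1, fun N hN M hM => ?_⟩
  have hN1 : (1 : ℝ) ≤ N := by exact_mod_cast (le_max_right N0 1).trans hN
  have hN2 : (N0 : ℝ) ≤ N := by exact_mod_cast (le_max_left N0 1).trans hN
  have hNpos : (0 : ℝ) < N := by linarith
  have hC1 : 0 < 2 * (C0 + 1) := by linarith
  set t : ℝ := 2 * Real.sqrt (2 * (C0 + 1)) * Real.sqrt N with ht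
  have htsq : t ^ 2 = 4 * (2 * (C0 + 1)) * N := by
    rw [ht, mul_pow, mul_pow, Real.sq_sqrt hC1.le, Real.sq_sqrt hNpos.le]
    ring
  have htpos : 0 < t := by positivity
  set α : Type := ↥{x : Fin N → ℝ | nsq x ≤ 1} × ↥{x : Fin M → ℝ | nsq x ≤ 1} with hα
  have _i1 : CompactSpace ↥{x : Fin N → ℝ | nsq x ≤ 1} := isCompact_iff_compactSpace.1 (isCompact_nball N)
  have _i2 : CompactSpace ↥{x : Fin M → ℝ | nsq x ≤ 1} := isCompact_iff_compactSpace.1 (isCompact_nball M)
  have hsl := slepian_GM (α := ↥{x : Fin N → ℝ | nsq x ≤ 1} × ↥{x : Fin M → ℝ | nsq x ≤ 1})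
    (M := M) (N := N) (fun p => (p.1 : Fin N → ℝ))
    (fun p => (p.2 : Fin M → ℝ)) (fun _ => -t) (continuous_subtype_val.comp continuous_fst)
    (continuous_subtype_val.comp continuous_snd) continuous_const
  have hgp : ∀ n : ℕ, IsProbabilityMeasure (gs (Fin n)) := fun n => by
    unfold gs
    infer_instance
  have _i3 := hgp M
  have _i4 := hgp N
  have hGM : IsProbabilityMeasure (GM M N) := by
    unfold GM
    infer_instance
  have hsub1 : {G : Fin M → Fin N → ℝ | ¬ OpB (2 * Real.sqrt (2 * (C0 + 1))) G}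
      ⊆ {G | ∃ u : ↥{x : Fin N → ℝ | nsq x ≤ 1} × ↥{x : Fin M → ℝ | nsq x ≤ 1},
        ∑ k, ∑ i, (u.2 : Fin M → ℝ) k * (u.1 : Fin N → ℝ) i * G k i < -t} := by
    intro G hG
    have hG' : ¬ ∀ x : Fin N → ℝ, ∑ a, (∑ i, G a i * x i) ^ 2
        ≤ (2 * Real.sqrt (2 * (C0 + 1))) ^ 2 * N * nsq x := hG
    push Not at hG'
    obtain ⟨x, hx⟩ := hG'
    set y : Fin M → ℝ := fun a => ∑ i, G a i * x i with hy
    have hxs : 0 ≤ nsq x := Finset.sum_nonneg fun i _ => sq_nonneg _
    have hxpos : 0 < nsq x := by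
      rcases hxs.lt_or_eq with h | h
      · exact h
      · exfalso
        have h0 : ∀ i, x i = 0 := by
          intro i
          have := (Finset.sum_eq_zero_iff_of_nonneg (fun i _ => sq_nonneg (x i))).1 h.symm i
            (Finset.mem_univ i)
          exact pow_eq_zero_iff (two_ne_zero) |>.1 this
        rw [← h] at hx
        simp [h0] at hx
    have hyn : nsq y = ∑ a, (∑ i, G a i * x i) ^ 2 := rfl
    have hyy : (2 * Real.sqrt (2 * (C0 + 1))) ^ 2 * N * nsq x < nsq y := by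
      rw [hyn]
      exact hx
    have hypos : 0 < nsq y := lt_of_le_of_lt (by positivity) hyy
    set rx := Real.sqrt (nsq x) with hrx
    set ry := Real.sqrt (nsq y) with hry
    have hrx2 : rx ^ 2 = nsq x := Real.sq_sqrt hxs
    have hry2 : ry ^ 2 = nsq y := Real.sq_sqrt hypos.le
    have hrxp : 0 < rx := Real.sqrt_pos.2 hxpos
    have hryp : 0 < ry := Real.sqrt_pos.2 hypos
    have hnx : nsq (fun i => x i / rx) ≤ 1 := by
      have : nsq (fun i => x i / rx) = nsq x / rx ^ 2 := by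
        simp only [nsq, div_pow, Finset.sum_div]
      rw [this, hrx2, div_self hxpos.ne']
    have hny : nsq (fun a => -(y a / ry)) ≤ 1 := by
      have : nsq (fun a => -(y a / ry)) = nsq y / ry ^ 2 := by
        simp only [nsq, neg_sq, div_pow, Finset.sum_div]
      rw [this, hry2, div_self hypos.ne']
    refine ⟨(⟨fun i => x i / rx, hnx⟩, ⟨fun a => -(y a / ry), hny⟩), ?_⟩
    have hval : ∑ k, ∑ i, (-(y k / ry)) * (x i / rx) * G k i = -(ry / rx) := by
      have h1 : ∀ k, ∑ i, (-(y k / ry)) * (x i / rx) * G k i = -(y k ^ 2 / (ry * rx)) := by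
        intro k
        have : ∀ i, (-(y k / ry)) * (x i / rx) * G k i = (-(y k / (ry * rx))) * (G k i * x i) := by
          intro i
          field_simp
        simp only [this]
        rw [← Finset.mul_sum]
        show -(y k / (ry * rx)) * y k = _
        field_simp
      simp only [h1]
      rw [Finset.sum_neg_distrib, ← Finset.sum_div]
      have h2 : ∑ k, y k ^ 2 = ry ^ 2 := by rw [hry2]; rfl
      rw [h2]
      field_simp
    show ∑ k, ∑ i, (-(y k / ry)) * (x i / rx) * G k i < -t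
    rw [hval]
    have h3 : t < ry / rx := by
      rw [lt_div_iff₀ hrxp]
      have h4 : (t * rx) ^ 2 < ry ^ 2 := by
        rw [mul_pow, hrx2, hry2, htsq]
        have h5 : (2 * Real.sqrt (2 * (C0 + 1))) ^ 2 = 4 * (2 * (C0 + 1)) := by
          rw [mul_pow, Real.sq_sqrt hC1.le]
          norm_num
        rw [h5] at hyy
        exact hyy
      exact lt_of_pow_lt_pow_left₀ 2 hryp.le h4
    linarith
  have hsub2 : {w : (Fin M → ℝ) × (Fin N → ℝ) |
      ∃ u : ↥{x : Fin N → ℝ | nsq x ≤ 1} × ↥{x : Fin M → ℝ | nsq x ≤ 1},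
        nrm (u.1 : Fin N → ℝ) * ∑ k, (u.2 : Fin M → ℝ) k * w.1 k
          + nrm (u.2 : Fin M → ℝ) * ∑ i, (u.1 : Fin N → ℝ) i * w.2 i < -t}
      ⊆ ({g : Fin M → ℝ | (Fintype.card (Fin M) : ℝ) + (C0 + 1) * N ≤ nsq g} ×ˢ Set.univ)
        ∪ (Set.univ ×ˢ {h : Fin N → ℝ | (Fintype.card (Fin N) : ℝ) + (C0 + 1) * N ≤ nsq h}) := by
    rintro ⟨g, h⟩ ⟨⟨⟨x, hx⟩, ⟨y, hy⟩⟩, hu⟩
    have hu' : nrm x * (∑ k, y k * g k) + nrm y * (∑ i, x i * h i) < -t := hu
    have hx1 := nrm_le_one hx
    have hy1 := nrm_le_one hy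
    have a1 : -(nrm g) ≤ nrm x * ∑ k, y k * g k := by
      have h1 : -(nrm y * nrm g) ≤ ∑ k, y k * g k := by
        have := dot_le_nrm (fun k => -(y k)) g
        have h2 : dot (fun k => -(y k)) g = -(∑ k, y k * g k) := by
          simp [dot, Finset.sum_neg_distrib]
        have h3 : nrm (fun k => -(y k)) = nrm y := by
          unfold nrm dot
          simp
        rw [h2, h3] at this
        linarith
      have h4 : nrm y * nrm g ≤ 1 * nrm g := mul_le_mul_of_nonneg_right hy1 (nrm_nonneg g)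
      have h5 : nrm x * (-(nrm g)) ≤ nrm x * ∑ k, y k * g k :=
        mul_le_mul_of_nonneg_left (by linarith) (nrm_nonneg x)
      have h6 : nrm x * nrm g ≤ 1 * nrm g := mul_le_mul_of_nonneg_right hx1 (nrm_nonneg g)
      linarith
    have a2 : -(nrm h) ≤ nrm y * ∑ i, x i * h i := by
      have h1 : -(nrm x * nrm h) ≤ ∑ i, x i * h i := by
        have := dot_le_nrm (fun k => -(x k)) h
        have h2 : dot (fun k => -(x k)) h = -(∑ k, x k * h k) := by
          simp [dot, Finset.sum_neg_distrib]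
        have h3 : nrm (fun k => -(x k)) = nrm x := by
          unfold nrm dot
          simp
        rw [h2, h3] at this
        linarith
      have h4 : nrm x * nrm h ≤ 1 * nrm h := mul_le_mul_of_nonneg_right hx1 (nrm_nonneg h)
      have h5 : nrm y * (-(nrm h)) ≤ nrm y * ∑ i, x i * h i :=
        mul_le_mul_of_nonneg_left (by linarith) (nrm_nonneg y)
      have h6 : nrm y * nrm h ≤ 1 * nrm h := mul_le_mul_of_nonneg_right hy1 (nrm_nonneg h)
      linarith
    have a3 : t < nrm g + nrm h := by linarith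
    have key : ∀ {n : ℕ} (v : Fin n → ℝ), (n : ℝ) ≤ (C0 + 1) * N → t / 2 < nrm v →
        (Fintype.card (Fin n) : ℝ) + (C0 + 1) * N ≤ nsq v := by
      intro n v hn hv
      have h1 : (t / 2) ^ 2 < nrm v ^ 2 :=
        pow_lt_pow_left₀ hv (by positivity) two_ne_zero
      have h2 : nrm v ^ 2 = nsq v := by
        rw [sq, nrm_sq, nsq_eq_dot]
      rw [h2, div_pow, htsq] at h1
      rw [Fintype.card_fin]
      nlinarith
    by_cases hg : t / 2 < nrm g
    · left
      exact ⟨key g (by nlinarith) hg, trivial⟩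
    · right
      exact ⟨trivial, key h (by nlinarith) (by linarith)⟩
  have hc : 0 < (C0 + 1) * N := by positivity
  have c1 := chisq_tail (ι := Fin M) hc
  have c2 := chisq_tail (ι := Fin N) hc
  have hb : ((gs (Fin M)).prod (gs (Fin N))).real
      (({g : Fin M → ℝ | (Fintype.card (Fin M) : ℝ) + (C0 + 1) * N ≤ nsq g} ×ˢ Set.univ)
        ∪ (Set.univ ×ˢ {h : Fin N → ℝ | (Fintype.card (Fin N) : ℝ) + (C0 + 1) * N ≤ nsq h}))
      ≤ Fintype.card (Fin M) * KZ / ((C0 + 1) * N) ^ 2
        + Fintype.card (Fin N) * KZ / ((C0 + 1) * N) ^ 2 := by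
    refine (measureReal_union_le _ _).trans (add_le_add ?_ ?_)
    · rw [measureReal_prod_prod]
      simpa using c1
    · rw [measureReal_prod_prod]
      simpa using c2
  have hfinal : (GM M N).real {G | ¬ OpB (2 * Real.sqrt (2 * (C0 + 1))) G}
      ≤ 2 * (Fintype.card (Fin M) * KZ / ((C0 + 1) * N) ^ 2
        + Fintype.card (Fin N) * KZ / ((C0 + 1) * N) ^ 2) :=
    (measureReal_mono hsub1).trans (hsl.trans (mul_le_mul_of_nonneg_left
      ((measureReal_mono hsub2).trans hb) (by norm_num)))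
  refine hfinal.trans ?_
  rw [Fintype.card_fin, Fintype.card_fin]
  have hK := KZ_nonneg
  have h1 : (M : ℝ) * KZ / ((C0 + 1) * N) ^ 2 + N * KZ / ((C0 + 1) * N) ^ 2
      ≤ KZ / N := by
    rw [← add_div, ← add_mul, div_le_div_iff₀ (by positivity) hNpos]
    have h2 : ((M : ℝ) + N) ≤ (C0 + 1) * N := by linarith
    have h3 : ((M : ℝ) + N) * KZ ≤ (C0 + 1) * N * KZ := mul_le_mul_of_nonneg_right h2 hK
    have h4 : (C0 + 1) * N * KZ * N ≤ KZ * ((C0 + 1) * N) ^ 2 := by
      have : KZ * ((C0 + 1) * N) ^ 2 = (C0 + 1) * ((C0 + 1) * N * KZ * N) := by ring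
      rw [this]
      have h5 : 0 ≤ (C0 + 1) * N * KZ * N := by positivity
      nlinarith
    nlinarith
  have h2 : KZ / N ≤ e / 2 := by
    rw [div_le_iff₀ hNpos]
    rw [div_lt_iff₀ he] at hN0
    nlinarith [mul_nonneg hC0 hK]
  linarith

end op

end Pool.Agent.IP49
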