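import Pool.Agent.IP49.R0

/-!
IP49, part R2: abstract penalties, energy, free energy.
-/

set_option autoImplicit false
open Finset Real Filter Topology MeasureTheory ProbabilityTheory

namespace Pool.Agent.IP49.RC

open Pool.Agent.PC55 (sg)

/-- the monotone majorant of the derivative of a penalty -/
noncomputable def maj (x : ℝ) : ℝ := 1 + max (-x) 0

/-- a `C^3` nonincreasing penalty with quadratic growth -/
structure Pen where
  /-- the penalty and its first three derivatives -/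
  U : ℝ → ℝ
  U1 : ℝ → ℝ
  U2 : ℝ → ℝ
  U3 : ℝ → ℝ
  /-- the constant -/
  C : ℝ
  hC : 1 ≤ C
  d1 : ∀ x, HasDerivAt U (U1 x) x
  d2 : ∀ x, HasDerivAt U1 (U2 x) x
  d3 : ∀ x, HasDerivAt U2 (U3 x) x
  nn : ∀ x, 0 ≤ U x
  anti : Antitone U
  b1 : ∀ x, |U1 x| ≤ C * maj x
  b2 : ∀ x, |U2 x| ≤ C
  b3 : ∀ x, |U3 x| ≤ C
  bU : ∀ x, U x ≤ C * (1 + x ^ 2)

/-- the energy of a configuration -/
noncomputable def energy (P : Pen) {m n : ℕ} (A : Fin m → Fin n → ℝ) (w : Fin n → Bool) : ℝ :=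
  ∑ k, P.U (yv A w k)

/-- the free energy (an upper bound of the minimal energy, up to `n log 2 / β`) -/
noncomputable def fe (P : Pen) (β : ℝ) {m n : ℕ} (A : Fin m → Fin n → ℝ) : ℝ :=
  -(1 / β) * Real.log ((∑ w : Fin n → Bool, Real.exp (-(β * energy P A w))) / 2 ^ n)

lemma one_le_maj (x : ℝ) : 1 ≤ maj x := by
  unfold maj
  linarith [le_max_right (-x) (0 : ℝ)]

lemma maj_anti : Antitone maj := by
  intro x y h
  unfold maj
  have : max (-y) 0 ≤ max (-x) 0 := max_le_max (by linarith) le_rfl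
  linarith

/-- gluing with zero -/
lemma hasDerivAt_glue {g g' : ℝ → ℝ} (hg : ∀ x, HasDerivAt g (g' x) x) (h0 : g 0 = 0)
    (h0' : g' 0 = 0) (x : ℝ) :
    HasDerivAt (fun x => if 0 < x then g x else 0) (if 0 < x then g' x else 0) x := by
  rcases lt_trichotomy x 0 with hx | hx | hx
  · rw [if_neg (not_lt.2 hx.le)]
    have h1 : (fun x => if 0 < x then g x else 0) =ᶠ[𝓝 x] fun _ => (0 : ℝ) := by
      filter_upwards [Iio_mem_nhds hx] with y hy
      rw [if_neg (not_lt.2 (Set.mem_Iio.1 hy).le)]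
    exact (hasDerivAt_const x (0 : ℝ)).congr_of_eventuallyEq h1
  · subst hx
    rw [if_neg (lt_irrefl _)]
    rw [hasDerivAt_iff_isLittleO]
    have h1 := hasDerivAt_iff_isLittleO.1 (hg 0)
    rw [h0'] at h1
    refine Asymptotics.IsLittleO.of_norm_left ?_
    refine Asymptotics.IsBigO.trans_isLittleO ?_ h1
    apply Asymptotics.IsBigO.of_bound 1
    filter_upwards with y
    rw [if_neg (lt_irrefl _), h0]
    simp only [sub_zero, smul_zero, one_mul, norm_norm]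
    split_ifs
    · exact le_rfl
    · simp
  · rw [if_pos hx]
    have h1 : (fun x => if 0 < x then g x else 0) =ᶠ[𝓝 x] g := by
      filter_upwards [Ioi_mem_nhds hx] with y hy
      rw [if_pos (Set.mem_Ioi.1 hy)]
    exact (hg x).congr_of_eventuallyEq h1

/-- `x^4 / (1 + x^2)` and its derivatives -/
noncomputable def ra (x : ℝ) : ℝ := x ^ 4 / (1 + x ^ 2)
noncomputable def ra1 (x : ℝ) : ℝ := 2 * x * (x ^ 2 * (2 + x ^ 2)) / (1 + x ^ 2) ^ 2
noncomputable def ra2 (x : ℝ) : ℝ := 2 * x ^ 2 * (6 + 3 * x ^ 2 + x ^ 4) / (1 + x ^ 2) ^ 3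
noncomputable def ra3 (x : ℝ) : ℝ := 24 * x * (1 - x ^ 2) / (1 + x ^ 2) ^ 4

lemma ra_d1 (x : ℝ) : HasDerivAt ra (ra1 x) x := by
  have h0 : (1 + x ^ 2) ≠ 0 := by positivity
  have h1 : HasDerivAt (fun x : ℝ => x ^ 4) (4 * x ^ 3) x := by
    simpa using hasDerivAt_pow 4 x
  have h2 : HasDerivAt (fun x : ℝ => 1 + x ^ 2) (2 * x) x := by
    simpa using (hasDerivAt_pow 2 x).const_add 1
  have h3 : HasDerivAt ra _ x := h1.fun_div h2 h0
  refine h3.congr_deriv ?_
  unfold ra1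
  field_simp
  ring

lemma ra_d2 (x : ℝ) : HasDerivAt ra1 (ra2 x) x := by
  have h0 : (1 + x ^ 2) ^ 2 ≠ 0 := by positivity
  have h00 : (1 + x ^ 2) ≠ 0 := by positivity
  have h1 : HasDerivAt (fun x : ℝ => 2 * x * (x ^ 2 * (2 + x ^ 2))) (12 * x ^ 2 + 10 * x ^ 4) x := by
    have h2 : HasDerivAt (fun x : ℝ => 4 * x ^ 3 + 2 * x ^ 5) (12 * x ^ 2 + 10 * x ^ 4) x := by
      have h3 := ((hasDerivAt_pow 3 x).const_mul 4).fun_add ((hasDerivAt_pow 5 x).const_mul 2)
      refine h3.congr_deriv ?_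
      norm_num
      ring
    have e : (fun x : ℝ => 2 * x * (x ^ 2 * (2 + x ^ 2))) = fun x : ℝ => 4 * x ^ 3 + 2 * x ^ 5 := by
      funext y; ring
    rw [e]; exact h2
  have h2 : HasDerivAt (fun x : ℝ => (1 + x ^ 2) ^ 2) (2 * (1 + x ^ 2) * (2 * x)) x := by
    have h3 : HasDerivAt (fun x : ℝ => 1 + x ^ 2) (2 * x) x := by
      simpa using (hasDerivAt_pow 2 x).const_add 1
    simpa using h3.fun_pow 2
  have h3 : HasDerivAt ra1 _ x := h1.fun_div h2 h0
  refine h3.congr_deriv ?_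
  unfold ra2
  field_simp
  ring

lemma ra_d3 (x : ℝ) : HasDerivAt ra2 (ra3 x) x := by
  have h0 : (1 + x ^ 2) ^ 3 ≠ 0 := by positivity
  have h00 : (1 + x ^ 2) ≠ 0 := by positivity
  have h1 : HasDerivAt (fun x : ℝ => 2 * x ^ 2 * (6 + 3 * x ^ 2 + x ^ 4))
      (24 * x + 24 * x ^ 3 + 12 * x ^ 5) x := by
    have h2 : HasDerivAt (fun x : ℝ => 12 * x ^ 2 + 6 * x ^ 4 + 2 * x ^ 6)
        (24 * x + 24 * x ^ 3 + 12 * x ^ 5) x := by
      have h3 := (((hasDerivAt_pow 2 x).const_mul 12).fun_add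
        ((hasDerivAt_pow 4 x).const_mul 6)).fun_add ((hasDerivAt_pow 6 x).const_mul 2)
      refine h3.congr_deriv ?_
      norm_num
      ring
    have e : (fun x : ℝ => 2 * x ^ 2 * (6 + 3 * x ^ 2 + x ^ 4))
        = fun x : ℝ => 12 * x ^ 2 + 6 * x ^ 4 + 2 * x ^ 6 := by
      funext y; ring
    rw [e]; exact h2
  have h2 : HasDerivAt (fun x : ℝ => (1 + x ^ 2) ^ 3) (3 * (1 + x ^ 2) ^ 2 * (2 * x)) x := by
    have h3 : HasDerivAt (fun x : ℝ => 1 + x ^ 2) (2 * x) x := by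
      simpa using (hasDerivAt_pow 2 x).const_add 1
    simpa using h3.fun_pow 3
  have h3 : HasDerivAt ra2 _ x := h1.fun_div h2 h0
  refine h3.congr_deriv ?_
  unfold ra3
  field_simp
  ring

/-- the glued functions -/
noncomputable def rp (x : ℝ) : ℝ := if 0 < x then ra x else 0
noncomputable def rp1 (x : ℝ) : ℝ := if 0 < x then ra1 x else 0
noncomputable def rp2 (x : ℝ) : ℝ := if 0 < x then ra2 x else 0
noncomputable def rp3 (x : ℝ) : ℝ := if 0 < x then ra3 x else 0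

lemma rp_d1 (x : ℝ) : HasDerivAt rp (rp1 x) x :=
  hasDerivAt_glue ra_d1 (by unfold ra; norm_num) (by unfold ra1; norm_num) x
lemma rp_d2 (x : ℝ) : HasDerivAt rp1 (rp2 x) x :=
  hasDerivAt_glue ra_d2 (by unfold ra1; norm_num) (by unfold ra2; norm_num) x
lemma rp_d3 (x : ℝ) : HasDerivAt rp2 (rp3 x) x :=
  hasDerivAt_glue ra_d3 (by unfold ra2; norm_num) (by unfold ra3; norm_num) x

lemma rp_nonneg (x : ℝ) : 0 ≤ rp x := by
  unfold rp ra; split_ifs <;> positivity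

lemma rp1_nonneg (x : ℝ) : 0 ≤ rp1 x := by
  unfold rp1 ra1
  split_ifs with h
  · positivity
  · exact le_rfl

lemma rp_le_sq (x : ℝ) : rp x ≤ (max x 0) ^ 2 := by
  unfold rp ra
  split_ifs with h
  · rw [max_eq_left h.le, div_le_iff₀ (by positivity)]
    nlinarith [sq_nonneg x]
  · positivity

lemma rp1_le (x : ℝ) : rp1 x ≤ 2 * max x 0 := by
  unfold rp1 ra1
  split_ifs with h
  · rw [max_eq_left h.le, div_le_iff₀ (by positivity)]
    have h1 : x ^ 2 * (2 + x ^ 2) ≤ (1 + x ^ 2) ^ 2 := by nlinarith [sq_nonneg x]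
    have := mul_le_mul_of_nonneg_left h1 (show 0 ≤ 2 * x by positivity)
    linarith
  · positivity

lemma rp2_abs (x : ℝ) : |rp2 x| ≤ 24 := by
  unfold rp2 ra2
  split_ifs with h
  · rw [abs_of_nonneg (by positivity), div_le_iff₀ (by positivity)]
    have h1 : 0 ≤ x ^ 2 := sq_nonneg x
    nlinarith [pow_nonneg h1 2, pow_nonneg h1 3]
  · simp

lemma rp3_abs (x : ℝ) : |rp3 x| ≤ 24 := by
  unfold rp3 ra3
  split_ifs with h
  · rw [abs_div, abs_of_pos (show (0 : ℝ) < (1 + x ^ 2) ^ 4 by positivity),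
      div_le_iff₀ (by positivity)]
    have h1 : 0 ≤ x ^ 2 := sq_nonneg x
    have h2 : |24 * x * (1 - x ^ 2)| = 24 * (|x| * |1 - x ^ 2|) := by
      rw [abs_mul, abs_mul, abs_of_pos (show (0 : ℝ) < 24 by norm_num)]; ring
    have h3 : |x| ≤ 1 + x ^ 2 := by
      rw [abs_le]; constructor <;> nlinarith [sq_nonneg (x - 1), sq_nonneg (x + 1)]
    have h4 : |1 - x ^ 2| ≤ 1 + x ^ 2 := by
      rw [abs_le]; constructor <;> nlinarith
    have h5 : |x| * |1 - x ^ 2| ≤ (1 + x ^ 2) * (1 + x ^ 2) :=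
      mul_le_mul h3 h4 (abs_nonneg _) (by positivity)
    have h6 : (1 + x ^ 2) * (1 + x ^ 2) ≤ (1 + x ^ 2) ^ 4 := by
      have : (1 : ℝ) ≤ (1 + x ^ 2) ^ 2 := by nlinarith
      nlinarith [show (1 + x ^ 2) ^ 4 = (1 + x ^ 2) ^ 2 * (1 + x ^ 2) ^ 2 by ring]
    rw [h2]
    linarith
  · simp

lemma rp_mono : Monotone rp := by
  apply monotone_of_deriv_nonneg (fun x => (rp_d1 x).differentiableAt)
  intro x
  rw [(rp_d1 x).deriv]
  exact rp1_nonneg x

lemma hasDerivAt_sub_id (c x : ℝ) : HasDerivAt (fun x : ℝ => c - x) (-1) x := by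
  simpa using (hasDerivAt_id x).const_sub c

/-- the penalty `x ↦ rp (c - x)` -/
noncomputable def penC (c : ℝ) : Pen where
  U := fun x => rp (c - x)
  U1 := fun x => -rp1 (c - x)
  U2 := fun x => rp2 (c - x)
  U3 := fun x => -rp3 (c - x)
  C := 24 * (1 + |c|) ^ 2
  hC := by nlinarith [abs_nonneg c]
  d1 := fun x => by
    have : HasDerivAt (fun x => rp (c - x)) (rp1 (c - x) * -1) x :=
      (rp_d1 (c - x)).comp x (hasDerivAt_sub_id c x)
    exact this.congr_deriv (by ring)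
  d2 := fun x => by
    have h : HasDerivAt (fun x => rp1 (c - x)) (rp2 (c - x) * -1) x :=
      (rp_d2 (c - x)).comp x (hasDerivAt_sub_id c x)
    have : HasDerivAt (fun x => -rp1 (c - x)) (-(rp2 (c - x) * -1)) x := h.fun_neg
    exact this.congr_deriv (by ring)
  d3 := fun x => by
    have : HasDerivAt (fun x => rp2 (c - x)) (rp3 (c - x) * -1) x :=
      (rp_d3 (c - x)).comp x (hasDerivAt_sub_id c x)
    exact this.congr_deriv (by ring)
  nn := fun x => rp_nonneg _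
  anti := fun x y h => rp_mono (by linarith)
  b1 := fun x => by
    rw [abs_neg, abs_of_nonneg (rp1_nonneg _)]
    refine (rp1_le _).trans ?_
    have h1 : max (c - x) 0 ≤ |c| + max (-x) 0 := by
      apply max_le
      · linarith [le_abs_self c, le_max_left (-x) 0]
      · positivity
    have h2 := abs_nonneg c
    have h3 : 0 ≤ max (-x) 0 := le_max_right _ _
    unfold maj
    nlinarith [mul_nonneg h2 h3, mul_nonneg (mul_nonneg h2 h2) h3]
  b2 := fun x => by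
    refine (rp2_abs _).trans ?_
    nlinarith [abs_nonneg c]
  b3 := fun x => by
    rw [abs_neg]
    refine (rp3_abs _).trans ?_
    nlinarith [abs_nonneg c]
  bU := fun x => by
    refine (rp_le_sq _).trans ?_
    have h1 : (max (c - x) 0) ^ 2 ≤ (c - x) ^ 2 := by
      rcases le_total (c - x) 0 with h | h
      · rw [max_eq_right h]; nlinarith [sq_nonneg (c - x)]
      · rw [max_eq_left h]
    have h2 : c ^ 2 = |c| ^ 2 := (sq_abs c).symm
    have h3 := abs_nonneg c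
    nlinarith [sq_nonneg (c + x), sq_nonneg x, mul_nonneg h3 (sq_nonneg x), sq_nonneg (|c|),
      mul_nonneg (sq_nonneg (|c|)) (sq_nonneg x)]

/-- lower bound of the glued function away from `0` -/
lemma rp_ge {η y : ℝ} (hη : 0 < η) (hy : η ≤ y) : y ^ 2 ≤ (1 + 1 / η ^ 2) * rp y := by
  have hy0 : 0 < y := by linarith
  unfold rp ra
  rw [if_pos hy0]
  have e : (1 + 1 / η ^ 2) * (y ^ 4 / (1 + y ^ 2))
      = y ^ 2 * (((1 + η ^ 2) * y ^ 2) / (η ^ 2 * (1 + y ^ 2))) := by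
    field_simp; ring
  rw [e]
  have h1 : 1 ≤ ((1 + η ^ 2) * y ^ 2) / (η ^ 2 * (1 + y ^ 2)) := by
    rw [le_div_iff₀ (by positivity), one_mul]
    have : η ^ 2 ≤ y ^ 2 := pow_le_pow_left₀ hη.le hy 2
    nlinarith
  nlinarith [sq_nonneg y]

/-- a penalty adapted to the margin `κ > 0`: it vanishes above `κ`, is at most
`C (κ - x)_+^2` and at least `(κ/2 - x)_+^2` -/
theorem exists_pen_low (κ : ℝ) (hκ : 0 < κ) :
    ∃ P : Pen, ∃ C : ℝ, 0 < C ∧ (∀ x, P.U x ≤ C * (max (κ - x) 0) ^ 2) ∧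
      (∀ x, (max (κ / 2 - x) 0) ^ 2 ≤ C * P.U x) := by
  refine ⟨penC κ, 1 + 1 / (κ / 2) ^ 2, by positivity, fun x => ?_, fun x => ?_⟩
  · have h1 : rp (κ - x) ≤ (max (κ - x) 0) ^ 2 := rp_le_sq _
    have h2 : 0 ≤ 1 / (κ / 2) ^ 2 := by positivity
    have h3 : 0 ≤ (max (κ - x) 0) ^ 2 := sq_nonneg _
    show rp (κ - x) ≤ _
    nlinarith [mul_nonneg h2 h3]
  · show _ ≤ _ * rp (κ - x)
    rcases le_total (κ / 2 - x) 0 with h | h
    · rw [max_eq_right h]
      have h5 := rp_nonneg (κ - x)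
      have h6 : 0 ≤ (1 + 1 / (κ / 2) ^ 2) * rp (κ - x) := mul_nonneg (by positivity) h5
      simpa using h6
    · rw [max_eq_left h]
      have h1 := rp_ge (η := κ / 2) (y := κ - x) (by positivity) (by linarith)
      have h2 : (κ / 2 - x) ^ 2 ≤ (κ - x) ^ 2 := pow_le_pow_left₀ h (by linarith) 2
      linarith

/-- a penalty adapted to the margin `κ < 0`: it vanishes for `x ≥ 0` and is at least
`c (κ - x)_+^2` -/
theorem exists_pen_up (κ : ℝ) (hκ : κ < 0) :
    ∃ P : Pen, ∃ C : ℝ, 0 < C ∧ (∀ x, 0 ≤ x → P.U x = 0) ∧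
      (∀ x, (max (κ - x) 0) ^ 2 ≤ C * P.U x) := by
  have hη : 0 < -κ := by linarith
  refine ⟨penC 0, 1 + 1 / (-κ) ^ 2, by positivity, fun x hx => ?_, fun x => ?_⟩
  · show rp (0 - x) = 0
    unfold rp
    rw [if_neg (by linarith)]
  · show _ ≤ _ * rp (0 - x)
    rcases le_total (κ - x) 0 with h | h
    · rw [max_eq_right h]
      have h5 := rp_nonneg (0 - x)
      have h6 : 0 ≤ (1 + 1 / (-κ) ^ 2) * rp (0 - x) := mul_nonneg (by positivity) h5
      simpa using h6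
    · rw [max_eq_left h]
      have h1 := rp_ge (η := -κ) (y := 0 - x) hη (by linarith)
      have h2 : (κ - x) ^ 2 ≤ (0 - x) ^ 2 := pow_le_pow_left₀ h (by linarith) 2
      linarith

end Pool.Agent.IP49.RC
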