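import Pool.Agent.PC55.Main
import Mathlib.Probability.Distributions.Gaussian.Real

/-!
IP49, part R: common definitions (Gaussian and Rademacher matrices, near solutions) and the two
Gaussian statements `GLow`, `GUp` which part R turns into the frozen statement.
-/

set_option autoImplicit false
open Finset Real Filter Topology MeasureTheory ProbabilityTheory

namespace Pool.Agent.IP49.RC

open Pool.Agent.PC55 (sg)

/-- law of an `m × n` matrix with independent standard Gaussian entries (rows first) -/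
noncomputable def gau (m n : ℕ) : Measure (Fin m → Fin n → ℝ) :=
  Measure.pi fun _ => Measure.pi fun _ => gaussianReal 0 1

/-- the Rademacher law on `ℝ` -/
noncomputable def rad1 : Measure ℝ :=
  (1 / 2 : ENNReal) • Measure.dirac 1 + (1 / 2 : ENNReal) • Measure.dirac (-1)

/-- law of an `m × n` matrix with independent Rademacher entries -/
noncomputable def rad (m n : ℕ) : Measure (Fin m → Fin n → ℝ) :=
  Measure.pi fun _ => Measure.pi fun _ => rad1

/-- normalised row value -/
noncomputable def yv {m n : ℕ} (A : Fin m → Fin n → ℝ) (w : Fin n → Bool) (k : Fin m) : ℝ :=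
  (∑ i, A k i * sg (w i)) / √(n : ℝ)

/-- there is a near solution: quadratic deficit with respect to the margin `κ` at most `δ n` -/
def Near {m n : ℕ} (κ δ : ℝ) (A : Fin m → Fin n → ℝ) : Prop :=
  ∃ w : Fin n → Bool, ∑ k, (max (κ - yv A w k) 0) ^ 2 ≤ δ * n

/-- Gaussian lower statement at ratio `α` -/
def GLow (α : ℝ) : Prop :=
  ∃ κ : ℝ, 0 < κ ∧ ∀ δ : ℝ, 0 < δ → ∀ η : ℝ, 0 < η → ∀ᶠ n : ℕ in atTop,
    Real.exp (-(η * n)) ≤ (gau ⌊α * n⌋₊ n).real {A | Near κ δ A}

/-- Gaussian upper statement at ratio `α` -/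
def GUp (α : ℝ) : Prop :=
  ∃ κ : ℝ, κ < 0 ∧ ∃ δ : ℝ, 0 < δ ∧ ∀ᶠ n : ℕ in atTop,
    (gau ⌈α * n⌉₊ n).real {A | Near κ δ A} ≤ 1 / 2

/-- Rademacher counterpart of `GLow`, after the transfer: near solutions with high probability -/
def RLow (α : ℝ) : Prop :=
  ∃ κ : ℝ, 0 < κ ∧ ∀ δ : ℝ, 0 < δ → ∀ η : ℝ, 0 < η → ∀ᶠ n : ℕ in atTop,
    1 - η ≤ (rad ⌊α * n⌋₊ n).real {A | Near κ δ A}

/-- Rademacher counterpart of `GUp`, after the transfer: no exact solutions -/
def RUp (α : ℝ) : Prop :=
  ∀ η : ℝ, 0 < η → ∀ᶠ n : ℕ in atTop,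
    (rad ⌈α * n⌉₊ n).real {A | Near 0 0 A} ≤ η

instance : IsProbabilityMeasure rad1 := by
  constructor
  unfold rad1
  simp [ENNReal.inv_two_add_inv_two]

instance (m n : ℕ) : IsProbabilityMeasure (gau m n) := by
  unfold gau; infer_instance

instance (m n : ℕ) : IsProbabilityMeasure (rad m n) := by
  unfold rad; infer_instance

lemma measurable_yv {m n : ℕ} (w : Fin n → Bool) (k : Fin m) :
    Measurable fun A : Fin m → Fin n → ℝ => yv A w k := by
  unfold yv
  fun_prop

lemma measurableSet_near {m n : ℕ} (κ δ : ℝ) :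
    MeasurableSet {A : Fin m → Fin n → ℝ | Near κ δ A} := by
  have : {A : Fin m → Fin n → ℝ | Near κ δ A}
      = ⋃ w : Fin n → Bool, {A | ∑ k, (max (κ - yv A w k) 0) ^ 2 ≤ δ * n} := by
    ext A; simp [Near]
  rw [this]
  apply MeasurableSet.iUnion
  intro w
  apply measurableSet_le _ measurable_const
  apply Finset.measurable_sum
  intro k _
  exact ((measurable_const.sub (measurable_yv w k)).max measurable_const).pow_const 2

end Pool.Agent.IP49.RC
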