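import Mathlib

/-!
# Part R2(i) of IP49: fourth moments of linear forms of independent entries
-/

set_option autoImplicit false

open MeasureTheory ProbabilityTheory Finset

namespace Pool.Agent.IP49.RC

/-- A law with mean 0, variance 1 and fourth moment at most 3. -/
structure Adm (ν : Measure ℝ) : Prop where
  prob : IsProbabilityMeasure ν
  i4 : Integrable (fun x : ℝ => x ^ 4) ν
  m1 : ∫ x, x ∂ν = 0
  m2 : ∫ x, x ^ 2 ∂ν = 1
  m4 : ∫ x, x ^ 4 ∂ν ≤ 3

theorem pow_le_one_add {x : ℝ} {k : ℕ} (hk : k ≤ 4) : |x| ^ k ≤ 1 + x ^ 4 := by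
  have h4 : x ^ 4 = |x| ^ 4 := by
    have : |x| ^ 4 = |x ^ 4| := (abs_pow x 4).symm
    rw [this, abs_of_nonneg (by positivity)]
  rcases le_total |x| 1 with h | h
  · have : |x| ^ k ≤ 1 := pow_le_one₀ (abs_nonneg x) h
    have : 0 ≤ x ^ 4 := by positivity
    linarith
  · have : |x| ^ k ≤ |x| ^ 4 := pow_le_pow_right₀ h hk
    linarith

theorem integrable_pow_of_four {Ω : Type*} [MeasurableSpace Ω] {μ : Measure Ω}
    [IsFiniteMeasure μ] {f : Ω → ℝ} (hm : AEStronglyMeasurable f μ)
    (h4 : Integrable (fun x => f x ^ 4) μ) {k : ℕ} (hk : k ≤ 4) :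
    Integrable (fun x => f x ^ k) μ := by
  refine Integrable.mono' ((integrable_const (1 : ℝ)).add h4) (hm.pow k)
    (Filter.Eventually.of_forall fun x => ?_)
  rw [Real.norm_eq_abs, abs_pow]
  exact pow_le_one_add hk

section Four

variable {ι : Type*} [Fintype ι]

/-- The fourth moment of a linear form. -/
theorem pi_four_aux (P : ι → Measure ℝ) (hP : ∀ i, Adm (P i)) (a : ι → ℝ) (s : Finset ι) :
    Integrable (fun x : ι → ℝ => (∑ i ∈ s, a i * x i) ^ 4) (Measure.pi P) ∧
    ∫ x : ι → ℝ, (∑ i ∈ s, a i * x i) ∂(Measure.pi P) = 0 ∧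
    ∫ x : ι → ℝ, (∑ i ∈ s, a i * x i) ^ 2 ∂(Measure.pi P) = ∑ i ∈ s, a i ^ 2 ∧
    ∫ x : ι → ℝ, (∑ i ∈ s, a i * x i) ^ 4 ∂(Measure.pi P) ≤ 3 * (∑ i ∈ s, a i ^ 2) ^ 2 := by
  classical
  have : ∀ i, IsProbabilityMeasure (P i) := fun i => (hP i).prob
  have hind : iIndepFun (fun (i : ι) (x : ι → ℝ) => a i * x i) (Measure.pi P) :=
    iIndepFun_pi (X := fun i t => a i * t) fun i => (measurable_const_mul (a i)).aemeasurable
  have hme : ∀ i, Measurable (fun x : ι → ℝ => a i * x i) :=
    fun i => (measurable_pi_apply i).const_mul _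
  induction s using Finset.induction_on with
  | empty => simp
  | insert i s hi ih =>
    obtain ⟨ih4, ih1, ih2, ihb⟩ := ih
    have hI : IndepFun (∑ j ∈ s, fun x : ι → ℝ => a j * x j) (fun x : ι → ℝ => a i * x i)
        (Measure.pi P) := hind.indepFun_finsetSum_of_notMem hme hi
    have hSf : (∑ j ∈ s, fun x : ι → ℝ => a j * x j) = fun x : ι → ℝ => ∑ j ∈ s, a j * x j := by
      funext x
      simp
    rw [hSf] at hI
    set S : (ι → ℝ) → ℝ := fun x => ∑ j ∈ s, a j * x j with hS
    set Y : (ι → ℝ) → ℝ := fun x => a i * x i with hY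
    have hSm : Measurable S := Finset.measurable_sum s fun j _ => hme j
    have hYm : Measurable Y := hme i
    -- the moments of `Y`
    have ev : ∀ f : ℝ → ℝ, AEStronglyMeasurable f (P i) →
        ∫ x : ι → ℝ, f (x i) ∂(Measure.pi P) = ∫ t, f t ∂(P i) := by
      intro f hf
      have hm := (measurePreserving_eval P i).map_eq
      have h := integral_map (μ := Measure.pi P) (φ := Function.eval i)
        (measurable_pi_apply i).aemeasurable (f := f) (by rw [hm]; exact hf)
      rw [hm] at h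
      exact h.symm
    have evi : ∀ f : ℝ → ℝ, Integrable f (P i) →
        Integrable (fun x : ι → ℝ => f (x i)) (Measure.pi P) := fun f hf =>
      (measurePreserving_eval P i).integrable_comp_of_integrable hf
    have hY4 : Integrable (fun x => Y x ^ 4) (Measure.pi P) := by
      have := (evi _ (hP i).i4).const_mul (a i ^ 4)
      refine this.congr (Filter.Eventually.of_forall fun x => ?_)
      simp only [hY]
      ring
    have y1 : ∫ x, Y x ∂(Measure.pi P) = 0 := by
      have := ev (fun t => t) measurable_id.aestronglyMeasurable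
      simp only [hY]
      rw [integral_const_mul, this, (hP i).m1, mul_zero]
    have y2 : ∫ x, Y x ^ 2 ∂(Measure.pi P) = a i ^ 2 := by
      have := ev (fun t => t ^ 2) (measurable_id.pow_const 2).aestronglyMeasurable
      simp only [hY, mul_pow]
      rw [integral_const_mul, this, (hP i).m2, mul_one]
    have y4 : ∫ x, Y x ^ 4 ∂(Measure.pi P) ≤ 3 * a i ^ 4 := by
      have := ev (fun t => t ^ 4) (measurable_id.pow_const 4).aestronglyMeasurable
      simp only [hY, mul_pow]
      rw [integral_const_mul, this]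
      have := mul_le_mul_of_nonneg_left (hP i).m4 (by positivity : (0 : ℝ) ≤ a i ^ 4)
      linarith
    have hSp : ∀ k, k ≤ 4 → Integrable (fun x => S x ^ k) (Measure.pi P) := fun k hk =>
      integrable_pow_of_four hSm.aestronglyMeasurable ih4 hk
    have hYp : ∀ k, k ≤ 4 → Integrable (fun x => Y x ^ k) (Measure.pi P) := fun k hk =>
      integrable_pow_of_four hYm.aestronglyMeasurable hY4 hk
    have hIp : ∀ k l : ℕ, IndepFun (fun x => S x ^ k) (fun x => Y x ^ l) (Measure.pi P) :=
      fun k l => hI.comp (measurable_id.pow_const k) (measurable_id.pow_const l)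
    have hSY : ∀ k l : ℕ, k ≤ 4 → l ≤ 4 →
        Integrable (fun x => S x ^ k * Y x ^ l) (Measure.pi P) := fun k l hk hl =>
      (hIp k l).integrable_mul (hSp k hk) (hYp l hl)
    have hE : ∀ k l : ℕ, ∫ x, S x ^ k * Y x ^ l ∂(Measure.pi P) =
        (∫ x, S x ^ k ∂(Measure.pi P)) * ∫ x, Y x ^ l ∂(Measure.pi P) := fun k l =>
      (hIp k l).integral_fun_mul_eq_mul_integral (hSm.pow_const k).aestronglyMeasurable
        (hYm.pow_const l).aestronglyMeasurable
    have e1 : ∀ x : ι → ℝ, ∑ j ∈ insert i s, a j * x j = S x + Y x := by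
      intro x
      rw [Finset.sum_insert hi, add_comm]
    have e2 : ∀ x : ι → ℝ, (∑ j ∈ insert i s, a j * x j) ^ 2 =
        S x ^ 2 + 2 * (S x ^ 1 * Y x ^ 1) + Y x ^ 2 := by
      intro x
      rw [e1]
      ring
    have e4 : ∀ x : ι → ℝ, (∑ j ∈ insert i s, a j * x j) ^ 4 =
        S x ^ 4 + 4 * (S x ^ 3 * Y x ^ 1) + 6 * (S x ^ 2 * Y x ^ 2) +
          4 * (S x ^ 1 * Y x ^ 3) + Y x ^ 4 := by
      intro x
      rw [e1]
      ring
    have i1 := hSp 4 le_rfl
    have i2 := (hSY 3 1 (by norm_num) (by norm_num)).const_mul 4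
    have i3 := (hSY 2 2 (by norm_num) (by norm_num)).const_mul 6
    have i4 := (hSY 1 3 (by norm_num) (by norm_num)).const_mul 4
    have i5 := hYp 4 le_rfl
    have s1 : ∫ x, S x ^ 1 ∂(Measure.pi P) = 0 := by
      simp only [pow_one]
      exact ih1
    have y1' : ∫ x, Y x ^ 1 ∂(Measure.pi P) = 0 := by
      simp only [pow_one]
      exact y1
    refine ⟨?_, ?_, ?_, ?_⟩
    · refine Integrable.congr ((((i1.add i2).add i3).add i4).add i5)
        (Filter.Eventually.of_forall fun x => ?_)
      simp only [Pi.add_apply]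
      rw [e4]
    · simp only [e1]
      have hS1 : Integrable S (Measure.pi P) := by
        have := hSp 1 (by norm_num)
        simpa using this
      have hY1 : Integrable Y (Measure.pi P) := by
        have := hYp 1 (by norm_num)
        simpa using this
      rw [integral_add hS1 hY1, y1, add_zero]
      exact ih1
    · simp only [e2]
      have j1 := hSp 2 (by norm_num)
      have j2 := (hSY 1 1 (by norm_num) (by norm_num)).const_mul 2
      have j3 := hYp 2 (by norm_num)
      have j12 : Integrable (fun x => S x ^ 2 + 2 * (S x ^ 1 * Y x ^ 1)) (Measure.pi P) :=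
        j1.add j2
      rw [integral_add j12 j3, integral_add j1 j2, integral_const_mul, hE, s1, zero_mul,
        mul_zero, add_zero, y2, Finset.sum_insert hi, add_comm]
      congr 1
    · simp only [e4]
      have k1 : Integrable (fun x => S x ^ 4 + 4 * (S x ^ 3 * Y x ^ 1)) (Measure.pi P) :=
        i1.add i2
      have k2 : Integrable (fun x => S x ^ 4 + 4 * (S x ^ 3 * Y x ^ 1) +
          6 * (S x ^ 2 * Y x ^ 2)) (Measure.pi P) := k1.add i3
      have k3 : Integrable (fun x => S x ^ 4 + 4 * (S x ^ 3 * Y x ^ 1) +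
          6 * (S x ^ 2 * Y x ^ 2) + 4 * (S x ^ 1 * Y x ^ 3)) (Measure.pi P) := k2.add i4
      have s2 : ∫ x, S x ^ 2 ∂(Measure.pi P) = ∑ j ∈ s, a j ^ 2 := ih2
      have s4 : ∫ x, S x ^ 4 ∂(Measure.pi P) ≤ 3 * (∑ j ∈ s, a j ^ 2) ^ 2 := ihb
      rw [integral_add k3 i5, integral_add k2 i4, integral_add k1 i3, integral_add i1 i2,
        integral_const_mul, integral_const_mul, integral_const_mul, hE, hE, hE, s1, y1', y2, s2,
        Finset.sum_insert hi]
      nlinarith [s4, y4]

theorem pi_four (P : ι → Measure ℝ) (hP : ∀ i, Adm (P i)) (a : ι → ℝ) :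
    Integrable (fun x : ι → ℝ => (∑ i, a i * x i) ^ 4) (Measure.pi P) ∧
    ∫ x : ι → ℝ, (∑ i, a i * x i) ^ 4 ∂(Measure.pi P) ≤ 3 * (∑ i, a i ^ 2) ^ 2 :=
  ⟨(pi_four_aux P hP a univ).1, (pi_four_aux P hP a univ).2.2.2⟩

end Four

end Pool.Agent.IP49.RC
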