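import Pool.Agent.IP49.REnt
import Pool.Agent.IP49.RMom

/-!
# Part R2(i) of IP49: the mean of the remainder bound

`Bc_integral`: under every product of laws with mean 0, variance 1 and fourth moment at most 3 the
mean of `Bc` is at most `CB * n^(-3/2)`.
-/

set_option autoImplicit false

open MeasureTheory ProbabilityTheory Finset

namespace Pool.Agent.IP49.RC

open Pool.Agent.PC55 (sg)

section Indep

variable {ι : Type*} [Fintype ι] [DecidableEq ι]

/-- Functions of disjoint sets of coordinates are independent. -/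
theorem indep_of_dep (P : ι → Measure ℝ) [∀ i, IsProbabilityMeasure (P i)] (S T : Finset ι)
    (hST : Disjoint S T) {f g : (ι → ℝ) → ℝ} (hf : Measurable f) (hg : Measurable g)
    (hfS : ∀ x y : ι → ℝ, (∀ j ∈ S, x j = y j) → f x = f y)
    (hgT : ∀ x y : ι → ℝ, (∀ j ∈ T, x j = y j) → g x = g y) :
    IndepFun f g (Measure.pi P) := by
  have hind : iIndepFun (fun (i : ι) (x : ι → ℝ) => x i) (Measure.pi P) :=
    iIndepFun_pi (X := fun _ t => t) fun i => measurable_id.aemeasurable
  have h := hind.indepFun_finset S T hST (fun i => measurable_pi_apply i)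
  have hext : ∀ R : Finset ι, Measurable (fun (z : R → ℝ) (j : ι) =>
      if hj : j ∈ R then z ⟨j, hj⟩ else 0) := by
    intro R
    rw [measurable_pi_iff]
    intro j
    by_cases hj : j ∈ R
    · simp only [hj, dif_pos]
      exact measurable_pi_apply _
    · simp only [hj, dif_neg, not_false_iff]
      exact measurable_const
  have h2 := h.comp (hf.comp (hext S)) (hg.comp (hext T))
  have e1 : (f ∘ fun (z : S → ℝ) (j : ι) => if hj : j ∈ S then z ⟨j, hj⟩ else 0) ∘
      (fun (x : ι → ℝ) (i : S) => x i) = f := by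
    funext x
    exact hfS _ _ fun j hj => by simp [hj]
  have e2 : (g ∘ fun (z : T → ℝ) (j : ι) => if hj : j ∈ T then z ⟨j, hj⟩ else 0) ∘
      (fun (x : ι → ℝ) (i : T) => x i) = g := by
    funext x
    exact hgT _ _ fun j hj => by simp [hj]
  rw [e1, e2] at h2
  exact h2

end Indep

variable {m n : ℕ}

/-- The coefficients of `y0` as a linear form on the family of all entries. -/
noncomputable def ac (k : Fin m) (i : Fin n) (w : Fin n → Bool) (e : Fin m × Fin n) : ℝ :=
  if e.1 = k ∧ e.2 ≠ i then sg (w e.2) / √(n : ℝ) else 0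

theorem y0_eq (k : Fin m) (i : Fin n) (x : Fin m × Fin n → ℝ) (w : Fin n → Bool) :
    y0 k i x w = ∑ e, ac k i w e * x e := by
  unfold y0 ac
  rw [Fintype.sum_prod_type, Finset.sum_eq_single k]
  · rw [Finset.sum_div]
    refine Finset.sum_congr rfl fun j _ => ?_
    by_cases hj : j = i
    · simp [hj]
    · simp only [hj, ne_eq, not_false_iff, and_self, if_true, if_false]
      ring
  · intro l _ hl
    refine Finset.sum_eq_zero fun j _ => ?_
    rw [if_neg (fun h => hl h.1), zero_mul]
  · intro h
    exact absurd (Finset.mem_univ k) h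

theorem sum_ac_sq_le (hn : 0 < n) (k : Fin m) (i : Fin n) (w : Fin n → Bool) :
    ∑ e, ac k i w e ^ 2 ≤ 1 := by
  unfold ac
  have hn' : (0 : ℝ) < n := by exact_mod_cast hn
  rw [Fintype.sum_prod_type, Finset.sum_eq_single k]
  · calc ∑ j, (if (k, j).1 = k ∧ (k, j).2 ≠ i then sg (w (k, j).2) / √(n : ℝ) else 0) ^ 2
        ≤ ∑ _j : Fin n, 1 / (n : ℝ) := by
          refine Finset.sum_le_sum fun j _ => ?_
          split_ifs
          · rw [div_pow, Pool.Agent.PC55.sg_sq, Real.sq_sqrt hn'.le]
          · rw [zero_pow (by norm_num)]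
            positivity
      _ = 1 := by
          rw [Finset.sum_const, Finset.card_univ, Fintype.card_fin, nsmul_eq_mul]
          field_simp
  · intro l _ hl
    refine Finset.sum_eq_zero fun j _ => ?_
    rw [if_neg (fun h => hl h.1)]
    norm_num
  · intro h
    exact absurd (Finset.mem_univ k) h

theorem continuous_y0 (k : Fin m) (i : Fin n) (w : Fin n → Bool) :
    Continuous fun x : Fin m × Fin n → ℝ => y0 k i x w := by
  simp only [y0_eq]
  fun_prop

theorem continuous_pc (P : Pen) (β : ℝ) (k : Fin m) (w : Fin n → Bool) :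
    Continuous fun x : Fin m × Fin n → ℝ => pc P β k x w := by
  have hU : Continuous P.U := continuous_iff_continuousAt.2 fun x => (P.d1 x).continuousAt
  unfold pc
  refine Real.continuous_exp.comp (continuous_const.mul (continuous_finsetSum _ fun l _ => ?_))
  split_ifs
  · exact continuous_const
  · refine hU.comp ?_
    unfold yv mat
    fun_prop

/-- The normalised cavity weights. -/
noncomputable def qc (P : Pen) (β : ℝ) (k : Fin m) (w : Fin n → Bool)
    (x : Fin m × Fin n → ℝ) : ℝ := pc P β k x w / ∑ w', pc P β k x w'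

theorem qc_nonneg (P : Pen) (β : ℝ) (k : Fin m) (w : Fin n → Bool) (x : Fin m × Fin n → ℝ) :
    0 ≤ qc P β k w x := div_nonneg (pc_pos P β k x w).le (sum_pc_pos P β k x).le

theorem sum_qc (P : Pen) (β : ℝ) (k : Fin m) (x : Fin m × Fin n → ℝ) :
    ∑ w, qc P β k w x = 1 := by
  unfold qc
  rw [← Finset.sum_div]
  exact div_self (sum_pc_pos P β k x).ne'

theorem qc_le_one (P : Pen) (β : ℝ) (k : Fin m) (w : Fin n → Bool) (x : Fin m × Fin n → ℝ) :
    qc P β k w x ≤ 1 := by
  rw [← sum_qc P β k x]
  exact Finset.single_le_sum (fun w _ => qc_nonneg P β k w x) (Finset.mem_univ w)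

theorem measurable_qc (P : Pen) (β : ℝ) (k : Fin m) (w : Fin n → Bool) :
    Measurable (qc P β k w) :=
  ((continuous_pc P β k w).div (continuous_finsetSum _ fun w' _ => continuous_pc P β k w')
    fun x => (sum_pc_pos P β k x).ne').measurable

/-- The constant in the mean of the remainder bound. -/
noncomputable def CB (P : Pen) (β : ℝ) : ℝ := 32 * (1 / β * K3 (β * P.C))

theorem cube_le (y : ℝ) : (1 + |y|) ^ 3 ≤ 8 * (1 + y ^ 4) := by
  have h0 := abs_nonneg y
  have e : y ^ 4 = |y| ^ 4 := by
    have : |y| ^ 4 = |y ^ 4| := (abs_pow y 4).symm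
    rw [this, abs_of_nonneg (by positivity)]
  rw [e]
  set t := |y|
  rcases le_total t 1 with h | h
  · have : (1 + t) ^ 3 ≤ 2 ^ 3 := pow_le_pow_left₀ (by linarith) (by linarith) 3
    have : 0 ≤ t ^ 4 := by positivity
    linarith
  · have h1 : (1 + t) ^ 3 ≤ (2 * t) ^ 3 := pow_le_pow_left₀ (by linarith) (by linarith) 3
    have h2 : t ^ 3 ≤ t ^ 4 := pow_le_pow_right₀ h (by norm_num)
    have h3 : (2 * t) ^ 3 = 8 * t ^ 3 := by ring
    linarith

theorem Bc_integral (P : Pen) {β : ℝ} (hβ : 0 < β) (hn : 0 < n) (e : Fin m × Fin n)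
    (ν : Fin m × Fin n → Measure ℝ) (hν : ∀ j, Adm (ν j)) :
    Integrable (Bc P β e) (Measure.pi ν) ∧
      ∫ x, Bc P β e x ∂(Measure.pi ν) ≤ CB P β * (1 / √(n : ℝ)) ^ 3 := by
  obtain ⟨k, i⟩ := e
  have : ∀ j, IsProbabilityMeasure (ν j) := fun j => (hν j).prob
  -- moments of the row value
  have hr : ∀ w : Fin n → Bool, Integrable (fun x => (1 + |y0 k i x w|) ^ 3) (Measure.pi ν) ∧
      ∫ x, (1 + |y0 k i x w|) ^ 3 ∂(Measure.pi ν) ≤ 32 := by
    intro w
    obtain ⟨h1, h2⟩ := pi_four ν hν (ac k i w)
    have h3 := sum_ac_sq_le hn k i w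
    have h4 : Integrable (fun x => 8 * (1 + y0 k i x w ^ 4)) (Measure.pi ν) := by
      simp only [y0_eq]
      exact ((integrable_const _).add h1).const_mul 8
    have hm : AEStronglyMeasurable (fun x => (1 + |y0 k i x w|) ^ 3) (Measure.pi ν) :=
      ((continuous_const.add (continuous_y0 k i w).abs).pow 3).aestronglyMeasurable
    have h5 : Integrable (fun x => (1 + |y0 k i x w|) ^ 3) (Measure.pi ν) := by
      refine Integrable.mono' h4 hm (Filter.Eventually.of_forall fun x => ?_)
      rw [Real.norm_eq_abs, abs_of_nonneg (by positivity)]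
      exact cube_le _
    refine ⟨h5, (integral_mono h5 h4 fun x => cube_le _).trans ?_⟩
    have h6 : ∫ x, 8 * (1 + y0 k i x w ^ 4) ∂(Measure.pi ν) =
        8 * (1 + ∫ x, y0 k i x w ^ 4 ∂(Measure.pi ν)) := by
      have h1' : Integrable (fun x => y0 k i x w ^ 4) (Measure.pi ν) := by
        simp only [y0_eq]
        exact h1
      rw [integral_const_mul, integral_add (integrable_const _) h1']
      simp
    have h7 : ∫ x, y0 k i x w ^ 4 ∂(Measure.pi ν) ≤ 3 := by
      simp only [y0_eq]
      refine h2.trans ?_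
      have h8 : (∑ e, ac k i w e ^ 2) ^ 2 ≤ 1 := by
        refine pow_le_one₀ (Finset.sum_nonneg fun _ _ => sq_nonneg _) h3
      linarith
    rw [h6]
    linarith
  -- independence of the cavity weights and the row value
  have hI : ∀ w : Fin n → Bool, IndepFun (qc P β k w) (fun x => (1 + |y0 k i x w|) ^ 3)
      (Measure.pi ν) := by
    intro w
    refine indep_of_dep ν (univ.filter fun e => e.1 ≠ k) (univ.filter fun e => e.1 = k) ?_
      (measurable_qc P β k w)
      ((continuous_const.add (continuous_y0 k i w).abs).pow 3).measurable ?_ ?_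
    · rw [Finset.disjoint_left]
      intro j hj hj'
      simp only [Finset.mem_filter, Finset.mem_univ, true_and] at hj hj'
      exact hj hj'
    · intro x y hxy
      have hp : pc P β k x = pc P β k y := by
        funext w'
        unfold pc
        congr 2
        refine Finset.sum_congr rfl fun l _ => ?_
        split_ifs with hl
        · rfl
        · congr 1
          unfold yv mat
          congr 1
          refine Finset.sum_congr rfl fun j _ => ?_
          rw [hxy (l, j) (by simp [hl])]
      unfold qc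
      rw [hp]
    · intro x y hxy
      have : y0 k i x w = y0 k i y w := by
        unfold y0
        congr 1
        refine Finset.sum_congr rfl fun j _ => ?_
        rw [hxy (k, j) (by simp)]
      show (1 + |y0 k i x w|) ^ 3 = (1 + |y0 k i y w|) ^ 3
      rw [this]
  have hq : ∀ w : Fin n → Bool, Integrable (qc P β k w) (Measure.pi ν) := by
    intro w
    refine Integrable.mono' (integrable_const (1 : ℝ))
      (measurable_qc P β k w).aestronglyMeasurable (Filter.Eventually.of_forall fun x => ?_)
    rw [Real.norm_eq_abs, abs_of_nonneg (qc_nonneg P β k w x)]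
    exact qc_le_one P β k w x
  have hprod : ∀ w : Fin n → Bool, Integrable
      (fun x => qc P β k w x * (1 + |y0 k i x w|) ^ 3) (Measure.pi ν) := fun w =>
    (hI w).integrable_mul (hq w) (hr w).1
  have hc : 0 ≤ 1 / β * K3 (β * P.C) :=
    mul_nonneg (by positivity) (K3_nonneg (mul_nonneg hβ.le (zero_le_one.trans P.hC)))
  have hB : ∀ x, Bc P β (k, i) x = (1 / β * K3 (β * P.C)) * (1 / √(n : ℝ)) ^ 3 *
      ∑ w, qc P β k w x * (1 + |y0 k i x w|) ^ 3 := by
    intro x
    unfold Bc qc
    congr 1
    rw [Finset.sum_div]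
    exact Finset.sum_congr rfl fun w _ => by ring
  have hBf : Bc P β (k, i) = fun x => (1 / β * K3 (β * P.C)) * (1 / √(n : ℝ)) ^ 3 *
      ∑ w, qc P β k w x * (1 + |y0 k i x w|) ^ 3 := funext hB
  rw [hBf]
  refine ⟨(integrable_finsetSum _ fun w _ => hprod w).const_mul _, ?_⟩
  rw [integral_const_mul, integral_finsetSum _ fun w _ => hprod w]
  have hsum : ∑ w, ∫ x, qc P β k w x * (1 + |y0 k i x w|) ^ 3 ∂(Measure.pi ν) ≤ 32 := by
    have h1 : ∀ w : Fin n → Bool,
        ∫ x, qc P β k w x * (1 + |y0 k i x w|) ^ 3 ∂(Measure.pi ν) ≤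
          32 * ∫ x, qc P β k w x ∂(Measure.pi ν) := by
      intro w
      rw [(hI w).integral_fun_mul_eq_mul_integral
        (measurable_qc P β k w).aestronglyMeasurable (hr w).1.aestronglyMeasurable, mul_comm]
      exact mul_le_mul_of_nonneg_right (hr w).2 (integral_nonneg fun x => qc_nonneg P β k w x)
    refine (Finset.sum_le_sum fun w _ => h1 w).trans ?_
    rw [← Finset.mul_sum, ← integral_finsetSum _ fun w _ => hq w]
    simp only [sum_qc]
    simp
  have hn3 : 0 ≤ (1 / √(n : ℝ)) ^ 3 := by positivity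
  calc (1 / β * K3 (β * P.C)) * (1 / √(n : ℝ)) ^ 3 *
        ∑ w, ∫ x, qc P β k w x * (1 + |y0 k i x w|) ^ 3 ∂(Measure.pi ν)
      ≤ (1 / β * K3 (β * P.C)) * (1 / √(n : ℝ)) ^ 3 * 32 :=
        mul_le_mul_of_nonneg_left hsum (mul_nonneg hc hn3)
    _ = CB P β * (1 / √(n : ℝ)) ^ 3 := by
        unfold CB
        ring

end Pool.Agent.IP49.RC
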