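import Pool.Agent.IP49.Pen

/-!
# Part R2(i) of IP49: the third derivative of the free energy in one entry of the matrix

Finite association inequalities, the derivatives of `log ∑ p exp (-β U (y + h s σ))` in `s`, and
the Taylor estimate of order three.
-/

set_option autoImplicit false

open Finset

namespace Pool.Agent.IP49.RC

section Assoc

variable {ι : Type*} [Fintype ι]

/-- Chebyshev's association inequality for finite weights. -/
theorem assoc_neg (p u v : ι → ℝ) (hp : ∀ i, 0 ≤ p i)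
    (h : ∀ i j, (u i - u j) * (v i - v j) ≤ 0) :
    (∑ i, p i * (u i * v i)) * (∑ i, p i) ≤ (∑ i, p i * u i) * (∑ i, p i * v i) := by
  have h1 : ∑ i, ∑ j, p i * p j * ((u i - u j) * (v i - v j)) ≤ 0 :=
    Finset.sum_nonpos fun i _ => Finset.sum_nonpos fun j _ =>
      mul_nonpos_of_nonneg_of_nonpos (mul_nonneg (hp i) (hp j)) (h i j)
  have h2 : ∑ i, ∑ j, p i * p j * ((u i - u j) * (v i - v j)) =
      2 * ((∑ i, p i * (u i * v i)) * (∑ i, p i)) - 2 * ((∑ i, p i * u i) * (∑ i, p i * v i)) := by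
    have e1 : (∑ i, p i * (u i * v i)) * (∑ i, p i) =
        ∑ i, ∑ j, p i * p j * (u i * v i) := by
      rw [Finset.sum_mul_sum]
      exact Finset.sum_congr rfl fun i _ => Finset.sum_congr rfl fun j _ => by ring
    have e2 : (∑ i, p i * (u i * v i)) * (∑ i, p i) =
        ∑ i, ∑ j, p i * p j * (u j * v j) := by
      rw [mul_comm, Finset.sum_mul_sum]
      exact Finset.sum_congr rfl fun i _ => Finset.sum_congr rfl fun j _ => by ring
    have e3 : (∑ i, p i * u i) * (∑ i, p i * v i) =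
        ∑ i, ∑ j, p i * p j * (u i * v j) := by
      rw [Finset.sum_mul_sum]
      exact Finset.sum_congr rfl fun i _ => Finset.sum_congr rfl fun j _ => by ring
    have e4 : (∑ i, p i * u i) * (∑ i, p i * v i) =
        ∑ i, ∑ j, p i * p j * (u j * v i) := by
      rw [mul_comm, Finset.sum_mul_sum]
      exact Finset.sum_congr rfl fun i _ => Finset.sum_congr rfl fun j _ => by ring
    have e5 : ∑ i, ∑ j, p i * p j * ((u i - u j) * (v i - v j)) =
        ∑ i, ∑ j, p i * p j * (u i * v i) + ∑ i, ∑ j, p i * p j * (u j * v j)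
          - ∑ i, ∑ j, p i * p j * (u i * v j) - ∑ i, ∑ j, p i * p j * (u j * v i) := by
      simp only [← Finset.sum_add_distrib, ← Finset.sum_sub_distrib]
      exact Finset.sum_congr rfl fun i _ => Finset.sum_congr rfl fun j _ => by ring
    rw [e5, ← e1, ← e2, ← e3, ← e4]
    ring
  linarith

/-- The reversed inequality. -/
theorem assoc_pos (p u v : ι → ℝ) (hp : ∀ i, 0 ≤ p i)
    (h : ∀ i j, 0 ≤ (u i - u j) * (v i - v j)) :
    (∑ i, p i * u i) * (∑ i, p i * v i) ≤ (∑ i, p i * (u i * v i)) * (∑ i, p i) := by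
  have h1 := assoc_neg p u (fun i => - v i) hp fun i j => by
    have := h i j
    have e : (u i - u j) * (-v i - -v j) = - ((u i - u j) * (v i - v j)) := by ring
    rw [e]
    linarith
  simp only [mul_neg, Finset.sum_neg_distrib, neg_mul] at h1
  linarith

end Assoc

section Deriv

variable {ι : Type*} [Fintype ι]

/-- The partition function as a function of one entry. -/
noncomputable def ZZ (U : ℝ → ℝ) (β h : ℝ) (p y σ : ι → ℝ) (s : ℝ) : ℝ :=
  ∑ w, p w * Real.exp (-β * U (y w + h * s * σ w))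

variable {U U1 U2 U3 : ℝ → ℝ}

/-- First derivative of the partition function. -/
noncomputable def Z1 (U U1 : ℝ → ℝ) (β h : ℝ) (p y σ : ι → ℝ) (s : ℝ) : ℝ :=
  ∑ w, p w * Real.exp (-β * U (y w + h * s * σ w)) *
    (-β * (h * σ w) * U1 (y w + h * s * σ w))

/-- Second derivative of the partition function. -/
noncomputable def Z2 (U U1 U2 : ℝ → ℝ) (β h : ℝ) (p y σ : ι → ℝ) (s : ℝ) : ℝ :=
  ∑ w, p w * Real.exp (-β * U (y w + h * s * σ w)) *
    ((-β * (h * σ w) * U1 (y w + h * s * σ w)) ^ 2 +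
      (-β * (h * σ w) ^ 2 * U2 (y w + h * s * σ w)))

/-- Third derivative of the partition function. -/
noncomputable def Z3 (U U1 U2 U3 : ℝ → ℝ) (β h : ℝ) (p y σ : ι → ℝ) (s : ℝ) : ℝ :=
  ∑ w, p w * Real.exp (-β * U (y w + h * s * σ w)) *
    ((-β * (h * σ w) * U1 (y w + h * s * σ w)) ^ 3 +
      3 * (-β * (h * σ w) * U1 (y w + h * s * σ w)) *
        (-β * (h * σ w) ^ 2 * U2 (y w + h * s * σ w)) +
      (-β * (h * σ w) ^ 3 * U3 (y w + h * s * σ w)))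

theorem hasDerivAt_ZZ (h1 : ∀ x, HasDerivAt U (U1 x) x) (β h : ℝ) (p y σ : ι → ℝ) (s : ℝ) :
    HasDerivAt (ZZ U β h p y σ) (Z1 U U1 β h p y σ s) s := by
  unfold ZZ Z1
  refine HasDerivAt.fun_sum fun w _ => ?_
  have hl : HasDerivAt (fun s : ℝ => y w + h * s * σ w) (h * σ w) s := by
    have := (((hasDerivAt_id s).const_mul h).mul_const (σ w)).const_add (y w)
    simpa using this
  have hU := (h1 (y w + h * s * σ w)).comp s hl
  have := ((hU.const_mul (-β)).exp).const_mul (p w)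
  refine this.congr_deriv ?_
  simp only [Function.comp]
  ring

theorem hasDerivAt_Z1 (h1 : ∀ x, HasDerivAt U (U1 x) x) (h2 : ∀ x, HasDerivAt U1 (U2 x) x)
    (β h : ℝ) (p y σ : ι → ℝ) (s : ℝ) :
    HasDerivAt (Z1 U U1 β h p y σ) (Z2 U U1 U2 β h p y σ s) s := by
  unfold Z1 Z2
  refine HasDerivAt.fun_sum fun w _ => ?_
  have hl : HasDerivAt (fun s : ℝ => y w + h * s * σ w) (h * σ w) s := by
    have := (((hasDerivAt_id s).const_mul h).mul_const (σ w)).const_add (y w)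
    simpa using this
  have hU := (h1 (y w + h * s * σ w)).comp s hl
  have hU1 := (h2 (y w + h * s * σ w)).comp s hl
  have := (((hU.const_mul (-β)).exp).const_mul (p w)).mul (hU1.const_mul (-β * (h * σ w)))
  refine this.congr_deriv ?_
  simp only [Function.comp]
  ring

theorem hasDerivAt_Z2 (h1 : ∀ x, HasDerivAt U (U1 x) x) (h2 : ∀ x, HasDerivAt U1 (U2 x) x)
    (h3 : ∀ x, HasDerivAt U2 (U3 x) x) (β h : ℝ) (p y σ : ι → ℝ) (s : ℝ) :
    HasDerivAt (Z2 U U1 U2 β h p y σ) (Z3 U U1 U2 U3 β h p y σ s) s := by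
  unfold Z2 Z3
  refine HasDerivAt.fun_sum fun w _ => ?_
  have hl : HasDerivAt (fun s : ℝ => y w + h * s * σ w) (h * σ w) s := by
    have := (((hasDerivAt_id s).const_mul h).mul_const (σ w)).const_add (y w)
    simpa using this
  have hU := (h1 (y w + h * s * σ w)).comp s hl
  have hU1 := (h2 (y w + h * s * σ w)).comp s hl
  have hU2 := (h3 (y w + h * s * σ w)).comp s hl
  have := (((hU.const_mul (-β)).exp).const_mul (p w)).mul
    (((hU1.const_mul (-β * (h * σ w))).pow 2).add (hU2.const_mul (-β * (h * σ w) ^ 2)))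
  refine this.congr_deriv ?_
  simp only [Function.comp, Pi.add_apply, Pi.pow_apply]
  push_cast
  ring

end Deriv

section Bound

variable {ι : Type*} [Fintype ι]

theorem maj_le (x : ℝ) : maj x ≤ 1 + |x| := by
  unfold maj
  have : max (-x) 0 ≤ |x| := max_le (neg_le_abs x) (abs_nonneg x)
  linarith

/-- Shorthand: tilted sums of powers of the majorant. -/
noncomputable def DD (U : ℝ → ℝ) (β h : ℝ) (p y σ : ι → ℝ) (k : ℕ) (s : ℝ) : ℝ :=
  ∑ w, p w * Real.exp (-β * U (y w + h * s * σ w)) * maj (y w + h * s * σ w) ^ k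

variable {U U1 U2 U3 : ℝ → ℝ} {β h c : ℝ} {p y σ : ι → ℝ}

theorem DD_zero (s : ℝ) : DD U β h p y σ 0 s = ZZ U β h p y σ s := by
  unfold DD ZZ
  simp

theorem ZZ_pos [Nonempty ι] (hp : ∀ w, 0 < p w) (s : ℝ) : 0 < ZZ U β h p y σ s :=
  Finset.sum_pos (fun w _ => mul_pos (hp w) (Real.exp_pos _)) Finset.univ_nonempty

theorem DD_nonneg (hp : ∀ w, 0 < p w) (k : ℕ) (s : ℝ) : 0 ≤ DD U β h p y σ k s :=
  Finset.sum_nonneg fun w _ => mul_nonneg (mul_nonneg (hp w).le (Real.exp_pos _).le)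
    (pow_nonneg (zero_le_one.trans (one_le_maj _)) _)

theorem DD_mul_le (hp : ∀ w, 0 < p w) (k l : ℕ) (s : ℝ) :
    DD U β h p y σ k s * DD U β h p y σ l s ≤
      DD U β h p y σ (k + l) s * ZZ U β h p y σ s := by
  have := assoc_pos (fun w => p w * Real.exp (-β * U (y w + h * s * σ w)))
    (fun w => maj (y w + h * s * σ w) ^ k) (fun w => maj (y w + h * s * σ w) ^ l)
    (fun w => mul_nonneg (hp w).le (Real.exp_pos _).le) (by
      intro i j
      have h0 : ∀ x, 0 ≤ maj x := fun x => zero_le_one.trans (one_le_maj x)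
      rcases le_total (maj (y i + h * s * σ i)) (maj (y j + h * s * σ j)) with hh | hh
      · exact mul_nonneg_of_nonpos_of_nonpos
          (sub_nonpos.2 (pow_le_pow_left₀ (h0 _) hh _))
          (sub_nonpos.2 (pow_le_pow_left₀ (h0 _) hh _))
      · exact mul_nonneg (sub_nonneg.2 (pow_le_pow_left₀ (h0 _) hh _))
          (sub_nonneg.2 (pow_le_pow_left₀ (h0 _) hh _)))
  unfold DD ZZ
  simpa only [pow_add] using this

private theorem abs_wsum_le (hp : ∀ w, 0 < p w) {K : ℝ} {k : ℕ} {s : ℝ} (q : ι → ℝ)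
    (hq : ∀ w, |q w| ≤ K * maj (y w + h * s * σ w) ^ k) :
    |∑ w, p w * Real.exp (-β * U (y w + h * s * σ w)) * q w| ≤ K * DD U β h p y σ k s := by
  unfold DD
  rw [Finset.mul_sum]
  refine (Finset.abs_sum_le_sum_abs _ _).trans (Finset.sum_le_sum fun w _ => ?_)
  have hE : 0 < p w * Real.exp (-β * U (y w + h * s * σ w)) := mul_pos (hp w) (Real.exp_pos _)
  rw [abs_mul, abs_of_pos hE]
  have := mul_le_mul_of_nonneg_left (hq w) hE.le
  linarith

private theorem a1_le (hβ : 0 ≤ β) (hh : 0 ≤ h) {t : ℝ} (ht : |t| ≤ 1) {x : ℝ}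
    (b1 : |U1 x| ≤ c * maj x) : |-β * (h * t) * U1 x| ≤ h * (β * c) * maj x := by
  rw [abs_mul, abs_mul, abs_mul, abs_neg, abs_of_nonneg hβ, abs_of_nonneg hh]
  have h1 : β * (h * |t|) ≤ β * h := by
    have := mul_le_mul_of_nonneg_left ht hh
    rw [mul_one] at this
    exact mul_le_mul_of_nonneg_left this hβ
  calc β * (h * |t|) * |U1 x| ≤ β * h * (c * maj x) :=
        mul_le_mul h1 b1 (abs_nonneg _) (mul_nonneg hβ hh)
    _ = _ := by ring

private theorem ak_le (hβ : 0 ≤ β) (hh : 0 ≤ h) {t : ℝ} (ht : |t| ≤ 1) {k : ℕ} {V : ℝ}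
    (b2 : |V| ≤ c) : |-β * (h * t) ^ k * V| ≤ h ^ k * (β * c) := by
  rw [abs_mul, abs_mul, abs_pow, abs_mul, abs_neg, abs_of_nonneg hβ, abs_of_nonneg hh]
  have h0 : (h * |t|) ^ k ≤ h ^ k := by
    refine pow_le_pow_left₀ (mul_nonneg hh (abs_nonneg _)) ?_ _
    have := mul_le_mul_of_nonneg_left ht hh
    rwa [mul_one] at this
  calc β * (h * |t|) ^ k * |V| ≤ β * h ^ k * c :=
        mul_le_mul (mul_le_mul_of_nonneg_left h0 hβ) b2 (abs_nonneg _)
          (mul_nonneg hβ (pow_nonneg hh _))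
    _ = _ := by ring

theorem abs_Z1_le (hβ : 0 ≤ β) (hh : 0 ≤ h) (hp : ∀ w, 0 < p w) (hσ : ∀ w, |σ w| ≤ 1)
    (b1 : ∀ x, |U1 x| ≤ c * maj x) (s : ℝ) :
    |Z1 U U1 β h p y σ s| ≤ h * (β * c) * DD U β h p y σ 1 s := by
  refine abs_wsum_le hp _ fun w => ?_
  rw [pow_one]
  exact a1_le hβ hh (hσ w) (b1 _)

theorem abs_Z2_le (hβ : 0 ≤ β) (hh : 0 ≤ h) (hc : 0 ≤ c) (hp : ∀ w, 0 < p w)
    (hσ : ∀ w, |σ w| ≤ 1) (b1 : ∀ x, |U1 x| ≤ c * maj x) (b2 : ∀ x, |U2 x| ≤ c) (s : ℝ) :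
    |Z2 U U1 U2 β h p y σ s| ≤ h ^ 2 * ((β * c) ^ 2 + β * c) * DD U β h p y σ 2 s := by
  refine abs_wsum_le hp _ fun w => ?_
  have hD := one_le_maj (y w + h * s * σ w)
  have h1 := a1_le (U1 := U1) hβ hh (hσ w) (b1 (y w + h * s * σ w))
  have h2 := ak_le (k := 2) hβ hh (hσ w) (b2 (y w + h * s * σ w))
  set D := maj (y w + h * s * σ w)
  have hb : 0 ≤ β * c := mul_nonneg hβ hc
  have hD2 : 1 ≤ D ^ 2 := one_le_pow₀ hD
  have h3 := pow_le_pow_left₀ (abs_nonneg _) h1 2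
  rw [← abs_pow] at h3
  refine (abs_add_le _ _).trans ((add_le_add h3 h2).trans ?_)
  have h4 : h ^ 2 * (β * c) ≤ h ^ 2 * (β * c) * D ^ 2 :=
    le_mul_of_one_le_right (mul_nonneg (pow_nonneg hh _) hb) hD2
  calc (h * (β * c) * D) ^ 2 + h ^ 2 * (β * c)
      ≤ (h * (β * c) * D) ^ 2 + h ^ 2 * (β * c) * D ^ 2 := by linarith
    _ = _ := by ring

theorem abs_Z3_le (hβ : 0 ≤ β) (hh : 0 ≤ h) (hc : 0 ≤ c) (hp : ∀ w, 0 < p w)
    (hσ : ∀ w, |σ w| ≤ 1) (b1 : ∀ x, |U1 x| ≤ c * maj x) (b2 : ∀ x, |U2 x| ≤ c)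
    (b3 : ∀ x, |U3 x| ≤ c) (s : ℝ) :
    |Z3 U U1 U2 U3 β h p y σ s| ≤
      h ^ 3 * ((β * c) ^ 3 + 3 * (β * c) ^ 2 + β * c) * DD U β h p y σ 3 s := by
  refine abs_wsum_le hp _ fun w => ?_
  have hD := one_le_maj (y w + h * s * σ w)
  have h1 := a1_le (U1 := U1) hβ hh (hσ w) (b1 (y w + h * s * σ w))
  have h2 := ak_le (k := 2) hβ hh (hσ w) (b2 (y w + h * s * σ w))
  have h3 := ak_le (k := 3) hβ hh (hσ w) (b3 (y w + h * s * σ w))
  set D := maj (y w + h * s * σ w)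
  have hb : 0 ≤ β * c := mul_nonneg hβ hc
  have hD0 : 0 ≤ D := zero_le_one.trans hD
  have hD3 : 1 ≤ D ^ 3 := one_le_pow₀ hD
  have hD13 : D ≤ D ^ 3 := by
    calc D = D * 1 := (mul_one D).symm
      _ ≤ D * D ^ 2 := mul_le_mul_of_nonneg_left (one_le_pow₀ hD) hD0
      _ = D ^ 3 := by ring
  have h5 := pow_le_pow_left₀ (abs_nonneg _) h1 3
  rw [← abs_pow] at h5
  have h6 : |3 * (-β * (h * σ w) * U1 (y w + h * s * σ w)) *
        (-β * (h * σ w) ^ 2 * U2 (y w + h * s * σ w))| ≤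
        3 * (h * (β * c) * D) * (h ^ 2 * (β * c)) := by
    rw [abs_mul, abs_mul, abs_of_pos (show (0 : ℝ) < 3 by norm_num)]
    exact mul_le_mul (mul_le_mul_of_nonneg_left h1 (by norm_num)) h2 (abs_nonneg _)
      (by positivity)
  refine (abs_add_le _ _).trans ((add_le_add ((abs_add_le _ _).trans (add_le_add h5 h6))
    h3).trans ?_)
  have h7 : h ^ 3 * (β * c) ≤ h ^ 3 * (β * c) * D ^ 3 :=
    le_mul_of_one_le_right (mul_nonneg (pow_nonneg hh _) hb) hD3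
  have h8 : 3 * (h ^ 3 * (β * c) ^ 2) * D ≤ 3 * (h ^ 3 * (β * c) ^ 2) * D ^ 3 :=
    mul_le_mul_of_nonneg_left hD13 (by positivity)
  calc (h * (β * c) * D) ^ 3 + 3 * (h * (β * c) * D) * (h ^ 2 * (β * c)) + h ^ 3 * (β * c)
      = h ^ 3 * (β * c) ^ 3 * D ^ 3 + 3 * (h ^ 3 * (β * c) ^ 2) * D + h ^ 3 * (β * c) := by ring
    _ ≤ h ^ 3 * (β * c) ^ 3 * D ^ 3 + 3 * (h ^ 3 * (β * c) ^ 2) * D ^ 3 +
          h ^ 3 * (β * c) * D ^ 3 := by linarith
    _ = _ := by ring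

/-- The third derivative of `log Z`. -/
noncomputable def G3 (U U1 U2 U3 : ℝ → ℝ) (β h : ℝ) (p y σ : ι → ℝ) (s : ℝ) : ℝ :=
  Z3 U U1 U2 U3 β h p y σ s / ZZ U β h p y σ s
    - 3 * (Z1 U U1 β h p y σ s / ZZ U β h p y σ s) * (Z2 U U1 U2 β h p y σ s / ZZ U β h p y σ s)
    + 2 * (Z1 U U1 β h p y σ s / ZZ U β h p y σ s) ^ 3

/-- The constant of the third derivative. -/
noncomputable def K3 (b : ℝ) : ℝ := 6 * b ^ 3 + 6 * b ^ 2 + b

theorem K3_nonneg {b : ℝ} (hb : 0 ≤ b) : 0 ≤ K3 b := by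
  unfold K3
  positivity

theorem abs_G3_le [Nonempty ι] (hβ : 0 ≤ β) (hh : 0 ≤ h) (hc : 0 ≤ c) (hp : ∀ w, 0 < p w)
    (hσ : ∀ w, |σ w| ≤ 1) (b1 : ∀ x, |U1 x| ≤ c * maj x) (b2 : ∀ x, |U2 x| ≤ c)
    (b3 : ∀ x, |U3 x| ≤ c) (s : ℝ) :
    |G3 U U1 U2 U3 β h p y σ s| ≤
      h ^ 3 * K3 (β * c) * (DD U β h p y σ 3 s / ZZ U β h p y σ s) := by
  have hZ := ZZ_pos (U := U) (β := β) (h := h) (y := y) (σ := σ) hp s
  have hb : 0 ≤ β * c := mul_nonneg hβ hc
  have h1 := abs_Z1_le (U := U) (p := p) (y := y) hβ hh hp hσ b1 s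
  have h2 := abs_Z2_le (U := U) (p := p) (y := y) hβ hh hc hp hσ b1 b2 s
  have h3 := abs_Z3_le (U := U) (p := p) (y := y) hβ hh hc hp hσ b1 b2 b3 s
  have m12 := DD_mul_le (U := U) (β := β) (h := h) (y := y) (σ := σ) hp 1 2 s
  have m11 := DD_mul_le (U := U) (β := β) (h := h) (y := y) (σ := σ) hp 1 1 s
  have n1 := DD_nonneg (U := U) (β := β) (h := h) (y := y) (σ := σ) hp 1 s
  have n2 := DD_nonneg (U := U) (β := β) (h := h) (y := y) (σ := σ) hp 2 s
  have n3 := DD_nonneg (U := U) (β := β) (h := h) (y := y) (σ := σ) hp 3 s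
  norm_num at m12 m11
  unfold G3
  set Z := ZZ U β h p y σ s
  set D1 := DD U β h p y σ 1 s
  set D2 := DD U β h p y σ 2 s
  set D3 := DD U β h p y σ 3 s
  set A1 := Z1 U U1 β h p y σ s
  set A2 := Z2 U U1 U2 β h p y σ s
  set A3 := Z3 U U1 U2 U3 β h p y σ s
  -- normalised moments
  have q1 : |A1 / Z| ≤ h * (β * c) * (D1 / Z) := by
    rw [abs_div, abs_of_pos hZ, ← mul_div_assoc]
    exact div_le_div_of_nonneg_right h1 hZ.le
  have q2 : |A2 / Z| ≤ h ^ 2 * ((β * c) ^ 2 + β * c) * (D2 / Z) := by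
    rw [abs_div, abs_of_pos hZ, ← mul_div_assoc]
    exact div_le_div_of_nonneg_right h2 hZ.le
  have q3 : |A3 / Z| ≤ h ^ 3 * ((β * c) ^ 3 + 3 * (β * c) ^ 2 + β * c) * (D3 / Z) := by
    rw [abs_div, abs_of_pos hZ, ← mul_div_assoc]
    exact div_le_div_of_nonneg_right h3 hZ.le
  have r12 : (D1 / Z) * (D2 / Z) ≤ D3 / Z := by
    rw [div_mul_div_comm, div_le_div_iff₀ (by positivity) hZ]
    calc D1 * D2 * Z ≤ D3 * Z * Z := mul_le_mul_of_nonneg_right m12 hZ.le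
      _ = _ := by ring
  have r11 : (D1 / Z) * (D1 / Z) ≤ D2 / Z := by
    rw [div_mul_div_comm, div_le_div_iff₀ (by positivity) hZ]
    calc D1 * D1 * Z ≤ D2 * Z * Z := mul_le_mul_of_nonneg_right m11 hZ.le
      _ = _ := by ring
  have d1 : 0 ≤ D1 / Z := div_nonneg n1 hZ.le
  have d2 : 0 ≤ D2 / Z := div_nonneg n2 hZ.le
  have d3 : 0 ≤ D3 / Z := div_nonneg n3 hZ.le
  have r111 : (D1 / Z) ^ 3 ≤ D3 / Z := by
    calc (D1 / Z) ^ 3 = (D1 / Z) * ((D1 / Z) * (D1 / Z)) := by ring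
      _ ≤ (D1 / Z) * (D2 / Z) := mul_le_mul_of_nonneg_left r11 d1
      _ ≤ _ := r12
  have p12 : |A1 / Z| * |A2 / Z| ≤ h ^ 3 * ((β * c) * ((β * c) ^ 2 + β * c)) * (D3 / Z) := by
    calc |A1 / Z| * |A2 / Z|
        ≤ (h * (β * c) * (D1 / Z)) * (h ^ 2 * ((β * c) ^ 2 + β * c) * (D2 / Z)) :=
          mul_le_mul q1 q2 (abs_nonneg _) (by positivity)
      _ = h ^ 3 * ((β * c) * ((β * c) ^ 2 + β * c)) * ((D1 / Z) * (D2 / Z)) := by ring
      _ ≤ _ := mul_le_mul_of_nonneg_left r12 (by positivity)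
  have p111 : |A1 / Z| ^ 3 ≤ h ^ 3 * (β * c) ^ 3 * (D3 / Z) := by
    calc |A1 / Z| ^ 3 ≤ (h * (β * c) * (D1 / Z)) ^ 3 := pow_le_pow_left₀ (abs_nonneg _) q1 3
      _ = h ^ 3 * (β * c) ^ 3 * (D1 / Z) ^ 3 := by ring
      _ ≤ _ := mul_le_mul_of_nonneg_left r111 (by positivity)
  have t1 : |A3 / Z - 3 * (A1 / Z) * (A2 / Z) + 2 * (A1 / Z) ^ 3| ≤
      |A3 / Z| + 3 * (|A1 / Z| * |A2 / Z|) + 2 * |A1 / Z| ^ 3 := by
    refine (abs_add_le _ _).trans (add_le_add ((abs_sub _ _).trans (add_le_add le_rfl ?_)) ?_)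
    · rw [abs_mul, abs_mul, abs_of_pos (show (0 : ℝ) < 3 by norm_num), mul_assoc]
    · rw [abs_mul, abs_pow, abs_of_pos (show (0 : ℝ) < 2 by norm_num)]
  refine t1.trans ?_
  unfold K3
  nlinarith [q3, p12, p111]

/-- Association: the tilt by `exp (-β U)` decreases the mean of a decreasing function. -/
theorem DD_div_le [Nonempty ι] (hU : Antitone U) (hβ : 0 ≤ β) (hp : ∀ w, 0 < p w) (k : ℕ)
    (s : ℝ) :
    DD U β h p y σ k s / ZZ U β h p y σ s ≤
      (∑ w, p w * maj (y w + h * s * σ w) ^ k) / ∑ w, p w := by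
  have hZ := ZZ_pos (U := U) (β := β) (h := h) (y := y) (σ := σ) hp s
  have hP : 0 < ∑ w, p w := Finset.sum_pos (fun w _ => hp w) Finset.univ_nonempty
  rw [div_le_div_iff₀ hZ hP]
  have := assoc_neg p (fun w => Real.exp (-β * U (y w + h * s * σ w)))
    (fun w => maj (y w + h * s * σ w) ^ k) (fun w => (hp w).le) (by
      intro i j
      have h0 : ∀ x, 0 ≤ maj x := fun x => zero_le_one.trans (one_le_maj x)
      rcases le_total (y i + h * s * σ i) (y j + h * s * σ j) with hh | hh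
      · refine mul_nonpos_of_nonpos_of_nonneg (sub_nonpos.2 (Real.exp_le_exp.2 ?_))
          (sub_nonneg.2 (pow_le_pow_left₀ (h0 _) (maj_anti hh) _))
        have := mul_le_mul_of_nonneg_left (hU hh) hβ
        linarith
      · refine mul_nonpos_of_nonneg_of_nonpos (sub_nonneg.2 (Real.exp_le_exp.2 ?_))
          (sub_nonpos.2 (pow_le_pow_left₀ (h0 _) (maj_anti hh) _))
        have := mul_le_mul_of_nonneg_left (hU hh) hβ
        linarith)
  unfold DD ZZ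
  simp only [mul_assoc] at this ⊢
  linarith

theorem sum_maj_le (hh : 0 ≤ h) (hh1 : h ≤ 1) (hp : ∀ w, 0 < p w) (hσ : ∀ w, |σ w| ≤ 1)
    {s t : ℝ} (hst : |t| ≤ |s|) :
    ∑ w, p w * maj (y w + h * t * σ w) ^ 3 ≤ (1 + |s|) ^ 3 * ∑ w, p w * (1 + |y w|) ^ 3 := by
  rw [Finset.mul_sum]
  refine Finset.sum_le_sum fun w _ => ?_
  have h0 : 0 ≤ maj (y w + h * t * σ w) := zero_le_one.trans (one_le_maj _)
  have h1 : maj (y w + h * t * σ w) ≤ (1 + |s|) * (1 + |y w|) := by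
    refine (maj_le _).trans ?_
    have h2 : |y w + h * t * σ w| ≤ |y w| + |s| := by
      refine (abs_add_le _ _).trans (add_le_add le_rfl ?_)
      rw [abs_mul, abs_mul, abs_of_nonneg hh]
      calc h * |t| * |σ w| ≤ 1 * |s| * 1 :=
            mul_le_mul (mul_le_mul hh1 hst (abs_nonneg _) zero_le_one) (hσ w) (abs_nonneg _)
              (by positivity)
        _ = |s| := by ring
    have h3 : 0 ≤ |s| * |y w| := by positivity
    nlinarith
  calc p w * maj (y w + h * t * σ w) ^ 3 ≤ p w * ((1 + |s|) * (1 + |y w|)) ^ 3 :=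
        mul_le_mul_of_nonneg_left (pow_le_pow_left₀ h0 h1 3) (hp w).le
    _ = _ := by ring

end Bound

section Taylor

theorem taylor3 {g g1 g2 g3 : ℝ → ℝ} (h1 : ∀ x, HasDerivAt g (g1 x) x)
    (h2 : ∀ x, HasDerivAt g1 (g2 x) x) (h3 : ∀ x, HasDerivAt g2 (g3 x) x) {M s : ℝ}
    (hM : ∀ t, |t| ≤ |s| → |g3 t| ≤ M) :
    |g s - g 0 - s * g1 0 - s ^ 2 * (g2 0 / 2)| ≤ M * |s| ^ 3 := by
  have hM0 : 0 ≤ M := (abs_nonneg _).trans (hM 0 (by simp))
  have hS : Convex ℝ (Set.Icc (-|s|) |s|) := convex_Icc _ _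
  have h0S : (0 : ℝ) ∈ Set.Icc (-|s|) |s| := ⟨by simp, by simp⟩
  have hs : s ∈ Set.Icc (-|s|) |s| := ⟨neg_abs_le s, le_abs_self s⟩
  have mem : ∀ {t : ℝ}, t ∈ Set.Icc (-|s|) |s| → |t| ≤ |s| := fun ht => abs_le.2 ht
  -- the second derivative
  have r2 : ∀ t ∈ Set.Icc (-|s|) |s|, |g2 t - g2 0| ≤ M * |s| := by
    intro t ht
    have := hS.norm_image_sub_le_of_norm_hasDerivWithin_le
      (f := g2) (f' := g3) (C := M) (fun x _ => (h3 x).hasDerivWithinAt)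
      (fun x hx => hM x (mem hx)) h0S ht
    rw [sub_zero] at this
    exact this.trans (mul_le_mul_of_nonneg_left (mem ht) hM0)
  have r1 : ∀ t ∈ Set.Icc (-|s|) |s|, |g1 t - g1 0 - t * g2 0| ≤ M * |s| ^ 2 := by
    intro t ht
    have := hS.norm_image_sub_le_of_norm_hasDerivWithin_le
      (f := fun t => g1 t - t * g2 0) (f' := fun t => g2 t - g2 0) (C := M * |s|)
      (fun x _ => by
        have := ((h2 x).sub ((hasDerivAt_id x).mul_const (g2 0))).hasDerivWithinAt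
          (s := Set.Icc (-|s|) |s|)
        refine this.congr_deriv ?_
        ring)
      (fun x hx => r2 x hx) h0S ht
    rw [sub_zero, Real.norm_eq_abs, Real.norm_eq_abs] at this
    calc |g1 t - g1 0 - t * g2 0| = |g1 t - t * g2 0 - (g1 0 - 0 * g2 0)| := by ring_nf
      _ ≤ M * |s| * |t| := this
      _ ≤ M * |s| * |s| := mul_le_mul_of_nonneg_left (mem ht) (by positivity)
      _ = _ := by ring
  have := hS.norm_image_sub_le_of_norm_hasDerivWithin_le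
      (f := fun t => g t - t * g1 0 - t ^ 2 * (g2 0 / 2))
      (f' := fun t => g1 t - g1 0 - t * g2 0) (C := M * |s| ^ 2)
      (fun x _ => by
        have := (((h1 x).sub ((hasDerivAt_id x).mul_const (g1 0))).sub
          (((hasDerivAt_id x).pow 2).mul_const (g2 0 / 2))).hasDerivWithinAt
          (s := Set.Icc (-|s|) |s|)
        refine this.congr_deriv ?_
        simp only [id]
        push_cast
        ring)
      (fun x hx => r1 x hx) h0S hs
  rw [sub_zero, Real.norm_eq_abs, Real.norm_eq_abs] at this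
  calc |g s - g 0 - s * g1 0 - s ^ 2 * (g2 0 / 2)|
      = |g s - s * g1 0 - s ^ 2 * (g2 0 / 2) - (g 0 - 0 * g1 0 - 0 ^ 2 * (g2 0 / 2))| := by
        ring_nf
    _ ≤ M * |s| ^ 2 * |s| := this
    _ = _ := by ring

end Taylor

section LogZ

variable {ι : Type*} [Fintype ι]

/-- The first derivative of `log Z`. -/
noncomputable def G1 (U U1 : ℝ → ℝ) (β h : ℝ) (p y σ : ι → ℝ) (s : ℝ) : ℝ :=
  Z1 U U1 β h p y σ s / ZZ U β h p y σ s

/-- The second derivative of `log Z`. -/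
noncomputable def G2 (U U1 U2 : ℝ → ℝ) (β h : ℝ) (p y σ : ι → ℝ) (s : ℝ) : ℝ :=
  Z2 U U1 U2 β h p y σ s / ZZ U β h p y σ s - (Z1 U U1 β h p y σ s / ZZ U β h p y σ s) ^ 2

variable {U U1 U2 U3 : ℝ → ℝ} {β h c : ℝ} {p y σ : ι → ℝ}

theorem log_Z_taylor [Nonempty ι] (hU : Antitone U) (h1 : ∀ x, HasDerivAt U (U1 x) x)
    (h2 : ∀ x, HasDerivAt U1 (U2 x) x) (h3 : ∀ x, HasDerivAt U2 (U3 x) x)
    (hβ : 0 ≤ β) (hh : 0 ≤ h) (hh1 : h ≤ 1) (hc : 0 ≤ c) (hp : ∀ w, 0 < p w)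
    (hσ : ∀ w, |σ w| ≤ 1) (b1 : ∀ x, |U1 x| ≤ c * maj x) (b2 : ∀ x, |U2 x| ≤ c)
    (b3 : ∀ x, |U3 x| ≤ c) (s : ℝ) :
    |Real.log (ZZ U β h p y σ s) - Real.log (ZZ U β h p y σ 0)
        - s * G1 U U1 β h p y σ 0 - s ^ 2 * (G2 U U1 U2 β h p y σ 0 / 2)| ≤
      h ^ 3 * K3 (β * c) * ((∑ w, p w * (1 + |y w|) ^ 3) / ∑ w, p w) *
        (|s| ^ 3 * (1 + |s|) ^ 3) := by
  have hZ : ∀ s, 0 < ZZ U β h p y σ s := fun s => ZZ_pos hp s
  have hP : 0 < ∑ w, p w := Finset.sum_pos (fun w _ => hp w) Finset.univ_nonempty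
  have hb : 0 ≤ β * c := mul_nonneg hβ hc
  have hK := K3_nonneg hb
  have d0 : ∀ x, HasDerivAt (fun s => Real.log (ZZ U β h p y σ s)) (G1 U U1 β h p y σ x) x :=
    fun x => (hasDerivAt_ZZ h1 β h p y σ x).log (hZ x).ne'
  have d1 : ∀ x, HasDerivAt (G1 U U1 β h p y σ) (G2 U U1 U2 β h p y σ x) x := by
    intro x
    have := (hasDerivAt_Z1 h1 h2 β h p y σ x).div (hasDerivAt_ZZ h1 β h p y σ x) (hZ x).ne'
    refine this.congr_deriv ?_
    unfold G2
    have := (hZ x).ne'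
    field_simp
  have d2 : ∀ x, HasDerivAt (G2 U U1 U2 β h p y σ) (G3 U U1 U2 U3 β h p y σ x) x := by
    intro x
    have e := (hasDerivAt_Z2 h1 h2 h3 β h p y σ x).div (hasDerivAt_ZZ h1 β h p y σ x) (hZ x).ne'
    have := e.sub ((d1 x).pow 2)
    refine this.congr_deriv ?_
    have hne := (hZ x).ne'
    have e2 : ((2 : ℕ) : ℝ) * G1 U U1 β h p y σ x ^ (2 - 1) * G2 U U1 U2 β h p y σ x =
        2 * G1 U U1 β h p y σ x * G2 U U1 U2 β h p y σ x := by norm_num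
    rw [e2]
    unfold G1 G2 G3
    field_simp
    ring
  have key := taylor3 (g := fun s => Real.log (ZZ U β h p y σ s)) d0 d1 d2
    (M := h ^ 3 * K3 (β * c) * ((1 + |s|) ^ 3 * ((∑ w, p w * (1 + |y w|) ^ 3) / ∑ w, p w)))
    (s := s) (by
      intro t ht
      refine (abs_G3_le hβ hh hc hp hσ b1 b2 b3 t).trans ?_
      refine mul_le_mul_of_nonneg_left ?_ (mul_nonneg (pow_nonneg hh _) hK)
      refine (DD_div_le hU hβ hp 3 t).trans ?_
      rw [← mul_div_assoc]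
      exact div_le_div_of_nonneg_right (sum_maj_le hh hh1 hp hσ ht) hP.le)
  refine key.trans (le_of_eq ?_)
  ring

end LogZ

end Pool.Agent.IP49.RC
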