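import Pool.Agent.IP49.RCore

/-!
# Part R2(i) of IP49: the free energy as a function of one entry

`entry_bound`: Taylor estimate of order three of the free energy in the entry `(k, i)` with
coefficients which do not depend on that entry.
-/

set_option autoImplicit false

open Finset

namespace Pool.Agent.IP49.RC

open Pool.Agent.PC55 (sg)

variable {m n : ℕ}

/-- The matrix of a family indexed by pairs. -/
def mat (x : Fin m × Fin n → ℝ) : Fin m → Fin n → ℝ := fun k i => x (k, i)

/-- The free energy as a function on families indexed by pairs. -/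
noncomputable def Fx (P : Pen) (β : ℝ) (x : Fin m × Fin n → ℝ) : ℝ := fe P β (mat x)

/-- The normalised row value without the entry `i`. -/
noncomputable def y0 (k : Fin m) (i : Fin n) (x : Fin m × Fin n → ℝ) (w : Fin n → Bool) : ℝ :=
  (∑ j, if j = i then 0 else x (k, j) * sg (w j)) / √(n : ℝ)

/-- The cavity weights (the system without the row `k`). -/
noncomputable def pc (P : Pen) (β : ℝ) (k : Fin m) (x : Fin m × Fin n → ℝ)
    (w : Fin n → Bool) : ℝ :=
  Real.exp (-β * ∑ l, if l = k then 0 else P.U (yv (mat x) w l))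

/-- The coefficient of the linear term. -/
noncomputable def Lc (P : Pen) (β : ℝ) (e : Fin m × Fin n) (x : Fin m × Fin n → ℝ) : ℝ :=
  -(1 / β) * G1 P.U P.U1 β (1 / √(n : ℝ)) (pc P β e.1 x) (y0 e.1 e.2 x) (fun w => sg (w e.2)) 0

/-- The coefficient of the quadratic term. -/
noncomputable def Mc (P : Pen) (β : ℝ) (e : Fin m × Fin n) (x : Fin m × Fin n → ℝ) : ℝ :=
  -(1 / β) * (G2 P.U P.U1 P.U2 β (1 / √(n : ℝ)) (pc P β e.1 x) (y0 e.1 e.2 x)
    (fun w => sg (w e.2)) 0 / 2)

/-- The bound of the remainder. -/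
noncomputable def Bc (P : Pen) (β : ℝ) (e : Fin m × Fin n) (x : Fin m × Fin n → ℝ) : ℝ :=
  (1 / β * K3 (β * P.C)) * (1 / √(n : ℝ)) ^ 3 *
    ((∑ w, pc P β e.1 x w * (1 + |y0 e.1 e.2 x w|) ^ 3) / ∑ w, pc P β e.1 x w)

theorem pc_pos (P : Pen) (β : ℝ) (k : Fin m) (x : Fin m × Fin n → ℝ) (w : Fin n → Bool) :
    0 < pc P β k x w := Real.exp_pos _

theorem sum_pc_pos (P : Pen) (β : ℝ) (k : Fin m) (x : Fin m × Fin n → ℝ) :
    0 < ∑ w, pc P β k x w :=
  Finset.sum_pos (fun w _ => pc_pos P β k x w) Finset.univ_nonempty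

theorem y0_update (k : Fin m) (i : Fin n) (x : Fin m × Fin n → ℝ) (a : ℝ) :
    y0 k i (Function.update x (k, i) a) = y0 k i x := by
  funext w
  unfold y0
  congr 1
  refine Finset.sum_congr rfl fun j _ => ?_
  split_ifs with h
  · rfl
  · rw [Function.update_of_ne]
    intro hh
    exact h (Prod.mk.inj hh).2

theorem yv_update_of_ne {k l : Fin m} (hl : l ≠ k) (i : Fin n) (x : Fin m × Fin n → ℝ) (a : ℝ)
    (w : Fin n → Bool) : yv (mat (Function.update x (k, i) a)) w l = yv (mat x) w l := by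
  unfold yv mat
  congr 1
  refine Finset.sum_congr rfl fun j _ => ?_
  rw [Function.update_of_ne]
  intro hh
  exact hl (Prod.mk.inj hh).1

theorem yv_update_self (k : Fin m) (i : Fin n) (x : Fin m × Fin n → ℝ) (a : ℝ)
    (w : Fin n → Bool) : yv (mat (Function.update x (k, i) a)) w k =
      y0 k i x w + 1 / √(n : ℝ) * a * sg (w i) := by
  unfold yv mat y0
  have e : ∑ j, Function.update x (k, i) a (k, j) * sg (w j) =
      (∑ j, if j = i then 0 else x (k, j) * sg (w j)) + a * sg (w i) := by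
    rw [← Finset.sum_erase_add _ _ (Finset.mem_univ i), Function.update_self]
    congr 1
    rw [← Finset.sum_erase (s := Finset.univ) (a := i)]
    · refine Finset.sum_congr rfl fun j hj => ?_
      have hj' := Finset.ne_of_mem_erase hj
      rw [if_neg hj', Function.update_of_ne]
      intro hh
      exact hj' (Prod.mk.inj hh).2
    · simp
  rw [e]
  ring

theorem pc_update (P : Pen) (β : ℝ) (k : Fin m) (i : Fin n) (x : Fin m × Fin n → ℝ) (a : ℝ) :
    pc P β k (Function.update x (k, i) a) = pc P β k x := by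
  funext w
  unfold pc
  congr 2
  refine Finset.sum_congr rfl fun l _ => ?_
  split_ifs with h
  · rfl
  · rw [yv_update_of_ne h]

theorem Lc_update (P : Pen) (β : ℝ) (e : Fin m × Fin n) (x : Fin m × Fin n → ℝ) (a : ℝ) :
    Lc P β e (Function.update x e a) = Lc P β e x := by
  obtain ⟨k, i⟩ := e
  unfold Lc
  simp only [pc_update, y0_update]

theorem Mc_update (P : Pen) (β : ℝ) (e : Fin m × Fin n) (x : Fin m × Fin n → ℝ) (a : ℝ) :
    Mc P β e (Function.update x e a) = Mc P β e x := by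
  obtain ⟨k, i⟩ := e
  unfold Mc
  simp only [pc_update, y0_update]

theorem Bc_update (P : Pen) (β : ℝ) (e : Fin m × Fin n) (x : Fin m × Fin n → ℝ) (a : ℝ) :
    Bc P β e (Function.update x e a) = Bc P β e x := by
  obtain ⟨k, i⟩ := e
  unfold Bc
  simp only [pc_update, y0_update]

theorem Bc_nonneg (P : Pen) {β : ℝ} (hβ : 0 < β) (e : Fin m × Fin n)
    (x : Fin m × Fin n → ℝ) : 0 ≤ Bc P β e x := by
  unfold Bc
  have hb : 0 ≤ β * P.C := mul_nonneg hβ.le (zero_le_one.trans P.hC)
  have hK := K3_nonneg hb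
  have h1 := sum_pc_pos P β e.1 x
  refine mul_nonneg (mul_nonneg (mul_nonneg (by positivity) hK) (by positivity))
    (div_nonneg (Finset.sum_nonneg fun w _ => mul_nonneg (pc_pos P β _ x w).le (by positivity))
      h1.le)

theorem Fx_update (P : Pen) (β : ℝ) (k : Fin m) (i : Fin n) (x : Fin m × Fin n → ℝ) (a : ℝ) :
    Fx P β (Function.update x (k, i) a) = -(1 / β) *
      (Real.log (ZZ P.U β (1 / √(n : ℝ)) (pc P β k x) (y0 k i x) (fun w => sg (w i)) a) -
        Real.log (2 ^ n)) := by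
  unfold Fx fe
  rw [Real.log_div]
  · congr 3
    unfold ZZ
    refine Finset.sum_congr rfl fun w _ => ?_
    unfold pc energy
    rw [← Real.exp_add]
    congr 1
    rw [← Finset.sum_erase_add _ _ (Finset.mem_univ k), yv_update_self]
    have e : ∑ l ∈ Finset.univ.erase k, P.U (yv (mat (Function.update x (k, i) a)) w l) =
        ∑ l, if l = k then 0 else P.U (yv (mat x) w l) := by
      rw [← Finset.sum_erase (s := Finset.univ) (a := k)
        (f := fun l => if l = k then 0 else P.U (yv (mat x) w l))]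
      · refine Finset.sum_congr rfl fun l hl => ?_
        have hl' := Finset.ne_of_mem_erase hl
        rw [if_neg hl', yv_update_of_ne hl']
      · simp
    rw [e]
    ring
  · exact (Finset.sum_pos (fun w _ => Real.exp_pos _) Finset.univ_nonempty).ne'
  · positivity

theorem entry_bound (P : Pen) {β : ℝ} (hβ : 0 < β) (hn : 0 < n) (e : Fin m × Fin n)
    (x : Fin m × Fin n → ℝ) (a : ℝ) :
    |Fx P β (Function.update x e a) - Fx P β (Function.update x e 0)
        - a * Lc P β e x - a ^ 2 * Mc P β e x| ≤ Bc P β e x * (|a| ^ 3 * (1 + |a|) ^ 3) := by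
  obtain ⟨k, i⟩ := e
  have hn1 : (1 : ℝ) ≤ √(n : ℝ) := by
    rw [Real.one_le_sqrt]
    exact_mod_cast hn
  have hh : (0 : ℝ) ≤ 1 / √(n : ℝ) := by positivity
  have hh1 : 1 / √(n : ℝ) ≤ 1 := by
    rw [div_le_one (by positivity)]
    exact hn1
  have hσ : ∀ w : Fin n → Bool, |sg (w i)| ≤ 1 := by
    intro w
    unfold sg
    split_ifs <;> simp
  have key := log_Z_taylor (U := P.U) (U1 := P.U1) (U2 := P.U2) (U3 := P.U3) (β := β)
    (h := 1 / √(n : ℝ)) (c := P.C) (p := pc P β k x) (y := y0 k i x)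
    (σ := fun w => sg (w i)) P.anti P.d1 P.d2 P.d3 hβ.le hh hh1 (zero_le_one.trans P.hC)
    (pc_pos P β k x) hσ P.b1 P.b2 P.b3 a
  rw [Fx_update, Fx_update]
  unfold Lc Mc Bc
  set Z := Real.log (ZZ P.U β (1 / √(n : ℝ)) (pc P β k x) (y0 k i x) (fun w => sg (w i)) a)
  set Z0 := Real.log (ZZ P.U β (1 / √(n : ℝ)) (pc P β k x) (y0 k i x) (fun w => sg (w i)) 0)
  set g1 := G1 P.U P.U1 β (1 / √(n : ℝ)) (pc P β k x) (y0 k i x) (fun w => sg (w i)) 0
  set g2 := G2 P.U P.U1 P.U2 β (1 / √(n : ℝ)) (pc P β k x) (y0 k i x) (fun w => sg (w i)) 0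
  have e : -(1 / β) * (Z - Real.log (2 ^ n)) - -(1 / β) * (Z0 - Real.log (2 ^ n))
      - a * (-(1 / β) * g1) - a ^ 2 * (-(1 / β) * (g2 / 2)) =
      -(1 / β) * (Z - Z0 - a * g1 - a ^ 2 * (g2 / 2)) := by ring
  rw [e, abs_mul, abs_neg, abs_of_pos (by positivity : (0 : ℝ) < 1 / β)]
  refine (mul_le_mul_of_nonneg_left key (by positivity)).trans (le_of_eq ?_)
  ring

end Pool.Agent.IP49.RC
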