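import Pool.Agent.IP49.RUniv
import Pool.Agent.IP49.LowerTail

/-!
IP49, part R2: the two transfer statements Gaussian to Rademacher (owner helper41, helper72).

LOW: on a near solution of the Gaussian matrix the free energy is small, so by the lower tail its
mean is small; by universality the mean under the Rademacher law is small; Markov.
UP: the mean of the Gaussian free energy is large, so the mean under the Rademacher law is large,
and an exact solution would force the free energy far below its mean.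
-/

set_option autoImplicit false
open Finset Real Filter Topology MeasureTheory ProbabilityTheory

namespace Pool.Agent.IP49.RC

/-- the lower tail of the free energy -/
theorem fe_lowerTail (P : Pen) {β : ℝ} (hβ : 0 < β) {ν : Measure ℝ} (hν : EntryLaw ν)
    {m n : ℕ} (hm : 0 < m) {s : ℝ} (hs : 0 ≤ s) :
    (Measure.pi fun _ : Fin m => Measure.pi fun _ : Fin n => ν).real
      {A | fe P β A ≤ (∫ A, fe P β A ∂(Measure.pi fun _ : Fin m =>
        Measure.pi fun _ : Fin n => ν)) - s} ≤
      Real.exp (-(s ^ 2 / (2 * (8 * P.C ^ 2) * m))) := by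
  have := hν.prob
  have hC : (0 : ℝ) < 8 * P.C ^ 2 := by
    have := P.hC
    positivity
  have hρ : Integrable (fun a : Fin n → ℝ => P.C * (1 + ∑ i, a i ^ 2))
      (Measure.pi fun _ : Fin n => ν) := by
    refine ((integrable_const _).add (integrable_finsetSum _ fun i _ => ?_)).const_mul _
    have h2 : Integrable (fun a : ℝ => a ^ 2) ν :=
      integrable_pow_of_four (f := fun a : ℝ => a) measurable_id.aestronglyMeasurable
        hν.i4 (k := 2) (by norm_num)
    exact (measurePreserving_eval (fun _ : Fin n => ν) i).integrable_comp_of_integrable h2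
  refine lowerTail (Measure.pi fun _ : Fin n => ν) (8 * P.C ^ 2) hC
    (fun a => P.C * (1 + ∑ i, a i ^ 2)) hρ m hm (fun A => fe P β A)
    (continuous_fe P β).measurable (fun A => fe_nonneg P hβ A)
    ⟨n * Real.log 2 / β, fun A => fe_dom P hβ A⟩ (rowStab_fe P hβ hν) s hs

/-- the lower tail at scale `n` -/
theorem fe_lowerTail' (P : Pen) {β : ℝ} (hβ : 0 < β) {ν : Measure ℝ} (hν : EntryLaw ν)
    {m n : ℕ} (hm : 0 < m) (hn : 0 < n) {a s : ℝ} (hma : (m : ℝ) ≤ a * n) (hs : 0 ≤ s) :
    (Measure.pi fun _ : Fin m => Measure.pi fun _ : Fin n => ν).real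
      {A | fe P β A ≤ (∫ A, fe P β A ∂(Measure.pi fun _ : Fin m =>
        Measure.pi fun _ : Fin n => ν)) - s * n} ≤
      Real.exp (-(s ^ 2 / (16 * P.C ^ 2 * a) * n)) := by
  have hn' : (0 : ℝ) < n := by exact_mod_cast hn
  have hm' : (0 : ℝ) < m := by exact_mod_cast hm
  have ha : 0 < a := by
    by_contra hcon
    push Not at hcon
    have := mul_nonpos_of_nonpos_of_nonneg hcon hn'.le
    linarith
  have hC := P.hC
  refine (fe_lowerTail P hβ hν hm (mul_nonneg hs hn'.le)).trans (Real.exp_le_exp.2 ?_)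
  rw [neg_le_neg_iff, div_mul_eq_mul_div, div_le_div_iff₀ (by positivity) (by positivity)]
  have h1 : s ^ 2 * n * (2 * (8 * P.C ^ 2) * m) = 16 * (s ^ 2 * n * P.C ^ 2) * m := by ring
  have h2 : (s * n) ^ 2 * (16 * P.C ^ 2 * a) = 16 * (s ^ 2 * n * P.C ^ 2) * (a * n) := by ring
  rw [h1, h2]
  exact mul_le_mul_of_nonneg_left hma (by positivity)

/-- Markov's inequality for the free energy -/
theorem fe_markov (P : Pen) {β : ℝ} (hβ : 0 < β) {ν : Measure ℝ} (hν : EntryLaw ν)
    {m n : ℕ} {t : ℝ} (ht : 0 < t) :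
    (Measure.pi fun _ : Fin m => Measure.pi fun _ : Fin n => ν).real {A | t < fe P β A} ≤
      (∫ A, fe P β A ∂(Measure.pi fun _ : Fin m => Measure.pi fun _ : Fin n => ν)) / t := by
  have := hν.prob
  set mu : Measure (Fin m → Fin n → ℝ) := Measure.pi fun _ : Fin m =>
    Measure.pi fun _ : Fin n => ν
  rw [le_div_iff₀ ht, mul_comm]
  refine le_trans ?_ (mul_meas_ge_le_integral_of_nonneg (μ := mu)
    (Eventually.of_forall fun A => fe_nonneg P hβ A) (integrable_fe P hβ ν hν) t)
  refine mul_le_mul_of_nonneg_left (measureReal_mono fun A hA => ?_) ht.le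
  have hA' : t < fe P β A := hA
  exact hA'.le

/-- a mean above `t` times the probability of exceeding `t` -/
theorem fe_mean_ge (P : Pen) {β : ℝ} (hβ : 0 < β) {ν : Measure ℝ} (hν : EntryLaw ν)
    {m n : ℕ} {t : ℝ} (ht : 0 ≤ t) {p : ℝ}
    (hp : (Measure.pi fun _ : Fin m => Measure.pi fun _ : Fin n => ν).real
      {A | fe P β A ≤ t} ≤ p) :
    t * (1 - p) ≤ ∫ A, fe P β A ∂(Measure.pi fun _ : Fin m =>
      Measure.pi fun _ : Fin n => ν) := by
  have := hν.prob
  set mu : Measure (Fin m → Fin n → ℝ) := Measure.pi fun _ : Fin m =>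
    Measure.pi fun _ : Fin n => ν
  refine le_trans ?_ (mul_meas_ge_le_integral_of_nonneg (μ := mu)
    (Eventually.of_forall fun A => fe_nonneg P hβ A) (integrable_fe P hβ ν hν) t)
  refine mul_le_mul_of_nonneg_left ?_ ht
  have hms : MeasurableSet {A : Fin m → Fin n → ℝ | fe P β A ≤ t} :=
    measurableSet_le (continuous_fe P β).measurable measurable_const
  have h1 := probReal_compl_eq_one_sub (μ := mu) hms
  have h2 : {A : Fin m → Fin n → ℝ | fe P β A ≤ t}ᶜ ⊆ {A | t ≤ fe P β A} := by
    intro A hA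
    simp only [Set.mem_compl_iff, Set.mem_ofPred_eq, not_le] at hA
    exact le_of_lt hA
  have h3 := measureReal_mono (μ := mu) h2
  linarith

/-- a near solution has small energy -/
theorem energy_le_of_near {P : Pen} {κ C δ : ℝ} (hC : 0 < C)
    (h : ∀ x, P.U x ≤ C * (max (κ - x) 0) ^ 2) {m n : ℕ} {A : Fin m → Fin n → ℝ}
    {w : Fin n → Bool} (hw : ∑ k, (max (κ - yv A w k) 0) ^ 2 ≤ δ * n) :
    energy P A w ≤ C * δ * n := by
  unfold energy
  calc ∑ k, P.U (yv A w k) ≤ ∑ k, C * (max (κ - yv A w k) 0) ^ 2 :=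
        Finset.sum_le_sum fun k _ => h _
    _ = C * ∑ k, (max (κ - yv A w k) 0) ^ 2 := by rw [Finset.mul_sum]
    _ ≤ C * (δ * n) := mul_le_mul_of_nonneg_left hw hC.le
    _ = _ := by ring

/-- a configuration of small energy is a near solution -/
theorem near_of_energy_le {P : Pen} {κ C t : ℝ} (hC : 0 < C)
    (h : ∀ x, (max (κ - x) 0) ^ 2 ≤ C * P.U x) {m n : ℕ} {A : Fin m → Fin n → ℝ}
    {w : Fin n → Bool} (hw : energy P A w ≤ t * n) :
    ∑ k, (max (κ - yv A w k) 0) ^ 2 ≤ C * t * n := by
  calc ∑ k, (max (κ - yv A w k) 0) ^ 2 ≤ ∑ k, C * P.U (yv A w k) :=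
        Finset.sum_le_sum fun k _ => h _
    _ = C * energy P A w := by rw [← Finset.mul_sum]; rfl
    _ ≤ C * (t * n) := mul_le_mul_of_nonneg_left hw hC.le
    _ = _ := by ring

/-- **transfer, lower side** -/
theorem transfer_low (α : ℝ) (hα : 0 < α) (h : GLow α) : RLow α := by
  obtain ⟨κ, hκ, hG⟩ := h
  obtain ⟨P, C, hC, hU1, hU2⟩ := exists_pen_low κ hκ
  refine ⟨κ / 2, by positivity, fun δ hδ η hη => ?_⟩
  -- constants: `t = δ / C`, `s = η t / 8`
  set t := δ / C with ht
  have ht0 : 0 < t := by positivity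
  set s := η * t / 8 with hs
  have hs0 : 0 < s := by positivity
  have hlog : 0 < Real.log 2 := Real.log_pos (by norm_num)
  set β := Real.log 2 / s with hβdef
  have hβ : 0 < β := by positivity
  have hβs : Real.log 2 / β = s := by
    rw [hβdef]
    field_simp
  obtain ⟨K, hK0, hK⟩ := fe_universal P hβ
  have hPC := P.hC
  -- the constant in the exponent
  set c := s ^ 2 / (16 * P.C ^ 2 * α) with hc
  have hc0 : 0 < c := by positivity
  have hev := hG (s / C) (by positivity) (c / 2) (by positivity)
  have hbig : ∀ᶠ n : ℕ in atTop, K * α ≤ s * √(n : ℝ) := by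
    have h1 : Tendsto (fun n : ℕ => s * √(n : ℝ)) atTop atTop :=
      Tendsto.const_mul_atTop hs0 (Real.tendsto_sqrt_atTop.comp tendsto_natCast_atTop_atTop)
    exact h1.eventually_ge_atTop _
  filter_upwards [hev, hbig, eventually_gt_atTop 0] with n hn1 hn2 hn0
  have hn' : (0 : ℝ) < n := by exact_mod_cast hn0
  set m := ⌊α * n⌋₊ with hm
  have hmα : (m : ℝ) ≤ α * n := Nat.floor_le (by positivity)
  set EG := ∫ A, fe P β A ∂(Measure.pi fun _ : Fin m => Measure.pi fun _ : Fin n =>
    gaussianReal 0 1) with hEG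
  set EV := ∫ A, fe P β A ∂(Measure.pi fun _ : Fin m => Measure.pi fun _ : Fin n => rad1)
    with hEV
  have e1 : (n : ℝ) * Real.log 2 / β = s * n := by
    rw [mul_div_assoc, hβs, mul_comm]
  -- the Gaussian mean is small
  have hEGle : EG ≤ 3 * s * n := by
    by_contra hcon
    push Not at hcon
    rcases Nat.eq_zero_or_pos m with hm0 | hm0
    · -- no rows
      have h0 : EG ≤ s * n := by
        have := hm0
        have hfe : ∀ A : Fin m → Fin n → ℝ, fe P β A ≤ s * n := by
          intro A
          have h1 := fe_le P hβ A (fun _ => true)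
          have h2 : energy P A (fun _ => true) = 0 := by
            unfold energy
            have : IsEmpty (Fin m) := by rw [hm0]; infer_instance
            exact Finset.sum_of_isEmpty _
          rw [h2, e1] at h1
          linarith
        calc EG ≤ ∫ _A : Fin m → Fin n → ℝ, s * n ∂(Measure.pi fun _ : Fin m =>
              Measure.pi fun _ : Fin n => gaussianReal 0 1) :=
              integral_mono (integrable_fe P hβ _ entryLaw_gauss) (integrable_const _) hfe
          _ = s * n := by simp
      have : 0 < s * n := by positivity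
      linarith
    · have h1 := fe_lowerTail' P hβ entryLaw_gauss hm0 hn0 hmα hs0.le
      have h2 : (gau m n).real {A | Near κ (s / C) A} ≤ Real.exp (-(c * n)) := by
        refine le_trans (measureReal_mono fun A hA => ?_) h1
        obtain ⟨w, hw⟩ := hA
        have h3 := energy_le_of_near hC hU1 hw
        have h4 := fe_le P hβ A w
        rw [e1] at h4
        have h5 : C * (s / C) * n = s * n := by field_simp
        rw [h5] at h3
        show fe P β A ≤ EG - s * n
        linarith
      have h3 := hn1.trans h2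
      rw [Real.exp_le_exp] at h3
      have : 0 < c / 2 * n := by positivity
      linarith
  -- the Rademacher mean is small
  have hEVle : EV ≤ 4 * s * n := by
    have h1 := hK m n hn0
    have h2 : K * m / √(n : ℝ) ≤ s * n := by
      have hsq : 0 < √(n : ℝ) := Real.sqrt_pos.2 hn'
      rw [div_le_iff₀ hsq]
      calc K * m ≤ K * (α * n) := mul_le_mul_of_nonneg_left hmα hK0
        _ = (K * α) * n := by ring
        _ ≤ (s * √(n : ℝ)) * n := mul_le_mul_of_nonneg_right hn2 hn'.le
        _ = _ := by ring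
    have h3 := abs_le.1 (h1.trans h2)
    have h4 : EG - EV = EG - EV := rfl
    linarith [h3.1]
  -- Markov
  have hM := fe_markov P hβ entryLaw_rad (m := m) (n := n) (t := t * n) (by positivity)
  have hM2 : (rad m n).real {A | t * n < fe P β A} ≤ η := by
    refine hM.trans ?_
    rw [div_le_iff₀ (by positivity)]
    have h5 : 4 * s * n ≤ η * (t * n) := by
      rw [hs]
      have : 0 < η * t * n := by positivity
      linarith
    exact hEVle.trans h5
  have hms : MeasurableSet {A : Fin m → Fin n → ℝ | t * n < fe P β A} :=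
    measurableSet_lt measurable_const (continuous_fe P β).measurable
  have h6 := probReal_compl_eq_one_sub (μ := rad m n) hms
  have h7 : {A : Fin m → Fin n → ℝ | t * n < fe P β A}ᶜ ⊆ {A | Near (κ / 2) δ A} := by
    intro A hA
    have hA' : fe P β A ≤ t * n := not_lt.1 hA
    obtain ⟨w, hw⟩ := exists_energy_le P hβ A
    have h8 := near_of_energy_le hC hU2 (hw.trans hA')
    refine ⟨w, h8.trans (le_of_eq ?_)⟩
    rw [ht]
    field_simp
  have h8 := measureReal_mono (μ := rad m n) h7
  rw [h6] at h8
  linarith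

/-- **transfer, upper side** -/
theorem transfer_up (α : ℝ) (hα : 0 < α) (h : GUp α) : RUp α := by
  obtain ⟨κ, hκ, δ, hδ, hG⟩ := h
  obtain ⟨P, C, hC, hU1, hU2⟩ := exists_pen_up κ hκ
  intro η hη
  set t := δ / C with ht
  have ht0 : 0 < t := by positivity
  have hlog : 0 < Real.log 2 := Real.log_pos (by norm_num)
  set β := Real.log 2 / (t / 8) with hβdef
  have hβ : 0 < β := by positivity
  have hβs : Real.log 2 / β = t / 8 := by
    rw [hβdef]
    field_simp
  obtain ⟨K, hK0, hK⟩ := fe_universal P hβ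
  have hPC := P.hC
  set c := (t / 8) ^ 2 / (16 * P.C ^ 2 * (α + 1)) with hc
  have hc0 : 0 < c := by positivity
  have hbig : ∀ᶠ n : ℕ in atTop, K * (α + 1) ≤ t / 4 * √(n : ℝ) := by
    have h1 : Tendsto (fun n : ℕ => t / 4 * √(n : ℝ)) atTop atTop :=
      Tendsto.const_mul_atTop (by positivity)
        (Real.tendsto_sqrt_atTop.comp tendsto_natCast_atTop_atTop)
    exact h1.eventually_ge_atTop _
  have hexp : ∀ᶠ n : ℕ in atTop, Real.exp (-(c * n)) ≤ η := by
    have h1 : Tendsto (fun n : ℕ => c * (n : ℝ)) atTop atTop :=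
      Tendsto.const_mul_atTop hc0 tendsto_natCast_atTop_atTop
    have h2 : Tendsto (fun n : ℕ => Real.exp (-(c * n))) atTop (𝓝 0) :=
      Real.tendsto_exp_neg_atTop_nhds_zero.comp h1
    exact (h2.eventually (gt_mem_nhds hη)).mono fun n hn => le_of_lt hn
  filter_upwards [hG, hbig, hexp, eventually_gt_atTop 0] with n hn1 hn2 hn3 hn0
  have hn' : (0 : ℝ) < n := by exact_mod_cast hn0
  have hn1' : (1 : ℝ) ≤ n := by exact_mod_cast hn0
  set m := ⌈α * n⌉₊ with hm
  have hmα : (m : ℝ) ≤ (α + 1) * n := by
    have := (Nat.ceil_lt_add_one (a := α * n) (by positivity)).le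
    linarith
  have hm0 : 0 < m := Nat.ceil_pos.2 (by positivity)
  set EG := ∫ A, fe P β A ∂(Measure.pi fun _ : Fin m => Measure.pi fun _ : Fin n =>
    gaussianReal 0 1) with hEG
  set EV := ∫ A, fe P β A ∂(Measure.pi fun _ : Fin m => Measure.pi fun _ : Fin n => rad1)
    with hEV
  have e1 : (n : ℝ) * Real.log 2 / β = t / 8 * n := by
    rw [mul_div_assoc, hβs, mul_comm]
  -- the Gaussian mean is large
  have hEGge : t * n / 2 ≤ EG := by
    have h1 : (gau m n).real {A | fe P β A ≤ t * n} ≤ 1 / 2 := by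
      refine le_trans (measureReal_mono fun A hA => ?_) hn1
      have hA' : fe P β A ≤ t * n := hA
      obtain ⟨w, hw⟩ := exists_energy_le P hβ A
      have h8 := near_of_energy_le hC hU2 (hw.trans hA')
      refine ⟨w, h8.trans (le_of_eq ?_)⟩
      rw [ht]
      field_simp
    have h2 := fe_mean_ge P hβ entryLaw_gauss (m := m) (n := n) (t := t * n) (by positivity) h1
    have h3 : t * n * (1 - 1 / 2) = t * n / 2 := by ring
    linarith
  -- the Rademacher mean is large
  have hEVge : t * n / 4 ≤ EV := by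
    have h1 := hK m n hn0
    have h2 : K * m / √(n : ℝ) ≤ t / 4 * n := by
      have hsq : 0 < √(n : ℝ) := Real.sqrt_pos.2 hn'
      rw [div_le_iff₀ hsq]
      calc K * m ≤ K * ((α + 1) * n) := mul_le_mul_of_nonneg_left hmα hK0
        _ = (K * (α + 1)) * n := by ring
        _ ≤ (t / 4 * √(n : ℝ)) * n := mul_le_mul_of_nonneg_right hn2 hn'.le
        _ = _ := by ring
    have h3 := abs_le.1 (h1.trans h2)
    have h4 : t / 4 * n = t * n / 4 := by ring
    linarith [h3.2]
  have h1 := fe_lowerTail' P hβ entryLaw_rad hm0 hn0 hmα (by positivity : (0 : ℝ) ≤ t / 8)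
  refine le_trans (measureReal_mono fun A hA => ?_) (h1.trans hn3)
  obtain ⟨w, hw⟩ := hA
  have hz : ∀ k, 0 ≤ yv A w k := by
    intro k
    have h2 : ∑ k, (max (0 - yv A w k) 0) ^ 2 = 0 :=
      le_antisymm (by simpa using hw) (Finset.sum_nonneg fun _ _ => sq_nonneg _)
    have h3 := (Finset.sum_eq_zero_iff_of_nonneg (fun k _ => sq_nonneg _)).1 h2 k
      (Finset.mem_univ k)
    have h4 : max (0 - yv A w k) 0 = 0 := by
      exact pow_eq_zero_iff (two_ne_zero) |>.1 h3
    have h5 := le_max_left (0 - yv A w k) 0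
    linarith
  have h6 : energy P A w = 0 := Finset.sum_eq_zero fun k _ => hU1 _ (hz k)
  have h7 := fe_le P hβ A w
  rw [h6, e1] at h7
  show fe P β A ≤ EV - t / 8 * n
  have h8 : t / 8 * n = t * n / 8 := by ring
  rw [h8] at h7 ⊢
  linarith

end Pool.Agent.IP49.RC
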