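import Pool.Agent.IP49.Defs
import Pool.Agent.IP49.RTrans
import Pool.Agent.IPR.Repair

/-!
IP49, part R (owner helper44): from the Gaussian model to the Rademacher covering problem.
Notes 1598, 1599.
-/

set_option autoImplicit false
open MeasureTheory ProbabilityTheory Filter Topology

namespace Pool.Agent.IP49

open Pool.Agent.PC55 (Pb Pb_le_one Pb_nonneg card_eq_Pb)

/-- choice of the number of fresh columns -/
lemma exists_X {κ a η B : ℝ} (hκ : 0 < κ) (ha : 0 < a) (hη : 0 < η) :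
    ∃ X : ℝ, B ≤ X ∧ 1 ≤ X ∧ Real.exp 7 * a * X ^ 2 * Real.exp (-(κ * X / 2)) ≤ η := by
  have h1 := Real.tendsto_pow_mul_exp_neg_atTop_nhds_zero 2
  have h2 : Tendsto (fun X : ℝ => κ / 2 * X) atTop atTop :=
    tendsto_id.const_mul_atTop (by positivity)
  have h3 := h1.comp h2
  have h4 : Tendsto (fun X : ℝ => Real.exp 7 * a * (2 / κ) ^ 2 *
      ((κ / 2 * X) ^ 2 * Real.exp (-(κ / 2 * X)))) atTop (𝓝 0) := by
    have := h3.const_mul (Real.exp 7 * a * (2 / κ) ^ 2)
    rw [mul_zero] at this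
    exact this
  have h5 := h4.eventually (ge_mem_nhds hη)
  obtain ⟨X, hX1, hX2, hX3⟩ := (h5.and ((eventually_ge_atTop B).and (eventually_ge_atTop 1))).exists
  refine ⟨X, hX2, hX3, ?_⟩
  have e : Real.exp 7 * a * X ^ 2 * Real.exp (-(κ * X / 2))
      = Real.exp 7 * a * (2 / κ) ^ 2 * ((κ / 2 * X) ^ 2 * Real.exp (-(κ / 2 * X))) := by
    have e1 : -(κ * X / 2) = -(κ / 2 * X) := by ring
    rw [e1]
    field_simp
  rw [e]
  exact hX1

/-- **repair**: Rademacher near solutions below `tc` give exact solutions below `tc` -/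
theorem lower_of_RLow {α α' : ℝ} (hα : 0 < α) (hαα : α < α') (h : RC.RLow α') {η : ℝ}
    (hη : 0 < η) :
    ∀ᶠ n : ℕ in atTop, ∀ m : ℕ, (m : ℝ) ≤ α * n → Pb n (fun _ : Fin m => 0) ≤ η := by
  have hα' : 0 < α' := hα.trans hαα
  obtain ⟨κ, hκ, hR⟩ := h
  obtain ⟨X, hXB, hX1, hX⟩ := exists_X (κ := κ) (a := α') (η := η / 2)
    (B := 8 + 4 * α' / (α' - α)) hκ hα' (by positivity)
  have hgap : 0 < α' - α := by linarith
  have hX0 : 0 < X := by linarith
  set δ : ℝ := 1 / X ^ 2 with hδ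
  have hδ0 : 0 < δ := by positivity
  have hXX : X ≤ X ^ 2 := by nlinarith
  have hfrac : 0 ≤ 4 * α' / (α' - α) := by positivity
  have hδ8 : δ ≤ 1 / 8 := by
    rw [hδ, div_le_div_iff₀ (by positivity) (by norm_num)]
    linarith
  have hδg : δ * (4 * α') ≤ α' - α := by
    have h1 : 4 * α' / (α' - α) ≤ X ^ 2 := by linarith
    rw [div_le_iff₀ hgap] at h1
    rw [hδ, div_mul_eq_mul_div, one_mul, div_le_iff₀ (by positivity)]
    linarith
  obtain ⟨n1, hn1⟩ := eventually_atTop.1 (hR ((δ / 9) ^ 2) (by positivity) (η / 2) (by positivity))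
  have hlarge : ∀ᶠ N : ℕ in atTop, (2 * n1 : ℝ) + 8 + 2 / δ + 4 * α' / (α' - α) ≤ (N : ℝ) :=
    tendsto_natCast_atTop_atTop.eventually (eventually_ge_atTop _)
  filter_upwards [hlarge] with N hN m hm
  have hn1nn : (0 : ℝ) ≤ n1 := Nat.cast_nonneg _
  have h2δ : 0 < 2 / δ := by positivity
  have hN8 : (8 : ℝ) ≤ N := by linarith
  have hNδ : 2 ≤ δ * N := by
    have : 2 / δ ≤ N := by linarith
    rw [div_le_iff₀ hδ0] at this
    linarith
  have hNg : 4 * α' ≤ (α' - α) * N := by
    have : 4 * α' / (α' - α) ≤ N := by linarith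
    rw [div_le_iff₀ hgap] at this
    linarith
  set p := ⌈δ * N⌉₊ with hp
  have hp1 : δ * N ≤ p := Nat.le_ceil _
  have hp2 : (p : ℝ) < δ * N + 1 := Nat.ceil_lt_add_one (by positivity)
  have hp0 : (0 : ℝ) < p := by linarith
  have hp1' : 1 ≤ p := by
    have : 0 < p := by exact_mod_cast hp0
    omega
  have hpp : 2 * (p : ℝ) ≤ N / 2 := by
    have : δ * N ≤ 1 / 8 * N := mul_le_mul_of_nonneg_right hδ8 (by positivity)
    linarith
  have hpN : p + p ≤ N := by
    have : ((p + p : ℕ) : ℝ) ≤ N := by push_cast; linarith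
    exact_mod_cast this
  obtain ⟨n0, hn0⟩ := Nat.exists_eq_add_of_le' hpN
  have hn0r : (n0 : ℝ) = N - 2 * p := by
    rw [hn0]; push_cast; ring
  have hn0half : (N : ℝ) / 2 ≤ n0 := by linarith
  have hn0n1 : n1 ≤ n0 := by
    have : (n1 : ℝ) ≤ n0 := by linarith
    exact_mod_cast this
  have hn0N : (n0 : ℝ) ≤ N := by linarith
  set m0 := ⌊α' * n0⌋₊ with hm0
  have hm0le : (m0 : ℝ) ≤ α' * n0 := Nat.floor_le (by positivity)
  have hmm0 : m ≤ m0 := by
    apply Nat.le_floor
    refine hm.trans ?_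
    rw [hn0r]
    have h1 : α' * (2 * p) ≤ α' * (2 * (δ * N) + 2) :=
      mul_le_mul_of_nonneg_left (by linarith) hα'.le
    have h2 : δ * (4 * α') * N ≤ (α' - α) * N := mul_le_mul_of_nonneg_right hδg (by positivity)
    linarith
  refine (IPR.Pb_mono_m hmm0 N).trans ?_
  rw [hn0]
  refine (IPR.repair_prob (m := m0) n0 p hp1' κ ((δ / 9) ^ 2) ?_).trans ?_
  · have h1 : δ * n0 ≤ p := (mul_le_mul_of_nonneg_left hn0N hδ0.le).trans hp1
    have h2 : (δ / 9) ^ 2 * n0 * n0 = (δ * n0 / 9) ^ 2 := by ring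
    rw [h2]
    apply pow_le_pow_left₀ (by positivity)
    linarith
  · have h1 := hn1 n0 hn0n1
    rw [← hm0] at h1
    have h2 : Real.exp 7 * m0 / p * Real.exp (-(κ * √(n0 : ℝ) / √((p : ℝ) + 1))) ≤ η / 2 := by
      refine le_trans ?_ hX
      have h3 : (m0 : ℝ) / p ≤ α' * X ^ 2 := by
        rw [div_le_iff₀ hp0]
        have h4 : X ^ 2 * p ≥ N := by
          have : X ^ 2 * (δ * N) = N := by rw [hδ]; field_simp
          have h5 := mul_le_mul_of_nonneg_left hp1 (show 0 ≤ X ^ 2 by positivity)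
          linarith
        have h6 : α' * (n0 : ℝ) ≤ α' * (X ^ 2 * p) :=
          mul_le_mul_of_nonneg_left (by linarith) hα'.le
        linarith
      have h4 : κ * X / 2 ≤ κ * √(n0 : ℝ) / √((p : ℝ) + 1) := by
        have hs : 0 < √((p : ℝ) + 1) := Real.sqrt_pos.2 (by positivity)
        rw [le_div_iff₀ hs]
        have h5 : X / 2 * √((p : ℝ) + 1) ≤ √(n0 : ℝ) := by
          apply Real.le_sqrt_of_sq_le
          rw [mul_pow, Real.sq_sqrt (by positivity)]
          have h6 : (p : ℝ) + 1 ≤ 2 * (δ * N) := by linarith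
          have h7 : (X / 2) ^ 2 * ((p : ℝ) + 1) ≤ (X / 2) ^ 2 * (2 * (δ * N)) :=
            mul_le_mul_of_nonneg_left h6 (by positivity)
          have h8 : (X / 2) ^ 2 * (2 * (δ * N)) = N / 2 := by
            rw [hδ]; field_simp
          linarith
        have := mul_le_mul_of_nonneg_left h5 hκ.le
        linarith
      have e1 : Real.exp 7 * m0 / p = Real.exp 7 * ((m0 : ℝ) / p) := by ring
      rw [e1]
      calc Real.exp 7 * ((m0 : ℝ) / p) * Real.exp (-(κ * √(n0 : ℝ) / √((p : ℝ) + 1)))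
          ≤ Real.exp 7 * (α' * X ^ 2) * Real.exp (-(κ * X / 2)) := by
            apply mul_le_mul (mul_le_mul_of_nonneg_left h3 (Real.exp_pos _).le)
              (Real.exp_le_exp.2 (by linarith)) (Real.exp_pos _).le (by positivity)
        _ = _ := by ring
    linarith

/-- exact solutions as `Near 0 0` -/
lemma near_zero_iff {m n : ℕ} (V : Fin m → Fin n → Bool) :
    RC.Near 0 0 (fun k i => Pool.Agent.PC55.sg (V k i)) ↔
      ∃ w : Fin n → Bool, ∀ k : Fin m,
        0 ≤ ∑ i, (if V k i then (1 : ℤ) else -1) * (if w i then (1 : ℤ) else -1) := by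
  have hcast : ∀ (w : Fin n → Bool) (k : Fin m),
      ((∑ i, (if V k i then (1 : ℤ) else -1) * (if w i then (1 : ℤ) else -1) : ℤ) : ℝ)
        = ∑ i, Pool.Agent.PC55.sg (V k i) * Pool.Agent.PC55.sg (w i) := by
    intro w k
    push_cast
    apply Finset.sum_congr rfl
    intro i _
    unfold Pool.Agent.PC55.sg
    rfl
  have hy : ∀ (w : Fin n → Bool) (k : Fin m),
      (0 ≤ RC.yv (fun k i => Pool.Agent.PC55.sg (V k i)) w k) ↔
        0 ≤ ∑ i, (if V k i then (1 : ℤ) else -1) * (if w i then (1 : ℤ) else -1) := by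
    intro w k
    rcases Nat.eq_zero_or_pos n with h0 | hpos
    · subst h0
      simp [RC.yv]
    have hs0 : 0 < √(n : ℝ) := Real.sqrt_pos.2 (by exact_mod_cast hpos)
    unfold RC.yv
    rw [← hcast w k, le_div_iff₀ hs0, zero_mul]
    exact Int.cast_nonneg_iff
  unfold RC.Near
  constructor
  · rintro ⟨w, hw⟩
    refine ⟨w, fun k => ?_⟩
    rw [← hy]
    rw [zero_mul] at hw
    have h1 := (Finset.sum_eq_zero_iff_of_nonneg (fun k _ => sq_nonneg
      (max (0 - RC.yv (fun k i => Pool.Agent.PC55.sg (V k i)) w k) 0))).1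
      (le_antisymm hw (Finset.sum_nonneg fun k _ => sq_nonneg _)) k (Finset.mem_univ k)
    have h2 : max (0 - RC.yv (fun k i => Pool.Agent.PC55.sg (V k i)) w k) 0 = 0 := by
      simpa using h1
    have h3 := le_max_left (0 - RC.yv (fun k i => Pool.Agent.PC55.sg (V k i)) w k) 0
    linarith
  · rintro ⟨w, hw⟩
    refine ⟨w, ?_⟩
    rw [zero_mul]
    apply le_of_eq
    apply Finset.sum_eq_zero
    intro k _
    have h1 := (hy w k).2 (hw k)
    rw [max_eq_right (by linarith)]
    ring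

theorem upper_of_RUp {α α' : ℝ} (hαα : α' < α) (h : RC.RUp α') {η : ℝ} (hη : 0 < η) :
    ∀ᶠ n : ℕ in atTop, ∀ m : ℕ, α * n ≤ (m : ℝ) → 1 - η ≤ Pb n (fun _ : Fin m => 0) := by
  classical
  have hgap : 0 < α - α' := by linarith
  have h1 : ∀ᶠ n : ℕ in atTop, 1 / (α - α') ≤ (n : ℝ) :=
    tendsto_natCast_atTop_atTop.eventually (eventually_ge_atTop _)
  filter_upwards [h η hη, h1] with n hn h1 m hm
  rw [div_le_iff₀ hgap] at h1
  set m0 := ⌈α' * n⌉₊ with hm0
  have hmm : m0 ≤ m := by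
    apply Nat.ceil_le.2
    linarith
  refine le_trans ?_ (IPR.Pb_mono_m hmm n)
  rw [← card_eq_Pb]
  rw [IPR.rad_real m0 n _ (RC.measurableSet_near 0 0)] at hn
  have hsum : ((Finset.univ.filter (fun V : Fin m0 → Fin n → Bool =>
      (fun k i => Pool.Agent.PC55.sg (V k i)) ∈ {A : Fin m0 → Fin n → ℝ | RC.Near 0 0 A})).card : ℝ)
      + ((Finset.univ.filter (fun V : Fin m0 → Fin n → Bool =>
        ∀ w : Fin n → Bool, ∃ k : Fin m0,
          ∑ i, (if V k i then (1 : ℤ) else -1) * (if w i then (1 : ℤ) else -1) < 0)).card : ℝ)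
      = 2 ^ (n * m0) := by
    have e1 : (Finset.univ.filter (fun V : Fin m0 → Fin n → Bool =>
        (fun k i => Pool.Agent.PC55.sg (V k i)) ∈ {A : Fin m0 → Fin n → ℝ | RC.Near 0 0 A}))
        = Finset.univ.filter (fun V : Fin m0 → Fin n → Bool =>
          ¬ ∀ w : Fin n → Bool, ∃ k : Fin m0,
          ∑ i, (if V k i then (1 : ℤ) else -1) * (if w i then (1 : ℤ) else -1) < 0) := by
      apply Finset.filter_congr
      intro V _
      rw [Set.mem_ofPred_eq, near_zero_iff]
      push Not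
      exact Iff.rfl
    rw [e1, add_comm]
    have e2 := Finset.card_filter_add_card_filter_not (s := (Finset.univ : Finset (Fin m0 → Fin n → Bool)))
      (fun V : Fin m0 → Fin n → Bool =>
        ∀ w : Fin n → Bool, ∃ k : Fin m0,
          ∑ i, (if V k i then (1 : ℤ) else -1) * (if w i then (1 : ℤ) else -1) < 0)
    have e3 : (Finset.univ : Finset (Fin m0 → Fin n → Bool)).card = 2 ^ (n * m0) := by
      simp [Finset.card_univ, ← pow_mul]
    rw [e3] at e2
    exact_mod_cast e2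
  have hpos : (0 : ℝ) < 2 ^ (n * m0) := by positivity
  rw [div_le_iff₀ hpos] at hn
  rw [le_div_iff₀ hpos]
  linarith

lemma near_iff {m n : ℕ} (κ δ : ℝ) (A : Fin m → Fin n → ℝ) :
    RC.Near κ δ A ↔ ∃ w, Near κ δ A w := by
  unfold RC.Near Near
  have : ∀ (w : Fin n → Bool) (k : Fin m), RC.yv A w k = yv A w k := fun _ _ => rfl
  simp only [this, max_comm]

lemma gau_eq (m n : ℕ) : RC.gau m n = GM m n := rfl

theorem RLow_of_GLow {tc : ℝ} (hL : GLow tc) {α : ℝ} (h0 : 0 < α) (h1 : α < tc) : RC.RLow α := by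
  apply RC.transfer_low α h0
  obtain ⟨κ, hκ, h⟩ := hL α h1
  refine ⟨κ, hκ, fun δ hδ η hη => ?_⟩
  filter_upwards [h δ hδ η hη] with n hn
  have h2 := hn ⌊α * n⌋₊ (Nat.floor_le (by positivity))
  rw [gau_eq]
  simp only [near_iff]
  have e : -(η * (n : ℝ)) = -η * n := by ring
  rw [e]
  exact h2

theorem RUp_of_GUp {tc : ℝ} (hU : GUp tc) {α : ℝ} (h0 : 0 < α) (h1 : tc < α) : RC.RUp α := by
  apply RC.transfer_up α h0
  obtain ⟨κ, hκ, δ, hδ, h⟩ := hU α h1
  refine ⟨κ, hκ, δ, hδ, ?_⟩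
  filter_upwards [h (1 / 2) (by norm_num)] with n hn
  have h2 := hn ⌈α * n⌉₊ (Nat.le_ceil _)
  rw [gau_eq]
  simp only [near_iff]
  exact h2

lemma GM_prob (M N : ℕ) : IsProbabilityMeasure (GM M N) := by
  unfold GM; infer_instance

lemma tc_nonneg {tc : ℝ} (hU : GUp tc) : 0 ≤ tc := by
  by_contra hneg
  push Not at hneg
  obtain ⟨κ, hκ, δ, hδ, h⟩ := hU (tc / 2) (by linarith)
  obtain ⟨n, hn⟩ := (h (1 / 2) (by norm_num)).exists
  have h1 := hn 0 (by
    push_cast
    have : (0 : ℝ) ≤ n := Nat.cast_nonneg n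
    nlinarith)
  have e : {A : Fin 0 → Fin n → ℝ | ∃ w, Near κ δ A w} = Set.univ := by
    ext A
    simp only [Set.mem_ofPred_eq, Set.mem_univ, iff_true]
    refine ⟨fun _ => true, ?_⟩
    unfold Near
    simp only [Finset.univ_eq_empty, Finset.sum_empty]
    positivity
  have := GM_prob 0 n
  rw [e, probReal_univ] at h1
  norm_num at h1

theorem frozen_of_gauss {tc : ℝ} (hL : GLow tc) (hU : GUp tc) :
    ∀ (m n : ℕ → ℕ) (t : ℝ),
      Tendsto m atTop atTop → Tendsto n atTop atTop →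
      Tendsto (fun j => (m j : ℝ) / (n j : ℝ)) atTop (𝓝 t) →
      (tc < t → Tendsto (fun j =>
          ((Finset.univ.filter (fun V : Fin (m j) → Fin (n j) → Bool =>
              ∀ w : Fin (n j) → Bool, ∃ k : Fin (m j),
                ∑ i, (if V k i then (1 : ℤ) else -1) * (if w i then (1 : ℤ) else -1) < 0)).card : ℝ)
            / (2 : ℝ) ^ (n j * m j)) atTop (𝓝 1)) ∧
      (t < tc → Tendsto (fun j =>
          ((Finset.univ.filter (fun V : Fin (m j) → Fin (n j) → Bool =>
              ∀ w : Fin (n j) → Bool, ∃ k : Fin (m j),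
                ∑ i, (if V k i then (1 : ℤ) else -1) * (if w i then (1 : ℤ) else -1) < 0)).card : ℝ)
            / (2 : ℝ) ^ (n j * m j)) atTop (𝓝 0)) := by
  intro m n t _ hn ht
  have hnpos : ∀ᶠ j in atTop, (0 : ℝ) < n j := by
    filter_upwards [hn.eventually (eventually_ge_atTop 1)] with j hj
    exact_mod_cast hj
  have ht0 : 0 ≤ t := ge_of_tendsto' ht fun j => by positivity
  simp only [card_eq_Pb]
  constructor
  · intro htc
    have h0 := tc_nonneg hU
    -- two ratios between `tc` and `t`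
    have hU' := RUp_of_GUp hU (α := (2 * tc + t) / 3) (by linarith) (by linarith)
    have hev : ∀ᶠ j in atTop, (tc + 2 * t) / 3 * n j ≤ m j := by
      filter_upwards [hnpos, ht.eventually (lt_mem_nhds (show (tc + 2 * t) / 3 < t by linarith))]
        with j h1 h2
      rw [lt_div_iff₀ h1] at h2
      exact h2.le
    refine tendsto_order.2 ⟨fun a ha => ?_, fun b hb => ?_⟩
    · have h1 := upper_of_RUp (α := (tc + 2 * t) / 3) (by linarith) hU'
        (η := (1 - a) / 2) (by linarith)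
      filter_upwards [hn.eventually h1, hev] with j h2 h3
      have := h2 (m j) h3
      linarith
    · filter_upwards with j
      exact lt_of_le_of_lt (Pb_le_one _ _) hb
  · intro htc
    have hL' := RLow_of_GLow hL (α := (t + 2 * tc) / 3) (by linarith) (by linarith)
    have hev : ∀ᶠ j in atTop, (m j : ℝ) ≤ (2 * t + tc) / 3 * n j := by
      filter_upwards [hnpos, ht.eventually (gt_mem_nhds (show t < (2 * t + tc) / 3 by linarith))]
        with j h1 h2
      rw [div_lt_iff₀ h1] at h2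
      exact h2.le
    refine tendsto_order.2 ⟨fun a ha => ?_, fun b hb => ?_⟩
    · filter_upwards with j
      exact lt_of_lt_of_le ha (Pb_nonneg _ _)
    · have h1 := lower_of_RLow (α := (2 * t + tc) / 3) (by linarith) (by linarith) hL'
        (η := b / 2) (by linarith)
      filter_upwards [hn.eventually h1, hev] with j h2 h3
      have := h2 (m j) h3
      linarith

end Pool.Agent.IP49
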