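import Pool.Agent.IP49.RRow
import Pool.Agent.ZR.E0

/-!
IP49, part R2: the two entry laws satisfy the moment assumptions; curried and uncurried matrices.
-/

set_option autoImplicit false
open Finset Real Filter Topology MeasureTheory ProbabilityTheory

namespace Pool.Agent.IP49.RC

lemma gauss_integrable_pow (k : ℕ) : Integrable (fun x : ℝ => x ^ k) (gaussianReal 0 1) := by
  have h := memLp_id_gaussianReal (μ := 0) (v := 1) (k : NNReal)
  rcases Nat.eq_zero_or_pos k with rfl | hk
  · simp
  have h2 := h.integrable_norm_rpow (by simp; omega) (by simp)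
  have h3 : Integrable (fun x : ℝ => |x| ^ k) (gaussianReal 0 1) := by
    refine h2.congr (Eventually.of_forall fun x => ?_)
    simp
  apply h3.mono' (by fun_prop)
  exact Eventually.of_forall fun x => by rw [norm_pow, Real.norm_eq_abs]

lemma gauss_m1 : ∫ x, x ∂(gaussianReal 0 1) = 0 := integral_id_gaussianReal

lemma gauss_m2 : ∫ x, x ^ 2 ∂(gaussianReal 0 1) = 1 := by
  have h := Pool.Agent.ZR.gauss_ibp (f := fun x : ℝ => x) (f' := fun _ => 1)
    (fun x => hasDerivAt_id x) (by simpa [sq] using gauss_integrable_pow 2) (integrable_const _)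
  simp only [smul_eq_mul] at h
  calc ∫ x, x ^ 2 ∂(gaussianReal 0 1) = ∫ x, x * x ∂(gaussianReal 0 1) := by simp only [sq]
    _ = 1 := by rw [h]; simp

lemma gauss_m4 : ∫ x, x ^ 4 ∂(gaussianReal 0 1) = 3 := by
  have h := Pool.Agent.ZR.gauss_ibp (f := fun x : ℝ => x ^ 3) (f' := fun x => 3 * x ^ 2)
    (fun x => by simpa using hasDerivAt_pow 3 x)
    (by
      have := gauss_integrable_pow 4
      refine this.congr (Eventually.of_forall fun x => ?_)
      simp only [smul_eq_mul]; ring)
    ((gauss_integrable_pow 2).const_mul 3)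
  simp only [smul_eq_mul] at h
  calc ∫ x, x ^ 4 ∂(gaussianReal 0 1) = ∫ x, x * x ^ 3 ∂(gaussianReal 0 1) := by
        congr 1; funext x; ring
    _ = 3 := by rw [h, integral_const_mul, gauss_m2]; norm_num

lemma entryLaw_gauss : EntryLaw (gaussianReal 0 1) where
  prob := inferInstance
  i4 := gauss_integrable_pow 4
  m1 := gauss_m1
  m2 := gauss_m2
  m4 := gauss_m4.le

lemma rad1_integrable (f : ℝ → ℝ) : Integrable f rad1 := by
  unfold rad1
  apply Integrable.add_measure
  · exact (integrable_dirac (by simp)).smul_measure (by simp)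
  · exact (integrable_dirac (by simp)).smul_measure (by simp)

lemma rad1_integral (f : ℝ → ℝ) : ∫ x, f x ∂rad1 = (f 1 + f (-1)) / 2 := by
  have h1 : Integrable f ((1 / 2 : ENNReal) • Measure.dirac 1) :=
    (integrable_dirac (by simp)).smul_measure (by simp)
  have h2 : Integrable f ((1 / 2 : ENNReal) • Measure.dirac (-1)) :=
    (integrable_dirac (by simp)).smul_measure (by simp)
  unfold rad1
  rw [integral_add_measure h1 h2, integral_smul_measure, integral_smul_measure,
    integral_dirac, integral_dirac]
  simp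
  ring

lemma entryLaw_rad : EntryLaw rad1 where
  prob := inferInstance
  i4 := rad1_integrable _
  m1 := by rw [rad1_integral]; norm_num
  m2 := by rw [rad1_integral (fun x => x ^ 2)]; norm_num
  m4 := by rw [rad1_integral (fun x => x ^ 4)]; norm_num

/-- the matrix law as a product over pairs -/
theorem uncurry_law {m n : ℕ} (ν : Measure ℝ) [IsProbabilityMeasure ν] :
    (Measure.pi fun _ : Fin m => Measure.pi fun _ : Fin n => ν).map
      (fun A (p : Fin m × Fin n) => A p.1 p.2) = Measure.pi fun _ : Fin m × Fin n => ν := by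
  have hm : Measurable (fun (A : Fin m → Fin n → ℝ) (p : Fin m × Fin n) => A p.1 p.2) := by
    fun_prop
  symm
  apply Measure.pi_eq
  intro s hs
  rw [Measure.map_apply hm (MeasurableSet.univ_pi hs)]
  have : (fun (A : Fin m → Fin n → ℝ) (p : Fin m × Fin n) => A p.1 p.2) ⁻¹' (Set.univ.pi s)
      = Set.univ.pi fun k => Set.univ.pi fun i => s (k, i) := by
    ext A
    simp [Set.mem_pi]
  rw [this, Measure.pi_pi]
  simp only [Measure.pi_pi]
  rw [Fintype.prod_prod_type]

theorem integral_uncurry {m n : ℕ} (ν : Measure ℝ) [IsProbabilityMeasure ν]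
    (F : (Fin m → Fin n → ℝ) → ℝ) (hF : Continuous F) :
    ∫ x, F (fun k i => x (k, i)) ∂(Measure.pi fun _ : Fin m × Fin n => ν)
      = ∫ A, F A ∂(Measure.pi fun _ : Fin m => Measure.pi fun _ : Fin n => ν) := by
  have hm : Measurable (fun (A : Fin m → Fin n → ℝ) (p : Fin m × Fin n) => A p.1 p.2) := by
    fun_prop
  rw [← uncurry_law, integral_map]
  · exact hm.aemeasurable
  · have : Continuous fun x : Fin m × Fin n → ℝ => F (fun k i => x (k, i)) := by
      apply hF.comp; fun_prop
    exact this.aestronglyMeasurable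

end Pool.Agent.IP49.RC
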