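import Mathlib

set_option autoImplicit false
open Finset Real

namespace Pool.Agent.IP49

section
variable {W : Type*} [Fintype W]

/-- soft minimum of the energies `e` -/
noncomputable def smin (β : ℝ) (e : W → ℝ) : ℝ :=
  -(1 / β) * Real.log ((∑ w, Real.exp (-(β * e w))) / Fintype.card W)

variable [Nonempty W]

lemma zpos (β : ℝ) (e : W → ℝ) : 0 < (∑ w, Real.exp (-(β * e w))) / (Fintype.card W : ℝ) := by
  apply div_pos (Finset.sum_pos (fun w _ => Real.exp_pos _) Finset.univ_nonempty)
  exact_mod_cast Fintype.card_pos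

lemma smin_mono {β : ℝ} (hβ : 0 < β) {e e' : W → ℝ} (h : ∀ w, e w ≤ e' w) :
    smin β e ≤ smin β e' := by
  unfold smin
  have hc : (0 : ℝ) < Fintype.card W := by exact_mod_cast Fintype.card_pos
  have h1 : (∑ w, Real.exp (-(β * e' w))) / (Fintype.card W : ℝ)
      ≤ (∑ w, Real.exp (-(β * e w))) / (Fintype.card W : ℝ) := by
    apply div_le_div_of_nonneg_right _ hc.le
    apply Finset.sum_le_sum
    intro w _
    apply Real.exp_le_exp.2
    have := mul_le_mul_of_nonneg_left (h w) hβ.le
    linarith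
  have h2 := Real.log_le_log (zpos β e') h1
  have h3 : 0 < 1 / β := one_div_pos.2 hβ
  nlinarith

lemma smin_const {β : ℝ} (hβ : 0 < β) (c : ℝ) : smin β (fun _ : W => c) = c := by
  unfold smin
  have hc : (0 : ℝ) < Fintype.card W := by exact_mod_cast Fintype.card_pos
  rw [Finset.sum_const, Finset.card_univ, nsmul_eq_mul, mul_div_assoc,
    mul_div_cancel₀ _ hc.ne', Real.log_exp]
  field_simp

lemma le_smin {β : ℝ} (hβ : 0 < β) {e : W → ℝ} {c : ℝ} (h : ∀ w, c ≤ e w) : c ≤ smin β e := by
  rw [← smin_const (W := W) hβ c]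
  exact smin_mono hβ h

lemma smin_le {β : ℝ} (hβ : 0 < β) (e : W → ℝ) (w : W) :
    smin β e ≤ e w + Real.log (Fintype.card W) / β := by
  unfold smin
  have hc : (0 : ℝ) < Fintype.card W := by exact_mod_cast Fintype.card_pos
  have h1 : Real.exp (-(β * e w)) ≤ ∑ w, Real.exp (-(β * e w)) :=
    Finset.single_le_sum (f := fun w => Real.exp (-(β * e w)))
      (fun w _ => (Real.exp_pos _).le) (Finset.mem_univ w)
  have h2 := Real.log_le_log (Real.exp_pos _) h1
  rw [Real.log_exp] at h2
  rw [Real.log_div (Finset.sum_pos (fun w _ => Real.exp_pos _) Finset.univ_nonempty).ne' hc.ne']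
  have h3 : 0 < 1 / β := one_div_pos.2 hβ
  have h4 : -(1 / β) * (-(β * e w)) = e w := by field_simp
  have h5 : Real.log (Fintype.card W) / β = 1 / β * Real.log (Fintype.card W) := by ring
  rw [h5]
  nlinarith

/-- Jensen: adding a perturbation `u` raises the soft minimum by at most the Gibbs mean of `u` -/
lemma smin_add_le {β : ℝ} (hβ : 0 < β) (e u : W → ℝ) :
    smin β (fun w => e w + u w) - smin β e
      ≤ (∑ w, Real.exp (-(β * e w)) * u w) / ∑ w, Real.exp (-(β * e w)) := by
  have hc : (0 : ℝ) < Fintype.card W := by exact_mod_cast Fintype.card_pos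
  set Z := ∑ w, Real.exp (-(β * e w)) with hZ
  have hZp : 0 < Z := Finset.sum_pos (fun w _ => Real.exp_pos _) Finset.univ_nonempty
  set Z' := ∑ w, Real.exp (-(β * (e w + u w))) with hZ'
  have hZp' : 0 < Z' := Finset.sum_pos (fun w _ => Real.exp_pos _) Finset.univ_nonempty
  -- Jensen
  have hJ := convexOn_exp.map_sum_le (t := (Finset.univ : Finset W))
    (w := fun w => Real.exp (-(β * e w)) / Z) (p := fun w => -(β * u w))
    (fun w _ => div_nonneg (Real.exp_pos _).le hZp.le)
    (by rw [← Finset.sum_div, ← hZ, div_self hZp.ne']) (fun w _ => Set.mem_univ _)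
  simp only [smul_eq_mul] at hJ
  have e1 : ∑ w, Real.exp (-(β * e w)) / Z * Real.exp (-(β * u w)) = Z' / Z := by
    rw [hZ', Finset.sum_div]
    apply Finset.sum_congr rfl
    intro w _
    rw [div_mul_eq_mul_div, ← Real.exp_add]
    congr 2
    ring
  have e2 : ∑ w, Real.exp (-(β * e w)) / Z * -(β * u w)
      = -β * ((∑ w, Real.exp (-(β * e w)) * u w) / Z) := by
    rw [Finset.sum_div, Finset.mul_sum]
    apply Finset.sum_congr rfl
    intro w _
    ring
  rw [e1, e2] at hJ
  have h1 := Real.log_le_log (Real.exp_pos _) hJ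
  rw [Real.log_exp, Real.log_div hZp'.ne' hZp.ne'] at h1
  unfold smin
  rw [← hZ, ← hZ', Real.log_div hZp.ne' hc.ne', Real.log_div hZp'.ne' hc.ne']
  set A := (∑ w, Real.exp (-(β * e w)) * u w) / Z with hA
  have h3 : 0 < 1 / β := one_div_pos.2 hβ
  have h4 : 1 / β * (β * A) = A := by field_simp
  nlinarith

end

end Pool.Agent.IP49
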