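import Pool.Agent.IP49.Pen
import Pool.Agent.IP49.SoftMin
import Pool.Agent.IP49.Mom4

/-!
IP49, part R2(iii): elementary facts on the free energy `fe`, row stability.
-/

set_option autoImplicit false
open Finset Real Filter Topology MeasureTheory ProbabilityTheory

namespace Pool.Agent.IP49.RC

open Pool.Agent.PC55 (sg sg_sq)

/-- normalised signed sum of one row -/
noncomputable def rv {n : ℕ} (a : Fin n → ℝ) (w : Fin n → Bool) : ℝ :=
  (∑ i, a i * sg (w i)) / √(n : ℝ)

lemma yv_eq {m n : ℕ} (A : Fin m → Fin n → ℝ) (w : Fin n → Bool) (k : Fin m) :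
    yv A w k = rv (A k) w := rfl

lemma card_cube (n : ℕ) : (Fintype.card (Fin n → Bool) : ℝ) = 2 ^ n := by
  simp

lemma fe_eq (P : Pen) (β : ℝ) {m n : ℕ} (A : Fin m → Fin n → ℝ) :
    fe P β A = smin β (energy P A) := by
  unfold fe smin
  rw [card_cube]

lemma energy_nonneg (P : Pen) {m n : ℕ} (A : Fin m → Fin n → ℝ) (w : Fin n → Bool) :
    0 ≤ energy P A w := Finset.sum_nonneg fun _ _ => P.nn _

lemma fe_nonneg (P : Pen) {β : ℝ} (hβ : 0 < β) {m n : ℕ} (A : Fin m → Fin n → ℝ) :
    0 ≤ fe P β A := by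
  rw [fe_eq]; exact le_smin hβ fun w => energy_nonneg P A w

lemma fe_le (P : Pen) {β : ℝ} (hβ : 0 < β) {m n : ℕ} (A : Fin m → Fin n → ℝ)
    (w : Fin n → Bool) : fe P β A ≤ energy P A w + n * Real.log 2 / β := by
  rw [fe_eq]
  have := smin_le hβ (energy P A) w
  rw [card_cube, Real.log_pow] at this
  exact this

lemma exists_energy_le (P : Pen) {β : ℝ} (hβ : 0 < β) {m n : ℕ} (A : Fin m → Fin n → ℝ) :
    ∃ w, energy P A w ≤ fe P β A := by
  by_contra h
  push Not at h
  obtain ⟨w0, hw0⟩ := Finite.exists_min (energy P A)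
  have h1 := le_smin (W := Fin n → Bool) hβ hw0
  rw [← fe_eq] at h1
  exact absurd (h w0) (not_lt.2 h1)

lemma Pen.continuous (P : Pen) : Continuous P.U :=
  continuous_iff_continuousAt.2 fun x => (P.d1 x).continuousAt

lemma continuous_rv {n : ℕ} (w : Fin n → Bool) : Continuous fun a : Fin n → ℝ => rv a w := by
  unfold rv; fun_prop

lemma continuous_yv {m n : ℕ} (w : Fin n → Bool) (k : Fin m) :
    Continuous fun A : Fin m → Fin n → ℝ => yv A w k := by
  unfold yv; fun_prop

lemma continuous_energy (P : Pen) {m n : ℕ} (w : Fin n → Bool) :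
    Continuous fun A : Fin m → Fin n → ℝ => energy P A w :=
  continuous_finsetSum _ fun k _ => P.continuous.comp (continuous_yv w k)

lemma continuous_smin {W X : Type*} [Fintype W] [Nonempty W] [TopologicalSpace X] (β : ℝ)
    (e : X → W → ℝ) (he : ∀ w, Continuous fun x => e x w) : Continuous fun x => smin β (e x) := by
  unfold smin
  apply Continuous.mul continuous_const
  apply Continuous.log
  · apply Continuous.div_const
    exact continuous_finsetSum _ fun w _ => Real.continuous_exp.comp ((he w).const_mul β).neg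
  · intro x; exact (zpos β (e x)).ne'

lemma continuous_fe (P : Pen) (β : ℝ) {m n : ℕ} :
    Continuous fun A : Fin m → Fin n → ℝ => fe P β A := by
  have : (fun A : Fin m → Fin n → ℝ => fe P β A) = fun A => smin β (energy P A) := by
    funext A; exact fe_eq P β A
  rw [this]
  exact continuous_smin β _ fun w => continuous_energy P w

lemma rv_sq_le {n : ℕ} (a : Fin n → ℝ) (w : Fin n → Bool) : rv a w ^ 2 ≤ ∑ i, a i ^ 2 := by
  unfold rv
  rcases Nat.eq_zero_or_pos n with rfl | hn
  · simp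
  have hn' : (0 : ℝ) < n := by exact_mod_cast hn
  rw [div_pow, Real.sq_sqrt hn'.le, div_le_iff₀ hn']
  calc (∑ i, a i * sg (w i)) ^ 2 ≤ (∑ i, a i ^ 2) * ∑ i, sg (w i) ^ 2 :=
        Finset.sum_mul_sq_le_sq_mul_sq _ _ _
    _ = (∑ i, a i ^ 2) * n := by simp [sg_sq]

/-- domination of the free energy by a sum over rows -/
lemma fe_dom (P : Pen) {β : ℝ} (hβ : 0 < β) {m n : ℕ} (A : Fin m → Fin n → ℝ) :
    fe P β A ≤ n * Real.log 2 / β + ∑ k, P.C * (1 + ∑ i, A k i ^ 2) := by
  have h := fe_le P hβ A (fun _ => true)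
  have h2 : energy P A (fun _ => true) ≤ ∑ k, P.C * (1 + ∑ i, A k i ^ 2) := by
    apply Finset.sum_le_sum
    intro k _
    refine (P.bU _).trans ?_
    apply mul_le_mul_of_nonneg_left _ (zero_le_one.trans P.hC)
    have := rv_sq_le (A k) (fun _ => true)
    rw [yv_eq]
    linarith
  linarith

/-- moment assumptions on the entry law -/
structure EntryLaw (ν : Measure ℝ) : Prop where
  prob : IsProbabilityMeasure ν
  i4 : Integrable (fun a : ℝ => a ^ 4) ν
  m1 : ∫ a, a ∂ν = 0
  m2 : ∫ a, a ^ 2 ∂ν = 1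
  m4 : ∫ a, a ^ 4 ∂ν ≤ 3

lemma sq_U_le (P : Pen) (x : ℝ) : P.U x ^ 2 ≤ 2 * P.C ^ 2 * (1 + x ^ 4) := by
  have h1 := P.bU x
  have h2 := P.nn x
  have h3 : P.U x ^ 2 ≤ (P.C * (1 + x ^ 2)) ^ 2 := pow_le_pow_left₀ h2 h1 2
  have hC := sq_nonneg P.C
  nlinarith [mul_nonneg hC (sq_nonneg (x ^ 2 - 1))]

lemma rv_mom4 {ν : Measure ℝ} (hν : EntryLaw ν) {n : ℕ} (w : Fin n → Bool) :
    Integrable (fun a : Fin n → ℝ => rv a w ^ 4) (Measure.pi fun _ => ν) ∧
      ∫ a : Fin n → ℝ, rv a w ^ 4 ∂(Measure.pi fun _ => ν) ≤ 3 := by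
  have := hν.prob
  obtain ⟨i4, -, -, e4⟩ := mom4 ν hν.i4 hν.m1 hν.m2 hν.m4 n (fun i => sg (w i))
    (fun i => sg_sq (w i))
  have e : (fun a : Fin n → ℝ => rv a w ^ 4)
      = fun a => (∑ i, a i * sg (w i)) ^ 4 / (√(n : ℝ)) ^ 4 := by
    funext a; unfold rv; rw [div_pow]
  rw [e]
  refine ⟨i4.div_const _, ?_⟩
  rw [integral_div]
  rcases Nat.eq_zero_or_pos n with rfl | hn
  · simp
  have hn' : (0 : ℝ) < n := by exact_mod_cast hn
  have e2 : (√(n : ℝ)) ^ 4 = (n : ℝ) ^ 2 := by
    calc (√(n : ℝ)) ^ 4 = ((√(n : ℝ)) ^ 2) ^ 2 := by ring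
      _ = _ := by rw [Real.sq_sqrt hn'.le]
  rw [e2, div_le_iff₀ (by positivity)]
  exact e4

lemma U_sq_int (P : Pen) {ν : Measure ℝ} (hν : EntryLaw ν) {n : ℕ} (w : Fin n → Bool) :
    Integrable (fun a : Fin n → ℝ => P.U (rv a w) ^ 2) (Measure.pi fun _ => ν) ∧
      ∫ a : Fin n → ℝ, P.U (rv a w) ^ 2 ∂(Measure.pi fun _ => ν) ≤ 8 * P.C ^ 2 := by
  have := hν.prob
  obtain ⟨i4, e4⟩ := rv_mom4 hν w
  have hdom : Integrable (fun a : Fin n → ℝ => 2 * P.C ^ 2 * (1 + rv a w ^ 4))
      (Measure.pi fun _ => ν) := ((integrable_const _).add i4).const_mul _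
  have hi : Integrable (fun a : Fin n → ℝ => P.U (rv a w) ^ 2) (Measure.pi fun _ => ν) := by
    apply hdom.mono' ((P.continuous.comp (continuous_rv w)).pow 2).aestronglyMeasurable
    refine Eventually.of_forall fun a => ?_
    rw [Real.norm_eq_abs]
    simp only [Pi.pow_apply, Function.comp]
    rw [abs_of_nonneg (sq_nonneg _)]
    exact sq_U_le P _
  refine ⟨hi, ?_⟩
  calc ∫ a : Fin n → ℝ, P.U (rv a w) ^ 2 ∂(Measure.pi fun _ => ν)
      ≤ ∫ a : Fin n → ℝ, 2 * P.C ^ 2 * (1 + rv a w ^ 4) ∂(Measure.pi fun _ => ν) :=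
        integral_mono hi hdom fun a => sq_U_le P _
    _ = 2 * P.C ^ 2 * (1 + ∫ a : Fin n → ℝ, rv a w ^ 4 ∂(Measure.pi fun _ => ν)) := by
        rw [integral_const_mul, integral_add (integrable_const _) i4]; simp
    _ ≤ 8 * P.C ^ 2 := by nlinarith [sq_nonneg P.C]

/-- the free energy is stable under removal of a row -/
theorem rowStab_fe (P : Pen) {β : ℝ} (hβ : 0 < β) {ν : Measure ℝ} (hν : EntryLaw ν) {m n : ℕ} :
    RowStab (Measure.pi fun _ : Fin n => ν) (8 * P.C ^ 2)
      (fun A : Fin m → Fin n → ℝ => fe P β A) := by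
  have := hν.prob
  intro k
  set en : (Fin m → Fin n → ℝ) → (Fin n → Bool) → ℝ := fun A w =>
    ∑ l ∈ Finset.univ.erase k, P.U (rv (A l) w) with hen
  have hen_cont : ∀ w, Continuous fun A => en A w := fun w =>
    continuous_finsetSum _ fun l _ => P.continuous.comp
      ((continuous_rv w).comp (continuous_apply l))
  have hsplit : ∀ A w, energy P A w = en A w + P.U (rv (A k) w) := by
    intro A w
    unfold energy
    rw [← Finset.sum_erase_add Finset.univ _ (Finset.mem_univ k)]
    rfl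
  have hup : ∀ A a w, en (Function.update A k a) w = en A w := by
    intro A a w
    apply Finset.sum_congr rfl
    intro l hl
    rw [Function.update_of_ne (Finset.mem_erase.1 hl).1]
  refine ⟨fun A => smin β (en A), (continuous_smin β en hen_cont).measurable, ?_, ?_, ?_⟩
  · intro A a
    simp only [show en (Function.update A k a) = en A from funext (hup A a)]
  · intro A
    refine ⟨le_smin hβ fun w => Finset.sum_nonneg fun l _ => P.nn _, ?_⟩
    show smin β (en A) ≤ fe P β A
    rw [fe_eq]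
    apply smin_mono hβ
    intro w
    rw [hsplit]
    linarith [P.nn (rv (A k) w)]
  · intro A
    set p : (Fin n → Bool) → ℝ := fun w => Real.exp (-(β * en A w)) / ∑ w, Real.exp (-(β * en A w))
      with hp
    have hZ : 0 < ∑ w, Real.exp (-(β * en A w)) :=
      Finset.sum_pos (fun w _ => Real.exp_pos _) Finset.univ_nonempty
    have hp0 : ∀ w, 0 ≤ p w := fun w => div_nonneg (Real.exp_pos _).le hZ.le
    have hp1 : ∑ w, p w = 1 := by rw [hp, ← Finset.sum_div, div_self hZ.ne']
    -- pointwise bound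
    have hpt : ∀ a : Fin n → ℝ, 0 ≤ fe P β (Function.update A k a) - smin β (en A) ∧
        (fe P β (Function.update A k a) - smin β (en A)) ^ 2 ≤ ∑ w, p w * P.U (rv a w) ^ 2 := by
      intro a
      have e1 : energy P (Function.update A k a) = fun w => en A w + P.U (rv a w) := by
        funext w; rw [hsplit, hup, Function.update_self]
      have h0 : 0 ≤ fe P β (Function.update A k a) - smin β (en A) := by
        rw [fe_eq, e1, sub_nonneg]
        exact smin_mono hβ fun w => by linarith [P.nn (rv a w)]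
      refine ⟨h0, ?_⟩
      have h1 := smin_add_le hβ (en A) (fun w => P.U (rv a w))
      rw [← e1, ← fe_eq] at h1
      have e2 : (∑ w, Real.exp (-(β * en A w)) * P.U (rv a w)) / ∑ w, Real.exp (-(β * en A w))
          = ∑ w, p w * P.U (rv a w) := by
        rw [Finset.sum_div]
        exact Finset.sum_congr rfl fun w _ => by rw [hp]; ring
      rw [e2] at h1
      calc (fe P β (Function.update A k a) - smin β (en A)) ^ 2
          ≤ (∑ w, p w * P.U (rv a w)) ^ 2 := pow_le_pow_left₀ h0 h1 2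
        _ ≤ ∑ w, p w * P.U (rv a w) ^ 2 := by
            have hcs := (convexOn_pow 2 (𝕜 := ℝ)).map_sum_le (t := (Finset.univ : Finset (Fin n → Bool)))
              (w := p) (p := fun w => P.U (rv a w)) (fun w _ => hp0 w) hp1
              (fun w _ => Set.mem_Ici.2 (P.nn _))
            simpa [smul_eq_mul] using hcs
    have hI : Integrable (fun a : Fin n → ℝ => ∑ w, p w * P.U (rv a w) ^ 2)
        (Measure.pi fun _ => ν) :=
      integrable_finsetSum _ fun w _ => (U_sq_int P hν w).1.const_mul _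
    have hm : Continuous fun a : Fin n → ℝ =>
        (fe P β (Function.update A k a) - smin β (en A)) ^ 2 := by
      have : Continuous fun a : Fin n → ℝ => fe P β (Function.update A k a) :=
        (continuous_fe P β).comp (continuous_const.update k continuous_id)
      exact (this.sub continuous_const).pow 2
    refine ⟨hI.mono' hm.aestronglyMeasurable (Eventually.of_forall fun a => ?_), ?_⟩
    · rw [Real.norm_eq_abs, abs_of_nonneg (sq_nonneg _)]
      exact (hpt a).2
    · calc ∫ a, (fe P β (Function.update A k a) - smin β (en A)) ^ 2 ∂(Measure.pi fun _ => ν)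
          ≤ ∫ a : Fin n → ℝ, ∑ w, p w * P.U (rv a w) ^ 2 ∂(Measure.pi fun _ => ν) :=
            integral_mono_of_nonneg (Eventually.of_forall fun a => sq_nonneg _) hI
              (Eventually.of_forall fun a => (hpt a).2)
        _ = ∑ w, p w * ∫ a : Fin n → ℝ, P.U (rv a w) ^ 2 ∂(Measure.pi fun _ => ν) := by
            rw [integral_finsetSum _ fun w _ => (U_sq_int P hν w).1.const_mul _]
            exact Finset.sum_congr rfl fun w _ => integral_const_mul _ _
        _ ≤ ∑ w, p w * (8 * P.C ^ 2) :=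
            Finset.sum_le_sum fun w _ => mul_le_mul_of_nonneg_left (U_sq_int P hν w).2 (hp0 w)
        _ = 8 * P.C ^ 2 := by rw [← Finset.sum_mul, hp1, one_mul]

end Pool.Agent.IP49.RC
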