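import Pool.Agent.IP49.RBnd
import Pool.Agent.IP49.Lindeberg
import Pool.Agent.IP49.RLaw

/-!
# Part R2 of IP49: universality of the free energy

`fe_universal`: the means of the free energy under Gaussian and Rademacher matrices differ by at
most `K m / √n`.
-/

set_option autoImplicit false

open MeasureTheory ProbabilityTheory Finset

namespace Pool.Agent.IP49.RC

open Pool.Agent.PC55 (sg)

variable {m n : ℕ}

theorem EntryLaw.adm {ν : Measure ℝ} (h : EntryLaw ν) : Adm ν :=
  ⟨h.prob, h.i4, h.m1, h.m2, h.m4⟩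

theorem continuous_mat : Continuous (mat : (Fin m × Fin n → ℝ) → Fin m → Fin n → ℝ) := by
  unfold mat
  fun_prop

theorem continuous_Fx (P : Pen) (β : ℝ) : Continuous (Fx P β (m := m) (n := n)) :=
  (continuous_fe P β).comp continuous_mat

/-- The row value as a linear form on the family of entries. -/
noncomputable def af (k : Fin m) (w : Fin n → Bool) (e : Fin m × Fin n) : ℝ :=
  if e.1 = k then sg (w e.2) / √(n : ℝ) else 0

theorem yv_mat (k : Fin m) (x : Fin m × Fin n → ℝ) (w : Fin n → Bool) :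
    yv (mat x) w k = ∑ e, af k w e * x e := by
  unfold yv af mat
  rw [Fintype.sum_prod_type, Finset.sum_eq_single k]
  · rw [Finset.sum_div]
    refine Finset.sum_congr rfl fun j _ => ?_
    simp only [if_true]
    ring
  · intro l _ hl
    refine Finset.sum_eq_zero fun j _ => ?_
    rw [if_neg hl, zero_mul]
  · intro h
    exact absurd (Finset.mem_univ k) h

theorem integrable_Fx (P : Pen) {β : ℝ} (hβ : 0 < β) (ν : Fin m × Fin n → Measure ℝ)
    (hν : ∀ j, Adm (ν j)) : Integrable (Fx P β) (Measure.pi ν) := by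
  have : ∀ j, IsProbabilityMeasure (ν j) := fun j => (hν j).prob
  set w : Fin n → Bool := fun _ => true
  have h1 : ∀ k : Fin m, Integrable (fun x : Fin m × Fin n → ℝ => yv (mat x) w k ^ 2)
      (Measure.pi ν) := by
    intro k
    simp only [yv_mat]
    refine integrable_pow_of_four ?_ (pi_four ν hν (af k w)).1 (by norm_num)
    exact (by fun_prop : Continuous fun x : Fin m × Fin n → ℝ =>
      ∑ e, af k w e * x e).aestronglyMeasurable
  have h2 : Integrable (fun x : Fin m × Fin n → ℝ =>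
      (∑ k, P.C * (1 + yv (mat x) w k ^ 2)) + n * Real.log 2 / β) (Measure.pi ν) := by
    refine Integrable.add (integrable_finsetSum _ fun k _ => ?_) (integrable_const _)
    exact ((integrable_const _).add (h1 k)).const_mul _
  refine Integrable.mono' h2 (continuous_Fx P β).aestronglyMeasurable
    (Filter.Eventually.of_forall fun x => ?_)
  have h0 : 0 ≤ Fx P β x := fe_nonneg P hβ _
  rw [Real.norm_eq_abs, abs_of_nonneg h0]
  refine (fe_le P hβ (mat x) w).trans ?_
  unfold energy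
  have := Finset.sum_le_sum fun (k : Fin m) (_ : k ∈ Finset.univ) => P.bU (yv (mat x) w k)
  linarith

/-- The weight of the remainder. -/
noncomputable def wt (a : ℝ) : ℝ := |a| ^ 3 * (1 + |a|) ^ 3

theorem wt_nonneg (a : ℝ) : 0 ≤ wt a := by
  unfold wt
  positivity

theorem wt_le (a : ℝ) : wt a ≤ 8 * (1 + a ^ 6) := by
  unfold wt
  have h0 := abs_nonneg a
  have e : a ^ 6 = |a| ^ 6 := by
    have : |a| ^ 6 = |a ^ 6| := (abs_pow a 6).symm
    rw [this, abs_of_nonneg (by positivity)]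
  rw [e]
  set t := |a|
  rcases le_total t 1 with h | h
  · have h1 : (1 + t) ^ 3 ≤ 2 ^ 3 := pow_le_pow_left₀ (by linarith) (by linarith) 3
    have h2 : t ^ 3 ≤ 1 := pow_le_one₀ h0 h
    have h3 : t ^ 3 * (1 + t) ^ 3 ≤ 1 * 2 ^ 3 := mul_le_mul h2 h1 (by positivity) zero_le_one
    have : 0 ≤ t ^ 6 := by positivity
    linarith
  · have h1 : (1 + t) ^ 3 ≤ (2 * t) ^ 3 := pow_le_pow_left₀ (by linarith) (by linarith) 3
    have h3 : t ^ 3 * (1 + t) ^ 3 ≤ t ^ 3 * (2 * t) ^ 3 :=
      mul_le_mul_of_nonneg_left h1 (by positivity)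
    have h4 : t ^ 3 * (2 * t) ^ 3 = 8 * t ^ 6 := by ring
    linarith

theorem continuous_wt : Continuous wt := by
  unfold wt
  fun_prop

theorem integrable_wt_gauss : Integrable wt (gaussianReal 0 1) := by
  refine Integrable.mono' (((integrable_const (1 : ℝ)).add (gauss_integrable_pow 6)).const_mul 8)
    continuous_wt.aestronglyMeasurable (Filter.Eventually.of_forall fun a => ?_)
  rw [Real.norm_eq_abs, abs_of_nonneg (wt_nonneg a)]
  exact wt_le a

theorem Fx_lindeberg (P : Pen) {β : ℝ} (hβ : 0 < β) (hn : 0 < n) (μ ν : Measure ℝ)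
    (hμ : Adm μ) (hν : Adm ν) (hwμ : Integrable wt μ) (hwν : Integrable wt ν) :
    |∫ x, Fx P β x ∂(Measure.pi (fun _ : Fin m × Fin n => μ))
        - ∫ x, Fx P β x ∂(Measure.pi (fun _ : Fin m × Fin n => ν))| ≤
      (m * n : ℝ) * (CB P β * (1 / √(n : ℝ)) ^ 3) * (∫ a, wt a ∂μ + ∫ a, wt a ∂ν) := by
  have := hμ.prob
  have := hν.prob
  have hadm : ∀ (S : Finset (Fin m × Fin n)) (j : Fin m × Fin n), Adm (hyb μ ν S j) := by
    intro S j
    unfold hyb
    split_ifs
    · exact hν
    · exact hμ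
  have hid : ∀ (ρ : Measure ℝ), Adm ρ → Integrable (fun a : ℝ => a) ρ := by
    intro ρ hρ
    have := hρ.prob
    have h := integrable_pow_of_four (f := fun a : ℝ => a) measurable_id.aestronglyMeasurable
      hρ.i4 (k := 1) (by norm_num)
    simpa using h
  have hsq : ∀ (ρ : Measure ℝ), Adm ρ → Integrable (fun a : ℝ => a ^ 2) ρ := by
    intro ρ hρ
    have := hρ.prob
    exact integrable_pow_of_four (f := fun a : ℝ => a) measurable_id.aestronglyMeasurable
      hρ.i4 (k := 2) (by norm_num)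
  have h := lindeberg (ι := Fin m × Fin n) μ ν wt (hid μ hμ) (hid ν hν) (hsq μ hμ) (hsq ν hν)
    hwμ hwν (by rw [hμ.m1, hν.m1]) (by rw [hμ.m2, hν.m2]) wt_nonneg (Fx P β)
    (fun S => integrable_Fx P hβ _ (hadm S)) (Lc P β) (Mc P β) (Bc P β)
    (CB P β * (1 / √(n : ℝ)) ^ 3) (fun S e => (Bc_integral P hβ hn e _ (hadm S)).1)
    (fun S e => (Bc_integral P hβ hn e _ (hadm S)).2)
    (fun e x a => entry_bound P hβ hn e x a)
  rw [Fintype.card_prod, Fintype.card_fin, Fintype.card_fin] at h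
  push_cast at h
  exact h

theorem integral_fe_eq (P : Pen) (β : ℝ) (ρ : Measure ℝ) [IsProbabilityMeasure ρ] :
    ∫ A, fe P β A ∂(Measure.pi fun _ : Fin m => Measure.pi fun _ : Fin n => ρ) =
      ∫ x, Fx P β x ∂(Measure.pi fun _ : Fin m × Fin n => ρ) :=
  (integral_uncurry ρ (fun A => fe P β A) (continuous_fe P β)).symm

theorem integrable_fe (P : Pen) {β : ℝ} (hβ : 0 < β) (ρ : Measure ℝ) (hρ : EntryLaw ρ) :
    Integrable (fun A : Fin m → Fin n → ℝ => fe P β A)
      (Measure.pi fun _ : Fin m => Measure.pi fun _ : Fin n => ρ) := by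
  have := hρ.prob
  have hm : Measurable (fun (A : Fin m → Fin n → ℝ) (e : Fin m × Fin n) => A e.1 e.2) := by
    fun_prop
  have h := integrable_Fx (m := m) (n := n) P hβ (fun _ => ρ) (fun _ => EntryLaw.adm hρ)
  rw [← uncurry_law] at h
  exact (integrable_map_measure (continuous_Fx P β).aestronglyMeasurable hm.aemeasurable).1 h

theorem CB_nonneg (P : Pen) {β : ℝ} (hβ : 0 < β) : 0 ≤ CB P β := by
  unfold CB
  exact mul_nonneg (by norm_num) (mul_nonneg (by positivity)
    (K3_nonneg (mul_nonneg hβ.le (zero_le_one.trans P.hC))))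

/-- **Universality of the mean free energy.** -/
theorem fe_universal (P : Pen) {β : ℝ} (hβ : 0 < β) : ∃ K : ℝ, 0 ≤ K ∧ ∀ m n : ℕ, 0 < n →
    |∫ A, fe P β A ∂(Measure.pi fun _ : Fin m => Measure.pi fun _ : Fin n => gaussianReal 0 1)
      - ∫ A, fe P β A ∂(Measure.pi fun _ : Fin m => Measure.pi fun _ : Fin n => rad1)| ≤
      K * m / √(n : ℝ) := by
  refine ⟨CB P β * (∫ a, wt a ∂(gaussianReal 0 1) + ∫ a, wt a ∂rad1), ?_, fun m n hn => ?_⟩
  · exact mul_nonneg (CB_nonneg P hβ)
      (add_nonneg (integral_nonneg wt_nonneg) (integral_nonneg wt_nonneg))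
  · rw [integral_fe_eq, integral_fe_eq]
    have h := Fx_lindeberg (m := m) P hβ hn (gaussianReal 0 1) rad1 (EntryLaw.adm entryLaw_gauss)
      (EntryLaw.adm entryLaw_rad) integrable_wt_gauss (rad1_integrable wt)
    refine h.trans (le_of_eq ?_)
    have hn' : (0 : ℝ) < n := by exact_mod_cast hn
    have hs : 0 < √(n : ℝ) := Real.sqrt_pos.2 hn'
    have e : (n : ℝ) = √(n : ℝ) ^ 2 := (Real.sq_sqrt hn'.le).symm
    rw [show ((m : ℝ) * (n : ℝ)) = m * √(n : ℝ) ^ 2 by rw [← e]]
    field_simp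

end Pool.Agent.IP49.RC
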