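import Pool.Agent.IP49.SMart
import Pool.Agent.IP49.GaussA

/-!
IP49, part S2 (helper95): one-dimensional Gaussian Poincaré inequality (by rotation),
`CC φ 1 - CC φ t ≤ (1-t) E φ'(Z)²`, `CC φ t - CC φ s ≥ (t-s) (E Z φ(Z))²`.
-/

set_option autoImplicit false
open MeasureTheory ProbabilityTheory Filter Topology
open scoped NNReal ENNReal

namespace Pool.Agent.IP49.SR

noncomputable section

/-- growth of `CC` from below -/
theorem CC_strict {L : ℝ} {φ : ℝ → ℝ} (h : LipR L φ) {s t : ℝ} (hs0 : 0 ≤ s) (hst : s ≤ t)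
    (ht : t ≤ 1) : (t - s) * DD φ ^ 2 ≤ CC φ t - CC φ s := by
  set a : Fin 2 → ℝ := ![√s, 0] with ha
  set b : Fin 2 → ℝ := ![√s, √(t - s)] with hb
  have haa : dot a a = s := by rw [dot_self_eq]; simp [ha, Real.sq_sqrt hs0]
  have hbb : dot b b = t := by
    rw [dot_self_eq]; simp [hb, Real.sq_sqrt hs0, Real.sq_sqrt (sub_nonneg.2 hst)]
  have hab : dot a b = s := by simp [dot, ha, hb, Real.mul_self_sqrt hs0]
  have e1 := E_sm_sm h haa hbb hab hst ht
  have e2 := E_sm_sm h haa haa haa le_rfl (hst.trans ht)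
  have e3 := E_sm_sm h hbb hbb hbb le_rfl ht
  have hls := sm_lip h s
  have hlt := sm_lip h t
  have f1 := E_lin_sm h (a := a) (by rw [haa]; exact hst.trans ht) (b - a)
  have f2 := E_lin_sm h (a := b) (by rw [hbb]; exact ht) (b - a)
  rw [haa] at f1
  rw [hbb] at f2
  have d1 : dot (b - a) a = 0 := by rw [dot_sub_left, dot_comm b a, hab, haa, sub_self]
  have d2 : dot (b - a) b = t - s := by rw [dot_sub_left, hbb, hab]
  have d3 : dot (b - a) (b - a) = t - s := by rw [dot_sub_right, d2, d1, sub_zero]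
  rw [d1, zero_mul] at f1
  rw [d2] at f2
  have g1 : ∫ x, dot (b - a) x * dot (b - a) x ∂(gv (Fin 2)) = t - s := by
    have := integral_dot (ι := Fin 2) (φ := fun u => u * u) (by fun_prop) (b - a)
    rw [this, nrm, d3]
    have h2 : ∀ z : ℝ, √(t - s) * z * (√(t - s) * z) = (t - s) * (z * z) := by
      intro z
      have := Real.mul_self_sqrt (sub_nonneg.2 hst)
      linear_combination (z * z) * this
    simp_rw [h2]
    rw [integral_const_mul]
    have h3 : ∫ z, z * z ∂(gaussianReal 0 1) = 1 := by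
      have h4 := variance_fun_id_gaussianReal (μ := 0) (v := 1)
      rw [variance_eq_integral (by fun_prop)] at h4
      simp only [integral_id_gaussianReal, sub_zero, NNReal.coe_one] at h4
      rw [← h4]
      exact integral_congr_ae (Eventually.of_forall fun z => (sq z).symm)
    rw [h3, mul_one]
  -- expand the nonnegative integral of `(sm_t - sm_s - D ⟨b-a,x⟩)²`
  set D := DD φ with hD
  have hpos : 0 ≤ ∫ x, (sm φ t (dot b x) - sm φ s (dot a x) - D * dot (b - a) x) ^ 2
      ∂(gv (Fin 2)) := integral_nonneg fun _ => sq_nonneg _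
  have hexp : ∀ x : Fin 2 → ℝ,
      (sm φ t (dot b x) - sm φ s (dot a x) - D * dot (b - a) x) ^ 2
      = (sm φ t (dot b x) * sm φ t (dot b x) + sm φ s (dot a x) * sm φ s (dot a x))
        + ((-2) * (sm φ s (dot a x) * sm φ t (dot b x))
        + ((-2 * D) * (dot (b - a) x * sm φ t (dot b x))
        + ((2 * D) * (dot (b - a) x * sm φ s (dot a x))
        + D ^ 2 * (dot (b - a) x * dot (b - a) x)))) := by
    intro x; ring
  simp_rw [hexp] at hpos
  have i1 := integrable_mul_comp_dot hlt hlt b b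
  have i2 := integrable_mul_comp_dot hls hls a a
  have i3 := integrable_mul_comp_dot hls hlt a b
  have i4 := integrable_dot_mul_comp_dot hlt (b - a) b
  have i5 := integrable_dot_mul_comp_dot hls (b - a) a
  have i6 := integrable_dot_mul_comp_dot (φ' := fun x => x) LipR.id (b - a) (b - a)
  have j5 : Integrable (fun x => (2 * D) * (dot (b - a) x * sm φ s (dot a x))
      + D ^ 2 * (dot (b - a) x * dot (b - a) x)) (gv (Fin 2)) :=
    (i5.const_mul _).add (i6.const_mul _)
  have j4 : Integrable (fun x => (-2 * D) * (dot (b - a) x * sm φ t (dot b x))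
      + ((2 * D) * (dot (b - a) x * sm φ s (dot a x))
      + D ^ 2 * (dot (b - a) x * dot (b - a) x))) (gv (Fin 2)) := (i4.const_mul _).add j5
  have j3 : Integrable (fun x => (-2) * (sm φ s (dot a x) * sm φ t (dot b x))
      + ((-2 * D) * (dot (b - a) x * sm φ t (dot b x))
      + ((2 * D) * (dot (b - a) x * sm φ s (dot a x))
      + D ^ 2 * (dot (b - a) x * dot (b - a) x)))) (gv (Fin 2)) := (i3.const_mul _).add j4
  have j1 : Integrable (fun x => sm φ t (dot b x) * sm φ t (dot b x)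
      + sm φ s (dot a x) * sm φ s (dot a x)) (gv (Fin 2)) := i1.add i2
  rw [integral_add j1 j3, integral_add i1 i2, integral_add (i3.const_mul _) j4,
    integral_add (i4.const_mul _) j5,
    integral_add (i5.const_mul _) (i6.const_mul _)] at hpos
  simp only [integral_const_mul] at hpos
  rw [e1, e2, e3, f1, f2, g1] at hpos
  nlinarith [hpos]

lemma CC_mono {L : ℝ} {φ : ℝ → ℝ} (h : LipR L φ) {s t : ℝ} (hs0 : 0 ≤ s) (hst : s ≤ t)
    (ht : t ≤ 1) : CC φ s ≤ CC φ t := by
  have := CC_strict h hs0 hst ht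
  nlinarith [mul_nonneg (sub_nonneg.2 hst) (sq_nonneg (DD φ))]

lemma CC_lt {L : ℝ} {φ : ℝ → ℝ} (h : LipR L φ) (hD : DD φ ≠ 0) {s t : ℝ} (hs0 : 0 ≤ s)
    (hst : s < t) (ht : t ≤ 1) : CC φ s < CC φ t := by
  have := CC_strict h hs0 hst.le ht
  have h2 : 0 < (t - s) * DD φ ^ 2 := mul_pos (sub_pos.2 hst) (by positivity)
  linarith

/-! ### the Poincaré inequality -/

lemma lipR_of_deriv {φ φ' : ℝ → ℝ} {L : ℝ} (hd : ∀ x, HasDerivAt φ (φ' x) x)
    (hb : ∀ x, |φ' x| ≤ L) : LipR L φ := by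
  intro x y
  have := Convex.norm_image_sub_le_of_norm_hasDerivWithin_le (f := φ) (f' := φ') (s := Set.univ)
    (C := L) (fun z _ => (hd z).hasDerivWithinAt) (fun z _ => hb z) convex_univ
    (Set.mem_univ y) (Set.mem_univ x)
  simpa [Real.norm_eq_abs] using this

lemma stein_bdd {φ φ' : ℝ → ℝ} {L : ℝ} (hd : ∀ x, HasDerivAt φ (φ' x) x)
    (hm : Measurable φ') (hb : ∀ x, |φ' x| ≤ L) (a c : ℝ) :
    ∫ z, z * φ (a + c * z) ∂(gaussianReal 0 1) = c * ∫ z, φ' (a + c * z) ∂(gaussianReal 0 1) := by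
  have hL := lipR_of_deriv hd hb
  have hL0 : 0 ≤ L := hL.nonneg
  have hd2 : ∀ z, HasDerivAt (fun z => φ (a + c * z)) (c * φ' (a + c * z)) z := by
    intro z
    have h1 : HasDerivAt (fun z => a + c * z) c z := by
      simpa using ((hasDerivAt_id z).const_mul c).const_add a
    have := (hd (a + c * z)).comp z h1
    rw [mul_comm]; exact this
  have key := GE_stein (f := fun z => φ (a + c * z)) (f' := fun z => c * φ' (a + c * z)) hd2
    (by fun_prop) (C := |φ a| + L * |c| + |c| * L) (k := 1) ?_ ?_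
  · unfold GE at key
    rw [key, integral_const_mul]
  · intro z
    have h1 := hL (a + c * z) a
    have h2 : |a + c * z - a| = |c| * |z| := by rw [add_sub_cancel_left, abs_mul]
    rw [h2] at h1
    have h3 : |φ (a + c * z)| ≤ |φ a| + L * (|c| * |z|) := by
      have := abs_sub_abs_le_abs_sub (φ (a + c * z)) (φ a)
      linarith
    have h4 : |z| ≤ 1 + z ^ 2 := by
      nlinarith [sq_nonneg (|z| - 1), sq_abs z, abs_nonneg z]
    have h5 : 0 ≤ z ^ 2 := sq_nonneg z
    rw [pow_one]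
    have h6 : L * (|c| * |z|) ≤ L * |c| * (1 + z ^ 2) := by
      rw [← mul_assoc]; exact mul_le_mul_of_nonneg_left h4 (by positivity)
    have h7 : 0 ≤ |c| * L := by positivity
    nlinarith [abs_nonneg (φ a)]
  · intro z
    rw [abs_mul, pow_one]
    have h1 : |c| * |φ' (a + c * z)| ≤ |c| * L := mul_le_mul_of_nonneg_left (hb _) (abs_nonneg _)
    have h5 : 0 ≤ z ^ 2 := sq_nonneg z
    have h7 : 0 ≤ |c| * L := by positivity
    have h8 : 0 ≤ L * |c| := by positivity
    nlinarith [abs_nonneg (φ a)]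

lemma lip_lin2 {L : ℝ} {φ : ℝ → ℝ} (h : LipR L φ) (a b : ℝ) (p p' : ℝ × ℝ) :
    |φ (a * p.1 + b * p.2) - φ (a * p'.1 + b * p'.2)| ≤ L * (|a| + |b|) * ‖p - p'‖ := by
  refine (h _ _).trans ?_
  rw [mul_assoc]
  refine mul_le_mul_of_nonneg_left ?_ h.nonneg
  have h1 : |p.1 - p'.1| ≤ ‖p - p'‖ := norm_fst_le (p - p')
  have h2 : |p.2 - p'.2| ≤ ‖p - p'‖ := norm_snd_le (p - p')
  have h3 : a * p.1 + b * p.2 - (a * p'.1 + b * p'.2)
      = a * (p.1 - p'.1) + b * (p.2 - p'.2) := by ring
  rw [h3]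
  refine (abs_add_le _ _).trans ?_
  rw [abs_mul, abs_mul, add_mul]
  exact add_le_add (mul_le_mul_of_nonneg_left h1 (abs_nonneg _))
    (mul_le_mul_of_nonneg_left h2 (abs_nonneg _))

/-- the derivative of the interpolation is at most `cos θ E φ'²` -/
lemma rot_deriv_le {φ φ' : ℝ → ℝ} {L : ℝ} (hd : ∀ x, HasDerivAt φ (φ' x) x)
    (hm : Measurable φ') (hb : ∀ x, |φ' x| ≤ L) {θ : ℝ} (hc : 0 ≤ Real.cos θ) :
    ∫ p : ℝ × ℝ, φ p.1 * (φ' (Real.sin θ * p.1 + Real.cos θ * p.2)
        * (Real.cos θ * p.1 - Real.sin θ * p.2)) ∂(Measure.prod (gaussianReal 0 1) (gaussianReal 0 1))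
      ≤ Real.cos θ * GE (fun x => φ' x ^ 2) := by
  have hL := lipR_of_deriv hd hb
  have hφm := hL.meas
  set s := Real.sin θ with hs
  set c := Real.cos θ with hcc
  have hsc : s ^ 2 + c ^ 2 = 1 := Real.sin_sq_add_cos_sq θ
  -- rotate
  have e1 : ∫ p : ℝ × ℝ, φ p.1 * (φ' (s * p.1 + c * p.2) * (c * p.1 - s * p.2)) ∂(Measure.prod (gaussianReal 0 1) (gaussianReal 0 1))
      = ∫ p : ℝ × ℝ, φ' p.1 * (φ (s * p.1 + c * p.2) * p.2) ∂(Measure.prod (gaussianReal 0 1) (gaussianReal 0 1)) := by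
    rw [integral_gg (F := fun p => φ p.1 * (φ' (s * p.1 + c * p.2) * (c * p.1 - s * p.2)))
      (by fun_prop)]
    have h1 := integral_pair (ι := Fin 2)
      (Φ := fun p : ℝ × ℝ => φ' p.1 * (φ (s * p.1 + c * p.2) * p.2)) (by fun_prop)
      ![s, c] ![c, -s] (by simp [dot]; ring)
    have n1 : nrm ![s, c] = 1 := by rw [nrm, dot_self_eq]; simp [hsc]
    have n2 : nrm ![c, -s] = 1 := by
      rw [nrm, dot_self_eq]; simp [add_comm (c ^ 2), hsc]
    rw [n1, n2] at h1
    simp only [one_mul] at h1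
    rw [← h1]
    refine integral_congr_ae (Eventually.of_forall fun x => ?_)
    have d1 : dot ![s, c] x = s * x 0 + c * x 1 := by simp [dot]
    have d2 : dot ![c, -s] x = c * x 0 - s * x 1 := by simp [dot]; ring
    have d3 : s * dot ![s, c] x + c * dot ![c, -s] x = x 0 := by
      rw [d1, d2]; linear_combination (x 0) * hsc
    simp only
    rw [d3, d2, d1]; ring
  rw [e1]
  have hid : ∀ p p' : ℝ × ℝ, |p.2 - p'.2| ≤ 1 * ‖p - p'‖ := fun p p' => by
    rw [one_mul]; exact norm_snd_le (p - p')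
  have i1 : Integrable (fun p : ℝ × ℝ => φ (s * p.1 + c * p.2) * p.2) (Measure.prod (gaussianReal 0 1) (gaussianReal 0 1)) :=
    integrable_mul_of_lip (Measure.prod (gaussianReal 0 1) (gaussianReal 0 1)) (lip_lin2 hL s c) hid
  have i2 : Integrable (fun p : ℝ × ℝ => φ' p.1 * (φ (s * p.1 + c * p.2) * p.2))
      (Measure.prod (gaussianReal 0 1) (gaussianReal 0 1)) :=
    i1.bdd_mul (c := L) (Measurable.aestronglyMeasurable (by fun_prop))
      (Eventually.of_forall fun p => hb p.1)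
  rw [integral_prod _ i2]
  have e2 : ∀ u, ∫ v, φ' u * (φ (s * u + c * v) * v) ∂(gaussianReal 0 1) = c * ∫ v, φ' u * φ' (s * u + c * v) ∂(gaussianReal 0 1) := by
    intro u
    rw [integral_const_mul, integral_const_mul]
    have h1 := stein_bdd hd hm hb (s * u) c
    have h2 : ∀ v, φ (s * u + c * v) * v = v * φ (s * u + c * v) := fun v => mul_comm _ _
    simp_rw [h2]
    rw [h1]; ring
  simp_rw [e2]
  rw [integral_const_mul]
  refine mul_le_mul_of_nonneg_left ?_ hc
  have i3 : Integrable (fun p : ℝ × ℝ => φ' p.1 * φ' (s * p.1 + c * p.2))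
      (Measure.prod (gaussianReal 0 1) (gaussianReal 0 1)) := by
    refine Integrable.of_bound (Measurable.aestronglyMeasurable (by fun_prop)) (L * L) (Eventually.of_forall fun p => ?_)
    rw [Real.norm_eq_abs, abs_mul]
    exact mul_le_mul (hb _) (hb _) (abs_nonneg _) ((abs_nonneg _).trans (hb 0))
  rw [← integral_prod _ i3]
  have hsq : ∀ x, |φ' x ^ 2| ≤ L ^ 2 := by
    intro x
    rw [abs_pow]
    exact pow_le_pow_left₀ (abs_nonneg _) (hb x) 2
  have i4 : Integrable (fun p : ℝ × ℝ => φ' (1 * p.1 + 0 * p.2) ^ 2) (Measure.prod (gaussianReal 0 1) (gaussianReal 0 1)) :=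
    Integrable.of_bound (Measurable.aestronglyMeasurable (by fun_prop)) (L ^ 2) (Eventually.of_forall fun p => hsq _)
  have i5 : Integrable (fun p : ℝ × ℝ => φ' (s * p.1 + c * p.2) ^ 2) (Measure.prod (gaussianReal 0 1) (gaussianReal 0 1)) :=
    Integrable.of_bound (Measurable.aestronglyMeasurable (by fun_prop)) (L ^ 2) (Eventually.of_forall fun p => hsq _)
  have f1 := integral_gg_lin (φ := fun x => φ' x ^ 2) (by fun_prop) 0 1 0
  have f2 := integral_gg_lin (φ := fun x => φ' x ^ 2) (by fun_prop) 0 s c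
  rw [hsc] at f2
  simp only [zero_add, one_pow, ne_eq, OfNat.ofNat_ne_zero, not_false_eq_true, zero_pow, add_zero,
    Real.sqrt_one, one_mul, zero_mul] at f1 f2
  have h3 : ∫ p : ℝ × ℝ, φ' p.1 * φ' (s * p.1 + c * p.2) ∂(Measure.prod (gaussianReal 0 1) (gaussianReal 0 1))
      ≤ ∫ p : ℝ × ℝ, (1 / 2 * φ' (1 * p.1 + 0 * p.2) ^ 2
        + 1 / 2 * φ' (s * p.1 + c * p.2) ^ 2) ∂(Measure.prod (gaussianReal 0 1) (gaussianReal 0 1)) := by
    refine integral_mono i3 ((i4.const_mul _).add (i5.const_mul _)) fun p => ?_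
    simp only [one_mul, zero_mul, add_zero]
    nlinarith [sq_nonneg (φ' p.1 - φ' (s * p.1 + c * p.2))]
  refine h3.trans (le_of_eq ?_)
  rw [integral_add (i4.const_mul _) (i5.const_mul _), integral_const_mul, integral_const_mul]
  simp only [one_mul, zero_mul, add_zero]
  rw [f1, f2]; ring

/-- one-dimensional Gaussian Poincaré inequality -/
theorem poincare {φ φ' : ℝ → ℝ} {L : ℝ} (hd : ∀ x, HasDerivAt φ (φ' x) x)
    (hm : Measurable φ') (hb : ∀ x, |φ' x| ≤ L) :
    GE (fun x => φ x ^ 2) - (GE φ) ^ 2 ≤ GE (fun x => φ' x ^ 2) := by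
  have hL := lipR_of_deriv hd hb
  have hφm := hL.meas
  set V := GE (fun x => φ' x ^ 2) with hV
  set g : ℝ → ℝ := fun θ => ∫ p : ℝ × ℝ, φ p.1 * φ (Real.sin θ * p.1 + Real.cos θ * p.2)
    ∂(Measure.prod (gaussianReal 0 1) (gaussianReal 0 1)) with hg
  have hL0 := hL.nonneg
  have hp1 : ∀ p p' : ℝ × ℝ, |φ p.1 - φ p'.1| ≤ L * ‖p - p'‖ := fun p p' =>
    (hL _ _).trans (mul_le_mul_of_nonneg_left (norm_fst_le (p - p')) hL0)
  have hder : ∀ θ, HasDerivAt g (∫ p : ℝ × ℝ,
      φ p.1 * (φ' (Real.sin θ * p.1 + Real.cos θ * p.2)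
        * (Real.cos θ * p.1 - Real.sin θ * p.2)) ∂(Measure.prod (gaussianReal 0 1) (gaussianReal 0 1))) θ := by
    intro θ
    have hbint : Integrable (fun p : ℝ × ℝ => φ p.1 * (L * (|p.1| + |p.2|)))
        (Measure.prod (gaussianReal 0 1) (gaussianReal 0 1)) := by
      refine integrable_mul_of_lip (Measure.prod (gaussianReal 0 1) (gaussianReal 0 1)) hp1 (K' := L * 2) (fun p p' => ?_)
      rw [← mul_sub, abs_mul, abs_of_nonneg hL0, mul_assoc]
      refine mul_le_mul_of_nonneg_left ?_ hL0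
      have h1 : |p.1 - p'.1| ≤ ‖p - p'‖ := norm_fst_le (p - p')
      have h2 : |p.2 - p'.2| ≤ ‖p - p'‖ := norm_snd_le (p - p')
      have h3 := abs_abs_sub_abs_le p.1 p'.1
      have h4 := abs_abs_sub_abs_le p.2 p'.2
      have h5 : |p.1| + |p.2| - (|p'.1| + |p'.2|) = (|p.1| - |p'.1|) + (|p.2| - |p'.2|) := by ring
      rw [h5]
      refine (abs_add_le _ _).trans ?_
      linarith
    refine (hasDerivAt_integral_of_dominated_loc_of_deriv_le (μ := Measure.prod (gaussianReal 0 1) (gaussianReal 0 1))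
      (F := fun θ (p : ℝ × ℝ) => φ p.1 * φ (Real.sin θ * p.1 + Real.cos θ * p.2))
      (F' := fun θ (p : ℝ × ℝ) => φ p.1 * (φ' (Real.sin θ * p.1 + Real.cos θ * p.2)
        * (Real.cos θ * p.1 - Real.sin θ * p.2))) (s := Set.univ)
      (bound := fun p => ‖φ p.1 * (L * (|p.1| + |p.2|))‖) Filter.univ_mem
      (Eventually.of_forall fun θ => ?_) ?_ ?_ ?_ hbint.norm ?_).2
    · exact Measurable.aestronglyMeasurable (by fun_prop)
    · exact integrable_mul_of_lip (Measure.prod (gaussianReal 0 1) (gaussianReal 0 1)) hp1 (lip_lin2 hL _ _)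
    · exact Measurable.aestronglyMeasurable (by fun_prop)
    · refine Eventually.of_forall fun p θ _ => ?_
      rw [norm_mul, norm_mul, norm_mul]
      refine mul_le_mul_of_nonneg_left ?_ (norm_nonneg _)
      have h1 : ‖L * (|p.1| + |p.2|)‖ = L * (|p.1| + |p.2|) := by
        rw [Real.norm_eq_abs, abs_of_nonneg]; positivity
      rw [h1]
      refine mul_le_mul (hb _) ?_ (norm_nonneg _) hL0
      rw [Real.norm_eq_abs]
      refine (abs_sub _ _).trans ?_
      rw [abs_mul, abs_mul]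
      refine add_le_add ?_ ?_
      · exact mul_le_of_le_one_left (abs_nonneg _) (Real.abs_cos_le_one θ)
      · exact mul_le_of_le_one_left (abs_nonneg _) (Real.abs_sin_le_one θ)
    · refine Eventually.of_forall fun p θ _ => ?_
      have h1 : HasDerivAt (fun θ => Real.sin θ * p.1 + Real.cos θ * p.2)
          (Real.cos θ * p.1 - Real.sin θ * p.2) θ := by
        have := ((Real.hasDerivAt_sin θ).mul_const p.1).add ((Real.hasDerivAt_cos θ).mul_const p.2)
        refine this.congr_deriv ?_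
        ring
      exact ((hd _).comp θ h1).const_mul (φ p.1)
  have hmono : MonotoneOn (fun θ => V * Real.sin θ - g θ) (Set.Icc 0 (Real.pi / 2)) := by
    have hder2 : ∀ θ, HasDerivAt (fun θ => V * Real.sin θ - g θ) (V * Real.cos θ - ∫ p : ℝ × ℝ,
      φ p.1 * (φ' (Real.sin θ * p.1 + Real.cos θ * p.2)
        * (Real.cos θ * p.1 - Real.sin θ * p.2)) ∂(Measure.prod (gaussianReal 0 1) (gaussianReal 0 1))) θ := fun θ =>
      ((Real.hasDerivAt_sin θ).const_mul V).sub (hder θ)
    apply monotoneOn_of_deriv_nonneg (convex_Icc _ _)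
    · exact fun θ _ => (hder2 θ).continuousAt.continuousWithinAt
    · exact fun θ _ => (hder2 θ).differentiableAt.differentiableWithinAt
    · intro θ hθ
      rw [interior_Icc] at hθ
      rw [(hder2 θ).deriv]
      have hcos : 0 ≤ Real.cos θ := (Real.cos_pos_of_mem_Ioo
        ⟨by have := hθ.1; linarith [Real.pi_pos], hθ.2⟩).le
      have := rot_deriv_le hd hm hb hcos
      rw [← hV] at this
      linarith
  have h0 := hmono (Set.left_mem_Icc.2 (by positivity)) (Set.right_mem_Icc.2 (by positivity))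
    (by positivity : (0 : ℝ) ≤ Real.pi / 2)
  simp only [Real.sin_zero, mul_zero, Real.sin_pi_div_two, mul_one, zero_sub] at h0
  have g0 : g 0 = (GE φ) ^ 2 := by
    rw [hg]
    simp only [Real.sin_zero, zero_mul, Real.cos_zero, one_mul, zero_add]
    rw [integral_prod_mul (fun x => φ x) (fun x => φ x)]
    rw [sq]; rfl
  have g1 : g (Real.pi / 2) = GE (fun x => φ x ^ 2) := by
    rw [hg]
    simp only [Real.sin_pi_div_two, one_mul, Real.cos_pi_div_two, zero_mul, add_zero]
    have := integral_gg_lin (φ := fun x => φ x * φ x) (by fun_prop) 0 1 0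
    simp only [zero_add, one_pow, ne_eq, OfNat.ofNat_ne_zero, not_false_eq_true, zero_pow,
      add_zero, Real.sqrt_one, one_mul, zero_mul] at this
    rw [this]
    congr 1; funext x; ring
  rw [g0, g1] at h0
  linarith

/-- the deficit of `CC` near `1` -/
theorem CC_one_sub_le {φ φ' : ℝ → ℝ} {L : ℝ} (hd : ∀ x, HasDerivAt φ (φ' x) x)
    (hm : Measurable φ') (hb : ∀ x, |φ' x| ≤ L) {t : ℝ} (ht0 : 0 ≤ t) (ht : t ≤ 1) :
    CC φ 1 - CC φ t ≤ (1 - t) * GE (fun x => φ' x ^ 2) := by
  have hL := lipR_of_deriv hd hb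
  have hφm := hL.meas
  have hst : √t ^ 2 + √(1 - t) ^ 2 = 1 := by
    rw [Real.sq_sqrt ht0, Real.sq_sqrt (by linarith)]; ring
  have hsq : ∀ x, |φ' x ^ 2| ≤ L ^ 2 := by
    intro x
    rw [abs_pow]
    exact pow_le_pow_left₀ (abs_nonneg _) (hb x) 2
  have f1 := integral_gg_lin (φ := fun x => φ x ^ 2) (by fun_prop) 0 (√t) (√(1 - t))
  have f2 := integral_gg_lin (φ := fun x => φ' x ^ 2) (by fun_prop) 0 (√t) (√(1 - t))
  rw [hst] at f1 f2
  simp only [zero_add, Real.sqrt_one, one_mul] at f1 f2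
  have i1 : Integrable (fun p : ℝ × ℝ => φ (√t * p.1 + √(1 - t) * p.2) ^ 2)
      (Measure.prod (gaussianReal 0 1) (gaussianReal 0 1)) := by
    have := integrable_mul_of_lip (Measure.prod (gaussianReal 0 1) (gaussianReal 0 1)) (lip_lin2 hL (√t) (√(1 - t)))
      (lip_lin2 hL (√t) (√(1 - t)))
    refine this.congr (Eventually.of_forall fun p => ?_)
    simp only; ring
  have i2 : Integrable (fun p : ℝ × ℝ => φ' (√t * p.1 + √(1 - t) * p.2) ^ 2)
      (Measure.prod (gaussianReal 0 1) (gaussianReal 0 1)) :=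
    Integrable.of_bound (Measurable.aestronglyMeasurable (by fun_prop)) (L ^ 2)
      (Eventually.of_forall fun p => hsq _)
  have hls := sm_lip hL t
  have i3 : Integrable (fun z => sm φ t (√t * z) ^ 2) (gaussianReal 0 1) := by
    have h1 : LipR (L * |√t|) (fun z => sm φ t (√t * z)) := by
      have := hls.comp_affine 0 (√t)
      simpa using this
    have := integrable_mul_of_lip (f := fun z => sm φ t (√t * z))
      (g := fun z => sm φ t (√t * z)) (gaussianReal 0 1) (K := L * |√t|) (K' := L * |√t|)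
      (fun x y => by rw [Real.norm_eq_abs]; exact h1 x y)
      (fun x y => by rw [Real.norm_eq_abs]; exact h1 x y)
    refine this.congr (Eventually.of_forall fun p => ?_)
    simp only; ring
  rw [CC_one, ← f1, ← f2, integral_prod _ i1, integral_prod _ i2, CC]
  unfold GE
  rw [← integral_sub i1.integral_prod_left i3, ← integral_const_mul]
  refine integral_mono (i1.integral_prod_left.sub i3) (i2.integral_prod_left.const_mul _) ?_
  intro z
  have hd2 : ∀ z', HasDerivAt (fun z' => φ (√t * z + √(1 - t) * z'))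
      (√(1 - t) * φ' (√t * z + √(1 - t) * z')) z' := by
    intro z'
    have h1 : HasDerivAt (fun z' => √t * z + √(1 - t) * z') (√(1 - t)) z' := by
      simpa using ((hasDerivAt_id z').const_mul (√(1 - t))).const_add (√t * z)
    have := (hd (√t * z + √(1 - t) * z')).comp z' h1
    exact this.congr_deriv (mul_comm _ _)
  have hp := poincare (φ := fun z' => φ (√t * z + √(1 - t) * z'))
    (φ' := fun z' => √(1 - t) * φ' (√t * z + √(1 - t) * z')) (L := √(1 - t) * L) hd2
    (by fun_prop) (fun z' => by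
      rw [abs_mul, abs_of_nonneg (Real.sqrt_nonneg _)]
      exact mul_le_mul_of_nonneg_left (hb _) (Real.sqrt_nonneg _))
  have e1 : ∀ z', (√(1 - t) * φ' (√t * z + √(1 - t) * z')) ^ 2
      = (1 - t) * φ' (√t * z + √(1 - t) * z') ^ 2 := by
    intro z'
    rw [mul_pow, Real.sq_sqrt (by linarith)]
  simp only [e1] at hp
  unfold GE at hp
  rw [integral_const_mul] at hp
  exact hp

end

end Pool.Agent.IP49.SR
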