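import Pool.Agent.IP49.SDefs
import Pool.Agent.IP49.SPoin

/-!
IP49, part S2: weak law of large numbers for iid families (Chebyshev), and the laws of the
histories read site by site.

PROOFS.
* `lln_pi`: under `Measure.pi fun _ : Fin n => P` the variables `φ (x i)` are independent
  (`iIndepFun_pi`) with the law of `φ`; `Var (∑ φ (x i)) = n Var φ ≤ n E φ²`
  (`IndepFun.variance_sum` or expand the square directly), Chebyshev
  (`ProbabilityTheory.meas_ge_le_variance_div_sq`).
* `lln_tendsto`: from `lln_pi`, with `n = n(N) → ∞`.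
* `site_law`: `omLaw` is a product measure (`histLaw` is a product of `Measure.pi`s); the map reads
  off `η_1..η_K, z` at site `i`; use `measurePreserving` of the projections, `Fin.snoc` against
  `piFinSuccAbove (Fin.last K)` and the swap
  `(Fin (K+1) → Fin N → ℝ) ≃ (Fin N → Fin (K+1) → ℝ)`. A direct way: both sides are probability
  measures which agree on boxes (`Measure.pi_eq`), the preimage of a box is a box of `omLaw`.
* `row_law`: same for the rows.
-/

set_option autoImplicit false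
open MeasureTheory ProbabilityTheory Filter Topology
open scoped ENNReal

namespace Pool.Agent.IP49.SR

noncomputable section

theorem lln_pi {X : Type*} [MeasurableSpace X] (P : Measure X) [IsProbabilityMeasure P]
    {φ : X → ℝ} (hm : Measurable φ) (h2 : MemLp φ 2 P) {δ : ℝ} (hδ : 0 < δ) {n : ℕ}
    (hn : 0 < n) :
    (Measure.pi fun _ : Fin n => P).real
      {x | ¬ |(∑ i, φ (x i)) / n - ∫ y, φ y ∂P| ≤ δ} ≤ (∫ y, φ y ^ 2 ∂P) / (n * δ ^ 2) := by
  have hn' : (0 : ℝ) < n := by exact_mod_cast hn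
  set S : (Fin n → X) → ℝ := ∑ i : Fin n, fun x => φ (x i) with hS
  have hSx : ∀ x, S x = ∑ i, φ (x i) := fun x => by rw [hS, Finset.sum_apply]
  have hmem : ∀ i : Fin n, MemLp (fun x : Fin n → X => φ (x i)) 2
      (Measure.pi fun _ : Fin n => P) := fun i =>
    h2.comp_measurePreserving (measurePreserving_eval (fun _ : Fin n => P) i)
  have hSL : MemLp S 2 (Measure.pi fun _ : Fin n => P) := by
    rw [hS]
    exact memLp_finsetSum' _ fun i _ => hmem i
  have hvar : Var[S; Measure.pi fun _ : Fin n => P] = n * Var[φ; P] := by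
    rw [hS, variance_sum_pi (μ := fun _ : Fin n => P) (X := fun _ => φ) (fun _ => h2)]
    simp
  have hmean : ∫ x, S x ∂(Measure.pi fun _ : Fin n => P) = n * ∫ y, φ y ∂P := by
    simp only [hSx]
    rw [integral_finsetSum _ fun i _ => (hmem i).integrable (by norm_num)]
    have h3 : ∀ i : Fin n, ∫ x : Fin n → X, φ (x i) ∂(Measure.pi fun _ : Fin n => P) =
        ∫ y, φ y ∂P := fun i =>
      integral_comp_eval (μ := fun _ : Fin n => P) (i := i) h2.aestronglyMeasurable
    simp [h3]
  have hle : Var[φ; P] ≤ ∫ y, φ y ^ 2 ∂P := variance_le_expectation_sq h2.aestronglyMeasurable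
  have hsub : {x : Fin n → X | ¬ |(∑ i, φ (x i)) / n - ∫ y, φ y ∂P| ≤ δ} ⊆
      {x | n * δ ≤ |S x - ∫ x, S x ∂(Measure.pi fun _ : Fin n => P)|} := by
    intro x hx
    have hx' : δ < |(∑ i, φ (x i)) / n - ∫ y, φ y ∂P| := not_le.1 hx
    change n * δ ≤ |S x - ∫ x, S x ∂(Measure.pi fun _ : Fin n => P)|
    rw [hmean, hSx]
    have h4 : (∑ i, φ (x i)) - n * ∫ y, φ y ∂P =
        n * ((∑ i, φ (x i)) / n - ∫ y, φ y ∂P) := by
      field_simp
    rw [h4, abs_mul, abs_of_pos hn']
    exact mul_le_mul_of_nonneg_left hx'.le hn'.le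
  have hcheb := meas_ge_le_variance_div_sq hSL (c := n * δ) (by positivity)
  have h5 : (Measure.pi fun _ : Fin n => P)
      {x : Fin n → X | ¬ |(∑ i, φ (x i)) / n - ∫ y, φ y ∂P| ≤ δ} ≤
      ENNReal.ofReal ((∫ y, φ y ^ 2 ∂P) / (n * δ ^ 2)) := by
    refine (measure_mono hsub).trans (hcheb.trans (ENNReal.ofReal_le_ofReal ?_))
    rw [hvar]
    have h6 : n * Var[φ; P] / (n * δ) ^ 2 = Var[φ; P] / (n * δ ^ 2) := by
      field_simp
    rw [h6]
    gcongr
  have h7 : 0 ≤ (∫ y, φ y ^ 2 ∂P) / (n * δ ^ 2) :=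
    div_nonneg (integral_nonneg fun y => sq_nonneg _) (by positivity)
  rw [Measure.real]
  exact (ENNReal.toReal_mono ENNReal.ofReal_ne_top h5).trans_eq (ENNReal.toReal_ofReal h7)

theorem lln_tendsto {X : Type*} [MeasurableSpace X] (P : Measure X) [IsProbabilityMeasure P]
    {φ : X → ℝ} (hm : Measurable φ) (h2 : MemLp φ 2 P) {δ : ℝ} (hδ : 0 < δ) {n : ℕ → ℕ}
    (hn : Tendsto n atTop atTop) :
    Tendsto (fun N => (Measure.pi fun _ : Fin (n N) => P).real
      {x | ¬ |(∑ i, φ (x i)) / n N - ∫ y, φ y ∂P| ≤ δ}) atTop (𝓝 0) := by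
  have h1 : Tendsto (fun N => (∫ y, φ y ^ 2 ∂P) / ((n N : ℝ) * δ ^ 2)) atTop (𝓝 0) := by
    apply Tendsto.div_atTop tendsto_const_nhds
    exact Tendsto.atTop_mul_const (by positivity) (tendsto_natCast_atTop_atTop.comp hn)
  refine tendsto_of_tendsto_of_tendsto_of_le_of_le' tendsto_const_nhds h1
    (Eventually.of_forall fun N => measureReal_nonneg) ?_
  filter_upwards [hn.eventually_gt_atTop 0] with N hN
  exact lln_pi P hm h2 hδ hN

/-- the history at site `i`: `(η_1(i), …, η_K(i), z(i))` -/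
def siteH {M N K : ℕ} (ω : Om M N K) (i : Fin N) : Fin (K + 1) → ℝ :=
  Fin.snoc (fun t => ω.1.1 t i) (ω.2.1 i)

/-- the history at row `a` -/
def rowH {M N K : ℕ} (ω : Om M N K) (a : Fin M) : Fin (K + 1) → ℝ :=
  Fin.snoc (fun t => ω.1.2 t a) (ω.2.2 a)

private theorem snoc_law16 (K : ℕ) :
    MeasurePreserving (fun p : (Fin K → ℝ) × ℝ => (Fin.snoc p.1 p.2 : Fin (K + 1) → ℝ))
      ((gv (Fin K)).prod (gaussianReal 0 1)) (gv (Fin (K + 1))) := by
  have h1 := (measurePreserving_piFinSuccAbove (fun _ : Fin (K + 1) => gaussianReal 0 1)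
    (Fin.last K)).symm
  have h2 : MeasurePreserving Prod.swap ((gv (Fin K)).prod (gaussianReal 0 1))
      ((gaussianReal 0 1).prod (gv (Fin K))) := Measure.measurePreserving_swap
  have h3 := h1.comp h2
  have h4 : (fun p : (Fin K → ℝ) × ℝ => (Fin.snoc p.1 p.2 : Fin (K + 1) → ℝ)) =
      (MeasurableEquiv.piFinSuccAbove (fun _ : Fin (K + 1) => ℝ) (Fin.last K)).symm ∘
        Prod.swap := by
    funext p
    exact (Fin.insertNth_last' p.2 p.1).symm
  rw [h4]
  exact h3

private theorem site_aux16 (K N : ℕ) :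
    MeasurePreserving (fun p : (Fin K → Fin N → ℝ) × (Fin N → ℝ) => fun i =>
      (Fin.snoc (fun t => p.1 t i) (p.2 i) : Fin (K + 1) → ℝ))
      ((Measure.pi fun _ : Fin K => gv (Fin N)).prod (gv (Fin N)))
      (Measure.pi fun _ : Fin N => gv (Fin (K + 1))) := by
  have h1 := (gm_transpose (Fin K) (Fin N)).prod (MeasurePreserving.id (gv (Fin N)))
  have h2 := (measurePreserving_arrowProdEquivProdArrow (Fin K → ℝ) ℝ (Fin N)
    (fun _ => gv (Fin K)) (fun _ => gaussianReal 0 1)).symm
  have h3 := measurePreserving_pi (fun _ : Fin N => (gv (Fin K)).prod (gaussianReal 0 1))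
    (fun _ => gv (Fin (K + 1))) (fun _ => snoc_law16 K)
  exact h3.comp (h2.comp h1)

theorem site_law (M N K : ℕ) :
    MeasurePreserving (siteH (M := M) (N := N) (K := K)) (omLaw M N K)
      (Measure.pi fun _ : Fin N => gv (Fin (K + 1))) := by
  have h1 : MeasurePreserving (fun ω : Om M N K => (ω.1.1, ω.2.1)) (omLaw M N K)
      ((Measure.pi fun _ : Fin K => gv (Fin N)).prod (gv (Fin N))) :=
    (measurePreserving_fst (μ := Measure.pi fun _ : Fin K => gv (Fin N))
      (ν := Measure.pi fun _ : Fin K => gv (Fin M))).prod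
      (measurePreserving_fst (μ := gv (Fin N)) (ν := gv (Fin M)))
  exact (site_aux16 K N).comp h1

theorem rowH_law (M N K : ℕ) :
    MeasurePreserving (rowH (M := M) (N := N) (K := K)) (omLaw M N K)
      (Measure.pi fun _ : Fin M => gv (Fin (K + 1))) := by
  have h1 : MeasurePreserving (fun ω : Om M N K => (ω.1.2, ω.2.2)) (omLaw M N K)
      ((Measure.pi fun _ : Fin K => gv (Fin M)).prod (gv (Fin M))) :=
    (measurePreserving_snd (μ := Measure.pi fun _ : Fin K => gv (Fin N))
      (ν := Measure.pi fun _ : Fin K => gv (Fin M))).prod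
      (measurePreserving_snd (μ := gv (Fin N)) (ν := gv (Fin M)))
  exact (site_aux16 K M).comp h1

end

end Pool.Agent.IP49.SR
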