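import Pool.Agent.IP49.STimes
import Pool.Agent.IP49.SLLN

/-!
IP49, part S2 (helper95): a Brownian path read along a clock `c` with `c 0 = 0`, as linear forms
`dot (av c K s) x` of `K + 1` Gaussian coordinates; expectations of products; Lipschitz site
functions.
-/

set_option autoImplicit false
open MeasureTheory ProbabilityTheory Filter Topology
open scoped ENNReal

namespace Pool.Agent.IP49.SR

noncomputable section

/-- extended clock: the last time is `1` -/
def wx (w : ℕ → ℝ) (K s : ℕ) : ℝ := if s ≤ K then w s else 1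

/-- coefficients of `B_{c s}` -/
def av (c : ℕ → ℝ) (K s : ℕ) : Fin (K + 1) → ℝ :=
  fun t => if (t : ℕ) < s then √(c (t + 1) - c t) else 0

lemma dot_av {c : ℕ → ℝ} (hc : Monotone c) (h0 : c 0 = 0) {K s t : ℕ} (hst : s ≤ t)
    (hs : s ≤ K + 1) : dot (av c K s) (av c K t) = c s := by
  have h1 : dot (av c K s) (av c K t)
      = ∑ u ∈ Finset.range (K + 1), (if u < s then c (u + 1) - c u else 0) := by
    rw [Finset.sum_range]
    refine Finset.sum_congr rfl fun u _ => ?_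
    unfold av
    by_cases h : (u : ℕ) < s
    · rw [if_pos h, if_pos (lt_of_lt_of_le h hst), if_pos h,
        Real.mul_self_sqrt (sub_nonneg.2 (hc (Nat.le_succ _)))]
    · rw [if_neg h, if_neg h, zero_mul]
  have h2 : ∑ u ∈ Finset.range s, (c (u + 1) - c u)
      = ∑ u ∈ Finset.range (K + 1), (if u < s then c (u + 1) - c u else 0) := by
    rw [Finset.sum_congr rfl (g := fun u => if u < s then c (u + 1) - c u else 0)
      (fun u hu => by rw [if_pos (Finset.mem_range.1 hu)])]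
    refine Finset.sum_subset (Finset.range_mono hs) fun u _ hu => ?_
    rw [if_neg (fun h => hu (Finset.mem_range.2 h))]
  rw [h1, ← h2, Finset.sum_range_sub, h0, sub_zero]

/-- the martingale at clock time `c s` -/
def UU (φ : ℝ → ℝ) (c : ℕ → ℝ) (K s : ℕ) (x : Fin (K + 1) → ℝ) : ℝ :=
  sm φ (c s) (dot (av c K s) x)

lemma E_UU {φ : ℝ → ℝ} {L : ℝ} (h : LipR L φ) {c : ℕ → ℝ} (hc : Monotone c) (h0 : c 0 = 0)
    {K : ℕ} (h1 : c (K + 1) ≤ 1) {s t : ℕ} (hst : s ≤ t) (ht : t ≤ K + 1) :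
    ∫ x, UU φ c K s x * UU φ c K t x ∂(gv (Fin (K + 1))) = CC φ (c s) :=
  E_sm_sm h (dot_av hc h0 le_rfl (hst.trans ht)) (dot_av hc h0 le_rfl ht)
    (dot_av hc h0 hst (hst.trans ht)) (hc hst) ((hc ht).trans h1)

lemma dot_single {ι : Type*} [Fintype ι] [DecidableEq ι] (t : ι) (x : ι → ℝ) :
    dot (Pi.single t 1) x = x t := by
  unfold dot
  rw [Finset.sum_eq_single t]
  · simp
  · intro b _ hb; simp [hb]
  · intro h; exact absurd (Finset.mem_univ t) h

lemma E_xU {φ : ℝ → ℝ} {L : ℝ} (h : LipR L φ) {c : ℕ → ℝ} (hc : Monotone c) (h0 : c 0 = 0)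
    {K : ℕ} (h1 : c (K + 1) ≤ 1) {s : ℕ} (hs : s ≤ K + 1) (t : Fin (K + 1)) :
    ∫ x, x t * UU φ c K s x ∂(gv (Fin (K + 1)))
      = (if (t : ℕ) < s then √(c (t + 1) - c t) else 0) * DD φ := by
  have e := dot_av hc h0 le_rfl hs (K := K)
  have h2 := E_lin_sm h (a := av c K s) (by rw [e]; exact (hc hs).trans h1) (Pi.single t 1)
  rw [e] at h2
  simp only [dot_single] at h2
  exact h2

/-! ### Lipschitz site functions -/

/-- Lipschitz functions of the `K + 1` coordinates -/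
def LipV {K : ℕ} (g : (Fin (K + 1) → ℝ) → ℝ) : Prop := ∃ C : ℝ, ∀ x y, |g x - g y| ≤ C * ‖x - y‖

lemma LipV.sub {K : ℕ} {f g : (Fin (K + 1) → ℝ) → ℝ} (hf : LipV f) (hg : LipV g) :
    LipV (fun x => f x - g x) := by
  obtain ⟨C, hC⟩ := hf
  obtain ⟨C', hC'⟩ := hg
  refine ⟨C + C', fun x y => ?_⟩
  have e : f x - g x - (f y - g y) = (f x - f y) - (g x - g y) := by ring
  rw [e, add_mul]
  exact (abs_sub _ _).trans (add_le_add (hC x y) (hC' x y))

lemma LipV.div {K : ℕ} {f : (Fin (K + 1) → ℝ) → ℝ} (hf : LipV f) (a : ℝ) :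
    LipV (fun x => f x / a) := by
  obtain ⟨C, hC⟩ := hf
  refine ⟨C * |a⁻¹|, fun x y => ?_⟩
  have e : f x / a - f y / a = (f x - f y) * a⁻¹ := by rw [div_eq_mul_inv, div_eq_mul_inv]; ring
  rw [e, abs_mul, mul_assoc, mul_comm |a⁻¹|, ← mul_assoc]
  exact mul_le_mul_of_nonneg_right (hC x y) (abs_nonneg _)

lemma LipV.const_mul {K : ℕ} {f : (Fin (K + 1) → ℝ) → ℝ} (hf : LipV f) (a : ℝ) :
    LipV (fun x => a * f x) := by
  obtain ⟨C, hC⟩ := hf
  refine ⟨|a| * C, fun x y => ?_⟩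
  rw [← mul_sub, abs_mul, mul_assoc]
  exact mul_le_mul_of_nonneg_left (hC x y) (abs_nonneg _)

lemma LipV.const {K : ℕ} (a : ℝ) : LipV (fun _ : Fin (K + 1) → ℝ => a) :=
  ⟨0, fun x y => by simp⟩

lemma LipV.coord {K : ℕ} (t : Fin (K + 1)) : LipV (fun x : Fin (K + 1) → ℝ => x t) :=
  ⟨1, fun x y => by rw [one_mul]; exact norm_le_pi_norm (x - y) t⟩

lemma LipV.comp_dot {K : ℕ} {φ : ℝ → ℝ} {L : ℝ} (h : LipR L φ) (a : Fin (K + 1) → ℝ) :
    LipV (fun x => φ (dot a x)) := ⟨_, h.comp_dot a⟩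

lemma LipV.UU {K : ℕ} {φ : ℝ → ℝ} {L : ℝ} (h : LipR L φ) (c : ℕ → ℝ) (s : ℕ) :
    LipV (UU φ c K s) := LipV.comp_dot (sm_lip h (c s)) _

lemma LipV.continuous {K : ℕ} {f : (Fin (K + 1) → ℝ) → ℝ} (hf : LipV f) : Continuous f := by
  obtain ⟨C, hC⟩ := hf
  have : LipschitzWith C.toNNReal f := by
    apply LipschitzWith.of_dist_le_mul
    intro x y
    rw [Real.dist_eq, dist_eq_norm]
    refine (hC x y).trans ?_
    exact mul_le_mul_of_nonneg_right (Real.le_coe_toNNReal C) (norm_nonneg _)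
  exact this.continuous

lemma LipV.memLp_mul {K : ℕ} {f g : (Fin (K + 1) → ℝ) → ℝ} (hf : LipV f) (hg : LipV g) :
    MemLp (fun x => f x * g x) 2 (gv (Fin (K + 1))) := by
  obtain ⟨C, hC⟩ := hf
  obtain ⟨C', hC'⟩ := hg
  exact memLp_mul_of_lip (gv (Fin (K + 1))) hC hC'

lemma LipV.integrable_mul {K : ℕ} {f g : (Fin (K + 1) → ℝ) → ℝ} (hf : LipV f) (hg : LipV g) :
    Integrable (fun x => f x * g x) (gv (Fin (K + 1))) :=
  (hf.memLp_mul hg).integrable (by norm_num)

/-- expectation of a product of two increments -/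
lemma E_DD {φ : ℝ → ℝ} {L : ℝ} (h : LipR L φ) {c : ℕ → ℝ} (hc : Monotone c) (h0 : c 0 = 0)
    {K : ℕ} (h1 : c (K + 1) ≤ 1) {s t : ℕ} (hs : s ≤ K) (ht : t ≤ K) :
    ∫ x, (UU φ c K (s + 1) x - UU φ c K s x) * (UU φ c K (t + 1) x - UU φ c K t x)
      ∂(gv (Fin (K + 1))) = if s = t then CC φ (c (s + 1)) - CC φ (c s) else 0 := by
  have hU : ∀ s, LipV (UU φ c K s) := fun s => LipV.UU h c s
  have hexp : ∀ x : Fin (K + 1) → ℝ,
      (UU φ c K (s + 1) x - UU φ c K s x) * (UU φ c K (t + 1) x - UU φ c K t x)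
      = (UU φ c K (s + 1) x * UU φ c K (t + 1) x - UU φ c K (s + 1) x * UU φ c K t x)
        - (UU φ c K s x * UU φ c K (t + 1) x - UU φ c K s x * UU φ c K t x) := by
    intro x; ring
  simp_rw [hexp]
  rw [integral_sub, integral_sub, integral_sub]
  · have key : ∀ a b, a ≤ K + 1 → b ≤ K + 1 →
        ∫ x, UU φ c K a x * UU φ c K b x ∂(gv (Fin (K + 1))) = CC φ (c (min a b)) := by
      intro a b ha hb
      rcases le_total a b with hab | hab
      · rw [min_eq_left hab]; exact E_UU h hc h0 h1 hab hb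
      · rw [min_eq_right hab]
        have : ∀ x : Fin (K + 1) → ℝ, UU φ c K a x * UU φ c K b x
            = UU φ c K b x * UU φ c K a x := fun x => mul_comm _ _
        simp_rw [this]
        exact E_UU h hc h0 h1 hab ha
    rw [key _ _ (by omega) (by omega), key _ _ (by omega) (by omega),
      key _ _ (by omega) (by omega), key _ _ (by omega) (by omega)]
    split_ifs with e
    · subst e
      rw [min_self, min_self, min_eq_right (Nat.le_succ s), min_eq_left (Nat.le_succ s)]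
      ring
    · rcases lt_or_gt_of_ne e with hlt | hlt
      · rw [min_eq_left (by omega : s + 1 ≤ t + 1), min_eq_left (by omega : s + 1 ≤ t),
          min_eq_left (by omega : s ≤ t + 1), min_eq_left (by omega : s ≤ t)]
        ring
      · rw [min_eq_right (by omega : t + 1 ≤ s + 1), min_eq_right (by omega : t ≤ s + 1),
          min_eq_right (by omega : t + 1 ≤ s), min_eq_right (by omega : t ≤ s)]
        ring
  · exact (hU _).integrable_mul (hU _)
  · exact (hU _).integrable_mul (hU _)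
  · exact (hU _).integrable_mul (hU _)
  · exact (hU _).integrable_mul (hU _)
  · exact ((hU _).integrable_mul (hU _)).sub ((hU _).integrable_mul (hU _))
  · exact ((hU _).integrable_mul (hU _)).sub ((hU _).integrable_mul (hU _))

/-- expectation of an increment against a later value -/
lemma E_DU {φ : ℝ → ℝ} {L : ℝ} (h : LipR L φ) {c : ℕ → ℝ} (hc : Monotone c) (h0 : c 0 = 0)
    {K : ℕ} (h1 : c (K + 1) ≤ 1) {s t : ℕ} (hst : s + 1 ≤ t) (ht : t ≤ K + 1) :
    ∫ x, (UU φ c K (s + 1) x - UU φ c K s x) * UU φ c K t x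
      ∂(gv (Fin (K + 1))) = CC φ (c (s + 1)) - CC φ (c s) := by
  have hU : ∀ s, LipV (UU φ c K s) := fun s => LipV.UU h c s
  simp_rw [sub_mul]
  rw [integral_sub ((hU _).integrable_mul (hU _)) ((hU _).integrable_mul (hU _)),
    E_UU h hc h0 h1 hst ht, E_UU h hc h0 h1 (by omega) ht]

/-- expectation of a coordinate against an increment -/
lemma E_xD {φ : ℝ → ℝ} {L : ℝ} (h : LipR L φ) {c : ℕ → ℝ} (hc : Monotone c) (h0 : c 0 = 0)
    {K : ℕ} (h1 : c (K + 1) ≤ 1) {s : ℕ} (hs : s ≤ K) (t : Fin (K + 1)) :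
    ∫ x, x t * (UU φ c K (s + 1) x - UU φ c K s x) ∂(gv (Fin (K + 1)))
      = if (t : ℕ) = s then √(c (t + 1) - c t) * DD φ else 0 := by
  have hU : ∀ s, LipV (UU φ c K s) := fun s => LipV.UU h c s
  simp_rw [mul_sub]
  rw [integral_sub ((LipV.coord t).integrable_mul (hU _)) ((LipV.coord t).integrable_mul (hU _)),
    E_xU h hc h0 h1 (by omega) t, E_xU h hc h0 h1 (by omega) t]
  by_cases e : (t : ℕ) = s
  · rw [if_pos e, if_pos (by omega), if_neg (by omega)]; ring
  · rw [if_neg e]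
    by_cases h' : (t : ℕ) < s
    · rw [if_pos (by omega), if_pos h']; ring
    · rw [if_neg (by omega), if_neg h']; ring

lemma E_xx {K : ℕ} (s t : Fin (K + 1)) :
    ∫ x : Fin (K + 1) → ℝ, x s * x t ∂(gv (Fin (K + 1))) = if s = t then 1 else 0 := by
  classical
  have h1 := cov_eval (ι := Fin (K + 1)) s t
  have h2 := covariance_eq_sub (μ := gv (Fin (K + 1))) (memLp_eval s) (memLp_eval t)
  rw [h1] at h2
  have m : ∀ u : Fin (K + 1), ∫ x : Fin (K + 1) → ℝ, x u ∂(gv (Fin (K + 1))) = 0 := by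
    intro u
    have := mean_dot (ι := Fin (K + 1)) (Pi.single u 1)
    simp only [dot_single] at this
    exact this
  rw [m, m, zero_mul, sub_zero] at h2
  rw [h2]
  rfl

end

end Pool.Agent.IP49.SR
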