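import Pool.Agent.IP49.Law2
import Pool.Agent.IP49.VDefs
import Pool.Agent.IP49.SVec

/-!
# IP49, part S: definitions of the explicit representation (notes 1603, 1604)

`ft f v t x = E[f(√v B₁) | B_t = x]`; times `mu s`, `rho s`; the vectors `m^s`, `n^s`, their
normalised increments `mh s`, `nh s`, Gram-Schmidt directions `cdir`, `rdir`, the assembled
matrix `GR`, the exactly Gaussian vectors `hv`, `hhv`, and the good event `Good δ`.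
-/

set_option autoImplicit false
open MeasureTheory ProbabilityTheory Filter Topology

namespace Pool.Agent.IP49.SR

noncomputable section

/-- `f_t(x) = E f(√v (x + √(1-t) Z))` -/
def ft (f : ℝ → ℝ) (v t x : ℝ) : ℝ :=
  GE fun z => f (Real.sqrt v * (x + Real.sqrt (1 - t) * z))

/-- `C_f(t) = E f_t(√t Z)²` -/
def Cf (f : ℝ → ℝ) (v t : ℝ) : ℝ := GE fun x => ft f v t (Real.sqrt t * x) ^ 2

/-- the times `(ρ_s, μ_s)`: `ψ μ_{s+1} = α C_F(ρ_s)`, `q ρ_{s+1} = C_tanh(μ_{s+1})` -/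
def tms (κ ν ψ : ℝ) : ℕ → ℝ × ℝ
  | 0 => (0, 0)
  | s + 1 =>
    (Cf Real.tanh ψ (al κ ν ψ / ψ * Cf (FF κ ν (qp ψ)) (qp ψ) (tms κ ν ψ s).1) / qp ψ,
      al κ ν ψ / ψ * Cf (FF κ ν (qp ψ)) (qp ψ) (tms κ ν ψ s).1)

def rho (κ ν ψ : ℝ) (s : ℕ) : ℝ := (tms κ ν ψ s).1

def mu (κ ν ψ : ℝ) (s : ℕ) : ℝ := (tms κ ν ψ s).2

theorem rho_zero (κ ν ψ : ℝ) : rho κ ν ψ 0 = 0 := rfl

theorem mu_zero (κ ν ψ : ℝ) : mu κ ν ψ 0 = 0 := rfl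

theorem mu_succ (κ ν ψ : ℝ) (s : ℕ) :
    mu κ ν ψ (s + 1) = al κ ν ψ / ψ * Cf (FF κ ν (qp ψ)) (qp ψ) (rho κ ν ψ s) := rfl

theorem rho_succ (κ ν ψ : ℝ) (s : ℕ) :
    rho κ ν ψ (s + 1) = Cf Real.tanh ψ (mu κ ν ψ (s + 1)) / qp ψ := rfl

/-- standard deviation of the increment of a clock `w` -/
def dq (w : ℕ → ℝ) (s : ℕ) : ℝ := Real.sqrt (w (s + 1) - w s)

/-- `B_{w_s} = ∑_{t<s} √(w_{t+1} - w_t) e_t` (coordinatewise) -/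
def bm {ι : Type*} (w : ℕ → ℝ) (e : ℕ → ι → ℝ) (s : ℕ) : ι → ℝ :=
  fun i => ∑ t ∈ Finset.range s, dq w t * e t i

/-- the site martingale `m^s = E[tanh(√ψ B₁) | B_{μ_s}]` -/
def mv (κ ν ψ : ℝ) {ι : Type*} (e : ℕ → ι → ℝ) (s : ℕ) : ι → ℝ :=
  fun i => ft Real.tanh ψ (mu κ ν ψ s) (bm (mu κ ν ψ) e s i)

/-- the row martingale `n^0 = 0`, `n^{s+1} = E[F(√q B₁) | B_{ρ_s}]` -/
def nv (κ ν ψ : ℝ) {ι : Type*} (x : ℕ → ι → ℝ) : ℕ → ι → ℝ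
  | 0 => fun _ => 0
  | s + 1 => fun a => ft (FF κ ν (qp ψ)) (qp ψ) (rho κ ν ψ s) (bm (rho κ ν ψ) x s a)

/-- `√q √(ρ_{s+1} - ρ_s)` -/
def as (κ ν ψ : ℝ) (s : ℕ) : ℝ := Real.sqrt (qp ψ) * dq (rho κ ν ψ) s

/-- `√ψ √(μ_{s+1} - μ_s)` -/
def bs (κ ν ψ : ℝ) (s : ℕ) : ℝ := Real.sqrt ψ * dq (mu κ ν ψ) s

/-- normalised increments of `m` (`mh s` depends on `e_t`, `t ≤ s`) -/
def mh (κ ν ψ : ℝ) {ι : Type*} (e : ℕ → ι → ℝ) (s : ℕ) : ι → ℝ :=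
  fun i => (mv κ ν ψ e (s + 1) i - mv κ ν ψ e s i) / as κ ν ψ s

/-- normalised increments of `n` (`nh s` depends on `x_t`, `t < s`) -/
def nh (κ ν ψ : ℝ) {ι : Type*} (x : ℕ → ι → ℝ) (s : ℕ) : ι → ℝ :=
  fun a => (nv κ ν ψ x (s + 1) a - nv κ ν ψ x s a) / (bs κ ν ψ s / Real.sqrt (al κ ν ψ))

/-- extension of a finite sequence by `0` -/
def ext {K : ℕ} {ι : Type*} (f : Fin K → ι → ℝ) : ℕ → ι → ℝ :=
  fun t => if h : t < K then f ⟨t, h⟩ else fun _ => 0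

/-- extension of a finite sequence of length `K` by one more entry `y` and then by `0` -/
def exl {K : ℕ} {ι : Type*} (f : Fin K → ι → ℝ) (y : ι → ℝ) : ℕ → ι → ℝ :=
  fun t => if h : t < K then f ⟨t, h⟩ else if t = K then y else fun _ => 0

/-- fallback unit vector -/
def fb (N : ℕ) : Fin N → ℝ := fun i => if (i : ℕ) = 0 then 1 else 0

/-- normalisation, with the fallback vector for the zero vector -/
def uni {N : ℕ} (v : Fin N → ℝ) : Fin N → ℝ :=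
  if dot v v = 0 then fb N else fun i => v i / Real.sqrt (dot v v)

/-- Gram-Schmidt with fallback: `gsv v s` depends on `v_t`, `t ≤ s` -/
def gsv {N : ℕ} (v : ℕ → Fin N → ℝ) (s : ℕ) : Fin N → ℝ :=
  uni (fun i => v s i - ∑ t : Fin s, dot (v s) (gsv v t) * gsv v t i)
termination_by s
decreasing_by all_goals exact t.2

/-- row directions -/
def cdir (κ ν ψ : ℝ) {M N : ℕ} (s : ℕ) (p : Hist M N s) : Fin M → ℝ :=
  gsv (nh κ ν ψ (ext p.2)) s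

/-- column directions -/
def rdir (κ ν ψ : ℝ) {M N : ℕ} (s : ℕ) (p : Hist M N s) (y : Fin N → ℝ) : Fin N → ℝ :=
  gsv (mh κ ν ψ (exl p.1 y)) s

/-- probability space without the fresh matrix: history of `K` steps and the extra noise -/
abbrev Om (M N K : ℕ) := Hist M N K × ((Fin N → ℝ) × (Fin M → ℝ))

def omLaw (M N K : ℕ) : Measure (Om M N K) :=
  (histLaw M N K).prod ((gv (Fin N)).prod (gv (Fin M)))

instance omLaw_prob (M N K : ℕ) : IsProbabilityMeasure (omLaw M N K) := by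
  unfold omLaw; infer_instance

/-- the matrix of the representation -/
def GR (κ ν ψ : ℝ) {M N K : ℕ} (p : Om M N K × (Fin M → Fin N → ℝ)) : Fin M → Fin N → ℝ :=
  asm (cdir κ ν ψ) (rdir κ ν ψ) K p.1.1 p.2

/-- `h = √ψ B₁`, exactly iid `N(0, ψ)` -/
def hv (κ ν ψ : ℝ) {M N K : ℕ} (ω : Om M N K) : Fin N → ℝ := fun i =>
  Real.sqrt ψ * (bm (mu κ ν ψ) (ext ω.1.1) K i + Real.sqrt (1 - mu κ ν ψ K) * ω.2.1 i)

/-- `hh = √q B₁`, exactly iid `N(0, q)` -/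
def hhv (κ ν ψ : ℝ) {M N K : ℕ} (ω : Om M N K) : Fin M → ℝ := fun a =>
  Real.sqrt (qp ψ) * (bm (rho κ ν ψ) (ext ω.1.2) K a + Real.sqrt (1 - rho κ ν ψ K) * ω.2.2 a)

/-- the good event: finitely many empirical averages are within `δ` of their limits -/
structure Good (κ ν ψ δ : ℝ) {M N K : ℕ} (ω : Om M N K) : Prop where
  mm : ∀ s < K, ∀ t < K, |dot (mh κ ν ψ (ext ω.1.1) s) (mh κ ν ψ (ext ω.1.1) t) / N
    - (if s = t then 1 else 0)| ≤ δ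
  nn : ∀ s < K, ∀ t < K, |dot (nh κ ν ψ (ext ω.1.2) s) (nh κ ν ψ (ext ω.1.2) t) / M
    - (if s = t then 1 else 0)| ≤ δ
  ee : ∀ s < K, ∀ t < K, |dot (ext ω.1.1 s) (ext ω.1.1 t) / N - (if s = t then 1 else 0)| ≤ δ
  xx : ∀ s < K, ∀ t < K, |dot (ext ω.1.2 s) (ext ω.1.2 t) / M - (if s = t then 1 else 0)| ≤ δ
  em : ∀ s < K, ∀ t < s, |dot (ext ω.1.1 s) (mh κ ν ψ (ext ω.1.1) t) / N| ≤ δ
  xn : ∀ s < K, ∀ t ≤ s, |dot (ext ω.1.2 s) (nh κ ν ψ (ext ω.1.2) t) / M| ≤ δ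
  eh : ∀ s < K, |dot (ext ω.1.1 s) (fun i => Real.tanh (hv κ ν ψ ω i)) / N
    - bs κ ν ψ s * (1 - qp ψ)| ≤ δ
  mht : ∀ s < K, |dot (mh κ ν ψ (ext ω.1.1) s) (fun i => Real.tanh (hv κ ν ψ ω i)) / N
    - as κ ν ψ s| ≤ δ
  xF : ∀ s < K, |dot (ext ω.1.2 s) (fun a => FF κ ν (qp ψ) (hhv κ ν ψ ω a)) / N
    - as κ ν ψ s * dd κ ν ψ| ≤ δ
  nF : ∀ s < K, |dot (nh κ ν ψ (ext ω.1.2) s) (fun a => FF κ ν (qp ψ) (hhv κ ν ψ ω a)) / M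
    - bs κ ν ψ s / Real.sqrt (al κ ν ψ)| ≤ δ
  tt : |dot (fun i => Real.tanh (hv κ ν ψ ω i)) (fun i => Real.tanh (hv κ ν ψ ω i)) / N
    - qp ψ| ≤ δ
  FF' : |dot (fun a => FF κ ν (qp ψ) (hhv κ ν ψ ω a)) (fun a => FF κ ν (qp ψ) (hhv κ ν ψ ω a)) / M
    - ψ / al κ ν ψ| ≤ δ
  hh1 : |dot (hv κ ν ψ ω) (hv κ ν ψ ω) / N - ψ| ≤ δ
  ze : |dot ω.2.1 ω.2.1 / N - 1| ≤ δ
  zx : |dot ω.2.2 ω.2.2 / M - 1| ≤ δ

end

end Pool.Agent.IP49.SR
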