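import Pool.Agent.IP49.SForm

/-!
# IP49, part S: deterministic estimates on the good event, first part

`Pk κ ν ψ θ ω`: the good event at level `θ` together with orthonormality and closeness of the
Gram-Schmidt directions.
-/

set_option autoImplicit false
open MeasureTheory ProbabilityTheory Filter Topology

namespace Pool.Agent.IP49.SR

/-- comparison of two linear combinations -/
theorem comb_le {ι : Type*} [Fintype ι] (K : ℕ) (a a' : ℕ → ℝ) (v v' : ℕ → ι → ℝ)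
    {θ1 θ2 L A : ℝ} (h1 : ∀ s < K, |a s - a' s| ≤ θ1) (h2 : ∀ s < K, nrm (v s) ≤ L)
    (h3 : ∀ s < K, |a' s| ≤ A) (h4 : ∀ s < K, nrm (v s - v' s) ≤ θ2) :
    nrm (∑ s ∈ Finset.range K, a s • v s - ∑ s ∈ Finset.range K, a' s • v' s)
      ≤ K * (θ1 * L + A * θ2) := by
  rw [← Finset.sum_sub_distrib]
  refine (nrm_sum_le _ _).trans ?_
  have : ∀ s ∈ Finset.range K, nrm (a s • v s - a' s • v' s) ≤ θ1 * L + A * θ2 := by
    intro s hs
    rw [Finset.mem_range] at hs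
    have e : a s • v s - a' s • v' s = (a s - a' s) • v s + a' s • (v s - v' s) := by
      rw [sub_smul, smul_sub]; abel
    rw [e]
    refine (nrm_add_le _ _).trans ?_
    rw [nrm_smul, nrm_smul]
    have i1 : |a s - a' s| * nrm (v s) ≤ θ1 * L :=
      mul_le_mul (h1 s hs) (h2 s hs) (nrm_nonneg _) ((abs_nonneg _).trans (h1 s hs))
    have i2 : |a' s| * nrm (v s - v' s) ≤ A * θ2 :=
      mul_le_mul (h3 s hs) (h4 s hs) (nrm_nonneg _) ((abs_nonneg _).trans (h3 s hs))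
    exact add_le_add i1 i2
  refine (Finset.sum_le_sum this).trans ?_
  rw [Finset.sum_const, Finset.card_range, nsmul_eq_mul]

/-- distance to a linear combination of almost orthonormal vectors -/
theorem dist_comb {ι : Type*} [Fintype ι] (K : ℕ) (F : ι → ℝ) (v : ℕ → ι → ℝ) (β : ℕ → ℝ)
    {n A δ : ℝ} (hn : 0 < n) (hβ : ∀ s < K, 0 ≤ β s)
    (h1 : |dot F F / n - A| ≤ δ) (h2 : ∀ s < K, |dot (v s) F / n - β s| ≤ δ)
    (h3 : ∀ s < K, ∀ t < K, |dot (v s) (v t) / n - (if s = t then 1 else 0)| ≤ δ) :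
    nrm (F - ∑ s ∈ Finset.range K, β s • v s) ^ 2
      ≤ n * (A - ∑ s ∈ Finset.range K, β s ^ 2
        + δ * (1 + ∑ s ∈ Finset.range K, β s) ^ 2) := by
  rw [nrm_sub_sq, nrm_sq, nrm_sq]
  have e1 : dot F F ≤ n * (A + δ) := by
    have := (abs_le.mp h1).2
    have h : dot F F / n ≤ A + δ := by linarith
    rw [div_le_iff₀ hn] at h; linarith
  have e2 : ∑ s ∈ Finset.range K, β s * (n * (β s - δ))
      ≤ dot F (∑ s ∈ Finset.range K, β s • v s) := by
    rw [dot_sum_right]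
    refine Finset.sum_le_sum fun s hs => ?_
    rw [Finset.mem_range] at hs
    rw [dot_smul_right, dot_comm]
    refine mul_le_mul_of_nonneg_left ?_ (hβ s hs)
    have := (abs_le.mp (h2 s hs)).1
    have h : β s - δ ≤ dot (v s) F / n := by linarith
    rw [le_div_iff₀ hn] at h; linarith
  have e3 : dot (∑ s ∈ Finset.range K, β s • v s) (∑ s ∈ Finset.range K, β s • v s)
      ≤ ∑ s ∈ Finset.range K, ∑ t ∈ Finset.range K,
        (β s * β t) * (n * ((if s = t then 1 else 0) + δ)) := by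
    rw [dot_sum_left]
    refine Finset.sum_le_sum fun s hs => ?_
    rw [dot_sum_right]
    refine Finset.sum_le_sum fun t ht => ?_
    rw [Finset.mem_range] at hs ht
    rw [dot_smul_left, dot_smul_right, ← mul_assoc]
    refine mul_le_mul_of_nonneg_left ?_ (mul_nonneg (hβ s hs) (hβ t ht))
    have := (abs_le.mp (h3 s hs t ht)).2
    have h : dot (v s) (v t) / n ≤ (if s = t then 1 else 0) + δ := by linarith
    rw [div_le_iff₀ hn] at h; linarith
  have e4 : ∑ s ∈ Finset.range K, ∑ t ∈ Finset.range K,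
        (β s * β t) * (n * ((if s = t then (1 : ℝ) else 0) + δ))
      = n * (∑ s ∈ Finset.range K, β s ^ 2 + δ * (∑ s ∈ Finset.range K, β s) ^ 2) := by
    have : ∀ s ∈ Finset.range K, ∑ t ∈ Finset.range K,
        (β s * β t) * (n * ((if s = t then (1 : ℝ) else 0) + δ))
        = n * β s ^ 2 + n * δ * β s * ∑ t ∈ Finset.range K, β t := by
      intro s hs
      have h : ∀ t, (β s * β t) * (n * ((if s = t then (1 : ℝ) else 0) + δ))
          = (if s = t then n * β s * β t else 0) + n * δ * β s * β t := by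
        intro t; split_ifs <;> ring
      simp_rw [h]
      rw [Finset.sum_add_distrib, Finset.sum_ite_eq, if_pos hs, ← Finset.mul_sum]
      ring
    rw [Finset.sum_congr rfl this, Finset.sum_add_distrib, ← Finset.mul_sum, ← Finset.sum_mul,
      ← Finset.mul_sum]
    ring
  have e5 : ∑ s ∈ Finset.range K, β s * (n * (β s - δ))
      = n * (∑ s ∈ Finset.range K, β s ^ 2 - δ * ∑ s ∈ Finset.range K, β s) := by
    have : ∀ s ∈ Finset.range K, β s * (n * (β s - δ)) = n * β s ^ 2 - n * δ * β s :=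
      fun s _ => by ring
    rw [Finset.sum_congr rfl this, Finset.sum_sub_distrib, ← Finset.mul_sum, ← Finset.mul_sum]
    ring
  rw [e4] at e3
  rw [e5] at e2
  nlinarith

/-- error of a projection -/
theorem nrm_projs_sub_le {ι : Type*} [Fintype ι] {S : Finset ℕ} {c : ℕ → ι → ℝ}
    (hc : ∀ s ∈ S, nrm (c s) = 1) (x : ι → ℝ) {B : ℝ} (hB : ∀ s ∈ S, |dot (c s) x| ≤ B) :
    nrm (projs S c x - x) ≤ S.card * B := by
  have : projs S c x - x = -∑ s ∈ S, dot (c s) x • c s := by rw [projs]; abel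
  rw [this, nrm_neg]
  refine (nrm_sum_le _ _).trans ?_
  have h : ∀ s ∈ S, nrm (dot (c s) x • c s) ≤ B := fun s hs => by
    rw [nrm_smul, hc s hs, mul_one]; exact hB s hs
  refine (Finset.sum_le_sum h).trans ?_
  rw [Finset.sum_const, nsmul_eq_mul]

/-- the good event at level `θ` with the properties of the Gram-Schmidt directions -/
structure Pk (κ ν ψ θ : ℝ) {M N K : ℕ} (ω : Om M N K) : Prop where
  hM : 0 < M
  hN : 0 < N
  pos : 0 ≤ θ
  small : θ ≤ 1 / 2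
  good : Good κ ν ψ θ ω
  onc : ON (Finset.range K) (gsv (nh κ ν ψ (ext ω.1.2)))
  onr : ON (Finset.range K) (gsv (mh κ ν ψ (ext ω.1.1)))
  clc : ∀ s < K, nrm (Real.sqrt M • gsv (nh κ ν ψ (ext ω.1.2)) s - nh κ ν ψ (ext ω.1.2) s)
    ≤ θ * Real.sqrt M
  clr : ∀ s < K, nrm (Real.sqrt N • gsv (mh κ ν ψ (ext ω.1.1)) s - mh κ ν ψ (ext ω.1.1) s)
    ≤ θ * Real.sqrt N
  ratio : |(M : ℝ) / N - al κ ν ψ| ≤ θ

theorem Good.mono {κ ν ψ δ δ' : ℝ} {M N K : ℕ} {ω : Om M N K} (h : Good κ ν ψ δ ω)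
    (hδ : δ ≤ δ') : Good κ ν ψ δ' ω where
  mm := fun s hs t ht => (h.mm s hs t ht).trans hδ
  nn := fun s hs t ht => (h.nn s hs t ht).trans hδ
  ee := fun s hs t ht => (h.ee s hs t ht).trans hδ
  xx := fun s hs t ht => (h.xx s hs t ht).trans hδ
  em := fun s hs t ht => (h.em s hs t ht).trans hδ
  xn := fun s hs t ht => (h.xn s hs t ht).trans hδ
  eh := fun s hs => (h.eh s hs).trans hδ
  mht := fun s hs => (h.mht s hs).trans hδ
  xF := fun s hs => (h.xF s hs).trans hδ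
  nF := fun s hs => (h.nF s hs).trans hδ
  tt := h.tt.trans hδ
  FF' := h.FF'.trans hδ
  hh1 := h.hh1.trans hδ
  ze := h.ze.trans hδ
  zx := h.zx.trans hδ

/-- from the good event at level `δ` to the package at level `7^K δ` -/
theorem Pk.of_good {κ ν ψ δ : ℝ} {M N K : ℕ} (hM : 0 < M) (hN : 0 < N) {ω : Om M N K}
    (hδ : 0 ≤ δ) (hK : 7 ^ K * δ ≤ 1 / 2) (h : Good κ ν ψ δ ω)
    (hr : |(M : ℝ) / N - al κ ν ψ| ≤ δ) : Pk κ ν ψ (7 ^ K * δ) ω := by
  have h7 : (1 : ℝ) ≤ 7 ^ K := one_le_pow₀ (by norm_num)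
  have hle : δ ≤ 7 ^ K * δ := by nlinarith
  have hM' : (0 : ℝ) < M := Nat.cast_pos.mpr hM
  have hN' : (0 : ℝ) < N := Nat.cast_pos.mpr hN
  obtain ⟨a1, a2⟩ := gs_close hM hM' (nh κ ν ψ (ext ω.1.2)) hδ hK h.nn K le_rfl
  obtain ⟨b1, b2⟩ := gs_close hN hN' (mh κ ν ψ (ext ω.1.1)) hδ hK h.mm K le_rfl
  refine ⟨hM, hN, by positivity, hK, h.mono hle, a1, b1, fun s hs => ?_, fun s hs => ?_,
    hr.trans hle⟩
  · refine (a2 s hs).trans ?_
    have : (7 : ℝ) ^ s ≤ 7 ^ K := pow_le_pow_right₀ (by norm_num) hs.le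
    exact mul_le_mul_of_nonneg_right (mul_le_mul_of_nonneg_right this hδ) (Real.sqrt_nonneg _)
  · refine (b2 s hs).trans ?_
    have : (7 : ℝ) ^ s ≤ 7 ^ K := pow_le_pow_right₀ (by norm_num) hs.le
    exact mul_le_mul_of_nonneg_right (mul_le_mul_of_nonneg_right this hδ) (Real.sqrt_nonneg _)

/-- a vector with `⟨v,v⟩/n ≤ 1 + θ` has norm at most `2 √n` -/
theorem nrm_le_two {ι : Type*} [Fintype ι] {v : ι → ℝ} {n θ : ℝ} (hn : 0 < n) (hθ : θ ≤ 1 / 2)
    (h : |dot v v / n - 1| ≤ θ) : nrm v ≤ 2 * Real.sqrt n := by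
  have h1 : dot v v / n ≤ 3 / 2 := by have := (abs_le.mp h).2; linarith
  rw [div_le_iff₀ hn] at h1
  apply nrm_le_of_sq_le (by positivity)
  rw [nrm_sq, mul_pow, Real.sq_sqrt hn.le]; linarith

namespace Pk

variable {κ ν ψ θ : ℝ} {M N K : ℕ} {ω : Om M N K}

theorem Mpos (h : Pk κ ν ψ θ ω) : (0 : ℝ) < M := Nat.cast_pos.mpr h.hM

theorem Npos (h : Pk κ ν ψ θ ω) : (0 : ℝ) < N := Nat.cast_pos.mpr h.hN

theorem sM (h : Pk κ ν ψ θ ω) : 0 < Real.sqrt M := Real.sqrt_pos.mpr h.Mpos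

theorem sN (h : Pk κ ν ψ θ ω) : 0 < Real.sqrt N := Real.sqrt_pos.mpr h.Npos

theorem nrm_e (h : Pk κ ν ψ θ ω) {s : ℕ} (hs : s < K) : nrm (ext ω.1.1 s) ≤ 2 * Real.sqrt N := by
  have := h.good.ee s hs s hs
  rw [if_pos rfl] at this
  exact nrm_le_two h.Npos h.small this

theorem nrm_x (h : Pk κ ν ψ θ ω) {s : ℕ} (hs : s < K) : nrm (ext ω.1.2 s) ≤ 2 * Real.sqrt M := by
  have := h.good.xx s hs s hs
  rw [if_pos rfl] at this
  exact nrm_le_two h.Mpos h.small this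

theorem nrm_mh (h : Pk κ ν ψ θ ω) {s : ℕ} (hs : s < K) :
    nrm (mh κ ν ψ (ext ω.1.1) s) ≤ 2 * Real.sqrt N := by
  have := h.good.mm s hs s hs
  rw [if_pos rfl] at this
  exact nrm_le_two h.Npos h.small this

theorem nrm_nh (h : Pk κ ν ψ θ ω) {s : ℕ} (hs : s < K) :
    nrm (nh κ ν ψ (ext ω.1.2) s) ≤ 2 * Real.sqrt M := by
  have := h.good.nn s hs s hs
  rw [if_pos rfl] at this
  exact nrm_le_two h.Mpos h.small this

/-- pairing with a Gram-Schmidt vector versus pairing with the unnormalised vector -/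
theorem pair_c (h : Pk κ ν ψ θ ω) {s : ℕ} (hs : s < K) (u : Fin M → ℝ) :
    |dot (gsv (nh κ ν ψ (ext ω.1.2)) s) u * Real.sqrt M - dot (nh κ ν ψ (ext ω.1.2) s) u|
      ≤ θ * Real.sqrt M * nrm u := by
  have : dot (gsv (nh κ ν ψ (ext ω.1.2)) s) u * Real.sqrt M - dot (nh κ ν ψ (ext ω.1.2) s) u
      = dot (Real.sqrt M • gsv (nh κ ν ψ (ext ω.1.2)) s - nh κ ν ψ (ext ω.1.2) s) u := by
    rw [dot_sub_left, dot_smul_left]; ring
  rw [this]
  exact (abs_dot_le _ _).trans (mul_le_mul_of_nonneg_right (h.clc s hs) (nrm_nonneg _))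

theorem pair_r (h : Pk κ ν ψ θ ω) {s : ℕ} (hs : s < K) (w : Fin N → ℝ) :
    |dot (gsv (mh κ ν ψ (ext ω.1.1)) s) w * Real.sqrt N - dot (mh κ ν ψ (ext ω.1.1) s) w|
      ≤ θ * Real.sqrt N * nrm w := by
  have : dot (gsv (mh κ ν ψ (ext ω.1.1)) s) w * Real.sqrt N - dot (mh κ ν ψ (ext ω.1.1) s) w
      = dot (Real.sqrt N • gsv (mh κ ν ψ (ext ω.1.1)) s - mh κ ν ψ (ext ω.1.1) s) w := by
    rw [dot_sub_left, dot_smul_left]; ring
  rw [this]
  exact (abs_dot_le _ _).trans (mul_le_mul_of_nonneg_right (h.clr s hs) (nrm_nonneg _))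

theorem dot_c_x (h : Pk κ ν ψ θ ω) {s t : ℕ} (hs : s < K) (ht : t ≤ s) :
    |dot (gsv (nh κ ν ψ (ext ω.1.2)) t) (ext ω.1.2 s)| ≤ 3 * θ * Real.sqrt M := by
  have h1 := h.pair_c (by omega : t < K) (ext ω.1.2 s)
  have h2 := h.good.xn s hs t ht
  rw [abs_div, abs_of_pos h.Mpos, div_le_iff₀ h.Mpos, dot_comm] at h2
  have h3 := h.nrm_x hs
  have hθ := h.pos
  have hs0 := h.sM
  have hsM : Real.sqrt M * Real.sqrt M = M := Real.mul_self_sqrt h.Mpos.le
  have h4 : θ * Real.sqrt M * nrm (ext ω.1.2 s) ≤ θ * Real.sqrt M * (2 * Real.sqrt M) :=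
    mul_le_mul_of_nonneg_left h3 (by positivity)
  have h5 : |dot (gsv (nh κ ν ψ (ext ω.1.2)) t) (ext ω.1.2 s)| * Real.sqrt M
      ≤ 3 * θ * Real.sqrt M * Real.sqrt M := by
    rw [← abs_of_pos hs0, ← abs_mul, abs_of_pos hs0]
    have h6 := abs_sub_abs_le_abs_sub
      (dot (gsv (nh κ ν ψ (ext ω.1.2)) t) (ext ω.1.2 s) * Real.sqrt M)
      (dot (nh κ ν ψ (ext ω.1.2) t) (ext ω.1.2 s))
    have h7 : 3 * θ * Real.sqrt M * Real.sqrt M = 3 * θ * M := by rw [mul_assoc, hsM]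
    have h8 : θ * Real.sqrt M * (2 * Real.sqrt M) = 2 * θ * M := by
      rw [show θ * Real.sqrt M * (2 * Real.sqrt M) = 2 * θ * (Real.sqrt M * Real.sqrt M) by ring,
        hsM]
    rw [h7]; rw [h8] at h4; linarith
  exact le_of_mul_le_mul_right h5 hs0

theorem dot_r_e (h : Pk κ ν ψ θ ω) {s t : ℕ} (hs : s < K) (ht : t < s) :
    |dot (gsv (mh κ ν ψ (ext ω.1.1)) t) (ext ω.1.1 s)| ≤ 3 * θ * Real.sqrt N := by
  have h1 := h.pair_r (by omega : t < K) (ext ω.1.1 s)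
  have h2 := h.good.em s hs t ht
  rw [abs_div, abs_of_pos h.Npos, div_le_iff₀ h.Npos, dot_comm] at h2
  have h3 := h.nrm_e hs
  have hθ := h.pos
  have hs0 := h.sN
  have hsM : Real.sqrt N * Real.sqrt N = N := Real.mul_self_sqrt h.Npos.le
  have h4 : θ * Real.sqrt N * nrm (ext ω.1.1 s) ≤ θ * Real.sqrt N * (2 * Real.sqrt N) :=
    mul_le_mul_of_nonneg_left h3 (by positivity)
  have h5 : |dot (gsv (mh κ ν ψ (ext ω.1.1)) t) (ext ω.1.1 s)| * Real.sqrt N
      ≤ 3 * θ * Real.sqrt N * Real.sqrt N := by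
    rw [← abs_of_pos hs0, ← abs_mul, abs_of_pos hs0]
    have h6 := abs_sub_abs_le_abs_sub
      (dot (gsv (mh κ ν ψ (ext ω.1.1)) t) (ext ω.1.1 s) * Real.sqrt N)
      (dot (mh κ ν ψ (ext ω.1.1) t) (ext ω.1.1 s))
    have h7 : 3 * θ * Real.sqrt N * Real.sqrt N = 3 * θ * N := by rw [mul_assoc, hsM]
    have h8 : θ * Real.sqrt N * (2 * Real.sqrt N) = 2 * θ * N := by
      rw [show θ * Real.sqrt N * (2 * Real.sqrt N) = 2 * θ * (Real.sqrt N * Real.sqrt N) by ring,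
        hsM]
    rw [h7]; rw [h8] at h4; linarith
  exact le_of_mul_le_mul_right h5 hs0

end Pk

end Pool.Agent.IP49.SR
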