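import Pool.Agent.IP49.SDet1

/-!
# IP49, part S: deterministic estimates on the good event, second part

The four sums in the formulas of `SForm` are replaced by their limits.
-/

set_option autoImplicit false
open MeasureTheory ProbabilityTheory Filter Topology

namespace Pool.Agent.IP49.SR

/-- the facts about the times used by the deterministic part -/
structure Tm (κ ν ψ : ℝ) : Prop where
  hψ : 0 < ψ
  hq : 0 < qp ψ
  hq1 : qp ψ < 1
  hal : 0 < al κ ν ψ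
  rinc : ∀ s, rho κ ν ψ s < rho κ ν ψ (s + 1)
  rlt : ∀ s, rho κ ν ψ s < 1
  minc : ∀ s, mu κ ν ψ s < mu κ ν ψ (s + 1)
  mlt : ∀ s, mu κ ν ψ s < 1

namespace Tm

variable {κ ν ψ : ℝ}

theorem rho_nonneg (h : Tm κ ν ψ) (s : ℕ) : 0 ≤ rho κ ν ψ s := by
  induction s with
  | zero => rw [rho_zero]
  | succ s ih => exact ih.trans (h.rinc s).le

theorem mu_nonneg (h : Tm κ ν ψ) (s : ℕ) : 0 ≤ mu κ ν ψ s := by
  induction s with
  | zero => rw [mu_zero]
  | succ s ih => exact ih.trans (h.minc s).le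

theorem as_pos (h : Tm κ ν ψ) (s : ℕ) : 0 < as κ ν ψ s :=
  mul_pos (Real.sqrt_pos.mpr h.hq) (Real.sqrt_pos.mpr (sub_pos.mpr (h.rinc s)))

theorem bs_pos (h : Tm κ ν ψ) (s : ℕ) : 0 < bs κ ν ψ s :=
  mul_pos (Real.sqrt_pos.mpr h.hψ) (Real.sqrt_pos.mpr (sub_pos.mpr (h.minc s)))

theorem as_sq (h : Tm κ ν ψ) (s : ℕ) :
    as κ ν ψ s ^ 2 = qp ψ * (rho κ ν ψ (s + 1) - rho κ ν ψ s) := by
  rw [as, dq, mul_pow, Real.sq_sqrt h.hq.le, Real.sq_sqrt (sub_pos.mpr (h.rinc s)).le]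

theorem bs_sq (h : Tm κ ν ψ) (s : ℕ) :
    bs κ ν ψ s ^ 2 = ψ * (mu κ ν ψ (s + 1) - mu κ ν ψ s) := by
  rw [bs, dq, mul_pow, Real.sq_sqrt h.hψ.le, Real.sq_sqrt (sub_pos.mpr (h.minc s)).le]

theorem as_le (h : Tm κ ν ψ) (s : ℕ) : as κ ν ψ s ≤ 1 := by
  have h1 := h.as_sq s
  have h2 := h.rho_nonneg s
  have h3 := (h.rlt (s + 1)).le
  have h4 := h.hq
  have h5 := h.hq1
  have h6 := h.as_pos s
  have h7 : rho κ ν ψ (s + 1) - rho κ ν ψ s ≤ 1 := by linarith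
  have h8 : 0 ≤ rho κ ν ψ (s + 1) - rho κ ν ψ s := (sub_pos.mpr (h.rinc s)).le
  nlinarith

theorem bs_le (h : Tm κ ν ψ) (s : ℕ) : bs κ ν ψ s ≤ Real.sqrt ψ := by
  have h2 := h.mu_nonneg s
  have h3 := (h.mlt (s + 1)).le
  have h7 : mu κ ν ψ (s + 1) - mu κ ν ψ s ≤ 1 := by linarith
  have h8 : Real.sqrt (mu κ ν ψ (s + 1) - mu κ ν ψ s) ≤ 1 := by
    rw [← Real.sqrt_one]; exact Real.sqrt_le_sqrt h7
  calc bs κ ν ψ s ≤ Real.sqrt ψ * 1 := mul_le_mul_of_nonneg_left h8 (Real.sqrt_nonneg _)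
    _ = Real.sqrt ψ := mul_one _

theorem sum_as_sq (h : Tm κ ν ψ) (K : ℕ) :
    ∑ s ∈ Finset.range K, as κ ν ψ s ^ 2 = qp ψ * rho κ ν ψ K := by
  simp_rw [h.as_sq]
  rw [← Finset.mul_sum, Finset.sum_range_sub, rho_zero, sub_zero]

theorem sum_bs_sq (h : Tm κ ν ψ) (K : ℕ) :
    ∑ s ∈ Finset.range K, bs κ ν ψ s ^ 2 = ψ * mu κ ν ψ K := by
  simp_rw [h.bs_sq]
  rw [← Finset.mul_sum, Finset.sum_range_sub, mu_zero, sub_zero]

end Tm

theorem GE_tanh_zero (ψ : ℝ) : ft Real.tanh ψ 0 0 = 0 := by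
  unfold ft
  have h := GE_neg (fun z => Real.tanh (Real.sqrt ψ * (0 + Real.sqrt (1 - 0) * z)))
  have h2 : GE (fun z => Real.tanh (Real.sqrt ψ * (0 + Real.sqrt (1 - 0) * -z)))
      = -GE (fun z => Real.tanh (Real.sqrt ψ * (0 + Real.sqrt (1 - 0) * z))) := by
    unfold GE
    rw [← integral_neg]
    congr 1
    funext z
    have e : Real.sqrt ψ * (0 + Real.sqrt (1 - 0) * -z)
      = -(Real.sqrt ψ * (0 + Real.sqrt (1 - 0) * z)) := by ring
    change Real.tanh (Real.sqrt ψ * (0 + Real.sqrt (1 - 0) * -z)) = _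
    rw [e, Real.tanh_neg]
  rw [h2] at h
  linarith

theorem mv_zero (κ ν ψ : ℝ) {ι : Type*} (e : ℕ → ι → ℝ) : mv κ ν ψ e 0 = 0 := by
  funext i
  simp only [mv, mu_zero, bm, Finset.range_zero, Finset.sum_empty, Pi.zero_apply]
  exact GE_tanh_zero ψ

/-- telescoping of the site martingale -/
theorem mv_eq_sum {κ ν ψ : ℝ} (h : Tm κ ν ψ) {ι : Type*} (e : ℕ → ι → ℝ) (K : ℕ) :
    mv κ ν ψ e K = ∑ s ∈ Finset.range K, as κ ν ψ s • mh κ ν ψ e s := by
  have h1 : ∀ s, as κ ν ψ s • mh κ ν ψ e s = mv κ ν ψ e (s + 1) - mv κ ν ψ e s := by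
    intro s
    funext i
    simp only [mh, Pi.smul_apply, smul_eq_mul, Pi.sub_apply]
    rw [mul_div_cancel₀ _ (h.as_pos s).ne']
  simp_rw [h1]
  rw [Finset.sum_range_sub, mv_zero, sub_zero]

/-- telescoping of the row martingale -/
theorem nv_eq_sum {κ ν ψ : ℝ} (h : Tm κ ν ψ) {ι : Type*} (x : ℕ → ι → ℝ) (K : ℕ) :
    nv κ ν ψ x K
      = ∑ s ∈ Finset.range K, (bs κ ν ψ s / Real.sqrt (al κ ν ψ)) • nh κ ν ψ x s := by
  have h1 : ∀ s, (bs κ ν ψ s / Real.sqrt (al κ ν ψ)) • nh κ ν ψ x s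
      = nv κ ν ψ x (s + 1) - nv κ ν ψ x s := by
    intro s
    funext i
    simp only [nh, Pi.smul_apply, smul_eq_mul, Pi.sub_apply]
    rw [mul_div_cancel₀]
    exact (div_pos (h.bs_pos s) (Real.sqrt_pos.mpr h.hal)).ne'
  simp_rw [h1]
  rw [Finset.sum_range_sub]
  have : nv κ ν ψ x 0 = 0 := rfl
  rw [this, sub_zero]

theorem bm_smul_eq_sum {ι : Type*} (a : ℝ) (w : ℕ → ℝ) (e : ℕ → ι → ℝ) (K : ℕ) :
    a • bm w e K = ∑ s ∈ Finset.range K, (a * dq w s) • e s := by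
  funext i
  simp only [bm, Pi.smul_apply, smul_eq_mul, Finset.sum_apply, Finset.mul_sum]
  exact Finset.sum_congr rfl fun s _ => by ring

namespace Pk

variable {κ ν ψ θ : ℝ} {M N K : ℕ} {ω : Om M N K}

theorem card_range_le (s K : ℕ) (hs : s ≤ K) : ((Finset.range s).card : ℝ) ≤ K := by
  rw [Finset.card_range]; exact_mod_cast hs

/-- `√M ≤ (α + 1) √N` -/
theorem sM_le (h : Pk κ ν ψ θ ω) (ht : Tm κ ν ψ) :
    Real.sqrt M ≤ (al κ ν ψ + 1) * Real.sqrt N := by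
  have h1 := (abs_le.mp h.ratio).2
  have h2 : (M : ℝ) / N ≤ al κ ν ψ + 1 := by have := h.small; linarith
  rw [div_le_iff₀ h.Npos] at h2
  have h3 := ht.hal
  have h4 : (M : ℝ) ≤ ((al κ ν ψ + 1) * Real.sqrt N) ^ 2 := by
    rw [mul_pow, Real.sq_sqrt h.Npos.le]
    have := h.Npos
    nlinarith
  exact Real.sqrt_le_iff.mpr ⟨by positivity, h4⟩

/-- `|√N - √M/√α| ≤ θ √N / α` -/
theorem ratio_N (h : Pk κ ν ψ θ ω) (ht : Tm κ ν ψ) :
    |Real.sqrt N - Real.sqrt M / Real.sqrt (al κ ν ψ)| ≤ θ / al κ ν ψ * Real.sqrt N := by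
  have hal := ht.hal
  have hsa := Real.sqrt_pos.mpr hal
  have hN := h.Npos
  have hM := h.Mpos
  have e1 : Real.sqrt (al κ ν ψ) * Real.sqrt (al κ ν ψ) = al κ ν ψ := Real.mul_self_sqrt hal.le
  have e2 : Real.sqrt N * Real.sqrt N = N := Real.mul_self_sqrt hN.le
  have e3 : Real.sqrt M * Real.sqrt M = M := Real.mul_self_sqrt hM.le
  have h1 : |(M : ℝ) - al κ ν ψ * N| ≤ θ * N := by
    have : (M : ℝ) - al κ ν ψ * N = (M / N - al κ ν ψ) * N := by field_simp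
    rw [this, abs_mul, abs_of_pos hN]
    exact mul_le_mul_of_nonneg_right h.ratio hN.le
  have hd : 0 < Real.sqrt (al κ ν ψ) * Real.sqrt N + Real.sqrt M := by
    have := h.sN; have := h.sM; positivity
  have h2 : (Real.sqrt N - Real.sqrt M / Real.sqrt (al κ ν ψ))
      * (Real.sqrt (al κ ν ψ) * (Real.sqrt (al κ ν ψ) * Real.sqrt N + Real.sqrt M))
      = al κ ν ψ * N - M := by
    have : Real.sqrt M / Real.sqrt (al κ ν ψ) * Real.sqrt (al κ ν ψ) = Real.sqrt M :=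
      div_mul_cancel₀ _ hsa.ne'
    calc _ = (Real.sqrt (al κ ν ψ) * Real.sqrt N
        - Real.sqrt M / Real.sqrt (al κ ν ψ) * Real.sqrt (al κ ν ψ))
        * (Real.sqrt (al κ ν ψ) * Real.sqrt N + Real.sqrt M) := by ring
      _ = (Real.sqrt (al κ ν ψ) * Real.sqrt (al κ ν ψ)) * (Real.sqrt N * Real.sqrt N)
        - Real.sqrt M * Real.sqrt M := by rw [this]; ring
      _ = _ := by rw [e1, e2, e3]
  have h3 : |Real.sqrt N - Real.sqrt M / Real.sqrt (al κ ν ψ)|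
      * (Real.sqrt (al κ ν ψ) * (Real.sqrt (al κ ν ψ) * Real.sqrt N + Real.sqrt M))
      ≤ θ * N := by
    rw [← abs_of_pos (mul_pos hsa hd), ← abs_mul, h2, abs_sub_comm]; exact h1
  have h4 : |Real.sqrt N - Real.sqrt M / Real.sqrt (al κ ν ψ)| * (al κ ν ψ * Real.sqrt N)
      ≤ |Real.sqrt N - Real.sqrt M / Real.sqrt (al κ ν ψ)|
      * (Real.sqrt (al κ ν ψ) * (Real.sqrt (al κ ν ψ) * Real.sqrt N + Real.sqrt M)) := by
    refine mul_le_mul_of_nonneg_left ?_ (abs_nonneg _)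
    have : Real.sqrt (al κ ν ψ) * (Real.sqrt (al κ ν ψ) * Real.sqrt N + Real.sqrt M)
        = al κ ν ψ * Real.sqrt N + Real.sqrt (al κ ν ψ) * Real.sqrt M := by
      rw [mul_add, ← mul_assoc, e1]
    rw [this]
    have := mul_pos hsa h.sM
    linarith
  have h5 := h4.trans h3
  have h6 : θ * (N : ℝ) = θ / al κ ν ψ * Real.sqrt N * (al κ ν ψ * Real.sqrt N) := by
    have : θ / al κ ν ψ * Real.sqrt N * (al κ ν ψ * Real.sqrt N)
      = (θ / al κ ν ψ * al κ ν ψ) * (Real.sqrt N * Real.sqrt N) := by ring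
    rw [this, div_mul_cancel₀ _ hal.ne', e2]
  rw [h6] at h5
  exact le_of_mul_le_mul_right h5 (mul_pos hal h.sN)

/-- E1: the `xi` part of the formula for `G w` -/
theorem E1 (h : Pk κ ν ψ θ ω) (ht : Tm κ ν ψ) {w : Fin N → ℝ} (hw : nrm w ≤ Real.sqrt N)
    (hm : ∀ s < K, |dot (mh κ ν ψ (ext ω.1.1) s) w / N - as κ ν ψ s| ≤ θ) :
    nrm (∑ s ∈ Finset.range K, (dot (gsv (mh κ ν ψ (ext ω.1.1)) s) w / Real.sqrt N) •
        projs (Finset.range (s + 1)) (gsv (nh κ ν ψ (ext ω.1.2))) (ext ω.1.2 s)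
      - Real.sqrt (qp ψ) • bm (rho κ ν ψ) (ext ω.1.2) K) ≤ K * (4 + 3 * K) * θ * Real.sqrt M := by
  rw [bm_smul_eq_sum]
  have hθ := h.pos
  have key := comb_le K (fun s => dot (gsv (mh κ ν ψ (ext ω.1.1)) s) w / Real.sqrt N)
    (fun s => Real.sqrt (qp ψ) * dq (rho κ ν ψ) s)
    (fun s => projs (Finset.range (s + 1)) (gsv (nh κ ν ψ (ext ω.1.2))) (ext ω.1.2 s))
    (fun s => ext ω.1.2 s) (θ1 := 2 * θ) (θ2 := K * (3 * θ * Real.sqrt M))
    (L := 2 * Real.sqrt M) (A := 1) ?_ ?_ ?_ ?_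
  · refine key.trans (le_of_eq ?_)
    ring
  · intro s hs
    have h1 := h.pair_r hs w
    have h2 := hm s hs
    have hN := h.Npos
    have e2 : Real.sqrt N * Real.sqrt N = N := Real.mul_self_sqrt hN.le
    have e3 : dot (gsv (mh κ ν ψ (ext ω.1.1)) s) w / Real.sqrt N
        = dot (gsv (mh κ ν ψ (ext ω.1.1)) s) w * Real.sqrt N / N := by
      have hs0 := h.sN
      rw [div_eq_div_iff hs0.ne' hN.ne', mul_assoc, e2]
    have h3 : |dot (gsv (mh κ ν ψ (ext ω.1.1)) s) w / Real.sqrt N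
        - dot (mh κ ν ψ (ext ω.1.1) s) w / N| ≤ θ := by
      rw [e3, ← sub_div, abs_div, abs_of_pos hN, div_le_iff₀ hN]
      refine h1.trans ?_
      calc θ * Real.sqrt N * nrm w ≤ θ * Real.sqrt N * Real.sqrt N :=
            mul_le_mul_of_nonneg_left hw (by positivity)
        _ = θ * N := by rw [mul_assoc, e2]
    change |dot (gsv (mh κ ν ψ (ext ω.1.1)) s) w / Real.sqrt N - as κ ν ψ s| ≤ 2 * θ
    have h4 := abs_sub_le (dot (gsv (mh κ ν ψ (ext ω.1.1)) s) w / Real.sqrt N)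
      (dot (mh κ ν ψ (ext ω.1.1) s) w / N) (as κ ν ψ s)
    linarith
  · intro s hs
    exact ((h.onc.mono (Finset.range_subset_range.mpr (by omega))).nrm_projs_le _).trans
      (h.nrm_x hs)
  · intro s hs
    change |as κ ν ψ s| ≤ 1
    rw [abs_of_pos (ht.as_pos s)]; exact ht.as_le s
  · intro s hs
    refine (nrm_projs_sub_le (B := 3 * θ * Real.sqrt M)
      (fun t ht => h.onc.1 t (Finset.range_subset_range.mpr (by omega) ht))
      _ fun t ht => h.dot_c_x hs (by rw [Finset.mem_range] at ht; omega)).trans ?_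
    exact mul_le_mul_of_nonneg_right (card_range_le _ _ (by omega)) (by positivity)

/-- change in a pairing caused by a projection -/
theorem dot_e_projs (h : Pk κ ν ψ θ ω) {s : ℕ} (hs : s < K) {w : Fin N → ℝ}
    (hw : nrm w ≤ Real.sqrt N) :
    |dot (ext ω.1.1 s) (projs (Finset.range s) (gsv (mh κ ν ψ (ext ω.1.1))) w)
      - dot (ext ω.1.1 s) w| ≤ 3 * K * θ * N := by
  have hN := h.Npos
  have hθ := h.pos
  have e2 : Real.sqrt N * Real.sqrt N = N := Real.mul_self_sqrt hN.le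
  have h1 := nrm_projs_sub_le (S := Finset.range s) (c := gsv (mh κ ν ψ (ext ω.1.1)))
    (B := 3 * θ * Real.sqrt N)
    (fun t ht => h.onr.1 t (Finset.range_subset_range.mpr (by omega) ht))
    (ext ω.1.1 s) (fun t ht => h.dot_r_e hs (Finset.mem_range.mp ht))
  rw [← dot_projs_comm, ← dot_sub_left]
  refine (abs_dot_le _ _).trans ?_
  have h2 : (((Finset.range s).card : ℕ) : ℝ) * (3 * θ * Real.sqrt N)
      ≤ K * (3 * θ * Real.sqrt N) :=
    mul_le_mul_of_nonneg_right (card_range_le _ _ hs.le) (by positivity)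
  calc _ ≤ (K * (3 * θ * Real.sqrt N)) * Real.sqrt N :=
        mul_le_mul (h1.trans h2) hw (nrm_nonneg _) (by positivity)
    _ = 3 * K * θ * (Real.sqrt N * Real.sqrt N) := by ring
    _ = _ := by rw [e2]

/-- E2: the `eta` part of the formula for `G w` -/
theorem E2 (h : Pk κ ν ψ θ ω) (ht : Tm κ ν ψ) {w : Fin N → ℝ} (hw : nrm w ≤ Real.sqrt N)
    (he : ∀ s < K, |dot (ext ω.1.1 s) w / N - bs κ ν ψ s * (1 - qp ψ)| ≤ θ) :
    nrm (∑ s ∈ Finset.range K,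
        (dot (ext ω.1.1 s) (projs (Finset.range s) (gsv (mh κ ν ψ (ext ω.1.1))) w)
          / Real.sqrt N) • gsv (nh κ ν ψ (ext ω.1.2)) s
      - (1 - qp ψ) • nv κ ν ψ (ext ω.1.2) K)
      ≤ K * ((3 * K + 1) + Real.sqrt ψ * (1 + 2 / al κ ν ψ)) * θ * Real.sqrt N := by
  have hθ := h.pos
  have hN := h.Npos
  have hM := h.Mpos
  have hsN := h.sN
  have hsM := h.sM
  have hal := ht.hal
  have hsa := Real.sqrt_pos.mpr hal
  have e2 : Real.sqrt N * Real.sqrt N = N := Real.mul_self_sqrt hN.le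
  have e3 : Real.sqrt M * Real.sqrt M = M := Real.mul_self_sqrt hM.le
  have r1 : ∑ s ∈ Finset.range K,
        (dot (ext ω.1.1 s) (projs (Finset.range s) (gsv (mh κ ν ψ (ext ω.1.1))) w)
          / Real.sqrt N) • gsv (nh κ ν ψ (ext ω.1.2)) s
      = ∑ s ∈ Finset.range K,
        (dot (ext ω.1.1 s) (projs (Finset.range s) (gsv (mh κ ν ψ (ext ω.1.1))) w)
          / N) • (Real.sqrt N • gsv (nh κ ν ψ (ext ω.1.2)) s) := by
    refine Finset.sum_congr rfl fun s _ => ?_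
    rw [smul_smul]
    congr 1
    rw [div_mul_eq_mul_div, div_eq_div_iff hsN.ne' hN.ne', mul_assoc, e2]
  have r2 : (1 - qp ψ) • nv κ ν ψ (ext ω.1.2) K = ∑ s ∈ Finset.range K,
      (bs κ ν ψ s * (1 - qp ψ)) • ((1 / Real.sqrt (al κ ν ψ)) • nh κ ν ψ (ext ω.1.2) s) := by
    rw [nv_eq_sum ht, Finset.smul_sum]
    refine Finset.sum_congr rfl fun s _ => ?_
    rw [smul_smul, smul_smul]
    congr 1
    ring
  rw [r1, r2]
  have key := comb_le K
    (fun s => dot (ext ω.1.1 s) (projs (Finset.range s) (gsv (mh κ ν ψ (ext ω.1.1))) w) / N)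
    (fun s => bs κ ν ψ s * (1 - qp ψ))
    (fun s => Real.sqrt N • gsv (nh κ ν ψ (ext ω.1.2)) s)
    (fun s => (1 / Real.sqrt (al κ ν ψ)) • nh κ ν ψ (ext ω.1.2) s)
    (θ1 := (3 * K + 1) * θ) (θ2 := (1 + 2 / al κ ν ψ) * θ * Real.sqrt N)
    (L := Real.sqrt N) (A := Real.sqrt ψ) ?_ ?_ ?_ ?_
  · refine key.trans (le_of_eq ?_)
    ring
  · intro s hs
    have h1 := h.dot_e_projs hs hw
    have h2 := he s hs
    have h3 : |dot (ext ω.1.1 s) (projs (Finset.range s) (gsv (mh κ ν ψ (ext ω.1.1))) w) / N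
        - dot (ext ω.1.1 s) w / N| ≤ 3 * K * θ := by
      rw [← sub_div, abs_div, abs_of_pos hN, div_le_iff₀ hN]; exact h1
    have h4 := abs_sub_le
      (dot (ext ω.1.1 s) (projs (Finset.range s) (gsv (mh κ ν ψ (ext ω.1.1))) w) / N)
      (dot (ext ω.1.1 s) w / N) (bs κ ν ψ s * (1 - qp ψ))
    linarith
  · intro s hs
    rw [nrm_smul, h.onc.1 s (Finset.mem_range.mpr hs), mul_one, abs_of_pos hsN]
  · intro s hs
    have h1 := ht.bs_le s
    have h2 := (ht.bs_pos s).le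
    have h3 := ht.hq
    have h4 := ht.hq1
    rw [abs_of_nonneg (mul_nonneg h2 (by linarith))]
    nlinarith
  · intro s hs
    have e4 : Real.sqrt N • gsv (nh κ ν ψ (ext ω.1.2)) s
        - (1 / Real.sqrt (al κ ν ψ)) • nh κ ν ψ (ext ω.1.2) s
        = (Real.sqrt N / Real.sqrt M) • (Real.sqrt M • gsv (nh κ ν ψ (ext ω.1.2)) s
            - nh κ ν ψ (ext ω.1.2) s)
          + ((Real.sqrt N - Real.sqrt M / Real.sqrt (al κ ν ψ)) / Real.sqrt M) •
            nh κ ν ψ (ext ω.1.2) s := by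
      rw [smul_sub, smul_smul, div_mul_cancel₀ _ hsM.ne', sub_div, sub_smul,
        div_div, mul_comm (Real.sqrt (al κ ν ψ)), ← div_div, div_self hsM.ne']
      abel
    rw [e4]
    refine (nrm_add_le _ _).trans ?_
    rw [nrm_smul, nrm_smul, abs_of_pos (div_pos hsN hsM), abs_div, abs_of_pos hsM]
    have h1 := h.clc s hs
    have h2 := h.nrm_nh hs
    have h3 := h.ratio_N ht
    have i1 : Real.sqrt N / Real.sqrt M * nrm (Real.sqrt M • gsv (nh κ ν ψ (ext ω.1.2)) s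
            - nh κ ν ψ (ext ω.1.2) s) ≤ θ * Real.sqrt N := by
      calc _ ≤ Real.sqrt N / Real.sqrt M * (θ * Real.sqrt M) :=
            mul_le_mul_of_nonneg_left h1 (by positivity)
        _ = θ * Real.sqrt N * (Real.sqrt M / Real.sqrt M) := by ring
        _ = _ := by rw [div_self hsM.ne', mul_one]
    have i2 : |Real.sqrt N - Real.sqrt M / Real.sqrt (al κ ν ψ)| / Real.sqrt M
        * nrm (nh κ ν ψ (ext ω.1.2) s) ≤ 2 / al κ ν ψ * θ * Real.sqrt N := by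
      calc _ ≤ |Real.sqrt N - Real.sqrt M / Real.sqrt (al κ ν ψ)| / Real.sqrt M
            * (2 * Real.sqrt M) := mul_le_mul_of_nonneg_left h2 (by positivity)
        _ = 2 * |Real.sqrt N - Real.sqrt M / Real.sqrt (al κ ν ψ)|
            * (Real.sqrt M / Real.sqrt M) := by ring
        _ = 2 * |Real.sqrt N - Real.sqrt M / Real.sqrt (al κ ν ψ)| := by
            rw [div_self hsM.ne', mul_one]
        _ ≤ 2 * (θ / al κ ν ψ * Real.sqrt N) := mul_le_mul_of_nonneg_left h3 (by norm_num)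
        _ = _ := by ring
    linarith

end Pk

end Pool.Agent.IP49.SR
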