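import Pool.Agent.IP49.SDet2

/-!
# IP49, part S: deterministic estimates on the good event, third part

The sums in the transposed formula, and the distances between `tanh h`, `F(hh)`, `h`, `hh` and
their martingale approximations.
-/

set_option autoImplicit false
open MeasureTheory ProbabilityTheory Filter Topology

namespace Pool.Agent.IP49.SR

namespace Pk

variable {κ ν ψ θ : ℝ} {M N K : ℕ} {ω : Om M N K}

theorem M_le (h : Pk κ ν ψ θ ω) : (M : ℝ) ≤ (al κ ν ψ + 1) * N := by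
  have h1 := (abs_le.mp h.ratio).2
  have h2 : (M : ℝ) / N ≤ al κ ν ψ + 1 := by have := h.small; linarith
  rwa [div_le_iff₀ h.Npos] at h2

/-- E3: the `eta` part of the formula for `Gᵀ u` -/
theorem E3 (h : Pk κ ν ψ θ ω) (ht : Tm κ ν ψ) {u : Fin M → ℝ} {B : ℝ} (hB : 0 ≤ B)
    (hu : nrm u ≤ B * Real.sqrt M)
    (hn : ∀ s < K, |dot (nh κ ν ψ (ext ω.1.2) s) u / M
      - bs κ ν ψ s / Real.sqrt (al κ ν ψ)| ≤ θ) :
    nrm (∑ s ∈ Finset.range K, (dot (gsv (nh κ ν ψ (ext ω.1.2)) s) u / Real.sqrt N) •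
        projs (Finset.range s) (gsv (mh κ ν ψ (ext ω.1.1))) (ext ω.1.1 s)
      - Real.sqrt ψ • bm (mu κ ν ψ) (ext ω.1.1) K)
      ≤ K * (2 * ((1 + B) * (al κ ν ψ + 1) + Real.sqrt ψ / al κ ν ψ) + 3 * K * Real.sqrt ψ)
        * θ * Real.sqrt N := by
  rw [bm_smul_eq_sum]
  have hθ := h.pos
  have hN := h.Npos
  have hM := h.Mpos
  have hsN := h.sN
  have hsM := h.sM
  have hal := ht.hal
  have hsa := Real.sqrt_pos.mpr hal
  have e2 : Real.sqrt N * Real.sqrt N = N := Real.mul_self_sqrt hN.le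
  have e3 : Real.sqrt M * Real.sqrt M = M := Real.mul_self_sqrt hM.le
  have key := comb_le K (fun s => dot (gsv (nh κ ν ψ (ext ω.1.2)) s) u / Real.sqrt N)
    (fun s => Real.sqrt ψ * dq (mu κ ν ψ) s)
    (fun s => projs (Finset.range s) (gsv (mh κ ν ψ (ext ω.1.1))) (ext ω.1.1 s))
    (fun s => ext ω.1.1 s)
    (θ1 := ((1 + B) * (al κ ν ψ + 1) + Real.sqrt ψ / al κ ν ψ) * θ)
    (θ2 := K * (3 * θ * Real.sqrt N)) (L := 2 * Real.sqrt N) (A := Real.sqrt ψ) ?_ ?_ ?_ ?_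
  · refine key.trans (le_of_eq ?_)
    ring
  · intro s hs
    change |dot (gsv (nh κ ν ψ (ext ω.1.2)) s) u / Real.sqrt N - bs κ ν ψ s| ≤ _
    set D := dot (gsv (nh κ ν ψ (ext ω.1.2)) s) u with hD
    set b := bs κ ν ψ s with hb
    have hb0 : 0 ≤ b := (ht.bs_pos s).le
    have hbψ : b ≤ Real.sqrt ψ := ht.bs_le s
    have h1 : |D * Real.sqrt M - dot (nh κ ν ψ (ext ω.1.2) s) u| ≤ θ * B * M := by
      refine (h.pair_c hs u).trans ?_
      calc θ * Real.sqrt M * nrm u ≤ θ * Real.sqrt M * (B * Real.sqrt M) :=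
            mul_le_mul_of_nonneg_left hu (by positivity)
        _ = θ * B * (Real.sqrt M * Real.sqrt M) := by ring
        _ = _ := by rw [e3]
    have h2 : |dot (nh κ ν ψ (ext ω.1.2) s) u - M * (b / Real.sqrt (al κ ν ψ))| ≤ θ * M := by
      have h3 := hn s hs
      have : dot (nh κ ν ψ (ext ω.1.2) s) u - M * (b / Real.sqrt (al κ ν ψ))
          = (dot (nh κ ν ψ (ext ω.1.2) s) u / M - b / Real.sqrt (al κ ν ψ)) * M := by
        rw [sub_mul, div_mul_cancel₀ _ hM.ne']; ring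
      rw [this, abs_mul, abs_of_pos hM]
      exact mul_le_mul_of_nonneg_right h3 hM.le
    have h4 : |D - Real.sqrt M * (b / Real.sqrt (al κ ν ψ))| ≤ (1 + B) * θ * Real.sqrt M := by
      have h5 : |D - Real.sqrt M * (b / Real.sqrt (al κ ν ψ))| * Real.sqrt M
          ≤ (1 + B) * θ * Real.sqrt M * Real.sqrt M := by
        have e4 : (D - Real.sqrt M * (b / Real.sqrt (al κ ν ψ))) * Real.sqrt M
            = (D * Real.sqrt M - dot (nh κ ν ψ (ext ω.1.2) s) u)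
              + (dot (nh κ ν ψ (ext ω.1.2) s) u - M * (b / Real.sqrt (al κ ν ψ))) := by
          have e5 : (M : ℝ) * (b / Real.sqrt (al κ ν ψ))
              = Real.sqrt M * Real.sqrt M * (b / Real.sqrt (al κ ν ψ)) := by rw [e3]
          rw [e5]; ring
        rw [← abs_of_pos hsM, ← abs_mul, abs_of_pos hsM, e4]
        refine (abs_add_le _ _).trans ?_
        have : (1 + B) * θ * Real.sqrt M * Real.sqrt M = (1 + B) * θ * M := by
          rw [mul_assoc, e3]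
        rw [this]; linarith
      exact le_of_mul_le_mul_right h5 hsM
    have h6 : |D / Real.sqrt N - Real.sqrt M / Real.sqrt N * (b / Real.sqrt (al κ ν ψ))|
        ≤ (1 + B) * (al κ ν ψ + 1) * θ := by
      have : D / Real.sqrt N - Real.sqrt M / Real.sqrt N * (b / Real.sqrt (al κ ν ψ))
          = (D - Real.sqrt M * (b / Real.sqrt (al κ ν ψ))) / Real.sqrt N := by ring
      rw [this, abs_div, abs_of_pos hsN, div_le_iff₀ hsN]
      refine h4.trans ?_
      have h7 := h.sM_le ht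
      calc (1 + B) * θ * Real.sqrt M ≤ (1 + B) * θ * ((al κ ν ψ + 1) * Real.sqrt N) :=
            mul_le_mul_of_nonneg_left h7 (by positivity)
        _ = _ := by ring
    have h8 : |Real.sqrt M / Real.sqrt N * (b / Real.sqrt (al κ ν ψ)) - b|
        ≤ Real.sqrt ψ / al κ ν ψ * θ := by
      have h9 := h.ratio_N ht
      have : Real.sqrt M / Real.sqrt N * (b / Real.sqrt (al κ ν ψ)) - b
          = -(b * (Real.sqrt N - Real.sqrt M / Real.sqrt (al κ ν ψ)) / Real.sqrt N) := by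
        field_simp
        ring
      rw [this, abs_neg, abs_div, abs_mul, abs_of_nonneg hb0, abs_of_pos hsN, div_le_iff₀ hsN]
      calc b * |Real.sqrt N - Real.sqrt M / Real.sqrt (al κ ν ψ)|
          ≤ Real.sqrt ψ * (θ / al κ ν ψ * Real.sqrt N) :=
            mul_le_mul hbψ h9 (abs_nonneg _) (Real.sqrt_nonneg _)
        _ = _ := by ring
    have h10 := abs_sub_le (D / Real.sqrt N)
      (Real.sqrt M / Real.sqrt N * (b / Real.sqrt (al κ ν ψ))) b
    rw [add_mul]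
    linarith
  · intro s hs
    exact ((h.onr.mono (Finset.range_subset_range.mpr (by omega))).nrm_projs_le _).trans
      (h.nrm_e hs)
  · intro s hs
    change |bs κ ν ψ s| ≤ Real.sqrt ψ
    rw [abs_of_pos (ht.bs_pos s)]; exact ht.bs_le s
  · intro s hs
    refine (nrm_projs_sub_le (B := 3 * θ * Real.sqrt N)
      (fun t ht => h.onr.1 t (Finset.range_subset_range.mpr (by omega) ht))
      _ fun t ht => h.dot_r_e hs (Finset.mem_range.mp ht)).trans ?_
    exact mul_le_mul_of_nonneg_right (card_range_le _ _ (by omega)) (by positivity)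

/-- E4: the `xi` part of the formula for `Gᵀ u` -/
theorem E4 (h : Pk κ ν ψ θ ω) (ht : Tm κ ν ψ) {u : Fin M → ℝ} {B : ℝ} (hB : 0 ≤ B)
    (hu : nrm u ≤ B * Real.sqrt M)
    (hx : ∀ s < K, |dot (ext ω.1.2 s) u / N - as κ ν ψ s * dd κ ν ψ| ≤ θ) :
    nrm (∑ s ∈ Finset.range K,
        (dot (ext ω.1.2 s) (projs (Finset.range (s + 1)) (gsv (nh κ ν ψ (ext ω.1.2))) u)
          / Real.sqrt N) • gsv (mh κ ν ψ (ext ω.1.1)) s
      - dd κ ν ψ • mv κ ν ψ (ext ω.1.1) K)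
      ≤ K * (3 * K * B * (al κ ν ψ + 1) + 1 + |dd κ ν ψ|) * θ * Real.sqrt N := by
  have hθ := h.pos
  have hN := h.Npos
  have hM := h.Mpos
  have hsN := h.sN
  have hsM := h.sM
  have hal := ht.hal
  have e2 : Real.sqrt N * Real.sqrt N = N := Real.mul_self_sqrt hN.le
  have e3 : Real.sqrt M * Real.sqrt M = M := Real.mul_self_sqrt hM.le
  have r1 : ∑ s ∈ Finset.range K,
        (dot (ext ω.1.2 s) (projs (Finset.range (s + 1)) (gsv (nh κ ν ψ (ext ω.1.2))) u)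
          / Real.sqrt N) • gsv (mh κ ν ψ (ext ω.1.1)) s
      = ∑ s ∈ Finset.range K,
        (dot (ext ω.1.2 s) (projs (Finset.range (s + 1)) (gsv (nh κ ν ψ (ext ω.1.2))) u)
          / N) • (Real.sqrt N • gsv (mh κ ν ψ (ext ω.1.1)) s) := by
    refine Finset.sum_congr rfl fun s _ => ?_
    rw [smul_smul]
    congr 1
    rw [div_mul_eq_mul_div, div_eq_div_iff hsN.ne' hN.ne', mul_assoc, e2]
  have r2 : dd κ ν ψ • mv κ ν ψ (ext ω.1.1) K = ∑ s ∈ Finset.range K,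
      (as κ ν ψ s * dd κ ν ψ) • mh κ ν ψ (ext ω.1.1) s := by
    rw [mv_eq_sum ht, Finset.smul_sum]
    refine Finset.sum_congr rfl fun s _ => ?_
    rw [smul_smul, mul_comm]
  rw [r1, r2]
  have key := comb_le K
    (fun s => dot (ext ω.1.2 s)
      (projs (Finset.range (s + 1)) (gsv (nh κ ν ψ (ext ω.1.2))) u) / N)
    (fun s => as κ ν ψ s * dd κ ν ψ)
    (fun s => Real.sqrt N • gsv (mh κ ν ψ (ext ω.1.1)) s)
    (fun s => mh κ ν ψ (ext ω.1.1) s)
    (θ1 := (3 * K * B * (al κ ν ψ + 1) + 1) * θ) (θ2 := θ * Real.sqrt N)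
    (L := Real.sqrt N) (A := |dd κ ν ψ|) ?_ ?_ ?_ ?_
  · refine key.trans (le_of_eq ?_)
    ring
  · intro s hs
    have h1 : |dot (ext ω.1.2 s)
        (projs (Finset.range (s + 1)) (gsv (nh κ ν ψ (ext ω.1.2))) u)
        - dot (ext ω.1.2 s) u| ≤ 3 * K * B * θ * M := by
      have g1 := nrm_projs_sub_le (S := Finset.range (s + 1)) (c := gsv (nh κ ν ψ (ext ω.1.2)))
        (B := 3 * θ * Real.sqrt M)
        (fun t ht => h.onc.1 t (Finset.range_subset_range.mpr (by omega) ht))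
        (ext ω.1.2 s) (fun t ht => h.dot_c_x hs (by rw [Finset.mem_range] at ht; omega))
      rw [← dot_projs_comm, ← dot_sub_left]
      refine (abs_dot_le _ _).trans ?_
      have g2 : (((Finset.range (s + 1)).card : ℕ) : ℝ) * (3 * θ * Real.sqrt M)
          ≤ K * (3 * θ * Real.sqrt M) :=
        mul_le_mul_of_nonneg_right (card_range_le _ _ (by omega)) (by positivity)
      calc _ ≤ (K * (3 * θ * Real.sqrt M)) * (B * Real.sqrt M) :=
            mul_le_mul (g1.trans g2) hu (nrm_nonneg _) (by positivity)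
        _ = 3 * K * B * θ * (Real.sqrt M * Real.sqrt M) := by ring
        _ = _ := by rw [e3]
    have h3 : |dot (ext ω.1.2 s)
        (projs (Finset.range (s + 1)) (gsv (nh κ ν ψ (ext ω.1.2))) u) / N
        - dot (ext ω.1.2 s) u / N| ≤ 3 * K * B * (al κ ν ψ + 1) * θ := by
      rw [← sub_div, abs_div, abs_of_pos hN, div_le_iff₀ hN]
      refine h1.trans ?_
      calc 3 * K * B * θ * (M : ℝ) ≤ 3 * K * B * θ * ((al κ ν ψ + 1) * N) :=
            mul_le_mul_of_nonneg_left h.M_le (by positivity)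
        _ = _ := by ring
    have h2 := hx s hs
    have h4 := abs_sub_le
      (dot (ext ω.1.2 s) (projs (Finset.range (s + 1)) (gsv (nh κ ν ψ (ext ω.1.2))) u) / N)
      (dot (ext ω.1.2 s) u / N) (as κ ν ψ s * dd κ ν ψ)
    linarith
  · intro s hs
    rw [nrm_smul, h.onr.1 s (Finset.mem_range.mpr hs), mul_one, abs_of_pos hsN]
  · intro s hs
    have h1 := ht.as_le s
    have h2 := (ht.as_pos s).le
    rw [abs_mul, abs_of_nonneg h2]
    have := abs_nonneg (dd κ ν ψ)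
    nlinarith
  · intro s hs
    exact h.clr s hs

/-! ### distances -/

theorem dist_hh (h : Pk κ ν ψ θ ω) (ht : Tm κ ν ψ) :
    nrm (hhv κ ν ψ ω - Real.sqrt (qp ψ) • bm (rho κ ν ψ) (ext ω.1.2) K)
      ≤ 2 * Real.sqrt (1 - rho κ ν ψ K) * Real.sqrt M := by
  have e : hhv κ ν ψ ω - Real.sqrt (qp ψ) • bm (rho κ ν ψ) (ext ω.1.2) K
      = (Real.sqrt (qp ψ) * Real.sqrt (1 - rho κ ν ψ K)) • ω.2.2 := by
    funext a
    simp only [hhv, Pi.sub_apply, Pi.smul_apply, smul_eq_mul]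
    ring
  have h1 : nrm ω.2.2 ≤ 2 * Real.sqrt M := nrm_le_two h.Mpos h.small h.good.zx
  have hq : Real.sqrt (qp ψ) ≤ 1 := by
    rw [← Real.sqrt_one]; exact Real.sqrt_le_sqrt ht.hq1.le
  rw [e, nrm_smul, abs_of_nonneg (by positivity)]
  have i0 := Real.sqrt_nonneg (1 - rho κ ν ψ K)
  have i1 := Real.sqrt_nonneg (qp ψ)
  calc Real.sqrt (qp ψ) * Real.sqrt (1 - rho κ ν ψ K) * nrm ω.2.2
      ≤ 1 * Real.sqrt (1 - rho κ ν ψ K) * (2 * Real.sqrt M) := by
        refine mul_le_mul (mul_le_mul_of_nonneg_right hq i0) h1 (nrm_nonneg _) (by positivity)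
    _ = _ := by ring

theorem dist_h (h : Pk κ ν ψ θ ω) :
    nrm (hv κ ν ψ ω - Real.sqrt ψ • bm (mu κ ν ψ) (ext ω.1.1) K)
      ≤ 2 * Real.sqrt ψ * Real.sqrt (1 - mu κ ν ψ K) * Real.sqrt N := by
  have e : hv κ ν ψ ω - Real.sqrt ψ • bm (mu κ ν ψ) (ext ω.1.1) K
      = (Real.sqrt ψ * Real.sqrt (1 - mu κ ν ψ K)) • ω.2.1 := by
    funext a
    simp only [hv, Pi.sub_apply, Pi.smul_apply, smul_eq_mul]
    ring
  have h1 : nrm ω.2.1 ≤ 2 * Real.sqrt N := nrm_le_two h.Npos h.small h.good.ze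
  rw [e, nrm_smul, abs_of_nonneg (by positivity)]
  calc Real.sqrt ψ * Real.sqrt (1 - mu κ ν ψ K) * nrm ω.2.1
      ≤ Real.sqrt ψ * Real.sqrt (1 - mu κ ν ψ K) * (2 * Real.sqrt N) :=
        mul_le_mul_of_nonneg_left h1 (by positivity)
    _ = _ := by ring

theorem dist_tanh (h : Pk κ ν ψ θ ω) (ht : Tm κ ν ψ) :
    nrm ((fun i => Real.tanh (hv κ ν ψ ω i)) - mv κ ν ψ (ext ω.1.1) K) ^ 2
      ≤ N * (qp ψ * (1 - rho κ ν ψ K)
        + θ * (1 + ∑ s ∈ Finset.range K, as κ ν ψ s) ^ 2) := by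
  rw [mv_eq_sum ht]
  have := dist_comb K (fun i => Real.tanh (hv κ ν ψ ω i)) (mh κ ν ψ (ext ω.1.1)) (as κ ν ψ)
    h.Npos (fun s _ => (ht.as_pos s).le) h.good.tt h.good.mht h.good.mm
  rw [ht.sum_as_sq] at this
  refine this.trans (le_of_eq ?_)
  ring

theorem dist_F (h : Pk κ ν ψ θ ω) (ht : Tm κ ν ψ) :
    nrm ((fun a => FF κ ν (qp ψ) (hhv κ ν ψ ω a)) - nv κ ν ψ (ext ω.1.2) K) ^ 2
      ≤ M * (ψ / al κ ν ψ * (1 - mu κ ν ψ K)
        + θ * (1 + ∑ s ∈ Finset.range K, bs κ ν ψ s / Real.sqrt (al κ ν ψ)) ^ 2) := by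
  rw [nv_eq_sum ht]
  have hsa := Real.sqrt_pos.mpr ht.hal
  have := dist_comb K (fun a => FF κ ν (qp ψ) (hhv κ ν ψ ω a)) (nh κ ν ψ (ext ω.1.2))
    (fun s => bs κ ν ψ s / Real.sqrt (al κ ν ψ)) h.Mpos
    (fun s _ => (div_pos (ht.bs_pos s) hsa).le) h.good.FF' h.good.nF h.good.nn
  have e1 : ∑ s ∈ Finset.range K, (bs κ ν ψ s / Real.sqrt (al κ ν ψ)) ^ 2
      = ψ * mu κ ν ψ K / al κ ν ψ := by
    simp_rw [div_pow, Real.sq_sqrt ht.hal.le]
    rw [← Finset.sum_div, ht.sum_bs_sq]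
  rw [e1] at this
  refine this.trans (le_of_eq ?_)
  ring

theorem nrm_tanh_le {N : ℕ} (h : Fin N → ℝ) : nrm (fun i => Real.tanh (h i)) ≤ Real.sqrt N := by
  apply Real.sqrt_le_sqrt
  rw [dot_self_eq]
  calc ∑ i, Real.tanh (h i) ^ 2 ≤ ∑ _i : Fin N, (1 : ℝ) :=
        Finset.sum_le_sum fun i _ => (tanh_sq_lt (h i)).le
    _ = N := by simp

theorem nrm_F_le (h : Pk κ ν ψ θ ω) (ht : Tm κ ν ψ) :
    nrm (fun a => FF κ ν (qp ψ) (hhv κ ν ψ ω a)) ≤ (ψ / al κ ν ψ + 1) * Real.sqrt M := by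
  have h1 := (abs_le.mp h.good.FF').2
  have h2 : dot (fun a => FF κ ν (qp ψ) (hhv κ ν ψ ω a))
      (fun a => FF κ ν (qp ψ) (hhv κ ν ψ ω a)) / M ≤ ψ / al κ ν ψ + 1 := by
    have := h.small; linarith
  rw [div_le_iff₀ h.Mpos] at h2
  have h3 : 0 ≤ ψ / al κ ν ψ := (div_pos ht.hψ ht.hal).le
  apply nrm_le_of_sq_le (by positivity)
  rw [nrm_sq, mul_pow, Real.sq_sqrt h.Mpos.le]
  refine h2.trans (mul_le_mul_of_nonneg_right ?_ h.Mpos.le)
  nlinarith

end Pk

end Pool.Agent.IP49.SR
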