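import Pool.Agent.IP49.SDet3

/-!
# IP49, part S: deterministic estimates on the good event, fourth part

`G w = √N (hh + (1-q) F(hh) + errw) + (1 - P_c) G' (1 - P_r) w`, `|errw| ≤ EB √N`;
`Gᵀ u = √N (h + d tanh h + errt) + (1 - P_r) G'ᵀ (1 - P_c) u` for `u = F(hh)`.
-/

set_option autoImplicit false
open MeasureTheory ProbabilityTheory Filter Topology

namespace Pool.Agent.IP49.SR

noncomputable section

/-- row directions along the full history -/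
def cc (κ ν ψ : ℝ) {M N K : ℕ} (ω : Om M N K) : ℕ → Fin M → ℝ := gsv (nh κ ν ψ (ext ω.1.2))

/-- column directions along the full history -/
def rr (κ ν ψ : ℝ) {M N K : ℕ} (ω : Om M N K) : ℕ → Fin N → ℝ := gsv (mh κ ν ψ (ext ω.1.1))

/-- `tanh h` -/
def tv (κ ν ψ : ℝ) {M N K : ℕ} (ω : Om M N K) : Fin N → ℝ := fun i => Real.tanh (hv κ ν ψ ω i)

/-- `F(hh)` -/
def Fv (κ ν ψ : ℝ) {M N K : ℕ} (ω : Om M N K) : Fin M → ℝ :=
  fun a => FF κ ν (qp ψ) (hhv κ ν ψ ω a)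

/-- error vector of the formula for `G w` -/
def errw (κ ν ψ : ℝ) {M N K : ℕ} (ω : Om M N K) (w : Fin N → ℝ) : Fin M → ℝ :=
  (∑ s ∈ Finset.range K, (dot (rr κ ν ψ ω s) w / Real.sqrt N) •
        projs (Finset.range (s + 1)) (cc κ ν ψ ω) (ext ω.1.2 s))
    + (∑ s ∈ Finset.range K,
        (dot (ext ω.1.1 s) (projs (Finset.range s) (rr κ ν ψ ω) w) / Real.sqrt N) • cc κ ν ψ ω s)
    - hhv κ ν ψ ω - (1 - qp ψ) • Fv κ ν ψ ω

/-- error vector of the formula for `Gᵀ u` -/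
def errt (κ ν ψ : ℝ) {M N K : ℕ} (ω : Om M N K) (u : Fin M → ℝ) : Fin N → ℝ :=
  (∑ s ∈ Finset.range K, (dot (cc κ ν ψ ω s) u / Real.sqrt N) •
        projs (Finset.range s) (rr κ ν ψ ω) (ext ω.1.1 s))
    + (∑ s ∈ Finset.range K,
        (dot (ext ω.1.2 s) (projs (Finset.range (s + 1)) (cc κ ν ψ ω) u) / Real.sqrt N) •
          rr κ ν ψ ω s)
    - hv κ ν ψ ω - dd κ ν ψ • tv κ ν ψ ω

theorem GR_eq_fold (κ ν ψ : ℝ) {M N K : ℕ} (ω : Om M N K) (G : Fin M → Fin N → ℝ) :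
    GR κ ν ψ (ω, G) = fold (cc κ ν ψ ω) (rr κ ν ψ ω) (ext ω.1.1) (ext ω.1.2) K G :=
  asm_eq_fold κ ν ψ K ω.1 G

/-- the exact formula for `G w` -/
theorem mvl_GR {κ ν ψ : ℝ} {M N K : ℕ} {ω : Om M N K} (hN : 0 < N)
    (hc : ON (Finset.range K) (cc κ ν ψ ω)) (hr : ON (Finset.range K) (rr κ ν ψ ω))
    (G : Fin M → Fin N → ℝ) (w : Fin N → ℝ) :
    mvl (GR κ ν ψ (ω, G)) w
      = Real.sqrt N • (hhv κ ν ψ ω + (1 - qp ψ) • Fv κ ν ψ ω + errw κ ν ψ ω w)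
        + projs (Finset.range K) (cc κ ν ψ ω)
          (mvl G (projs (Finset.range K) (rr κ ν ψ ω) w)) := by
  rw [GR_eq_fold, mvl_fold _ _ _ _ K hc hr]
  congr 1
  have hs : Real.sqrt (N : ℝ) ≠ 0 := (Real.sqrt_pos.mpr (Nat.cast_pos.mpr hN)).ne'
  have e : hhv κ ν ψ ω + (1 - qp ψ) • Fv κ ν ψ ω + errw κ ν ψ ω w
      = (∑ s ∈ Finset.range K, (dot (rr κ ν ψ ω s) w / Real.sqrt N) •
        projs (Finset.range (s + 1)) (cc κ ν ψ ω) (ext ω.1.2 s))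
    + (∑ s ∈ Finset.range K,
        (dot (ext ω.1.1 s) (projs (Finset.range s) (rr κ ν ψ ω) w) / Real.sqrt N) •
          cc κ ν ψ ω s) := by
    rw [errw]; abel
  rw [e, smul_add, Finset.smul_sum, Finset.smul_sum, ← Finset.sum_add_distrib]
  refine Finset.sum_congr rfl fun s _ => ?_
  rw [smul_smul, smul_smul, mul_div_cancel₀ _ hs, mul_div_cancel₀ _ hs, add_comm]

/-- the exact formula for `Gᵀ u` -/
theorem mtl_GR {κ ν ψ : ℝ} {M N K : ℕ} {ω : Om M N K} (hN : 0 < N)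
    (hc : ON (Finset.range K) (cc κ ν ψ ω)) (hr : ON (Finset.range K) (rr κ ν ψ ω))
    (G : Fin M → Fin N → ℝ) (u : Fin M → ℝ) :
    mtl (GR κ ν ψ (ω, G)) u
      = Real.sqrt N • (hv κ ν ψ ω + dd κ ν ψ • tv κ ν ψ ω + errt κ ν ψ ω u)
        + projs (Finset.range K) (rr κ ν ψ ω)
          (mtl G (projs (Finset.range K) (cc κ ν ψ ω) u)) := by
  rw [GR_eq_fold, mtl_fold _ _ _ _ K hc hr]
  congr 1
  have hs : Real.sqrt (N : ℝ) ≠ 0 := (Real.sqrt_pos.mpr (Nat.cast_pos.mpr hN)).ne'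
  have e : hv κ ν ψ ω + dd κ ν ψ • tv κ ν ψ ω + errt κ ν ψ ω u
      = (∑ s ∈ Finset.range K, (dot (cc κ ν ψ ω s) u / Real.sqrt N) •
        projs (Finset.range s) (rr κ ν ψ ω) (ext ω.1.1 s))
    + (∑ s ∈ Finset.range K,
        (dot (ext ω.1.2 s) (projs (Finset.range (s + 1)) (cc κ ν ψ ω) u) / Real.sqrt N) •
          rr κ ν ψ ω s) := by
    rw [errt]; abel
  rw [e, smul_add, Finset.smul_sum, Finset.smul_sum, ← Finset.sum_add_distrib]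
  refine Finset.sum_congr rfl fun s _ => ?_
  rw [smul_smul, smul_smul, mul_div_cancel₀ _ hs, mul_div_cancel₀ _ hs]

/-- distance of `tanh h` to the martingale, on the scale `√N` -/
def dT (κ ν ψ : ℝ) (K : ℕ) (θ : ℝ) : ℝ :=
  Real.sqrt (qp ψ * (1 - rho κ ν ψ K) + θ * (1 + ∑ s ∈ Finset.range K, as κ ν ψ s) ^ 2)

/-- distance of `F(hh)` to the martingale, on the scale `√M` -/
def dF (κ ν ψ : ℝ) (K : ℕ) (θ : ℝ) : ℝ :=
  Real.sqrt (ψ / al κ ν ψ * (1 - mu κ ν ψ K)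
    + θ * (1 + ∑ s ∈ Finset.range K, bs κ ν ψ s / Real.sqrt (al κ ν ψ)) ^ 2)

/-- constant in front of `θ` -/
def KC (κ ν ψ : ℝ) (K : ℕ) : ℝ :=
  K * (4 + 3 * K) * (al κ ν ψ + 1) + K * ((3 * K + 1) + Real.sqrt ψ * (1 + 2 / al κ ν ψ))
  + K * (2 * ((1 + (ψ / al κ ν ψ + 1)) * (al κ ν ψ + 1) + Real.sqrt ψ / al κ ν ψ)
    + 3 * K * Real.sqrt ψ)
  + K * (3 * K * (ψ / al κ ν ψ + 1) * (al κ ν ψ + 1) + 1 + |dd κ ν ψ|)

/-- the common error bound -/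
def EB (κ ν ψ : ℝ) (K : ℕ) (θ : ℝ) : ℝ :=
  KC κ ν ψ K * θ + 2 * (al κ ν ψ + 1) * Real.sqrt (1 - rho κ ν ψ K)
    + (al κ ν ψ + 1) * dF κ ν ψ K θ
    + 2 * Real.sqrt ψ * Real.sqrt (1 - mu κ ν ψ K) + |dd κ ν ψ| * dT κ ν ψ K θ

namespace Pk

variable {κ ν ψ θ : ℝ} {M N K : ℕ} {ω : Om M N K}

theorem nrm_tv_sub (h : Pk κ ν ψ θ ω) (ht : Tm κ ν ψ) :
    nrm (tv κ ν ψ ω - mv κ ν ψ (ext ω.1.1) K) ≤ dT κ ν ψ K θ * Real.sqrt N := by
  have h1 := h.dist_tanh ht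
  have h2 : 0 ≤ qp ψ * (1 - rho κ ν ψ K)
      + θ * (1 + ∑ s ∈ Finset.range K, as κ ν ψ s) ^ 2 := by
    have := ht.hq; have := ht.rlt K; have := h.pos
    have i1 : 0 ≤ qp ψ * (1 - rho κ ν ψ K) := mul_nonneg (by linarith) (by linarith)
    positivity
  apply nrm_le_of_sq_le (by unfold dT; positivity)
  rw [mul_pow, Real.sq_sqrt h.Npos.le, dT, Real.sq_sqrt h2, mul_comm]
  exact h1

theorem nrm_Fv_sub (h : Pk κ ν ψ θ ω) (ht : Tm κ ν ψ) :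
    nrm (Fv κ ν ψ ω - nv κ ν ψ (ext ω.1.2) K) ≤ dF κ ν ψ K θ * Real.sqrt M := by
  have h1 := h.dist_F ht
  have h2 : 0 ≤ ψ / al κ ν ψ * (1 - mu κ ν ψ K)
      + θ * (1 + ∑ s ∈ Finset.range K, bs κ ν ψ s / Real.sqrt (al κ ν ψ)) ^ 2 := by
    have i0 := ht.mlt K; have := h.pos
    have i1 : 0 ≤ ψ / al κ ν ψ * (1 - mu κ ν ψ K) :=
      mul_nonneg (div_pos ht.hψ ht.hal).le (by linarith)
    positivity
  apply nrm_le_of_sq_le (by unfold dF; positivity)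
  rw [mul_pow, Real.sq_sqrt h.Mpos.le, dF, Real.sq_sqrt h2, mul_comm]
  exact h1

/-- `|errw| ≤ EB √N` for vectors in the slice -/
theorem nrm_errw (h : Pk κ ν ψ θ ω) (ht : Tm κ ν ψ) {w : Fin N → ℝ} (hw : nrm w ≤ Real.sqrt N)
    (hm : ∀ s < K, |dot (mh κ ν ψ (ext ω.1.1) s) w / N - as κ ν ψ s| ≤ θ)
    (he : ∀ s < K, |dot (ext ω.1.1 s) w / N - bs κ ν ψ s * (1 - qp ψ)| ≤ θ) :
    nrm (errw κ ν ψ ω w) ≤ EB κ ν ψ K θ * Real.sqrt N := by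
  have h1 := h.E1 ht hw hm
  have h2 := h.E2 ht hw he
  have h3 := h.dist_hh ht
  have h4 := h.nrm_Fv_sub ht
  have hsM := h.sM_le ht
  have hθ := h.pos
  have hal := ht.hal
  have hq := ht.hq
  have hq1 := ht.hq1
  have e : errw κ ν ψ ω w
      = ((∑ s ∈ Finset.range K, (dot (gsv (mh κ ν ψ (ext ω.1.1)) s) w / Real.sqrt N) •
        projs (Finset.range (s + 1)) (gsv (nh κ ν ψ (ext ω.1.2))) (ext ω.1.2 s))
      - Real.sqrt (qp ψ) • bm (rho κ ν ψ) (ext ω.1.2) K)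
      + ((∑ s ∈ Finset.range K,
        (dot (ext ω.1.1 s) (projs (Finset.range s) (gsv (mh κ ν ψ (ext ω.1.1))) w)
          / Real.sqrt N) • gsv (nh κ ν ψ (ext ω.1.2)) s)
      - (1 - qp ψ) • nv κ ν ψ (ext ω.1.2) K)
      - (hhv κ ν ψ ω - Real.sqrt (qp ψ) • bm (rho κ ν ψ) (ext ω.1.2) K)
      - (1 - qp ψ) • (Fv κ ν ψ ω - nv κ ν ψ (ext ω.1.2) K) := by
    rw [errw, rr, cc, smul_sub]; abel
  rw [e]
  refine (nrm_sub_le _ _).trans ?_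
  rw [nrm_smul, abs_of_nonneg (by linarith : (0 : ℝ) ≤ 1 - qp ψ)]
  have g1 := nrm_sub_le (((∑ s ∈ Finset.range K,
        (dot (gsv (mh κ ν ψ (ext ω.1.1)) s) w / Real.sqrt N) •
        projs (Finset.range (s + 1)) (gsv (nh κ ν ψ (ext ω.1.2))) (ext ω.1.2 s))
      - Real.sqrt (qp ψ) • bm (rho κ ν ψ) (ext ω.1.2) K)
      + ((∑ s ∈ Finset.range K,
        (dot (ext ω.1.1 s) (projs (Finset.range s) (gsv (mh κ ν ψ (ext ω.1.1))) w)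
          / Real.sqrt N) • gsv (nh κ ν ψ (ext ω.1.2)) s)
      - (1 - qp ψ) • nv κ ν ψ (ext ω.1.2) K))
    (hhv κ ν ψ ω - Real.sqrt (qp ψ) • bm (rho κ ν ψ) (ext ω.1.2) K)
  have g2 := nrm_add_le ((∑ s ∈ Finset.range K,
        (dot (gsv (mh κ ν ψ (ext ω.1.1)) s) w / Real.sqrt N) •
        projs (Finset.range (s + 1)) (gsv (nh κ ν ψ (ext ω.1.2))) (ext ω.1.2 s))
      - Real.sqrt (qp ψ) • bm (rho κ ν ψ) (ext ω.1.2) K)
      ((∑ s ∈ Finset.range K,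
        (dot (ext ω.1.1 s) (projs (Finset.range s) (gsv (mh κ ν ψ (ext ω.1.1))) w)
          / Real.sqrt N) • gsv (nh κ ν ψ (ext ω.1.2)) s)
      - (1 - qp ψ) • nv κ ν ψ (ext ω.1.2) K)
  have i1 : K * (4 + 3 * K) * θ * Real.sqrt M
      ≤ K * (4 + 3 * K) * (al κ ν ψ + 1) * θ * Real.sqrt N := by
    calc K * (4 + 3 * K) * θ * Real.sqrt M
        ≤ K * (4 + 3 * K) * θ * ((al κ ν ψ + 1) * Real.sqrt N) :=
          mul_le_mul_of_nonneg_left hsM (by positivity)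
      _ = _ := by ring
  have i3 : 2 * Real.sqrt (1 - rho κ ν ψ K) * Real.sqrt M
      ≤ 2 * (al κ ν ψ + 1) * Real.sqrt (1 - rho κ ν ψ K) * Real.sqrt N := by
    calc 2 * Real.sqrt (1 - rho κ ν ψ K) * Real.sqrt M
        ≤ 2 * Real.sqrt (1 - rho κ ν ψ K) * ((al κ ν ψ + 1) * Real.sqrt N) :=
          mul_le_mul_of_nonneg_left hsM (by positivity)
      _ = _ := by ring
  have i4 : (1 - qp ψ) * nrm (Fv κ ν ψ ω - nv κ ν ψ (ext ω.1.2) K)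
      ≤ (al κ ν ψ + 1) * dF κ ν ψ K θ * Real.sqrt N := by
    have hd : 0 ≤ dF κ ν ψ K θ := Real.sqrt_nonneg _
    calc (1 - qp ψ) * nrm (Fv κ ν ψ ω - nv κ ν ψ (ext ω.1.2) K)
        ≤ 1 * (dF κ ν ψ K θ * ((al κ ν ψ + 1) * Real.sqrt N)) := by
          refine mul_le_mul (by linarith) (h4.trans ?_) (nrm_nonneg _) (by norm_num)
          exact mul_le_mul_of_nonneg_left hsM hd
      _ = _ := by ring
  have j1 : 0 ≤ K * (2 * ((1 + (ψ / al κ ν ψ + 1)) * (al κ ν ψ + 1) + Real.sqrt ψ / al κ ν ψ)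
      + 3 * K * Real.sqrt ψ) * θ * Real.sqrt N := by
    have := div_pos ht.hψ hal
    positivity
  have j2 : 0 ≤ K * (3 * K * (ψ / al κ ν ψ + 1) * (al κ ν ψ + 1) + 1 + |dd κ ν ψ|)
      * θ * Real.sqrt N := by
    have := div_pos ht.hψ hal
    positivity
  have j3 : 0 ≤ 2 * Real.sqrt ψ * Real.sqrt (1 - mu κ ν ψ K) * Real.sqrt N := by positivity
  have j4 : 0 ≤ |dd κ ν ψ| * dT κ ν ψ K θ * Real.sqrt N := by unfold dT; positivity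
  have fin : EB κ ν ψ K θ * Real.sqrt N
      = K * (4 + 3 * K) * (al κ ν ψ + 1) * θ * Real.sqrt N
        + K * ((3 * K + 1) + Real.sqrt ψ * (1 + 2 / al κ ν ψ)) * θ * Real.sqrt N
        + K * (2 * ((1 + (ψ / al κ ν ψ + 1)) * (al κ ν ψ + 1) + Real.sqrt ψ / al κ ν ψ)
          + 3 * K * Real.sqrt ψ) * θ * Real.sqrt N
        + K * (3 * K * (ψ / al κ ν ψ + 1) * (al κ ν ψ + 1) + 1 + |dd κ ν ψ|) * θ * Real.sqrt N
        + 2 * (al κ ν ψ + 1) * Real.sqrt (1 - rho κ ν ψ K) * Real.sqrt N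
        + (al κ ν ψ + 1) * dF κ ν ψ K θ * Real.sqrt N
        + 2 * Real.sqrt ψ * Real.sqrt (1 - mu κ ν ψ K) * Real.sqrt N
        + |dd κ ν ψ| * dT κ ν ψ K θ * Real.sqrt N := by
    unfold EB KC; ring
  rw [fin]
  linarith

/-- `|errt| ≤ EB √N` for `u = F(hh)` -/
theorem nrm_errt (h : Pk κ ν ψ θ ω) (ht : Tm κ ν ψ) :
    nrm (errt κ ν ψ ω (Fv κ ν ψ ω)) ≤ EB κ ν ψ K θ * Real.sqrt N := by
  have hB : 0 ≤ ψ / al κ ν ψ + 1 := by have := div_pos ht.hψ ht.hal; linarith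
  have h1 := h.E3 ht hB (h.nrm_F_le ht) h.good.nF
  have h2 := h.E4 ht hB (h.nrm_F_le ht) h.good.xF
  have h3 := h.dist_h
  have h4 := h.nrm_tv_sub ht
  have hθ := h.pos
  have hal := ht.hal
  have e : errt κ ν ψ ω (Fv κ ν ψ ω)
      = ((∑ s ∈ Finset.range K, (dot (gsv (nh κ ν ψ (ext ω.1.2)) s)
          (fun a => FF κ ν (qp ψ) (hhv κ ν ψ ω a)) / Real.sqrt N) •
        projs (Finset.range s) (gsv (mh κ ν ψ (ext ω.1.1))) (ext ω.1.1 s))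
      - Real.sqrt ψ • bm (mu κ ν ψ) (ext ω.1.1) K)
      + ((∑ s ∈ Finset.range K,
        (dot (ext ω.1.2 s) (projs (Finset.range (s + 1)) (gsv (nh κ ν ψ (ext ω.1.2)))
          (fun a => FF κ ν (qp ψ) (hhv κ ν ψ ω a)))
          / Real.sqrt N) • gsv (mh κ ν ψ (ext ω.1.1)) s)
      - dd κ ν ψ • mv κ ν ψ (ext ω.1.1) K)
      - (hv κ ν ψ ω - Real.sqrt ψ • bm (mu κ ν ψ) (ext ω.1.1) K)
      - dd κ ν ψ • (tv κ ν ψ ω - mv κ ν ψ (ext ω.1.1) K) := by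
    rw [errt, rr, cc, smul_sub,
      show (fun a => FF κ ν (qp ψ) (hhv κ ν ψ ω a)) = Fv κ ν ψ ω from rfl]
    abel
  rw [e]
  refine (nrm_sub_le _ _).trans ?_
  rw [nrm_smul]
  have g1 := nrm_sub_le (((∑ s ∈ Finset.range K, (dot (gsv (nh κ ν ψ (ext ω.1.2)) s)
          (fun a => FF κ ν (qp ψ) (hhv κ ν ψ ω a)) / Real.sqrt N) •
        projs (Finset.range s) (gsv (mh κ ν ψ (ext ω.1.1))) (ext ω.1.1 s))
      - Real.sqrt ψ • bm (mu κ ν ψ) (ext ω.1.1) K)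
      + ((∑ s ∈ Finset.range K,
        (dot (ext ω.1.2 s) (projs (Finset.range (s + 1)) (gsv (nh κ ν ψ (ext ω.1.2)))
          (fun a => FF κ ν (qp ψ) (hhv κ ν ψ ω a)))
          / Real.sqrt N) • gsv (mh κ ν ψ (ext ω.1.1)) s)
      - dd κ ν ψ • mv κ ν ψ (ext ω.1.1) K))
    (hv κ ν ψ ω - Real.sqrt ψ • bm (mu κ ν ψ) (ext ω.1.1) K)
  have g2 := nrm_add_le ((∑ s ∈ Finset.range K, (dot (gsv (nh κ ν ψ (ext ω.1.2)) s)
          (fun a => FF κ ν (qp ψ) (hhv κ ν ψ ω a)) / Real.sqrt N) •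
        projs (Finset.range s) (gsv (mh κ ν ψ (ext ω.1.1))) (ext ω.1.1 s))
      - Real.sqrt ψ • bm (mu κ ν ψ) (ext ω.1.1) K)
      ((∑ s ∈ Finset.range K,
        (dot (ext ω.1.2 s) (projs (Finset.range (s + 1)) (gsv (nh κ ν ψ (ext ω.1.2)))
          (fun a => FF κ ν (qp ψ) (hhv κ ν ψ ω a)))
          / Real.sqrt N) • gsv (mh κ ν ψ (ext ω.1.1)) s)
      - dd κ ν ψ • mv κ ν ψ (ext ω.1.1) K)
  have i4 : |dd κ ν ψ| * nrm (tv κ ν ψ ω - mv κ ν ψ (ext ω.1.1) K)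
      ≤ |dd κ ν ψ| * dT κ ν ψ K θ * Real.sqrt N := by
    rw [mul_assoc]
    exact mul_le_mul_of_nonneg_left h4 (abs_nonneg _)
  have j1 : 0 ≤ K * (4 + 3 * K) * (al κ ν ψ + 1) * θ * Real.sqrt N := by positivity
  have j2 : 0 ≤ K * ((3 * K + 1) + Real.sqrt ψ * (1 + 2 / al κ ν ψ)) * θ * Real.sqrt N := by
    positivity
  have j3 : 0 ≤ 2 * (al κ ν ψ + 1) * Real.sqrt (1 - rho κ ν ψ K) * Real.sqrt N := by positivity
  have j4 : 0 ≤ (al κ ν ψ + 1) * dF κ ν ψ K θ * Real.sqrt N := by unfold dF; positivity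
  have fin : EB κ ν ψ K θ * Real.sqrt N
      = K * (4 + 3 * K) * (al κ ν ψ + 1) * θ * Real.sqrt N
        + K * ((3 * K + 1) + Real.sqrt ψ * (1 + 2 / al κ ν ψ)) * θ * Real.sqrt N
        + K * (2 * ((1 + (ψ / al κ ν ψ + 1)) * (al κ ν ψ + 1) + Real.sqrt ψ / al κ ν ψ)
          + 3 * K * Real.sqrt ψ) * θ * Real.sqrt N
        + K * (3 * K * (ψ / al κ ν ψ + 1) * (al κ ν ψ + 1) + 1 + |dd κ ν ψ|) * θ * Real.sqrt N
        + 2 * (al κ ν ψ + 1) * Real.sqrt (1 - rho κ ν ψ K) * Real.sqrt N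
        + (al κ ν ψ + 1) * dF κ ν ψ K θ * Real.sqrt N
        + 2 * Real.sqrt ψ * Real.sqrt (1 - mu κ ν ψ K) * Real.sqrt N
        + |dd κ ν ψ| * dT κ ν ψ K θ * Real.sqrt N := by
    unfold EB KC; ring
  rw [fin]
  linarith

end Pk

end

end Pool.Agent.IP49.SR
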