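import Pool.Agent.IP49.SGS2

/-!
# IP49, part S: the exact formula for the assembled matrix and its transpose
-/

set_option autoImplicit false
open MeasureTheory ProbabilityTheory Filter Topology

namespace Pool.Agent.IP49.SR

/-- the assembled matrix for given sequences of directions and data -/
def fold {M N : ℕ} (c : ℕ → Fin M → ℝ) (r : ℕ → Fin N → ℝ) (e : ℕ → Fin N → ℝ)
    (x : ℕ → Fin M → ℝ) : ℕ → (Fin M → Fin N → ℝ) → (Fin M → Fin N → ℝ)
  | 0, G => G
  | K + 1, G => fold c r e x K (rowStep (c K) (e K) (colStep (r K) (x K) G))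

theorem fold_congr {M N : ℕ} {c c' : ℕ → Fin M → ℝ} {r r' : ℕ → Fin N → ℝ}
    {e e' : ℕ → Fin N → ℝ} {x x' : ℕ → Fin M → ℝ} (K : ℕ)
    (hc : ∀ t < K, c t = c' t) (hr : ∀ t < K, r t = r' t) (he : ∀ t < K, e t = e' t)
    (hx : ∀ t < K, x t = x' t) (G : Fin M → Fin N → ℝ) :
    fold c r e x K G = fold c' r' e' x' K G := by
  induction K generalizing G with
  | zero => rfl
  | succ K ih =>
    simp only [fold]
    rw [hc K (by omega), hr K (by omega), he K (by omega), hx K (by omega)]
    exact ih (fun t ht => hc t (by omega)) (fun t ht => hr t (by omega))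
      (fun t ht => he t (by omega)) (fun t ht => hx t (by omega)) _

theorem bm_congr {ι : Type*} (w : ℕ → ℝ) {e e' : ℕ → ι → ℝ} (s : ℕ) (h : ∀ t < s, e t = e' t) :
    bm w e s = bm w e' s := by
  funext i
  unfold bm
  exact Finset.sum_congr rfl fun t ht => by rw [h t (Finset.mem_range.mp ht)]

theorem mh_congr (κ ν ψ : ℝ) {ι : Type*} {e e' : ℕ → ι → ℝ} (s : ℕ)
    (h : ∀ t ≤ s, e t = e' t) : mh κ ν ψ e s = mh κ ν ψ e' s := by
  unfold mh mv
  rw [bm_congr _ s fun t ht => h t ht.le, bm_congr _ (s + 1) fun t ht => h t (by omega)]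

theorem nh_congr (κ ν ψ : ℝ) {ι : Type*} {x x' : ℕ → ι → ℝ} (s : ℕ)
    (h : ∀ t < s, x t = x' t) : nh κ ν ψ x s = nh κ ν ψ x' s := by
  unfold nh
  cases s with
  | zero => simp only [nv]; rw [bm_congr _ 0 fun t ht => by omega]
  | succ s =>
    simp only [nv]
    rw [bm_congr _ (s + 1) h, bm_congr _ s fun t ht => h t (by omega)]

theorem ext_ini {K : ℕ} {ι : Type*} (f : Fin (K + 1) → ι → ℝ) (t : ℕ) (ht : t < K) :
    ext (ini f) t = ext f t := by
  unfold ext ini
  rw [dif_pos ht, dif_pos (by omega : t < K + 1)]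
  rfl

theorem exl_ini {K : ℕ} {ι : Type*} (f : Fin (K + 1) → ι → ℝ) :
    exl (ini f) (f (Fin.last K)) = ext f := by
  funext t
  unfold ext exl ini
  by_cases h : t < K
  · rw [dif_pos h, dif_pos (by omega : t < K + 1)]; rfl
  · rw [dif_neg h]
    by_cases h' : t = K
    · rw [if_pos h', dif_pos (by omega : t < K + 1)]
      congr 1
      exact Fin.ext h'.symm
    · rw [if_neg h', dif_neg (by omega : ¬ t < K + 1)]

theorem ext_last {K : ℕ} {ι : Type*} (f : Fin (K + 1) → ι → ℝ) :
    ext f K = f (Fin.last K) := by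
  unfold ext; rw [dif_pos (Nat.lt_succ_self K)]; rfl

/-- the assembled matrix as a fold along the full history -/
theorem asm_eq_fold (κ ν ψ : ℝ) {M N : ℕ} (K : ℕ) (P : Hist M N K) (G : Fin M → Fin N → ℝ) :
    asm (cdir κ ν ψ) (rdir κ ν ψ) K P G
      = fold (gsv (nh κ ν ψ (ext P.2))) (gsv (mh κ ν ψ (ext P.1))) (ext P.1) (ext P.2) K G := by
  induction K generalizing G with
  | zero => rfl
  | succ K ih =>
    simp only [asm, fold]
    rw [ih (ini P.1, ini P.2)]
    have h1 : cdir κ ν ψ (M := M) (N := N) K (ini P.1, ini P.2)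
        = gsv (nh κ ν ψ (ext P.2)) K := by
      unfold cdir
      refine gsv_congr _ _ K fun t ht => nh_congr κ ν ψ t fun u hu => ?_
      exact ext_ini P.2 u (by omega)
    have h2 : rdir κ ν ψ (M := M) (N := N) K (ini P.1, ini P.2) (P.1 (Fin.last K))
        = gsv (mh κ ν ψ (ext P.1)) K := by
      unfold rdir
      rw [exl_ini]
    rw [h1, h2, ← ext_last P.1, ← ext_last P.2]
    refine fold_congr K (fun t ht => ?_) (fun t ht => ?_) (fun t ht => ?_) (fun t ht => ?_) _
    · exact gsv_congr _ _ t fun s hs => nh_congr κ ν ψ s fun u hu => ext_ini P.2 u (by omega)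
    · exact gsv_congr _ _ t fun s hs => mh_congr κ ν ψ s fun u hu => ext_ini P.1 u (by omega)
    · exact ext_ini P.1 t ht
    · exact ext_ini P.2 t ht

/-- matrix times vector -/
def mvl {M N : ℕ} (G : Fin M → Fin N → ℝ) (w : Fin N → ℝ) : Fin M → ℝ := fun a => dot (G a) w

/-- transposed matrix times vector -/
def mtl {M N : ℕ} (G : Fin M → Fin N → ℝ) (u : Fin M → ℝ) : Fin N → ℝ :=
  fun i => ∑ a, G a i * u a

theorem mvl_rowStep {M N : ℕ} (c : Fin M → ℝ) (y : Fin N → ℝ) (H : Fin M → Fin N → ℝ)
    (w : Fin N → ℝ) : mvl (rowStep c y H) w = dot y w • c + proj c (mvl H w) := by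
  funext a
  simp only [mvl, rowStep, dot, proj, Pi.add_apply, Pi.smul_apply, smul_eq_mul]
  have h1 : ∀ i, (y i * c a + (H a i - (∑ b, H b i * c b) * c a)) * w i
      = y i * w i * c a + H a i * w i - (∑ b, H b i * c b) * w i * c a := fun i => by ring
  simp_rw [h1]
  rw [Finset.sum_sub_distrib, Finset.sum_add_distrib, ← Finset.sum_mul, ← Finset.sum_mul]
  have h2 : ∑ i, (∑ b, H b i * c b) * w i = ∑ b, c b * ∑ i, H b i * w i := by
    simp_rw [Finset.sum_mul, Finset.mul_sum]
    rw [Finset.sum_comm]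
    exact Finset.sum_congr rfl fun b _ => Finset.sum_congr rfl fun i _ => by ring
  rw [h2]; ring

theorem mvl_colStep {M N : ℕ} (r : Fin N → ℝ) (x : Fin M → ℝ) (G : Fin M → Fin N → ℝ)
    (w : Fin N → ℝ) : mvl (colStep r x G) w = dot r w • x + mvl G (proj r w) := by
  funext a
  simp only [mvl, colStep, dot, proj, Pi.add_apply, Pi.smul_apply, smul_eq_mul]
  have h1 : ∀ i, (x a * r i + (G a i - (∑ j, G a j * r j) * r i)) * w i
      = r i * w i * x a + G a i * w i - (∑ j, G a j * r j) * (r i * w i) := fun i => by ring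
  have h2 : ∀ i, G a i * (w i - (∑ j, r j * w j) * r i)
      = G a i * w i - (∑ j, r j * w j) * (G a i * r i) := fun i => by ring
  simp_rw [h1, h2]
  rw [Finset.sum_sub_distrib, Finset.sum_add_distrib, Finset.sum_sub_distrib, ← Finset.sum_mul,
    ← Finset.mul_sum, ← Finset.mul_sum]
  ring

theorem mtl_rowStep {M N : ℕ} (c : Fin M → ℝ) (y : Fin N → ℝ) (H : Fin M → Fin N → ℝ)
    (u : Fin M → ℝ) : mtl (rowStep c y H) u = dot c u • y + mtl H (proj c u) := by
  funext i
  simp only [mtl, rowStep, dot, proj, Pi.add_apply, Pi.smul_apply, smul_eq_mul]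
  have h1 : ∀ a, (y i * c a + (H a i - (∑ b, H b i * c b) * c a)) * u a
      = c a * u a * y i + H a i * u a - (∑ b, H b i * c b) * (c a * u a) := fun a => by ring
  have h2 : ∀ a, H a i * (u a - (∑ b, c b * u b) * c a)
      = H a i * u a - (∑ b, c b * u b) * (H a i * c a) := fun a => by ring
  simp_rw [h1, h2]
  rw [Finset.sum_sub_distrib, Finset.sum_add_distrib, Finset.sum_sub_distrib, ← Finset.sum_mul,
    ← Finset.mul_sum, ← Finset.mul_sum]
  ring

theorem mtl_colStep {M N : ℕ} (r : Fin N → ℝ) (x : Fin M → ℝ) (G : Fin M → Fin N → ℝ)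
    (u : Fin M → ℝ) : mtl (colStep r x G) u = dot x u • r + proj r (mtl G u) := by
  funext i
  simp only [mtl, colStep, dot, proj, Pi.add_apply, Pi.smul_apply, smul_eq_mul]
  have h1 : ∀ a, (x a * r i + (G a i - (∑ j, G a j * r j) * r i)) * u a
      = x a * u a * r i + G a i * u a - (∑ j, G a j * r j) * u a * r i := fun a => by ring
  simp_rw [h1]
  rw [Finset.sum_sub_distrib, Finset.sum_add_distrib, ← Finset.sum_mul, ← Finset.sum_mul]
  have h2 : ∑ a, (∑ j, G a j * r j) * u a = ∑ j, r j * ∑ a, G a j * u a := by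
    simp_rw [Finset.sum_mul, Finset.mul_sum]
    rw [Finset.sum_comm]
    exact Finset.sum_congr rfl fun b _ => Finset.sum_congr rfl fun i _ => by ring
  rw [h2]; ring

section ONlemmas
variable {ι σ : Type*} [Fintype ι]

theorem ON.dot_projs_of_notMem [DecidableEq σ] {S : Finset σ} {c : σ → ι → ℝ} {t : σ}
    (ht : t ∉ S) (h : ON (insert t S) c) (x : ι → ℝ) :
    dot (c t) (projs S c x) = dot (c t) x := by
  rw [projs, dot_sub_right, dot_sum_right, Finset.sum_eq_zero, sub_zero]
  intro s hs
  rw [dot_smul_right, h.2 t (Finset.mem_insert_self _ _) s (Finset.mem_insert_of_mem hs)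
    (fun e => ht (e ▸ hs)), mul_zero]

theorem ON.projs_of_notMem [DecidableEq σ] {S : Finset σ} {c : σ → ι → ℝ} {t : σ}
    (ht : t ∉ S) (h : ON (insert t S) c) : projs S c (c t) = c t := by
  rw [projs, Finset.sum_eq_zero, sub_zero]
  intro s hs
  rw [h.2 s (Finset.mem_insert_of_mem hs) t (Finset.mem_insert_self _ _)
    (fun e => ht (e ▸ hs)), zero_smul]

theorem ON.projs_proj [DecidableEq σ] {S : Finset σ} {c : σ → ι → ℝ} {t : σ} (ht : t ∉ S)
    (h : ON (insert t S) c) (x : ι → ℝ) : projs S c (proj (c t) x) = projs (insert t S) c x := by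
  rw [proj_eq, projs_sub, projs_smul, ON.projs_of_notMem ht h, projs, projs,
    Finset.sum_insert ht]
  abel

end ONlemmas

theorem range_succ' (K : ℕ) : Finset.range (K + 1) = insert K (Finset.range K) :=
  Finset.range_add_one

/-- THE FORMULA: the assembled matrix applied to a vector -/
theorem mvl_fold {M N : ℕ} (c : ℕ → Fin M → ℝ) (r : ℕ → Fin N → ℝ) (e : ℕ → Fin N → ℝ)
    (x : ℕ → Fin M → ℝ) (K : ℕ) (hc : ON (Finset.range K) c) (hr : ON (Finset.range K) r)
    (G : Fin M → Fin N → ℝ) (w : Fin N → ℝ) :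
    mvl (fold c r e x K G) w = ∑ s ∈ Finset.range K,
        (dot (e s) (projs (Finset.range s) r w) • c s
          + dot (r s) w • projs (Finset.range (s + 1)) c (x s))
      + projs (Finset.range K) c (mvl G (projs (Finset.range K) r w)) := by
  induction K generalizing G with
  | zero => simp [fold, projs_empty]
  | succ K ih =>
    have hcK : ON (insert K (Finset.range K)) c := by rw [← range_succ']; exact hc
    have hrK : ON (insert K (Finset.range K)) r := by rw [← range_succ']; exact hr
    have hn : K ∉ Finset.range K := Finset.notMem_range_self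
    simp only [fold]
    rw [ih (hc.mono (Finset.range_subset_range.mpr (by omega)))
      (hr.mono (Finset.range_subset_range.mpr (by omega))), Finset.sum_range_succ, add_assoc]
    congr 1
    rw [mvl_rowStep, mvl_colStep, projs_add, projs_smul, ON.projs_of_notMem hn hcK,
      ON.projs_proj hn hcK, projs_add, projs_smul, ON.dot_projs_of_notMem hn hrK,
      ON.proj_projs hn hrK, ← range_succ', add_assoc]

/-- THE TRANSPOSED FORMULA -/
theorem mtl_fold {M N : ℕ} (c : ℕ → Fin M → ℝ) (r : ℕ → Fin N → ℝ) (e : ℕ → Fin N → ℝ)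
    (x : ℕ → Fin M → ℝ) (K : ℕ) (hc : ON (Finset.range K) c) (hr : ON (Finset.range K) r)
    (G : Fin M → Fin N → ℝ) (u : Fin M → ℝ) :
    mtl (fold c r e x K G) u = ∑ s ∈ Finset.range K,
        (dot (c s) u • projs (Finset.range s) r (e s)
          + dot (x s) (projs (Finset.range (s + 1)) c u) • r s)
      + projs (Finset.range K) r (mtl G (projs (Finset.range K) c u)) := by
  induction K generalizing G with
  | zero => simp [fold, projs_empty]
  | succ K ih =>
    have hcK : ON (insert K (Finset.range K)) c := by rw [← range_succ']; exact hc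
    have hrK : ON (insert K (Finset.range K)) r := by rw [← range_succ']; exact hr
    have hn : K ∉ Finset.range K := Finset.notMem_range_self
    simp only [fold]
    rw [ih (hc.mono (Finset.range_subset_range.mpr (by omega)))
      (hr.mono (Finset.range_subset_range.mpr (by omega))), Finset.sum_range_succ, add_assoc]
    congr 1
    rw [mtl_rowStep, mtl_colStep, projs_add, projs_smul, ON.dot_projs_of_notMem hn hcK,
      ON.proj_projs hn hcK, projs_add, projs_smul, ON.projs_of_notMem hn hrK,
      ON.projs_proj hn hrK, ← range_succ', add_assoc]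

end Pool.Agent.IP49.SR
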