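import Pool.Agent.IP49.SDefs
import Pool.Agent.IP49.RSA

/-!
# IP49, part S: Gram-Schmidt with fallback, measurability and adaptedness; the law of `GR`
-/

set_option autoImplicit false
open MeasureTheory ProbabilityTheory Filter Topology

namespace Pool.Agent.IP49.SR

theorem fb_unit {N : ℕ} (hN : 0 < N) : ∑ i, fb N i ^ 2 = 1 := by
  unfold fb
  rw [Finset.sum_eq_single (⟨0, hN⟩ : Fin N)]
  · simp
  · intro b _ hb
    have : (b : ℕ) ≠ 0 := fun h => hb (Fin.ext h)
    simp [this]
  · intro h; exact absurd (Finset.mem_univ _) h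

theorem uni_unit {N : ℕ} (hN : 0 < N) (v : Fin N → ℝ) : ∑ i, uni v i ^ 2 = 1 := by
  unfold uni
  split_ifs with h
  · exact fb_unit hN
  · have h0 : 0 ≤ dot v v := dot_self_nonneg v
    have h1 : ∀ i, (v i / Real.sqrt (dot v v)) ^ 2 = v i ^ 2 / dot v v := fun i => by
      rw [div_pow, Real.sq_sqrt h0]
    simp_rw [h1]
    rw [← Finset.sum_div, ← dot_self_eq, div_self h]

theorem gsv_unit {N : ℕ} (hN : 0 < N) (v : ℕ → Fin N → ℝ) (s : ℕ) :
    ∑ i, gsv v s i ^ 2 = 1 := by
  rw [gsv]; exact uni_unit hN _

theorem gsv_congr {N : ℕ} (v v' : ℕ → Fin N → ℝ) (s : ℕ) (h : ∀ t ≤ s, v t = v' t) :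
    gsv v s = gsv v' s := by
  induction s using Nat.strong_induction_on with
  | _ s ih =>
    rw [gsv, gsv, h s le_rfl]
    congr 1
    funext i
    congr 1
    refine Finset.sum_congr rfl fun t _ => ?_
    rw [ih t t.2 fun u hu => h u (hu.trans t.2.le)]

theorem uni_measurable {N : ℕ} : Measurable (uni : (Fin N → ℝ) → Fin N → ℝ) := by
  unfold uni dot
  refine Measurable.ite ?_ measurable_const (by fun_prop)
  exact measurableSet_eq_fun (by fun_prop) measurable_const

theorem gsv_measurable {N : ℕ} {Ω : Type*} [MeasurableSpace Ω] (V : Ω → ℕ → Fin N → ℝ) (s : ℕ)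
    (hV : ∀ t ≤ s, Measurable fun ω => V ω t) : Measurable fun ω => gsv (V ω) s := by
  induction s using Nat.strong_induction_on with
  | _ s ih =>
    have h1 : ∀ t : Fin s, Measurable fun ω => gsv (V ω) t := fun t =>
      ih t t.2 fun u hu => hV u (hu.trans t.2.le)
    have h2 := hV s le_rfl
    have h3 : (fun ω => gsv (V ω) s) = uni ∘ (fun ω i => V ω s i -
        ∑ t : Fin s, dot (V ω s) (gsv (V ω) t) * gsv (V ω) t i) := by
      funext ω; rw [gsv]; rfl
    rw [h3]
    refine uni_measurable.comp ?_
    unfold dot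
    fun_prop

theorem ft_measurable {f : ℝ → ℝ} (hf : Measurable f) (v t : ℝ) : Measurable (ft f v t) := by
  have h : StronglyMeasurable (Function.uncurry fun (x z : ℝ) =>
      f (Real.sqrt v * (x + Real.sqrt (1 - t) * z))) := by
    apply Measurable.stronglyMeasurable
    unfold Function.uncurry
    fun_prop
  exact (h.integral_prod_right (ν := gaussianReal 0 1)).measurable

theorem tanh_measurable : Measurable Real.tanh := by
  have : Continuous Real.tanh := by
    rw [continuous_iff_continuousAt]
    exact fun x => (hasDerivAt_tanh x).continuousAt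
  exact this.measurable

theorem FF_measurable (κ ν q : ℝ) : Measurable (FF κ ν q) := continuous_FF.measurable

section
variable {Ω : Type*} [MeasurableSpace Ω] {ι : Type*}

theorem bm_measurable (w : ℕ → ℝ) (E : Ω → ℕ → ι → ℝ) (s : ℕ)
    (hE : ∀ t < s, Measurable fun ω => E ω t) : Measurable fun ω => bm w (E ω) s := by
  unfold bm
  refine measurable_pi_lambda _ fun i => ?_
  refine Finset.measurable_fun_sum _ fun t ht => ?_
  exact ((measurable_pi_apply i).comp (hE t (Finset.mem_range.mp ht))).const_mul _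

theorem mv_measurable (κ ν ψ : ℝ) (E : Ω → ℕ → ι → ℝ) (s : ℕ)
    (hE : ∀ t < s, Measurable fun ω => E ω t) : Measurable fun ω => mv κ ν ψ (E ω) s := by
  unfold mv
  refine measurable_pi_lambda _ fun i => ?_
  exact (ft_measurable tanh_measurable _ _).comp
    ((measurable_pi_apply i).comp (bm_measurable _ E s hE))

theorem nv_measurable (κ ν ψ : ℝ) (E : Ω → ℕ → ι → ℝ) (s : ℕ)
    (hE : ∀ t, t + 1 < s → Measurable fun ω => E ω t) :
    Measurable fun ω => nv κ ν ψ (E ω) s := by
  cases s with
  | zero => exact measurable_const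
  | succ s =>
    simp only [nv]
    refine measurable_pi_lambda _ fun i => ?_
    exact (ft_measurable (FF_measurable _ _ _) _ _).comp
      ((measurable_pi_apply i).comp (bm_measurable _ E s fun t ht => hE t (by omega)))

theorem mh_measurable (κ ν ψ : ℝ) (E : Ω → ℕ → ι → ℝ) (s : ℕ)
    (hE : ∀ t ≤ s, Measurable fun ω => E ω t) : Measurable fun ω => mh κ ν ψ (E ω) s := by
  unfold mh
  have h1 := mv_measurable κ ν ψ E (s + 1) fun t ht => hE t (by omega)
  have h2 := mv_measurable κ ν ψ E s fun t ht => hE t (by omega)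
  refine measurable_pi_lambda _ fun i => ?_
  exact (((measurable_pi_apply i).comp h1).sub ((measurable_pi_apply i).comp h2)).div_const _

theorem nh_measurable (κ ν ψ : ℝ) (E : Ω → ℕ → ι → ℝ) (s : ℕ)
    (hE : ∀ t < s, Measurable fun ω => E ω t) : Measurable fun ω => nh κ ν ψ (E ω) s := by
  unfold nh
  have h1 := nv_measurable κ ν ψ E (s + 1) fun t ht => hE t (by omega)
  have h2 := nv_measurable κ ν ψ E s fun t ht => hE t (by omega)
  refine measurable_pi_lambda _ fun i => ?_
  exact (((measurable_pi_apply i).comp h1).sub ((measurable_pi_apply i).comp h2)).div_const _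

end

theorem ext_measurable {K N : ℕ} (t : ℕ) :
    Measurable fun f : Fin K → Fin N → ℝ => ext f t := by
  unfold ext
  split_ifs with h
  · exact measurable_pi_apply _
  · exact measurable_const

theorem exl_measurable {K N : ℕ} (t : ℕ) :
    Measurable fun p : (Fin K → Fin N → ℝ) × (Fin N → ℝ) => exl p.1 p.2 t := by
  unfold exl
  split_ifs with h h'
  · exact (measurable_pi_apply _).comp measurable_fst
  · exact measurable_snd
  · exact measurable_const

theorem cdir_measurable (κ ν ψ : ℝ) {M N : ℕ} (s : ℕ) :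
    Measurable (cdir κ ν ψ (M := M) (N := N) s) := by
  unfold cdir
  refine gsv_measurable (fun p : Hist M N s => nh κ ν ψ (ext p.2)) s fun t _ => ?_
  exact nh_measurable κ ν ψ (fun p : Hist M N s => ext p.2) t fun u _ =>
    (ext_measurable u).comp measurable_snd

theorem rdir_measurable (κ ν ψ : ℝ) {M N : ℕ} (s : ℕ) :
    Measurable (Function.uncurry (rdir κ ν ψ (M := M) (N := N) s)) := by
  unfold rdir Function.uncurry
  refine gsv_measurable (fun p : Hist M N s × (Fin N → ℝ) => mh κ ν ψ (exl p.1.1 p.2)) s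
    fun t _ => ?_
  refine mh_measurable κ ν ψ (fun p : Hist M N s × (Fin N → ℝ) => exl p.1.1 p.2) t
    fun u _ => ?_
  exact (exl_measurable u).comp ((measurable_fst.comp measurable_fst).prodMk measurable_snd)

theorem GR_measurable (κ ν ψ : ℝ) {M N K : ℕ} :
    Measurable (GR κ ν ψ (M := M) (N := N) (K := K)) := by
  have h := asm_measurable (cdir κ ν ψ (M := M) (N := N)) (rdir κ ν ψ)
    (fun s => cdir_measurable κ ν ψ s) (fun s => rdir_measurable κ ν ψ s) K
  exact h.comp ((measurable_fst.comp measurable_fst).prodMk measurable_snd)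

/-- the law of `GR` is the law of a standard Gaussian matrix -/
theorem GR_law (κ ν ψ : ℝ) {M N K : ℕ} (hM : 0 < M) (hN : 0 < N) :
    MeasurePreserving (GR κ ν ψ (M := M) (N := N) (K := K))
      ((omLaw M N K).prod (GM M N)) (GM M N) := by
  have h := asm_law (cdir κ ν ψ (M := M) (N := N)) (rdir κ ν ψ)
    (fun s p => gsv_unit hM _ s) (fun s p y => gsv_unit hN _ s)
    (fun s => cdir_measurable κ ν ψ s) (fun s => rdir_measurable κ ν ψ s) K
  have h1 : MeasurePreserving (Prod.fst : Om M N K → Hist M N K) (omLaw M N K)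
      (histLaw M N K) := measurePreserving_fst
  have : IsProbabilityMeasure (GM M N) := gm_prob (Fin M) (Fin N)
  have h2 := h1.prod (MeasurePreserving.id (GM M N))
  exact h.comp h2

end Pool.Agent.IP49.SR
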