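import Pool.Agent.IP49.SGS1

/-!
# IP49, part S: Gram-Schmidt of an almost orthonormal family

If `|⟨v_s, v_t⟩/n - 1_{s=t}| ≤ ε` for `s, t < K` and `7^K ε ≤ 1/2` then the Gram-Schmidt vectors
`e_s = gsv v s` are orthonormal and `|√n e_s - v_s| ≤ 7^s ε √n`.
-/

set_option autoImplicit false
open MeasureTheory ProbabilityTheory Filter Topology

namespace Pool.Agent.IP49.SR

theorem gsv_eq {N : ℕ} (v : ℕ → Fin N → ℝ) (s : ℕ) :
    gsv v s = uni (projs (Finset.range s) (gsv v) (v s)) := by
  rw [gsv]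
  congr 1
  funext i
  simp only [projs, Pi.sub_apply, Finset.sum_apply, Pi.smul_apply, smul_eq_mul]
  congr 1
  rw [Finset.sum_range (fun t => dot (gsv v t) (v s) * gsv v t i)]
  exact Finset.sum_congr rfl fun t _ => by rw [dot_comm]

theorem nrm_gsv {N : ℕ} (hN : 0 < N) (v : ℕ → Fin N → ℝ) (s : ℕ) : nrm (gsv v s) = 1 := by
  have h := nrm_sq_eq (gsv v s)
  rw [gsv_unit hN] at h
  have h0 := nrm_nonneg (gsv v s)
  nlinarith

theorem uni_eq_smul {N : ℕ} {u : Fin N → ℝ} (h : nrm u ≠ 0) : uni u = (nrm u)⁻¹ • u := by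
  have h1 : dot u u ≠ 0 := by
    rw [← nrm_sq]; exact pow_ne_zero 2 h
  rw [uni, if_neg h1]
  funext i
  simp only [Pi.smul_apply, smul_eq_mul]
  rw [show Real.sqrt (dot u u) = nrm u from rfl]
  ring

theorem seven_pow (s : ℕ) : 1 + 2 * ∑ t ∈ Finset.range s, (1 + 2 * (7 : ℝ) ^ t) ≤ 7 ^ s := by
  have h1 : ∀ s : ℕ, ∑ t ∈ Finset.range s, (1 + 2 * (7 : ℝ) ^ t) = s + (7 ^ s - 1) / 3 := by
    intro s
    induction s with
    | zero => simp
    | succ s ih => rw [Finset.sum_range_succ, ih, pow_succ]; push_cast; ring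
  have h2 : ∀ s : ℕ, 1 + 6 * (s : ℝ) ≤ 7 ^ s := by
    intro s
    induction s with
    | zero => simp
    | succ s ih =>
      rw [pow_succ]; push_cast
      have : (0 : ℝ) ≤ s := Nat.cast_nonneg s
      nlinarith
  have := h2 s
  rw [h1]; nlinarith

theorem gs_close {N : ℕ} (hN : 0 < N) {n : ℝ} (hn : 0 < n) (v : ℕ → Fin N → ℝ) {K : ℕ} {ε : ℝ}
    (hε : 0 ≤ ε) (hK : 7 ^ K * ε ≤ 1 / 2)
    (hv : ∀ s < K, ∀ t < K, |dot (v s) (v t) / n - (if s = t then 1 else 0)| ≤ ε) :
    ∀ s ≤ K, ON (Finset.range s) (gsv v) ∧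
      ∀ t < s, nrm (Real.sqrt n • gsv v t - v t) ≤ 7 ^ t * ε * Real.sqrt n := by
  have hs0 : 0 < Real.sqrt n := Real.sqrt_pos.mpr hn
  have hsn : Real.sqrt n * Real.sqrt n = n := Real.mul_self_sqrt hn.le
  have hε1 : ε ≤ 1 / 2 := by
    have h7 : (1 : ℝ) ≤ 7 ^ K := one_le_pow₀ (by norm_num)
    nlinarith
  intro s
  induction s with
  | zero =>
    intro _
    refine ⟨⟨fun s hs => by simp at hs, fun s hs => by simp at hs⟩, fun t ht => by omega⟩
  | succ s ih =>
    intro hsK
    obtain ⟨ih1, ih2⟩ := ih (by omega)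
    have hsK' : s < K := by omega
    -- norm of v s
    have hvs := hv s hsK' s hsK'
    rw [if_pos rfl, ← nrm_sq] at hvs
    have hvs1 : |nrm (v s) ^ 2 - n| ≤ ε * n := by
      have : nrm (v s) ^ 2 - n = (nrm (v s) ^ 2 / n - 1) * n := by field_simp
      rw [this, abs_mul, abs_of_pos hn]
      exact mul_le_mul_of_nonneg_right hvs hn.le
    have hvn : |nrm (v s) - Real.sqrt n| ≤ ε * Real.sqrt n := by
      have h0 := nrm_nonneg (v s)
      have h1 : nrm (v s) ^ 2 - n = (nrm (v s) - Real.sqrt n) * (nrm (v s) + Real.sqrt n) := by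
        nlinarith
      rw [h1, abs_mul, abs_of_pos (by linarith : 0 < nrm (v s) + Real.sqrt n)] at hvs1
      have h2 : |nrm (v s) - Real.sqrt n| * Real.sqrt n
          ≤ |nrm (v s) - Real.sqrt n| * (nrm (v s) + Real.sqrt n) :=
        mul_le_mul_of_nonneg_left (by linarith) (abs_nonneg _)
      have h3 : |nrm (v s) - Real.sqrt n| * Real.sqrt n ≤ ε * Real.sqrt n * Real.sqrt n := by
        rw [mul_assoc, hsn]; exact h2.trans hvs1
      exact le_of_mul_le_mul_right h3 hs0
    have hv2 : nrm (v s) ≤ 2 * Real.sqrt n := by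
      have := (abs_le.mp hvn).2; nlinarith
    -- projections
    have hdot : ∀ t < s, |dot (gsv v t) (v s)| ≤ (1 + 2 * 7 ^ t) * ε * Real.sqrt n := by
      intro t ht
      have h1 := ih2 t ht
      have h2 := hv t (by omega) s hsK'
      rw [if_neg (by omega), sub_zero, abs_div, abs_of_pos hn, div_le_iff₀ hn] at h2
      have h3 : Real.sqrt n * dot (gsv v t) (v s)
          = dot (v t) (v s) + dot (Real.sqrt n • gsv v t - v t) (v s) := by
        rw [dot_sub_left, dot_smul_left]; ring
      have h4 : |dot (Real.sqrt n • gsv v t - v t) (v s)|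
          ≤ (7 ^ t * ε * Real.sqrt n) * (2 * Real.sqrt n) :=
        (abs_dot_le _ _).trans (mul_le_mul h1 hv2 (nrm_nonneg _)
          (by positivity))
      have h5 : Real.sqrt n * |dot (gsv v t) (v s)|
          ≤ Real.sqrt n * ((1 + 2 * 7 ^ t) * ε * Real.sqrt n) := by
        rw [← abs_of_pos hs0, ← abs_mul, abs_of_pos hs0, h3]
        refine (abs_add_le _ _).trans ?_
        have h7 : (7 ^ t * ε * Real.sqrt n) * (2 * Real.sqrt n)
            = 2 * 7 ^ t * ε * (Real.sqrt n * Real.sqrt n) := by ring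
        have h6 : Real.sqrt n * ((1 + 2 * 7 ^ t) * ε * Real.sqrt n)
            = (1 + 2 * 7 ^ t) * ε * (Real.sqrt n * Real.sqrt n) := by ring
        rw [hsn] at h6 h7
        rw [h6]; rw [h7] at h4; linarith
      exact le_of_mul_le_mul_left h5 hs0
    set u := projs (Finset.range s) (gsv v) (v s) with hu
    set b : ℝ := ∑ t ∈ Finset.range s, (1 + 2 * (7 : ℝ) ^ t) with hb
    have hb0 : 0 ≤ b := Finset.sum_nonneg fun t _ => by positivity
    have h7s := seven_pow s
    rw [← hb] at h7s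
    have huv : nrm (u - v s) ≤ b * ε * Real.sqrt n := by
      have : u - v s = -∑ t ∈ Finset.range s, dot (gsv v t) (v s) • gsv v t := by
        rw [hu, projs]; abel
      rw [this, nrm_neg]
      refine (nrm_sum_le _ _).trans ?_
      rw [hb, Finset.sum_mul, Finset.sum_mul]
      refine Finset.sum_le_sum fun t ht => ?_
      rw [nrm_smul, nrm_gsv hN, mul_one]
      exact hdot t (Finset.mem_range.mp ht)
    have hun : |nrm u - Real.sqrt n| ≤ (1 + b) * ε * Real.sqrt n := by
      have h1 := abs_nrm_sub_le u (v s)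
      have h2 : nrm u - Real.sqrt n = (nrm u - nrm (v s)) + (nrm (v s) - Real.sqrt n) := by ring
      rw [h2]
      refine (abs_add_le _ _).trans ?_
      have := h1.trans huv
      linarith
    have h7K : (7 : ℝ) ^ s ≤ 7 ^ K := pow_le_pow_right₀ (by norm_num) hsK'.le
    have hbε : (1 + b) * ε ≤ 1 / 2 := by nlinarith
    have hupos : 0 < nrm u := by
      have := (abs_le.mp hun).1
      nlinarith
    have hgs : gsv v s = (nrm u)⁻¹ • u := by
      rw [gsv_eq, uni_eq_smul hupos.ne']
    constructor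
    · refine ⟨fun t _ => nrm_gsv hN v t, fun a ha c hc hac => ?_⟩
      rw [Finset.mem_range] at ha hc
      have key : ∀ t < s, dot (gsv v t) (gsv v s) = 0 := by
        intro t ht
        rw [hgs, dot_smul_right, hu, ih1.dot_projs (v s) (Finset.mem_range.mpr ht), mul_zero]
      rcases Nat.lt_succ_iff_lt_or_eq.mp ha with ha' | ha'
      · rcases Nat.lt_succ_iff_lt_or_eq.mp hc with hc' | hc'
        · exact ih1.2 a (Finset.mem_range.mpr ha') c (Finset.mem_range.mpr hc') hac
        · rw [hc']; exact key a ha'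
      · rcases Nat.lt_succ_iff_lt_or_eq.mp hc with hc' | hc'
        · rw [ha', dot_comm]; exact key c hc'
        · omega
    · intro t ht
      rcases Nat.lt_succ_iff_lt_or_eq.mp ht with ht' | ht'
      · exact ih2 t ht'
      · rw [ht']
        have h1 : Real.sqrt n • gsv v s - v s = (Real.sqrt n / nrm u - 1) • u + (u - v s) := by
          rw [hgs, smul_smul, sub_smul, one_smul]
          rw [show Real.sqrt n * (nrm u)⁻¹ = Real.sqrt n / nrm u from rfl]; abel
        rw [h1]
        refine (nrm_add_le _ _).trans ?_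
        rw [nrm_smul]
        have h2 : |Real.sqrt n / nrm u - 1| * nrm u = |nrm u - Real.sqrt n| := by
          rw [← abs_of_pos hupos, ← abs_mul, abs_of_pos hupos, sub_mul, div_mul_cancel₀ _ hupos.ne',
            one_mul, abs_sub_comm]
        rw [h2]
        have h3 : (1 + b) * ε * Real.sqrt n + b * ε * Real.sqrt n
            = (1 + 2 * b) * (ε * Real.sqrt n) := by ring
        have h4 : (1 + 2 * b) * (ε * Real.sqrt n) ≤ 7 ^ s * (ε * Real.sqrt n) :=
          mul_le_mul_of_nonneg_right h7s (by positivity)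
        linarith

end Pool.Agent.IP49.SR
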