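import Pool.Agent.IP49.Law1
import Pool.Agent.IP49.SVec

/-!
IP49, part S2 (helper95): laws of linear forms under the standard Gaussian measure `gv ι`.
Main results: `map_dot`, `indep_dot`, `map_pair`, `integral_dot`, `integral_pair`.
-/

set_option autoImplicit false
open MeasureTheory ProbabilityTheory Filter Topology

namespace Pool.Agent.IP49.SR

noncomputable section

variable {ι : Type*} [Fintype ι]

lemma measurePreserving_eval_gv (i : ι) :
    MeasurePreserving (fun x : ι → ℝ => x i) (gv ι) (gaussianReal 0 1) :=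
  measurePreserving_eval (fun _ : ι => gaussianReal 0 1) i

lemma hasGaussianLaw_id_gv : HasGaussianLaw (fun x : ι → ℝ => (fun i => x i)) (gv ι) := by
  apply iIndepFun.hasGaussianLaw (X := fun (i : ι) (x : ι → ℝ) => x i)
  · intro i
    refine ⟨?_⟩
    rw [(measurePreserving_eval_gv i).map_eq]; infer_instance
  · have := iIndepFun_pi (μ := fun _ : ι => gaussianReal 0 1) (X := fun (_ : ι) (y : ℝ) => y)
      (fun _ => aemeasurable_id)
    exact this

lemma law_eval (i : ι) : (gv ι).map (fun x : ι → ℝ => x i) = gaussianReal 0 1 :=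
  (measurePreserving_eval_gv i).map_eq

lemma memLp_eval (i : ι) : MemLp (fun x : ι → ℝ => x i) 2 (gv ι) := by
  have h := memLp_id_gaussianReal' (μ := 0) (v := 1) 2 (by simp)
  exact h.comp_measurePreserving (measurePreserving_eval_gv i)

lemma cov_eval [DecidableEq ι] (i j : ι) :
    cov[fun x : ι → ℝ => x i, fun x => x j; gv ι] = if i = j then 1 else 0 := by
  split_ifs with h
  · subst h
    rw [covariance_self (measurable_pi_apply i).aemeasurable]
    have : Var[fun x : ι → ℝ => x i; gv ι] = Var[id; gaussianReal 0 1] := by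
      have h2 := variance_map (X := id) (Y := fun x : ι → ℝ => x i) (μ := gv ι)
        measurable_id.aemeasurable (measurable_pi_apply i).aemeasurable
      rw [law_eval i] at h2
      rw [h2]; rfl
    rw [this]
    simp
  · have hi := iIndepFun_pi (μ := fun _ : ι => gaussianReal 0 1) (X := fun (_ : ι) (y : ℝ) => y)
      (fun _ => aemeasurable_id)
    exact (hi.indepFun h).covariance_eq_zero (memLp_eval i) (memLp_eval j)

lemma cov_dot (a c : ι → ℝ) :
    cov[fun x : ι → ℝ => dot a x, fun x => dot c x; gv ι] = dot a c := by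
  classical
  unfold dot
  rw [covariance_fun_sum_fun_sum (fun i => (memLp_eval i).const_mul _)
    (fun i => (memLp_eval i).const_mul _)]
  simp_rw [covariance_const_mul_left, covariance_const_mul_right, cov_eval]
  simp

lemma mean_dot (a : ι → ℝ) : ∫ x : ι → ℝ, dot a x ∂(gv ι) = 0 := by
  unfold dot
  rw [integral_finsetSum _ (fun i _ => ((memLp_eval i).integrable (by norm_num)).const_mul _)]
  apply Finset.sum_eq_zero
  intro i _
  rw [integral_const_mul]
  have : ∫ x : ι → ℝ, x i ∂(gv ι) = ∫ y, y ∂(gaussianReal 0 1) := by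
    rw [← law_eval i, integral_map (measurable_pi_apply i).aemeasurable (by fun_prop)]
  rw [this]; simp

/-- the linear form as a continuous linear map -/
def dotL (a : ι → ℝ) : (ι → ℝ) →L[ℝ] ℝ := ∑ i, a i • ContinuousLinearMap.proj i

lemma dotL_apply (a x : ι → ℝ) : dotL a x = dot a x := by
  simp [dotL, dot]

lemma meas_dot (a : ι → ℝ) : Measurable fun x : ι → ℝ => dot a x := by
  unfold dot; fun_prop

lemma hasGaussianLaw_dot (a : ι → ℝ) : HasGaussianLaw (fun x : ι → ℝ => dot a x) (gv ι) := by
  have := (hasGaussianLaw_id_gv (ι := ι)).map_fun (dotL a)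
  simpa [dotL_apply] using this

lemma map_dot (a : ι → ℝ) :
    (gv ι).map (fun x : ι → ℝ => dot a x) = (gaussianReal 0 1).map (fun z => nrm a * z) := by
  rw [(hasGaussianLaw_dot a).map_eq_gaussianReal, mean_dot, ← covariance_self
    (meas_dot a).aemeasurable, cov_dot, gaussianReal_map_const_mul]
  congr 1
  · simp
  · ext
    simp [dot_self_nonneg, nrm_sq]

lemma indep_dot (a c : ι → ℝ) (h : dot a c = 0) :
    IndepFun (fun x : ι → ℝ => dot a x) (fun x => dot c x) (gv ι) := by
  apply HasGaussianLaw.indepFun_of_covariance_eq_zero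
  · have := (hasGaussianLaw_id_gv (ι := ι)).map_fun ((dotL a).prod (dotL c))
    simpa [dotL_apply] using this
  · rw [cov_dot, h]

/-- joint law of two orthogonal linear forms -/
lemma map_pair (a c : ι → ℝ) (h : dot a c = 0) :
    (gv ι).map (fun x : ι → ℝ => (dot a x, dot c x))
      = ((gaussianReal 0 1).prod (gaussianReal 0 1)).map
          (fun p => (nrm a * p.1, nrm c * p.2)) := by
  rw [(indepFun_iff_map_prod_eq_prod_map_map (meas_dot a).aemeasurable
    (meas_dot c).aemeasurable).1 (indep_dot a c h), map_dot, map_dot]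
  rw [Measure.map_prod_map _ _ (by fun_prop) (by fun_prop)]
  rfl

lemma integral_dot {φ : ℝ → ℝ} (hφ : Measurable φ) (a : ι → ℝ) :
    ∫ x : ι → ℝ, φ (dot a x) ∂(gv ι) = ∫ z, φ (nrm a * z) ∂(gaussianReal 0 1) := by
  rw [← integral_map (φ := fun x : ι → ℝ => dot a x) (meas_dot a).aemeasurable
    (hφ.aestronglyMeasurable), map_dot, integral_map (by fun_prop) hφ.aestronglyMeasurable]

lemma integral_pair {Φ : ℝ × ℝ → ℝ} (hΦ : Measurable Φ) (a c : ι → ℝ) (h : dot a c = 0) :
    ∫ x : ι → ℝ, Φ (dot a x, dot c x) ∂(gv ι)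
      = ∫ p, Φ (nrm a * p.1, nrm c * p.2)
          ∂((gaussianReal 0 1).prod (gaussianReal 0 1)) := by
  rw [← integral_map (φ := fun x : ι → ℝ => (dot a x, dot c x))
    ((meas_dot a).prodMk (meas_dot c)).aemeasurable
    (hΦ.aestronglyMeasurable), map_pair a c h,
    integral_map (by fun_prop) hΦ.aestronglyMeasurable]

end

end Pool.Agent.IP49.SR
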