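import Pool.Agent.IP49.SDefs
import Pool.Agent.IP49.SPoin
import Pool.Agent.IP49.RSA

/-!
IP49, part S2: the base functions `fS = tanh(√ψ ·)`, `fR = F(√q ·)` and the times `mu`, `rho`.

PROOFS.
Everything is read off `SPoin`/`SMart` with the base functions `fS ψ`, `fR κ ν ψ`
(`ft Real.tanh ψ t x = sm (fS ψ) t x` and `Cf Real.tanh ψ t = CC (fS ψ) t` hold by `rfl`, same for
`FF`, `fR`).
* `fS` has derivative `√ψ (1 - tanh²(√ψ y)) ∈ [0, √ψ]`; `fR` has derivative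
  `-√q gf(√q y)`, absolute value `≤ √q / tp²` (`hasDerivAt_FF`, `gf_pos`, `gf_lt`); Lipschitz by
  `lipR_of_deriv`.
* `CC_fS_one`: `CC_one`, definition of `qp`. `CC_fS_zero`: `CC_zero` and `GE tanh = 0` by oddness
  (`GE_neg`). `DD_fS`: `√ψ DD = E_h_tanh`, divide by `√ψ > 0`. `CC_fR_one`: `CC_one`, `al_EF2`,
  `al_pos`. `CC_fR_zero_pos`: `CC_zero`, `GE_pos`, `FF_pos`. `DD_fR`: `al_xF`, divide by `√q > 0`
  and `al > 0`.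
* Induction on `s`: `0 ≤ rho s < 1` implies `mu (s+1) = CC fR (rho s) / CC fR 1 ∈ [0, 1)` by
  `CC_nonneg` and `CC_lt` (`DD fR ≠ 0` by `dd_neg`), then
  `rho (s+1) = CC fS (mu (s+1)) / CC fS 1 ∈ [0,1)` (`DD fS ≠ 0`). `mu 1 > 0` because
  `CC fR 0 > 0`; `rho 1 > 0 = rho 0` because `CC fS (mu 1) > CC fS 0 = 0`; then strict increase by
  induction with `CC_lt`.
* `rho_step`: `q (1 - rho (s+1)) = CC fS 1 - CC fS (mu (s+1)) ≤ (1 - mu (s+1)) ψ ES2 ψ` and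
  `(ψ/α)(1 - mu (s+1)) = CC fR 1 - CC fR (rho s) ≤ (1 - rho s) q GE gf²` (`CC_one_sub_le`);
  multiply. Limits: geometric decay; for `mu` use the second inequality.
-/

set_option autoImplicit false
open MeasureTheory ProbabilityTheory Filter Topology

namespace Pool.Agent.IP49.SR

noncomputable section

/-- base function of the sites -/
def fS (ψ : ℝ) : ℝ → ℝ := fun y => Real.tanh (Real.sqrt ψ * y)

/-- base function of the rows -/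
def fR (κ ν ψ : ℝ) : ℝ → ℝ := fun y => FF κ ν (qp ψ) (Real.sqrt (qp ψ) * y)

theorem ft_tanh (ψ t x : ℝ) : ft Real.tanh ψ t x = sm (fS ψ) t x := rfl

theorem ft_FF (κ ν ψ t x : ℝ) : ft (FF κ ν (qp ψ)) (qp ψ) t x = sm (fR κ ν ψ) t x := rfl

theorem Cf_tanh (ψ t : ℝ) : Cf Real.tanh ψ t = CC (fS ψ) t := rfl

theorem Cf_FF (κ ν ψ t : ℝ) : Cf (FF κ ν (qp ψ)) (qp ψ) t = CC (fR κ ν ψ) t := rfl

theorem hasDerivAt_fS (ψ x : ℝ) : HasDerivAt (fS ψ) (Real.sqrt ψ * (1 - fS ψ x ^ 2)) x := by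
  have h1 : HasDerivAt (fun y => Real.sqrt ψ * y) (Real.sqrt ψ) x := by
    simpa using (hasDerivAt_id x).const_mul (Real.sqrt ψ)
  have h := (hasDerivAt_tanh (Real.sqrt ψ * x)).comp x h1
  rw [mul_comm]
  exact h

theorem hasDerivAt_fR {κ ν ψ : ℝ} (hν : 0 ≤ ν) (x : ℝ) :
    HasDerivAt (fR κ ν ψ) (-(Real.sqrt (qp ψ) * gf κ ν (qp ψ) (Real.sqrt (qp ψ) * x))) x := by
  have h1 : HasDerivAt (fun y => Real.sqrt (qp ψ) * y) (Real.sqrt (qp ψ)) x := by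
    simpa using (hasDerivAt_id x).const_mul (Real.sqrt (qp ψ))
  have h := (hasDerivAt_FF (κ := κ) hν (qp_lt_one (ψ := ψ)) (Real.sqrt (qp ψ) * x)).comp x h1
  refine h.congr_deriv ?_
  ring

theorem fS_lip (ψ : ℝ) : LipR (Real.sqrt ψ) (fS ψ) := by
  refine lipR_of_deriv (hasDerivAt_fS ψ) fun x => ?_
  have h1 : fS ψ x ^ 2 < 1 := tanh_sq_lt _
  have h2 : 0 ≤ fS ψ x ^ 2 := sq_nonneg _
  have h3 := Real.sqrt_nonneg ψ
  rw [abs_of_nonneg (mul_nonneg h3 (by linarith))]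
  nlinarith

theorem fR_lip {κ ν ψ : ℝ} (hν : 0 ≤ ν) :
    LipR (Real.sqrt (qp ψ) / tp ν (qp ψ) ^ 2) (fR κ ν ψ) := by
  refine lipR_of_deriv (hasDerivAt_fR hν) fun x => ?_
  have h1 := gf_pos (κ := κ) hν (qp_lt_one (ψ := ψ)) (Real.sqrt (qp ψ) * x)
  have h2 := gf_lt (κ := κ) hν (qp_lt_one (ψ := ψ)) (Real.sqrt (qp ψ) * x)
  have h3 := Real.sqrt_nonneg (qp ψ)
  rw [abs_neg, abs_of_nonneg (mul_nonneg h3 h1.le), div_eq_mul_one_div]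
  exact mul_le_mul_of_nonneg_left h2.le h3

theorem CC_fS_one (ψ : ℝ) : CC (fS ψ) 1 = qp ψ := by
  rw [CC_one]
  rfl

theorem CC_fS_zero (ψ : ℝ) : CC (fS ψ) 0 = 0 := by
  have h1 : GE (fS ψ) = 0 := by
    have h2 := GE_neg (fS ψ)
    have h3 : (fun x => fS ψ (-x)) = fun x => (-1) * fS ψ x := by
      funext x
      simp [fS, Real.tanh_neg]
    rw [h3, GE_mul] at h2
    linarith
  rw [CC_zero, h1]
  norm_num

theorem DD_fS {ψ : ℝ} (hψ : 0 < ψ) : DD (fS ψ) = Real.sqrt ψ * (1 - qp ψ) := by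
  have h1 := E_h_tanh hψ
  have h2 : (fun x => Real.sqrt ψ * x * Real.tanh (Real.sqrt ψ * x))
      = fun x => Real.sqrt ψ * (x * fS ψ x) := by
    funext x
    rw [mul_assoc]
    rfl
  rw [h2, GE_mul] at h1
  have h3 : DD (fS ψ) = GE fun x => x * fS ψ x := rfl
  rw [h3]
  have h4 : 0 < Real.sqrt ψ := Real.sqrt_pos.2 hψ
  have h5 := Real.mul_self_sqrt hψ.le
  have h6 : Real.sqrt ψ * (GE fun x => x * fS ψ x)
      = Real.sqrt ψ * (Real.sqrt ψ * (1 - qp ψ)) := by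
    rw [h1, ← mul_assoc, h5]
  exact mul_left_cancel₀ h4.ne' h6

theorem CC_fR_one {κ ν ψ : ℝ} (hν : 0 ≤ ν) (hψ : 0 < ψ) :
    CC (fR κ ν ψ) 1 = ψ / al κ ν ψ := by
  have h1 := al_EF2 (κ := κ) (ψ := ψ) hν
  have h2 := al_pos (κ := κ) hν hψ
  rw [CC_one, eq_div_iff h2.ne', mul_comm]
  exact h1

theorem CC_fR_zero_pos {κ ν ψ : ℝ} (hν : 0 ≤ ν) : 0 < CC (fR κ ν ψ) 0 := by
  rw [CC_zero]
  refine pow_pos (GE_pos (fR_lip hν).integrable fun x => ?_) 2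
  exact FF_pos hν qp_lt_one _

theorem DD_fR {κ ν ψ : ℝ} (hν : 0 ≤ ν) (hψ : 0 < ψ) :
    DD (fR κ ν ψ) = Real.sqrt (qp ψ) * dd κ ν ψ / al κ ν ψ := by
  have h1 := al_xF (κ := κ) (ψ := ψ) hν
  have h2 : (fun x => Real.sqrt (qp ψ) * x * FF κ ν (qp ψ) (Real.sqrt (qp ψ) * x))
      = fun x => Real.sqrt (qp ψ) * (x * fR κ ν ψ x) := by
    funext x
    rw [mul_assoc]
    rfl
  rw [h2, GE_mul] at h1
  have h3 : DD (fR κ ν ψ) = GE fun x => x * fR κ ν ψ x := rfl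
  rw [← h3] at h1
  have h4 : 0 < Real.sqrt (qp ψ) := Real.sqrt_pos.2 (qp_pos hψ)
  have h5 := Real.mul_self_sqrt (qp_nonneg ψ)
  have h6 := al_pos (κ := κ) hν hψ
  rw [eq_div_iff h6.ne']
  refine mul_left_cancel₀ h4.ne' ?_
  rw [← mul_assoc (Real.sqrt (qp ψ)) (Real.sqrt (qp ψ)), h5, ← h1]
  ring

/-- `q ρ_s = C_tanh(μ_s)` for all `s` -/
theorem CC_mu {κ ν ψ : ℝ} (hψ : 0 < ψ) (s : ℕ) :
    CC (fS ψ) (mu κ ν ψ s) = qp ψ * rho κ ν ψ s := by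
  cases s with
  | zero => rw [mu_zero, rho_zero, CC_fS_zero, mul_zero]
  | succ s =>
    have h := qp_pos hψ
    rw [rho_succ, Cf_tanh, mul_div_cancel₀ _ h.ne']

/-- `(ψ/α) μ_{s+1} = C_F(ρ_s)` -/
theorem CC_rho {κ ν ψ : ℝ} (hν : 0 ≤ ν) (hψ : 0 < ψ) (s : ℕ) :
    CC (fR κ ν ψ) (rho κ ν ψ s) = ψ / al κ ν ψ * mu κ ν ψ (s + 1) := by
  have h := al_pos (κ := κ) hν hψ
  rw [mu_succ, Cf_FF, ← mul_assoc, div_mul_div_cancel₀ h.ne', div_self hψ.ne', one_mul]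

theorem DD_fS_ne {ψ : ℝ} (hψ : 0 < ψ) : DD (fS ψ) ≠ 0 := by
  rw [DD_fS hψ]
  have h1 : 0 < Real.sqrt ψ := Real.sqrt_pos.2 hψ
  have h2 := qp_lt_one (ψ := ψ)
  exact (mul_pos h1 (by linarith)).ne'

theorem DD_fR_ne {κ ν ψ : ℝ} (hν : 0 ≤ ν) (hψ : 0 < ψ) : DD (fR κ ν ψ) ≠ 0 := by
  rw [DD_fR hν hψ]
  have h1 : 0 < Real.sqrt (qp ψ) := Real.sqrt_pos.2 (qp_pos hψ)
  exact div_ne_zero (mul_ne_zero h1.ne' (dd_neg hν hψ).ne) (al_pos hν hψ).ne'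

theorem mu_bd {κ ν ψ : ℝ} (hν : 0 ≤ ν) (hψ : 0 < ψ) (s : ℕ) (h0 : 0 ≤ rho κ ν ψ s)
    (h1 : rho κ ν ψ s < 1) : 0 ≤ mu κ ν ψ (s + 1) ∧ mu κ ν ψ (s + 1) < 1 := by
  have hal := al_pos (κ := κ) hν hψ
  have hc : 0 < al κ ν ψ / ψ := div_pos hal hψ
  rw [mu_succ, Cf_FF]
  refine ⟨mul_nonneg hc.le (CC_nonneg _ _), ?_⟩
  have h2 := CC_lt (fR_lip (κ := κ) hν) (DD_fR_ne hν hψ) h0 h1 le_rfl
  rw [CC_fR_one hν hψ] at h2
  have h3 := mul_lt_mul_of_pos_left h2 hc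
  rwa [div_mul_div_cancel₀ hψ.ne', div_self hal.ne'] at h3

theorem rho_bd {κ ν ψ : ℝ} (hν : 0 ≤ ν) (hψ : 0 < ψ) (s : ℕ) :
    0 ≤ rho κ ν ψ s ∧ rho κ ν ψ s < 1 := by
  have hq := qp_pos hψ
  induction s with
  | zero => rw [rho_zero]; norm_num
  | succ s ih =>
    obtain ⟨h0, h1⟩ := mu_bd hν hψ s ih.1 ih.2
    rw [rho_succ, Cf_tanh]
    refine ⟨div_nonneg (CC_nonneg _ _) hq.le, ?_⟩
    rw [div_lt_one hq]
    have h2 := CC_lt (fS_lip ψ) (DD_fS_ne hψ) h0 h1 le_rfl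
    rwa [CC_fS_one] at h2

theorem mu_one_pos {κ ν ψ : ℝ} (hν : 0 ≤ ν) (hψ : 0 < ψ) : 0 < mu κ ν ψ (0 + 1) := by
  rw [mu_succ, Cf_FF, rho_zero]
  exact mul_pos (div_pos (al_pos hν hψ) hψ) (CC_fR_zero_pos hν)

theorem rho_lt_of {κ ν ψ : ℝ} (_hν : 0 ≤ ν) (hψ : 0 < ψ) (s t : ℕ)
    (h : CC (fS ψ) (mu κ ν ψ s) < CC (fS ψ) (mu κ ν ψ t)) : rho κ ν ψ s < rho κ ν ψ t := by
  rw [CC_mu hψ, CC_mu hψ] at h
  exact lt_of_mul_lt_mul_left h (qp_nonneg ψ)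

theorem mu_lt_of {κ ν ψ : ℝ} (hν : 0 ≤ ν) (hψ : 0 < ψ) (s t : ℕ)
    (h : CC (fR κ ν ψ) (rho κ ν ψ s) < CC (fR κ ν ψ) (rho κ ν ψ t)) :
    mu κ ν ψ (s + 1) < mu κ ν ψ (t + 1) := by
  rw [CC_rho hν hψ, CC_rho hν hψ] at h
  exact lt_of_mul_lt_mul_left h (div_pos hψ (al_pos hν hψ)).le

theorem rho_nonneg {κ ν ψ : ℝ} (hν : 0 ≤ ν) (hψ : 0 < ψ) (s : ℕ) : 0 ≤ rho κ ν ψ s := by
  exact (rho_bd hν hψ s).1

theorem mu_nonneg {κ ν ψ : ℝ} (hν : 0 ≤ ν) (hψ : 0 < ψ) (s : ℕ) : 0 ≤ mu κ ν ψ s := by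
  cases s with
  | zero => exact (mu_zero κ ν ψ).ge
  | succ s => exact (mu_bd hν hψ s (rho_bd hν hψ s).1 (rho_bd hν hψ s).2).1

theorem rho_lt_one {κ ν ψ : ℝ} (hν : 0 ≤ ν) (hψ : 0 < ψ) (s : ℕ) : rho κ ν ψ s < 1 := by
  exact (rho_bd hν hψ s).2

theorem mu_lt_one {κ ν ψ : ℝ} (hν : 0 ≤ ν) (hψ : 0 < ψ) (s : ℕ) : mu κ ν ψ s < 1 := by
  cases s with
  | zero => rw [mu_zero]; norm_num
  | succ s => exact (mu_bd hν hψ s (rho_bd hν hψ s).1 (rho_bd hν hψ s).2).2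

theorem rho_lt_succ {κ ν ψ : ℝ} (hν : 0 ≤ ν) (hψ : 0 < ψ) (s : ℕ) :
    rho κ ν ψ s < rho κ ν ψ (s + 1) := by
  induction s with
  | zero =>
    have h1 := mu_one_pos (κ := κ) hν hψ
    have h2 := CC_lt (fS_lip ψ) (DD_fS_ne hψ) le_rfl h1 (mu_lt_one hν hψ (0 + 1)).le
    exact rho_lt_of hν hψ 0 (0 + 1) (by rw [mu_zero]; exact h2)
  | succ s ih =>
    have h1 := CC_lt (fR_lip (κ := κ) hν) (DD_fR_ne hν hψ) (rho_nonneg hν hψ s) ih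
      (rho_lt_one hν hψ (s + 1)).le
    have h2 := mu_lt_of hν hψ s (s + 1) h1
    have h3 := CC_lt (fS_lip ψ) (DD_fS_ne hψ) (mu_nonneg hν hψ (s + 1)) h2
      (mu_lt_one hν hψ (s + 1 + 1)).le
    exact rho_lt_of hν hψ (s + 1) (s + 1 + 1) h3

theorem mu_lt_succ {κ ν ψ : ℝ} (hν : 0 ≤ ν) (hψ : 0 < ψ) (s : ℕ) :
    mu κ ν ψ s < mu κ ν ψ (s + 1) := by
  cases s with
  | zero =>
    have h := mu_one_pos (κ := κ) hν hψ
    rw [mu_zero]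
    exact h
  | succ s =>
    have h1 := CC_lt (fR_lip (κ := κ) hν) (DD_fR_ne hν hψ) (rho_nonneg (κ := κ) hν hψ s)
      (rho_lt_succ hν hψ s) (rho_lt_one hν hψ (s + 1)).le
    exact mu_lt_of hν hψ s (s + 1) h1

theorem step_mu {κ ν ψ : ℝ} (hν : 0 ≤ ν) (hψ : 0 < ψ) (s : ℕ) :
    1 - mu κ ν ψ (s + 1) ≤ al κ ν ψ / ψ * ((1 - rho κ ν ψ s) *
      (qp ψ * GE fun x => gf κ ν (qp ψ) (Real.sqrt (qp ψ) * x) ^ 2)) := by
  have hal := al_pos (κ := κ) hν hψ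
  have hc : 0 < al κ ν ψ / ψ := div_pos hal hψ
  have h1 := CC_one_sub_le (hasDerivAt_fR (κ := κ) (ψ := ψ) hν)
    (((continuous_gf.comp (continuous_const.mul continuous_id)).measurable.const_mul _).neg)
    (L := Real.sqrt (qp ψ) / tp ν (qp ψ) ^ 2) (fun x => by
      have h1 := gf_pos (κ := κ) hν (qp_lt_one (ψ := ψ)) (Real.sqrt (qp ψ) * x)
      have h2 := gf_lt (κ := κ) hν (qp_lt_one (ψ := ψ)) (Real.sqrt (qp ψ) * x)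
      have h3 := Real.sqrt_nonneg (qp ψ)
      rw [abs_neg, abs_of_nonneg (mul_nonneg h3 h1.le), div_eq_mul_one_div]
      exact mul_le_mul_of_nonneg_left h2.le h3) (rho_nonneg (κ := κ) hν hψ s)
    (rho_lt_one hν hψ s).le
  have h2 : (fun x => (-(Real.sqrt (qp ψ) * gf κ ν (qp ψ) (Real.sqrt (qp ψ) * x))) ^ 2)
      = fun x => qp ψ * gf κ ν (qp ψ) (Real.sqrt (qp ψ) * x) ^ 2 := by
    funext x
    rw [neg_sq, mul_pow, Real.sq_sqrt (qp_nonneg ψ)]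
  rw [h2, GE_mul, CC_fR_one hν hψ, CC_rho hν hψ] at h1
  have h3 := mul_le_mul_of_nonneg_left h1 hc.le
  refine le_trans (le_of_eq ?_) h3
  have h4 := hal.ne'
  have h5 := hψ.ne'
  field_simp

theorem step_rho {κ ν ψ : ℝ} (hν : 0 ≤ ν) (hψ : 0 < ψ) (s : ℕ) :
    qp ψ * (1 - rho κ ν ψ s) ≤ (1 - mu κ ν ψ s) * (ψ * ES2 ψ) := by
  have hm : Measurable fun x => Real.sqrt ψ * (1 - fS ψ x ^ 2) :=
    (((fS_lip ψ).meas.pow_const 2).const_sub 1).const_mul _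
  have h1 := CC_one_sub_le (hasDerivAt_fS ψ) hm (L := Real.sqrt ψ) (fun x => by
      have h1 : fS ψ x ^ 2 < 1 := tanh_sq_lt _
      have h2 : 0 ≤ fS ψ x ^ 2 := sq_nonneg _
      have h3 := Real.sqrt_nonneg ψ
      rw [abs_of_nonneg (mul_nonneg h3 (by linarith))]
      nlinarith) (mu_nonneg (κ := κ) hν hψ s) (mu_lt_one hν hψ s).le
  have h2 : (fun x => (Real.sqrt ψ * (1 - fS ψ x ^ 2)) ^ 2)
      = fun x => ψ * (1 - Real.tanh (Real.sqrt ψ * x) ^ 2) ^ 2 := by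
    funext x
    rw [mul_pow, Real.sq_sqrt hψ.le]
    rfl
  rw [h2, GE_mul, CC_fS_one, CC_mu hψ] at h1
  refine le_trans (le_of_eq ?_) h1
  ring

theorem rho_step {κ ν ψ : ℝ} (hν : 0 ≤ ν) (hψ : 0 < ψ) (s : ℕ) :
    1 - rho κ ν ψ (s + 1) ≤ AT κ ν ψ * (1 - rho κ ν ψ s) := by
  have hq := qp_pos hψ
  have hal := al_pos (κ := κ) hν hψ
  have h1 := step_mu (κ := κ) hν hψ s
  have h2 := step_rho (κ := κ) hν hψ (s + 1)
  have hE : 0 ≤ ES2 ψ := GE_nonneg fun _ => sq_nonneg _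
  set G := GE fun x => gf κ ν (qp ψ) (Real.sqrt (qp ψ) * x) ^ 2 with hG
  have hAT : AT κ ν ψ = al κ ν ψ * G * ES2 ψ := rfl
  rw [hAT]
  have h3 : ψ * ES2 ψ * (1 - mu κ ν ψ (s + 1))
      ≤ ψ * ES2 ψ * (al κ ν ψ / ψ * ((1 - rho κ ν ψ s) * (qp ψ * G))) :=
    mul_le_mul_of_nonneg_left h1 (by positivity)
  have h4 : ψ * ES2 ψ * (al κ ν ψ / ψ * ((1 - rho κ ν ψ s) * (qp ψ * G)))
      = qp ψ * (al κ ν ψ * G * ES2 ψ * (1 - rho κ ν ψ s)) := by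
    field_simp
  have h5 : qp ψ * (1 - rho κ ν ψ (s + 1))
      ≤ qp ψ * (al κ ν ψ * G * ES2 ψ * (1 - rho κ ν ψ s)) := by
    calc qp ψ * (1 - rho κ ν ψ (s + 1)) ≤ (1 - mu κ ν ψ (s + 1)) * (ψ * ES2 ψ) := h2
      _ = ψ * ES2 ψ * (1 - mu κ ν ψ (s + 1)) := by ring
      _ ≤ _ := h3
      _ = _ := h4
  exact le_of_mul_le_mul_left h5 hq

theorem rho_tendsto {κ ν ψ : ℝ} (hν : 0 ≤ ν) (hψ : 0 < ψ) (hAT : AT κ ν ψ < 1) :
    Tendsto (rho κ ν ψ) atTop (𝓝 1) := by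
  have hA := AT_pos (κ := κ) hν hψ
  have h1 : ∀ s, 1 - rho κ ν ψ s ≤ AT κ ν ψ ^ s := by
    intro s
    induction s with
    | zero => rw [rho_zero, pow_zero, sub_zero]
    | succ s ih =>
      refine (rho_step hν hψ s).trans ?_
      rw [pow_succ']
      exact mul_le_mul_of_nonneg_left ih hA.le
  have h2 : Tendsto (fun s : ℕ => 1 - AT κ ν ψ ^ s) atTop (𝓝 1) := by
    simpa using (tendsto_pow_atTop_nhds_zero_of_lt_one hA.le hAT).const_sub (1 : ℝ)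
  exact tendsto_of_tendsto_of_tendsto_of_le_of_le h2 tendsto_const_nhds
    (fun s => by have := h1 s; simp only; linarith) (fun s => (rho_lt_one hν hψ s).le)

theorem mu_tendsto {κ ν ψ : ℝ} (hν : 0 ≤ ν) (hψ : 0 < ψ) (hAT : AT κ ν ψ < 1) :
    Tendsto (mu κ ν ψ) atTop (𝓝 1) := by
  rw [← tendsto_add_atTop_iff_nat 1]
  set c := al κ ν ψ / ψ * (qp ψ * GE fun x => gf κ ν (qp ψ) (Real.sqrt (qp ψ) * x) ^ 2) with hc
  have h1 : ∀ s, 1 - mu κ ν ψ (s + 1) ≤ c * (1 - rho κ ν ψ s) := by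
    intro s
    refine (step_mu hν hψ s).trans (le_of_eq ?_)
    rw [hc]
    ring
  have h2 : Tendsto (fun s : ℕ => 1 - c * (1 - rho κ ν ψ s)) atTop (𝓝 1) := by
    have h3 := ((rho_tendsto hν hψ hAT).const_sub (1 : ℝ)).const_mul c
    simpa using h3.const_sub (1 : ℝ)
  exact tendsto_of_tendsto_of_tendsto_of_le_of_le h2 tendsto_const_nhds
    (fun s => by have := h1 s; simp only; linarith) (fun s => (mu_lt_one hν hψ (s + 1)).le)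

end

end Pool.Agent.IP49.SR
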