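import Pool.Agent.IP49.SDet4
import Pool.Agent.IP49.STimes

/-!
# IP49, part S: projections of `F(hh)`, `tanh h`, overlaps of projected vectors; the limits

For every `ε > 0` there are `K` and `θ₀ > 0` such that all error terms are at most `ε` for
`0 ≤ θ ≤ θ₀`.
-/

set_option autoImplicit false
open MeasureTheory ProbabilityTheory Filter Topology

namespace Pool.Agent.IP49.SR

noncomputable section

theorem ON.projs_span {ι σ : Type*} [Fintype ι] {S : Finset σ} {c : σ → ι → ℝ} (h : ON S c)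
    (a : σ → ℝ) : projs S c (∑ s ∈ S, a s • c s) = 0 := by
  rw [projs, sub_eq_zero]
  refine Finset.sum_congr rfl fun s hs => ?_
  rw [h.dot_sum a hs]

/-- the facts about the times, from `STimes` -/
theorem Tm.of {κ ν ψ : ℝ} (hν : 0 ≤ ν) (hψ : 0 < ψ) : Tm κ ν ψ where
  hψ := hψ
  hq := qp_pos hψ
  hq1 := qp_lt_one
  hal := al_pos hν hψ
  rinc := rho_lt_succ hν hψ
  rlt := rho_lt_one hν hψ
  minc := mu_lt_succ hν hψ
  mlt := mu_lt_one hν hψ

namespace Pk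

variable {κ ν ψ θ : ℝ} {M N K : ℕ} {ω : Om M N K}

theorem nrm_projs_Fv (h : Pk κ ν ψ θ ω) (ht : Tm κ ν ψ) :
    nrm (projs (Finset.range K) (cc κ ν ψ ω) (Fv κ ν ψ ω))
      ≤ (dF κ ν ψ K θ + θ * ∑ s ∈ Finset.range K, bs κ ν ψ s / Real.sqrt (al κ ν ψ))
        * Real.sqrt M := by
  set v : Fin M → ℝ := ∑ s ∈ Finset.range K,
    (bs κ ν ψ s / Real.sqrt (al κ ν ψ) * Real.sqrt M) • cc κ ν ψ ω s with hv
  have hsa := Real.sqrt_pos.mpr ht.hal
  have h0 : projs (Finset.range K) (cc κ ν ψ ω) v = 0 := h.onc.projs_span _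
  have h1 : projs (Finset.range K) (cc κ ν ψ ω) (Fv κ ν ψ ω)
      = projs (Finset.range K) (cc κ ν ψ ω) (Fv κ ν ψ ω - v) := by
    rw [projs_sub, h0, sub_zero]
  rw [h1]
  refine ((h.onc).nrm_projs_le _).trans ?_
  have h2 : Fv κ ν ψ ω - v = (Fv κ ν ψ ω - nv κ ν ψ (ext ω.1.2) K)
      + (nv κ ν ψ (ext ω.1.2) K - v) := by abel
  rw [h2]
  refine (nrm_add_le _ _).trans ?_
  have h3 : nrm (nv κ ν ψ (ext ω.1.2) K - v)
      ≤ (∑ s ∈ Finset.range K, bs κ ν ψ s / Real.sqrt (al κ ν ψ)) * (θ * Real.sqrt M) := by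
    rw [nv_eq_sum ht, hv, ← Finset.sum_sub_distrib, Finset.sum_mul]
    refine (nrm_sum_le _ _).trans (Finset.sum_le_sum fun s hs => ?_)
    have e : (bs κ ν ψ s / Real.sqrt (al κ ν ψ)) • nh κ ν ψ (ext ω.1.2) s
        - (bs κ ν ψ s / Real.sqrt (al κ ν ψ) * Real.sqrt M) • cc κ ν ψ ω s
        = (bs κ ν ψ s / Real.sqrt (al κ ν ψ)) •
          (nh κ ν ψ (ext ω.1.2) s - Real.sqrt M • cc κ ν ψ ω s) := by
      rw [smul_sub, smul_smul]
    rw [e, nrm_smul, abs_of_pos (div_pos (ht.bs_pos s) hsa), nrm_sub_comm]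
    exact mul_le_mul_of_nonneg_left (h.clc s (Finset.mem_range.mp hs))
      (div_pos (ht.bs_pos s) hsa).le
  have h4 := h.nrm_Fv_sub ht
  calc _ ≤ dF κ ν ψ K θ * Real.sqrt M
      + (∑ s ∈ Finset.range K, bs κ ν ψ s / Real.sqrt (al κ ν ψ)) * (θ * Real.sqrt M) :=
        add_le_add h4 h3
    _ = _ := by ring

theorem nrm_projs_tv (h : Pk κ ν ψ θ ω) (ht : Tm κ ν ψ) :
    nrm (projs (Finset.range K) (rr κ ν ψ ω) (tv κ ν ψ ω))
      ≤ (dT κ ν ψ K θ + θ * ∑ s ∈ Finset.range K, as κ ν ψ s) * Real.sqrt N := by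
  set v : Fin N → ℝ := ∑ s ∈ Finset.range K,
    (as κ ν ψ s * Real.sqrt N) • rr κ ν ψ ω s with hv
  have h0 : projs (Finset.range K) (rr κ ν ψ ω) v = 0 := h.onr.projs_span _
  have h1 : projs (Finset.range K) (rr κ ν ψ ω) (tv κ ν ψ ω)
      = projs (Finset.range K) (rr κ ν ψ ω) (tv κ ν ψ ω - v) := by
    rw [projs_sub, h0, sub_zero]
  rw [h1]
  refine ((h.onr).nrm_projs_le _).trans ?_
  have h2 : tv κ ν ψ ω - v = (tv κ ν ψ ω - mv κ ν ψ (ext ω.1.1) K)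
      + (mv κ ν ψ (ext ω.1.1) K - v) := by abel
  rw [h2]
  refine (nrm_add_le _ _).trans ?_
  have h3 : nrm (mv κ ν ψ (ext ω.1.1) K - v)
      ≤ (∑ s ∈ Finset.range K, as κ ν ψ s) * (θ * Real.sqrt N) := by
    rw [mv_eq_sum ht, hv, ← Finset.sum_sub_distrib, Finset.sum_mul]
    refine (nrm_sum_le _ _).trans (Finset.sum_le_sum fun s hs => ?_)
    have e : as κ ν ψ s • mh κ ν ψ (ext ω.1.1) s
        - (as κ ν ψ s * Real.sqrt N) • rr κ ν ψ ω s
        = as κ ν ψ s • (mh κ ν ψ (ext ω.1.1) s - Real.sqrt N • rr κ ν ψ ω s) := by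
      rw [smul_sub, smul_smul]
    rw [e, nrm_smul, abs_of_pos (ht.as_pos s), nrm_sub_comm]
    exact mul_le_mul_of_nonneg_left (h.clr s (Finset.mem_range.mp hs)) (ht.as_pos s).le
  have h4 := h.nrm_tv_sub ht
  calc _ ≤ dT κ ν ψ K θ * Real.sqrt N
      + (∑ s ∈ Finset.range K, as κ ν ψ s) * (θ * Real.sqrt N) := add_le_add h4 h3
    _ = _ := by ring

/-- overlaps of projected vectors of the slice -/
theorem overlap (h : Pk κ ν ψ θ ω) (ht : Tm κ ν ψ) {w w' : Fin N → ℝ}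
    (hw : nrm w ≤ Real.sqrt N) (hw' : nrm w' ≤ Real.sqrt N)
    (hm : ∀ s < K, |dot (mh κ ν ψ (ext ω.1.1) s) w / N - as κ ν ψ s| ≤ θ)
    (hm' : ∀ s < K, |dot (mh κ ν ψ (ext ω.1.1) s) w' / N - as κ ν ψ s| ≤ θ) :
    |dot (projs (Finset.range K) (rr κ ν ψ ω) w) (projs (Finset.range K) (rr κ ν ψ ω) w') / N
      - (dot w w' / N - qp ψ)| ≤ 8 * K * θ + (1 - rho κ ν ψ K) := by
  have hN := h.Npos
  have hs0 := h.sN
  have hθ := h.pos
  have e2 : Real.sqrt N * Real.sqrt N = N := Real.mul_self_sqrt hN.le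
  have key : ∀ z : Fin N → ℝ, nrm z ≤ Real.sqrt N →
      (∀ s < K, |dot (mh κ ν ψ (ext ω.1.1) s) z / N - as κ ν ψ s| ≤ θ) →
      ∀ s < K, |dot (rr κ ν ψ ω s) z / Real.sqrt N - as κ ν ψ s| ≤ 2 * θ := by
    intro z hz hmz s hs
    have h1 := h.pair_r hs z
    have h2 := hmz s hs
    have e3 : dot (rr κ ν ψ ω s) z / Real.sqrt N
        = dot (rr κ ν ψ ω s) z * Real.sqrt N / N := by
      rw [div_eq_div_iff hs0.ne' hN.ne', mul_assoc, e2]
    have h3 : |dot (rr κ ν ψ ω s) z / Real.sqrt N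
        - dot (mh κ ν ψ (ext ω.1.1) s) z / N| ≤ θ := by
      rw [e3, ← sub_div, abs_div, abs_of_pos hN, div_le_iff₀ hN]
      refine h1.trans ?_
      calc θ * Real.sqrt N * nrm z ≤ θ * Real.sqrt N * Real.sqrt N :=
            mul_le_mul_of_nonneg_left hz (by positivity)
        _ = θ * N := by rw [mul_assoc, e2]
    have h4 := abs_sub_le (dot (rr κ ν ψ ω s) z / Real.sqrt N)
      (dot (mh κ ν ψ (ext ω.1.1) s) z / N) (as κ ν ψ s)
    linarith
  have k1 := key w hw hm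
  have k2 := key w' hw' hm'
  have e4 : dot (projs (Finset.range K) (rr κ ν ψ ω) w)
      (projs (Finset.range K) (rr κ ν ψ ω) w')
      = dot w w' - ∑ s ∈ Finset.range K, dot (rr κ ν ψ ω s) w * dot (rr κ ν ψ ω s) w' :=
    h.onr.dot_projs_projs w w'
  have e5 : (∑ s ∈ Finset.range K, dot (rr κ ν ψ ω s) w * dot (rr κ ν ψ ω s) w') / N
      = ∑ s ∈ Finset.range K, (dot (rr κ ν ψ ω s) w / Real.sqrt N)
        * (dot (rr κ ν ψ ω s) w' / Real.sqrt N) := by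
    rw [Finset.sum_div]
    refine Finset.sum_congr rfl fun s _ => ?_
    rw [div_mul_div_comm, e2]
  have h5 : |∑ s ∈ Finset.range K, (dot (rr κ ν ψ ω s) w / Real.sqrt N)
        * (dot (rr κ ν ψ ω s) w' / Real.sqrt N) - ∑ s ∈ Finset.range K, as κ ν ψ s ^ 2|
      ≤ 8 * K * θ := by
    rw [← Finset.sum_sub_distrib]
    refine (Finset.abs_sum_le_sum_abs _ _).trans ?_
    have h6 : ∀ s ∈ Finset.range K, |(dot (rr κ ν ψ ω s) w / Real.sqrt N)
        * (dot (rr κ ν ψ ω s) w' / Real.sqrt N) - as κ ν ψ s ^ 2| ≤ 8 * θ := by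
      intro s hs
      rw [Finset.mem_range] at hs
      set x := dot (rr κ ν ψ ω s) w / Real.sqrt N
      set y := dot (rr κ ν ψ ω s) w' / Real.sqrt N
      have a1 := k1 s hs
      have a2 := k2 s hs
      have a3 := ht.as_le s
      have a4 := (ht.as_pos s).le
      have a5 := h.small
      have : x * y - as κ ν ψ s ^ 2 = (x - as κ ν ψ s) * (y - as κ ν ψ s)
        + as κ ν ψ s * (x - as κ ν ψ s) + as κ ν ψ s * (y - as κ ν ψ s) := by ring
      rw [this]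
      have b1 : |(x - as κ ν ψ s) * (y - as κ ν ψ s)| ≤ 2 * θ * (2 * θ) := by
        rw [abs_mul]; exact mul_le_mul a1 a2 (abs_nonneg _) (by positivity)
      have b2 : |as κ ν ψ s * (x - as κ ν ψ s)| ≤ 1 * (2 * θ) := by
        rw [abs_mul, abs_of_nonneg a4]; exact mul_le_mul a3 a1 (abs_nonneg _) (by norm_num)
      have b3 : |as κ ν ψ s * (y - as κ ν ψ s)| ≤ 1 * (2 * θ) := by
        rw [abs_mul, abs_of_nonneg a4]; exact mul_le_mul a3 a2 (abs_nonneg _) (by norm_num)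
      have b4 := abs_add_three ((x - as κ ν ψ s) * (y - as κ ν ψ s))
        (as κ ν ψ s * (x - as κ ν ψ s)) (as κ ν ψ s * (y - as κ ν ψ s))
      nlinarith
    refine (Finset.sum_le_sum h6).trans (le_of_eq ?_)
    rw [Finset.sum_const, Finset.card_range, nsmul_eq_mul]; ring
  rw [ht.sum_as_sq] at h5
  rw [e4, sub_div, e5]
  set T' := ∑ s ∈ Finset.range K, (dot (rr κ ν ψ ω s) w / Real.sqrt N)
        * (dot (rr κ ν ψ ω s) w' / Real.sqrt N)
  have e6 : dot w w' / N - T' - (dot w w' / N - qp ψ)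
      = -(T' - qp ψ * rho κ ν ψ K) + qp ψ * (1 - rho κ ν ψ K) := by ring
  rw [e6]
  refine (abs_add_le _ _).trans ?_
  rw [abs_neg]
  have c1 := ht.hq
  have c2 := ht.hq1
  have c3 := ht.rlt K
  rw [abs_of_nonneg (mul_nonneg c1.le (by linarith))]
  have c4 : qp ψ * (1 - rho κ ν ψ K) ≤ 1 - rho κ ν ψ K := by nlinarith
  linarith

end Pk

/-- all error terms together -/
def TB (κ ν ψ : ℝ) (K : ℕ) (θ : ℝ) : ℝ :=
  EB κ ν ψ K θ
  + (dF κ ν ψ K θ + θ * ∑ s ∈ Finset.range K, bs κ ν ψ s / Real.sqrt (al κ ν ψ))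
  + (dT κ ν ψ K θ + θ * ∑ s ∈ Finset.range K, as κ ν ψ s)
  + (8 * K * θ + (1 - rho κ ν ψ K))

theorem TB_continuous (κ ν ψ : ℝ) (K : ℕ) : Continuous (TB κ ν ψ K) := by
  unfold TB EB dF dT
  fun_prop

theorem TB_zero_tendsto {κ ν ψ : ℝ} (hν : 0 ≤ ν) (hψ : 0 < ψ) (hAT : AT κ ν ψ < 1) :
    Tendsto (fun K => TB κ ν ψ K 0) atTop (𝓝 0) := by
  have h1 := rho_tendsto hν hψ hAT
  have h2 := mu_tendsto hν hψ hAT
  have h3 : Tendsto (fun K => 1 - rho κ ν ψ K) atTop (𝓝 0) := by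
    simpa using h1.const_sub 1
  have h4 : Tendsto (fun K => 1 - mu κ ν ψ K) atTop (𝓝 0) := by
    simpa using h2.const_sub 1
  have h5 : Tendsto (fun K => Real.sqrt (1 - rho κ ν ψ K)) atTop (𝓝 0) := by
    have := (Real.continuous_sqrt.tendsto 0).comp h3
    simpa [Function.comp_def] using this
  have h6 : Tendsto (fun K => Real.sqrt (1 - mu κ ν ψ K)) atTop (𝓝 0) := by
    have := (Real.continuous_sqrt.tendsto 0).comp h4
    simpa [Function.comp_def] using this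
  have h7 : Tendsto (fun K => Real.sqrt (ψ / al κ ν ψ * (1 - mu κ ν ψ K))) atTop (𝓝 0) := by
    have := (Real.continuous_sqrt.tendsto _).comp (h4.const_mul (ψ / al κ ν ψ))
    simpa [Function.comp_def] using this
  have h8 : Tendsto (fun K => Real.sqrt (qp ψ * (1 - rho κ ν ψ K))) atTop (𝓝 0) := by
    have := (Real.continuous_sqrt.tendsto _).comp (h3.const_mul (qp ψ))
    simpa [Function.comp_def] using this
  have e : (fun K => TB κ ν ψ K 0) = fun K =>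
      2 * (al κ ν ψ + 1) * Real.sqrt (1 - rho κ ν ψ K)
      + (al κ ν ψ + 1) * Real.sqrt (ψ / al κ ν ψ * (1 - mu κ ν ψ K))
      + 2 * Real.sqrt ψ * Real.sqrt (1 - mu κ ν ψ K)
      + |dd κ ν ψ| * Real.sqrt (qp ψ * (1 - rho κ ν ψ K))
      + Real.sqrt (ψ / al κ ν ψ * (1 - mu κ ν ψ K))
      + Real.sqrt (qp ψ * (1 - rho κ ν ψ K)) + (1 - rho κ ν ψ K) := by
    funext K
    simp only [TB, EB, dF, dT, zero_mul, mul_zero, add_zero, zero_add]
  rw [e]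
  have := ((((((h5.const_mul (2 * (al κ ν ψ + 1))).add (h7.const_mul (al κ ν ψ + 1))).add
    (h6.const_mul (2 * Real.sqrt ψ))).add (h8.const_mul |dd κ ν ψ|)).add h7).add h8).add h3
  simpa using this

/-- THE LIMITS -/
theorem exists_K_theta {κ ν ψ : ℝ} (hν : 0 ≤ ν) (hψ : 0 < ψ) (hAT : AT κ ν ψ < 1) {ε : ℝ}
    (hε : 0 < ε) : ∃ K : ℕ, ∃ θ₀ : ℝ, 0 < θ₀ ∧ θ₀ ≤ 1 / 2 ∧ ∀ θ, 0 ≤ θ → θ ≤ θ₀ →
      EB κ ν ψ K θ ≤ ε ∧
      dF κ ν ψ K θ + θ * ∑ s ∈ Finset.range K, bs κ ν ψ s / Real.sqrt (al κ ν ψ) ≤ ε ∧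
      dT κ ν ψ K θ + θ * ∑ s ∈ Finset.range K, as κ ν ψ s ≤ ε ∧
      8 * K * θ + (1 - rho κ ν ψ K) ≤ ε := by
  have ht : Tm κ ν ψ := Tm.of hν hψ
  obtain ⟨K, hK⟩ := ((TB_zero_tendsto hν hψ hAT).eventually (gt_mem_nhds hε)).exists
  have hc := (TB_continuous κ ν ψ K).continuousAt (x := 0)
  have hev : ∀ᶠ θ in 𝓝 (0 : ℝ), TB κ ν ψ K θ < ε := hc.eventually (gt_mem_nhds hK)
  obtain ⟨r, hr, hball⟩ := Metric.eventually_nhds_iff.mp hev
  refine ⟨K, min (r / 2) (1 / 2), lt_min (by linarith) (by norm_num), min_le_right _ _,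
    fun θ h0 h1 => ?_⟩
  have h2 : TB κ ν ψ K θ < ε := by
    apply hball
    rw [Real.dist_eq, sub_zero, abs_of_nonneg h0]
    have := min_le_left (r / 2) (1 / 2)
    linarith
  have hal := ht.hal
  have hψa := div_pos ht.hψ hal
  have hsa := Real.sqrt_pos.mpr hal
  have q1 : 0 ≤ dF κ ν ψ K θ := Real.sqrt_nonneg _
  have q2 : 0 ≤ dT κ ν ψ K θ := Real.sqrt_nonneg _
  have q3 : 0 ≤ ∑ s ∈ Finset.range K, bs κ ν ψ s / Real.sqrt (al κ ν ψ) :=
    Finset.sum_nonneg fun s _ => (div_pos (ht.bs_pos s) hsa).le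
  have q4 : 0 ≤ ∑ s ∈ Finset.range K, as κ ν ψ s :=
    Finset.sum_nonneg fun s _ => (ht.as_pos s).le
  have q5 : 0 ≤ KC κ ν ψ K := by unfold KC; positivity
  have q6 : 0 ≤ EB κ ν ψ K θ := by unfold EB; positivity
  have q7 := ht.rlt K
  have q8 : 0 ≤ θ * ∑ s ∈ Finset.range K, bs κ ν ψ s / Real.sqrt (al κ ν ψ) :=
    mul_nonneg h0 q3
  have q9 : 0 ≤ θ * ∑ s ∈ Finset.range K, as κ ν ψ s := mul_nonneg h0 q4
  have q10 : 0 ≤ 8 * (K : ℝ) * θ := by positivity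
  unfold TB at h2
  refine ⟨by linarith, by linarith, by linarith, by linarith⟩

end

end Pool.Agent.IP49.SR
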