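import Pool.Agent.IP49.SGau

/-!
IP49, part S2 (helper95): the Gaussian smoothing `sm φ t x = E φ(x + √(1-t) Z)` of a Lipschitz
function, the function `CC φ t = E (sm φ t (√t Z))²`, and the martingale identities
`E sm φ s ⟨a,x⟩ sm φ t ⟨b,x⟩ = CC φ s`, `E ⟨c,x⟩ sm φ s ⟨a,x⟩ = ⟨c,a⟩ E Z φ(Z)`.
-/

set_option autoImplicit false
open MeasureTheory ProbabilityTheory Filter Topology
open scoped NNReal ENNReal

namespace Pool.Agent.IP49.SR

noncomputable section

/-! ### integrability of Lipschitz functions -/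

instance isGaussian_gv {ι : Type*} [Fintype ι] : IsGaussian (gv ι) := by
  have h := (hasGaussianLaw_id_gv (ι := ι)).isGaussian_map
  have e : (gv ι).map (fun x : ι → ℝ => fun i => x i) = gv ι := Measure.map_id
  rwa [e] at h

instance isGaussian_gg : IsGaussian (Measure.prod (gaussianReal 0 1) (gaussianReal 0 1)) := by
  have h := measurePreserving_finTwoArrow (gaussianReal 0 1)
  have h2 := ((hasGaussianLaw_id_gv (ι := Fin 2)).map_fun
    ((ContinuousLinearMap.proj (R := ℝ) (φ := fun _ : Fin 2 => ℝ) 0).prod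
      (ContinuousLinearMap.proj 1))).isGaussian_map
  rw [← h.map_eq]
  exact h2

lemma memLp_of_lip {E : Type*} [NormedAddCommGroup E] [NormedSpace ℝ E] [MeasurableSpace E]
    [BorelSpace E] [SecondCountableTopology E] [CompleteSpace E] (μ : Measure E) [IsGaussian μ]
    {g : E → ℝ} {K : ℝ} (hg : ∀ x y, |g x - g y| ≤ K * ‖x - y‖) {p : ℝ≥0∞} (hp : p ≠ ∞) :
    MemLp g p μ := by
  have hlip : LipschitzWith K.toNNReal g := by
    apply LipschitzWith.of_dist_le_mul
    intro x y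
    rw [Real.dist_eq, dist_eq_norm]
    refine (hg x y).trans ?_
    exact mul_le_mul_of_nonneg_right (Real.le_coe_toNNReal K) (norm_nonneg _)
  have h1 : MemLp (fun x => g x - g 0) p μ := by
    refine MemLp.of_le_mul (g := (id : E → E)) (c := K) (IsGaussian.memLp_id μ p hp) ?_ ?_
    · exact (hlip.continuous.sub continuous_const).aestronglyMeasurable
    · refine Eventually.of_forall fun x => ?_
      have := hg x 0
      rw [sub_zero] at this
      exact this
  have h2 := h1.add (memLp_const (g 0))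
  refine h2.ae_eq (Eventually.of_forall fun x => ?_)
  simp

instance holder442 : ENNReal.HolderTriple 4 4 2 where
  inv_add_inv_eq_inv := by
    rw [← two_mul]
    have h4 : (4 : ℝ≥0∞) = 2 * 2 := by norm_num
    rw [h4, ENNReal.mul_inv (Or.inl (by norm_num)) (Or.inl (by norm_num)), ← mul_assoc,
      ENNReal.mul_inv_cancel (by norm_num) (by norm_num), one_mul]

lemma memLp_mul_of_lip {E : Type*} [NormedAddCommGroup E] [NormedSpace ℝ E] [MeasurableSpace E]
    [BorelSpace E] [SecondCountableTopology E] [CompleteSpace E] (μ : Measure E) [IsGaussian μ]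
    {f g : E → ℝ} {K K' : ℝ} (hf : ∀ x y, |f x - f y| ≤ K * ‖x - y‖)
    (hg : ∀ x y, |g x - g y| ≤ K' * ‖x - y‖) : MemLp (fun x => f x * g x) 2 μ :=
  (memLp_of_lip μ hg (p := 4) (by simp)).mul' (memLp_of_lip μ hf (p := 4) (by simp))

lemma integrable_mul_of_lip {E : Type*} [NormedAddCommGroup E] [NormedSpace ℝ E]
    [MeasurableSpace E] [BorelSpace E] [SecondCountableTopology E] [CompleteSpace E]
    (μ : Measure E) [IsGaussian μ]
    {f g : E → ℝ} {K K' : ℝ} (hf : ∀ x y, |f x - f y| ≤ K * ‖x - y‖)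
    (hg : ∀ x y, |g x - g y| ≤ K' * ‖x - y‖) : Integrable (fun x => f x * g x) μ :=
  (memLp_mul_of_lip μ hf hg).integrable (by norm_num)

/-- Lipschitz with constant `L`, plain form -/
def LipR (L : ℝ) (φ : ℝ → ℝ) : Prop := ∀ x y, |φ x - φ y| ≤ L * |x - y|

lemma LipR.nonneg {L : ℝ} {φ : ℝ → ℝ} (h : LipR L φ) : 0 ≤ L := by
  have := h 1 0
  simp only [sub_zero, abs_one, mul_one] at this
  exact (abs_nonneg _).trans this

lemma LipR.lipschitz {L : ℝ} {φ : ℝ → ℝ} (h : LipR L φ) : LipschitzWith L.toNNReal φ := by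
  apply LipschitzWith.of_dist_le_mul
  intro x y
  rw [Real.dist_eq, Real.dist_eq, Real.coe_toNNReal _ h.nonneg]
  exact h x y

lemma LipR.cont {L : ℝ} {φ : ℝ → ℝ} (h : LipR L φ) : Continuous φ := h.lipschitz.continuous

lemma LipR.meas {L : ℝ} {φ : ℝ → ℝ} (h : LipR L φ) : Measurable φ := h.cont.measurable

lemma LipR.memLp {L : ℝ} {φ : ℝ → ℝ} (h : LipR L φ) {p : ℝ≥0∞} (hp : p ≠ ∞) : MemLp φ p (gaussianReal 0 1) :=
  memLp_of_lip (gaussianReal 0 1) (fun x y => by rw [Real.norm_eq_abs]; exact h x y) hp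

lemma LipR.integrable {L : ℝ} {φ : ℝ → ℝ} (h : LipR L φ) : Integrable φ (gaussianReal 0 1) :=
  (h.memLp (p := 1) (by simp)).integrable le_rfl

/-- composition with an affine map -/
lemma LipR.comp_affine {L : ℝ} {φ : ℝ → ℝ} (h : LipR L φ) (x c : ℝ) :
    LipR (L * |c|) (fun z => φ (x + c * z)) := by
  intro z z'
  refine (h _ _).trans (le_of_eq ?_)
  rw [mul_assoc, ← abs_mul]
  congr 2; ring

lemma LipR.id : LipR 1 (fun x => x) := fun x y => by simp

/-! ### the smoothing -/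

/-- `E φ(x + √(1-t) Z)` -/
def sm (φ : ℝ → ℝ) (t x : ℝ) : ℝ := GE fun z => φ (x + √(1 - t) * z)

/-- `E (sm φ t (√t Z))²` -/
def CC (φ : ℝ → ℝ) (t : ℝ) : ℝ := GE fun z => sm φ t (√t * z) ^ 2

/-- `E Z φ(Z)` -/
def DD (φ : ℝ → ℝ) : ℝ := GE fun z => z * φ z

lemma sm_lip {L : ℝ} {φ : ℝ → ℝ} (h : LipR L φ) (t : ℝ) : LipR L (sm φ t) := by
  intro x y
  unfold sm GE
  rw [← integral_sub (h.comp_affine x _).integrable (h.comp_affine y _).integrable]
  have h1 : ‖∫ z, (φ (x + √(1 - t) * z) - φ (y + √(1 - t) * z)) ∂(gaussianReal 0 1)‖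
      ≤ ∫ z, L * |x - y| ∂(gaussianReal 0 1) := by
    refine norm_integral_le_of_norm_le (integrable_const _) (Eventually.of_forall fun z => ?_)
    rw [Real.norm_eq_abs]
    refine (h _ _).trans (le_of_eq ?_)
    congr 2; ring
  rw [Real.norm_eq_abs] at h1
  simpa using h1

lemma sm_one (φ : ℝ → ℝ) : sm φ 1 = φ := by
  funext x; simp [sm, GE]

lemma CC_one (φ : ℝ → ℝ) : CC φ 1 = GE fun z => φ z ^ 2 := by
  simp [CC, sm_one]

lemma CC_zero (φ : ℝ → ℝ) : CC φ 0 = (GE φ) ^ 2 := by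
  simp [CC, sm, GE]

lemma CC_nonneg (φ : ℝ → ℝ) (t : ℝ) : 0 ≤ CC φ t := integral_nonneg fun _ => sq_nonneg _

/-- two independent Gaussian numbers as two coordinates -/
lemma integral_gg {F : ℝ × ℝ → ℝ} (hF : Measurable F) :
    ∫ p, F p ∂(Measure.prod (gaussianReal 0 1) (gaussianReal 0 1)) = ∫ x, F (x 0, x 1) ∂(gv (Fin 2)) := by
  have h := measurePreserving_finTwoArrow (gaussianReal 0 1)
  rw [← h.map_eq, integral_map (MeasurableEquiv.measurable _).aemeasurable
    hF.aestronglyMeasurable]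
  rfl

lemma integral_gg_lin {φ : ℝ → ℝ} (hφ : Measurable φ) (x a b : ℝ) :
    ∫ p, φ (x + a * p.1 + b * p.2) ∂(Measure.prod (gaussianReal 0 1) (gaussianReal 0 1)) = GE fun z => φ (x + √(a ^ 2 + b ^ 2) * z) := by
  rw [integral_gg (F := fun p => φ (x + a * p.1 + b * p.2)) (by fun_prop)]
  have h := integral_dot (ι := Fin 2) (φ := fun u => φ (x + u)) (by fun_prop) ![a, b]
  have e : nrm ![a, b] = √(a ^ 2 + b ^ 2) := by
    rw [nrm, dot_self_eq]; simp
  rw [e] at h
  unfold GE
  rw [← h]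
  refine integral_congr_ae (Eventually.of_forall fun x => ?_)
  simp [dot, add_assoc]

lemma integrable_gg_lin {L : ℝ} {φ : ℝ → ℝ} (h : LipR L φ) (x a b : ℝ) :
    Integrable (fun p : ℝ × ℝ => φ (x + a * p.1 + b * p.2)) (Measure.prod (gaussianReal 0 1) (gaussianReal 0 1)) := by
  refine (memLp_of_lip (Measure.prod (gaussianReal 0 1) (gaussianReal 0 1)) (K := L * (|a| + |b|)) (fun p p' => ?_)
    (p := 1) (by simp)).integrable le_rfl
  refine (h _ _).trans ?_
  rw [mul_assoc]
  refine mul_le_mul_of_nonneg_left ?_ h.nonneg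
  have h1 : |p.1 - p'.1| ≤ ‖p - p'‖ := norm_fst_le (p - p')
  have h2 : |p.2 - p'.2| ≤ ‖p - p'‖ := norm_snd_le (p - p')
  have h3 : x + a * p.1 + b * p.2 - (x + a * p'.1 + b * p'.2)
      = a * (p.1 - p'.1) + b * (p.2 - p'.2) := by ring
  rw [h3]
  refine (abs_add_le _ _).trans ?_
  rw [abs_mul, abs_mul, add_mul]
  exact add_le_add (mul_le_mul_of_nonneg_left h1 (abs_nonneg _))
    (mul_le_mul_of_nonneg_left h2 (abs_nonneg _))

/-- convolution of two centred Gaussian laws -/
lemma GE_conv {L : ℝ} {φ : ℝ → ℝ} (h : LipR L φ) (x a b : ℝ) :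
    (GE fun z => GE fun z' => φ (x + a * z + b * z')) = GE fun z => φ (x + √(a ^ 2 + b ^ 2) * z) := by
  rw [← integral_gg_lin h.meas, integral_prod _ (integrable_gg_lin h x a b)]
  rfl

/-- semigroup property -/
lemma GE_sm {L : ℝ} {φ : ℝ → ℝ} (h : LipR L φ) {s t : ℝ} (hst : s ≤ t) (ht : t ≤ 1) (x : ℝ) :
    (GE fun z => sm φ t (x + √(t - s) * z)) = sm φ s x := by
  unfold sm
  rw [GE_conv h x (√(t - s)) (√(1 - t)), Real.sq_sqrt (by linarith), Real.sq_sqrt (by linarith)]
  congr 1; funext z; congr 3; ring_nf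

/-- the composition of a Lipschitz function with a linear form is Lipschitz -/
lemma LipR.comp_dot {ι : Type*} [Fintype ι] {L : ℝ} {φ : ℝ → ℝ} (h : LipR L φ) (a x y : ι → ℝ) :
    |φ (dot a x) - φ (dot a y)| ≤ (L * ∑ i, |a i|) * ‖x - y‖ := by
  refine (h _ _).trans ?_
  rw [mul_assoc]
  refine mul_le_mul_of_nonneg_left ?_ h.nonneg
  rw [← dot_sub_right, dot, Finset.sum_mul]
  refine (Finset.abs_sum_le_sum_abs _ _).trans (Finset.sum_le_sum fun i _ => ?_)
  rw [abs_mul]
  exact mul_le_mul_of_nonneg_left (norm_le_pi_norm (x - y) i) (abs_nonneg _)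

lemma memLp_comp_dot {ι : Type*} [Fintype ι] {L : ℝ} {φ : ℝ → ℝ} (h : LipR L φ) (a : ι → ℝ)
    {p : ℝ≥0∞} (hp : p ≠ ∞) : MemLp (fun x => φ (dot a x)) p (gv ι) :=
  memLp_of_lip (gv ι) (h.comp_dot a) hp

lemma memLp_dot {ι : Type*} [Fintype ι] (a : ι → ℝ)
    {p : ℝ≥0∞} (hp : p ≠ ∞) : MemLp (fun x => dot a x) p (gv ι) :=
  memLp_comp_dot (φ := fun x => x) LipR.id a hp

lemma integrable_mul_comp_dot {ι : Type*} [Fintype ι] {L L' : ℝ} {φ φ' : ℝ → ℝ} (h : LipR L φ)
    (h' : LipR L' φ') (a b : ι → ℝ) :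
    Integrable (fun x => φ (dot a x) * φ' (dot b x)) (gv ι) :=
  integrable_mul_of_lip (gv ι) (h.comp_dot a) (h'.comp_dot b)

lemma integrable_dot_mul_comp_dot {ι : Type*} [Fintype ι] {L' : ℝ} {φ' : ℝ → ℝ}
    (h' : LipR L' φ') (a b : ι → ℝ) :
    Integrable (fun x => dot a x * φ' (dot b x)) (gv ι) :=
  integrable_mul_comp_dot (φ := fun x => x) LipR.id h' a b

lemma integrable_id_mul {L : ℝ} {φ : ℝ → ℝ} (h : LipR L φ) : Integrable (fun x => x * φ x) (gaussianReal 0 1) :=
  integrable_mul_of_lip (f := fun x => x) (gaussianReal 0 1) (K := 1) (K' := L)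
    (fun x y => by simp) (fun x y => by rw [Real.norm_eq_abs]; exact h x y)

/-- orthogonal linear form times a function of the other one: expectation zero -/
lemma E_orth {ι : Type*} [Fintype ι] {L : ℝ} {φ : ℝ → ℝ} (h : LipR L φ) {a c : ι → ℝ}
    (hac : dot a c = 0) : ∫ x, dot c x * φ (dot a x) ∂(gv ι) = 0 := by
  have h1 := integral_pair (ι := ι) (Φ := fun p : ℝ × ℝ => p.2 * φ p.1)
    (measurable_snd.mul (h.meas.comp measurable_fst)) a c hac
  simp only at h1
  rw [h1]
  have h2 : ∀ p : ℝ × ℝ, nrm c * p.2 * φ (nrm a * p.1) = φ (nrm a * p.1) * (nrm c * p.2) :=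
    fun p => mul_comm _ _
  simp_rw [h2]
  rw [integral_prod_mul (fun z => φ (nrm a * z)) (fun z => nrm c * z), integral_const_mul,
    integral_id_gaussianReal]
  simp

/-- `E ⟨c,x⟩ φ(⟨a,x⟩) = ⟨c,a⟩ E Z φ(Z)` for a unit vector `a` -/
lemma E_unit {ι : Type*} [Fintype ι] {L : ℝ} {φ : ℝ → ℝ} (h : LipR L φ) {a c : ι → ℝ}
    (ha : dot a a = 1) : ∫ x, dot c x * φ (dot a x) ∂(gv ι) = dot c a * DD φ := by
  have hna : nrm a = 1 := by rw [nrm, ha, Real.sqrt_one]
  have h1 : ∀ x, dot c x * φ (dot a x)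
      = dot (c - dot c a • a) x * φ (dot a x) + dot c a * (dot a x * φ (dot a x)) := by
    intro x; rw [dot_sub_left, dot_smul_left]; ring
  simp_rw [h1]
  rw [integral_add (integrable_dot_mul_comp_dot h _ _)
    ((integrable_dot_mul_comp_dot h _ _).const_mul _), E_orth h, zero_add, integral_const_mul]
  · have h2 := integral_dot (ι := ι) (φ := fun u => u * φ u) (measurable_id.mul h.meas) a
    rw [h2, hna]; simp [DD, GE]
  · rw [dot_sub_right, dot_smul_right, ha, dot_comm a c]; ring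

lemma E_sm_line {L : ℝ} {φ : ℝ → ℝ} (h : LipR L φ) {s : ℝ} (hs0 : 0 ≤ s) (hs : s ≤ 1) :
    (GE fun z => √s * z * sm φ s (√s * z)) = s * DD φ := by
  have h1 : (GE fun z => √s * z * sm φ s (√s * z))
      = ∫ p, √s * p.1 * φ (√s * p.1 + √(1 - s) * p.2) ∂(Measure.prod (gaussianReal 0 1) (gaussianReal 0 1)) := by
    have hint : Integrable (fun p : ℝ × ℝ => √s * p.1 * φ (√s * p.1 + √(1 - s) * p.2))
        (Measure.prod (gaussianReal 0 1) (gaussianReal 0 1)) := by
      refine integrable_mul_of_lip (Measure.prod (gaussianReal 0 1) (gaussianReal 0 1)) (K := √s) (K' := L * (√s + √(1 - s)))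
        (f := fun p : ℝ × ℝ => √s * p.1)
        (g := fun p : ℝ × ℝ => φ (√s * p.1 + √(1 - s) * p.2)) ?_ ?_
      · intro p p'
        rw [← mul_sub, abs_mul, abs_of_nonneg (Real.sqrt_nonneg s)]
        exact mul_le_mul_of_nonneg_left (norm_fst_le (p - p')) (Real.sqrt_nonneg s)
      · intro p p'
        refine (h _ _).trans ?_
        rw [mul_assoc]
        refine mul_le_mul_of_nonneg_left ?_ h.nonneg
        have h1 : |p.1 - p'.1| ≤ ‖p - p'‖ := norm_fst_le (p - p')
        have h2 : |p.2 - p'.2| ≤ ‖p - p'‖ := norm_snd_le (p - p')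
        have h3 : √s * p.1 + √(1 - s) * p.2 - (√s * p'.1 + √(1 - s) * p'.2)
            = √s * (p.1 - p'.1) + √(1 - s) * (p.2 - p'.2) := by ring
        rw [h3]
        refine (abs_add_le _ _).trans ?_
        rw [abs_mul, abs_mul, add_mul, abs_of_nonneg (Real.sqrt_nonneg s),
          abs_of_nonneg (Real.sqrt_nonneg (1 - s))]
        exact add_le_add (mul_le_mul_of_nonneg_left h1 (Real.sqrt_nonneg _))
          (mul_le_mul_of_nonneg_left h2 (Real.sqrt_nonneg _))
    rw [integral_prod _ hint]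
    unfold GE sm
    refine integral_congr_ae (Eventually.of_forall fun z => ?_)
    simp only
    rw [integral_const_mul]
    rfl
  rw [h1, integral_gg (F := fun p => √s * p.1 * φ (√s * p.1 + √(1 - s) * p.2))
    (by have := h.meas; fun_prop)]
  have hu : dot ![√s, √(1 - s)] ![√s, √(1 - s)] = 1 := by
    rw [dot_self_eq]; simp [Real.sq_sqrt hs0, Real.sq_sqrt (sub_nonneg.2 hs)]
  have h2 := E_unit (ι := Fin 2) h (a := ![√s, √(1 - s)]) (c := ![√s, 0]) hu
  have h3 : dot ![√s, (0 : ℝ)] ![√s, √(1 - s)] = s := by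
    simp [dot, Real.mul_self_sqrt hs0]
  rw [h3] at h2
  rw [← h2]
  refine integral_congr_ae (Eventually.of_forall fun x => ?_)
  simp [dot]

/-- Stein's identity for the smoothed function of a linear form -/
theorem E_lin_sm {ι : Type*} [Fintype ι] {L : ℝ} {φ : ℝ → ℝ} (h : LipR L φ) {a : ι → ℝ}
    (ha : dot a a ≤ 1) (c : ι → ℝ) :
    ∫ x, dot c x * sm φ (dot a a) (dot a x) ∂(gv ι) = dot c a * DD φ := by
  set s := dot a a with hs
  have hs0 : 0 ≤ s := dot_self_nonneg a
  have hl := sm_lip h s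
  rcases hs0.eq_or_lt with h0 | hpos
  · have ha0 : a = 0 := by
      apply nrm_eq_zero.1
      rw [nrm, ← hs, ← h0, Real.sqrt_zero]
    subst ha0
    simp only [dot_zero_left, dot_zero_right, zero_mul]
    rw [integral_mul_const, mean_dot, zero_mul]
  · have h1 : ∀ x, dot c x * sm φ s (dot a x)
        = dot (c - (dot c a / s) • a) x * sm φ s (dot a x)
          + (dot c a / s) * (dot a x * sm φ s (dot a x)) := by
      intro x; rw [dot_sub_left, dot_smul_left]; ring
    simp_rw [h1]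
    rw [integral_add (integrable_dot_mul_comp_dot hl _ _)
      ((integrable_dot_mul_comp_dot hl _ _).const_mul _), E_orth hl, zero_add, integral_const_mul]
    · have h2 := integral_dot (ι := ι) (φ := fun u => u * sm φ s u) (measurable_id.mul hl.meas) a
      rw [h2]
      have h3 : nrm a = √s := rfl
      have h4 := E_sm_line h hs0 ha
      unfold GE at h4
      rw [h3, h4]
      field_simp
    · rw [dot_sub_right, dot_smul_right, ← hs, dot_comm a c]
      field_simp; ring

/-- martingale identity -/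
theorem E_sm_sm {ι : Type*} [Fintype ι] {L : ℝ} {φ : ℝ → ℝ} (h : LipR L φ) {a b : ι → ℝ}
    {s t : ℝ} (ha : dot a a = s) (hb : dot b b = t) (hab : dot a b = s) (hst : s ≤ t)
    (ht : t ≤ 1) :
    ∫ x, sm φ s (dot a x) * sm φ t (dot b x) ∂(gv ι) = CC φ s := by
  have hs0 : 0 ≤ s := ha ▸ dot_self_nonneg a
  have hls := sm_lip h s
  have hlt := sm_lip h t
  have hac : dot a (b - a) = 0 := by rw [dot_sub_right, hab, ha, sub_self]
  have hna : nrm a = √s := by rw [nrm, ha]
  have hnc : nrm (b - a) = √(t - s) := by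
    rw [nrm, dot_sub_left, dot_sub_right, dot_sub_right, hb, ha, hab, dot_comm b a, hab]
    congr 1; ring
  have h1 := integral_pair (ι := ι) (Φ := fun p : ℝ × ℝ => sm φ s p.1 * sm φ t (p.1 + p.2))
    ((hls.meas.comp measurable_fst).mul (hlt.meas.comp (measurable_fst.add measurable_snd)))
    a (b - a) hac
  simp only at h1
  have h2 : ∀ x, dot a x + dot (b - a) x = dot b x := by
    intro x; rw [dot_sub_left]; ring
  simp_rw [h2] at h1
  rw [h1, hna, hnc]
  have hint : Integrable (fun p : ℝ × ℝ => sm φ s (√s * p.1)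
      * sm φ t (√s * p.1 + √(t - s) * p.2)) (Measure.prod (gaussianReal 0 1) (gaussianReal 0 1)) := by
    refine integrable_mul_of_lip (Measure.prod (gaussianReal 0 1) (gaussianReal 0 1)) (K := L * √s) (K' := L * (√s + √(t - s)))
      (f := fun p : ℝ × ℝ => sm φ s (√s * p.1))
      (g := fun p : ℝ × ℝ => sm φ t (√s * p.1 + √(t - s) * p.2)) ?_ ?_
    · intro p p'
      refine (hls _ _).trans ?_
      rw [mul_assoc, ← mul_sub, abs_mul, abs_of_nonneg (Real.sqrt_nonneg s)]
      exact mul_le_mul_of_nonneg_left (mul_le_mul_of_nonneg_left (norm_fst_le (p - p'))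
        (Real.sqrt_nonneg s)) h.nonneg
    · intro p p'
      refine (hlt _ _).trans ?_
      rw [mul_assoc]
      refine mul_le_mul_of_nonneg_left ?_ h.nonneg
      have h1 : |p.1 - p'.1| ≤ ‖p - p'‖ := norm_fst_le (p - p')
      have h2 : |p.2 - p'.2| ≤ ‖p - p'‖ := norm_snd_le (p - p')
      have h3 : √s * p.1 + √(t - s) * p.2 - (√s * p'.1 + √(t - s) * p'.2)
          = √s * (p.1 - p'.1) + √(t - s) * (p.2 - p'.2) := by ring
      rw [h3]
      refine (abs_add_le _ _).trans ?_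
      rw [abs_mul, abs_mul, add_mul, abs_of_nonneg (Real.sqrt_nonneg s),
        abs_of_nonneg (Real.sqrt_nonneg (t - s))]
      exact add_le_add (mul_le_mul_of_nonneg_left h1 (Real.sqrt_nonneg _))
        (mul_le_mul_of_nonneg_left h2 (Real.sqrt_nonneg _))
  rw [integral_prod _ hint]
  unfold CC GE
  refine integral_congr_ae (Eventually.of_forall fun z => ?_)
  simp only
  rw [integral_const_mul]
  have h3 := GE_sm h hst ht (√s * z)
  unfold GE at h3
  rw [h3, sq]

end

end Pool.Agent.IP49.SR
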