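import Pool.Agent.IP49.SForm

/-!
# IP49, part S: operator norms and the Frobenius distance between `fold ... G` and `G`

`OpL B G`: `|G w| ≤ B |w|`.

PROOFS.
* `OpL.of_OpB`: `nrm (mvl G w) ^ 2 = ∑ a, (∑ i, G a i * w i) ^ 2` (`nrm_sq_eq`), `nsq w = nrm w ^ 2`.
* `OpL.mtl`: duality. `dot (mtl G u) z = dot u (mvl G z)` (`dot_mtl`), take `z = mtl G u`:
  `nrm z ^ 2 = dot u (mvl G z) ≤ nrm u * (B * nrm z)`; divide by `nrm z` if it is not zero.
* `OpL.colStep`: `mvl_colStep`: `mvl = dot r w • x + mvl G (proj r w)`, `|dot r w| ≤ nrm w`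
  (`abs_dot_le`, `nrm r = 1`), `nrm (proj r w) ≤ nrm w` (`nrm_proj_le`).
* `OpL.rowStep`: `mvl_rowStep`.
* `fro_colStep`: `colStep r x G a i - G a i = (x - mvl G r) a * r i`, so the double sum of squares
  is `nrm (x - mvl G r) ^ 2 * nrm r ^ 2 ≤ (nrm x + B) ^ 2`.
* `fro_rowStep`: `rowStep c y H a i - H a i = c a * (y - mtl H c) i`.
* `fro_fold`: induction on `K` for all `G`: with `b = 2 S` (`S` a bound for all `nrm (e s)`,
  `nrm (x s)`): `H = rowStep (c K) (e K) (colStep (r K) (x K) G)` satisfies `OpL (B + 2 S) H`, and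
  `fro (fold K H - G) ≤ fro (fold K H - H) + fro (H - colStep) + fro (colStep - G)`; use the
  triangle inequality for the norm `fro` (it is the Euclidean norm of the matrix as a vector
  indexed by `Fin M × Fin N`; for instance `fro A = nrm (fun p : Fin M × Fin N => A p.1 p.2)` and
  `Fintype.sum_prod_type`).
-/

set_option autoImplicit false
open MeasureTheory ProbabilityTheory Filter Topology

namespace Pool.Agent.IP49.SR

/-- `|G w| ≤ B |w|` -/
def OpL {M N : ℕ} (B : ℝ) (G : Fin M → Fin N → ℝ) : Prop := ∀ w, nrm (mvl G w) ≤ B * nrm w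

/-- Frobenius norm -/
noncomputable def fro {M N : ℕ} (A : Fin M → Fin N → ℝ) : ℝ := Real.sqrt (∑ a, ∑ i, A a i ^ 2)

theorem OpL.of_OpB {M N : ℕ} {C : ℝ} {G : Fin M → Fin N → ℝ} (hC : 0 ≤ C) (h : OpB C G) :
    OpL (C * Real.sqrt N) G := by
  intro w
  apply nrm_le_of_sq_le (mul_nonneg (mul_nonneg hC (Real.sqrt_nonneg _)) (nrm_nonneg w))
  have h1 := h w
  rw [nrm_sq_eq, mul_pow, mul_pow, Real.sq_sqrt (Nat.cast_nonneg N), nrm_sq_eq]
  exact h1

theorem dot_mtl {M N : ℕ} (G : Fin M → Fin N → ℝ) (u : Fin M → ℝ) (w : Fin N → ℝ) :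
    dot (mtl G u) w = dot u (mvl G w) := by
  simp only [dot, mtl, mvl, Finset.sum_mul, Finset.mul_sum]
  rw [Finset.sum_comm]
  exact Finset.sum_congr rfl fun a _ => Finset.sum_congr rfl fun i _ => by ring

theorem OpL.mtl {M N : ℕ} {B : ℝ} {G : Fin M → Fin N → ℝ} (hB : 0 ≤ B) (h : OpL B G)
    (u : Fin M → ℝ) : nrm (SR.mtl G u) ≤ B * nrm u := by
  set z := SR.mtl G u with hz
  have h1 : nrm z ^ 2 ≤ nrm u * (B * nrm z) := by
    rw [nrm_sq]
    calc dot z z = dot u (mvl G z) := by rw [← dot_mtl]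
      _ ≤ nrm u * nrm (mvl G z) := dot_le _ _
      _ ≤ nrm u * (B * nrm z) := mul_le_mul_of_nonneg_left (h z) (nrm_nonneg u)
  rcases eq_or_lt_of_le (nrm_nonneg z) with h0 | h0
  · rw [← h0]; exact mul_nonneg hB (nrm_nonneg u)
  · have : nrm z * nrm z ≤ (B * nrm u) * nrm z := by nlinarith
    exact le_of_mul_le_mul_right this h0

theorem OpL.colStep {M N : ℕ} {B : ℝ} {G : Fin M → Fin N → ℝ} (hB : 0 ≤ B) (h : OpL B G)
    {r : Fin N → ℝ} (hr : nrm r = 1) (x : Fin M → ℝ) : OpL (B + nrm x) (SR.colStep r x G) := by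
  intro w
  rw [mvl_colStep]
  refine (nrm_add_le _ _).trans ?_
  rw [nrm_smul]
  have h1 := abs_dot_le r w
  rw [hr, one_mul] at h1
  have h2 := mul_le_mul_of_nonneg_right h1 (nrm_nonneg x)
  have h3 := (h (proj r w)).trans (mul_le_mul_of_nonneg_left (nrm_proj_le hr w) hB)
  linarith [add_mul B (nrm x) (nrm w), mul_comm (nrm w) (nrm x)]

theorem OpL.rowStep {M N : ℕ} {B : ℝ} {H : Fin M → Fin N → ℝ} (hB : 0 ≤ B) (h : OpL B H)
    {c : Fin M → ℝ} (hc : nrm c = 1) (y : Fin N → ℝ) : OpL (B + nrm y) (SR.rowStep c y H) := by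
  intro w
  rw [mvl_rowStep]
  refine (nrm_add_le _ _).trans ?_
  rw [nrm_smul, hc, mul_one]
  have h1 := abs_dot_le y w
  have h3 := (nrm_proj_le hc (mvl H w)).trans (h w)
  linarith [add_mul B (nrm y) (nrm w)]

theorem fro_eq {M N : ℕ} (A : Fin M → Fin N → ℝ) :
    fro A = nrm (fun p : Fin M × Fin N => A p.1 p.2) := by
  unfold fro nrm
  rw [dot_self_eq, Fintype.sum_prod_type]

theorem fro_add_le {M N : ℕ} (A B : Fin M → Fin N → ℝ) : fro (A + B) ≤ fro A + fro B := by
  rw [fro_eq, fro_eq, fro_eq]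
  exact nrm_add_le (fun p : Fin M × Fin N => A p.1 p.2) (fun p : Fin M × Fin N => B p.1 p.2)

theorem fro_colStep {M N : ℕ} {B : ℝ} {G : Fin M → Fin N → ℝ} (hB : 0 ≤ B) (h : OpL B G)
    {r : Fin N → ℝ} (hr : nrm r = 1) (x : Fin M → ℝ) :
    fro (SR.colStep r x G - G) ≤ nrm x + B := by
  have h1 : ∀ a i, (SR.colStep r x G - G) a i = (x - mvl G r) a * r i := by
    intro a i
    simp only [Pi.sub_apply, SR.colStep, mvl, dot]
    ring
  have h2 : fro (SR.colStep r x G - G) = nrm (x - mvl G r) := by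
    unfold fro
    simp_rw [h1, mul_pow, ← Finset.mul_sum, ← Finset.sum_mul]
    rw [← nrm_sq_eq, ← nrm_sq_eq, hr, one_pow, mul_one, Real.sqrt_sq (nrm_nonneg _)]
  rw [h2]
  refine (nrm_sub_le _ _).trans ?_
  have := h r
  rw [hr, mul_one] at this
  linarith

theorem fro_rowStep {M N : ℕ} {B : ℝ} {H : Fin M → Fin N → ℝ} (hB : 0 ≤ B) (h : OpL B H)
    {c : Fin M → ℝ} (hc : nrm c = 1) (y : Fin N → ℝ) :
    fro (SR.rowStep c y H - H) ≤ nrm y + B := by
  have h1 : ∀ a i, (SR.rowStep c y H - H) a i = c a * (y - mtl H c) i := by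
    intro a i
    simp only [Pi.sub_apply, SR.rowStep, mtl]
    ring
  have h2 : fro (SR.rowStep c y H - H) = nrm (y - mtl H c) := by
    unfold fro
    simp_rw [h1, mul_pow, ← Finset.mul_sum, ← Finset.sum_mul]
    rw [← nrm_sq_eq, ← nrm_sq_eq, hc, one_pow, one_mul, Real.sqrt_sq (nrm_nonneg _)]
  rw [h2]
  refine (nrm_sub_le _ _).trans ?_
  have := OpL.mtl hB h c
  rw [hc, mul_one] at this
  linarith

theorem fro_self {M N : ℕ} (A : Fin M → Fin N → ℝ) : fro (A - A) = 0 := by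
  unfold fro
  simp

/-- the assembled matrix differs from the fresh matrix by a matrix of bounded Frobenius norm -/
theorem fro_fold {M N : ℕ} (c : ℕ → Fin M → ℝ) (r : ℕ → Fin N → ℝ) (e : ℕ → Fin N → ℝ)
    (x : ℕ → Fin M → ℝ) (K : ℕ) (hc : ∀ s < K, nrm (c s) = 1) (hr : ∀ s < K, nrm (r s) = 1)
    {S : ℝ} (hS : 0 ≤ S) (he : ∀ s < K, nrm (e s) ≤ S) (hx : ∀ s < K, nrm (x s) ≤ S)
    {B : ℝ} (hB : 0 ≤ B) (G : Fin M → Fin N → ℝ) (h : OpL B G) :
    fro (fold c r e x K G - G) ≤ K * (2 * B + (2 * K + 3) * S) := by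
  induction K generalizing G B with
  | zero =>
    have e0 : fold c r e x 0 G = G := rfl
    rw [e0, fro_self]
    simp
  | succ K ih =>
    have hrK := hr K (Nat.lt_succ_self K)
    have hcK := hc K (Nat.lt_succ_self K)
    have hxK := hx K (Nat.lt_succ_self K)
    have heK := he K (Nat.lt_succ_self K)
    set H1 := SR.colStep (r K) (x K) G with hH1
    set H := SR.rowStep (c K) (e K) H1 with hH
    have o1 : OpL (B + S) H1 := by
      intro w
      exact (OpL.colStep hB h hrK (x K) w).trans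
        (mul_le_mul_of_nonneg_right (by linarith) (nrm_nonneg w))
    have o2 : OpL (B + 2 * S) H := by
      intro w
      exact (OpL.rowStep (by linarith) o1 hcK (e K) w).trans
        (mul_le_mul_of_nonneg_right (by linarith) (nrm_nonneg w))
    have f1 := fro_colStep hB h hrK (x K)
    have f2 := fro_rowStep (by linarith : 0 ≤ B + S) o1 hcK (e K)
    have f3 := ih (fun s hs => hc s (by omega)) (fun s hs => hr s (by omega))
      (fun s hs => he s (by omega)) (fun s hs => hx s (by omega))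
      (by linarith : 0 ≤ B + 2 * S) H o2
    have e1 : fold c r e x (K + 1) G = fold c r e x K H := rfl
    have e2 : fold c r e x K H - G = (fold c r e x K H - H) + ((H - H1) + (H1 - G)) := by abel
    rw [e1, e2]
    have g1 := fro_add_le (fold c r e x K H - H) ((H - H1) + (H1 - G))
    have g2 := fro_add_le (H - H1) (H1 - G)
    push_cast
    nlinarith [f1, f2, f3, g1, g2]

end Pool.Agent.IP49.SR
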