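import Pool.Agent.IP49.SL
import Pool.Agent.IP49.SOpn
import Pool.Agent.IP49.OpN

/-!
# IP49, part S: the output for part U (`SOut`)
-/

set_option autoImplicit false
open MeasureTheory ProbabilityTheory Filter Topology

namespace Pool.Agent.IP49.SR

noncomputable section

theorem mp_real_le {α β : Type*} [MeasurableSpace α] [MeasurableSpace β] {μ : Measure α}
    {ν : Measure β} [IsProbabilityMeasure ν] {f : α → β} (hf : MeasurePreserving f μ ν)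
    (A : Set β) : μ.real (f ⁻¹' A) ≤ ν.real A := by
  have h1 : μ (f ⁻¹' A) ≤ ν A := by
    calc μ (f ⁻¹' A) ≤ μ (f ⁻¹' (toMeasurable ν A)) :=
          measure_mono (Set.preimage_mono (subset_toMeasurable ν A))
      _ = ν (toMeasurable ν A) := hf.measure_preimage (measurableSet_toMeasurable ν A).nullMeasurableSet
      _ = ν A := measure_toMeasurable A
  exact ENNReal.toReal_mono (measure_ne_top _ _) h1

/-- the TAP residual on the good event -/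
theorem Rsq_le {κ ν ψ θ C β : ℝ} {M N K : ℕ} {ω : Om M N K} (h : Pk κ ν ψ θ ω)
    (ht : Tm κ ν ψ) (hC : 0 ≤ C) (hβ : 0 ≤ β) {G : Fin M → Fin N → ℝ} (hG : OpB C G)
    (b1 : EB κ ν ψ K θ ≤ β)
    (b2 : dF κ ν ψ K θ + θ * ∑ s ∈ Finset.range K, bs κ ν ψ s / Real.sqrt (al κ ν ψ) ≤ β)
    (b3 : dT κ ν ψ K θ + θ * ∑ s ∈ Finset.range K, as κ ν ψ s ≤ β) :
    Rsq κ ν ψ (GR κ ν ψ (ω, G)) (hv κ ν ψ ω, hhv κ ν ψ ω)
      ≤ 2 * ((1 + C * (al κ ν ψ + 1)) * β) ^ 2 * N := by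
  have hNp := h.Npos
  have hsN := h.sN
  have hal := ht.hal
  have e2 : Real.sqrt N * Real.sqrt N = N := Real.mul_self_sqrt hNp.le
  have hop := OpL.of_OpB hC hG
  have hCN : 0 ≤ C * Real.sqrt N := by positivity
  -- first block
  have r1 : R1 κ ν ψ (GR κ ν ψ (ω, G)) (hv κ ν ψ ω, hhv κ ν ψ ω)
      = errt κ ν ψ ω (Fv κ ν ψ ω) + (Real.sqrt N)⁻¹ • projs (Finset.range K) (rr κ ν ψ ω)
          (mtl G (projs (Finset.range K) (cc κ ν ψ ω) (Fv κ ν ψ ω))) := by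
    have g := mtl_GR h.hN h.onc h.onr G (Fv κ ν ψ ω)
    funext i
    have g' := congrFun g i
    simp only [Pi.add_apply, Pi.smul_apply, smul_eq_mul] at g' ⊢
    have e3 : R1 κ ν ψ (GR κ ν ψ (ω, G)) (hv κ ν ψ ω, hhv κ ν ψ ω) i
        = mtl (GR κ ν ψ (ω, G)) (Fv κ ν ψ ω) i / Real.sqrt N - hv κ ν ψ ω i
          - dd κ ν ψ * tv κ ν ψ ω i := rfl
    rw [e3, g', add_div, mul_div_cancel_left₀ _ hsN.ne', inv_mul_eq_div]
    ring
  have r2 : R2 κ ν ψ (GR κ ν ψ (ω, G)) (hv κ ν ψ ω, hhv κ ν ψ ω)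
      = errw κ ν ψ ω (tv κ ν ψ ω) + (Real.sqrt N)⁻¹ • projs (Finset.range K) (cc κ ν ψ ω)
          (mvl G (projs (Finset.range K) (rr κ ν ψ ω) (tv κ ν ψ ω))) := by
    have g := mvl_GR h.hN h.onc h.onr G (tv κ ν ψ ω)
    funext a
    have g' := congrFun g a
    simp only [Pi.add_apply, Pi.smul_apply, smul_eq_mul] at g' ⊢
    have e3 : R2 κ ν ψ (GR κ ν ψ (ω, G)) (hv κ ν ψ ω, hhv κ ν ψ ω) a
        = mvl (GR κ ν ψ (ω, G)) (tv κ ν ψ ω) a / Real.sqrt N - hhv κ ν ψ ω a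
          - (1 - qp ψ) * Fv κ ν ψ ω a := rfl
    rw [e3, g', add_div, mul_div_cancel_left₀ _ hsN.ne', inv_mul_eq_div]
    ring
  have n1 : nrm (R1 κ ν ψ (GR κ ν ψ (ω, G)) (hv κ ν ψ ω, hhv κ ν ψ ω))
      ≤ (1 + C * (al κ ν ψ + 1)) * β * Real.sqrt N := by
    rw [r1]
    refine (nrm_add_le _ _).trans ?_
    rw [nrm_smul, abs_of_pos (inv_pos.mpr hsN)]
    have a1 := h.nrm_errt ht
    have a2 := (h.onr).nrm_projs_le (mtl G (projs (Finset.range K) (cc κ ν ψ ω) (Fv κ ν ψ ω)))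
    have a3 := hop.mtl hCN (projs (Finset.range K) (cc κ ν ψ ω) (Fv κ ν ψ ω))
    have a4 := h.nrm_projs_Fv ht
    have a5 := h.sM_le ht
    have a6 : nrm (projs (Finset.range K) (cc κ ν ψ ω) (Fv κ ν ψ ω))
        ≤ β * ((al κ ν ψ + 1) * Real.sqrt N) :=
      (a4.trans (mul_le_mul_of_nonneg_right b2 (Real.sqrt_nonneg _))).trans
        (mul_le_mul_of_nonneg_left a5 hβ)
    have a7 : (Real.sqrt N)⁻¹ * nrm (projs (Finset.range K) (rr κ ν ψ ω)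
          (mtl G (projs (Finset.range K) (cc κ ν ψ ω) (Fv κ ν ψ ω))))
        ≤ C * (β * ((al κ ν ψ + 1) * Real.sqrt N)) := by
      calc _ ≤ (Real.sqrt N)⁻¹ * (C * Real.sqrt N * (β * ((al κ ν ψ + 1) * Real.sqrt N))) := by
            refine mul_le_mul_of_nonneg_left ?_ (by positivity)
            exact a2.trans (a3.trans (mul_le_mul_of_nonneg_left a6 hCN))
        _ = ((Real.sqrt N)⁻¹ * Real.sqrt N) * (C * (β * ((al κ ν ψ + 1) * Real.sqrt N))) := by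
            ring
        _ = _ := by rw [inv_mul_cancel₀ hsN.ne', one_mul]
    have a8 : EB κ ν ψ K θ * Real.sqrt N ≤ β * Real.sqrt N :=
      mul_le_mul_of_nonneg_right b1 hsN.le
    calc _ ≤ β * Real.sqrt N + C * (β * ((al κ ν ψ + 1) * Real.sqrt N)) :=
          add_le_add (a1.trans a8) a7
      _ = _ := by ring
  have n2 : nrm (R2 κ ν ψ (GR κ ν ψ (ω, G)) (hv κ ν ψ ω, hhv κ ν ψ ω))
      ≤ (1 + C * (al κ ν ψ + 1)) * β * Real.sqrt N := by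
    rw [r2]
    refine (nrm_add_le _ _).trans ?_
    rw [nrm_smul, abs_of_pos (inv_pos.mpr hsN)]
    have a1 := h.nrm_errw ht (Pk.nrm_tanh_le (hv κ ν ψ ω)) h.good.mht h.good.eh
    have a2 := (h.onc).nrm_projs_le (mvl G (projs (Finset.range K) (rr κ ν ψ ω) (tv κ ν ψ ω)))
    have a3 := hop (projs (Finset.range K) (rr κ ν ψ ω) (tv κ ν ψ ω))
    have a4 := h.nrm_projs_tv ht
    have a6 : nrm (projs (Finset.range K) (rr κ ν ψ ω) (tv κ ν ψ ω)) ≤ β * Real.sqrt N :=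
      a4.trans (mul_le_mul_of_nonneg_right b3 (Real.sqrt_nonneg _))
    have a7 : (Real.sqrt N)⁻¹ * nrm (projs (Finset.range K) (cc κ ν ψ ω)
          (mvl G (projs (Finset.range K) (rr κ ν ψ ω) (tv κ ν ψ ω))))
        ≤ C * (β * Real.sqrt N) := by
      calc _ ≤ (Real.sqrt N)⁻¹ * (C * Real.sqrt N * (β * Real.sqrt N)) := by
            refine mul_le_mul_of_nonneg_left ?_ (by positivity)
            exact a2.trans (a3.trans (mul_le_mul_of_nonneg_left a6 hCN))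
        _ = ((Real.sqrt N)⁻¹ * Real.sqrt N) * (C * (β * Real.sqrt N)) := by ring
        _ = _ := by rw [inv_mul_cancel₀ hsN.ne', one_mul]
    have a8 : EB κ ν ψ K θ * Real.sqrt N ≤ β * Real.sqrt N :=
      mul_le_mul_of_nonneg_right b1 hsN.le
    have a9 : C * (β * Real.sqrt N) ≤ C * (al κ ν ψ + 1) * β * Real.sqrt N := by
      have : 0 ≤ C * β * Real.sqrt N * al κ ν ψ := by positivity
      nlinarith
    have a10 : nrm (errw κ ν ψ ω (tv κ ν ψ ω)) ≤ EB κ ν ψ K θ * Real.sqrt N := a1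
    calc _ ≤ β * Real.sqrt N + C * (al κ ν ψ + 1) * β * Real.sqrt N :=
          add_le_add (a10.trans a8) (a7.trans a9)
      _ = _ := by ring
  have hq0 : 0 ≤ (1 + C * (al κ ν ψ + 1)) * β * Real.sqrt N := by positivity
  have s1 : nsq (R1 κ ν ψ (GR κ ν ψ (ω, G)) (hv κ ν ψ ω, hhv κ ν ψ ω))
      ≤ ((1 + C * (al κ ν ψ + 1)) * β) ^ 2 * N := by
    have e4 : nsq (R1 κ ν ψ (GR κ ν ψ (ω, G)) (hv κ ν ψ ω, hhv κ ν ψ ω))
        = nrm (R1 κ ν ψ (GR κ ν ψ (ω, G)) (hv κ ν ψ ω, hhv κ ν ψ ω)) ^ 2 := (nrm_sq_eq _).symm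
    rw [e4]
    calc _ ≤ ((1 + C * (al κ ν ψ + 1)) * β * Real.sqrt N) ^ 2 :=
          pow_le_pow_left₀ (nrm_nonneg _) n1 2
      _ = _ := by rw [mul_pow _ (Real.sqrt N), Real.sq_sqrt hNp.le]
  have s2 : nsq (R2 κ ν ψ (GR κ ν ψ (ω, G)) (hv κ ν ψ ω, hhv κ ν ψ ω))
      ≤ ((1 + C * (al κ ν ψ + 1)) * β) ^ 2 * N := by
    have e4 : nsq (R2 κ ν ψ (GR κ ν ψ (ω, G)) (hv κ ν ψ ω, hhv κ ν ψ ω))
        = nrm (R2 κ ν ψ (GR κ ν ψ (ω, G)) (hv κ ν ψ ω, hhv κ ν ψ ω)) ^ 2 := (nrm_sq_eq _).symm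
    rw [e4]
    calc _ ≤ ((1 + C * (al κ ν ψ + 1)) * β * Real.sqrt N) ^ 2 :=
          pow_le_pow_left₀ (nrm_nonneg _) n2 2
      _ = _ := by rw [mul_pow _ (Real.sqrt N), Real.sq_sqrt hNp.le]
  rw [Rsq]
  linarith

/-- the constant in the Frobenius bound -/
def CKc (κ ν ψ C : ℝ) (K : ℕ) : ℝ :=
  (K * (2 * C + (2 * K + 3) * (2 * (al κ ν ψ + 1)))) ^ 2

theorem fro_le {κ ν ψ θ C : ℝ} {M N K : ℕ} {ω : Om M N K} (h : Pk κ ν ψ θ ω)
    (ht : Tm κ ν ψ) (hC : 0 ≤ C) {G : Fin M → Fin N → ℝ} (hG : OpB C G) :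
    ∑ a, ∑ i, (GR κ ν ψ (ω, G) a i - G a i) ^ 2 ≤ CKc κ ν ψ C K * N := by
  have hNp := h.Npos
  have hsN := h.sN
  have hal := ht.hal
  have hop := OpL.of_OpB hC hG
  have h1 := fro_fold (cc κ ν ψ ω) (rr κ ν ψ ω) (ext ω.1.1) (ext ω.1.2) K
    (fun s hs => h.onc.1 s (Finset.mem_range.mpr hs))
    (fun s hs => h.onr.1 s (Finset.mem_range.mpr hs))
    (S := 2 * (al κ ν ψ + 1) * Real.sqrt N) (by positivity)
    (fun s hs => (h.nrm_e hs).trans (by nlinarith [mul_pos hal hsN]))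
    (fun s hs => (h.nrm_x hs).trans (by have := h.sM_le ht; linarith))
    (B := C * Real.sqrt N) (by positivity) G hop
  rw [← GR_eq_fold] at h1
  have h2 : fro (GR κ ν ψ (ω, G) - G) ^ 2
      = ∑ a, ∑ i, (GR κ ν ψ (ω, G) a i - G a i) ^ 2 := by
    rw [fro, Real.sq_sqrt]
    · rfl
    · exact Finset.sum_nonneg fun a _ => Finset.sum_nonneg fun i _ => sq_nonneg _
  rw [← h2]
  have h3 : 0 ≤ fro (GR κ ν ψ (ω, G) - G) := Real.sqrt_nonneg _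
  calc _ ≤ (K * (2 * (C * Real.sqrt N) + (2 * K + 3) * (2 * (al κ ν ψ + 1) * Real.sqrt N))) ^ 2 :=
        pow_le_pow_left₀ h3 h1 2
    _ = (K * (2 * C + (2 * K + 3) * (2 * (al κ ν ψ + 1)))) ^ 2 * (Real.sqrt N) ^ 2 := by ring
    _ = _ := by rw [Real.sq_sqrt hNp.le, CKc]

end

end Pool.Agent.IP49.SR

namespace Pool.Agent.IP49

open SR

/-- THE OUTPUT OF PART S FOR PART U -/
theorem SOut_holds {κ ν ψ : ℝ} (hν : 0 < ν) (hψ : 0 < ψ) (hAT : AT κ ν ψ < 1) : SOut κ ν ψ := by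
  have hal : 0 < al κ ν ψ := al_pos hν.le hψ
  obtain ⟨C, hC, hop⟩ := op_norm hal.le
  refine ⟨C, fun e he => ?_⟩
  set e' : ℝ := min e 1 with he'
  have he0 : 0 < e' := lt_min he one_pos
  set D : ℝ := 1 + C * (al κ ν ψ + 1) with hD
  have hD0 : 0 < D := by positivity
  set β : ℝ := e' / (2 * D) with hβ
  have hβ0 : 0 < β := by positivity
  obtain ⟨K, θ₀, hθ0, hθ1, hb⟩ := exists_K_theta (κ := κ) hν.le hψ hAT hβ0
  have h7 : (0 : ℝ) < 7 ^ K := by positivity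
  set δ : ℝ := θ₀ / 7 ^ K with hδ
  have hδ0 : 0 < δ := by positivity
  have hδ7 : 7 ^ K * δ = θ₀ := mul_div_cancel₀ _ h7.ne'
  obtain ⟨b1, b2, b3, _⟩ := hb (7 ^ K * δ) (by positivity) hδ7.le
  refine ⟨CKc κ ν ψ C K, ?_⟩
  obtain ⟨N0, hN0⟩ := hop (e / 4) (by linarith)
  have ev3 : ∀ᶠ N : ℕ in atTop,
      (omLaw ⌊al κ ν ψ * N⌋₊ N K).real {ω | ¬ Good κ ν ψ δ ω} < e / 4 :=
    (good_tendsto hν.le hψ K hδ0).eventually (gt_mem_nhds (by linarith))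
  filter_upwards [floor_ratio hal hδ0, ev3, eventually_gt_atTop 0, eventually_ge_atTop N0]
    with N hN1 hN3 hN4 hN5
  have hprob : IsProbabilityMeasure (GM ⌊al κ ν ψ * N⌋₊ N) := gm_prob _ _
  refine ⟨Om ⌊al κ ν ψ * N⌋₊ N K, inferInstance, omLaw _ _ _, inferInstance, hv κ ν ψ,
    hhv κ ν ψ, GR κ ν ψ, measurable_hv _ _ _ _ _ _, measurable_hhv _ _ _ _ _ _,
    GR_measurable _ _ _, hv_law hν.le hψ _ _ _, hhv_law hν.le hψ _ _ _,
    (GR_law κ ν ψ hN1.1 hN4).map_eq, ?_⟩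
  have hM : ((⌊al κ ν ψ * N⌋₊ : ℕ) : ℝ) ≤ al κ ν ψ * N := Nat.floor_le (by positivity)
  have hopN := hN0 N hN5 _ hM
  set μ := (omLaw ⌊al κ ν ψ * N⌋₊ N K).prod (GM ⌊al κ ν ψ * N⌋₊ N) with hμ
  have p1 : μ.real {p | ¬ Good κ ν ψ δ p.1} ≤ e / 4 := by
    have := mp_real_le (f := Prod.fst) (μ := μ) (measurePreserving_fst
      (μ := omLaw ⌊al κ ν ψ * N⌋₊ N K) (ν := GM ⌊al κ ν ψ * N⌋₊ N))
      {ω | ¬ Good κ ν ψ δ ω}
    exact this.trans hN3.le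
  have p2 : μ.real {p | ¬ OpB C (GR κ ν ψ p)} ≤ e / 4 := by
    have := mp_real_le (μ := μ) (GR_law κ ν ψ (K := K) hN1.1 hN4) {G | ¬ OpB C G}
    exact this.trans hopN
  have p3 : μ.real {p | ¬ OpB C p.2} ≤ e / 4 := by
    have := mp_real_le (f := Prod.snd) (μ := μ) (measurePreserving_snd
      (μ := omLaw ⌊al κ ν ψ * N⌋₊ N K) (ν := GM ⌊al κ ν ψ * N⌋₊ N)) {G | ¬ OpB C G}
    exact this.trans hopN
  have hsub : {p : Om ⌊al κ ν ψ * N⌋₊ N K × (Fin ⌊al κ ν ψ * N⌋₊ → Fin N → ℝ) | ¬ (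
        Rsq κ ν ψ (GR κ ν ψ p) (hv κ ν ψ p.1, hhv κ ν ψ p.1) ≤ e * N ∧
        ∑ a, ∑ i, (GR κ ν ψ p a i - p.2 a i) ^ 2 ≤ CKc κ ν ψ C K * N ∧
        OpB C (GR κ ν ψ p) ∧ OpB C p.2)}
      ⊆ {p | ¬ Good κ ν ψ δ p.1} ∪ ({p | ¬ OpB C (GR κ ν ψ p)} ∪ {p | ¬ OpB C p.2}) := by
    intro p hp
    by_contra hcon
    simp only [Set.mem_union, Set.mem_ofPred_eq, not_or, not_not] at hcon
    obtain ⟨c1, c2, c3⟩ := hcon
    have hk : Pk κ ν ψ (7 ^ K * δ) p.1 :=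
      Pk.of_good hN1.1 hN4 hδ0.le (hδ7.le.trans hθ1) c1 hN1.2
    have ht : Tm κ ν ψ := Tm.of hν.le hψ
    refine hp ⟨?_, fro_le hk ht hC.le c3, c2, c3⟩
    refine (Rsq_le hk ht hC.le hβ0.le c3 b1 b2 b3).trans ?_
    refine mul_le_mul_of_nonneg_right ?_ (Nat.cast_nonneg _)
    have e5 : (1 + C * (al κ ν ψ + 1)) * β = e' / 2 := by
      rw [← hD, hβ]; field_simp
    rw [e5]
    have e6 : e' ≤ 1 := min_le_right _ _
    have e7 : e' ≤ e := min_le_left _ _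
    nlinarith
  refine (measureReal_mono hsub (measure_ne_top _ _)).trans ?_
  refine (measureReal_union_le _ _).trans ?_
  have := measureReal_union_le (μ := μ) {p | ¬ OpB C (GR κ ν ψ p)} {p | ¬ OpB C p.2}
  linarith

end Pool.Agent.IP49
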