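import Pool.Agent.IP49.UFin
import Pool.Agent.IP49.Cont
import Pool.Agent.IP49.UTb

/-!
IP49, part U, step U3: from `U_main` to `GUp` (a few extra rows kill the remaining near
solutions). Note 1605.

PROOF. Let `a > tc = al 0 0 ψ`, `b = a - tc`. Choose `ν > 0` small with
`al (-ν) ν ψ < tc + b/2`, `AT (-ν) ν ψ < 1`, `-dd (-ν) ν ψ * ES2 ψ < 1 - qp ψ`,
`UStar (-ν) ν ψ η₁`, `η₁ = b/32`, and `Ph (-ν - e) ≤ 0.55` for some `e > 0` (`Ph 0 = 1/2`, `Ph`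
continuous; take `e = ν`); then `L` with `exp(-L e²) ≤ 0.05`, so `row_factor ≤ 0.6`.
`κ = -ν`, `U_main` with `η = b/32` gives `δ₀`; take `δ = min δ₀ (b/(32 L))`. For `M ≥ aN`:
`M₁ = ⌊al N⌋₊ ≤ M`, `M₂ = M - M₁ ≥ bN/2`. `near_extra` with `T = exp((η₁+η)N)`,
`p = exp(LδN) 0.6^{M₂} ≤ exp(LδN - 0.5 · bN/2)` (`log 0.6 < -0.5`):
`T p ≤ exp((b/32 + b/32 + b/32 - b/4) N) → 0`, and the first term tends to `0` by `U_main`
(`cntNear_mono`). `b N > 0` needs `N ≥ 1`.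
-/

set_option autoImplicit false
open MeasureTheory ProbabilityTheory Filter Topology

namespace Pool.Agent.IP49

private theorem six_le_exp57 : (3 / 5 : ℝ) ≤ Real.exp (-(1 / 2)) := by
  have h1 : Real.exp (1 / 2) ^ 2 = Real.exp 1 := by
    rw [← Real.exp_nat_mul]
    norm_num
  have h2 : Real.exp 1 < 25 / 9 := lt_trans Real.exp_one_lt_d9 (by norm_num)
  have h3 : Real.exp (1 / 2) ≤ 5 / 3 := by
    by_contra h
    push Not at h
    nlinarith [Real.exp_pos (1 / 2 : ℝ)]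
  rw [Real.exp_neg]
  have h4 : (3 / 5 : ℝ) = (5 / 3)⁻¹ := by norm_num
  rw [h4]
  exact inv_anti₀ (Real.exp_pos _) h3

theorem GUp_of_UStar {ψ : ℝ} (hψ : 0 < ψ) (hAT : AT 0 0 ψ < 1)
    (hd : -dd 0 0 ψ * ES2 ψ < 1 - qp ψ) (hU : UStar 0 0 ψ 0) : GUp (al 0 0 ψ) := by
  intro a ha
  have hb : 0 < a - al 0 0 ψ := by linarith
  obtain ⟨b, hbdef⟩ : ∃ b, b = a - al 0 0 ψ := ⟨_, rfl⟩
  rw [← hbdef] at hb
  -- choice of `ν`
  have e1 : ∀ᶠ ν in 𝓝[>] (0 : ℝ), al (-ν) ν ψ < al 0 0 ψ + b / 2 :=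
    (al_tendsto_ray hψ).eventually (gt_mem_nhds (by linarith))
  have e2 : ∀ᶠ ν in 𝓝[>] (0 : ℝ), AT (-ν) ν ψ < 1 :=
    (AT_tendsto_ray hψ).eventually (gt_mem_nhds hAT)
  have e3 : ∀ᶠ ν in 𝓝[>] (0 : ℝ), -dd (-ν) ν ψ * ES2 ψ < 1 - qp ψ := by
    have ht : Tendsto (fun ν => -dd (-ν) ν ψ * ES2 ψ) (𝓝[>] 0) (𝓝 (-dd 0 0 ψ * ES2 ψ)) :=
      (dd_tendsto_ray hψ).neg.mul_const _
    exact ht.eventually (gt_mem_nhds hd)
  have e4 : ∀ᶠ ν in 𝓝[>] (0 : ℝ), UStar (-ν) ν ψ (b / 32) := UStar_ray hψ hU (by positivity)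
  have e5 : ∀ᶠ ν in 𝓝[>] (0 : ℝ), Ph (-ν - ν) < 11 / 20 := by
    have ht : Tendsto (fun ν : ℝ => Ph (-ν - ν)) (𝓝 0) (𝓝 (Ph (-0 - 0))) :=
      (continuous_Ph.comp (continuous_neg.sub continuous_id)).tendsto 0
    have h0 : Ph (-0 - 0) < 11 / 20 := by
      have : (-0 - 0 : ℝ) = 0 := by norm_num
      rw [this, Ph_zero]; norm_num
    exact (ht.mono_left nhdsWithin_le_nhds).eventually (gt_mem_nhds h0)
  have e6 : ∀ᶠ ν in 𝓝[>] (0 : ℝ), 0 < ν := self_mem_nhdsWithin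
  obtain ⟨ν, q1, q2, q3, q4, q5, hν⟩ :=
    (e1.and (e2.and (e3.and (e4.and (e5.and e6))))).exists
  have hκ : -ν < 0 := by linarith
  obtain ⟨δ₀, hδ₀, hlim⟩ := U_main hκ hν hψ q2 q3 (by positivity : 0 < b / 32) q4
    (by positivity : 0 < b / 32)
  obtain ⟨L, hL⟩ : ∃ L : ℝ, L = 20 / ν ^ 2 := ⟨_, rfl⟩
  have hLpos : 0 < L := by rw [hL]; positivity
  have hLν : L * ν ^ 2 = 20 := by rw [hL]; field_simp
  obtain ⟨r, hr⟩ : ∃ r : ℝ, r = GE fun x => Real.exp (-L * (max 0 (-ν - x)) ^ 2) := ⟨_, rfl⟩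
  have hr0 : 0 ≤ r := by
    rw [hr]
    exact GE_nonneg fun x => (Real.exp_pos _).le
  have hr1 : r ≤ Real.exp (-(1 / 2)) := by
    refine le_trans ?_ six_le_exp57
    have h1 := row_factor (-ν) ν L hν.le hLpos.le
    rw [← hr] at h1
    have h2 : Real.exp (-L * ν ^ 2) ≤ 1 / 21 := by
      rw [neg_mul, hLν, Real.exp_neg, one_div]
      apply inv_anti₀ (by norm_num)
      have := Real.add_one_le_exp (20 : ℝ)
      linarith
    linarith
  refine ⟨-ν, hκ, min δ₀ (b / (32 * L)), lt_min hδ₀ (by positivity), fun e he => ?_⟩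
  obtain ⟨δ, hδ⟩ : ∃ δ : ℝ, δ = min δ₀ (b / (32 * L)) := ⟨_, rfl⟩
  rw [← hδ]
  have hδ1 : δ ≤ δ₀ := by rw [hδ]; exact min_le_left _ _
  have hδ2 : L * δ ≤ b / 32 := by
    have : δ ≤ b / (32 * L) := by rw [hδ]; exact min_le_right _ _
    calc L * δ ≤ L * (b / (32 * L)) := mul_le_mul_of_nonneg_left this hLpos.le
      _ = b / 32 := by field_simp
  have f1 := hlim.eventually (ge_mem_nhds (show (0 : ℝ) < e / 2 by positivity))
  have f2 : ∀ᶠ N : ℕ in atTop, Real.exp (-(5 / 32 * b) * N) ≤ e / 2 := by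
    have ht : Tendsto (fun N : ℕ => Real.exp (-(5 / 32 * b) * N)) atTop (𝓝 0) := by
      apply Real.tendsto_exp_atBot.comp
      apply Tendsto.const_mul_atTop_of_neg
      · linarith
      · exact tendsto_natCast_atTop_atTop
    exact ht.eventually (ge_mem_nhds (by positivity))
  filter_upwards [f1, f2, eventually_ge_atTop 1] with N g1 g2 hN M hM
  have hN0 : (0 : ℝ) ≤ N := Nat.cast_nonneg N
  have halpos : 0 < al (-ν) ν ψ := al_pos hν.le hψ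
  obtain ⟨M₁, hM₁⟩ : ∃ M₁ : ℕ, M₁ = ⌊al (-ν) ν ψ * N⌋₊ := ⟨_, rfl⟩
  rw [← hM₁] at g1
  have k1 : (M₁ : ℝ) ≤ al (-ν) ν ψ * N := by
    rw [hM₁]; exact Nat.floor_le (mul_nonneg halpos.le hN0)
  have k2 : al (-ν) ν ψ * N ≤ (al 0 0 ψ + b / 2) * N := mul_le_mul_of_nonneg_right q1.le hN0
  have k3 : (al 0 0 ψ + b / 2) * N + b / 2 * N = a * N := by rw [hbdef]; ring
  have k4 : 0 ≤ b / 2 * N := by positivity
  have k5 : M₁ ≤ M := by
    have : (M₁ : ℝ) ≤ M := by linarith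
    exact_mod_cast this
  obtain ⟨M₂, rfl⟩ := Nat.exists_eq_add_of_le k5
  have k6 : b / 2 * N ≤ (M₂ : ℝ) := by
    push_cast at hM
    linarith
  obtain ⟨T, hT⟩ : ∃ T : ℝ, T = Real.exp ((b / 32 + b / 32) * N) := ⟨_, rfl⟩
  rw [← hT] at g1
  have hT0 : 0 ≤ T := by rw [hT]; exact (Real.exp_pos _).le
  have hmain := near_extra (M₁ := M₁) (M₂ := M₂) (N := N) (-ν) δ T
    (Real.exp (L * (δ * N)) * r ^ M₂) hT0 (fun w => by
      rw [hr]
      exact near_prob_le hN w (-ν) δ L hLpos.le)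
  refine hmain.trans ?_
  have hprob : IsProbabilityMeasure (GM M₁ N) := by unfold GM; infer_instance
  have s1 : (GM M₁ N).real {A | T ≤ (cntNear (-ν) δ A : ℝ)} ≤ e / 2 := by
    refine le_trans (measureReal_mono ?_) g1
    intro A hA
    simp only [Set.mem_setOf_eq] at hA ⊢
    refine hA.trans ?_
    exact_mod_cast cntNear_mono hδ1 A
  have s2 : T * (Real.exp (L * (δ * N)) * r ^ M₂) ≤ e / 2 := by
    refine le_trans ?_ g2
    have t1 : r ^ M₂ ≤ Real.exp (-(1 / 2) * M₂) := by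
      calc r ^ M₂ ≤ (Real.exp (-(1 / 2))) ^ M₂ := pow_le_pow_left₀ hr0 hr1 _
        _ = Real.exp (-(1 / 2) * M₂) := by
          rw [← Real.exp_nat_mul]; congr 1; ring
    calc T * (Real.exp (L * (δ * N)) * r ^ M₂)
        ≤ T * (Real.exp (L * (δ * N)) * Real.exp (-(1 / 2) * M₂)) :=
          mul_le_mul_of_nonneg_left (mul_le_mul_of_nonneg_left t1 (Real.exp_pos _).le) hT0
      _ = Real.exp ((b / 32 + b / 32) * N + (L * (δ * N) + -(1 / 2) * M₂)) := by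
          rw [hT, ← Real.exp_add, ← Real.exp_add]
      _ ≤ Real.exp (-(5 / 32 * b) * N) := by
          apply Real.exp_le_exp.2
          have t2 : L * (δ * N) ≤ b / 32 * N := by
            rw [← mul_assoc]; exact mul_le_mul_of_nonneg_right hδ2 hN0
          nlinarith
  linarith

end Pool.Agent.IP49
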