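import Pool.Agent.IP49.RFin
import Pool.Agent.IP49.LFin
import Pool.Agent.IP49.UTop
import Pool.Agent.IP49.NBox
import Pool.Agent.IP49.Cont
import Pool.Agent.IP49.LSmall
import Pool.Agent.IP49N.LDb

/-!
IP49: assembly.
-/

set_option autoImplicit false
open MeasureTheory ProbabilityTheory Filter Topology

namespace Pool.Agent.IP49

/-- the critical `ψ` -/
theorem exists_psi0 : ∃ ψ₀ : ℝ, psi1 ≤ ψ₀ ∧ ψ₀ ≤ psi2 ∧ GG 0 ψ₀ = 0 ∧
    ∀ e > 0, ∃ ψ : ℝ, psi1 ≤ ψ ∧ ψ ≤ psi2 ∧ 0 < GG 0 ψ ∧ |al 0 0 ψ - al 0 0 ψ₀| < e := by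
  have hp1 : (0 : ℝ) < psi1 := by unfold psi1; norm_num
  have h12 : psi1 ≤ psi2 := by unfold psi1 psi2; norm_num
  set T : Set ℝ := {ψ | psi1 ≤ ψ ∧ ψ ≤ psi2 ∧ 0 < GG 0 ψ} with hT
  have hne : T.Nonempty := ⟨psi1, le_refl _, h12, N_GG1⟩
  have hbd : BddAbove T := ⟨psi2, fun x hx => hx.2.1⟩
  set ψ₀ := sSup T with hψ₀
  have h1 : psi1 ≤ ψ₀ := le_csSup hbd ⟨le_refl _, h12, N_GG1⟩
  have h2 : ψ₀ ≤ psi2 := csSup_le hne fun x hx => hx.2.1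
  have hpos : 0 < ψ₀ := lt_of_lt_of_le hp1 h1
  have hcG : ContinuousAt (fun ψ => GG 0 ψ) ψ₀ :=
    GG_cont_psi.continuousAt (Ioi_mem_nhds hpos)
  have hca : ContinuousAt (fun ψ => al 0 0 ψ) ψ₀ :=
    al_cont_psi.continuousAt (Ioi_mem_nhds hpos)
  have hle : GG 0 ψ₀ ≤ 0 := by
    by_contra hcon
    push Not at hcon
    have hlt : ψ₀ < psi2 := by
      rcases lt_or_eq_of_le h2 with h | h
      · exact h
      · rw [h] at hcon; exact absurd hcon (not_lt.mpr N_GG2.le)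
    have hev : ∀ᶠ ψ in 𝓝 ψ₀, 0 < GG 0 ψ := hcG.eventually (lt_mem_nhds hcon)
    rcases Metric.eventually_nhds_iff.mp hev with ⟨r, hr, hball⟩
    set ψ' := ψ₀ + min (r / 2) (psi2 - ψ₀) with hψ'
    have hm : 0 < min (r / 2) (psi2 - ψ₀) := lt_min (by linarith) (by linarith)
    have hin : ψ' ∈ T := by
      refine ⟨by linarith, ?_, ?_⟩
      · have := min_le_right (r / 2) (psi2 - ψ₀); linarith
      · apply hball
        rw [Real.dist_eq]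
        have h3 := min_le_left (r / 2) (psi2 - ψ₀)
        have : ψ' - ψ₀ = min (r / 2) (psi2 - ψ₀) := by rw [hψ']; ring
        rw [this, abs_of_pos hm]; linarith
    have := le_csSup hbd hin
    linarith
  have hseq : ∀ e > 0, ∃ ψ ∈ T, ψ₀ - e < ψ := fun e he => exists_lt_of_lt_csSup hne (by linarith)
  have hge : 0 ≤ GG 0 ψ₀ := by
    by_contra hcon
    push Not at hcon
    have hev : ∀ᶠ ψ in 𝓝 ψ₀, GG 0 ψ < 0 := hcG.eventually (gt_mem_nhds hcon)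
    rcases Metric.eventually_nhds_iff.mp hev with ⟨r, hr, hball⟩
    obtain ⟨ψ, hψ, hlt⟩ := hseq r hr
    have hle' := le_csSup hbd hψ
    have := hball (y := ψ) (by rw [Real.dist_eq, abs_lt]; constructor <;> linarith)
    exact absurd hψ.2.2 (not_lt.mpr this.le)
  refine ⟨ψ₀, h1, h2, le_antisymm hle hge, fun e he => ?_⟩
  rcases Metric.continuousAt_iff.mp hca e he with ⟨r, hr, hball⟩
  obtain ⟨ψ, hψ, hlt⟩ := hseq r hr
  have hle' := le_csSup hbd hψ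
  refine ⟨ψ, hψ.1, hψ.2.1, hψ.2.2, ?_⟩
  have := hball (x := ψ) (by rw [Real.dist_eq, abs_lt]; constructor <;> linarith)
  rwa [Real.dist_eq] at this

theorem threshold_box : ∃ tc : ℝ, 83307 / 100000 ≤ tc ∧ tc ≤ 83309 / 100000 ∧
    GLow tc ∧ GUp tc := by
  obtain ⟨ψ₀, h1, h2, hG, hap⟩ := exists_psi0
  have hp1 : (0 : ℝ) < psi1 := by unfold psi1; norm_num
  have hpos : 0 < ψ₀ := lt_of_lt_of_le hp1 h1
  obtain ⟨-, -, hlo, hhi, -⟩ := IP49N.ldB h1 h2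
  refine ⟨al 0 0 ψ₀, hlo, hhi, fun a ha => ?_, ?_⟩
  · obtain ⟨ψ, k1, k2, kG, kc⟩ := hap (al 0 0 ψ₀ - a) (by linarith)
    have kpos : 0 < ψ := lt_of_lt_of_le hp1 k1
    have ka : a < al 0 0 ψ := by have := (abs_lt.mp kc).1; linarith
    have e1 : ∀ᶠ κ in 𝓝[>] (0 : ℝ), LStar κ ψ :=
      LStar_small kpos (N_AT k1 k2) fun lam hl hl0 => N_L k1 k2 kG hl hl0
    have e2 : ∀ᶠ κ in 𝓝[>] (0 : ℝ), AT κ 0 ψ < 1 :=
      ((AT_tendsto_kappa kpos).mono_left nhdsWithin_le_nhds).eventually (gt_mem_nhds (N_AT k1 k2))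
    have e3 : ∀ᶠ κ in 𝓝[>] (0 : ℝ), a < al κ 0 ψ :=
      ((al_tendsto_kappa kpos).mono_left nhdsWithin_le_nhds).eventually (lt_mem_nhds ka)
    have e4 : ∀ᶠ κ in 𝓝[>] (0 : ℝ), 0 < κ := self_mem_nhdsWithin
    obtain ⟨κ, q1, q2, q3, q4⟩ := (e1.and (e2.and (e3.and e4))).exists
    refine ⟨κ, q4, fun δ hδ c hc => ?_⟩
    filter_upwards [L_main q4 kpos q2 q1 hδ hc] with N hN M hM
    refine hN M (hM.trans ?_)
    exact mul_le_mul_of_nonneg_right q3.le (Nat.cast_nonneg N)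
  · exact GUp_of_UStar hpos (N_AT h1 h2) (N_dS h1 h2) (N_U h1 h2 hG)

theorem threshold : ∃ tc : ℝ, GLow tc ∧ GUp tc := by
  obtain ⟨tc, -, -, h⟩ := threshold_box
  exact ⟨tc, h⟩

end Pool.Agent.IP49
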