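import Pool.Agent.IP49.ULoc

/-!
IP49, part U1: the sum over all configurations on the typical set (compactness in `ρ`).

PROOF. `K = {ρ | ρ² q ≤ 1}` is compact (`q > 0`); for `ρ₀ ∈ K` `UStar` and `U_loc1`/`U_loc2` (with
`η/2`) give `r, T1, T2, dl, δ`. Finitely many balls `B(ρ_j, r_j)` cover `K`, and also a
neighbourhood `{ρ | ρ² (q - d0) ≤ 1}` of `K` for some `d0 > 0` (the complement of the union of
the open balls is closed and `{ρ² ≤ 1/(q-d0)}` decreases to `K` as `d0 → 0`; or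
`IsCompact.exists_thickening_subset_open`). Take `T1` = concatenation of the `T1_j` and `TB1`, same
for `T2`, `dl = min (dl_j, d0)`, `δ = min δ_j`. For `y ∈ Yset`: `nsq m ≥ (q - d0) N > 0`, so
`ρ_w² (q-d0) ≤ ρ_w² nsq m/N ≤ 1` (`rhw_sq_le`), hence `ρ_w` lies in some ball, and
`∑_w Pcore(δ) ≤ ∑_j ∑_w (if |ρ_w - ρ_j| < r_j then Pcore(δ_j) else 0) ≤ J exp((η₁+η/2)N)`
(`Pcore` is monotone in `δ`), `J ≤ exp(ηN/2)` eventually. `Yset` is antitone in the lists and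
monotone in `dl`.
-/

set_option autoImplicit false
open MeasureTheory ProbabilityTheory Filter Topology

namespace Pool.Agent.IP49

open SR

theorem Yset_mono {κ ν ψ : ℝ} {T1 T1' T2 T2' : List (ℝ → ℝ)} {dl dl' : ℝ} {M N : ℕ}
    (h1 : T1 ⊆ T1') (h2 : T2 ⊆ T2') (hd : dl' ≤ dl) :
    Yset κ ν ψ T1' T2' dl' M N ⊆ Yset κ ν ψ T1 T2 dl M N := by
  rintro y ⟨a, b⟩
  exact ⟨fun f hf => (a f (h1 hf)).trans hd, fun f hf => (b f (h2 hf)).trans hd⟩

private theorem gmP (M N : ℕ) : IsProbabilityMeasure (GM M N) := by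
  unfold GM
  infer_instance

theorem Pcore_mono {κ δ δ' b : ℝ} {M N : ℕ} (h m : Fin N → ℝ) (hh n : Fin M → ℝ)
    (w : Fin N → Bool) (hd : δ ≤ δ') : Pcore κ δ b h m hh n w ≤ Pcore κ δ' b h m hh n w := by
  have := gmP M N
  refine measureReal_mono ?_ (measure_ne_top _ _)
  intro H hH
  exact le_trans hH (mul_le_mul_of_nonneg_right hd (Nat.cast_nonneg N))

theorem Pcore_nonneg {κ δ b : ℝ} {M N : ℕ} (h m : Fin N → ℝ) (hh n : Fin M → ℝ)
    (w : Fin N → Bool) : 0 ≤ Pcore κ δ b h m hh n w := measureReal_nonneg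

/-- neighbourhood of the compact interval -/
private theorem nbhd {q : ℝ} (hq : 0 < q) {V : Set ℝ} (hV : IsOpen V)
    (hK : {ρ : ℝ | ρ ^ 2 * q ≤ 1} ⊆ V) :
    ∃ d : ℝ, 0 < d ∧ d < q ∧ ∀ ρ : ℝ, ρ ^ 2 * (q - d) ≤ 1 → ρ ∈ V := by
  set R : ℝ := 1 / Real.sqrt q with hR
  have hsq : 0 < Real.sqrt q := Real.sqrt_pos.2 hq
  have hRpos : 0 < R := by positivity
  have hRR : R ^ 2 * q = 1 := by
    rw [hR, div_pow, Real.sq_sqrt hq.le]
    field_simp
  have hKeq : {ρ : ℝ | ρ ^ 2 * q ≤ 1} = Set.Icc (-R) R := by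
    ext ρ
    simp only [Set.mem_setOf_eq, Set.mem_Icc]
    constructor
    · intro h
      have h1 : ρ ^ 2 ≤ R ^ 2 := by
        by_contra hc
        push Not at hc
        nlinarith
      exact abs_le.1 (abs_le_of_sq_le_sq h1 hRpos.le)
    · rintro ⟨h1, h2⟩
      have h3 : ρ ^ 2 ≤ R ^ 2 := sq_le_sq' h1 h2
      nlinarith
  have hcomp : IsCompact {ρ : ℝ | ρ ^ 2 * q ≤ 1} := by
    rw [hKeq]
    exact isCompact_Icc
  obtain ⟨ε, hε, hsub⟩ := hcomp.exists_thickening_subset_open hV hK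
  have hRe : 1 < (R + ε) ^ 2 * q := by nlinarith [mul_pos hε hq, mul_pos hRpos hε]
  have hRe0 : 0 < (R + ε) ^ 2 := by positivity
  have hlt : 1 / (R + ε) ^ 2 < q := by
    rw [div_lt_iff₀ hRe0]
    linarith [mul_comm q ((R + ε) ^ 2)]
  have hp : 0 < 1 / (R + ε) ^ 2 := by positivity
  refine ⟨(q - 1 / (R + ε) ^ 2) / 2, by linarith, by linarith, fun ρ hρ => ?_⟩
  have h1 : ρ ^ 2 < (R + ε) ^ 2 := by
    by_contra hc
    push Not at hc
    have h2 : 1 / (R + ε) ^ 2 < q - (q - 1 / (R + ε) ^ 2) / 2 := by linarith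
    have h3 : 1 < (R + ε) ^ 2 * (q - (q - 1 / (R + ε) ^ 2) / 2) := by
      have := mul_lt_mul_of_pos_left h2 hRe0
      rwa [mul_one_div_cancel hRe0.ne'] at this
    have h4 : 0 ≤ q - (q - 1 / (R + ε) ^ 2) / 2 := by linarith
    have h5 := mul_le_mul_of_nonneg_right hc h4
    linarith
  have h2 : |ρ| < R + ε := abs_lt_of_sq_lt_sq h1 (by positivity)
  apply hsub
  rw [Metric.mem_thickening_iff]
  rw [abs_lt] at h2
  by_cases hc1 : R < ρ
  · refine ⟨R, ?_, ?_⟩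
    · rw [hKeq]
      exact ⟨by linarith, le_rfl⟩
    · rw [Real.dist_eq, abs_of_pos (by linarith)]
      linarith
  · by_cases hc2 : ρ < -R
    · refine ⟨-R, ?_, ?_⟩
      · rw [hKeq]
        exact ⟨le_rfl, by linarith⟩
      · rw [Real.dist_eq, abs_of_neg (by linarith)]
        linarith
    · refine ⟨ρ, ?_, ?_⟩
      · rw [hKeq]
        exact ⟨by linarith, by linarith⟩
      · simpa using hε

theorem U_cov {κ ν ψ η₁ : ℝ} (hν : 0 < ν) (hψ : 0 < ψ) (hU : UStar κ ν ψ η₁) {η : ℝ}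
    (hη : 0 < η) :
    ∃ T1 T2 : List (ℝ → ℝ), (∀ f ∈ T1, PL f) ∧ (∀ f ∈ T2, PL f) ∧
      ∃ dl : ℝ, 0 < dl ∧ ∃ δ : ℝ, 0 < δ ∧ ∀ᶠ N : ℕ in atTop,
        ∀ y ∈ Yset κ ν ψ T1 T2 dl ⌊al κ ν ψ * N⌋₊ N,
          ∑ w : Fin N → Bool, Pcore κ δ (1 - qp ψ) y.1 (mh y.1) y.2 (nh κ ν ψ y.2) w
            ≤ Real.exp ((η₁ + η) * N) := by
  classical
  have hq : 0 < qp ψ := qp_pos hψ
  have hη2 : 0 < η / 2 := by linarith
  have key : ∀ ρ₀ : ℝ, ρ₀ ^ 2 * qp ψ ≤ 1 →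
      ∃ r : ℝ, 0 < r ∧ ∃ T1 T2 : List (ℝ → ℝ), (∀ f ∈ T1, PL f) ∧ (∀ f ∈ T2, PL f) ∧
      ∃ dl : ℝ, 0 < dl ∧ ∃ δ : ℝ, 0 < δ ∧ ∀ᶠ N : ℕ in atTop,
        ∀ y ∈ Yset κ ν ψ T1 T2 dl ⌊al κ ν ψ * N⌋₊ N,
          ∑ w : Fin N → Bool, (if |rhw (mh y.1) w - ρ₀| < r then
            Pcore κ δ (1 - qp ψ) y.1 (mh y.1) y.2 (nh κ ν ψ y.2) w else 0)
            ≤ Real.exp ((η₁ + η / 2) * N) := by
    intro ρ₀ hρ₀
    rcases hU ρ₀ hρ₀ with ⟨h1, l, A₁, A₂, h2⟩ | ⟨l, h2⟩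
    · exact U_loc1 hν hψ h1 h2 hη2
    · exact U_loc2 hν hψ hρ₀ h2 hη2
  choose! r hr T1 T2 hT1 hT2 dl hdl δ hδ hev using key
  have hKc : IsCompact {ρ : ℝ | ρ ^ 2 * qp ψ ≤ 1} := by
    refine Metric.isCompact_of_isClosed_isBounded ?_ ?_
    · exact isClosed_le (by fun_prop) continuous_const
    · rw [Metric.isBounded_iff_subset_closedBall 0]
      refine ⟨1 / qp ψ + 1, fun ρ hρ => ?_⟩
      simp only [Set.mem_setOf_eq] at hρ
      rw [mem_closedBall_zero_iff, Real.norm_eq_abs]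
      have h1 : ρ ^ 2 ≤ 1 / qp ψ := by
        rw [le_div_iff₀ hq]
        exact hρ
      have h2 : |ρ| ^ 2 ≤ 1 / qp ψ := by
        rw [sq_abs]
        exact h1
      nlinarith [abs_nonneg ρ]
  obtain ⟨t, htK, htc⟩ := hKc.elim_nhds_subcover (fun ρ => Metric.ball ρ (r ρ))
    (fun ρ hρ => Metric.ball_mem_nhds ρ (hr ρ hρ))
  have hVo : IsOpen (⋃ x ∈ t, Metric.ball x (r x)) :=
    isOpen_biUnion fun _ _ => Metric.isOpen_ball
  obtain ⟨d0, hd0, hd0q, hd0V⟩ := nbhd hq hVo htc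
  have htne : t.Nonempty := by
    by_contra hc
    rw [Finset.not_nonempty_iff_eq_empty] at hc
    have h0 : (0 : ℝ) ∈ {ρ : ℝ | ρ ^ 2 * qp ψ ≤ 1} := by simp
    have := htc h0
    rw [hc] at this
    simp at this
  set dm : ℝ := min d0 (t.inf' htne dl) with hdm
  set δm : ℝ := t.inf' htne δ with hδm
  have hdm0 : 0 < dm := by
    rw [hdm, lt_min_iff]
    exact ⟨hd0, (Finset.lt_inf'_iff htne).2 fun j hj => hdl j (htK j hj)⟩
  have hδm0 : 0 < δm := (Finset.lt_inf'_iff htne).2 fun j hj => hδ j (htK j hj)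
  refine ⟨TB1 ++ t.toList.flatMap T1, TB2 κ ν ψ ++ t.toList.flatMap T2, ?_, ?_, dm, hdm0, δm,
    hδm0, ?_⟩
  · intro f hf
    rcases List.mem_append.1 hf with hf | hf
    · exact TB1_PL f hf
    · obtain ⟨j, hj, hf⟩ := List.mem_flatMap.1 hf
      exact hT1 j (htK j (Finset.mem_toList.1 hj)) f hf
  · intro f hf
    rcases List.mem_append.1 hf with hf | hf
    · exact TB2_PL hν.le f hf
    · obtain ⟨j, hj, hf⟩ := List.mem_flatMap.1 hf
      exact hT2 j (htK j (Finset.mem_toList.1 hj)) f hf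
  · have hevt : ∀ᶠ N : ℕ in atTop, ∀ j ∈ t,
        ∀ y ∈ Yset κ ν ψ (T1 j) (T2 j) (dl j) ⌊al κ ν ψ * N⌋₊ N,
          ∑ w : Fin N → Bool, (if |rhw (mh y.1) w - j| < r j then
            Pcore κ (δ j) (1 - qp ψ) y.1 (mh y.1) y.2 (nh κ ν ψ y.2) w else 0)
            ≤ Real.exp ((η₁ + η / 2) * N) :=
      (Filter.eventually_all_finset t).2 fun j hj => hev j (htK j hj)
    have hcard : ∀ᶠ N : ℕ in atTop, (t.card : ℝ) ≤ Real.exp (η / 2 * N) := by
      have h1 : Tendsto (fun N : ℕ => Real.exp (η / 2 * N)) atTop atTop :=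
        Real.tendsto_exp_atTop.comp (tendsto_natCast_atTop_atTop.const_mul_atTop hη2)
      exact h1.eventually_ge_atTop _
    filter_upwards [hevt, hcard, eventually_ge_atTop 1] with N h1 h2 h3 y hy
    have hN0 : (0 : ℝ) < N := by exact_mod_cast h3
    have hyB : y ∈ Yset κ ν ψ TB1 (TB2 κ ν ψ) dm ⌊al κ ν ψ * N⌋₊ N :=
      Yset_mono (List.subset_append_left _ _) (List.subset_append_left _ _) le_rfl hy
    have havg := (TB_avg hν.le hψ hyB).2.1
    have hns : (qp ψ - d0) * N ≤ nsq (mh y.1) := by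
      rw [abs_le] at havg
      have h4 : qp ψ - d0 ≤ nsq (mh y.1) / N := by
        have : dm ≤ d0 := min_le_left _ _
        linarith [havg.1]
      rwa [le_div_iff₀ hN0] at h4
    have hmpos : 0 < nsq (mh y.1) := lt_of_lt_of_le (mul_pos (by linarith) hN0) hns
    have hcov : ∀ w : Fin N → Bool, ∃ j ∈ t, |rhw (mh y.1) w - j| < r j := by
      intro w
      have h4 := rhw_sq_le (mh y.1) hmpos w
      have h5 : rhw (mh y.1) w ^ 2 * (qp ψ - d0) ≤ 1 := by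
        have h6 : rhw (mh y.1) w ^ 2 * ((qp ψ - d0) * N) ≤ N :=
          (mul_le_mul_of_nonneg_left hns (sq_nonneg _)).trans h4
        have h7 : (rhw (mh y.1) w ^ 2 * (qp ψ - d0)) * N ≤ 1 * N := by linarith
        exact le_of_mul_le_mul_right h7 hN0
      have h6 := hd0V _ h5
      simp only [Set.mem_iUnion, Metric.mem_ball, Real.dist_eq] at h6
      obtain ⟨j, hj, h7⟩ := h6
      exact ⟨j, hj, h7⟩
    have hle : ∀ w : Fin N → Bool,
        Pcore κ δm (1 - qp ψ) y.1 (mh y.1) y.2 (nh κ ν ψ y.2) w ≤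
          ∑ j ∈ t, (if |rhw (mh y.1) w - j| < r j then
            Pcore κ (δ j) (1 - qp ψ) y.1 (mh y.1) y.2 (nh κ ν ψ y.2) w else 0) := by
      intro w
      obtain ⟨j, hj, hjw⟩ := hcov w
      have h4 : Pcore κ δm (1 - qp ψ) y.1 (mh y.1) y.2 (nh κ ν ψ y.2) w ≤
          (if |rhw (mh y.1) w - j| < r j then
            Pcore κ (δ j) (1 - qp ψ) y.1 (mh y.1) y.2 (nh κ ν ψ y.2) w else 0) := by
        rw [if_pos hjw]
        exact Pcore_mono _ _ _ _ w (Finset.inf'_le δ hj)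
      refine h4.trans (Finset.single_le_sum (f := fun j => if |rhw (mh y.1) w - j| < r j then
            Pcore κ (δ j) (1 - qp ψ) y.1 (mh y.1) y.2 (nh κ ν ψ y.2) w else 0)
            (fun i _ => ?_) hj)
      split_ifs
      · exact Pcore_nonneg _ _ _ _ w
      · exact le_rfl
    calc ∑ w : Fin N → Bool, Pcore κ δm (1 - qp ψ) y.1 (mh y.1) y.2 (nh κ ν ψ y.2) w
        ≤ ∑ w : Fin N → Bool, ∑ j ∈ t, (if |rhw (mh y.1) w - j| < r j then
            Pcore κ (δ j) (1 - qp ψ) y.1 (mh y.1) y.2 (nh κ ν ψ y.2) w else 0) :=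
          Finset.sum_le_sum fun w _ => hle w
      _ = ∑ j ∈ t, ∑ w : Fin N → Bool, (if |rhw (mh y.1) w - j| < r j then
            Pcore κ (δ j) (1 - qp ψ) y.1 (mh y.1) y.2 (nh κ ν ψ y.2) w else 0) :=
          Finset.sum_comm
      _ ≤ ∑ j ∈ t, Real.exp ((η₁ + η / 2) * N) := by
          refine Finset.sum_le_sum fun j hj => h1 j hj y ?_
          refine Yset_mono ?_ ?_ ?_ hy
          · intro f hf
            exact List.mem_append_right _ (List.mem_flatMap.2 ⟨j, Finset.mem_toList.2 hj, hf⟩)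
          · intro f hf
            exact List.mem_append_right _ (List.mem_flatMap.2 ⟨j, Finset.mem_toList.2 hj, hf⟩)
          · exact (min_le_right _ _).trans (Finset.inf'_le dl hj)
      _ = (t.card : ℝ) * Real.exp ((η₁ + η / 2) * N) := by
          rw [Finset.sum_const, nsmul_eq_mul]
      _ ≤ Real.exp (η / 2 * N) * Real.exp ((η₁ + η / 2) * N) :=
          mul_le_mul_of_nonneg_right h2 (Real.exp_pos _).le
      _ = Real.exp ((η₁ + η) * N) := by
          rw [← Real.exp_add]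
          congr 1
          ring

end Pool.Agent.IP49
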