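import Pool.Agent.IP49.UPt

/-!
IP49, part U1: first moment of `V Z`.

PROOF. `Yset` is closed (finitely many continuous functions, `PL.continuous`), hence measurable;
`(G, y) ↦ rhoE ε (N+M) (Rsq κ ν ψ G y)` is continuous (`continuous_FF`, `Real.continuous_tanh`...), and
`{G | Near κ δ G w}` is closed. `(cntNear κ δ G : ENNReal) = ∑ w, if Near κ δ G w then 1 else 0`.
`∫⁻ G, VV G * cnt G = ∫⁻ G, ∫⁻ y in Y, ∑ w, ρ (if Near ..)` `= ∫⁻ y in Y, ∑ w, ∫⁻ G, ρ (if Near ..)`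
(`lintegral_lintegral_swap`, `lintegral_finset_sum`) `≤ volume Y * sup` (`VZ_pt` with `η/2`).
-/

set_option autoImplicit false
open MeasureTheory ProbabilityTheory Filter Topology

namespace Pool.Agent.IP49

open SR

theorem Yset_measurable {κ ν ψ : ℝ} {T1 T2 : List (ℝ → ℝ)} (h1 : ∀ f ∈ T1, PL f)
    (h2 : ∀ f ∈ T2, PL f) (dl : ℝ) (M N : ℕ) : MeasurableSet (Yset κ ν ψ T1 T2 dl M N) := by
  apply IsClosed.measurableSet
  unfold Yset
  rw [Set.ofPred_and]
  apply IsClosed.inter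
  · simp only [Set.ofPred_forall]
    refine isClosed_iInter fun f => isClosed_iInter fun hf => ?_
    have hc := (h1 f hf).continuous
    exact isClosed_le (by fun_prop) continuous_const
  · simp only [Set.ofPred_forall]
    refine isClosed_iInter fun f => isClosed_iInter fun hf => ?_
    have hc := (h2 f hf).continuous
    exact isClosed_le (by fun_prop) continuous_const

theorem Rsq_continuous (κ ν ψ : ℝ) (M N : ℕ) :
    Continuous (fun p : (Fin M → Fin N → ℝ) × ((Fin N → ℝ) × (Fin M → ℝ)) =>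
      Rsq κ ν ψ p.1 p.2) := by
  have hF : Continuous (FF κ ν (qp ψ)) := continuous_FF
  have ht : Continuous Real.tanh := continuous_tanh'
  unfold Rsq nsq R1 R2
  fun_prop

theorem Near_measurable (κ δ : ℝ) {M N : ℕ} (w : Fin N → Bool) :
    MeasurableSet {G : Fin M → Fin N → ℝ | Near κ δ G w} := by
  apply IsClosed.measurableSet
  unfold Near yv
  exact isClosed_le (by fun_prop) continuous_const

theorem rho_measurable (κ ν ψ ε : ℝ) (M N n : ℕ) :
    Measurable (fun p : (Fin M → Fin N → ℝ) × ((Fin N → ℝ) × (Fin M → ℝ)) =>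
      ENNReal.ofReal (rhoE ε n (Rsq κ ν ψ p.1 p.2))) := by
  have h := Rsq_continuous κ ν ψ M N
  unfold rhoE
  exact ENNReal.measurable_ofReal.comp (Continuous.measurable (by fun_prop))

theorem VV_measurable {κ ν ψ ε : ℝ} (T1 T2 : List (ℝ → ℝ)) (h1 : ∀ f ∈ T1, PL f)
    (h2 : ∀ f ∈ T2, PL f) (dl : ℝ) (M N : ℕ) :
    Measurable (fun G : Fin M → Fin N → ℝ => VV κ ν ψ ε T1 T2 dl G) := by
  unfold VV
  exact Measurable.lintegral_prod_right' (rho_measurable κ ν ψ ε M N (N + M))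

open Classical in
theorem cntNear_eq_sum (κ δ : ℝ) {M N : ℕ} (G : Fin M → Fin N → ℝ) :
    (cntNear κ δ G : ENNReal) = ∑ w : Fin N → Bool, (if Near κ δ G w then 1 else 0) := by
  unfold cntNear
  rw [Finset.card_filter]
  push_cast
  rfl

/-- the first moment of `V Z` -/
theorem VZ_upper {κ ν ψ η₁ : ℝ} (hν : 0 < ν) (hψ : 0 < ψ) (hU : UStar κ ν ψ η₁) {η : ℝ}
    (hη : 0 < η) :
    ∃ T1 T2 : List (ℝ → ℝ), (∀ f ∈ T1, PL f) ∧ (∀ f ∈ T2, PL f) ∧
      ∃ dl : ℝ, 0 < dl ∧ ∃ δ : ℝ, 0 < δ ∧ ∃ ε₀ : ℝ, 0 < ε₀ ∧ ∀ ε : ℝ, 0 < ε → ε < ε₀ →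
        ∀ᶠ N : ℕ in atTop,
          ∫⁻ G, VV κ ν ψ ε T1 T2 dl G * (cntNear κ δ G : ENNReal) ∂(GM ⌊al κ ν ψ * N⌋₊ N)
            ≤ ENNReal.ofReal (Real.exp ((-dd κ ν ψ * (1 - qp ψ) + η₁ + η) * N)) := by
  obtain ⟨T1, T2, h1, h2, dl, hdl, δ, hδ, ε₀, hε₀, H⟩ :=
    VZ_pt hν hψ hU (η := η / 2) (by positivity)
  refine ⟨T1, T2, h1, h2, dl, hdl, δ, hδ, ε₀, hε₀, fun ε hε hε' => ?_⟩
  filter_upwards [H ε hε hε'] with N hN
  obtain ⟨hvol, hpt⟩ := hN
  obtain ⟨M, hM⟩ : ∃ M : ℕ, M = ⌊al κ ν ψ * N⌋₊ := ⟨_, rfl⟩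
  rw [← hM] at hvol hpt ⊢
  have hsf : SFinite (GM M N) := by
    have : IsProbabilityMeasure (GM M N) := by unfold GM; infer_instance
    infer_instance
  classical
  have e1 : ∀ G : Fin M → Fin N → ℝ, VV κ ν ψ ε T1 T2 dl G * (cntNear κ δ G : ENNReal)
      = ∫⁻ y in Yset κ ν ψ T1 T2 dl M N, ∑ w : Fin N → Bool,
          ENNReal.ofReal (rhoE ε (N + M) (Rsq κ ν ψ G y)) * (if Near κ δ G w then 1 else 0) := by
    intro G
    have hm : Measurable (fun y : (Fin N → ℝ) × (Fin M → ℝ) =>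
        ENNReal.ofReal (rhoE ε (N + M) (Rsq κ ν ψ G y))) := by
      have hg : Measurable (fun y : (Fin N → ℝ) × (Fin M → ℝ) => (G, y)) :=
        measurable_const.prodMk measurable_id
      have h3 := (rho_measurable κ ν ψ ε M N (N + M)).comp hg
      exact h3
    have hv : VV κ ν ψ ε T1 T2 dl G = ∫⁻ y in Yset κ ν ψ T1 T2 dl M N,
        ENNReal.ofReal (rhoE ε (N + M) (Rsq κ ν ψ G y)) := rfl
    rw [hv, ← lintegral_mul_const _ hm]
    refine lintegral_congr fun y => ?_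
    rw [cntNear_eq_sum, Finset.mul_sum]
  have hmeas : ∀ w : Fin N → Bool, Measurable
      (fun p : (Fin M → Fin N → ℝ) × ((Fin N → ℝ) × (Fin M → ℝ)) =>
        ENNReal.ofReal (rhoE ε (N + M) (Rsq κ ν ψ p.1 p.2))
          * (if Near κ δ p.1 w then (1 : ENNReal) else 0)) := by
    intro w
    refine (rho_measurable κ ν ψ ε M N (N + M)).mul ?_
    exact Measurable.ite ((Near_measurable κ δ w).preimage measurable_fst)
      measurable_const measurable_const
  calc ∫⁻ G, VV κ ν ψ ε T1 T2 dl G * (cntNear κ δ G : ENNReal) ∂(GM M N)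
      = ∫⁻ G, (∫⁻ y in Yset κ ν ψ T1 T2 dl M N, ∑ w : Fin N → Bool,
          ENNReal.ofReal (rhoE ε (N + M) (Rsq κ ν ψ G y)) * (if Near κ δ G w then 1 else 0))
          ∂(GM M N) := lintegral_congr e1
    _ = ∫⁻ y in Yset κ ν ψ T1 T2 dl M N, ∫⁻ G, ∑ w : Fin N → Bool,
          ENNReal.ofReal (rhoE ε (N + M) (Rsq κ ν ψ G y)) * (if Near κ δ G w then 1 else 0)
          ∂(GM M N) := by
        apply lintegral_lintegral_swap
        apply Measurable.aemeasurable
        exact Finset.measurable_sum _ (fun w _ => hmeas w)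
    _ = ∫⁻ y in Yset κ ν ψ T1 T2 dl M N, ∑ w : Fin N → Bool, ∫⁻ G,
          ENNReal.ofReal (rhoE ε (N + M) (Rsq κ ν ψ G y)) * (if Near κ δ G w then 1 else 0)
          ∂(GM M N) := by
        apply lintegral_congr
        intro y
        rw [lintegral_finsetSum]
        intro w _
        have hg : Measurable (fun G : Fin M → Fin N → ℝ => (G, y)) :=
          measurable_id.prodMk measurable_const
        have h3 := (hmeas w).comp hg
        exact h3
    _ ≤ ∫⁻ y in Yset κ ν ψ T1 T2 dl M N,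
          ENNReal.ofReal (Real.exp ((-LV κ ν ψ - dd κ ν ψ * (1 - qp ψ) + η₁ + η / 2) * N)) := by
        apply setLIntegral_mono' (Yset_measurable h1 h2 dl M N)
        intro y hy
        exact hpt y hy
    _ = ENNReal.ofReal (Real.exp ((-LV κ ν ψ - dd κ ν ψ * (1 - qp ψ) + η₁ + η / 2) * N))
          * volume (Yset κ ν ψ T1 T2 dl M N) := by
        rw [setLIntegral_const]
    _ ≤ ENNReal.ofReal (Real.exp ((-LV κ ν ψ - dd κ ν ψ * (1 - qp ψ) + η₁ + η / 2) * N))
          * ENNReal.ofReal (Real.exp ((LV κ ν ψ + η / 2) * N)) := by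
        gcongr
    _ = ENNReal.ofReal (Real.exp ((-dd κ ν ψ * (1 - qp ψ) + η₁ + η) * N)) := by
        rw [← ENNReal.ofReal_mul (Real.exp_pos _).le, ← Real.exp_add]
        congr 2
        ring

end Pool.Agent.IP49
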