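import Pool.Agent.IP49.VGor

/-!
IP49, part U2 (owner of this file: helper55): positivity along the row path with probability
close to one (Gordon for each `k` in a finite grid, monotonicity between grid points). Note 1615.
`R = α E g²`, `s2 = E S²`, `R * s2 < 1` is the AT condition; `b = E S`.
-/

set_option autoImplicit false
open MeasureTheory ProbabilityTheory Filter Topology

namespace Pool.Agent.IP49

/-- choice of the constants -/
lemma vg_const {b R s2 : ℝ} (hR : 0 ≤ R) (hs2 : 0 ≤ s2) (hRs : R * s2 < 1) :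
    ∃ L s : ℝ, 0 < L ∧ L < 1 ∧ 0 < s ∧ s < 1 ∧
      (R + 2 * s) * ((b + 2 * s + L * (s2 + s) / (1 - L)) / (1 - s) - b) + 2 * s
        ≤ (1 - s) * L := by
  have hRs0 : 0 ≤ R * s2 := mul_nonneg hR hs2
  set L : ℝ := (1 - R * s2) / 2 with hL
  have hL0 : 0 < L := by rw [hL]; linarith
  have hL1 : L < 1 := by rw [hL]; linarith
  have h1L : 0 < 1 - L := by linarith
  set f : ℝ → ℝ := fun s =>
    (R + 2 * s) * ((b + 2 * s + L * (s2 + s) / (1 - L)) / (1 - s) - b) + 2 * s - (1 - s) * L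
    with hf
  have hf0 : f 0 < 0 := by
    have e : f 0 = L * (R * s2 / (1 - L) - 1) := by
      simp only [hf]
      ring
    rw [e]
    apply mul_neg_of_pos_of_neg hL0
    rw [sub_neg, div_lt_one h1L, hL]
    linarith
  have hfc : ContinuousAt f 0 := by
    have h1 : ContinuousAt (fun s : ℝ => (b + 2 * s + L * (s2 + s) / (1 - L)) / (1 - s)) 0 := by
      apply ContinuousAt.div (by fun_prop) (by fun_prop)
      norm_num
    simp only [hf]
    fun_prop
  have h1 : ∀ᶠ s in 𝓝[>] (0 : ℝ), f s < 0 :=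
    (hfc.tendsto.eventually (gt_mem_nhds hf0)).filter_mono nhdsWithin_le_nhds
  have h2 : ∀ᶠ s in 𝓝[>] (0 : ℝ), s ∈ Set.Ioo (0 : ℝ) 1 := Ioo_mem_nhdsGT one_pos
  obtain ⟨s, hs, hs'⟩ := (h1.and h2).exists
  refine ⟨L, s, hL0, hL1, hs'.1, hs'.2, ?_⟩
  simp only [hf] at hs
  linarith

lemma vg_yk {M N : ℕ} (hN : 0 < N) {g : Fin M → ℝ} {G0 : ℝ} (hG0 : 0 < G0)
    (hg : ∀ a, 0 < g a ∧ g a ≤ G0) {j k : ℕ} (hjk : j ≤ k) :
    0 ≤ yk N g j - yk N g k ∧ yk N g j - yk N g k ≤ ((k : ℝ) - j) * G0 / N := by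
  have hN' : (0 : ℝ) < N := by exact_mod_cast hN
  unfold yk
  rw [← sub_div, ← Finset.sum_sub_distrib]
  constructor
  · apply div_nonneg (Finset.sum_nonneg fun a _ => ?_) hN'.le
    have := (hg a).1.le
    split_ifs <;> first | omega | linarith
  · apply div_le_div_of_nonneg_right _ hN'.le
    calc ∑ a : Fin M, ((if j ≤ (a : ℕ) then g a else 0) - (if k ≤ (a : ℕ) then g a else 0))
        ≤ ∑ a : Fin M, if (j ≤ (a : ℕ) ∧ (a : ℕ) < k) then G0 else 0 := by
          refine Finset.sum_le_sum fun a _ => ?_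
          have h1 := (hg a).1.le
          have h2 := (hg a).2
          split_ifs <;> first | omega | linarith
      _ = ((Finset.univ.filter fun a : Fin M => j ≤ (a : ℕ) ∧ (a : ℕ) < k).card : ℝ) * G0 := by
          rw [← Finset.sum_filter, Finset.sum_const, nsmul_eq_mul]
      _ ≤ ((k : ℝ) - j) * G0 := by
          apply mul_le_mul_of_nonneg_right _ hG0.le
          have h3 : (Finset.univ.filter fun a : Fin M => j ≤ (a : ℕ) ∧ (a : ℕ) < k).card
              ≤ (Finset.Ico j k).card := by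
            apply Finset.card_le_card_of_injOn (fun a : Fin M => (a : ℕ))
            · intro a ha
              simp only [Finset.coe_filter, Finset.mem_univ, true_and, Set.mem_ofPred_eq] at ha
              simp only [Finset.coe_Ico, Set.mem_Ico]
              exact ha
            · exact Fin.val_injective.injOn
          rw [Nat.card_Ico] at h3
          have h4 : ((k - j : ℕ) : ℝ) = (k : ℝ) - j := Nat.cast_sub hjk
          rw [← h4]
          exact_mod_cast h3

/-- the quadratic form is almost monotone along the path -/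
lemma vg_mono {M N : ℕ} (hN : 0 < N) {S : Fin N → ℝ} (hS : ∀ i, 0 < S i ∧ S i ≤ 1)
    {g : Fin M → ℝ} {G0 : ℝ} (hG0 : 0 < G0) (hg : ∀ a, 0 < g a ∧ g a ≤ G0) {b D : ℝ}
    (hbg : ∀ a, b * g a < 1)
    (G : Fin M → Fin N → ℝ) {j k : ℕ} (hjk : j ≤ k) (u : Fin N → ℝ) :
    qk b D S g G j u - ((k : ℝ) - j) * G0 / N * nsq u ≤ qk b D S g G k u := by
  have hN' : (0 : ℝ) < N := by exact_mod_cast hN
  obtain ⟨hy0, hy1⟩ := vg_yk hN hG0 hg hjk
  have h1 : (∑ a : Fin M, if (a : ℕ) < j then Wg b (g a) *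
        (∑ i, G a i * (Real.sqrt (S i) * u i)) ^ 2 else 0) / N
      ≤ (∑ a : Fin M, if (a : ℕ) < k then Wg b (g a) *
        (∑ i, G a i * (Real.sqrt (S i) * u i)) ^ 2 else 0) / N := by
    apply div_le_div_of_nonneg_right _ hN'.le
    refine Finset.sum_le_sum fun a _ => ?_
    have hW : 0 ≤ Wg b (g a) * (∑ i, G a i * (Real.sqrt (S i) * u i)) ^ 2 := by
      apply mul_nonneg _ (sq_nonneg _)
      exact div_nonneg (hg a).1.le (by linarith [hbg a])
    split_ifs <;> first | omega | exact hW | exact le_rfl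
  have h2 : ∑ i, (1 + (yk N g j - D) * S i) * u i ^ 2 - (yk N g j - yk N g k) * ∑ i, S i * u i ^ 2
      = ∑ i, (1 + (yk N g k - D) * S i) * u i ^ 2 := by
    rw [Finset.mul_sum, ← Finset.sum_sub_distrib]
    exact Finset.sum_congr rfl fun i _ => by ring
  have h3 : (yk N g j - yk N g k) * ∑ i, S i * u i ^ 2 ≤ ((k : ℝ) - j) * G0 / N * nsq u := by
    have h4 : ∑ i, S i * u i ^ 2 ≤ nsq u := by
      unfold nsq
      refine Finset.sum_le_sum fun i _ => ?_
      nlinarith [sq_nonneg (u i), (hS i).2]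
    have h5 : 0 ≤ ∑ i, S i * u i ^ 2 :=
      Finset.sum_nonneg fun i _ => mul_nonneg (hS i).1.le (sq_nonneg _)
    exact mul_le_mul hy1 h4 h5 (hy0.trans hy1)
  unfold qk
  linarith

theorem path_pos {b D R s2 G0 C0 : ℝ} (hb : 0 < b) (hD : 0 < D) (hR : 0 ≤ R) (hs2 : 0 ≤ s2)
    (hRs : R * s2 < 1) (hG0 : 0 < G0) (hbG : b * G0 < 1) (hC0 : 0 < C0) :
    ∃ c : ℝ, 0 < c ∧ ∀ e : ℝ, 0 < e → ∃ η : ℝ, 0 < η ∧ ∃ N₀ : ℕ, ∀ N : ℕ, N₀ ≤ N →
      ∀ M : ℕ, (M : ℝ) ≤ C0 * N → ∀ (S : Fin N → ℝ) (g : Fin M → ℝ),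
        (∀ i, 0 < S i ∧ S i ≤ 1) → (∀ a, 0 < g a ∧ g a ≤ G0) →
        |(∑ a, g a) / N - D| ≤ η → (∑ i, S i) / N ≤ b + η → (∑ i, S i ^ 2) / N ≤ s2 + η →
        (∑ a, g a ^ 2) / N ≤ R + η →
        (GM M N).real {G | ¬ PathPos c b D S g G} ≤ e := by
  have _ := hD
  obtain ⟨L, s, hL, hL1, hs, hs1, hkey⟩ := vg_const (b := b) hR hs2 hRs
  refine ⟨s / 2, by positivity, fun e he => ⟨s, hs, ?_⟩⟩
  set Cw : ℝ := max G0 (max (G0 ^ 2) (1 / (1 - L))) with hCw
  set K : ℝ := 2 * (3 * (vz2 * (C0 + 1) * Cw ^ 2 / s ^ 2)) with hK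
  have hK0 : 0 ≤ K := by
    have := vz2_nonneg
    positivity
  set J : ℕ := ⌈4 * G0 * C0 / s⌉₊ with hJ
  obtain ⟨N₀, hN₀⟩ := exists_nat_gt (max 1 (max (4 * G0 / s) ((J + 1) * K / e)))
  refine ⟨N₀, fun N hN M hM S g hS hg h1 h2 h3 h4 => ?_⟩
  have hNr : max 1 (max (4 * G0 / s) ((J + 1) * K / e)) < (N : ℝ) :=
    lt_of_lt_of_le hN₀ (by exact_mod_cast hN)
  have hN1 : (1 : ℝ) < N := lt_of_le_of_lt (le_max_left _ _) hNr
  have hN2 : 4 * G0 / s < N := lt_of_le_of_lt ((le_max_left _ _).trans (le_max_right _ _)) hNr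
  have hN3 : (J + 1) * K / e < N := lt_of_le_of_lt ((le_max_right _ _).trans (le_max_right _ _)) hNr
  have hNpos : 0 < N := by
    have : (0 : ℝ) < N := by linarith
    exact_mod_cast this
  have hN' : (0 : ℝ) < N := by exact_mod_cast hNpos
  have hbg : ∀ a, b * g a < 1 := fun a =>
    lt_of_le_of_lt (mul_le_mul_of_nonneg_left (hg a).2 hb.le) hbG
  set h : ℕ := ⌊s * N / (2 * G0)⌋₊ with hh
  have hx0 : 0 ≤ s * N / (2 * G0) := by positivity
  have hx2 : 2 ≤ s * N / (2 * G0) := by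
    rw [le_div_iff₀ (by positivity)]
    rw [div_lt_iff₀ hs] at hN2
    linarith
  have hhle : (h : ℝ) ≤ s * N / (2 * G0) := Nat.floor_le hx0
  have hhge : s * N / (2 * G0) / 2 ≤ (h : ℝ) := by
    have := Nat.lt_floor_add_one (s * N / (2 * G0))
    rw [← hh] at this
    linarith
  have hhpos : 0 < h := by
    have : (0 : ℝ) < h := by linarith
    exact_mod_cast this
  have hsub : {G | ¬ PathPos (s / 2) b D S g G}
      ⊆ ⋃ l ∈ Finset.range (J + 1), {G | ∃ u, qk b D S g G (l * h) u < s * nsq u} := by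
    intro G hG
    by_contra hcon
    apply hG
    simp only [Set.mem_iUnion, Finset.mem_range, Set.mem_ofPred_eq, exists_prop, not_exists,
      not_and, not_lt] at hcon
    intro k hk u
    set l : ℕ := k / h with hl
    have hlk : l * h ≤ k := Nat.div_mul_le_self k h
    have hlk' : k < (l + 1) * h := by
      have := Nat.lt_div_mul_add (a := k) hhpos
      rw [← hl] at this
      linarith
    have hlJ : l < J + 1 := by
      have e1 : (l : ℝ) * h ≤ C0 * N := by
        have : ((l * h : ℕ) : ℝ) ≤ (M : ℝ) := by exact_mod_cast hlk.trans hk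
        push_cast at this
        linarith
      have e2 : (l : ℝ) * (s * N / (2 * G0) / 2) ≤ C0 * N :=
        (mul_le_mul_of_nonneg_left hhge (Nat.cast_nonneg l)).trans e1
      have e3 : (l : ℝ) ≤ 4 * G0 * C0 / s := by
        rw [le_div_iff₀ hs]
        have e4 : (l : ℝ) * (s * N / (2 * G0) / 2) = (l * s) * N / (4 * G0) := by ring
        rw [e4, div_le_iff₀ (by positivity)] at e2
        have e5 : (l * s) * N ≤ (4 * G0 * C0) * N := by linarith
        exact le_of_mul_le_mul_right e5 hN'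
      have e4 : (l : ℝ) ≤ (J : ℝ) := e3.trans (Nat.le_ceil _)
      have : l ≤ J := by exact_mod_cast e4
      omega
    have h5 := hcon l hlJ u
    have h6 := vg_mono hNpos hS hG0 hg (b := b) (D := D) hbg G hlk u
    have h7 : ((k : ℝ) - ((l * h : ℕ) : ℝ)) * G0 / N ≤ s / 2 := by
      have e1 : (k : ℝ) - ((l * h : ℕ) : ℝ) ≤ h := by
        have : (k : ℝ) ≤ (((l + 1) * h : ℕ) : ℝ) := by exact_mod_cast hlk'.le
        push_cast at this ⊢
        linarith
      rw [div_le_iff₀ hN']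
      calc ((k : ℝ) - ((l * h : ℕ) : ℝ)) * G0 ≤ h * G0 := mul_le_mul_of_nonneg_right e1 hG0.le
        _ ≤ s * N / (2 * G0) * G0 := mul_le_mul_of_nonneg_right hhle hG0.le
        _ = s / 2 * N := by field_simp
    have hn0 : 0 ≤ nsq u := Finset.sum_nonneg fun i _ => sq_nonneg _
    have h8 := mul_le_mul_of_nonneg_right h7 hn0
    linarith
  have hprob : IsProbabilityMeasure (GM M N) := by
    unfold GM
    infer_instance
  refine (measureReal_mono hsub (measure_ne_top _ _)).trans ((measureReal_biUnion_finset_le _ _).trans ?_)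
  have hfix : ∀ l ∈ Finset.range (J + 1),
      (GM M N).real {G | ∃ u, qk b D S g G (l * h) u < s * nsq u} ≤ K / N := by
    intro l _
    refine (vg_fixed hNpos (l * h) hS hg hb hbG hs hs1 hL hL1 hs2 hM h1 h2 h3 h4
      (Cw := Cw) (le_max_left _ _) ((le_max_left _ _).trans (le_max_right _ _))
      ((le_max_right _ _).trans (le_max_right _ _)) hkey).trans (le_of_eq ?_)
    rw [hK]
    ring
  refine (Finset.sum_le_sum hfix).trans ?_
  rw [Finset.sum_const, Finset.card_range, nsmul_eq_mul]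
  push_cast
  rw [← mul_div_assoc, div_le_iff₀ hN']
  rw [div_lt_iff₀ he] at hN3
  linarith

end Pool.Agent.IP49
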