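import Pool.Agent.IP49.VAsm4
import Pool.Agent.IP49.VGrid

/-!
IP49, part U2: measurability and the Markov inequality for the determinant (helper85).
Notes 1605, 1615.
-/

set_option autoImplicit false
open MeasureTheory ProbabilityTheory Matrix Filter Topology

namespace Pool.Agent.IP49

/-- variables `(h, hh, G')` -/
abbrev Tri (M N : ℕ) : Type := ((Fin N → ℝ) × (Fin M → ℝ)) × (Fin M → Fin N → ℝ)

variable {κ ν ψ c : ℝ} {M N : ℕ}

theorem cont_Sv (i : Fin N) : Continuous fun p : Tri M N => Sv (M := M) (yy p.1.1 p.1.2) i := by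
  have : Continuous fun p : Tri M N => 1 - Real.tanh (p.1.1 i) ^ 2 :=
    continuous_const.sub ((continuous_tanh'.comp (by fun_prop)).pow 2)
  exact this

theorem cont_gv (a : Fin M) : Continuous fun p : Tri M N =>
    gv (N := N) κ ν ψ (yy p.1.1 p.1.2) a := by
  have : Continuous fun p : Tri M N => gf κ ν (qp ψ) (p.1.2 a) :=
    continuous_gf.comp (by fun_prop)
  exact this

theorem bg_pos (hν : 0 < ν) (y : Fin N ⊕ Fin M → ℝ) (a : Fin M) :
    0 < 1 - (1 - qp ψ) * gv κ ν ψ y a := by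
  have h1 := (gv_bd (κ := κ) (ψ := ψ) hν y a).2.2
  have hq : qp ψ < 1 := qp_lt_one
  have h2 : 0 < ν / (1 - qp ψ + ν) := by
    have : 0 < 1 - qp ψ + ν := by linarith
    positivity
  linarith

theorem cont_yk (k : ℕ) : Continuous fun p : Tri M N =>
    yk N (gv (N := N) κ ν ψ (yy p.1.1 p.1.2)) k := by
  unfold yk
  refine Continuous.div_const (continuous_finsetSum _ fun a _ => ?_) _
  split_ifs with h
  · exact cont_gv a
  · exact continuous_const

theorem cont_Wg (hν : 0 < ν) (a : Fin M) : Continuous fun p : Tri M N =>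
    Wg (1 - qp ψ) (gv (N := N) κ ν ψ (yy p.1.1 p.1.2) a) := by
  unfold Wg
  refine (cont_gv a).div (continuous_const.sub (continuous_const.mul (cont_gv a))) fun p => ?_
  exact (bg_pos hν _ a).ne'

theorem cont_qk (hν : 0 < ν) (k : ℕ) (u : Fin N → ℝ) : Continuous fun p : Tri M N =>
    qk (1 - qp ψ) (-dd κ ν ψ) (Sv (yy p.1.1 p.1.2)) (gv κ ν ψ (yy p.1.1 p.1.2)) p.2 k u := by
  unfold qk
  refine Continuous.add (continuous_finsetSum _ fun i _ => ?_)
    (Continuous.div_const (continuous_finsetSum _ fun a _ => ?_) _)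
  · have h1 := cont_yk (κ := κ) (ν := ν) (ψ := ψ) (M := M) (N := N) k
    have h2 := cont_Sv (M := M) (N := N) i
    exact ((continuous_const.add ((h1.sub continuous_const).mul h2))).mul continuous_const
  · split_ifs with h
    · refine (cont_Wg hν a).mul (Continuous.pow (continuous_finsetSum _ fun i _ => ?_) 2)
      have h2 := cont_Sv (M := M) (N := N) i
      refine Continuous.mul (by fun_prop) (Continuous.mul ?_ continuous_const)
      exact Real.continuous_sqrt.comp h2
    · exact continuous_const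

theorem closed_PathPos (hν : 0 < ν) : IsClosed {p : Tri M N |
    PathPos c (1 - qp ψ) (-dd κ ν ψ) (Sv (yy p.1.1 p.1.2)) (gv κ ν ψ (yy p.1.1 p.1.2)) p.2} := by
  have : {p : Tri M N |
      PathPos c (1 - qp ψ) (-dd κ ν ψ) (Sv (yy p.1.1 p.1.2)) (gv κ ν ψ (yy p.1.1 p.1.2)) p.2} =
      ⋂ (k : ℕ) (_ : k ≤ M) (u : Fin N → ℝ), {p | c * nsq u ≤
        qk (1 - qp ψ) (-dd κ ν ψ) (Sv (yy p.1.1 p.1.2)) (gv κ ν ψ (yy p.1.1 p.1.2)) p.2 k u} := by
    ext p
    simp [PathPos]
  rw [this]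
  refine isClosed_iInter fun k => isClosed_iInter fun _ => isClosed_iInter fun u => ?_
  exact isClosed_le continuous_const (cont_qk hν k u)

theorem cont_Xk (hν : 0 < ν) (k : ℕ) : Continuous fun p : Tri M N =>
    (Xk (1 - qp ψ) (-dd κ ν ψ) (Sv (yy p.1.1 p.1.2)) (gv κ ν ψ (yy p.1.1 p.1.2)) p.2 k).det := by
  refine Continuous.matrix_det ?_
  unfold Xk
  refine Continuous.add (Continuous.matrix_diagonal ?_) (continuous_finsetSum _ fun a _ => ?_)
  · refine continuous_pi fun i => ?_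
    have h1 := cont_yk (κ := κ) (ν := ν) (ψ := ψ) (M := M) (N := N) k
    have h2 := cont_Sv (M := M) (N := N) i
    exact continuous_const.add ((h1.sub continuous_const).mul h2)
  · split_ifs with h
    · have hv : Continuous fun p : Tri M N => fun i =>
          Real.sqrt (Sv (M := M) (yy p.1.1 p.1.2) i) * p.2 a i := by
        refine continuous_pi fun i => ?_
        exact (Real.continuous_sqrt.comp (cont_Sv (M := M) (N := N) i)).mul (by fun_prop)
      have h1 : Continuous fun p : Tri M N =>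
          Wg (1 - qp ψ) (gv (N := N) κ ν ψ (yy p.1.1 p.1.2) a) / (N : ℝ) :=
        (cont_Wg hν a).div_const _
      exact h1.smul (hv.matrix_vecMulVec hv)
    · exact continuous_const

theorem closed_DetOK (hν : 0 < ν) (η₁ : ℝ) : IsClosed {p : Tri M N |
    DetOK κ ν ψ c η₁ p.1.1 p.1.2 p.2} := by
  unfold DetOK
  refine isClosed_le (cont_Xk hν M) (continuous_const.mul (Continuous.mul ?_ ?_))
  · refine continuous_finsetProd _ fun i _ => ?_
    have h1 := cont_yk (κ := κ) (ν := ν) (ψ := ψ) (M := M) (N := N) 0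
    have h2 := cont_Sv (M := M) (N := N) i
    exact continuous_const.add ((h1.sub continuous_const).mul h2)
  · refine continuous_finsetProd _ fun a _ => ?_
    have h1 := cont_gv (κ := κ) (ν := ν) (ψ := ψ) (M := M) (N := N) a
    refine Continuous.mul (Continuous.mul ?_ ?_) ?_
    · exact Real.continuous_exp.comp ((continuous_const.mul (h1.pow 2)).div_const _)
    · refine Continuous.inv₀ (continuous_const.sub (continuous_const.mul h1)) fun p => ?_
      exact (bg_pos hν _ a).ne'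
    · exact Real.continuous_exp.comp (continuous_const.mul h1).neg

/-- Markov for the determinant -/
theorem det_prob (hν : 0 < ν) (hc : 0 < c) (hN : 0 < N) {η₁ : ℝ}
    (hgN : 1 / (1 - qp ψ + ν) / N ≤ c / 2) (h : Fin N → ℝ) (hh : Fin M → ℝ) :
    (GM M N) {G' | PathPos c (1 - qp ψ) (-dd κ ν ψ) (Sv (yy h hh)) (gv κ ν ψ (yy h hh)) G' ∧
      ¬ DetOK κ ν ψ c η₁ h hh G'} ≤ ENNReal.ofReal (Real.exp (-(η₁ * N))) := by
  have hN' : (0 : ℝ) < N := Nat.cast_pos.2 hN
  have hq : qp ψ < 1 := qp_lt_one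
  set S : Fin N → ℝ := Sv (M := M) (yy h hh) with hS
  set g : Fin M → ℝ := gv κ ν ψ (yy h hh) with hg
  have hS1 : ∀ i, 0 < S i ∧ S i ≤ 1 := Sv_bd _
  have hg1 : ∀ a, 0 < g a ∧ (1 - qp ψ) * g a < 1 := fun a =>
    ⟨(gv_bd (κ := κ) (ψ := ψ) hν (yy h hh) a).1, by linarith [bg_pos (κ := κ) (ψ := ψ) hν (yy h hh) a]⟩
  have hg2 : ∀ a, g a / N ≤ c / 2 := fun a =>
    (div_le_div_of_nonneg_right (gv_bd (κ := κ) (ψ := ψ) hν (yy h hh) a).2.1 hN'.le).trans hgN
  have hrow := rows_det (M := M) (D := -dd κ ν ψ) hN hc (by linarith : 0 < 1 - qp ψ) hS1 hg1 hg2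
  set PP : ℝ := (∏ i, (1 + (yk N g 0 - (-dd κ ν ψ)) * S i)) *
          ∏ a, (Real.exp (2 * g a ^ 2 / (c ^ 2 * N)) * (1 - (1 - qp ψ) * g a)⁻¹
            * Real.exp (-((1 - qp ψ) * g a))) with hPP
  by_cases hne : ∃ G' : Fin M → Fin N → ℝ, PathPos c (1 - qp ψ) (-dd κ ν ψ) S g G'
  swap
  · have : {G' : Fin M → Fin N → ℝ | PathPos c (1 - qp ψ) (-dd κ ν ψ) S g G' ∧
        ¬ DetOK κ ν ψ c η₁ h hh G'} = ∅ := by
      ext G'
      simp only [Set.mem_setOf_eq, Set.mem_empty_iff_false, iff_false, not_and]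
      intro hG
      exact absurd ⟨G', hG⟩ hne
    rw [this]
    simp
  obtain ⟨G₀, hG₀⟩ := hne
  have hPP0 : 0 < PP := by
    refine mul_pos (Finset.prod_pos fun i _ => ?_) (Finset.prod_pos fun a _ => ?_)
    · have h1 := hG₀ 0 (Nat.zero_le _) (Pi.single i 1)
      have h2 : qk (1 - qp ψ) (-dd κ ν ψ) S g G₀ 0 (Pi.single i 1) =
          1 + (yk N g 0 - (-dd κ ν ψ)) * S i := by
        unfold qk
        rw [Finset.sum_eq_single i]
        · simp
        · intro j _ hj
          simp [Pi.single_apply, hj]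
        · simp
      have h3 : nsq (Pi.single i (1 : ℝ) : Fin N → ℝ) = 1 := by
        unfold nsq
        rw [Finset.sum_eq_single i]
        · simp
        · intro j _ hj
          simp [Pi.single_apply, hj]
        · simp
      rw [h2, h3, mul_one] at h1
      linarith
    · have h1 : 0 < 1 - (1 - qp ψ) * g a := by linarith [(hg1 a).2]
      positivity
  have hTP : Continuous fun G' : Fin M → Fin N → ℝ => (((h, hh), G') : Tri M N) := by fun_prop
  have hmP : MeasurableSet {G' : Fin M → Fin N → ℝ |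
      PathPos c (1 - qp ψ) (-dd κ ν ψ) S g G'} :=
    ((closed_PathPos (M := M) (N := N) (κ := κ) (ψ := ψ) (c := c) hν).preimage hTP).measurableSet
  have hmX : Measurable fun G' : Fin M → Fin N → ℝ =>
      ENNReal.ofReal (Xk (1 - qp ψ) (-dd κ ν ψ) S g G' M).det :=
    ((cont_Xk (M := M) (N := N) (κ := κ) (ψ := ψ) hν M).comp hTP).measurable.ennreal_ofReal
  have hE0 : 0 < Real.exp (η₁ * N) := Real.exp_pos _
  have hmk := mul_meas_ge_le_lintegral (μ := (GM M N).restrict {G' : Fin M → Fin N → ℝ |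
      PathPos c (1 - qp ψ) (-dd κ ν ψ) S g G'}) hmX (ENNReal.ofReal (Real.exp (η₁ * N) * PP))
  have hsub : (GM M N) {G' | PathPos c (1 - qp ψ) (-dd κ ν ψ) S g G' ∧
      ¬ DetOK κ ν ψ c η₁ h hh G'} ≤ ((GM M N).restrict {G' : Fin M → Fin N → ℝ |
      PathPos c (1 - qp ψ) (-dd κ ν ψ) S g G'}) {G' | ENNReal.ofReal (Real.exp (η₁ * N) * PP) ≤
        ENNReal.ofReal (Xk (1 - qp ψ) (-dd κ ν ψ) S g G' M).det} := by
    rw [Measure.restrict_apply (measurableSet_le measurable_const hmX)]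
    refine measure_mono fun G' hG' => ?_
    obtain ⟨h1, h2⟩ := hG'
    refine ⟨?_, h1⟩
    unfold DetOK at h2
    rw [← hS, ← hg, ← hPP] at h2
    exact ENNReal.ofReal_le_ofReal (not_le.1 h2).le
  refine hsub.trans ?_
  have hm2 := hmk.trans hrow
  have hpos : ENNReal.ofReal (Real.exp (η₁ * N) * PP) ≠ 0 := by
    simp only [ne_eq, ENNReal.ofReal_eq_zero, not_le]
    positivity
  have hdiv := (ENNReal.le_div_iff_mul_le (Or.inl hpos) (Or.inl ENNReal.ofReal_ne_top)).2
    ((mul_comm _ _).trans_le hm2)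
  refine hdiv.trans (le_of_eq ?_)
  rw [← ENNReal.ofReal_div_of_pos (by positivity)]
  congr 1
  rw [Real.exp_neg]
  field_simp

end Pool.Agent.IP49
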