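import Pool.Agent.IP49.VAsm5
import Pool.Agent.IP49.VAsm6
import Pool.Agent.IP49.UTon

/-!
IP49, part U2 (owner helper85): `V(G)` is not small. Notes 1605 (U2), 1615.
-/

set_option autoImplicit false
open MeasureTheory ProbabilityTheory Filter Topology

namespace Pool.Agent.IP49

theorem Yset_anti {κ ν ψ : ℝ} {T1 T2 : List (ℝ → ℝ)} {s s' : ℝ} (hs : s ≤ s') {M N : ℕ}
    {y : (Fin N → ℝ) × (Fin M → ℝ)} (hy : y ∈ Yset κ ν ψ T1 T2 s M N) :
    y ∈ Yset κ ν ψ T1 T2 s' M N :=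
  ⟨fun f hf => (hy.1 f hf).trans hs, fun f hf => (hy.2 f hf).trans hs⟩

/-- a measurable set whose sections over a measurable set are small -/
theorem prod_sec_le {Ω X : Type*} [MeasurableSpace Ω] [MeasurableSpace X] (P : Measure Ω)
    [IsProbabilityMeasure P] (Q : Measure X) [IsProbabilityMeasure Q] {A : Set (Ω × X)}
    (hA : MeasurableSet A) {t : ℝ} (ht : 0 ≤ t)
    (h : ∀ ω, Q (Prod.mk ω ⁻¹' A) ≤ ENNReal.ofReal t) : (P.prod Q).real A ≤ t := by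
  rw [measureReal_def, Measure.prod_apply hA]
  refine ENNReal.toReal_le_of_le_ofReal ht ?_
  calc ∫⁻ ω, Q (Prod.mk ω ⁻¹' A) ∂P ≤ ∫⁻ _, ENNReal.ofReal t ∂P := lintegral_mono h
    _ = ENNReal.ofReal t := by simp

/-- `V(G) ≥ exp N(|d|(1-q) - η)` with probability tending to one, for every fixed small `ε` -/
theorem VV_lower {κ ν ψ : ℝ} (hν : 0 < ν) (hψ : 0 < ψ) (hAT : AT κ ν ψ < 1)
    (hS : SOut κ ν ψ) (T1 T2 : List (ℝ → ℝ)) (hT1 : ∀ f ∈ T1, PL f) (hT2 : ∀ f ∈ T2, PL f)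
    {dl : ℝ} (hdl : 0 < dl) {η : ℝ} (hη : 0 < η) :
    ∃ ε₀ : ℝ, 0 < ε₀ ∧ ∀ ε : ℝ, 0 < ε → ε < ε₀ → Tendsto (fun N : ℕ =>
      (GM ⌊al κ ν ψ * N⌋₊ N).real {G | VV κ ν ψ ε T1 T2 dl G <
        ENNReal.ofReal (Real.exp ((-dd κ ν ψ * (1 - qp ψ) - η) * N))})
      atTop (𝓝 0) := by
  obtain ⟨C, hC⟩ := hS
  have hq1 : qp ψ < 1 := qp_lt_one
  have hα : 0 < al κ ν ψ := al_pos hν.le hψ
  have hD : 0 < -dd κ ν ψ := by linarith [dd_neg (κ := κ) hν.le hψ]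
  have hb : 0 < 1 - qp ψ := by linarith
  have hbν : 0 < 1 - qp ψ + ν := by linarith
  have hR : 0 ≤ al κ ν ψ * (GE fun x => gf κ ν (qp ψ) (Real.sqrt (qp ψ) * x) ^ 2) :=
    mul_nonneg hα.le (GE_nonneg fun x => sq_nonneg _)
  have hs2 : 0 ≤ ES2 ψ := GE_nonneg fun x => sq_nonneg _
  obtain ⟨c, hc, hpath⟩ := path_pos (b := 1 - qp ψ) (D := -dd κ ν ψ)
    (R := al κ ν ψ * (GE fun x => gf κ ν (qp ψ) (Real.sqrt (qp ψ) * x) ^ 2)) (s2 := ES2 ψ)
    (G0 := 1 / (1 - qp ψ + ν)) (C0 := al κ ν ψ) hb hD hR hs2 hAT (by positivity)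
    (by rw [mul_one_div, div_lt_one hbν]; linarith) hα
  obtain ⟨s₁, hs₁, ε₀, hε₀, hcore⟩ := det_core (κ := κ) (c := c) (C := C) hν hψ hc T1 T2 hT1 hT2
    hdl hη
  refine ⟨ε₀, hε₀, fun ε hε hεε => ?_⟩
  obtain ⟨e₀, he₀, hcore⟩ := hcore ε hε hεε
  refine tendsto_order.2 ⟨fun a ha => Eventually.of_forall fun N =>
    ha.trans_le measureReal_nonneg, fun a ha => ?_⟩
  have ha8 : 0 < a / 8 := by positivity
  obtain ⟨ηp, hηp, N₀, hpath⟩ := hpath (a / 8) ha8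
  set s : ℝ := min s₁ (min ηp 1) with hs
  have hs0 : 0 < s := by positivity
  have hs1 : s ≤ s₁ := min_le_left _ _
  have hs2' : s ≤ ηp := (min_le_right _ _).trans (min_le_left _ _)
  have hs3 : s ≤ 1 := (min_le_right _ _).trans (min_le_right _ _)
  have htyp := typ_prob (κ := κ) hν hψ T1 T2 hT1 hT2 hs0 ha8
  obtain ⟨CK, hSO⟩ := hC (min e₀ (a / 8)) (by positivity)
  have hexp : ∀ᶠ N : ℕ in atTop, Real.exp (-(η / 8 * N)) ≤ a / 8 := by
    have h1 : Tendsto (fun N : ℕ => -(η / 8 * (N : ℝ))) atTop atBot :=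
      tendsto_neg_atTop_atBot.comp
        (tendsto_natCast_atTop_atTop.const_mul_atTop (by positivity))
    exact (Real.tendsto_exp_atBot.comp h1).eventually_le_const ha8
  have hgN : ∀ᶠ N : ℕ in atTop, 1 / (1 - qp ψ + ν) / (N : ℝ) ≤ c / 2 := by
    have h1 : Tendsto (fun N : ℕ => 1 / (1 - qp ψ + ν) / (N : ℝ)) atTop (𝓝 0) :=
      tendsto_const_div_atTop_nhds_zero_nat _
    exact h1.eventually_le_const (by positivity)
  filter_upwards [hcore CK, htyp, hSO, hexp, hgN, eventually_ge_atTop N₀,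
    eventually_gt_atTop 0] with N hcore htyp hSO hexp hgN hN₀ hN
  have hN' : (0 : ℝ) < N := Nat.cast_pos.2 hN
  have hM : (⌊al κ ν ψ * N⌋₊ : ℝ) ≤ al κ ν ψ * N := Nat.floor_le (by positivity)
  generalize ⌊al κ ν ψ * (N : ℝ)⌋₊ = M at htyp hSO hM ⊢
  obtain ⟨Ω, mΩ, P, hP, h, hh, GR, hm1, hm2, hm3, hl1, hl2, hmap, hbad⟩ := hSO
  have htyp := htyp Ω mΩ P hP h hh hm1 hm2 hl1 hl2
  have hcore := hcore M hM
  have hGP : IsProbabilityMeasure (GM M N) := by unfold GM; infer_instance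
  have hvm := VV_measurable (κ := κ) (ν := ν) (ψ := ψ) (ε := ε) T1 T2 hT1 hT2 dl M N
  set v : ENNReal := ENNReal.ofReal (Real.exp ((-dd κ ν ψ * (1 - qp ψ) - η) * N)) with hv
  have hAm : MeasurableSet {G : Fin M → Fin N → ℝ | VV κ ν ψ ε T1 T2 dl G < v} :=
    measurableSet_lt hvm measurable_const
  have hpull : (GM M N).real {G | VV κ ν ψ ε T1 T2 dl G < v} =
      (P.prod (GM M N)).real {p | VV κ ν ψ ε T1 T2 dl (GR p) < v} := by
    have h1 : (GM M N).real {G | VV κ ν ψ ε T1 T2 dl G < v} =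
        ((P.prod (GM M N)).map GR).real {G | VV κ ν ψ ε T1 T2 dl G < v} := by rw [hmap]
    rw [h1, measureReal_def, Measure.map_apply hm3 hAm]
    rfl
  rw [hpull]
  -- the four bad events
  have hY : MeasurableSet {y : (Fin N → ℝ) × (Fin M → ℝ) |
      y ∈ Yset κ ν ψ (T1x T1) (T2x κ ν ψ T2) s M N} :=
    Yset_measurable (T1x_pl hT1) (T2x_pl hν.le hT2) s M N
  have htri : Measurable fun p : Ω × (Fin M → Fin N → ℝ) =>
      (((h p.1, hh p.1), p.2) : Tri M N) :=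
    ((hm1.comp measurable_fst).prodMk (hm2.comp measurable_fst)).prodMk measurable_snd
  set A1 : Set (Ω × (Fin M → Fin N → ℝ)) := {p | ¬ (
        Rsq κ ν ψ (GR p) (h p.1, hh p.1) ≤ min e₀ (a / 8) * N ∧
        ∑ a, ∑ i, (GR p a i - p.2 a i) ^ 2 ≤ CK * N ∧ OpB C (GR p) ∧ OpB C p.2)} with hA1
  set A2 : Set (Ω × (Fin M → Fin N → ℝ)) := {ω | (h ω, hh ω) ∉
    Yset κ ν ψ (T1x T1) (T2x κ ν ψ T2) s M N} ×ˢ Set.univ with hA2
  set A3 : Set (Ω × (Fin M → Fin N → ℝ)) := {p | (h p.1, hh p.1) ∈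
    Yset κ ν ψ (T1x T1) (T2x κ ν ψ T2) s M N ∧ ¬ PathPos c (1 - qp ψ) (-dd κ ν ψ)
      (Sv (yy (h p.1) (hh p.1))) (gv κ ν ψ (yy (h p.1) (hh p.1))) p.2} with hA3
  set A4 : Set (Ω × (Fin M → Fin N → ℝ)) := {p | PathPos c (1 - qp ψ) (-dd κ ν ψ)
      (Sv (yy (h p.1) (hh p.1))) (gv κ ν ψ (yy (h p.1) (hh p.1))) p.2 ∧
      ¬ DetOK κ ν ψ c (η / 8) (h p.1) (hh p.1) p.2} with hA4
  have hmPP : MeasurableSet {p : Ω × (Fin M → Fin N → ℝ) | PathPos c (1 - qp ψ) (-dd κ ν ψ)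
      (Sv (yy (h p.1) (hh p.1))) (gv κ ν ψ (yy (h p.1) (hh p.1))) p.2} :=
    htri (closed_PathPos (M := M) (N := N) (κ := κ) (ψ := ψ) (c := c) hν).measurableSet
  have hmDD : MeasurableSet {p : Ω × (Fin M → Fin N → ℝ) |
      DetOK κ ν ψ c (η / 8) (h p.1) (hh p.1) p.2} :=
    htri (closed_DetOK (M := M) (N := N) (κ := κ) (ψ := ψ) (c := c) hν (η / 8)).measurableSet
  have hmYY : MeasurableSet {p : Ω × (Fin M → Fin N → ℝ) | (h p.1, hh p.1) ∈
      Yset κ ν ψ (T1x T1) (T2x κ ν ψ T2) s M N} :=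
    ((hm1.comp measurable_fst).prodMk (hm2.comp measurable_fst)) hY
  have hA3m : MeasurableSet A3 := hmYY.inter hmPP.compl
  have hA4m : MeasurableSet A4 := hmPP.inter hmDD.compl
  have hb1 : (P.prod (GM M N)).real A1 ≤ a / 8 := hbad.trans (min_le_right _ _)
  have hb2 : (P.prod (GM M N)).real A2 ≤ a / 8 := by
    rw [hA2, measureReal_def, Measure.prod_prod, measure_univ, mul_one]
    exact htyp
  have hb3 : (P.prod (GM M N)).real A3 ≤ a / 8 := by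
    refine prod_sec_le P (GM M N) hA3m ha8.le fun ω => ?_
    by_cases hω : (h ω, hh ω) ∈ Yset κ ν ψ (T1x T1) (T2x κ ν ψ T2) s M N
    · obtain ⟨-, -, t3, t4, t5, t6⟩ := typ_facts hν hψ hs3 hN hω
      have h1 := hpath N hN₀ M hM (Sv (yy (h ω) (hh ω))) (gv κ ν ψ (yy (h ω) (hh ω)))
        (Sv_bd _) (fun a => ⟨(gv_bd (κ := κ) (ψ := ψ) hν _ a).1, (gv_bd (κ := κ) (ψ := ψ) hν _ a).2.1⟩)
        (t3.trans hs2') (t4.trans (by linarith)) (t5.trans (by linarith)) (t6.trans (by linarith))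
      have h2 : (Prod.mk ω ⁻¹' A3) ⊆ {G | ¬ PathPos c (1 - qp ψ) (-dd κ ν ψ)
          (Sv (yy (h ω) (hh ω))) (gv κ ν ψ (yy (h ω) (hh ω))) G} := fun G hG => hG.2
      refine (measure_mono h2).trans ?_
      rw [measureReal_def] at h1
      exact (ENNReal.le_ofReal_iff_toReal_le (measure_ne_top _ _) ha8.le).2 h1
    · have h2 : (Prod.mk ω ⁻¹' A3) = ∅ := by
        ext G
        simp only [hA3, Set.mem_preimage, Set.mem_setOf_eq, Set.mem_empty_iff_false, iff_false,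
          not_and]
        intro h3
        exact absurd h3 hω
      rw [h2]
      simp
  have hb4 : (P.prod (GM M N)).real A4 ≤ a / 8 := by
    refine prod_sec_le P (GM M N) hA4m ha8.le fun ω => ?_
    have h1 := det_prob (κ := κ) (η₁ := η / 8) hν hc hN hgN (h ω) (hh ω)
    refine le_trans ?_ (h1.trans (ENNReal.ofReal_le_ofReal hexp))
    exact measure_mono fun G hG => hG
  have hsub : {p : Ω × (Fin M → Fin N → ℝ) | VV κ ν ψ ε T1 T2 dl (GR p) < v} ⊆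
      (A1 ∪ A2) ∪ (A3 ∪ A4) := by
    intro p hp
    by_contra hcon
    simp only [Set.mem_union, not_or] at hcon
    obtain ⟨⟨h1, h2⟩, h3, h4⟩ := hcon
    have h1' := not_not.1 h1
    obtain ⟨r1, r2, r3, r4⟩ := h1'
    have hyy : (h p.1, hh p.1) ∈ Yset κ ν ψ (T1x T1) (T2x κ ν ψ T2) s M N := by
      by_contra hyy
      exact h2 ⟨hyy, Set.mem_univ _⟩
    have hpp : PathPos c (1 - qp ψ) (-dd κ ν ψ) (Sv (yy (h p.1) (hh p.1)))
        (gv κ ν ψ (yy (h p.1) (hh p.1))) p.2 := by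
      by_contra hpp
      exact h3 ⟨hyy, hpp⟩
    have hdd : DetOK κ ν ψ c (η / 8) (h p.1) (hh p.1) p.2 := by
      by_contra hdd
      exact h4 ⟨hpp, hdd⟩
    have hres := hcore (GR p) p.2 (h p.1) (hh p.1) (Yset_anti hs1 hyy)
      (r1.trans (mul_le_mul_of_nonneg_right (min_le_left _ _) hN'.le)) r2 r3 r4 hpp hdd
    exact absurd hp (not_lt.2 hres)
  calc (P.prod (GM M N)).real {p | VV κ ν ψ ε T1 T2 dl (GR p) < v}
      ≤ (P.prod (GM M N)).real ((A1 ∪ A2) ∪ (A3 ∪ A4)) :=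
        measureReal_mono hsub (measure_ne_top _ _)
    _ ≤ ((P.prod (GM M N)).real A1 + (P.prod (GM M N)).real A2) +
        ((P.prod (GM M N)).real A3 + (P.prod (GM M N)).real A4) :=
        (measureReal_union_le _ _).trans
          (add_le_add (measureReal_union_le _ _) (measureReal_union_le _ _))
    _ ≤ (a / 8 + a / 8) + (a / 8 + a / 8) := by linarith
    _ < a := by linarith

end Pool.Agent.IP49
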