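import Pool.Agent.IP49.UTon
import Pool.Agent.IP49.VFin

/-!
IP49, part U: `U_main` from the first moment `VZ_upper`, the lower bound `VV_lower` and the
output `SOut` of part S.

PROOF. Let `η' = η/4`. `VZ_upper` (`η'`) gives `T1, T2, dl, δ, ε₁`; `VV_lower` (same lists, `dl`,
`η'`) gives `ε₀`; fix `ε = min ε₀ ε₁ / 2`. For `N` large
`P(exp((η₁+η)N) ≤ cnt) ≤ P(VV < exp((|d|b - η')N)) + P(exp((|d|b-η')N) exp((η₁+η)N) ≤ VV cnt)`,
the second by Markov (`meas_ge_le_lintegral_div`) `≤ exp((|d|b + η₁ + η')N - (|d|b - η' + η₁ + η)N)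
= exp(-2η'N) → 0`.
-/

set_option autoImplicit false
open MeasureTheory ProbabilityTheory Filter Topology

namespace Pool.Agent.IP49

open SR

private theorem cnt_measurable (κ δ : ℝ) {M N : ℕ} :
    Measurable (fun G : Fin M → Fin N → ℝ => (cntNear κ δ G : ENNReal)) := by
  classical
  have h : (fun G : Fin M → Fin N → ℝ => (cntNear κ δ G : ENNReal)) =
      fun G => ∑ w : Fin N → Bool, if Near κ δ G w then (1 : ENNReal) else 0 := by
    funext G
    rw [cntNear, Finset.card_filter, Nat.cast_sum]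
    refine Finset.sum_congr rfl fun w _ => ?_
    split_ifs <;> simp
  rw [h]
  exact Finset.measurable_sum _ fun w _ =>
    Measurable.ite (Near_measurable κ δ w) measurable_const measurable_const

theorem U_main_of_SOut {κ ν ψ : ℝ} (hν : 0 < ν) (hψ : 0 < ψ) (hAT : AT κ ν ψ < 1)
    (hS : SOut κ ν ψ) {η₁ : ℝ} (hU : UStar κ ν ψ η₁) {η : ℝ} (hη : 0 < η) :
    ∃ δ : ℝ, 0 < δ ∧ Tendsto (fun N : ℕ =>
      (GM ⌊al κ ν ψ * N⌋₊ N).real {A | Real.exp ((η₁ + η) * N) ≤ (cntNear κ δ A : ℝ)})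
      atTop (𝓝 0) := by
  classical
  have hη' : 0 < η / 4 := by positivity
  obtain ⟨T1, T2, hT1, hT2, dl, hdl, δ, hδ, ε₁, hε₁, H1⟩ := VZ_upper hν hψ hU hη'
  obtain ⟨ε₀, hε₀, H0⟩ := VV_lower hν hψ hAT hS T1 T2 hT1 hT2 hdl hη'
  have hm : 0 < min ε₀ ε₁ := lt_min hε₀ hε₁
  have hε : 0 < min ε₀ ε₁ / 2 := by positivity
  have h0 := H0 (min ε₀ ε₁ / 2) hε (by linarith [min_le_left ε₀ ε₁])
  have h1 := H1 (min ε₀ ε₁ / 2) hε (by linarith [min_le_right ε₀ ε₁])
  refine ⟨δ, hδ, ?_⟩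
  have h2 : Tendsto (fun N : ℕ => Real.exp (-(η / 2) * N)) atTop (𝓝 0) := by
    have h3 : Tendsto (fun N : ℕ => -(η / 2) * (N : ℝ)) atTop atBot :=
      (tendsto_natCast_atTop_atTop).const_mul_atTop_of_neg (by linarith)
    exact Real.tendsto_exp_atBot.comp h3
  have h3 := h0.add h2
  rw [add_zero] at h3
  refine squeeze_zero' (Eventually.of_forall fun N => measureReal_nonneg) ?_ h3
  filter_upwards [h1] with N hN
  haveI : IsProbabilityMeasure (GM ⌊al κ ν ψ * N⌋₊ N) := by unfold GM; infer_instance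
  set μ := GM ⌊al κ ν ψ * N⌋₊ N with hμ
  set D := -dd κ ν ψ * (1 - qp ψ) with hD
  set B : Set (Fin ⌊al κ ν ψ * N⌋₊ → Fin N → ℝ) :=
    {G | ENNReal.ofReal (Real.exp ((D - η / 4 + (η₁ + η)) * N)) ≤
      VV κ ν ψ (min ε₀ ε₁ / 2) T1 T2 dl G * (cntNear κ δ G : ENNReal)} with hB
  have hsub : {A : Fin ⌊al κ ν ψ * N⌋₊ → Fin N → ℝ |
      Real.exp ((η₁ + η) * N) ≤ (cntNear κ δ A : ℝ)} ⊆
      {G | VV κ ν ψ (min ε₀ ε₁ / 2) T1 T2 dl G <
        ENNReal.ofReal (Real.exp ((D - η / 4) * N))} ∪ B := by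
    intro G hG
    by_cases hlt : VV κ ν ψ (min ε₀ ε₁ / 2) T1 T2 dl G <
        ENNReal.ofReal (Real.exp ((D - η / 4) * N))
    · exact Or.inl hlt
    · right
      rw [not_lt] at hlt
      change ENNReal.ofReal (Real.exp ((D - η / 4 + (η₁ + η)) * N)) ≤ _
      rw [add_mul, Real.exp_add, ENNReal.ofReal_mul (Real.exp_pos _).le]
      refine mul_le_mul' hlt ?_
      have h5 : Real.exp ((η₁ + η) * N) ≤ (cntNear κ δ G : ℝ) := hG
      calc ENNReal.ofReal (Real.exp ((η₁ + η) * N)) ≤ ENNReal.ofReal (cntNear κ δ G : ℝ) :=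
            ENNReal.ofReal_le_ofReal h5
        _ = (cntNear κ δ G : ENNReal) := ENNReal.ofReal_natCast _
  have hBm : μ B ≤ ENNReal.ofReal (Real.exp (-(η / 2) * N)) := by
    have h6 : ENNReal.ofReal (Real.exp ((D - η / 4 + (η₁ + η)) * N)) * μ B ≤
        ∫⁻ G, VV κ ν ψ (min ε₀ ε₁ / 2) T1 T2 dl G * (cntNear κ δ G : ENNReal) ∂μ :=
      mul_meas_ge_le_lintegral₀
        ((VV_measurable T1 T2 hT1 hT2 dl _ N).mul (cnt_measurable κ δ)).aemeasurable _
    have h7 := h6.trans hN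
    have h8 : ENNReal.ofReal (Real.exp ((D + η₁ + η / 4) * N)) =
        ENNReal.ofReal (Real.exp ((D - η / 4 + (η₁ + η)) * N)) *
          ENNReal.ofReal (Real.exp (-(η / 2) * N)) := by
      rw [← ENNReal.ofReal_mul (Real.exp_pos _).le, ← Real.exp_add]
      congr 2
      ring
    rw [h8] at h7
    exact (ENNReal.mul_le_mul_iff_right
      (by rw [Ne, ENNReal.ofReal_eq_zero, not_le]; exact Real.exp_pos _)
      ENNReal.ofReal_ne_top).1 h7
  have hBr : μ.real B ≤ Real.exp (-(η / 2) * N) :=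
    ENNReal.toReal_le_of_le_ofReal (Real.exp_pos _).le hBm
  calc μ.real _ ≤ μ.real _ := measureReal_mono hsub
    _ ≤ μ.real _ + μ.real B := measureReal_union_le _ _
    _ ≤ _ := add_le_add le_rfl hBr

end Pool.Agent.IP49
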