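import Pool.Agent.IP49.UDefs

/-!
IP49, part U1: pathwise decomposition for `G = rowStep c y (colStep r x H)`, `c = n/|n|`,
`r = m/|m|`; pure algebra.

PROOFS. Let `c a = n a/|n|`, `r i = m i/|m|`, `|n| = √(nsq n)`, `|m| = √(nsq m)`.
`G a i = y i * c a + (A a i - (∑ b, A b i * c b) * c a)`, `A a i = x a * r i + (H a i - (∑ j, H a j * r j) * r i)`.
(1) `∑ a, G a i * n a = |n| * y i`: `∑ c a n a = |n|`, `∑_a A a i n a = |n| ∑_b A b i c b`.
(2) `∑ i, G a i * m i = (∑ y i m i) c a + |m| (x a - (∑ x b c b) c a)`: `∑_i A a i m i = |m| x a`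
since `∑_j H a j r j * ∑_i r i m i = ∑_j H a j m j`.
(3) for `u ⊥ m`: `∑ i, G a i * u i = (∑ y i u i) c a + (dt (H a) u - (∑_b dt (H b) u * c b) c a)`.
Then with `sgn w = ρ m + wp`, `wp ⊥ m` (`m ≠ 0`), and `y i = √N (R1 i + h i + d m i)/|n|`:
`yv G w a = ρ (hh a + b n a + R2 a) + (<R1,wp> + <h,wp>)/|n|² n a + (dt (H a) wp - ..)/√N`.
Error: `∑ (ρ R2 + (<R1,wp>/|n|²) n)² ≤ 2 ρ² |R2|² + 2 <R1,wp>²/|n|²`, Cauchy-Schwarz:
`ρ² ≤ N/|m|²` (`<m,w>² ≤ |m|² N`), `<R1,wp>² ≤ |R1|² |wp|²`, `|wp|² = N - <m,w>²/|m|² ≤ N`.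
`near_core`: `max 0 (κ - core) ≤ max 0 (κ - yv) + |err|`, `(a+b)² ≤ 2a² + 2b²`.
-/

set_option autoImplicit false
open MeasureTheory ProbabilityTheory Filter Topology

namespace Pool.Agent.IP49

open SR

/-- the assembled matrix -/
noncomputable def asmG {M N : ℕ} (m : Fin N → ℝ) (n : Fin M → ℝ)
    (q : ((Fin N → ℝ) × (Fin M → ℝ)) × (Fin M → Fin N → ℝ)) : Fin M → Fin N → ℝ :=
  rowStep (fun a => n a / Real.sqrt (nsq n)) q.1.1
    (colStep (fun i => m i / Real.sqrt (nsq m)) q.1.2 q.2)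

private theorem sumsq_div {ι : Type*} [Fintype ι] (n : ι → ℝ) (hn : 0 < nsq n) :
    ∑ a, (n a / Real.sqrt (nsq n)) ^ 2 = 1 := by
  have h1 : ∀ a, (n a / Real.sqrt (nsq n)) ^ 2 = n a ^ 2 / nsq n := by
    intro a
    rw [div_pow, Real.sq_sqrt hn.le]
  simp_rw [h1]
  rw [← Finset.sum_div]
  exact div_self hn.ne'

private theorem sum_div_mul {ι : Type*} [Fintype ι] (n : ι → ℝ) (hn : 0 < nsq n) :
    ∑ a, (n a / Real.sqrt (nsq n)) * n a = Real.sqrt (nsq n) := by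
  have hs : Real.sqrt (nsq n) ≠ 0 := (Real.sqrt_pos.mpr hn).ne'
  have h1 : ∀ a, (n a / Real.sqrt (nsq n)) * n a = n a ^ 2 / Real.sqrt (nsq n) := by
    intro a
    ring
  simp_rw [h1]
  rw [← Finset.sum_div]
  have h2 : ∑ a, n a ^ 2 = Real.sqrt (nsq n) * Real.sqrt (nsq n) :=
    (Real.mul_self_sqrt hn.le).symm
  rw [h2]
  field_simp

private theorem sum_mul_self_scale {ι : Type*} [Fintype ι] (n : ι → ℝ) (hn : 0 < nsq n)
    (A : ι → ℝ) :
    ∑ a, A a * n a = (∑ a, A a * (n a / Real.sqrt (nsq n))) * Real.sqrt (nsq n) := by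
  have hs : Real.sqrt (nsq n) ≠ 0 := (Real.sqrt_pos.mpr hn).ne'
  rw [Finset.sum_mul]
  refine Finset.sum_congr rfl fun a _ => ?_
  field_simp

theorem asmG_law {M N : ℕ} (m : Fin N → ℝ) (n : Fin M → ℝ) (hm : 0 < nsq m) (hn : 0 < nsq n) :
    MeasurePreserving (asmG m n)
      (((gv (Fin N)).prod (gv (Fin M))).prod (gm (Fin M) (Fin N))) (gm (Fin M) (Fin N)) := by
  have h1 := measurePreserving_prodAssoc (gv (Fin N)) (gv (Fin M)) (gm (Fin M) (Fin N))
  have h2 := colStep_law (ι := Fin M) (fun i => m i / Real.sqrt (nsq m)) (sumsq_div m hm)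
  have h3 := rowStep_law (κ := Fin N) (fun a => n a / Real.sqrt (nsq n)) (sumsq_div n hn)
  have h4 := (MeasurePreserving.id (gv (Fin N))).prod h2
  exact h3.comp (h4.comp h1)

theorem asmG_trans {M N : ℕ} (m : Fin N → ℝ) (n : Fin M → ℝ) (hn : 0 < nsq n)
    (q : ((Fin N → ℝ) × (Fin M → ℝ)) × (Fin M → Fin N → ℝ)) (i : Fin N) :
    ∑ a, asmG m n q a i * n a = Real.sqrt (nsq n) * q.1.1 i := by
  unfold asmG rowStep
  set A := colStep (fun i => m i / Real.sqrt (nsq m)) q.1.2 q.2 with hA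
  have h1 : ∀ a, (q.1.1 i * (n a / Real.sqrt (nsq n)) + (A a i
      - (∑ b, A b i * (n b / Real.sqrt (nsq n))) * (n a / Real.sqrt (nsq n)))) * n a
      = q.1.1 i * ((n a / Real.sqrt (nsq n)) * n a) + A a i * n a
        - (∑ b, A b i * (n b / Real.sqrt (nsq n))) * ((n a / Real.sqrt (nsq n)) * n a) := by
    intro a
    ring
  simp_rw [h1]
  rw [Finset.sum_sub_distrib, Finset.sum_add_distrib, ← Finset.mul_sum, ← Finset.mul_sum,
    sum_div_mul n hn, sum_mul_self_scale n hn (fun a => A a i)]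
  ring

private theorem asmG_apply_vec {M N : ℕ} (m : Fin N → ℝ) (n : Fin M → ℝ)
    (q : ((Fin N → ℝ) × (Fin M → ℝ)) × (Fin M → Fin N → ℝ)) (u : Fin N → ℝ) (a : Fin M) :
    ∑ i, asmG m n q a i * u i = dt q.1.1 u * (n a / Real.sqrt (nsq n))
      + (∑ i, colStep (fun i => m i / Real.sqrt (nsq m)) q.1.2 q.2 a i * u i
        - (∑ e, (∑ i, colStep (fun i => m i / Real.sqrt (nsq m)) q.1.2 q.2 e i * u i)
          * (n e / Real.sqrt (nsq n))) * (n a / Real.sqrt (nsq n))) := by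
  unfold asmG rowStep dt
  set A := colStep (fun i => m i / Real.sqrt (nsq m)) q.1.2 q.2 with hA
  have h1 : ∀ i, (q.1.1 i * (n a / Real.sqrt (nsq n)) + (A a i
      - (∑ b, A b i * (n b / Real.sqrt (nsq n))) * (n a / Real.sqrt (nsq n)))) * u i
      = (q.1.1 i * u i) * (n a / Real.sqrt (nsq n)) + A a i * u i
        - (∑ b, (A b i * u i) * (n b / Real.sqrt (nsq n))) * (n a / Real.sqrt (nsq n)) := by
    intro i
    have h2 : ∑ b, (A b i * u i) * (n b / Real.sqrt (nsq n))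
        = (∑ b, A b i * (n b / Real.sqrt (nsq n))) * u i := by
      rw [Finset.sum_mul]
      refine Finset.sum_congr rfl fun b _ => ?_
      ring
    rw [h2]
    ring
  simp_rw [h1]
  rw [Finset.sum_sub_distrib, Finset.sum_add_distrib, ← Finset.sum_mul, ← Finset.sum_mul,
    Finset.sum_comm]
  simp_rw [← Finset.sum_mul]
  ring

private theorem colStep_vec {M N : ℕ} (r : Fin N → ℝ) (x : Fin M → ℝ) (H : Fin M → Fin N → ℝ)
    (u : Fin N → ℝ) (a : Fin M) :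
    ∑ i, colStep r x H a i * u i = x a * dt r u + (dt (H a) u - dt (H a) r * dt r u) := by
  unfold colStep dt
  have h1 : ∀ i, (x a * r i + (H a i - (∑ j, H a j * r j) * r i)) * u i
      = x a * (r i * u i) + H a i * u i - (∑ j, H a j * r j) * (r i * u i) := by
    intro i
    ring
  simp_rw [h1]
  rw [Finset.sum_sub_distrib, Finset.sum_add_distrib, ← Finset.mul_sum, ← Finset.mul_sum]
  ring

theorem asmG_mul {M N : ℕ} (m : Fin N → ℝ) (n : Fin M → ℝ) (hm : 0 < nsq m)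
    (q : ((Fin N → ℝ) × (Fin M → ℝ)) × (Fin M → Fin N → ℝ)) (a : Fin M) :
    ∑ i, asmG m n q a i * m i = dt q.1.1 m * (n a / Real.sqrt (nsq n))
      + Real.sqrt (nsq m) * (q.1.2 a - (∑ e, q.1.2 e * (n e / Real.sqrt (nsq n)))
        * (n a / Real.sqrt (nsq n))) := by
  rw [asmG_apply_vec]
  have h1 : ∀ e, ∑ i, colStep (fun i => m i / Real.sqrt (nsq m)) q.1.2 q.2 e i * m i
      = Real.sqrt (nsq m) * q.1.2 e := by
    intro e
    rw [colStep_vec]
    have h2 : dt (fun i => m i / Real.sqrt (nsq m)) m = Real.sqrt (nsq m) := sum_div_mul m hm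
    have h3 : dt (q.2 e) m
        = dt (q.2 e) (fun i => m i / Real.sqrt (nsq m)) * Real.sqrt (nsq m) :=
      sum_mul_self_scale m hm (q.2 e)
    rw [h2, h3]
    ring
  simp_rw [h1]
  have h4 : ∑ e, Real.sqrt (nsq m) * q.1.2 e * (n e / Real.sqrt (nsq n))
      = Real.sqrt (nsq m) * ∑ e, q.1.2 e * (n e / Real.sqrt (nsq n)) := by
    rw [Finset.mul_sum]
    refine Finset.sum_congr rfl fun e _ => ?_
    ring
  rw [h4]
  ring

private theorem asmG_perp {M N : ℕ} (m : Fin N → ℝ) (n : Fin M → ℝ)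
    (q : ((Fin N → ℝ) × (Fin M → ℝ)) × (Fin M → Fin N → ℝ)) (u : Fin N → ℝ) (hu : dt m u = 0)
    (a : Fin M) :
    ∑ i, asmG m n q a i * u i = dt q.1.1 u * (n a / Real.sqrt (nsq n))
      + (dt (q.2 a) u - (∑ e, dt (q.2 e) u * (n e / Real.sqrt (nsq n)))
        * (n a / Real.sqrt (nsq n))) := by
  rw [asmG_apply_vec]
  have h1 : ∀ e, ∑ i, colStep (fun i => m i / Real.sqrt (nsq m)) q.1.2 q.2 e i * u i
      = dt (q.2 e) u := by
    intro e
    rw [colStep_vec]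
    have h2 : dt (fun i => m i / Real.sqrt (nsq m)) u = 0 := by
      have h3 : dt (fun i => m i / Real.sqrt (nsq m)) u = dt m u / Real.sqrt (nsq m) := by
        unfold dt
        rw [Finset.sum_div]
        refine Finset.sum_congr rfl fun i _ => ?_
        ring
      rw [h3, hu, zero_div]
    rw [h2]
    ring
  simp_rw [h1]

theorem dt_wp {N : ℕ} (m : Fin N → ℝ) (hm : 0 < nsq m) (w : Fin N → Bool) :
    dt m (wp m w) = 0 := by
  have h1 : dt m (wp m w) = dt m (fun i => sgn (w i)) - rhw m w * nsq m := by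
    unfold dt wp nsq
    rw [Finset.mul_sum, ← Finset.sum_sub_distrib]
    refine Finset.sum_congr rfl fun i _ => ?_
    ring
  rw [h1]
  unfold rhw
  rw [div_mul_cancel₀ _ hm.ne', sub_self]

private theorem sgn_sq (b : Bool) : sgn b ^ 2 = 1 := by
  unfold sgn
  split_ifs <;> norm_num

private theorem nsq_sgn {N : ℕ} (w : Fin N → Bool) : nsq (fun i => sgn (w i)) = N := by
  unfold nsq
  simp [sgn_sq]

theorem nsq_wp {N : ℕ} (m : Fin N → ℝ) (hm : 0 < nsq m) (w : Fin N → Bool) :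
    nsq (wp m w) = N - rhw m w ^ 2 * nsq m := by
  have h1 : nsq (wp m w) = nsq (fun i => sgn (w i)) - 2 * rhw m w * dt m (fun i => sgn (w i))
      + rhw m w ^ 2 * nsq m := by
    unfold nsq wp dt
    rw [Finset.mul_sum, Finset.mul_sum, ← Finset.sum_sub_distrib, ← Finset.sum_add_distrib]
    refine Finset.sum_congr rfl fun i _ => ?_
    ring
  have h2 : dt m (fun i => sgn (w i)) = rhw m w * nsq m := by
    unfold rhw
    rw [div_mul_cancel₀ _ hm.ne']
  rw [h1, h2, nsq_sgn]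
  ring

private theorem nsq_nonneg' {ι : Type*} [Fintype ι] (x : ι → ℝ) : 0 ≤ nsq x :=
  Finset.sum_nonneg fun _ _ => sq_nonneg _

theorem rhw_sq_le {N : ℕ} (m : Fin N → ℝ) (hm : 0 < nsq m) (w : Fin N → Bool) :
    rhw m w ^ 2 * nsq m ≤ N := by
  have h1 := nsq_nonneg' (wp m w)
  rw [nsq_wp m hm w] at h1
  linarith

private theorem dt_sq_le {ι : Type*} [Fintype ι] (x y : ι → ℝ) :
    dt x y ^ 2 ≤ nsq x * nsq y :=
  Finset.sum_mul_sq_le_sq_mul_sq _ _ _

private theorem alg1 (D x s t : ℝ) (hs : s ≠ 0) (hst : s ^ 2 = t) :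
    D / s * (x / s) = D / t * x := by
  subst hst
  field_simp

private theorem alg2 (R D x s t : ℝ) (hR : R ≠ 0) (hs : s ≠ 0) (hst : s ^ 2 = t) :
    R / s * D * (x / s) / R = D / t * x := by
  subst hst
  field_simp

/-- exact decomposition of `y_a(w)` -/
private theorem yv_eq {κ ν ψ : ℝ} {M N : ℕ} (h : Fin N → ℝ) (hh : Fin M → ℝ) (hN : 0 < N)
    (hm : 0 < nsq (mh h)) (hn : 0 < nsq (nh κ ν ψ hh)) (w : Fin N → Bool)
    (q : ((Fin N → ℝ) × (Fin M → ℝ)) × (Fin M → Fin N → ℝ)) (a : Fin M) :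
    yv (asmG (mh h) (nh κ ν ψ hh) q) w a
      = core (1 - qp ψ) h (mh h) hh (nh κ ν ψ hh) w q.2 a
        + (rhw (mh h) w * R2 κ ν ψ (asmG (mh h) (nh κ ν ψ hh) q) (h, hh) a
          + dt (R1 κ ν ψ (asmG (mh h) (nh κ ν ψ hh) q) (h, hh)) (wp (mh h) w)
            / nsq (nh κ ν ψ hh) * nh κ ν ψ hh a) := by
  set m := mh h with hmdef
  set n := nh κ ν ψ hh with hndef
  set G := asmG m n q with hG
  have hNr : (0 : ℝ) < N := by exact_mod_cast hN
  have hsN : Real.sqrt (N : ℝ) ≠ 0 := (Real.sqrt_pos.mpr hNr).ne'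
  have hsn : Real.sqrt (nsq n) ≠ 0 := (Real.sqrt_pos.mpr hn).ne'
  have hsn2 : Real.sqrt (nsq n) ^ 2 = nsq n := Real.sq_sqrt hn.le
  -- split the configuration
  have e1 : ∑ i, G a i * sgn (w i) = rhw m w * (∑ i, G a i * m i) + ∑ i, G a i * wp m w i := by
    rw [Finset.mul_sum, ← Finset.sum_add_distrib]
    refine Finset.sum_congr rfl fun i _ => ?_
    unfold wp
    ring
  have e2 : (∑ i, G a i * m i) / Real.sqrt N
      = R2 κ ν ψ G (h, hh) a + hh a + (1 - qp ψ) * n a := by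
    have : R2 κ ν ψ G (h, hh) a = (∑ i, G a i * m i) / Real.sqrt N - hh a
        - (1 - qp ψ) * n a := rfl
    rw [this]
    ring
  have e3 : ∀ i, Real.sqrt (nsq n) * q.1.1 i / Real.sqrt N
      = R1 κ ν ψ G (h, hh) i + h i + dd κ ν ψ * m i := by
    intro i
    have h1 : R1 κ ν ψ G (h, hh) i = (∑ a, G a i * n a) / Real.sqrt N - h i
        - dd κ ν ψ * m i := rfl
    rw [h1, hG, asmG_trans m n hn q i]
    ring
  have e4 : ∀ i, q.1.1 i = Real.sqrt N / Real.sqrt (nsq n)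
      * (R1 κ ν ψ G (h, hh) i + h i + dd κ ν ψ * m i) := by
    intro i
    rw [← e3 i]
    field_simp
  have e5 : dt q.1.1 (wp m w) = Real.sqrt N / Real.sqrt (nsq n)
      * (dt (R1 κ ν ψ G (h, hh)) (wp m w) + dt h (wp m w)) := by
    have h2 : dt q.1.1 (wp m w) = Real.sqrt N / Real.sqrt (nsq n)
        * (dt (R1 κ ν ψ G (h, hh)) (wp m w) + dt h (wp m w)
          + dd κ ν ψ * dt m (wp m w)) := by
      unfold dt
      rw [Finset.mul_sum, ← Finset.sum_add_distrib, ← Finset.sum_add_distrib, Finset.mul_sum]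
      refine Finset.sum_congr rfl fun i _ => ?_
      rw [e4 i]
      ring
    rw [h2, dt_wp m hm w]
    ring
  have e6 := asmG_perp m n q (wp m w) (dt_wp m hm w) a
  have e7 : (∑ e, dt (q.2 e) (wp m w) * (n e / Real.sqrt (nsq n))) * (n a / Real.sqrt (nsq n))
      = dt (fun e => dt (q.2 e) (wp m w)) n / nsq n * n a := by
    have h3 : ∑ e, dt (q.2 e) (wp m w) * (n e / Real.sqrt (nsq n))
        = dt (fun e => dt (q.2 e) (wp m w)) n / Real.sqrt (nsq n) := by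
      have h4 : dt (fun e => dt (q.2 e) (wp m w)) n = ∑ e, dt (q.2 e) (wp m w) * n e := rfl
      rw [h4, Finset.sum_div]
      refine Finset.sum_congr rfl fun e _ => ?_
      ring
    rw [h3]
    exact alg1 _ _ _ _ hsn hsn2
  have e8 : yv G w a = rhw m w * ((∑ i, G a i * m i) / Real.sqrt N)
      + (∑ i, G a i * wp m w i) / Real.sqrt N := by
    unfold yv
    rw [e1]
    ring
  rw [e8, e2, hG, e6, e7, e5]
  unfold core
  have e9 : Real.sqrt N / Real.sqrt (nsq n)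
      * (dt (R1 κ ν ψ (asmG m n q) (h, hh)) (wp m w) + dt h (wp m w)) * (n a / Real.sqrt (nsq n))
      / Real.sqrt N
      = (dt (R1 κ ν ψ (asmG m n q) (h, hh)) (wp m w) + dt h (wp m w)) / nsq n * n a :=
    alg2 _ _ _ _ _ hsN hsn hsn2
  rw [add_div, e9]
  ring

/-- near solutions are near solutions for the core -/
theorem near_core {κ ν ψ δ : ℝ} {M N : ℕ} (h : Fin N → ℝ) (hh : Fin M → ℝ) (hN : 0 < N)
    (hm : 0 < nsq (mh h)) (hn : 0 < nsq (nh κ ν ψ hh)) (w : Fin N → Bool)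
    (q : ((Fin N → ℝ) × (Fin M → ℝ)) × (Fin M → Fin N → ℝ))
    (hnear : Near κ δ (asmG (mh h) (nh κ ν ψ hh) q) w) :
    ∑ a, (max 0 (κ - core (1 - qp ψ) h (mh h) hh (nh κ ν ψ hh) w q.2 a)) ^ 2
      ≤ 2 * δ * N + 4 * (N / nsq (mh h) + N / nsq (nh κ ν ψ hh))
        * Rsq κ ν ψ (asmG (mh h) (nh κ ν ψ hh) q) (h, hh) := by
  have hy := fun a => yv_eq (κ := κ) (ν := ν) (ψ := ψ) h hh hN hm hn w q a
  unfold Near at hnear
  unfold Rsq
  set m := mh h with hmdef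
  set n := nh κ ν ψ hh with hndef
  set G := asmG m n q with hG
  set r1 := R1 κ ν ψ G (h, hh) with hr1
  set r2 := R2 κ ν ψ G (h, hh) with hr2
  set co := core (1 - qp ψ) h m hh n w q.2 with hco
  set ρ := rhw m w with hρ
  set D := dt r1 (wp m w) with hD
  have hNr : (0 : ℝ) < N := by exact_mod_cast hN
  have k1 : ∀ a, (max 0 (κ - co a)) ^ 2 ≤ 2 * (max 0 (κ - yv G w a)) ^ 2
      + 4 * (ρ ^ 2 * r2 a ^ 2 + (D / nsq n) ^ 2 * n a ^ 2) := by
    intro a
    have h1 : yv G w a = co a + (ρ * r2 a + D / nsq n * n a) := hy a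
    set P := max 0 (κ - co a) with hP
    set Q := max 0 (κ - yv G w a) with hQ
    have hP0 : 0 ≤ P := le_max_left _ _
    have hQ0 : 0 ≤ Q := le_max_left _ _
    have h2 : P ≤ Q + |ρ * r2 a + D / nsq n * n a| := by
      rw [hP]
      refine max_le (by positivity) ?_
      have h3 : κ - yv G w a ≤ Q := le_max_right _ _
      have h4 := le_abs_self (ρ * r2 a + D / nsq n * n a)
      linarith
    have h5 : P ^ 2 ≤ (Q + |ρ * r2 a + D / nsq n * n a|) ^ 2 := pow_le_pow_left₀ hP0 h2 2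
    have h6 : (Q + |ρ * r2 a + D / nsq n * n a|) ^ 2
        ≤ 2 * Q ^ 2 + 2 * |ρ * r2 a + D / nsq n * n a| ^ 2 := by
      have := sq_nonneg (Q - |ρ * r2 a + D / nsq n * n a|)
      linarith [this, sq_nonneg (Q - |ρ * r2 a + D / nsq n * n a|),
        (by ring : (Q - |ρ * r2 a + D / nsq n * n a|) ^ 2
          = Q ^ 2 - 2 * Q * |ρ * r2 a + D / nsq n * n a| + |ρ * r2 a + D / nsq n * n a| ^ 2),
        (by ring : (Q + |ρ * r2 a + D / nsq n * n a|) ^ 2
          = Q ^ 2 + 2 * Q * |ρ * r2 a + D / nsq n * n a| + |ρ * r2 a + D / nsq n * n a| ^ 2)]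
    have h7 : |ρ * r2 a + D / nsq n * n a| ^ 2 = (ρ * r2 a + D / nsq n * n a) ^ 2 := sq_abs _
    have h8 : (ρ * r2 a + D / nsq n * n a) ^ 2
        ≤ 2 * (ρ ^ 2 * r2 a ^ 2 + (D / nsq n) ^ 2 * n a ^ 2) := by
      have h9 := sq_nonneg (ρ * r2 a - D / nsq n * n a)
      have h10 : (ρ * r2 a - D / nsq n * n a) ^ 2 = ρ ^ 2 * r2 a ^ 2
          - 2 * (ρ * r2 a * (D / nsq n * n a)) + (D / nsq n) ^ 2 * n a ^ 2 := by ring
      have h11 : (ρ * r2 a + D / nsq n * n a) ^ 2 = ρ ^ 2 * r2 a ^ 2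
          + 2 * (ρ * r2 a * (D / nsq n * n a)) + (D / nsq n) ^ 2 * n a ^ 2 := by ring
      linarith
    linarith
  have k2 : ∑ a, (max 0 (κ - co a)) ^ 2 ≤ 2 * (∑ a, (max 0 (κ - yv G w a)) ^ 2)
      + 4 * (ρ ^ 2 * nsq r2 + (D / nsq n) ^ 2 * nsq n) := by
    refine (Finset.sum_le_sum fun a _ => k1 a).trans (le_of_eq ?_)
    rw [Finset.sum_add_distrib, ← Finset.mul_sum, ← Finset.mul_sum, Finset.sum_add_distrib,
      ← Finset.mul_sum, ← Finset.mul_sum]
    rfl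
  have k3 : ρ ^ 2 ≤ N / nsq m := by
    rw [le_div_iff₀ hm]
    exact rhw_sq_le m hm w
  have k4 : nsq (wp m w) ≤ N := by
    rw [nsq_wp m hm w]
    have : 0 ≤ rhw m w ^ 2 * nsq m := by positivity
    linarith
  have k5 : D ^ 2 ≤ nsq r1 * N :=
    (dt_sq_le _ _).trans (mul_le_mul_of_nonneg_left k4 (nsq_nonneg' _))
  have k6 : (D / nsq n) ^ 2 * nsq n ≤ N / nsq n * nsq r1 := by
    have h1 : (D / nsq n) ^ 2 * nsq n = D ^ 2 / nsq n := by
      field_simp
    rw [h1, div_mul_eq_mul_div, div_le_div_iff_of_pos_right hn]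
    linarith
  have k7 : ρ ^ 2 * nsq r2 ≤ N / nsq m * nsq r2 :=
    mul_le_mul_of_nonneg_right k3 (nsq_nonneg' _)
  have k8 : 0 ≤ N / nsq m * nsq r1 := by
    have := nsq_nonneg' r1
    positivity
  have k9 : 0 ≤ N / nsq n * nsq r2 := by
    have := nsq_nonneg' r2
    positivity
  have k10 : (N / nsq m + N / nsq n) * (nsq r1 + nsq r2)
      = N / nsq m * nsq r1 + N / nsq m * nsq r2 + N / nsq n * nsq r1 + N / nsq n * nsq r2 := by
    ring
  have k11 : 4 * (N / nsq m + N / nsq n) * (nsq r1 + nsq r2)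
      = 4 * ((N / nsq m + N / nsq n) * (nsq r1 + nsq r2)) := by ring
  rw [k11, k10]
  linarith

/-- the residual does not depend on the fresh matrix -/
theorem Rsq_asmG_eq {κ ν ψ : ℝ} {M N : ℕ} (h : Fin N → ℝ) (hh : Fin M → ℝ) 
    (hm : 0 < nsq (mh h)) (hn : 0 < nsq (nh κ ν ψ hh))
    (p : (Fin N → ℝ) × (Fin M → ℝ)) (H H' : Fin M → Fin N → ℝ) :
    Rsq κ ν ψ (asmG (mh h) (nh κ ν ψ hh) (p, H)) (h, hh)
      = Rsq κ ν ψ (asmG (mh h) (nh κ ν ψ hh) (p, H')) (h, hh) := by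
  have h1 : R1 κ ν ψ (asmG (mh h) (nh κ ν ψ hh) (p, H)) (h, hh)
      = R1 κ ν ψ (asmG (mh h) (nh κ ν ψ hh) (p, H')) (h, hh) := by
    funext i
    have a1 := asmG_trans (mh h) (nh κ ν ψ hh) hn (p, H) i
    have a2 := asmG_trans (mh h) (nh κ ν ψ hh) hn (p, H') i
    unfold R1
    have b1 : ∑ a, asmG (mh h) (nh κ ν ψ hh) (p, H) a i * FF κ ν (qp ψ) ((h, hh).2 a)
        = ∑ a, asmG (mh h) (nh κ ν ψ hh) (p, H) a i * nh κ ν ψ hh a := rfl
    have b2 : ∑ a, asmG (mh h) (nh κ ν ψ hh) (p, H') a i * FF κ ν (qp ψ) ((h, hh).2 a)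
        = ∑ a, asmG (mh h) (nh κ ν ψ hh) (p, H') a i * nh κ ν ψ hh a := rfl
    rw [b1, b2, a1, a2]
  have h2 : R2 κ ν ψ (asmG (mh h) (nh κ ν ψ hh) (p, H)) (h, hh)
      = R2 κ ν ψ (asmG (mh h) (nh κ ν ψ hh) (p, H')) (h, hh) := by
    funext a
    have a1 := asmG_mul (mh h) (nh κ ν ψ hh) hm (p, H) a
    have a2 := asmG_mul (mh h) (nh κ ν ψ hh) hm (p, H') a
    unfold R2
    have b1 : ∑ i, asmG (mh h) (nh κ ν ψ hh) (p, H) a i * Real.tanh ((h, hh).1 i)
        = ∑ i, asmG (mh h) (nh κ ν ψ hh) (p, H) a i * mh h i := rfl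
    have b2 : ∑ i, asmG (mh h) (nh κ ν ψ hh) (p, H') a i * Real.tanh ((h, hh).1 i)
        = ∑ i, asmG (mh h) (nh κ ν ψ hh) (p, H') a i * mh h i := rfl
    rw [b1, b2, a1, a2]
  unfold Rsq
  rw [h1, h2]

end Pool.Agent.IP49
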