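import Pool.Agent.IP49.VDefs
import Pool.Agent.IP49.Law1

/-!
IP49, part U1 (owner helper1): definitions for the first moment `E[V Z]`. Notes 1605 (U1), 1625.

For fixed `y = (h, hh)` put `m = tanh h`, `n = F(hh)`, `w` a configuration, `ρ = <m,w>/|m|²`,
`wp = w - ρ m ⊥ m`. With `G = rowStep c y (colStep r x H)`, `c = n/|n|`, `r = m/|m|`,
`(y, x, H)` independent standard (`Law1`), the TAP residuals depend only on `(y, x)` and
`G w/√N = core(H) + (ρ R2 + <R1,wp>/|n|² n)`.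
-/

set_option autoImplicit false
open MeasureTheory ProbabilityTheory Filter Topology

namespace Pool.Agent.IP49

noncomputable section

/-- scalar product -/
def dt {ι : Type*} [Fintype ι] (x y : ι → ℝ) : ℝ := ∑ i, x i * y i

/-- `m = tanh h` -/
def mh {N : ℕ} (h : Fin N → ℝ) (i : Fin N) : ℝ := Real.tanh (h i)

/-- `n = F(hh)` -/
def nh (κ ν ψ : ℝ) {M : ℕ} (hh : Fin M → ℝ) (a : Fin M) : ℝ := FF κ ν (qp ψ) (hh a)

/-- `ρ_w = <m,w>/|m|²` -/
def rhw {N : ℕ} (m : Fin N → ℝ) (w : Fin N → Bool) : ℝ := dt m (fun i => sgn (w i)) / nsq m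

/-- `w - ρ_w m` -/
def wp {N : ℕ} (m : Fin N → ℝ) (w : Fin N → Bool) (i : Fin N) : ℝ := sgn (w i) - rhw m w * m i

/-- the part of `G w/√N` that depends only on the fresh matrix `H` -/
def core (b : ℝ) {M N : ℕ} (h m : Fin N → ℝ) (hh n : Fin M → ℝ) (w : Fin N → Bool)
    (H : Fin M → Fin N → ℝ) (a : Fin M) : ℝ :=
  rhw m w * (hh a + b * n a) + dt h (wp m w) / nsq n * n a
    + (dt (H a) (wp m w) - dt (fun e => dt (H e) (wp m w)) n / nsq n * n a) / Real.sqrt N

/-- the probability that `w` is a near solution for the core -/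
def Pcore (κ δ b : ℝ) {M N : ℕ} (h m : Fin N → ℝ) (hh n : Fin M → ℝ) (w : Fin N → Bool) : ℝ :=
  (GM M N).real {H | ∑ a, (max 0 (κ - core b h m hh n w H a)) ^ 2 ≤ δ * N}

end

end Pool.Agent.IP49
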