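import Pool.Agent.IP49.UDenA

/-!
IP49, part U1: the density `E_G ρ_ε(R_G(y))` for fixed `y`.

PROOF. Law of `asmG` (`asmG_law`, `GM M N = gm` by `gm_eq_GM`), `R1 i = (|n|/√N) y_i - (h i + d m i)`
(`asmG_trans`), `R2 = α c + (|m|/√N)(x - (∑ x c) c) - (hh + b n)` with `c = n/|n|` (`asmG_mul`), so
`|R2|² ≥ |P R2|² = |σ P x - P hh|²` (`P = 1 - c cᵀ`, `P n = 0`; `|v|² ≥ |v|² - (∑ v c)² = |P v|²`),
`σ = |m|/√N`; hence `Rsq ≥ ∑ (p' y_i - (h+dm)_i)² + |σ P x - P hh|²`, `p' = |n|/√N`; the integral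
over `(y, x, H)` of the bound is the product of `gv_sq_exp` (over `y`) and `gv_proj_exp` (over
`x`, `k = hh`); `(√(2π)ε)⁻¹ ε/√(s²+ε²) = (√(2π(s²+ε²)))⁻¹`;
`nsq (h + d m) = nsq h + 2 d dt h m + d² nsq m`, `(∑ hh c)² = (dt hh n)²/nsq n`.
-/

set_option autoImplicit false
open MeasureTheory ProbabilityTheory Filter Topology

namespace Pool.Agent.IP49

open SR

namespace UDenAux

/-- the density is a measurable function of the matrix -/
theorem meas_den (κ ν ψ ε : ℝ) {M N : ℕ} (h : Fin N → ℝ) (hh : Fin M → ℝ) :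
    Measurable fun G : Fin M → Fin N → ℝ =>
      ENNReal.ofReal (rhoE ε (N + M) (Rsq κ ν ψ G (h, hh))) := by
  unfold rhoE Rsq nsq R1 R2
  fun_prop

/-- projection orthogonal to a unit vector decreases the norm -/
theorem proj_le {M : ℕ} (c v : Fin M → ℝ) (hc : ∑ a, c a ^ 2 = 1) :
    ∑ a, (v a - (∑ j, v j * c j) * c a) ^ 2 ≤ nsq v := by
  have h1 : ∀ a, (v a - (∑ j, v j * c j) * c a) ^ 2
      = v a ^ 2 - 2 * (∑ j, v j * c j) * (v a * c a) + (∑ j, v j * c j) ^ 2 * c a ^ 2 := by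
    intro a; ring
  simp_rw [h1]
  rw [Finset.sum_add_distrib, Finset.sum_sub_distrib, ← Finset.mul_sum, ← Finset.mul_sum, hc]
  have := sq_nonneg (∑ j, v j * c j)
  unfold nsq
  nlinarith

theorem unit {M : ℕ} (n : Fin M → ℝ) (hn : 0 < nsq n) :
    ∑ a, (n a / Real.sqrt (nsq n)) ^ 2 = 1 := by
  simp_rw [div_pow, Real.sq_sqrt hn.le]
  rw [← Finset.sum_div]
  exact div_self hn.ne'

/-- lower bound of the residual -/
theorem Rsq_ge {κ ν ψ : ℝ} {M N : ℕ} (h : Fin N → ℝ) (hh : Fin M → ℝ)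
    (hm : 0 < nsq (mh h)) (hn : 0 < nsq (nh κ ν ψ hh))
    (q : ((Fin N → ℝ) × (Fin M → ℝ)) × (Fin M → Fin N → ℝ)) :
    (∑ i, (Real.sqrt (nsq (nh κ ν ψ hh)) / Real.sqrt N * q.1.1 i
        - (h i + dd κ ν ψ * mh h i)) ^ 2)
      + (∑ a, (Real.sqrt (nsq (mh h)) / Real.sqrt N *
          (q.1.2 a - (∑ j, q.1.2 j * (nh κ ν ψ hh j / Real.sqrt (nsq (nh κ ν ψ hh))))
            * (nh κ ν ψ hh a / Real.sqrt (nsq (nh κ ν ψ hh))))
        - (hh a - (∑ j, hh j * (nh κ ν ψ hh j / Real.sqrt (nsq (nh κ ν ψ hh))))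
            * (nh κ ν ψ hh a / Real.sqrt (nsq (nh κ ν ψ hh))))) ^ 2)
      ≤ Rsq κ ν ψ (asmG (mh h) (nh κ ν ψ hh) q) (h, hh) := by
  set m := mh h with hmd
  set n := nh κ ν ψ hh with hnd
  set c : Fin M → ℝ := fun a => n a / Real.sqrt (nsq n) with hcd
  have hc : ∑ a, c a ^ 2 = 1 := unit n hn
  have hc' : ∑ a, c a * c a = 1 := by rw [← hc]; exact Finset.sum_congr rfl fun a _ => by ring
  have hnn : Real.sqrt (nsq n) ≠ 0 := (Real.sqrt_pos.2 hn).ne'
  have hnc : ∀ a, n a = Real.sqrt (nsq n) * c a := fun a => by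
    rw [hcd]; field_simp
  unfold Rsq
  refine add_le_add (le_of_eq ?_) ?_
  · change _ = ∑ i, R1 κ ν ψ (asmG m n q) (h, hh) i ^ 2
    refine Finset.sum_congr rfl fun i _ => ?_
    congr 1
    have h1 := asmG_trans m n hn q i
    have h2 : R1 κ ν ψ (asmG m n q) (h, hh) i
        = (∑ a, asmG m n q a i * n a) / Real.sqrt N - h i - dd κ ν ψ * m i := rfl
    rw [h2, h1]
    ring
  · set β : ℝ := dt q.1.1 m / Real.sqrt N - (1 - qp ψ) * Real.sqrt (nsq n) with hβ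
    set s : ℝ := Real.sqrt (nsq m) / Real.sqrt N with hs
    have hR : ∀ a, R2 κ ν ψ (asmG m n q) (h, hh) a
        = β * c a + s * (q.1.2 a - (∑ j, q.1.2 j * c j) * c a) - hh a := by
      intro a
      have h1 := asmG_mul m n hm q a
      have h2 : R2 κ ν ψ (asmG m n q) (h, hh) a
          = (∑ i, asmG m n q a i * m i) / Real.sqrt N - hh a - (1 - qp ψ) * n a := rfl
      have h3 : n a / Real.sqrt (nsq n) = c a := rfl
      have h4 : ∀ e, n e / Real.sqrt (nsq n) = c e := fun e => rfl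
      rw [h2, h1]
      simp only [h4]
      rw [hnc a, hβ, hs]
      ring
    have hS : ∑ j, R2 κ ν ψ (asmG m n q) (h, hh) j * c j = β - ∑ j, hh j * c j := by
      have h1 : ∀ j, R2 κ ν ψ (asmG m n q) (h, hh) j * c j
          = β * (c j * c j) + s * (q.1.2 j * c j) - s * (∑ j, q.1.2 j * c j) * (c j * c j)
            - hh j * c j := fun j => by
        rw [hR j]; ring
      simp_rw [h1]
      rw [Finset.sum_sub_distrib, Finset.sum_sub_distrib, Finset.sum_add_distrib,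
        ← Finset.mul_sum, ← Finset.mul_sum, ← Finset.mul_sum, hc']
      ring
    refine le_trans (le_of_eq ?_) (proj_le c (R2 κ ν ψ (asmG m n q) (h, hh)) hc)
    refine Finset.sum_congr rfl fun a _ => ?_
    rw [hS, hR a]
    have h4 : ∀ e, n e / Real.sqrt (nsq n) = c e := fun e => rfl
    simp only [h4]
    ring

end UDenAux

open UDenAux in
/-- upper bound of the density at a fixed point `y = (h, hh)` -/
theorem den_le {κ ν ψ ε : ℝ} (hε : 0 < ε) {M N : ℕ} (h : Fin N → ℝ) (hh : Fin M → ℝ) (hN : 0 < N)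
    (hm : 0 < nsq (mh h)) (hn : 0 < nsq (nh κ ν ψ hh)) :
    ∫⁻ G, ENNReal.ofReal (rhoE ε (N + M) (Rsq κ ν ψ G (h, hh))) ∂(GM M N)
      ≤ ENNReal.ofReal (Real.sqrt (nsq (mh h) / N + ε ^ 2) / ε
        * (Real.sqrt (2 * Real.pi * (nsq (nh κ ν ψ hh) / N + ε ^ 2)))⁻¹ ^ N
        * (Real.sqrt (2 * Real.pi * (nsq (mh h) / N + ε ^ 2)))⁻¹ ^ M
        * Real.exp (-(nsq h + 2 * dd κ ν ψ * dt h (mh h) + dd κ ν ψ ^ 2 * nsq (mh h))
            / (2 * (nsq (nh κ ν ψ hh) / N + ε ^ 2))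
          - (nsq hh - dt hh (nh κ ν ψ hh) ^ 2 / nsq (nh κ ν ψ hh))
            / (2 * (nsq (mh h) / N + ε ^ 2)))) := by
  have hN' : (0 : ℝ) < N := by exact_mod_cast hN
  have hge := Rsq_ge (κ := κ) (ν := ν) (ψ := ψ) h hh hm hn
  set m := mh h with hmd
  set n := nh κ ν ψ hh with hnd
  set p : ℝ := Real.sqrt (nsq n) / Real.sqrt N with hp
  set s : ℝ := Real.sqrt (nsq m) / Real.sqrt N with hs
  have hp2 : p ^ 2 = nsq n / N := by
    rw [hp, div_pow, Real.sq_sqrt hn.le, Real.sq_sqrt hN'.le]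
  have hs2 : s ^ 2 = nsq m / N := by
    rw [hs, div_pow, Real.sq_sqrt hm.le, Real.sq_sqrt hN'.le]
  set c : Fin M → ℝ := fun a => n a / Real.sqrt (nsq n) with hcd
  set a : Fin N → ℝ := fun i => h i + dd κ ν ψ * m i with had
  have hc : ∑ a, c a ^ 2 = 1 := unit n hn
  have hlaw := asmG_law m n hm hn
  have e1 : ∫⁻ G, ENNReal.ofReal (rhoE ε (N + M) (Rsq κ ν ψ G (h, hh))) ∂(GM M N)
      = ∫⁻ q, ENNReal.ofReal (rhoE ε (N + M) (Rsq κ ν ψ (asmG m n q) (h, hh)))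
        ∂(((gv (Fin N)).prod (gv (Fin M))).prod (gm (Fin M) (Fin N))) := by
    rw [← gm_eq_GM]
    exact (hlaw.lintegral_comp (meas_den κ ν ψ ε h hh)).symm
  set K : ℝ := (Real.sqrt (2 * Real.pi) * ε)⁻¹ with hK
  have hK0 : 0 < K := by positivity
  set fA : (Fin N → ℝ) → ENNReal := fun y =>
    ENNReal.ofReal (Real.exp (-(∑ i, (p * y i - a i) ^ 2) / (2 * ε ^ 2))) with hfA
  set fB : (Fin M → ℝ) → ENNReal := fun x =>
    ENNReal.ofReal (Real.exp (-(∑ e, (s * (x e - (∑ j, x j * c j) * c e)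
        - (hh e - (∑ j, hh j * c j) * c e)) ^ 2) / (2 * ε ^ 2))) with hfB
  have mA : Measurable fA := by rw [hfA]; fun_prop
  have mB : Measurable fB := by rw [hfB]; fun_prop
  have e2 : ∀ q : ((Fin N → ℝ) × (Fin M → ℝ)) × (Fin M → Fin N → ℝ),
      ENNReal.ofReal (rhoE ε (N + M) (Rsq κ ν ψ (asmG m n q) (h, hh)))
        ≤ ENNReal.ofReal (K ^ (N + M)) * (fA q.1.1 * fB q.1.2) := by
    intro q
    rw [hfA, hfB]
    simp only
    rw [← ENNReal.ofReal_mul (Real.exp_pos _).le, ← ENNReal.ofReal_mul (by positivity)]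
    apply ENNReal.ofReal_le_ofReal
    unfold rhoE
    apply mul_le_mul_of_nonneg_left _ (by positivity)
    rw [← Real.exp_add, Real.exp_le_exp, ← add_div]
    apply div_le_div_of_nonneg_right _ (by positivity)
    have := hge q
    linarith
  have e3 : ∫⁻ q : ((Fin N → ℝ) × (Fin M → ℝ)) × (Fin M → Fin N → ℝ),
      ENNReal.ofReal (K ^ (N + M)) * (fA q.1.1 * fB q.1.2)
        ∂(((gv (Fin N)).prod (gv (Fin M))).prod (gm (Fin M) (Fin N)))
      = ENNReal.ofReal (K ^ (N + M)) * ((∫⁻ y, fA y ∂(gv (Fin N))) * ∫⁻ x, fB x ∂(gv (Fin M))) := by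
    have mAB : Measurable fun q : ((Fin N → ℝ) × (Fin M → ℝ)) × (Fin M → Fin N → ℝ) =>
        fA q.1.1 * fB q.1.2 := (mA.comp (measurable_fst.comp measurable_fst)).mul
      (mB.comp (measurable_snd.comp measurable_fst))
    rw [lintegral_const_mul _ mAB]
    congr 1
    have g1 := lintegral_prod_mul (μ := (gv (Fin N)).prod (gv (Fin M))) (ν := gm (Fin M) (Fin N))
      (f := fun z : (Fin N → ℝ) × (Fin M → ℝ) => fA z.1 * fB z.2) (g := fun _ => 1)
      (((mA.comp measurable_fst).mul (mB.comp measurable_snd)).aemeasurable)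
      measurable_const.aemeasurable
    simp only [mul_one, lintegral_const, measure_univ] at g1
    rw [g1]
    exact lintegral_prod_mul mA.aemeasurable mB.aemeasurable
  rw [e1]
  refine (lintegral_mono e2).trans ?_
  rw [e3, hfA, hfB, gv_sq_exp hε a, gv_proj_exp hε c hh hc, ← ENNReal.ofReal_mul (by positivity),
    ← ENNReal.ofReal_mul (by positivity)]
  apply le_of_eq
  congr 1
  have ea : nsq a = nsq h + 2 * dd κ ν ψ * dt h m + dd κ ν ψ ^ 2 * nsq m := by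
    unfold nsq dt
    rw [Finset.mul_sum, Finset.mul_sum, ← Finset.sum_add_distrib, ← Finset.sum_add_distrib]
    exact Finset.sum_congr rfl fun i _ => by rw [had]; ring
  have ec : (∑ j, hh j * c j) ^ 2 = dt hh n ^ 2 / nsq n := by
    have : ∑ j, hh j * c j = dt hh n / Real.sqrt (nsq n) := by
      unfold dt
      rw [Finset.sum_div]
      exact Finset.sum_congr rfl fun j _ => by rw [hcd]; ring
    rw [this, div_pow, Real.sq_sqrt hn.le]
  have k1 : ∀ t : ℝ, 0 < t + ε ^ 2 → K * (ε / Real.sqrt (t + ε ^ 2))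
      = (Real.sqrt (2 * Real.pi * (t + ε ^ 2)))⁻¹ := by
    intro t ht
    rw [hK, Real.sqrt_mul (by positivity) (t + ε ^ 2)]
    have := (Real.sqrt_pos.2 ht).ne'
    have : Real.sqrt (2 * Real.pi) ≠ 0 := by positivity
    field_simp
  have k2 := k1 (nsq n / N) (by positivity)
  have k3 := k1 (nsq m / N) (by positivity)
  rw [hp2, hs2, ea, ec, ← k2, ← k3, mul_pow, mul_pow, pow_add]
  have r1 : -(nsq hh - dt hh n ^ 2 / nsq n) / (2 * (nsq m / N + ε ^ 2))
      = -((nsq hh - dt hh n ^ 2 / nsq n) / (2 * (nsq m / N + ε ^ 2))) := by ring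
  have r2 : ∀ X Y : ℝ, Real.exp (X - Y) = Real.exp X * Real.exp (-Y) := fun X Y => by
    rw [← Real.exp_add, sub_eq_add_neg]
  rw [r1, r2]
  ring

end Pool.Agent.IP49
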