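import Pool.Agent.IP49.UDec

/-!
IP49, part U1: Gaussian integrals of `exp(-(s x - a)²/(2 e²))`.

PROOFS.
`gauss_sq_exp`: complete the square in `∫ exp(-(s x - a)²/(2e²)) exp(-x²/2) dx/√(2π)` (e.g. through
`integral_gaussian` after `integral_gaussianReal_eq_integral_smul`; the integrand is nonnegative and
integrable, `ofReal_integral_eq_lintegral_ofReal`).
`gv_sq_exp`: product over the coordinates (`lintegral_fintype_prod_eq_prod` or induction).
`gv_proj_exp`: by `row_law` (unit vector `c`) `p₁ c + (1-ccᵀ)p₂` is standard, and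
`|s(p₁ c + P p₂) - P k|² = s² p₁² + |s P p₂ - P k|²`; Tonelli: `gv_sq_exp` with `a = P k`
(`nsq (P k) = nsq k - (∑ k c)²`) equals `gauss_sq_exp (a = 0)` times the left side.
-/

set_option autoImplicit false
open MeasureTheory ProbabilityTheory Filter Topology

namespace Pool.Agent.IP49

open SR

private theorem uda_bd {α : Type*} [MeasurableSpace α] (μ : Measure α) [IsProbabilityMeasure μ]
    {f : α → ℝ} (hf : Measurable f) (h0 : ∀ x, 0 ≤ f x) (h1 : ∀ x, f x ≤ 1) :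
    ∫⁻ x, ENNReal.ofReal (f x) ∂μ = ENNReal.ofReal (∫ x, f x ∂μ) := by
  rw [ofReal_integral_eq_lintegral_ofReal _ (ae_of_all _ h0)]
  exact Integrable.of_bound hf.aestronglyMeasurable 1
    (ae_of_all _ fun x => by rw [Real.norm_eq_abs, abs_of_nonneg (h0 x)]; exact h1 x)

private theorem uda_gauss {s a e : ℝ} (he : 0 < e) :
    ∫ x, Real.exp (-(s * x - a) ^ 2 / (2 * e ^ 2)) ∂(gaussianReal 0 1)
      = e / Real.sqrt (s ^ 2 + e ^ 2) * Real.exp (-a ^ 2 / (2 * (s ^ 2 + e ^ 2))) := by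
  have hq : 0 < s ^ 2 + e ^ 2 := by positivity
  rw [integral_gaussianReal_eq_integral_smul one_ne_zero]
  have h1 : ∀ x : ℝ, gaussianPDFReal 0 1 x • Real.exp (-(s * x - a) ^ 2 / (2 * e ^ 2))
      = ((Real.sqrt (2 * Real.pi))⁻¹ * Real.exp (-a ^ 2 / (2 * (s ^ 2 + e ^ 2))))
        * Real.exp (-((s ^ 2 + e ^ 2) / (2 * e ^ 2)) * (x - s * a / (s ^ 2 + e ^ 2)) ^ 2) := by
    intro x
    rw [gaussianPDFReal, smul_eq_mul]
    simp only [NNReal.coe_one, mul_one, sub_zero]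
    rw [mul_assoc, mul_assoc, ← Real.exp_add, ← Real.exp_add]
    congr 2
    field_simp
    ring
  rw [integral_congr_ae (ae_of_all _ h1)]
  rw [integral_const_mul, integral_sub_right_eq_self
    (fun x : ℝ => Real.exp (-((s ^ 2 + e ^ 2) / (2 * e ^ 2)) * x ^ 2)), integral_gaussian]
  have h2 : Real.pi / ((s ^ 2 + e ^ 2) / (2 * e ^ 2))
      = (2 * Real.pi) * (e ^ 2 / (s ^ 2 + e ^ 2)) := by
    field_simp
  rw [h2, Real.sqrt_mul (by positivity) (e ^ 2 / (s ^ 2 + e ^ 2)),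
    Real.sqrt_div (by positivity), Real.sqrt_sq he.le]
  have h3 : Real.sqrt (2 * Real.pi) ≠ 0 := by positivity
  field_simp

theorem gauss_sq_exp {s a e : ℝ} (he : 0 < e) :
    ∫⁻ x, ENNReal.ofReal (Real.exp (-(s * x - a) ^ 2 / (2 * e ^ 2))) ∂(gaussianReal 0 1)
      = ENNReal.ofReal (e / Real.sqrt (s ^ 2 + e ^ 2)
          * Real.exp (-a ^ 2 / (2 * (s ^ 2 + e ^ 2)))) := by
  rw [uda_bd _ (by fun_prop) (fun x => (Real.exp_pos _).le) (fun x => ?_), uda_gauss he]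
  rw [Real.exp_le_one_iff]
  have : 0 ≤ (s * x - a) ^ 2 / (2 * e ^ 2) := by positivity
  rw [neg_div]
  linarith

theorem gv_sq_exp {M : ℕ} {s e : ℝ} (he : 0 < e) (a : Fin M → ℝ) :
    ∫⁻ x, ENNReal.ofReal (Real.exp (-(∑ i, (s * x i - a i) ^ 2) / (2 * e ^ 2))) ∂(gv (Fin M))
      = ENNReal.ofReal ((e / Real.sqrt (s ^ 2 + e ^ 2)) ^ M
          * Real.exp (-nsq a / (2 * (s ^ 2 + e ^ 2)))) := by
  rw [uda_bd _ (by fun_prop) (fun x => (Real.exp_pos _).le) (fun x => ?_)]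
  · congr 1
    have h1 : ∀ x : Fin M → ℝ, Real.exp (-(∑ i, (s * x i - a i) ^ 2) / (2 * e ^ 2))
        = ∏ i, (fun (i : Fin M) (t : ℝ) => Real.exp (-(s * t - a i) ^ 2 / (2 * e ^ 2))) i (x i) := by
      intro x
      simp only
      rw [← Real.exp_sum, ← Finset.sum_neg_distrib, Finset.sum_div]
    rw [integral_congr_ae (ae_of_all _ h1)]
    have h2 := integral_fintype_prod_eq_prod (𝕜 := ℝ) (μ := fun _ : Fin M => gaussianReal 0 1)
      (fun (i : Fin M) (t : ℝ) => Real.exp (-(s * t - a i) ^ 2 / (2 * e ^ 2)))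
    unfold gv
    refine h2.trans ?_
    simp only [uda_gauss he]
    rw [Finset.prod_mul_distrib, Finset.prod_const, Finset.card_univ, Fintype.card_fin,
      ← Real.exp_sum, nsq, ← Finset.sum_neg_distrib, Finset.sum_div]
  · rw [Real.exp_le_one_iff]
    have : 0 ≤ (∑ i, (s * x i - a i) ^ 2) / (2 * e ^ 2) :=
      div_nonneg (Finset.sum_nonneg fun i _ => sq_nonneg _) (by positivity)
    rw [neg_div]
    linarith

theorem gv_proj_exp {M : ℕ} {s e : ℝ} (he : 0 < e) (c k : Fin M → ℝ) (hc : ∑ a, c a ^ 2 = 1) :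
    ∫⁻ x, ENNReal.ofReal (Real.exp (-(∑ a, (s * (x a - (∑ j, x j * c j) * c a)
        - (k a - (∑ j, k j * c j) * c a)) ^ 2) / (2 * e ^ 2))) ∂(gv (Fin M))
      = ENNReal.ofReal (Real.sqrt (s ^ 2 + e ^ 2) / e * (e / Real.sqrt (s ^ 2 + e ^ 2)) ^ M
          * Real.exp (-(nsq k - (∑ j, k j * c j) ^ 2) / (2 * (s ^ 2 + e ^ 2)))) := by
  have hq : 0 < s ^ 2 + e ^ 2 := by positivity
  set a : Fin M → ℝ := fun i => k i - (∑ j, k j * c j) * c i with ha
  have hac : ∑ i, a i * c i = 0 := by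
    have : ∀ i, a i * c i = k i * c i - (∑ j, k j * c j) * c i ^ 2 := by
      intro i; rw [ha]; ring
    simp_rw [this]
    rw [Finset.sum_sub_distrib, ← Finset.mul_sum, hc]; ring
  have hna : nsq a = nsq k - (∑ j, k j * c j) ^ 2 := by
    have : ∀ i, a i ^ 2 = k i ^ 2 - 2 * (∑ j, k j * c j) * (k i * c i)
        + (∑ j, k j * c j) ^ 2 * c i ^ 2 := by
      intro i; rw [ha]; ring
    rw [nsq]
    simp_rw [this]
    rw [Finset.sum_add_distrib, Finset.sum_sub_distrib, ← Finset.mul_sum, ← Finset.mul_sum, hc]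
    rw [nsq]; ring
  have h1 := gv_sq_exp (s := s) he a
  have hmp : Measurable (fun p : ℝ × (Fin M → ℝ) =>
      fun i => p.1 * c i + (p.2 i - (∑ j, p.2 j * c j) * c i)) := by fun_prop
  rw [← SR.row_law c hc, lintegral_map (by fun_prop) hmp] at h1
  have h2 : ∀ p : ℝ × (Fin M → ℝ),
      ENNReal.ofReal (Real.exp (-(∑ i, (s * (p.1 * c i + (p.2 i - (∑ j, p.2 j * c j) * c i))
        - a i) ^ 2) / (2 * e ^ 2)))
      = (fun t : ℝ => ENNReal.ofReal (Real.exp (-(s * t - 0) ^ 2 / (2 * e ^ 2)))) p.1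
        * (fun x : Fin M → ℝ => ENNReal.ofReal (Real.exp (-(∑ i, (s * (x i - (∑ j, x j * c j) * c i)
            - a i) ^ 2) / (2 * e ^ 2)))) p.2 := by
    intro p
    simp only
    rw [← ENNReal.ofReal_mul (Real.exp_pos _).le, ← Real.exp_add]
    congr 2
    rw [← add_div]
    congr 1
    have h3 : ∑ i, (p.2 i - (∑ j, p.2 j * c j) * c i) * c i = 0 := by
      have : ∀ i, (p.2 i - (∑ j, p.2 j * c j) * c i) * c i
          = p.2 i * c i - (∑ j, p.2 j * c j) * c i ^ 2 := by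
        intro i; ring
      simp_rw [this]
      rw [Finset.sum_sub_distrib, ← Finset.mul_sum, hc]; ring
    have h4 : ∀ i, (s * (p.1 * c i + (p.2 i - (∑ j, p.2 j * c j) * c i)) - a i) ^ 2
        = (s * p.1) ^ 2 * c i ^ 2
          + (2 * s * p.1 * s * ((p.2 i - (∑ j, p.2 j * c j) * c i) * c i)
            - 2 * s * p.1 * (a i * c i))
          + (s * (p.2 i - (∑ j, p.2 j * c j) * c i) - a i) ^ 2 := by
      intro i; ring
    simp_rw [h4]
    rw [Finset.sum_add_distrib, Finset.sum_add_distrib, Finset.sum_sub_distrib, ← Finset.mul_sum,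
      ← Finset.mul_sum, ← Finset.mul_sum, hc, h3, hac]
    ring
  have h7 := lintegral_prod_mul (μ := gaussianReal 0 1) (ν := gv (Fin M))
    (f := fun t : ℝ => ENNReal.ofReal (Real.exp (-(s * t - 0) ^ 2 / (2 * e ^ 2))))
    (g := fun x : Fin M → ℝ => ENNReal.ofReal (Real.exp (-(∑ i, (s * (x i - (∑ j, x j * c j) * c i)
            - a i) ^ 2) / (2 * e ^ 2)))) (by fun_prop) (by fun_prop)
  rw [gauss_sq_exp he] at h7
  rw [lintegral_congr h2] at h1
  replace h1 := h7.symm.trans h1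
  have h5 : ENNReal.ofReal (Real.sqrt (s ^ 2 + e ^ 2) / e)
      * ENNReal.ofReal (e / Real.sqrt (s ^ 2 + e ^ 2)
          * Real.exp (-(0 : ℝ) ^ 2 / (2 * (s ^ 2 + e ^ 2)))) = 1 := by
    rw [← ENNReal.ofReal_mul (by positivity)]
    have : Real.sqrt (s ^ 2 + e ^ 2) / e * (e / Real.sqrt (s ^ 2 + e ^ 2)
          * Real.exp (-(0 : ℝ) ^ 2 / (2 * (s ^ 2 + e ^ 2)))) = 1 := by
      have : Real.sqrt (s ^ 2 + e ^ 2) ≠ 0 := by positivity
      simp
      field_simp
    rw [this, ENNReal.ofReal_one]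
  have h6 := congrArg (fun z => ENNReal.ofReal (Real.sqrt (s ^ 2 + e ^ 2) / e) * z) h1
  rw [← mul_assoc, h5, one_mul] at h6
  rw [h6, ← ENNReal.ofReal_mul (by positivity), hna]
  congr 1
  ring

end Pool.Agent.IP49
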