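import Pool.Agent.IP49.MillsB
import Pool.Agent.IP49.RSA
import Pool.Agent.IP49.VDefs

/-!
IP49, part U1: pseudo-Lipschitz functions (`PL`) and Lipschitz functions (`LipC`). 

PROOFS. `LipC f` gives `|f x| ≤ C(1+|x|)`; so `f g` with `LipC f`, `LipC g` is `PL`:
`|f x g x - f y g y| ≤ |f x||g x - g y| + |g y||f x - f y|`. `PL f`, `LipC g` ⇒ `PL (f ∘ g)`.
`lc' = tanh`, so `lc` is 1-Lipschitz (mean value theorem: `Convex.norm_image_sub_le_of_norm_deriv_le`
or `LipschitzWith` from derivative bound). `tanh` 1-Lipschitz (derivative `1 - tanh² ∈ [0,1]`).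
`FF` is Lipschitz with constant `1/τ'²` (derivative `-gf`, `0 < gf < 1/τ'²`).
`Mi` 1-Lipschitz. `log Ph` is `PL`: derivative `-Mi`, `|Mi z| ≤ 1 + |z|` (mean value theorem:
`|log Ph x - log Ph y| ≤ sup |Mi| |x - y| ≤ (1 + |x| + |y|)|x - y|`).
`x ↦ max 0 (c (1+|x|)² - K)` is `PL`: `max 0` is 1-Lipschitz and `(1+|x|)²` is `PL`.
-/

set_option autoImplicit false
open MeasureTheory ProbabilityTheory Filter Topology

namespace Pool.Agent.IP49

/-- Lipschitz functions -/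
def LipC (f : ℝ → ℝ) : Prop := ∃ C : ℝ, 0 ≤ C ∧ ∀ x y, |f x - f y| ≤ C * |x - y|

private theorem lipC_of_deriv {f f' : ℝ → ℝ} {C : ℝ} (hd : ∀ x, HasDerivAt f (f' x) x)
    (hb : ∀ x, |f' x| ≤ C) : LipC f := by
  refine ⟨C, (abs_nonneg _).trans (hb 0), fun x y => ?_⟩
  have h := Convex.norm_image_sub_le_of_norm_hasDerivWithin_le (f := f) (f' := f') (C := C)
    (s := Set.univ) (x := y) (y := x) (fun z _ => (hd z).hasDerivWithinAt)
    (fun z _ => by rw [Real.norm_eq_abs]; exact hb z) convex_univ trivial trivial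
  simpa [Real.norm_eq_abs] using h

theorem LipC.lin {f : ℝ → ℝ} (hf : LipC f) : ∃ C : ℝ, 0 ≤ C ∧ ∀ x, |f x| ≤ C * (1 + |x|) := by
  obtain ⟨C, hC, h⟩ := hf
  refine ⟨C + |f 0|, by positivity, fun x => ?_⟩
  have h1 := h x 0
  rw [sub_zero] at h1
  have h2 : |f x| ≤ |f x - f 0| + |f 0| := by
    have := abs_add_le (f x - f 0) (f 0)
    simpa using this
  nlinarith [abs_nonneg x, abs_nonneg (f 0), mul_nonneg (abs_nonneg (f 0)) (abs_nonneg x)]

theorem LipC_id : LipC (fun x => x) := ⟨1, zero_le_one, fun x y => by rw [one_mul]⟩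

theorem LipC_const (c : ℝ) : LipC (fun _ => c) := ⟨0, le_rfl, fun x y => by simp⟩

theorem LipC.add {f g : ℝ → ℝ} (hf : LipC f) (hg : LipC g) : LipC (fun x => f x + g x) := by
  obtain ⟨C, hC, h⟩ := hf
  obtain ⟨D, hD, h'⟩ := hg
  refine ⟨C + D, by positivity, fun x y => ?_⟩
  have h1 : f x + g x - (f y + g y) = (f x - f y) + (g x - g y) := by ring
  rw [h1, add_mul]
  exact (abs_add_le _ _).trans (add_le_add (h x y) (h' x y))

theorem LipC.neg {f : ℝ → ℝ} (hf : LipC f) : LipC (fun x => -f x) := by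
  obtain ⟨C, hC, h⟩ := hf
  refine ⟨C, hC, fun x y => ?_⟩
  have h1 : -f x - -f y = -(f x - f y) := by ring
  rw [h1, abs_neg]
  exact h x y

theorem LipC.cmul {f : ℝ → ℝ} (c : ℝ) (hf : LipC f) : LipC (fun x => c * f x) := by
  obtain ⟨C, hC, h⟩ := hf
  refine ⟨|c| * C, by positivity, fun x y => ?_⟩
  have h1 : c * f x - c * f y = c * (f x - f y) := by ring
  rw [h1, abs_mul, mul_assoc]
  exact mul_le_mul_of_nonneg_left (h x y) (abs_nonneg c)

theorem LipC.comp {f g : ℝ → ℝ} (hf : LipC f) (hg : LipC g) : LipC (fun x => f (g x)) := by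
  obtain ⟨C, hC, h⟩ := hf
  obtain ⟨D, hD, h'⟩ := hg
  refine ⟨C * D, by positivity, fun x y => ?_⟩
  rw [mul_assoc]
  exact (h _ _).trans (mul_le_mul_of_nonneg_left (h' x y) hC)

theorem LipC_tanh : LipC Real.tanh := by
  refine lipC_of_deriv (C := 1) hasDerivAt_tanh (fun x => ?_)
  have h1 := tanh_sq_lt x
  have h2 := sq_nonneg (Real.tanh x)
  rw [abs_of_pos (by linarith)]
  linarith

theorem LipC_lc : LipC lc := by
  refine lipC_of_deriv (C := 1) hasDerivAt_lc (fun x => ?_)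
  have h1 := tanh_sq_lt x
  exact abs_le_one_iff_mul_self_le_one.2 (by nlinarith)

theorem LipC_Mi : LipC Mi := ⟨1, zero_le_one, fun x y => by rw [one_mul]; exact Mi_lipschitz x y⟩

theorem LipC_FF {κ ν q : ℝ} (hν : 0 ≤ ν) (hq : q < 1) : LipC (FF κ ν q) := by
  refine lipC_of_deriv (C := 1 / tp ν q ^ 2) (fun x => hasDerivAt_FF hν hq x) (fun x => ?_)
  rw [abs_neg, abs_of_pos (gf_pos hν hq x)]
  exact (gf_lt hν hq x).le

theorem LipC_yt {ψ : ℝ} (A₁ A₂ : ℝ) : LipC (yt ψ A₁ A₂) := by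
  have h := (LipC_id.cmul A₁).add ((LipC_FF (κ := 0) le_rfl (qp_lt_one (ψ := ψ))).cmul A₂)
  exact h

private theorem pos_fac (x y : ℝ) : 0 ≤ 1 + |x| + |y| := by positivity

theorem LipC.pl {f : ℝ → ℝ} (hf : LipC f) : PL f := by
  obtain ⟨C, hC, h⟩ := hf
  refine ⟨C, fun x y => (h x y).trans ?_⟩
  refine mul_le_mul_of_nonneg_right ?_ (abs_nonneg _)
  have h1 : C * 1 ≤ C * (1 + |x| + |y|) :=
    mul_le_mul_of_nonneg_left (by linarith [abs_nonneg x, abs_nonneg y]) hC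
  linarith

theorem LipC.mul {f g : ℝ → ℝ} (hf : LipC f) (hg : LipC g) : PL (fun x => f x * g x) := by
  obtain ⟨A, hA, hfl⟩ := hf.lin
  obtain ⟨B, hB, hgl⟩ := hg.lin
  obtain ⟨C, hC, h⟩ := hf
  obtain ⟨D, hD, h'⟩ := hg
  refine ⟨A * D + B * C, fun x y => ?_⟩
  have h1 : f x * g x - f y * g y = f x * (g x - g y) + g y * (f x - f y) := by ring
  rw [h1]
  refine (abs_add_le _ _).trans ?_
  rw [abs_mul, abs_mul]
  have h2 : |f x| * |g x - g y| ≤ (A * (1 + |x| + |y|)) * (D * |x - y|) := by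
    refine mul_le_mul ((hfl x).trans ?_) (h' x y) (abs_nonneg _) (mul_nonneg hA (pos_fac x y))
    exact mul_le_mul_of_nonneg_left (by linarith [abs_nonneg y]) hA
  have h3 : |g y| * |f x - f y| ≤ (B * (1 + |x| + |y|)) * (C * |x - y|) := by
    refine mul_le_mul ((hgl y).trans ?_) (h x y) (abs_nonneg _) (mul_nonneg hB (pos_fac x y))
    exact mul_le_mul_of_nonneg_left (by linarith [abs_nonneg x]) hB
  calc _ ≤ (A * (1 + |x| + |y|)) * (D * |x - y|) + (B * (1 + |x| + |y|)) * (C * |x - y|) :=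
        add_le_add h2 h3
    _ = _ := by ring

theorem PL.comp {f g : ℝ → ℝ} (hf : PL f) (hg : LipC g) : PL (fun x => f (g x)) := by
  obtain ⟨B, hB, hgl⟩ := hg.lin
  obtain ⟨C, h⟩ := hf
  obtain ⟨D, hD, h'⟩ := hg
  refine ⟨|C| * (1 + 2 * B) * D, fun x y => ?_⟩
  have h1 : C * (1 + |g x| + |g y|) * |g x - g y| ≤
      (|C| * ((1 + 2 * B) * (1 + |x| + |y|))) * (D * |x - y|) := by
    refine mul_le_mul ?_ (h' x y) (abs_nonneg _) (by positivity)
    refine mul_le_mul (le_abs_self C) ?_ (pos_fac _ _) (abs_nonneg C)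
    have h2 := hgl x
    have h3 := hgl y
    nlinarith [abs_nonneg x, abs_nonneg y, mul_nonneg hB (abs_nonneg x),
      mul_nonneg hB (abs_nonneg y)]
  refine (h _ _).trans (h1.trans (le_of_eq (by ring)))

theorem PL.continuous {f : ℝ → ℝ} (hf : PL f) : Continuous f := by
  obtain ⟨C, h⟩ := hf
  refine continuous_iff_continuousAt.2 fun x => ?_
  refine tendsto_iff_norm_sub_tendsto_zero.2
    (squeeze_zero (g := fun y => C * (1 + |y| + |x|) * |y - x|) (fun y => norm_nonneg _)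
      (fun y => (Real.norm_eq_abs (f y - f x)).trans_le (h y x)) ?_)
  have hc : Continuous (fun y : ℝ => C * (1 + |y| + |x|) * |y - x|) := by fun_prop
  have := hc.tendsto x
  simpa using this

/-- growth of a pseudo-Lipschitz function -/
theorem PL.growth {f : ℝ → ℝ} (hf : PL f) : ∃ C : ℝ, 0 ≤ C ∧ ∀ x, |f x| ≤ C * (1 + x ^ 2) := by
  obtain ⟨C, h⟩ := hf
  refine ⟨2 * |C| + |f 0|, by positivity, fun x => ?_⟩
  have h1 := h x 0
  rw [sub_zero, abs_zero, add_zero] at h1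
  have h2 : |f x| ≤ |f x - f 0| + |f 0| := by
    have := abs_add_le (f x - f 0) (f 0)
    simpa using this
  have h3 : C * (1 + |x|) * |x| ≤ |C| * ((1 + |x|) * |x|) := by
    rw [mul_assoc]
    exact mul_le_mul_of_nonneg_right (le_abs_self C) (by positivity)
  have h4 : (1 + |x|) * |x| ≤ 2 * (1 + x ^ 2) := by
    rw [← sq_abs x]
    nlinarith [sq_nonneg (|x| - 1)]
  have h5 : |C| * ((1 + |x|) * |x|) ≤ |C| * (2 * (1 + x ^ 2)) :=
    mul_le_mul_of_nonneg_left h4 (abs_nonneg C)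
  have h6 : |f 0| ≤ |f 0| * (1 + x ^ 2) := by
    nlinarith [mul_nonneg (abs_nonneg (f 0)) (sq_nonneg x)]
  calc |f x| ≤ |C| * (2 * (1 + x ^ 2)) + |f 0| * (1 + x ^ 2) := by linarith
    _ = _ := by ring

theorem PL_sq : PL (fun x => x ^ 2) := by
  refine ⟨1, fun x y => ?_⟩
  have h1 : x ^ 2 - y ^ 2 = (x + y) * (x - y) := by ring
  rw [h1, abs_mul, one_mul]
  refine mul_le_mul_of_nonneg_right ?_ (abs_nonneg _)
  have := abs_add_le x y
  linarith

theorem PL_logPh : PL (fun x => Real.log (Ph x)) := by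
  refine ⟨1, fun x y => ?_⟩
  have h := Convex.norm_image_sub_le_of_norm_hasDerivWithin_le
    (f := fun z => Real.log (Ph z)) (f' := fun z => -Mi z) (C := 1 + |x| + |y|)
    (s := Set.Icc (-(|x| + |y|)) (|x| + |y|)) (x := y) (y := x)
    (fun z _ => (hasDerivAt_logPh z).hasDerivWithinAt)
    (fun z hz => by
      rw [Real.norm_eq_abs, abs_neg, abs_of_pos (Mi_pos z)]
      have h1 := Mi_le_abs z
      have h2 := abs_le.2 ⟨hz.1, hz.2⟩
      linarith)
    (convex_Icc _ _)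
    ⟨by linarith [neg_abs_le y, abs_nonneg x], by linarith [le_abs_self y, abs_nonneg x]⟩
    ⟨by linarith [neg_abs_le x, abs_nonneg y], by linarith [le_abs_self x, abs_nonneg y]⟩
  rw [one_mul]
  simpa [Real.norm_eq_abs] using h

theorem PL_cut (c K : ℝ) (hc : 0 ≤ c) : PL (fun x => max 0 (c * (1 + |x|) ^ 2 - K)) := by
  refine ⟨2 * c, fun x y => ?_⟩
  have h1 : |max 0 (c * (1 + |x|) ^ 2 - K) - max 0 (c * (1 + |y|) ^ 2 - K)| ≤
      |(c * (1 + |x|) ^ 2 - K) - (c * (1 + |y|) ^ 2 - K)| := by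
    have := abs_max_sub_max_le_max 0 (c * (1 + |x|) ^ 2 - K) 0 (c * (1 + |y|) ^ 2 - K)
    simpa using this
  refine h1.trans ?_
  have h2 : (c * (1 + |x|) ^ 2 - K) - (c * (1 + |y|) ^ 2 - K) =
      c * (2 + |x| + |y|) * (|x| - |y|) := by ring
  rw [h2, abs_mul, abs_of_nonneg (by positivity : 0 ≤ c * (2 + |x| + |y|))]
  have h3 : |(|x| - |y|)| ≤ |x - y| := abs_abs_sub_abs_le_abs_sub x y
  refine mul_le_mul ?_ h3 (abs_nonneg _) (by positivity)
  nlinarith [mul_nonneg hc (abs_nonneg x), mul_nonneg hc (abs_nonneg y)]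

end Pool.Agent.IP49
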