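import Pool.Agent.IP49.UDefs
import Pool.Agent.IP49.UPL

/-!
IP49, part U1: the basic test functions of the typical set.

PROOFS. `TB_avg`: by definition of `Yset` (`List.mem_cons`), with `GE (√ψ x)² = ψ` (`GE_sq`,
`GE_mul`), `GE tanh² = qp ψ`, `E_h_tanh`, `al * GE (√q x)² = al q`, `al_EF2`, `al_xF`.
-/

set_option autoImplicit false
open MeasureTheory ProbabilityTheory Filter Topology

namespace Pool.Agent.IP49

noncomputable section

/-- test functions in `h` for the density -/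
def TB1 : List (ℝ → ℝ) :=
  [fun x => x ^ 2, fun x => Real.tanh x ^ 2, fun x => x * Real.tanh x]

/-- test functions in `hh` for the density -/
def TB2 (κ ν ψ : ℝ) : List (ℝ → ℝ) :=
  [fun x => x ^ 2, fun x => FF κ ν (qp ψ) x ^ 2, fun x => x * FF κ ν (qp ψ) x]

/-- exponent of the volume of the typical set -/
def LV (κ ν ψ : ℝ) : ℝ :=
  Real.log (2 * Real.pi * ψ) / 2 + al κ ν ψ / 2 * Real.log (2 * Real.pi * qp ψ) + 1 / 2
    + al κ ν ψ / 2

end

theorem TB1_PL : ∀ f ∈ TB1, PL f := by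
  intro f hf
  simp only [TB1, List.mem_cons, List.not_mem_nil, or_false] at hf
  rcases hf with rfl | rfl | rfl
  · exact PL_sq
  · have h := LipC_tanh.mul LipC_tanh
    simpa only [sq] using h
  · exact LipC_id.mul LipC_tanh

theorem TB2_PL {κ ν ψ : ℝ} (hν : 0 ≤ ν) : ∀ f ∈ TB2 κ ν ψ, PL f := by
  intro f hf
  simp only [TB2, List.mem_cons, List.not_mem_nil, or_false] at hf
  have hF : LipC (FF κ ν (qp ψ)) := LipC_FF hν qp_lt_one
  rcases hf with rfl | rfl | rfl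
  · exact PL_sq
  · have h := hF.mul hF
    simpa only [sq] using h
  · exact LipC_id.mul hF

theorem GE_scale_sq {s : ℝ} (hs : 0 ≤ s) : (GE fun x => (Real.sqrt s * x) ^ 2) = s := by
  have h : (fun x : ℝ => (Real.sqrt s * x) ^ 2) = fun x => s * x ^ 2 := by
    funext x
    rw [mul_pow, Real.sq_sqrt hs]
  rw [h, GE_mul, GE_sq, mul_one]

/-- reading off the basic averages on the typical set -/
theorem TB_avg {κ ν ψ dl : ℝ} (hν : 0 ≤ ν) (hψ : 0 < ψ) {M N : ℕ}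
    {y : (Fin N → ℝ) × (Fin M → ℝ)} (hy : y ∈ Yset κ ν ψ TB1 (TB2 κ ν ψ) dl M N) :
    |nsq y.1 / N - ψ| ≤ dl ∧ |nsq (mh y.1) / N - qp ψ| ≤ dl ∧
    |dt y.1 (mh y.1) / N - ψ * (1 - qp ψ)| ≤ dl ∧
    |nsq y.2 / N - al κ ν ψ * qp ψ| ≤ dl ∧ |nsq (nh κ ν ψ y.2) / N - ψ| ≤ dl ∧
    |dt y.2 (nh κ ν ψ y.2) / N - qp ψ * dd κ ν ψ| ≤ dl := by
  obtain ⟨h1, h2⟩ := hy
  have a1 := h1 (fun x => x ^ 2) (by simp [TB1])
  have a2 := h1 (fun x => Real.tanh x ^ 2) (by simp [TB1])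
  have a3 := h1 (fun x => x * Real.tanh x) (by simp [TB1])
  have b1 := h2 (fun x => x ^ 2) (by simp [TB2])
  have b2 := h2 (fun x => FF κ ν (qp ψ) x ^ 2) (by simp [TB2])
  have b3 := h2 (fun x => x * FF κ ν (qp ψ) x) (by simp [TB2])
  rw [GE_scale_sq hψ.le] at a1
  rw [E_h_tanh hψ] at a3
  rw [GE_scale_sq (qp_nonneg ψ)] at b1
  rw [al_EF2 hν] at b2
  rw [al_xF hν] at b3
  exact ⟨a1, a2, a3, b1, b2, b3⟩

end Pool.Agent.IP49
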