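import Pool.Agent.IP49.UDen
import Pool.Agent.IP49.UTB

/-!
IP49, part U1: exponent of the density, uniformly on the typical set.

PROOF. `α = al`, `q = qp ψ`, `b = 1 - q`, `d = dd`, `M = ⌊α N⌋`. For `y ∈ Yset` (`TB_avg`) the
numbers `nsq h/N, nsq (mh h)/N, dt h (mh h)/N` are within `dl` of `ψ, q, ψ b`, and
`nsq hh/N, nsq n/N, dt hh n/N` within `dl` of `α q, ψ, q d`. `(1/N) log` of the bound of `den_le` is
`(1/N) log(√(m2+ε²)/ε) - (1/2) log(2π(n2+ε²)) - (M/2N) log(2π(m2+ε²))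
 - (h2 + 2 d hm + d² m2)/(2(n2+ε²)) - (k2 - kn²/n2)/(2(m2+ε²))`,
a continuous function of `(h2, m2, hm, k2, n2, kn, ε, M/N)` at `(ψ, q, ψb, αq, ψ, qd, 0, α)` plus
a term tending to 0 for fixed `ε`; value at the base point:
`-(1/2)log(2πψ) - (α/2) log(2πq) - (ψ + 2dψb + d²q)/(2ψ) - (αq - q²d²/ψ)/(2q)
 = -(1/2)log(2πψ) - (α/2) log(2πq) - 1/2 - α/2 - d b = -LV - d b`.
(Use `Metric.continuousAt_iff` for the function of 8 real variables (`fun_prop` with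
`disch`), giving one radius for all variables; `M/N → α` (`|M/N - α| ≤ 1/N`).)
-/

set_option autoImplicit false
open MeasureTheory ProbabilityTheory Filter Topology

namespace Pool.Agent.IP49

open SR

/-- the exponent as a function of the normalised statistics `(h2, m2, hm, k2, n2, kn, ε, M/N)` -/
private noncomputable def PhiY (d : ℝ) (v : Fin 8 → ℝ) : ℝ :=
  -(Real.log (2 * Real.pi * (v 4 + v 6 ^ 2)) / 2)
    - v 7 / 2 * Real.log (2 * Real.pi * (v 1 + v 6 ^ 2))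
    - (v 0 + 2 * d * v 2 + d ^ 2 * v 1) / (2 * (v 4 + v 6 ^ 2))
    - (v 3 - v 5 ^ 2 / v 4) / (2 * (v 1 + v 6 ^ 2))

private theorem PhiY_cont {d : ℝ} {v : Fin 8 → ℝ} (h1 : 0 < v 1) (h4 : 0 < v 4) :
    ContinuousAt (PhiY d) v := by
  have e1 : 0 < v 1 + v 6 ^ 2 := by positivity
  have e4 : 0 < v 4 + v 6 ^ 2 := by positivity
  have l1 : 2 * Real.pi * (v 1 + v 6 ^ 2) ≠ 0 := by positivity
  have l4 : 2 * Real.pi * (v 4 + v 6 ^ 2) ≠ 0 := by positivity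
  have m1 : 2 * (v 1 + v 6 ^ 2) ≠ 0 := by positivity
  have m4 : 2 * (v 4 + v 6 ^ 2) ≠ 0 := by positivity
  have c : ∀ i : Fin 8, ContinuousAt (fun v : Fin 8 → ℝ => v i) v := fun i =>
    (continuous_apply i).continuousAt
  unfold PhiY
  refine ContinuousAt.sub (ContinuousAt.sub (ContinuousAt.sub ?_ ?_) ?_) ?_
  · have q4 : ContinuousAt (fun v : Fin 8 → ℝ => 2 * Real.pi * (v 4 + v 6 ^ 2)) v :=
      continuousAt_const.mul ((c 4).add ((c 6).pow 2))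
    exact ((q4.log l4).div_const 2).neg
  · have q1 : ContinuousAt (fun v : Fin 8 → ℝ => 2 * Real.pi * (v 1 + v 6 ^ 2)) v :=
      continuousAt_const.mul ((c 1).add ((c 6).pow 2))
    exact ((c 7).div_const 2).mul (q1.log l1)
  · refine ContinuousAt.div ?_ ?_ m4
    · exact ((c 0).add (continuousAt_const.mul (c 2))).add (continuousAt_const.mul (c 1))
    · exact continuousAt_const.mul ((c 4).add ((c 6).pow 2))
  · refine ContinuousAt.div ?_ ?_ m1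
    · exact (c 3).sub (((c 5).pow 2).div (c 4) h4.ne')
    · exact continuousAt_const.mul ((c 1).add ((c 6).pow 2))

private theorem PhiY_base {κ ν ψ : ℝ} (hψ : 0 < ψ) (hq : 0 < qp ψ) :
    PhiY (dd κ ν ψ) ![ψ, qp ψ, ψ * (1 - qp ψ), al κ ν ψ * qp ψ, ψ, qp ψ * dd κ ν ψ, 0,
      al κ ν ψ] = -LV κ ν ψ - dd κ ν ψ * (1 - qp ψ) := by
  have e0 : (![ψ, qp ψ, ψ * (1 - qp ψ), al κ ν ψ * qp ψ, ψ, qp ψ * dd κ ν ψ, 0,
      al κ ν ψ] : Fin 8 → ℝ) 0 = ψ := rfl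
  have e1 : (![ψ, qp ψ, ψ * (1 - qp ψ), al κ ν ψ * qp ψ, ψ, qp ψ * dd κ ν ψ, 0,
      al κ ν ψ] : Fin 8 → ℝ) 1 = qp ψ := rfl
  have e2 : (![ψ, qp ψ, ψ * (1 - qp ψ), al κ ν ψ * qp ψ, ψ, qp ψ * dd κ ν ψ, 0,
      al κ ν ψ] : Fin 8 → ℝ) 2 = ψ * (1 - qp ψ) := rfl
  have e3 : (![ψ, qp ψ, ψ * (1 - qp ψ), al κ ν ψ * qp ψ, ψ, qp ψ * dd κ ν ψ, 0,
      al κ ν ψ] : Fin 8 → ℝ) 3 = al κ ν ψ * qp ψ := rfl
  have e4 : (![ψ, qp ψ, ψ * (1 - qp ψ), al κ ν ψ * qp ψ, ψ, qp ψ * dd κ ν ψ, 0,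
      al κ ν ψ] : Fin 8 → ℝ) 4 = ψ := rfl
  have e5 : (![ψ, qp ψ, ψ * (1 - qp ψ), al κ ν ψ * qp ψ, ψ, qp ψ * dd κ ν ψ, 0,
      al κ ν ψ] : Fin 8 → ℝ) 5 = qp ψ * dd κ ν ψ := rfl
  have e6 : (![ψ, qp ψ, ψ * (1 - qp ψ), al κ ν ψ * qp ψ, ψ, qp ψ * dd κ ν ψ, 0,
      al κ ν ψ] : Fin 8 → ℝ) 6 = 0 := rfl
  have e7 : (![ψ, qp ψ, ψ * (1 - qp ψ), al κ ν ψ * qp ψ, ψ, qp ψ * dd κ ν ψ, 0,
      al κ ν ψ] : Fin 8 → ℝ) 7 = al κ ν ψ := rfl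
  unfold PhiY LV
  rw [e0, e1, e2, e3, e4, e5, e6, e7]
  have hz : (0 : ℝ) ^ 2 = 0 := by norm_num
  rw [hz, add_zero, add_zero]
  have hψ' := hψ.ne'
  have hq' := hq.ne'
  field_simp
  ring

private theorem inv_sqrt_pow {x : ℝ} (hx : 0 < x) (n : ℕ) :
    (Real.sqrt x)⁻¹ ^ n = Real.exp (-(Real.log x / 2 * n)) := by
  rw [← Real.rpow_natCast, ← Real.sqrt_inv, Real.sqrt_eq_rpow,
    ← Real.rpow_mul (inv_nonneg.2 hx.le), Real.rpow_def_of_pos (inv_pos.2 hx), Real.log_inv]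
  congr 1
  ring

private theorem den_Y_pt {κ ν ψ η r ε dl : ℝ} (hν : 0 ≤ ν) (hψ : 0 < ψ) (hq : 0 < qp ψ) (hr : 0 < r)
    (hrP : ∀ ⦃x : Fin 8 → ℝ⦄,
      dist x ![ψ, qp ψ, ψ * (1 - qp ψ), al κ ν ψ * qp ψ, ψ, qp ψ * dd κ ν ψ, 0, al κ ν ψ] < r →
      dist (PhiY (dd κ ν ψ) x) (-LV κ ν ψ - dd κ ν ψ * (1 - qp ψ)) < η / 2)
    (hε : 0 < ε) (hεr : ε < r) (dl1 : dl ≤ r / 2) (dl2 : dl ≤ qp ψ / 2) (dl3 : dl ≤ ψ / 2)
    {M N : ℕ} (hN0 : 0 < N) (hN1 : Real.log (Real.sqrt (2 * qp ψ + ε ^ 2) / ε) ≤ η / 2 * N)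
    (hMN : |(M : ℝ) / N - al κ ν ψ| ≤ r / 2)
    (h : Fin N → ℝ) (hh : Fin M → ℝ) (hy : (h, hh) ∈ Yset κ ν ψ TB1 (TB2 κ ν ψ) dl M N) :
    ∫⁻ G, ENNReal.ofReal (rhoE ε (N + M) (Rsq κ ν ψ G (h, hh))) ∂(GM M N)
      ≤ ENNReal.ofReal (Real.exp ((-LV κ ν ψ - dd κ ν ψ * (1 - qp ψ) + η) * N)) := by
  have hNR : (0 : ℝ) < N := Nat.cast_pos.2 hN0
  obtain ⟨t1, t2, t3, t4, t5, t6⟩ := TB_avg hν hψ hy
  simp only at t1 t2 t3 t4 t5 t6
  have hm' : 0 < nsq (mh h) / N := by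
    have := (abs_le.1 t2).1
    linarith
  have hn' : 0 < nsq (nh κ ν ψ hh) / N := by
    have := (abs_le.1 t5).1
    linarith
  have hm : 0 < nsq (mh h) := by
    by_contra hc
    exact absurd hm' (not_lt.2 (div_nonpos_of_nonpos_of_nonneg (not_lt.1 hc) hNR.le))
  have hn : 0 < nsq (nh κ ν ψ hh) := by
    by_contra hc
    exact absurd hn' (not_lt.2 (div_nonpos_of_nonpos_of_nonneg (not_lt.1 hc) hNR.le))
  refine (den_le hε h hh hN0 hm hn).trans (ENNReal.ofReal_le_ofReal ?_)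
  -- the vector of statistics
  set v : Fin 8 → ℝ := ![nsq h / N, nsq (mh h) / N, dt h (mh h) / N, nsq hh / N,
    nsq (nh κ ν ψ hh) / N, dt hh (nh κ ν ψ hh) / N, ε, (M : ℝ) / N] with hv
  have hdist : dist v ![ψ, qp ψ, ψ * (1 - qp ψ), al κ ν ψ * qp ψ, ψ,
      qp ψ * dd κ ν ψ, 0, al κ ν ψ] < r := by
    rw [dist_pi_lt_iff hr]
    intro i
    rw [Real.dist_eq]
    fin_cases i
    · exact lt_of_le_of_lt (t1.trans dl1) (by linarith)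
    · exact lt_of_le_of_lt (t2.trans dl1) (by linarith)
    · exact lt_of_le_of_lt (t3.trans dl1) (by linarith)
    · exact lt_of_le_of_lt (t4.trans dl1) (by linarith)
    · exact lt_of_le_of_lt (t5.trans dl1) (by linarith)
    · exact lt_of_le_of_lt (t6.trans dl1) (by linarith)
    · show |ε - 0| < r
      rw [sub_zero, abs_of_pos hε]
      exact hεr
    · exact lt_of_le_of_lt hMN (by linarith)
  have hP : PhiY (dd κ ν ψ) v ≤ -LV κ ν ψ - dd κ ν ψ * (1 - qp ψ) + η / 2 := by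
    have := hrP hdist
    rw [Real.dist_eq] at this
    linarith [(abs_lt.1 this).2]
  have hPv : PhiY (dd κ ν ψ) v =
      -(Real.log (2 * Real.pi * (nsq (nh κ ν ψ hh) / N + ε ^ 2)) / 2)
    - (M : ℝ) / N / 2 * Real.log (2 * Real.pi * (nsq (mh h) / N + ε ^ 2))
    - (nsq h / N + 2 * dd κ ν ψ * (dt h (mh h) / N) + dd κ ν ψ ^ 2 * (nsq (mh h) / N))
        / (2 * (nsq (nh κ ν ψ hh) / N + ε ^ 2))
    - (nsq hh / N - (dt hh (nh κ ν ψ hh) / N) ^ 2 / (nsq (nh κ ν ψ hh) / N))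
        / (2 * (nsq (mh h) / N + ε ^ 2)) := rfl
  have hA : 0 < nsq (mh h) / N + ε ^ 2 := by positivity
  have hB : 0 < nsq (nh κ ν ψ hh) / N + ε ^ 2 := by positivity
  have hC : 0 < Real.sqrt (nsq (mh h) / N + ε ^ 2) / ε := by positivity
  rw [inv_sqrt_pow (by positivity), inv_sqrt_pow (by positivity), ← Real.exp_log hC,
    ← Real.exp_add, ← Real.exp_add, ← Real.exp_add]
  refine Real.exp_le_exp.2 ?_
  have hlog : Real.log (Real.sqrt (nsq (mh h) / N + ε ^ 2) / ε) ≤ η / 2 * N := by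
    refine (Real.log_le_log hC ?_).trans hN1
    refine div_le_div_of_nonneg_right (Real.sqrt_le_sqrt ?_) hε.le
    have := (abs_le.1 t2).2
    linarith
  have hmain : -(Real.log (2 * Real.pi * (nsq (nh κ ν ψ hh) / N + ε ^ 2)) / 2 * N)
      + -(Real.log (2 * Real.pi * (nsq (mh h) / N + ε ^ 2)) / 2 * M)
      + (-(nsq h + 2 * dd κ ν ψ * dt h (mh h) + dd κ ν ψ ^ 2 * nsq (mh h))
            / (2 * (nsq (nh κ ν ψ hh) / N + ε ^ 2))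
          - (nsq hh - dt hh (nh κ ν ψ hh) ^ 2 / nsq (nh κ ν ψ hh))
            / (2 * (nsq (mh h) / N + ε ^ 2))) = PhiY (dd κ ν ψ) v * N := by
    rw [hPv]
    have hA' := hA.ne'
    have hB' := hB.ne'
    have hN' := hNR.ne'
    have hn'' := hn.ne'
    generalize Real.log (2 * Real.pi * (nsq (nh κ ν ψ hh) / N + ε ^ 2)) = L1
    generalize Real.log (2 * Real.pi * (nsq (mh h) / N + ε ^ 2)) = L2
    generalize nsq (mh h) / N + ε ^ 2 = A at *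
    generalize nsq (nh κ ν ψ hh) / N + ε ^ 2 = B at *
    field_simp
    ring
  calc _ = Real.log (Real.sqrt (nsq (mh h) / N + ε ^ 2) / ε)
      + (-(Real.log (2 * Real.pi * (nsq (nh κ ν ψ hh) / N + ε ^ 2)) / 2 * N)
      + -(Real.log (2 * Real.pi * (nsq (mh h) / N + ε ^ 2)) / 2 * M)
      + (-(nsq h + 2 * dd κ ν ψ * dt h (mh h) + dd κ ν ψ ^ 2 * nsq (mh h))
            / (2 * (nsq (nh κ ν ψ hh) / N + ε ^ 2))
          - (nsq hh - dt hh (nh κ ν ψ hh) ^ 2 / nsq (nh κ ν ψ hh))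
            / (2 * (nsq (mh h) / N + ε ^ 2)))) := by ring
    _ ≤ η / 2 * N + PhiY (dd κ ν ψ) v * N := by
        rw [hmain]
        linarith
    _ ≤ η / 2 * N + (-LV κ ν ψ - dd κ ν ψ * (1 - qp ψ) + η / 2) * N := by
        have := mul_le_mul_of_nonneg_right hP hNR.le
        linarith
    _ = (-LV κ ν ψ - dd κ ν ψ * (1 - qp ψ) + η) * N := by ring

theorem den_Y {κ ν ψ : ℝ} (hν : 0 ≤ ν) (hψ : 0 < ψ) {η : ℝ} (hη : 0 < η) :
    ∃ dl : ℝ, 0 < dl ∧ ∃ ε₀ : ℝ, 0 < ε₀ ∧ ∀ ε : ℝ, 0 < ε → ε < ε₀ → ∀ᶠ N : ℕ in atTop,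
      ∀ y ∈ Yset κ ν ψ TB1 (TB2 κ ν ψ) dl ⌊al κ ν ψ * N⌋₊ N,
        ∫⁻ G, ENNReal.ofReal (rhoE ε (N + ⌊al κ ν ψ * N⌋₊) (Rsq κ ν ψ G y))
            ∂(GM ⌊al κ ν ψ * N⌋₊ N)
          ≤ ENNReal.ofReal (Real.exp ((-LV κ ν ψ - dd κ ν ψ * (1 - qp ψ) + η) * N)) := by
  have hq : 0 < qp ψ := qp_pos hψ
  have hα : 0 < al κ ν ψ := al_pos hν hψ
  have hcont : ContinuousAt (PhiY (dd κ ν ψ)) ![ψ, qp ψ, ψ * (1 - qp ψ), al κ ν ψ * qp ψ, ψ,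
      qp ψ * dd κ ν ψ, 0, al κ ν ψ] := PhiY_cont hq hψ
  obtain ⟨r, hr, hrP⟩ := Metric.continuousAt_iff.1 hcont (η / 2) (by positivity)
  rw [PhiY_base hψ hq] at hrP
  refine ⟨min (r / 2) (min (qp ψ / 2) (ψ / 2)), by positivity, r, hr, fun ε hε hεr => ?_⟩
  have hN1 : ∀ᶠ N : ℕ in atTop, Real.log (Real.sqrt (2 * qp ψ + ε ^ 2) / ε) ≤ η / 2 * N := by
    have : Tendsto (fun N : ℕ => η / 2 * (N : ℝ)) atTop atTop :=
      tendsto_natCast_atTop_atTop.const_mul_atTop (by positivity)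
    exact this.eventually_ge_atTop _
  have hN2 : ∀ᶠ N : ℕ in atTop, 2 / r < (N : ℝ) :=
    tendsto_natCast_atTop_atTop.eventually_gt_atTop _
  filter_upwards [hN1, hN2, eventually_gt_atTop 0] with N hN1 hN2 hN0 y hy
  have hNR : (0 : ℝ) < N := Nat.cast_pos.2 hN0
  have hMle : (⌊al κ ν ψ * N⌋₊ : ℝ) ≤ al κ ν ψ * N := Nat.floor_le (by positivity)
  have hMlt : al κ ν ψ * N < ⌊al κ ν ψ * N⌋₊ + 1 := Nat.lt_floor_add_one _
  have hMN : |(⌊al κ ν ψ * N⌋₊ : ℝ) / N - al κ ν ψ| ≤ r / 2 := by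
    have h1 : (⌊al κ ν ψ * N⌋₊ : ℝ) / N - al κ ν ψ = (⌊al κ ν ψ * N⌋₊ - al κ ν ψ * N) / N := by
      field_simp
    rw [h1, abs_div, abs_of_pos hNR, div_le_iff₀ hNR]
    have h2 : 1 ≤ r / 2 * N := by
      have := (div_lt_iff₀ hr).1 hN2
      linarith
    rw [abs_le]
    constructor <;> linarith
  exact den_Y_pt hν hψ hq hr hrP hε hεr (min_le_left _ _)
    ((min_le_right _ _).trans (min_le_left _ _)) ((min_le_right _ _).trans (min_le_right _ _))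
    hN0 hN1 hMN y.1 y.2 hy

end Pool.Agent.IP49
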