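import Pool.Agent.IP49.UCpl
import Pool.Agent.IP49.SOut

/-!
IP49, part U (owner helper1; lower bound of V: helper85; Gordon: helper19): upper bound on the
number of near solutions. Note 1605. Assembly: `U_main_of_SOut` (module `UCpl`) and `SOut_holds`
(module `SOut`, part S).
-/

set_option autoImplicit false
open MeasureTheory ProbabilityTheory Filter Topology

namespace Pool.Agent.IP49

/-- if (U*) holds at `(κ, ν, ψ)` with slack `η₁` then the number of near solutions with margin `κ`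
and small energy is at most `exp((η₁+η)N)` with high probability, for `⌊al κ ν ψ * N⌋` rows -/
theorem U_main {κ ν ψ : ℝ} (_hκ : κ < 0) (hν : 0 < ν) (hψ : 0 < ψ) (hAT : AT κ ν ψ < 1)
    (_hd : -dd κ ν ψ * ES2 ψ < 1 - qp ψ) {η₁ : ℝ} (_hη₁ : 0 < η₁) (hU : UStar κ ν ψ η₁)
    {η : ℝ} (hη : 0 < η) :
    ∃ δ : ℝ, 0 < δ ∧ Tendsto (fun N : ℕ =>
      (GM ⌊al κ ν ψ * N⌋₊ N).real {A | Real.exp ((η₁ + η) * N)
        ≤ (cntNear κ δ A : ℝ)})
      atTop (𝓝 0) :=
  U_main_of_SOut hν hψ hAT (SOut_holds hν hψ hAT) hU hη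

end Pool.Agent.IP49
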