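import Pool.Agent.IP49.UDec
import Pool.Agent.IP49.UTB

/-!
IP49, part U1: spin sum, and the local bound with the spin entropy only (`J2`).

PROOFS. `spin_sum`: `∑_w ∏_i exp(u_i sgn w_i) = ∏_i (exp u_i + exp(-u_i)) = ∏ 2 cosh u_i`
(`Finset.prod_univ_sum` / `Fintype.piFinset`), `lc u = log(2 cosh u)`.
`U_loc2`: `Pcore ≤ 1`. With `T1 = [tanh², x ↦ lc (l tanh x)]`, `T2 = []`, `m = mh h`,
`mw = dt m sgn(w) = ρ_w nsq m`: for `|ρ_w - ρ₀| < r`, `|l (mw - ρ₀ q N)| ≤ |l| (r nsq m +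
|ρ₀| |nsq m - q N|) ≤ |l| (r + |ρ₀| dl) N` (`nsq m ≤ N`), so `1 ≤ exp(l mw - l ρ₀ q N + |l|(r + |ρ₀| dl) N)`
and the sum is `≤ exp(∑ lc(l m_i) - l ρ₀ q N + ...) ≤ exp((J2 + dl + |l|(r+|ρ₀|dl)) N)`. Any `δ`.
-/

set_option autoImplicit false
open MeasureTheory ProbabilityTheory Filter Topology

namespace Pool.Agent.IP49

open SR

/-- the spin sum -/
theorem spin_sum {N : ℕ} (u : Fin N → ℝ) :
    ∑ w : Fin N → Bool, Real.exp (dt u (fun i => sgn (w i))) = Real.exp (∑ i, lc (u i)) := by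
  have h1 : ∀ w : Fin N → Bool, Real.exp (dt u (fun i => sgn (w i)))
      = ∏ i, Real.exp (u i * sgn (w i)) := by
    intro w
    unfold dt
    rw [Real.exp_sum]
  have h2 : ∀ x : ℝ, Real.exp (lc x) = 2 * Real.cosh x := by
    intro x
    unfold lc
    rw [Real.exp_log (by positivity)]
  rw [Real.exp_sum]
  simp only [h1, h2]
  have h3 : ∀ i : Fin N, 2 * Real.cosh (u i) = ∑ b : Bool, Real.exp (u i * sgn b) := by
    intro i
    rw [Fintype.sum_bool, Real.cosh_eq]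
    simp [sgn]
    ring
  simp only [h3]
  rw [Finset.prod_univ_sum, Fintype.piFinset_univ]

theorem U_loc2 {κ ν ψ η₁ ρ₀ l : ℝ} (hν : 0 < ν) (hψ : 0 < ψ) (hρ : ρ₀ ^ 2 * qp ψ ≤ 1)
    (hJ : J2 ψ ρ₀ l ≤ η₁) {η : ℝ} (hη : 0 < η) :
    ∃ r : ℝ, 0 < r ∧ ∃ T1 T2 : List (ℝ → ℝ), (∀ f ∈ T1, PL f) ∧ (∀ f ∈ T2, PL f) ∧
      ∃ dl : ℝ, 0 < dl ∧ ∃ δ : ℝ, 0 < δ ∧ ∀ᶠ N : ℕ in atTop,
        ∀ y ∈ Yset κ ν ψ T1 T2 dl ⌊al κ ν ψ * N⌋₊ N,
          ∑ w : Fin N → Bool, (if |rhw (mh y.1) w - ρ₀| < r then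
            Pcore κ δ (1 - qp ψ) y.1 (mh y.1) y.2 (nh κ ν ψ y.2) w else 0)
            ≤ Real.exp ((η₁ + η) * N) := by
  have hr : 0 < η / (2 * (|l| + 1)) := by positivity
  have hd : 0 < η / (2 * (1 + |l| * |ρ₀|)) := by positivity
  refine ⟨η / (2 * (|l| + 1)), hr,
    [fun x => Real.tanh x ^ 2, fun x => lc (l * Real.tanh x)], [], ?_, ?_,
    η / (2 * (1 + |l| * |ρ₀|)), hd, 1, one_pos, ?_⟩
  · intro f hf
    simp only [List.mem_cons, List.not_mem_nil, or_false] at hf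
    rcases hf with rfl | rfl
    · have h := LipC.mul LipC_tanh LipC_tanh
      have e : (fun x => Real.tanh x ^ 2) = fun x => Real.tanh x * Real.tanh x := by
        funext x; ring
      rw [e]; exact h
    · exact (LipC.comp LipC_lc (LipC.cmul l LipC_tanh)).pl
  · intro f hf
    simp at hf
  obtain ⟨r, hrdef⟩ : ∃ r, r = η / (2 * (|l| + 1)) := ⟨_, rfl⟩
  obtain ⟨dl, hdl⟩ : ∃ dl, dl = η / (2 * (1 + |l| * |ρ₀|)) := ⟨_, rfl⟩
  rw [← hrdef] at hr ⊢
  rw [← hdl] at hd ⊢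
  have hr2 : |l| * r ≤ η / 2 := by
    rw [hrdef]
    have h0 : 0 ≤ |l| := abs_nonneg l
    rw [← mul_div_assoc, div_le_div_iff₀ (by positivity) (by positivity)]
    nlinarith
  have hd2 : dl * (1 + |l| * |ρ₀|) = η / 2 := by
    rw [hdl]
    field_simp
  filter_upwards [eventually_ge_atTop 1] with N hN y hy
  have hN0 : (0 : ℝ) < N := by exact_mod_cast hN
  obtain ⟨hy1, -⟩ := hy
  have a1 := hy1 (fun x => Real.tanh x ^ 2) (by simp)
  have a2 := hy1 (fun x => lc (l * Real.tanh x)) (by simp)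
  obtain ⟨m, hm⟩ : ∃ m, m = mh y.1 := ⟨_, rfl⟩
  have hnsq : ∑ i, Real.tanh (y.1 i) ^ 2 = nsq m := by
    rw [hm]; rfl
  have hlc : ∑ i, lc (l * Real.tanh (y.1 i)) = ∑ i, lc (l * m i) := by
    rw [hm]; rfl
  have hq : (GE fun x => Real.tanh (Real.sqrt ψ * x) ^ 2) = qp ψ := rfl
  rw [hnsq, hq] at a1
  rw [hlc] at a2
  rw [← hm]
  -- `nsq m ≤ N`
  have hmN : nsq m ≤ N := by
    rw [← hnsq]
    calc ∑ i, Real.tanh (y.1 i) ^ 2 ≤ ∑ _i : Fin N, (1 : ℝ) :=
          Finset.sum_le_sum fun i _ => (tanh_sq_lt _).le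
      _ = N := by simp
  have hm0 : 0 ≤ nsq m := by
    unfold nsq; exact Finset.sum_nonneg fun i _ => sq_nonneg _
  have b1 : |nsq m - qp ψ * N| ≤ dl * N := by
    have e : nsq m - qp ψ * N = (nsq m / N - qp ψ) * N := by field_simp
    rw [e, abs_mul, abs_of_pos hN0]
    exact mul_le_mul_of_nonneg_right a1 hN0.le
  have b2 : ∑ i, lc (l * m i) ≤ ((GE fun x => lc (l * Real.tanh (Real.sqrt ψ * x))) + dl) * N := by
    have h := (abs_le.1 a2).2
    have e : ∑ i, lc (l * m i) = (∑ i, lc (l * m i)) / N * N := by field_simp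
    rw [e]
    exact mul_le_mul_of_nonneg_right (by linarith) hN0.le
  have hdt : ∀ w : Fin N → Bool, dt m (fun i => sgn (w i)) = rhw m w * nsq m := by
    intro w
    unfold rhw
    by_cases h0 : nsq m = 0
    · have hz : ∀ i, m i = 0 := by
        intro i
        have h1 : ∑ i, m i ^ 2 = 0 := h0
        have h2 := (Finset.sum_eq_zero_iff_of_nonneg (fun i _ => sq_nonneg (m i))).1 h1 i
          (Finset.mem_univ i)
        exact pow_eq_zero_iff (two_ne_zero) |>.1 h2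
      rw [h0, mul_zero]
      unfold dt
      exact Finset.sum_eq_zero fun i _ => by rw [hz i, zero_mul]
    · field_simp
  have hterm : ∀ w : Fin N → Bool, (if |rhw m w - ρ₀| < r then
      Pcore κ 1 (1 - qp ψ) y.1 m y.2 (nh κ ν ψ y.2) w else 0)
      ≤ Real.exp (dt (fun i => l * m i) (fun i => sgn (w i)))
        * Real.exp (-(l * (ρ₀ * qp ψ)) * N + |l| * (r + |ρ₀| * dl) * N) := by
    intro w
    split_ifs with hw
    · have hP : Pcore κ 1 (1 - qp ψ) y.1 m y.2 (nh κ ν ψ y.2) w ≤ 1 := by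
        unfold Pcore
        have : IsProbabilityMeasure (GM ⌊al κ ν ψ * N⌋₊ N) := by unfold GM; infer_instance
        exact measureReal_le_one
      refine hP.trans ?_
      rw [← Real.exp_add]
      apply Real.one_le_exp
      have e1 : dt (fun i => l * m i) (fun i => sgn (w i)) = l * (rhw m w * nsq m) := by
        rw [← hdt w]
        unfold dt
        rw [Finset.mul_sum]
        exact Finset.sum_congr rfl fun i _ => by ring
      rw [e1]
      have e2 : l * (rhw m w * nsq m) + (-(l * (ρ₀ * qp ψ)) * N + |l| * (r + |ρ₀| * dl) * N)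
          = l * ((rhw m w - ρ₀) * nsq m + ρ₀ * (nsq m - qp ψ * N))
            + |l| * (r * N + |ρ₀| * (dl * N)) := by ring
      rw [e2]
      have e3 : |l * ((rhw m w - ρ₀) * nsq m + ρ₀ * (nsq m - qp ψ * N))|
          ≤ |l| * (r * N + |ρ₀| * (dl * N)) := by
        rw [abs_mul]
        apply mul_le_mul_of_nonneg_left _ (abs_nonneg l)
        refine (abs_add_le _ _).trans ?_
        rw [abs_mul, abs_mul, abs_of_nonneg hm0]
        apply add_le_add
        · exact mul_le_mul hw.le hmN hm0 hr.le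
        · exact mul_le_mul_of_nonneg_left b1 (abs_nonneg _)
      have e4 := (abs_le.1 e3).1
      linarith
    · positivity
  calc ∑ w : Fin N → Bool, (if |rhw m w - ρ₀| < r then
        Pcore κ 1 (1 - qp ψ) y.1 m y.2 (nh κ ν ψ y.2) w else 0)
      ≤ ∑ w : Fin N → Bool, Real.exp (dt (fun i => l * m i) (fun i => sgn (w i)))
        * Real.exp (-(l * (ρ₀ * qp ψ)) * N + |l| * (r + |ρ₀| * dl) * N) :=
        Finset.sum_le_sum fun w _ => hterm w
    _ = Real.exp (∑ i, lc (l * m i) + (-(l * (ρ₀ * qp ψ)) * N + |l| * (r + |ρ₀| * dl) * N)) := by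
        rw [← Finset.sum_mul, spin_sum, ← Real.exp_add]
    _ ≤ Real.exp ((η₁ + η) * N) := by
        apply Real.exp_le_exp.2
        have hJ' : (GE fun x => lc (l * Real.tanh (Real.sqrt ψ * x))) - l * ρ₀ * qp ψ ≤ η₁ := hJ
        have t : ((GE fun x => lc (l * Real.tanh (Real.sqrt ψ * x))) + dl) * N
            + (-(l * (ρ₀ * qp ψ)) * N + |l| * (r + |ρ₀| * dl) * N)
            = ((GE fun x => lc (l * Real.tanh (Real.sqrt ψ * x))) - l * ρ₀ * qp ψ
              + dl * (1 + |l| * |ρ₀|) + |l| * r) * N := by ring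
        have t2 : ((GE fun x => lc (l * Real.tanh (Real.sqrt ψ * x))) - l * ρ₀ * qp ψ
              + dl * (1 + |l| * |ρ₀|) + |l| * r) * N ≤ (η₁ + η) * N := by
          apply mul_le_mul_of_nonneg_right _ hN0.le
          rw [hd2]
          linarith
        linarith

end Pool.Agent.IP49
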