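import Pool.Agent.IP49.ULocF
import Pool.Agent.IP49.ULocA

/-!
IP49, part U1 (helper1): local bound near `ρ₀` with the Gaussian constraint (`JJ`).
-/

set_option autoImplicit false
open MeasureTheory ProbabilityTheory Filter Topology

namespace Pool.Agent.IP49

open SR

theorem U_loc1 {κ ν ψ η₁ ρ₀ l A₁ A₂ : ℝ} (hν : 0 < ν) (hψ : 0 < ψ) (hρ : ρ₀ ^ 2 * qp ψ < 1)
    (hJ : JJ κ ν ψ ρ₀ l A₁ A₂ ≤ η₁) {η : ℝ} (hη : 0 < η) :
    ∃ r : ℝ, 0 < r ∧ ∃ T1 T2 : List (ℝ → ℝ), (∀ f ∈ T1, PL f) ∧ (∀ f ∈ T2, PL f) ∧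
      ∃ dl : ℝ, 0 < dl ∧ ∃ δ : ℝ, 0 < δ ∧ ∀ᶠ N : ℕ in atTop,
        ∀ y ∈ Yset κ ν ψ T1 T2 dl ⌊al κ ν ψ * N⌋₊ N,
          ∑ w : Fin N → Bool, (if |rhw (mh y.1) w - ρ₀| < r then
            Pcore κ δ (1 - qp ψ) y.1 (mh y.1) y.2 (nh κ ν ψ y.2) w else 0)
            ≤ Real.exp ((η₁ + η) * N) := by
  obtain ⟨r₁, hr₁, c, K, hc, dl₁, hdl₁, δ, hδ, hev⟩ :=
    loc_exp (κ := κ) A₁ A₂ hν hψ hρ (η := η / 2) (by positivity)
  set s₀ := cF κ ν ψ A₁ A₂ / Real.sqrt (1 - ρ₀ ^ 2 * qp ψ) with hs₀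
  set g : ℝ → ℝ := fun x => lc (l * Real.tanh x + s₀ * x) with hg
  set B := |l| * (1 + |ρ₀|) + 1 with hB
  have hBp : 0 < B := by positivity
  set dl := min dl₁ (min 1 (η / (4 * B))) with hdl
  have hdlp : 0 < dl := lt_min hdl₁ (lt_min one_pos (by positivity))
  have hdle1 : dl ≤ dl₁ := min_le_left _ _
  have hdle2 : dl ≤ η / (4 * B) := (min_le_right _ _).trans (min_le_right _ _)
  set r := min r₁ (η / (4 * B)) with hr
  have hrp : 0 < r := lt_min hr₁ (by positivity)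
  refine ⟨r, hrp, g :: TB1, TU2 κ ν ψ A₁ A₂ c K ++ TB2 κ ν ψ, ?_, ?_, dl, hdlp, δ, hδ, ?_⟩
  · intro f hf
    rcases List.mem_cons.1 hf with rfl | hf
    · exact (LipC.comp LipC_lc ((LipC_tanh.cmul l).add (LipC_id.cmul s₀))).pl
    · exact TB1_PL f hf
  · intro f hf
    rcases List.mem_append.1 hf with hf | hf
    · exact TU2_PL hν.le hc f hf
    · exact TB2_PL hν.le f hf
  filter_upwards [hev, eventually_gt_atTop 0] with N hN hN0 y hy
  have hN' : (0 : ℝ) < N := by exact_mod_cast hN0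
  have hy1 : y ∈ Yset κ ν ψ TB1 (TU2 κ ν ψ A₁ A₂ c K ++ TB2 κ ν ψ) dl₁ ⌊al κ ν ψ * N⌋₊ N :=
    ⟨fun f hf => (hy.1 f (List.mem_cons_of_mem _ hf)).trans hdle1,
      fun f hf => (hy.2 f hf).trans hdle1⟩
  have hyB : y ∈ Yset κ ν ψ TB1 (TB2 κ ν ψ) dl ⌊al κ ν ψ * N⌋₊ N :=
    ⟨fun f hf => hy.1 f (List.mem_cons_of_mem _ hf),
      fun f hf => hy.2 f (List.mem_append_right _ hf)⟩
  have b2 := (TB_avg hν.le hψ hyB).2.1
  have hgy : |(∑ i, g (y.1 i)) / N - GE (fun x => g (Real.sqrt ψ * x))| ≤ dl :=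
    hy.1 g List.mem_cons_self
  set m := mh y.1 with hm
  set E₀ := E0 κ ν ψ ρ₀ A₁ A₂ with hE₀
  have hnsqm : nsq m ≤ N := by
    unfold nsq
    calc ∑ i, m i ^ 2 ≤ ∑ _i : Fin N, (1 : ℝ) := Finset.sum_le_sum fun i _ =>
          (tanh_sq_lt (y.1 i)).le
      _ = N := by simp
  have hnsq0 : 0 ≤ nsq m := Finset.sum_nonneg fun i _ => sq_nonneg _
  -- termwise bound
  have hterm : ∀ w : Fin N → Bool, (if |rhw m w - ρ₀| < r then
      Pcore κ δ (1 - qp ψ) y.1 m y.2 (nh κ ν ψ y.2) w else 0)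
      ≤ Real.exp ((E₀ + η / 2 - l * ρ₀ * qp ψ + |l| * (r + |ρ₀| * dl)) * N)
        * Real.exp (dt (fun i => l * m i + s₀ * y.1 i) (fun i => sgn (w i))) := by
    intro w
    split_ifs with hw
    · have h1 := hN y hy1 w (hw.trans_le (min_le_left _ _))
      refine h1.trans ?_
      rw [← Real.exp_add]
      apply Real.exp_le_exp.2
      have h2 : dt (fun i => l * m i + s₀ * y.1 i) (fun i => sgn (w i))
          = l * dt m (fun i => sgn (w i)) + s₀ * dt y.1 (fun i => sgn (w i)) := by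
        unfold dt
        rw [Finset.mul_sum, Finset.mul_sum, ← Finset.sum_add_distrib]
        exact Finset.sum_congr rfl fun i _ => by ring
      have h3 : |dt m (fun i => sgn (w i)) - ρ₀ * qp ψ * N| ≤ (r + |ρ₀| * dl) * N := by
        have h4 : dt m (fun i => sgn (w i)) = rhw m w * nsq m := by
          unfold rhw
          rcases eq_or_lt_of_le hnsq0 with h0 | h0
          · have hz : ∀ i, m i = 0 := by
              intro i
              have h5 := (Finset.sum_eq_zero_iff_of_nonneg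
                (fun i _ => sq_nonneg (m i))).1 h0.symm i (Finset.mem_univ i)
              exact pow_eq_zero_iff (two_ne_zero) |>.1 h5
            rw [← h0]
            simp [dt, hz]
          · field_simp
        have h5 : dt m (fun i => sgn (w i)) - ρ₀ * qp ψ * N
            = (rhw m w - ρ₀) * nsq m + ρ₀ * (nsq m / N - qp ψ) * N := by
          rw [h4]; field_simp; ring
        rw [h5]
        have h6 : |(rhw m w - ρ₀) * nsq m| ≤ r * N := by
          rw [abs_mul, abs_of_nonneg hnsq0]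
          exact mul_le_mul hw.le hnsqm hnsq0 hrp.le
        have h7 : |ρ₀ * (nsq m / N - qp ψ) * N| ≤ |ρ₀| * dl * N := by
          rw [abs_mul, abs_mul, abs_of_pos hN']
          exact mul_le_mul_of_nonneg_right (mul_le_mul_of_nonneg_left b2 (abs_nonneg _)) hN'.le
        have h8 := abs_add_le ((rhw m w - ρ₀) * nsq m) (ρ₀ * (nsq m / N - qp ψ) * N)
        nlinarith
      have h9 : |l * (dt m (fun i => sgn (w i)) - ρ₀ * qp ψ * N)|
          ≤ |l| * ((r + |ρ₀| * dl) * N) := by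
        rw [abs_mul]; exact mul_le_mul_of_nonneg_left h3 (abs_nonneg _)
      have h10 := (abs_le.1 h9).1
      rw [h2]
      nlinarith
    · positivity
  refine (Finset.sum_le_sum fun w _ => hterm w).trans ?_
  rw [← Finset.mul_sum, spin_sum, ← Real.exp_add]
  apply Real.exp_le_exp.2
  have h11 : ∑ i, lc (l * m i + s₀ * y.1 i) ≤ (GE (fun x => g (Real.sqrt ψ * x)) + dl) * N := by
    have h12 : (∑ i, g (y.1 i)) / N ≤ GE (fun x => g (Real.sqrt ψ * x)) + dl := by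
      have := (abs_le.1 hgy).2; linarith
    rwa [div_le_iff₀ hN'] at h12
  have h13 : JJ κ ν ψ ρ₀ l A₁ A₂ = GE (fun x => g (Real.sqrt ψ * x)) - l * ρ₀ * qp ψ + E₀ := by
    rw [JJ, hE₀, E0]
    ring
  have h14 : |l| * (r + |ρ₀| * dl) + dl ≤ η / 4 := by
    have h15 : r ≤ η / (4 * B) := min_le_right _ _
    have h16 : |l| * (r + |ρ₀| * dl) + dl ≤ B * (η / (4 * B)) := by
      have h17 : |l| * (r + |ρ₀| * dl) ≤ |l| * (η / (4 * B) + |ρ₀| * (η / (4 * B))) := by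
        gcongr
      rw [hB] at *
      nlinarith
    have h18 : B * (η / (4 * B)) = η / 4 := by field_simp
    linarith
  have h19 : (E₀ + η / 2 - l * ρ₀ * qp ψ + |l| * (r + |ρ₀| * dl)) * N
      + (GE (fun x => g (Real.sqrt ψ * x)) + dl) * N
      = (JJ κ ν ψ ρ₀ l A₁ A₂ + η / 2 + (|l| * (r + |ρ₀| * dl) + dl)) * N := by
    rw [h13]; ring
  have h20 : (JJ κ ν ψ ρ₀ l A₁ A₂ + η / 2 + (|l| * (r + |ρ₀| * dl) + dl)) * N
      ≤ (η₁ + η) * N := mul_le_mul_of_nonneg_right (by linarith) hN'.le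
  linarith

end Pool.Agent.IP49
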