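import Pool.Agent.IP49.UWin
import Pool.Agent.IP49.UTB

/-!
IP49, part U1 (helper1): preparation of the local bound.
-/

set_option autoImplicit false
open MeasureTheory ProbabilityTheory Filter Topology

namespace Pool.Agent.IP49

open SR

theorem Pcore_exp {κ δ b cF K e τ : ℝ} {M N : ℕ} (h m : Fin N → ℝ) (hh n yv z : Fin M → ℝ)
    (w : Fin N → Bool) (hN : 0 < N) (hm : 0 < nsq m) (hn : 0 < nsq n) (hw : 0 < nsq (wp m w))
    (hδ : 0 ≤ δ) (hK : 0 < K) (he : 0 < e) (hτ : τ = Real.sqrt (nsq (wp m w) / N))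
    (hz : ∀ a, z a = (κ - rhw m w * hh a - (b * rhw m w + dt h (wp m w) / nsq n
            - cF * τ) * n a) / τ) :
    Pcore κ δ b h m hh n w ≤ Real.exp (Real.log (2 * Real.pi) / 2
      + (Real.sqrt (nsq n) * |cF| + 1) ^ 2 / 2 + K / (τ * e) ^ 2 * (2 * δ * N + 2)
      + (∑ a, (Real.log (Ph (-yv a)) - Mi (-yv a) * (z a - e + yv a))
          + M * Real.exp (-(K / 2)) + ∑ a, max 0 (2 + (z a - e) ^ 2 - K / 2))) := by
  have hτ0 : 0 < τ := by
    rw [hτ]; exact Real.sqrt_pos.2 (div_pos hw (by exact_mod_cast hN))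
  have hL : 0 < K / (τ * e) ^ 2 := by positivity
  have h1 := Pcore_le (κ := κ) (b := b) (cF := cF) (L := K / (τ * e) ^ 2) (e := e)
    h m hh n w hN hm hn hw hδ hL he
  rw [← hτ] at h1
  have h2 : K / (τ * e) ^ 2 * (τ * e) ^ 2 = K := by field_simp
  rw [h2] at h1
  have h3 := prod_le z yv (K := K) (e := e) hK.le
  have h4 : ∏ a, (Ph ((κ - rhw m w * hh a - (b * rhw m w + dt h (wp m w) / nsq n
            - cF * τ) * n a) / τ - e) + Real.exp (-K)) = ∏ a, (Ph (z a - e) + Real.exp (-K)) :=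
    Finset.prod_congr rfl fun a _ => by rw [hz a]
  rw [h4] at h1
  refine h1.trans ?_
  have h5 : Real.sqrt (2 * Real.pi) = Real.exp (Real.log (2 * Real.pi) / 2) := by
    rw [← Real.log_sqrt (by positivity), Real.exp_log (by positivity)]
  rw [h5, ← Real.exp_add, ← Real.exp_add]
  calc _ ≤ Real.exp (Real.log (2 * Real.pi) / 2 + (Real.sqrt (nsq n) * |cF| + 1) ^ 2 / 2
        + K / (τ * e) ^ 2 * (2 * δ * N + 2))
        * Real.exp (∑ a, (Real.log (Ph (-yv a)) - Mi (-yv a) * (z a - e + yv a))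
          + M * Real.exp (-(K / 2)) + ∑ a, max 0 (2 + (z a - e) ^ 2 - K / 2)) := by
        gcongr
    _ = _ := by rw [← Real.exp_add]

theorem lin_sum {κ e τ ρ S cF : ℝ} {M : ℕ} (hh n yv z u v : Fin M → ℝ) (hτ : τ ≠ 0)
    (hz : ∀ a, z a = (κ - ρ * hh a - (S - cF * τ) * n a) / τ) :
    ∑ a, (v a - u a * (z a - e + yv a))
      = ∑ a, v a - (κ / τ - e) * ∑ a, u a + ρ / τ * ∑ a, hh a * u a
        + (S / τ - cF) * ∑ a, n a * u a - ∑ a, yv a * u a := by
  simp only [Finset.mul_sum]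
  rw [← Finset.sum_sub_distrib, ← Finset.sum_add_distrib, ← Finset.sum_add_distrib,
    ← Finset.sum_sub_distrib]
  refine Finset.sum_congr rfl fun a _ => ?_
  rw [hz a]
  field_simp
  ring

/-- the cut-off test function has small expectation -/
theorem cut_small {c s : ℝ} (hc : 0 ≤ c) {η : ℝ} (hη : 0 < η) :
    ∀ᶠ K : ℝ in atTop, GE (fun x => max 0 (c * (1 + |s * x|) ^ 2 - K / 2)) < η := by
  have h1 : Tendsto (fun K : ℝ => GE (fun x => max 0 (c * (1 + |s * x|) ^ 2 - K / 2))) atTop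
      (𝓝 (GE (fun _ => (0 : ℝ)))) := by
    refine tendsto_GE (C := c * 2 * (1 + s ^ 2)) (k := 1) ?_ ?_ ?_
    · exact Eventually.of_forall fun K => by fun_prop
    · filter_upwards [eventually_ge_atTop (0 : ℝ)] with K hK x
      rw [abs_of_nonneg (le_max_left _ _)]
      have h2 : (1 + |s * x|) ^ 2 ≤ 2 * (1 + s ^ 2) * (1 + x ^ 2) := by
        have h3 : |s * x| ^ 2 = s ^ 2 * x ^ 2 := by rw [sq_abs]; ring
        nlinarith [sq_nonneg (1 - |s * x|), sq_nonneg s, sq_nonneg x,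
          mul_nonneg (sq_nonneg s) (sq_nonneg x)]
      have h4 : 0 ≤ c * 2 * (1 + s ^ 2) * (1 + x ^ 2) ^ 1 := by positivity
      apply max_le h4
      have h5 := mul_le_mul_of_nonneg_left h2 hc
      nlinarith
    · intro x
      have h6 : ∀ᶠ K : ℝ in atTop, max 0 (c * (1 + |s * x|) ^ 2 - K / 2) = 0 := by
        filter_upwards [eventually_ge_atTop (2 * (c * (1 + |s * x|) ^ 2))] with K hK
        exact max_eq_left (by linarith)
      exact (tendsto_congr' h6).2 tendsto_const_nhds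
  rw [GE_const] at h1
  exact h1.eventually (gt_mem_nhds hη)

end Pool.Agent.IP49
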