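import Pool.Agent.IP49.ULocB

/-!
IP49, part U1 (helper1): local bound of `Pcore` near `ρ₀`.
-/

set_option autoImplicit false
open MeasureTheory ProbabilityTheory Filter Topology

namespace Pool.Agent.IP49

open SR

noncomputable section

/-- tests in `hh` for the local bound -/
def TU2 (κ ν ψ A₁ A₂ c K : ℝ) : List (ℝ → ℝ) :=
  [fun x => Real.log (Ph (-yt ψ A₁ A₂ x)), fun x => Mi (-yt ψ A₁ A₂ x),
    fun x => x * Mi (-yt ψ A₁ A₂ x), fun x => FF κ ν (qp ψ) x * Mi (-yt ψ A₁ A₂ x),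
    fun x => yt ψ A₁ A₂ x * Mi (-yt ψ A₁ A₂ x), fun x => max 0 (c * (1 + |x|) ^ 2 - K)]

/-- exponent at the base point -/
def E0 (κ ν ψ ρ A₁ A₂ : ℝ) : ℝ :=
  -cF κ ν ψ A₁ A₂ ^ 2 * ψ / 2 + Ct κ ν ψ A₁ A₂
    + (ρ * Ch κ ν ψ A₁ A₂ - κ * C1 κ ν ψ A₁ A₂) / Real.sqrt (1 - ρ ^ 2 * qp ψ)
    - Cy κ ν ψ A₁ A₂

/-- the exponent as a function of the averages -/
def G0 (κ b cf : ℝ) (v : Fin 9 → ℝ) : ℝ :=
  v 2 * cf ^ 2 / 2 + v 4 - κ * v 5 / Real.sqrt (1 - v 0 ^ 2 * v 1)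
    + v 0 * v 6 / Real.sqrt (1 - v 0 ^ 2 * v 1)
    + ((b * v 0 - v 0 * v 3 / v 2) / Real.sqrt (1 - v 0 ^ 2 * v 1) - cf) * v 7 - v 8

def G1 (v : Fin 9 → ℝ) : ℝ := v 7 / (Real.sqrt (1 - v 0 ^ 2 * v 1) * v 2)

end

theorem TU2_PL {κ ν ψ A₁ A₂ c K : ℝ} (hν : 0 ≤ ν) (hc : 0 ≤ c) :
    ∀ f ∈ TU2 κ ν ψ A₁ A₂ c K, PL f := by
  have hy : LipC (fun x => -yt ψ A₁ A₂ x) := (LipC_yt A₁ A₂).neg
  have hM : LipC (fun x => Mi (-yt ψ A₁ A₂ x)) := LipC.comp LipC_Mi hy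
  intro f hf
  simp only [TU2, List.mem_cons, List.not_mem_nil, or_false] at hf
  rcases hf with rfl | rfl | rfl | rfl | rfl | rfl
  · exact PL.comp (f := fun x => Real.log (Ph x)) PL_logPh hy
  · exact hM.pl
  · exact LipC.mul LipC_id hM
  · exact LipC.mul (LipC_FF hν qp_lt_one) hM
  · exact LipC.mul (LipC_yt A₁ A₂) hM
  · exact PL_cut c K hc

theorem G_cont {κ b cf : ℝ} {v : Fin 9 → ℝ} (h1 : 0 < 1 - v 0 ^ 2 * v 1) (h2 : v 2 ≠ 0) {e : ℝ}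
    (he : 0 < e) : ∃ R : ℝ, 0 < R ∧ ∀ u : Fin 9 → ℝ, (∀ i, |u i - v i| < R) →
      |G0 κ b cf u - G0 κ b cf v| < e ∧ |G1 u - G1 v| < e ∧
      Real.sqrt (1 - v 0 ^ 2 * v 1) / 2 < Real.sqrt (1 - u 0 ^ 2 * u 1) := by
  have ev : ∀ i : Fin 9, ContinuousAt (fun u : Fin 9 → ℝ => u i) v :=
    fun i => (continuous_apply i).continuousAt
  have hs : ContinuousAt (fun u : Fin 9 → ℝ => Real.sqrt (1 - u 0 ^ 2 * u 1)) v :=
    (continuousAt_const.sub (((ev 0).pow 2).mul (ev 1))).sqrt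
  have hs0 : 0 < Real.sqrt (1 - v 0 ^ 2 * v 1) := Real.sqrt_pos.2 h1
  have c0 : ContinuousAt (G0 κ b cf) v := by
    have a1 : ContinuousAt (fun u : Fin 9 → ℝ => κ * u 5 / Real.sqrt (1 - u 0 ^ 2 * u 1)) v :=
      (continuousAt_const.mul (ev 5)).div hs hs0.ne'
    have a2 : ContinuousAt (fun u : Fin 9 → ℝ => u 0 * u 6 / Real.sqrt (1 - u 0 ^ 2 * u 1)) v :=
      ((ev 0).mul (ev 6)).div hs hs0.ne'
    have a3 : ContinuousAt (fun u : Fin 9 → ℝ => (b * u 0 - u 0 * u 3 / u 2)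
        / Real.sqrt (1 - u 0 ^ 2 * u 1)) v :=
      ((continuousAt_const.mul (ev 0)).sub (((ev 0).mul (ev 3)).div (ev 2) h2)).div hs hs0.ne'
    exact (((((((ev 2).mul continuousAt_const).div_const 2).add (ev 4)).sub a1).add a2).add
      ((a3.sub continuousAt_const).mul (ev 7))).sub (ev 8)
  have c1 : ContinuousAt G1 v := (ev 7).div (hs.mul (ev 2)) (mul_ne_zero hs0.ne' h2)
  obtain ⟨R1, hR1, k1⟩ := Metric.continuousAt_iff.1 c0 e he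
  obtain ⟨R2, hR2, k2⟩ := Metric.continuousAt_iff.1 c1 e he
  obtain ⟨R3, hR3, k3⟩ := Metric.continuousAt_iff.1 hs (Real.sqrt (1 - v 0 ^ 2 * v 1) / 2)
    (by positivity)
  refine ⟨min R1 (min R2 R3), lt_min hR1 (lt_min hR2 hR3), fun u hu => ?_⟩
  have hd : ∀ R', 0 < R' → min R1 (min R2 R3) ≤ R' → dist u v < R' := by
    intro R' hR' hle
    rw [dist_pi_lt_iff hR']
    intro i
    rw [Real.dist_eq]
    exact (hu i).trans_le hle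
  have d1 := k1 (hd R1 hR1 (min_le_left _ _))
  have d2 := k2 (hd R2 hR2 ((min_le_right _ _).trans (min_le_left _ _)))
  have d3 := k3 (hd R3 hR3 ((min_le_right _ _).trans (min_le_right _ _)))
  rw [Real.dist_eq] at d1 d2 d3
  refine ⟨d1, d2, ?_⟩
  have := (abs_lt.1 d3).1
  linarith

end Pool.Agent.IP49
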