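import Pool.Agent.IP49.ULocC

/-!
IP49, part U1 (helper1): local bound of `Pcore` near `ρ₀`, the main estimate.
-/

set_option autoImplicit false
open MeasureTheory ProbabilityTheory Filter Topology

namespace Pool.Agent.IP49

open SR

theorem sgn_sq (b : Bool) : sgn b ^ 2 = 1 := by
  cases b <;> simp [sgn]

theorem dt_wp_right {N : ℕ} (h m : Fin N → ℝ) (w : Fin N → Bool) :
    dt h (wp m w) = dt h (fun i => sgn (w i)) - rhw m w * dt h m := by
  unfold dt wp
  rw [Finset.mul_sum, ← Finset.sum_sub_distrib]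
  exact Finset.sum_congr rfl fun i _ => by ring

theorem dt_sgn_sq_le {N : ℕ} (h : Fin N → ℝ) (w : Fin N → Bool) :
    dt h (fun i => sgn (w i)) ^ 2 ≤ nsq h * N := by
  have h1 := Finset.sum_mul_sq_le_sq_mul_sq Finset.univ h (fun i => sgn (w i))
  have h2 : ∑ i : Fin N, sgn (w i) ^ 2 = N := by
    simp [sgn_sq]
  rw [h2] at h1
  exact h1

/-- the vector of averages -/
noncomputable def uvv {M N : ℕ} (h m : Fin N → ℝ) (hh n yv U V : Fin M → ℝ) (w : Fin N → Bool) :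
    Fin 9 → ℝ :=
  ![rhw m w, nsq m / N, nsq n / N, dt h m / N, (∑ a, V a) / N, (∑ a, U a) / N,
    (∑ a, hh a * U a) / N, (∑ a, n a * U a) / N, (∑ a, yv a * U a) / N]

theorem expo_eq {κ b cf e τ : ℝ} {M N : ℕ} (h m : Fin N → ℝ) (hh n yv U V z : Fin M → ℝ)
    (w : Fin N → Bool) (hN : 0 < N) (hn : 0 < nsq n) (hτ0 : 0 < τ)
    (hτ : τ = Real.sqrt (1 - rhw m w ^ 2 * (nsq m / N)))
    (hz : ∀ a, z a = (κ - rhw m w * hh a - (b * rhw m w + dt h (wp m w) / nsq n
            - cf * τ) * n a) / τ) :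
    (Real.sqrt (nsq n) * |cf| + 1) ^ 2 / 2 + ∑ a, (V a - U a * (z a - e + yv a))
      = N * (G0 κ b cf (uvv h m hh n yv U V w)
          + G1 (uvv h m hh n yv U V w) * (dt h (fun i => sgn (w i)) / N))
        + e * (∑ a, U a) + Real.sqrt (nsq n) * |cf| + 1 / 2 := by
  have hN' : (0 : ℝ) < N := by exact_mod_cast hN
  rw [lin_sum (S := b * rhw m w + dt h (wp m w) / nsq n) hh n yv z U V hτ0.ne' hz, dt_wp_right]
  have h1 : (Real.sqrt (nsq n) * |cf| + 1) ^ 2 = nsq n * cf ^ 2 + 2 * (Real.sqrt (nsq n) * |cf|)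
      + 1 := by
    have e1 := Real.sq_sqrt hn.le
    have e2 := sq_abs cf
    calc _ = Real.sqrt (nsq n) ^ 2 * |cf| ^ 2 + 2 * (Real.sqrt (nsq n) * |cf|) + 1 := by ring
      _ = _ := by rw [e1, e2]
  rw [h1]
  simp only [G0, G1, uvv, Matrix.cons_val_zero, Matrix.cons_val_one, Matrix.cons_val]
  rw [← hτ]
  field_simp
  ring

end Pool.Agent.IP49
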