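import Pool.Agent.IP49.ULocD

/-!
IP49, part U1 (helper1): local bound of `Pcore` near `ρ₀`, uniformly on the typical set.
-/

set_option autoImplicit false
open MeasureTheory ProbabilityTheory Filter Topology

namespace Pool.Agent.IP49

open SR

/-- deterministic core of the local bound: everything except the choice of the parameters -/
theorem loc_core {κ b cf e δ K L1 c s₀ E₀ η BX : ℝ} {M N : ℕ} {h m : Fin N → ℝ}
    {hh n yv : Fin M → ℝ} {w : Fin N → Bool} {τ : ℝ} {al' : ℝ}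
    (hN : 0 < N) (hm : 0 < nsq m) (hn : 0 < nsq n) (hδ : 0 ≤ δ) (hK : 0 < K) (he : 0 < e)
    (hη : 0 < η) (hBX : 0 < BX) (hτ0 : 0 < τ)
    (hτ : τ = Real.sqrt (1 - rhw m w ^ 2 * (nsq m / N)))
    (hg0 : |G0 κ b cf (uvv h m hh n yv (fun a => Mi (-yv a)) (fun a => Real.log (Ph (-yv a))) w)
        - E₀| ≤ η / 8)
    (hg1 : |G1 (uvv h m hh n yv (fun a => Mi (-yv a)) (fun a => Real.log (Ph (-yv a))) w) - s₀|
        ≤ η / (8 * BX))
    (hX : |dt h (fun i => sgn (w i)) / N| ≤ BX)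
    (hU : e * (∑ a, Mi (-yv a)) ≤ η / 16 * N)
    (hL : K / (τ * e) ^ 2 ≤ L1) (hδL : 2 * δ * L1 ≤ η / 16) (hL1 : 2 * L1 ≤ η / 16 * N)
    (hconst : Real.log (2 * Real.pi) / 2 + 1 / 2 ≤ η / 16 * N)
    (hsq : Real.sqrt (nsq n) * |cf| ≤ η / 16 * N)
    (hM : (M : ℝ) ≤ al' * N) (hKe : al' * Real.exp (-(K / 2)) ≤ η / 16)
    (hcut : ∑ a, max 0 (c * (1 + |hh a|) ^ 2 - K / 2) ≤ η / 8 * N)
    (hz : ∀ a, 2 + ((κ - rhw m w * hh a - (b * rhw m w + dt h (wp m w) / nsq n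
            - cf * τ) * n a) / τ - e) ^ 2 ≤ c * (1 + |hh a|) ^ 2) :
    Pcore κ δ b h m hh n w
      ≤ Real.exp ((E₀ + η) * N + s₀ * dt h (fun i => sgn (w i))) := by
  have hN' : (0 : ℝ) < N := by exact_mod_cast hN
  have hw1 : nsq (wp m w) / N = 1 - rhw m w ^ 2 * (nsq m / N) := by
    rw [nsq_wp m hm w]; field_simp
  have hτ' : τ = Real.sqrt (nsq (wp m w) / N) := by rw [hw1, hτ]
  have hw : 0 < nsq (wp m w) := by
    have h1 : 0 < nsq (wp m w) / N := by
      by_contra hcon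
      push Not at hcon
      rw [Real.sqrt_eq_zero_of_nonpos hcon] at hτ'
      exact absurd hτ' hτ0.ne'
    have := mul_pos h1 hN'
    rwa [div_mul_cancel₀ _ hN'.ne'] at this
  set z : Fin M → ℝ := fun a => (κ - rhw m w * hh a - (b * rhw m w + dt h (wp m w) / nsq n
            - cf * τ) * n a) / τ with hzdef
  have h1 := Pcore_exp (κ := κ) (b := b) (δ := δ) (e := e) (cF := cf) h m hh n yv z w hN hm hn hw
    hδ hK he hτ' (fun a => rfl)
  have h2 := expo_eq (κ := κ) (b := b) (cf := cf) (e := e) h m hh n yv (fun a => Mi (-yv a))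
    (fun a => Real.log (Ph (-yv a))) z w hN hn hτ0 hτ (fun a => rfl)
  refine h1.trans (Real.exp_le_exp.2 ?_)
  set X := dt h (fun i => sgn (w i)) with hXdef
  set g0 := G0 κ b cf (uvv h m hh n yv (fun a => Mi (-yv a)) (fun a => Real.log (Ph (-yv a))) w)
  set g1 := G1 (uvv h m hh n yv (fun a => Mi (-yv a)) (fun a => Real.log (Ph (-yv a))) w)
  have c1 : g0 ≤ E₀ + η / 8 := by have := (abs_le.1 hg0).2; linarith
  have c2 : g1 * (X / N) ≤ s₀ * (X / N) + η / 8 := by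
    have k1 : |(g1 - s₀) * (X / N)| ≤ η / (8 * BX) * BX := by
      rw [abs_mul]
      exact mul_le_mul hg1 hX (abs_nonneg _) (by positivity)
    have k2 : η / (8 * BX) * BX = η / 8 := by field_simp
    have k3 := (abs_le.1 k1).2
    rw [k2] at k3
    nlinarith
  have c3 : (N : ℝ) * (g0 + g1 * (X / N)) ≤ (E₀ + η / 8 + η / 8) * N + s₀ * X := by
    have k4 : (N : ℝ) * (g0 + g1 * (X / N)) ≤ N * (E₀ + η / 8 + (s₀ * (X / N) + η / 8)) :=
      mul_le_mul_of_nonneg_left (by linarith) hN'.le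
    have k5 : (N : ℝ) * (E₀ + η / 8 + (s₀ * (X / N) + η / 8))
        = (E₀ + η / 8 + η / 8) * N + s₀ * X := by field_simp; ring
    linarith
  have c4 : K / (τ * e) ^ 2 * (2 * δ * N + 2) ≤ η / 16 * N + η / 16 * N := by
    have k6 : K / (τ * e) ^ 2 * (2 * δ * N + 2) ≤ L1 * (2 * δ * N + 2) :=
      mul_le_mul_of_nonneg_right hL (by positivity)
    have k7 : 2 * δ * L1 * N ≤ η / 16 * N := mul_le_mul_of_nonneg_right hδL hN'.le
    nlinarith
  have c5 : (M : ℝ) * Real.exp (-(K / 2)) ≤ η / 16 * N := by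
    have k8 : (M : ℝ) * Real.exp (-(K / 2)) ≤ al' * N * Real.exp (-(K / 2)) :=
      mul_le_mul_of_nonneg_right hM (Real.exp_pos _).le
    have k9 : al' * Real.exp (-(K / 2)) * N ≤ η / 16 * N := mul_le_mul_of_nonneg_right hKe hN'.le
    linarith
  have c6 : ∑ a, max 0 (2 + (z a - e) ^ 2 - K / 2) ≤ η / 8 * N := by
    refine le_trans (Finset.sum_le_sum fun a _ => ?_) hcut
    exact max_le_max (le_refl _) (by have := hz a; simp only [hzdef]; linarith)
  have c7 := h2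
  nlinarith

end Pool.Agent.IP49
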