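import Pool.Agent.IP49.ULocE

/-!
IP49, part U1 (helper1): local bound of `Pcore` near `ρ₀`, choice of the parameters.
-/

set_option autoImplicit false
open MeasureTheory ProbabilityTheory Filter Topology

namespace Pool.Agent.IP49

open SR

theorem z_bound {κ B1 B2 cf c2 t1 c1 e τ ρ S a n : ℝ} (hB1p : 0 ≤ B1) (hB2p : 0 ≤ B2)
    (hc2 : 0 ≤ c2) (ht1p : 0 < t1) (hτt : t1 < τ) (hτ1 : τ ≤ 1) (hep : 0 < e) (he1 : e ≤ 1)
    (hrB : |ρ| ≤ B1) (hS : |S| ≤ B2) (k1 : |n| ≤ c2 * (1 + |a|))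
    (hc1 : c1 = (|κ| + B1 + (B2 + |cf|) * c2) / t1 + 1) :
    2 + ((κ - ρ * a - (S - cf * τ) * n) / τ - e) ^ 2 ≤ (c1 ^ 2 + 2) * (1 + |a|) ^ 2 := by
  have hτ0 : 0 < τ := ht1p.trans hτt
  have hha := abs_nonneg a
  have k2 : |(κ - ρ * a - (S - cf * τ) * n) / τ - e| ≤ c1 * (1 + |a|) := by
    have k3 : |κ - ρ * a - (S - cf * τ) * n| ≤ (|κ| + B1 + (B2 + |cf|) * c2) * (1 + |a|) := by
      have j1 : |ρ * a| ≤ B1 * (1 + |a|) := by
        rw [abs_mul]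
        exact mul_le_mul hrB (by linarith) hha hB1p
      have j2 : |S - cf * τ| ≤ B2 + |cf| := by
        refine (abs_sub _ _).trans (add_le_add hS ?_)
        rw [abs_mul, abs_of_pos hτ0]
        exact mul_le_of_le_one_right (abs_nonneg _) hτ1
      have j3 : |(S - cf * τ) * n| ≤ (B2 + |cf|) * (c2 * (1 + |a|)) := by
        rw [abs_mul]
        exact mul_le_mul j2 k1 (abs_nonneg _) (by positivity)
      have j4 : |κ| ≤ |κ| * (1 + |a|) := le_mul_of_one_le_right (abs_nonneg _) (by linarith)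
      have j5 := abs_sub (κ - ρ * a) ((S - cf * τ) * n)
      have j6 := abs_sub κ (ρ * a)
      have j7 : |κ| * (1 + |a|) + B1 * (1 + |a|) + (B2 + |cf|) * (c2 * (1 + |a|))
        = (|κ| + B1 + (B2 + |cf|) * c2) * (1 + |a|) := by ring
      linarith
    refine (abs_sub _ _).trans ?_
    rw [abs_div, abs_of_pos hτ0, abs_of_pos hep]
    have k5 : |κ - ρ * a - (S - cf * τ) * n| / τ
        ≤ (|κ| + B1 + (B2 + |cf|) * c2) * (1 + |a|) / t1 :=
      div_le_div₀ (by positivity) k3 ht1p hτt.le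
    have k6 : (|κ| + B1 + (B2 + |cf|) * c2) * (1 + |a|) / t1 + 1 * (1 + |a|)
        = c1 * (1 + |a|) := by rw [hc1]; ring
    linarith
  have k7 : ((κ - ρ * a - (S - cf * τ) * n) / τ - e) ^ 2 ≤ (c1 * (1 + |a|)) ^ 2 :=
    sq_le_sq' (by linarith [(abs_le.1 k2).1]) (abs_le.1 k2).2
  rw [mul_pow] at k7
  have k8 : (1 : ℝ) ≤ (1 + |a|) ^ 2 := one_le_pow₀ (by linarith)
  linarith

theorem X_bound {ψ Nr H D : ℝ} (hψ : 0 < ψ) (hN : 0 < Nr) (h1 : D ^ 2 ≤ H * Nr)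
    (h2 : H / Nr ≤ ψ + 1) : |D / Nr| ≤ ψ + 1 := by
  have k2 : (D / Nr) ^ 2 ≤ (ψ + 1) ^ 2 := by
    have k3 : H ≤ (ψ + 1) * Nr := by rwa [div_le_iff₀ hN] at h2
    rw [div_pow, div_le_iff₀ (by positivity)]
    have k5 : H * Nr ≤ (ψ + 1) * Nr * Nr := mul_le_mul_of_nonneg_right k3 hN.le
    have k7 : ψ + 1 ≤ (ψ + 1) ^ 2 := by nlinarith
    have k6 := mul_le_mul_of_nonneg_right k7 (show 0 ≤ Nr ^ 2 by positivity)
    nlinarith
  exact abs_le_of_sq_le_sq k2 (by linarith)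

theorem S_bound {b ρ B1 X BX k3 p ψ S : ℝ} (hb0 : 0 < b) (hb1 : b ≤ 1) (hρ : |ρ| ≤ B1)
    (hX : |X| ≤ BX) (hk : |k3| ≤ ψ + 1) (hψ : 0 < ψ) (hp : ψ / 2 ≤ p)
    (hS : S = b * ρ + (X - ρ * k3) / p) :
    |S| ≤ B1 + (BX + B1 * (ψ + 1)) / (ψ / 2) := by
  have hB1p : 0 ≤ B1 := (abs_nonneg _).trans hρ
  have hBXp : 0 ≤ BX := (abs_nonneg _).trans hX
  have hp0 : 0 < p := by linarith
  rw [hS]
  have k2 : |b * ρ| ≤ B1 := by
    rw [abs_mul, abs_of_pos hb0]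
    exact (mul_le_of_le_one_left (abs_nonneg _) hb1).trans hρ
  have k3' : |X - ρ * k3| ≤ BX + B1 * (ψ + 1) := by
    refine (abs_sub _ _).trans (add_le_add hX ?_)
    rw [abs_mul]
    exact mul_le_mul hρ hk (abs_nonneg _) hB1p
  have k4 : |(X - ρ * k3) / p| ≤ (BX + B1 * (ψ + 1)) / (ψ / 2) := by
    rw [abs_div, abs_of_pos hp0]
    exact div_le_div₀ (by positivity) k3' (by positivity) hp
  exact (abs_add_le _ _).trans (add_le_add k2 k4)

theorem loc_exp {κ ν ψ ρ₀ : ℝ} (A₁ A₂ : ℝ) (hν : 0 < ν) (hψ : 0 < ψ) (hρ : ρ₀ ^ 2 * qp ψ < 1)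
    {η : ℝ} (hη : 0 < η) :
    ∃ r : ℝ, 0 < r ∧ ∃ c K : ℝ, 0 ≤ c ∧ ∃ dl : ℝ, 0 < dl ∧ ∃ δ : ℝ, 0 < δ ∧
      ∀ᶠ N : ℕ in atTop, ∀ y ∈ Yset κ ν ψ TB1 (TU2 κ ν ψ A₁ A₂ c K ++ TB2 κ ν ψ) dl
          ⌊al κ ν ψ * N⌋₊ N, ∀ w : Fin N → Bool, |rhw (mh y.1) w - ρ₀| < r →
        Pcore κ δ (1 - qp ψ) y.1 (mh y.1) y.2 (nh κ ν ψ y.2) w
          ≤ Real.exp ((E0 κ ν ψ ρ₀ A₁ A₂ + η) * N
            + cF κ ν ψ A₁ A₂ / Real.sqrt (1 - ρ₀ ^ 2 * qp ψ)
              * dt y.1 (fun i => sgn (w i))) := by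
  obtain ⟨q, hqdef⟩ : ∃ q, q = qp ψ := ⟨_, rfl⟩
  have hq0 : 0 < q := hqdef ▸ qp_pos hψ
  have hq1 : q < 1 := hqdef ▸ qp_lt_one
  have hα : 0 < al κ ν ψ := al_pos hν.le hψ
  obtain ⟨cf, hcf⟩ : ∃ cf, cf = cF κ ν ψ A₁ A₂ := ⟨_, rfl⟩
  have hρ' : 0 < 1 - ρ₀ ^ 2 * q := by rw [hqdef]; linarith
  set τ₀ := Real.sqrt (1 - ρ₀ ^ 2 * q) with hτ₀def
  have hτ₀ : 0 < τ₀ := Real.sqrt_pos.2 hρ'
  set B1 := |ρ₀| + 1 with hB1
  have hB1p : 0 < B1 := by have := abs_nonneg ρ₀; linarith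
  set BX := ψ + 1 with hBXdef
  have hBX : 0 < BX := by linarith
  set B2 := B1 + (BX + B1 * (ψ + 1)) / (ψ / 2) with hB2
  have hB2p : 0 < B2 := by positivity
  obtain ⟨c2, hc2, hF⟩ := (LipC_FF (κ := κ) hν.le (qp_lt_one (ψ := ψ))).lin
  set t1 := τ₀ / 2 with ht1
  have ht1p : 0 < t1 := by positivity
  set c1 := (|κ| + B1 + (B2 + |cf|) * c2) / t1 + 1 with hc1
  have hc1p : 0 ≤ c1 := by positivity
  set c := c1 ^ 2 + 2 with hc
  have hcp : 0 ≤ c := by positivity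
  set e := min 1 (η / (16 * (|C1 κ ν ψ A₁ A₂| + 1))) with hedef
  have hep : 0 < e := lt_min one_pos (by positivity)
  have he1 : e ≤ 1 := min_le_left _ _
  -- choice of K
  have hKex : ∃ K : ℝ, 0 < K ∧ al κ ν ψ * Real.exp (-(K / 2)) ≤ η / 16 ∧
      al κ ν ψ * GE (fun x => max 0 (c * (1 + |Real.sqrt q * x|) ^ 2 - K / 2)) ≤ η / 16 := by
    have h1 := cut_small (c := c) (s := Real.sqrt q) hcp (η := η / (16 * al κ ν ψ)) (by positivity)
    have h2 : Tendsto (fun K : ℝ => al κ ν ψ * Real.exp (-(K / 2))) atTop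
        (𝓝 (al κ ν ψ * 0)) := by
      refine Tendsto.const_mul _ (Real.tendsto_exp_neg_atTop_nhds_zero.comp ?_)
      exact tendsto_id.atTop_div_const (by norm_num)
    rw [mul_zero] at h2
    have h3 := h2.eventually (gt_mem_nhds (show (0 : ℝ) < η / 16 by positivity))
    obtain ⟨K, k1, k2, k3⟩ := (h1.and (h3.and (eventually_gt_atTop (0 : ℝ)))).exists
    refine ⟨K, k3, k2.le, ?_⟩
    have k4 := mul_le_mul_of_nonneg_left k1.le hα.le
    have k5 : al κ ν ψ * (η / (16 * al κ ν ψ)) = η / 16 := by field_simp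
    linarith
  obtain ⟨K, hK, hKe, hKc⟩ := hKex
  set L1 := K / (t1 * e) ^ 2 with hL1
  have hL1p : 0 < L1 := by positivity
  set δ := η / (32 * L1) with hδdef
  have hδ : 0 < δ := by positivity
  -- base point
  set v₀ : Fin 9 → ℝ := ![ρ₀, q, ψ, ψ * (1 - q), Ct κ ν ψ A₁ A₂, C1 κ ν ψ A₁ A₂,
    Ch κ ν ψ A₁ A₂, ψ * cf, Cy κ ν ψ A₁ A₂] with hv₀
  set η' := min (η / 8) (η / (8 * BX)) with hη'
  have hη'p : 0 < η' := lt_min (by positivity) (by positivity)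
  obtain ⟨R, hR, hcont⟩ := G_cont (κ := κ) (b := 1 - q) (cf := cf) (v := v₀)
    (by simpa [hv₀] using hρ') (by simpa [hv₀] using hψ.ne') hη'p
  have hG0 : G0 κ (1 - q) cf v₀ = E0 κ ν ψ ρ₀ A₁ A₂ := by
    simp only [G0, E0, hv₀, Matrix.cons_val_zero, Matrix.cons_val_one, Matrix.cons_val]
    rw [← hqdef, ← hcf, ← hτ₀def]
    field_simp
    ring
  have hG1 : G1 v₀ = cf / τ₀ := by
    simp only [G1, hv₀, Matrix.cons_val_zero, Matrix.cons_val_one, Matrix.cons_val]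
    rw [← hτ₀def]
    field_simp
  set dl := min (R / 2) (min 1 (min (ψ / 2) (min (q / 2) (η / 16)))) with hdl
  have hdlp : 0 < dl := by
    refine lt_min (by positivity) (lt_min one_pos (lt_min (by positivity) (lt_min (by positivity)
      (by positivity))))
  have hd1 : dl ≤ R / 2 := min_le_left _ _
  have hd2 : dl ≤ 1 := (min_le_right _ _).trans (min_le_left _ _)
  have hd3 : dl ≤ ψ / 2 := (min_le_right _ _).trans ((min_le_right _ _).trans (min_le_left _ _))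
  have hd4 : dl ≤ q / 2 := (min_le_right _ _).trans ((min_le_right _ _).trans
    ((min_le_right _ _).trans (min_le_left _ _)))
  have hd5 : dl ≤ η / 16 := (min_le_right _ _).trans ((min_le_right _ _).trans
    ((min_le_right _ _).trans (min_le_right _ _)))
  refine ⟨min R 1, lt_min hR one_pos, c, K / 2, hcp, dl, hdlp, δ, hδ, ?_⟩
  -- eventual conditions on N
  have hev : ∀ᶠ N : ℕ in atTop, 0 < N ∧ 2 * L1 ≤ η / 16 * N ∧
      Real.log (2 * Real.pi) / 2 + 1 / 2 ≤ η / 16 * N ∧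
      (ψ + 1) * cf ^ 2 ≤ (η / 16) ^ 2 * N := by
    have t1 : Tendsto (fun N : ℕ => η / 16 * (N : ℝ)) atTop atTop :=
      Tendsto.const_mul_atTop (by positivity) tendsto_natCast_atTop_atTop
    have t2 : Tendsto (fun N : ℕ => (η / 16) ^ 2 * (N : ℝ)) atTop atTop :=
      Tendsto.const_mul_atTop (by positivity) tendsto_natCast_atTop_atTop
    filter_upwards [eventually_gt_atTop 0, t1.eventually_ge_atTop (2 * L1),
      t1.eventually_ge_atTop (Real.log (2 * Real.pi) / 2 + 1 / 2),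
      t2.eventually_ge_atTop ((ψ + 1) * cf ^ 2)] with N a1 a2 a3 a4
    exact ⟨a1, a2, a3, a4⟩
  filter_upwards [hev] with N hNN y hy w hrw
  obtain ⟨hN, hL1N, hconst, hsqN⟩ := hNN
  have hN' : (0 : ℝ) < N := by exact_mod_cast hN
  have hyB : y ∈ Yset κ ν ψ TB1 (TB2 κ ν ψ) dl ⌊al κ ν ψ * N⌋₊ N :=
    ⟨hy.1, fun f hf => hy.2 f (List.mem_append_right _ hf)⟩
  obtain ⟨b1, b2, b3, b4, b5, b6⟩ := TB_avg hν.le hψ hyB
  rw [← hqdef] at b2 b3
  set h := y.1 with hh1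
  set hh := y.2 with hh2
  set m := mh h with hmdef
  set n := nh κ ν ψ hh with hndef
  set yv : Fin ⌊al κ ν ψ * N⌋₊ → ℝ := fun a => yt ψ A₁ A₂ (hh a) with hyv
  have tst : ∀ f ∈ TU2 κ ν ψ A₁ A₂ c (K / 2), |(∑ a, f (hh a)) / N
      - al κ ν ψ * GE (fun x => f (Real.sqrt (qp ψ) * x))| ≤ dl :=
    fun f hf => hy.2 f (List.mem_append_left _ hf)
  have u1 : |(∑ a, Real.log (Ph (-yv a))) / N - Ct κ ν ψ A₁ A₂| ≤ dl :=
    tst (fun x => Real.log (Ph (-yt ψ A₁ A₂ x))) (by simp [TU2])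
  have u2 : |(∑ a, Mi (-yv a)) / N - C1 κ ν ψ A₁ A₂| ≤ dl :=
    tst (fun x => Mi (-yt ψ A₁ A₂ x)) (by simp [TU2])
  have u3 : |(∑ a, hh a * Mi (-yv a)) / N - Ch κ ν ψ A₁ A₂| ≤ dl :=
    tst (fun x => x * Mi (-yt ψ A₁ A₂ x)) (by simp [TU2])
  have u4 : |(∑ a, n a * Mi (-yv a)) / N - ψ * cf| ≤ dl := by
    have k1 := tst (fun x => FF κ ν (qp ψ) x * Mi (-yt ψ A₁ A₂ x)) (by simp [TU2])
    have k2 : ψ * cf = al κ ν ψ * GE (fun x => FF κ ν (qp ψ) (Real.sqrt (qp ψ) * x)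
        * Mi (-yt ψ A₁ A₂ (Real.sqrt (qp ψ) * x))) := by
      rw [hcf, cF]; field_simp
    rw [k2]; exact k1
  have u5 : |(∑ a, yv a * Mi (-yv a)) / N - Cy κ ν ψ A₁ A₂| ≤ dl :=
    tst (fun x => yt ψ A₁ A₂ x * Mi (-yt ψ A₁ A₂ x)) (by simp [TU2])
  have u6 : |(∑ a, max 0 (c * (1 + |hh a|) ^ 2 - K / 2)) / N
      - al κ ν ψ * GE (fun x => max 0 (c * (1 + |Real.sqrt (qp ψ) * x|) ^ 2 - K / 2))| ≤ dl :=
    tst (fun x => max 0 (c * (1 + |x|) ^ 2 - K / 2)) (by simp [TU2])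
  have b1' := abs_le.1 b1
  have b2' := abs_le.1 b2
  have b3' := abs_le.1 b3
  have b5' := abs_le.1 b5
  have u2' := abs_le.1 u2
  have u6' := abs_le.1 u6
  -- positivity
  have hmN : q / 2 ≤ nsq m / N := by linarith
  have hnN : ψ / 2 ≤ nsq n / N := by linarith
  have hm : 0 < nsq m := by
    have h1 : 0 < nsq m / N := by linarith
    have := mul_pos h1 hN'
    rwa [div_mul_cancel₀ _ hN'.ne'] at this
  have hn : 0 < nsq n := by
    have h1 : 0 < nsq n / N := by linarith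
    have := mul_pos h1 hN'
    rwa [div_mul_cancel₀ _ hN'.ne'] at this
  -- closeness of the vector of averages
  have hclose : ∀ i, |uvv h m hh n yv (fun a => Mi (-yv a)) (fun a => Real.log (Ph (-yv a))) w i
      - v₀ i| < R := by
    have hlt : dl < R := by linarith
    intro i
    fin_cases i
    · exact hrw.trans_le (min_le_left _ _)
    · exact b2.trans_lt hlt
    · exact b5.trans_lt hlt
    · exact b3.trans_lt hlt
    · exact u1.trans_lt hlt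
    · exact u2.trans_lt hlt
    · exact u3.trans_lt hlt
    · exact u4.trans_lt hlt
    · exact u5.trans_lt hlt
  obtain ⟨g1, g2, g3⟩ := hcont _ hclose
  set τ := Real.sqrt (1 - rhw m w ^ 2 * (nsq m / N)) with hτdef
  have hτt : t1 < τ := g3
  have hτ0 : 0 < τ := ht1p.trans hτt
  have hτ1 : τ ≤ 1 := by
    rw [hτdef]
    apply Real.sqrt_le_one.2
    have : 0 ≤ rhw m w ^ 2 * (nsq m / N) := by positivity
    linarith
  have hrB : |rhw m w| ≤ B1 := by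
    have k1 := hrw.trans_le (min_le_right _ _)
    have k2 := abs_sub_abs_le_abs_sub (rhw m w) ρ₀
    linarith
  have hX : |dt h (fun i => sgn (w i)) / N| ≤ BX :=
    X_bound hψ hN' (dt_sgn_sq_le h w) (by linarith)
  have hv3 : |dt h m / N| ≤ ψ + 1 := by
    rw [abs_le]
    have : 0 < ψ * (1 - q) := mul_pos hψ (by linarith)
    have : ψ * (1 - q) ≤ ψ := by nlinarith
    constructor <;> linarith
  have hS : |(1 - q) * rhw m w + dt h (wp m w) / nsq n| ≤ B2 := by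
    have k1 : dt h (wp m w) / nsq n = (dt h (fun i => sgn (w i)) / N - rhw m w * (dt h m / N))
        / (nsq n / N) := by
      rw [dt_wp_right]; field_simp
    exact S_bound (b := 1 - q) (ρ := rhw m w) (X := dt h (fun i => sgn (w i)) / N)
      (k3 := dt h m / N) (p := nsq n / N) (by linarith) (by linarith) hrB hX hv3 hψ hnN (by rw [k1])
  have hmain := loc_core (κ := κ) (b := 1 - q) (cf := cf) (e := e) (δ := δ) (K := K) (L1 := L1)
    (c := c) (s₀ := cf / τ₀) (E₀ := E0 κ ν ψ ρ₀ A₁ A₂) (η := η) (BX := BX) (h := h) (m := m)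
    (hh := hh) (n := n) (yv := yv) (w := w) (τ := τ) (al' := al κ ν ψ) hN hm hn hδ.le hK
    hep hη hBX hτ0 hτdef ?_ ?_ hX ?_ ?_ ?_ hL1N hconst ?_ ?_ hKe ?_ ?_
  · rw [← hqdef, ← hcf]
    exact hmain
  · rw [← hG0]; exact g1.le.trans (min_le_left _ _)
  · rw [← hG1]; exact g2.le.trans (min_le_right _ _)
  · -- hU
    have k1 : ∑ a, Mi (-yv a) ≤ (|C1 κ ν ψ A₁ A₂| + 1) * N := by
      have k2 : (∑ a, Mi (-yv a)) / N ≤ |C1 κ ν ψ A₁ A₂| + 1 := by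
        have := le_abs_self (C1 κ ν ψ A₁ A₂); linarith
      rwa [div_le_iff₀ hN'] at k2
    have k3 : e * (|C1 κ ν ψ A₁ A₂| + 1) ≤ η / 16 := by
      have k4 : e ≤ η / (16 * (|C1 κ ν ψ A₁ A₂| + 1)) := min_le_right _ _
      have k5 := mul_le_mul_of_nonneg_right k4 (show 0 ≤ |C1 κ ν ψ A₁ A₂| + 1 by positivity)
      have k6 : η / (16 * (|C1 κ ν ψ A₁ A₂| + 1)) * (|C1 κ ν ψ A₁ A₂| + 1) = η / 16 := by
        field_simp
      linarith
    calc e * ∑ a, Mi (-yv a) ≤ e * ((|C1 κ ν ψ A₁ A₂| + 1) * N) :=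
          mul_le_mul_of_nonneg_left k1 hep.le
      _ = e * (|C1 κ ν ψ A₁ A₂| + 1) * N := by ring
      _ ≤ η / 16 * N := mul_le_mul_of_nonneg_right k3 hN'.le
  · -- hL
    apply div_le_div_of_nonneg_left hK.le (by positivity)
    exact pow_le_pow_left₀ (by positivity) (mul_le_mul_of_nonneg_right hτt.le hep.le) 2
  · -- hδL
    rw [hδdef]
    have : 2 * (η / (32 * L1)) * L1 = η / 16 := by field_simp; norm_num
    linarith
  · -- hsq
    have k1 : nsq n ≤ (ψ + 1) * N := by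
      have k4 : nsq n / N ≤ ψ + 1 := by linarith
      rwa [div_le_iff₀ hN'] at k4
    apply abs_le_of_sq_le_sq' _ (by positivity) |>.2
    rw [mul_pow, Real.sq_sqrt hn.le, sq_abs]
    calc nsq n * cf ^ 2 ≤ (ψ + 1) * N * cf ^ 2 := mul_le_mul_of_nonneg_right k1 (sq_nonneg _)
      _ = (ψ + 1) * cf ^ 2 * N := by ring
      _ ≤ (η / 16) ^ 2 * N * N := mul_le_mul_of_nonneg_right hsqN hN'.le
      _ = (η / 16 * N) ^ 2 := by ring
  · -- hM
    exact Nat.floor_le (by positivity)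
  · -- hcut
    have k1 : (∑ a, max 0 (c * (1 + |hh a|) ^ 2 - K / 2)) / N ≤ η / 8 := by
      rw [← hqdef] at u6'
      linarith
    rwa [div_le_iff₀ hN'] at k1
  · -- hz
    intro a
    exact z_bound hB1p.le hB2p.le hc2 ht1p hτt hτ1 hep he1 hrB hS (hF (hh a)) hc1

end Pool.Agent.IP49
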