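import Pool.Agent.IP49.UTB

/-!
IP49, part U1: volume of the typical set.

PROOF. `α = al`, `q = qp ψ`, `M = ⌊α N⌋`. On `Yset` (`TB_avg`) `nsq h ≤ (ψ+dl)N`,
`nsq hh ≤ (αq+dl)N`, so `1 ≤ exp(((ψ+dl)N - nsq h)/(2ψ)) exp(((αq+dl)N - nsq hh)/(2q))`, and
`∫⁻ exp(-nsq h/(2ψ)) dh = √(2πψ)^N` (one-dimensional `integral_gaussian`, product over coordinates:
`lintegral_fintype_prod_eq_prod` / `integral_fintype_prod_eq_prod` with `volume_pi`), same for `hh`
with exponent `M`; Tonelli on the product `(Fin N → ℝ) × (Fin M → ℝ)`. Then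
`(1/N) log = (1/2)log(2πψ) + (M/2N) log(2πq) + 1/2 + α/2 + dl/(2ψ) + dl/(2q)`, `M/N → α`.
-/

set_option autoImplicit false
open MeasureTheory ProbabilityTheory Filter Topology

namespace Pool.Agent.IP49

/-- the one-coordinate Gaussian integral, as a lower integral over `ℝ^n` -/
private theorem lint_gauss {s : ℝ} (hs : 0 < s) (n : ℕ) :
    ∫⁻ x : Fin n → ℝ, ENNReal.ofReal (Real.exp (-nsq x / (2 * s))) =
      ENNReal.ofReal (Real.sqrt (2 * Real.pi * s) ^ n) := by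
  have hb : 0 < 1 / (2 * s) := by positivity
  have h1 : ∀ x : Fin n → ℝ, Real.exp (-nsq x / (2 * s)) =
      ∏ i, Real.exp (-(1 / (2 * s)) * x i ^ 2) := by
    intro x
    rw [← Real.exp_sum]
    congr 1
    rw [nsq, ← Finset.mul_sum]
    field_simp
  have h2 : Integrable (fun x : Fin n → ℝ => ∏ i, Real.exp (-(1 / (2 * s)) * x i ^ 2)) := by
    exact Integrable.fintype_prod (f := fun _ x => Real.exp (-(1 / (2 * s)) * x ^ 2))
      fun _ => integrable_exp_neg_mul_sq hb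
  simp_rw [h1]
  rw [← ofReal_integral_eq_lintegral_ofReal h2
    (Eventually.of_forall fun x => Finset.prod_nonneg fun i _ => (Real.exp_pos _).le)]
  congr 1
  rw [integral_fintype_prod_volume_eq_pow (fun x : ℝ => Real.exp (-(1 / (2 * s)) * x ^ 2)),
    Fintype.card_fin, integral_gaussian]
  congr 2
  field_simp

private theorem nsq_meas (n : ℕ) : Measurable (fun x : Fin n → ℝ => nsq x) := by
  unfold nsq
  fun_prop

/-- the volume bound at finite `N` -/
private theorem vol_fin {κ ν ψ dl : ℝ} (hν : 0 ≤ ν) (hψ : 0 < ψ) {M N : ℕ} (hN : 0 < N) :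
    volume (Yset κ ν ψ TB1 (TB2 κ ν ψ) dl M N) ≤
      ENNReal.ofReal (Real.exp ((ψ + dl) * N / (2 * ψ) + (al κ ν ψ * qp ψ + dl) * N / (2 * qp ψ)) *
        (Real.sqrt (2 * Real.pi * ψ) ^ N * Real.sqrt (2 * Real.pi * qp ψ) ^ M)) := by
  have hq := qp_pos hψ
  have hN' : (0 : ℝ) < N := Nat.cast_pos.2 hN
  set c := Real.exp ((ψ + dl) * N / (2 * ψ) + (al κ ν ψ * qp ψ + dl) * N / (2 * qp ψ)) with hc
  have hc0 : 0 < c := Real.exp_pos _
  set f : (Fin N → ℝ) × (Fin M → ℝ) → ENNReal := fun y =>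
    ENNReal.ofReal (Real.exp (-nsq y.1 / (2 * ψ))) *
      ENNReal.ofReal (Real.exp (-nsq y.2 / (2 * qp ψ))) with hf
  have hm1 : Measurable fun x : Fin N → ℝ => ENNReal.ofReal (Real.exp (-nsq x / (2 * ψ))) :=
    ((((nsq_meas N).neg).div_const _).exp).ennreal_ofReal
  have hm2 : Measurable fun x : Fin M → ℝ => ENNReal.ofReal (Real.exp (-nsq x / (2 * qp ψ))) :=
    ((((nsq_meas M).neg).div_const _).exp).ennreal_ofReal
  have hfm : Measurable f := (hm1.comp measurable_fst).mul (hm2.comp measurable_snd)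
  have hsub : Yset κ ν ψ TB1 (TB2 κ ν ψ) dl M N ⊆ {y | ENNReal.ofReal c⁻¹ ≤ f y} := by
    intro y hy
    obtain ⟨h1, -, -, h2, -, -⟩ := TB_avg hν hψ hy
    have h3 : nsq y.1 ≤ (ψ + dl) * N := by
      have := (abs_le.1 h1).2
      rw [sub_le_iff_le_add, div_le_iff₀ hN'] at this
      linarith
    have h4 : nsq y.2 ≤ (al κ ν ψ * qp ψ + dl) * N := by
      have := (abs_le.1 h2).2
      rw [sub_le_iff_le_add, div_le_iff₀ hN'] at this
      linarith
    simp only [Set.mem_ofPred_eq, hf]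
    rw [← ENNReal.ofReal_mul (Real.exp_pos _).le, ← Real.exp_add, hc, ← Real.exp_neg]
    refine ENNReal.ofReal_le_ofReal (Real.exp_le_exp.2 ?_)
    have h5 : nsq y.1 / (2 * ψ) ≤ (ψ + dl) * N / (2 * ψ) :=
      div_le_div_of_nonneg_right h3 (by positivity)
    have h6 : nsq y.2 / (2 * qp ψ) ≤ (al κ ν ψ * qp ψ + dl) * N / (2 * qp ψ) :=
      div_le_div_of_nonneg_right h4 (by positivity)
    rw [neg_div, neg_div]
    linarith
  have h7 := mul_meas_ge_le_lintegral (μ := (volume : Measure ((Fin N → ℝ) × (Fin M → ℝ)))) hfm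
    (ENNReal.ofReal c⁻¹)
  have h8 : ∫⁻ y, f y = ENNReal.ofReal (Real.sqrt (2 * Real.pi * ψ) ^ N *
      Real.sqrt (2 * Real.pi * qp ψ) ^ M) := by
    rw [hf, Measure.volume_eq_prod, lintegral_prod_mul hm1.aemeasurable hm2.aemeasurable,
      lint_gauss hψ, lint_gauss hq, ENNReal.ofReal_mul (by positivity)]
  rw [h8] at h7
  refine (measure_mono hsub).trans ?_
  have h9 : ENNReal.ofReal c * ENNReal.ofReal c⁻¹ = 1 := by
    rw [← ENNReal.ofReal_mul hc0.le, mul_inv_cancel₀ hc0.ne', ENNReal.ofReal_one]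
  calc volume {y | ENNReal.ofReal c⁻¹ ≤ f y}
      = ENNReal.ofReal c * (ENNReal.ofReal c⁻¹ * volume {y | ENNReal.ofReal c⁻¹ ≤ f y}) := by
        rw [← mul_assoc, h9, one_mul]
    _ ≤ ENNReal.ofReal c * ENNReal.ofReal (Real.sqrt (2 * Real.pi * ψ) ^ N *
      Real.sqrt (2 * Real.pi * qp ψ) ^ M) := by gcongr
    _ = _ := by rw [← ENNReal.ofReal_mul hc0.le]

theorem vol_Y {κ ν ψ : ℝ} (hν : 0 ≤ ν) (hψ : 0 < ψ) {η : ℝ} (hη : 0 < η) :
    ∃ dl : ℝ, 0 < dl ∧ ∀ᶠ N : ℕ in atTop,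
      volume (Yset κ ν ψ TB1 (TB2 κ ν ψ) dl ⌊al κ ν ψ * N⌋₊ N)
        ≤ ENNReal.ofReal (Real.exp ((LV κ ν ψ + η) * N)) := by
  have hq := qp_pos hψ
  have hal := al_pos (κ := κ) hν hψ
  refine ⟨η * min ψ (qp ψ) / 2, by have := lt_min hψ hq; positivity, ?_⟩
  set dl := η * min ψ (qp ψ) / 2 with hdl
  have hd1 : dl / (2 * ψ) ≤ η / 4 := by
    rw [div_le_iff₀ (by positivity)]
    have := mul_le_mul_of_nonneg_left (min_le_left ψ (qp ψ)) hη.le
    rw [hdl]
    linarith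
  have hd2 : dl / (2 * qp ψ) ≤ η / 4 := by
    rw [div_le_iff₀ (by positivity)]
    have := mul_le_mul_of_nonneg_left (min_le_right ψ (qp ψ)) hη.le
    rw [hdl]
    linarith
  have hev : ∀ᶠ N : ℕ in atTop, |Real.log (2 * Real.pi * qp ψ)| ≤ η * N := by
    have := (tendsto_natCast_atTop_atTop (R := ℝ)).const_mul_atTop hη
    exact this.eventually_ge_atTop _
  filter_upwards [hev, eventually_gt_atTop 0] with N hN hN0
  have hN' : (0 : ℝ) < N := Nat.cast_pos.2 hN0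
  refine (vol_fin hν hψ hN0).trans (ENNReal.ofReal_le_ofReal ?_)
  set M := ⌊al κ ν ψ * N⌋₊ with hM
  have hM1 : (M : ℝ) ≤ al κ ν ψ * N := Nat.floor_le (by positivity)
  have hM2 : al κ ν ψ * N < M + 1 := Nat.lt_floor_add_one _
  have h1 : Real.sqrt (2 * Real.pi * ψ) ^ N = Real.exp (N * (Real.log (2 * Real.pi * ψ) / 2)) := by
    rw [Real.exp_nat_mul, ← Real.log_sqrt (by positivity), Real.exp_log (by positivity)]
  have h2 : Real.sqrt (2 * Real.pi * qp ψ) ^ M =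
      Real.exp (M * (Real.log (2 * Real.pi * qp ψ) / 2)) := by
    rw [Real.exp_nat_mul, ← Real.log_sqrt (by positivity), Real.exp_log (by positivity)]
  rw [h1, h2, ← Real.exp_add, ← Real.exp_add]
  refine Real.exp_le_exp.2 ?_
  have h3 : (ψ + dl) * N / (2 * ψ) = N / 2 + dl / (2 * ψ) * N := by
    field_simp
  have h4 : (al κ ν ψ * qp ψ + dl) * N / (2 * qp ψ) = al κ ν ψ / 2 * N + dl / (2 * qp ψ) * N := by
    field_simp
  have h5 := mul_le_mul_of_nonneg_right hd1 hN'.le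
  have h6 := mul_le_mul_of_nonneg_right hd2 hN'.le
  have h7 : (M - al κ ν ψ * N) * Real.log (2 * Real.pi * qp ψ) ≤
      |Real.log (2 * Real.pi * qp ψ)| := by
    refine (le_abs_self _).trans ?_
    rw [abs_mul]
    refine mul_le_of_le_one_left (abs_nonneg _) ?_
    rw [abs_le]
    constructor <;> linarith
  rw [h3, h4, LV]
  nlinarith [h5, h6, h7, hN]

end Pool.Agent.IP49
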