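import Pool.Agent.IP49.UCov
import Pool.Agent.IP49.UDenY
import Pool.Agent.IP49.UVol

/-!
IP49, part U1: for fixed `y`, `E_G[ρ_ε(R_G(y)) #near]`.

PROOFS.
`near_lint_le`: change variables by `asmG_law` (`GM M N = gm`, integrals over `q = (p, H)`); for
every `q`: if `Rsq > r` the integrand is `≤ (√(2π)ε)⁻¹^(N+M) exp(-r/(2ε²))`; if `Rsq ≤ r` and
`Near`, then by `near_core` `H` lies in the event of `Pcore` with
`δ' N = 2 δ N + 4 (N/nsq m + N/nsq n) r`; so the integrand is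
`≤ const + ρ_ε(Rsq(p)) 1[H ∈ E]`, `Rsq` does not depend on `H` (`Rsq_asmG_eq`), and
`∫⁻ (p, H) ρ_ε 1_E = (∫⁻ p ρ_ε) P(E)` by Tonelli (`lintegral_prod_mul`), and
`∫⁻ p ρ_ε = ∫⁻ q ρ_ε = ∫⁻ G ρ_ε(Rsq G)`.
`VZ_pt`: `den_Y (η/4)`, `U_cov (η/4)` give `dl`'s and `δc`; lists = concatenations with `TB1`, `TB2`,
`dl` = minimum, also `dl ≤ q/2, ψ/2`. On `Yset`: `N/nsq m ≤ 2/q`, `N/nsq n ≤ 2/ψ`. Take
`r = r0 N`, `r0 = δc/(16 (1/q + 1/ψ))`, `δ = δc/4`: `2 δ + 4 (2/q + 2/ψ) r0 ≤ δc`. Sum over the `2^N`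
configurations: first terms `≤ 2^N (√(2π)ε)⁻¹^(N+M) exp(-r0 N/(2ε²)) ≤ (1/2) exp(target N)` if `ε` is
small (`x² r0/2 - (1+α) log x → ∞`), `M ≤ α N`; second `≤ exp((-LV - d b + η/4) N) exp((η₁ + η/4)N)`.
-/

set_option autoImplicit false
open MeasureTheory ProbabilityTheory Filter Topology

namespace Pool.Agent.IP49

open SR

theorem cont_Rsq {κ ν ψ : ℝ} {M N : ℕ} (y : (Fin N → ℝ) × (Fin M → ℝ)) :
    Continuous (fun G : Fin M → Fin N → ℝ => Rsq κ ν ψ G y) := by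
  unfold Rsq nsq R1 R2
  fun_prop

theorem cont_core {b : ℝ} {M N : ℕ} (h m : Fin N → ℝ) (hh n : Fin M → ℝ) (w : Fin N → Bool)
    (a : Fin M) : Continuous (fun H : Fin M → Fin N → ℝ => core b h m hh n w H a) := by
  unfold core dt
  fun_prop

theorem meas_near {κ δ : ℝ} {M N : ℕ} (w : Fin N → Bool) :
    MeasurableSet {G : Fin M → Fin N → ℝ | Near κ δ G w} := by
  unfold Near
  apply measurableSet_le _ measurable_const
  unfold yv
  fun_prop

theorem meas_core {κ b D : ℝ} {M N : ℕ} (h m : Fin N → ℝ) (hh n : Fin M → ℝ) (w : Fin N → Bool) :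
    MeasurableSet {H : Fin M → Fin N → ℝ | ∑ a, (max 0 (κ - core b h m hh n w H a)) ^ 2 ≤ D} := by
  apply measurableSet_le _ measurable_const
  have hc := fun a => (cont_core (b := b) h m hh n w a).measurable
  fun_prop

theorem meas_rho {κ ν ψ ε : ℝ} {K M N : ℕ} (y : (Fin N → ℝ) × (Fin M → ℝ)) :
    Measurable (fun G : Fin M → Fin N → ℝ => ENNReal.ofReal (rhoE ε K (Rsq κ ν ψ G y))) := by
  have hc := (cont_Rsq (κ := κ) (ν := ν) (ψ := ψ) y).measurable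
  unfold rhoE
  fun_prop

open Classical in
theorem near_lint_le {κ ν ψ ε δ r : ℝ} (hε : 0 < ε) (hδ : 0 ≤ δ) (hr : 0 ≤ r) {M N : ℕ}
    (h : Fin N → ℝ) (hh : Fin M → ℝ) (hN : 0 < N)
    (hm : 0 < nsq (mh h)) (hn : 0 < nsq (nh κ ν ψ hh)) (w : Fin N → Bool) :
    ∫⁻ G, ENNReal.ofReal (rhoE ε (N + M) (Rsq κ ν ψ G (h, hh)))
        * (if Near κ δ G w then 1 else 0) ∂(GM M N)
      ≤ ENNReal.ofReal ((Real.sqrt (2 * Real.pi) * ε)⁻¹ ^ (N + M) * Real.exp (-r / (2 * ε ^ 2)))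
        + (∫⁻ G, ENNReal.ofReal (rhoE ε (N + M) (Rsq κ ν ψ G (h, hh))) ∂(GM M N))
          * ENNReal.ofReal (Pcore κ (2 * δ + 4 * (1 / nsq (mh h) + 1 / nsq (nh κ ν ψ hh)) * r)
              (1 - qp ψ) h (mh h) hh (nh κ ν ψ hh) w) := by
  set m := mh h with hmdef
  set n := nh κ ν ψ hh with hndef
  have hlaw := asmG_law m n hm hn
  set μ1 := (SR.gv (Fin N)).prod (SR.gv (Fin M)) with hμ1
  set D := 2 * δ + 4 * (1 / nsq m + 1 / nsq n) * r with hD
  set E : Set (Fin M → Fin N → ℝ) :=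
    {H | ∑ a, (max 0 (κ - core (1 - qp ψ) h m hh n w H a)) ^ 2 ≤ D * N} with hE
  have hEm : MeasurableSet E := meas_core h m hh n w
  set C0 := ENNReal.ofReal
    ((Real.sqrt (2 * Real.pi) * ε)⁻¹ ^ (N + M) * Real.exp (-r / (2 * ε ^ 2))) with hC0
  set A0 : (Fin N → ℝ) × (Fin M → ℝ) → ENNReal := fun p =>
    ENNReal.ofReal (rhoE ε (N + M) (Rsq κ ν ψ (asmG m n (p, 0)) (h, hh))) with hA0
  have hA0m : Measurable A0 := by
    have h1 : Measurable (fun p : (Fin N → ℝ) × (Fin M → ℝ) =>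
        asmG m n (p, (0 : Fin M → Fin N → ℝ))) :=
      hlaw.measurable.comp (measurable_id.prodMk measurable_const)
    exact (meas_rho (κ := κ) (ν := ν) (ψ := ψ) (h, hh)).comp h1
  have hA : ∀ q : ((Fin N → ℝ) × (Fin M → ℝ)) × (Fin M → Fin N → ℝ),
      ENNReal.ofReal (rhoE ε (N + M) (Rsq κ ν ψ (asmG m n q) (h, hh))) = A0 q.1 := by
    rintro ⟨p, H⟩
    rw [hA0]
    simp only
    rw [Rsq_asmG_eq h hh hm hn p H 0]
  have e1 : ∫⁻ G, ENNReal.ofReal (rhoE ε (N + M) (Rsq κ ν ψ G (h, hh))) ∂(GM M N)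
      = ∫⁻ p, A0 p ∂μ1 := by
    rw [← gm_eq_GM, ← hlaw.lintegral_comp (meas_rho (h, hh))]
    rw [lintegral_congr hA]
    have := lintegral_prod_mul (μ := μ1) (ν := gm (Fin M) (Fin N)) (f := A0) (g := fun _ => 1)
      hA0m.aemeasurable aemeasurable_const
    simpa using this
  have e2 : ∫⁻ G, ENNReal.ofReal (rhoE ε (N + M) (Rsq κ ν ψ G (h, hh)))
        * (if Near κ δ G w then 1 else 0) ∂(GM M N)
      = ∫⁻ q, ENNReal.ofReal (rhoE ε (N + M) (Rsq κ ν ψ (asmG m n q) (h, hh)))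
        * (if Near κ δ (asmG m n q) w then 1 else 0) ∂(μ1.prod (gm (Fin M) (Fin N))) := by
    rw [← gm_eq_GM]
    refine (hlaw.lintegral_comp ?_).symm
    exact (meas_rho (h, hh)).mul (Measurable.ite (meas_near w) measurable_const measurable_const)
  rw [e1, e2]
  have hpt : ∀ q : ((Fin N → ℝ) × (Fin M → ℝ)) × (Fin M → Fin N → ℝ),
      ENNReal.ofReal (rhoE ε (N + M) (Rsq κ ν ψ (asmG m n q) (h, hh)))
        * (if Near κ δ (asmG m n q) w then 1 else 0)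
      ≤ C0 + A0 q.1 * E.indicator 1 q.2 := by
    intro q
    by_cases hq : Near κ δ (asmG m n q) w
    · rw [if_pos hq, mul_one]
      rcases lt_or_ge r (Rsq κ ν ψ (asmG m n q) (h, hh)) with h1 | h1
      · refine le_trans ?_ le_self_add
        rw [hC0]
        apply ENNReal.ofReal_le_ofReal
        unfold rhoE
        apply mul_le_mul_of_nonneg_left _ (by positivity)
        apply Real.exp_le_exp.2
        rw [neg_div, neg_div, neg_le_neg_iff]
        exact div_le_div_of_nonneg_right h1.le (by positivity)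
      · have h2 : q.2 ∈ E := by
          rw [hE, Set.mem_ofPred_eq]
          refine (near_core h hh hN hm hn w q hq).trans ?_
          have h3 : (N : ℝ) / nsq m + N / nsq n = N * (1 / nsq m + 1 / nsq n) := by ring
          rw [← hmdef, ← hndef, h3, hD]
          have h4 : 0 ≤ 1 / nsq m + 1 / nsq n := by positivity
          have h5 : 0 ≤ 4 * ((N : ℝ) * (1 / nsq m + 1 / nsq n)) := by positivity
          have h6 := mul_le_mul_of_nonneg_left h1 h5
          nlinarith [h6]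
        rw [hA q, Set.indicator_of_mem h2]
        simp
    · rw [if_neg hq, mul_zero]
      exact bot_le
  refine (lintegral_mono hpt).trans ?_
  rw [lintegral_add_left measurable_const, lintegral_const, measure_univ, mul_one,
    lintegral_prod_mul (g := E.indicator 1) hA0m.aemeasurable
      (measurable_one.indicator hEm).aemeasurable,
    lintegral_indicator_one hEm]
  gcongr
  unfold Pcore
  rw [← gm_eq_GM, measureReal_def, ENNReal.ofReal_toReal (measure_ne_top _ _)]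


theorem eps_small {r0 α X : ℝ} (hr : 0 < r0) (hα : 0 ≤ α) :
    ∃ ε₀ : ℝ, 0 < ε₀ ∧ ∀ ε : ℝ, 0 < ε → ε < ε₀ → ∀ N : ℕ, 1 ≤ N → ∀ M : ℕ, (M : ℝ) ≤ α * N →
      2 ^ N * ((Real.sqrt (2 * Real.pi) * ε)⁻¹ ^ (N + M) * Real.exp (-(r0 * N) / (2 * ε ^ 2)))
        ≤ Real.exp (X * N) / 2 := by
  set K := |2 * Real.log 2 - X| with hK
  have hK0 : 0 ≤ K := abs_nonneg _
  have hK1 : 2 * Real.log 2 - X ≤ K := le_abs_self _
  refine ⟨min (1 / 3) (r0 / (2 * (1 + α + K))), by positivity, ?_⟩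
  intro ε hε hε' N hN M hM
  have hε1 : ε < 1 / 3 := hε'.trans_le (min_le_left _ _)
  have hε2 : ε < r0 / (2 * (1 + α + K)) := hε'.trans_le (min_le_right _ _)
  have hpi : Real.sqrt (2 * Real.pi) ≤ 3 := by
    rw [Real.sqrt_le_left (by norm_num)]
    nlinarith [Real.pi_lt_d2]
  have hpi1 : 1 ≤ Real.sqrt (2 * Real.pi) := by
    rw [Real.one_le_sqrt]
    nlinarith [Real.pi_gt_three]
  have hs : 0 < Real.sqrt (2 * Real.pi) * ε := by positivity
  have hs1 : Real.sqrt (2 * Real.pi) * ε ≤ 1 := by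
    have := mul_le_mul hpi hε1.le hε.le (by norm_num : (0 : ℝ) ≤ 3)
    linarith
  set L := -Real.log (Real.sqrt (2 * Real.pi) * ε) with hL
  have hL0 : 0 ≤ L := by
    rw [hL]; have := Real.log_nonpos hs.le hs1; linarith
  have hL1 : L ≤ 1 / ε := by
    have h1 : Real.log (1 / (Real.sqrt (2 * Real.pi) * ε)) ≤ 1 / (Real.sqrt (2 * Real.pi) * ε) :=
      (Real.log_le_sub_one_of_pos (by positivity)).trans (by linarith)
    rw [one_div, Real.log_inv] at h1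
    rw [hL]
    refine h1.trans ?_
    rw [one_div]
    apply inv_anti₀ hε
    nlinarith
  have e1 : (Real.sqrt (2 * Real.pi) * ε)⁻¹ ^ (N + M) = Real.exp (((N + M : ℕ) : ℝ) * L) := by
    rw [Real.exp_nat_mul, hL, Real.exp_neg, Real.exp_log hs]
  have e2 : (2 : ℝ) ^ N = Real.exp ((N : ℝ) * Real.log 2) := by
    rw [Real.exp_nat_mul, Real.exp_log (by norm_num)]
  have e3 : Real.exp (X * N) / 2 = Real.exp (X * N - Real.log 2) := by
    rw [Real.exp_sub, Real.exp_log (by norm_num)]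
  rw [e1, e2, e3, ← Real.exp_add, ← Real.exp_add]
  apply Real.exp_le_exp.2
  have hN1 : (1 : ℝ) ≤ N := by exact_mod_cast hN
  have h2 : ((N + M : ℕ) : ℝ) * L ≤ N * ((1 + α) * (1 / ε)) := by
    push_cast
    have h3 : (N : ℝ) + M ≤ (1 + α) * N := by linarith
    calc ((N : ℝ) + M) * L ≤ ((1 + α) * N) * (1 / ε) :=
          mul_le_mul h3 hL1 hL0 (by positivity)
      _ = N * ((1 + α) * (1 / ε)) := by ring
  have h4 : (1 + α + K) * (1 / ε) ≤ r0 / (2 * ε ^ 2) := by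
    rw [mul_one_div, div_le_div_iff₀ hε (by positivity)]
    rw [lt_div_iff₀ (by positivity)] at hε2
    have := mul_le_mul_of_nonneg_left hε2.le hε.le
    nlinarith
  have h5 : K ≤ K * (1 / ε) := by
    apply le_mul_of_one_le_right hK0
    rw [one_div, one_le_inv₀ hε]
    linarith
  have h6 : -(r0 * N) / (2 * ε ^ 2) = -(N * (r0 / (2 * ε ^ 2))) := by ring
  rw [h6]
  have hl2 : 0 ≤ Real.log 2 := Real.log_nonneg (by norm_num)
  have h7 : (N : ℝ) * ((1 + α) * (1 / ε)) + N * K ≤ N * (r0 / (2 * ε ^ 2)) := by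
    rw [← mul_add]
    apply mul_le_mul_of_nonneg_left _ (by positivity)
    refine le_trans ?_ h4
    nlinarith
  have h8 : (N : ℝ) * (2 * Real.log 2 - X) ≤ N * K :=
    mul_le_mul_of_nonneg_left hK1 (by positivity)
  nlinarith

theorem exp_half_eventually {X η : ℝ} (hη : 0 < η) :
    ∀ᶠ N : ℕ in atTop, Real.exp ((X - η) * N) ≤ Real.exp (X * N) / 2 := by
  have h : Tendsto (fun N : ℕ => η * (N : ℝ)) atTop atTop :=
    Tendsto.const_mul_atTop hη tendsto_natCast_atTop_atTop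
  filter_upwards [h.eventually_ge_atTop (Real.log 2)] with N hN
  have e3 : Real.exp (X * N) / 2 = Real.exp (X * N - Real.log 2) := by
    rw [Real.exp_sub, Real.exp_log (by norm_num)]
  rw [e3]
  apply Real.exp_le_exp.2
  linarith [hN, sub_mul X η (N : ℝ)]

open Classical in
theorem VZ_pt {κ ν ψ η₁ : ℝ} (hν : 0 < ν) (hψ : 0 < ψ) (hU : UStar κ ν ψ η₁) {η : ℝ}
    (hη : 0 < η) :
    ∃ T1 T2 : List (ℝ → ℝ), (∀ f ∈ T1, PL f) ∧ (∀ f ∈ T2, PL f) ∧
      ∃ dl : ℝ, 0 < dl ∧ ∃ δ : ℝ, 0 < δ ∧ ∃ ε₀ : ℝ, 0 < ε₀ ∧ ∀ ε : ℝ, 0 < ε → ε < ε₀ →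
        ∀ᶠ N : ℕ in atTop,
        volume (Yset κ ν ψ T1 T2 dl ⌊al κ ν ψ * N⌋₊ N)
          ≤ ENNReal.ofReal (Real.exp ((LV κ ν ψ + η) * N)) ∧
        ∀ y ∈ Yset κ ν ψ T1 T2 dl ⌊al κ ν ψ * N⌋₊ N,
          ∑ w : Fin N → Bool,
            ∫⁻ G, ENNReal.ofReal (rhoE ε (N + ⌊al κ ν ψ * N⌋₊) (Rsq κ ν ψ G y))
              * (if Near κ δ G w then 1 else 0) ∂(GM ⌊al κ ν ψ * N⌋₊ N)
            ≤ ENNReal.ofReal (Real.exp ((-LV κ ν ψ - dd κ ν ψ * (1 - qp ψ) + η₁ + η) * N)) := by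
  have hq : 0 < qp ψ := qp_pos hψ
  have hα : 0 < al κ ν ψ := al_pos hν.le hψ
  obtain ⟨T1c, T2c, hT1c, hT2c, dlc, hdlc, δc, hδc, hcov⟩ := U_cov hν hψ hU (η := η / 4)
    (by positivity)
  obtain ⟨dl1, hdl1, ε₁, hε₁, hden⟩ := den_Y (κ := κ) hν.le hψ (η := η / 4) (by positivity)
  obtain ⟨dl2, hdl2, hvol⟩ := vol_Y (κ := κ) hν.le hψ (η := η) hη
  set r0 := δc / (16 * (1 / qp ψ + 1 / ψ)) with hr0
  have hr0p : 0 < r0 := by positivity
  set X := -LV κ ν ψ - dd κ ν ψ * (1 - qp ψ) + η₁ + η with hX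
  obtain ⟨ε₂, hε₂, hsm⟩ := eps_small (X := X) hr0p hα.le
  set dl := min (min dlc dl1) (min dl2 (min (qp ψ / 2) (ψ / 2))) with hdl
  refine ⟨T1c ++ TB1, T2c ++ TB2 κ ν ψ, ?_, ?_, dl, by positivity, δc / 4, by positivity,
    min ε₁ ε₂, by positivity, ?_⟩
  · intro f hf
    rcases List.mem_append.1 hf with h | h
    · exact hT1c f h
    · exact TB1_PL f h
  · intro f hf
    rcases List.mem_append.1 hf with h | h
    · exact hT2c f h
    · exact TB2_PL hν.le f h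
  intro ε hε hε'
  have hεa : ε < ε₁ := hε'.trans_le (min_le_left _ _)
  have hεb : ε < ε₂ := hε'.trans_le (min_le_right _ _)
  filter_upwards [hcov, hden ε hε hεa, hvol, exp_half_eventually (X := X) (η := η / 2)
    (by positivity), eventually_ge_atTop 1] with N hcN hdN hvN heN hN1
  set M := ⌊al κ ν ψ * N⌋₊ with hM
  have hsub : ∀ {T1' T2' : List (ℝ → ℝ)} {dl' : ℝ}, T1' ⊆ T1c ++ TB1 → T2' ⊆ T2c ++ TB2 κ ν ψ →
      dl ≤ dl' → Yset κ ν ψ (T1c ++ TB1) (T2c ++ TB2 κ ν ψ) dl M N ⊆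
        Yset κ ν ψ T1' T2' dl' M N := fun h1 h2 h3 => Yset_mono h1 h2 h3
  have d1 : dl ≤ dlc := (min_le_left _ _).trans (min_le_left _ _)
  have d2 : dl ≤ dl1 := (min_le_left _ _).trans (min_le_right _ _)
  have d3 : dl ≤ dl2 := (min_le_right _ _).trans (min_le_left _ _)
  have d4 : dl ≤ qp ψ / 2 :=
    (min_le_right _ _).trans ((min_le_right _ _).trans (min_le_left _ _))
  have d5 : dl ≤ ψ / 2 :=
    (min_le_right _ _).trans ((min_le_right _ _).trans (min_le_right _ _))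
  have a1 : T1c ⊆ T1c ++ TB1 := List.subset_append_left _ _
  have a2 : TB1 ⊆ T1c ++ TB1 := List.subset_append_right _ _
  have a3 : T2c ⊆ T2c ++ TB2 κ ν ψ := List.subset_append_left _ _
  have a4 : TB2 κ ν ψ ⊆ T2c ++ TB2 κ ν ψ := List.subset_append_right _ _
  refine ⟨(measure_mono (hsub a2 a4 d3)).trans hvN, ?_⟩
  rintro ⟨h, hh⟩ hy
  have hN0 : (0 : ℝ) < N := by exact_mod_cast hN1
  have hMle : (M : ℝ) ≤ al κ ν ψ * N := Nat.floor_le (by positivity)
  have hav := TB_avg hν.le hψ (hsub a2 a4 le_rfl hy)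
  obtain ⟨-, b1, -, -, b2, -⟩ := hav
  simp only at b1 b2
  have c1 : qp ψ / 2 ≤ nsq (mh h) / N := by
    have := (abs_le.1 b1).1; linarith
  have c2 : ψ / 2 ≤ nsq (nh κ ν ψ hh) / N := by
    have := (abs_le.1 b2).1; linarith
  rw [le_div_iff₀ hN0] at c1 c2
  have hm : 0 < nsq (mh h) := lt_of_lt_of_le (by positivity) c1
  have hn : 0 < nsq (nh κ ν ψ hh) := lt_of_lt_of_le (by positivity) c2
  have f1 : 1 / nsq (mh h) ≤ 2 / (qp ψ * N) := by
    rw [div_le_div_iff₀ hm (by positivity)]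
    linarith
  have f2 : 1 / nsq (nh κ ν ψ hh) ≤ 2 / (ψ * N) := by
    rw [div_le_div_iff₀ hn (by positivity)]
    linarith
  have f3 : 2 * (δc / 4) + 4 * (1 / nsq (mh h) + 1 / nsq (nh κ ν ψ hh)) * (r0 * N) ≤ δc := by
    have g1 : 4 * (1 / nsq (mh h) + 1 / nsq (nh κ ν ψ hh)) * (r0 * N) ≤
        4 * (2 / (qp ψ * N) + 2 / (ψ * N)) * (r0 * N) := by gcongr
    have g2 : 4 * (2 / (qp ψ * N) + 2 / (ψ * N)) * (r0 * N) = δc / 2 := by
      rw [hr0]
      field_simp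
      ring
    linarith
  set C0 := ENNReal.ofReal ((Real.sqrt (2 * Real.pi) * ε)⁻¹ ^ (N + M)
    * Real.exp (-(r0 * N) / (2 * ε ^ 2))) with hC0
  set I := ∫⁻ G, ENNReal.ofReal (rhoE ε (N + M) (Rsq κ ν ψ G (h, hh))) ∂(GM M N) with hI
  have hstep : ∀ w : Fin N → Bool,
      ∫⁻ G, ENNReal.ofReal (rhoE ε (N + M) (Rsq κ ν ψ G (h, hh)))
        * (if Near κ (δc / 4) G w then 1 else 0) ∂(GM M N)
      ≤ C0 + I * ENNReal.ofReal (Pcore κ δc (1 - qp ψ) h (mh h) hh (nh κ ν ψ hh) w) := by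
    intro w
    refine (near_lint_le hε (by positivity) (by positivity : 0 ≤ r0 * N) h hh hN1 hm hn w).trans ?_
    have := ENNReal.ofReal_le_ofReal
      (Pcore_mono (κ := κ) (b := 1 - qp ψ) h (mh h) hh (nh κ ν ψ hh) w f3)
    gcongr
  have hP0 : ∀ w : Fin N → Bool, 0 ≤ Pcore κ δc (1 - qp ψ) h (mh h) hh (nh κ ν ψ hh) w :=
    fun w => measureReal_nonneg
  have hIle := hdN (h, hh) (hsub a2 a4 d2 hy)
  have hcle := hcN (h, hh) (hsub a1 a3 d1 hy)
  simp only at hcle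
  calc ∑ w : Fin N → Bool, ∫⁻ G, ENNReal.ofReal (rhoE ε (N + M) (Rsq κ ν ψ G (h, hh)))
        * (if Near κ (δc / 4) G w then 1 else 0) ∂(GM M N)
      ≤ ∑ w : Fin N → Bool,
        (C0 + I * ENNReal.ofReal (Pcore κ δc (1 - qp ψ) h (mh h) hh (nh κ ν ψ hh) w)) :=
        Finset.sum_le_sum fun w _ => hstep w
    _ = ENNReal.ofReal (2 ^ N * ((Real.sqrt (2 * Real.pi) * ε)⁻¹ ^ (N + M)
          * Real.exp (-(r0 * N) / (2 * ε ^ 2))))
        + I * ENNReal.ofReal (∑ w : Fin N → Bool,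
          Pcore κ δc (1 - qp ψ) h (mh h) hh (nh κ ν ψ hh) w) := by
        rw [Finset.sum_add_distrib, ← Finset.mul_sum,
          ENNReal.ofReal_sum_of_nonneg (fun w _ => hP0 w), Finset.sum_const, nsmul_eq_mul,
          Finset.card_univ, Fintype.card_fun, Fintype.card_bool, Fintype.card_fin,
          ENNReal.ofReal_mul (by positivity)]
        congr 2
        rw [ENNReal.ofReal_pow (by norm_num)]
        simp
    _ ≤ ENNReal.ofReal (Real.exp (X * N) / 2)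
        + ENNReal.ofReal (Real.exp ((-LV κ ν ψ - dd κ ν ψ * (1 - qp ψ) + η / 4) * N))
          * ENNReal.ofReal (Real.exp ((η₁ + η / 4) * N)) := by
        gcongr
        exact hsm ε hε hεb N hN1 M hMle
    _ ≤ ENNReal.ofReal (Real.exp (X * N) / 2) + ENNReal.ofReal (Real.exp (X * N) / 2) := by
        gcongr
        rw [← ENNReal.ofReal_mul (by positivity), ← Real.exp_add]
        apply ENNReal.ofReal_le_ofReal
        refine le_trans (le_of_eq ?_) heN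
        congr 1
        rw [hX]; ring
    _ = ENNReal.ofReal (Real.exp (X * N)) := by
        rw [← ENNReal.ofReal_add (by positivity) (by positivity)]
        congr 1
        ring

end Pool.Agent.IP49
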