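import Pool.Agent.IP49.ContA

/-!
IP49, module URay: stability of (U*): if `UStar 0 0 ψ 0` then for every `η > 0` and all small
`ν > 0`, `UStar (-ν) ν ψ η`.

PROOF. (1) For fixed `A₁, A₂` the function `yt ψ A₁ A₂` does not depend on `(κ, ν)`, so
`Ct, Ch, C1, Cy` depend on `(κ, ν)` only through the factor `al κ ν ψ`, which tends to `al 0 0 ψ`
(`al_tendsto`); `cF`: dominated convergence (`tendsto_GE`): `FF (-ν) ν q (√q x) → FF 0 0 q (√q x)`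
pointwise, bounded by `C (1 + x²)` for `0 < ν ≤ 1` (`FF_le`, `tp ≥ √(1-q)`), times
`Mi (-yt) ≤ 1 + |yt| ≤ C(1+x²)` (`yt` has linear growth by `FF_le`).
(2) `c ↦ GE (lc (l tanh(√ψ x) + c √ψ x))` is Lipschitz (`|lc'| ≤ 1`) with constant `√ψ GE|x|`.
(3) So for fixed `l, A₁, A₂` and `ρ₀² q < 1`, `JJ (-ν) ν ψ ρ l A₁ A₂ → JJ 0 0 ψ ρ₀ l A₁ A₂` as
`(ν, ρ) → (0+, ρ₀)`; in particular it is `< η` near `(0+, ρ₀)` when `JJ 0 0 ψ ρ₀ … ≤ 0`, and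
`ρ² q < 1` near `ρ₀`. `J2 ψ ρ l` is affine in `ρ`.
(4) `{ρ : ρ² q ≤ 1}` is compact (`q > 0`). Use
`IsCompact.eventually_forall_of_forall_eventually` with
`P ν ρ := 0 < ν → ((ρ² q < 1 ∧ ∃ l A₁ A₂, JJ (-ν) ν ψ ρ l A₁ A₂ ≤ η) ∨ ∃ l, J2 ψ ρ l ≤ η)`.
-/

set_option autoImplicit false
open MeasureTheory ProbabilityTheory Filter Topology

namespace Pool.Agent.IP49

private theorem uray_abs_le (x : ℝ) : |x| ≤ 1 + x ^ 2 := by
  have := sq_abs x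
  nlinarith [sq_nonneg (|x| - 1/2)]

private theorem uray_Mi_lin (u : ℝ) {A : ℝ} {x : ℝ} (h : |u| ≤ A * (1 + x ^ 2)) :
    |Mi u| ≤ (1 + A) * (1 + x ^ 2) := by
  rw [abs_of_pos (Mi_pos u)]
  have := Mi_le_abs u
  nlinarith [sq_nonneg x]

private theorem uray_FF_growth {q : ℝ} (hq : q < 1) (s : ℝ) :
    ∃ C : ℝ, 0 ≤ C ∧ ∀ ν : ℝ, 0 ≤ ν → ν ≤ 1 → ∀ x, |FF (-ν) ν q (s * x)| ≤ C * (1 + x ^ 2) := by
  have ht := tp_pos (ν := 0) le_rfl hq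
  refine ⟨(1 + (1 + |s|) / tp 0 q) / tp 0 q, by positivity, fun ν h0 h1 x => ?_⟩
  have htt : tp 0 q ≤ tp ν q := by
    unfold tp
    exact Real.sqrt_le_sqrt (by linarith)
  have ht' := tp_pos h0 hq
  rw [abs_of_pos (FF_pos h0 hq _)]
  refine (FF_le h0 hq _).trans ?_
  have h2 := uray_abs_le x
  have h3 : |-ν - s * x| ≤ (1 + |s|) * (1 + x ^ 2) := by
    have a0 : |-ν - s * x| ≤ |-ν| + |s * x| := abs_sub _ _
    rw [abs_neg, abs_of_nonneg h0, abs_mul] at a0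
    have a1 := mul_le_mul_of_nonneg_left h2 (abs_nonneg s)
    nlinarith [sq_nonneg x]
  have h4 : |-ν - s * x| / tp ν q ≤ (1 + |s|) / tp 0 q * (1 + x ^ 2) := by
    rw [div_mul_eq_mul_div]
    exact div_le_div₀ (by positivity) h3 ht htt
  rw [div_mul_eq_mul_div]
  refine div_le_div₀ (by positivity) ?_ ht htt
  nlinarith [sq_nonneg x]

private theorem uray_yt_growth (ψ A₁ A₂ s : ℝ) :
    ∃ C : ℝ, 0 ≤ C ∧ ∀ x, |(-yt ψ A₁ A₂ (s * x))| ≤ C * (1 + x ^ 2) := by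
  obtain ⟨C, hC0, hC⟩ := uray_FF_growth (q := qp ψ) qp_lt_one s
  refine ⟨|A₁| * |s| + |A₂| * C, by positivity, fun x => ?_⟩
  rw [abs_neg]
  unfold yt
  have h1 := hC 0 le_rfl zero_le_one x
  rw [neg_zero] at h1
  have h2 := uray_abs_le x
  refine (abs_add_le _ _).trans ?_
  rw [abs_mul, abs_mul, abs_mul]
  have a1 := mul_le_mul_of_nonneg_left h1 (abs_nonneg A₂)
  have a2 := mul_le_mul_of_nonneg_left h2 (mul_nonneg (abs_nonneg A₁) (abs_nonneg s))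
  nlinarith

private theorem uray_yt_cont (ψ A₁ A₂ s : ℝ) : Continuous fun x => yt ψ A₁ A₂ (s * x) := by
  unfold yt
  exact (continuous_const.mul (by fun_prop)).add
    (continuous_const.mul (continuous_FF.comp (by fun_prop)))

private theorem uray_neg : Tendsto (fun ν : ℝ => -ν) (𝓝[>] 0) (𝓝 0) := by
  have : Tendsto (fun ν : ℝ => -ν) (𝓝 0) (𝓝 (-0)) := tendsto_id.neg
  rw [neg_zero] at this
  exact this.mono_left nhdsWithin_le_nhds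

private theorem uray_id : Tendsto (fun ν : ℝ => ν) (𝓝[>] 0) (𝓝 0) :=
  tendsto_id.mono_left nhdsWithin_le_nhds

private theorem uray_nonneg : ∀ᶠ ν : ℝ in 𝓝[>] 0, 0 ≤ ν := by
  filter_upwards [self_mem_nhdsWithin] with ν hν
  exact le_of_lt hν

private theorem uray_al {ψ : ℝ} :
    Tendsto (fun ν => al (-ν) ν ψ) (𝓝[>] 0) (𝓝 (al 0 0 ψ)) :=
  al_tendsto (p := fun _ => ψ) uray_neg uray_id uray_nonneg (le_refl _) tendsto_const_nhds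

theorem cF_tendsto_ray {ψ : ℝ} (hψ : 0 < ψ) (A₁ A₂ : ℝ) :
    Tendsto (fun ν => cF (-ν) ν ψ A₁ A₂) (𝓝[>] 0) (𝓝 (cF 0 0 ψ A₁ A₂)) := by
  unfold cF
  refine (uray_al.mul ?_).div_const ψ
  have hq : qp ψ < 1 := qp_lt_one
  obtain ⟨C, hC0, hC⟩ := uray_FF_growth hq (Real.sqrt (qp ψ))
  obtain ⟨D, hD0, hD⟩ := uray_yt_growth ψ A₁ A₂ (Real.sqrt (qp ψ))
  have hle1 : ∀ᶠ ν : ℝ in 𝓝[>] 0, ν ≤ 1 :=
    uray_id.eventually (eventually_le_nhds (show (0:ℝ) < 1 by norm_num))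
  refine tendsto_GE (C := C * (1 + D)) (k := 2) (Eventually.of_forall fun ν => ?_) ?_ ?_
  · exact ((continuous_FF.comp (by fun_prop : Continuous fun x => Real.sqrt (qp ψ) * x)).mul
      (continuous_Mi.comp (uray_yt_cont ψ A₁ A₂ _).neg)).measurable
  · filter_upwards [uray_nonneg, hle1] with ν h0 h1 x
    rw [abs_mul]
    have e1 := hC ν h0 h1 x
    have e2 := uray_Mi_lin _ (hD x)
    refine (mul_le_mul e1 e2 (abs_nonneg _) (by positivity)).trans (le_of_eq (by ring))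
  · intro x
    refine Tendsto.mul_const _ ?_
    unfold FF
    have ht : Tendsto (fun ν => tp ν (qp ψ)) (𝓝[>] 0) (𝓝 (tp 0 (qp ψ))) := by
      unfold tp
      exact (tendsto_const_nhds.add uray_id).sqrt
    have ht0 : tp 0 (qp ψ) ≠ 0 := (tp_pos le_rfl hq).ne'
    refine Tendsto.div ?_ ht ht0
    exact (continuous_Mi.tendsto _).comp ((uray_neg.sub tendsto_const_nhds).div ht ht0)

private theorem uray_lc_lip (u v : ℝ) : |lc u - lc v| ≤ |u - v| := by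
  have h := Convex.norm_image_sub_le_of_norm_hasDerivWithin_le (f := lc) (f' := Real.tanh)
    (s := Set.univ) (x := v) (y := u) (C := 1)
    (fun x _ => (hasDerivAt_lc x).hasDerivWithinAt) (fun x _ => by
      rw [Real.norm_eq_abs]
      have h1 := tanh_sq_lt x
      rw [← sq_abs] at h1
      nlinarith [abs_nonneg (Real.tanh x)]) convex_univ (Set.mem_univ _) (Set.mem_univ _)
  simpa [Real.norm_eq_abs] using h

private theorem uray_tanh_abs (x : ℝ) : |Real.tanh x| ≤ 1 := by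
  have h1 := tanh_sq_lt x
  rw [← sq_abs] at h1
  nlinarith [abs_nonneg (Real.tanh x)]

private theorem uray_lc_int (ψ l c : ℝ) :
    Integrable (fun x => lc (l * Real.tanh (Real.sqrt ψ * x) + c * (Real.sqrt ψ * x)))
      (gaussianReal 0 1) := by
  have hlc : Continuous lc := continuous_iff_continuousAt.2 fun x => (hasDerivAt_lc x).continuousAt
  have hct : Continuous fun x => l * Real.tanh (Real.sqrt ψ * x) + c * (Real.sqrt ψ * x) :=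
    (continuous_const.mul (continuous_tanh'.comp (by fun_prop))).add (by fun_prop)
  refine integrable_of_growth (hlc.comp hct).measurable (C := 1 + |l| + |c| * Real.sqrt ψ) (k := 1)
    fun x => ?_
  obtain ⟨h1, h2⟩ := lc_bounds (l * Real.tanh (Real.sqrt ψ * x) + c * (Real.sqrt ψ * x))
  rw [abs_of_nonneg ((abs_nonneg _).trans h1), pow_one]
  refine h2.trans ?_
  have h3 := Real.log_two_lt_d9
  have h4 : |l * Real.tanh (Real.sqrt ψ * x) + c * (Real.sqrt ψ * x)|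
      ≤ |l| * 1 + |c| * (Real.sqrt ψ * (1 + x ^ 2)) := by
    refine (abs_add_le _ _).trans ?_
    rw [abs_mul, abs_mul, abs_mul, abs_of_nonneg (Real.sqrt_nonneg ψ)]
    exact add_le_add (mul_le_mul_of_nonneg_left (uray_tanh_abs _) (abs_nonneg _))
      (mul_le_mul_of_nonneg_left (mul_le_mul_of_nonneg_left (uray_abs_le x) (Real.sqrt_nonneg _))
        (abs_nonneg _))
  have h5 : 0 ≤ |l| * x ^ 2 := by positivity
  nlinarith [sq_nonneg x]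

private theorem uray_abs_int : Integrable (fun x : ℝ => |x|) (gaussianReal 0 1) :=
  integrable_of_growth continuous_abs.measurable (C := 1) (k := 1) fun x => by
    rw [abs_abs, pow_one, one_mul]; exact uray_abs_le x

private theorem uray_sq_int : Integrable (fun x : ℝ => x ^ 2) (gaussianReal 0 1) :=
  integrable_of_growth (by fun_prop) (C := 1) (k := 1) fun x => by
    rw [abs_of_nonneg (sq_nonneg _), pow_one, one_mul]; linarith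

private theorem uray_GE_abs : GE (fun x => |x|) ≤ 1 := by
  have h1 : GE (fun x => |x|) ≤ GE (fun x => 1 / 2 + 1 / 2 * x ^ 2) := by
    refine GE_mono uray_abs_int ((integrable_const _).add (uray_sq_int.const_mul _)) fun x => ?_
    have := sq_abs x
    nlinarith [sq_nonneg (|x| - 1)]
  rw [GE_add (integrable_const _) (uray_sq_int.const_mul _), GE_const, GE_mul, GE_sq] at h1
  linarith

theorem lc_lipschitz_int {ψ l : ℝ} (hψ : 0 < ψ) (c c' : ℝ) :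
    |(GE fun x => lc (l * Real.tanh (Real.sqrt ψ * x) + c * (Real.sqrt ψ * x)))
      - GE fun x => lc (l * Real.tanh (Real.sqrt ψ * x) + c' * (Real.sqrt ψ * x))|
      ≤ Real.sqrt ψ * |c - c'| := by
  unfold GE
  rw [← integral_sub (uray_lc_int ψ l c) (uray_lc_int ψ l c')]
  refine (abs_integral_le_integral_abs).trans ?_
  have h1 : ∫ x, |lc (l * Real.tanh (Real.sqrt ψ * x) + c * (Real.sqrt ψ * x))
      - lc (l * Real.tanh (Real.sqrt ψ * x) + c' * (Real.sqrt ψ * x))| ∂(gaussianReal 0 1)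
      ≤ ∫ x, Real.sqrt ψ * |c - c'| * |x| ∂(gaussianReal 0 1) := by
    refine integral_mono ((uray_lc_int ψ l c).sub (uray_lc_int ψ l c')).abs
      (uray_abs_int.const_mul _) fun x => ?_
    refine (uray_lc_lip _ _).trans (le_of_eq ?_)
    have e : l * Real.tanh (Real.sqrt ψ * x) + c * (Real.sqrt ψ * x)
        - (l * Real.tanh (Real.sqrt ψ * x) + c' * (Real.sqrt ψ * x))
        = Real.sqrt ψ * (c - c') * x := by ring
    rw [e, abs_mul, abs_mul, abs_of_nonneg (Real.sqrt_nonneg ψ)]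
  refine h1.trans ?_
  rw [integral_const_mul]
  have h2 : ∫ x, |x| ∂(gaussianReal 0 1) ≤ 1 := uray_GE_abs
  have h3 : 0 ≤ Real.sqrt ψ * |c - c'| := mul_nonneg (Real.sqrt_nonneg _) (abs_nonneg _)
  calc Real.sqrt ψ * |c - c'| * ∫ x, |x| ∂(gaussianReal 0 1)
      ≤ Real.sqrt ψ * |c - c'| * 1 := mul_le_mul_of_nonneg_left h2 h3
    _ = _ := mul_one _

private theorem uray_lc_cont {ψ : ℝ} (hψ : 0 < ψ) (l : ℝ) :
    Continuous fun c => GE fun x => lc (l * Real.tanh (Real.sqrt ψ * x)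
      + c * (Real.sqrt ψ * x)) := by
  have : LipschitzWith ⟨Real.sqrt ψ, Real.sqrt_nonneg ψ⟩ (fun c => GE fun x =>
      lc (l * Real.tanh (Real.sqrt ψ * x) + c * (Real.sqrt ψ * x))) := by
    refine LipschitzWith.of_dist_le_mul fun c c' => ?_
    rw [Real.dist_eq, Real.dist_eq]
    exact lc_lipschitz_int hψ c c'
  exact this.continuous

private theorem uray_JJ {ψ : ℝ} (hψ : 0 < ψ) (l A₁ A₂ : ℝ) {ρ₀ : ℝ} (hρ : ρ₀ ^ 2 * qp ψ < 1) :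
    Tendsto (fun z : ℝ × ℝ => JJ (-z.1) z.1 ψ z.2 l A₁ A₂) (𝓝[>] 0 ×ˢ 𝓝 ρ₀)
      (𝓝 (JJ 0 0 ψ ρ₀ l A₁ A₂)) := by
  have hfst : Tendsto (fun z : ℝ × ℝ => z.1) (𝓝[>] 0 ×ˢ 𝓝 ρ₀) (𝓝[>] 0) := tendsto_fst
  have hsnd : Tendsto (fun z : ℝ × ℝ => z.2) (𝓝[>] 0 ×ˢ 𝓝 ρ₀) (𝓝 ρ₀) := tendsto_snd
  have hneg : Tendsto (fun z : ℝ × ℝ => -z.1) (𝓝[>] 0 ×ˢ 𝓝 ρ₀) (𝓝 0) := uray_neg.comp hfst
  have hal : Tendsto (fun z : ℝ × ℝ => al (-z.1) z.1 ψ) (𝓝[>] 0 ×ˢ 𝓝 ρ₀) (𝓝 (al 0 0 ψ)) :=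
    uray_al.comp hfst
  have hcF : Tendsto (fun z : ℝ × ℝ => cF (-z.1) z.1 ψ A₁ A₂) (𝓝[>] 0 ×ˢ 𝓝 ρ₀)
      (𝓝 (cF 0 0 ψ A₁ A₂)) := (cF_tendsto_ray hψ A₁ A₂).comp hfst
  have hCt : Tendsto (fun z : ℝ × ℝ => Ct (-z.1) z.1 ψ A₁ A₂) (𝓝[>] 0 ×ˢ 𝓝 ρ₀)
      (𝓝 (Ct 0 0 ψ A₁ A₂)) := hal.mul_const _
  have hCh : Tendsto (fun z : ℝ × ℝ => Ch (-z.1) z.1 ψ A₁ A₂) (𝓝[>] 0 ×ˢ 𝓝 ρ₀)
      (𝓝 (Ch 0 0 ψ A₁ A₂)) := hal.mul_const _
  have hC1 : Tendsto (fun z : ℝ × ℝ => C1 (-z.1) z.1 ψ A₁ A₂) (𝓝[>] 0 ×ˢ 𝓝 ρ₀)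
      (𝓝 (C1 0 0 ψ A₁ A₂)) := hal.mul_const _
  have hCy : Tendsto (fun z : ℝ × ℝ => Cy (-z.1) z.1 ψ A₁ A₂) (𝓝[>] 0 ×ˢ 𝓝 ρ₀)
      (𝓝 (Cy 0 0 ψ A₁ A₂)) := hal.mul_const _
  have hs : Tendsto (fun z : ℝ × ℝ => Real.sqrt (1 - z.2 ^ 2 * qp ψ)) (𝓝[>] 0 ×ˢ 𝓝 ρ₀)
      (𝓝 (Real.sqrt (1 - ρ₀ ^ 2 * qp ψ))) :=
    (tendsto_const_nhds.sub ((hsnd.pow 2).mul_const _)).sqrt
  have hs0 : Real.sqrt (1 - ρ₀ ^ 2 * qp ψ) ≠ 0 := (Real.sqrt_pos.2 (by linarith)).ne'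
  unfold JJ
  refine Tendsto.sub (Tendsto.add (Tendsto.add (Tendsto.sub (Tendsto.sub ?_ ?_) ?_) hCt) ?_) hCy
  · exact ((uray_lc_cont hψ l).tendsto _).comp (hcF.div hs hs0)
  · exact (tendsto_const_nhds.mul hsnd).mul_const _
  · exact ((hcF.pow 2).mul_const _).div_const _
  · exact ((hsnd.mul hCh).sub (hneg.mul hC1)).div hs hs0

/-- (U*) is stable -/
theorem UStar_ray {ψ : ℝ} (hψ : 0 < ψ) (h : UStar 0 0 ψ 0) {η : ℝ} (hη : 0 < η) :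
    ∀ᶠ ν in 𝓝[>] (0 : ℝ), UStar (-ν) ν ψ η := by
  have hq := qp_pos hψ
  have hK : IsCompact {ρ : ℝ | ρ ^ 2 * qp ψ ≤ 1} := by
    refine Metric.isCompact_of_isClosed_isBounded
      (isClosed_le (by fun_prop) continuous_const) ?_
    refine (Metric.isBounded_closedBall (x := (0:ℝ)) (r := 1 + 1 / qp ψ)).subset fun ρ hρ => ?_
    rw [Metric.mem_closedBall, Real.dist_eq, sub_zero]
    have h1 : ρ ^ 2 ≤ 1 / qp ψ := by
      rw [le_div_iff₀ hq]; exact hρ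
    exact (uray_abs_le ρ).trans (by linarith)
  have key : ∀ᶠ ν in 𝓝 (0 : ℝ), ∀ ρ ∈ {ρ : ℝ | ρ ^ 2 * qp ψ ≤ 1}, 0 < ν →
      ((ρ ^ 2 * qp ψ < 1 ∧ ∃ l A₁ A₂ : ℝ, JJ (-ν) ν ψ ρ l A₁ A₂ ≤ η) ∨
        ∃ l : ℝ, J2 ψ ρ l ≤ η) := by
    refine hK.eventually_forall_of_forall_eventually
      (P := fun ν ρ => 0 < ν → ((ρ ^ 2 * qp ψ < 1 ∧ ∃ l A₁ A₂ : ℝ, JJ (-ν) ν ψ ρ l A₁ A₂ ≤ η) ∨
        ∃ l : ℝ, J2 ψ ρ l ≤ η)) fun ρ₀ hρ₀ => ?_
    rcases h ρ₀ hρ₀ with ⟨hlt, l, A₁, A₂, hJ⟩ | ⟨l, hJ⟩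
    · have hT := uray_JJ hψ l A₁ A₂ hlt
      have e1 : ∀ᶠ z : ℝ × ℝ in 𝓝[>] 0 ×ˢ 𝓝 ρ₀, JJ (-z.1) z.1 ψ z.2 l A₁ A₂ ≤ η :=
        hT.eventually (eventually_le_nhds (lt_of_le_of_lt hJ hη))
      have hc : Continuous fun z : ℝ × ℝ => z.2 ^ 2 * qp ψ := by fun_prop
      have e2 : ∀ᶠ z : ℝ × ℝ in 𝓝 ((0 : ℝ), ρ₀), z.2 ^ 2 * qp ψ < 1 :=
        (hc.tendsto ((0 : ℝ), ρ₀)).eventually (eventually_lt_nhds hlt)
      have e3 : ∀ᶠ z : ℝ × ℝ in 𝓝 ((0 : ℝ), ρ₀), z ∈ Set.Ioi (0 : ℝ) ×ˢ (Set.univ : Set ℝ) →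
          JJ (-z.1) z.1 ψ z.2 l A₁ A₂ ≤ η := by
        rw [← eventually_nhdsWithin_iff, nhdsWithin_prod_eq, nhdsWithin_univ]
        exact e1
      filter_upwards [e2, e3] with z h2 h3 h0
      exact Or.inl ⟨h2, l, A₁, A₂, h3 ⟨h0, Set.mem_univ _⟩⟩
    · have hc : Continuous fun z : ℝ × ℝ => J2 ψ z.2 l := by
        unfold J2
        fun_prop
      have e2 : ∀ᶠ z : ℝ × ℝ in 𝓝 ((0 : ℝ), ρ₀), J2 ψ z.2 l ≤ η :=
        (hc.tendsto ((0 : ℝ), ρ₀)).eventually (eventually_le_nhds (lt_of_le_of_lt hJ hη))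
      filter_upwards [e2] with z h2 _
      exact Or.inr ⟨l, h2⟩
  rw [eventually_nhdsWithin_iff]
  filter_upwards [key] with ν hν hpos ρ hρ
  exact hν ρ hρ hpos

end Pool.Agent.IP49
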