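import Pool.Agent.IP49.MillsB
import Pool.Agent.IP49.GaussA
import Pool.Agent.IP49.Law1

/-!
IP49, module UTa: for a fixed sign vector the rows `yv A w k` of a Gaussian matrix are iid
standard Gaussian; survival probability of a fixed sign vector on `M` rows.

PROOFS. `row_law`: `∑ x_i s_i/√N` with `s_i = ±1`, `N ≥ 1`, is a linear combination of independent
`N(0,1)` with squared coefficients summing to `1` (`gaussianReal_map_...`, `IndepFun.sum`, or
induction on `N` with `gaussianReal_conv_gaussianReal`; or quote `gv`-lemmas of IP49/Law1 if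
convenient).
`prod_law`: `GM M N` is a product over the rows, so the integral of a product of functions of the
rows is the product of the integrals (`MeasureTheory.integral_fintype_prod_eq_prod`) and each one
is `GE f` by `row_law`.
`near_prob_le`: by Markov, `1{∑ (κ-y)_+² ≤ δN} ≤ exp(Λ δ N) ∏_k exp(-Λ (κ - y_k)_+²)`.
`row_factor`: `GE exp(-Λ (κ-x)_+²) ≤ Ph (κ - e) + exp(-Λ e²)` (split at `x ≥ κ - e`).
-/

set_option autoImplicit false
open MeasureTheory ProbabilityTheory Filter Topology

namespace Pool.Agent.IP49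

theorem row_law {N : ℕ} (hN : 1 ≤ N) (w : Fin N → Bool) :
    (Measure.pi fun _ : Fin N => gaussianReal 0 1).map
      (fun x : Fin N → ℝ => (∑ i, x i * sgn (w i)) / Real.sqrt N) = gaussianReal 0 1 := by
  have hs : ∀ b : Bool, sgn b ^ 2 = 1 := by intro b; cases b <;> simp [sgn]
  have hN' : (0 : ℝ) < N := by exact_mod_cast hN
  have h1 := SR.gv_map_coisom (ι := Fin N) (κ := Fin 1)
    (fun _ i => sgn (w i) / Real.sqrt N) (by
      intro t
      simp only [Fin.sum_univ_one]
      have : ∀ i : Fin N, (t 0 * (sgn (w i) / Real.sqrt N)) ^ 2 = t 0 ^ 2 / N := by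
        intro i
        rw [mul_pow, div_pow, hs, Real.sq_sqrt hN'.le]
        ring
      simp_rw [this]
      rw [Finset.sum_const, Finset.card_univ, Fintype.card_fin, nsmul_eq_mul]
      field_simp)
  have h2 := (measurePreserving_eval (fun _ : Fin 1 => gaussianReal 0 1) 0).map_eq
  have h3 : (Measure.pi fun _ : Fin 1 => gaussianReal 0 1) = SR.gv (Fin 1) := rfl
  rw [h3, ← h1, Measure.map_map (by fun_prop) (by fun_prop)] at h2
  have h4 : (Measure.pi fun _ : Fin N => gaussianReal 0 1) = SR.gv (Fin N) := rfl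
  rw [h4, ← h2]
  congr 1
  funext x
  simp only [Function.comp_apply, Function.eval]
  rw [Finset.sum_div]
  exact Finset.sum_congr rfl fun i _ => by ring

theorem measurable_yv {M N : ℕ} (w : Fin N → Bool) (k : Fin M) :
    Measurable (fun A : Fin M → Fin N → ℝ => yv A w k) := by
  unfold yv
  fun_prop

theorem prod_law {M N : ℕ} (hN : 1 ≤ N) (w : Fin N → Bool) {f : ℝ → ℝ} (hf : Measurable f)
    (hb : ∀ x, 0 ≤ f x ∧ f x ≤ 1) :
    ∫ A, ∏ k, f (yv A w k) ∂(GM M N) = GE f ^ M := by
  have h1 : ∫ A, ∏ k, f (yv A w k) ∂(GM M N)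
      = (∫ x : Fin N → ℝ, f ((∑ i, x i * sgn (w i)) / Real.sqrt N)
          ∂(Measure.pi fun _ : Fin N => gaussianReal 0 1)) ^ (Fintype.card (Fin M)) :=
    integral_fintype_prod_eq_pow (ι := Fin M)
      (fun x : Fin N → ℝ => f ((∑ i, x i * sgn (w i)) / Real.sqrt N))
  rw [h1, Fintype.card_fin]
  congr 1
  have h2 : GE f = ∫ x, f x ∂((Measure.pi fun _ : Fin N => gaussianReal 0 1).map
      (fun x : Fin N → ℝ => (∑ i, x i * sgn (w i)) / Real.sqrt N)) := by
    rw [row_law hN w]; rfl
  have h3 : Measurable (fun x : Fin N → ℝ => (∑ i, x i * sgn (w i)) / Real.sqrt N) := by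
    fun_prop
  rw [h2, integral_map h3.aemeasurable hf.aestronglyMeasurable]

theorem measurableSet_near {M N : ℕ} (κ δ : ℝ) (w : Fin N → Bool) :
    MeasurableSet {A : Fin M → Fin N → ℝ | Near κ δ A w} := by
  unfold Near
  refine measurableSet_le ?_ measurable_const
  refine Finset.measurable_sum _ fun k _ => ?_
  exact (measurable_const.max (measurable_const.sub (measurable_yv w k))).pow_const 2

theorem near_prob_le {M N : ℕ} (hN : 1 ≤ N) (w : Fin N → Bool) (κ δ L : ℝ) (hL : 0 ≤ L) :
    (GM M N).real {A | Near κ δ A w}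
      ≤ Real.exp (L * (δ * N)) * (GE fun x => Real.exp (-L * (max 0 (κ - x)) ^ 2)) ^ M := by
  set f : ℝ → ℝ := fun x => Real.exp (-L * (max 0 (κ - x)) ^ 2) with hf
  have hfm : Measurable f := by rw [hf]; fun_prop
  have hfb : ∀ x, 0 ≤ f x ∧ f x ≤ 1 := by
    intro x
    refine ⟨(Real.exp_pos _).le, ?_⟩
    rw [hf]
    simp only
    rw [Real.exp_le_one_iff]
    have : 0 ≤ L * (max 0 (κ - x)) ^ 2 := by positivity
    linarith
  rw [← prod_law hN w hfm hfb, ← integral_const_mul]
  have : IsProbabilityMeasure (GM M N) := by unfold GM; infer_instance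
  have hS := measurableSet_near (M := M) (N := N) κ δ w
  rw [← integral_indicator_one hS]
  have hmeas : Measurable fun A : Fin M → Fin N → ℝ =>
      Real.exp (L * (δ * N)) * ∏ k, f (yv A w k) :=
    (Finset.measurable_prod _ fun k _ => hfm.comp (measurable_yv w k)).const_mul _
  refine integral_mono_of_nonneg (ae_of_all _ fun A => ?_) ?_ (ae_of_all _ fun A => ?_)
  · exact Set.indicator_nonneg (fun _ _ => by simp) A
  · refine Integrable.of_bound hmeas.aestronglyMeasurable (Real.exp (L * (δ * N))) ?_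
    refine ae_of_all _ fun A => ?_
    rw [Real.norm_eq_abs, abs_of_nonneg (mul_nonneg (Real.exp_pos _).le
      (Finset.prod_nonneg fun k _ => (hfb _).1))]
    exact mul_le_of_le_one_right (Real.exp_pos _).le
      (Finset.prod_le_one (fun k _ => (hfb _).1) fun k _ => (hfb _).2)
  · by_cases hA : Near κ δ A w
    · rw [Set.indicator_of_mem (by exact hA)]
      simp only [Pi.one_apply, hf]
      rw [← Real.exp_sum, ← Real.exp_add, ← Finset.mul_sum]
      rw [Real.one_le_exp_iff]
      unfold Near at hA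
      have := mul_le_mul_of_nonneg_left hA hL
      linarith
    · rw [Set.indicator_of_notMem (by exact hA)]
      exact mul_nonneg (Real.exp_pos _).le (Finset.prod_nonneg fun k _ => (hfb _).1)

theorem row_factor (κ e L : ℝ) (he : 0 ≤ e) (hL : 0 ≤ L) :
    (GE fun x => Real.exp (-L * (max 0 (κ - x)) ^ 2)) ≤ Ph (κ - e) + Real.exp (-L * e ^ 2) := by
  have hi : Integrable (Set.indicator (Set.Ici (κ - e)) (1 : ℝ → ℝ)) (gaussianReal 0 1) :=
    (integrable_const (1 : ℝ)).indicator measurableSet_Ici
  have h1 : Ph (κ - e) + Real.exp (-L * e ^ 2)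
      = ∫ x, (Set.indicator (Set.Ici (κ - e)) (1 : ℝ → ℝ) x + Real.exp (-L * e ^ 2))
          ∂(gaussianReal 0 1) := by
    rw [integral_add hi (integrable_const _), integral_indicator_one measurableSet_Ici,
      integral_const]
    simp [Ph]
  rw [h1, GE]
  refine integral_mono_of_nonneg (ae_of_all _ fun x => (Real.exp_pos _).le)
    (hi.add (integrable_const _)) (ae_of_all _ fun x => ?_)
  simp only
  by_cases hx : κ - e ≤ x
  · rw [Set.indicator_of_mem (by exact hx)]
    have h2 : Real.exp (-L * (max 0 (κ - x)) ^ 2) ≤ 1 := by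
      rw [Real.exp_le_one_iff]
      have : 0 ≤ L * (max 0 (κ - x)) ^ 2 := by positivity
      linarith
    have h3 := Real.exp_pos (-L * e ^ 2)
    simp only [Pi.one_apply]
    linarith
  · rw [Set.indicator_of_notMem (by exact hx), zero_add]
    rw [Real.exp_le_exp]
    push Not at hx
    have h4 : e ≤ max 0 (κ - x) := le_max_of_le_right (by linarith)
    have h5 : e ^ 2 ≤ (max 0 (κ - x)) ^ 2 := pow_le_pow_left₀ he h4 2
    have := mul_le_mul_of_nonneg_left h5 hL
    linarith

end Pool.Agent.IP49
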