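import Pool.Agent.IP49.UDefs
import Pool.Agent.IP49.MillsB

/-!
IP49, part U1: law of a Gaussian matrix applied to a vector; window trick.

PROOFS. `law_dot`: `H ↦ (dt (H a) u/|u|)_a`: rows are independent, each coordinate is `N(0,1)`
(`gv_map_coisom` with `κ = Fin 1`, or the first component of `row_law`; then
`measurePreserving_pi`).
`win`: by `row_law` (unit vector `c`) the law `gv` is the law of `ξ = p₁ c + P p₂`, `P = 1 - c cᵀ`,
`p₁ ~ N(0,1)` independent of `p₂ ~ gv`. The left event for `ξ` depends on `P ξ = P p₂` only, so its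
probability is `P(A)`, `A = {p₂ | ∑ (max 0 (t - τ P p₂))² ≤ D}` (take also the identity
`gv A = (prod) {p | p.2 ∈ A}`; in fact the left side IS `gv A`). `W = {p₁ ∈ [z, z+1]}` has
probability `≥ (2π)^(-1/2) exp(-(|z|+1)²/2)`. On `W × A`
`t + τ z c - τ ξ = (t - τ P p₂) - τ (p₁ - z) c`, so `∑ (max 0 (t + τ z c - τ ξ))² ≤
2 ∑ (max 0 (t - τ P p₂))² + 2 τ² (p₁-z)² ∑ c² ≤ 2D + 2τ²`. Hence `P(W) P(A) ≤ P(right event)`.
-/

set_option autoImplicit false
open MeasureTheory ProbabilityTheory Filter Topology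

namespace Pool.Agent.IP49

open SR

theorem law_dot_row {N : ℕ} (u : Fin N → ℝ) (hu : 0 < nsq u) :
    MeasurePreserving (fun x : Fin N → ℝ => dt x u / Real.sqrt (nsq u))
      (gv (Fin N)) (gaussianReal 0 1) := by
  have hs : 0 < Real.sqrt (nsq u) := Real.sqrt_pos.2 hu
  have h1 := gv_map_coisom (ι := Fin N) (κ := Fin 1) (fun _ i => u i / Real.sqrt (nsq u)) (by
    intro t
    simp only [Fin.sum_univ_one]
    have : ∀ i, (t 0 * (u i / Real.sqrt (nsq u))) ^ 2 = t 0 ^ 2 * (u i ^ 2 / nsq u) := by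
      intro i
      rw [mul_pow, div_pow, Real.sq_sqrt hu.le]
    simp only [this]
    rw [← Finset.mul_sum, ← Finset.sum_div]
    have h2 : ∑ i, u i ^ 2 = nsq u := rfl
    rw [h2, div_self hu.ne', mul_one])
  have h2 : MeasurePreserving (fun (x : Fin N → ℝ) (_ : Fin 1) =>
      ∑ i, u i / Real.sqrt (nsq u) * x i) (gv (Fin N)) (gv (Fin 1)) := ⟨by fun_prop, h1⟩
  have h3 : MeasurePreserving (Function.eval (0 : Fin 1)) (gv (Fin 1)) (gaussianReal 0 1) :=
    measurePreserving_eval (fun _ : Fin 1 => gaussianReal 0 1) 0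
  have h4 := h3.comp h2
  have h5 : (Function.eval (0 : Fin 1) ∘ fun (x : Fin N → ℝ) (_ : Fin 1) =>
      ∑ i, u i / Real.sqrt (nsq u) * x i) = fun x : Fin N → ℝ => dt x u / Real.sqrt (nsq u) := by
    funext x
    simp only [Function.comp_apply, Function.eval, dt]
    rw [Finset.sum_div]
    exact Finset.sum_congr rfl fun i _ => by ring
  rw [h5] at h4
  exact h4

theorem law_dot {M N : ℕ} (u : Fin N → ℝ) (hu : 0 < nsq u) :
    MeasurePreserving (fun (H : Fin M → Fin N → ℝ) (a : Fin M) => dt (H a) u / Real.sqrt (nsq u))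
      (GM M N) (gv (Fin M)) :=
  measurePreserving_pi (fun _ : Fin M => gv (Fin N)) (fun _ : Fin M => gaussianReal 0 1)
    (fun _ => law_dot_row u hu)

/-- lower bound for a unit window -/
theorem window_ge (z : ℝ) :
    Real.exp (-((|z| + 1) ^ 2 / 2)) / Real.sqrt (2 * Real.pi)
      ≤ (gaussianReal 0 1).real (Set.Icc z (z + 1)) := by
  have h1 : (gaussianReal 0 1).real (Set.Icc z (z + 1)) = ∫ x in Set.Icc z (z + 1), phi x := by
    rw [measureReal_def, gaussianReal_apply_eq_integral _ (by norm_num), ENNReal.toReal_ofReal]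
    · simp only [MC.phi_fun_eq]
    · exact setIntegral_nonneg measurableSet_Icc fun x _ => gaussianPDFReal_nonneg 0 1 x
  rw [h1]
  have h2 : ∫ x in Set.Icc z (z + 1), (Real.exp (-((|z| + 1) ^ 2 / 2)) / Real.sqrt (2 * Real.pi))
      = Real.exp (-((|z| + 1) ^ 2 / 2)) / Real.sqrt (2 * Real.pi) := by
    rw [setIntegral_const, measureReal_def, Real.volume_Icc]
    simp
  rw [← h2]
  apply setIntegral_mono_on (integrableOn_const (by simp)) MC.integrable_phi.integrableOn
    measurableSet_Icc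
  intro x hx
  unfold phi
  have hs : 0 < Real.sqrt (2 * Real.pi) := Real.sqrt_pos.2 (by positivity)
  apply div_le_div_of_nonneg_right _ hs.le
  apply Real.exp_le_exp.2
  have h3 : |x| ≤ |z| + 1 := by
    rw [abs_le]
    have := neg_abs_le z
    have := le_abs_self z
    constructor
    · linarith [hx.1]
    · linarith [hx.2]
  have h4 : x ^ 2 ≤ (|z| + 1) ^ 2 := by
    rw [← sq_abs x]
    exact pow_le_pow_left₀ (abs_nonneg x) h3 2
  linarith

theorem max_sub_sq_le (u v : ℝ) : (max 0 (u - v)) ^ 2 ≤ 2 * (max 0 u) ^ 2 + 2 * v ^ 2 := by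
  have h1 : max 0 (u - v) ≤ max 0 u + |v| := by
    apply max_le
    · positivity
    · have := neg_abs_le v
      have := le_max_right 0 u
      linarith
  have h2 : (max 0 (u - v)) ^ 2 ≤ (max 0 u + |v|) ^ 2 :=
    pow_le_pow_left₀ (le_max_left _ _) h1 2
  have h3 : |v| ^ 2 = v ^ 2 := sq_abs v
  nlinarith [sq_nonneg (max 0 u - |v|)]

theorem win {M : ℕ} (c t : Fin M → ℝ) (hc : ∑ a, c a ^ 2 = 1) {τ z D : ℝ} (hτ : 0 ≤ τ)
    (hD : 0 ≤ D) :
    (gv (Fin M)).real {x | ∑ a, (max 0 (t a - τ * (x a - (∑ j, x j * c j) * c a))) ^ 2 ≤ D}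
      ≤ Real.sqrt (2 * Real.pi) * Real.exp ((|z| + 1) ^ 2 / 2)
        * (gv (Fin M)).real {x | ∑ a, (max 0 (t a + τ * z * c a - τ * x a)) ^ 2
            ≤ 2 * D + 2 * τ ^ 2} := by
  set A : Set (Fin M → ℝ) :=
    {x | ∑ a, (max 0 (t a - τ * (x a - (∑ j, x j * c j) * c a))) ^ 2 ≤ D} with hA
  set R : Set (Fin M → ℝ) := {x | ∑ a, (max 0 (t a + τ * z * c a - τ * x a)) ^ 2
            ≤ 2 * D + 2 * τ ^ 2} with hR
  have hRm : MeasurableSet R := by
    apply measurableSet_le _ measurable_const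
    fun_prop
  set W : Set ℝ := Set.Icc z (z + 1) with hW
  set Φ : ℝ × (Fin M → ℝ) → Fin M → ℝ :=
    fun p i => p.1 * c i + (p.2 i - (∑ j, p.2 j * c j) * c i) with hΦ
  have hΦm : Measurable Φ := by rw [hΦ]; fun_prop
  have hmap : ((gaussianReal 0 1).prod (gv (Fin M))).map Φ = gv (Fin M) := row_law c hc
  have hsub : W ×ˢ A ⊆ Φ ⁻¹' R := by
    rintro ⟨p, x⟩ ⟨hp, hx⟩
    have hp' : z ≤ p ∧ p ≤ z + 1 := hp
    have hx' : ∑ a, (max 0 (t a - τ * (x a - (∑ j, x j * c j) * c a))) ^ 2 ≤ D := hx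
    show ∑ a, (max 0 (t a + τ * z * c a
      - τ * (p * c a + (x a - (∑ j, x j * c j) * c a)))) ^ 2 ≤ 2 * D + 2 * τ ^ 2
    calc ∑ a, (max 0 (t a + τ * z * c a
          - τ * (p * c a + (x a - (∑ j, x j * c j) * c a)))) ^ 2
        ≤ ∑ a, (2 * (max 0 (t a - τ * (x a - (∑ j, x j * c j) * c a))) ^ 2
            + 2 * (τ * (p - z)) ^ 2 * c a ^ 2) := by
          apply Finset.sum_le_sum
          intro a _
          have h1 := max_sub_sq_le (t a - τ * (x a - (∑ j, x j * c j) * c a))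
            (τ * (p - z) * c a)
          have h2 : t a - τ * (x a - (∑ j, x j * c j) * c a) - τ * (p - z) * c a
              = t a + τ * z * c a - τ * (p * c a + (x a - (∑ j, x j * c j) * c a)) := by ring
          rw [h2] at h1
          calc _ ≤ _ := h1
            _ = _ := by ring
      _ = 2 * ∑ a, (max 0 (t a - τ * (x a - (∑ j, x j * c j) * c a))) ^ 2
            + 2 * (τ * (p - z)) ^ 2 := by
          rw [Finset.sum_add_distrib, ← Finset.mul_sum, ← Finset.mul_sum, hc, mul_one]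
      _ ≤ 2 * D + 2 * τ ^ 2 := by
          have h3 : (p - z) ^ 2 ≤ 1 := by
            nlinarith [hp'.1, hp'.2]
          have h4 : (τ * (p - z)) ^ 2 ≤ τ ^ 2 := by
            rw [mul_pow]
            have := sq_nonneg τ
            nlinarith
          linarith
  have h1 : (gaussianReal 0 1).real W * (gv (Fin M)).real A ≤ (gv (Fin M)).real R := by
    have h2 : ((gaussianReal 0 1).prod (gv (Fin M))).real (W ×ˢ A)
        = (gaussianReal 0 1).real W * (gv (Fin M)).real A := measureReal_prod_prod W A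
    rw [← h2]
    have h3 : (gv (Fin M)).real R = ((gaussianReal 0 1).prod (gv (Fin M))).real (Φ ⁻¹' R) := by
      conv_lhs => rw [← hmap]
      rw [measureReal_def, measureReal_def, Measure.map_apply hΦm hRm]
    rw [h3]
    exact measureReal_mono hsub
  have h2 := window_ge z
  have hs : 0 < Real.sqrt (2 * Real.pi) := Real.sqrt_pos.2 (by positivity)
  have h3 : Real.exp (-((|z| + 1) ^ 2 / 2)) / Real.sqrt (2 * Real.pi) * (gv (Fin M)).real A
      ≤ (gv (Fin M)).real R :=
    le_trans (mul_le_mul_of_nonneg_right h2 measureReal_nonneg) h1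
  have h4 : (gv (Fin M)).real A = Real.sqrt (2 * Real.pi) * Real.exp ((|z| + 1) ^ 2 / 2)
      * (Real.exp (-((|z| + 1) ^ 2 / 2)) / Real.sqrt (2 * Real.pi) * (gv (Fin M)).real A) := by
    rw [Real.exp_neg]
    have := Real.exp_pos ((|z| + 1) ^ 2 / 2)
    field_simp
  rw [h4]
  apply mul_le_mul_of_nonneg_left h3 (by positivity)

end Pool.Agent.IP49
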