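import Pool.Agent.IP49.UDefs
import Pool.Agent.IP49.MillsB

/-!
IP49, part U1: one-sided tail bound and the product bound.

PROOFS. `one_tail`: Chernoff `1_{S ≤ D} ≤ exp(L D) exp(-L S)`, the expectation of
`exp(-L ∑ (max 0 (s - τ ξ))²)` is a product over coordinates, and
`E exp(-L (max 0 (s - τ ξ))²) ≤ P(ξ ≥ s/τ - e) + exp(-L (τ e)²)`: if `ξ < s/τ - e` then
`s - τ ξ > τ e`. `Ph z = (gaussianReal 0 1).real (Ici z)`.
`prod_le`: pointwise `Ph(z-e) + exp(-K) = Ph(z-e) (1 + exp(-K)/Ph(z-e))`, `-log Ph(u) ≤ 2 + u²`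
(`logPh_ge`), so with `t = -K + 2 + u²`: `log(1+e^t) ≤ e^{-K/2} + max 0 (t + K/2)` (for
`t ≤ -K/2`: `log(1+x) ≤ x`; otherwise `1 + e^t ≤ (1 + e^{-K/2}) e^{t + K/2}`), tangent line
`logPh_le_tangent (z-e) (-y)`: `log Ph(z-e) ≤ log Ph(-y) - Mi(-y) (z - e + y)`.
-/

set_option autoImplicit false
open MeasureTheory ProbabilityTheory Filter Topology

namespace Pool.Agent.IP49

open SR

theorem one_tail_one (s : ℝ) {τ L e : ℝ} (hτ : 0 < τ) (hL : 0 < L) (he : 0 < e) :
    ∫ x, Real.exp (-(L * (max 0 (s - τ * x)) ^ 2)) ∂(gaussianReal 0 1)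
      ≤ Ph (s / τ - e) + Real.exp (-(L * (τ * e) ^ 2)) := by
  have hm : Measurable fun x : ℝ => Real.exp (-(L * (max 0 (s - τ * x)) ^ 2)) := by fun_prop
  have hi : Integrable (fun x : ℝ => Real.exp (-(L * (max 0 (s - τ * x)) ^ 2)))
      (gaussianReal 0 1) := by
    refine Integrable.of_bound hm.aestronglyMeasurable 1 (Filter.Eventually.of_forall fun x => ?_)
    rw [Real.norm_eq_abs, abs_of_pos (Real.exp_pos _)]
    apply Real.exp_le_one_iff.2
    have : 0 ≤ L * (max 0 (s - τ * x)) ^ 2 := by positivity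
    linarith
  have hI : Integrable (fun x : ℝ => (Set.Ici (s / τ - e)).indicator (fun _ => (1 : ℝ)) x
      + Real.exp (-(L * (τ * e) ^ 2))) (gaussianReal 0 1) :=
    ((integrable_const (1 : ℝ)).indicator measurableSet_Ici).add (integrable_const _)
  calc ∫ x, Real.exp (-(L * (max 0 (s - τ * x)) ^ 2)) ∂(gaussianReal 0 1)
      ≤ ∫ x, ((Set.Ici (s / τ - e)).indicator (fun _ => (1 : ℝ)) x
          + Real.exp (-(L * (τ * e) ^ 2))) ∂(gaussianReal 0 1) := by
        apply integral_mono hi hI
        intro x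
        show Real.exp (-(L * (max 0 (s - τ * x)) ^ 2))
          ≤ (Set.Ici (s / τ - e)).indicator (fun _ => (1 : ℝ)) x + Real.exp (-(L * (τ * e) ^ 2))
        by_cases hx : x ∈ Set.Ici (s / τ - e)
        · rw [Set.indicator_of_mem hx]
          have h1 : Real.exp (-(L * (max 0 (s - τ * x)) ^ 2)) ≤ 1 := by
            apply Real.exp_le_one_iff.2
            have : 0 ≤ L * (max 0 (s - τ * x)) ^ 2 := by positivity
            linarith
          have h2 := Real.exp_pos (-(L * (τ * e) ^ 2))
          linarith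
        · rw [Set.indicator_of_notMem hx, zero_add]
          have hx' : x < s / τ - e := not_le.1 hx
          have h1 : τ * x < s - τ * e := by
            have := mul_lt_mul_of_pos_left hx' hτ
            have h2 : τ * (s / τ - e) = s - τ * e := by field_simp
            linarith
          have h2 : τ * e ≤ max 0 (s - τ * x) := le_trans (by linarith) (le_max_right _ _)
          have h3 : (τ * e) ^ 2 ≤ (max 0 (s - τ * x)) ^ 2 :=
            pow_le_pow_left₀ (by positivity) h2 2
          apply Real.exp_le_exp.2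
          have := mul_le_mul_of_nonneg_left h3 hL.le
          linarith
    _ = Ph (s / τ - e) + Real.exp (-(L * (τ * e) ^ 2)) := by
        rw [integral_add ((integrable_const (1 : ℝ)).indicator measurableSet_Ici)
          (integrable_const _), integral_indicator_const _ measurableSet_Ici]
        simp [Ph]

theorem one_tail {M : ℕ} (s : Fin M → ℝ) {τ L e D : ℝ} (hτ : 0 < τ) (hL : 0 < L) (he : 0 < e) :
    (gv (Fin M)).real {x | ∑ a, (max 0 (s a - τ * x a)) ^ 2 ≤ D}
      ≤ Real.exp (L * D) * ∏ a, (Ph (s a / τ - e) + Real.exp (-(L * (τ * e) ^ 2))) := by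
  set E : Set (Fin M → ℝ) := {x | ∑ a, (max 0 (s a - τ * x a)) ^ 2 ≤ D} with hE
  have hEm : MeasurableSet E := by
    apply measurableSet_le _ measurable_const
    fun_prop
  set f : (Fin M → ℝ) → ℝ := fun x => ∏ a, Real.exp (-(L * (max 0 (s a - τ * x a)) ^ 2)) with hf
  have hfm : Measurable f := by
    rw [hf]; fun_prop
  have hf1 : ∀ x, f x ≤ 1 := by
    intro x
    apply Finset.prod_le_one
    · intro a _; exact (Real.exp_pos _).le
    · intro a _
      apply Real.exp_le_one_iff.2
      have : 0 ≤ L * (max 0 (s a - τ * x a)) ^ 2 := by positivity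
      linarith
  have hf0 : ∀ x, 0 ≤ f x := fun x => Finset.prod_nonneg fun a _ => (Real.exp_pos _).le
  have hfi : Integrable f (gv (Fin M)) := by
    refine Integrable.of_bound hfm.aestronglyMeasurable 1 (Filter.Eventually.of_forall fun x => ?_)
    rw [Real.norm_eq_abs, abs_of_nonneg (hf0 x)]
    exact hf1 x
  have h1 : (gv (Fin M)).real E = ∫ x, E.indicator (fun _ => (1 : ℝ)) x ∂(gv (Fin M)) := by
    rw [integral_indicator_const _ hEm]; simp
  rw [h1]
  calc ∫ x, E.indicator (fun _ => (1 : ℝ)) x ∂(gv (Fin M))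
      ≤ ∫ x, Real.exp (L * D) * f x ∂(gv (Fin M)) := by
        apply integral_mono ((integrable_const (1 : ℝ)).indicator hEm) (hfi.const_mul _)
        intro x
        show E.indicator (fun _ => (1 : ℝ)) x ≤ Real.exp (L * D) * f x
        by_cases hx : x ∈ E
        · rw [Set.indicator_of_mem hx]
          have hfx : f x = Real.exp (-(L * ∑ a, (max 0 (s a - τ * x a)) ^ 2)) := by
            rw [hf]
            simp only
            rw [← Real.exp_sum, Finset.sum_neg_distrib, Finset.mul_sum]
          rw [hfx, ← Real.exp_add]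
          apply Real.one_le_exp
          have hx' : ∑ a, (max 0 (s a - τ * x a)) ^ 2 ≤ D := hx
          have := mul_le_mul_of_nonneg_left hx' hL.le
          linarith
        · rw [Set.indicator_of_notMem hx]
          exact mul_nonneg (Real.exp_pos _).le (hf0 x)
    _ = Real.exp (L * D) * ∏ a, ∫ x, Real.exp (-(L * (max 0 (s a - τ * x)) ^ 2))
          ∂(gaussianReal 0 1) := by
        rw [integral_const_mul]
        congr 1
        exact integral_fintype_prod_eq_prod (ι := Fin M) (E := fun _ => ℝ)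
          (μ := fun _ => gaussianReal 0 1)
          (fun a x => Real.exp (-(L * (max 0 (s a - τ * x)) ^ 2)))
    _ ≤ _ := by
        apply mul_le_mul_of_nonneg_left _ (Real.exp_pos _).le
        apply Finset.prod_le_prod
        · intro a _
          exact integral_nonneg fun x => (Real.exp_pos _).le
        · intro a _
          exact one_tail_one (s a) hτ hL he

theorem prod_le_one (z y : ℝ) {K e : ℝ} (hK : 0 ≤ K) :
    Ph (z - e) + Real.exp (-K)
      ≤ Real.exp ((Real.log (Ph (-y)) - Mi (-y) * (z - e + y)) + Real.exp (-(K / 2))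
          + max 0 (2 + (z - e) ^ 2 - K / 2)) := by
  set u := z - e with hu
  have hP : 0 < Ph u := MC.Ph_pos u
  have h1 : Ph u = Real.exp (Real.log (Ph u)) := (Real.exp_log hP).symm
  have h2 : Real.log (Ph u) ≤ Real.log (Ph (-y)) - Mi (-y) * (u + y) := by
    have := logPh_le_tangent u (-y)
    rwa [sub_neg_eq_add] at this
  have h3 := logPh_ge u
  -- exp(-K) ≤ Ph u * exp(-K + 2 + u^2)
  have h4 : Real.exp (-K) ≤ Ph u * Real.exp (-K + (2 + u ^ 2)) := by
    rw [h1, ← Real.exp_add]
    apply Real.exp_le_exp.2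
    linarith
  have h5 : 1 + Real.exp (-K + (2 + u ^ 2))
      ≤ Real.exp (Real.exp (-(K / 2)) + max 0 (2 + u ^ 2 - K / 2)) := by
    have hb := Real.add_one_le_exp (Real.exp (-(K / 2)))
    rw [Real.exp_add (Real.exp (-(K / 2)))]
    rcases le_total (2 + u ^ 2 - K / 2) 0 with h | h
    · rw [max_eq_left h, Real.exp_zero, mul_one]
      have : Real.exp (-K + (2 + u ^ 2)) ≤ Real.exp (-(K / 2)) :=
        Real.exp_le_exp.2 (by linarith)
      linarith
    · rw [max_eq_right h]
      have h6 : 1 ≤ Real.exp (2 + u ^ 2 - K / 2) := Real.one_le_exp h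
      have h7 : Real.exp (-K + (2 + u ^ 2))
          = Real.exp (-(K / 2)) * Real.exp (2 + u ^ 2 - K / 2) := by
        rw [← Real.exp_add]; congr 1; ring
      have h8 : 0 < Real.exp (-(K / 2)) := Real.exp_pos _
      calc 1 + Real.exp (-K + (2 + u ^ 2))
          ≤ (Real.exp (-(K / 2)) + 1) * Real.exp (2 + u ^ 2 - K / 2) := by
            rw [h7]; nlinarith
        _ ≤ _ := mul_le_mul_of_nonneg_right hb (Real.exp_pos _).le
  calc Ph u + Real.exp (-K) ≤ Ph u * (1 + Real.exp (-K + (2 + u ^ 2))) := by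
        rw [mul_add, mul_one]; linarith
    _ ≤ Real.exp (Real.log (Ph (-y)) - Mi (-y) * (u + y))
        * Real.exp (Real.exp (-(K / 2)) + max 0 (2 + u ^ 2 - K / 2)) := by
        apply mul_le_mul _ h5 (by positivity) (Real.exp_pos _).le
        rw [h1]
        exact Real.exp_le_exp.2 h2
    _ = _ := by
        rw [← Real.exp_add, add_assoc]

theorem prod_le {M : ℕ} (z y : Fin M → ℝ) {K e : ℝ} (hK : 0 ≤ K) :
    ∏ a, (Ph (z a - e) + Real.exp (-K))
      ≤ Real.exp (∑ a, (Real.log (Ph (-y a)) - Mi (-y a) * (z a - e + y a))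
          + M * Real.exp (-(K / 2)) + ∑ a, max 0 (2 + (z a - e) ^ 2 - K / 2)) := by
  calc ∏ a, (Ph (z a - e) + Real.exp (-K))
      ≤ ∏ a, Real.exp ((Real.log (Ph (-y a)) - Mi (-y a) * (z a - e + y a))
          + Real.exp (-(K / 2)) + max 0 (2 + (z a - e) ^ 2 - K / 2)) := by
        apply Finset.prod_le_prod
        · intro a _
          have := (MC.Ph_pos (z a - e)).le
          have := (Real.exp_pos (-K)).le
          linarith
        · intro a _
          exact prod_le_one (z a) (y a) hK
    _ = _ := by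
        rw [← Real.exp_sum]
        congr 1
        rw [Finset.sum_add_distrib, Finset.sum_add_distrib, Finset.sum_const, Finset.card_univ,
          Fintype.card_fin, nsmul_eq_mul]

end Pool.Agent.IP49
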