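import Pool.Agent.IP49.UDec
import Pool.Agent.IP49.UWinA
import Pool.Agent.IP49.UWinB

/-!
IP49, part U1: probability that the core is near, for a fixed configuration.

PROOF. For `0 < nsq (wp m w)`, `τ = √(nsq wp/N) > 0`: `dt (H a) wp/√N = τ ξ_a` with `ξ` standard
(`law_dot`, `u = wp`), `(dt (fun e => dt (H e) wp) n/nsq n) n a/√N = τ (∑ ξ c) c a`, `c = n/|n|`; so
`κ - core = t - τ (ξ a - (∑ ξ c) c a)` with `t a = κ - ρ (hh a + b n a) - dt h wp/nsq n * n a`; apply
`win` with `z = |n| cF` (then `t a + τ z c a = t a + τ cF n a`) and `D = δ N`, then `one_tail` with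
`D' = 2 δ N + 2 τ² ≤ 2 δ N + 2` (`τ ≤ 1` by `nsq_wp`).
-/

set_option autoImplicit false
open MeasureTheory ProbabilityTheory Filter Topology

namespace Pool.Agent.IP49

open SR

theorem Pcore_le {κ δ b cF L e : ℝ} {M N : ℕ} (h m : Fin N → ℝ) (hh n : Fin M → ℝ)
    (w : Fin N → Bool) (hN : 0 < N) (hm : 0 < nsq m) (hn : 0 < nsq n) (hw : 0 < nsq (wp m w))
    (hδ : 0 ≤ δ) (hL : 0 < L) (he : 0 < e) :
    Pcore κ δ b h m hh n w ≤ Real.sqrt (2 * Real.pi)
      * Real.exp ((Real.sqrt (nsq n) * |cF| + 1) ^ 2 / 2) * Real.exp (L * (2 * δ * N + 2))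
      * ∏ a, (Ph ((κ - rhw m w * hh a - (b * rhw m w + dt h (wp m w) / nsq n
            - cF * Real.sqrt (nsq (wp m w) / N)) * n a) / Real.sqrt (nsq (wp m w) / N) - e)
          + Real.exp (-(L * (Real.sqrt (nsq (wp m w) / N) * e) ^ 2))) := by
  classical
  have hNr : (0 : ℝ) < N := Nat.cast_pos.2 hN
  have hsN : 0 < Real.sqrt N := Real.sqrt_pos.2 hNr
  have hsn : 0 < Real.sqrt (nsq n) := Real.sqrt_pos.2 hn
  have hsw : 0 < Real.sqrt (nsq (wp m w)) := Real.sqrt_pos.2 hw
  set τ := Real.sqrt (nsq (wp m w) / N) with hτ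
  have hτp : 0 < τ := Real.sqrt_pos.2 (div_pos hw hNr)
  have hτe : τ = Real.sqrt (nsq (wp m w)) / Real.sqrt N := Real.sqrt_div' _ hNr.le
  have hτ1 : τ ^ 2 ≤ 1 := by
    rw [hτ, Real.sq_sqrt (div_pos hw hNr).le, div_le_one hNr, nsq_wp m hm w]
    have : 0 ≤ rhw m w ^ 2 * nsq m := mul_nonneg (sq_nonneg _) hm.le
    linarith
  set c : Fin M → ℝ := fun a => n a / Real.sqrt (nsq n) with hc
  have hc1 : ∑ a, c a ^ 2 = 1 := by
    simp only [hc, div_pow, Real.sq_sqrt hn.le]
    rw [← Finset.sum_div]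
    exact div_self hn.ne'
  set t : Fin M → ℝ := fun a => κ - rhw m w * (hh a + b * n a)
    - dt h (wp m w) / nsq n * n a with ht
  set z := Real.sqrt (nsq n) * cF with hz
  -- step 1: the law
  have hset : MeasurableSet {x : Fin M → ℝ |
      ∑ a, (max 0 (t a - τ * (x a - (∑ j, x j * c j) * c a))) ^ 2 ≤ δ * N} := by
    refine measurableSet_le ?_ measurable_const
    fun_prop
  have hP : Pcore κ δ b h m hh n w = (gv (Fin M)).real {x : Fin M → ℝ |
      ∑ a, (max 0 (t a - τ * (x a - (∑ j, x j * c j) * c a))) ^ 2 ≤ δ * N} := by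
    unfold Pcore
    have hl := law_dot (M := M) (wp m w) hw
    rw [measureReal_def, measureReal_def, ← hl.measure_preimage hset.nullMeasurableSet]
    congr 2
    ext H
    simp only [Set.mem_ofPred_eq, Set.mem_preimage]
    have e : ∀ a, κ - core b h m hh n w H a = t a - τ * (dt (H a) (wp m w) / Real.sqrt (nsq (wp m w))
        - (∑ j, dt (H j) (wp m w) / Real.sqrt (nsq (wp m w)) * c j) * c a) := by
      intro a
      have e1 : (∑ j, dt (H j) (wp m w) / Real.sqrt (nsq (wp m w)) * c j)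
          = dt (fun e => dt (H e) (wp m w)) n / (Real.sqrt (nsq (wp m w)) * Real.sqrt (nsq n)) := by
        rw [show dt (fun e => dt (H e) (wp m w)) n = ∑ j, dt (H j) (wp m w) * n j from rfl,
          Finset.sum_div]
        refine Finset.sum_congr rfl fun j _ => ?_
        simp only [hc]
        field_simp
      rw [e1]
      have e2 : nsq n = Real.sqrt (nsq n) * Real.sqrt (nsq n) := (Real.mul_self_sqrt hn.le).symm
      unfold core
      simp only [ht, hc]
      rw [hτe]
      set s := Real.sqrt (nsq n) with hs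
      rw [e2]
      field_simp
      ring
    simp only [e]
  rw [hP]
  refine (win c t hc1 hτp.le (z := z) (D := δ * N) (by positivity)).trans ?_
  have hz1 : |z| = Real.sqrt (nsq n) * |cF| := by rw [hz, abs_mul, abs_of_pos hsn]
  rw [hz1, mul_assoc (Real.sqrt (2 * Real.pi) * _)]
  refine mul_le_mul_of_nonneg_left ?_ (by positivity)
  have ht1 := one_tail (fun a => t a + τ * z * c a) (D := 2 * (δ * N) + 2 * τ ^ 2) hτp hL he
  refine ht1.trans ?_
  refine mul_le_mul ?_ (le_of_eq ?_) ?_ (Real.exp_pos _).le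
  · refine Real.exp_le_exp.2 (mul_le_mul_of_nonneg_left ?_ hL.le)
    linarith
  · refine Finset.prod_congr rfl fun a _ => ?_
    have e3 : t a + τ * z * c a = κ - rhw m w * hh a - (b * rhw m w + dt h (wp m w) / nsq n
            - cF * τ) * n a := by
      simp only [ht, hz, hc]
      field_simp
      ring
    rw [e3]
  · refine Finset.prod_nonneg fun a _ => add_nonneg (Ph_pos _).le (Real.exp_pos _).le

end Pool.Agent.IP49
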