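import Pool.Agent.IP49.VDefs

/-!
IP49, part U2: the Gaussian density and the change of variables `y = y₀ + ε B z`.

`gs_eq`: product of one-dimensional densities (`gaussianReal 0 1 = volume.withDensity
(gaussianPDF 0 1)`; prove `Measure.pi_eq` on boxes, or use an existing lemma on products of
measures with density, `lintegral_fintype_prod_eq_prod` type); `∏ (√(2π))⁻¹ exp(-z_i²/2)`
`= (√(2π))⁻¹^n exp(-nsq z/2)`.
`cov_lower`: the map `T z = y₀ + ε B z` is injective, `|det DT| = ε^n |det B|`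
(`MeasureTheory.lintegral_image_eq_lintegral_abs_det_fderiv_mul`, or
`Real.map_matrix_volume_pi_eq_smul_volume_pi` and translation invariance). `T '' E ⊆ Y`, so
`∫⁻_Y ρ_ε(R) ≥ ∫⁻_{T '' E} = ∫⁻_{z ∈ E} ε^n |det B| ρ_ε(Rs (T z))`, and
`ε^n ρ_ε(Rs(T z)) = (√(2π))⁻¹^n exp(-Rs/(2ε²)) ≥ exp(-K) (√(2π))⁻¹^n exp(-nsq z/2)`.
-/

set_option autoImplicit false
open MeasureTheory ProbabilityTheory Matrix

namespace Pool.Agent.IP49

variable {ι : Type*} [Fintype ι] [DecidableEq ι]

theorem gs_eq : gs ι = (volume : Measure (ι → ℝ)).withDensity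
    (fun z => ENNReal.ofReal (rhoE 1 (Fintype.card ι) (nsq z))) := by
  have h0 : ∀ z : ι → ℝ, rhoE 1 (Fintype.card ι) (nsq z) = ∏ i, gaussianPDFReal 0 1 (z i) := by
    intro z
    simp only [rhoE, nsq, gaussianPDFReal_def, NNReal.coe_one, mul_one, sub_zero]
    rw [Finset.prod_mul_distrib, Finset.prod_const, Finset.card_univ, ← Real.exp_sum]
    congr 2
    rw [neg_div, Finset.sum_div, ← Finset.sum_neg_distrib]
    refine Finset.sum_congr rfl fun i _ => ?_
    rw [one_pow, mul_one, neg_div]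
  simp_rw [h0]
  unfold gs
  apply Measure.pi_eq
  intro s hs
  rw [withDensity_apply _ (MeasurableSet.univ_pi hs)]
  have hint : Integrable (fun x : ι → ℝ => ∏ i, (s i).indicator (gaussianPDFReal 0 1) (x i))
      (volume : Measure (ι → ℝ)) := by
    rw [volume_pi]
    exact Integrable.fintype_prod (fun i =>
      (integrable_gaussianPDFReal 0 1).indicator (hs i))
  have h2 : ∀ x : ι → ℝ, (Set.univ.pi s).indicator
      (fun x : ι → ℝ => ENNReal.ofReal (∏ i, gaussianPDFReal 0 1 (x i))) x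
      = ENNReal.ofReal (∏ i, (s i).indicator (gaussianPDFReal 0 1) (x i)) := by
    intro x
    by_cases hx : x ∈ Set.univ.pi s
    · rw [Set.indicator_of_mem hx]
      congr 1
      refine Finset.prod_congr rfl fun i _ => ?_
      rw [Set.indicator_of_mem (hx i trivial)]
    · rw [Set.indicator_of_notMem hx]
      simp only [Set.mem_pi, Set.mem_univ, forall_const, not_forall] at hx
      obtain ⟨i, hi⟩ := hx
      rw [Finset.prod_eq_zero (Finset.mem_univ i) (Set.indicator_of_notMem hi _)]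
      simp
  rw [← lintegral_indicator (MeasurableSet.univ_pi hs)]
  simp_rw [h2]
  rw [← ofReal_integral_eq_lintegral_ofReal hint (Filter.Eventually.of_forall fun x =>
    Finset.prod_nonneg fun i _ => Set.indicator_nonneg (fun y _ => gaussianPDFReal_nonneg 0 1 y) _)]
  rw [integral_fintype_prod_volume_eq_prod (fun i => (s i).indicator (gaussianPDFReal 0 1)),
    ENNReal.ofReal_prod_of_nonneg (fun i _ => integral_nonneg fun y =>
      Set.indicator_nonneg (fun y _ => gaussianPDFReal_nonneg 0 1 y) _)]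
  refine Finset.prod_congr rfl fun i _ => ?_
  rw [integral_indicator (hs i), gaussianReal_apply_eq_integral 0 one_ne_zero]

theorem cov_lower {B : Matrix ι ι ℝ} (hB : B.det ≠ 0) {ε : ℝ} (hε : 0 < ε) (y₀ : ι → ℝ)
    {Rs : (ι → ℝ) → ℝ} (hRs : Measurable Rs) {Y E : Set (ι → ℝ)} (hE : MeasurableSet E) {K : ℝ}
    (hEY : ∀ z ∈ E, y₀ + ε • (B *ᵥ z) ∈ Y)
    (hK : ∀ z ∈ E, Rs (y₀ + ε • (B *ᵥ z)) / (2 * ε ^ 2) ≤ nsq z / 2 + K) :
    ENNReal.ofReal (|B.det| * Real.exp (-K)) * gs ι E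
      ≤ ∫⁻ y in Y, ENNReal.ofReal (rhoE ε (Fintype.card ι) (Rs y)) := by
  set T : (ι → ℝ) → (ι → ℝ) := fun z => y₀ + ε • (B *ᵥ z) with hT
  set L : (ι → ℝ) →L[ℝ] (ι → ℝ) := LinearMap.toContinuousLinearMap (ε • Matrix.toLin' B) with hL
  have hTL : ∀ z, T z = y₀ + L z := by
    intro z
    simp [hT, hL]
  have hder : ∀ z ∈ E, HasFDerivWithinAt T L E z := by
    intro z _
    have h : HasFDerivAt (fun z => y₀ + L z) L z := L.hasFDerivAt.const_add y₀
    have h' : T = fun z => y₀ + L z := funext hTL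
    rw [h']
    exact h.hasFDerivWithinAt
  have hinj : Set.InjOn T E := by
    intro z _ w _ h
    have h1 : ε • (B *ᵥ z) = ε • (B *ᵥ w) := add_left_cancel h
    have h2 : B *ᵥ z = B *ᵥ w := smul_right_injective _ hε.ne' h1
    have hu : IsUnit B := (Matrix.isUnit_iff_isUnit_det B).2 (isUnit_iff_ne_zero.2 hB)
    exact (Matrix.mulVec_injective_iff_isUnit.2 hu) h2
  have hdet : L.det = ε ^ Fintype.card ι * B.det := by
    have h : L.det = LinearMap.det (ε • Matrix.toLin' B) := by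
      simp [hL, ContinuousLinearMap.det]
    rw [h, LinearMap.det_smul, LinearMap.det_toLin', Module.finrank_fintype_fun_eq_card]
  have hsub : T '' E ⊆ Y := by
    rintro _ ⟨z, hz, rfl⟩
    exact hEY z hz
  refine le_trans ?_ (lintegral_mono_set hsub)
  rw [lintegral_image_eq_lintegral_abs_det_fderiv_mul volume hE hder hinj, gs_eq,
    withDensity_apply _ hE, ← lintegral_const_mul' _ _ ENNReal.ofReal_ne_top]
  refine setLIntegral_mono' hE fun z hz => ?_
  rw [← ENNReal.ofReal_mul (by positivity), ← ENNReal.ofReal_mul (abs_nonneg _)]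
  refine ENNReal.ofReal_le_ofReal ?_
  rw [hdet, abs_mul, abs_of_pos (pow_pos hε _)]
  have hKz := hK z hz
  have h1 : Real.exp (-K) * Real.exp (-nsq z / (2 * 1 ^ 2))
      ≤ Real.exp (-Rs (T z) / (2 * ε ^ 2)) := by
    rw [← Real.exp_add]
    refine Real.exp_le_exp.2 ?_
    have h2 : Rs (T z) / (2 * ε ^ 2) ≤ nsq z / 2 + K := hKz
    have h3 : -Rs (T z) / (2 * ε ^ 2) = -(Rs (T z) / (2 * ε ^ 2)) := neg_div _ _
    have h4 : -nsq z / (2 * 1 ^ 2) = -(nsq z / 2) := by ring
    rw [h3, h4]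
    linarith
  have hs : (0 : ℝ) < Real.sqrt (2 * Real.pi) := Real.sqrt_pos.2 (by positivity)
  have h5 : ε ^ Fintype.card ι * (Real.sqrt (2 * Real.pi) * ε)⁻¹ ^ Fintype.card ι
      = (Real.sqrt (2 * Real.pi) * 1)⁻¹ ^ Fintype.card ι := by
    rw [← mul_pow]
    congr 1
    field_simp
  unfold rhoE
  calc |B.det| * Real.exp (-K) * ((Real.sqrt (2 * Real.pi) * 1)⁻¹ ^ Fintype.card ι *
        Real.exp (-nsq z / (2 * 1 ^ 2)))
      = (|B.det| * (Real.sqrt (2 * Real.pi) * 1)⁻¹ ^ Fintype.card ι) *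
        (Real.exp (-K) * Real.exp (-nsq z / (2 * 1 ^ 2))) := by ring
    _ ≤ (|B.det| * (Real.sqrt (2 * Real.pi) * 1)⁻¹ ^ Fintype.card ι) *
        Real.exp (-Rs (T z) / (2 * ε ^ 2)) := mul_le_mul_of_nonneg_left h1 (by positivity)
    _ = ε ^ Fintype.card ι * |B.det| * ((Real.sqrt (2 * Real.pi) * ε)⁻¹ ^ Fintype.card ι *
        Real.exp (-Rs (T z) / (2 * ε ^ 2))) := by rw [← h5]; ring

end Pool.Agent.IP49
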