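import Pool.Agent.IP49.VDet

/-!
IP49, part U2: replacing the Jacobian `J` by `J'` (fresh matrix) in `det(Jᵀ J + lam)`.

`(J x)² ≤ (1+th)(J' x)² + (1+1/th)(Δ x)²`, `Δ = J - J'`, so
`Jᵀ J + lam ⪯ (1+th) (X + Q)`, `X = J'ᵀ J' + lam`, `Q = th⁻¹ Δᵀ Δ`; `det_mono`,
`det ((1+th) • Z) = (1+th)^n det Z`; `det (X + Q) ≤ det X exp(tr (X⁻¹ Q)) ≤ det X exp(tr Q / lam)`
(`det_le_det_mul_exp`, `trace_inv_mul_le`, `X ⪰ lam`, `tr (Δᵀ Δ) = ∑ Δ_ij²`);
`det X ≤ det (J'ᵀ J') exp(lam tr ((J'ᵀ J')⁻¹)) ≤ (det J')² exp(lam L n)`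
(`J'ᵀ J' ⪰ 1/L`, `trace_inv_mul_le` with `Q = 1`).
`exists_chol`: `Jᵀ J + lam = Cᵀ C`, `C` invertible, `B = C⁻¹`.
`|J B z|² + lam |B z|² = |C B z|² = |z|²`. `∑_l B_jl² = |Bᵀ e_j|² ≤ 1/lam`
(`|Bᵀ w|² = ⟨w, B Bᵀ w⟩ ≤ |w| |B Bᵀ w| ≤ |w| lam^{-1/2} |Bᵀ w|`).
-/

set_option autoImplicit false
open Matrix

namespace Pool.Agent.IP49

variable {n : Type*} [Fintype n] [DecidableEq n]

omit [DecidableEq n] in
theorem vdel_nsq_eq (x : n → ℝ) : nsq x = x ⬝ᵥ x := by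
  unfold nsq dotProduct
  exact Finset.sum_congr rfl fun i _ => sq (x i)

omit [DecidableEq n] in
theorem vdel_quad (J : Matrix n n ℝ) (x : n → ℝ) : x ⬝ᵥ (Jᵀ * J) *ᵥ x = nsq (J *ᵥ x) := by
  rw [vdel_nsq_eq, ← mulVec_mulVec, dotProduct_mulVec, vecMul_transpose]

theorem vdel_quad_add (J : Matrix n n ℝ) (lam : ℝ) (x : n → ℝ) :
    x ⬝ᵥ (Jᵀ * J + lam • (1 : Matrix n n ℝ)) *ᵥ x = nsq (J *ᵥ x) + lam * nsq x := by
  rw [add_mulVec, dotProduct_add, vdel_quad, smul_mulVec, one_mulVec, dotProduct_smul,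
    smul_eq_mul, ← vdel_nsq_eq]

omit [DecidableEq n] in
theorem vdel_nsq_nonneg (x : n → ℝ) : 0 ≤ nsq x := Finset.sum_nonneg fun _ _ => sq_nonneg _

omit [DecidableEq n] in
theorem vdel_trace (D : Matrix n n ℝ) : (Dᵀ * D).trace = ∑ i, ∑ j, D i j ^ 2 := by
  unfold trace
  simp only [diag_apply, mul_apply, transpose_apply]
  rw [Finset.sum_comm]
  exact Finset.sum_congr rfl fun i _ => Finset.sum_congr rfl fun j _ => (sq _).symm

open scoped MatrixOrder Matrix.Norms.L2Operator in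
theorem vdel_factor {Y : Matrix n n ℝ} (hY : Y.PosSemidef) : ∃ C : Matrix n n ℝ, Y = Cᵀ * C := by
  obtain ⟨C, hC⟩ := CStarAlgebra.nonneg_iff_eq_star_mul_self.mp hY.nonneg
  refine ⟨C, ?_⟩
  rw [hC, star_eq_conjTranspose, conjTranspose_eq_transpose_of_trivial]

theorem det_perturb {J J' : Matrix n n ℝ} {lam th L K : ℝ} (hlam : 0 < lam) (hth : 0 < th)
    (hL : 0 < L) (hJ' : ∀ x : n → ℝ, nsq x ≤ L * nsq (J' *ᵥ x))
    (hK : ∑ i, ∑ j, (J i j - J' i j) ^ 2 ≤ K) :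
    (Jᵀ * J + lam • (1 : Matrix n n ℝ)).det ≤ (1 + th) ^ Fintype.card n
      * Real.exp (K / (th * lam)) * Real.exp (lam * L * Fintype.card n) * J'.det ^ 2 := by
  set X : Matrix n n ℝ := J'ᵀ * J' + lam • (1 : Matrix n n ℝ) with hXdef
  set Q : Matrix n n ℝ := th⁻¹ • ((J - J')ᵀ * (J - J')) with hQdef
  have hQ : Q.PosSemidef := by
    have h := (posSemidef_conjTranspose_mul_self (J - J')).smul (inv_nonneg.2 hth.le)
    rwa [conjTranspose_eq_transpose_of_trivial] at h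
  have hYpd : (Jᵀ * J + lam • (1 : Matrix n n ℝ)).PosDef := by
    apply posDef_of_le (c := lam) _ hlam
    · intro u
      rw [vdel_quad_add]
      have := vdel_nsq_nonneg (J *ᵥ u)
      linarith
    · simp [transpose_add, transpose_mul]
  have hXsym : Xᵀ = X := by
    rw [hXdef]
    simp [transpose_add, transpose_mul]
  have hXle : ∀ u : n → ℝ, lam * nsq u ≤ u ⬝ᵥ X *ᵥ u := by
    intro u
    rw [hXdef, vdel_quad_add]
    have := vdel_nsq_nonneg (J' *ᵥ u)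
    linarith
  have hXpd : X.PosDef := posDef_of_le hXsym hlam hXle
  have hkey : ((1 + th) • (X + Q) - (Jᵀ * J + lam • (1 : Matrix n n ℝ))).PosSemidef := by
    have e : (1 + th) • (X + Q) - (Jᵀ * J + lam • (1 : Matrix n n ℝ)) =
        (Real.sqrt th • J' - (Real.sqrt th)⁻¹ • (J - J'))ᵀ *
          (Real.sqrt th • J' - (Real.sqrt th)⁻¹ • (J - J')) +
          (th * lam) • (1 : Matrix n n ℝ) := by
      have hs : Real.sqrt th * Real.sqrt th = th := Real.mul_self_sqrt hth.le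
      have hs0 : Real.sqrt th ≠ 0 := (Real.sqrt_pos.2 hth).ne'
      have hs2 : Real.sqrt th * (Real.sqrt th)⁻¹ = 1 := mul_inv_cancel₀ hs0
      have hs3 : (Real.sqrt th)⁻¹ * Real.sqrt th = 1 := inv_mul_cancel₀ hs0
      have hs4 : (Real.sqrt th)⁻¹ * (Real.sqrt th)⁻¹ = th⁻¹ := by
        rw [← mul_inv, hs]
      obtain ⟨D, hD⟩ : ∃ D, D = J - J' := ⟨_, rfl⟩
      have hJ : J = J' + D := by rw [hD]; abel
      rw [hXdef, hQdef, ← hD, hJ]
      simp only [transpose_sub, transpose_smul, transpose_add, sub_mul, mul_sub, add_mul,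
        mul_add, smul_mul_smul_comm, hs, hs2, hs3, hs4, smul_add, smul_smul, one_smul]
      have h5 : th * th⁻¹ = 1 := mul_inv_cancel₀ hth.ne'
      rw [h5]
      module
    rw [e]
    refine PosSemidef.add ?_ ?_
    · have h := posSemidef_conjTranspose_mul_self
        (Real.sqrt th • J' - (Real.sqrt th)⁻¹ • (J - J'))
      rwa [conjTranspose_eq_transpose_of_trivial] at h
    · exact PosSemidef.one.smul (by positivity)
  have h1 := det_mono hYpd hkey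
  rw [det_smul] at h1
  have h2 := det_le_det_mul_exp hXpd (hXpd.posSemidef.add hQ)
  have h3 : (X⁻¹ * (X + Q - X)).trace ≤ K / (th * lam) := by
    have e : X + Q - X = Q := by abel
    rw [e]
    refine (trace_inv_mul_le hXsym hlam hXle hQ).trans ?_
    have e2 : Q.trace = th⁻¹ * ∑ i, ∑ j, (J i j - J' i j) ^ 2 := by
      rw [hQdef, trace_smul, vdel_trace, smul_eq_mul]
      rfl
    rw [e2]
    have h4 : th⁻¹ * ∑ i, ∑ j, (J i j - J' i j) ^ 2 ≤ th⁻¹ * K :=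
      mul_le_mul_of_nonneg_left hK (inv_nonneg.2 hth.le)
    have h6 : K / (th * lam) = th⁻¹ * K / lam := by field_simp
    rw [h6]
    exact div_le_div_of_nonneg_right h4 hlam.le
  have hWle : ∀ u : n → ℝ, 1 / L * nsq u ≤ u ⬝ᵥ (J'ᵀ * J') *ᵥ u := by
    intro u
    rw [vdel_quad]
    have h := hJ' u
    rw [one_div, inv_mul_le_iff₀ hL]
    exact h
  have hWsym : (J'ᵀ * J')ᵀ = J'ᵀ * J' := by simp [transpose_mul]
  have hWpd : (J'ᵀ * J').PosDef := posDef_of_le hWsym (by positivity) hWle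
  have h8 := det_le_det_mul_exp hWpd hXpd.posSemidef
  have h9 : ((J'ᵀ * J')⁻¹ * (X - J'ᵀ * J')).trace ≤ lam * L * Fintype.card n := by
    have e : X - J'ᵀ * J' = lam • (1 : Matrix n n ℝ) := by rw [hXdef]; abel
    rw [e]
    refine (trace_inv_mul_le hWsym (c := 1 / L) (by positivity) hWle
      (PosSemidef.one.smul hlam.le)).trans ?_
    rw [trace_smul, trace_one, smul_eq_mul]
    apply le_of_eq
    field_simp
  have h10 : (J'ᵀ * J').det = J'.det ^ 2 := by rw [det_mul, det_transpose, sq]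
  rw [h10] at h8
  have hXdet : 0 < X.det := hXpd.det_pos
  calc (Jᵀ * J + lam • (1 : Matrix n n ℝ)).det
      ≤ (1 + th) ^ Fintype.card n * (X + Q).det := h1
    _ ≤ (1 + th) ^ Fintype.card n * (X.det * Real.exp (K / (th * lam))) := by
        refine mul_le_mul_of_nonneg_left (h2.trans ?_) (by positivity)
        exact mul_le_mul_of_nonneg_left (Real.exp_le_exp.2 h3) hXdet.le
    _ ≤ (1 + th) ^ Fintype.card n * ((J'.det ^ 2 * Real.exp (lam * L * Fintype.card n)) *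
          Real.exp (K / (th * lam))) := by
        refine mul_le_mul_of_nonneg_left ?_ (by positivity)
        refine mul_le_mul_of_nonneg_right (h8.trans ?_) (Real.exp_pos _).le
        exact mul_le_mul_of_nonneg_left (Real.exp_le_exp.2 h9) (sq_nonneg _)
    _ = _ := by ring

/-- the change of variables matrix -/
theorem exists_chol (J : Matrix n n ℝ) {lam : ℝ} (hlam : 0 < lam) :
    ∃ B : Matrix n n ℝ, 0 < |B.det| ∧
      |B.det| ^ 2 * (Jᵀ * J + lam • (1 : Matrix n n ℝ)).det = 1 ∧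
      (∀ z : n → ℝ, nsq (J *ᵥ (B *ᵥ z)) ≤ nsq z) ∧
      (∀ z : n → ℝ, lam * nsq (B *ᵥ z) ≤ nsq z) ∧ ∀ j, lam * ∑ l, B j l ^ 2 ≤ 1 := by
  have hYpd : (Jᵀ * J + lam • (1 : Matrix n n ℝ)).PosDef := by
    apply posDef_of_le (c := lam) _ hlam
    · intro u
      rw [vdel_quad_add]
      have := vdel_nsq_nonneg (J *ᵥ u)
      linarith
    · simp [transpose_add, transpose_mul]
  obtain ⟨C, hC⟩ : ∃ C : Matrix n n ℝ, Jᵀ * J + lam • (1 : Matrix n n ℝ) = Cᵀ * C := by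
    exact vdel_factor hYpd.posSemidef
  have hdet : (Jᵀ * J + lam • (1 : Matrix n n ℝ)).det = C.det ^ 2 := by
    rw [hC, det_mul, det_transpose, sq]
  have hpos := hYpd.det_pos
  rw [hdet] at hpos
  have hC0 : C.det ≠ 0 := by
    intro h
    rw [h] at hpos
    simp at hpos
  have hCu : IsUnit C.det := isUnit_iff_ne_zero.2 hC0
  have hquad : ∀ z : n → ℝ, nsq (J *ᵥ (C⁻¹ *ᵥ z)) + lam * nsq (C⁻¹ *ᵥ z) = nsq z := by
    intro z
    rw [← vdel_quad_add, hC, vdel_quad, mulVec_mulVec, mul_nonsing_inv _ hCu, one_mulVec]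
  have hB : ∀ z : n → ℝ, lam * nsq (C⁻¹ *ᵥ z) ≤ nsq z := by
    intro z
    have h1 := hquad z
    have h2 := vdel_nsq_nonneg (J *ᵥ (C⁻¹ *ᵥ z))
    linarith
  refine ⟨C⁻¹, ?_, ?_, ?_, hB, ?_⟩
  · rw [det_nonsing_inv, Ring.inverse_eq_inv', abs_pos]
    exact inv_ne_zero hC0
  · rw [hdet, det_nonsing_inv, Ring.inverse_eq_inv', sq_abs]
    field_simp
  · intro z
    have h1 := hquad z
    have h2 := mul_nonneg hlam.le (vdel_nsq_nonneg (C⁻¹ *ᵥ z))
    linarith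
  · intro j
    have h1 := hB (fun l => C⁻¹ j l)
    have h2 : (C⁻¹ *ᵥ fun l => C⁻¹ j l) j = ∑ l, C⁻¹ j l ^ 2 := by
      unfold mulVec dotProduct
      exact Finset.sum_congr rfl fun l _ => (sq _).symm
    have h3 : (∑ l, C⁻¹ j l ^ 2) ^ 2 ≤ nsq (C⁻¹ *ᵥ fun l => C⁻¹ j l) := by
      rw [← h2]
      exact Finset.single_le_sum (f := fun i => (C⁻¹ *ᵥ fun l => C⁻¹ j l) i ^ 2)
        (fun i _ => sq_nonneg _) (Finset.mem_univ j)
    have h4 : nsq (fun l => C⁻¹ j l) = ∑ l, C⁻¹ j l ^ 2 := rfl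
    rw [h4] at h1
    set S := ∑ l, C⁻¹ j l ^ 2
    have hS : 0 ≤ S := Finset.sum_nonneg fun l _ => sq_nonneg _
    by_contra hcon
    push Not at hcon
    have hSpos : 0 < S := by
      rcases hS.lt_or_eq with h | h
      · exact h
      · rw [← h] at hcon; norm_num at hcon
    have h5 : lam * S ^ 2 ≤ S := le_trans (mul_le_mul_of_nonneg_left h3 hlam.le) h1
    nlinarith

end Pool.Agent.IP49
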