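import Pool.Agent.IP49.VDefs
import Pool.Agent.IP49.UPL

/-!
IP49, part U2: law of large numbers, stability of typicality.

`lln`: Chebyshev: variance of `(1/N) ∑_{i < M} f(x_i)` is `≤ M ∫ f²/N² → 0`, mean
`(M/N) ∫ f → a ∫ f`.
`pl_stable`: `|∑ f(x+δ) - ∑ f(x)| ≤ C ∑ (1 + |x_i| + |x_i+δ_i|)|δ_i| ≤ C (∑ (1+2|x_i|+|δ_i|)²)^{1/2} (nsq δ)^{1/2}`,
`∑ (1+2|x|+|δ|)² ≤ 3(n + 4 nsq x + nsq δ) ≤ 3(K₀ + 4K₀ + 1) N`.
`pl_memLp`: `|f x| ≤ |f 0| + C(1+|x|)|x|`, Gaussian moments; `f` is continuous.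
-/

set_option autoImplicit false
open MeasureTheory ProbabilityTheory Matrix Filter Topology

namespace Pool.Agent.IP49

private theorem lln_cheb {μ : Measure ℝ} [IsProbabilityMeasure μ] {f : ℝ → ℝ} (hf : MemLp f 2 μ)
    (n : ℕ) {t : ℝ} (ht : 0 < t) :
    (Measure.pi fun _ : Fin n => μ).real {x | t ≤ |(∑ i, f (x i)) - n * ∫ y, f y ∂μ|} ≤
      n * Var[f; μ] / t ^ 2 := by
  set S : (Fin n → ℝ) → ℝ := ∑ i : Fin n, fun x => f (x i) with hS
  have hSx : ∀ x, S x = ∑ i, f (x i) := fun x => by rw [hS, Finset.sum_apply]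
  have hmem : ∀ i : Fin n, MemLp (fun x : Fin n → ℝ => f (x i)) 2
      (Measure.pi fun _ : Fin n => μ) := fun i =>
    hf.comp_measurePreserving (measurePreserving_eval (fun _ : Fin n => μ) i)
  have hSL : MemLp S 2 (Measure.pi fun _ : Fin n => μ) := by
    rw [hS]
    exact memLp_finsetSum' _ fun i _ => hmem i
  have hvar : Var[S; Measure.pi fun _ : Fin n => μ] = n * Var[f; μ] := by
    rw [hS, variance_sum_pi (μ := fun _ : Fin n => μ) (X := fun _ => f) (fun _ => hf)]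
    simp
  have hmean : ∫ x, S x ∂(Measure.pi fun _ : Fin n => μ) = n * ∫ y, f y ∂μ := by
    simp only [hSx]
    rw [integral_finsetSum _ fun i _ => (hmem i).integrable (by norm_num)]
    have h3 : ∀ i : Fin n, ∫ x : Fin n → ℝ, f (x i) ∂(Measure.pi fun _ : Fin n => μ) =
        ∫ y, f y ∂μ := fun i =>
      integral_comp_eval (μ := fun _ : Fin n => μ) (i := i) hf.aestronglyMeasurable
    simp [h3]
  have hcheb := meas_ge_le_variance_div_sq hSL (c := t) ht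
  rw [hmean, hvar] at hcheb
  simp only [hSx] at hcheb
  rw [measureReal_def]
  refine ENNReal.toReal_le_of_le_ofReal ?_ hcheb
  have := variance_nonneg f μ
  positivity

theorem lln {μ : Measure ℝ} [IsProbabilityMeasure μ] {f : ℝ → ℝ} (hf : MemLp f 2 μ)
    {M : ℕ → ℕ} {a : ℝ} (hM : Tendsto (fun N : ℕ => (M N : ℝ) / N) atTop (𝓝 a))
    {δ : ℝ} (hδ : 0 < δ) :
    Tendsto (fun N : ℕ => (Measure.pi fun _ : Fin (M N) => μ).real
      {x | δ < |(∑ i, f (x i)) / N - a * ∫ x, f x ∂μ|}) atTop (𝓝 0) := by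
  set I : ℝ := ∫ x, f x ∂μ with hI
  have h1 : Tendsto (fun N : ℕ => |((M N : ℝ) / N - a) * I|) atTop (𝓝 0) := by
    have h2 := ((hM.sub_const a).mul_const I).abs
    simpa using h2
  have h3 : ∀ᶠ N : ℕ in atTop, |((M N : ℝ) / N - a) * I| ≤ δ / 2 :=
    h1.eventually_le_const (by positivity)
  have h4 : Tendsto (fun N : ℕ => (M N : ℝ) / N * (4 * Var[f; μ] / δ ^ 2) / N) atTop (𝓝 0) := by
    have h5 := hM.mul_const (4 * Var[f; μ] / δ ^ 2)
    exact h5.div_atTop tendsto_natCast_atTop_atTop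
  refine tendsto_of_tendsto_of_tendsto_of_le_of_le' tendsto_const_nhds h4
    (Eventually.of_forall fun N => measureReal_nonneg) ?_
  filter_upwards [h3, eventually_gt_atTop 0] with N hN hN0
  have hN' : (0 : ℝ) < N := Nat.cast_pos.2 hN0
  have hch := lln_cheb hf (M N) (t := N * (δ / 2)) (by positivity)
  have hsub : {x : Fin (M N) → ℝ | δ < |(∑ i, f (x i)) / N - a * I|} ⊆
      {x | N * (δ / 2) ≤ |(∑ i, f (x i)) - (M N : ℝ) * I|} := by
    intro x hx
    have hx' : δ < |(∑ i, f (x i)) / N - a * I| := hx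
    have e1 : (∑ i, f (x i)) / (N : ℝ) - a * I =
        ((∑ i, f (x i)) - (M N : ℝ) * I) / N + ((M N : ℝ) / N - a) * I := by
      field_simp
      ring
    rw [e1] at hx'
    have h6 := abs_add_le (((∑ i, f (x i)) - (M N : ℝ) * I) / (N : ℝ)) (((M N : ℝ) / N - a) * I)
    have h7 : δ / 2 ≤ |((∑ i, f (x i)) - (M N : ℝ) * I) / (N : ℝ)| := by linarith
    rw [abs_div, abs_of_pos hN', le_div_iff₀ hN'] at h7
    show N * (δ / 2) ≤ |(∑ i, f (x i)) - (M N : ℝ) * I|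
    linarith
  refine (measureReal_mono hsub (measure_ne_top _ _)).trans (hch.trans (le_of_eq ?_))
  field_simp
  ring

theorem pl_stable {f : ℝ → ℝ} (hf : PL f) (K₀ : ℝ) :
    ∃ K : ℝ, 0 < K ∧ ∀ (n N : ℕ), 0 < N → (n : ℝ) ≤ K₀ * N → ∀ (x δ : Fin n → ℝ) (s : ℝ),
      0 ≤ s → s ≤ 1 → nsq x ≤ K₀ * N → nsq δ ≤ s ^ 2 * N →
        |(∑ i, f (x i + δ i)) / N - (∑ i, f (x i)) / N| ≤ K * s := by
  obtain ⟨C, hC⟩ := hf
  set K1 : ℝ := Real.sqrt (3 * (5 * |K₀| + 1)) with hK1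
  have hK1s : K1 ^ 2 = 3 * (5 * |K₀| + 1) := Real.sq_sqrt (by positivity)
  have hK10 : 0 ≤ K1 := Real.sqrt_nonneg _
  refine ⟨|C| * K1 + 1, by positivity, ?_⟩
  intro n N hN hn x δ s hs hs1 hx hδ
  have hN' : (0 : ℝ) < N := Nat.cast_pos.2 hN
  have h1 : |(∑ i, f (x i + δ i)) - ∑ i, f (x i)| ≤
      |C| * ∑ i, (1 + 2 * |x i| + |δ i|) * |δ i| := by
    rw [← Finset.sum_sub_distrib, Finset.mul_sum]
    refine (Finset.abs_sum_le_sum_abs _ _).trans (Finset.sum_le_sum fun i _ => ?_)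
    have h2 := hC (x i + δ i) (x i)
    have h3 : x i + δ i - x i = δ i := by ring
    rw [h3] at h2
    refine h2.trans ?_
    have h4 : 0 ≤ (1 + |x i + δ i| + |x i|) * |δ i| := by positivity
    have h5 : (1 + |x i + δ i| + |x i|) * |δ i| ≤ (1 + 2 * |x i| + |δ i|) * |δ i| := by
      apply mul_le_mul_of_nonneg_right _ (abs_nonneg _)
      linarith [abs_add_le (x i) (δ i)]
    calc C * (1 + |x i + δ i| + |x i|) * |δ i| = C * ((1 + |x i + δ i| + |x i|) * |δ i|) := by ring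
      _ ≤ |C| * ((1 + |x i + δ i| + |x i|) * |δ i|) :=
          mul_le_mul_of_nonneg_right (le_abs_self C) h4
      _ ≤ _ := mul_le_mul_of_nonneg_left h5 (abs_nonneg C)
  have h2 : (∑ i, (1 + 2 * |x i| + |δ i|) * |δ i|) ≤ K1 * s * N := by
    refine le_of_abs_le (abs_le_of_sq_le_sq ?_ (by positivity))
    refine (Finset.sum_mul_sq_le_sq_mul_sq _ _ _).trans ?_
    have h3 : ∑ i, (1 + 2 * |x i| + |δ i|) ^ 2 ≤ 3 * (5 * |K₀| + 1) * N := by
      have h4 : ∀ i, (1 + 2 * |x i| + |δ i|) ^ 2 ≤ 3 * (1 + 4 * x i ^ 2 + δ i ^ 2) := by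
        intro i
        rw [← sq_abs (x i), ← sq_abs (δ i)]
        nlinarith [sq_nonneg (1 - 2 * |x i|), sq_nonneg (1 - |δ i|), sq_nonneg (2 * |x i| - |δ i|)]
      refine (Finset.sum_le_sum fun i _ => h4 i).trans ?_
      rw [← Finset.mul_sum, Finset.sum_add_distrib, Finset.sum_add_distrib, ← Finset.mul_sum]
      simp only [Finset.sum_const, Finset.card_univ, Fintype.card_fin, nsmul_eq_mul, mul_one]
      unfold nsq at hx hδ
      have h5 : K₀ * N ≤ |K₀| * N := mul_le_mul_of_nonneg_right (le_abs_self _) hN'.le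
      have h6 : s ^ 2 * N ≤ 1 * N := mul_le_mul_of_nonneg_right (by nlinarith) hN'.le
      linarith
    have h4 : ∑ i, |δ i| ^ 2 ≤ s ^ 2 * N := by
      simp only [sq_abs]
      exact hδ
    have h5 : 0 ≤ ∑ i, |δ i| ^ 2 := Finset.sum_nonneg fun i _ => sq_nonneg _
    calc (∑ i, (1 + 2 * |x i| + |δ i|) ^ 2) * ∑ i, |δ i| ^ 2
        ≤ 3 * (5 * |K₀| + 1) * N * (s ^ 2 * N) := mul_le_mul h3 h4 h5 (by positivity)
      _ = (K1 * s * N) ^ 2 := by
        rw [mul_pow, mul_pow, hK1s]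
        ring
  rw [← sub_div, abs_div, abs_of_pos hN', div_le_iff₀ hN']
  calc |(∑ i, f (x i + δ i)) - ∑ i, f (x i)| ≤ |C| * (K1 * s * N) :=
        h1.trans (mul_le_mul_of_nonneg_left h2 (abs_nonneg C))
    _ ≤ (|C| * K1 + 1) * s * N := by
        have : 0 ≤ s * N := by positivity
        linarith

/-- a pseudo-Lipschitz function is square integrable for a Gaussian law -/
theorem pl_memLp {f : ℝ → ℝ} (hf : PL f) (s : ℝ) :
    MemLp f 2 ((gaussianReal 0 1).map fun x => s * x) := by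
  have hfc := hf.continuous
  obtain ⟨C, hC, h⟩ := hf.growth
  rw [memLp_map_measure_iff hfc.aestronglyMeasurable (by fun_prop)]
  have hc : Continuous (f ∘ fun x => s * x) := by fun_prop
  rw [memLp_two_iff_integrable_sq hc.aestronglyMeasurable]
  refine integrable_of_growth (hc.pow 2).measurable (C := (C * (1 + s ^ 2)) ^ 2) (k := 2)
    fun x => ?_
  have h1 := h (s * x)
  rw [abs_of_nonneg (sq_nonneg _)]
  have h2 : |f (s * x)| ≤ C * (1 + s ^ 2) * (1 + x ^ 2) := by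
    refine h1.trans ?_
    rw [mul_assoc]
    refine mul_le_mul_of_nonneg_left ?_ hC
    nlinarith [sq_nonneg s, sq_nonneg x]
  have h3 := pow_le_pow_left₀ (abs_nonneg _) h2 2
  rw [sq_abs] at h3
  calc (f ∘ fun x => s * x) x ^ 2 = f (s * x) ^ 2 := rfl
    _ ≤ _ := h3
    _ = _ := by ring

end Pool.Agent.IP49
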