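import Pool.Agent.IP49.VDefs
import Pool.Agent.IP49.GaussA
import Pool.Agent.IP49.SGau

/-!
IP49, part U2: Gaussian moments, the good set of `z`.

`good_z`: `E nsq z = n`, so `P(nsq z > 8n) ≤ 1/8` (Markov, `mul_meas_ge_le_lintegral`);
`(B z)_j` is centred Gaussian with variance `s_j = ∑_l B_jl² ≤ 1/lam`, `E (B z)_j⁴ = 3 s_j²`
(expand `E (∑ c_l z_l)⁴ = 3 (∑ c_l²)²` with independent coordinates, or the law of a linear form:
mgf `exp(t² s/2)` and uniqueness, or induction over the coordinates). So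
`P(∑_j (B z)_j⁴ > 24 n/lam²) ≤ 1/8`.
-/

set_option autoImplicit false
open MeasureTheory ProbabilityTheory Matrix Filter Topology

namespace Pool.Agent.IP49

namespace VMomAux

open SR

variable {ι : Type*} [Fintype ι]

theorem int_pow (k : ℕ) : Integrable (fun x : ℝ => x ^ (2 * k)) (gaussianReal 0 1) := by
  refine integrable_of_growth (by fun_prop) (C := 1) (k := k) fun x => ?_
  rw [pow_mul, abs_of_nonneg (by positivity), one_mul]
  exact pow_le_pow_left₀ (sq_nonneg x) (by linarith) k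

theorem int_sq (i : ι) : Integrable (fun x : ι → ℝ => x i ^ 2) (gv ι) := by
  have h := int_pow 1
  exact (measurePreserving_eval_gv i).integrable_comp_of_integrable h

theorem e_sq (i : ι) : ∫ x : ι → ℝ, x i ^ 2 ∂(gv ι) = 1 := by
  have h : ∫ x : ι → ℝ, x i ^ 2 ∂(gv ι) = ∫ y, y ^ 2 ∂(gaussianReal 0 1) := by
    rw [← law_eval i, integral_map (measurable_pi_apply i).aemeasurable (by fun_prop)]
  rw [h]
  exact GE_sq

theorem int_dot4 (a : ι → ℝ) : Integrable (fun x : ι → ℝ => dot a x ^ 4) (gv ι) := by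
  have h1 : Integrable (fun y : ℝ => y ^ 4) ((gv ι).map (fun x : ι → ℝ => dot a x)) := by
    rw [map_dot, integrable_map_measure (by fun_prop) (by fun_prop)]
    have h := (int_pow 2).const_mul (nrm a ^ 4)
    refine h.congr (Eventually.of_forall fun x => ?_)
    simp only [Function.comp_apply]
    ring
  exact (integrable_map_measure (by fun_prop) (meas_dot a).aemeasurable).1 h1

theorem e_dot4 (a : ι → ℝ) : ∫ x : ι → ℝ, dot a x ^ 4 ∂(gv ι) = 3 * (∑ i, a i ^ 2) ^ 2 := by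
  rw [integral_dot (φ := fun y => y ^ 4) (by fun_prop) a]
  simp only [mul_pow]
  rw [integral_const_mul]
  have h : ∫ z : ℝ, z ^ 4 ∂(gaussianReal 0 1) = 3 := GE_four
  have h2 : nrm a ^ 4 = (∑ i, a i ^ 2) ^ 2 := by
    have h3 : nrm a ^ 2 = ∑ i, a i ^ 2 := by
      rw [nrm_sq]
      unfold dot
      exact Finset.sum_congr rfl fun i _ => by ring
    rw [← h3]; ring
  rw [h, h2]; ring

end VMomAux

open VMomAux SR in
theorem good_z {ι : Type*} [Fintype ι] [DecidableEq ι] (hn : 0 < Fintype.card ι)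
    {B : Matrix ι ι ℝ} {lam : ℝ} (hlam : 0 < lam) (hB : ∀ j, lam * ∑ l, B j l ^ 2 ≤ 1) :
    (3 / 4 : ENNReal) ≤ gs ι {z | nsq z ≤ 8 * Fintype.card ι ∧
      ∑ j, (B *ᵥ z) j ^ 4 ≤ 24 / lam ^ 2 * Fintype.card ι} := by
  have hn' : (0 : ℝ) < Fintype.card ι := by exact_mod_cast hn
  set n : ℝ := (Fintype.card ι : ℝ) with hnd
  have hprob : IsProbabilityMeasure (gs ι) := gv_prob ι
  have hBj : ∀ (z : ι → ℝ) j, (B *ᵥ z) j = dot (B j) z := fun z j => rfl
  -- first moment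
  have i1 : Integrable (fun z : ι → ℝ => nsq z) (gs ι) :=
    integrable_finsetSum _ fun i _ => int_sq i
  have e1 : ∫ z : ι → ℝ, nsq z ∂(gs ι) = n := by
    have : ∫ z : ι → ℝ, nsq z ∂(gs ι) = ∑ i : ι, ∫ z : ι → ℝ, z i ^ 2 ∂(gs ι) :=
      integral_finsetSum _ fun i _ => int_sq i
    rw [this]
    have h : ∀ i : ι, ∫ z : ι → ℝ, z i ^ 2 ∂(gs ι) = 1 := fun i => e_sq i
    simp only [h]
    simp [hnd]
  have i2 : Integrable (fun z : ι → ℝ => ∑ j, (B *ᵥ z) j ^ 4) (gs ι) :=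
    integrable_finsetSum _ fun j _ => int_dot4 (B j)
  have e2 : ∫ z : ι → ℝ, ∑ j, (B *ᵥ z) j ^ 4 ∂(gs ι) ≤ 3 / lam ^ 2 * n := by
    have : ∫ z : ι → ℝ, ∑ j, (B *ᵥ z) j ^ 4 ∂(gs ι)
        = ∑ j : ι, ∫ z : ι → ℝ, (B *ᵥ z) j ^ 4 ∂(gs ι) :=
      integral_finsetSum _ fun j _ => int_dot4 (B j)
    rw [this]
    have h : ∀ j : ι, ∫ z : ι → ℝ, (B *ᵥ z) j ^ 4 ∂(gs ι) ≤ 3 / lam ^ 2 := by
      intro j
      have h1 : ∫ z : ι → ℝ, (B *ᵥ z) j ^ 4 ∂(gs ι) = 3 * (∑ l, B j l ^ 2) ^ 2 := e_dot4 (B j)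
      rw [h1, le_div_iff₀ (by positivity)]
      have h2 := hB j
      have h3 : 0 ≤ lam * ∑ l, B j l ^ 2 :=
        mul_nonneg hlam.le (Finset.sum_nonneg fun l _ => sq_nonneg _)
      have h4 : (lam * ∑ l, B j l ^ 2) ^ 2 ≤ 1 := by nlinarith
      nlinarith
    calc ∑ j : ι, ∫ z : ι → ℝ, (B *ᵥ z) j ^ 4 ∂(gs ι) ≤ ∑ _j : ι, 3 / lam ^ 2 :=
          Finset.sum_le_sum fun j _ => h j
      _ = 3 / lam ^ 2 * n := by simp [hnd, mul_comm]
  -- Markov
  have m1 := mul_meas_ge_le_integral_of_nonneg (μ := gs ι)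
    (Eventually.of_forall fun z : ι → ℝ => Finset.sum_nonneg fun i _ => sq_nonneg (z i)) i1 (8 * n)
  have m2 := mul_meas_ge_le_integral_of_nonneg (μ := gs ι)
    (Eventually.of_forall fun z : ι → ℝ => Finset.sum_nonneg fun j _ =>
      (by positivity : 0 ≤ (B *ᵥ z) j ^ 4)) i2 (24 / lam ^ 2 * n)
  have m1 : 8 * n * (gs ι).real {z | 8 * n ≤ nsq z} ≤ n := m1.trans e1.le
  have m1' : (gs ι).real {z | 8 * n ≤ nsq z} ≤ 1 / 8 := by
    by_contra hc
    push Not at hc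
    have := mul_lt_mul_of_pos_left hc (by positivity : (0 : ℝ) < 8 * n)
    have := lt_of_lt_of_le this m1
    linarith
  have hl2 : (0 : ℝ) < 3 / lam ^ 2 * n := by positivity
  have m2' : (gs ι).real {z | 24 / lam ^ 2 * n ≤ ∑ j, (B *ᵥ z) j ^ 4} ≤ 1 / 8 := by
    by_contra hc
    push Not at hc
    have h1 := mul_lt_mul_of_pos_left hc (by positivity : (0 : ℝ) < 24 / lam ^ 2 * n)
    have h2 := lt_of_lt_of_le h1 (m2.trans e2)
    have h3 : 24 / lam ^ 2 * n * (1 / 8) = 3 / lam ^ 2 * n := by ring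
    linarith
  set S : Set (ι → ℝ) := {z | nsq z ≤ 8 * n ∧ ∑ j, (B *ᵥ z) j ^ 4 ≤ 24 / lam ^ 2 * n} with hS
  have hSm : MeasurableSet S := by
    have a1 : Measurable fun z : ι → ℝ => nsq z := by unfold nsq; fun_prop
    have a2 : Measurable fun z : ι → ℝ => ∑ j, (B *ᵥ z) j ^ 4 := by
      simp only [hBj]
      exact Finset.measurable_fun_sum _ fun j _ => (meas_dot (B j)).pow_const 4
    exact (measurableSet_le a1 measurable_const).inter (measurableSet_le a2 measurable_const)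
  have hc : Sᶜ ⊆ {z | 8 * n ≤ nsq z} ∪ {z | 24 / lam ^ 2 * n ≤ ∑ j, (B *ᵥ z) j ^ 4} := by
    intro z hz
    by_contra h
    simp only [Set.mem_union, Set.mem_setOf_eq, not_or, not_le] at h
    exact hz ⟨h.1.le, h.2.le⟩
  have h1 : (gs ι).real Sᶜ ≤ 1 / 4 := by
    refine (measureReal_mono hc).trans ((measureReal_union_le _ _).trans ?_)
    linarith
  rw [probReal_compl_eq_one_sub hSm] at h1
  have h2 : (3 / 4 : ℝ) ≤ (gs ι).real S := by linarith
  have h3 : ((3 / 4 : ENNReal)) = ENNReal.ofReal (3 / 4) := by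
    rw [ENNReal.ofReal_div_of_pos (by norm_num)]
    norm_num
  rw [h3, ← ofReal_measureReal (measure_ne_top _ _)]
  exact ENNReal.ofReal_le_ofReal h2

end Pool.Agent.IP49
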