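import Pool.Agent.IP49.VRem
import Pool.Agent.IP49.VDel
import Pool.Agent.IP49.VCov
import Pool.Agent.IP49.VMom
import Pool.Agent.IP49.VLln
import Pool.Agent.IP49.RSA

/-!
IP49, part U2: deterministic part of the assembly (helper85). Notes 1605, 1615.
-/

set_option autoImplicit false
open MeasureTheory ProbabilityTheory Matrix Filter Topology

namespace Pool.Agent.IP49

/-- Frobenius norm of the difference of two Jacobians -/
theorem Jm_sub {N M : ℕ} (hN : 0 < N) {b D G0 CK : ℝ} {S : Fin N → ℝ} {g : Fin M → ℝ}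
    (hS : ∀ i, 0 < S i ∧ S i ≤ 1) (hg : ∀ a, 0 < g a ∧ g a ≤ G0)
    {G G' : Fin M → Fin N → ℝ} (hGG : ∑ a, ∑ i, (G a i - G' a i) ^ 2 ≤ CK * N) :
    ∑ j, ∑ l, (Jm b D S g G j l - Jm b D S g G' j l) ^ 2 ≤ (G0 ^ 2 + 1) * CK := by
  have hN' : (0 : ℝ) < N := Nat.cast_pos.2 hN
  have hsq : Real.sqrt N ^ 2 = N := Real.sq_sqrt hN'.le
  have hsq0 : Real.sqrt N ≠ 0 := (Real.sqrt_pos.2 hN').ne'
  have h1 : ∀ a i, (-(G a i * g a) / Real.sqrt N - -(G' a i * g a) / Real.sqrt N) ^ 2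
      = (G a i - G' a i) ^ 2 * g a ^ 2 / N := by
    intro a i
    rw [div_sub_div_same, div_pow, hsq]
    ring
  have h2 : ∀ a i, (G a i * S i / Real.sqrt N - G' a i * S i / Real.sqrt N) ^ 2
      = (G a i - G' a i) ^ 2 * S i ^ 2 / N := by
    intro a i
    rw [div_sub_div_same, div_pow, hsq]
    ring
  have h3 : ∑ j, ∑ l, (Jm b D S g G j l - Jm b D S g G' j l) ^ 2 =
      (∑ i, ∑ a, (G a i - G' a i) ^ 2 * g a ^ 2 / N)
        + ∑ a, ∑ i, (G a i - G' a i) ^ 2 * S i ^ 2 / N := by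
    rw [Fintype.sum_sum_type]
    congr 1
    · refine Finset.sum_congr rfl fun i _ => ?_
      rw [Fintype.sum_sum_type]
      simp only [Jm, fromBlocks_apply₁₁, fromBlocks_apply₁₂, of_apply, sub_self, ne_eq,
        OfNat.ofNat_ne_zero, not_false_eq_true, zero_pow, Finset.sum_const_zero, zero_add, h1]
    · refine Finset.sum_congr rfl fun a _ => ?_
      rw [Fintype.sum_sum_type]
      simp only [Jm, fromBlocks_apply₂₁, fromBlocks_apply₂₂, of_apply, sub_self, ne_eq,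
        OfNat.ofNat_ne_zero, not_false_eq_true, zero_pow, Finset.sum_const_zero, add_zero, h2]
  rw [h3, Finset.sum_comm, ← Finset.sum_add_distrib]
  have h4 : ∀ a : Fin M, (∑ i, (G a i - G' a i) ^ 2 * g a ^ 2 / N)
      + ∑ i, (G a i - G' a i) ^ 2 * S i ^ 2 / N ≤
      (G0 ^ 2 + 1) / N * ∑ i, (G a i - G' a i) ^ 2 := by
    intro a
    rw [← Finset.sum_add_distrib, Finset.mul_sum]
    refine Finset.sum_le_sum fun i _ => ?_
    have h5 : g a ^ 2 ≤ G0 ^ 2 := pow_le_pow_left₀ (hg a).1.le (hg a).2 2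
    have h6 : S i ^ 2 ≤ 1 := pow_le_one₀ (hS i).1.le (hS i).2
    have h7 := sq_nonneg (G a i - G' a i)
    rw [← add_div, div_mul_eq_mul_div]
    apply div_le_div_of_nonneg_right _ hN'.le
    nlinarith
  refine (Finset.sum_le_sum fun a _ => h4 a).trans ?_
  rw [← Finset.mul_sum]
  have h8 : 0 ≤ (G0 ^ 2 + 1) / N := by positivity
  refine (mul_le_mul_of_nonneg_left hGG h8).trans (le_of_eq ?_)
  field_simp

/-- upper bound for `det J'` -/
theorem detJ_upper {N M : ℕ} (hN : 0 < N) {c b D s₀ η₁ G0 A : ℝ} (hc : 0 < c) (hb : 0 < b)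
    (hs₀ : 0 ≤ s₀) (hs₁ : s₀ ≤ 1) {S : Fin N → ℝ} {g : Fin M → ℝ}
    (hS : ∀ i, 0 < S i ∧ S i ≤ 1) (hg : ∀ a, 0 < g a ∧ g a ≤ G0) (hbg : ∀ a, b * g a < 1)
    (hM : (M : ℝ) ≤ A * N) {G' : Fin M → Fin N → ℝ} (hpos : PathPos c b D S g G')
    (hy : |(∑ a, g a) / N - D| ≤ s₀)
    (hdet : (Xk b D S g G' M).det ≤ Real.exp (η₁ * N) *
      ((∏ i, (1 + (yk N g 0 - D) * S i)) *
          ∏ a, (Real.exp (2 * g a ^ 2 / (c ^ 2 * N)) * (1 - b * g a)⁻¹
            * Real.exp (-(b * g a))))) :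
    |(Jm b D S g G').det| ≤ Real.exp ((η₁ + s₀ + b * s₀ - b * D) * N + 2 * G0 ^ 2 * A / c ^ 2) := by
  have hN' : (0 : ℝ) < N := Nat.cast_pos.2 hN
  have hX0 : 0 ≤ (Xk b D S g G' M).det :=
    (posDef_of_le (Xk_symm b D S g G' M) hc fun u => by
      rw [← qk_eq]; exact hpos M le_rfl u).det_pos.le
  rw [det_Jm hN (fun i => (hS i).1) hbg, abs_of_nonneg hX0]
  have h1 : ∀ a, 0 < 1 - b * g a := fun a => by linarith [hbg a]
  have hyk : yk N g 0 = (∑ a, g a) / N := by simp [yk]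
  have h2 : ∏ i, (1 + (yk N g 0 - D) * S i) ≤ Real.exp (s₀ * N) := by
    have h3 : ∀ i : Fin N, 0 ≤ 1 + (yk N g 0 - D) * S i ∧
        1 + (yk N g 0 - D) * S i ≤ Real.exp s₀ := by
      intro i
      rw [hyk]
      have h4 := abs_le.1 hy
      have h5 := hS i
      have h6 : |((∑ a, g a) / N - D) * S i| ≤ s₀ := by
        rw [abs_mul, abs_of_pos h5.1]
        calc |(∑ a, g a) / N - D| * S i ≤ s₀ * 1 := by
              exact mul_le_mul hy h5.2 h5.1.le hs₀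
          _ = s₀ := mul_one _
      have h7 := abs_le.1 h6
      constructor
      · linarith
      · linarith [Real.add_one_le_exp s₀]
    calc ∏ i, (1 + (yk N g 0 - D) * S i) ≤ ∏ _i : Fin N, Real.exp s₀ :=
          Finset.prod_le_prod (fun i _ => (h3 i).1) fun i _ => (h3 i).2
      _ = Real.exp (s₀ * N) := by
          rw [Finset.prod_const, Finset.card_univ, Fintype.card_fin, ← Real.exp_nat_mul, mul_comm]
  have h3 : (∏ a, (1 - b * g a)) * ∏ a, (Real.exp (2 * g a ^ 2 / (c ^ 2 * N)) *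
      (1 - b * g a)⁻¹ * Real.exp (-(b * g a))) =
      Real.exp (∑ a, 2 * g a ^ 2 / (c ^ 2 * N) - b * ∑ a, g a) := by
    rw [← Finset.prod_mul_distrib, Finset.mul_sum, ← Finset.sum_sub_distrib, Real.exp_sum]
    refine Finset.prod_congr rfl fun a _ => ?_
    have h4 := (h1 a).ne'
    rw [sub_eq_add_neg (2 * g a ^ 2 / (c ^ 2 * (N : ℝ))) (b * g a), Real.exp_add]
    field_simp
  have h4 : ∑ a, 2 * g a ^ 2 / (c ^ 2 * N) ≤ 2 * G0 ^ 2 * A / c ^ 2 := by
    calc ∑ a, 2 * g a ^ 2 / (c ^ 2 * N) ≤ ∑ _a : Fin M, 2 * G0 ^ 2 / (c ^ 2 * N) := by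
          refine Finset.sum_le_sum fun a _ => ?_
          have h5 : g a ^ 2 ≤ G0 ^ 2 := pow_le_pow_left₀ (hg a).1.le (hg a).2 2
          gcongr
      _ = 2 * G0 ^ 2 * (M : ℝ) / (c ^ 2 * N) := by
          rw [Finset.sum_const, Finset.card_univ, Fintype.card_fin, nsmul_eq_mul]
          ring
      _ ≤ 2 * G0 ^ 2 * (A * N) / (c ^ 2 * N) := by gcongr
      _ = 2 * G0 ^ 2 * A / c ^ 2 := by
          field_simp
  have h5 : b * ((D - s₀) * N) ≤ b * ∑ a, g a := by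
    have h6 := (abs_le.1 hy).1
    have h7 : (D - s₀) * N ≤ ∑ a, g a := by
      have h8 : D - s₀ ≤ (∑ a, g a) / N := by linarith
      rwa [le_div_iff₀ hN'] at h8
    exact mul_le_mul_of_nonneg_left h7 hb.le
  have hP0 : 0 ≤ ∏ a, (1 - b * g a) := Finset.prod_nonneg fun a _ => (h1 a).le
  calc (∏ a, (1 - b * g a)) * (Xk b D S g G' M).det
      ≤ (∏ a, (1 - b * g a)) * (Real.exp (η₁ * N) *
      ((∏ i, (1 + (yk N g 0 - D) * S i)) *
          ∏ a, (Real.exp (2 * g a ^ 2 / (c ^ 2 * N)) * (1 - b * g a)⁻¹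
            * Real.exp (-(b * g a))))) := mul_le_mul_of_nonneg_left hdet hP0
    _ = Real.exp (η₁ * N) * (∏ i, (1 + (yk N g 0 - D) * S i)) *
        ((∏ a, (1 - b * g a)) * ∏ a, (Real.exp (2 * g a ^ 2 / (c ^ 2 * N)) *
      (1 - b * g a)⁻¹ * Real.exp (-(b * g a)))) := by ring
    _ ≤ Real.exp (η₁ * N) * Real.exp (s₀ * N) *
        Real.exp (2 * G0 ^ 2 * A / c ^ 2 - b * ((D - s₀) * N)) := by
        rw [h3]
        refine mul_le_mul (mul_le_mul_of_nonneg_left h2 (Real.exp_pos _).le) ?_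
          (Real.exp_pos _).le (by positivity)
        exact Real.exp_le_exp.2 (by linarith)
    _ = Real.exp ((η₁ + s₀ + b * s₀ - b * D) * N + 2 * G0 ^ 2 * A / c ^ 2) := by
        rw [← Real.exp_add, ← Real.exp_add]
        congr 1
        ring

end Pool.Agent.IP49
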