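import Pool.Agent.IP49.VAsm1

/-!
IP49, part U2: lower bound of `V` from a Cholesky change of variables (helper85). Note 1615.
-/

set_option autoImplicit false
open MeasureTheory ProbabilityTheory Matrix Filter Topology

namespace Pool.Agent.IP49

/-- typical points of `ℝ^{N+M}` -/
def Ysum (κ ν ψ : ℝ) (T1 T2 : List (ℝ → ℝ)) (dl : ℝ) (M N : ℕ) : Set (Fin N ⊕ Fin M → ℝ) :=
  {y | ((fun i => y (Sum.inl i), fun a => y (Sum.inr a)) : (Fin N → ℝ) × (Fin M → ℝ)) ∈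
    Yset κ ν ψ T1 T2 dl M N}

theorem VV_eq {κ ν ψ ε : ℝ} {T1 T2 : List (ℝ → ℝ)} {dl : ℝ} {M N : ℕ}
    (G : Fin M → Fin N → ℝ) :
    VV κ ν ψ ε T1 T2 dl G = ∫⁻ y in Ysum κ ν ψ T1 T2 dl M N,
      ENNReal.ofReal (rhoE ε (Fintype.card (Fin N ⊕ Fin M)) (nsq (Rv κ ν ψ G y))) := by
  have hmp := volume_measurePreserving_sumPiEquivProdPi (fun _ : Fin N ⊕ Fin M => ℝ)
  have h := hmp.setLIntegral_comp_preimage_emb
    (MeasurableEquiv.sumPiEquivProdPi (fun _ : Fin N ⊕ Fin M => ℝ)).measurableEmbedding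
    (fun y => ENNReal.ofReal (rhoE ε (N + M) (Rsq κ ν ψ G y))) (Yset κ ν ψ T1 T2 dl M N)
  unfold VV
  rw [← h]
  have hc : Fintype.card (Fin N ⊕ Fin M) = N + M := by simp
  rw [hc]
  simp only [nsq_Rv]
  rfl

theorem nsq_add_le {ι : Type*} [Fintype ι] (w v : ι → ℝ) (ε : ℝ) (hε : 0 < ε) :
    nsq (fun j => ε * w j + v j) / (2 * ε ^ 2) ≤
      nsq w / 2 + Real.sqrt (nsq w) * (Real.sqrt (nsq v) / ε) + nsq v / (2 * ε ^ 2) := by
  have h1 : nsq (fun j => ε * w j + v j) = ε ^ 2 * nsq w + 2 * ε * ∑ j, w j * v j + nsq v := by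
    unfold nsq
    rw [Finset.mul_sum, Finset.mul_sum, ← Finset.sum_add_distrib, ← Finset.sum_add_distrib]
    exact Finset.sum_congr rfl fun j _ => by ring
  have h2 : ∑ j, w j * v j ≤ Real.sqrt (nsq w) * Real.sqrt (nsq v) := by
    unfold nsq
    exact Real.sum_mul_le_sqrt_mul_sqrt Finset.univ w v
  rw [h1, div_le_iff₀ (by positivity)]
  have h3 : (nsq w / 2 + Real.sqrt (nsq w) * (Real.sqrt (nsq v) / ε) + nsq v / (2 * ε ^ 2))
      * (2 * ε ^ 2) = ε ^ 2 * nsq w + 2 * ε * (Real.sqrt (nsq w) * Real.sqrt (nsq v)) + nsq v := by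
    field_simp
  rw [h3]
  have h4 : 2 * ε * ∑ j, w j * v j ≤ 2 * ε * (Real.sqrt (nsq w) * Real.sqrt (nsq v)) :=
    mul_le_mul_of_nonneg_left h2 (by positivity)
  linarith

theorem VV_ge {κ ν ψ : ℝ} {M N : ℕ} (hN : 0 < N) {G : Fin M → Fin N → ℝ}
    {T1 T2 : List (ℝ → ℝ)} {dl : ℝ} {y₀ : Fin N ⊕ Fin M → ℝ}
    {J : Matrix (Fin N ⊕ Fin M) (Fin N ⊕ Fin M) ℝ} {K lam ε e₀ k : ℝ} (hK : 0 < K)
    (hlam : 0 < lam) (hε : 0 < ε) (he₀ : 0 ≤ e₀)
    (hmeas : Measurable fun y => nsq (Rv κ ν ψ G y))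
    (hrem : ∀ δ : Fin N ⊕ Fin M → ℝ,
      nsq (fun j => Rv κ ν ψ G (y₀ + δ) j - Rv κ ν ψ G y₀ j - (J *ᵥ δ) j) ≤ K * ∑ j, δ j ^ 4)
    (hres : nsq (Rv κ ν ψ G y₀) ≤ e₀ * N)
    (htyp : ∀ δ : Fin N ⊕ Fin M → ℝ, nsq δ ≤ ε ^ 2 * (8 * ((N : ℝ) + M) / lam) →
      y₀ + δ ∈ Ysum κ ν ψ T1 T2 dl M N)
    (hk0 : 0 ≤ k) (hk : 2 * (e₀ / ε ^ 2 + 24 * K * ε ^ 2 / lam ^ 2) ≤ k ^ 2) :
    ENNReal.ofReal (3 / 4 * (Real.sqrt (Jᵀ * J + lam • (1 : Matrix _ _ ℝ)).det)⁻¹ *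
      Real.exp (-((3 * k + k ^ 2 / 2) * ((N : ℝ) + M)))) ≤ VV κ ν ψ ε T1 T2 dl G := by
  have hN' : (0 : ℝ) < N := Nat.cast_pos.2 hN
  obtain ⟨B, hB0, hBdet, hBJ, hBz, hBrow⟩ := exists_chol J hlam
  set n : ℝ := (N : ℝ) + M with hn
  have hcard : (Fintype.card (Fin N ⊕ Fin M) : ℝ) = n := by simp [hn]
  have hn0 : 0 < n := by positivity
  have hcard0 : 0 < Fintype.card (Fin N ⊕ Fin M) := by
    have : (0 : ℝ) < Fintype.card (Fin N ⊕ Fin M) := by rw [hcard]; exact hn0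
    exact_mod_cast this
  have hgood := good_z hcard0 hlam hBrow
  rw [hcard] at hgood
  set E : Set (Fin N ⊕ Fin M → ℝ) := {z | nsq z ≤ 8 * n ∧
      ∑ j, (B *ᵥ z) j ^ 4 ≤ 24 / lam ^ 2 * n} with hE
  have hEm : MeasurableSet E := by
    have h1 : IsClosed {z : Fin N ⊕ Fin M → ℝ | nsq z ≤ 8 * n} := by
      refine isClosed_le ?_ continuous_const
      unfold nsq
      fun_prop
    have h2 : IsClosed {z : Fin N ⊕ Fin M → ℝ | ∑ j, (B *ᵥ z) j ^ 4 ≤ 24 / lam ^ 2 * n} := by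
      refine isClosed_le ?_ continuous_const
      refine continuous_finsetSum _ fun j _ => Continuous.pow ?_ 4
      simp only [mulVec, dotProduct]
      fun_prop
    exact (h1.inter h2).measurableSet
  have hδ : ∀ z ∈ E, nsq (ε • (B *ᵥ z)) ≤ ε ^ 2 * (8 * n / lam) := by
    intro z hz
    have h1 : nsq (ε • (B *ᵥ z)) = ε ^ 2 * nsq (B *ᵥ z) := by
      unfold nsq
      rw [Finset.mul_sum]
      exact Finset.sum_congr rfl fun j _ => by simp only [Pi.smul_apply, smul_eq_mul]; ring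
    rw [h1]
    refine mul_le_mul_of_nonneg_left ?_ (by positivity)
    rw [le_div_iff₀ hlam]
    calc nsq (B *ᵥ z) * lam = lam * nsq (B *ᵥ z) := mul_comm _ _
      _ ≤ nsq z := hBz z
      _ ≤ 8 * n := hz.1
  have hKb : ∀ z ∈ E, nsq (Rv κ ν ψ G (y₀ + ε • (B *ᵥ z))) / (2 * ε ^ 2) ≤
      nsq z / 2 + (3 * k + k ^ 2 / 2) * n := by
    intro z hz
    set δ := ε • (B *ᵥ z) with hδd
    set w := J *ᵥ (B *ᵥ z) with hw
    set v : Fin N ⊕ Fin M → ℝ := fun j => Rv κ ν ψ G y₀ j +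
      (Rv κ ν ψ G (y₀ + δ) j - Rv κ ν ψ G y₀ j - (J *ᵥ δ) j) with hv
    have h1 : Rv κ ν ψ G (y₀ + δ) = fun j => ε * w j + v j := by
      funext j
      have h2 : (J *ᵥ δ) j = ε * w j := by
        rw [hδd, hw, mulVec_smul]
        rfl
      simp only [hv, h2]
      ring
    have h3 : ∑ j, δ j ^ 4 ≤ ε ^ 4 * (24 / lam ^ 2 * n) := by
      have h4 : ∑ j, δ j ^ 4 = ε ^ 4 * ∑ j, (B *ᵥ z) j ^ 4 := by
        rw [Finset.mul_sum]
        refine Finset.sum_congr rfl fun j _ => ?_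
        simp only [hδd, Pi.smul_apply, smul_eq_mul]
        ring
      rw [h4]
      exact mul_le_mul_of_nonneg_left hz.2 (by positivity)
    have h5 : nsq v ≤ 2 * (e₀ * N) + 2 * (K * (ε ^ 4 * (24 / lam ^ 2 * n))) := by
      have h6 : nsq v ≤ 2 * nsq (Rv κ ν ψ G y₀) + 2 * nsq (fun j =>
          Rv κ ν ψ G (y₀ + δ) j - Rv κ ν ψ G y₀ j - (J *ᵥ δ) j) := by
        unfold nsq
        rw [Finset.mul_sum, Finset.mul_sum, ← Finset.sum_add_distrib]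
        refine Finset.sum_le_sum fun j _ => ?_
        simp only [hv]
        nlinarith [sq_nonneg (Rv κ ν ψ G y₀ j -
          (Rv κ ν ψ G (y₀ + δ) j - Rv κ ν ψ G y₀ j - (J *ᵥ δ) j))]
      have h7 := (hrem δ).trans (mul_le_mul_of_nonneg_left h3 hK.le)
      linarith
    have h8 : nsq v ≤ ε ^ 2 * k ^ 2 * n := by
      have hNn : (N : ℝ) ≤ n := by
        rw [hn]
        have : (0 : ℝ) ≤ M := Nat.cast_nonneg M
        linarith
      have h9 : 2 * (e₀ * N) ≤ 2 * (e₀ * n) := by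
        have := mul_le_mul_of_nonneg_left hNn he₀
        linarith
      have h10 : 2 * (e₀ * n) + 2 * (K * (ε ^ 4 * (24 / lam ^ 2 * n))) =
          ε ^ 2 * (2 * (e₀ / ε ^ 2 + 24 * K * ε ^ 2 / lam ^ 2)) * n := by
        field_simp
      calc nsq v ≤ 2 * (e₀ * n) + 2 * (K * (ε ^ 4 * (24 / lam ^ 2 * n))) := by linarith
        _ = ε ^ 2 * (2 * (e₀ / ε ^ 2 + 24 * K * ε ^ 2 / lam ^ 2)) * n := h10
        _ ≤ ε ^ 2 * k ^ 2 * n := by gcongr
    have h11 : nsq w ≤ nsq z := hBJ z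
    have h12 := nsq_add_le w v ε hε
    rw [h1]
    refine h12.trans ?_
    have h13 : Real.sqrt (nsq w) ≤ 3 * Real.sqrt n := by
      have h14 : nsq w ≤ 9 * n := by linarith [hz.1]
      calc Real.sqrt (nsq w) ≤ Real.sqrt (9 * n) := Real.sqrt_le_sqrt h14
        _ = 3 * Real.sqrt n := by
          rw [Real.sqrt_mul (by norm_num)]
          congr 1
          rw [show (9 : ℝ) = 3 ^ 2 by norm_num, Real.sqrt_sq (by norm_num)]
    have h15 : Real.sqrt (nsq v) / ε ≤ k * Real.sqrt n := by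
      rw [div_le_iff₀ hε]
      calc Real.sqrt (nsq v) ≤ Real.sqrt (ε ^ 2 * k ^ 2 * n) := Real.sqrt_le_sqrt h8
        _ = k * Real.sqrt n * ε := by
          rw [show ε ^ 2 * k ^ 2 * n = (k * ε) ^ 2 * n by ring, Real.sqrt_mul (by positivity),
            Real.sqrt_sq (by positivity)]
          ring
    have h16 : Real.sqrt (nsq w) * (Real.sqrt (nsq v) / ε) ≤ 3 * k * n := by
      calc Real.sqrt (nsq w) * (Real.sqrt (nsq v) / ε)
          ≤ (3 * Real.sqrt n) * (k * Real.sqrt n) := by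
            exact mul_le_mul h13 h15 (by positivity) (by positivity)
        _ = 3 * k * (Real.sqrt n * Real.sqrt n) := by ring
        _ = 3 * k * n := by rw [Real.mul_self_sqrt hn0.le]
    have h17 : nsq v / (2 * ε ^ 2) ≤ k ^ 2 / 2 * n := by
      rw [div_le_iff₀ (by positivity)]
      calc nsq v ≤ ε ^ 2 * k ^ 2 * n := h8
        _ = k ^ 2 / 2 * n * (2 * ε ^ 2) := by ring
    linarith
  have hcov := cov_lower (B := B) (abs_pos.1 hB0) hε y₀ hmeas (Y := Ysum κ ν ψ T1 T2 dl M N)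
    hEm (K := (3 * k + k ^ 2 / 2) * n) (fun z hz => htyp _ (hδ z hz)) hKb
  rw [VV_eq]
  refine le_trans ?_ hcov
  have hdet0 : |B.det| = (Real.sqrt (Jᵀ * J + lam • (1 : Matrix _ _ ℝ)).det)⁻¹ := by
    have ht : 0 < (Jᵀ * J + lam • (1 : Matrix _ _ ℝ)).det := by
      by_contra h
      have h1 : |B.det| ^ 2 * (Jᵀ * J + lam • (1 : Matrix _ _ ℝ)).det ≤ 0 :=
        mul_nonpos_of_nonneg_of_nonpos (by positivity) (not_lt.1 h)
      linarith
    have h1 : (|B.det| * Real.sqrt (Jᵀ * J + lam • (1 : Matrix _ _ ℝ)).det) ^ 2 = 1 := by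
      rw [mul_pow, Real.sq_sqrt ht.le]
      exact hBdet
    have h2 : 0 < |B.det| * Real.sqrt (Jᵀ * J + lam • (1 : Matrix _ _ ℝ)).det :=
      mul_pos hB0 (Real.sqrt_pos.2 ht)
    have h3 : |B.det| * Real.sqrt (Jᵀ * J + lam • (1 : Matrix _ _ ℝ)).det = 1 := by
      nlinarith
    exact eq_inv_of_mul_eq_one_left h3
  rw [← hdet0]
  calc ENNReal.ofReal (3 / 4 * |B.det| * Real.exp (-((3 * k + k ^ 2 / 2) * n)))
      = ENNReal.ofReal (|B.det| * Real.exp (-((3 * k + k ^ 2 / 2) * n))) * (3 / 4) := by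
        rw [show (3 / 4 : ENNReal) = ENNReal.ofReal (3 / 4) by
          rw [ENNReal.ofReal_div_of_pos (by norm_num)]; norm_num,
          ← ENNReal.ofReal_mul (by positivity)]
        congr 1
        ring
    _ ≤ _ := by gcongr

end Pool.Agent.IP49
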