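import Pool.Agent.IP49.VAsm2

/-!
IP49, part U2: choice of the constants, deterministic core (helper85). Notes 1605, 1615.
-/

set_option autoImplicit false
open MeasureTheory ProbabilityTheory Matrix Filter Topology

namespace Pool.Agent.IP49

/-- test lists needed by U2 -/
noncomputable def T1x (T1 : List (ℝ → ℝ)) : List (ℝ → ℝ) :=
  (fun x => x ^ 2) :: (fun x => 1 - Real.tanh x ^ 2) :: (fun x => (1 - Real.tanh x ^ 2) ^ 2) :: T1

/-- test lists needed by U2 -/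
noncomputable def T2x (κ ν ψ : ℝ) (T2 : List (ℝ → ℝ)) : List (ℝ → ℝ) :=
  (fun x => x ^ 2) :: gf κ ν (qp ψ) :: (fun x => gf κ ν (qp ψ) x ^ 2) :: T2

theorem pl_list (T : List (ℝ → ℝ)) (hT : ∀ f ∈ T, PL f) (K₀ : ℝ) :
    ∃ K : ℝ, 0 < K ∧ ∀ f ∈ T, ∀ (n N : ℕ), 0 < N → (n : ℝ) ≤ K₀ * N →
      ∀ (x δ : Fin n → ℝ) (s : ℝ), 0 ≤ s → s ≤ 1 → nsq x ≤ K₀ * N → nsq δ ≤ s ^ 2 * N →
        |(∑ i, f (x i + δ i)) / N - (∑ i, f (x i)) / N| ≤ K * s := by
  induction T with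
  | nil => exact ⟨1, one_pos, fun f hf => absurd hf (by simp)⟩
  | cons f T ih =>
    obtain ⟨K, hK, h⟩ := ih fun g hg => hT g (List.mem_cons_of_mem _ hg)
    obtain ⟨K', hK', h'⟩ := pl_stable (hT f List.mem_cons_self) K₀
    refine ⟨K + K', by positivity, ?_⟩
    intro g hg n N hN hn x δ s hs hs1 hx hδ
    rcases List.mem_cons.1 hg with rfl | hg
    · refine (h' n N hN hn x δ s hs hs1 hx hδ).trans ?_
      nlinarith
    · refine (h g hg n N hN hn x δ s hs hs1 hx hδ).trans ?_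
      nlinarith

theorem detT_pos {n : Type*} [Fintype n] [DecidableEq n] (J : Matrix n n ℝ) {lam : ℝ}
    (hlam : 0 < lam) : 0 < (Jᵀ * J + lam • (1 : Matrix n n ℝ)).det := by
  obtain ⟨B, hB0, hBdet, -⟩ := exists_chol J hlam
  by_contra h
  have h1 : |B.det| ^ 2 * (Jᵀ * J + lam • (1 : Matrix _ _ ℝ)).det ≤ 0 :=
    mul_nonpos_of_nonneg_of_nonpos (by positivity) (not_lt.1 h)
  linarith

theorem meas_Rv {κ ν ψ : ℝ} {M N : ℕ} (G : Fin M → Fin N → ℝ) :
    Measurable fun y => nsq (Rv κ ν ψ G y) := by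
  have hF : Measurable (FF κ ν (qp ψ)) := continuous_FF.measurable
  have hT : Measurable Real.tanh := by
    have : Continuous Real.tanh := by
      refine continuous_iff_continuousAt.2 fun x => (hasDerivAt_tanh x).continuousAt
    exact this.measurable
  have h : ∀ y : Fin N ⊕ Fin M → ℝ, nsq (Rv κ ν ψ G y) =
      (∑ i, ((∑ a, G a i * FF κ ν (qp ψ) (y (Sum.inr a))) / Real.sqrt N - y (Sum.inl i)
        - dd κ ν ψ * Real.tanh (y (Sum.inl i))) ^ 2) +
      ∑ a, ((∑ i, G a i * Real.tanh (y (Sum.inl i))) / Real.sqrt N - y (Sum.inr a)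
        - (1 - qp ψ) * FF κ ν (qp ψ) (y (Sum.inr a))) ^ 2 := by
    intro y
    rw [nsq_Rv]
    rfl
  simp only [h]
  refine Measurable.add ?_ ?_
  · refine Finset.measurable_sum _ fun i _ => Measurable.pow_const ?_ 2
    refine Measurable.sub (Measurable.sub ?_ (measurable_pi_apply _)) ?_
    · refine Measurable.div_const (Finset.measurable_sum _ fun a _ => ?_) _
      exact (hF.comp (measurable_pi_apply _)).const_mul _
    · exact (hT.comp (measurable_pi_apply _)).const_mul _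
  · refine Finset.measurable_sum _ fun i _ => Measurable.pow_const ?_ 2
    refine Measurable.sub (Measurable.sub ?_ (measurable_pi_apply _)) ?_
    · refine Measurable.div_const (Finset.measurable_sum _ fun a _ => ?_) _
      exact (hT.comp (measurable_pi_apply _)).const_mul _
    · exact (hF.comp (measurable_pi_apply _)).const_mul _

/-- bounds for `S` and `g` -/
theorem Sv_bd {M N : ℕ} (y : Fin N ⊕ Fin M → ℝ) (i : Fin N) : 0 < Sv y i ∧ Sv y i ≤ 1 := by
  unfold Sv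
  have h1 := tanh_sq_lt (y (Sum.inl i))
  have h2 := sq_nonneg (Real.tanh (y (Sum.inl i)))
  constructor <;> linarith

theorem gv_bd {κ ν ψ : ℝ} (hν : 0 < ν) {M N : ℕ} (y : Fin N ⊕ Fin M → ℝ) (a : Fin M) :
    0 < gv κ ν ψ y a ∧ gv κ ν ψ y a ≤ 1 / (1 - qp ψ + ν) ∧
      ν / (1 - qp ψ + ν) ≤ 1 - (1 - qp ψ) * gv κ ν ψ y a := by
  have hq : qp ψ < 1 := qp_lt_one
  have h1 : 0 < 1 - qp ψ + ν := by linarith
  have h2 := gf_pos (κ := κ) hν.le hq (y (Sum.inr a))
  have h3 := gf_lt (κ := κ) hν.le hq (y (Sum.inr a))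
  rw [tp_sq hν.le hq] at h3
  refine ⟨h2, h3.le, ?_⟩
  have h4 : (1 - qp ψ) * gv κ ν ψ y a ≤ (1 - qp ψ) * (1 / (1 - qp ψ + ν)) :=
    mul_le_mul_of_nonneg_left h3.le (by linarith)
  have h5 : ν / (1 - qp ψ + ν) = 1 - (1 - qp ψ) * (1 / (1 - qp ψ + ν)) := by
    field_simp
    ring
  rw [h5]
  linarith

theorem GE_sq_scale {ψ : ℝ} (hψ : 0 ≤ ψ) : GE (fun x => (Real.sqrt ψ * x) ^ 2) = ψ := by
  have h : (fun x : ℝ => (Real.sqrt ψ * x) ^ 2) = fun x => ψ * x ^ 2 := by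
    funext x
    rw [mul_pow, Real.sq_sqrt hψ]
  rw [h, GE_mul, GE_sq, mul_one]

end Pool.Agent.IP49
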