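import Pool.Agent.IP49.VAsm3

/-!
IP49, part U2: deterministic core (helper85). Notes 1605, 1615.
-/

set_option autoImplicit false
open MeasureTheory ProbabilityTheory Matrix Filter Topology

namespace Pool.Agent.IP49

/-- the point of `ℝ^{N+M}` -/
def yy {M N : ℕ} (h : Fin N → ℝ) (hh : Fin M → ℝ) : Fin N ⊕ Fin M → ℝ := Sum.elim h hh

/-- consequences of typicality -/
theorem typ_facts {κ ν ψ : ℝ} (hν : 0 < ν) (hψ : 0 < ψ) {T1 T2 : List (ℝ → ℝ)} {s : ℝ}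
    (hs1 : s ≤ 1) {M N : ℕ} (hN : 0 < N) {h : Fin N → ℝ} {hh : Fin M → ℝ}
    (hY : (h, hh) ∈ Yset κ ν ψ (T1x T1) (T2x κ ν ψ T2) s M N) :
    nsq h ≤ (ψ + 1) * N ∧ nsq hh ≤ (al κ ν ψ * qp ψ + 1) * N ∧
    |(∑ a, gv κ ν ψ (yy h hh) a) / N - (-dd κ ν ψ)| ≤ s ∧
    (∑ i, Sv (M := M) (yy h hh) i) / N ≤ (1 - qp ψ) + s ∧
    (∑ i, Sv (M := M) (yy h hh) i ^ 2) / N ≤ ES2 ψ + s ∧
    (∑ a, gv κ ν ψ (yy h hh) a ^ 2) / N ≤
      al κ ν ψ * (GE fun x => gf κ ν (qp ψ) (Real.sqrt (qp ψ) * x) ^ 2) + s := by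
  have hN' : (0 : ℝ) < N := Nat.cast_pos.2 hN
  have hq : 0 < qp ψ := qp_pos hψ
  obtain ⟨h1, h2⟩ := hY
  have a1 := h1 (fun x => x ^ 2) (by simp [T1x])
  have a2 := h1 (fun x => 1 - Real.tanh x ^ 2) (by simp [T1x])
  have a3 := h1 (fun x => (1 - Real.tanh x ^ 2) ^ 2) (by simp [T1x])
  have b1 := h2 (fun x => x ^ 2) (by simp [T2x])
  have b2 := h2 (gf κ ν (qp ψ)) (by simp [T2x])
  have b3 := h2 (fun x => gf κ ν (qp ψ) x ^ 2) (by simp [T2x])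
  simp only at a1 a2 a3 b1 b2 b3
  rw [GE_sq_scale hψ.le] at a1
  rw [E_sech2] at a2
  rw [GE_sq_scale hq.le] at b1
  refine ⟨?_, ?_, ?_, ?_, ?_, ?_⟩
  · have h3 := (abs_le.1 a1).2
    have h4 : (∑ i, h i ^ 2) / N ≤ ψ + 1 := by linarith
    rwa [div_le_iff₀ hN'] at h4
  · have h3 := (abs_le.1 b1).2
    have h4 : (∑ i, hh i ^ 2) / N ≤ al κ ν ψ * qp ψ + 1 := by linarith
    rwa [div_le_iff₀ hN'] at h4
  · have h3 : -dd κ ν ψ = al κ ν ψ * GE fun x => gf κ ν (qp ψ) (Real.sqrt (qp ψ) * x) := by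
      unfold dd
      ring
    rw [h3]
    exact b2
  · have h3 := (abs_le.1 a2).2
    have h4 : (∑ i, Sv (M := M) (yy h hh) i) = ∑ i, (1 - Real.tanh (h i) ^ 2) := rfl
    rw [h4]
    linarith
  · have h3 := (abs_le.1 a3).2
    have h4 : (∑ i, Sv (M := M) (yy h hh) i ^ 2) = ∑ i, (1 - Real.tanh (h i) ^ 2) ^ 2 := rfl
    have h5 : ES2 ψ = GE fun x => (1 - Real.tanh (Real.sqrt ψ * x) ^ 2) ^ 2 := rfl
    rw [h4, h5]
    linarith
  · have h3 := (abs_le.1 b3).2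
    have h4 : (∑ a, gv κ ν ψ (yy h hh) a ^ 2) = ∑ a, gf κ ν (qp ψ) (hh a) ^ 2 := rfl
    rw [h4]
    linarith

/-- the event that the determinant is not too large -/
def DetOK (κ ν ψ c η₁ : ℝ) {M N : ℕ} (h : Fin N → ℝ) (hh : Fin M → ℝ)
    (G' : Fin M → Fin N → ℝ) : Prop :=
  (Xk (1 - qp ψ) (-dd κ ν ψ) (Sv (yy h hh)) (gv κ ν ψ (yy h hh)) G' M).det ≤
    Real.exp (η₁ * N) *
      ((∏ i, (1 + (yk N (gv κ ν ψ (yy h hh)) 0 - (-dd κ ν ψ)) * Sv (M := M) (yy h hh) i)) *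
          ∏ a, (Real.exp (2 * gv κ ν ψ (yy h hh) a ^ 2 / (c ^ 2 * N))
            * (1 - (1 - qp ψ) * gv κ ν ψ (yy h hh) a)⁻¹
            * Real.exp (-((1 - qp ψ) * gv κ ν ψ (yy h hh) a))))

/-- typicality of the neighbours -/
theorem typ_nbr {κ ν ψ α : ℝ} (hαd : α = al κ ν ψ) (hα : 0 < α) (hψ : 0 < ψ) (hq0 : 0 < qp ψ)
    {T1 T2 : List (ℝ → ℝ)} {K₀ K1 K2 dl s₁ e r' : ℝ}
    (hK₀ : K₀ = (ψ + 1) + (α * qp ψ + 1) + (1 + α)) (hK1 : 0 < K1) (hK2 : 0 < K2)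
    (hst1 : ∀ f ∈ T1, ∀ (n N : ℕ), 0 < N → (n : ℝ) ≤ K₀ * N →
      ∀ (x δ : Fin n → ℝ) (s : ℝ), 0 ≤ s → s ≤ 1 → nsq x ≤ K₀ * N → nsq δ ≤ s ^ 2 * N →
        |(∑ i, f (x i + δ i)) / N - (∑ i, f (x i)) / N| ≤ K1 * s)
    (hst2 : ∀ f ∈ T2, ∀ (n N : ℕ), 0 < N → (n : ℝ) ≤ K₀ * N →
      ∀ (x δ : Fin n → ℝ) (s : ℝ), 0 ≤ s → s ≤ 1 → nsq x ≤ K₀ * N → nsq δ ≤ s ^ 2 * N →
        |(∑ i, f (x i + δ i)) / N - (∑ i, f (x i)) / N| ≤ K2 * s)
    (hs₁a : s₁ ≤ dl / 2) (he0 : 0 ≤ e) (he1 : e ≤ 1) (he2 : (K1 + K2) * e ≤ dl / 2)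
    {M N : ℕ} (hN : 0 < N) (hM : (M : ℝ) ≤ α * N) {h : Fin N → ℝ} {hh : Fin M → ℝ}
    (hY : (h, hh) ∈ Yset κ ν ψ (T1x T1) (T2x κ ν ψ T2) s₁ M N)
    (t1 : nsq h ≤ (ψ + 1) * N) (t2 : nsq hh ≤ (α * qp ψ + 1) * N)
    (hr : r' ≤ e ^ 2 * N) :
    ∀ δ : Fin N ⊕ Fin M → ℝ, nsq δ ≤ r' → yy h hh + δ ∈ Ysum κ ν ψ T1 T2 dl M N := by
  intro δ hδ
  have hN' : (0 : ℝ) < N := Nat.cast_pos.2 hN
  have h1 : nsq δ ≤ e ^ 2 * N := hδ.trans hr
  have hsplit : nsq δ = nsq (fun i => δ (Sum.inl i)) + nsq (fun a => δ (Sum.inr a)) := by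
    unfold nsq
    rw [Fintype.sum_sum_type]
  have hnn : ∀ {m : ℕ} (x : Fin m → ℝ), 0 ≤ nsq x := fun x =>
    Finset.sum_nonneg fun i _ => sq_nonneg _
  have hδ1 : nsq (fun i => δ (Sum.inl i)) ≤ e ^ 2 * N := by
    linarith [hnn (fun a : Fin M => δ (Sum.inr a))]
  have hδ2 : nsq (fun a => δ (Sum.inr a)) ≤ e ^ 2 * N := by
    linarith [hnn (fun i : Fin N => δ (Sum.inl i))]
  have hqa : 0 ≤ α * qp ψ := by positivity
  have hc1 : (ψ + 1) * (N : ℝ) ≤ K₀ * N := by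
    apply mul_le_mul_of_nonneg_right _ hN'.le
    linarith
  have hc2 : (α * qp ψ + 1) * (N : ℝ) ≤ K₀ * N := by
    apply mul_le_mul_of_nonneg_right _ hN'.le
    linarith
  have hc3 : (N : ℝ) ≤ K₀ * N := by
    calc (N : ℝ) = 1 * N := by ring
      _ ≤ K₀ * N := by
        apply mul_le_mul_of_nonneg_right _ hN'.le
        linarith
  have hc4 : (M : ℝ) ≤ K₀ * N := by
    refine hM.trans ?_
    apply mul_le_mul_of_nonneg_right _ hN'.le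
    linarith
  obtain ⟨hY1, hY2⟩ := hY
  refine ⟨?_, ?_⟩
  · intro f hf
    have h3 := hst1 f hf N N hN hc3 h (fun i => δ (Sum.inl i)) e he0 he1 (t1.trans hc1) hδ1
    have h4 := hY1 f (by simp [T1x, hf])
    have h5 : K1 * e ≤ dl / 2 := by
      have : 0 ≤ K2 * e := by positivity
      linarith
    have h6 : (∑ i, f ((fun i => (yy h hh + δ) (Sum.inl i)) i)) =
        ∑ i, f (h i + δ (Sum.inl i)) := rfl
    show |(∑ i, f ((fun i => (yy h hh + δ) (Sum.inl i)) i)) / N - _| ≤ dl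
    rw [h6]
    have h7 := abs_sub_le ((∑ i, f (h i + δ (Sum.inl i))) / (N : ℝ)) ((∑ i, f (h i)) / N)
      (GE fun x => f (Real.sqrt ψ * x))
    linarith
  · intro f hf
    have h3 := hst2 f hf M N hN hc4 hh (fun i => δ (Sum.inr i)) e he0 he1 (t2.trans hc2) hδ2
    have h4 := hY2 f (by simp [T2x, hf])
    have h5 : K2 * e ≤ dl / 2 := by
      have : 0 ≤ K1 * e := by positivity
      linarith
    have h6 : (∑ i, f ((fun a => (yy h hh + δ) (Sum.inr a)) i)) =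
        ∑ i, f (hh i + δ (Sum.inr i)) := rfl
    show |(∑ i, f ((fun a => (yy h hh + δ) (Sum.inr a)) i)) / N - _| ≤ dl
    rw [h6]
    have h7 := abs_sub_le ((∑ i, f (hh i + δ (Sum.inr i))) / (N : ℝ)) ((∑ i, f (hh i)) / N)
      (al κ ν ψ * GE fun x => f (Real.sqrt (qp ψ) * x))
    linarith

/-- upper bound for the determinant, pure computation -/
theorem T_up {dT dJ η s₁ b D th lam L A c1 c2 c3 n N : ℝ} {m : ℕ} (hm : (m : ℝ) = n)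
    (hA0 : 0 < A) (hL : 0 < L) (hη : 0 < η) (hN' : 0 < N) (hnA : n ≤ A * N)
    (hth : th = η / (8 * A)) (hlam : lam = η / (8 * L * A))
    (hs₁d : s₁ + b * s₁ ≤ η / 8)
    (hc : c1 = c2 + 2 * c3)
    (hdJ : |dJ| ≤ Real.exp ((η / 8 + s₁ + b * s₁ - b * D) * N + c3))
    (hper : dT ≤ (1 + th) ^ m * Real.exp c2 * Real.exp (lam * L * n) * dJ ^ 2) :
    dT ≤ Real.exp ((3 * η / 4 - 2 * (b * D)) * N + c1) := by
  have hth0 : 0 < th := by rw [hth]; positivity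
  have hlam0 : 0 < lam := by rw [hlam]; positivity
  have e1 : (1 + th) ^ m ≤ Real.exp (η / 8 * N) := by
    calc (1 + th) ^ m ≤ (Real.exp th) ^ m := by
          refine pow_le_pow_left₀ (by positivity) ?_ _
          linarith [Real.add_one_le_exp th]
      _ = Real.exp (n * th) := by rw [← Real.exp_nat_mul, hm]
      _ ≤ Real.exp (η / 8 * N) := by
          refine Real.exp_le_exp.2 ?_
          calc n * th ≤ A * N * th := by gcongr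
            _ = η / 8 * N := by
              rw [hth]
              field_simp
  have e2 : Real.exp (lam * L * n) ≤ Real.exp (η / 8 * N) := by
    refine Real.exp_le_exp.2 ?_
    calc lam * L * n ≤ lam * L * (A * N) := by gcongr
      _ = η / 8 * N := by
        rw [hlam]
        field_simp
  have e3 : dJ ^ 2 ≤ Real.exp (2 * ((η / 8 + s₁ + b * s₁ - b * D) * N + c3)) := by
    rw [← sq_abs]
    calc |dJ| ^ 2 ≤ (Real.exp ((η / 8 + s₁ + b * s₁ - b * D) * N + c3)) ^ 2 :=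
          pow_le_pow_left₀ (abs_nonneg _) hdJ 2
      _ = _ := by rw [← Real.exp_nat_mul]; norm_num
  refine hper.trans ?_
  calc (1 + th) ^ m * Real.exp c2 * Real.exp (lam * L * n) * dJ ^ 2
      ≤ Real.exp (η / 8 * N) * Real.exp c2 * Real.exp (η / 8 * N) *
        Real.exp (2 * ((η / 8 + s₁ + b * s₁ - b * D) * N + c3)) := by gcongr
    _ = Real.exp ((η / 8 + η / 8 + 2 * (η / 8 + s₁ + b * s₁ - b * D)) * N + c1) := by
        rw [← Real.exp_add, ← Real.exp_add, ← Real.exp_add]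
        congr 1
        rw [hc]
        ring
    _ ≤ _ := by
        refine Real.exp_le_exp.2 ?_
        have h1 : (s₁ + b * s₁) * N ≤ η / 8 * N := by gcongr
        linarith

/-- final comparison, pure computation -/
theorem fin_cmp {dT η b D A k c1 n N : ℝ} (hA0 : 0 < A) (hη : 0 < η) (hN' : 0 < N)
    (hn0 : 0 < n) (hnA : n ≤ A * N) (hk : k = min 1 (η / (32 * A))) (hT0 : 0 < dT)
    (hNl : c1 / 2 + 1 ≤ η / 2 * N)
    (hTup : dT ≤ Real.exp ((3 * η / 4 - 2 * (b * D)) * N + c1)) :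
    Real.exp ((D * b - η) * N) ≤
      3 / 4 * (Real.sqrt dT)⁻¹ * Real.exp (-((3 * k + k ^ 2 / 2) * n)) := by
  have hk0 : 0 < k := by rw [hk]; positivity
  have hkn : (3 * k + k ^ 2 / 2) * n ≤ η / 8 * N := by
    have h1 : k ≤ 1 := by rw [hk]; exact min_le_left _ _
    have h2 : k ≤ η / (32 * A) := by rw [hk]; exact min_le_right _ _
    have h3 : 3 * k + k ^ 2 / 2 ≤ 4 * k := by nlinarith
    calc (3 * k + k ^ 2 / 2) * n ≤ 4 * k * (A * N) := by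
          apply mul_le_mul h3 hnA hn0.le (by positivity)
      _ ≤ 4 * (η / (32 * A)) * (A * N) := by gcongr
      _ = η / 8 * N := by field_simp; ring
  have hsq : (Real.exp (((3 * η / 4 - 2 * (b * D)) * N + c1) / 2))⁻¹ ≤ (Real.sqrt dT)⁻¹ := by
    apply inv_anti₀ (Real.sqrt_pos.2 hT0)
    calc Real.sqrt dT ≤ Real.sqrt (Real.exp ((3 * η / 4 - 2 * (b * D)) * N + c1)) :=
          Real.sqrt_le_sqrt hTup
      _ = _ := by rw [← Real.exp_half]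
  have h34 : Real.exp (-1) ≤ 3 / 4 := by
    have h1 := Real.exp_neg_one_lt_d9
    linarith
  calc Real.exp ((D * b - η) * N)
      ≤ Real.exp (-1) * Real.exp (-(((3 * η / 4 - 2 * (b * D)) * N + c1) / 2)) *
        Real.exp (-(η / 8 * N)) := by
        rw [← Real.exp_add, ← Real.exp_add]
        refine Real.exp_le_exp.2 ?_
        linarith
    _ = Real.exp (-1) * (Real.exp (((3 * η / 4 - 2 * (b * D)) * N + c1) / 2))⁻¹ *
        Real.exp (-(η / 8 * N)) := by rw [Real.exp_neg (((3 * η / 4 - 2 * (b * D)) * N + c1) / 2)]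
    _ ≤ 3 / 4 * (Real.sqrt dT)⁻¹ * Real.exp (-((3 * k + k ^ 2 / 2) * n)) := by
        have h1 : Real.exp (-(η / 8 * N)) ≤ Real.exp (-((3 * k + k ^ 2 / 2) * n)) :=
          Real.exp_le_exp.2 (by linarith)
        gcongr

theorem det_core' {κ ν ψ c C b D α : ℝ} (hb : b = 1 - qp ψ) (hDd : D = -dd κ ν ψ)
    (hαd : α = al κ ν ψ) (hν : 0 < ν) (hψ : 0 < ψ) (hc : 0 < c)
    (T1 T2 : List (ℝ → ℝ)) (hT1 : ∀ f ∈ T1, PL f) (hT2 : ∀ f ∈ T2, PL f)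
    {dl : ℝ} (hdl : 0 < dl) {η : ℝ} (hη : 0 < η) :
    ∃ s₁ : ℝ, 0 < s₁ ∧ ∃ ε₀ : ℝ, 0 < ε₀ ∧ ∀ ε : ℝ, 0 < ε → ε < ε₀ → ∃ e₀ : ℝ, 0 < e₀ ∧
      ∀ CK : ℝ, ∀ᶠ N : ℕ in atTop, ∀ (M : ℕ), (M : ℝ) ≤ α * N →
      ∀ (G G' : Fin M → Fin N → ℝ) (h : Fin N → ℝ) (hh : Fin M → ℝ),
        (h, hh) ∈ Yset κ ν ψ (T1x T1) (T2x κ ν ψ T2) s₁ M N →
        Rsq κ ν ψ G (h, hh) ≤ e₀ * N → ∑ a, ∑ i, (G a i - G' a i) ^ 2 ≤ CK * N →
        OpB C G → OpB C G' →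
        PathPos c b D (Sv (yy h hh)) (gv κ ν ψ (yy h hh)) G' →
        DetOK κ ν ψ c (η / 8) h hh G' →
        ENNReal.ofReal (Real.exp ((D * b - η) * N)) ≤ VV κ ν ψ ε T1 T2 dl G := by
  have hq1 : qp ψ < 1 := qp_lt_one
  have hq0 : 0 < qp ψ := qp_pos hψ
  have hα : 0 < α := by rw [hαd]; exact al_pos hν.le hψ
  have hD : 0 < D := by rw [hDd]; linarith [dd_neg (κ := κ) hν.le hψ]
  have hb0 : 0 < b := by rw [hb]; linarith
  have hbν : 0 < b + ν := by positivity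
  obtain ⟨L, hL, hJm⟩ := Jm_lower (c := c) (C := C) (b := b) (D := D) (G0 := 1 / (b + ν))
    (κ₀ := ν / (b + ν)) hc hb0 (by positivity) (by positivity)
  obtain ⟨K, hK, hrem⟩ := rem_bound (κ := κ) (ν := ν) (ψ := ψ) (C := C) hν
  set A : ℝ := 1 + α with hA
  have hA0 : 0 < A := by positivity
  set K₀ : ℝ := (ψ + 1) + (α * qp ψ + 1) + A with hK₀
  obtain ⟨K1, hK1, hst1⟩ := pl_list T1 hT1 K₀
  obtain ⟨K2, hK2, hst2⟩ := pl_list T2 hT2 K₀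
  set th : ℝ := η / (8 * A) with hth
  have hth0 : 0 < th := by positivity
  set lam : ℝ := η / (8 * L * A) with hlam
  have hlam0 : 0 < lam := by positivity
  set k : ℝ := min 1 (η / (32 * A)) with hk
  have hk0 : 0 < k := by positivity
  set s₁ : ℝ := min (dl / 2) (min 1 (η / (8 * (1 + b)))) with hs₁
  have hs₁0 : 0 < s₁ := by positivity
  have hs₁a : s₁ ≤ dl / 2 := min_le_left _ _
  have hs₁b : s₁ ≤ 1 := (min_le_right _ _).trans (min_le_left _ _)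
  have hs₁c : s₁ ≤ η / (8 * (1 + b)) := (min_le_right _ _).trans (min_le_right _ _)
  set r : ℝ := Real.sqrt (8 * A / lam) with hr
  have hr0 : 0 < r := Real.sqrt_pos.2 (by positivity)
  have hr2 : r ^ 2 = 8 * A / lam := Real.sq_sqrt (by positivity)
  set ε₀ : ℝ := min (Real.sqrt (k ^ 2 * lam ^ 2 / (96 * K)))
    (min (1 / r) (dl / (2 * (K1 + K2) * r))) with hε₀
  have hε₀0 : 0 < ε₀ := by
    have h1 : 0 < Real.sqrt (k ^ 2 * lam ^ 2 / (96 * K)) := Real.sqrt_pos.2 (by positivity)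
    have h2 : 0 < dl / (2 * (K1 + K2) * r) := by positivity
    have h3 : 0 < 1 / r := by positivity
    exact lt_min h1 (lt_min h3 h2)
  refine ⟨s₁, hs₁0, ε₀, hε₀0, ?_⟩
  intro ε hε hεε
  have hε1 : ε ^ 2 ≤ k ^ 2 * lam ^ 2 / (96 * K) := by
    have h1 : ε ≤ Real.sqrt (k ^ 2 * lam ^ 2 / (96 * K)) := hεε.le.trans (min_le_left _ _)
    calc ε ^ 2 ≤ (Real.sqrt (k ^ 2 * lam ^ 2 / (96 * K))) ^ 2 := pow_le_pow_left₀ hε.le h1 2
      _ = _ := Real.sq_sqrt (by positivity)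
  have hε2 : ε * r ≤ 1 := by
    have h1 : ε ≤ 1 / r := hεε.le.trans ((min_le_right _ _).trans (min_le_left _ _))
    rwa [le_div_iff₀ hr0] at h1
  have hε3 : (K1 + K2) * (ε * r) ≤ dl / 2 := by
    have h1 : ε ≤ dl / (2 * (K1 + K2) * r) :=
      hεε.le.trans ((min_le_right _ _).trans (min_le_right _ _))
    rw [le_div_iff₀ (by positivity)] at h1
    linarith
  refine ⟨k ^ 2 * ε ^ 2 / 4, by positivity, ?_⟩
  intro CK
  -- constants in the exponent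
  set c1 : ℝ := ((1 / (b + ν)) ^ 2 + 1) * CK / (th * lam)
    + 2 * (2 * (1 / (b + ν)) ^ 2 * α / c ^ 2) with hc1
  have hlarge : ∀ᶠ N : ℕ in atTop, c1 / 2 + 1 ≤ η / 2 * N := by
    have h1 : Tendsto (fun N : ℕ => η / 2 * (N : ℝ)) atTop atTop :=
      tendsto_natCast_atTop_atTop.const_mul_atTop (by positivity)
    exact h1.eventually_ge_atTop _
  filter_upwards [hlarge, eventually_gt_atTop 0] with N hNl hN M hM G G' h hh hY hres hGG hOG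
    hOG' hpos hdet
  have hN' : (0 : ℝ) < N := Nat.cast_pos.2 hN
  set y₀ : Fin N ⊕ Fin M → ℝ := yy h hh with hy₀
  have hSv := Sv_bd y₀
  have hgv := gv_bd (κ := κ) (ψ := ψ) hν y₀
  rw [← hb] at hgv
  obtain ⟨t1, t2, t3, -, -, -⟩ := typ_facts hν hψ hs₁b hN hY
  rw [← hαd] at t2
  rw [← hDd, ← hy₀] at t3
  set n : ℝ := (N : ℝ) + M with hn
  have hnA : n ≤ A * N := by
    rw [hn, hA]
    linarith
  have hn0 : 0 < n := by positivity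
  have hcard : (Fintype.card (Fin N ⊕ Fin M) : ℝ) = n := by simp [hn]
  -- the two Jacobians
  set J := Jm b D (Sv y₀) (gv κ ν ψ y₀) G with hJ
  set J' := Jm b D (Sv y₀) (gv κ ν ψ y₀) G' with hJ'
  have hdelta : ∑ i, ∑ j, (J i j - J' i j) ^ 2 ≤ ((1 / (b + ν)) ^ 2 + 1) * CK :=
    Jm_sub hN hSv (fun a => ⟨(hgv a).1, (hgv a).2.1⟩) hGG
  have hJlow : ∀ x : Fin N ⊕ Fin M → ℝ, nsq x ≤ L * nsq (J' *ᵥ x) :=
    hJm N M (Sv y₀) (gv κ ν ψ y₀) G' hN hSv hgv hOG' (hpos M le_rfl)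
  have hbg : ∀ a, b * gv κ ν ψ y₀ a < 1 := by
    intro a
    have h1 := (hgv a).2.2
    have h2 : 0 < ν / (b + ν) := by positivity
    linarith
  have hdJ : |J'.det| ≤ Real.exp ((η / 8 + s₁ + b * s₁ - b * D) * N
      + 2 * (1 / (b + ν)) ^ 2 * α / c ^ 2) := by
    refine detJ_upper hN hc hb0 hs₁0.le hs₁b hSv (fun a => ⟨(hgv a).1, (hgv a).2.1⟩) hbg hM hpos
      t3 ?_
    unfold DetOK at hdet
    rw [← hb, ← hDd] at hdet
    exact hdet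
  have hper := det_perturb hlam0 hth0 hL hJlow hdelta
  rw [hcard] at hper
  have hT0 := detT_pos J hlam0
  -- upper bound of det T
  have hs₁d : s₁ + b * s₁ ≤ η / 8 := by
    have h1 := mul_le_mul_of_nonneg_left hs₁c (by positivity : (0 : ℝ) ≤ 1 + b)
    have h2 : (1 + b) * (η / (8 * (1 + b))) = η / 8 := by field_simp
    linarith
  have hTup := T_up (c1 := c1) (c3 := 2 * (1 / (b + ν)) ^ 2 * α / c ^ 2) hcard hA0 hL hη hN' hnA
    hth hlam hs₁d hc1 hdJ hper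
  -- typicality of the neighbours
  have hrr : ε ^ 2 * (8 * ((N : ℝ) + M) / lam) ≤ (ε * r) ^ 2 * N := by
    rw [mul_pow, hr2]
    have h2 : 8 * ((N : ℝ) + M) / lam ≤ 8 * A / lam * N := by
      rw [div_mul_eq_mul_div]
      apply div_le_div_of_nonneg_right _ hlam0.le
      rw [← hn]
      linarith
    calc ε ^ 2 * (8 * ((N : ℝ) + M) / lam) ≤ ε ^ 2 * (8 * A / lam * N) := by gcongr
      _ = _ := by ring
  have htyp := typ_nbr hαd hα hψ hq0 hK₀ hK1 hK2 hst1 hst2 hs₁a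
    (by positivity : (0 : ℝ) ≤ ε * r) hε2 hε3 hN hM hY t1 t2 hrr
  have hremy : ∀ δ : Fin N ⊕ Fin M → ℝ,
      nsq (fun j => Rv κ ν ψ G (y₀ + δ) j - Rv κ ν ψ G y₀ j - (J *ᵥ δ) j) ≤ K * ∑ j, δ j ^ 4 := by
    intro δ
    have h1 := hrem N M G hN hOG y₀ δ
    rw [← hb, ← hDd] at h1
    exact h1
  have hresy : nsq (Rv κ ν ψ G y₀) ≤ k ^ 2 * ε ^ 2 / 4 * N := by
    rw [nsq_Rv]
    exact hres
  have hkk : 2 * (k ^ 2 * ε ^ 2 / 4 / ε ^ 2 + 24 * K * ε ^ 2 / lam ^ 2) ≤ k ^ 2 := by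
    have h1 : k ^ 2 * ε ^ 2 / 4 / ε ^ 2 = k ^ 2 / 4 := by field_simp
    have h2 : 24 * K * ε ^ 2 / lam ^ 2 ≤ k ^ 2 / 4 := by
      rw [div_le_iff₀ (by positivity)]
      rw [le_div_iff₀ (by positivity)] at hε1
      linarith
    rw [h1]
    linarith
  have hV := VV_ge (dl := dl) (T1 := T1) (T2 := T2) hN hK hlam0 hε (by positivity) (meas_Rv G)
    hremy hresy htyp hk0.le hkk
  refine le_trans (ENNReal.ofReal_le_ofReal ?_) hV
  exact fin_cmp hA0 hη hN' hn0 hnA hk hT0 hNl hTup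

theorem det_core {κ ν ψ c C : ℝ} (hν : 0 < ν) (hψ : 0 < ψ) (hc : 0 < c)
    (T1 T2 : List (ℝ → ℝ)) (hT1 : ∀ f ∈ T1, PL f) (hT2 : ∀ f ∈ T2, PL f)
    {dl : ℝ} (hdl : 0 < dl) {η : ℝ} (hη : 0 < η) :
    ∃ s₁ : ℝ, 0 < s₁ ∧ ∃ ε₀ : ℝ, 0 < ε₀ ∧ ∀ ε : ℝ, 0 < ε → ε < ε₀ → ∃ e₀ : ℝ, 0 < e₀ ∧
      ∀ CK : ℝ, ∀ᶠ N : ℕ in atTop, ∀ (M : ℕ), (M : ℝ) ≤ al κ ν ψ * N →
      ∀ (G G' : Fin M → Fin N → ℝ) (h : Fin N → ℝ) (hh : Fin M → ℝ),
        (h, hh) ∈ Yset κ ν ψ (T1x T1) (T2x κ ν ψ T2) s₁ M N →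
        Rsq κ ν ψ G (h, hh) ≤ e₀ * N → ∑ a, ∑ i, (G a i - G' a i) ^ 2 ≤ CK * N →
        OpB C G → OpB C G' →
        PathPos c (1 - qp ψ) (-dd κ ν ψ) (Sv (yy h hh)) (gv κ ν ψ (yy h hh)) G' →
        DetOK κ ν ψ c (η / 8) h hh G' →
        ENNReal.ofReal (Real.exp ((-dd κ ν ψ * (1 - qp ψ) - η) * N)) ≤ VV κ ν ψ ε T1 T2 dl G :=
  det_core' rfl rfl rfl hν hψ hc T1 T2 hT1 hT2 hdl hη

end Pool.Agent.IP49
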