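import Pool.Agent.IP49.VAsm3
import Pool.Agent.IP49.UPL

/-!
IP49, part U2: the typical set has probability close to one (helper85). Notes 1605, 1615.
-/

set_option autoImplicit false
open MeasureTheory ProbabilityTheory Matrix Filter Topology

namespace Pool.Agent.IP49

theorem bddLip_sq {f : ℝ → ℝ} {C B : ℝ} (hC : 0 ≤ C) (hB : 0 ≤ B)
    (hf : ∀ x y, |f x - f y| ≤ C * |x - y|) (hb : ∀ x, |f x| ≤ B) :
    LipC fun x => f x ^ 2 := by
  refine ⟨2 * B * C, by positivity, fun x y => ?_⟩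
  have h1 : f x ^ 2 - f y ^ 2 = (f x + f y) * (f x - f y) := by ring
  rw [h1, abs_mul]
  have h2 : |f x + f y| ≤ 2 * B := (abs_add_le _ _).trans (by linarith [hb x, hb y])
  calc |f x + f y| * |f x - f y| ≤ 2 * B * (C * |x - y|) :=
        mul_le_mul h2 (hf x y) (abs_nonneg _) (by positivity)
    _ = _ := by ring

theorem LipC_tanh2 : LipC fun x => Real.tanh x ^ 2 := by
  obtain ⟨C, hC, h⟩ := LipC_tanh
  refine bddLip_sq hC zero_le_one h fun x => ?_
  exact (Real.abs_tanh_lt_one x).le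

theorem LipC_sech2 : LipC fun x => 1 - Real.tanh x ^ 2 := by
  have h := (LipC_const 1).add LipC_tanh2.neg
  simpa [sub_eq_add_neg] using h

theorem LipC_sech4 : LipC fun x => (1 - Real.tanh x ^ 2) ^ 2 := by
  obtain ⟨C, hC, h⟩ := LipC_sech2
  refine bddLip_sq hC zero_le_one h fun x => ?_
  have h1 := tanh_sq_lt x
  have h2 := sq_nonneg (Real.tanh x)
  rw [abs_le]
  constructor <;> linarith

theorem LipC_gf {κ ν q : ℝ} (hν : 0 ≤ ν) (hq : q < 1) : LipC (gf κ ν q) := by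
  have ht := tp_pos hν hq
  refine ⟨4 / tp ν q ^ 3, by positivity, fun x y => ?_⟩
  unfold gf
  rw [← sub_div, abs_div, abs_of_pos (by positivity : 0 < tp ν q ^ 2)]
  have h1 := Md_lipschitz ((κ - x) / tp ν q) ((κ - y) / tp ν q)
  have h2 : (κ - x) / tp ν q - (κ - y) / tp ν q = -((x - y) / tp ν q) := by ring
  rw [h2, abs_neg, abs_div, abs_of_pos ht] at h1
  rw [div_le_iff₀ (by positivity)]
  refine h1.trans (le_of_eq ?_)
  field_simp

theorem LipC_gf2 {κ ν q : ℝ} (hν : 0 ≤ ν) (hq : q < 1) : LipC fun x => gf κ ν q x ^ 2 := by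
  obtain ⟨C, hC, h⟩ := LipC_gf (κ := κ) hν hq
  have ht := tp_pos hν hq
  refine bddLip_sq (B := 1 / tp ν q ^ 2) hC (by positivity) h fun x => ?_
  rw [abs_of_pos (gf_pos hν hq x)]
  exact (gf_lt hν hq x).le

theorem T1x_pl {T1 : List (ℝ → ℝ)} (hT1 : ∀ f ∈ T1, PL f) : ∀ f ∈ T1x T1, PL f := by
  intro f hf
  unfold T1x at hf
  simp only [List.mem_cons] at hf
  rcases hf with rfl | rfl | rfl | hf
  · exact PL_sq
  · exact LipC_sech2.pl
  · exact LipC_sech4.pl
  · exact hT1 f hf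

theorem T2x_pl {κ ν ψ : ℝ} (hν : 0 ≤ ν) {T2 : List (ℝ → ℝ)} (hT2 : ∀ f ∈ T2, PL f) :
    ∀ f ∈ T2x κ ν ψ T2, PL f := by
  intro f hf
  unfold T2x at hf
  simp only [List.mem_cons] at hf
  rcases hf with rfl | rfl | rfl | hf
  · exact PL_sq
  · exact (LipC_gf hν qp_lt_one).pl
  · exact (LipC_gf2 hν qp_lt_one).pl
  · exact hT2 f hf

theorem lln_list (s : ℝ) (T : List (ℝ → ℝ)) (hT : ∀ f ∈ T, PL f) {M : ℕ → ℕ} {a : ℝ}
    (hM : Tendsto (fun N : ℕ => (M N : ℝ) / N) atTop (𝓝 a)) {δ : ℝ} (hδ : 0 < δ) :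
    Tendsto (fun N : ℕ => (Measure.pi fun _ : Fin (M N) =>
      (gaussianReal 0 1).map fun x => s * x).real
      {x | ∃ f ∈ T, δ < |(∑ i, f (x i)) / N - a * GE fun x => f (s * x)|}) atTop (𝓝 0) := by
  have hprob : IsProbabilityMeasure ((gaussianReal 0 1).map fun x => s * x) :=
    Measure.isProbabilityMeasure_map (by fun_prop)
  induction T with
  | nil => simp
  | cons f T ih =>
    have h1 := ih fun g hg => hT g (List.mem_cons_of_mem _ hg)
    have hf := hT f List.mem_cons_self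
    have h2 := lln (pl_memLp hf s) hM hδ
    have hmap : ∫ x, f x ∂((gaussianReal 0 1).map fun x => s * x) = GE fun x => f (s * x) := by
      rw [integral_map (by fun_prop) hf.continuous.aestronglyMeasurable]
      rfl
    rw [hmap] at h2
    have h3 := h2.add h1
    rw [add_zero] at h3
    refine squeeze_zero (fun N => measureReal_nonneg) (fun N => ?_) h3
    refine (measureReal_mono ?_ (measure_ne_top _ _)).trans (measureReal_union_le _ _)
    intro x hx
    obtain ⟨g, hg, hx⟩ := hx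
    rcases List.mem_cons.1 hg with rfl | hg
    · exact Or.inl hx
    · exact Or.inr ⟨g, hg, hx⟩

theorem meas_bad (T : List (ℝ → ℝ)) (hT : ∀ f ∈ T, PL f) (M N : ℕ) (a s δ : ℝ) :
    MeasurableSet {x : Fin M → ℝ | ∃ f ∈ T, δ < |(∑ i, f (x i)) / N -
      a * GE fun x => f (s * x)|} := by
  have h : {x : Fin M → ℝ | ∃ f ∈ T, δ < |(∑ i, f (x i)) / N - a * GE fun x => f (s * x)|} =
      ⋃ f ∈ {f | f ∈ T}, {x : Fin M → ℝ | δ < |(∑ i, f (x i)) / N -
        a * GE fun x => f (s * x)|} := by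
    ext x
    simp
  rw [h]
  refine MeasurableSet.biUnion (List.finite_toSet T).countable fun f hf => ?_
  refine (isOpen_lt continuous_const ?_).measurableSet
  have := (hT f hf).continuous
  fun_prop

/-- the typical set has probability close to one -/
theorem typ_prob {κ ν ψ : ℝ} (hν : 0 < ν) (hψ : 0 < ψ) (T1 T2 : List (ℝ → ℝ))
    (hT1 : ∀ f ∈ T1, PL f) (hT2 : ∀ f ∈ T2, PL f) {s : ℝ} (hs : 0 < s) {e : ℝ} (he : 0 < e) :
    ∀ᶠ N : ℕ in atTop, ∀ (Ω : Type) (_ : MeasurableSpace Ω) (P : Measure Ω)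
      (_ : IsProbabilityMeasure P) (h : Ω → Fin N → ℝ) (hh : Ω → Fin ⌊al κ ν ψ * N⌋₊ → ℝ),
      Measurable h → Measurable hh →
      P.map h = (Measure.pi fun _ => (gaussianReal 0 1).map fun x => Real.sqrt ψ * x) →
      P.map hh = (Measure.pi fun _ => (gaussianReal 0 1).map fun x => Real.sqrt (qp ψ) * x) →
      P.real {ω | (h ω, hh ω) ∉ Yset κ ν ψ (T1x T1) (T2x κ ν ψ T2) s ⌊al κ ν ψ * N⌋₊ N} ≤ e := by
  have hα : 0 < al κ ν ψ := al_pos hν.le hψ
  have hM1 : Tendsto (fun N : ℕ => (N : ℝ) / N) atTop (𝓝 1) := by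
    refine tendsto_const_nhds.congr' ?_
    filter_upwards [eventually_gt_atTop 0] with N hN
    have : (N : ℝ) ≠ 0 := by positivity
    rw [div_self this]
  have hM2 : Tendsto (fun N : ℕ => (⌊al κ ν ψ * N⌋₊ : ℝ) / N) atTop (𝓝 (al κ ν ψ)) :=
    (tendsto_nat_floor_mul_div_atTop hα.le).comp tendsto_natCast_atTop_atTop
  have h1 := lln_list (Real.sqrt ψ) (T1x T1) (T1x_pl hT1) hM1 hs
  have h2 := lln_list (Real.sqrt (qp ψ)) (T2x κ ν ψ T2) (T2x_pl hν.le hT2) hM2 hs
  have h3 := h1.add h2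
  rw [add_zero] at h3
  filter_upwards [h3.eventually_le_const he] with N hN
  intro Ω mΩ P hP h hh hh1 hh2 hl1 hl2
  refine le_trans ?_ hN
  rw [← hl1, ← hl2]
  rw [measureReal_def, measureReal_def, measureReal_def,
    Measure.map_apply hh1 (meas_bad _ (T1x_pl hT1) _ _ _ _ _),
    Measure.map_apply hh2 (meas_bad _ (T2x_pl hν.le hT2) _ _ _ _ _),
    ← measureReal_def, ← measureReal_def, ← measureReal_def]
  refine (measureReal_mono ?_ (measure_ne_top _ _)).trans (measureReal_union_le _ _)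
  intro ω hω
  by_contra hcon
  apply hω
  simp only [Set.mem_union, Set.mem_preimage, Set.mem_setOf_eq, not_or, not_exists, not_and,
    not_lt, one_mul] at hcon
  exact ⟨hcon.1, hcon.2⟩

end Pool.Agent.IP49
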