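import Pool.Agent.IP49.VDefs

/-!
IP49, part U2: determinant inequalities.

`det_le_exp`: `det Z = ∏ z_i ≤ ∏ exp(z_i - 1) = exp(tr Z - n)` for `Z ⪰ 0` (eigenvalues:
`Matrix.IsHermitian.det_eq_prod_eigenvalues`, `Matrix.IsHermitian.trace_eq_sum_eigenvalues`,
`Real.add_one_le_exp`).
`det_le_det_mul_exp`: `X = Bᵀ B` with `B` invertible (`Matrix.posSemidef_iff_eq_conjTranspose_mul_self`,
`det X > 0`); `Z = B^{-T} Y B^{-1} ⪰ 0`, `det Y = det X * det Z`, `tr Z = tr (X⁻¹ Y)`,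
`tr (X⁻¹ (Y - X)) = tr (X⁻¹ Y) - n`.
`det_rank_one`: matrix determinant lemma (`Matrix.det_one_add_mul_comm`,
`Matrix.det_add_replicateCol_mul_replicateRow`).
`det_mono`: from `det_le_det_mul_exp` with `(X, Y) := (Y, X)` and `tr (Y⁻¹ (X - Y)) ≤ 0`
(`tr` of the product of two positive semidefinite matrices is `≥ 0`), or by any other way.
`trace_inv_mul_le`: `X ⪰ c`, `Q ⪰ 0`: `tr (X⁻¹ Q) ≤ tr Q / c`. (`Q = Rᵀ R`, rows `r`:
`tr (X⁻¹ Q) = ∑ r ⬝ X⁻¹ r`, and `r ⬝ X⁻¹ r ≤ |r|²/c`: with `v = X⁻¹ r`,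
`c |v|² ≤ v ⬝ X v = v ⬝ r ≤ |v| |r|`, so `|v| ≤ |r|/c`, `v ⬝ r ≤ |r|²/c`.)
-/

set_option autoImplicit false
open Matrix

namespace Pool.Agent.IP49

variable {n : Type*} [Fintype n] [DecidableEq n]

open scoped MatrixOrder in
private theorem fact_psd {A : Matrix n n ℝ} (hA : A.PosSemidef) :
    ∃ B : Matrix n n ℝ, A = Bᵀ * B := by
  obtain ⟨B, hB⟩ := CStarAlgebra.nonneg_iff_eq_star_mul_self.mp hA.nonneg
  refine ⟨B, ?_⟩
  rw [hB, star_eq_conjTranspose, conjTranspose_eq_transpose_of_trivial]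

theorem det_le_exp {Z : Matrix n n ℝ} (hZ : Z.PosSemidef) :
    Z.det ≤ Real.exp (Z.trace - Fintype.card n) := by
  have h1 : Z.det = ∏ i, hZ.isHermitian.eigenvalues i := by
    simpa using hZ.isHermitian.det_eq_prod_eigenvalues
  have h2 : Z.trace = ∑ i, hZ.isHermitian.eigenvalues i := by
    simpa using hZ.isHermitian.trace_eq_sum_eigenvalues
  have h3 : Z.trace - Fintype.card n = ∑ i, (hZ.isHermitian.eigenvalues i - 1) := by
    rw [h2, Finset.sum_sub_distrib]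
    simp
  rw [h1, h3, Real.exp_sum]
  refine Finset.prod_le_prod (fun i _ => hZ.eigenvalues_nonneg i) fun i _ => ?_
  have := Real.add_one_le_exp (hZ.isHermitian.eigenvalues i - 1)
  linarith

theorem det_le_det_mul_exp {X Y : Matrix n n ℝ} (hX : X.PosDef) (hY : Y.PosSemidef) :
    Y.det ≤ X.det * Real.exp ((X⁻¹ * (Y - X)).trace) := by
  obtain ⟨B, hB⟩ := fact_psd hX.posSemidef
  have hdX : 0 < X.det := hX.det_pos
  have hdB : X.det = B.det * B.det := by rw [hB, det_mul, det_transpose]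
  have hB0 : B.det ≠ 0 := by
    intro h0
    rw [hdB, h0] at hdX
    simp at hdX
  have hBu : IsUnit B.det := isUnit_iff_ne_zero.mpr hB0
  have hXu : IsUnit X.det := isUnit_iff_ne_zero.mpr hdX.ne'
  have hZ : ((B⁻¹)ᵀ * Y * B⁻¹).PosSemidef := by
    have := hY.conjTranspose_mul_mul_same (B⁻¹)
    rwa [conjTranspose_eq_transpose_of_trivial] at this
  have hXinv : X⁻¹ = B⁻¹ * (B⁻¹)ᵀ := by
    rw [hB, Matrix.mul_inv_rev, transpose_nonsing_inv]
  have hdet : Y.det = X.det * ((B⁻¹)ᵀ * Y * B⁻¹).det := by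
    rw [det_mul, det_mul, det_transpose, hdB]
    have h1 : B.det * (B⁻¹).det = 1 := by
      rw [← det_mul, mul_nonsing_inv B hBu, det_one]
    calc Y.det = (B.det * (B⁻¹).det) * (B.det * (B⁻¹).det) * Y.det := by rw [h1]; ring
      _ = B.det * B.det * ((B⁻¹).det * Y.det * (B⁻¹).det) := by ring
  have htr : ((X⁻¹ * (Y - X)).trace) = ((B⁻¹)ᵀ * Y * B⁻¹).trace - Fintype.card n := by
    rw [Matrix.mul_sub, trace_sub, nonsing_inv_mul X hXu, trace_one, hXinv]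
    congr 1
    rw [Matrix.mul_assoc B⁻¹, trace_mul_comm]
  rw [htr]
  conv_lhs => rw [hdet]
  exact mul_le_mul_of_nonneg_left (det_le_exp hZ) hdX.le

theorem det_rank_one {X : Matrix n n ℝ} (hX : IsUnit X.det) (w : ℝ) (s : n → ℝ) :
    (X + w • vecMulVec s s).det = X.det * (1 + w * (s ⬝ᵥ X⁻¹ *ᵥ s)) := by
  have h1 : w • vecMulVec s s = replicateCol Unit (w • s) * replicateRow Unit s := by
    ext i j
    simp [vecMulVec_apply, Matrix.mul_apply, mul_assoc]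
  rw [h1, det_add_mul _ _ hX]
  congr 1
  rw [det_unique, Matrix.add_apply, Matrix.one_apply_eq, Matrix.mul_assoc]
  congr 1
  have h2 : X⁻¹ * replicateCol Unit (w • s) = replicateCol Unit (X⁻¹ *ᵥ (w • s)) := by
    rw [replicateCol_mulVec]
  rw [h2, replicateRow_mul_replicateCol_apply, mulVec_smul, dotProduct_smul, smul_eq_mul]

theorem trace_mul_nonneg {P Q : Matrix n n ℝ} (hP : P.PosSemidef) (hQ : Q.PosSemidef) :
    0 ≤ (P * Q).trace := by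
  obtain ⟨B, hB⟩ := fact_psd hP
  have h1 : (P * Q).trace = (B * Q * Bᵀ).trace := by
    rw [hB, Matrix.mul_assoc, trace_mul_comm]
  rw [h1]
  have := (hQ.mul_mul_conjTranspose_same B).trace_nonneg
  rwa [conjTranspose_eq_transpose_of_trivial] at this

theorem det_mono {X Y : Matrix n n ℝ} (hX : X.PosDef) (hXY : (Y - X).PosSemidef) :
    X.det ≤ Y.det := by
  have hY : Y.PosDef := by
    have := hX.add_posSemidef hXY
    rwa [add_sub_cancel] at this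
  have h1 := det_le_det_mul_exp hY hX.posSemidef
  have h2 : (Y⁻¹ * (X - Y)).trace ≤ 0 := by
    have h3 := trace_mul_nonneg hY.inv.posSemidef hXY
    have h4 : (Y⁻¹ * (X - Y)).trace = -(Y⁻¹ * (Y - X)).trace := by
      rw [← neg_sub Y X, Matrix.mul_neg, trace_neg]
    rw [h4]
    linarith
  have h5 : Real.exp ((Y⁻¹ * (X - Y)).trace) ≤ 1 := Real.exp_le_one_iff.mpr h2
  calc X.det ≤ Y.det * Real.exp ((Y⁻¹ * (X - Y)).trace) := h1
    _ ≤ Y.det * 1 := mul_le_mul_of_nonneg_left h5 hY.det_pos.le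
    _ = Y.det := mul_one _

/-- `X ⪰ c > 0` for a symmetric matrix -/
theorem posDef_of_le {X : Matrix n n ℝ} (hX : Xᵀ = X) {c : ℝ} (hc : 0 < c)
    (h : ∀ u : n → ℝ, c * nsq u ≤ u ⬝ᵥ X *ᵥ u) : X.PosDef := by
  refine PosDef.of_dotProduct_mulVec_pos ?_ fun u hu => ?_
  · rw [IsHermitian, conjTranspose_eq_transpose_of_trivial, hX]
  · have h1 : 0 < nsq u := by
      obtain ⟨i, hi⟩ := Function.ne_iff.mp hu
      have hi' : u i ≠ 0 := by simpa using hi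
      exact lt_of_lt_of_le (by positivity : (0:ℝ) < u i ^ 2)
        (Finset.single_le_sum (f := fun i => u i ^ 2) (fun j _ => sq_nonneg _) (Finset.mem_univ i))
    have h2 := h u
    simp only [star_trivial]
    exact lt_of_lt_of_le (mul_pos hc h1) h2

theorem inv_quad_le {X : Matrix n n ℝ} (hX : Xᵀ = X) {c : ℝ} (hc : 0 < c)
    (h : ∀ u : n → ℝ, c * nsq u ≤ u ⬝ᵥ X *ᵥ u) (r : n → ℝ) :
    nsq (X⁻¹ *ᵥ r) ≤ nsq r / c ^ 2 ∧ 0 ≤ r ⬝ᵥ X⁻¹ *ᵥ r ∧ r ⬝ᵥ X⁻¹ *ᵥ r ≤ nsq r / c := by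
  have hP := posDef_of_le hX hc h
  have hu : IsUnit X.det := isUnit_iff_ne_zero.mpr hP.det_pos.ne'
  have hXv : X *ᵥ (X⁻¹ *ᵥ r) = r := by
    rw [mulVec_mulVec, mul_nonsing_inv X hu, one_mulVec]
  have h1 := h (X⁻¹ *ᵥ r)
  rw [hXv] at h1
  generalize X⁻¹ *ᵥ r = v at h1 ⊢
  have hnv : 0 ≤ nsq v := Finset.sum_nonneg fun i _ => sq_nonneg _
  have hnr : 0 ≤ nsq r := Finset.sum_nonneg fun i _ => sq_nonneg _
  have hcs : (v ⬝ᵥ r) ^ 2 ≤ nsq v * nsq r := by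
    have := Finset.sum_mul_sq_le_sq_mul_sq Finset.univ v r
    simpa [dotProduct, nsq] using this
  have hcom : r ⬝ᵥ v = v ⬝ᵥ r := dotProduct_comm r v
  rw [hcom]
  have h0 : 0 ≤ v ⬝ᵥ r := le_trans (mul_nonneg hc.le hnv) h1
  have h2 : (c * nsq v) ^ 2 ≤ (v ⬝ᵥ r) ^ 2 :=
    pow_le_pow_left₀ (mul_nonneg hc.le hnv) h1 2
  have h3 : c ^ 2 * nsq v ≤ nsq r := by
    rcases eq_or_lt_of_le hnv with h4 | h4
    · rw [← h4, mul_zero]; exact hnr
    · have h5 : nsq v * (c ^ 2 * nsq v) ≤ nsq v * nsq r := by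
        calc nsq v * (c ^ 2 * nsq v) = (c * nsq v) ^ 2 := by ring
          _ ≤ (v ⬝ᵥ r) ^ 2 := h2
          _ ≤ nsq v * nsq r := hcs
      exact le_of_mul_le_mul_left h5 h4
  refine ⟨?_, h0, ?_⟩
  · rw [le_div_iff₀ (by positivity)]
    linarith
  · rw [le_div_iff₀ hc]
    have h6 : (v ⬝ᵥ r * c) ^ 2 ≤ nsq r ^ 2 := by
      calc (v ⬝ᵥ r * c) ^ 2 = c ^ 2 * (v ⬝ᵥ r) ^ 2 := by ring
        _ ≤ c ^ 2 * (nsq v * nsq r) := mul_le_mul_of_nonneg_left hcs (by positivity)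
        _ = (c ^ 2 * nsq v) * nsq r := by ring
        _ ≤ nsq r * nsq r := mul_le_mul_of_nonneg_right h3 hnr
        _ = nsq r ^ 2 := by ring
    exact (sq_le_sq₀ (mul_nonneg h0 hc.le) hnr).mp h6

theorem trace_inv_mul_le {X Q : Matrix n n ℝ} (hX : Xᵀ = X) {c : ℝ} (hc : 0 < c)
    (h : ∀ u : n → ℝ, c * nsq u ≤ u ⬝ᵥ X *ᵥ u) (hQ : Q.PosSemidef) :
    (X⁻¹ * Q).trace ≤ Q.trace / c := by
  obtain ⟨B, hB⟩ := fact_psd hQ
  have h1 : (X⁻¹ * Q).trace = ∑ i, (B i) ⬝ᵥ X⁻¹ *ᵥ (B i) := by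
    rw [hB, ← Matrix.mul_assoc, trace_mul_comm]
    refine Finset.sum_congr rfl fun i _ => ?_
    rw [diag_apply, ← Matrix.mul_assoc, Matrix.mul_assoc B X⁻¹ Bᵀ]
    simp only [Matrix.mul_apply, dotProduct, mulVec, transpose_apply]
  have h2 : Q.trace = ∑ i, nsq (B i) := by
    rw [hB, trace_mul_comm]
    refine Finset.sum_congr rfl fun i _ => ?_
    rw [diag_apply, Matrix.mul_apply]
    refine Finset.sum_congr rfl fun j _ => ?_
    rw [transpose_apply, sq]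
  rw [h1, h2, Finset.sum_div]
  exact Finset.sum_le_sum fun i _ => (inv_quad_le hX hc h (B i)).2.2

end Pool.Agent.IP49
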