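import Mathlib

/-!
IP49, U2d: weak law for weighted sums of squares of independent standard Gaussians (helper55).
-/

set_option autoImplicit false
open MeasureTheory ProbabilityTheory Filter Topology

namespace Pool.Agent.IP49

/-- the variance of `Z²` -/
noncomputable def vz2 : ℝ := Var[fun x : ℝ => x ^ 2; gaussianReal 0 1]

lemma vz2_nonneg : 0 ≤ vz2 := variance_nonneg _ _

lemma vl_memLp_sq : MemLp (fun x : ℝ => x ^ 2) 2 (gaussianReal 0 1) := by
  have h := memLp_id_gaussianReal (μ := 0) (v := 1) 4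
  have h2 : MemLp (fun x : ℝ => x ^ 2) 2 (gaussianReal 0 1) := by
    rw [memLp_two_iff_integrable_sq (by fun_prop)]
    have h3 := h.integrable_norm_pow (by norm_num)
    refine h3.congr (Eventually.of_forall fun x => ?_)
    simp only [id, Real.norm_eq_abs]
    have : ((4 : NNReal) : ENNReal).toReal = 4 := by norm_num
    rw [← pow_mul]
    norm_num
    exact (Even.pow_abs (by decide) x)
  exact h2

lemma vl_int_sq : ∫ x : ℝ, x ^ 2 ∂(gaussianReal 0 1) = 1 := by
  have h := variance_id_gaussianReal (μ := 0) (v := 1)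
  have hm : MemLp (id : ℝ → ℝ) 2 (gaussianReal 0 1) := memLp_id_gaussianReal 2
  rw [variance_eq_sub hm] at h
  have h0 : ∫ x : ℝ, id x ∂(gaussianReal 0 1) = 0 := integral_id_gaussianReal
  rw [h0] at h
  simpa using h

/-- weak law of large numbers for `∑ c_i (x_i² - 1)` -/
theorem wlln {ι : Type*} [Fintype ι] (c : ι → ℝ) {C t : ℝ} (hC : ∀ i, |c i| ≤ C) (ht : 0 < t) :
    (Measure.pi fun _ : ι => gaussianReal 0 1).real {x | t ≤ |∑ i, c i * (x i ^ 2 - 1)|}
      ≤ vz2 * Fintype.card ι * C ^ 2 / t ^ 2 := by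
  set μ := (Measure.pi fun _ : ι => gaussianReal 0 1) with hμ
  have hmem : ∀ i, MemLp (fun x : ℝ => c i * (x ^ 2 - 1)) 2 (gaussianReal 0 1) := by
    intro i
    exact (vl_memLp_sq.sub (memLp_const 1)).const_mul (c i)
  have hmem' : ∀ i, MemLp (fun x : ι → ℝ => c i * (x i ^ 2 - 1)) 2 μ := by
    intro i
    exact (hmem i).comp_measurePreserving (measurePreserving_eval (fun _ : ι => gaussianReal 0 1) i)
  have hmemS : MemLp (fun x : ι → ℝ => ∑ i, c i * (x i ^ 2 - 1)) 2 μ :=
    memLp_finsetSum _ fun i _ => hmem' i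
  have hmean : ∫ x, (∑ i, c i * (x i ^ 2 - 1)) ∂μ = 0 := by
    rw [integral_finsetSum _ fun i _ => (hmem' i).integrable (by norm_num)]
    apply Finset.sum_eq_zero
    intro i _
    have : ∫ x : ι → ℝ, c i * (x i ^ 2 - 1) ∂μ = ∫ x : ℝ, c i * (x ^ 2 - 1) ∂(gaussianReal 0 1) :=
      integral_comp_eval (μ := fun _ : ι => gaussianReal 0 1) (i := i)
        (f := fun x : ℝ => c i * (x ^ 2 - 1)) (hmem i).1
    rw [this, integral_const_mul, integral_sub (vl_memLp_sq.integrable (by norm_num)) (integrable_const _),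
      vl_int_sq]
    simp
  have hvar : Var[fun x : ι → ℝ => ∑ i, c i * (x i ^ 2 - 1); μ] = ∑ i, c i ^ 2 * vz2 := by
    have h := variance_sum_pi (μ := fun _ : ι => gaussianReal 0 1)
      (X := fun i => fun x : ℝ => c i * (x ^ 2 - 1)) hmem
    have e : (∑ i, fun ω : ι → ℝ => c i * (ω i ^ 2 - 1))
        = fun x : ι → ℝ => ∑ i, c i * (x i ^ 2 - 1) := by
      funext x; simp
    rw [e] at h
    rw [h]
    refine Finset.sum_congr rfl fun i _ => ?_
    rw [variance_const_mul, variance_sub_const (by fun_prop)]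
    rfl
  have hcheb := meas_ge_le_variance_div_sq hmemS ht
  rw [hmean, hvar] at hcheb
  simp only [sub_zero] at hcheb
  have h1 : μ.real {x | t ≤ |∑ i, c i * (x i ^ 2 - 1)|} ≤ (∑ i, c i ^ 2 * vz2) / t ^ 2 := by
    rw [measureReal_def]
    apply ENNReal.toReal_le_of_le_ofReal _ hcheb
    apply div_nonneg (Finset.sum_nonneg fun i _ => mul_nonneg (sq_nonneg _) vz2_nonneg) (sq_nonneg _)
  refine h1.trans ?_
  apply div_le_div_of_nonneg_right _ (sq_nonneg _)
  calc ∑ i, c i ^ 2 * vz2 ≤ ∑ _i : ι, C ^ 2 * vz2 := by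
        refine Finset.sum_le_sum fun i _ => mul_le_mul_of_nonneg_right ?_ vz2_nonneg
        rw [← sq_abs]
        exact pow_le_pow_left₀ (abs_nonneg _) (hC i) 2
    _ = vz2 * Fintype.card ι * C ^ 2 := by
        simp; ring

end Pool.Agent.IP49
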