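import Pool.Agent.IP49.VPath
import Pool.Agent.IP49.VWlln
import Pool.Agent.IP49.Gor6

/-!
IP49, U2d (helper55): positivity of the path matrices `X_k` (note 1615), one fixed `k`.

Result: `vg_fixed`, `P(∃ u, qk u < s |u|²) ≤ 6 K / N` for typical arrays.
-/

set_option autoImplicit false
open MeasureTheory ProbabilityTheory Filter Topology

namespace Pool.Agent.IP49

/-- the part of the comparison functional that does not depend on the Gaussians -/
noncomputable def vpsi {M N : ℕ} (b c : ℝ) (S : Fin N → ℝ) (g : Fin M → ℝ)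
    (v : Fin N → ℝ) (P : Fin M → ℝ) : ℝ :=
  (∑ i, (1 / S i + c) * v i ^ 2) - (N : ℝ) / 4 * ∑ a, P a ^ 2 * ((1 - b * g a) / g a)

/-- index set of the minimum -/
def VU {N : ℕ} (S : Fin N → ℝ) : Set (Fin N → ℝ) := {v | ∑ i, v i ^ 2 / S i = 1}

/-- index set of the maximum -/
def VP (M k : ℕ) (K : ℝ) : Set (Fin M → ℝ) :=
  {P | (∀ a : Fin M, k ≤ (a : ℕ) → P a = 0) ∧ ∑ a, P a ^ 2 ≤ K}

lemma vg_bounded {n : ℕ} {s : Set (Fin n → ℝ)} {C : ℝ} (h : ∀ x ∈ s, ∀ i, |x i| ≤ C) :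
    Bornology.IsBounded s := by
  rw [isBounded_iff_forall_norm_le]
  refine ⟨max C 0, fun x hx => ?_⟩
  rw [pi_norm_le_iff_of_nonneg (le_max_right _ _)]
  intro i
  exact (h x hx i).trans (le_max_left _ _)

lemma vg_compact_U {N : ℕ} {S : Fin N → ℝ} (hS : ∀ i, 0 < S i ∧ S i ≤ 1) : IsCompact (VU S) := by
  apply Metric.isCompact_of_isClosed_isBounded
  · exact isClosed_eq (by fun_prop) continuous_const
  · apply vg_bounded (C := 1)
    intro v hv i
    have h1 : v i ^ 2 / S i ≤ 1 := by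
      rw [← (show ∑ i, v i ^ 2 / S i = 1 from hv)]
      exact Finset.single_le_sum (f := fun i => v i ^ 2 / S i)
        (fun j _ => div_nonneg (sq_nonneg _) (hS j).1.le) (Finset.mem_univ i)
    rw [div_le_one (hS i).1] at h1
    have : v i ^ 2 ≤ 1 := h1.trans (hS i).2
    exact abs_le_one_iff_mul_self_le_one.2 (by nlinarith)

lemma vg_compact_P (M k : ℕ) (K : ℝ) : IsCompact (VP M k K) := by
  apply Metric.isCompact_of_isClosed_isBounded
  · have : VP M k K = (⋂ a : Fin M, ⋂ _ : k ≤ (a : ℕ), {P : Fin M → ℝ | P a = 0})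
        ∩ {P | ∑ a, P a ^ 2 ≤ K} := by
      ext P
      simp [VP]
    rw [this]
    refine IsClosed.inter ?_ (isClosed_le (by fun_prop) continuous_const)
    exact isClosed_iInter fun a => isClosed_iInter fun _ =>
      isClosed_eq (by fun_prop) continuous_const
  · apply vg_bounded (C := Real.sqrt K)
    intro P hP a
    have h1 : P a ^ 2 ≤ K := by
      refine le_trans ?_ hP.2
      exact Finset.single_le_sum (f := fun a => P a ^ 2) (fun j _ => sq_nonneg _)
        (Finset.mem_univ a)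
    exact Real.abs_le_sqrt h1

/-- Gordon comparison for the two index sets -/
theorem vg_cgmt {M N : ℕ} (b c s K : ℝ) (k : ℕ) (S : Fin N → ℝ) (g : Fin M → ℝ)
    (hS : ∀ i, 0 < S i ∧ S i ≤ 1) :
    (stdG (Fin M × Fin N)).real
        {G | ∃ v ∈ VU S, ∀ P ∈ VP M k K, ∑ a, ∑ i, P a * v i * G (a, i) < s - vpsi b c S g v P}
      ≤ 2 * (stdG (Fin M ⊕ Fin N)).real
        {w | ∃ v ∈ VU S, ∀ P ∈ VP M k K, nrm v * ∑ a, P a * w (Sum.inl a)
          + nrm P * ∑ i, v i * w (Sum.inr i) < s - vpsi b c S g v P} := by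
  have i1 : CompactSpace (VU S) := isCompact_iff_compactSpace.1 (vg_compact_U hS)
  have i2 : CompactSpace (VP M k K) := isCompact_iff_compactSpace.1 (vg_compact_P M k K)
  have h := cgmt (α := VU S) (β := VP M k K) (m := Fin M) (n := Fin N)
    (fun v => v.1) (fun P => P.1) (fun v P => s - vpsi b c S g v.1 P.1)
    continuous_subtype_val continuous_subtype_val (by
      have hc : Continuous fun p : (Fin N → ℝ) × (Fin M → ℝ) => s - vpsi b c S g p.1 p.2 := by
        unfold vpsi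
        fun_prop
      have hi : Continuous fun p : VU S × VP M k K => ((p.1.1, p.2.1) : (Fin N → ℝ) × (Fin M → ℝ)) :=
        (continuous_subtype_val.comp continuous_fst).prodMk
          (continuous_subtype_val.comp continuous_snd)
      exact hc.comp hi)
  simp only [Subtype.exists, Subtype.forall, exists_prop] at h
  exact h

/-- the dual variable used in the comparison process -/
noncomputable def vP {M N : ℕ} (k : ℕ) (g : Fin M → ℝ) (x : Fin M → ℝ) (v : Fin N → ℝ) :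
    Fin M → ℝ :=
  fun a => if (a : ℕ) < k then 2 * nrm v * x a * g a / N else 0

lemma vg_nrm_sq' {n : ℕ} (x : Fin n → ℝ) : nrm x ^ 2 = ∑ i, x i ^ 2 := by
  rw [sq, nrm_sq]
  exact Finset.sum_congr rfl fun i _ => (sq (x i)).symm

/-- scalar core of the comparison bound -/
lemma vg_core {s L b Q n2 A2 B R1 B1 e1 hv rt : ℝ} (hs : 0 < s) (hs1 : s < 1)
    (hb : 0 < b) (hQ : 0 ≤ Q) (hn2 : 0 ≤ n2) (hA2 : 0 ≤ A2) (hB : 0 ≤ B)
    (hA2R : A2 ≤ R1) (hBB : B ≤ B1) (hbB : b ≤ B1)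
    (hkey : R1 * (B1 / (1 - s) - b) + e1 ≤ (1 - s) * L)
    (hrt : rt ^ 2 = n2 * A2) (hhv : hv ^ 2 ≤ Q * B) :
    s * (Q + L * n2) ≤ Q + L * n2 + (b * A2 - e1) * n2 + 2 * (rt * hv) := by
  have h1s : 0 < 1 - s := by linarith
  have hc : 0 ≤ B1 / (1 - s) - b := by
    rw [sub_nonneg, le_div_iff₀ h1s]
    nlinarith
  have h1 : A2 * (B1 / (1 - s) - b) + e1 ≤ (1 - s) * L := by
    have := mul_le_mul_of_nonneg_right hA2R hc
    linarith
  have h2 : -((1 - s) * Q + n2 * A2 * B1 / (1 - s)) ≤ 2 * (rt * hv) := by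
    have h3 : (rt * hv) ^ 2 ≤ ((1 - s) * Q) * (n2 * A2 * B1 / (1 - s)) := by
      have e : ((1 - s) * Q) * (n2 * A2 * B1 / (1 - s)) = (n2 * A2) * (Q * B1) := by
        field_simp
      rw [e, mul_pow, hrt]
      exact mul_le_mul_of_nonneg_left (hhv.trans (mul_le_mul_of_nonneg_left hBB hQ))
        (mul_nonneg hn2 hA2)
    have h4 : 0 ≤ (1 - s) * Q := mul_nonneg h1s.le hQ
    have h5 : 0 ≤ n2 * A2 * B1 / (1 - s) := by
      have : 0 ≤ B1 := hB.trans hBB
      positivity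
    have h6 : (2 * (rt * hv)) ^ 2 ≤ ((1 - s) * Q + n2 * A2 * B1 / (1 - s)) ^ 2 := by
      nlinarith [sq_nonneg ((1 - s) * Q - n2 * A2 * B1 / (1 - s))]
    exact (abs_le_of_sq_le_sq' h6 (by linarith)).1
  have h7 : n2 * (A2 * (B1 / (1 - s) - b) + e1) ≤ n2 * ((1 - s) * L) :=
    mul_le_mul_of_nonneg_left h1 hn2
  have e2 : n2 * (A2 * (B1 / (1 - s) - b) + e1) = n2 * A2 * B1 / (1 - s) - b * A2 * n2 + e1 * n2 := by
    ring
  rw [e2] at h7
  nlinarith

lemma vg_n2 {N : ℕ} {S : Fin N → ℝ} (hS : ∀ i, 0 < S i ∧ S i ≤ 1) {v : Fin N → ℝ}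
    (hv : v ∈ VU S) : ∑ i, v i ^ 2 ≤ 1 := by
  have h1 : ∑ i, v i ^ 2 / S i = 1 := hv
  refine le_trans (Finset.sum_le_sum fun i _ => ?_) h1.le
  rw [le_div_iff₀ (hS i).1]
  nlinarith [sq_nonneg (v i), (hS i).2]

/-- `∑ P²` for the dual variable -/
lemma vg_sumP {M N : ℕ} (k : ℕ) (g x : Fin M → ℝ) (v : Fin N → ℝ) :
    ∑ a, vP k g x v a ^ 2
      = 4 * (∑ i, v i ^ 2) * ((∑ a : Fin M, if (a : ℕ) < k then g a ^ 2 * x a ^ 2 else 0) / N) / N := by
  have h0 := vg_nrm_sq' v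
  rw [← h0, Finset.sum_div, Finset.mul_sum, Finset.sum_div]
  refine Finset.sum_congr rfl fun a _ => ?_
  unfold vP
  split_ifs
  · ring
  · simp

lemma vg_mem {M N : ℕ} (hN : 0 < N) {k : ℕ} {S : Fin N → ℝ} (hS : ∀ i, 0 < S i ∧ S i ≤ 1)
    {g x : Fin M → ℝ} {v : Fin N → ℝ} (hv : v ∈ VU S) {R1 : ℝ}
    (hT2 : (∑ a : Fin M, if (a : ℕ) < k then g a ^ 2 * x a ^ 2 else 0) / N ≤ R1) :
    vP k g x v ∈ VP M k (4 * R1 / N) := by
  have hN' : (0 : ℝ) < N := by exact_mod_cast hN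
  refine ⟨fun a ha => ?_, ?_⟩
  · unfold vP
    rw [if_neg (by omega)]
  · rw [vg_sumP]
    apply div_le_div_of_nonneg_right _ hN'.le
    have h0 : 0 ≤ (∑ a : Fin M, if (a : ℕ) < k then g a ^ 2 * x a ^ 2 else 0) / N := by
      apply div_nonneg (Finset.sum_nonneg fun a _ => ?_) hN'.le
      split_ifs <;> positivity
    have h1 := vg_n2 hS hv
    have h2 : 0 ≤ ∑ i, v i ^ 2 := Finset.sum_nonneg fun i _ => sq_nonneg _
    calc 4 * (∑ i, v i ^ 2) * ((∑ a : Fin M, if (a : ℕ) < k then g a ^ 2 * x a ^ 2 else 0) / N)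
        ≤ 4 * 1 * ((∑ a : Fin M, if (a : ℕ) < k then g a ^ 2 * x a ^ 2 else 0) / N) := by
          apply mul_le_mul_of_nonneg_right _ h0
          linarith
      _ ≤ 4 * R1 := by linarith

/-- deterministic lower bound of the comparison process -/
lemma vg_det {M N : ℕ} (hN : 0 < N) {k : ℕ} {S : Fin N → ℝ} (hS : ∀ i, 0 < S i ∧ S i ≤ 1)
    {g x : Fin M → ℝ} {h : Fin N → ℝ} {v : Fin N → ℝ} (hv : v ∈ VU S)
    (hg : ∀ a, 0 < g a) {s L b c R1 B1 e1 : ℝ} (hs : 0 < s) (hs1 : s < 1)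
    (hL : 0 < L) (hL1 : L < 1) (hb : 0 < b) (hbB : b ≤ B1)
    (hkey : R1 * (B1 / (1 - s) - b) + e1 ≤ (1 - s) * L)
    (hT1 : -e1 ≤ c + (∑ a : Fin M, if (a : ℕ) < k then g a * x a ^ 2 else 0) / N)
    (hT2 : (∑ a : Fin M, if (a : ℕ) < k then g a ^ 2 * x a ^ 2 else 0) / N ≤ R1)
    (hT3 : (∑ i, S i / (1 - L * S i) * h i ^ 2) / N ≤ B1) :
    s - vpsi b c S g v (vP k g x v)
      ≤ nrm v * ∑ a, vP k g x v a * x a + nrm (vP k g x v) * ∑ i, v i * h i := by
  have hN' : (0 : ℝ) < N := by exact_mod_cast hN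
  have hLS : ∀ i, 0 < 1 - L * S i := fun i => by nlinarith [(hS i).1, (hS i).2]
  set A1 : ℝ := (∑ a : Fin M, if (a : ℕ) < k then g a * x a ^ 2 else 0) / N with hA1
  set A2 : ℝ := (∑ a : Fin M, if (a : ℕ) < k then g a ^ 2 * x a ^ 2 else 0) / N with hA2
  set B : ℝ := (∑ i, S i / (1 - L * S i) * h i ^ 2) / N with hB
  set n2 : ℝ := ∑ i, v i ^ 2 with hn2
  have hn20 : 0 ≤ n2 := Finset.sum_nonneg fun i _ => sq_nonneg _
  have hA20 : 0 ≤ A2 := by
    apply div_nonneg (Finset.sum_nonneg fun a _ => ?_) hN'.le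
    split_ifs <;> positivity
  have hB0 : 0 ≤ B := by
    apply div_nonneg (Finset.sum_nonneg fun i _ => ?_) hN'.le
    exact mul_nonneg (div_nonneg (hS i).1.le (hLS i).le) (sq_nonneg _)
  have e1' : ∑ a, vP k g x v a * x a = 2 * nrm v * A1 := by
    rw [hA1, Finset.sum_div, Finset.mul_sum]
    refine Finset.sum_congr rfl fun a _ => ?_
    unfold vP
    split_ifs
    · ring
    · simp
  have e2' : (N : ℝ) / 4 * ∑ a, vP k g x v a ^ 2 * ((1 - b * g a) / g a) = n2 * (A1 - b * A2) := by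
    rw [hA1, hA2, hn2, ← vg_nrm_sq', Finset.sum_div, Finset.sum_div, Finset.mul_sum, Finset.mul_sum,
      ← Finset.sum_sub_distrib, Finset.mul_sum]
    refine Finset.sum_congr rfl fun a _ => ?_
    unfold vP
    have := (hg a).ne'
    split_ifs
    · field_simp
      ring
    · simp
  have e3' : nrm v ^ 2 = n2 := vg_nrm_sq' v
  have e4 : nrm (vP k g x v) ^ 2 = 4 * n2 * A2 / N := by
    rw [vg_nrm_sq', vg_sumP]
  have hQ' : ∑ i, (1 / S i - L) * v i ^ 2 = 1 - L * n2 := by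
    have h1 : ∑ i, v i ^ 2 / S i = 1 := hv
    have h2 : ∑ i, (1 / S i - L) * v i ^ 2 = (∑ i, v i ^ 2 / S i) - L * ∑ i, v i ^ 2 := by
      rw [Finset.mul_sum, ← Finset.sum_sub_distrib]
      exact Finset.sum_congr rfl fun i _ => by ring
    rw [h2, h1]
  have hQ0 : 0 ≤ 1 - L * n2 := by
    rw [← hQ']
    refine Finset.sum_nonneg fun i _ => mul_nonneg ?_ (sq_nonneg _)
    rw [sub_nonneg, le_div_iff₀ (hS i).1]
    nlinarith [hLS i]
  have hcs : (∑ i, v i * h i) ^ 2 ≤ (1 - L * n2) * (∑ i, S i / (1 - L * S i) * h i ^ 2) := by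
    rw [← hQ']
    refine Finset.sum_sq_le_sum_mul_sum_of_sq_le_mul _ (fun i _ => ?_) (fun i _ => ?_) (fun i _ => ?_)
    · apply mul_nonneg _ (sq_nonneg _)
      rw [sub_nonneg, le_div_iff₀ (hS i).1]
      nlinarith [hLS i]
    · exact mul_nonneg (div_nonneg (hS i).1.le (hLS i).le) (sq_nonneg _)
    · have h1 := (hS i).1.ne'
      have h2 := (hLS i).ne'
      apply le_of_eq
      have e : (1 / S i - L) * v i ^ 2 * (S i / (1 - L * S i) * h i ^ 2)
          = ((1 / S i - L) * S i / (1 - L * S i)) * (v i * h i) ^ 2 := by ring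
      have e' : (1 / S i - L) * S i = 1 - L * S i := by field_simp
      rw [e, e', div_self h2, one_mul]
  set rN : ℝ := Real.sqrt N with hrN
  have hrN0 : 0 < rN := Real.sqrt_pos.2 hN'
  have hrN2 : rN ^ 2 = N := Real.sq_sqrt hN'.le
  have hcore := vg_core (s := s) (L := L) (b := b) (Q := 1 - L * n2) (n2 := n2) (A2 := A2) (B := B)
    (R1 := R1) (B1 := B1) (e1 := e1) (hv := (∑ i, v i * h i) / rN)
    (rt := nrm (vP k g x v) * rN / 2) hs hs1 hb hQ0 hn20 hA20 hB0 hT2 hT3 hbB hkey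
    (by rw [div_pow, mul_pow, e4, hrN2]; field_simp; ring)
    (by
      rw [div_pow, hrN2, hB, div_le_iff₀ hN']
      calc (∑ i, v i * h i) ^ 2 ≤ _ := hcs
        _ = _ := by field_simp)
  have e5 : 2 * (nrm (vP k g x v) * rN / 2 * ((∑ i, v i * h i) / rN))
      = nrm (vP k g x v) * ∑ i, v i * h i := by
    field_simp
  rw [e5] at hcore
  have e6 : vpsi b c S g v (vP k g x v) = 1 + c * n2 - n2 * (A1 - b * A2) := by
    unfold vpsi
    have h1 : ∑ i, v i ^ 2 / S i = 1 := hv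
    have h2 : ∑ i, (1 / S i + c) * v i ^ 2 = (∑ i, v i ^ 2 / S i) + c * ∑ i, v i ^ 2 := by
      rw [Finset.mul_sum, ← Finset.sum_add_distrib]
      exact Finset.sum_congr rfl fun i _ => by ring
    rw [e2', h2, h1]
  rw [e6, e1']
  have e7 : nrm v * (2 * nrm v * A1) = 2 * n2 * A1 := by rw [← e3']; ring
  rw [e7]
  have h8 : -e1 * n2 ≤ (c + A1) * n2 := mul_le_mul_of_nonneg_right hT1 hn20
  nlinarith

lemma vg_amgm {g w n : ℝ} (hg : 0 < g) (hw : 0 < w) (hn : 0 < n) (z P : ℝ) :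
    P * z - n / 4 * (P ^ 2 * (w / g)) ≤ g / w * z ^ 2 / n := by
  have e : g / w * z ^ 2 / n - (P * z - n / 4 * (P ^ 2 * (w / g)))
      = g / w / n * (z - n / 2 * P * (w / g)) ^ 2 := by
    field_simp
    ring
  have h7 : 0 ≤ g / w / n * (z - n / 2 * P * (w / g)) ^ 2 := by positivity
  linarith

/-- duality: the quadratic form dominates the linear functional for every dual variable -/
lemma vg_dual {M N : ℕ} (hN : 0 < N) {k : ℕ} {S : Fin N → ℝ} (hS : ∀ i, 0 < S i ∧ S i ≤ 1)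
    {g : Fin M → ℝ} {b D s K : ℝ} (hg : ∀ a, 0 < g a) (hbg : ∀ a, b * g a < 1)
    (G : Fin M → Fin N → ℝ) (u : Fin N → ℝ) (hu : qk b D S g G k u < s * nsq u) :
    ∃ v ∈ VU S, ∀ P ∈ VP M k K,
      ∑ a, ∑ i, P a * v i * G a i < s - vpsi b (yk N g k - D) S g v P := by
  have hN' : (0 : ℝ) < N := by exact_mod_cast hN
  have hn0 : 0 ≤ nsq u := Finset.sum_nonneg fun i _ => sq_nonneg _
  have hn : 0 < nsq u := by
    rcases hn0.lt_or_eq with h | h
    · exact h
    · exfalso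
      have hu0 : ∀ i, u i = 0 := by
        intro i
        have h1 : ∑ i, u i ^ 2 = 0 := h.symm
        rw [Finset.sum_eq_zero_iff_of_nonneg (fun i _ => sq_nonneg _)] at h1
        exact pow_eq_zero_iff (two_ne_zero) |>.1 (h1 i (Finset.mem_univ i))
      unfold qk at hu
      simp [hu0, nsq] at hu
  set r : ℝ := Real.sqrt (nsq u) with hr
  have hr0 : 0 < r := Real.sqrt_pos.2 hn
  have hr2 : r ^ 2 = nsq u := Real.sq_sqrt hn0
  have hsq : ∀ i, Real.sqrt (S i) ^ 2 = S i := fun i => Real.sq_sqrt (hS i).1.le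
  refine ⟨fun i => Real.sqrt (S i) * u i / r, ?_, fun P hP => ?_⟩
  · change ∑ i, (Real.sqrt (S i) * u i / r) ^ 2 / S i = 1
    have : ∀ i, (Real.sqrt (S i) * u i / r) ^ 2 / S i = u i ^ 2 / nsq u := by
      intro i
      rw [div_pow, mul_pow, hsq, hr2]
      have := (hS i).1.ne'
      field_simp
    rw [Finset.sum_congr rfl fun i _ => this i, ← Finset.sum_div]
    exact div_self hn.ne'
  · set z : Fin M → ℝ := fun a => ∑ i, G a i * (Real.sqrt (S i) * u i / r) with hz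
    have e1 : ∑ a, ∑ i, P a * (Real.sqrt (S i) * u i / r) * G a i = ∑ a, P a * z a := by
      refine Finset.sum_congr rfl fun a _ => ?_
      rw [hz, Finset.mul_sum]
      exact Finset.sum_congr rfl fun i _ => by ring
    have e2 : qk b D S g G k u / nsq u
        = (∑ i, (1 / S i + (yk N g k - D)) * (Real.sqrt (S i) * u i / r) ^ 2)
          + (∑ a : Fin M, if (a : ℕ) < k then Wg b (g a) * z a ^ 2 else 0) / N := by
      unfold qk
      rw [add_div, Finset.sum_div]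
      congr 1
      · refine Finset.sum_congr rfl fun i _ => ?_
        rw [div_pow, mul_pow, hsq, hr2]
        have := (hS i).1.ne'
        field_simp
      · rw [div_right_comm, Finset.sum_div]
        congr 1
        refine Finset.sum_congr rfl fun a _ => ?_
        split_ifs
        · have e3 : z a = (∑ i, G a i * (Real.sqrt (S i) * u i)) / r := by
            rw [hz, Finset.sum_div]
            exact Finset.sum_congr rfl fun i _ => by ring
          rw [e3, div_pow, hr2]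
          ring
        · simp
    have h3 : qk b D S g G k u / nsq u < s := by
      rw [div_lt_iff₀ hn]
      exact hu
    have h4 : ∑ a, P a * z a - (N : ℝ) / 4 * ∑ a, P a ^ 2 * ((1 - b * g a) / g a)
        ≤ (∑ a : Fin M, if (a : ℕ) < k then Wg b (g a) * z a ^ 2 else 0) / N := by
      rw [Finset.mul_sum, ← Finset.sum_sub_distrib, Finset.sum_div]
      refine Finset.sum_le_sum fun a _ => ?_
      split_ifs with ha
      · have h5 := hg a
        have h6 : 0 < 1 - b * g a := by linarith [hbg a]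
        unfold Wg
        exact vg_amgm h5 h6 hN' (z a) (P a)
      · rw [hP.1 a (by omega)]
        simp
    rw [e1]
    unfold vpsi
    rw [e2] at h3
    linarith

/-- the matrix law as a law on the product index -/
lemma vg_GM {M N : ℕ} (s : Set (Fin M → Fin N → ℝ)) :
    (GM M N).real s = (stdG (Fin M × Fin N)).real {G | (fun a i => G (a, i)) ∈ s} := by
  have e1 : GM M N = (stdG (Fin M × Fin N)).map (MeasurableEquiv.curry (Fin M) (Fin N) ℝ) := by
    have := Measure.infinitePi_map_curry (fun (_ : Fin M) (_ : Fin N) => gaussianReal 0 1)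
    simp only [Measure.infinitePi_eq_pi] at this
    exact this.symm
  rw [measureReal_def, e1, MeasurableEquiv.map_apply]
  rfl

/-- one weighted sum of squares is typical -/
lemma vg_wlln {M N : ℕ} (hN : 0 < N) {C0 Cw s : ℝ} (hM : (M : ℝ) ≤ C0 * N) (hs : 0 < s)
    (c : Fin M ⊕ Fin N → ℝ) (hc : ∀ p, |c p| ≤ Cw) :
    (stdG (Fin M ⊕ Fin N)).real {w | s * N ≤ |∑ p, c p * (w p ^ 2 - 1)|}
      ≤ vz2 * (C0 + 1) * Cw ^ 2 / s ^ 2 / N := by
  have hN' : (0 : ℝ) < N := by exact_mod_cast hN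
  refine (wlln c hc (mul_pos hs hN')).trans ?_
  have hcard : (Fintype.card (Fin M ⊕ Fin N) : ℝ) ≤ (C0 + 1) * N := by
    simp only [Fintype.card_sum, Fintype.card_fin, Nat.cast_add]
    linarith
  have h1 : vz2 * Fintype.card (Fin M ⊕ Fin N) * Cw ^ 2 / (s * N) ^ 2
      ≤ vz2 * ((C0 + 1) * N) * Cw ^ 2 / (s * N) ^ 2 := by
    have := vz2_nonneg
    gcongr
  refine h1.trans (le_of_eq ?_)
  field_simp

/-- **positivity of `X_k` for one fixed `k`** -/
theorem vg_fixed {M N : ℕ} (hN : 0 < N) (k : ℕ) {S : Fin N → ℝ} (hS : ∀ i, 0 < S i ∧ S i ≤ 1)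
    {g : Fin M → ℝ} {G0 : ℝ} (hg : ∀ a, 0 < g a ∧ g a ≤ G0) {b D R s2 s C0 L Cw : ℝ}
    (hb : 0 < b) (hbG : b * G0 < 1) (hs : 0 < s) (hs1 : s < 1) (hL : 0 < L) (hL1 : L < 1)
    (hs2 : 0 ≤ s2) (hM : (M : ℝ) ≤ C0 * N)
    (h1 : |(∑ a, g a) / N - D| ≤ s) (h2 : (∑ i, S i) / N ≤ b + s)
    (h3 : (∑ i, S i ^ 2) / N ≤ s2 + s) (h4 : (∑ a, g a ^ 2) / N ≤ R + s)
    (hC1 : G0 ≤ Cw) (hC2 : G0 ^ 2 ≤ Cw) (hC3 : 1 / (1 - L) ≤ Cw)
    (hkey : (R + 2 * s) * ((b + 2 * s + L * (s2 + s) / (1 - L)) / (1 - s) - b) + 2 * s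
      ≤ (1 - s) * L) :
    (GM M N).real {G | ∃ u, qk b D S g G k u < s * nsq u}
      ≤ 2 * (3 * (vz2 * (C0 + 1) * Cw ^ 2 / s ^ 2 / N)) := by
  have hN' : (0 : ℝ) < N := by exact_mod_cast hN
  have h1L : 0 < 1 - L := by linarith
  have hCw : 0 ≤ Cw := le_trans (by positivity) hC3
  have hLS : ∀ i, 0 < 1 - L * S i := fun i => by nlinarith [(hS i).1, (hS i).2]
  have hbg : ∀ a, b * g a < 1 := fun a =>
    lt_of_le_of_lt (mul_le_mul_of_nonneg_left (hg a).2 hb.le) hbG
  -- the three weights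
  set c1 : Fin M ⊕ Fin N → ℝ := Sum.elim (fun a => if (a : ℕ) < k then g a else 0) (fun _ => 0)
    with hc1
  set c2 : Fin M ⊕ Fin N → ℝ := Sum.elim (fun a => if (a : ℕ) < k then g a ^ 2 else 0)
    (fun _ => 0) with hc2
  set c3 : Fin M ⊕ Fin N → ℝ := Sum.elim (fun _ => 0) (fun i => S i / (1 - L * S i)) with hc3
  have hb1 : ∀ p, |c1 p| ≤ Cw := by
    rintro (a | i)
    · simp only [hc1, Sum.elim_inl]
      split_ifs
      · rw [abs_of_pos (hg a).1]; exact (hg a).2.trans hC1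
      · simpa using hCw
    · simpa [hc1] using hCw
  have hb2 : ∀ p, |c2 p| ≤ Cw := by
    rintro (a | i)
    · simp only [hc2, Sum.elim_inl]
      split_ifs
      · rw [abs_of_nonneg (sq_nonneg _)]
        exact (pow_le_pow_left₀ (hg a).1.le (hg a).2 2).trans hC2
      · simpa using hCw
    · simpa [hc2] using hCw
  have hb3 : ∀ p, |c3 p| ≤ Cw := by
    rintro (a | i)
    · simpa [hc3] using hCw
    · simp only [hc3, Sum.elim_inr]
      rw [abs_of_nonneg (div_nonneg (hS i).1.le (hLS i).le)]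
      refine le_trans ?_ hC3
      rw [div_le_div_iff₀ (hLS i) h1L]
      nlinarith [(hS i).1, (hS i).2]
  -- typical sums give the hypotheses of `vg_det`
  have hsub : {w : Fin M ⊕ Fin N → ℝ | ∃ v ∈ VU S, ∀ P ∈ VP M k (4 * (R + 2 * s) / N),
        nrm v * ∑ a, P a * w (Sum.inl a) + nrm P * ∑ i, v i * w (Sum.inr i)
          < s - vpsi b (yk N g k - D) S g v P}
      ⊆ ({w | s * N ≤ |∑ p, c1 p * (w p ^ 2 - 1)|} ∪ {w | s * N ≤ |∑ p, c2 p * (w p ^ 2 - 1)|})
        ∪ {w | s * N ≤ |∑ p, c3 p * (w p ^ 2 - 1)|} := by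
    rintro w ⟨v, hv, hw⟩
    by_contra hcon
    simp only [Set.mem_union, Set.mem_ofPred_eq, not_or, not_le] at hcon
    obtain ⟨⟨t1, t2⟩, t3⟩ := hcon
    set x : Fin M → ℝ := fun a => w (Sum.inl a) with hx
    set h : Fin N → ℝ := fun i => w (Sum.inr i) with hh
    have s1 : ∑ p, c1 p * (w p ^ 2 - 1)
        = (∑ a : Fin M, if (a : ℕ) < k then g a * x a ^ 2 else 0)
          - ∑ a : Fin M, if (a : ℕ) < k then g a else 0 := by
      rw [Fintype.sum_sum_type, ← Finset.sum_sub_distrib]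
      simp only [hc1, Sum.elim_inl, Sum.elim_inr, zero_mul, Finset.sum_const_zero, add_zero, hx]
      refine Finset.sum_congr rfl fun a _ => ?_
      split_ifs <;> ring
    have s2' : ∑ p, c2 p * (w p ^ 2 - 1)
        = (∑ a : Fin M, if (a : ℕ) < k then g a ^ 2 * x a ^ 2 else 0)
          - ∑ a : Fin M, if (a : ℕ) < k then g a ^ 2 else 0 := by
      rw [Fintype.sum_sum_type, ← Finset.sum_sub_distrib]
      simp only [hc2, Sum.elim_inl, Sum.elim_inr, zero_mul, Finset.sum_const_zero, add_zero, hx]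
      refine Finset.sum_congr rfl fun a _ => ?_
      split_ifs <;> ring
    have s3 : ∑ p, c3 p * (w p ^ 2 - 1)
        = (∑ i, S i / (1 - L * S i) * h i ^ 2) - ∑ i, S i / (1 - L * S i) := by
      rw [Fintype.sum_sum_type, ← Finset.sum_sub_distrib]
      simp only [hc3, Sum.elim_inl, Sum.elim_inr, zero_mul, Finset.sum_const_zero, zero_add, hh]
      refine Finset.sum_congr rfl fun a _ => ?_
      ring
    rw [s1] at t1
    rw [s2'] at t2
    rw [s3] at t3
    have t1' := abs_lt.1 t1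
    have t2' := abs_lt.1 t2
    have t3' := abs_lt.1 t3
    have y1 : (∑ a : Fin M, if (a : ℕ) < k then g a else 0) + (N : ℝ) * yk N g k = ∑ a, g a := by
      unfold yk
      rw [mul_div_cancel₀ _ hN'.ne', ← Finset.sum_add_distrib]
      refine Finset.sum_congr rfl fun a _ => ?_
      by_cases hak : (a : ℕ) < k
      · rw [if_pos hak, if_neg (by omega), add_zero]
      · rw [if_neg hak, if_pos (by omega), zero_add]
    have y2 : (∑ a : Fin M, if (a : ℕ) < k then g a ^ 2 else 0) ≤ ∑ a, g a ^ 2 := by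
      refine Finset.sum_le_sum fun a _ => ?_
      split_ifs
      · exact le_rfl
      · exact sq_nonneg _
    have y3 : ∑ i, S i / (1 - L * S i) ≤ (∑ i, S i) + L / (1 - L) * ∑ i, S i ^ 2 := by
      rw [Finset.mul_sum, ← Finset.sum_add_distrib]
      refine Finset.sum_le_sum fun i _ => ?_
      have e : S i / (1 - L * S i) = S i + L * S i ^ 2 / (1 - L * S i) := by
        rw [div_eq_iff (hLS i).ne', add_mul, div_mul_cancel₀ _ (hLS i).ne']
        ring
      have h6 : L * S i ^ 2 / (1 - L * S i) ≤ L * S i ^ 2 / (1 - L) := by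
        apply div_le_div_of_nonneg_left (by positivity) h1L
        nlinarith [(hS i).2]
      have h7 : L / (1 - L) * S i ^ 2 = L * S i ^ 2 / (1 - L) := by ring
      rw [e, h7]
      linarith
    rw [div_le_iff₀ hN'] at h2 h3 h4
    have h1' := abs_le.1 h1
    have hT1 : -(2 * s) ≤ (yk N g k - D) + (∑ a : Fin M, if (a : ℕ) < k then g a * x a ^ 2 else 0) / N := by
      have e : (yk N g k - D) + (∑ a : Fin M, if (a : ℕ) < k then g a * x a ^ 2 else 0) / N
          = ((∑ a, g a) / N - D) + ((∑ a : Fin M, if (a : ℕ) < k then g a * x a ^ 2 else 0)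
            - ∑ a : Fin M, if (a : ℕ) < k then g a else 0) / N := by
        rw [← y1]
        field_simp
        ring
      rw [e]
      have : -s ≤ ((∑ a : Fin M, if (a : ℕ) < k then g a * x a ^ 2 else 0)
            - ∑ a : Fin M, if (a : ℕ) < k then g a else 0) / N := by
        rw [le_div_iff₀ hN']
        linarith [t1'.1]
      linarith [h1'.1]
    have hT2 : (∑ a : Fin M, if (a : ℕ) < k then g a ^ 2 * x a ^ 2 else 0) / N ≤ R + 2 * s := by
      rw [div_le_iff₀ hN']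
      linarith [t2'.2]
    have hT3 : (∑ i, S i / (1 - L * S i) * h i ^ 2) / N ≤ b + 2 * s + L * (s2 + s) / (1 - L) := by
      rw [div_le_iff₀ hN']
      have h5 : L / (1 - L) * ∑ i, S i ^ 2 ≤ L / (1 - L) * ((s2 + s) * N) :=
        mul_le_mul_of_nonneg_left h3 (by positivity)
      have h6 : L / (1 - L) * ((s2 + s) * N) = L * (s2 + s) / (1 - L) * N := by ring
      nlinarith [t3'.2]
    have hmem := vg_mem hN hS hv hT2
    have hlt := hw _ hmem
    have hge := vg_det (b := b) (c := yk N g k - D) (h := h) hN hS hv (fun a => (hg a).1) hs hs1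
      hL hL1 hb (R1 := R + 2 * s) (B1 := b + 2 * s + L * (s2 + s) / (1 - L)) (e1 := 2 * s)
      (by
        have : 0 ≤ L * (s2 + s) / (1 - L) := by positivity
        linarith) hkey hT1 hT2 hT3
    linarith
  rw [vg_GM]
  have hA : {G : Fin M × Fin N → ℝ | (fun a i => G (a, i)) ∈
        {G : Fin M → Fin N → ℝ | ∃ u, qk b D S g G k u < s * nsq u}}
      ⊆ {G | ∃ v ∈ VU S, ∀ P ∈ VP M k (4 * (R + 2 * s) / N),
        ∑ a, ∑ i, P a * v i * G (a, i) < s - vpsi b (yk N g k - D) S g v P} := by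
    rintro G ⟨u, hu⟩
    exact vg_dual hN hS (fun a => (hg a).1) hbg _ u hu
  refine (measureReal_mono hA).trans ((vg_cgmt b (yk N g k - D) s _ k S g hS).trans ?_)
  apply mul_le_mul_of_nonneg_left _ (by norm_num)
  refine (measureReal_mono hsub).trans ?_
  refine (measureReal_union_le _ _).trans ?_
  have hu := measureReal_union_le (μ := stdG (Fin M ⊕ Fin N))
    {w | s * N ≤ |∑ p, c1 p * (w p ^ 2 - 1)|} {w | s * N ≤ |∑ p, c2 p * (w p ^ 2 - 1)|}
  have p1 := vg_wlln hN hM hs c1 hb1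
  have p2 := vg_wlln hN hM hs c2 hb2
  have p3 := vg_wlln hN hM hs c3 hb3
  linarith

end Pool.Agent.IP49
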