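import Pool.Agent.IP49.VRows

/-!
IP49, part U2: the Jacobian of the TAP map (note 1605 U2a).

`det_Jm`: `Matrix.det_fromBlocks₂₂` with the invertible diagonal block `-(1 - b g)`:
`det Jm = ∏(-(1 - b g_a)) * det(-(I - D S) - (-Aᵀ g)(-(1 - b g))⁻¹(A S)) =
± ∏(1 - b g_a) * det(I - D S + Aᵀ W A S)`, and `I - D S + Aᵀ W A S` is conjugate to
`X_M = I - D S + S^{1/2} Aᵀ W A S^{1/2}` by `diag √S` (`S > 0`; `yk N g M = 0`).
`OpB_tr`: `|Gᵀ p|² = ⟨p, G Gᵀ p⟩ ≤ |p| |G Gᵀ p| ≤ |p| C √N |Gᵀ p|`.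
`Jm_lower`: let `Jm x = y`, `x = (x₁, x₂)`: `x₂ = (1 - b g)⁻¹ (A S x₁ - y₂)`,
`(I - D S + Aᵀ W A S) x₁ = r := -y₁ + Aᵀ W y₂`. With `z = S^{1/2} x₁`: `X_M z = S^{1/2} r`, so
`|z| ≤ |r|/c`, and `x₁ = r + (D - Aᵀ W A) S^{1/2} z`. Here `1 - b g ≥ κ₀ > 0` and
`W ≤ G0/κ₀`; all norms are bounded in terms of `c, C, D, G0, κ₀`. (Any explicit `L`.)
-/

set_option autoImplicit false
open MeasureTheory ProbabilityTheory Matrix

namespace Pool.Agent.IP49

noncomputable section

/-- the Jacobian matrix of the TAP map at a point with `S = 1 - tanh²`, `g = -F'` -/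
def Jm {M N : ℕ} (b D : ℝ) (S : Fin N → ℝ) (g : Fin M → ℝ) (G : Fin M → Fin N → ℝ) :
    Matrix (Fin N ⊕ Fin M) (Fin N ⊕ Fin M) ℝ :=
  fromBlocks (diagonal fun i => -(1 - D * S i)) (of fun i a => -(G a i * g a) / Real.sqrt N)
    (of fun a i => G a i * S i / Real.sqrt N) (diagonal fun a => -(1 - b * g a))

end

variable {M N : ℕ}

theorem det_Jm (hN : 0 < N) {b D : ℝ} {S : Fin N → ℝ} {g : Fin M → ℝ} (hS : ∀ i, 0 < S i)
    (hg : ∀ a, b * g a < 1) (G : Fin M → Fin N → ℝ) :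
    |(Jm b D S g G).det| = (∏ a, (1 - b * g a)) * |(Xk b D S g G M).det| := by
  have hN' : (0 : ℝ) < N := Nat.cast_pos.2 hN
  have hgp : ∀ a, 0 < 1 - b * g a := fun a => sub_pos.2 (hg a)
  have hne : ∀ a, -(1 - b * g a) ≠ 0 := fun a => neg_ne_zero.2 (hgp a).ne'
  let _ : Invertible (diagonal fun a => -(1 - b * g a)) :=
    { invOf := diagonal fun a => (-(1 - b * g a))⁻¹
      invOf_mul_self := by
        rw [diagonal_mul_diagonal, ← diagonal_one]
        congr 1
        funext a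
        exact inv_mul_cancel₀ (hne a)
      mul_invOf_self := by
        rw [diagonal_mul_diagonal, ← diagonal_one]
        congr 1
        funext a
        exact mul_inv_cancel₀ (hne a) }
  have hinv : ⅟(diagonal fun a => -(1 - b * g a)) = diagonal fun a => (-(1 - b * g a))⁻¹ := rfl
  unfold Jm
  rw [det_fromBlocks₂₂, hinv, abs_mul, det_diagonal, Finset.abs_prod]
  congr 1
  · refine Finset.prod_congr rfl fun a _ => ?_
    rw [abs_neg, abs_of_pos (hgp a)]
  · set E : Matrix (Fin N) (Fin N) ℝ := ((diagonal fun i => -(1 - D * S i)) -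
      (of fun (i : Fin N) (a : Fin M) => -(G a i * g a) / Real.sqrt N) *
        (diagonal fun a => (-(1 - b * g a))⁻¹) *
        (of fun (a : Fin M) (i : Fin N) => G a i * S i / Real.sqrt N)) with hE
    have hsq : Real.sqrt N * Real.sqrt N = N := Real.mul_self_sqrt hN'.le
    have hsq0 : Real.sqrt N ≠ 0 := (Real.sqrt_pos.2 hN').ne'
    have hEe : ∀ i j, E i j = -((if i = j then 1 - D * S i else 0) +
        ∑ a, Wg b (g a) / N * G a i * G a j * S j) := by
      intro i j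
      rw [hE, Matrix.sub_apply, mul_apply, diagonal_apply, neg_add, sub_eq_add_neg,
        ← Finset.sum_neg_distrib, ← Finset.sum_neg_distrib]
      congr 1
      · split_ifs <;> simp
      · refine Finset.sum_congr rfl fun a _ => ?_
        rw [mul_diagonal, of_apply, of_apply]
        have h1 := (hgp a).ne'
        unfold Wg
        have key : ∀ s n : ℝ, s ≠ 0 → s * s = n → -(-(G a i * g a) / s * (-(1 - b * g a))⁻¹ *
            (G a j * S j / s)) = -(g a / (1 - b * g a) / n * G a i * G a j * S j) := by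
          intro s n hs hn
          rw [← hn]
          field_simp
        exact key _ _ hsq0 hsq
    have hy : yk N g M = 0 := by
      unfold yk
      rw [Finset.sum_eq_zero, zero_div]
      intro a _
      rw [if_neg (not_le.2 a.2)]
    have hX : ∀ i j, Xk b D S g G M i j = (if i = j then 1 - D * S i else 0) +
        ∑ a, Wg b (g a) / N * (Real.sqrt (S i) * G a i) * (Real.sqrt (S j) * G a j) := by
      intro i j
      unfold Xk
      rw [Matrix.add_apply, diagonal_apply, hy, Matrix.sum_apply]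
      congr 1
      · split_ifs <;> ring
      · refine Finset.sum_congr rfl fun a _ => ?_
        rw [if_pos a.2, Matrix.smul_apply, vecMulVec_apply, smul_eq_mul]
        ring
    have hcomm : diagonal (fun i => Real.sqrt (S i)) * (-E)
        = Xk b D S g G M * diagonal (fun i => Real.sqrt (S i)) := by
      ext i j
      rw [diagonal_mul, mul_diagonal, Matrix.neg_apply, hEe, hX, neg_neg, mul_add, add_mul,
        Finset.mul_sum, Finset.sum_mul]
      congr 1
      · by_cases hij : i = j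
        · subst hij
          simp [mul_comm]
        · simp [hij]
      · refine Finset.sum_congr rfl fun a _ => ?_
        have h2 : S j = Real.sqrt (S j) * Real.sqrt (S j) := (Real.mul_self_sqrt (hS j).le).symm
        calc Real.sqrt (S i) * (Wg b (g a) / N * G a i * G a j * S j)
            = Real.sqrt (S i) * (Wg b (g a) / N * G a i * G a j *
              (Real.sqrt (S j) * Real.sqrt (S j))) := by rw [← h2]
          _ = _ := by ring
    have hd := congrArg Matrix.det hcomm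
    rw [det_mul, det_mul, det_diagonal] at hd
    have hp : (∏ i, Real.sqrt (S i)) ≠ 0 :=
      Finset.prod_ne_zero_iff.2 fun i _ => (Real.sqrt_pos.2 (hS i)).ne'
    have hd2 : (-E).det = (Xk b D S g G M).det := by
      have : (∏ i, Real.sqrt (S i)) * (-E).det = (∏ i, Real.sqrt (S i)) * (Xk b D S g G M).det := by
        rw [hd]; ring
      exact mul_left_cancel₀ hp this
    rw [← hd2, det_neg, abs_mul, abs_pow, abs_neg, abs_one, one_pow, one_mul]

theorem OpB_tr {C : ℝ} {G : Fin M → Fin N → ℝ} (hG : OpB C G) (p : Fin M → ℝ) :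
    ∑ i, (∑ a, G a i * p a) ^ 2 ≤ C ^ 2 * N * nsq p := by
  set x : Fin N → ℝ := fun i => ∑ a, G a i * p a with hx
  have h0 : ∑ i, (∑ a, G a i * p a) ^ 2 = nsq x := rfl
  have h1 : nsq x = ∑ a, p a * ∑ i, G a i * x i := by
    unfold nsq
    simp_rw [Finset.mul_sum]
    rw [Finset.sum_comm]
    refine Finset.sum_congr rfl fun i _ => ?_
    have : x i ^ 2 = (∑ a, G a i * p a) * x i := by rw [sq]
    rw [this, Finset.sum_mul]
    exact Finset.sum_congr rfl fun a _ => by ring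
  have h2 : (∑ a, p a * ∑ i, G a i * x i) ^ 2 ≤
      (∑ a, p a ^ 2) * ∑ a, (∑ i, G a i * x i) ^ 2 :=
    Finset.sum_mul_sq_le_sq_mul_sq _ _ _
  have h3 := hG x
  have hp0 : 0 ≤ nsq p := Finset.sum_nonneg fun a _ => sq_nonneg _
  have hx0 : 0 ≤ nsq x := Finset.sum_nonneg fun a _ => sq_nonneg _
  rw [h0]
  rw [← h1] at h2
  have h4 : nsq x ^ 2 ≤ nsq p * (C ^ 2 * N * nsq x) :=
    h2.trans (mul_le_mul_of_nonneg_left h3 hp0)
  rcases hx0.eq_or_lt with h | h
  · rw [← h]; positivity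
  · have h5 : nsq x * nsq x ≤ (C ^ 2 * N * nsq p) * nsq x := by nlinarith [h4]
    exact le_of_mul_le_mul_right h5 h

theorem nsq_add3 {ι : Type*} [Fintype ι] (u v w : ι → ℝ) :
    nsq (fun i => u i + v i + w i) ≤ 3 * (nsq u + nsq v + nsq w) := by
  unfold nsq
  rw [← Finset.sum_add_distrib, ← Finset.sum_add_distrib, Finset.mul_sum]
  refine Finset.sum_le_sum fun i _ => ?_
  nlinarith [sq_nonneg (u i - v i), sq_nonneg (v i - w i), sq_nonneg (u i - w i)]

theorem nsq_sub2 {ι : Type*} [Fintype ι] (u v : ι → ℝ) :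
    nsq (fun i => u i - v i) ≤ 2 * (nsq u + nsq v) := by
  unfold nsq
  rw [← Finset.sum_add_distrib, Finset.mul_sum]
  refine Finset.sum_le_sum fun i _ => ?_
  nlinarith [sq_nonneg (u i + v i)]

theorem nsq_nonneg' {ι : Type*} [Fintype ι] (u : ι → ℝ) : 0 ≤ nsq u :=
  Finset.sum_nonneg fun _ _ => sq_nonneg _

theorem nsq_mul_le {ι : Type*} [Fintype ι] {w : ι → ℝ} {K : ℝ} (hw : ∀ i, w i ^ 2 ≤ K)
    (u : ι → ℝ) : nsq (fun i => w i * u i) ≤ K * nsq u := by
  unfold nsq
  rw [Finset.mul_sum]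
  refine Finset.sum_le_sum fun i _ => ?_
  rw [mul_pow]
  exact mul_le_mul_of_nonneg_right (hw i) (sq_nonneg _)

/-- `|A x|² ≤ C² |x|²` for `A = G/√N` -/
theorem opA {C : ℝ} {G : Fin M → Fin N → ℝ} (hN : 0 < N) (hG : OpB C G) (x : Fin N → ℝ) :
    nsq (fun a => ∑ i, G a i / Real.sqrt N * x i) ≤ C ^ 2 * nsq x := by
  have hN' : (0 : ℝ) < N := Nat.cast_pos.2 hN
  have h := hG x
  have e : nsq (fun a => ∑ i, G a i / Real.sqrt N * x i) =
      (∑ a, (∑ i, G a i * x i) ^ 2) / N := by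
    unfold nsq
    rw [Finset.sum_div]
    refine Finset.sum_congr rfl fun a _ => ?_
    have : ∑ i, G a i / Real.sqrt N * x i = (∑ i, G a i * x i) / Real.sqrt N := by
      rw [Finset.sum_div]
      exact Finset.sum_congr rfl fun i _ => by ring
    show (∑ i, G a i / Real.sqrt N * x i) ^ 2 = _
    rw [this, div_pow, Real.sq_sqrt hN'.le]
  rw [e, div_le_iff₀ hN']
  linarith

theorem opAt {C : ℝ} {G : Fin M → Fin N → ℝ} (hN : 0 < N) (hG : OpB C G) (p : Fin M → ℝ) :
    nsq (fun i => ∑ a, G a i / Real.sqrt N * p a) ≤ C ^ 2 * nsq p := by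
  have hN' : (0 : ℝ) < N := Nat.cast_pos.2 hN
  have h := OpB_tr hG p
  have e : nsq (fun i => ∑ a, G a i / Real.sqrt N * p a) =
      (∑ i, (∑ a, G a i * p a) ^ 2) / N := by
    unfold nsq
    rw [Finset.sum_div]
    refine Finset.sum_congr rfl fun i _ => ?_
    have : ∑ a, G a i / Real.sqrt N * p a = (∑ a, G a i * p a) / Real.sqrt N := by
      rw [Finset.sum_div]
      exact Finset.sum_congr rfl fun i _ => by ring
    show (∑ a, G a i / Real.sqrt N * p a) ^ 2 = _
    rw [this, div_pow, Real.sq_sqrt hN'.le]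
  rw [e, div_le_iff₀ hN']
  linarith

theorem Jm_lower {c C b D G0 κ₀ : ℝ} (hc : 0 < c) (hb : 0 < b) (hG0 : 0 < G0) (hκ₀ : 0 < κ₀) :
    ∃ L : ℝ, 0 < L ∧ ∀ (N M : ℕ) (S : Fin N → ℝ) (g : Fin M → ℝ) (G : Fin M → Fin N → ℝ),
      0 < N → (∀ i, 0 < S i ∧ S i ≤ 1) → (∀ a, 0 < g a ∧ g a ≤ G0 ∧ κ₀ ≤ 1 - b * g a) →
      OpB C G → (∀ u, c * nsq u ≤ qk b D S g G M u) →
      ∀ x : Fin N ⊕ Fin M → ℝ, nsq x ≤ L * nsq (Jm b D S g G *ᵥ x) := by
  set w2 : ℝ := (G0 / κ₀) ^ 2 with hw2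
  set K1 : ℝ := 2 + 2 * (C ^ 2 * w2) with hK1
  set K2 : ℝ := 3 * (1 + (D ^ 2 + C ^ 2 * (w2 * C ^ 2)) / c ^ 2) with hK2
  have hw0 : 0 < w2 := by positivity
  have hK1p : 0 < K1 := by positivity
  have hK2p : 0 < K2 := by positivity
  refine ⟨K2 * K1 + 2 / κ₀ ^ 2 * (C ^ 2 * (K2 * K1) + 1), by positivity, ?_⟩
  intro N M S g G hN hS hg hG hq x
  have hN' : (0 : ℝ) < N := Nat.cast_pos.2 hN
  have hsq : Real.sqrt N * Real.sqrt N = N := Real.mul_self_sqrt hN'.le
  have hsq0 : Real.sqrt N ≠ 0 := (Real.sqrt_pos.2 hN').ne'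
  set x1 : Fin N → ℝ := fun i => x (Sum.inl i) with hx1
  set x2 : Fin M → ℝ := fun a => x (Sum.inr a) with hx2
  set y1 : Fin N → ℝ := fun i => (Jm b D S g G *ᵥ x) (Sum.inl i) with hy1
  set y2 : Fin M → ℝ := fun a => (Jm b D S g G *ᵥ x) (Sum.inr a) with hy2
  have hnx : nsq x = nsq x1 + nsq x2 := by unfold nsq; rw [Fintype.sum_sum_type]
  have hny : nsq (Jm b D S g G *ᵥ x) = nsq y1 + nsq y2 := by
    unfold nsq; rw [Fintype.sum_sum_type]
  -- `A S x₁`
  set v : Fin M → ℝ := fun a => ∑ i, G a i / Real.sqrt N * (S i * x1 i) with hv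
  have e1 : ∀ i, y1 i = -(1 - D * S i) * x1 i - ∑ a, G a i / Real.sqrt N * (g a * x2 a) := by
    intro i
    simp only [hy1, hx1, hx2, Jm, Matrix.mulVec, dotProduct, Fintype.sum_sum_type,
      fromBlocks_apply₁₁, fromBlocks_apply₁₂, of_apply, diagonal_apply, ite_mul, zero_mul,
      Finset.sum_ite_eq, Finset.mem_univ, if_true]
    rw [sub_eq_add_neg _ (∑ a, G a i / Real.sqrt N * (g a * x (Sum.inr a))),
      ← Finset.sum_neg_distrib]
    congr 1
    exact Finset.sum_congr rfl fun a _ => by ring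
  have e2 : ∀ a, y2 a = v a - (1 - b * g a) * x2 a := by
    intro a
    simp only [hy2, hv, hx1, hx2, Jm, Matrix.mulVec, dotProduct, Fintype.sum_sum_type,
      fromBlocks_apply₂₁, fromBlocks_apply₂₂, of_apply, diagonal_apply, ite_mul, zero_mul,
      Finset.sum_ite_eq, Finset.mem_univ, if_true]
    rw [sub_eq_add_neg (∑ i, G a i / Real.sqrt N * (S i * x (Sum.inl i)))]
    congr 1
    · exact Finset.sum_congr rfl fun i _ => by ring
    · ring
  have hgp : ∀ a, 0 < 1 - b * g a := fun a => hκ₀.trans_le (hg a).2.2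
  have e3 : ∀ a, x2 a = (1 - b * g a)⁻¹ * (v a - y2 a) := by
    intro a
    have := (hgp a).ne'
    rw [e2 a]
    field_simp
    ring
  have e4 : ∀ a, g a * x2 a = Wg b (g a) * (v a - y2 a) := by
    intro a
    rw [e3 a]
    unfold Wg
    ring
  have hW : ∀ a, Wg b (g a) ^ 2 ≤ w2 := by
    intro a
    have h1 : 0 ≤ Wg b (g a) := div_nonneg (hg a).1.le (hgp a).le
    have h2 : Wg b (g a) ≤ G0 / κ₀ := by
      unfold Wg
      exact div_le_div₀ hG0.le (hg a).2.1 hκ₀ (hg a).2.2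
    rw [hw2]
    exact pow_le_pow_left₀ h1 h2 2
  -- `r = -y₁ + Aᵀ W y₂`
  set r : Fin N → ℝ := fun i => (∑ a, G a i / Real.sqrt N * (Wg b (g a) * y2 a)) - y1 i with hr
  have hrx : ∀ i, r i = (1 - D * S i) * x1 i +
      ∑ a, G a i / Real.sqrt N * (Wg b (g a) * v a) := by
    intro i
    have h1 : ∑ a, G a i / Real.sqrt N * (g a * x2 a) =
        ∑ a, G a i / Real.sqrt N * (Wg b (g a) * v a) -
          ∑ a, G a i / Real.sqrt N * (Wg b (g a) * y2 a) := by
      rw [← Finset.sum_sub_distrib]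
      exact Finset.sum_congr rfl fun a _ => by rw [e4 a]; ring
    have h2 := e1 i
    rw [h1] at h2
    simp only [hr]
    linarith
  have hnr : nsq r ≤ K1 * (nsq y1 + nsq y2) := by
    have h1 := nsq_sub2 (fun i => ∑ a, G a i / Real.sqrt N * (Wg b (g a) * y2 a)) y1
    have h2 := opAt hN hG (fun a => Wg b (g a) * y2 a)
    have h3 := nsq_mul_le hW y2
    have h4 := nsq_nonneg' y1
    have h5 := nsq_nonneg' y2
    have h6 : C ^ 2 * nsq (fun a => Wg b (g a) * y2 a) ≤ C ^ 2 * (w2 * nsq y2) :=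
      mul_le_mul_of_nonneg_left h3 (sq_nonneg _)
    have h7 : 0 ≤ C ^ 2 * w2 * nsq y1 := by positivity
    calc nsq r ≤ _ := h1
      _ ≤ 2 * (C ^ 2 * (w2 * nsq y2) + nsq y1) := by linarith
      _ ≤ K1 * (nsq y1 + nsq y2) := by rw [hK1]; nlinarith
  -- `z = √S x₁`
  set z : Fin N → ℝ := fun i => Real.sqrt (S i) * x1 i with hz
  have hSz : ∀ i, S i * x1 i = Real.sqrt (S i) * z i := by
    intro i
    simp only [hz]
    rw [← mul_assoc, Real.mul_self_sqrt (hS i).1.le]
  have hy0 : yk N g M = 0 := by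
    unfold yk
    rw [Finset.sum_eq_zero, zero_div]
    intro a _
    rw [if_neg (not_le.2 a.2)]
  have hqz : qk b D S g G M z = ∑ i, z i * (Real.sqrt (S i) * r i) := by
    unfold qk
    have h1 : ∀ a : Fin M, (if (a : ℕ) < M then
        Wg b (g a) * (∑ i, G a i * (Real.sqrt (S i) * z i)) ^ 2 else 0)
        = Wg b (g a) * (∑ i, G a i * (Real.sqrt (S i) * z i)) ^ 2 := fun a => if_pos a.2
    simp_rw [h1]
    have h2 : ∀ i, z i * (Real.sqrt (S i) * r i) = (1 + (yk N g M - D) * S i) * z i ^ 2 +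
        ∑ a, (Real.sqrt (S i) * z i) * (G a i / Real.sqrt N) * (Wg b (g a) * v a) := by
      intro i
      rw [hrx i, hy0]
      have h3 : Real.sqrt (S i) * x1 i = z i := rfl
      have h4 : z i * (Real.sqrt (S i) * ((1 - D * S i) * x1 i +
          ∑ a, G a i / Real.sqrt N * (Wg b (g a) * v a))) =
          z i * ((1 - D * S i) * (Real.sqrt (S i) * x1 i)) +
          (Real.sqrt (S i) * z i) * ∑ a, G a i / Real.sqrt N * (Wg b (g a) * v a) := by ring
      rw [h4, h3, Finset.mul_sum]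
      congr 1
      · ring
      · exact Finset.sum_congr rfl fun a _ => by ring
    simp_rw [h2]
    rw [Finset.sum_add_distrib, Finset.sum_comm]
    congr 1
    rw [Finset.sum_div]
    refine Finset.sum_congr rfl fun a _ => ?_
    have h5 : v a = (∑ i, G a i * (Real.sqrt (S i) * z i)) / Real.sqrt N := by
      simp only [hv]
      rw [Finset.sum_div]
      exact Finset.sum_congr rfl fun i _ => by rw [hSz i]; ring
    rw [← Finset.sum_mul]
    have h6 : ∑ i, Real.sqrt (S i) * z i * (G a i / Real.sqrt N) =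
        (∑ i, G a i * (Real.sqrt (S i) * z i)) / Real.sqrt N := by
      rw [Finset.sum_div]
      exact Finset.sum_congr rfl fun i _ => by ring
    rw [h6, h5]
    have h7 : ∀ t : ℝ, t / Real.sqrt N * (Wg b (g a) * (t / Real.sqrt N)) =
        Wg b (g a) * t ^ 2 / N := by
      intro t
      have key : ∀ s n : ℝ, s ≠ 0 → s * s = n → t / s * (Wg b (g a) * (t / s)) =
          Wg b (g a) * t ^ 2 / n := by
        intro s n hs hn
        rw [← hn]
        field_simp
      exact key _ _ hsq0 hsq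
    rw [h7]
  have hnz : nsq z ≤ nsq r / c ^ 2 := by
    have h1 := hq z
    rw [hqz] at h1
    have h2 : (∑ i, z i * (Real.sqrt (S i) * r i)) ^ 2 ≤
        (∑ i, z i ^ 2) * ∑ i, (Real.sqrt (S i) * r i) ^ 2 :=
      Finset.sum_mul_sq_le_sq_mul_sq _ _ _
    have h3 : nsq (fun i => Real.sqrt (S i) * r i) ≤ 1 * nsq r :=
      nsq_mul_le (fun i => by rw [Real.sq_sqrt (hS i).1.le]; exact (hS i).2) r
    have h4 : (∑ i, z i ^ 2) = nsq z := rfl
    have h5 : ∑ i, (Real.sqrt (S i) * r i) ^ 2 = nsq (fun i => Real.sqrt (S i) * r i) := rfl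
    rw [h4, h5] at h2
    have hz0 := nsq_nonneg' z
    have hr0 := nsq_nonneg' r
    rw [le_div_iff₀ (by positivity)]
    rcases hz0.eq_or_lt with h | h
    · rw [← h, zero_mul]; exact hr0
    · have h6 : (c * nsq z) ^ 2 ≤ (∑ i, z i * (Real.sqrt (S i) * r i)) ^ 2 :=
        pow_le_pow_left₀ (by positivity) h1 2
      have h7 : (c * nsq z) ^ 2 ≤ nsq z * nsq r :=
        h6.trans (h2.trans (mul_le_mul_of_nonneg_left (by linarith) hz0))
      have h8 : (nsq z * c ^ 2) * nsq z ≤ nsq r * nsq z := by nlinarith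
      exact le_of_mul_le_mul_right h8 h
  have hvn : nsq v ≤ C ^ 2 * nsq z := by
    have h1 := opA hN hG (fun i => S i * x1 i)
    have h2 : nsq (fun i => S i * x1 i) ≤ 1 * nsq z := by
      have h3 : (fun i => S i * x1 i) = fun i => Real.sqrt (S i) * z i := funext hSz
      rw [h3]
      exact nsq_mul_le (fun i => by rw [Real.sq_sqrt (hS i).1.le]; exact (hS i).2) z
    calc nsq v ≤ C ^ 2 * nsq (fun i => S i * x1 i) := h1
      _ ≤ C ^ 2 * nsq z := mul_le_mul_of_nonneg_left (by linarith) (sq_nonneg _)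
  have hvx : nsq v ≤ C ^ 2 * nsq x1 := by
    refine hvn.trans (mul_le_mul_of_nonneg_left ?_ (sq_nonneg _))
    have := nsq_mul_le (w := fun i => Real.sqrt (S i)) (K := 1)
      (fun i => by rw [Real.sq_sqrt (hS i).1.le]; exact (hS i).2) x1
    rw [one_mul] at this
    exact this
  have hx1n : nsq x1 ≤ K2 * nsq r := by
    have h1 : x1 = fun i => r i + D * Real.sqrt (S i) * z i +
        (-(∑ a, G a i / Real.sqrt N * (Wg b (g a) * v a))) := by
      funext i
      have h2 := hrx i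
      have h3 := hSz i
      have h4 : D * Real.sqrt (S i) * z i = D * (S i * x1 i) := by rw [h3]; ring
      rw [h4, h2]
      ring
    have h2 := nsq_add3 r (fun i => D * Real.sqrt (S i) * z i)
      (fun i => -(∑ a, G a i / Real.sqrt N * (Wg b (g a) * v a)))
    rw [← h1] at h2
    have h3 : nsq (fun i => D * Real.sqrt (S i) * z i) ≤ D ^ 2 * nsq z :=
      nsq_mul_le (fun i => by
        rw [mul_pow, Real.sq_sqrt (hS i).1.le]
        have := (hS i).2
        have h4 := sq_nonneg D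
        nlinarith) z
    have h4 : nsq (fun i => -(∑ a, G a i / Real.sqrt N * (Wg b (g a) * v a))) =
        nsq (fun i => ∑ a, G a i / Real.sqrt N * (Wg b (g a) * v a)) := by
      unfold nsq
      exact Finset.sum_congr rfl fun i _ => by rw [neg_sq]
    have h5 := opAt hN hG (fun a => Wg b (g a) * v a)
    have h6 := nsq_mul_le hW v
    have h7 : C ^ 2 * nsq (fun a => Wg b (g a) * v a) ≤ C ^ 2 * (w2 * (C ^ 2 * nsq z)) :=
      mul_le_mul_of_nonneg_left (h6.trans (mul_le_mul_of_nonneg_left hvn hw0.le)) (sq_nonneg _)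
    rw [h4] at h2
    have h8 : nsq x1 ≤ 3 * (nsq r + D ^ 2 * nsq z + C ^ 2 * (w2 * (C ^ 2 * nsq z))) := by
      linarith
    have h9 : (D ^ 2 + C ^ 2 * (w2 * C ^ 2)) * nsq z ≤
        (D ^ 2 + C ^ 2 * (w2 * C ^ 2)) * (nsq r / c ^ 2) :=
      mul_le_mul_of_nonneg_left hnz (by positivity)
    calc nsq x1 ≤ _ := h8
      _ = 3 * (nsq r + (D ^ 2 + C ^ 2 * (w2 * C ^ 2)) * nsq z) := by ring
      _ ≤ 3 * (nsq r + (D ^ 2 + C ^ 2 * (w2 * C ^ 2)) * (nsq r / c ^ 2)) := by linarith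
      _ = K2 * nsq r := by rw [hK2]; ring
  set Y : ℝ := nsq y1 + nsq y2 with hY
  have hY0 : nsq y2 ≤ Y := by have := nsq_nonneg' y1; linarith
  have hx1Y : nsq x1 ≤ K2 * K1 * Y := by
    calc nsq x1 ≤ K2 * nsq r := hx1n
      _ ≤ K2 * (K1 * Y) := mul_le_mul_of_nonneg_left hnr hK2p.le
      _ = K2 * K1 * Y := by ring
  have hx2n : nsq x2 ≤ 2 / κ₀ ^ 2 * (C ^ 2 * (K2 * K1) + 1) * Y := by
    have h1 : x2 = fun a => (1 - b * g a)⁻¹ * (v a - y2 a) := funext e3
    have h2 : nsq (fun a => (1 - b * g a)⁻¹ * (v a - y2 a)) ≤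
        (κ₀⁻¹) ^ 2 * nsq (fun a => v a - y2 a) :=
      nsq_mul_le (fun a => pow_le_pow_left₀ (inv_nonneg.2 (hgp a).le)
        (inv_anti₀ hκ₀ (hg a).2.2) 2) _
    have h3 := nsq_sub2 v y2
    have h4 : nsq v ≤ C ^ 2 * (K2 * K1 * Y) :=
      hvx.trans (mul_le_mul_of_nonneg_left hx1Y (sq_nonneg _))
    rw [← h1] at h2
    calc nsq x2 ≤ _ := h2
      _ ≤ (κ₀⁻¹) ^ 2 * (2 * (C ^ 2 * (K2 * K1 * Y) + Y)) :=
          mul_le_mul_of_nonneg_left (h3.trans (by linarith)) (sq_nonneg _)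
      _ = 2 / κ₀ ^ 2 * (C ^ 2 * (K2 * K1) + 1) * Y := by
          rw [inv_pow]; ring
  rw [hnx, hny]
  calc nsq x1 + nsq x2 ≤ K2 * K1 * Y + 2 / κ₀ ^ 2 * (C ^ 2 * (K2 * K1) + 1) * Y :=
        add_le_add hx1Y hx2n
    _ = _ := by ring

end Pool.Agent.IP49
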