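import Pool.Agent.IP49.VDefs

/-!
IP49, part U2: the row path (note 1615). Deterministic arrays `S : Fin N → ℝ`, `g : Fin M → ℝ`,
fresh Gaussian matrix `G`. `b = 1 - q`, `D = |d|`.
-/

set_option autoImplicit false
open MeasureTheory ProbabilityTheory Filter Topology

namespace Pool.Agent.IP49

noncomputable section

/-- `W = g/(1 - b g)` -/
def Wg (b g : ℝ) : ℝ := g / (1 - b * g)

/-- `y_k = (1/N) ∑_{a ≥ k} g_a` -/
def yk {M : ℕ} (N : ℕ) (g : Fin M → ℝ) (k : ℕ) : ℝ :=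
  (∑ a : Fin M, if k ≤ (a : ℕ) then g a else 0) / N

/-- the quadratic form of `X_k = I + (y_k - D) S + S^{1/2} (∑_{a<k} W_a G_a G_aᵀ / N) S^{1/2}` -/
def qk {M N : ℕ} (b D : ℝ) (S : Fin N → ℝ) (g : Fin M → ℝ) (G : Fin M → Fin N → ℝ) (k : ℕ)
    (u : Fin N → ℝ) : ℝ :=
  ∑ i, (1 + (yk N g k - D) * S i) * u i ^ 2
    + (∑ a : Fin M, if (a : ℕ) < k then Wg b (g a) * (∑ i, G a i * (Real.sqrt (S i) * u i)) ^ 2
        else 0) / N

/-- positivity along the path -/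
def PathPos {M N : ℕ} (c b D : ℝ) (S : Fin N → ℝ) (g : Fin M → ℝ) (G : Fin M → Fin N → ℝ) :
    Prop :=
  ∀ k ≤ M, ∀ u : Fin N → ℝ, c * nsq u ≤ qk b D S g G k u

end

end Pool.Agent.IP49
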