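import Pool.Agent.IP49.VJac
import Pool.Agent.IP49.Mills

/-!
IP49, part U2: Taylor remainder of the TAP map.

`F = FF κ ν q` has derivative `-gf κ ν q`, `|gf x - gf y| ≤ 4 |x - y|/tp³` (`hasDerivAt_Mi`,
`abs_Md_sub_le`), so `r^F_a = F(hh_a + δ_a) - F(hh_a) + g_a δ_a`, `|r^F_a| ≤ C₂ δ_a²`
(mean value theorem); `tanh' = 1 - tanh²` is 2-Lipschitz, `r^t_i = tanh(h_i+δ_i) - tanh h_i - S_i δ_i`,
`|r^t_i| ≤ 2 δ_i²`. The two blocks of `R(y+δ) - R(y) - J δ` are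
`(Gᵀ r^F)/√N - d r^t` and `(G r^t)/√N - b r^F`; `OpB C G` and `OpB_tr`.
-/

set_option autoImplicit false
open MeasureTheory ProbabilityTheory Matrix

namespace Pool.Agent.IP49

noncomputable section

/-- the TAP map on `ℝ^{N+M}` -/
def Rv (κ ν ψ : ℝ) {M N : ℕ} (G : Fin M → Fin N → ℝ) (y : Fin N ⊕ Fin M → ℝ) :
    Fin N ⊕ Fin M → ℝ :=
  Sum.elim (R1 κ ν ψ G (fun i => y (Sum.inl i), fun a => y (Sum.inr a)))
    (R2 κ ν ψ G (fun i => y (Sum.inl i), fun a => y (Sum.inr a)))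

/-- `S = 1 - tanh² h` -/
def Sv {M N : ℕ} (y : Fin N ⊕ Fin M → ℝ) (i : Fin N) : ℝ := 1 - Real.tanh (y (Sum.inl i)) ^ 2

/-- `g = -F'(hh)` -/
def gv (κ ν ψ : ℝ) {M N : ℕ} (y : Fin N ⊕ Fin M → ℝ) (a : Fin M) : ℝ :=
  gf κ ν (qp ψ) (y (Sum.inr a))

end

namespace VRemAux

/-- second order Taylor estimate for a function with Lipschitz derivative -/
theorem taylor_lip {f f' : ℝ → ℝ} {K : ℝ} (hf : ∀ x, HasDerivAt f (f' x) x)
    (hK : ∀ x y, |f' x - f' y| ≤ K * |x - y|) (x s : ℝ) :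
    |f (x + s) - f x - f' x * s| ≤ K * s ^ 2 := by
  have hK0 : 0 ≤ K := by
    have h := (abs_nonneg _).trans (hK 1 0)
    simpa using h
  have hg : ∀ z, HasDerivAt (fun w => f w - f' x * w) (f' z - f' x) z := by
    intro z
    have h : HasDerivAt (fun w => f w - f' x * w) (f' z - f' x * 1) z :=
      (hf z).sub ((hasDerivAt_id z).const_mul (f' x))
    rwa [mul_one] at h
  have hb : ∀ z ∈ Set.uIcc x (x + s), ‖f' z - f' x‖ ≤ K * |s| := by
    intro z hz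
    rw [Real.norm_eq_abs]
    refine (hK z x).trans (mul_le_mul_of_nonneg_left ?_ hK0)
    have h := Set.abs_sub_left_of_mem_uIcc hz
    simpa using h
  have h := (convex_uIcc x (x + s)).norm_image_sub_le_of_norm_hasDerivWithin_le
    (fun z _ => (hg z).hasDerivWithinAt) hb Set.left_mem_uIcc Set.right_mem_uIcc
  rw [Real.norm_eq_abs, Real.norm_eq_abs] at h
  have e : f (x + s) - f' x * (x + s) - (f x - f' x * x) = f (x + s) - f x - f' x * s := by ring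
  rw [e, add_sub_cancel_left, mul_assoc, abs_mul_abs_self, ← sq] at h
  exact h

theorem hasDerivAt_tanh' (x : ℝ) : HasDerivAt Real.tanh (1 - Real.tanh x ^ 2) x := by
  have hc : Real.cosh x ≠ 0 := (Real.cosh_pos x).ne'
  have h := (Real.hasDerivAt_sinh x).div (Real.hasDerivAt_cosh x) hc
  have e : (Real.cosh x * Real.cosh x - Real.sinh x * Real.sinh x) / Real.cosh x ^ 2
      = 1 - Real.tanh x ^ 2 := by
    rw [Real.tanh_eq_sinh_div_cosh]
    field_simp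
  rw [← e, show Real.tanh = fun x => Real.sinh x / Real.cosh x from
    funext Real.tanh_eq_sinh_div_cosh]
  exact h

theorem abs_tanh_le (x : ℝ) : |Real.tanh x| ≤ 1 := (Real.abs_tanh_lt_one x).le

theorem tanh_sq_le (x : ℝ) : Real.tanh x ^ 2 ≤ 1 := by
  have h := abs_tanh_le x
  rw [abs_le] at h
  nlinarith [h.1, h.2]

theorem tanh_lip (x y : ℝ) : |Real.tanh x - Real.tanh y| ≤ |x - y| := by
  have h := (convex_univ (𝕜 := ℝ) (E := ℝ)).norm_image_sub_le_of_norm_hasDerivWithin_le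
    (f := Real.tanh) (f' := fun z => 1 - Real.tanh z ^ 2) (C := 1)
    (fun z _ => (hasDerivAt_tanh' z).hasDerivWithinAt) (fun z _ => by
      rw [Real.norm_eq_abs, abs_of_nonneg (by linarith [tanh_sq_le z])]
      linarith [sq_nonneg (Real.tanh z)]) (Set.mem_univ y) (Set.mem_univ x)
  rw [Real.norm_eq_abs, Real.norm_eq_abs, one_mul] at h
  exact h

end VRemAux

open VRemAux

theorem nsq_Rv (κ ν ψ : ℝ) {M N : ℕ} (G : Fin M → Fin N → ℝ) (y : Fin N ⊕ Fin M → ℝ) :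
    nsq (Rv κ ν ψ G y) = Rsq κ ν ψ G (fun i => y (Sum.inl i), fun a => y (Sum.inr a)) := by
  unfold nsq Rsq nsq Rv
  rw [Fintype.sum_sum_type]
  rfl

/-- `qp ψ ≤ 1` and `0 < tp ν (qp ψ)` -/
theorem tp_pos' {ν : ℝ} (hν : 0 < ν) (ψ : ℝ) : qp ψ ≤ 1 ∧ 0 < tp ν (qp ψ) := by
  have h1 : qp ψ ≤ 1 := by
    unfold qp GE
    have hb : ∀ x : ℝ, ‖Real.tanh (Real.sqrt ψ * x) ^ 2‖ ≤ 1 := by
      intro x
      rw [Real.norm_eq_abs, abs_of_nonneg (sq_nonneg _)]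
      exact tanh_sq_le _
    have h := norm_integral_le_of_norm_le_const (μ := gaussianReal 0 1)
      (Filter.Eventually.of_forall hb)
    rw [probReal_univ, mul_one] at h
    exact (le_abs_self _).trans h
  refine ⟨h1, ?_⟩
  unfold tp
  exact Real.sqrt_pos.2 (by linarith)

theorem FF_taylor {κ ν ψ : ℝ} (hν : 0 < ν) (x t : ℝ) :
    |FF κ ν (qp ψ) (x + t) - FF κ ν (qp ψ) x + gf κ ν (qp ψ) x * t|
      ≤ 4 / tp ν (qp ψ) ^ 3 * t ^ 2 := by
  have hτ := (tp_pos' hν ψ).2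
  set τ := tp ν (qp ψ) with hτdef
  have h := taylor_lip (f := Mi) (f' := Md) (K := 4) MC.hasDerivAt_Mi MC.abs_Md_sub_le
    ((κ - x) / τ) (-t / τ)
  have e1 : (κ - x) / τ + -t / τ = (κ - (x + t)) / τ := by ring
  rw [e1] at h
  have e2 : FF κ ν (qp ψ) (x + t) - FF κ ν (qp ψ) x + gf κ ν (qp ψ) x * t
      = (Mi ((κ - (x + t)) / τ) - Mi ((κ - x) / τ) - Md ((κ - x) / τ) * (-t / τ)) / τ := by
    unfold FF gf
    rw [← hτdef]
    field_simp
    ring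
  rw [e2, abs_div, abs_of_pos hτ, div_le_iff₀ hτ]
  refine h.trans (le_of_eq ?_)
  field_simp

theorem tanh_taylor (x t : ℝ) :
    |Real.tanh (x + t) - Real.tanh x - (1 - Real.tanh x ^ 2) * t| ≤ 2 * t ^ 2 := by
  refine taylor_lip (f := Real.tanh) (f' := fun x => 1 - Real.tanh x ^ 2) hasDerivAt_tanh' ?_ x t
  intro x y
  have e : 1 - Real.tanh x ^ 2 - (1 - Real.tanh y ^ 2)
      = -((Real.tanh x - Real.tanh y) * (Real.tanh x + Real.tanh y)) := by ring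
  rw [e, abs_neg, abs_mul, mul_comm]
  refine mul_le_mul ?_ (tanh_lip x y) (abs_nonneg _) (by norm_num)
  refine (abs_add_le _ _).trans ?_
  linarith [abs_tanh_le x, abs_tanh_le y]

theorem rem_bound {κ ν ψ C : ℝ} (hν : 0 < ν) :
    ∃ K : ℝ, 0 < K ∧ ∀ (N M : ℕ) (G : Fin M → Fin N → ℝ), 0 < N → OpB C G →
      ∀ y δ : Fin N ⊕ Fin M → ℝ,
        nsq (fun j => Rv κ ν ψ G (y + δ) j - Rv κ ν ψ G y j
          - (Jm (1 - qp ψ) (-dd κ ν ψ) (Sv y) (gv κ ν ψ y) G *ᵥ δ) j) ≤ K * ∑ j, δ j ^ 4 := by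
  set A : ℝ := 4 / tp ν (qp ψ) ^ 3 with hA
  set b : ℝ := 1 - qp ψ with hb
  set d : ℝ := dd κ ν ψ with hd
  refine ⟨(2 * C ^ 2 + 2 * b ^ 2) * A ^ 2 + (2 * d ^ 2 + 2 * C ^ 2) * 4 + 1, by positivity, ?_⟩
  intro N M G hN hG y δ
  have hN' : (0 : ℝ) < N := by exact_mod_cast hN
  have hs : Real.sqrt N ^ 2 = N := Real.sq_sqrt hN'.le
  have hs0 : 0 < Real.sqrt N := Real.sqrt_pos.2 hN'
  -- the two remainders
  set rF : Fin M → ℝ := fun a => FF κ ν (qp ψ) (y (Sum.inr a) + δ (Sum.inr a))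
    - FF κ ν (qp ψ) (y (Sum.inr a)) + gf κ ν (qp ψ) (y (Sum.inr a)) * δ (Sum.inr a) with hrF
  set rT : Fin N → ℝ := fun i => Real.tanh (y (Sum.inl i) + δ (Sum.inl i))
    - Real.tanh (y (Sum.inl i)) - (1 - Real.tanh (y (Sum.inl i)) ^ 2) * δ (Sum.inl i) with hrT
  have hl : ∀ i : Fin N, Rv κ ν ψ G (y + δ) (Sum.inl i) - Rv κ ν ψ G y (Sum.inl i)
      - (Jm b (-d) (Sv y) (gv κ ν ψ y) G *ᵥ δ) (Sum.inl i)
      = (∑ a, G a i * rF a) / Real.sqrt N - d * rT i := by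
    intro i
    unfold Jm
    rw [fromBlocks_mulVec]
    simp only [Rv, R1, Sum.elim_inl, Pi.add_apply, mulVec_diagonal]
    simp only [Function.comp_apply, Sv, mulVec, dotProduct, of_apply, gv, hrF, hrT, ← hd]
    have e : ∑ a, G a i * (FF κ ν (qp ψ) (y (Sum.inr a) + δ (Sum.inr a))
        - FF κ ν (qp ψ) (y (Sum.inr a)) + gf κ ν (qp ψ) (y (Sum.inr a)) * δ (Sum.inr a))
        = ∑ a, G a i * FF κ ν (qp ψ) (y (Sum.inr a) + δ (Sum.inr a))
          - ∑ a, G a i * FF κ ν (qp ψ) (y (Sum.inr a))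
          + ∑ a, G a i * (gf κ ν (qp ψ) (y (Sum.inr a)) * δ (Sum.inr a)) := by
      rw [← Finset.sum_sub_distrib, ← Finset.sum_add_distrib]
      exact Finset.sum_congr rfl fun a _ => by ring
    have e2 : ∑ a, -(G a i * gf κ ν (qp ψ) (y (Sum.inr a))) / Real.sqrt N * δ (Sum.inr a)
        = -(∑ a, G a i * (gf κ ν (qp ψ) (y (Sum.inr a)) * δ (Sum.inr a))) / Real.sqrt N := by
      rw [← Finset.sum_neg_distrib, Finset.sum_div]
      exact Finset.sum_congr rfl fun a _ => by ring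
    rw [e, e2]
    ring
  have hr : ∀ a : Fin M, Rv κ ν ψ G (y + δ) (Sum.inr a) - Rv κ ν ψ G y (Sum.inr a)
      - (Jm b (-d) (Sv y) (gv κ ν ψ y) G *ᵥ δ) (Sum.inr a)
      = (∑ i, G a i * rT i) / Real.sqrt N - b * rF a := by
    intro a
    unfold Jm
    rw [fromBlocks_mulVec]
    simp only [Rv, R2, Sum.elim_inr, Pi.add_apply, mulVec_diagonal]
    simp only [Function.comp_apply, Sv, mulVec, dotProduct, of_apply, gv, hrF, hrT, ← hb]
    have e : ∑ i, G a i * (Real.tanh (y (Sum.inl i) + δ (Sum.inl i))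
        - Real.tanh (y (Sum.inl i)) - (1 - Real.tanh (y (Sum.inl i)) ^ 2) * δ (Sum.inl i))
        = ∑ i, G a i * Real.tanh (y (Sum.inl i) + δ (Sum.inl i))
          - ∑ i, G a i * Real.tanh (y (Sum.inl i))
          - ∑ i, G a i * ((1 - Real.tanh (y (Sum.inl i)) ^ 2) * δ (Sum.inl i)) := by
      rw [← Finset.sum_sub_distrib, ← Finset.sum_sub_distrib]
      exact Finset.sum_congr rfl fun a _ => by ring
    have e2 : ∑ i, G a i * (1 - Real.tanh (y (Sum.inl i)) ^ 2) / Real.sqrt N * δ (Sum.inl i)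
        = (∑ i, G a i * ((1 - Real.tanh (y (Sum.inl i)) ^ 2) * δ (Sum.inl i))) / Real.sqrt N := by
      rw [Finset.sum_div]
      exact Finset.sum_congr rfl fun a _ => by ring
    rw [e, e2]
    ring
  have hsq : ∀ u v : ℝ, (u - v) ^ 2 ≤ 2 * u ^ 2 + 2 * v ^ 2 := fun u v => by
    nlinarith [sq_nonneg (u + v)]
  -- norms of the remainders
  have hnF : nsq rF ≤ A ^ 2 * ∑ a, δ (Sum.inr a) ^ 4 := by
    unfold nsq
    rw [Finset.mul_sum]
    refine Finset.sum_le_sum fun a _ => ?_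
    have h := FF_taylor (κ := κ) (ν := ν) (ψ := ψ) hν (y (Sum.inr a)) (δ (Sum.inr a))
    calc rF a ^ 2 = |rF a| ^ 2 := (sq_abs _).symm
      _ ≤ (A * δ (Sum.inr a) ^ 2) ^ 2 := by
          exact pow_le_pow_left₀ (abs_nonneg _) h 2
      _ = A ^ 2 * δ (Sum.inr a) ^ 4 := by ring
  have hnT : nsq rT ≤ 4 * ∑ i, δ (Sum.inl i) ^ 4 := by
    unfold nsq
    rw [Finset.mul_sum]
    refine Finset.sum_le_sum fun i _ => ?_
    have h := tanh_taylor (y (Sum.inl i)) (δ (Sum.inl i))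
    calc rT i ^ 2 = |rT i| ^ 2 := (sq_abs _).symm
      _ ≤ (2 * δ (Sum.inl i) ^ 2) ^ 2 := by
          exact pow_le_pow_left₀ (abs_nonneg _) h 2
      _ = 4 * δ (Sum.inl i) ^ 4 := by ring
  have hG1 : ∑ i, (∑ a, G a i * rF a) ^ 2 ≤ C ^ 2 * N * nsq rF := OpB_tr hG rF
  have hG2 : ∑ a, (∑ i, G a i * rT i) ^ 2 ≤ C ^ 2 * N * nsq rT := hG rT
  have hd1 : ∑ i, ((∑ a, G a i * rF a) / Real.sqrt N) ^ 2 ≤ C ^ 2 * nsq rF := by
    have e : ∑ i, ((∑ a, G a i * rF a) / Real.sqrt N) ^ 2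
        = (∑ i, (∑ a, G a i * rF a) ^ 2) / N := by
      rw [Finset.sum_div]
      exact Finset.sum_congr rfl fun i _ => by rw [div_pow, hs]
    rw [e, div_le_iff₀ hN']
    linarith
  have hd2 : ∑ a, ((∑ i, G a i * rT i) / Real.sqrt N) ^ 2 ≤ C ^ 2 * nsq rT := by
    have e : ∑ a, ((∑ i, G a i * rT i) / Real.sqrt N) ^ 2
        = (∑ a, (∑ i, G a i * rT i) ^ 2) / N := by
      rw [Finset.sum_div]
      exact Finset.sum_congr rfl fun i _ => by rw [div_pow, hs]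
    rw [e, div_le_iff₀ hN']
    linarith
  have hF0 : 0 ≤ ∑ a, δ (Sum.inr a) ^ 4 := Finset.sum_nonneg fun a _ => by positivity
  have hT0 : 0 ≤ ∑ i, δ (Sum.inl i) ^ 4 := Finset.sum_nonneg fun a _ => by positivity
  have hb1 : ∑ i, ((∑ a, G a i * rF a) / Real.sqrt N - d * rT i) ^ 2
      ≤ 2 * (C ^ 2 * nsq rF) + 2 * d ^ 2 * nsq rT := by
    calc ∑ i, ((∑ a, G a i * rF a) / Real.sqrt N - d * rT i) ^ 2
        ≤ ∑ i, (2 * ((∑ a, G a i * rF a) / Real.sqrt N) ^ 2 + 2 * (d * rT i) ^ 2) :=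
          Finset.sum_le_sum fun i _ => hsq _ _
      _ = 2 * ∑ i, ((∑ a, G a i * rF a) / Real.sqrt N) ^ 2 + 2 * d ^ 2 * nsq rT := by
          rw [Finset.sum_add_distrib, ← Finset.mul_sum]
          unfold nsq
          rw [Finset.mul_sum (f := fun i => rT i ^ 2)]
          congr 1
          exact Finset.sum_congr rfl fun i _ => by ring
      _ ≤ _ := by linarith
  have hb2 : ∑ a, ((∑ i, G a i * rT i) / Real.sqrt N - b * rF a) ^ 2
      ≤ 2 * (C ^ 2 * nsq rT) + 2 * b ^ 2 * nsq rF := by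
    calc ∑ a, ((∑ i, G a i * rT i) / Real.sqrt N - b * rF a) ^ 2
        ≤ ∑ a, (2 * ((∑ i, G a i * rT i) / Real.sqrt N) ^ 2 + 2 * (b * rF a) ^ 2) :=
          Finset.sum_le_sum fun i _ => hsq _ _
      _ = 2 * ∑ a, ((∑ i, G a i * rT i) / Real.sqrt N) ^ 2 + 2 * b ^ 2 * nsq rF := by
          rw [Finset.sum_add_distrib, ← Finset.mul_sum]
          unfold nsq
          rw [Finset.mul_sum (f := fun i => rF i ^ 2)]
          congr 1
          exact Finset.sum_congr rfl fun i _ => by ring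
      _ ≤ _ := by linarith
  have htot : nsq (fun j => Rv κ ν ψ G (y + δ) j - Rv κ ν ψ G y j
      - (Jm b (-d) (Sv y) (gv κ ν ψ y) G *ᵥ δ) j)
      = ∑ i, ((∑ a, G a i * rF a) / Real.sqrt N - d * rT i) ^ 2
        + ∑ a, ((∑ i, G a i * rT i) / Real.sqrt N - b * rF a) ^ 2 := by
    unfold nsq
    rw [Fintype.sum_sum_type]
    congr 1
    · exact Finset.sum_congr rfl fun i _ => congrArg (· ^ 2) (hl i)
    · exact Finset.sum_congr rfl fun a _ => congrArg (· ^ 2) (hr a)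
  rw [htot, Fintype.sum_sum_type]
  have h1 : (2 * C ^ 2 + 2 * b ^ 2) * nsq rF
      ≤ (2 * C ^ 2 + 2 * b ^ 2) * (A ^ 2 * ∑ a, δ (Sum.inr a) ^ 4) :=
    mul_le_mul_of_nonneg_left hnF (by positivity)
  have h2 : (2 * d ^ 2 + 2 * C ^ 2) * nsq rT
      ≤ (2 * d ^ 2 + 2 * C ^ 2) * (4 * ∑ i, δ (Sum.inl i) ^ 4) :=
    mul_le_mul_of_nonneg_left hnT (by positivity)
  have h3 : 0 ≤ ((2 * C ^ 2 + 2 * b ^ 2) * A ^ 2 + 1) * ∑ i, δ (Sum.inl i) ^ 4 :=
    mul_nonneg (by positivity) hT0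
  have h4 : 0 ≤ ((2 * d ^ 2 + 2 * C ^ 2) * 4 + 1) * ∑ a, δ (Sum.inr a) ^ 4 :=
    mul_nonneg (by positivity) hF0
  nlinarith [h1, h2, h3, h4, hb1, hb2]

end Pool.Agent.IP49
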