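import Pool.Agent.IP49.VStep

/-!
IP49, part U2: expectation of `det X_M` on the event of positivity along the path (note 1615).

`qk_eq`: expand. `Xk_succ`: `yk (k+1) = yk k - g_k / N`, the sum gains the row `k`.
`upd_mp`: replacing one row by an independent copy (copy the proof of `Pool.Agent.NE.gaussN_mp`,
file `NE/GaussN.lean`).
`rows_det`: let `O_k = {∀ j ≤ k, ∀ u, c |u|² ≤ q_j(u)}`, `I_k = ∫⁻_{O_k} ofReal (det X_k) dGM`.
`I_0 ≤ ofReal (det X_0)` (probability measure), `X_0` is diagonal. `I_{k+1} ≤ I_k β_k`: `O_{k+1} ⊆ O_k`;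
`X_j (update G k x) = X_j G` for `j ≤ k`, so by `upd_mp`
`∫⁻_{O_k} ofReal (det X_{k+1}) = ∫⁻ G, 1_{O_k}(G) ∫⁻ x, ofReal (det (X_k(G) - .. + ..)) ≤ I_k β_k`
(`row_step`). `PathPos = O_M`.
-/

set_option autoImplicit false
open MeasureTheory ProbabilityTheory Matrix

namespace Pool.Agent.IP49

noncomputable section

/-- the matrix of the quadratic form `qk` -/
def Xk {M N : ℕ} (b D : ℝ) (S : Fin N → ℝ) (g : Fin M → ℝ) (G : Fin M → Fin N → ℝ) (k : ℕ) :
    Matrix (Fin N) (Fin N) ℝ :=
  diagonal (fun i => 1 + (yk N g k - D) * S i) + ∑ a : Fin M, if (a : ℕ) < k then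
    (Wg b (g a) / N) • vecMulVec (fun i => Real.sqrt (S i) * G a i)
      (fun i => Real.sqrt (S i) * G a i) else 0

end

variable {M N : ℕ}

private theorem vmv85 {n : Type*} [Fintype n] (s u : n → ℝ) :
    u ⬝ᵥ (vecMulVec s s *ᵥ u) = (∑ i, s i * u i) ^ 2 := by
  have h : vecMulVec s s *ᵥ u = (∑ i, s i * u i) • s := by
    funext i
    simp only [mulVec, dotProduct, vecMulVec_apply, Pi.smul_apply, smul_eq_mul, Finset.sum_mul]
    exact Finset.sum_congr rfl fun j _ => by ring
  rw [h, dotProduct_smul, smul_eq_mul, sq]
  congr 1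
  simp only [dotProduct]
  exact Finset.sum_congr rfl fun j _ => by ring

theorem qk_eq (b D : ℝ) (S : Fin N → ℝ) (g : Fin M → ℝ) (G : Fin M → Fin N → ℝ) (k : ℕ)
    (u : Fin N → ℝ) : qk b D S g G k u = u ⬝ᵥ Xk b D S g G k *ᵥ u := by
  unfold qk Xk
  rw [add_mulVec, dotProduct_add, sum_mulVec, dotProduct_sum]
  congr 1
  · simp only [dotProduct, mulVec_diagonal]
    exact Finset.sum_congr rfl fun i _ => by ring
  · rw [Finset.sum_div]
    refine Finset.sum_congr rfl fun a _ => ?_
    split_ifs with h
    · rw [smul_mulVec, dotProduct_smul, vmv85, smul_eq_mul]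
      have : (∑ i, G a i * (Real.sqrt (S i) * u i)) = ∑ i, Real.sqrt (S i) * G a i * u i :=
        Finset.sum_congr rfl fun i _ => by ring
      rw [this]
      ring
    · simp

theorem Xk_symm (b D : ℝ) (S : Fin N → ℝ) (g : Fin M → ℝ) (G : Fin M → Fin N → ℝ) (k : ℕ) :
    (Xk b D S g G k)ᵀ = Xk b D S g G k := by
  unfold Xk
  rw [transpose_add, diagonal_transpose, transpose_sum]
  congr 1
  refine Finset.sum_congr rfl fun a _ => ?_
  split_ifs with h
  · rw [transpose_smul, transpose_vecMulVec]
  · simp

theorem Xk_succ (b D : ℝ) (S : Fin N → ℝ) (g : Fin M → ℝ) (G : Fin M → Fin N → ℝ) (k : Fin M) :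
    Xk b D S g G (k + 1) = Xk b D S g G k - (g k / N) • diagonal S + (Wg b (g k) / N) •
      vecMulVec (fun i => Real.sqrt (S i) * G k i) (fun i => Real.sqrt (S i) * G k i) := by
  have hy : yk N g (k + 1) = yk N g k - g k / N := by
    unfold yk
    rw [← sub_div]
    congr 1
    rw [eq_sub_iff_add_eq]
    have h1 : (∑ a : Fin M, if a = k then g k else 0) = g k := by simp
    rw [← h1, ← Finset.sum_add_distrib]
    refine Finset.sum_congr rfl fun a _ => ?_
    by_cases h2 : a = k
    · subst h2
      simp
    · have h3 : (a : ℕ) ≠ (k : ℕ) := fun h => h2 (Fin.ext h)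
      by_cases h4 : (k : ℕ) ≤ (a : ℕ)
      · rw [if_pos (by omega), if_neg h2, if_pos h4, add_zero]
      · rw [if_neg (by omega), if_neg h2, if_neg h4, add_zero]
  have hs : (∑ a : Fin M, if (a : ℕ) < (k : ℕ) + 1 then
      (Wg b (g a) / N) • vecMulVec (fun i => Real.sqrt (S i) * G a i)
        (fun i => Real.sqrt (S i) * G a i) else 0) =
      (∑ a : Fin M, if (a : ℕ) < (k : ℕ) then
      (Wg b (g a) / N) • vecMulVec (fun i => Real.sqrt (S i) * G a i)
        (fun i => Real.sqrt (S i) * G a i) else 0) + (Wg b (g k) / N) •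
      vecMulVec (fun i => Real.sqrt (S i) * G k i) (fun i => Real.sqrt (S i) * G k i) := by
    have h1 : (∑ a : Fin M, if a = k then (Wg b (g k) / N) •
      vecMulVec (fun i => Real.sqrt (S i) * G k i) (fun i => Real.sqrt (S i) * G k i) else 0) =
        (Wg b (g k) / N) • vecMulVec (fun i => Real.sqrt (S i) * G k i)
          (fun i => Real.sqrt (S i) * G k i) := by simp
    rw [← h1, ← Finset.sum_add_distrib]
    refine Finset.sum_congr rfl fun a _ => ?_
    by_cases h2 : a = k
    · subst h2
      simp
    · have h3 : (a : ℕ) ≠ (k : ℕ) := fun h => h2 (Fin.ext h)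
      by_cases h4 : (a : ℕ) < (k : ℕ)
      · rw [if_pos (by omega), if_neg h2, if_pos h4, add_zero]
      · rw [if_neg (by omega), if_neg h2, if_neg h4, add_zero]
  unfold Xk
  rw [hs, hy, ← add_assoc]
  congr 1
  rw [add_sub_right_comm]
  congr 1
  rw [← diagonal_smul, diagonal_sub]
  congr 1
  funext i
  simp only [Pi.smul_apply, smul_eq_mul]
  ring

theorem upd_mp (k : Fin M) : MeasurePreserving
    (fun p : (Fin M → Fin N → ℝ) × (Fin N → ℝ) => Function.update p.1 k p.2)
    ((GM M N).prod (gs (Fin N))) (GM M N) := by
  have hprob : IsProbabilityMeasure (gs (Fin N)) := by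
    unfold gs
    infer_instance
  have hGM : GM M N = Measure.pi fun _ : Fin M => gs (Fin N) := rfl
  rw [hGM]
  have hmeas : Measurable (fun p : (Fin M → Fin N → ℝ) × (Fin N → ℝ) =>
      Function.update p.1 k p.2) := by
    refine measurable_pi_iff.2 fun j => ?_
    by_cases hj : j = k
    · subst hj
      simpa using measurable_snd
    · simp only [Function.update_of_ne hj]
      exact (measurable_pi_apply j).comp measurable_fst
  refine ⟨hmeas, ?_⟩
  symm
  refine Measure.pi_eq fun s hs => ?_
  rw [Measure.map_apply hmeas (MeasurableSet.univ_pi hs)]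
  have hset : (fun p : (Fin M → Fin N → ℝ) × (Fin N → ℝ) => Function.update p.1 k p.2) ⁻¹'
      (Set.univ.pi s) = (Set.univ.pi (Function.update s k Set.univ)) ×ˢ (s k) := by
    ext ⟨x, t⟩
    simp only [Set.mem_preimage, Set.mem_pi, Set.mem_univ, true_implies, Set.mem_prod]
    constructor
    · intro h
      refine ⟨fun j => ?_, ?_⟩
      · by_cases hj : j = k
        · subst hj; simp
        · have := h j
          rw [Function.update_of_ne hj] at this
          rw [Function.update_of_ne hj]
          exact this
      · simpa using h k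
    · rintro ⟨h1, h2⟩ j
      by_cases hj : j = k
      · subst hj; simpa using h2
      · have := h1 j
        rw [Function.update_of_ne hj] at this
        rw [Function.update_of_ne hj]
        exact this
  rw [hset, Measure.prod_prod, Measure.pi_pi,
    ← Finset.mul_prod_erase Finset.univ _ (Finset.mem_univ k),
    ← Finset.mul_prod_erase Finset.univ (fun j => gs (Fin N) (s j)) (Finset.mem_univ k)]
  simp only [Function.update_self, measure_univ, one_mul]
  rw [mul_comm]
  congr 1
  refine Finset.prod_congr rfl fun j hj => ?_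
  rw [Function.update_of_ne (Finset.ne_of_mem_erase hj)]

/-- the matrix `X_j` does not depend on the rows `≥ j` -/
private theorem Xk_upd85 (b D : ℝ) (S : Fin N → ℝ) (g : Fin M → ℝ) (G : Fin M → Fin N → ℝ)
    (k : Fin M) (x : Fin N → ℝ) {j : ℕ} (hj : j ≤ (k : ℕ)) :
    Xk b D S g (Function.update G k x) j = Xk b D S g G j := by
  unfold Xk
  congr 1
  refine Finset.sum_congr rfl fun a _ => ?_
  split_ifs with h
  · have : a ≠ k := fun h2 => by subst h2; omega
    rw [Function.update_of_ne this]
  · rfl

/-- positivity up to `k` -/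
private def O85 (c b D : ℝ) (S : Fin N → ℝ) (g : Fin M → ℝ) (k : ℕ) :
    Set (Fin M → Fin N → ℝ) :=
  {G | ∀ j ≤ k, ∀ u : Fin N → ℝ, c * nsq u ≤ qk b D S g G j u}

private theorem cont_qk85 (b D : ℝ) (S : Fin N → ℝ) (g : Fin M → ℝ) (k : ℕ) (u : Fin N → ℝ) :
    Continuous fun G : Fin M → Fin N → ℝ => qk b D S g G k u := by
  unfold qk
  refine continuous_const.add (Continuous.div_const ?_ _)
  refine continuous_finsetSum _ fun a _ => ?_
  split_ifs with h
  · fun_prop
  · exact continuous_const

private theorem cont_Xk85 (b D : ℝ) (S : Fin N → ℝ) (g : Fin M → ℝ) (k : ℕ) :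
    Continuous fun G : Fin M → Fin N → ℝ => (Xk b D S g G k).det := by
  refine Continuous.matrix_det ?_
  unfold Xk
  refine continuous_const.add ?_
  refine continuous_finsetSum _ fun a _ => ?_
  split_ifs with h
  · have hv : Continuous fun G : Fin M → Fin N → ℝ => fun i => Real.sqrt (S i) * G a i := by
      fun_prop
    exact (hv.matrix_vecMulVec hv).const_smul (Wg b (g a) / (N : ℝ))
  · exact continuous_const

private theorem meas_O85 (c b D : ℝ) (S : Fin N → ℝ) (g : Fin M → ℝ) (k : ℕ) :
    MeasurableSet (O85 c b D S g k) := by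
  refine IsClosed.measurableSet ?_
  have : O85 c b D S g k = ⋂ (j : ℕ) (_ : j ≤ k) (u : Fin N → ℝ),
      {G | c * nsq u ≤ qk b D S g G j u} := by
    ext G
    simp [O85]
  rw [this]
  refine isClosed_iInter fun j => isClosed_iInter fun _ => isClosed_iInter fun u => ?_
  exact isClosed_le continuous_const (cont_qk85 b D S g j u)

theorem rows_det (hN : 0 < N) {c b D : ℝ} (hc : 0 < c) (hb : 0 < b) {S : Fin N → ℝ}
    {g : Fin M → ℝ} (hS : ∀ i, 0 < S i ∧ S i ≤ 1) (hg : ∀ a, 0 < g a ∧ b * g a < 1)
    (hgN : ∀ a, g a / N ≤ c / 2) :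
    ∫⁻ G in {G | PathPos c b D S g G}, ENNReal.ofReal (Xk b D S g G M).det ∂(GM M N)
      ≤ ENNReal.ofReal ((∏ i, (1 + (yk N g 0 - D) * S i)) *
          ∏ a, (Real.exp (2 * g a ^ 2 / (c ^ 2 * N)) * (1 - b * g a)⁻¹
            * Real.exp (-(b * g a)))) := by
  have hprob : IsProbabilityMeasure (gs (Fin N)) := by
    unfold gs
    infer_instance
  have hprobG : IsProbabilityMeasure (GM M N) := by
    unfold GM
    infer_instance
  set β : Fin M → ℝ := fun a => Real.exp (2 * g a ^ 2 / (c ^ 2 * N)) * (1 - b * g a)⁻¹
            * Real.exp (-(b * g a)) with hβ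
  have hβ0 : ∀ a, 0 ≤ β a := by
    intro a
    have h1 : 0 < 1 - b * g a := by linarith [(hg a).2]
    positivity
  have key : ∀ k : ℕ, k ≤ M → ∫⁻ G in O85 c b D S g k, ENNReal.ofReal (Xk b D S g G k).det
      ∂(GM M N) ≤ ENNReal.ofReal (∏ i, (1 + (yk N g 0 - D) * S i)) *
        ∏ a : Fin M, if (a : ℕ) < k then ENNReal.ofReal (β a) else 1 := by
    intro k
    induction k with
    | zero =>
      intro _
      have h0 : ∀ G : Fin M → Fin N → ℝ, (Xk b D S g G 0).det =
          ∏ i, (1 + (yk N g 0 - D) * S i) := by
        intro G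
        unfold Xk
        simp [det_diagonal]
      simp only [h0, not_lt_zero, if_false, Finset.prod_const_one, mul_one]
      rw [lintegral_const]
      refine mul_le_of_le_one_right' ?_
      rw [Measure.restrict_apply_univ]
      exact prob_le_one
    | succ k ih =>
      intro hk
      have hkM : k < M := hk
      set kk : Fin M := ⟨k, hkM⟩ with hkk
      have hprodk : (∏ a : Fin M, if (a : ℕ) < k + 1 then ENNReal.ofReal (β a) else 1) =
          (∏ a : Fin M, if (a : ℕ) < k then ENNReal.ofReal (β a) else 1) *
            ENNReal.ofReal (β kk) := by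
        have h1 : (∏ a : Fin M, if a = kk then ENNReal.ofReal (β kk) else 1) =
            ENNReal.ofReal (β kk) := by simp
        rw [← h1, ← Finset.prod_mul_distrib]
        refine Finset.prod_congr rfl fun a _ => ?_
        by_cases h2 : a = kk
        · subst h2
          simp [hkk]
        · have h3 : (a : ℕ) ≠ k := fun h => h2 (Fin.ext h)
          by_cases h4 : (a : ℕ) < k
          · rw [if_pos (by omega), if_pos h4, if_neg h2, mul_one]
          · rw [if_neg (by omega), if_neg h4, if_neg h2, mul_one]
      rw [hprodk, ← mul_assoc]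
      have hsub : O85 c b D S g (k + 1) ⊆ O85 (M := M) (N := N) c b D S g k :=
        fun G hG j hj => hG j (by omega)
      have hm2 : Measurable fun G : Fin M → Fin N → ℝ =>
          ENNReal.ofReal (Xk b D S g G (k + 1)).det :=
        (cont_Xk85 b D S g (k + 1)).measurable.ennreal_ofReal
      have hm1 : Measurable fun G : Fin M → Fin N → ℝ =>
          ENNReal.ofReal (Xk b D S g G k).det :=
        (cont_Xk85 b D S g k).measurable.ennreal_ofReal
      have hind : Measurable ((O85 (M := M) (N := N) c b D S g k).indicator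
          fun G => ENNReal.ofReal (Xk b D S g G (k + 1)).det) :=
        hm2.indicator (meas_O85 c b D S g k)
      calc ∫⁻ G in O85 c b D S g (k + 1), ENNReal.ofReal (Xk b D S g G (k + 1)).det ∂(GM M N)
          ≤ ∫⁻ G in O85 c b D S g k, ENNReal.ofReal (Xk b D S g G (k + 1)).det ∂(GM M N) :=
            lintegral_mono_set hsub
        _ = ∫⁻ G, (O85 c b D S g k).indicator
              (fun G => ENNReal.ofReal (Xk b D S g G (k + 1)).det) G ∂(GM M N) := by
            rw [lintegral_indicator (meas_O85 c b D S g k)]
        _ = ∫⁻ p : (Fin M → Fin N → ℝ) × (Fin N → ℝ), (O85 c b D S g k).indicator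
              (fun G => ENNReal.ofReal (Xk b D S g G (k + 1)).det) (Function.update p.1 kk p.2)
                ∂((GM M N).prod (gs (Fin N))) := by
            rw [← (upd_mp kk).lintegral_comp hind]
        _ = ∫⁻ G, ∫⁻ x, (O85 c b D S g k).indicator
              (fun G => ENNReal.ofReal (Xk b D S g G (k + 1)).det) (Function.update G kk x)
                ∂(gs (Fin N)) ∂(GM M N) := by
            exact lintegral_prod _ (hind.comp (upd_mp kk).measurable).aemeasurable
        _ ≤ ∫⁻ G, (O85 c b D S g k).indicator
              (fun G => ENNReal.ofReal (Xk b D S g G k).det * ENNReal.ofReal (β kk)) G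
                ∂(GM M N) := by
            refine lintegral_mono fun G => ?_
            have hO : ∀ x, Function.update G kk x ∈ O85 c b D S g k ↔ G ∈ O85 c b D S g k := by
              intro x
              simp only [O85, Set.mem_ofPred_eq]
              refine forall_congr' fun j => forall_congr' fun hj => forall_congr' fun u => ?_
              rw [qk_eq, qk_eq, Xk_upd85 b D S g G kk x (by simpa [hkk] using hj)]
            by_cases hG : G ∈ O85 c b D S g k
            · rw [Set.indicator_of_mem hG]
              have h1 : ∀ x, (O85 c b D S g k).indicator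
                  (fun G => ENNReal.ofReal (Xk b D S g G (k + 1)).det) (Function.update G kk x) =
                  ENNReal.ofReal ((Xk b D S g G k - (g kk / N) • diagonal S +
                    (Wg b (g kk) / N) • vecMulVec (fun i => Real.sqrt (S i) * x i)
                      (fun i => Real.sqrt (S i) * x i)).det) := by
                intro x
                rw [Set.indicator_of_mem ((hO x).2 hG)]
                have h2 := Xk_succ b D S g (Function.update G kk x) kk
                rw [Xk_upd85 b D S g G kk x (le_refl _)] at h2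
                simp only [Function.update_self] at h2
                have h3 : Xk b D S g (Function.update G kk x) (k + 1) =
                    Xk b D S g (Function.update G kk x) (kk + 1) := rfl
                rw [h3, h2]
              simp only [h1]
              have h4 := row_step hN (Xk_symm b D S g G k) hc
                (fun u => by rw [← qk_eq]; exact hG k le_rfl u) hS hb (hg kk).1 (hg kk).2 (hgN kk)
              refine h4.trans ?_
              rw [← ENNReal.ofReal_mul' (hβ0 kk)]
            · have h1 : ∀ x, (O85 c b D S g k).indicator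
                  (fun G => ENNReal.ofReal (Xk b D S g G (k + 1)).det) (Function.update G kk x) =
                  0 := by
                intro x
                exact Set.indicator_of_notMem (fun h => hG ((hO x).1 h)) _
              simp only [h1, lintegral_zero]
              exact bot_le
        _ = (∫⁻ G in O85 c b D S g k, ENNReal.ofReal (Xk b D S g G k).det ∂(GM M N)) *
              ENNReal.ofReal (β kk) := by
            rw [lintegral_indicator (meas_O85 c b D S g k), lintegral_mul_const _ hm1]
        _ ≤ _ := by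
            gcongr
            exact ih (by omega)
  have hfin := key M le_rfl
  have hset : {G : Fin M → Fin N → ℝ | PathPos c b D S g G} = O85 c b D S g M := rfl
  rw [hset]
  refine hfin.trans (le_of_eq ?_)
  have h5 : (∏ a : Fin M, if (a : ℕ) < M then ENNReal.ofReal (β a) else 1) =
      ENNReal.ofReal (∏ a, β a) := by
    rw [ENNReal.ofReal_prod_of_nonneg fun a _ => hβ0 a]
    exact Finset.prod_congr rfl fun a _ => if_pos a.2
  rw [h5, ← ENNReal.ofReal_mul' (Finset.prod_nonneg fun a _ => hβ0 a)]

end Pool.Agent.IP49
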