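import Pool.Agent.IP49.VDet
import Pool.Agent.IP49.VPath

/-!
IP49, part U2: adding one row (note 1615).

Put `δ = g/N ≤ c/2`, `X' = X - δ S` (so `X' ⪰ c/2`, since `S ≤ 1`), `s = √S x`, `W = g/(1 - b g)`.
(1) `det (X' + (W/N) s sᵀ) = det X' (1 + (W/N) s ⬝ X'⁻¹ s)` (`det_rank_one`), nonnegative.
(2) `E[s_i s_j] = S_i δ_ij`, so `E[s ⬝ X'⁻¹ s] = tr (S X'⁻¹) =: N ξ`, `ξ ≥ 0`: the expectation is
    `det X' (1 + W ξ)` (`integral` of a quadratic form under `gs`, variance one, mean zero,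
    independent coordinates; then `ofReal_integral_eq_lintegral_ofReal`).
(3) `det X' ≤ det X exp(-δ tr (X⁻¹ S))` (`det_le_det_mul_exp`).
(4) `tr (S X'⁻¹) - tr (S X⁻¹) = δ tr (S X'⁻¹ S X⁻¹) ≤ δ N (2/c)(1/c)`
    (`X'⁻¹ - X⁻¹ = X'⁻¹ (X - X') X⁻¹`; `tr (P Q) ≤ |P|_F |Q|_F`, or: `tr (S^{1/2} X'⁻¹ S X⁻¹ S^{1/2})`
    `= ∑_i (X'⁻¹ s_i) ⬝ S (X⁻¹ s_i)`, `s_i = √S_i e_i`, and `inv_quad_le` bounds both factors:
    `≤ ∑_i (2/c) √S_i (1/c) √S_i`).
    So `δ tr (S X⁻¹) ≥ g ξ - 2 g²/(c² N)`.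
(5) for every `ξ ≥ 0`: `(1 + W ξ) e^{-g ξ} ≤ (1 + W b) e^{-g b}`, `1 + W b = 1/(1 - b g)`:
    `1 + W ξ = (1 + W b)(1 + W (ξ - b)/(1 + W b)) = (1 + W b)(1 + g (ξ - b)) ≤ (1 + W b) e^{g(ξ-b)}`.
-/

set_option autoImplicit false
open MeasureTheory ProbabilityTheory Matrix

namespace Pool.Agent.IP49

/-- expectation of a product of two coordinates -/
theorem gs_coord_mul {n : Type*} [Fintype n] [DecidableEq n] (i j : n) :
    Integrable (fun x : n → ℝ => x i * x j) (gs n) ∧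
      ∫ x, x i * x j ∂(gs n) = if i = j then 1 else 0 := by
  have hmp : ∀ k : n, MeasurePreserving (fun x : n → ℝ => x k) (gs n) (gaussianReal 0 1) :=
    fun k => measurePreserving_eval (fun _ : n => gaussianReal 0 1) k
  have hprob : IsProbabilityMeasure (gs n) := by unfold gs; infer_instance
  have hL2 : ∀ k : n, MemLp (fun x : n → ℝ => x k) 2 (gs n) := by
    intro k
    have h := memLp_id_gaussianReal' (μ := 0) (v := 1) 2 (by simp)
    exact h.comp_measurePreserving (hmp k)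
  have hmean : ∀ k : n, ∫ x, x k ∂(gs n) = 0 := by
    intro k
    have h1 : ∫ x : n → ℝ, x k ∂(gs n) = ∫ y, y ∂(gaussianReal 0 1) := by
      rw [← (hmp k).map_eq, integral_map (measurable_pi_apply k).aemeasurable (by fun_prop)]
    rw [h1]; simp
  refine ⟨(hL2 i).integrable_mul (hL2 j), ?_⟩
  have hcov : cov[fun x : n → ℝ => x i, fun x => x j; gs n] = if i = j then 1 else 0 := by
    split_ifs with h
    · subst h
      rw [covariance_self (measurable_pi_apply i).aemeasurable]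
      have h2 := variance_map (X := id) (Y := fun x : n → ℝ => x i) (μ := gs n)
        measurable_id.aemeasurable (measurable_pi_apply i).aemeasurable
      rw [(hmp i).map_eq] at h2
      have h3 : Var[fun x : n → ℝ => x i; gs n] = Var[id; gaussianReal 0 1] := by
        rw [h2]; rfl
      rw [h3]
      simp
    · have hi := iIndepFun_pi (μ := fun _ : n => gaussianReal 0 1) (X := fun (_ : n) (y : ℝ) => y)
        (fun _ => aemeasurable_id)
      exact (hi.indepFun h).covariance_eq_zero (hL2 i) (hL2 j)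
  rw [covariance_eq_sub (hL2 i) (hL2 j), hmean i, hmean j] at hcov
  simpa using hcov

/-- expectation of a quadratic form -/
theorem integral_quad {n : Type*} [Fintype n] [DecidableEq n] (Q : Matrix n n ℝ) :
    Integrable (fun x : n → ℝ => x ⬝ᵥ Q *ᵥ x) (gs n) ∧
      ∫ x, x ⬝ᵥ Q *ᵥ x ∂(gs n) = Q.trace := by
  have he : (fun x : n → ℝ => x ⬝ᵥ Q *ᵥ x) = fun x => ∑ i, ∑ j, Q i j * (x i * x j) := by
    funext x
    simp only [dotProduct, mulVec, Finset.mul_sum]
    refine Finset.sum_congr rfl fun i _ => Finset.sum_congr rfl fun j _ => ?_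
    ring
  rw [he]
  have hi : ∀ i j, Integrable (fun x : n → ℝ => Q i j * (x i * x j)) (gs n) :=
    fun i j => (gs_coord_mul i j).1.const_mul _
  refine ⟨integrable_finsetSum _ fun i _ => integrable_finsetSum _ fun j _ => hi i j, ?_⟩
  rw [integral_finsetSum _ fun i _ => integrable_finsetSum _ fun j _ => hi i j]
  refine Finset.sum_congr rfl fun i _ => ?_
  rw [integral_finsetSum _ fun j _ => hi i j]
  simp_rw [integral_const_mul, (gs_coord_mul i _).2]
  simp

private theorem quad_diag {n : Type*} [Fintype n] [DecidableEq n] (S : n → ℝ) (u : n → ℝ) :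
    u ⬝ᵥ (diagonal S) *ᵥ u = ∑ i, S i * u i ^ 2 := by
  simp only [dotProduct, mulVec_diagonal]
  refine Finset.sum_congr rfl fun i _ => ?_
  ring

private theorem trace_mul_diag {n : Type*} [Fintype n] [DecidableEq n] (Y : Matrix n n ℝ)
    (S : n → ℝ) : (Y * diagonal S).trace = ∑ i, Y i i * S i := by
  simp only [trace, diag_apply, mul_diagonal]

theorem row_step {N : ℕ} (hN : 0 < N) {X : Matrix (Fin N) (Fin N) ℝ} (hX : Xᵀ = X)
    {c b g : ℝ} (hc : 0 < c) (hcX : ∀ u : Fin N → ℝ, c * nsq u ≤ u ⬝ᵥ X *ᵥ u)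
    {S : Fin N → ℝ} (hS : ∀ i, 0 < S i ∧ S i ≤ 1) (hb : 0 < b) (hg : 0 < g) (hbg : b * g < 1)
    (hgN : g / N ≤ c / 2) :
    ∫⁻ x, ENNReal.ofReal ((X - (g / N) • diagonal S + (Wg b g / N) •
      vecMulVec (fun i => Real.sqrt (S i) * x i) (fun i => Real.sqrt (S i) * x i)).det)
        ∂(gs (Fin N))
      ≤ ENNReal.ofReal (X.det * (Real.exp (2 * g ^ 2 / (c ^ 2 * N)) * (1 - b * g)⁻¹
          * Real.exp (-(b * g)))) := by
  have hN' : (0:ℝ) < N := by exact_mod_cast hN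
  set δ : ℝ := g / N with hδ
  have hδ0 : 0 < δ := div_pos hg hN'
  set X' : Matrix (Fin N) (Fin N) ℝ := X - δ • diagonal S with hX'
  have h1bg : 0 < 1 - b * g := by linarith
  have hW : 0 < Wg b g := div_pos hg h1bg
  have hX'T : X'ᵀ = X' := by
    rw [hX', transpose_sub, transpose_smul, diagonal_transpose, hX]
  have hX'c : ∀ u : Fin N → ℝ, c / 2 * nsq u ≤ u ⬝ᵥ X' *ᵥ u := by
    intro u
    have h1 : u ⬝ᵥ X' *ᵥ u = u ⬝ᵥ X *ᵥ u - δ * ∑ i, S i * u i ^ 2 := by
      rw [hX', sub_mulVec, dotProduct_sub, smul_mulVec, dotProduct_smul, quad_diag, smul_eq_mul]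
    have h2 : ∑ i, S i * u i ^ 2 ≤ nsq u := by
      unfold nsq
      refine Finset.sum_le_sum fun i _ => ?_
      have := mul_le_mul_of_nonneg_right (hS i).2 (sq_nonneg (u i))
      linarith
    have h3 : 0 ≤ nsq u := Finset.sum_nonneg fun i _ => sq_nonneg _
    have h4 : δ * ∑ i, S i * u i ^ 2 ≤ c / 2 * nsq u :=
      le_trans (mul_le_mul_of_nonneg_left h2 hδ0.le) (mul_le_mul_of_nonneg_right hgN h3)
    rw [h1]
    linarith [hcX u]
  have hP := posDef_of_le hX hc hcX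
  have hP' := posDef_of_le hX'T (half_pos hc) hX'c
  have hu' : IsUnit X'.det := isUnit_iff_ne_zero.mpr hP'.det_pos.ne'
  have hu : IsUnit X.det := isUnit_iff_ne_zero.mpr hP.det_pos.ne'
  set Q : Matrix (Fin N) (Fin N) ℝ :=
    diagonal (fun i => Real.sqrt (S i)) * X'⁻¹ * diagonal (fun i => Real.sqrt (S i)) with hQ
  have hq : ∀ x : Fin N → ℝ, (fun i => Real.sqrt (S i) * x i) ⬝ᵥ X'⁻¹ *ᵥ
      (fun i => Real.sqrt (S i) * x i) = x ⬝ᵥ Q *ᵥ x := by
    intro x
    have e1 : (fun i => Real.sqrt (S i) * x i) = diagonal (fun i => Real.sqrt (S i)) *ᵥ x := by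
      funext i
      rw [mulVec_diagonal]
    rw [hQ, ← mulVec_mulVec, ← mulVec_mulVec, ← e1]
    simp only [dotProduct, mulVec_diagonal]
    refine Finset.sum_congr rfl fun i _ => ?_
    ring
  have hdet : ∀ x : Fin N → ℝ, (X' + (Wg b g / N) • vecMulVec (fun i => Real.sqrt (S i) * x i)
      (fun i => Real.sqrt (S i) * x i)).det = X'.det * (1 + Wg b g / N * (x ⬝ᵥ Q *ᵥ x)) := by
    intro x
    rw [det_rank_one hu', hq]
  have hQ0 : ∀ x : Fin N → ℝ, 0 ≤ x ⬝ᵥ Q *ᵥ x := by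
    intro x
    rw [← hq]
    exact (inv_quad_le hX'T (half_pos hc) hX'c _).2.1
  have hint : Integrable (fun x : Fin N → ℝ => X'.det * (1 + Wg b g / N * (x ⬝ᵥ Q *ᵥ x)))
      (gs (Fin N)) := by
    have hprob : IsProbabilityMeasure (gs (Fin N)) := by unfold gs; infer_instance
    exact ((integrable_const (1:ℝ)).add ((integral_quad Q).1.const_mul _)).const_mul _
  have hval : ∫ x : Fin N → ℝ, X'.det * (1 + Wg b g / N * (x ⬝ᵥ Q *ᵥ x)) ∂(gs (Fin N)) =
      X'.det * (1 + Wg b g / N * Q.trace) := by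
    have hprob : IsProbabilityMeasure (gs (Fin N)) := by unfold gs; infer_instance
    rw [integral_const_mul, integral_add (integrable_const (1:ℝ))
      ((integral_quad Q).1.const_mul _), integral_const_mul, (integral_quad Q).2]
    simp
  have hl : ∫⁻ x, ENNReal.ofReal ((X' + (Wg b g / N) • vecMulVec (fun i => Real.sqrt (S i) * x i)
      (fun i => Real.sqrt (S i) * x i)).det) ∂(gs (Fin N)) =
      ENNReal.ofReal (X'.det * (1 + Wg b g / N * Q.trace)) := by
    simp_rw [hdet]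
    rw [← hval, ofReal_integral_eq_lintegral_ofReal hint]
    refine Filter.Eventually.of_forall fun x => ?_
    exact mul_nonneg hP'.det_pos.le (add_nonneg zero_le_one
      (mul_nonneg (div_nonneg hW.le hN'.le) (hQ0 x)))
  rw [hl]
  refine ENNReal.ofReal_le_ofReal ?_
  -- traces
  have hQtr : Q.trace = (X'⁻¹ * diagonal S).trace := by
    rw [hQ, trace_mul_comm, ← Matrix.mul_assoc, diagonal_mul_diagonal, trace_mul_comm]
    congr 3
    funext i
    exact Real.mul_self_sqrt (hS i).1.le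
  set T' : ℝ := (X'⁻¹ * diagonal S).trace with hT'
  set T : ℝ := (X⁻¹ * diagonal S).trace with hT
  have hdetle : X'.det ≤ X.det * Real.exp (-(δ * T)) := by
    have h1 := det_le_det_mul_exp hP hP'.posSemidef
    have h2 : (X⁻¹ * (X' - X)).trace = -(δ * T) := by
      have : X' - X = -(δ • diagonal S) := by rw [hX']; abel
      rw [this, Matrix.mul_neg, trace_neg, Matrix.mul_smul, trace_smul, smul_eq_mul]
    rwa [h2] at h1
  have hdiff : T' - T = δ * (X'⁻¹ * diagonal S * X⁻¹ * diagonal S).trace := by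
    have h1 : X'⁻¹ - X⁻¹ = δ • (X'⁻¹ * diagonal S * X⁻¹) := by
      have e1 : X'⁻¹ - X⁻¹ = X'⁻¹ * (X - X') * X⁻¹ := by
        rw [Matrix.mul_sub, Matrix.sub_mul, nonsing_inv_mul X' hu', Matrix.one_mul,
          Matrix.mul_assoc, mul_nonsing_inv X hu, Matrix.mul_one]
      have e2 : X - X' = δ • diagonal S := by rw [hX']; abel
      rw [e1, e2, Matrix.mul_smul, Matrix.smul_mul]
    rw [hT', hT, ← trace_sub, ← Matrix.sub_mul, h1, Matrix.smul_mul, trace_smul, smul_eq_mul]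
  have hbound : (X'⁻¹ * diagonal S * X⁻¹ * diagonal S).trace ≤ 2 / c ^ 2 * N := by
    rw [trace_mul_diag]
    have hterm : ∀ i : Fin N, (X'⁻¹ * diagonal S * X⁻¹) i i * S i ≤ 2 / c ^ 2 := by
      intro i
      have hsym : ∀ (Y : Matrix (Fin N) (Fin N) ℝ), Yᵀ = Y → ∀ j, Y⁻¹ i j = Y⁻¹ j i := by
        intro Y hY j
        have : (Y⁻¹)ᵀ = Y⁻¹ := by rw [transpose_nonsing_inv, hY]
        calc Y⁻¹ i j = (Y⁻¹)ᵀ j i := rfl
          _ = Y⁻¹ j i := by rw [this]
      have hcol : ∀ (Y : Matrix (Fin N) (Fin N) ℝ), Y⁻¹ *ᵥ (Pi.single i 1) = fun j => Y⁻¹ j i := by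
        intro Y
        funext j
        simp
      have hns : nsq (Pi.single i (1:ℝ) : Fin N → ℝ) = 1 := by
        unfold nsq
        simp [Pi.single_apply]
      have h1 := (inv_quad_le hX hc hcX (Pi.single i 1)).1
      have h2 := (inv_quad_le hX'T (half_pos hc) hX'c (Pi.single i 1)).1
      rw [hcol, hns] at h1 h2
      have h3 : (X'⁻¹ * diagonal S * X⁻¹) i i = ∑ j, S j * (X'⁻¹ j i * X⁻¹ j i) := by
        rw [Matrix.mul_apply]
        refine Finset.sum_congr rfl fun j _ => ?_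
        rw [mul_diagonal, hsym X' hX'T j]
        ring
      have h4 : (X'⁻¹ * diagonal S * X⁻¹) i i ≤ 2 / c ^ 2 := by
        rw [h3]
        have h5 : ∀ j : Fin N, S j * (X'⁻¹ j i * X⁻¹ j i) ≤
            X'⁻¹ j i ^ 2 / 4 + X⁻¹ j i ^ 2 := by
          intro j
          have h6 : X'⁻¹ j i * X⁻¹ j i ≤ X'⁻¹ j i ^ 2 / 4 + X⁻¹ j i ^ 2 := by
            nlinarith [sq_nonneg (X'⁻¹ j i / 2 - X⁻¹ j i)]
          have h7 : 0 ≤ X'⁻¹ j i ^ 2 / 4 + X⁻¹ j i ^ 2 := by positivity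
          calc S j * (X'⁻¹ j i * X⁻¹ j i) ≤ S j * (X'⁻¹ j i ^ 2 / 4 + X⁻¹ j i ^ 2) :=
                mul_le_mul_of_nonneg_left h6 (hS j).1.le
            _ ≤ 1 * (X'⁻¹ j i ^ 2 / 4 + X⁻¹ j i ^ 2) := mul_le_mul_of_nonneg_right (hS j).2 h7
            _ = _ := one_mul _
        calc ∑ j, S j * (X'⁻¹ j i * X⁻¹ j i) ≤ ∑ j, (X'⁻¹ j i ^ 2 / 4 + X⁻¹ j i ^ 2) :=
              Finset.sum_le_sum fun j _ => h5 j
          _ = nsq (fun j => X'⁻¹ j i) / 4 + nsq (fun j => X⁻¹ j i) := by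
              unfold nsq
              rw [Finset.sum_add_distrib, Finset.sum_div]
          _ ≤ 1 / (c / 2) ^ 2 / 4 + 1 / c ^ 2 := by linarith
          _ = 2 / c ^ 2 := by field_simp; ring
      have h8 : (0:ℝ) ≤ 2 / c ^ 2 := by positivity
      calc (X'⁻¹ * diagonal S * X⁻¹) i i * S i ≤ 2 / c ^ 2 * S i :=
            mul_le_mul_of_nonneg_right h4 (hS i).1.le
        _ ≤ 2 / c ^ 2 * 1 := mul_le_mul_of_nonneg_left (hS i).2 h8
        _ = 2 / c ^ 2 := mul_one _
    calc ∑ i, (X'⁻¹ * diagonal S * X⁻¹) i i * S i ≤ ∑ _i : Fin N, 2 / c ^ 2 :=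
          Finset.sum_le_sum fun i _ => hterm i
      _ = 2 / c ^ 2 * N := by simp [mul_comm]
  have hT'0 : 0 ≤ T' := by
    rw [← hQtr, hQ]
    have h1 : ((diagonal (fun i => Real.sqrt (S i)) * X'⁻¹ *
        diagonal (fun i => Real.sqrt (S i))).PosSemidef) := by
      have := hP'.inv.posSemidef.conjTranspose_mul_mul_same (diagonal (fun i => Real.sqrt (S i)))
      rwa [conjTranspose_eq_transpose_of_trivial, diagonal_transpose] at this
    exact h1.trace_nonneg
  rw [hQtr]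
  set ξ : ℝ := T' / N with hξ
  have hξT : δ * T' = g * ξ := by rw [hδ, hξ]; ring
  have hWξ : Wg b g / N * T' = Wg b g * ξ := by rw [hξ]; ring
  have hξ0 : 0 ≤ ξ := div_nonneg hT'0 hN'.le
  have hδT : g * ξ - 2 * g ^ 2 / (c ^ 2 * N) ≤ δ * T := by
    have h1 : δ * (T' - T) ≤ δ * (δ * (2 / c ^ 2 * N)) := by
      rw [hdiff]
      exact mul_le_mul_of_nonneg_left (mul_le_mul_of_nonneg_left hbound hδ0.le) hδ0.le
    have h2 : δ * (δ * (2 / c ^ 2 * N)) = 2 * g ^ 2 / (c ^ 2 * N) := by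
      rw [hδ]; field_simp
    rw [h2] at h1
    have : δ * (T' - T) = g * ξ - δ * T := by rw [mul_sub, hξT]
    linarith
  have hfac : 1 + Wg b g * ξ = (1 - b * g)⁻¹ * (1 + g * (ξ - b)) := by
    have hne : 1 - b * g ≠ 0 := h1bg.ne'
    have e1 : Wg b g * ξ = (1 - b * g)⁻¹ * (g * ξ) := by
      unfold Wg
      rw [div_eq_mul_inv]
      ring
    have e2 : (1:ℝ) = (1 - b * g)⁻¹ * (1 - b * g) := (inv_mul_cancel₀ hne).symm
    calc 1 + Wg b g * ξ = (1 - b * g)⁻¹ * (1 - b * g) + (1 - b * g)⁻¹ * (g * ξ) := by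
          rw [← e2, e1]
      _ = (1 - b * g)⁻¹ * (1 + g * (ξ - b)) := by ring
  have hmain : (1 + Wg b g * ξ) ≤ (1 - b * g)⁻¹ * Real.exp (g * (ξ - b)) := by
    rw [hfac]
    refine mul_le_mul_of_nonneg_left ?_ (inv_pos.mpr h1bg).le
    have := Real.add_one_le_exp (g * (ξ - b))
    linarith
  rw [hWξ]
  have hX0 := hP.det_pos
  calc X'.det * (1 + Wg b g * ξ)
      ≤ (X.det * Real.exp (-(δ * T))) * ((1 - b * g)⁻¹ * Real.exp (g * (ξ - b))) := by
        apply mul_le_mul hdetle hmain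
        · have : 0 ≤ Wg b g * ξ := mul_nonneg hW.le hξ0
          linarith
        · positivity
    _ ≤ (X.det * Real.exp (2 * g ^ 2 / (c ^ 2 * N) - g * ξ)) *
        ((1 - b * g)⁻¹ * Real.exp (g * (ξ - b))) := by
        apply mul_le_mul_of_nonneg_right
        · apply mul_le_mul_of_nonneg_left _ hX0.le
          apply Real.exp_le_exp.mpr
          linarith
        · have := (inv_pos.mpr h1bg).le
          positivity
    _ = X.det * (Real.exp (2 * g ^ 2 / (c ^ 2 * N)) * (1 - b * g)⁻¹ * Real.exp (-(b * g))) := by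
        have e1 : Real.exp (2 * g ^ 2 / (c ^ 2 * N) - g * ξ) * Real.exp (g * (ξ - b)) =
            Real.exp (2 * g ^ 2 / (c ^ 2 * N)) * Real.exp (-(b * g)) := by
          rw [← Real.exp_add, ← Real.exp_add]
          congr 1
          ring
        calc (X.det * Real.exp (2 * g ^ 2 / (c ^ 2 * N) - g * ξ)) *
              ((1 - b * g)⁻¹ * Real.exp (g * (ξ - b)))
            = X.det * (1 - b * g)⁻¹ *
              (Real.exp (2 * g ^ 2 / (c ^ 2 * N) - g * ξ) * Real.exp (g * (ξ - b))) := by ring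
          _ = _ := by rw [e1]; ring

end Pool.Agent.IP49
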